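import Pool.Agent.LIX.Log

/-!
# LIX, block TB: Borsuk's criterion in the plane
-/

namespace Pool.Agent.LIX

open Set Metric Complex Filter Topology

/-- the function `z - c` has no logarithm on a circle around `c` -/
theorem not_cLog_sphere (c : ℂ) {R : ℝ} (hR : 0 < R) :
    ¬ CLog (sphere c R) fun z => z - c := by
  rintro ⟨g, hg, he'⟩
  have he : ∀ z ∈ sphere c R, exp (g z) = z - c := he'
  -- the loop `t ↦ c + R exp (i t)`
  obtain ⟨γ, hγ⟩ : ∃ γ : ℝ → ℂ, ∀ t, γ t = c + R * exp (t * I) := ⟨_, fun _ => rfl⟩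
  have hγc : Continuous γ := by
    have : γ = fun t : ℝ => c + R * exp (t * I) := funext hγ
    rw [this]
    fun_prop
  have hγm : ∀ t, γ t ∈ sphere c R := by
    intro t
    rw [mem_sphere, dist_eq_norm, hγ, add_sub_cancel_left, norm_mul, norm_exp_ofReal_mul_I,
      mul_one, norm_real, Real.norm_eq_abs, abs_of_pos hR]
  have hRne : (R : ℂ) ≠ 0 := by exact_mod_cast hR.ne'
  obtain ⟨h, hh⟩ : ∃ h : ℝ → ℂ, ∀ t, h t = g (γ t) - t * I := ⟨_, fun _ => rfl⟩
  have hhc : Continuous h := by
    have : h = fun t : ℝ => g (γ t) - t * I := funext hh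
    rw [this]
    exact (hg.comp_continuous hγc hγm).sub (by fun_prop)
  have hhe : ∀ t, exp (h t) = R := by
    intro t
    rw [hh, exp_sub, he _ (hγm t), hγ, add_sub_cancel_left, mul_div_cancel_right₀ _ (exp_ne_zero _)]
  -- `(h t - log R) / (2 π i)` is an integer
  obtain ⟨k, hk⟩ : ∃ k : ℝ → ℝ, ∀ t, k t = (h t).im := ⟨_, fun _ => rfl⟩
  have hval : ∀ t, ∃ n : ℤ, (h t).im = n * (2 * Real.pi) := by
    intro t
    have h1 : exp (h t) = exp (Real.log R) := by
      rw [hhe, ← ofReal_exp, Real.exp_log hR]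
    rw [exp_eq_exp_iff_exists_int] at h1
    obtain ⟨n, hn⟩ := h1
    refine ⟨n, ?_⟩
    rw [hn]
    simp
  have himc : Continuous fun t => (h t).im := continuous_im.comp hhc
  have h0 : (h 0).im = (h (2 * Real.pi)).im + 2 * Real.pi := by
    have hγ0 : γ 0 = γ (2 * Real.pi) := by
      rw [hγ, hγ]
      push_cast
      rw [exp_two_pi_mul_I]
      simp
    rw [hh, hh, hγ0]
    simp
  -- intermediate value
  obtain ⟨n, hn⟩ := hval (2 * Real.pi)
  have hiv : (h (2 * Real.pi)).im + Real.pi ∈ (fun t => (h t).im) '' uIcc (2 * Real.pi) 0 := by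
    refine intermediate_value_uIcc himc.continuousOn ?_
    rw [h0, uIcc_of_le (by linarith [Real.pi_pos])]
    exact ⟨by linarith [Real.pi_pos], by linarith [Real.pi_pos]⟩
  obtain ⟨t, _, ht⟩ := hiv
  obtain ⟨m, hm⟩ := hval t
  have h2 : (m : ℝ) * (2 * Real.pi) = n * (2 * Real.pi) + Real.pi := by
    rw [← hm, ← hn]
    exact ht
  have h3 : (2 * m : ℝ) = 2 * n + 1 := by
    have h4 : (2 * m - 2 * n - 1 : ℝ) * Real.pi = 0 := by linarith
    have h5 := (mul_eq_zero.1 h4).resolve_right Real.pi_ne_zero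
    linarith
  have h6 : (2 * m : ℤ) = 2 * n + 1 := by exact_mod_cast h3
  omega

/-- a continuous function without zeros on a closed disk cannot be `z - c` on the boundary -/
theorem exists_zero_of_sphere {c : ℂ} {R : ℝ} (hR : 0 < R) {F : ℂ → ℂ}
    (hF : ContinuousOn F (closedBall c R)) (h : ∀ z ∈ sphere c R, F z = z - c) :
    ∃ z ∈ closedBall c R, F z = 0 := by
  by_contra hne
  push Not at hne
  have h1 := cLog_convex (isCompact_closedBall c R) (convex_closedBall c R) hF hne
  exact not_cLog_sphere c hR ((h1.mono sphere_subset_closedBall).congr fun z hz => (h z hz).symm)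

section component

variable {K : Set ℂ}

/-- the logarithm of `z - a` on `K` only depends on the component of `a` -/
theorem cLog_iff_of_component (hK : IsCompact K) {S : Set ℂ} (hS : IsPreconnected S)
    (hSK : Disjoint S K) {a b : ℂ} (ha : a ∈ S) (hb : b ∈ S) :
    CLog K (fun z => z - a) ↔ CLog K fun z => z - b := by
  refine hS.induction₂ (fun a b => CLog K (fun z => z - a) ↔ CLog K fun z => z - b)
    (fun x hx => ?_) (fun x y z _ _ _ h1 h2 => h1.trans h2) (fun x y _ _ h => h.symm) ha hb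
  have hxK : x ∉ K := fun h => Set.disjoint_left.1 hSK hx h
  obtain ⟨d, hd, hdK⟩ : ∃ d > 0, ∀ z ∈ K, d ≤ dist z x := by
    rcases K.eq_empty_or_nonempty with rfl | hne
    · exact ⟨1, one_pos, fun z hz => hz.elim⟩
    · refine ⟨infDist x K, ?_, fun z hz => ?_⟩
      · exact (hK.isClosed.notMem_iff_infDist_pos hne).1 hxK
      · rw [dist_comm]
        exact infDist_le_dist_of_mem hz
  refine mem_nhdsWithin_of_mem_nhds ?_
  filter_upwards [ball_mem_nhds x (half_pos hd)] with y hy
  rw [mem_ball] at hy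
  have hc : ∀ a : ℂ, ContinuousOn (fun z : ℂ => z - a) K := fun a => by fun_prop
  constructor
  · intro h
    refine h.of_close (hc y) fun z hz => ?_
    have h1 : z - y - (z - x) = x - y := by ring
    rw [h1, ← dist_eq_norm, dist_comm]
    have h2 := hdK z hz
    rw [dist_eq_norm] at h2
    linarith
  · intro h
    refine h.of_close (hc x) fun z hz => ?_
    have h1 : z - x - (z - y) = y - x := by ring
    rw [h1, ← dist_eq_norm]
    have h2 := hdK z hz
    have h3 := dist_triangle z y x
    rw [← dist_eq_norm z y]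
    linarith

theorem cLog_far (hK : IsCompact K) : ∃ R : ℝ, ∀ a : ℂ, R < ‖a‖ → CLog K fun z => z - a := by
  obtain ⟨R, hR⟩ := hK.isBounded.exists_norm_le
  refine ⟨max R 0, fun a ha => ?_⟩
  have ha0 : a ≠ 0 := by
    rw [← norm_pos_iff]
    exact lt_of_le_of_lt (le_max_right _ _) ha
  have h1 : CLog K fun _ : ℂ => -a := cLog_const (neg_ne_zero.2 ha0)
  refine h1.of_close (by fun_prop) fun z hz => ?_
  have h2 : z - a - -a = z := by ring
  rw [h2, norm_neg]
  exact lt_of_le_of_lt ((hR z hz).trans (le_max_left _ _)) ha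

/-- points of the unbounded component -/
theorem cLog_of_unbounded (hK : IsCompact K) {S : Set ℂ} (hS : IsPreconnected S)
    (hSK : Disjoint S K) (hb : ¬ Bornology.IsBounded S) {a : ℂ} (ha : a ∈ S) :
    CLog K fun z => z - a := by
  obtain ⟨R, hR⟩ := cLog_far hK
  obtain ⟨b, hbS, hbR⟩ : ∃ b ∈ S, R < ‖b‖ := by
    by_contra hne
    push Not at hne
    exact hb (isBounded_iff_forall_norm_le.2 ⟨R, hne⟩)
  exact (cLog_iff_of_component hK hS hSK ha hbS).2 (hR b hbR)

/-- the frontier of a component of the complement lies in `K` -/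
theorem frontier_component (hK : IsClosed K) (a : ℂ) :
    frontier (connectedComponentIn Kᶜ a) ⊆ K := by
  intro z hz
  by_contra hzK
  have ho : IsOpen (Kᶜ : Set ℂ) := hK.isOpen_compl
  have hU : IsOpen (connectedComponentIn Kᶜ a) := ho.connectedComponentIn
  have hV : IsOpen (connectedComponentIn Kᶜ z) := ho.connectedComponentIn
  have hzV : z ∈ connectedComponentIn Kᶜ z := mem_connectedComponentIn hzK
  have hzc : z ∈ closure (connectedComponentIn Kᶜ a) := frontier_subset_closure hz
  obtain ⟨w, hwV, hwU⟩ := mem_closure_iff.1 hzc _ hV hzV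
  have h1 := connectedComponentIn_eq hwV
  have h2 := connectedComponentIn_eq hwU
  rw [frontier, hU.interior_eq] at hz
  rw [h2, ← h1] at hz
  exact hz.2 hzV

/-- **Borsuk**: points of bounded components -/
theorem not_cLog_of_bounded (hK : IsCompact K) {a : ℂ} (ha : a ∉ K)
    (hb : Bornology.IsBounded (connectedComponentIn Kᶜ a)) : ¬ CLog K fun z => z - a := by
  classical
  rintro ⟨g, hg, he⟩
  obtain ⟨U, hUdef⟩ : ∃ U, U = connectedComponentIn Kᶜ a := ⟨_, rfl⟩
  rw [← hUdef] at hb
  have ho : IsOpen (Kᶜ : Set ℂ) := hK.isClosed.isOpen_compl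
  have hU : IsOpen U := by
    rw [hUdef]
    exact ho.connectedComponentIn
  have haU : a ∈ U := by
    rw [hUdef]
    exact mem_connectedComponentIn ha
  have hfr : frontier U ⊆ K := by
    rw [hUdef]
    exact frontier_component hK.isClosed a
  -- extension of the logarithm
  obtain ⟨G, hG⟩ : ∃ G : C(ℂ, ℂ), ∀ z ∈ K, G z = g z := by
    obtain ⟨G, hG⟩ := ContinuousMap.exists_restrict_eq hK.isClosed
      (⟨K.domRestrict g, continuousOn_iff_continuous_domRestrict.1 hg⟩ : C(K, ℂ))
    refine ⟨G, fun z hz => ?_⟩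
    have := DFunLike.congr_fun hG ⟨z, hz⟩
    exact this
  have hF : Continuous (U.piecewise (fun z => exp (G z)) fun z => z - a) := by
    refine Continuous.piecewise (fun z hz => ?_) (by fun_prop) (by fun_prop)
    have hzK := hfr hz
    rw [hG z hzK, he z hzK]
  obtain ⟨R, hR⟩ := isBounded_iff_forall_norm_le.1 hb
  obtain ⟨R', hR'⟩ : ∃ R', R' = R + ‖a‖ + 1 := ⟨_, rfl⟩
  have hR'pos : 0 < R' := by
    have := (norm_nonneg a).trans (hR a haU)
    rw [hR']
    positivity
  obtain ⟨z, hz, hz0⟩ := exists_zero_of_sphere hR'pos hF.continuousOn (c := a) (R := R') fun z hz => by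
    have hzU : z ∉ U := by
      intro hzU
      have h1 := hR z hzU
      rw [mem_sphere, dist_eq_norm] at hz
      have h2 := norm_sub_le z a
      rw [hz, hR'] at h2
      linarith
    rw [Set.piecewise_eq_of_notMem _ _ _ hzU]
  by_cases hzU : z ∈ U
  · rw [Set.piecewise_eq_of_mem _ _ _ hzU] at hz0
    exact exp_ne_zero _ hz0
  · rw [Set.piecewise_eq_of_notMem _ _ _ hzU, sub_eq_zero] at hz0
    exact hzU (hz0 ▸ haU)

/-- **Borsuk's criterion** -/
theorem cLog_iff_unbounded (hK : IsCompact K) {a : ℂ} (ha : a ∉ K) :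
    CLog K (fun z => z - a) ↔ ¬ Bornology.IsBounded (connectedComponentIn Kᶜ a) := by
  constructor
  · intro h hb
    exact not_cLog_of_bounded hK ha hb h
  · intro hb
    exact cLog_of_unbounded hK isPreconnected_connectedComponentIn
      (disjoint_left.2 fun z hz hzK => connectedComponentIn_subset Kᶜ a hz hzK) hb
      (mem_connectedComponentIn ha)

/-- an arc does not separate the plane -/
theorem cLog_arc {γ : ℝ → ℂ} (hγ : ContinuousOn γ (Icc 0 1)) (hi : InjOn γ (Icc 0 1)) {a : ℂ}
    (ha : a ∉ γ '' Icc 0 1) : CLog (γ '' Icc 0 1) fun z => z - a := by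
  refine CLog.image isCompact_Icc hγ hi ?_
  refine cLog_convex isCompact_Icc (convex_Icc 0 1) (hγ.sub continuousOn_const) fun t ht h0 => ?_
  exact ha ⟨t, ht, sub_eq_zero.1 h0⟩

end component

end Pool.Agent.LIX
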