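import Pool.Agent.LIX.StmtsK
import Pool.Agent.Lib_helper47.RBrouwer

set_option autoImplicit false

namespace Pool.Agent.LIX.K

open Set Topology

namespace EXTx

/-- coordinatewise projection to the cube -/
noncomputable def clamp {n : ℕ} (x : Fin n → ℝ) : Fin n → ℝ := fun i => max (-1) (min 1 (x i))

theorem clamp_mem {n : ℕ} (x : Fin n → ℝ) : clamp x ∈ Icc (-1 : Fin n → ℝ) 1 := by
  constructor
  · intro i
    exact le_max_left _ _
  · intro i
    exact max_le (by norm_num [Pi.one_apply]) (min_le_left _ _)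

theorem clamp_eq {n : ℕ} {x : Fin n → ℝ} (hx : x ∈ Icc (-1 : Fin n → ℝ) 1) : clamp x = x := by
  funext i
  have h1 : -1 ≤ x i := hx.1 i
  have h2 : x i ≤ 1 := hx.2 i
  show max (-1) (min 1 (x i)) = x i
  rw [min_eq_right h2, max_eq_right h1]

theorem clamp_cont {n : ℕ} : Continuous (clamp (n := n)) := by
  refine continuous_pi fun i => ?_
  exact continuous_const.max (continuous_const.min (continuous_apply i))

theorem mem_of_norm {n : ℕ} {x : Fin n → ℝ} (hx : ‖x‖ ≤ 1) : x ∈ Icc (-1 : Fin n → ℝ) 1 := by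
  have h : ∀ i, |x i| ≤ 1 := fun i => (norm_le_pi_norm x i).trans hx
  exact ⟨fun i => (abs_le.1 (h i)).1, fun i => (abs_le.1 (h i)).2⟩

end EXTx

open EXTx in
theorem t_EXT : S_EXT := by
  intro n G hG h0
  set f : (Fin n → ℝ) → (Fin n → ℝ) := fun x => -(‖G (clamp x)‖⁻¹ • G (clamp x)) with hf
  have hGc : Continuous fun x => G (clamp x) :=
    hG.comp_continuous clamp_cont clamp_mem
  have hne : ∀ x, ‖G (clamp x)‖ ≠ 0 := fun x => norm_ne_zero_iff.2 (h0 _ (clamp_mem x))
  have hfc : Continuous f := ((hGc.norm.inv₀ hne).smul hGc).neg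
  have hfn : ∀ x, ‖f x‖ = 1 := by
    intro x
    rw [hf]
    simp only [norm_neg, norm_smul, norm_inv, norm_norm]
    exact inv_mul_cancel₀ (hne x)
  set e := EuclideanSpace.equiv (Fin n) ℝ with he
  set R : ℝ := n + 1 with hR
  have hRp : 0 < R := by positivity
  set F : EuclideanSpace ℝ (Fin n) → EuclideanSpace ℝ (Fin n) :=
    fun y => e.symm (R⁻¹ • f (R • e y)) with hF
  have hFc : Continuous F := by
    refine e.symm.continuous.comp ?_
    have h1 : Continuous fun y : EuclideanSpace ℝ (Fin n) => R • e y :=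
      e.continuous.const_smul R
    exact (hfc.comp h1).const_smul R⁻¹
  have hFn : ∀ y, ‖F y‖ ≤ 1 := by
    intro y
    have h1 : ‖F y‖ = R⁻¹ * ‖e.symm (f (R • e y))‖ := by
      rw [hF]
      simp only [map_smul, norm_smul, norm_inv, Real.norm_eq_abs, abs_of_pos hRp]
    have h2 : ‖e.symm (f (R • e y))‖ ≤ R := by
      rw [EuclideanSpace.norm_eq]
      refine Real.sqrt_le_iff.2 ⟨hRp.le, ?_⟩
      have h3 : ∀ i ∈ (Finset.univ : Finset (Fin n)),
          ‖(e.symm (f (R • e y))) i‖ ^ 2 ≤ 1 := by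
        intro i _
        have h4 : ‖(e.symm (f (R • e y))) i‖ ≤ 1 := by
          have h5 : (e.symm (f (R • e y))) i = f (R • e y) i := rfl
          rw [h5]
          exact (norm_le_pi_norm _ i).trans (hfn _).le
        exact pow_le_one₀ (norm_nonneg _) h4
      refine (Finset.sum_le_sum h3).trans ?_
      simp only [Finset.sum_const, Finset.card_univ, Fintype.card_fin, nsmul_eq_mul, mul_one]
      nlinarith [Nat.cast_nonneg (α := ℝ) n]
    rw [h1]
    calc R⁻¹ * ‖e.symm (f (R • e y))‖ ≤ R⁻¹ * R := by gcongr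
      _ = 1 := inv_mul_cancel₀ hRp.ne'
  obtain ⟨y, _, hy⟩ := Pool.Agent.Lib_helper47.R.brouwer (f := F) hFc.continuousOn
    (fun y _ => by
      rw [mem_closedBall_zero_iff]
      exact hFn y)
  obtain ⟨x, hx⟩ : ∃ x : Fin n → ℝ, x = R • e y := ⟨_, rfl⟩
  have h1 : x = f x := by
    have h2 : e y = R⁻¹ • f x := by
      conv_lhs => rw [← hy]
      rw [hF]
      simp only [ContinuousLinearEquiv.apply_symm_apply]
      rw [hx]
    have h3 : R • e y = f x := by
      rw [h2, smul_smul, mul_inv_cancel₀ hRp.ne', one_smul]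
    rw [← hx] at h3
    exact h3
  have hxn : ‖x‖ = 1 := by
    rw [h1]
    exact hfn x
  have hxm : x ∈ Icc (-1 : Fin n → ℝ) 1 := mem_of_norm hxn.le
  have hcl : clamp x = x := clamp_eq hxm
  refine ⟨x, hxm, ?_, ‖G x‖, norm_pos_iff.2 (h0 x hxm), ?_⟩
  · by_contra hno
    push Not at hno
    have h3 : ‖x‖ < 1 := by
      rw [pi_norm_lt_iff one_pos]
      intro i
      exact lt_of_le_of_ne ((norm_le_pi_norm x i).trans hxn.le) (hno i)
    exact absurd hxn h3.ne
  · have h4 : x = -(‖G x‖⁻¹ • G x) := by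
      conv_lhs => rw [h1]
      rw [hf]
      simp only [hcl]
    have h5 : ‖G x‖ ≠ 0 := norm_ne_zero_iff.2 (h0 x hxm)
    have h6 : ‖G x‖ • x = -G x := by
      have h7 : ‖G x‖ • x = ‖G x‖ • (-(‖G x‖⁻¹ • G x)) := congrArg _ h4
      rw [h7, smul_neg, smul_smul, mul_inv_cancel₀ h5, one_smul]
    rw [h6, neg_neg]

end Pool.Agent.LIX.K
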