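import Mathlib

/-!
# LIX: definitions for MP_a9da24_gt (local index versus Euler characteristic and length)

Category: topological, with locally flat surfaces and bicollared disks in proper position.

* `Cells Y`: a 3-ball `body` with boundary sphere `bd` and the six edges of a tetrahedral cell
  structure; `stdTet` is the standard 3-simplex.
* `IsSurf`: compact properly embedded surface, boundary missing the vertices and transversal to
  the 1-skeleton.  `HasChi`: Euler characteristic (finite cell decomposition).  `len`: total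
  boundary length.
* `IsCompPar`, `IsEdgePar`: parametrised compressing and edge-compressing disks.
* `diskCpx`: the disk complex; `Cpx.Space`: the geometric realization with the weak topology.
* `HasIndex`, `WellDef`: local index, well-defined local index.
-/

namespace Pool.Agent.LIX

open Set Metric

/-! ## Abstract simplicial complexes and their realizations -/

/-- An abstract simplicial complex on (a subset of) the vertex set `V`: a family of nonempty
finite sets closed under nonempty subsets. -/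
structure Cpx (V : Type*) where
  /-- the simplices -/
  faces : Set (Finset V)
  nonempty_of_mem : ∀ s ∈ faces, s.Nonempty
  down_closed : ∀ s ∈ faces, ∀ t, t ⊆ s → t.Nonempty → t ∈ faces

/-- The underlying set of the geometric realization: functions `V → ℝ` (barycentric coordinates)
with finite support, nonnegative, of total mass one, whose support is a simplex. -/
def Cpx.Space {V : Type*} (K : Cpx V) : Type _ :=
  {x : V →₀ ℝ // (∀ v, 0 ≤ x v) ∧ (x.sum fun _ r => r) = 1 ∧ x.support ∈ K.faces}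

open Classical in
/-- The closed simplex spanned by `s`: the inclusion of the standard simplex with vertex set `s`
in the realization. -/
noncomputable def Cpx.simplexMap {V : Type*} (K : Cpx V) (s : K.faces)
    (y : stdSimplex ℝ (s : Finset V)) : K.Space :=
  ⟨Finsupp.onFinset (s : Finset V) (fun v => if h : v ∈ (s : Finset V) then y.1 ⟨v, h⟩ else 0)
      (fun v hv => by
        by_contra h
        exact hv (dif_neg h)), by
    intro v
    rw [Finsupp.onFinset_apply]
    split_ifs with h
    · exact y.2.1 _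
    · exact le_rfl, by
    have h1 : ∀ v ∈ (s : Finset V), (fun (_ : V) (r : ℝ) => r) v 0 = 0 := fun _ _ => rfl
    rw [Finsupp.onFinset_sum _ (fun _ => rfl)]
    rw [← y.2.2, ← Finset.sum_coe_sort (s : Finset V)]
    refine Finset.sum_congr rfl fun v _ => ?_
    rw [dif_pos v.2], by
    have hs : (Finsupp.onFinset (s : Finset V)
        (fun v => if h : v ∈ (s : Finset V) then y.1 ⟨v, h⟩ else 0)
      (fun v hv => by
        by_contra h
        exact hv (dif_neg h))).support ⊆ (s : Finset V) := Finsupp.support_onFinset_subset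
    refine K.down_closed _ s.2 _ hs ?_
    by_contra hne
    rw [Finset.not_nonempty_iff_eq_empty, Finsupp.support_eq_empty] at hne
    have h0 : ∀ v : (s : Finset V), y.1 v = 0 := by
      intro v
      have h2 := DFunLike.congr_fun hne (v : V)
      rw [Finsupp.onFinset_apply, dif_pos v.2] at h2
      exact h2
    have h3 := y.2.2
    rw [Finset.sum_eq_zero fun v _ => h0 v] at h3
    exact zero_ne_one h3⟩

/-- The weak topology on the realization: a set is open iff its trace on every closed simplex is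
open. -/
noncomputable instance Cpx.instTopologicalSpaceSpace {V : Type*} (K : Cpx V) : TopologicalSpace K.Space :=
  ⨆ s : K.faces, TopologicalSpace.coinduced (K.simplexMap s) inferInstance

/-- `π_m(X) ≠ 0`: some homotopy group (set, for `m = 0`) is nontrivial. -/
def PiNe (m : ℕ) (X : Type*) [TopologicalSpace X] : Prop :=
  ∃ x : X, Nontrivial (HomotopyGroup.Pi m X x)

/-! ## The tetrahedron -/

/-- A cell structure on a subset `body` of `Y`: `bd` is its boundary sphere, `edge i j` (`i ≠ j`)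
is the closed edge with end points the vertices `edge i i` and `edge j j`. -/
structure Cells (Y : Type*) where
  /-- the 3-ball -/
  body : Set Y
  /-- its boundary -/
  bd : Set Y
  /-- the closed edges (and, on the diagonal, the vertices) -/
  edge : Fin 4 → Fin 4 → Set Y

/-- The 1-skeleton `T¹`. -/
def Cells.skel {Y : Type*} (T : Cells Y) : Set Y := ⋃ i, ⋃ j, T.edge i j

/-- The set of vertices. -/
def Cells.vert {Y : Type*} (T : Cells Y) : Set Y := ⋃ i, T.edge i i

/-- The standard 3-simplex with its standard cell structure. -/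
def stdTet : Cells (Fin 4 → ℝ) where
  body := stdSimplex ℝ (Fin 4)
  bd := {x | x ∈ stdSimplex ℝ (Fin 4) ∧ ∃ i, x i = 0}
  edge i j := {x | x ∈ stdSimplex ℝ (Fin 4) ∧ ∀ k, k ≠ i → k ≠ j → x k = 0}

section

variable {Y : Type*} [TopologicalSpace Y]

/-! ## Surfaces -/

/-- There is a chart of `T.body` around `p` onto an open subset of the model `M ⊆ ℝ³` which takes
the surface `H` to the plane `y = 0`, the boundary of the body to `B` and the 1-skeleton
to `S`. -/
def HasChart (T : Cells Y) (H : Set Y) (p : Y) (M B S : Set (ℝ × ℝ × ℝ)) : Prop :=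
  ∃ (U : Set Y) (W : Set (ℝ × ℝ × ℝ)), IsOpen U ∧ p ∈ U ∧ IsOpen W ∧
    ∃ e : ↥(U ∩ T.body) ≃ₜ ↥(W ∩ M), ∀ x : ↥(U ∩ T.body),
      ((x : Y) ∈ H ↔ (e x : ℝ × ℝ × ℝ).2.1 = 0) ∧
      ((x : Y) ∈ T.bd ↔ (e x : ℝ × ℝ × ℝ) ∈ B) ∧
      ((x : Y) ∈ T.skel ↔ (e x : ℝ × ℝ × ℝ) ∈ S)

/-- `H` is a compact properly embedded (locally flat) surface in the tetrahedron whose boundary
misses the vertices and meets the 1-skeleton transversally.  Coordinates of a point of `ℝ³` are
`(x, y, z)`; `H` is `y = 0`, the body is `z ≥ 0` near boundary points, the 1-skeleton is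
`x = z = 0`. -/
structure IsSurf (T : Cells Y) (H : Set Y) : Prop where
  sub : H ⊆ T.body
  compact : IsCompact H
  miss : Disjoint H T.vert
  inner : ∀ p ∈ H, p ∉ T.bd → HasChart T H p univ ∅ ∅
  outer : ∀ p ∈ H, p ∈ T.bd → p ∉ T.skel → HasChart T H p {v | 0 ≤ v.2.2} {v | v.2.2 = 0} ∅
  cross : ∀ p ∈ H, p ∈ T.skel →
    HasChart T H p {v | 0 ≤ v.2.2} {v | v.2.2 = 0} {v | v.1 = 0 ∧ v.2.2 = 0}

/-- The Euler characteristic of `H` is `n`: for some finite partition of `H` in open cells (each
with frontier in the union of the cells of smaller dimension), the alternating number of cells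
is `n`. -/
def HasChi (H : Set Y) (n : ℤ) : Prop :=
  ∃ (m : ℕ) (c : Fin m → Set Y) (d : Fin m → ℕ),
    (⋃ i, c i) = H ∧ (∀ i j, i ≠ j → Disjoint (c i) (c j)) ∧
    (∀ i, Nonempty (↥(c i) ≃ₜ (Fin (d i) → ℝ))) ∧
    (∀ i, closure (c i) \ c i ⊆ ⋃ j, ⋃ _ : d j < d i, c j) ∧
    n = ∑ i, (-1) ^ d i

/-- The total boundary length `|∂H|`: the number of points of `∂H ∩ T¹`. -/
noncomputable def len (T : Cells Y) (H : Set Y) : ℕ := (H ∩ T.skel).ncard

/-! ## Compressing and edge-compressing disks -/

/-- The unit disk. -/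
def Disk : Set ℂ := {z | ‖z‖ ≤ 1}

/-- The upper half disk; its boundary is the diameter `im = 0` and the semicircle `‖z‖ = 1`. -/
def HDisk : Set ℂ := {z | ‖z‖ ≤ 1 ∧ 0 ≤ z.im}

/-- `f` (on the unit disk) parametrises a compressing disk `C` for `H`: a bicollared disk in the
interior of the body with `C ∩ H = ∂C`, such that the loop `∂C` is essential on `H` (it does not
extend to a map from the disk to `H`). -/
def IsCompPar (T : Cells Y) (H : Set Y) (f : ℂ → Y) : Prop :=
  (∃ Φ : ℂ × ℝ → Y, ContinuousOn Φ (Disk ×ˢ Icc (-1) 1) ∧ InjOn Φ (Disk ×ˢ Icc (-1) 1) ∧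
    (∀ z ∈ Disk, ∀ s ∈ Icc (-1 : ℝ) 1, Φ (z, s) ∈ T.body ∧ Φ (z, s) ∉ T.bd ∧
      (Φ (z, s) ∈ H ↔ ‖z‖ = 1)) ∧
    (∀ z ∈ Disk, Φ (z, 0) = f z)) ∧
  ¬ ∃ g : ℂ → Y, ContinuousOn g Disk ∧ (∀ z ∈ Disk, g z ∈ H) ∧ ∀ z : ℂ, ‖z‖ = 1 → g z = f z

/-- `f` (on the upper half disk) parametrises an edge-compressing disk `E` for `H`: a bicollared
disk with `∂E = α ∪ β`, where `α` (the image of the diameter) is `E ∩ H` and `β` (the image of
the semicircle) is `E ∩ T¹ = E ∩ ∂Δ`, a subarc of one edge. -/
def IsEdgePar (T : Cells Y) (H : Set Y) (f : ℂ → Y) : Prop :=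
  (∃ Φ : ℂ × ℝ → Y, ContinuousOn Φ (HDisk ×ˢ Icc (-1) 1) ∧ InjOn Φ (HDisk ×ˢ Icc (-1) 1) ∧
    (∀ z ∈ HDisk, ∀ s ∈ Icc (-1 : ℝ) 1, Φ (z, s) ∈ T.body ∧
      (Φ (z, s) ∈ T.bd ↔ ‖z‖ = 1) ∧
      (Φ (z, s) ∈ H ↔ z.im = 0) ∧
      (Φ (z, s) ∈ T.skel ↔ ‖z‖ = 1 ∧ s = 0)) ∧
    (∀ z ∈ HDisk, Φ (z, 0) = f z)) ∧
  ∃ i j, ∀ z ∈ HDisk, ‖z‖ = 1 → f z ∈ T.edge i j

/-- `D` is a compressing or an edge-compressing disk for `H`: an element of `CE(H)`. -/
def IsCE (T : Cells Y) (H D : Set Y) : Prop :=
  (∃ f, IsCompPar T H f ∧ D = f '' Disk) ∨ (∃ f, IsEdgePar T H f ∧ D = f '' HDisk)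

/-- The set `CE(H)`. -/
def CE (T : Cells Y) (H : Set Y) : Type _ := {D : Set Y // IsCE T H D}

/-- `D` and `D'` are isotopic through disks in `CE(H)`. -/
def Isotopic (T : Cells Y) (H D D' : Set Y) : Prop :=
  (∃ F : ℂ × ℝ → Y, ContinuousOn F (Disk ×ˢ Icc 0 1) ∧
    (∀ t ∈ Icc (0 : ℝ) 1, IsCompPar T H fun z => F (z, t)) ∧
    (fun z => F (z, 0)) '' Disk = D ∧ (fun z => F (z, 1)) '' Disk = D') ∨
  (∃ F : ℂ × ℝ → Y, ContinuousOn F (HDisk ×ˢ Icc 0 1) ∧
    (∀ t ∈ Icc (0 : ℝ) 1, IsEdgePar T H fun z => F (z, t)) ∧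
    (fun z => F (z, 0)) '' HDisk = D ∧ (fun z => F (z, 1)) '' HDisk = D')

/-- The vertices of the disk complex: isotopy classes of disks. -/
def Vtx (T : Cells Y) (H : Set Y) : Type _ :=
  Quot fun D D' : CE T H => Isotopic T H D.1 D'.1

/-- The class of a disk. -/
def cls {T : Cells Y} {H : Set Y} (D : CE T H) : Vtx T H := Quot.mk _ D

/-- The disk complex `[CE(H)]`: a nonempty finite set of classes is a simplex iff the classes
have representatives any two of which are disjoint away from the 1-skeleton. -/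
def diskCpx (T : Cells Y) (H : Set Y) : Cpx (Vtx T H) where
  faces := {s | s.Nonempty ∧ ∃ D : Vtx T H → CE T H, (∀ v ∈ s, cls (D v) = v) ∧
    ∀ v ∈ s, ∀ w ∈ s, v ≠ w → (D v).1 ∩ (D w).1 ⊆ T.skel}
  nonempty_of_mem := fun _ hs => hs.1
  down_closed := fun _ hs _ ht hne =>
    ⟨hne, hs.2.imp fun _ hD => ⟨fun v hv => hD.1 v (ht hv),
      fun v hv w hw => hD.2 v (ht hv) w (ht hw)⟩⟩

/-! ## The local index -/

/-- `H` has a well-defined local index (is topologically minimal): the disk complex is empty or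
non-contractible. -/
def WellDef (T : Cells Y) (H : Set Y) : Prop :=
  IsEmpty (Vtx T H) ∨ ¬ ContractibleSpace (diskCpx T H).Space

/-- The local index of `H` is `n`: `n = 0` and the disk complex is empty, or the disk complex is
nonempty and `n ≥ 1` is least with `π_{n-1} ≠ 0`. -/
def HasIndex (T : Cells Y) (H : Set Y) (n : ℕ) : Prop :=
  (IsEmpty (Vtx T H) ∧ n = 0) ∨
  (Nonempty (Vtx T H) ∧ 1 ≤ n ∧ PiNe (n - 1) (diskCpx T H).Space ∧
    ∀ m, m < n - 1 → ¬ PiNe m (diskCpx T H).Space)

end

/-- The main theorem: two connected surfaces in the tetrahedron with well-defined local index,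
with the same Euler characteristic `-1` and the same boundary length `12`, one of local index at
most `2`, the other of local index `3`. -/
def Main : Prop :=
  ∃ H H' : Set (Fin 4 → ℝ), IsSurf stdTet H ∧ IsSurf stdTet H' ∧
    IsConnected H ∧ IsConnected H' ∧ HasChi H (-1) ∧ HasChi H' (-1) ∧
    len stdTet H = 12 ∧ len stdTet H' = 12 ∧ WellDef stdTet H ∧ WellDef stdTet H' ∧
    (∃ i ≤ 2, HasIndex stdTet H i) ∧ HasIndex stdTet H' 3

end Pool.Agent.LIX
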