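import Pool.Agent.LIX.Defs
import Pool.Agent.LIX.Bors

/-!
# LIX, block TB: the plane toolkit (statements)

`CLog K f` (`Log.lean`): `f : X → ℂ` has a continuous complex logarithm on `K`; API in `Log.lean`
(homotopy invariance `cLog_homotopy`, convex sets `cLog_convex`, images `CLog.image`) and
`Bors.lean` (Borsuk's criterion).
-/

namespace Pool.Agent.LIX

open Set Metric Complex

/-- `z ∉ K` and `x - z` has a continuous argument on `K` -/
def HasLog (K : Set ℂ) (z : ℂ) : Prop :=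
  z ∉ K ∧ ∃ φ : ℂ → ℝ, ContinuousOn φ K ∧ ∀ x ∈ K, x - z = ‖x - z‖ * exp (φ x * I)

/-- `g - z` has a continuous argument on `A` -/
def LogOn {E : Type*} [TopologicalSpace E] (A : Set E) (g : E → ℂ) (z : ℂ) : Prop :=
  ∃ φ : E → ℝ, ContinuousOn φ A ∧ ∀ x ∈ A, g x - z = ‖g x - z‖ * exp (φ x * I)

/-! ## Logarithms -/

/-- (2) -/
def S_HL1 : Prop :=
  ∀ (K S : Set ℂ) (z w : ℂ), IsCompact K → IsPreconnected S → S ⊆ Kᶜ → z ∈ S → w ∈ S →
    (HasLog K z ↔ HasLog K w)

/-- (3) -/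
def S_HL2 : Prop :=
  ∀ (K : Set ℂ) (R : ℝ) (z : ℂ), K ⊆ closedBall 0 R → R < ‖z‖ → HasLog K z

/-- (4) Borsuk -/
def S_BOR : Prop :=
  ∀ (K : Set ℂ) (z : ℂ), IsCompact K → HasLog K z → ∀ R : ℝ, ∃ w, R < ‖w‖ ∧ JoinedIn Kᶜ z w

/-- (5) arcs -/
def S_ARC : Prop :=
  ∀ (g : ℝ → ℂ) (z : ℂ), ContinuousOn g (Icc (-1) 1) → InjOn g (Icc (-1) 1) →
    z ∉ g '' Icc (-1) 1 → HasLog (g '' Icc (-1) 1) z

/-- (6) a continuous argument on a convex set which need not be compact. PROOF: `A` empty is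
trivial. Fix `x0 ∈ A`. For `x ∈ A` the path `t ↦ g (x0 + t (x - x0))` in `ℂ \ {0}` has a unique lift
`L x : [0,1] → ℂ` through `exp` with `L x 0 = log (g x0)` (use the covering map
`Complex.isCoveringMap_exp`, or `cLog_convex` for the segment); put `ψ x = L x 1`. Continuity of `ψ` at
`x ∈ A`: the segment from `x0` to `x` is compact, so there are `η, δ > 0` with
`‖g p - g q‖ < δ ≤ ‖g q‖` for `q` in the segment, `p ∈ A`, `dist p q < η`; for `x' ∈ A` near `x` the
function `t ↦ log (g (x0 + t (x' - x0)) / g (x0 + t (x - x0)))` is continuous and has value `0` at `t = 0`, so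
`ψ x' - ψ x = log (g x' / g x)` by uniqueness of lifts, which tends to `0`. (Alternative: Mathlib
`IsCoveringMap.continuous_lift` / `exists_lift_nhds` or `IsCoveringMap.liftHomotopy` applied to the space `A` and
the homotopy `(t, x) ↦ g (x0 + t (x - x0))`: this gives the continuous lift at once. This is the
recommended way.) Then `φ = im ψ`. -/
def S_LIFT : Prop :=
  ∀ (E : Type) [NormedAddCommGroup E] [NormedSpace ℝ E] (A : Set E) (g : E → ℂ),
    Convex ℝ A → ContinuousOn g A → (∀ x ∈ A, g x ≠ 0) →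
    ∃ φ : E → ℝ, ContinuousOn φ A ∧ ∀ x ∈ A, g x = ‖g x‖ * exp (φ x * I)

/-- (6) uniqueness. PROOF: `(φ - ψ) / (2 π)` is continuous on `A` with integer values; a continuous
function from a preconnected set to a discrete space is constant (or use `IsPreconnected.image` and the
fact that a preconnected set of reals contained in the integers is a subsingleton). -/
def S_UNQ : Prop :=
  ∀ (E : Type) [TopologicalSpace E] (A : Set E) (φ ψ : E → ℝ), IsPreconnected A →
    ContinuousOn φ A → ContinuousOn ψ A → (∀ x ∈ A, exp (φ x * I) = exp (ψ x * I)) →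
    ∃ n : ℤ, ∀ x ∈ A, φ x = ψ x + 2 * Real.pi * n

/-- (7) homotopy invariance -/
def S_HTP : Prop :=
  ∀ (E : Type) [PseudoMetricSpace E] (A : Set E) (G : E × ℝ → ℂ) (z : ℂ), IsCompact A →
    ContinuousOn G (A ×ˢ Icc 0 1) → (∀ x ∈ A, ∀ t ∈ Icc (0 : ℝ) 1, G (x, t) ≠ z) →
    (LogOn A (fun x => G (x, 0)) z ↔ LogOn A (fun x => G (x, 1)) z)

/-- (7) images -/
def S_IMG : Prop :=
  ∀ (E : Type) [TopologicalSpace E] (A : Set E) (g : E → ℂ) (z : ℂ), IsCompact A →
    ContinuousOn g A → InjOn g A → z ∉ g '' A → (LogOn A g z ↔ HasLog (g '' A) z)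

/-- (12) -/
def S_CIR : Prop := ∀ (z : ℂ) (r : ℝ), 0 < r → ¬ HasLog (sphere z r) z

/-- (12) -/
def S_EXT : Prop :=
  ∀ (g : ℂ → ℂ) (z : ℂ), ContinuousOn g Disk → (∀ x ∈ Disk, g x ≠ z) →
    LogOn (sphere 0 1) g z

/-! ## Pushing points -/

/-- a small push. PROOF: `h w = w + max 0 (1 - ‖w - x‖ / r) • (y - x)`. The function
`w ↦ max 0 (1 - ‖w - x‖ / r) • (y - x)` is Lipschitz with constant `‖y - x‖ / r < 1`, so `h` approximates the
identity (`ApproximatesLinearOn h (ContinuousLinearEquiv.refl ℝ ℂ) univ c` with `c < 1`) and is a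
homeomorphism: `ApproximatesLinearOn.toHomeomorph`. -/
def S_PU1 : Prop :=
  ∀ (x y : ℂ) (r : ℝ), ‖y - x‖ < r → ∃ h : ℂ ≃ₜ ℂ, (∀ w, w ∉ closedBall x r → h w = w) ∧ h x = y

/-- push homeomorphisms. PROOF: `P x y := ∃ h L, IsCompact L ∧ L ⊆ U ∧ (h = id off L) ∧ h x = y`.
Reflexive; symmetric (`h.symm`: if `w ∉ L` then `h w = w`, so `h.symm w = w`); transitive (compose, `L ∪ L'`);
local: if `closedBall x r ⊆ U` and `y ∈ ball x r` then `P x y` by S_PU1. The image `S` of the path from `x` to `y`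
is preconnected and contained in `U`; use `IsPreconnected.induction₂` on `S`. -/
def S_PUSH : Prop :=
  ∀ (U : Set ℂ) (x y : ℂ), IsOpen U → JoinedIn U x y →
    ∃ (h : ℂ ≃ₜ ℂ) (L : Set ℂ), IsCompact L ∧ L ⊆ U ∧ (∀ w, w ∉ L → h w = w) ∧ h x = y

def M_PUSH : Prop := S_PU1 → S_PUSH

/-- radial retraction. PROOF: `ρ w = if ‖w‖ ≤ R then w else (R / ‖w‖) • w`, or
`ρ w = (min 1 (R / ‖w‖)) • w` (with `ρ 0 = 0`), or `ρ w = (R / max R ‖w‖) • w`. -/
def S_RAD : Prop :=
  ∀ R : ℝ, 0 < R → ∃ ρ : ℂ → ℂ, Continuous ρ ∧ (∀ w, ‖w‖ ≤ R → ρ w = w) ∧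
    ∀ w, R ≤ ‖w‖ → ‖ρ w‖ = R

/-- J1 for finite sets. PROOF: `J = c '' sphere 0 1` is compact, `U = Jᶜ` open. Induction on the number
of points of `Z`, for all `Z` at the same time (`c` is fixed). `Z` empty: extend `c` by Tietze
(`ContinuousMap.exists_restrict_eq` for the closed set `sphere 0 1`). Step: `Z = Z' ∪ {z}`, `z ∉ Z'`. Choose
`R > 0` with `J ⊆ ball 0 R`, and `w` with `R + 1 < ‖w‖`, `JoinedIn U z w`. S_PUSH: `h`, identity off a
compact `L ⊆ U`, with `h z = w`; `h` is the identity on `J`. `Z'' = h '' Z'` has one point less than `Z`; the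
points `c x` are not in `Z''` (as `h (c x) = c x`); every `z'' = h z' ∈ Z''` is joined in `U` to
arbitrarily far points (`JoinedIn` for `z'`, apply `h`, which maps `U` to `U` and is the identity far away). By
induction there is `G''`. Choose `R'` with `R < R' < R + 1` which is not one of the finitely many
numbers `‖z''‖` (`Set.Finite` complement in an interval, e.g. `(Set.Ioo_infinite _).exists_notMem_finite`),
and `ρ` from S_RAD for `R'`. `G' = ρ ∘ G''` has no value in `Z'' ∪ {w}` and is `c` on the circle.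
`G = h.symm ∘ G'`. -/
def S_J1F : Prop :=
  ∀ (Z : Set ℂ) (c : ℂ → ℂ), Z.Finite → ContinuousOn c (sphere 0 1) →
    (∀ x ∈ sphere (0 : ℂ) 1, c x ∉ Z) →
    (∀ z ∈ Z, ∀ R : ℝ, ∃ w, R < ‖w‖ ∧ JoinedIn (c '' sphere 0 1)ᶜ z w) →
    ∃ G : ℂ → ℂ, ContinuousOn G Disk ∧ (∀ x ∈ sphere (0 : ℂ) 1, G x = c x) ∧
      ∀ x ∈ Disk, G x ∉ Z

def M_J1F : Prop := S_PUSH → S_RAD → S_J1F

/-- (8) J1. PROOF: choose `R > 0` with `c '' sphere 0 1 ⊆ ball 0 R` and `R'` with `R < R' < R + 1`, not one of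
the finitely many norms of points of `Z ∩ closedBall 0 (R + 1)`. Apply S_J1F to the finite set
`Z ∩ closedBall 0 R'` and compose with the radial retraction to `closedBall 0 R'` (S_RAD). -/
def S_J1 : Prop :=
  ∀ (Z : Set ℂ) (c : ℂ → ℂ), (∀ R : ℝ, (Z ∩ closedBall 0 R).Finite) →
    ContinuousOn c (sphere 0 1) → (∀ x ∈ sphere (0 : ℂ) 1, c x ∉ Z) →
    (∀ z ∈ Z, ∀ R : ℝ, ∃ w, R < ‖w‖ ∧ JoinedIn (c '' sphere 0 1)ᶜ z w) →
    ∃ G : ℂ → ℂ, ContinuousOn G Disk ∧ (∀ x ∈ sphere (0 : ℂ) 1, G x = c x) ∧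
      ∀ x ∈ Disk, G x ∉ Z

def M_J1 : Prop := S_J1F → S_RAD → S_J1

/-! ## Poincaré - Miranda -/

/-- Poincaré - Miranda on a square, strict form. PROOF: suppose there is no common zero. Identify `(t, s)` with
`t + s i`; `F = f + g i` is continuous without zeros on the compact convex square `S = {|re| ≤ N, |im| ≤ N}`, so
`CLog S F` (`cLog_convex`), hence `CLog` on the boundary `B` (`max |re| |im| = N`). The homotopy
`H (z, τ) = τ F z + (1 - τ) z` has no zero on `B` for `τ ∈ [0,1]` (on `re z = N` its real part is positive, and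
so on for the other three sides). `cLog_homotopy` gives `CLog B (fun z => F z / z)`, so `CLog B (fun z => z)`.
Compose with `sphere 0 1 → B`, `z ↦ (N / max |re z| |im z|) z` (`CLog.comp`) and divide by the positive real
factor (a function with values in the slit plane): `CLog (sphere 0 1) (fun z => z)`, contradiction to
`not_cLog_sphere`. -/
def S_MIR : Prop :=
  ∀ (N : ℝ) (f g : ℝ × ℝ → ℝ), 0 < N → ContinuousOn f (Icc (-N) N ×ˢ Icc (-N) N) →
    ContinuousOn g (Icc (-N) N ×ˢ Icc (-N) N) →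
    (∀ s ∈ Icc (-N) N, f (-N, s) < 0 ∧ 0 < f (N, s)) →
    (∀ t ∈ Icc (-N) N, g (t, -N) < 0 ∧ 0 < g (t, N)) →
    ∃ p ∈ Icc (-N) N ×ˢ Icc (-N) N, f p = 0 ∧ g p = 0

/-- (9). PROOF: the first coordinate of `a` and the second coordinate of `b` are continuous and
1-periodic, so bounded by some `C`; the second coordinate of `a` is `k t` + a 1-periodic function, the
first coordinate of `b` is `l s` + a 1-periodic function, all periodic parts bounded by `C`. Let
`N > 2 C / |k|, 2 C / |l|` and apply S_MIR with the first variable `s` and the second variable `t`: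
`f (s, t) = ((b s).1 - (a t).1) * l` (sign of `l` corrected) and `g (s, t) = ((a t).2 - (b s).2) * k`. -/
def S_PM : Prop :=
  ∀ (a b : ℝ → ℝ × ℝ) (k l : ℝ), Continuous a → Continuous b → k ≠ 0 → l ≠ 0 →
    (∀ t, a (t + 1) = a t + (0, k)) → (∀ s, b (s + 1) = b s + (l, 0)) → ∃ t s, a t = b s

def M_PM : Prop := S_MIR → S_PM

/-! ## Two points on both sides of a curve -/

/-- (10). PROOF: let `φ`, `ψ` be the arguments of `x - n`, `x - s` on `K`. For `x` off the closed segment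
`[s, n]` the quotient `(x - n) / (x - s)` is in the slit plane (it is a negative real only if `x` is in the open
segment), so `D x = φ x - ψ x - arg ((x - n) / (x - s))` is continuous on `K \ {m}`, and `exp (D x * I) = 1`
there; S_UNQ: `D` is a constant `d` on `K \ {m}`. For `re x > 0` the number `(x - n) / (x - s)` has negative imaginary
part: `im ((x - n) * conj (x - s)) = - re x * (a + b)`; for `re x < 0` positive imaginary part; at `m` its
value is a negative real (`m ≠ n, s` as `n, s ∉ K`). So for `x → m` in `K`, `re x > 0`: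
`arg → - π` and for `re x < 0`: `arg → π` (use `arg w = arg (-w) - π` for `im w < 0`, `arg w = arg (-w) + π` for
`im w > 0` and continuity of `arg` at the positive real `-w`). As `φ - ψ` is continuous on `K` at
`m`: `φ m - ψ m = d - π` and `φ m - ψ m = d + π`, contradiction. -/
def S_HL5 : Prop :=
  ∀ (K : Set ℂ) (a b : ℝ) (m : ℂ), 0 < a → 0 < b →
    K ∩ {z | z.re = 0 ∧ -b ≤ z.im ∧ z.im ≤ a} = {m} → IsPreconnected (K \ {m}) →
    m ∈ closure (K ∩ {z | 0 < z.re}) → m ∈ closure (K ∩ {z | z.re < 0}) →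
    ¬ (HasLog K (a * I) ∧ HasLog K (-(b * I)))

def M_HL5 : Prop := S_UNQ → S_HL5

/-- (11). PROOF: `C` is compact, `n ∉ A = g '' Icc (-1) 1` (as `A` meets the closed ball only in `p`, `q`, which
are on the sphere). S_ARC: `HasLog A n`. Choose `R > r` with `A ⊆ closedBall 0 R`. S_BOR: a point `w`, `R < ‖w‖`,
and a path `γ` from `n` to `w` in `Aᶜ`. Let `t0` be the supremum of `{t ∈ [0,1] | ‖γ t‖ ≤ r}` (closed, contains `0`,
not `1`): `‖γ t0‖ = r` and `‖γ t‖ > r` for `t > t0`. `e = γ t0` is on the sphere and not in `A`, so `e ≠ p, q`. The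
piece `γ` on `[t0, 1]` lies in `(A ∪ C)ᶜ`. By hypothesis `e` is joined to `n` or to `s` in `closedBall 0 r \ C`,
which is contained in `(A ∪ C)ᶜ` (as `A ∩ closedBall 0 r = {p, q} ⊆ C`). So `n` or `s` is joined to
`w` in `(A ∪ C)ᶜ`; `HasLog (A ∪ C) w` by S_HL2, conclude by S_HL1 (a path image is preconnected). -/
def S_HL6 : Prop :=
  ∀ (g : ℝ → ℂ) (C : Set ℂ) (r : ℝ) (p q n s : ℂ), 0 < r → ContinuousOn g (Icc (-1) 1) →
    InjOn g (Icc (-1) 1) → g '' Icc (-1) 1 ∩ closedBall 0 r = {p, q} → IsClosed C →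
    C ⊆ closedBall 0 r → C ∩ sphere 0 r = {p, q} → n ∈ ball (0 : ℂ) r → n ∉ C →
    s ∈ ball (0 : ℂ) r → s ∉ C →
    (∀ e ∈ sphere (0 : ℂ) r, e ≠ p → e ≠ q →
      JoinedIn (closedBall 0 r \ C) n e ∨ JoinedIn (closedBall 0 r \ C) s e) →
    HasLog (g '' Icc (-1) 1 ∪ C) n ∨ HasLog (g '' Icc (-1) 1 ∪ C) s

def M_HL6 : Prop := S_HL1 → S_HL2 → S_BOR → S_ARC → S_HL6

end Pool.Agent.LIX
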