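import Pool.Agent.LIX.DefsT
import Pool.Agent.LIX.StmtsTB

/-!
# LIX, block L: definitions (lifts, types, labels)

* `tor : ℂ → ℂ × ℂ`: the covering of the torus by the plane, `tor ξ = (e^{i th ξ}, e^{i ph ξ}) / √2`, `th = im + re`,
  `ph = im - re`; `Lam`: the periods.  The holes are the balls of radius `1/5` around the points of `Lam`.
* `pr p = (arg p₁ - arg p₂)/2 + i (arg p₁ + arg p₂)/2`; `pr (kap (u, z)) = re u + i z` near `0`.
* `Chp b j`: the projected chord in the closed hole, `cpt b j r`: its end points (`r = true` right, `r = false` left).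
* `Lf0 D S`: `S` lifts `D ∩ HT` to the plane, with the boundary points near the hole `0`.
* `Ty`, `HasTy`, `lv`: the types of disks and their labels.
-/

set_option autoImplicit false

namespace Pool.Agent.LIX

open Set Metric Complex

noncomputable section

/-- The covering of the torus by the plane. -/
def tor (x : ℂ) : ℂ × ℂ := kap ((x.re : ℂ), x.im)

/-- The periods of `tor`. -/
def Lam : Set ℂ :=
  {x | ∃ a b : ℤ, x = ((Real.pi * (a - b) : ℝ) : ℂ) + ((Real.pi * (a + b) : ℝ) : ℂ) * I}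

/-- The argument of the first coordinate of `tor`. -/
def th (x : ℂ) : ℝ := x.im + x.re

/-- The argument of the second coordinate of `tor`. -/
def ph (x : ℂ) : ℝ := x.im - x.re

/-- The inverse of `kap` near `0`, projected to the plane of the torus. -/
def pr (p : ℂ × ℂ) : ℂ := ⟨(arg p.1 - arg p.2) / 2, (arg p.1 + arg p.2) / 2⟩

/-- The height of the right (`r = true`) or left (`r = false`) end point of the chord `(b, j)`. -/
def hg (b : Bool) (j : Fin 3) (r : Bool) : ℝ := if b = r then hj j 0 else hj j 1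

/-- The point of the boundary circle of the hole `0` at height `h`, right or left. -/
def cp (r : Bool) (h : ℝ) : ℂ := ⟨sg r / (5 * √(1 + Mf h ^ 2)), Mf h / (5 * √(1 + Mf h ^ 2))⟩

/-- The end points of the projected chord. -/
def cpt (b : Bool) (j : Fin 3) (r : Bool) : ℂ := cp r (hg b j r)

/-- The point of the hole above all projected chords. -/
def nn : ℂ := ((9 / 50 : ℝ) : ℂ) * I

/-- The point of the hole below all projected chords. -/
def ss : ℂ := -(((9 / 50 : ℝ) : ℂ) * I)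

/-- The chord in `bd`. -/
def Chd (b : Bool) (j : Fin 3) : Set (ℂ × ℂ) := (fun v => col (v, 0)) '' ch b j

/-- The projected chord. -/
def Chp (b : Bool) (j : Fin 3) : Set ℂ := pr '' Chd b j

/-- The point `e` of the boundary circle of the hole `0` is above the end points of the chord. -/
def Up (b : Bool) (j : Fin 3) (e : ℂ) : Prop :=
  ‖e‖ = 1 / 5 ∧ (0 ≤ e.re → (cpt b j true).im < e.im) ∧ (e.re ≤ 0 → (cpt b j false).im < e.im)

/-- The point `e` of the boundary circle of the hole `0` is below the end points of the chord. -/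
def Dn (b : Bool) (j : Fin 3) (e : ℂ) : Prop :=
  ‖e‖ = 1 / 5 ∧ (0 ≤ e.re → e.im < (cpt b j true).im) ∧ (e.re ≤ 0 → e.im < (cpt b j false).im)

/-- `S` lifts `D ∩ HT`, the boundary points to the hole `0`. -/
def Lf0 (D : Set (ℂ × ℂ)) (S : ℂ × ℂ → ℂ) : Prop :=
  ContinuousOn S (D ∩ HT) ∧ (∀ p ∈ D ∩ HT, tor (S p) = p) ∧ ∀ p ∈ D ∩ HT, p ∈ TT.bd → ‖S p‖ ≤ 1 / 5

/-- `D` is of class 0. -/
def Cls0 (D : Set (ℂ × ℂ)) : Prop := ∃ S, Lf0 D S

/-- The closed curve in the plane of a class 0 edge disk: the lifted arc and the projected chord. -/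
def Kset (D : Set (ℂ × ℂ)) (S : ℂ × ℂ → ℂ) : Set ℂ := S '' (D ∩ HT) ∪ pr '' (D ∩ TT.bd)

/-- `D` is a compressing disk on the side `b`. -/
def Comp (b : Bool) (D : Set (ℂ × ℂ)) : Prop := (∃ f, IsCompPar TT HT f ∧ D = f '' Disk) ∧ D ⊆ VT b

/-- `D` is an edge-compressing disk on the side `b` with the chord `(b, j)`. -/
def Edge (b : Bool) (j : Fin 3) (D : Set (ℂ × ℂ)) : Prop :=
  (∃ f, IsEdgePar TT HT f ∧ D = f '' HDisk) ∧ D ⊆ VT b ∧ D ∩ TT.bd = Chd b j

/-- Types of disks. -/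
inductive Ty
  | M (b : Bool) : Ty
  | P (b : Bool) : Ty
  | X (b : Bool) (j : Fin 3) : Ty
  | U (b : Bool) (j : Fin 3) : Ty
  | D (b : Bool) (j : Fin 3) : Ty

/-- `D` has the type `τ`. -/
def HasTy (D : Set (ℂ × ℂ)) : Ty → Prop
  | Ty.M b => Comp b D ∧ ¬ Cls0 D
  | Ty.P b => Comp b D ∧ Cls0 D
  | Ty.X b j => Edge b j D ∧ ¬ Cls0 D
  | Ty.U b j => Edge b j D ∧ ∃ S, Lf0 D S ∧ ¬ HasLog (Kset D S) nn
  | Ty.D b j => Edge b j D ∧ ∃ S, Lf0 D S ∧ ¬ HasLog (Kset D S) ss

/-- The label of a type. -/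
def lv : Ty → (Fin 3 → ℝ)
  | Ty.M true => ![1, 0, 0]
  | Ty.M false => ![1, 1, -1]
  | Ty.P _ => ![1, 0, 0]
  | Ty.X true j => (![![0, -1, 0], ![0, -1, 0], ![0, 0, 1]] : Fin 3 → Fin 3 → ℝ) j
  | Ty.X false _ => ![-1, 0, 0]
  | Ty.U true j => (![![1, 0, 0], ![1, 0, 0], ![0, 0, 1]] : Fin 3 → Fin 3 → ℝ) j
  | Ty.U false j => (![![0, 1, 0], ![0, 1, 0], ![0, 0, -1]] : Fin 3 → Fin 3 → ℝ) j
  | Ty.D true j => (![![0, -1, 0], ![1, 0, 0], ![1, 0, 0]] : Fin 3 → Fin 3 → ℝ) j
  | Ty.D false j => (![![0, 1, 0], ![0, 1, 0], ![0, 0, -1]] : Fin 3 → Fin 3 → ℝ) j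

end

end Pool.Agent.LIX
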