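import Pool.Agent.LIX.Defs

/-!
# LIX, block T: the once-punctured torus with the 12-gon boundary

* `Sph`: the unit sphere of `ℂ × ℝ`; a point is `v = (u, z)`, `x = re u`, `y = im u`; the azimuth of `v` is
  the argument of `u`, `m = z / ‖u‖` is its slope. `nml v`: normalisation. `dr u m = nml (u, m)`.
* `Mf : ℝ → ℝ`: increasing homeomorphism, height `u ∈ [0,12]` to slope `m ∈ [-2,2]`
  (`Mf 0 = -2`, `Mf 6 = -1`, `Mf 10 = 1`, `Mf 12 = 2`).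
* `Edg i j ⊆ Sph`: the edges of a tetrahedral cell structure of the sphere, four helices and two short arcs through
  the poles.  The circle `y = 0` (the boundary of the surface) meets it in 12 points.
* side `b : Bool` of the sphere: `true` is `y ≥ 0`, `false` is `y ≤ 0`; `sg b = ± 1`. On the side `b` the longitude
  of `v` is `lon b v = arg (sg b * u) / π ∈ [0, 1]`.
* six chords `ch b j` (`b : Bool`, `j : Fin 3`): `m = Mf (hj j f)`, `f = lon b v`, with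
  `hj 0 f = 2 + 4 f`, `hj 1 f = 3 + 6 f`, `hj 2 f = 6 + 4 f`.  (`A1, A2, A3` for `b = true`, `B1, B2, B3` for `b = false`.)
* `dl b j v = z - ‖u‖ Mf (hj j (lon b v))`: signed height of `v` above the chord.
* `kap : ℂ × ℝ → ℂ × ℂ`: coordinates of the 3-sphere around the point `(1,1)/√2` of the Clifford torus,
  `θ = z + x`, `φ = z - x`, `(|p₁|, |p₂|) = (cos (π/4 - y), cos (π/4 + y))`.
* `TT : Cells (ℂ × ℂ)`: the 3-sphere minus the open ball `kap (ball 0 (1/5))`; `HT`: the Clifford torus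
  `|p₁| = |p₂|` in it, `VT b` its sides.  `col (v, l) = kap (1/5 (1 + l) v)`: the collar of the boundary sphere.
-/

namespace Pool.Agent.LIX

open Set Metric Complex

noncomputable section

/-- The unit sphere of `ℂ × ℝ`. -/
def Sph : Set (ℂ × ℝ) := {v | ‖v.1‖ ^ 2 + v.2 ^ 2 = 1}

/-- Euclidean norm on `ℂ × ℝ`. -/
def nrm (v : ℂ × ℝ) : ℝ := √(‖v.1‖ ^ 2 + v.2 ^ 2)

/-- Normalisation. -/
def nml (v : ℂ × ℝ) : ℂ × ℝ := (v.1 / (nrm v : ℂ), v.2 / nrm v)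

/-- Height to slope. -/
def Mf (u : ℝ) : ℝ :=
  min 0 ((u - 6) / 6) + Real.sin (Real.pi / 4 * (max 6 (min 10 u) - 8)) + max 0 ((u - 10) / 2)

/-- The helix with longitude `π (b + k u)` at height `u`, `u ∈ [0, 12]`. -/
def hlx (b k : ℝ) : Set (ℂ × ℝ) :=
  (fun u : ℝ => nml (exp ((Real.pi * (b + k * u) : ℝ) * I), Mf u)) '' Icc 0 12

/-- The edges (and vertices) of the cell structure of the sphere. -/
def Edg (i j : Fin 4) : Set (ℂ × ℝ) :=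
  (![![{nml (I, -2)}, hlx (1 / 2) (1 / 6), hlx (1 / 2) (1 / 4), {v | v ∈ Sph ∧ v.1.re = 0 ∧ v.2 ≤ -2 * ‖v.1‖}],
    ![hlx (1 / 2) (1 / 6), {nml (I, 2)}, {v | v ∈ Sph ∧ v.1.re = 0 ∧ 2 * ‖v.1‖ ≤ v.2}, hlx (-1 / 2) (1 / 4)],
    ![hlx (1 / 2) (1 / 4), {v | v ∈ Sph ∧ v.1.re = 0 ∧ 2 * ‖v.1‖ ≤ v.2}, {nml (-I, 2)}, hlx (-1 / 2) (1 / 6)],
    ![{v | v ∈ Sph ∧ v.1.re = 0 ∧ v.2 ≤ -2 * ‖v.1‖}, hlx (-1 / 2) (1 / 4), hlx (-1 / 2) (1 / 6), {nml (-I, -2)}]] :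
      Fin 4 → Fin 4 → Set (ℂ × ℝ)) i j

/-- The 1-skeleton in the sphere. -/
def Skl : Set (ℂ × ℝ) := ⋃ i, ⋃ j, Edg i j

/-- The sign of a side. -/
def sg (b : Bool) : ℝ := if b = true then 1 else -1

/-- The closed hemisphere. -/
def Hem (b : Bool) : Set (ℂ × ℝ) := {v | v ∈ Sph ∧ 0 ≤ sg b * v.1.im}

/-- Longitude (in `[0,1]` on the hemisphere `Hem b`). -/
def lon (b : Bool) (v : ℂ × ℝ) : ℝ := arg ((sg b : ℂ) * v.1) / Real.pi

/-- The heights of the three chords as functions of the longitude. -/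
def hj (j : Fin 3) (f : ℝ) : ℝ :=
  (![2 + 4 * f, 3 + 6 * f, 6 + 4 * f] : Fin 3 → ℝ) j

/-- Signed height above the chord `(b, j)`. -/
def dl (b : Bool) (j : Fin 3) (v : ℂ × ℝ) : ℝ := v.2 - ‖v.1‖ * Mf (hj j (lon b v))

/-- The chords. -/
def ch (b : Bool) (j : Fin 3) : Set (ℂ × ℝ) := {v | v ∈ Hem b ∧ dl b j v = 0}

/-- Coordinates of the 3-sphere around the point `(1,1)/√2`. -/
def kap (v : ℂ × ℝ) : ℂ × ℂ :=
  ((Real.cos (Real.pi / 4 - v.1.im) : ℂ) * exp (((v.2 + v.1.re : ℝ) : ℂ) * I),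
    (Real.cos (Real.pi / 4 + v.1.im) : ℂ) * exp (((v.2 - v.1.re : ℝ) : ℂ) * I))

/-- The 3-sphere. -/
def S3 : Set (ℂ × ℂ) := {p | ‖p.1‖ ^ 2 + ‖p.2‖ ^ 2 = 1}

/-- The body: the 3-sphere minus an open ball; the cells on its boundary. -/
def TT : Cells (ℂ × ℂ) where
  body := {p | p ∈ S3 ∧ p ∉ kap '' {v | nrm v < 1 / 5}}
  bd := kap '' {v | nrm v = 1 / 5}
  edge i j := (fun v : ℂ × ℝ => kap (v.1 / 5, v.2 / 5)) '' Edg i j

/-- The once-punctured torus. -/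
def HT : Set (ℂ × ℂ) := {p | p ∈ TT.body ∧ ‖p.1‖ = ‖p.2‖}

/-- The collar: `v ∈ Sph`, `l ∈ [0, 1]`. -/
def col (x : (ℂ × ℝ) × ℝ) : ℂ × ℂ :=
  kap (((1 + x.2) / 5 : ℝ) * x.1.1, (1 + x.2) / 5 * x.1.2)

/-- The two sides of the surface: `true` is `|p₁| ≥ |p₂|`, `false` is `|p₁| ≤ |p₂|`. -/
def VT (b : Bool) : Set (ℂ × ℂ) := {p | p ∈ TT.body ∧ 0 ≤ sg b * (‖p.1‖ - ‖p.2‖)}

/-- Abstract properties of a collar `c` of the boundary of the tetrahedron `T` with the cell structure `Edg` on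
it, with the surface `H` vertical over the circle `y = 0`; `H` separates `T.body` in the sides `V true`,
`V false`. -/
structure Collar {Y : Type*} [TopologicalSpace Y] (T : Cells Y) (H : Set Y) (V : Bool → Set Y)
    (c : (ℂ × ℝ) × ℝ → Y) : Prop where
  cont : ContinuousOn c (Sph ×ˢ Icc 0 1)
  inj : InjOn c (Sph ×ˢ Icc 0 1)
  body : ∀ v ∈ Sph, ∀ l ∈ Icc (0 : ℝ) 1, c (v, l) ∈ T.body
  bd : T.bd = c '' (Sph ×ˢ {0})
  surf : ∀ v ∈ Sph, ∀ l ∈ Icc (0 : ℝ) 1, (c (v, l) ∈ H ↔ v.1.im = 0)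
  opn : ∃ O, IsOpen O ∧ T.body ∩ O = c '' (Sph ×ˢ Ico 0 1)
  edge : ∀ i j, T.edge i j = (fun v => c (v, 0)) '' Edg i j
  cpt : IsCompact T.body
  side_closed : ∀ b, IsClosed (V b)
  side_union : V true ∪ V false = T.body
  side_inter : V true ∩ V false = H
  side : ∀ b, ∀ v ∈ Sph, ∀ l ∈ Icc (0 : ℝ) 1, (c (v, l) ∈ V b ↔ 0 ≤ sg b * v.1.im)

end

end Pool.Agent.LIX
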