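import Pool.Agent.LIX.G4_KAP

/-!
# LIX, block G4, module ASM: assembly
-/

set_option autoImplicit false

namespace Pool.Agent.LIX.G4

open Set Metric Complex

namespace ASM

theorem one_mem_Sph : ((0, 1) : ℂ × ℝ) ∈ Sph := by simp [Sph]

/-- the edges are in the sphere -/
theorem nml_mem_Sph {v : ℂ × ℝ} (h : v ≠ 0) : nml v ∈ Sph := by
  rw [nml_eq]
  exact nrm_unit h

theorem hlx_sub (b k : ℝ) : hlx b k ⊆ Sph := by
  rintro _ ⟨u, -, rfl⟩
  apply nml_mem_Sph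
  intro h
  exact exp_ne_zero _ (congrArg Prod.fst h)

theorem Edg_sub (i j : Fin 4) : Edg i j ⊆ Sph := by
  have hI : ∀ t : ℝ, ((I, t) : ℂ × ℝ) ≠ 0 := fun t h => I_ne_zero (congrArg Prod.fst h)
  have hI' : ∀ t : ℝ, ((-I, t) : ℂ × ℝ) ≠ 0 := fun t h => neg_ne_zero.2 I_ne_zero (congrArg Prod.fst h)
  fin_cases i <;> fin_cases j
  all_goals first
    | exact hlx_sub _ _
    | exact fun v hv => hv.1
    | (rintro v (rfl : v = _); exact nml_mem_Sph (hI _))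
    | (rintro v (rfl : v = _); exact nml_mem_Sph (hI' _))

theorem edge_eq (i j : Fin 4) : TT.edge i j = (fun v : ℂ × ℝ => kap ((1 / 5 : ℝ) • v)) '' Edg i j := by
  change (fun v : ℂ × ℝ => kap (v.1 / 5, v.2 / 5)) '' Edg i j = _
  apply image_congr
  intro v _
  congr 1
  refine Prod.ext ?_ ?_
  · simp only [Prod.smul_fst, Complex.real_smul]
    push_cast
    ring
  · simp only [Prod.smul_snd, smul_eq_mul]
    ring

theorem bd_eq : TT.bd = (fun v : ℂ × ℝ => kap ((1 / 5 : ℝ) • v)) '' Sph := by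
  change kap '' {v | nrm v = 1 / 5} = _
  ext p
  constructor
  · rintro ⟨v, hv, rfl⟩
    have hv' : nrm v = 1 / 5 := hv
    refine ⟨(5 : ℝ) • v, ?_, ?_⟩
    · rw [mem_Sph, nrm_smul_of_nonneg (by norm_num), hv']
      norm_num
    · change kap ((1 / 5 : ℝ) • (5 : ℝ) • v) = kap v
      rw [smul_smul]
      norm_num
  · rintro ⟨v, hv, rfl⟩
    refine ⟨(1 / 5 : ℝ) • v, ?_, rfl⟩
    change nrm ((1 / 5 : ℝ) • v) = 1 / 5
    rw [nrm_smul_of_nonneg (by norm_num), mem_Sph.1 hv, mul_one]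

theorem std_edge_sub {x : Fin 4 → ℝ} {i j : Fin 4} (h : x ∈ stdTet.edge i j) : x ∈ stdTet.bd := by
  refine ⟨h.1, ?_⟩
  have : ∀ i j : Fin 4, ∃ k : Fin 4, k ≠ i ∧ k ≠ j := by decide
  obtain ⟨k, hk, hk'⟩ := this i j
  exact ⟨k, h.2 k hk hk'⟩

theorem cont_twa : Continuous twa := by
  unfold twa
  fun_prop

end ASM

open ASM

theorem t_G4 : M_G4 := by
  intro hBdy hCo hTw hMf hHl hGa hTe
  obtain ⟨h, hh, hhv⟩ := hBdy
  obtain ⟨gc, gh, gp, hbar, hbd, hedge⟩ := hTe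
  obtain ⟨T, hT, hT1, hT2, hTf⟩ := hTw Mf psi twa hMf.1.1 hMf.1.2.1 hMf.1.2.2 hMf.2.1.1 hMf.2.1.2.1
    hMf.2.1.2.2 cont_twa
  have hTE := hHl T hT1 hT2 hTf
  obtain ⟨B, hB, hBT, hBn⟩ := hCo T hT
  obtain ⟨hG, hGn⟩ := hGa gau gc gh gp
  obtain ⟨G, hG', h1, h2⟩ := hG.symm
  -- the map `G`
  have hGgau : ∀ v ∈ BB, gau (G v) = nrm v := by
    intro v hv
    have e := h2 v hv
    have e2 := hGn (G v)
    rw [e] at e2
    exact e2.symm
  have hGS : ∀ v ∈ Sph, G v = (gau v)⁻¹ • v := by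
    intro v hv
    have hv0 := ne_zero_of_Sph hv
    have hg := gp v hv0
    have e1 : gau ((gau v)⁻¹ • v) = 1 := by
      rw [gh _ _ (inv_nonneg.2 hg.le), inv_mul_cancel₀ hg.ne']
    have e2 := h1 ((gau v)⁻¹ • v) (show gau ((gau v)⁻¹ • v) ≤ 1 from e1.le)
    simp only [e1] at e2
    rw [nrm_smul_of_nonneg (inv_nonneg.2 hg.le), mem_Sph.1 hv, mul_one, one_div, inv_inv,
      smul_smul, mul_inv_cancel₀ hg.ne', one_smul] at e2
    exact e2
  refine ⟨fun p => bar (G (B (h p))), ((hh.comp hB).comp hG').comp hbar, fun x hx => ?_⟩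
  have hxB : h x ∈ BB := hh.maps hx
  have hyB : B (h x) ∈ BB := hB.maps hxB
  have hzB : gau (G (B (h x))) ≤ 1 := hG'.maps hyB
  have hn5 : ∀ v ∈ Sph, nrm ((1 / 5 : ℝ) • v) = 1 / 5 := by
    intro v hv
    rw [nrm_smul_of_nonneg (by norm_num), mem_Sph.1 hv, mul_one]
  have hsub : ∀ v ∈ Sph, kap ((1 / 5 : ℝ) • v) ∈ TT.body := by
    intro v hv
    refine ⟨t_KAP.1 _, ?_⟩
    rintro ⟨w, hw, e⟩
    have hw' : nrm w < 1 / 5 := hw
    have e1 : w = (1 / 5 : ℝ) • v := by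
      refine t_KAP.2.1 ?_ ?_ e
      · change nrm w ≤ 2 / 5
        linarith
      · change nrm ((1 / 5 : ℝ) • v) ≤ 2 / 5
        rw [hn5 v hv]
        norm_num
    rw [e1, hn5 v hv] at hw'
    exact lt_irrefl _ hw'
  -- points of the boundary
  have hback : h x ∈ Sph → x = kap ((1 / 5 : ℝ) • h x) := by
    intro hs
    apply hh.inj hx (hsub _ hs)
    rw [hhv _ hs]
  have hfix : ∀ v ∈ Sph, x = kap ((1 / 5 : ℝ) • v) → h x = v := by
    rintro v hv rfl
    exact hhv v hv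
  have hbdS : x ∈ TT.bd ↔ h x ∈ Sph := by
    rw [bd_eq]
    constructor
    · rintro ⟨v, hv, e⟩
      rw [hfix v hv e.symm]
      exact hv
    · intro hs
      exact ⟨h x, hs, (hback hs).symm⟩
  have hbdB : h x ∈ Sph ↔ bar (G (B (h x))) ∈ stdTet.bd := by
    rw [hbd _ hzB, hGgau _ hyB, hBn _ hxB, mem_Sph]
  refine ⟨hbdS.trans hbdB, fun i j => ?_⟩
  by_cases hs : h x ∈ Sph
  · have e1 : x ∈ TT.edge i j ↔ h x ∈ Edg i j := by
      rw [edge_eq]
      constructor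
      · rintro ⟨v, hv, e⟩
        rw [hfix v (Edg_sub i j hv) e.symm]
        exact hv
      · intro hv
        exact ⟨h x, hv, (hback hs).symm⟩
    have e2 : h x ∈ Edg i j ↔ T (h x) ∈ Edh i j := by
      rw [← hTE i j]
      constructor
      · intro hv
        exact mem_image_of_mem T hv
      · rintro ⟨v, hv, e⟩
        rwa [← hT.inj (Edg_sub i j hv) hs e]
    rw [e1, e2]
    change T (h x) ∈ Edh i j ↔ bar (G (B (h x))) ∈ stdTet.edge i j
    rw [hBT _ hs, hGS _ (hT.maps hs), hedge _ (hT.maps hs)]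
  · constructor
    · intro hxe
      exfalso
      apply hs
      rw [edge_eq] at hxe
      obtain ⟨v, hv, e⟩ := hxe
      rw [hfix v (Edg_sub i j hv) e.symm]
      exact Edg_sub i j hv
    · intro hxe
      exact absurd (hbdB.2 (std_edge_sub hxe)) hs

end Pool.Agent.LIX.G4
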