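import Pool.Agent.LIX.StmtsG4

/-!
# LIX, block G4, module BDY: a homeomorphism onto the ball, standard on the boundary
-/

set_option autoImplicit false

namespace Pool.Agent.LIX.G4

open Set Metric Complex

theorem t_BDY : M_BDY := by
  intro hK hM hR hS hT hC
  obtain ⟨C, ρ, hC0, hC1, hρc, hρ, hout⟩ := hR
  obtain ⟨s, hs, hsv⟩ := hS C ρ hρc hρ hout
  obtain ⟨h, hh, hh1⟩ := hT C hC0 hC1
  have hmem : ∀ v ∈ Sph, kap (ρ v • v) ∈ KK C := fun v hv => ⟨hK.1 _, (hρ v hv).2.le⟩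
  have hnrm : ∀ v ∈ Sph, nrm (ρ v • v) = ρ v := by
    intro v hv
    rw [nrm_smul_of_nonneg (hρ v hv).1.1.le, mem_Sph.1 hv, mul_one]
  -- the homeomorphism of the sphere
  have hb : Hm Sph Sph (fun v => h (kap (ρ v • v))) := by
    refine ⟨cpt_Sph, ?_, ?_, ?_⟩
    · refine hh.cont.comp (cont_kap.comp_continuousOn (hρc.smul continuousOn_id)) hmem
    · intro v hv w hw e
      have e1 : kap (ρ v • v) = kap (ρ w • w) := hh.inj (hmem v hv) (hmem w hw) e
      have e2 : ρ v • v = ρ w • w := by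
        refine hK.2.1 ?_ ?_ e1
        · change nrm (ρ v • v) ≤ 2 / 5
          rw [hnrm v hv]
          exact (hρ v hv).1.2.le
        · change nrm (ρ w • w) ≤ 2 / 5
          rw [hnrm w hw]
          exact (hρ w hw).1.2.le
      exact (polar_unique hv hw (hρ v hv).1.1 (hρ w hw).1.1 e2).2
    · ext w
      constructor
      · rintro ⟨v, hv, rfl⟩
        exact mem_Sph.2 ((hh1 _ (hmem v hv)).2 (hρ v hv).2)
      · intro hw
        have hwB : w ∈ BB := (mem_Sph.1 hw).le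
        rw [← hh.img] at hwB
        obtain ⟨p, hp, rfl⟩ := hwB
        have hrs : rs p = C := (hh1 p hp).1 (mem_Sph.1 hw)
        have hpk : p ∈ kap '' {v | nrm v < 2 / 5} := by
          by_contra hne
          exact (hout p hp.1 hne).ne hrs
        obtain ⟨v, hv, rfl⟩ := hpk
        have hv' : nrm v < 2 / 5 := hv
        -- a point of the sphere
        have hv0 : v ≠ 0 := by
          rintro rfl
          have h1S : ((0, 1) : ℂ × ℝ) ∈ Sph := by
            simp [Sph]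
          have h2 := hM (0, 1) h1S (left_mem_Icc.2 (by norm_num))
            ⟨(hρ _ h1S).1.1.le, (hρ _ h1S).1.2.le⟩ (hρ _ h1S).1.1
          have h3 : rs (kap (ρ (0, 1) • ((0, 1) : ℂ × ℝ))) < rs (kap ((0 : ℝ) • ((0, 1) : ℂ × ℝ))) := h2
          rw [(hρ _ h1S).2, zero_smul, hrs] at h3
          exact lt_irrefl _ h3
        have hu := nrm_unit hv0
        refine ⟨(nrm v)⁻¹ • v, hu, ?_⟩
        have e1 : rs (kap (nrm v • (nrm v)⁻¹ • v)) = rs (kap (ρ ((nrm v)⁻¹ • v) • (nrm v)⁻¹ • v)) := by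
          rw [smul_unit hv0, hrs, (hρ _ hu).2]
        have e2 : nrm v = ρ ((nrm v)⁻¹ • v) :=
          (hM _ hu).injOn ⟨nrm_nonneg v, hv'.le⟩ ⟨(hρ _ hu).1.1.le, (hρ _ hu).1.2.le⟩ e1
        have e3 : ρ ((nrm v)⁻¹ • v) • (nrm v)⁻¹ • v = v := by
          rw [← e2]
          exact smul_unit hv0
        simp only [e3]
  obtain ⟨B, hB, hBb, hBn⟩ := hC _ hb
  obtain ⟨B', hB', h1, h2⟩ := hB.symm
  refine ⟨fun p => B' (h (s p)), (hs.comp hh).comp hB', fun v hv => ?_⟩
  have hvB : v ∈ BB := (mem_Sph.1 hv).le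
  have e : h (s (kap ((1 / 5 : ℝ) • v))) = B v := by
    rw [hsv v hv, hBb v hv]
  change B' (h (s (kap ((1 / 5 : ℝ) • v)))) = v
  rw [e, h1 v hvB]

end Pool.Agent.LIX.G4
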