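import Pool.Agent.LIX.StmtsG4

/-!
# LIX, block G4, module CONE: cone extension of a homeomorphism of the sphere
-/

set_option autoImplicit false

namespace Pool.Agent.LIX.G4

open Set Metric Complex

namespace CONE

theorem norm_le_nrm (v : ℂ × ℝ) : ‖v‖ ≤ nrm v := by
  have h0 := nrm_nonneg v
  have h1 := nrm_sq v
  have h2 : ‖v.1‖ ≤ nrm v := abs_le_of_sq_le_sq' (by nlinarith [sq_nonneg v.2]) h0 |>.2
  have h3 : |v.2| ≤ nrm v := abs_le_of_sq_le_sq (by nlinarith [sq_nonneg ‖v.1‖]) h0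
  rw [Prod.norm_def]
  exact max_le h2 h3

/-- a map with `nrm (B v) = g v`, `g` continuous, `g 0 = 0`, `B 0 = 0` is continuous at 0 -/
theorem cont_zero {B : ℂ × ℝ → ℂ × ℝ} {g : ℂ × ℝ → ℝ} (hg : Continuous g) (h0 : g 0 = 0)
    (h : ∀ v, nrm (B v) ≤ g v) : ContinuousAt B 0 := by
  have hB0 : B 0 = 0 := by
    have := h 0
    rw [h0] at this
    exact nrm_eq_zero.1 (le_antisymm this (nrm_nonneg _))
  rw [Metric.continuousAt_iff]
  intro ε hε
  have hg0 := hg.continuousAt (x := 0)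
  rw [Metric.continuousAt_iff] at hg0
  obtain ⟨δ, hδ, hd⟩ := hg0 ε hε
  refine ⟨δ, hδ, fun {v} hv => ?_⟩
  have h1 := hd hv
  rw [h0, Real.dist_eq, sub_zero] at h1
  rw [hB0, dist_zero_right]
  exact ((norm_le_nrm _).trans (h v)).trans_lt ((le_abs_self _).trans_lt h1)

end CONE

open CONE

theorem t_CONE : S_CONE := by
  intro b hb
  have hnb : ∀ v, v ≠ 0 → nrm (b ((nrm v)⁻¹ • v)) = 1 := fun v hv =>
    mem_Sph.1 (hb.maps (nrm_unit hv))
  have hn : ∀ v, nrm (nrm v • b ((nrm v)⁻¹ • v)) = nrm v := by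
    intro v
    by_cases hv : v = 0
    · subst hv
      rw [nrm_eq_zero.2 rfl, zero_smul, nrm_eq_zero.2 rfl]
    · rw [nrm_smul_of_nonneg (nrm_nonneg v), hnb v hv, mul_one]
  have hpos : ∀ {v w : ℂ × ℝ}, nrm v = nrm w → v ≠ 0 → w ≠ 0 := by
    rintro v w h hv rfl
    rw [nrm_eq_zero.2 rfl] at h
    exact hv (nrm_eq_zero.1 h)
  refine ⟨fun v => nrm v • b ((nrm v)⁻¹ • v), ⟨cpt_BB, ?_, ?_, ?_⟩, ?_, fun v _ => hn v⟩
  · intro v _
    by_cases hv : v = 0
    · subst hv
      exact (cont_zero cont_nrm (nrm_eq_zero.2 rfl) fun v => (hn v).le).continuousWithinAt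
    · apply ContinuousAt.continuousWithinAt
      have hO : IsOpen {v : ℂ × ℝ | v ≠ 0} := isOpen_ne
      have hc : ContinuousOn (fun v : ℂ × ℝ => nrm v • b ((nrm v)⁻¹ • v)) {v | v ≠ 0} := by
        have h1 : ContinuousOn (fun v : ℂ × ℝ => (nrm v)⁻¹ • v) {v | v ≠ 0} :=
          (cont_nrm.continuousOn.inv₀ fun v hv => (nrm_pos hv).ne').smul continuousOn_id
        exact cont_nrm.continuousOn.smul (hb.cont.comp h1 fun v hv => nrm_unit hv)
      exact hc.continuousAt (hO.mem_nhds hv)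
  · intro v _ w _ e
    have e1 : nrm v = nrm w := by
      rw [← hn v, ← hn w]
      exact congrArg nrm e
    by_cases hv : v = 0
    · subst hv
      rw [nrm_eq_zero.2 rfl] at e1
      exact (nrm_eq_zero.1 e1.symm).symm
    · have hw := hpos e1 hv
      have e2 := (polar_unique (hb.maps (nrm_unit hv)) (hb.maps (nrm_unit hw)) (nrm_pos hv)
        (nrm_pos hw) e).2
      have e3 := hb.inj (nrm_unit hv) (nrm_unit hw) e2
      rw [← smul_unit hv, e3, e1, smul_unit hw]
  · ext w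
    constructor
    · rintro ⟨v, hv, rfl⟩
      change nrm (nrm v • b ((nrm v)⁻¹ • v)) ≤ 1
      rw [hn]
      exact hv
    · intro hw
      by_cases hw0 : w = 0
      · subst hw0
        refine ⟨0, hw, ?_⟩
        simp only [nrm_eq_zero.2 rfl, zero_smul]
      · have h1 := nrm_unit hw0
        rw [← hb.img] at h1
        obtain ⟨u, hu, hub⟩ := h1
        have hnu : nrm (nrm w • u) = nrm w := by
          rw [nrm_smul_of_nonneg (nrm_nonneg w), mem_Sph.1 hu, mul_one]
        refine ⟨nrm w • u, ?_, ?_⟩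
        · change nrm (nrm w • u) ≤ 1
          rw [hnu]
          exact hw
        · simp only [hnu]
          rw [smul_smul, inv_mul_cancel₀ (nrm_pos hw0).ne', one_smul, hub, smul_unit hw0]
  · intro v hv
    simp only [mem_Sph.1 hv, inv_one, one_smul]

end Pool.Agent.LIX.G4
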