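import Pool.Agent.LIX.G4_CONE

/-!
# LIX, block G4, module GA: balls of a gauge
-/

set_option autoImplicit false

namespace Pool.Agent.LIX.G4

open Set Metric Complex

open CONE

theorem t_GA : S_GA := by
  intro g hc hh hp
  have hg0 : g 0 = 0 := by
    have := hh 0 0 le_rfl
    rwa [zero_smul, zero_mul] at this
  have hgn : ∀ v, 0 ≤ g v := by
    intro v
    by_cases hv : v = 0
    · rw [hv, hg0]
    · exact (hp v hv).le
  have hn : ∀ v, nrm ((g v / nrm v) • v) = g v := by
    intro v
    by_cases hv : v = 0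
    · subst hv
      rw [hg0, zero_div, zero_smul, nrm_eq_zero.2 rfl]
    · rw [nrm_smul_of_nonneg (div_nonneg (hgn v) (nrm_nonneg v)), div_mul_cancel₀ _ (nrm_pos hv).ne']
  refine ⟨⟨?_, ?_, ?_, ?_⟩, hn⟩
  · obtain ⟨v0, hv0, hmin⟩ := cpt_Sph.exists_isMinOn ⟨(0, 1), by simp [Sph]⟩ hc.continuousOn
    have hc0 : 0 < g v0 := hp v0 (ne_zero_of_Sph hv0)
    have hlow : ∀ v, g v0 * nrm v ≤ g v := by
      intro v
      by_cases hv : v = 0
      · rw [hv, hg0, nrm_eq_zero.2 rfl, mul_zero]
      · have h1 : g v0 ≤ g ((nrm v)⁻¹ • v) := hmin (nrm_unit hv)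
        rw [hh _ _ (inv_nonneg.2 (nrm_nonneg v))] at h1
        have h2 := mul_le_mul_of_nonneg_right h1 (nrm_nonneg v)
        have h3 : (nrm v)⁻¹ * g v * nrm v = g v := by
          rw [mul_comm, ← mul_assoc, mul_inv_cancel₀ (nrm_pos hv).ne', one_mul]
        rwa [h3] at h2
    refine (cpt_ball (g v0)⁻¹).of_isClosed_subset (isClosed_le hc continuous_const) fun v hv => ?_
    have hv' : g v ≤ 1 := hv
    change nrm v ≤ (g v0)⁻¹
    rw [← one_div, le_div_iff₀ hc0, mul_comm]
    exact (hlow v).trans hv'
  · intro v _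
    by_cases hv : v = 0
    · subst hv
      exact (cont_zero hc hg0 fun v => (hn v).le).continuousWithinAt
    · apply ContinuousAt.continuousWithinAt
      have hO : IsOpen {v : ℂ × ℝ | v ≠ 0} := isOpen_ne
      have hc' : ContinuousOn (fun v : ℂ × ℝ => (g v / nrm v) • v) {v | v ≠ 0} :=
        (hc.continuousOn.div cont_nrm.continuousOn fun v hv => (nrm_pos hv).ne').smul continuousOn_id
      exact hc'.continuousAt (hO.mem_nhds hv)
  · intro v _ w _ e
    have e1 : g v = g w := by
      rw [← hn v, ← hn w]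
      exact congrArg nrm e
    by_cases hv : v = 0
    · subst hv
      rw [hg0] at e1
      by_contra hne
      exact (hp w (Ne.symm hne)).ne e1
    · have hw : w ≠ 0 := by
        rintro rfl
        rw [hg0] at e1
        exact (hp v hv).ne' e1
      have e2 : g v • (nrm v)⁻¹ • v = g w • (nrm w)⁻¹ • w := by
        rw [smul_smul, smul_smul, ← div_eq_mul_inv, ← div_eq_mul_inv]
        exact e
      have e3 := (polar_unique (nrm_unit hv) (nrm_unit hw) (hp v hv) (hp w hw) e2).2
      -- the norms are equal by homogeneity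
      have e4 : g ((nrm v)⁻¹ • v) = g ((nrm w)⁻¹ • w) := by rw [e3]
      rw [hh _ _ (inv_nonneg.2 (nrm_nonneg v)), hh _ _ (inv_nonneg.2 (nrm_nonneg w)), e1] at e4
      have e5 : (nrm v)⁻¹ = (nrm w)⁻¹ := mul_right_cancel₀ (hp w hw).ne' e4
      have e6 : nrm v = nrm w := inv_injective e5
      rw [← smul_unit hv, e3, e6, smul_unit hw]
  · ext w
    constructor
    · rintro ⟨v, hv, rfl⟩
      change nrm ((g v / nrm v) • v) ≤ 1
      rw [hn]
      exact hv
    · intro hw
      by_cases hw0 : w = 0
      · subst hw0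
        refine ⟨0, ?_, ?_⟩
        · change g 0 ≤ 1
          rw [hg0]
          exact zero_le_one
        · simp only [smul_zero]
      · have hgw := hp w hw0
        have hnw := nrm_pos hw0
        have h1 : g ((nrm w / g w) • w) = nrm w := by
          rw [hh _ _ (div_nonneg hnw.le hgw.le), div_mul_cancel₀ _ hgw.ne']
        have h2 : nrm ((nrm w / g w) • w) = nrm w / g w * nrm w :=
          nrm_smul_of_nonneg (div_nonneg hnw.le hgw.le) w
        refine ⟨(nrm w / g w) • w, ?_, ?_⟩
        · change g ((nrm w / g w) • w) ≤ 1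
          rw [h1]
          exact hw
        · simp only [h1, h2, smul_smul]
          have h3 : nrm w / (nrm w / g w * nrm w) * (nrm w / g w) = 1 := by
            field_simp
          rw [h3, one_smul]

end Pool.Agent.LIX.G4
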