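import Pool.Agent.LIX.StmtsG4

/-!
# LIX, block G4, module HLX: the twist straightens the edges
-/

set_option autoImplicit false

namespace Pool.Agent.LIX.G4

open Set Metric Complex

namespace HLX

theorem expI (x : ℝ) : exp ((x : ℂ) * I) = ((Real.cos x : ℝ) : ℂ) + ((Real.sin x : ℝ) : ℂ) * I := by
  rw [Complex.exp_mul_I, Complex.ofReal_cos, Complex.ofReal_sin]

theorem exp_half : exp (((Real.pi / 2 : ℝ) : ℂ) * I) = I := by
  rw [expI, Real.cos_pi_div_two, Real.sin_pi_div_two]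
  simp

theorem exp_neg_half : exp (((-(Real.pi / 2) : ℝ) : ℂ) * I) = -I := by
  rw [expI, Real.cos_neg, Real.sin_neg, Real.cos_pi_div_two, Real.sin_pi_div_two]
  simp

theorem exp_neg_two : exp (((-(2 * Real.pi) : ℝ) : ℂ) * I) = 1 := by
  rw [expI, Real.cos_neg, Real.sin_neg, Real.cos_two_pi, Real.sin_two_pi]
  simp

theorem exp_neg_three : exp (((-(3 * Real.pi) : ℝ) : ℂ) * I) = -1 := by
  rw [expI, Real.cos_neg, Real.sin_neg]
  have e : 3 * Real.pi = Real.pi + 2 * Real.pi := by ring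
  rw [e, Real.cos_add_two_pi, Real.sin_add_two_pi, Real.cos_pi, Real.sin_pi]
  simp

theorem twa_low {s : ℝ} (h : s ≤ 0) : twa s = 0 := by
  rw [twa, min_eq_right (by linarith), max_eq_left h]
  simp

theorem twa_high {s : ℝ} (h : 12 ≤ s) : twa s = -(5 * Real.pi / 2) := by
  rw [twa, min_eq_left h, max_eq_right (by norm_num)]
  ring

theorem twa_mid {s : ℝ} (h : s ∈ Icc (0 : ℝ) 12) : twa s = -(5 * Real.pi / 24 * s) := by
  rw [twa, min_eq_right h.2, max_eq_right h.1]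

theorem re_zero_iff (u : ℂ) : (u = (‖u‖ : ℂ) * I ∨ u = -(‖u‖ : ℂ) * I) ↔ u.re = 0 := by
  constructor
  · rintro (h | h) <;> rw [h] <;> simp
  · intro h
    have h1 : ‖u‖ = |u.im| := by
      rw [Complex.norm_eq_sqrt_sq_add_sq, h]
      norm_num
      exact Real.sqrt_sq_eq_abs _
    rw [h1]
    rcases abs_cases u.im with ⟨h2, _⟩ | ⟨h2, _⟩
    · left
      rw [h2]
      apply Complex.ext <;> simp [h]
    · right
      rw [h2]
      apply Complex.ext <;> simp [h]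

theorem im_zero_iff (u : ℂ) : (u = (‖u‖ : ℂ) * 1 ∨ u = -(‖u‖ : ℂ) * 1) ↔ u.im = 0 := by
  constructor
  · rintro (h | h) <;> rw [h] <;> simp
  · intro h
    have h1 : ‖u‖ = |u.re| := by
      rw [Complex.norm_eq_sqrt_sq_add_sq, h]
      norm_num
      exact Real.sqrt_sq_eq_abs _
    rw [h1]
    rcases abs_cases u.re with ⟨h2, _⟩ | ⟨h2, _⟩
    · left
      rw [h2]
      apply Complex.ext <;> simp [h]
    · right
      rw [h2]
      apply Complex.ext <;> simp [h]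

theorem norm_re {u : ℂ} (h : u.re = 0) : ‖u‖ = |u.im| := by
  rw [Complex.norm_eq_sqrt_sq_add_sq, h]
  norm_num
  exact Real.sqrt_sq_eq_abs _

theorem norm_im {u : ℂ} (h : u.im = 0) : ‖u‖ = |u.re| := by
  rw [Complex.norm_eq_sqrt_sq_add_sq, h]
  norm_num
  exact Real.sqrt_sq_eq_abs _

variable {T : ℂ × ℝ → ℂ × ℝ}

/-- the helices -/
theorem helix (hMF : S_MF) (hA : S_ARC4)
    (hT : ∀ w s : ℝ, T (nml (exp (w * I), Mf s)) = nml (exp ((w + twa s : ℝ) * I), psi s))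
    {b k e δ : ℝ} (he : e = 1 ∨ e = -1) (hδ : δ = 1 ∨ δ = -1)
    (h1 : ∀ u : ℝ, Real.cos (Real.pi * (b + k * u) + -(5 * Real.pi / 24 * u)) = e * Real.sin (Real.pi / 24 * u))
    (h2 : ∀ u : ℝ, Real.sin (Real.pi * (b + k * u) + -(5 * Real.pi / 24 * u)) = δ * Real.cos (Real.pi / 24 * u)) :
    T '' hlx b k = {v | v ∈ Sph ∧ 0 ≤ e * v.1.re ∧ 0 ≤ δ * v.1.im ∧ v.2 = e * v.1.re - δ * v.1.im} := by
  rw [← hA.1 e δ he hδ, hlx, image_image]
  have key : ∀ u ∈ Icc (0 : ℝ) 12, T (nml (exp ((Real.pi * (b + k * u) : ℝ) * I), Mf u)) =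
      nml (((e * Real.sin (Real.pi / 24 * u) : ℝ) : ℂ) + ((δ * Real.cos (Real.pi / 24 * u) : ℝ) : ℂ) * I,
        Real.sin (Real.pi / 24 * u) - Real.cos (Real.pi / 24 * u)) := by
    intro u hu
    rw [hT, twa_mid hu, expI, h1, h2, hMF.2.2.2.2.2 u hu]
  have hpi := Real.pi_pos
  ext v
  constructor
  · rintro ⟨u, hu, rfl⟩
    refine ⟨Real.pi / 24 * u, ⟨by have := hu.1; positivity, ?_⟩, (key u hu).symm⟩
    have := mul_le_mul_of_nonneg_left hu.2 (by positivity : 0 ≤ Real.pi / 24)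
    linarith
  · rintro ⟨t, ht, rfl⟩
    have h0 : Real.pi / 24 * (24 / Real.pi * t) = t := by field_simp
    have hu : 24 / Real.pi * t ∈ Icc (0 : ℝ) 12 := by
      constructor
      · have := ht.1
        positivity
      · have h3 := mul_le_mul_of_nonneg_left ht.2 (by positivity : 0 ≤ 24 / Real.pi)
        have h4 : 24 / Real.pi * (Real.pi / 2) = 12 := by field_simp; norm_num
        linarith
    refine ⟨24 / Real.pi * t, hu, ?_⟩
    have := key _ hu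
    rw [h0] at this
    exact this

/-- images of rays -/
theorem ray_high (hMF : S_MF)
    (hT : ∀ w s : ℝ, T (nml (exp (w * I), Mf s)) = nml (exp ((w + twa s : ℝ) * I), psi s))
    {w : ℝ} {b c : ℂ} (hb : exp ((w : ℂ) * I) = b) (hc : exp (((w + -(5 * Real.pi / 2) : ℝ) : ℂ) * I) = c) :
    T '' ((fun s : ℝ => nml (b, s)) '' Ici 2) = (fun s : ℝ => nml (c, s)) '' Ici 1 := by
  have key : ∀ m : ℝ, 2 ≤ m → T (nml (b, m)) = nml (c, 2 * m - 3) := by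
    intro m hm
    have hs : 12 ≤ 2 * m + 8 := by linarith
    have h1 := hMF.2.2.2.2.1 _ hs
    have h2 : Mf (2 * m + 8) = m := by rw [h1.1]; ring
    have h3 : psi (2 * m + 8) = 2 * m - 3 := by rw [h1.2]; ring
    have h4 := hT w (2 * m + 8)
    rw [h2, h3, twa_high hs, hb, hc] at h4
    exact h4
  ext v
  constructor
  · rintro ⟨_, ⟨m, hm, rfl⟩, rfl⟩
    have hm' : (2 : ℝ) ≤ m := hm
    exact ⟨2 * m - 3, by change (1 : ℝ) ≤ 2 * m - 3; linarith, (key m hm').symm⟩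
  · rintro ⟨m, hm, rfl⟩
    have hm' : (1 : ℝ) ≤ m := hm
    refine ⟨_, ⟨(m + 3) / 2, by change (2 : ℝ) ≤ (m + 3) / 2; linarith, rfl⟩, ?_⟩
    change T (nml (b, (m + 3) / 2)) = nml (c, m)
    rw [key _ (by linarith)]
    congr 2
    ring

theorem ray_low (hMF : S_MF)
    (hT : ∀ w s : ℝ, T (nml (exp (w * I), Mf s)) = nml (exp ((w + twa s : ℝ) * I), psi s))
    {w : ℝ} {b : ℂ} (hb : exp ((w : ℂ) * I) = b) :
    T '' ((fun s : ℝ => nml (b, s)) '' Iic (-2)) = (fun s : ℝ => nml (b, s)) '' Iic (-1) := by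
  have key : ∀ m : ℝ, m ≤ -2 → T (nml (b, m)) = nml (b, 6 * m + 11) := by
    intro m hm
    have hs : 6 * m + 12 ≤ 0 := by linarith
    have h1 := hMF.2.2.2.1 _ hs
    have h2 : Mf (6 * m + 12) = m := by rw [h1.1]; ring
    have h3 : psi (6 * m + 12) = 6 * m + 11 := by rw [h1.2]; ring
    have h4 := hT w (6 * m + 12)
    rw [h2, h3, twa_low hs, add_zero, hb] at h4
    exact h4
  ext v
  constructor
  · rintro ⟨_, ⟨m, hm, rfl⟩, rfl⟩
    have hm' : m ≤ (-2 : ℝ) := hm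
    exact ⟨6 * m + 11, by change 6 * m + 11 ≤ (-1 : ℝ); linarith, (key m hm').symm⟩
  · rintro ⟨m, hm, rfl⟩
    have hm' : m ≤ (-1 : ℝ) := hm
    refine ⟨_, ⟨(m - 11) / 6, by change (m - 11) / 6 ≤ (-2 : ℝ); linarith, rfl⟩, ?_⟩
    change T (nml (b, (m - 11) / 6)) = nml (b, m)
    rw [key _ (by linarith)]
    congr 2
    ring

theorem vertex (hT : ∀ w s : ℝ, T (nml (exp (w * I), Mf s)) = nml (exp ((w + twa s : ℝ) * I), psi s))
    {w s m m' : ℝ} {b c : ℂ} (h1 : exp ((w : ℂ) * I) = b) (h2 : Mf s = m)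
    (h3 : exp (((w + twa s : ℝ) : ℂ) * I) = c) (h4 : psi s = m') :
    T '' {nml (b, m)} = {nml (c, m')} := by
  have h := hT w s
  rw [h1, h2, h3, h4] at h
  rw [image_singleton, h]

end HLX

open HLX

theorem t_HLX : M_HLX := by
  intro hMF hA T hT1 hT2 hT
  obtain ⟨m1, m2, m3, m4⟩ := hMF.2.2.1
  have a1 : Real.pi / 2 + -(5 * Real.pi / 2) = -(2 * Real.pi) := by ring
  have a2 : -(Real.pi / 2) + -(5 * Real.pi / 2) = -(3 * Real.pi) := by ring
  have g1 : exp (((Real.pi / 2 + -(5 * Real.pi / 2) : ℝ) : ℂ) * I) = 1 := by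
    rw [a1]
    exact exp_neg_two
  have g2 : exp (((-(Real.pi / 2) + -(5 * Real.pi / 2) : ℝ) : ℂ) * I) = -1 := by
    rw [a2]
    exact exp_neg_three
  -- vertices
  have V0 : T '' {nml (I, -2)} = {nml (I, -1)} :=
    vertex hT exp_half m1 (by rw [twa_low le_rfl, add_zero]; exact exp_half) m3
  have V3 : T '' {nml (-I, -2)} = {nml (-I, -1)} :=
    vertex hT exp_neg_half m1 (by rw [twa_low le_rfl, add_zero]; exact exp_neg_half) m3
  have V1 : T '' {nml (I, 2)} = {nml (1, 1)} :=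
    vertex hT exp_half m2 (by rw [twa_high le_rfl, a1]; exact exp_neg_two) m4
  have V2 : T '' {nml (-I, 2)} = {nml (-1, 1)} :=
    vertex hT exp_neg_half m2 (by rw [twa_high le_rfl, a2]; exact exp_neg_three) m4
  -- helices
  have b1 : ∀ u : ℝ, Real.pi * (1 / 2 + 1 / 6 * u) + -(5 * Real.pi / 24 * u) =
      Real.pi / 2 - Real.pi / 24 * u := fun u => by ring
  have b2 : ∀ u : ℝ, Real.pi * (1 / 2 + 1 / 4 * u) + -(5 * Real.pi / 24 * u) =
      Real.pi / 24 * u + Real.pi / 2 := fun u => by ring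
  have b3 : ∀ u : ℝ, Real.pi * (-1 / 2 + 1 / 4 * u) + -(5 * Real.pi / 24 * u) =
      Real.pi / 24 * u - Real.pi / 2 := fun u => by ring
  have b4 : ∀ u : ℝ, Real.pi * (-1 / 2 + 1 / 6 * u) + -(5 * Real.pi / 24 * u) =
      -(Real.pi / 24 * u + Real.pi / 2) := fun u => by ring
  have H01 := helix hMF hA hT (b := 1 / 2) (k := 1 / 6) (Or.inl rfl) (Or.inl rfl)
    (fun u => by rw [b1, Real.cos_pi_div_two_sub, one_mul])
    (fun u => by rw [b1, Real.sin_pi_div_two_sub, one_mul])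
  have H02 := helix hMF hA hT (b := 1 / 2) (k := 1 / 4) (Or.inr rfl) (Or.inl rfl)
    (fun u => by rw [b2, Real.cos_add_pi_div_two, neg_one_mul])
    (fun u => by rw [b2, Real.sin_add_pi_div_two, one_mul])
  have H13 := helix hMF hA hT (b := -1 / 2) (k := 1 / 4) (Or.inl rfl) (Or.inr rfl)
    (fun u => by rw [b3, Real.cos_sub_pi_div_two, one_mul])
    (fun u => by rw [b3, Real.sin_sub_pi_div_two, neg_one_mul])
  have H23 := helix hMF hA hT (b := -1 / 2) (k := 1 / 6) (Or.inr rfl) (Or.inr rfl)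
    (fun u => by rw [b4, Real.cos_neg, Real.cos_add_pi_div_two, neg_one_mul])
    (fun u => by rw [b4, Real.sin_neg, Real.sin_add_pi_div_two, neg_one_mul])
  have E01 : T '' hlx (1 / 2) (1 / 6) = {v | v ∈ Sph ∧ 0 ≤ v.1.re ∧ 0 ≤ v.1.im ∧ v.2 = v.1.re - v.1.im} := by
    rw [H01]
    ext v
    simp only [mem_setOf_eq, one_mul]
  have E02 : T '' hlx (1 / 2) (1 / 4) = {v | v ∈ Sph ∧ v.1.re ≤ 0 ∧ 0 ≤ v.1.im ∧ v.2 = -v.1.re - v.1.im} := by
    rw [H02]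
    ext v
    simp only [mem_setOf_eq, one_mul, neg_one_mul, Left.nonneg_neg_iff]
  have E13 : T '' hlx (-1 / 2) (1 / 4) = {v | v ∈ Sph ∧ 0 ≤ v.1.re ∧ v.1.im ≤ 0 ∧ v.2 = v.1.re + v.1.im} := by
    rw [H13]
    ext v
    simp only [mem_setOf_eq, one_mul, neg_one_mul, Left.nonneg_neg_iff, sub_neg_eq_add]
  have E23 : T '' hlx (-1 / 2) (1 / 6) = {v | v ∈ Sph ∧ v.1.re ≤ 0 ∧ v.1.im ≤ 0 ∧ v.2 = -v.1.re + v.1.im} := by
    rw [H23]
    ext v
    simp only [mem_setOf_eq, neg_one_mul, Left.nonneg_neg_iff, sub_neg_eq_add]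
  -- arcs
  have E12 : T '' {v | v ∈ Sph ∧ v.1.re = 0 ∧ 2 * ‖v.1‖ ≤ v.2} =
      {v | v ∈ Sph ∧ v.1.im = 0 ∧ |v.1.re| ≤ v.2} := by
    have s1 : {v : ℂ × ℝ | v ∈ Sph ∧ v.1.re = 0 ∧ 2 * ‖v.1‖ ≤ v.2} =
        {v : ℂ × ℝ | v ∈ Sph ∧ (v.1 = (‖v.1‖ : ℂ) * I ∨ v.1 = -(‖v.1‖ : ℂ) * I) ∧ 2 * ‖v.1‖ ≤ v.2} := by
      ext v
      simp only [mem_setOf_eq, re_zero_iff]
    have s2 : {v : ℂ × ℝ | v ∈ Sph ∧ v.1.im = 0 ∧ |v.1.re| ≤ v.2} =
        {v : ℂ × ℝ | v ∈ Sph ∧ (v.1 = (‖v.1‖ : ℂ) * 1 ∨ v.1 = -(‖v.1‖ : ℂ) * 1) ∧ 1 * ‖v.1‖ ≤ v.2} := by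
      ext v
      simp only [mem_setOf_eq, im_zero_iff, one_mul]
      constructor
      · rintro ⟨x, y, z⟩
        exact ⟨x, y, by rwa [norm_im y]⟩
      · rintro ⟨x, y, z⟩
        exact ⟨x, y, by rwa [norm_im y] at z⟩
    rw [s1, s2, hA.2.1 I 2 (by simp) (by norm_num), hA.2.1 1 1 (by simp) (by norm_num), image_union,
      image_union, image_singleton, hT1, ray_high hMF hT exp_half g1,
      ray_high hMF hT exp_neg_half g2]
  have E03 : T '' {v | v ∈ Sph ∧ v.1.re = 0 ∧ v.2 ≤ -2 * ‖v.1‖} =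
      {v | v ∈ Sph ∧ v.1.re = 0 ∧ v.2 ≤ -|v.1.im|} := by
    have s1 : {v : ℂ × ℝ | v ∈ Sph ∧ v.1.re = 0 ∧ v.2 ≤ -2 * ‖v.1‖} =
        {v : ℂ × ℝ | v ∈ Sph ∧ (v.1 = (‖v.1‖ : ℂ) * I ∨ v.1 = -(‖v.1‖ : ℂ) * I) ∧ v.2 ≤ -2 * ‖v.1‖} := by
      ext v
      simp only [mem_setOf_eq, re_zero_iff]
    have s2 : {v : ℂ × ℝ | v ∈ Sph ∧ v.1.re = 0 ∧ v.2 ≤ -|v.1.im|} =
        {v : ℂ × ℝ | v ∈ Sph ∧ (v.1 = (‖v.1‖ : ℂ) * I ∨ v.1 = -(‖v.1‖ : ℂ) * I) ∧ v.2 ≤ -1 * ‖v.1‖} := by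
      ext v
      simp only [mem_setOf_eq, re_zero_iff, neg_one_mul]
      constructor
      · rintro ⟨x, y, z⟩
        exact ⟨x, y, by rwa [norm_re y]⟩
      · rintro ⟨x, y, z⟩
        exact ⟨x, y, by rwa [norm_re y] at z⟩
    rw [s1, s2, hA.2.2 I 2 (by simp) (by norm_num), hA.2.2 I 1 (by simp) (by norm_num), image_union,
      image_union, image_singleton, hT2, ray_low hMF hT exp_half, ray_low hMF hT exp_neg_half]
  intro i j
  fin_cases i <;> fin_cases j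
  · exact V0
  · exact E01
  · exact E02
  · exact E03
  · exact E01
  · exact V1
  · exact E12
  · exact E13
  · exact E02
  · exact E12
  · exact V2
  · exact E23
  · exact E03
  · exact E13
  · exact E23
  · exact V3

end Pool.Agent.LIX.G4
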