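import Pool.Agent.LIX.DefsT

/-!
# LIX, block G: the coordinates `kap` of the 3-sphere and their inverse `kinv`
-/

set_option autoImplicit false

namespace Pool.Agent.LIX

open Set Metric Complex

noncomputable section

/-- the inverse of `kap` -/
def kinv (p : ℂ × ℂ) : ℂ × ℝ :=
  (⟨(arg p.1 - arg p.2) / 2, Real.pi / 4 - Real.arccos ‖p.1‖⟩, (arg p.1 + arg p.2) / 2)

theorem nrm_nonneg (v : ℂ × ℝ) : 0 ≤ nrm v := Real.sqrt_nonneg _

theorem nrm_sq (v : ℂ × ℝ) : nrm v ^ 2 = ‖v.1‖ ^ 2 + v.2 ^ 2 :=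
  Real.sq_sqrt (by positivity)

theorem nrm_sq' (v : ℂ × ℝ) : nrm v ^ 2 = v.1.re ^ 2 + v.1.im ^ 2 + v.2 ^ 2 := by
  rw [nrm_sq, ← Complex.normSq_eq_norm_sq, Complex.normSq_apply]
  ring

theorem continuous_nrm : Continuous nrm := by
  unfold nrm
  fun_prop

theorem abs_re_le_nrm (v : ℂ × ℝ) : |v.1.re| ≤ nrm v := by
  apply abs_le_of_sq_le_sq _ (nrm_nonneg v)
  rw [nrm_sq']
  nlinarith [sq_nonneg v.1.im, sq_nonneg v.2]

theorem abs_im_le_nrm (v : ℂ × ℝ) : |v.1.im| ≤ nrm v := by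
  apply abs_le_of_sq_le_sq _ (nrm_nonneg v)
  rw [nrm_sq']
  nlinarith [sq_nonneg v.1.re, sq_nonneg v.2]

theorem abs_snd_le_nrm (v : ℂ × ℝ) : |v.2| ≤ nrm v := by
  apply abs_le_of_sq_le_sq _ (nrm_nonneg v)
  rw [nrm_sq']
  nlinarith [sq_nonneg v.1.re, sq_nonneg v.1.im]

theorem nrm_smul {r : ℝ} (hr : 0 ≤ r) (v : ℂ × ℝ) : nrm ((r : ℂ) * v.1, r * v.2) = r * nrm v := by
  have h1 : nrm ((r : ℂ) * v.1, r * v.2) ^ 2 = (r * nrm v) ^ 2 := by
    have e1 := nrm_sq ((r : ℂ) * v.1, r * v.2)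
    have e2 := nrm_sq v
    simp only [norm_mul, Complex.norm_real, Real.norm_eq_abs, mul_pow, sq_abs] at e1
    rw [e1, mul_pow, e2]
    ring
  exact (sq_eq_sq₀ (nrm_nonneg _) (mul_nonneg hr (nrm_nonneg _))).1 h1

theorem mem_Sph_iff (v : ℂ × ℝ) : v ∈ Sph ↔ nrm v = 1 := by
  unfold Sph
  change ‖v.1‖ ^ 2 + v.2 ^ 2 = 1 ↔ _
  rw [← nrm_sq]
  constructor
  · intro h
    nlinarith [nrm_nonneg v]
  · intro h
    rw [h, one_pow]

theorem continuous_kap : Continuous kap := by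
  unfold kap
  fun_prop

theorem norm_kap_fst (v : ℂ × ℝ) : ‖(kap v).1‖ = |Real.cos (Real.pi / 4 - v.1.im)| := by
  unfold kap
  simp only [norm_mul, Complex.norm_real, Real.norm_eq_abs, Complex.norm_exp_ofReal_mul_I, mul_one]

theorem norm_kap_snd (v : ℂ × ℝ) : ‖(kap v).2‖ = |Real.cos (Real.pi / 4 + v.1.im)| := by
  unfold kap
  simp only [norm_mul, Complex.norm_real, Real.norm_eq_abs, Complex.norm_exp_ofReal_mul_I, mul_one]

theorem kap_mem_S3 (v : ℂ × ℝ) : kap v ∈ S3 := by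
  change ‖(kap v).1‖ ^ 2 + ‖(kap v).2‖ ^ 2 = 1
  rw [norm_kap_fst, norm_kap_snd, sq_abs, sq_abs]
  have h : Real.cos (Real.pi / 4 + v.1.im) = Real.sin (Real.pi / 4 - v.1.im) := by
    rw [← Real.cos_pi_div_two_sub]
    congr 1
    ring
  rw [h]
  nlinarith [Real.sin_sq_add_cos_sq (Real.pi / 4 - v.1.im)]

/-- bound used for the angles -/
theorem half_lt : (1 / 2 : ℝ) < Real.pi / 4 := by
  have := Real.pi_gt_three
  linarith

theorem cos_pos_aux {y : ℝ} (hy : |y| ≤ 1 / 2) :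
    0 < Real.cos (Real.pi / 4 - y) ∧ 0 < Real.cos (Real.pi / 4 + y) := by
  have h := half_lt
  have hp := Real.pi_pos
  obtain ⟨h1, h2⟩ := abs_le.1 hy
  constructor <;> apply Real.cos_pos_of_mem_Ioo <;> constructor <;> linarith

theorem arg_kap_fst {v : ℂ × ℝ} (hv : nrm v ≤ 1 / 2) : arg (kap v).1 = v.2 + v.1.re := by
  have h1 := (cos_pos_aux ((abs_im_le_nrm v).trans hv)).1
  have h2 := abs_le.1 ((abs_re_le_nrm v).trans hv)
  have h3 := abs_le.1 ((abs_snd_le_nrm v).trans hv)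
  have hp := Real.pi_gt_three
  unfold kap
  dsimp only
  rw [Complex.arg_real_mul _ h1, Complex.arg_exp_mul_I, toIocMod_eq_self]
  constructor <;> linarith

theorem arg_kap_snd {v : ℂ × ℝ} (hv : nrm v ≤ 1 / 2) : arg (kap v).2 = v.2 - v.1.re := by
  have h1 := (cos_pos_aux ((abs_im_le_nrm v).trans hv)).2
  have h2 := abs_le.1 ((abs_re_le_nrm v).trans hv)
  have h3 := abs_le.1 ((abs_snd_le_nrm v).trans hv)
  have hp := Real.pi_gt_three
  unfold kap
  dsimp only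
  rw [Complex.arg_real_mul _ h1, Complex.arg_exp_mul_I, toIocMod_eq_self]
  constructor <;> linarith

theorem kinv_kap {v : ℂ × ℝ} (hv : nrm v ≤ 1 / 2) : kinv (kap v) = v := by
  have h1 := (cos_pos_aux ((abs_im_le_nrm v).trans hv)).1
  have h4 := abs_le.1 ((abs_im_le_nrm v).trans hv)
  have hp := half_lt
  unfold kinv
  rw [arg_kap_fst hv, arg_kap_snd hv, norm_kap_fst, abs_of_pos h1,
    Real.arccos_cos (by linarith) (by linarith)]
  refine Prod.ext (Complex.ext ?_ ?_) ?_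
  · simp only
    ring
  · simp only
    ring
  · simp only
    ring

theorem kap_kinv {p : ℂ × ℂ} (hp : p ∈ S3) : kap (kinv p) = p := by
  have hp' : ‖p.1‖ ^ 2 + ‖p.2‖ ^ 2 = 1 := hp
  have h0 : 0 ≤ ‖p.1‖ := norm_nonneg _
  have h0' : 0 ≤ ‖p.2‖ := norm_nonneg _
  have h1 : ‖p.1‖ ≤ 1 := by nlinarith
  unfold kap kinv
  dsimp only
  have e1 : Real.pi / 4 - (Real.pi / 4 - Real.arccos ‖p.1‖) = Real.arccos ‖p.1‖ := by ring
  have e2 : Real.pi / 4 + (Real.pi / 4 - Real.arccos ‖p.1‖) = Real.pi / 2 - Real.arccos ‖p.1‖ := by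
    ring
  have e3 : (arg p.1 + arg p.2) / 2 + (arg p.1 - arg p.2) / 2 = arg p.1 := by ring
  have e4 : (arg p.1 + arg p.2) / 2 - (arg p.1 - arg p.2) / 2 = arg p.2 := by ring
  rw [e1, e2, e3, e4, Real.cos_arccos (by linarith) h1, Real.cos_pi_div_two_sub,
    Real.sin_arccos]
  have h2 : √(1 - ‖p.1‖ ^ 2) = ‖p.2‖ := by
    rw [← hp', add_sub_cancel_left, Real.sqrt_sq h0']
  rw [h2]
  ext1
  · exact Complex.norm_mul_exp_arg_mul_I p.1
  · exact Complex.norm_mul_exp_arg_mul_I p.2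

theorem kap_injOn : InjOn kap {v | nrm v ≤ 1 / 2} := by
  intro v hv w hw h
  rw [← kinv_kap hv, ← kinv_kap hw, h]

theorem kap_slit {v : ℂ × ℝ} (hv : nrm v ≤ 1 / 2) :
    (kap v).1 ∈ slitPlane ∧ (kap v).2 ∈ slitPlane := by
  have h1 := cos_pos_aux ((abs_im_le_nrm v).trans hv)
  have h2 := abs_le.1 ((abs_re_le_nrm v).trans hv)
  have h3 := abs_le.1 ((abs_snd_le_nrm v).trans hv)
  have hp := Real.pi_gt_three
  constructor
  · rw [Complex.mem_slitPlane_iff_arg, arg_kap_fst hv]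
    refine ⟨by linarith, ?_⟩
    rw [← norm_ne_zero_iff, norm_kap_fst]
    exact (abs_pos.2 h1.1.ne').ne'
  · rw [Complex.mem_slitPlane_iff_arg, arg_kap_snd hv]
    refine ⟨by linarith, ?_⟩
    rw [← norm_ne_zero_iff, norm_kap_snd]
    exact (abs_pos.2 h1.2.ne').ne'

/-- the set where `kinv` is continuous -/
def KU : Set (ℂ × ℂ) := {p | p.1 ∈ slitPlane ∧ p.2 ∈ slitPlane}

theorem isOpen_KU : IsOpen KU :=
  (isOpen_slitPlane.preimage continuous_fst).inter (isOpen_slitPlane.preimage continuous_snd)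

theorem continuousOn_kinv : ContinuousOn kinv KU := by
  intro p hp
  apply ContinuousAt.continuousWithinAt
  have h1 : ContinuousAt (fun p : ℂ × ℂ => arg p.1) p :=
    (continuousAt_arg hp.1).comp continuousAt_fst
  have h2 : ContinuousAt (fun p : ℂ × ℂ => arg p.2) p :=
    (continuousAt_arg hp.2).comp continuousAt_snd
  have h3 : ContinuousAt (fun p : ℂ × ℂ => Real.pi / 4 - Real.arccos ‖p.1‖) p :=
    (continuous_const.sub (Real.continuous_arccos.comp (continuous_norm.comp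
      continuous_fst))).continuousAt
  have h4 : ContinuousAt (fun p : ℂ × ℂ =>
      ((((arg p.1 - arg p.2) / 2 : ℝ) : ℂ) +
        ((Real.pi / 4 - Real.arccos ‖p.1‖ : ℝ) : ℂ) * I, (arg p.1 + arg p.2) / 2)) p := by
    refine ContinuousAt.prodMk (ContinuousAt.add ?_ (ContinuousAt.mul ?_ continuousAt_const)) ?_
    · exact Complex.continuous_ofReal.continuousAt.comp ((h1.sub h2).div_const 2)
    · exact Complex.continuous_ofReal.continuousAt.comp h3
    · exact (h1.add h2).div_const 2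
  refine h4.congr (Filter.Eventually.of_forall fun q => ?_)
  unfold kinv
  refine Prod.ext (Complex.ext ?_ ?_) rfl
  · simp
  · simp

/-- the open set `kap (ball r)` in the 3-sphere -/
def KO (r : ℝ) : Set (ℂ × ℂ) := KU ∩ {p | nrm (kinv p) < r}

theorem isOpen_KO (r : ℝ) : IsOpen (KO r) :=
  (continuous_nrm.comp_continuousOn continuousOn_kinv).isOpen_inter_preimage isOpen_KU
    (isOpen_Iio (a := r))

theorem S3_inter_KO {r : ℝ} (hr : r ≤ 1 / 2) : S3 ∩ KO r = kap '' {v | nrm v < r} := by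
  ext p
  constructor
  · rintro ⟨hp, hp1, hp2⟩
    exact ⟨kinv p, hp2, kap_kinv hp⟩
  · rintro ⟨v, hv, rfl⟩
    have hv' : nrm v ≤ 1 / 2 := (le_of_lt hv).trans hr
    exact ⟨kap_mem_S3 v, kap_slit hv', by
      change nrm (kinv (kap v)) < r
      rw [kinv_kap hv']
      exact hv⟩

theorem isClosed_S3 : IsClosed S3 := by
  unfold S3
  exact isClosed_eq (by fun_prop) continuous_const

theorem isCompact_S3 : IsCompact S3 := by
  refine (isCompact_closedBall (0 : ℂ × ℂ) 1).of_isClosed_subset isClosed_S3 ?_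
  intro p hp
  have hp' : ‖p.1‖ ^ 2 + ‖p.2‖ ^ 2 = 1 := hp
  rw [mem_closedBall_zero_iff, Prod.norm_def, max_le_iff]
  constructor <;> nlinarith [norm_nonneg p.1, norm_nonneg p.2, sq_nonneg ‖p.1‖, sq_nonneg ‖p.2‖]

theorem TT_body_eq : TT.body = S3 ∩ (KO (1 / 5))ᶜ := by
  ext p
  constructor
  · rintro ⟨h1, h2⟩
    refine ⟨h1, fun h3 => h2 ?_⟩
    rw [← S3_inter_KO (by norm_num)]
    exact ⟨h1, h3⟩
  · rintro ⟨h1, h2⟩
    refine ⟨h1, fun h3 => h2 ?_⟩
    rw [← S3_inter_KO (by norm_num)] at h3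
    exact h3.2

theorem isCompact_TT_body : IsCompact TT.body := by
  rw [TT_body_eq]
  exact isCompact_S3.inter_right (isOpen_KO _).isClosed_compl

end

end Pool.Agent.LIX
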