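import Pool.Agent.LIX.StmtsG4
import Pool.Agent.LIX.GBase

/-!
# LIX, block G4, module KAP: `kap` near 0
-/

set_option autoImplicit false

namespace Pool.Agent.LIX.G4

open Set Metric Complex

theorem t_KAP : S_KAP := by
  refine ⟨kap_mem_S3, ?_, fun r hr => ⟨KO r, isOpen_KO r, S3_inter_KO (by linarith)⟩⟩
  refine kap_injOn.mono fun v hv => ?_
  have hv' : nrm v ≤ 2 / 5 := hv
  change nrm v ≤ 1 / 2
  linarith

end Pool.Agent.LIX.G4
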