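import Pool.Agent.LIX.StmtsG4

/-!
# LIX, block G4, module MF: `Mf` and `psi` are increasing homeomorphisms of the line
-/

set_option autoImplicit false

namespace Pool.Agent.LIX.G4

open Set Metric Complex

noncomputable section

namespace MF

theorem continuous_Mf : Continuous Mf := by
  unfold Mf
  fun_prop

theorem strictMono_Mf : StrictMono Mf := by
  have hp := Real.pi_pos
  have key : ∀ u v : ℝ, u < v → Real.sin (Real.pi / 4 * (max 6 (min 10 u) - 8)) ≤
      Real.sin (Real.pi / 4 * (max 6 (min 10 v) - 8)) ∧ (6 ≤ u → v ≤ 10 →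
      Real.sin (Real.pi / 4 * (max 6 (min 10 u) - 8)) <
      Real.sin (Real.pi / 4 * (max 6 (min 10 v) - 8))) := by
    intro u v huv
    have b1 : 6 ≤ max 6 (min 10 u) := le_max_left _ _
    have b2 : max 6 (min 10 u) ≤ 10 := max_le (by norm_num) (min_le_left _ _)
    have b3 : 6 ≤ max 6 (min 10 v) := le_max_left _ _
    have b4 : max 6 (min 10 v) ≤ 10 := max_le (by norm_num) (min_le_left _ _)
    have b5 : max 6 (min 10 u) ≤ max 6 (min 10 v) := max_le_max le_rfl (min_le_min le_rfl huv.le)
    constructor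
    · apply Real.sin_le_sin_of_le_of_le_pi_div_two <;> nlinarith
    · intro h1 h2
      have c1 : max 6 (min 10 u) = u := by
        rw [min_eq_right (by linarith), max_eq_right h1]
      have c2 : max 6 (min 10 v) = v := by
        rw [min_eq_right h2, max_eq_right (by linarith)]
      rw [c1, c2]
      apply Real.sin_lt_sin_of_lt_of_le_pi_div_two <;> nlinarith
  intro u v huv
  obtain ⟨h1, h2⟩ := key u v huv
  have g1 : min 0 ((u - 6) / 6) ≤ min 0 ((v - 6) / 6) := min_le_min le_rfl (by linarith)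
  have g2 : max 0 ((u - 10) / 2) ≤ max 0 ((v - 10) / 2) := max_le_max le_rfl (by linarith)
  unfold Mf
  rcases lt_or_ge u 6 with h | h
  · have : min 0 ((u - 6) / 6) < min 0 ((v - 6) / 6) := by
      rw [min_eq_right (by linarith : (u - 6) / 6 ≤ 0)]
      exact lt_min (by linarith) (by linarith)
    linarith
  · rcases le_or_gt v 10 with h' | h'
    · have := h2 h h'
      linarith
    · have : max 0 ((u - 10) / 2) < max 0 ((v - 10) / 2) := by
        rw [max_eq_right (by linarith : 0 ≤ (v - 10) / 2)]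
        exact max_lt (by linarith) (by linarith)
      linarith

theorem Mf_zero : Mf 0 = -2 := by
  unfold Mf
  rw [min_eq_right (by norm_num : ((0 : ℝ) - 6) / 6 ≤ 0), max_eq_left (by norm_num : ((0 : ℝ) - 10) / 2 ≤ 0),
    min_eq_right (by norm_num : (0 : ℝ) ≤ 10), max_eq_left (by norm_num : (0 : ℝ) ≤ 6)]
  have : Real.pi / 4 * (6 - 8) = -(Real.pi / 2) := by ring
  rw [this, Real.sin_neg, Real.sin_pi_div_two]
  norm_num

theorem Mf_twelve : Mf 12 = 2 := by
  unfold Mf
  rw [min_eq_left (by norm_num : (0 : ℝ) ≤ (12 - 6) / 6), max_eq_right (by norm_num : (0 : ℝ) ≤ (12 - 10) / 2),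
    min_eq_left (by norm_num : (10 : ℝ) ≤ 12), max_eq_right (by norm_num : (6 : ℝ) ≤ 10)]
  have : Real.pi / 4 * (10 - 8) = Real.pi / 2 := by ring
  rw [this, Real.sin_pi_div_two]
  norm_num

theorem Mf_of_le_six {u : ℝ} (hu : u ≤ 6) : Mf u = (u - 6) / 6 - 1 := by
  unfold Mf
  rw [min_eq_right (by linarith : (u - 6) / 6 ≤ 0), max_eq_left (by linarith : (u - 10) / 2 ≤ 0),
    min_eq_right (by linarith : u ≤ 10), max_eq_left hu]
  have : Real.pi / 4 * (6 - 8) = -(Real.pi / 2) := by ring
  rw [this, Real.sin_neg, Real.sin_pi_div_two]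
  ring

theorem Mf_of_mid {u : ℝ} (h6 : 6 ≤ u) (h10 : u ≤ 10) :
    Mf u = Real.sin (Real.pi / 4 * (u - 8)) := by
  unfold Mf
  rw [min_eq_left (by linarith : 0 ≤ (u - 6) / 6), max_eq_left (by linarith : (u - 10) / 2 ≤ 0),
    min_eq_right h10, max_eq_right h6]
  ring

theorem Mf_of_ten_le {u : ℝ} (hu : 10 ≤ u) : Mf u = 1 + (u - 10) / 2 := by
  unfold Mf
  rw [min_eq_left (by linarith : 0 ≤ (u - 6) / 6), max_eq_right (by linarith : 0 ≤ (u - 10) / 2),
    min_eq_left hu, max_eq_right (by norm_num : (6 : ℝ) ≤ 10)]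
  have : Real.pi / 4 * (10 - 8) = Real.pi / 2 := by ring
  rw [this, Real.sin_pi_div_two]
  ring

theorem surjective_Mf : Function.Surjective Mf := by
  intro m
  have h1 : Mf (-(6 * |m|)) ≤ m := by
    rw [Mf_of_le_six (by linarith [abs_nonneg m])]
    linarith [neg_abs_le m]
  have h2 : m ≤ Mf (10 + 2 * |m|) := by
    rw [Mf_of_ten_le (by linarith [abs_nonneg m])]
    linarith [le_abs_self m]
  have h3 : -(6 * |m|) ≤ 10 + 2 * |m| := by linarith [abs_nonneg m]
  obtain ⟨u, -, hu⟩ := intermediate_value_Icc h3 continuous_Mf.continuousOn ⟨h1, h2⟩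
  exact ⟨u, hu⟩


theorem continuous_psi : Continuous psi := by
  unfold psi
  fun_prop

theorem strictMono_psi : StrictMono psi := by
  have hp := Real.pi_pos
  have key : ∀ u v : ℝ, u < v →
      Real.sin (Real.pi / 24 * max 0 (min 12 u)) - Real.cos (Real.pi / 24 * max 0 (min 12 u)) ≤
      Real.sin (Real.pi / 24 * max 0 (min 12 v)) - Real.cos (Real.pi / 24 * max 0 (min 12 v)) ∧
      (0 ≤ u → v ≤ 12 →
      Real.sin (Real.pi / 24 * max 0 (min 12 u)) - Real.cos (Real.pi / 24 * max 0 (min 12 u)) <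
      Real.sin (Real.pi / 24 * max 0 (min 12 v)) - Real.cos (Real.pi / 24 * max 0 (min 12 v))) := by
    intro u v huv
    have b1 : 0 ≤ max 0 (min 12 u) := le_max_left _ _
    have b2 : max 0 (min 12 u) ≤ 12 := max_le (by norm_num) (min_le_left _ _)
    have b3 : 0 ≤ max 0 (min 12 v) := le_max_left _ _
    have b4 : max 0 (min 12 v) ≤ 12 := max_le (by norm_num) (min_le_left _ _)
    have b5 : max 0 (min 12 u) ≤ max 0 (min 12 v) := max_le_max le_rfl (min_le_min le_rfl huv.le)
    have c0 : Real.cos (Real.pi / 24 * max 0 (min 12 v)) ≤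
        Real.cos (Real.pi / 24 * max 0 (min 12 u)) := by
      apply Real.cos_le_cos_of_nonneg_of_le_pi <;> nlinarith
    constructor
    · have s0 : Real.sin (Real.pi / 24 * max 0 (min 12 u)) ≤
          Real.sin (Real.pi / 24 * max 0 (min 12 v)) := by
        apply Real.sin_le_sin_of_le_of_le_pi_div_two <;> nlinarith
      linarith
    · intro h1 h2
      have c1 : max 0 (min 12 u) = u := by
        rw [min_eq_right (by linarith), max_eq_right h1]
      have c2 : max 0 (min 12 v) = v := by
        rw [min_eq_right h2, max_eq_right (by linarith)]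
      rw [c1, c2] at c0 ⊢
      have s0 : Real.sin (Real.pi / 24 * u) < Real.sin (Real.pi / 24 * v) := by
        apply Real.sin_lt_sin_of_lt_of_le_pi_div_two <;> nlinarith
      linarith
  intro u v huv
  obtain ⟨h1, h2⟩ := key u v huv
  have g1 : min 0 u ≤ min 0 v := min_le_min le_rfl huv.le
  have g2 : max 0 (u - 12) ≤ max 0 (v - 12) := max_le_max le_rfl (by linarith)
  unfold psi
  rcases lt_or_ge u 0 with h | h
  · have : min 0 u < min 0 v := by
      rw [min_eq_right h.le]
      exact lt_min h huv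
    linarith
  · rcases le_or_gt v 12 with h' | h'
    · have := h2 h h'
      linarith
    · have : max 0 (u - 12) < max 0 (v - 12) := by
        rw [max_eq_right (by linarith : 0 ≤ v - 12)]
        exact max_lt (by linarith) (by linarith)
      linarith

theorem psi_of_le {s : ℝ} (hs : s ≤ 0) : psi s = s - 1 := by
  unfold psi
  rw [min_eq_right hs, min_eq_right (by linarith : s ≤ 12), max_eq_left hs,
    max_eq_left (by linarith : s - 12 ≤ 0), mul_zero, Real.sin_zero, Real.cos_zero]
  ring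

theorem psi_of_ge {s : ℝ} (hs : 12 ≤ s) : psi s = s - 11 := by
  unfold psi
  rw [min_eq_left (by linarith : 0 ≤ s), min_eq_left hs, max_eq_right (by norm_num : (0 : ℝ) ≤ 12),
    max_eq_right (by linarith : 0 ≤ s - 12)]
  have : Real.pi / 24 * 12 = Real.pi / 2 := by ring
  rw [this, Real.sin_pi_div_two, Real.cos_pi_div_two]
  ring

theorem psi_of_mid {s : ℝ} (h0 : 0 ≤ s) (h1 : s ≤ 12) :
    psi s = Real.sin (Real.pi / 24 * s) - Real.cos (Real.pi / 24 * s) := by
  unfold psi
  rw [min_eq_left h0, min_eq_right h1, max_eq_right h0, max_eq_left (by linarith : s - 12 ≤ 0)]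
  ring

theorem surjective_psi : Function.Surjective psi := by
  intro m
  have h1 : psi (-|m|) ≤ m := by
    rw [psi_of_le (by linarith [abs_nonneg m])]
    linarith [neg_abs_le m]
  have h2 : m ≤ psi (12 + |m|) := by
    rw [psi_of_ge (by linarith [abs_nonneg m])]
    linarith [le_abs_self m]
  have h3 : -|m| ≤ 12 + |m| := by linarith [abs_nonneg m]
  obtain ⟨u, -, hu⟩ := intermediate_value_Icc h3 continuous_psi.continuousOn ⟨h1, h2⟩
  exact ⟨u, hu⟩

end MF

open MF

theorem t_MF : S_MF := by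
  refine ⟨⟨continuous_Mf, strictMono_Mf, surjective_Mf⟩,
    ⟨continuous_psi, strictMono_psi, surjective_psi⟩, ⟨Mf_zero, Mf_twelve, ?_, ?_⟩, ?_, ?_, ?_⟩
  · rw [psi_of_le le_rfl]
    norm_num
  · rw [psi_of_ge le_rfl]
    norm_num
  · intro s hs
    refine ⟨?_, psi_of_le hs⟩
    rw [Mf_of_le_six (by linarith)]
    ring
  · intro s hs
    refine ⟨?_, psi_of_ge hs⟩
    rw [Mf_of_ten_le (by linarith)]
    ring
  · intro s hs
    exact psi_of_mid hs.1 hs.2

end

end Pool.Agent.LIX.G4
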