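import Pool.Agent.LIX.G4_ASM

/-!
# LIX, block G4, module MOD: the isomorphism in the form used by the transfer
-/

set_option autoImplicit false

namespace Pool.Agent.LIX.G4

open Set Metric Complex

namespace MOD

/-- the coordinate `i` is injective on the edge `i j` -/
theorem edge_inj {i j : Fin 4} {x y : Fin 4 → ℝ} (hx : x ∈ stdTet.edge i j)
    (hy : y ∈ stdTet.edge i j) (h : x i = y i) : x = y := by
  have h0 : ∀ k, k ≠ j → x k = y k := by
    intro k hk
    by_cases hki : k = i
    · rw [hki]
      exact h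
    · rw [hx.2 k hki hk, hy.2 k hki hk]
  have hs : ∑ k, (x k - y k) = 0 := by
    rw [Finset.sum_sub_distrib, hx.1.2, hy.1.2, sub_self]
  rw [Finset.sum_eq_single j (fun k _ hk => sub_eq_zero.2 (h0 k hk))
    (fun hj => absurd (Finset.mem_univ j) hj)] at hs
  ext k
  by_cases hk : k = j
  · rw [hk]
    exact sub_eq_zero.1 hs
  · exact h0 k hk

end MOD

open MOD ASM

theorem t_MOD : M_MOD := by
  rintro ⟨e, he, hx⟩
  obtain ⟨f, hf, h1, h2⟩ := he.symm
  refine ⟨f, e, ?_⟩
  have hsub : ∀ i j, TT.edge i j ⊆ TT.bd := by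
    intro i j
    rw [edge_eq, bd_eq]
    exact image_mono (Edg_sub i j)
  have hbody : TT.bd ⊆ TT.body := by
    rw [bd_eq]
    rintro _ ⟨v, hv, rfl⟩
    refine ⟨t_KAP.1 _, ?_⟩
    rintro ⟨w, hw, e⟩
    have hn5 : nrm ((1 / 5 : ℝ) • v) = 1 / 5 := by
      rw [nrm_smul_of_nonneg (by norm_num), mem_Sph.1 hv, mul_one]
    have hw' : nrm w < 1 / 5 := hw
    have e1 : w = (1 / 5 : ℝ) • v := by
      refine t_KAP.2.1 ?_ ?_ e
      · change nrm w ≤ 2 / 5
        linarith
      · change nrm ((1 / 5 : ℝ) • v) ≤ 2 / 5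
        rw [hn5]
        norm_num
    rw [e1, hn5] at hw'
    exact lt_irrefl _ hw'
  have hfb : ∀ x ∈ stdTet.body, f x ∈ TT.body := fun x hx => hf.maps hx
  refine
    { closed := isClosed_empty
      closed' := isClosed_empty
      subs := empty_subset _
      subs' := empty_subset _
      skb := ?_
      skb' := ?_
      maps := fun x hx _ => ⟨hfb x hx, notMem_empty _, h2 x hx⟩
      maps' := fun y hy _ => ⟨he.maps hy, notMem_empty _, h1 y hy⟩
      contf := by
        rw [diff_empty]
        exact hf.cont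
      contg := by
        rw [diff_empty]
        exact he.cont
      bd := ?_
      edge := ?_
      arc := ?_
      arc' := ?_ }
  · intro x hx
    rw [Cells.skel, mem_iUnion] at hx
    obtain ⟨i, hx⟩ := hx
    rw [mem_iUnion] at hx
    obtain ⟨j, hx⟩ := hx
    exact std_edge_sub hx
  · intro x hx
    rw [Cells.skel, mem_iUnion] at hx
    obtain ⟨i, hx⟩ := hx
    rw [mem_iUnion] at hx
    obtain ⟨j, hx⟩ := hx
    exact hsub i j hx
  · intro x hxb _
    have := (hx (f x) (hfb x hxb)).1
    rw [h2 x hxb] at this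
    exact this.symm
  · intro x hxb _ i j
    have := (hx (f x) (hfb x hxb)).2 i j
    rw [h2 x hxb] at this
    exact this.symm
  · intro i j
    exact Or.inr ⟨fun x => x i, (continuous_apply i).continuousOn,
      fun x hx y hy h => edge_inj hx hy h, fun x _ h => absurd h (notMem_empty _)⟩
  · intro i j
    refine Or.inr ⟨fun y => e y i, ?_, ?_, fun x _ h => absurd h (notMem_empty _)⟩
    · exact ((continuous_apply i).comp_continuousOn he.cont).mono ((hsub i j).trans hbody)
    · intro x hx' y hy' h
      have hxb := hbody (hsub i j hx')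
      have hyb := hbody (hsub i j hy')
      exact he.inj hxb hyb (edge_inj (((hx x hxb).2 i j).1 hx') (((hx y hyb).2 i j).1 hy') h)

end Pool.Agent.LIX.G4
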