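import Pool.Agent.LIX.StmtsG4

/-!
# LIX, block G4: monotonicity of `rs (kap (t v))`
-/

set_option autoImplicit false

namespace Pool.Agent.LIX.G4

open Set Metric Complex

noncomputable section

namespace MON

/-- the elementary inequality for one summand -/
theorem term_nonneg {a t : ℝ} (ht0 : 0 < t) (ht : t < 2 / 5) (ha : a ^ 2 ≤ 3) :
    0 ≤ a * (Real.sin (Real.pi / 4 + t * a) - Real.sin (Real.pi / 4)) ∧
      (a ≠ 0 → 0 < a * (Real.sin (Real.pi / 4 + t * a) - Real.sin (Real.pi / 4))) := by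
  have hpi := Real.pi_gt_d2
  have hpi' := Real.pi_pos
  have h1 : (t * a) ^ 2 < (Real.pi / 4) ^ 2 := by
    have h2 : (t * a) ^ 2 ≤ (4 / 25) * 3 := by
      rw [mul_pow]
      have h3 : t ^ 2 ≤ 4 / 25 := by nlinarith
      nlinarith [sq_nonneg a, sq_nonneg t]
    nlinarith
  have h2 := abs_lt_of_sq_lt_sq' h1 (by positivity)
  have m1 : Real.pi / 4 + t * a ∈ Icc (-(Real.pi / 2)) (Real.pi / 2) :=
    ⟨by linarith [h2.1], by linarith [h2.2]⟩
  have m2 : Real.pi / 4 ∈ Icc (-(Real.pi / 2)) (Real.pi / 2) := ⟨by linarith, by linarith⟩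
  have pos : a ≠ 0 → 0 < a * (Real.sin (Real.pi / 4 + t * a) - Real.sin (Real.pi / 4)) := by
    intro ha0
    rcases lt_or_gt_of_ne ha0 with h | h
    · have h3 : t * a < 0 := mul_neg_of_pos_of_neg ht0 h
      have h4 := Real.strictMonoOn_sin m1 m2 (by linarith)
      exact mul_pos_of_neg_of_neg h (by linarith)
    · have h3 : 0 < t * a := mul_pos ht0 h
      have h4 := Real.strictMonoOn_sin m2 m1 (by linarith)
      exact mul_pos h (by linarith)
  refine ⟨?_, pos⟩
  by_cases ha0 : a = 0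
  · rw [ha0]; simp
  · exact (pos ha0).le

end MON

open MON in
theorem t_MON : S_MON := by
  intro v hv
  set x := v.1.re with hx
  set y := v.1.im with hy
  set z := v.2 with hz
  have hn : x ^ 2 + y ^ 2 + z ^ 2 = 1 := by
    have := nrm_sq' v
    rw [mem_Sph.1 hv] at this
    linarith
  have hf : (fun t : ℝ => rs (kap (t • v))) = fun t : ℝ =>
      1 / 2 * (Real.cos (Real.pi / 4 + t * (z + x - y)) + Real.cos (Real.pi / 4 + t * (-(z + x + y))) +
        Real.cos (Real.pi / 4 + t * (z - x + y)) + Real.cos (Real.pi / 4 + t * (y - z + x))) := by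
    funext t
    rw [rs_kap]
    have e1 : (t • v).1.re = t * x := by simp [hx]
    have e2 : (t • v).1.im = t * y := by simp [hy]
    have e3 : (t • v).2 = t * z := by simp [hz]
    rw [e1, e2, e3]
    have c1 : Real.pi / 4 + t * (z + x - y) = (Real.pi / 4 - t * y) + (t * z + t * x) := by ring
    have c2 : Real.pi / 4 + t * (-(z + x + y)) = (Real.pi / 4 - t * y) - (t * z + t * x) := by ring
    have c3 : Real.pi / 4 + t * (z - x + y) = (Real.pi / 4 + t * y) + (t * z - t * x) := by ring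
    have c4 : Real.pi / 4 + t * (y - z + x) = (Real.pi / 4 + t * y) - (t * z - t * x) := by ring
    rw [c1, c2, c3, c4, Real.cos_add (Real.pi / 4 - t * y) (t * z + t * x),
      Real.cos_sub (Real.pi / 4 - t * y) (t * z + t * x),
      Real.cos_add (Real.pi / 4 + t * y) (t * z - t * x),
      Real.cos_sub (Real.pi / 4 + t * y) (t * z - t * x)]
    ring
  have hd : ∀ (a t : ℝ), HasDerivAt (fun t : ℝ => Real.cos (Real.pi / 4 + t * a))
      (-Real.sin (Real.pi / 4 + t * a) * a) t := by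
    intro a t
    have h1 : HasDerivAt (fun t : ℝ => Real.pi / 4 + t * a) a t := by
      simpa using ((hasDerivAt_id t).mul_const a).const_add (Real.pi / 4)
    exact h1.cos
  rw [hf]
  have hD : ∀ t : ℝ, HasDerivAt (fun t : ℝ =>
      1 / 2 * (Real.cos (Real.pi / 4 + t * (z + x - y)) + Real.cos (Real.pi / 4 + t * (-(z + x + y))) +
        Real.cos (Real.pi / 4 + t * (z - x + y)) + Real.cos (Real.pi / 4 + t * (y - z + x))))
      (1 / 2 * (-Real.sin (Real.pi / 4 + t * (z + x - y)) * (z + x - y) +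
        -Real.sin (Real.pi / 4 + t * (-(z + x + y))) * (-(z + x + y)) +
        -Real.sin (Real.pi / 4 + t * (z - x + y)) * (z - x + y) +
        -Real.sin (Real.pi / 4 + t * (y - z + x)) * (y - z + x))) t := by
    intro t
    exact ((((hd _ t).add (hd _ t)).add (hd _ t)).add (hd _ t)).const_mul _
  apply strictAntiOn_of_deriv_neg (convex_Icc _ _)
  · exact fun t _ => (hD t).continuousAt.continuousWithinAt
  · intro t ht
    rw [interior_Icc] at ht
    rw [(hD t).deriv]
    have b1 : (z + x - y) ^ 2 ≤ 3 := by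
      have e : (z + x - y) ^ 2 = 3 * (x ^ 2 + y ^ 2 + z ^ 2) -
        ((z - x) ^ 2 + (z + y) ^ 2 + (x + y) ^ 2) := by ring
      rw [e, hn]
      linarith [sq_nonneg (z - x), sq_nonneg (z + y), sq_nonneg (x + y)]
    have b2 : (-(z + x + y)) ^ 2 ≤ 3 := by
      have e : (-(z + x + y)) ^ 2 = 3 * (x ^ 2 + y ^ 2 + z ^ 2) -
        ((z - x) ^ 2 + (z - y) ^ 2 + (x - y) ^ 2) := by ring
      rw [e, hn]
      linarith [sq_nonneg (z - x), sq_nonneg (z - y), sq_nonneg (x - y)]
    have b3 : (z - x + y) ^ 2 ≤ 3 := by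
      have e : (z - x + y) ^ 2 = 3 * (x ^ 2 + y ^ 2 + z ^ 2) -
        ((z + x) ^ 2 + (z - y) ^ 2 + (x + y) ^ 2) := by ring
      rw [e, hn]
      linarith [sq_nonneg (z + x), sq_nonneg (z - y), sq_nonneg (x + y)]
    have b4 : (y - z + x) ^ 2 ≤ 3 := by
      have e : (y - z + x) ^ 2 = 3 * (x ^ 2 + y ^ 2 + z ^ 2) -
        ((z + x) ^ 2 + (z + y) ^ 2 + (x - y) ^ 2) := by ring
      rw [e, hn]
      linarith [sq_nonneg (z + x), sq_nonneg (z + y), sq_nonneg (x - y)]
    obtain ⟨p1, q1⟩ := term_nonneg ht.1 ht.2 b1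
    obtain ⟨p2, q2⟩ := term_nonneg ht.1 ht.2 b2
    obtain ⟨p3, q3⟩ := term_nonneg ht.1 ht.2 b3
    obtain ⟨p4, q4⟩ := term_nonneg ht.1 ht.2 b4
    have hne : z + x - y ≠ 0 ∨ -(z + x + y) ≠ 0 ∨ z - x + y ≠ 0 ∨ y - z + x ≠ 0 := by
      by_contra hc
      push Not at hc
      obtain ⟨h1, h2, h3, h4⟩ := hc
      have hz0 : z = 0 := by linarith
      have hy0 : y = 0 := by linarith
      have hx0 : x = 0 := by linarith
      rw [hz0, hy0, hx0] at hn
      norm_num at hn
    have hs : 0 < (z + x - y) * (Real.sin (Real.pi / 4 + t * (z + x - y)) - Real.sin (Real.pi / 4)) +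
        -(z + x + y) * (Real.sin (Real.pi / 4 + t * (-(z + x + y))) - Real.sin (Real.pi / 4)) +
        (z - x + y) * (Real.sin (Real.pi / 4 + t * (z - x + y)) - Real.sin (Real.pi / 4)) +
        (y - z + x) * (Real.sin (Real.pi / 4 + t * (y - z + x)) - Real.sin (Real.pi / 4)) := by
      rcases hne with h | h | h | h
      · linarith [q1 h]
      · linarith [q2 h]
      · linarith [q3 h]
      · linarith [q4 h]
    linarith [hs]

end

end Pool.Agent.LIX.G4
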