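import Pool.Agent.LIX.StmtsG4

/-!
# LIX, block G4: the level `C` and the continuous radius `ρ`
-/

set_option autoImplicit false

namespace Pool.Agent.LIX.G4

open Set Metric Complex Filter Topology

noncomputable section

namespace RHO

theorem kap_zero : kap 0 = (((√2 / 2 : ℝ) : ℂ), ((√2 / 2 : ℝ) : ℂ)) := by
  unfold kap
  simp only [Prod.fst_zero, Prod.snd_zero, Complex.zero_im, Complex.zero_re, sub_zero, add_zero,
    Complex.ofReal_zero, zero_mul, Complex.exp_zero, mul_one, Real.cos_pi_div_four]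

theorem rs_kap_zero : rs (kap 0) = √2 := by
  rw [kap_zero, rs]
  simp only [Complex.ofReal_re]
  ring

theorem dist_sq {p : ℂ × ℂ} (hp : p ∈ S3) :
    (p.1.re - √2 / 2) ^ 2 + p.1.im ^ 2 + (p.2.re - √2 / 2) ^ 2 + p.2.im ^ 2 = 2 - √2 * rs p := by
  have h1 : ‖p.1‖ ^ 2 + ‖p.2‖ ^ 2 = 1 := hp
  rw [← Complex.normSq_eq_norm_sq, ← Complex.normSq_eq_norm_sq, Complex.normSq_apply,
    Complex.normSq_apply] at h1
  have h2 : √2 * √2 = 2 := Real.mul_self_sqrt (by norm_num)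
  unfold rs
  nlinarith

theorem rs_lt {p : ℂ × ℂ} (hp : p ∈ S3) (hne : p ≠ kap 0) : rs p < √2 := by
  have h1 := dist_sq hp
  have h2 : √2 * √2 = 2 := Real.mul_self_sqrt (by norm_num)
  have h3 : 0 < √2 := Real.sqrt_pos.2 (by norm_num)
  by_contra hcon
  rw [not_lt] at hcon
  have h4 : √2 * √2 ≤ √2 * rs p := mul_le_mul_of_nonneg_left hcon h3.le
  have e1 : (p.1.re - √2 / 2) ^ 2 = 0 := by
    nlinarith [sq_nonneg (p.1.re - √2 / 2), sq_nonneg p.1.im, sq_nonneg (p.2.re - √2 / 2),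
      sq_nonneg p.2.im]
  have e2 : p.1.im ^ 2 = 0 := by
    nlinarith [sq_nonneg (p.1.re - √2 / 2), sq_nonneg p.1.im, sq_nonneg (p.2.re - √2 / 2),
      sq_nonneg p.2.im]
  have e3 : (p.2.re - √2 / 2) ^ 2 = 0 := by
    nlinarith [sq_nonneg (p.1.re - √2 / 2), sq_nonneg p.1.im, sq_nonneg (p.2.re - √2 / 2),
      sq_nonneg p.2.im]
  have e4 : p.2.im ^ 2 = 0 := by
    nlinarith [sq_nonneg (p.1.re - √2 / 2), sq_nonneg p.1.im, sq_nonneg (p.2.re - √2 / 2),
      sq_nonneg p.2.im]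
  apply hne
  rw [kap_zero]
  refine Prod.ext (Complex.ext ?_ ?_) (Complex.ext ?_ ?_)
  · rw [Complex.ofReal_re]
    exact sub_eq_zero.1 (pow_eq_zero_iff two_ne_zero |>.1 e1)
  · rw [Complex.ofReal_im]
    exact pow_eq_zero_iff two_ne_zero |>.1 e2
  · rw [Complex.ofReal_re]
    exact sub_eq_zero.1 (pow_eq_zero_iff two_ne_zero |>.1 e3)
  · rw [Complex.ofReal_im]
    exact pow_eq_zero_iff two_ne_zero |>.1 e4

theorem cpt_S3 : IsCompact S3 := by
  have hcl : IsClosed S3 := by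
    unfold S3
    exact isClosed_eq (by fun_prop) continuous_const
  refine Metric.isCompact_of_isClosed_isBounded hcl ?_
  refine (Metric.isBounded_closedBall (x := (0 : ℂ × ℂ)) (r := 1)).subset fun p hp => ?_
  have h1 : ‖p.1‖ ^ 2 + ‖p.2‖ ^ 2 = 1 := hp
  rw [mem_closedBall_zero_iff, Prod.norm_def]
  apply max_le
  · nlinarith [norm_nonneg p.1, sq_nonneg ‖p.2‖]
  · nlinarith [norm_nonneg p.2, sq_nonneg ‖p.1‖]

theorem cont_t (v : ℂ × ℝ) : Continuous fun t : ℝ => rs (kap (t • v)) := by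
  have h : Continuous fun t : ℝ => (t • v : ℂ × ℝ) := continuous_id.smul continuous_const
  exact cont_rs.comp (cont_kap.comp h)

theorem cont_v (t : ℝ) : Continuous fun v : ℂ × ℝ => rs (kap (t • v)) := by
  have h : Continuous fun v : ℂ × ℝ => (t • v : ℂ × ℝ) := continuous_const_smul t
  exact cont_rs.comp (cont_kap.comp h)

end RHO

open RHO in
theorem t_RHO : M_RHO := by
  intro hKAP hMON
  obtain ⟨h1, h2, h3⟩ := hKAP
  obtain ⟨O, hO, hO2⟩ := h3 (2 / 5) le_rfl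
  have h25 : (0 : ℝ) < 2 / 5 := by norm_num
  have hK : IsCompact (S3 \ O) := cpt_S3.diff hO
  have hKm : ∀ p ∈ S3, p ∉ kap '' {v | nrm v < 2 / 5} → p ∈ S3 \ O := by
    intro p hp hp2
    refine ⟨hp, fun h => hp2 ?_⟩
    rw [← hO2]
    exact ⟨hp, h⟩
  have hend : ∀ v ∈ Sph, kap ((2 / 5 : ℝ) • v) ∈ S3 \ O := by
    intro v hv
    apply hKm _ (h1 _)
    rintro ⟨w, hw, hwv⟩
    have h4 : nrm ((2 / 5 : ℝ) • v) = 2 / 5 := by
      rw [nrm_smul_of_nonneg h25.le, mem_Sph.1 hv, mul_one]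
    have h5 : w = (2 / 5 : ℝ) • v := h2 (show nrm w ≤ 2 / 5 from le_of_lt hw) h4.le hwv
    rw [h5] at hw
    exact absurd hw (not_lt.2 h4.ge)
  have hv0 : ((1 : ℂ), (0 : ℝ)) ∈ Sph := by
    change ‖(1 : ℂ)‖ ^ 2 + (0 : ℝ) ^ 2 = 1
    rw [norm_one]
    norm_num
  obtain ⟨p0, hp0, hmax⟩ := hK.exists_isMaxOn ⟨_, hend _ hv0⟩ cont_rs.continuousOn
  have hp0' : p0 ≠ kap 0 := by
    rintro rfl
    apply hp0.2
    have h4 : kap 0 ∈ S3 ∩ O := by
      rw [hO2]
      refine mem_image_of_mem _ ?_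
      change nrm 0 < 2 / 5
      rw [nrm_eq_zero.2 rfl]
      exact h25
    exact h4.2
  have hM : rs p0 < √2 := rs_lt hp0.1 hp0'
  have hs2 : 1 < √2 := by
    rw [show (1 : ℝ) = √1 from Real.sqrt_one.symm]
    exact Real.sqrt_lt_sqrt zero_le_one (by norm_num)
  set C := max 1 ((rs p0 + √2) / 2) with hC
  have hC0 : 0 < C := lt_of_lt_of_le one_pos (le_max_left _ _)
  have hC2 : C < √2 := max_lt hs2 (by linarith)
  have hKC : ∀ p ∈ S3 \ O, rs p < C := by
    intro p hp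
    have h4 : rs p ≤ rs p0 := hmax hp
    refine lt_of_lt_of_le ?_ (le_max_right _ _)
    linarith
  have hex : ∀ v, ∃ t : ℝ, v ∈ Sph → t ∈ Ioo 0 (2 / 5) ∧ rs (kap (t • v)) = C := by
    intro v
    by_cases hv : v ∈ Sph
    · have h4 : rs (kap ((2 / 5 : ℝ) • v)) < C := hKC _ (hend v hv)
      have h5 : C < rs (kap ((0 : ℝ) • v)) := by
        rw [zero_smul, rs_kap_zero]
        exact hC2
      obtain ⟨t, ht, htC⟩ := intermediate_value_Icc' h25.le (cont_t v).continuousOn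
        ⟨h4.le, h5.le⟩
      refine ⟨t, fun _ => ⟨⟨lt_of_le_of_ne ht.1 ?_, lt_of_le_of_ne ht.2 ?_⟩, htC⟩⟩
      · intro h
        rw [h] at h5
        exact absurd htC (ne_of_gt h5)
      · intro h
        rw [← h] at h4
        exact absurd htC (ne_of_lt h4)
    · exact ⟨0, fun h => absurd h hv⟩
  choose ρ hρ using hex
  have hIcc : ∀ v ∈ Sph, ρ v ∈ Icc (0 : ℝ) (2 / 5) := fun v hv =>
    ⟨(hρ v hv).1.1.le, (hρ v hv).1.2.le⟩
  refine ⟨C, ρ, hC0, hC2, ?_, hρ, fun p hp hp2 => hKC p (hKm p hp hp2)⟩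
  intro v0 hv0
  rw [ContinuousWithinAt, tendsto_order]
  constructor
  · intro a ha
    by_cases ha0 : a < 0
    · filter_upwards [self_mem_nhdsWithin] with v hv
      exact ha0.trans (hρ v hv).1.1
    · rw [not_lt] at ha0
      have haI : a ∈ Icc (0 : ℝ) (2 / 5) := ⟨ha0, (ha.trans (hρ v0 hv0).1.2).le⟩
      have h4 : C < rs (kap (a • v0)) := by
        rw [← (hρ v0 hv0).2]
        exact hMON v0 hv0 haI (hIcc v0 hv0) ha
      have h5 : ∀ᶠ v in 𝓝[Sph] v0, C < rs (kap (a • v)) :=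
        ((cont_v a).continuousWithinAt).eventually_const_lt h4
      filter_upwards [self_mem_nhdsWithin, h5] with v hv hv5
      by_contra hcon
      rw [not_lt] at hcon
      have h6 := (hMON v hv).antitoneOn (hIcc v hv) haI hcon
      have h7 : rs (kap (a • v)) ≤ C := by
        rw [← (hρ v hv).2]
        exact h6
      exact absurd hv5 (not_lt.2 h7)
  · intro b hb
    by_cases hb0 : 2 / 5 < b
    · filter_upwards [self_mem_nhdsWithin] with v hv
      exact (hρ v hv).1.2.trans hb0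
    · rw [not_lt] at hb0
      have hbI : b ∈ Icc (0 : ℝ) (2 / 5) := ⟨((hρ v0 hv0).1.1.trans hb).le, hb0⟩
      have h4 : rs (kap (b • v0)) < C := by
        rw [← (hρ v0 hv0).2]
        exact hMON v0 hv0 (hIcc v0 hv0) hbI hb
      have h5 : ∀ᶠ v in 𝓝[Sph] v0, rs (kap (b • v)) < C :=
        ((cont_v b).continuousWithinAt).eventually_lt_const h4
      filter_upwards [self_mem_nhdsWithin, h5] with v hv hv5
      by_contra hcon
      rw [not_lt] at hcon
      have h6 := (hMON v hv).antitoneOn hbI (hIcc v hv) hcon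
      have h7 : C ≤ rs (kap (b • v)) := by
        rw [← (hρ v hv).2]
        exact h6
      exact absurd hv5 (not_lt.2 h7)

end

end Pool.Agent.LIX.G4
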