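import Pool.Agent.LIX.StmtsG4

/-!
# LIX, block G4, module STE: stereographic projection onto the unit ball
-/

set_option autoImplicit false

namespace Pool.Agent.LIX.G4

open Set Metric Complex

noncomputable section

namespace STE

/-- `c` -/
def cc (p : ℂ × ℂ) : ℝ := rs p / √2

/-- `d` -/
def dd (p : ℂ × ℂ) : ℝ := (p.1.re - p.2.re) / √2

/-- the projection -/
def hh (k : ℝ) (p : ℂ × ℂ) : ℂ × ℝ :=
  ((1 - cc p) * k)⁻¹ • (((dd p : ℝ) : ℂ) + ((p.1.im : ℝ) : ℂ) * I, p.2.im)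

/-- the number `c` of the preimage -/
def c' (k : ℝ) (w : ℂ × ℝ) : ℝ := (k ^ 2 * nrm w ^ 2 - 1) / (k ^ 2 * nrm w ^ 2 + 1)

/-- the inverse -/
def gg (k : ℝ) (w : ℂ × ℝ) : ℂ × ℂ :=
  ((((c' k w + (1 - c' k w) * k * w.1.re) / √2 : ℝ) : ℂ) + (((1 - c' k w) * k * w.1.im : ℝ) : ℂ) * I,
    (((c' k w - (1 - c' k w) * k * w.1.re) / √2 : ℝ) : ℂ) + (((1 - c' k w) * k * w.2 : ℝ) : ℂ) * I)

theorem s2 : √(2 : ℝ) ^ 2 = 2 := Real.sq_sqrt (by norm_num)

theorem s2pos : 0 < √(2 : ℝ) := Real.sqrt_pos.2 (by norm_num)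

theorem mem_S3 (p : ℂ × ℂ) :
    p ∈ S3 ↔ p.1.re ^ 2 + p.1.im ^ 2 + p.2.re ^ 2 + p.2.im ^ 2 = 1 := by
  have h1 : ‖p.1‖ ^ 2 = p.1.re ^ 2 + p.1.im ^ 2 := by
    rw [← Complex.normSq_eq_norm_sq, Complex.normSq_apply]
    ring
  have h2 : ‖p.2‖ ^ 2 = p.2.re ^ 2 + p.2.im ^ 2 := by
    rw [← Complex.normSq_eq_norm_sq, Complex.normSq_apply]
    ring
  change ‖p.1‖ ^ 2 + ‖p.2‖ ^ 2 = 1 ↔ _
  rw [h1, h2]
  constructor <;> intro h <;> linarith

theorem cpt_S3 : IsCompact S3 := by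
  refine Metric.isCompact_of_isClosed_isBounded ?_ ?_
  · exact isClosed_eq (by fun_prop) continuous_const
  · refine (Metric.isBounded_closedBall (x := (0 : ℂ × ℂ)) (r := 1)).subset fun p hp => ?_
    rw [mem_closedBall_zero_iff, Prod.norm_def]
    have hp' : ‖p.1‖ ^ 2 + ‖p.2‖ ^ 2 = 1 := hp
    refine max_le ?_ ?_
    · nlinarith [norm_nonneg p.1, sq_nonneg ‖p.2‖]
    · nlinarith [norm_nonneg p.2, sq_nonneg ‖p.1‖]

theorem cpt_KK (C : ℝ) : IsCompact (KK C) := by
  have : KK C = S3 ∩ {p | rs p ≤ C} := rfl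
  rw [this]
  exact cpt_S3.inter_right (isClosed_le cont_rs continuous_const)

theorem key (p : ℂ × ℂ) (hp : p ∈ S3) : cc p ^ 2 + dd p ^ 2 + p.1.im ^ 2 + p.2.im ^ 2 = 1 := by
  rw [mem_S3] at hp
  rw [cc, dd, div_pow, div_pow, s2, rs]
  nlinarith

theorem key2 (k : ℝ) (hk : 0 < k) (p : ℂ × ℂ) (hp : p ∈ S3) (hc : cc p < 1) :
    nrm (hh k p) ^ 2 * ((1 - cc p) * k ^ 2) = 1 + cc p := by
  have h1 : 0 < 1 - cc p := by linarith
  have h2 : nrm (((dd p : ℝ) : ℂ) + ((p.1.im : ℝ) : ℂ) * I, p.2.im) ^ 2 = 1 - cc p ^ 2 := by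
    rw [nrm_sq']
    simp only [Complex.add_re, Complex.ofReal_re, Complex.mul_re, Complex.I_re, Complex.ofReal_im,
      Complex.I_im, Complex.add_im, Complex.mul_im]
    have := key p hp
    nlinarith
  rw [hh, nrm_smul, mul_pow, sq_abs, h2]
  have h3 : (1 - cc p) * k ≠ 0 := (mul_pos h1 hk).ne'
  have h4 : 1 - cc p ≠ 0 := h1.ne'
  field_simp
  ring

theorem cc_le {C : ℝ} {p : ℂ × ℂ} (h : rs p ≤ C) : cc p ≤ C / √2 :=
  div_le_div_of_nonneg_right h s2pos.le

theorem left_inv (k : ℝ) (hk : 0 < k) (p : ℂ × ℂ) (hp : p ∈ S3) (hc : cc p < 1) :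
    gg k (hh k p) = p := by
  have h1 : 0 < 1 - cc p := by linarith
  have h0 := key2 k hk p hp hc
  have hR : k ^ 2 * nrm (hh k p) ^ 2 = (1 + cc p) / (1 - cc p) := by
    rw [eq_div_iff h1.ne']
    linarith
  have hc' : c' k (hh k p) = cc p := by
    rw [c', hR]
    have h2 : (1 + cc p) / (1 - cc p) + 1 = 2 / (1 - cc p) := by
      field_simp
      ring
    have h3 : (1 + cc p) / (1 - cc p) - 1 = 2 * cc p / (1 - cc p) := by
      field_simp
      ring
    rw [h2, h3]
    field_simp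
  have h3 : (1 - cc p) * k ≠ 0 := (mul_pos h1 hk).ne'
  have e1 : (1 - cc p) * k * (hh k p).1.re = dd p := by
    rw [hh]
    simp only [Prod.smul_mk, Complex.real_smul, Complex.mul_re, Complex.add_re, Complex.ofReal_re,
      Complex.I_re, Complex.ofReal_im, Complex.I_im, Complex.add_im, Complex.mul_im]
    field_simp
    ring
  have e2 : (1 - cc p) * k * (hh k p).1.im = p.1.im := by
    rw [hh]
    simp only [Prod.smul_mk, Complex.real_smul, Complex.mul_re, Complex.add_re, Complex.ofReal_re,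
      Complex.I_re, Complex.ofReal_im, Complex.I_im, Complex.add_im, Complex.mul_im]
    field_simp
    ring
  have e3 : (1 - cc p) * k * (hh k p).2 = p.2.im := by
    rw [hh]
    simp only [Prod.smul_mk, smul_eq_mul]
    field_simp
  rw [gg, hc', e1, e2, e3]
  have hs := s2pos.ne'
  have q1 : (cc p + dd p) / √2 = p.1.re := by
    rw [cc, dd, ← add_div, div_div, ← pow_two, s2, rs]
    ring
  have q2 : (cc p - dd p) / √2 = p.2.re := by
    rw [cc, dd, ← sub_div, div_div, ← pow_two, s2, rs]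
    ring
  rw [q1, q2]
  exact Prod.ext (Complex.re_add_im _) (Complex.re_add_im _)

theorem gg_cc (k : ℝ) (w : ℂ × ℝ) : cc (gg k w) = c' k w := by
  rw [cc, gg, rs]
  simp only [Complex.add_re, Complex.ofReal_re, Complex.mul_re, Complex.I_re, Complex.ofReal_im,
    Complex.I_im]
  have hs := s2pos.ne'
  have h2 := s2
  field_simp
  rw [h2]
  ring

theorem gg_dd (k : ℝ) (w : ℂ × ℝ) : dd (gg k w) = (1 - c' k w) * k * w.1.re := by
  rw [dd, gg]
  simp only [Complex.add_re, Complex.ofReal_re, Complex.mul_re, Complex.I_re, Complex.ofReal_im,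
    Complex.I_im]
  have hs := s2pos.ne'
  have h2 := s2
  field_simp
  rw [h2]
  ring

theorem one_sub_c' (k : ℝ) (w : ℂ × ℝ) : 1 - c' k w = 2 / (k ^ 2 * nrm w ^ 2 + 1) := by
  rw [c']
  have : k ^ 2 * nrm w ^ 2 + 1 ≠ 0 := by positivity
  field_simp
  ring

theorem right_inv (k : ℝ) (hk : 0 < k) (w : ℂ × ℝ) : hh k (gg k w) = w := by
  have h1 : 0 < 1 - c' k w := by
    rw [one_sub_c']
    positivity
  have h3 : (1 - c' k w) * k ≠ 0 := (mul_pos h1 hk).ne'
  have e1 : (gg k w).1.im = (1 - c' k w) * k * w.1.im := by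
    rw [gg]
    simp only [Complex.add_im, Complex.ofReal_im, Complex.mul_im, Complex.ofReal_re, Complex.I_im,
      Complex.I_re]
    ring
  have e2 : (gg k w).2.im = (1 - c' k w) * k * w.2 := by
    rw [gg]
    simp only [Complex.add_im, Complex.ofReal_im, Complex.mul_im, Complex.ofReal_re, Complex.I_im,
      Complex.I_re]
    ring
  rw [hh, gg_cc, gg_dd, e1, e2]
  refine Prod.ext ?_ ?_
  · simp only [Prod.smul_mk, Complex.real_smul]
    apply Complex.ext
    · simp only [Complex.mul_re, Complex.add_re, Complex.ofReal_re, Complex.I_re,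
        Complex.ofReal_im, Complex.I_im, Complex.add_im, Complex.mul_im]
      field_simp
      ring
    · simp only [Complex.mul_re, Complex.add_re, Complex.ofReal_re, Complex.I_re,
        Complex.ofReal_im, Complex.I_im, Complex.add_im, Complex.mul_im]
      field_simp
      ring
  · simp only [Prod.smul_mk, smul_eq_mul]
    field_simp

theorem gg_S3 (k : ℝ) (w : ℂ × ℝ) : gg k w ∈ S3 := by
  rw [mem_S3]
  have e1 : (gg k w).1.im = (1 - c' k w) * k * w.1.im := by
    rw [gg]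
    simp only [Complex.add_im, Complex.ofReal_im, Complex.mul_im, Complex.ofReal_re, Complex.I_im,
      Complex.I_re]
    ring
  have e2 : (gg k w).2.im = (1 - c' k w) * k * w.2 := by
    rw [gg]
    simp only [Complex.add_im, Complex.ofReal_im, Complex.mul_im, Complex.ofReal_re, Complex.I_im,
      Complex.I_re]
    ring
  have e3 : (gg k w).1.re ^ 2 + (gg k w).2.re ^ 2 = cc (gg k w) ^ 2 + dd (gg k w) ^ 2 := by
    rw [cc, dd, div_pow, div_pow, s2, rs]
    ring
  have hN := nrm_sq' w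
  have hR : 0 ≤ k ^ 2 * nrm w ^ 2 := by positivity
  have h1 : c' k w ^ 2 + (1 - c' k w) ^ 2 * (k ^ 2 * nrm w ^ 2) = 1 := by
    rw [one_sub_c', c']
    have : k ^ 2 * nrm w ^ 2 + 1 ≠ 0 := by positivity
    field_simp
    ring
  have h2 : (gg k w).1.re ^ 2 + (gg k w).1.im ^ 2 + (gg k w).2.re ^ 2 + (gg k w).2.im ^ 2 =
      c' k w ^ 2 + (1 - c' k w) ^ 2 * (k ^ 2 * nrm w ^ 2) := by
    rw [hN, e1, e2]
    rw [gg_cc, gg_dd] at e3
    linear_combination e3
  rw [h2, h1]

end STE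

open STE in
theorem t_STE : S_STE := by
  intro C hC0 hC
  have hs := s2pos
  have hc0 : 0 < C / √2 := div_pos hC0 hs
  have hc1 : C / √2 < 1 := by
    rw [div_lt_one hs]
    exact hC
  obtain ⟨c0, hc0e⟩ : ∃ c0, c0 = C / √2 := ⟨_, rfl⟩
  rw [← hc0e] at hc0 hc1
  have hpos : 0 < (1 + c0) / (1 - c0) := div_pos (by linarith) (by linarith)
  obtain ⟨k, hkd⟩ : ∃ k, k = √((1 + c0) / (1 - c0)) := ⟨_, rfl⟩
  have hk : 0 < k := by
    rw [hkd]
    exact Real.sqrt_pos.2 hpos
  have hk2 : k ^ 2 * (1 - c0) = 1 + c0 := by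
    rw [hkd, Real.sq_sqrt hpos.le]
    have : 1 - c0 ≠ 0 := by linarith
    field_simp
  have hcle : ∀ p ∈ KK C, cc p ≤ c0 := fun p hp => by
    rw [hc0e]
    exact cc_le hp.2
  have hlt : ∀ p ∈ KK C, cc p < 1 := fun p hp => lt_of_le_of_lt (hcle p hp) hc1
  have hprod : ∀ p ∈ KK C, nrm (hh k p) ^ 2 * ((1 - cc p) * (1 + c0)) = (1 + cc p) * (1 - c0) := by
    intro p hp
    have h := key2 k hk p hp.1 (hlt p hp)
    rw [← hk2, ← h]
    ring
  refine ⟨hh k, ⟨cpt_KK C, ?_, ?_, ?_⟩, ?_⟩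
  · -- continuity
    unfold hh
    have hcc : Continuous cc := by
      unfold cc
      exact cont_rs.div_const _
    have hdd : Continuous dd := by
      unfold dd
      fun_prop
    have c1 : ContinuousOn (fun p : ℂ × ℂ => ((1 - cc p) * k)⁻¹) (KK C) := by
      refine ContinuousOn.inv₀ (by fun_prop) ?_
      intro p hp
      have := hlt p hp
      exact (mul_pos (by linarith) hk).ne'
    have c2 : ContinuousOn (fun p : ℂ × ℂ =>
        ((((dd p : ℝ) : ℂ) + ((p.1.im : ℝ) : ℂ) * I, p.2.im) : ℂ × ℝ)) (KK C) := by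
      fun_prop
    exact c1.smul c2
  · intro p hp q hq e
    rw [← left_inv k hk p hp.1 (hlt p hp), ← left_inv k hk q hq.1 (hlt q hq), e]
  · ext w
    constructor
    · rintro ⟨p, hp, rfl⟩
      change nrm (hh k p) ≤ 1
      have h := hprod p hp
      have h1 := hlt p hp
      have h2 := hcle p hp
      have h3 : 0 < (1 - cc p) * (1 + c0) := mul_pos (by linarith) (by linarith)
      have h4 : nrm (hh k p) ^ 2 ≤ 1 := by
        by_contra hcon
        rw [not_le] at hcon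
        nlinarith
      nlinarith [nrm_nonneg (hh k p)]
    · intro hw
      have hw' : nrm w ≤ 1 := hw
      refine ⟨gg k w, ⟨gg_S3 k w, ?_⟩, right_inv k hk w⟩
      have h1 : c' k w ≤ c0 := by
        rw [c', div_le_iff₀ (by positivity)]
        have h2 : nrm w ^ 2 ≤ 1 := by nlinarith [nrm_nonneg w]
        have h3 : k ^ 2 * nrm w ^ 2 ≤ k ^ 2 := by nlinarith [sq_nonneg k]
        nlinarith
      rw [← gg_cc, cc, hc0e, div_le_div_iff_of_pos_right hs] at h1
      exact h1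
  · intro p hp
    have h := hprod p hp
    have h1 := hlt p hp
    have h2 := hcle p hp
    have h3 : 0 < (1 - cc p) * (1 + c0) := mul_pos (by linarith) (by linarith)
    constructor
    · intro e
      rw [e] at h
      have h4 : cc p = c0 := by nlinarith
      rw [cc, hc0e, div_left_inj' hs.ne'] at h4
      exact h4
    · intro e
      have h4 : cc p = c0 := by
        rw [cc, e, hc0e]
      rw [h4] at h h3
      have h5 : nrm (hh k p) ^ 2 = 1 := by
        have h6 : (nrm (hh k p) ^ 2 - 1) * ((1 - c0) * (1 + c0)) = 0 := by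
          linear_combination h
        rcases mul_eq_zero.1 h6 with h7 | h7
        · linarith
        · exact absurd h7 h3.ne'
      nlinarith [nrm_nonneg (hh k p)]

end

end Pool.Agent.LIX.G4
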