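import Pool.Agent.LIX.StmtsG4

/-!
# LIX, block G4, module STR: the radial stretch
-/

set_option autoImplicit false

namespace Pool.Agent.LIX.G4

open Set Metric Complex

noncomputable section

namespace STR

/-- the annulus -/
def Ann : Set (ℂ × ℝ) := {v | 1 / 5 ≤ nrm v ∧ nrm v ≤ 2 / 5}

/-- the direction -/
def dir (v : ℂ × ℝ) : ℂ × ℝ := (nrm v)⁻¹ • v

/-- the new radius -/
def lam (ρ : ℂ × ℝ → ℝ) (v : ℂ × ℝ) : ℝ := 2 / 5 - (2 - 5 * nrm v) * (2 / 5 - ρ (dir v))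

/-- the stretch -/
def L (ρ : ℂ × ℝ → ℝ) (v : ℂ × ℝ) : ℂ × ℝ := lam ρ v • dir v

theorem cpt_Ann : IsCompact Ann := by
  refine (cpt_ball (2 / 5)).of_isClosed_subset ?_ fun v hv => hv.2
  exact (isClosed_le continuous_const cont_nrm).inter (isClosed_le cont_nrm continuous_const)

theorem Ann_ne {v : ℂ × ℝ} (h : v ∈ Ann) : v ≠ 0 := by
  rintro rfl
  have h1 : (1 : ℝ) / 5 ≤ nrm 0 := h.1
  rw [nrm_eq_zero.2 rfl] at h1
  norm_num at h1

theorem dir_mem {v : ℂ × ℝ} (h : v ≠ 0) : dir v ∈ Sph := nrm_unit h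

theorem dir_smul {w : ℂ × ℝ} (hw : w ∈ Sph) {t : ℝ} (ht : 0 < t) : dir (t • w) = w := by
  unfold dir
  rw [nrm_smul_of_nonneg ht.le, mem_Sph.1 hw, mul_one, smul_smul, inv_mul_cancel₀ ht.ne', one_smul]

theorem nrm_smul_Sph {w : ℂ × ℝ} (hw : w ∈ Sph) {t : ℝ} (ht : 0 ≤ t) : nrm (t • w) = t := by
  rw [nrm_smul_of_nonneg ht, mem_Sph.1 hw, mul_one]

theorem cont_dir : ContinuousOn dir Ann := by
  unfold dir
  refine ContinuousOn.smul (ContinuousOn.inv₀ cont_nrm.continuousOn ?_) continuousOn_id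
  intro v hv
  exact (nrm_pos (Ann_ne hv)).ne'

section

variable {ρ : ℂ × ℝ → ℝ}

theorem cont_L (hρc : ContinuousOn ρ Sph) : ContinuousOn (L ρ) Ann := by
  have h1 : ContinuousOn (fun v => ρ (dir v)) Ann :=
    hρc.comp cont_dir (fun v hv => dir_mem (Ann_ne hv))
  have h2 : ContinuousOn (lam ρ) Ann := by
    unfold lam
    have h3 : ContinuousOn nrm Ann := cont_nrm.continuousOn
    exact continuousOn_const.sub ((continuousOn_const.sub (continuousOn_const.mul h3)).mul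
      (continuousOn_const.sub h1))
  exact h2.smul cont_dir

variable (hρ : ∀ v ∈ Sph, ρ v ∈ Ioo (0 : ℝ) (2 / 5))
include hρ

theorem lam_bounds {v : ℂ × ℝ} (hv : v ∈ Ann) : ρ (dir v) ≤ lam ρ v ∧ lam ρ v ≤ 2 / 5 ∧
    (lam ρ v = 2 / 5 → nrm v = 2 / 5) := by
  obtain ⟨h1, h2⟩ := hρ _ (dir_mem (Ann_ne hv))
  obtain ⟨h3, h4⟩ := hv
  unfold lam
  refine ⟨?_, ?_, ?_⟩
  · nlinarith
  · nlinarith
  · intro h
    have h5 : (2 - 5 * nrm v) * (2 / 5 - ρ (dir v)) = 0 := by linarith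
    rcases mul_eq_zero.1 h5 with h6 | h6
    · linarith
    · linarith

theorem lam_pos {v : ℂ × ℝ} (hv : v ∈ Ann) : 0 < lam ρ v :=
  (hρ _ (dir_mem (Ann_ne hv))).1.trans_le (lam_bounds hρ hv).1

theorem nrm_L {v : ℂ × ℝ} (hv : v ∈ Ann) : nrm (L ρ v) = lam ρ v :=
  nrm_smul_Sph (dir_mem (Ann_ne hv)) (lam_pos hρ hv).le

omit hρ in
theorem L_eq {v : ℂ × ℝ} (hv : v ∈ Ann) (h : nrm v = 2 / 5) : L ρ v = v := by
  unfold L lam
  rw [h]
  have h1 : (2 : ℝ) / 5 - (2 - 5 * (2 / 5)) * (2 / 5 - ρ (dir v)) = 2 / 5 := by ring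
  rw [h1, ← h]
  exact smul_unit (Ann_ne hv)

theorem L_inj : InjOn (L ρ) Ann := by
  intro v hv v' hv' h
  obtain ⟨h1, h2⟩ := polar_unique (dir_mem (Ann_ne hv)) (dir_mem (Ann_ne hv')) (lam_pos hρ hv)
    (lam_pos hρ hv') h
  obtain ⟨h3, h4⟩ := hρ _ (dir_mem (Ann_ne hv))
  have h5 : nrm v = nrm v' := by
    unfold lam at h1
    rw [← h2] at h1
    have h6 : (nrm v - nrm v') * (2 / 5 - ρ (dir v)) = 0 := by nlinarith
    rcases mul_eq_zero.1 h6 with h7 | h7
    · linarith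
    · linarith
  rw [← smul_unit (Ann_ne hv), ← smul_unit (Ann_ne hv')]
  change nrm v • dir v = nrm v' • dir v'
  rw [h5, h2]

end

theorem isClosed_S3 : IsClosed S3 := by
  unfold S3
  exact isClosed_eq (by fun_prop) continuous_const

theorem cpt_S3 : IsCompact S3 := by
  refine Metric.isCompact_of_isClosed_isBounded isClosed_S3 ?_
  refine (Metric.isBounded_closedBall (x := (0 : ℂ × ℂ)) (r := 1)).subset fun p hp => ?_
  rw [mem_closedBall_zero_iff, Prod.norm_def]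
  have hp' : ‖p.1‖ ^ 2 + ‖p.2‖ ^ 2 = 1 := hp
  refine max_le ?_ ?_
  · nlinarith [norm_nonneg p.1, sq_nonneg ‖p.2‖]
  · nlinarith [norm_nonneg p.2, sq_nonneg ‖p.1‖]

end STR

open STR in
theorem t_STR : M_STR := by
  intro hKAP hMON C ρ hρc hρ' hC
  have hρ : ∀ v ∈ Sph, ρ v ∈ Ioo (0 : ℝ) (2 / 5) := fun v hv => (hρ' v hv).1
  obtain ⟨hmem, hinj, hopn⟩ := hKAP
  -- the two closed pieces
  have hAsub : Ann ⊆ {v | nrm v ≤ 2 / 5} := fun v hv => hv.2
  have hHm : Hm Ann (kap '' Ann) kap := ⟨cpt_Ann, cont_kap.continuousOn, hinj.mono hAsub, rfl⟩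
  obtain ⟨k, hk, hk1, hk2⟩ := hHm.symm
  have hFc1 : IsClosed (kap '' Ann) := hHm.cpt'.isClosed
  set F₂ : Set (ℂ × ℂ) := {p | p ∈ S3 ∧ p ∉ kap '' {v | nrm v < 2 / 5}} with hF₂
  have hFc2 : IsClosed F₂ := by
    obtain ⟨O, hO, hO'⟩ := hopn (2 / 5) le_rfl
    have h1 : F₂ = S3 ∩ Oᶜ := by
      ext p
      constructor
      · rintro ⟨h1, h2⟩
        refine ⟨h1, fun h3 => h2 ?_⟩
        rw [← hO']
        exact ⟨h1, h3⟩
      · rintro ⟨h1, h2⟩
        refine ⟨h1, fun h3 => h2 ?_⟩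
        rw [← hO'] at h3
        exact h3.2
    rw [h1]
    exact isClosed_S3.inter hO.isClosed_compl
  have hbody : TT.body = kap '' Ann ∪ F₂ := by
    ext p
    constructor
    · rintro ⟨h1, h2⟩
      by_cases h3 : p ∈ kap '' {v | nrm v < 2 / 5}
      · left
        obtain ⟨v, hv, rfl⟩ := h3
        have hv' : nrm v < 2 / 5 := hv
        refine ⟨v, ⟨?_, hv'.le⟩, rfl⟩
        by_contra h4
        exact h2 ⟨v, not_le.1 h4, rfl⟩
      · exact Or.inr ⟨h1, h3⟩
    · rintro (⟨v, hv, rfl⟩ | ⟨h1, h2⟩)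
      · refine ⟨hmem v, ?_⟩
        rintro ⟨v', hv', h⟩
        have hv'' : nrm v' < 1 / 5 := hv'
        have h3 : v' = v := hinj (by change nrm v' ≤ 2 / 5; linarith) (hAsub hv) h
        have h4 := hv.1
        rw [← h3] at h4
        linarith
      · refine ⟨h1, ?_⟩
        rintro ⟨v', hv', h⟩
        have hv'' : nrm v' < 1 / 5 := hv'
        exact h2 ⟨v', by change nrm v' < 2 / 5; linarith, h⟩
  have hbc : IsCompact TT.body := by
    rw [hbody]
    exact hHm.cpt'.union (cpt_S3.of_isClosed_subset hFc2 fun p hp => hp.1)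
  classical
  let s : ℂ × ℂ → ℂ × ℂ := fun p => if p ∈ kap '' Ann then kap (L ρ (k p)) else p
  have hs1 : ∀ v ∈ Ann, s (kap v) = kap (L ρ v) := by
    intro v hv
    have h1 : s (kap v) = kap (L ρ (k (kap v))) := if_pos (mem_image_of_mem _ hv)
    rw [h1, hk1 v hv]
  have hs2 : ∀ p ∈ F₂, s p = p := by
    intro p hp
    by_cases h1 : p ∈ kap '' Ann
    · obtain ⟨v, hv, rfl⟩ := h1
      have h2 : nrm v = 2 / 5 := by
        by_contra h3
        exact hp.2 ⟨v, lt_of_le_of_ne hv.2 h3, rfl⟩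
      rw [hs1 v hv, L_eq hv h2]
    · exact if_neg h1
  have hcont : ContinuousOn s TT.body := by
    rw [hbody]
    refine ContinuousOn.union_of_isClosed ?_ ?_ hFc1 hFc2
    · have h1 : ContinuousOn (fun p => kap (L ρ (k p))) (kap '' Ann) := by
        refine cont_kap.comp_continuousOn ((cont_L hρc).comp hk.cont ?_)
        exact hk.maps
      exact h1.congr fun p hp => if_pos hp
    · exact continuousOn_id.congr hs2
  have hLle : ∀ v ∈ Ann, L ρ v ∈ {v | nrm v ≤ 2 / 5} := by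
    intro v hv
    change nrm (L ρ v) ≤ 2 / 5
    rw [nrm_L hρ hv]
    exact (lam_bounds hρ hv).2.1
  -- mixed case of injectivity
  have hmix : ∀ v ∈ Ann, ∀ p ∈ F₂, kap (L ρ v) = p → kap v = p := by
    intro v hv p hp h
    have h1 : nrm (L ρ v) = 2 / 5 := by
      by_contra h3
      exact hp.2 ⟨L ρ v, lt_of_le_of_ne (hLle v hv) h3, h⟩
    rw [nrm_L hρ hv] at h1
    rw [← h, L_eq hv ((lam_bounds hρ hv).2.2 h1)]
  have hinjs : InjOn s TT.body := by
    rw [hbody]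
    rintro p hp p' hp' h
    rcases hp with ⟨v, hv, rfl⟩ | hp
    · rcases hp' with ⟨v', hv', rfl⟩ | hp'
      · rw [hs1 v hv, hs1 v' hv'] at h
        rw [L_inj hρ hv hv' (hinj (hLle v hv) (hLle v' hv') h)]
      · rw [hs1 v hv, hs2 p' hp'] at h
        exact hmix v hv p' hp' h
    · rcases hp' with ⟨v', hv', rfl⟩ | hp'
      · rw [hs1 v' hv', hs2 p hp] at h
        exact (hmix v' hv' p hp h.symm).symm
      · rwa [hs2 p hp, hs2 p' hp'] at h
  have hdir : ∀ v ∈ Ann, dir v ∈ Sph := fun v hv => dir_mem (Ann_ne hv)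
  refine ⟨s, ⟨hbc, hcont, hinjs, ?_⟩, ?_⟩
  · ext q
    constructor
    · rintro ⟨p, hp, rfl⟩
      rw [hbody] at hp
      rcases hp with ⟨v, hv, rfl⟩ | hp
      · rw [hs1 v hv]
        refine ⟨hmem _, ?_⟩
        obtain ⟨h1, h2, -⟩ := lam_bounds hρ hv
        obtain ⟨h3, h4⟩ := hρ _ (hdir v hv)
        have h5 := (hMON _ (hdir v hv)).antitoneOn (a := ρ (dir v)) (b := lam ρ v)
          ⟨h3.le, h4.le⟩ ⟨(lam_pos hρ hv).le, h2⟩ h1
        have h6 : rs (kap (lam ρ v • dir v)) ≤ rs (kap (ρ (dir v) • dir v)) := h5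
        rw [(hρ' _ (hdir v hv)).2] at h6
        exact h6
      · rw [hs2 p hp]
        exact ⟨hp.1, (hC p hp.1 hp.2).le⟩
    · rintro ⟨hq, hqC⟩
      by_cases h1 : q ∈ kap '' {v | nrm v < 2 / 5}
      · obtain ⟨v, hv, rfl⟩ := h1
        have hv' : nrm v < 2 / 5 := hv
        have hv0 : v ≠ 0 := by
          rintro rfl
          have hw : ((0, 1) : ℂ × ℝ) ∈ Sph := by
            change ‖(0 : ℂ)‖ ^ 2 + (1 : ℝ) ^ 2 = 1
            rw [norm_zero]
            norm_num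
          obtain ⟨h3, h4⟩ := hρ _ hw
          have h5 := hMON _ hw (a := 0) (b := ρ (0, 1)) ⟨le_rfl, by norm_num⟩ ⟨h3.le, h4.le⟩ h3
          have h6 : rs (kap (ρ (0, 1) • ((0, 1) : ℂ × ℝ))) < rs (kap ((0 : ℝ) • ((0, 1) : ℂ × ℝ))) := h5
          rw [(hρ' _ hw).2, zero_smul] at h6
          exact absurd hqC (not_le.2 h6)
        have hw := dir_mem hv0
        have hvw : v = nrm v • dir v := (smul_unit hv0).symm
        obtain ⟨h3, h4⟩ := hρ _ hw
        have h5 : ρ (dir v) ≤ nrm v := by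
          have h6 : rs (kap (nrm v • dir v)) ≤ rs (kap (ρ (dir v) • dir v)) := by
            rw [(hρ' _ hw).2, ← hvw]
            exact hqC
          exact ((hMON _ hw).le_iff_ge (a := nrm v) (b := ρ (dir v)) ⟨nrm_nonneg v, hv'.le⟩
            ⟨h3.le, h4.le⟩).1 h6
        set R : ℝ := (2 / 5 - nrm v) / (2 / 5 - ρ (dir v)) with hR
        have hd : 0 < 2 / 5 - ρ (dir v) := by linarith
        have hR1 : R * (2 / 5 - ρ (dir v)) = 2 / 5 - nrm v := div_mul_cancel₀ _ hd.ne'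
        have hR0 : 0 < R := div_pos (by linarith) hd
        have hRle : R ≤ 1 := (div_le_one hd).2 (by linarith)
        set t : ℝ := (2 - R) / 5 with ht
        have ht1 : 1 / 5 ≤ t := by rw [ht]; linarith
        have ht2 : t ≤ 2 / 5 := by rw [ht]; linarith
        have ht0 : 0 < t := by linarith
        have hA : t • dir v ∈ Ann := by
          constructor
          · rw [nrm_smul_Sph hw ht0.le]
            exact ht1
          · rw [nrm_smul_Sph hw ht0.le]
            exact ht2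
        refine ⟨kap (t • dir v), ?_, ?_⟩
        · rw [hbody]
          exact Or.inl (mem_image_of_mem _ hA)
        · rw [hs1 _ hA]
          have h7 : L ρ (t • dir v) = v := by
            unfold L lam
            rw [dir_smul hw ht0, nrm_smul_Sph hw ht0.le]
            have h8 : 2 / 5 - (2 - 5 * t) * (2 / 5 - ρ (dir v)) = nrm v := by
              have h9 : 2 - 5 * t = R := by rw [ht]; ring
              rw [h9, hR1]
              ring
            rw [h8]
            exact hvw.symm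
          rw [h7]
      · have h2 : q ∈ F₂ := ⟨hq, h1⟩
        refine ⟨q, ?_, hs2 q h2⟩
        rw [hbody]
        exact Or.inr h2
  · intro v hv
    have h5 : (0 : ℝ) < 1 / 5 := by norm_num
    have hA : (1 / 5 : ℝ) • v ∈ Ann := by
      constructor
      · rw [nrm_smul_Sph hv h5.le]
      · rw [nrm_smul_Sph hv h5.le]
        norm_num
    rw [hs1 _ hA]
    unfold L lam
    rw [dir_smul hv h5, nrm_smul_Sph hv h5.le]
    congr 2
    ring

end

end Pool.Agent.LIX.G4
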