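import Pool.Agent.LIX.G4_GA

/-!
# LIX, block G4, module TET: the straight tetrahedron
-/

set_option autoImplicit false

namespace Pool.Agent.LIX.G4

open Set Metric Complex

namespace TET

theorem cont_gau : Continuous gau := by
  unfold gau
  fun_prop

theorem hom_gau (t : ℝ) (v : ℂ × ℝ) (ht : 0 ≤ t) : gau (t • v) = t * gau v := by
  unfold gau
  simp only [Prod.smul_fst, Prod.smul_snd, Complex.smul_re, Complex.smul_im, smul_eq_mul, abs_mul,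
    abs_of_nonneg ht]
  rw [mul_max_of_nonneg _ _ ht]
  congr 1 <;> ring

theorem pos_gau (v : ℂ × ℝ) (hv : v ≠ 0) : 0 < gau v := by
  by_contra hne
  apply hv
  have h1 : 2 * |v.1.re| - v.2 ≤ 0 := (le_max_left _ _).trans (not_lt.1 hne)
  have h2 : 2 * |v.1.im| + v.2 ≤ 0 := (le_max_right _ _).trans (not_lt.1 hne)
  have h3 := abs_nonneg v.1.re
  have h4 := abs_nonneg v.1.im
  have h5 : |v.1.re| = 0 := by linarith
  have h6 : |v.1.im| = 0 := by linarith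
  have h7 : v.2 = 0 := by linarith
  refine Prod.ext (Complex.ext ?_ ?_) h7
  · exact abs_eq_zero.1 h5
  · exact abs_eq_zero.1 h6

/-- the coordinates times `4 g` -/
def cc (v : ℂ × ℝ) : Fin 4 → ℝ :=
  ![gau v - v.2 + 2 * v.1.im, gau v + v.2 + 2 * v.1.re, gau v + v.2 - 2 * v.1.re,
    gau v - v.2 - 2 * v.1.im]

theorem bar_scale {v : ℂ × ℝ} (hg : 0 < gau v) (k : Fin 4) :
    bar ((gau v)⁻¹ • v) k = cc v k / (4 * gau v) := by
  have hg' := hg.ne'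
  fin_cases k <;>
    simp only [bar, cc, Prod.smul_fst, Prod.smul_snd, Complex.smul_re, Complex.smul_im, smul_eq_mul] <;>
    simp <;> field_simp <;> ring

theorem bar_nonneg {v : ℂ × ℝ} : (∀ k, 0 ≤ bar v k) ↔ gau v ≤ 1 := by
  have h1 := abs_le (a := v.1.re) (b := (1 + v.2) / 2)
  have h2 := abs_le (a := v.1.im) (b := (1 - v.2) / 2)
  have h3 : gau v ≤ 1 ↔ |v.1.re| ≤ (1 + v.2) / 2 ∧ |v.1.im| ≤ (1 - v.2) / 2 := by
    rw [gau, max_le_iff]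
    constructor
    · rintro ⟨a, b⟩
      constructor <;> linarith
    · rintro ⟨a, b⟩
      constructor <;> linarith
  rw [h3, h1, h2]
  constructor
  · intro h
    have e0 : 0 ≤ (1 - v.2) / 4 + v.1.im / 2 := h 0
    have e1 : 0 ≤ (1 + v.2) / 4 + v.1.re / 2 := h 1
    have e2 : 0 ≤ (1 + v.2) / 4 - v.1.re / 2 := h 2
    have e3 : 0 ≤ (1 - v.2) / 4 - v.1.im / 2 := h 3
    refine ⟨⟨?_, ?_⟩, ⟨?_, ?_⟩⟩ <;> linarith
  · rintro ⟨⟨a, b⟩, ⟨c, e⟩⟩ k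
    fin_cases k
    · change 0 ≤ (1 - v.2) / 4 + v.1.im / 2
      linarith
    · change 0 ≤ (1 + v.2) / 4 + v.1.re / 2
      linarith
    · change 0 ≤ (1 + v.2) / 4 - v.1.re / 2
      linarith
    · change 0 ≤ (1 - v.2) / 4 - v.1.im / 2
      linarith

theorem bar_sum (v : ℂ × ℝ) : ∑ k, bar v k = 1 := by
  rw [Fin.sum_univ_four]
  change (1 - v.2) / 4 + v.1.im / 2 + ((1 + v.2) / 4 + v.1.re / 2) +
    ((1 + v.2) / 4 - v.1.re / 2) + ((1 - v.2) / 4 - v.1.im / 2) = 1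
  ring

theorem cont_bar : Continuous bar := by
  refine continuous_pi fun k => ?_
  fin_cases k
  · change Continuous fun v : ℂ × ℝ => (1 - v.2) / 4 + v.1.im / 2
    fun_prop
  · change Continuous fun v : ℂ × ℝ => (1 + v.2) / 4 + v.1.re / 2
    fun_prop
  · change Continuous fun v : ℂ × ℝ => (1 + v.2) / 4 - v.1.re / 2
    fun_prop
  · change Continuous fun v : ℂ × ℝ => (1 - v.2) / 4 - v.1.im / 2
    fun_prop

theorem hm_bar : Hm {v | gau v ≤ 1} stdTet.body bar := by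
  refine ⟨(t_GA gau cont_gau hom_gau pos_gau).1.cpt, cont_bar.continuousOn, ?_, ?_⟩
  · intro v _ w _ e
    have e0 : (1 - v.2) / 4 + v.1.im / 2 = (1 - w.2) / 4 + w.1.im / 2 := congrFun e 0
    have e1 : (1 + v.2) / 4 + v.1.re / 2 = (1 + w.2) / 4 + w.1.re / 2 := congrFun e 1
    have e2 : (1 + v.2) / 4 - v.1.re / 2 = (1 + w.2) / 4 - w.1.re / 2 := congrFun e 2
    have e3 : (1 - v.2) / 4 - v.1.im / 2 = (1 - w.2) / 4 - w.1.im / 2 := congrFun e 3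
    refine Prod.ext (Complex.ext ?_ ?_) ?_ <;> linarith
  · ext x
    constructor
    · rintro ⟨v, hv, rfl⟩
      exact ⟨fun k => bar_nonneg.2 hv k, bar_sum v⟩
    · intro hx
      have hs := hx.2
      rw [Fin.sum_univ_four] at hs
      have hb : bar (⟨x 1 - x 2, x 0 - x 3⟩, x 1 + x 2 - x 0 - x 3) = x := by
        ext k
        fin_cases k
        · change (1 - (x 1 + x 2 - x 0 - x 3)) / 4 + (x 0 - x 3) / 2 = x 0
          linarith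
        · change (1 + (x 1 + x 2 - x 0 - x 3)) / 4 + (x 1 - x 2) / 2 = x 1
          linarith
        · change (1 + (x 1 + x 2 - x 0 - x 3)) / 4 - (x 1 - x 2) / 2 = x 2
          linarith
        · change (1 - (x 1 + x 2 - x 0 - x 3)) / 4 - (x 0 - x 3) / 2 = x 3
          linarith
      refine ⟨_, ?_, hb⟩
      change gau _ ≤ 1
      rw [← bar_nonneg, hb]
      exact hx.1

theorem bd_iff (v : ℂ × ℝ) (hv : gau v ≤ 1) : bar v ∈ stdTet.bd ↔ gau v = 1 := by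
  have hb : bar v ∈ stdSimplex ℝ (Fin 4) := ⟨fun k => bar_nonneg.2 hv k, bar_sum v⟩
  have hn := hb.1
  have e0 : 0 ≤ (1 - v.2) / 4 + v.1.im / 2 := hn 0
  have e1 : 0 ≤ (1 + v.2) / 4 + v.1.re / 2 := hn 1
  have e2 : 0 ≤ (1 + v.2) / 4 - v.1.re / 2 := hn 2
  have e3 : 0 ≤ (1 - v.2) / 4 - v.1.im / 2 := hn 3
  constructor
  · rintro ⟨-, k, hk⟩
    refine le_antisymm hv ?_
    rw [gau]
    fin_cases k
    · have hk' : (1 - v.2) / 4 + v.1.im / 2 = 0 := hk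
      refine le_max_of_le_right ?_
      have := neg_le_abs v.1.im
      linarith
    · have hk' : (1 + v.2) / 4 + v.1.re / 2 = 0 := hk
      refine le_max_of_le_left ?_
      have := neg_le_abs v.1.re
      linarith
    · have hk' : (1 + v.2) / 4 - v.1.re / 2 = 0 := hk
      refine le_max_of_le_left ?_
      have := le_abs_self v.1.re
      linarith
    · have hk' : (1 - v.2) / 4 - v.1.im / 2 = 0 := hk
      refine le_max_of_le_right ?_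
      have := le_abs_self v.1.im
      linarith
  · intro h
    refine ⟨hb, ?_⟩
    rw [gau] at h
    rcases max_cases (2 * |v.1.re| - v.2) (2 * |v.1.im| + v.2) with ⟨h1, _⟩ | ⟨h1, _⟩
    · rw [h1] at h
      rcases abs_cases v.1.re with ⟨h2, _⟩ | ⟨h2, _⟩
      · refine ⟨2, ?_⟩
        change (1 + v.2) / 4 - v.1.re / 2 = 0
        rw [h2] at h
        linarith
      · refine ⟨1, ?_⟩
        change (1 + v.2) / 4 + v.1.re / 2 = 0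
        rw [h2] at h
        linarith
    · rw [h1] at h
      rcases abs_cases v.1.im with ⟨h2, _⟩ | ⟨h2, _⟩
      · refine ⟨3, ?_⟩
        change (1 - v.2) / 4 - v.1.im / 2 = 0
        rw [h2] at h
        linarith
      · refine ⟨0, ?_⟩
        change (1 - v.2) / 4 + v.1.im / 2 = 0
        rw [h2] at h
        linarith

theorem edge_iff {v : ℂ × ℝ} (hv : v ∈ Sph) (i j : Fin 4) :
    bar ((gau v)⁻¹ • v) ∈ stdTet.edge i j ↔ ∀ k, k ≠ i → k ≠ j → cc v k = 0 := by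
  have hg := pos_gau v (ne_zero_of_Sph hv)
  have h1 : gau ((gau v)⁻¹ • v) = 1 := by
    rw [hom_gau _ _ (inv_nonneg.2 hg.le), inv_mul_cancel₀ hg.ne']
  have hb : bar ((gau v)⁻¹ • v) ∈ stdSimplex ℝ (Fin 4) :=
    ⟨fun k => bar_nonneg.2 h1.le k, bar_sum _⟩
  have h2 : ∀ k, bar ((gau v)⁻¹ • v) k = 0 ↔ cc v k = 0 := by
    intro k
    rw [bar_scale hg, div_eq_zero_iff]
    constructor
    · rintro (h | h)
      · exact h
      · linarith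
    · exact Or.inl
  constructor
  · intro h k hk hk'
    exact (h2 k).1 (h.2 k hk hk')
  · intro h
    exact ⟨hb, fun k hk hk' => (h2 k).2 (h k hk hk')⟩

/-- a point of the sphere on a ray -/
theorem eq_nml {v w : ℂ × ℝ} (hv : v ∈ Sph) {t : ℝ} (ht : 0 < t) (h : v = t • w) : v = nml w := by
  have h1 := mem_Sph.1 hv
  rw [h, nrm_smul_of_nonneg ht.le] at h1
  have h2 : t = (nrm w)⁻¹ := eq_inv_of_mul_eq_one_left h1
  rw [nml_eq, ← h2, h]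

theorem nml_ray {w : ℂ × ℝ} (hw : w ≠ 0) : ∃ t : ℝ, 0 < t ∧ nml w = t • w :=
  ⟨(nrm w)⁻¹, inv_pos.2 (nrm_pos hw), nml_eq w⟩

theorem gau_cases (v : ℂ × ℝ) :
    ((0 ≤ v.1.re ∧ gau v = 2 * v.1.re - v.2) ∨ (v.1.re ≤ 0 ∧ gau v = -2 * v.1.re - v.2) ∨
      (0 ≤ v.1.im ∧ gau v = 2 * v.1.im + v.2) ∨ (v.1.im ≤ 0 ∧ gau v = -2 * v.1.im + v.2)) ∧
    2 * v.1.re - v.2 ≤ gau v ∧ -2 * v.1.re - v.2 ≤ gau v ∧ 2 * v.1.im + v.2 ≤ gau v ∧
      -2 * v.1.im + v.2 ≤ gau v := by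
  have h1 : 2 * |v.1.re| - v.2 ≤ gau v := le_max_left _ _
  have h2 : 2 * |v.1.im| + v.2 ≤ gau v := le_max_right _ _
  have a1 := le_abs_self v.1.re
  have a2 := neg_le_abs v.1.re
  have a3 := le_abs_self v.1.im
  have a4 := neg_le_abs v.1.im
  refine ⟨?_, by linarith, by linarith, by linarith, by linarith⟩
  rcases max_cases (2 * |v.1.re| - v.2) (2 * |v.1.im| + v.2) with ⟨h3, _⟩ | ⟨h3, _⟩
  · rcases abs_cases v.1.re with ⟨h4, h5⟩ | ⟨h4, h5⟩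
    · refine Or.inl ⟨h5, ?_⟩
      rw [gau, h3, h4]
    · refine Or.inr (Or.inl ⟨h5.le, ?_⟩)
      rw [gau, h3, h4]
      ring
  · rcases abs_cases v.1.im with ⟨h4, h5⟩ | ⟨h4, h5⟩
    · refine Or.inr (Or.inr (Or.inl ⟨h5, ?_⟩))
      rw [gau, h3, h4]
    · refine Or.inr (Or.inr (Or.inr ⟨h5.le, ?_⟩))
      rw [gau, h3, h4]
      ring

theorem cc0 (v : ℂ × ℝ) : cc v 0 = gau v - v.2 + 2 * v.1.im := rfl
theorem cc1 (v : ℂ × ℝ) : cc v 1 = gau v + v.2 + 2 * v.1.re := rfl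
theorem cc2 (v : ℂ × ℝ) : cc v 2 = gau v + v.2 - 2 * v.1.re := rfl
theorem cc3 (v : ℂ × ℝ) : cc v 3 = gau v - v.2 - 2 * v.1.im := rfl

theorem e01 (v : ℂ × ℝ) : (cc v 2 = 0 ∧ cc v 3 = 0) ↔ (0 ≤ v.1.re ∧ 0 ≤ v.1.im ∧ v.2 = v.1.re - v.1.im) := by
  obtain ⟨hc, h1, h2, h3, h4⟩ := gau_cases v
  rw [cc2, cc3]
  constructor
  · rintro ⟨a, b⟩
    refine ⟨?_, ?_, ?_⟩ <;> linarith
  · rintro ⟨a, b, c⟩
    rcases hc with ⟨s, e⟩ | ⟨s, e⟩ | ⟨s, e⟩ | ⟨s, e⟩ <;> constructor <;> linarith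

theorem e02 (v : ℂ × ℝ) : (cc v 1 = 0 ∧ cc v 3 = 0) ↔ (v.1.re ≤ 0 ∧ 0 ≤ v.1.im ∧ v.2 = -v.1.re - v.1.im) := by
  obtain ⟨hc, h1, h2, h3, h4⟩ := gau_cases v
  rw [cc1, cc3]
  constructor
  · rintro ⟨a, b⟩
    refine ⟨?_, ?_, ?_⟩ <;> linarith
  · rintro ⟨a, b, c⟩
    rcases hc with ⟨s, e⟩ | ⟨s, e⟩ | ⟨s, e⟩ | ⟨s, e⟩ <;> constructor <;> linarith

theorem e13 (v : ℂ × ℝ) : (cc v 0 = 0 ∧ cc v 2 = 0) ↔ (0 ≤ v.1.re ∧ v.1.im ≤ 0 ∧ v.2 = v.1.re + v.1.im) := by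
  obtain ⟨hc, h1, h2, h3, h4⟩ := gau_cases v
  rw [cc0, cc2]
  constructor
  · rintro ⟨a, b⟩
    refine ⟨?_, ?_, ?_⟩ <;> linarith
  · rintro ⟨a, b, c⟩
    rcases hc with ⟨s, e⟩ | ⟨s, e⟩ | ⟨s, e⟩ | ⟨s, e⟩ <;> constructor <;> linarith

theorem e23 (v : ℂ × ℝ) : (cc v 0 = 0 ∧ cc v 1 = 0) ↔ (v.1.re ≤ 0 ∧ v.1.im ≤ 0 ∧ v.2 = -v.1.re + v.1.im) := by
  obtain ⟨hc, h1, h2, h3, h4⟩ := gau_cases v
  rw [cc0, cc1]
  constructor
  · rintro ⟨a, b⟩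
    refine ⟨?_, ?_, ?_⟩ <;> linarith
  · rintro ⟨a, b, c⟩
    rcases hc with ⟨s, e⟩ | ⟨s, e⟩ | ⟨s, e⟩ | ⟨s, e⟩ <;> constructor <;> linarith

theorem e03 (v : ℂ × ℝ) : (cc v 1 = 0 ∧ cc v 2 = 0) ↔ (v.1.re = 0 ∧ v.2 ≤ -|v.1.im|) := by
  obtain ⟨hc, h1, h2, h3, h4⟩ := gau_cases v
  rw [cc1, cc2]
  constructor
  · rintro ⟨a, b⟩
    have : |v.1.im| ≤ -v.2 := abs_le.2 ⟨by linarith, by linarith⟩
    refine ⟨?_, ?_⟩ <;> linarith
  · rintro ⟨a, b⟩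
    have c1 := le_abs_self v.1.im
    have c2 := neg_le_abs v.1.im
    rcases hc with ⟨s, e⟩ | ⟨s, e⟩ | ⟨s, e⟩ | ⟨s, e⟩ <;> constructor <;> linarith

theorem e12 (v : ℂ × ℝ) : (cc v 0 = 0 ∧ cc v 3 = 0) ↔ (v.1.im = 0 ∧ |v.1.re| ≤ v.2) := by
  obtain ⟨hc, h1, h2, h3, h4⟩ := gau_cases v
  rw [cc0, cc3]
  constructor
  · rintro ⟨a, b⟩
    have : |v.1.re| ≤ v.2 := abs_le.2 ⟨by linarith, by linarith⟩
    refine ⟨?_, ?_⟩ <;> linarith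
  · rintro ⟨a, b⟩
    have c1 := le_abs_self v.1.re
    have c2 := neg_le_abs v.1.re
    rcases hc with ⟨s, e⟩ | ⟨s, e⟩ | ⟨s, e⟩ | ⟨s, e⟩ <;> constructor <;> linarith

theorem ray_coords {v : ℂ × ℝ} {a b c t : ℝ} (h : v = t • ((⟨a, b⟩, c) : ℂ × ℝ)) :
    v.1.re = t * a ∧ v.1.im = t * b ∧ v.2 = t * c := by
  rw [h]
  simp only [Prod.smul_fst, Prod.smul_snd, Complex.smul_re, Complex.smul_im, smul_eq_mul]
  trivial

/-- vertices -/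
theorem vert {v : ℂ × ℝ} (hv : v ∈ Sph) {a b c : ℝ} (hne : ((⟨a, b⟩, c) : ℂ × ℝ) ≠ 0) (P : Prop)
    (h1 : P → ∃ t : ℝ, 0 < t ∧ v.1.re = t * a ∧ v.1.im = t * b ∧ v.2 = t * c)
    (h2 : ∀ t : ℝ, 0 < t → v.1.re = t * a → v.1.im = t * b → v.2 = t * c → P) :
    P ↔ v = nml (⟨a, b⟩, c) := by
  constructor
  · intro hP
    obtain ⟨t, ht, e1, e2, e3⟩ := h1 hP
    refine eq_nml hv ht (Prod.ext (Complex.ext ?_ ?_) ?_)
    · simpa using e1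
    · simpa using e2
    · simpa using e3
  · rintro rfl
    obtain ⟨t, ht, e⟩ := nml_ray hne
    obtain ⟨e1, e2, e3⟩ := ray_coords e
    exact h2 t ht e1 e2 e3

theorem v0 {v : ℂ × ℝ} (hv : v ∈ Sph) : (cc v 1 = 0 ∧ cc v 2 = 0 ∧ cc v 3 = 0) ↔ v = nml (I, -1) := by
  have hg := pos_gau v (ne_zero_of_Sph hv)
  obtain ⟨hc, h1, h2, h3, h4⟩ := gau_cases v
  rw [cc1, cc2, cc3]
  have := vert hv (a := 0) (b := 1) (c := -1) (by intro h; simpa using congrArg Prod.snd h)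
    (gau v + v.2 + 2 * v.1.re = 0 ∧ gau v + v.2 - 2 * v.1.re = 0 ∧ gau v - v.2 - 2 * v.1.im = 0)
    (by rintro ⟨a, b, c⟩; exact ⟨gau v, hg, by linarith, by linarith, by linarith⟩)
    (by
      intro t ht e1 e2 e3
      rcases hc with ⟨s, e⟩ | ⟨s, e⟩ | ⟨s, e⟩ | ⟨s, e⟩ <;> refine ⟨?_, ?_, ?_⟩ <;> linarith)
  exact this

theorem v1 {v : ℂ × ℝ} (hv : v ∈ Sph) : (cc v 0 = 0 ∧ cc v 2 = 0 ∧ cc v 3 = 0) ↔ v = nml (1, 1) := by
  have hg := pos_gau v (ne_zero_of_Sph hv)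
  obtain ⟨hc, h1, h2, h3, h4⟩ := gau_cases v
  rw [cc0, cc2, cc3]
  have := vert hv (a := 1) (b := 0) (c := 1) (by intro h; simpa using congrArg Prod.snd h)
    (gau v - v.2 + 2 * v.1.im = 0 ∧ gau v + v.2 - 2 * v.1.re = 0 ∧ gau v - v.2 - 2 * v.1.im = 0)
    (by rintro ⟨a, b, c⟩; exact ⟨gau v, hg, by linarith, by linarith, by linarith⟩)
    (by
      intro t ht e1 e2 e3
      rcases hc with ⟨s, e⟩ | ⟨s, e⟩ | ⟨s, e⟩ | ⟨s, e⟩ <;> refine ⟨?_, ?_, ?_⟩ <;> linarith)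
  exact this

theorem v2 {v : ℂ × ℝ} (hv : v ∈ Sph) : (cc v 0 = 0 ∧ cc v 1 = 0 ∧ cc v 3 = 0) ↔ v = nml (-1, 1) := by
  have hg := pos_gau v (ne_zero_of_Sph hv)
  obtain ⟨hc, h1, h2, h3, h4⟩ := gau_cases v
  rw [cc0, cc1, cc3]
  have := vert hv (a := -1) (b := 0) (c := 1) (by intro h; simpa using congrArg Prod.snd h)
    (gau v - v.2 + 2 * v.1.im = 0 ∧ gau v + v.2 + 2 * v.1.re = 0 ∧ gau v - v.2 - 2 * v.1.im = 0)
    (by rintro ⟨a, b, c⟩; exact ⟨gau v, hg, by linarith, by linarith, by linarith⟩)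
    (by
      intro t ht e1 e2 e3
      rcases hc with ⟨s, e⟩ | ⟨s, e⟩ | ⟨s, e⟩ | ⟨s, e⟩ <;> refine ⟨?_, ?_, ?_⟩ <;> linarith)
  rw [this]
  have e : ((⟨-1, 0⟩ : ℂ)) = -1 := by
    apply Complex.ext <;> simp
  rw [e]

theorem v3 {v : ℂ × ℝ} (hv : v ∈ Sph) : (cc v 0 = 0 ∧ cc v 1 = 0 ∧ cc v 2 = 0) ↔ v = nml (-I, -1) := by
  have hg := pos_gau v (ne_zero_of_Sph hv)
  obtain ⟨hc, h1, h2, h3, h4⟩ := gau_cases v
  rw [cc0, cc1, cc2]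
  have := vert hv (a := 0) (b := -1) (c := -1) (by intro h; simpa using congrArg Prod.snd h)
    (gau v - v.2 + 2 * v.1.im = 0 ∧ gau v + v.2 + 2 * v.1.re = 0 ∧ gau v + v.2 - 2 * v.1.re = 0)
    (by rintro ⟨a, b, c⟩; exact ⟨gau v, hg, by linarith, by linarith, by linarith⟩)
    (by
      intro t ht e1 e2 e3
      rcases hc with ⟨s, e⟩ | ⟨s, e⟩ | ⟨s, e⟩ | ⟨s, e⟩ <;> refine ⟨?_, ?_, ?_⟩ <;> linarith)
  rw [this]
  have e : ((⟨0, -1⟩ : ℂ)) = -I := by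
    apply Complex.ext <;> simp
  rw [e]

theorem edges {v : ℂ × ℝ} (hv : v ∈ Sph) (i j : Fin 4) :
    (∀ k, k ≠ i → k ≠ j → cc v k = 0) ↔ v ∈ Edh i j := by
  have m01 : (cc v 2 = 0 ∧ cc v 3 = 0) ↔ v ∈ Edh 0 1 := (e01 v).trans ⟨fun h => ⟨hv, h⟩, fun h => h.2⟩
  have m02 : (cc v 1 = 0 ∧ cc v 3 = 0) ↔ v ∈ Edh 0 2 := (e02 v).trans ⟨fun h => ⟨hv, h⟩, fun h => h.2⟩
  have m03 : (cc v 1 = 0 ∧ cc v 2 = 0) ↔ v ∈ Edh 0 3 := (e03 v).trans ⟨fun h => ⟨hv, h⟩, fun h => h.2⟩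
  have m12 : (cc v 0 = 0 ∧ cc v 3 = 0) ↔ v ∈ Edh 1 2 := (e12 v).trans ⟨fun h => ⟨hv, h⟩, fun h => h.2⟩
  have m13 : (cc v 0 = 0 ∧ cc v 2 = 0) ↔ v ∈ Edh 1 3 := (e13 v).trans ⟨fun h => ⟨hv, h⟩, fun h => h.2⟩
  have m23 : (cc v 0 = 0 ∧ cc v 1 = 0) ↔ v ∈ Edh 2 3 := (e23 v).trans ⟨fun h => ⟨hv, h⟩, fun h => h.2⟩
  have key : ∀ i j : Fin 4, (∀ k, k ≠ i → k ≠ j → cc v k = 0) ↔
      (0 = i ∨ 0 = j ∨ cc v 0 = 0) ∧ (1 = i ∨ 1 = j ∨ cc v 1 = 0) ∧ (2 = i ∨ 2 = j ∨ cc v 2 = 0) ∧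
        (3 = i ∨ 3 = j ∨ cc v 3 = 0) := by
    intro i j
    constructor
    · intro h
      have h' : ∀ k : Fin 4, k = i ∨ k = j ∨ cc v k = 0 := by
        intro k
        by_cases h1 : k = i
        · exact Or.inl h1
        · by_cases h2 : k = j
          · exact Or.inr (Or.inl h2)
          · exact Or.inr (Or.inr (h k h1 h2))
      exact ⟨h' 0, h' 1, h' 2, h' 3⟩
    · rintro ⟨h0, h1, h2, h3⟩ k hi hj
      fin_cases k
      · exact (h0.resolve_left hi).resolve_left hj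
      · exact (h1.resolve_left hi).resolve_left hj
      · exact (h2.resolve_left hi).resolve_left hj
      · exact (h3.resolve_left hi).resolve_left hj
  rw [key]
  fin_cases i <;> fin_cases j <;> simp
  · exact v0 hv
  · exact m01
  · exact m02
  · exact m03
  · exact m01
  · exact v1 hv
  · exact m12
  · exact m13
  · exact m02
  · exact m12
  · exact v2 hv
  · exact m23
  · exact m03
  · exact m13
  · exact m23
  · exact v3 hv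

end TET

open TET

theorem t_TET : S_TET :=
  ⟨cont_gau, hom_gau, pos_gau, hm_bar, bd_iff, fun _ hv i j => (edge_iff hv i j).trans (edges hv i j)⟩

end Pool.Agent.LIX.G4
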