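import Pool.Agent.LIX.StmtsG

/-!
# LIX, block G: images of open cubes are cells (CELL)
-/

set_option autoImplicit false

namespace Pool.Agent.LIX.G

open Set Metric Complex

noncomputable section

namespace CELLx

/-- the open cube is homeomorphic to the space -/
def cubeHomeo (d : ℕ) : ↥(OB d) ≃ₜ (Fin d → ℝ) where
  toFun x := fun i => Real.tan (Real.pi * ((x : Fin d → ℝ) i - 1 / 2))
  invFun y := ⟨fun i => Real.arctan (y i) / Real.pi + 1 / 2, fun i => by
    have hp := Real.pi_pos
    have h1 := Real.arctan_lt_pi_div_two (y i)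
    have h2 := Real.neg_pi_div_two_lt_arctan (y i)
    have h3 : Real.arctan (y i) / Real.pi < 1 / 2 := by
      rw [div_lt_iff₀ hp]
      linarith
    have h4 : -(1 / 2) < Real.arctan (y i) / Real.pi := by
      rw [lt_div_iff₀ hp]
      linarith
    exact ⟨by linarith, by linarith⟩⟩
  left_inv x := by
    have hp := Real.pi_pos
    refine Subtype.ext (funext fun i => ?_)
    have hx : (x : Fin d → ℝ) i ∈ Ioo (0 : ℝ) 1 := x.2 i
    dsimp only
    rw [Real.arctan_tan (by nlinarith [hx.1]) (by nlinarith [hx.2]), mul_div_cancel_left₀ _ hp.ne']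
    ring
  right_inv y := by
    have hp := Real.pi_pos
    funext i
    dsimp only
    have h : Real.pi * (Real.arctan (y i) / Real.pi + 1 / 2 - 1 / 2) = Real.arctan (y i) := by
      field_simp
      ring
    rw [h, Real.tan_arctan]
  continuous_toFun := by
    have hp := Real.pi_pos
    refine continuous_pi fun i => ?_
    rw [continuous_iff_continuousAt]
    intro x
    have hx : (x : Fin d → ℝ) i ∈ Ioo (0 : ℝ) 1 := x.2 i
    have h1 : ContinuousAt Real.tan (Real.pi * ((x : Fin d → ℝ) i - 1 / 2)) := by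
      apply Real.continuousAt_tan.2
      apply ne_of_gt
      apply Real.cos_pos_of_mem_Ioo
      constructor <;> nlinarith [hx.1, hx.2]
    have h2 : Continuous fun x : ↥(OB d) => Real.pi * ((x : Fin d → ℝ) i - 1 / 2) :=
      continuous_const.mul (((continuous_apply i).comp continuous_subtype_val).sub continuous_const)
    exact ContinuousAt.comp (f := fun x : ↥(OB d) => Real.pi * ((x : Fin d → ℝ) i - 1 / 2)) h1
      h2.continuousAt
  continuous_invFun := by
    refine Continuous.subtype_mk (continuous_pi fun i => ?_) _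
    have := Real.continuous_arctan
    fun_prop

end CELLx

theorem t_CELL : S_CELL := by
  intro Y _ _ d F hc hi hs
  have hOB : OB d ⊆ Icc (0 : Fin d → ℝ) 1 := fun x hx => ⟨fun i => (hx i).1.le, fun i => (hx i).2.le⟩
  constructor
  · set g : Y → (Fin d → ℝ) := Function.invFunOn F (OB d) with hg
    have hgl : ∀ x ∈ OB d, g (F x) = x := fun x hx => hi.leftInvOn_invFunOn hx
    have hgc : ContinuousOn g (F '' OB d) := by
      rw [continuousOn_iff_isClosed]
      intro t ht
      refine ⟨F '' (Icc 0 1 ∩ t), ?_, ?_⟩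
      · exact ((isCompact_Icc.inter_right ht).image_of_continuousOn (hc.mono inter_subset_left)).isClosed
      · ext y
        constructor
        · rintro ⟨h1, x, hx, rfl⟩
          have h3 : g (F x) ∈ t := h1
          rw [hgl x hx] at h3
          exact ⟨⟨x, ⟨hOB hx, h3⟩, rfl⟩, ⟨x, hx, rfl⟩⟩
        · rintro ⟨⟨x', ⟨hx', hx't⟩, hxx⟩, ⟨x, hx, rfl⟩⟩
          refine ⟨?_, ⟨x, hx, rfl⟩⟩
          have h5 : x' ∈ OB d := by
            by_contra h
            exact hs x hx x' hx' h hxx.symm
          have h6 : x' = x := hi h5 hx hxx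
          change g (F x) ∈ t
          rw [hgl x hx, ← h6]
          exact hx't
    have hFc : ContinuousOn F (OB d) := hc.mono hOB
    have hmem : ∀ y ∈ F '' OB d, g y ∈ OB d := by
      rintro _ ⟨x, hx, rfl⟩
      rw [hgl x hx]
      exact hx
    have hr : ∀ y ∈ F '' OB d, F (g y) = y := by
      rintro _ ⟨x, hx, rfl⟩
      rw [hgl x hx]
    let e : ↥(F '' OB d) ≃ₜ ↥(OB d) :=
      { toFun := fun y => ⟨g y, hmem _ y.2⟩
        invFun := fun x => ⟨F x, ⟨x, x.2, rfl⟩⟩
        left_inv := fun y => Subtype.ext (hr _ y.2)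
        right_inv := fun x => Subtype.ext (hgl _ x.2)
        continuous_toFun := (continuousOn_iff_continuous_domRestrict.1 hgc).subtype_mk _
        continuous_invFun := (continuousOn_iff_continuous_domRestrict.1 hFc).subtype_mk _ }
    exact ⟨e.trans (CELLx.cubeHomeo d)⟩
  · rintro y ⟨h1, h2⟩
    have h3 : IsClosed (F '' Icc (0 : Fin d → ℝ) 1) := (isCompact_Icc.image_of_continuousOn hc).isClosed
    have h4 : y ∈ F '' Icc (0 : Fin d → ℝ) 1 := closure_minimal (image_mono hOB) h3 h1
    obtain ⟨x, hx, rfl⟩ := h4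
    exact ⟨x, ⟨hx, fun h => h2 ⟨x, h, rfl⟩⟩, rfl⟩

end

end Pool.Agent.LIX.G
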