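import Pool.Agent.LIX.StmtsG

/-!
# LIX, block G: the Euler characteristic (CHI)
-/

set_option autoImplicit false

namespace Pool.Agent.LIX.G

open Set Metric Complex

noncomputable section

namespace CHIx

/-- a fundamental domain -/
def Zs : Set ℂ := {ζ | -Real.pi < ζ.re ∧ ζ.re ≤ Real.pi ∧ -Real.pi < ζ.im ∧ ζ.im ≤ Real.pi ∧ √2 / 5 ≤ ‖ζ‖}

open Classical in
/-- the type of a point -/
def idx (ζ : ℂ) : Fin 7 :=
  if ζ.re = Real.pi then (if ζ.im = Real.pi then 0 else 2)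
  else if ζ.im = Real.pi then 3
  else if ‖ζ‖ = √2 / 5 then (if ζ.re = ζ.im ∧ ζ.re < 0 then 1 else 4)
  else if ζ.re = ζ.im ∧ ζ.re < 0 then 5 else 6

/-- the dimensions -/
def dd : Fin 7 → ℕ := ![0, 0, 1, 1, 1, 1, 2]

/-- the cells -/
def cc (i : Fin 7) : Set (ℂ × ℂ) := EE '' {ζ | ζ ∈ Zs ∧ idx ζ = i}

theorem EE_injOn (hH : S_HTE) : InjOn EE Zs := by
  intro ζ hζ ξ hξ h
  obtain ⟨a, b, h1, h2⟩ := (hH.2.1 ζ ξ).1 h
  obtain ⟨z1, z2, z3, z4, -⟩ := hζ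
  obtain ⟨x1, x2, x3, x4, -⟩ := hξ
  have hp := Real.pi_pos
  have key : ∀ (n : ℤ) (x y : ℝ), -Real.pi < x → x ≤ Real.pi → -Real.pi < y → y ≤ Real.pi →
      y = x + 2 * Real.pi * n → n = 0 := by
    intro n x y k1 k2 k3 k4 k5
    have h5 : (n : ℝ) < 1 := by
      by_contra h'
      rw [not_lt] at h'
      nlinarith
    have h6 : (-1 : ℝ) < n := by
      by_contra h'
      rw [not_lt] at h'
      nlinarith
    have h7 : n < 1 := by exact_mod_cast h5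
    have h8 : -1 < n := by exact_mod_cast h6
    omega
  have ha := key a _ _ z1 z2 x1 x2 h1
  have hb := key b _ _ z3 z4 x3 x4 h2
  rw [ha] at h1
  rw [hb] at h2
  refine Complex.ext ?_ ?_
  · rw [h1]
    simp
  · rw [h2]
    simp

theorem cell_aux (hC : S_CELL) (hH : S_HTE) (i : Fin 7) (d : ℕ) (hd : dd i = d) (φ : (Fin d → ℝ) → ℂ)
    (hφ : Continuous φ) (ha : ∀ x ∈ OB d, φ x ∈ Zs ∧ idx (φ x) = i) (hb : InjOn φ (OB d))
    (hc : ∀ ζ ∈ Zs, idx ζ = i → ∃ x ∈ OB d, φ x = ζ)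
    (he : ∀ y ∈ Icc (0 : Fin d → ℝ) 1, y ∉ OB d → ∃ ξ ∈ Zs, EE ξ = EE (φ y) ∧ dd (idx ξ) < d) :
    Nonempty (↥(cc i) ≃ₜ (Fin (dd i) → ℝ)) ∧ closure (cc i) \ cc i ⊆ ⋃ j, ⋃ _ : dd j < dd i, cc j := by
  subst hd
  have hinj := EE_injOn hH
  have h1 : (fun x => EE (φ x)) '' OB (dd i) = cc i := by
    ext p
    constructor
    · rintro ⟨x, hx, rfl⟩
      exact ⟨φ x, ha x hx, rfl⟩
    · rintro ⟨ζ, ⟨hζ, hζi⟩, rfl⟩
      obtain ⟨x, hx, rfl⟩ := hc ζ hζ hζi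
      exact ⟨x, hx, rfl⟩
  have h2 := hC (ℂ × ℂ) (dd i) (fun x => EE (φ x)) (hH.2.2.comp hφ).continuousOn ?_ ?_
  · rw [h1] at h2
    refine ⟨h2.1, h2.2.trans ?_⟩
    rintro p ⟨y, ⟨hy, hy'⟩, rfl⟩
    obtain ⟨ξ, hξ, hξ1, hξ2⟩ := he y hy hy'
    refine mem_iUnion.2 ⟨idx ξ, mem_iUnion.2 ⟨hξ2, ξ, ⟨hξ, rfl⟩, hξ1⟩⟩
  · intro x hx y hy h
    exact hb hx hy (hinj (ha x hx).1 (ha y hy).1 h)
  · intro x hx y hy hy' h
    obtain ⟨ξ, hξ, hξ1, hξ2⟩ := he y hy hy'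
    have h3 : ξ = φ x := hinj hξ (ha x hx).1 (hξ1.trans h.symm)
    rw [h3, (ha x hx).2] at hξ2
    exact lt_irrefl _ hξ2

theorem ob1 {y : Fin 1 → ℝ} (hy : y ∈ Icc (0 : Fin 1 → ℝ) 1) (h : y ∉ OB 1) : y 0 = 0 ∨ y 0 = 1 := by
  have h1 : 0 ≤ y 0 := hy.1 0
  have h2 : y 0 ≤ 1 := hy.2 0
  by_contra h3
  push Not at h3
  refine h fun i => ?_
  have h4 : i = 0 := Subsingleton.elim _ _
  rw [h4]
  exact ⟨lt_of_le_of_ne h1 (Ne.symm h3.1), lt_of_le_of_ne h2 h3.2⟩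

theorem s25 : √2 / 5 < 1 := by
  have : √2 < 5 := by
    rw [Real.sqrt_lt' (by norm_num)]
    norm_num
  linarith

theorem norm_sq_re_im (z : ℂ) : ‖z‖ ^ 2 = z.re ^ 2 + z.im ^ 2 := by
  rw [← Complex.normSq_eq_norm_sq, Complex.normSq_apply]
  ring

/-- on the diagonal -/
theorem norm_diag {z : ℂ} (h : z.re = z.im) (h0 : z.re < 0) : ‖z‖ = √2 * (-z.re) := by
  have h1 : ‖z‖ ^ 2 = (√2 * (-z.re)) ^ 2 := by
    rw [norm_sq_re_im, ← h, mul_pow, Real.sq_sqrt (by norm_num)]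
    ring
  exact (sq_eq_sq₀ (norm_nonneg _) (mul_nonneg (Real.sqrt_nonneg _) (by linarith))).1 h1

theorem norm_diag_eq {z : ℂ} (h : z.re = z.im) (h0 : z.re < 0) : ‖z‖ = √2 / 5 ↔ z.re = -(1 / 5) := by
  rw [norm_diag h h0]
  have h2 : (0 : ℝ) < √2 := Real.sqrt_pos.2 (by norm_num)
  constructor
  · intro h3
    have h4 : √2 * (-z.re) = √2 * (1 / 5) := by
      rw [h3]
      ring
    have := mul_left_cancel₀ h2.ne' h4
    linarith
  · intro h3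
    rw [h3]
    ring

theorem norm_ge_of_re {z : ℂ} (h : z.re = Real.pi ∨ z.im = Real.pi) : √2 / 5 ≤ ‖z‖ := by
  have h1 := Complex.abs_re_le_norm z
  have h2 := Complex.abs_im_le_norm z
  have h3 := s25
  have h4 := Real.pi_gt_three
  rcases h with h | h
  · rw [h] at h1
    have := le_abs_self Real.pi
    linarith
  · rw [h] at h2
    have := le_abs_self Real.pi
    linarith

/-- the corner -/
theorem idx0 {z : ℂ} (h1 : z.re = Real.pi) (h2 : z.im = Real.pi) : z ∈ Zs ∧ idx z = 0 := by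
  have hp := Real.pi_pos
  refine ⟨⟨by linarith, by linarith, by linarith, by linarith, norm_ge_of_re (Or.inl h1)⟩, ?_⟩
  unfold idx
  rw [if_pos h1, if_pos h2]

/-- reduction to the fundamental domain -/
theorem reduce (hH : S_HTE) {ζ : ℂ} (h1 : |ζ.re| ≤ Real.pi) (h2 : |ζ.im| ≤ Real.pi) (h3 : √2 / 5 ≤ ‖ζ‖) :
    ∃ ξ ∈ Zs, EE ξ = EE ζ ∧ (|ζ.re| = Real.pi ∨ |ζ.im| = Real.pi → dd (idx ξ) < 2) ∧
      (|ζ.re| < Real.pi → |ζ.im| < Real.pi → ξ = ζ) := by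
  have hp := Real.pi_pos
  obtain ⟨a1, a2⟩ := abs_le.1 h1
  obtain ⟨b1, b2⟩ := abs_le.1 h2
  have key : ∀ x : ℝ, -Real.pi ≤ x → x ≤ Real.pi → ∃ (y : ℝ) (n : ℤ), -Real.pi < y ∧ y ≤ Real.pi ∧ x = y + 2 * Real.pi * n ∧
      (|x| = Real.pi → y = Real.pi) ∧ (|x| < Real.pi → y = x) := by
    intro x hx1 hx2
    rcases eq_or_lt_of_le hx1 with h | h
    · refine ⟨Real.pi, -1, by linarith, le_rfl, ?_, fun _ => rfl, ?_⟩
      · rw [← h]
        push_cast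
        ring
      · intro h'
        rw [← h, abs_neg, abs_of_pos hp] at h'
        exact absurd h' (lt_irrefl _)
    · refine ⟨x, 0, h, hx2, by simp, ?_, fun _ => rfl⟩
      intro h'
      rcases abs_choice x with h'' | h''
      · rw [← h'', h']
      · linarith
  obtain ⟨y, n, y1, y2, y3, y4, y5⟩ := key ζ.re a1 a2
  obtain ⟨y', n', y1', y2', y3', y4', y5'⟩ := key ζ.im b1 b2
  have hb : |ζ.re| = Real.pi ∨ |ζ.im| = Real.pi → (⟨y, y'⟩ : ℂ).re = Real.pi ∨ (⟨y, y'⟩ : ℂ).im = Real.pi := by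
    rintro (h | h)
    · exact Or.inl (y4 h)
    · exact Or.inr (y4' h)
  have hin : |ζ.re| < Real.pi → |ζ.im| < Real.pi → (⟨y, y'⟩ : ℂ) = ζ := by
    intro h4 h5
    exact Complex.ext (y5 h4) (y5' h5)
  refine ⟨⟨y, y'⟩, ⟨y1, y2, y1', y2', ?_⟩, (hH.2.1 _ _).2 ⟨n, n', y3, y3'⟩, ?_, hin⟩
  · rcases eq_or_lt_of_le h1 with h | h
    · exact norm_ge_of_re (hb (Or.inl h))
    · rcases eq_or_lt_of_le h2 with h' | h'
      · exact norm_ge_of_re (hb (Or.inr h'))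
      · rw [hin h h']
        exact h3
  · intro h
    have h4 := hb h
    unfold idx
    by_cases h5 : (⟨y, y'⟩ : ℂ).re = Real.pi
    · rw [if_pos h5]
      by_cases h6 : (⟨y, y'⟩ : ℂ).im = Real.pi
      · rw [if_pos h6]
        decide
      · rw [if_neg h6]
        decide
    · rw [if_neg h5, if_pos (h4.resolve_left h5)]
      decide

theorem c0 (hC : S_CELL) (hH : S_HTE) :
    Nonempty (↥(cc 0) ≃ₜ (Fin (dd 0) → ℝ)) ∧ closure (cc 0) \ cc 0 ⊆ ⋃ j, ⋃ _ : dd j < dd 0, cc j := by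
  refine cell_aux hC hH 0 0 rfl (fun _ => ⟨Real.pi, Real.pi⟩) continuous_const ?_ ?_ ?_ ?_
  · intro x _
    exact idx0 rfl rfl
  · intro x _ y _ _
    exact Subsingleton.elim _ _
  · intro ζ hζ h
    refine ⟨0, fun i => i.elim0, ?_⟩
    unfold idx at h
    split_ifs at h with h1 h2 <;> first | exact Complex.ext h1.symm h2.symm | (exfalso; revert h; decide)
  · intro y _ h
    exact absurd (fun i : Fin 0 => i.elim0) h

theorem idx1 {z : ℂ} (h1 : z.re = -(1 / 5)) (h2 : z.im = -(1 / 5)) : z ∈ Zs ∧ idx z = 1 := by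
  have hp := Real.pi_gt_three
  have h3 : z.re = z.im := by rw [h1, h2]
  have h4 : z.re < 0 := by
    rw [h1]
    norm_num
  have h5 := (norm_diag_eq h3 h4).2 h1
  refine ⟨⟨by linarith, by linarith, by linarith, by linarith, h5.ge⟩, ?_⟩
  unfold idx
  rw [if_neg (by linarith : z.re ≠ Real.pi), if_neg (by linarith : z.im ≠ Real.pi), if_pos h5, if_pos ⟨h3, h4⟩]

theorem c1 (hC : S_CELL) (hH : S_HTE) :
    Nonempty (↥(cc 1) ≃ₜ (Fin (dd 1) → ℝ)) ∧ closure (cc 1) \ cc 1 ⊆ ⋃ j, ⋃ _ : dd j < dd 1, cc j := by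
  refine cell_aux hC hH 1 0 rfl (fun _ => ⟨-(1 / 5), -(1 / 5)⟩) continuous_const ?_ ?_ ?_ ?_
  · intro x _
    exact idx1 rfl rfl
  · intro x _ y _ _
    exact Subsingleton.elim _ _
  · intro ζ hζ h
    refine ⟨0, fun i => i.elim0, ?_⟩
    unfold idx at h
    split_ifs at h with h1 h2 h3 h4 h5 <;> first
    | (have h6 := (norm_diag_eq h5.1 h5.2).1 h4
       exact Complex.ext h6.symm (by rw [← h5.1, h6]))
    | (exfalso; revert h; decide)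
  · intro y _ h
    exact absurd (fun i : Fin 0 => i.elim0) h

theorem cont1 {φ : ℝ → ℂ} (h : Continuous φ) : Continuous fun x : Fin 1 → ℝ => φ (x 0) :=
  h.comp (continuous_apply 0)

theorem inj1 {φ : ℝ → ℂ} (h : InjOn φ (Ioo 0 1)) : InjOn (fun x : Fin 1 → ℝ => φ (x 0)) (OB 1) := by
  intro x hx y hy hxy
  have h1 := h (hx 0) (hy 0) hxy
  funext i
  have h4 : i = 0 := Subsingleton.elim _ _
  rw [h4]
  exact h1

theorem cell1 (hC : S_CELL) (hH : S_HTE) (i : Fin 7) (hd : dd i = 1) (φ : ℝ → ℂ)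
    (hφ : Continuous φ) (ha : ∀ t ∈ Ioo (0 : ℝ) 1, φ t ∈ Zs ∧ idx (φ t) = i) (hb : InjOn φ (Ioo 0 1))
    (hc : ∀ ζ ∈ Zs, idx ζ = i → ∃ t ∈ Ioo (0 : ℝ) 1, φ t = ζ)
    (he : ∀ t : ℝ, t = 0 ∨ t = 1 → ∃ ξ ∈ Zs, EE ξ = EE (φ t) ∧ dd (idx ξ) < 1) :
    Nonempty (↥(cc i) ≃ₜ (Fin (dd i) → ℝ)) ∧ closure (cc i) \ cc i ⊆ ⋃ j, ⋃ _ : dd j < dd i, cc j := by
  refine cell_aux hC hH i 1 hd (fun x => φ (x 0)) (cont1 hφ) ?_ (inj1 hb) ?_ ?_
  · intro x hx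
    exact ha _ (hx 0)
  · intro ζ hζ h
    obtain ⟨t, ht, rfl⟩ := hc ζ hζ h
    exact ⟨fun _ => t, fun _ => ht, rfl⟩
  · intro y hy h
    exact he _ (ob1 hy h)

theorem c2 (hC : S_CELL) (hH : S_HTE) :
    Nonempty (↥(cc 2) ≃ₜ (Fin (dd 2) → ℝ)) ∧ closure (cc 2) \ cc 2 ⊆ ⋃ j, ⋃ _ : dd j < dd 2, cc j := by
  have hp := Real.pi_pos
  have R1 : ∀ x : ℝ, ((Real.pi : ℂ) + ((x : ℝ) : ℂ) * I).re = Real.pi := fun x => by simp
  have R2 : ∀ x : ℝ, ((Real.pi : ℂ) + ((x : ℝ) : ℂ) * I).im = x := fun x => by simp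
  refine cell1 hC hH 2 rfl (fun t => (Real.pi : ℂ) + ((2 * Real.pi * t - Real.pi : ℝ) : ℂ) * I) (by fun_prop) ?_ ?_ ?_ ?_
  · intro t ht
    have r1 := R1 (2 * Real.pi * t - Real.pi)
    have r2 := R2 (2 * Real.pi * t - Real.pi)
    refine ⟨⟨?_, ?_, ?_, ?_, norm_ge_of_re (Or.inl r1)⟩, ?_⟩
    · rw [r1]; linarith
    · rw [r1]
    · rw [r2]; nlinarith [ht.1]
    · rw [r2]; nlinarith [ht.2]
    · unfold idx
      rw [if_pos r1, if_neg]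
      rw [r2]
      have := ht.2
      nlinarith
  · intro t _ t' _ h
    have h1 := congrArg Complex.im h
    dsimp only at h1
    rw [R2, R2] at h1
    have h2 : 2 * Real.pi * t = 2 * Real.pi * t' := by linarith
    exact mul_left_cancel₀ (by positivity) h2
  · intro ζ hζ h
    have h' : ζ.re = Real.pi ∧ ζ.im ≠ Real.pi := by
      unfold idx at h
      split_ifs at h with h1 h2 <;> first | exact ⟨h1, h2⟩ | (exfalso; revert h; decide)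
    refine ⟨(ζ.im + Real.pi) / (2 * Real.pi), ⟨?_, ?_⟩, ?_⟩
    · exact div_pos (by linarith [hζ.2.2.1]) (by linarith)
    · rw [div_lt_one (by linarith)]
      have := lt_of_le_of_ne hζ.2.2.2.1 h'.2
      linarith
    · refine Complex.ext ?_ ?_
      · rw [R1, h'.1]
      · rw [R2, mul_div_cancel₀ _ (by positivity)]
        ring
  · intro t ht
    refine ⟨⟨Real.pi, Real.pi⟩, (idx0 rfl rfl).1, ?_, ?_⟩
    · rw [hH.2.1]
      rcases ht with rfl | rfl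
      · exact ⟨0, -1, by simp, by simp; ring⟩
      · exact ⟨0, 0, by simp, by simp; ring⟩
    · rw [(idx0 rfl rfl).2]
      decide

theorem c3 (hC : S_CELL) (hH : S_HTE) :
    Nonempty (↥(cc 3) ≃ₜ (Fin (dd 3) → ℝ)) ∧ closure (cc 3) \ cc 3 ⊆ ⋃ j, ⋃ _ : dd j < dd 3, cc j := by
  have hp := Real.pi_pos
  have R1 : ∀ x : ℝ, (((x : ℝ) : ℂ) + (Real.pi : ℂ) * I).im = Real.pi := fun x => by simp
  have R2 : ∀ x : ℝ, (((x : ℝ) : ℂ) + (Real.pi : ℂ) * I).re = x := fun x => by simp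
  refine cell1 hC hH 3 rfl (fun t => ((2 * Real.pi * t - Real.pi : ℝ) : ℂ) + (Real.pi : ℂ) * I) (by fun_prop) ?_ ?_ ?_ ?_
  · intro t ht
    have r1 := R1 (2 * Real.pi * t - Real.pi)
    have r2 := R2 (2 * Real.pi * t - Real.pi)
    have r3 : (((2 * Real.pi * t - Real.pi : ℝ) : ℂ) + (Real.pi : ℂ) * I).re ≠ Real.pi := by
      rw [r2]
      have := ht.2
      nlinarith
    refine ⟨⟨?_, ?_, ?_, ?_, norm_ge_of_re (Or.inr r1)⟩, ?_⟩
    · rw [r2]; nlinarith [ht.1]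
    · rw [r2]; nlinarith [ht.2]
    · rw [r1]; linarith
    · rw [r1]
    · unfold idx
      rw [if_neg r3, if_pos r1]
  · intro t _ t' _ h
    have h1 := congrArg Complex.re h
    dsimp only at h1
    rw [R2, R2] at h1
    have h2 : 2 * Real.pi * t = 2 * Real.pi * t' := by linarith
    exact mul_left_cancel₀ (by positivity) h2
  · intro ζ hζ h
    have h' : ζ.re ≠ Real.pi ∧ ζ.im = Real.pi := by
      unfold idx at h
      split_ifs at h with h1 h2 h3 <;> first | exact ⟨h1, h3⟩ | (exfalso; revert h; decide)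
    refine ⟨(ζ.re + Real.pi) / (2 * Real.pi), ⟨?_, ?_⟩, ?_⟩
    · exact div_pos (by linarith [hζ.1]) (by linarith)
    · rw [div_lt_one (by linarith)]
      have := lt_of_le_of_ne hζ.2.1 h'.1
      linarith
    · refine Complex.ext ?_ ?_
      · rw [R2, mul_div_cancel₀ _ (by positivity)]
        ring
      · rw [R1, h'.2]
  · intro t ht
    refine ⟨⟨Real.pi, Real.pi⟩, (idx0 rfl rfl).1, ?_, ?_⟩
    · rw [hH.2.1]
      rcases ht with rfl | rfl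
      · exact ⟨-1, 0, by simp; ring, by simp⟩
      · exact ⟨0, 0, by simp; ring, by simp⟩
    · rw [(idx0 rfl rfl).2]
      decide

theorem small {z : ℂ} (h : ‖z‖ = √2 / 5) : |z.re| < 1 ∧ |z.im| < 1 := by
  have h1 := Complex.abs_re_le_norm z
  have h2 := Complex.abs_im_le_norm z
  have h3 := s25
  constructor <;> linarith

theorem small_mem {z : ℂ} (h : ‖z‖ = √2 / 5) : z ∈ Zs ∧ z.re ≠ Real.pi ∧ z.im ≠ Real.pi := by
  obtain ⟨h1, h2⟩ := small h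
  obtain ⟨a1, a2⟩ := abs_lt.1 h1
  obtain ⟨b1, b2⟩ := abs_lt.1 h2
  have hp := Real.pi_gt_three
  exact ⟨⟨by linarith, by linarith, by linarith, by linarith, h.ge⟩, by linarith, by linarith⟩

theorem c4 (hC : S_CELL) (hH : S_HTE) (hQ : S_QQ) :
    Nonempty (↥(cc 4) ≃ₜ (Fin (dd 4) → ℝ)) ∧ closure (cc 4) \ cc 4 ⊆ ⋃ j, ⋃ _ : dd j < dd 4, cc j := by
  have hp := Real.pi_gt_three
  obtain ⟨q1, q2, q3, q4⟩ := hQ
  have h01 : (0 : ℝ) ∈ Icc (0 : ℝ) 1 := ⟨le_rfl, zero_le_one⟩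
  refine cell1 hC hH 4 rfl (fun t => QQ (t, 0)) (q1.comp (by fun_prop)) ?_ ?_ ?_ ?_
  · intro t ht
    obtain ⟨-, g2, -, -, -, g6⟩ := q2 (t, 0) ⟨⟨ht.1.le, ht.2.le⟩, h01⟩
    have g7 := g2.2 rfl
    obtain ⟨m1, m2, m3⟩ := small_mem g7
    refine ⟨m1, ?_⟩
    unfold idx
    rw [if_neg m2, if_neg m3, if_pos g7, if_neg]
    rw [g6]
    rintro (h | h)
    · exact ht.1.ne' h
    · exact ht.2.ne h
  · intro t ht t' ht' h
    have := q3 (show (t, (0 : ℝ)) ∈ Ico (0 : ℝ) 1 ×ˢ Icc (0 : ℝ) 1 from ⟨⟨ht.1.le, ht.2⟩, h01⟩)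
      (show (t', (0 : ℝ)) ∈ Ico (0 : ℝ) 1 ×ˢ Icc (0 : ℝ) 1 from ⟨⟨ht'.1.le, ht'.2⟩, h01⟩) h
    exact congrArg Prod.fst this
  · intro ζ hζ h
    have h' : ‖ζ‖ = √2 / 5 ∧ ¬ (ζ.re = ζ.im ∧ ζ.re < 0) := by
      unfold idx at h
      split_ifs at h with h1 h2 h3 h4 h5 <;> first | exact ⟨h4, h5⟩ | (exfalso; revert h; decide)
    obtain ⟨s1, s2⟩ := small h'.1
    obtain ⟨⟨s, t⟩, ⟨hs, ht⟩, hx⟩ := q4 ζ (by linarith) (by linarith) h'.1.ge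
    dsimp only at hs ht
    obtain ⟨-, g2, -, -, -, g6⟩ := q2 (s, t) ⟨⟨hs.1, hs.2.le⟩, ht⟩
    rw [hx] at g2 g6
    have ht0 : t = 0 := g2.1 h'.1
    subst ht0
    refine ⟨s, ⟨lt_of_le_of_ne hs.1 ?_, hs.2⟩, hx⟩
    intro h0
    exact h'.2 (g6.2 (Or.inl h0.symm))
  · intro t ht
    have htI : t ∈ Icc (0 : ℝ) 1 := by
      rcases ht with rfl | rfl
      · exact h01
      · exact ⟨zero_le_one, le_rfl⟩
    obtain ⟨-, g2, -, -, -, g6⟩ := q2 (t, 0) ⟨htI, h01⟩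
    have g7 := g2.2 rfl
    have g8 := g6.2 ht
    refine ⟨QQ (t, 0), (small_mem g7).1, rfl, ?_⟩
    have g9 := (norm_diag_eq g8.1 g8.2).1 g7
    rw [(idx1 g9 (by rw [← g8.1, g9])).2]
    decide

theorem c5 (hC : S_CELL) (hH : S_HTE) :
    Nonempty (↥(cc 5) ≃ₜ (Fin (dd 5) → ℝ)) ∧ closure (cc 5) \ cc 5 ⊆ ⋃ j, ⋃ _ : dd j < dd 5, cc j := by
  have hp := Real.pi_gt_three
  have h2 : (0 : ℝ) < √2 := Real.sqrt_pos.2 (by norm_num)
  have r1 : ∀ x : ℝ, (((x : ℝ) : ℂ) * (1 + I)).re = x := fun x => by simp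
  have r2 : ∀ x : ℝ, (((x : ℝ) : ℂ) * (1 + I)).im = x := fun x => by simp
  refine cell1 hC hH 5 rfl (fun t => ((-Real.pi + t * (Real.pi - 1 / 5) : ℝ) : ℂ) * (1 + I)) (by fun_prop) ?_ ?_ ?_ ?_
  · intro t ht
    have a1 : -Real.pi < -Real.pi + t * (Real.pi - 1 / 5) := by nlinarith [ht.1]
    have a2 : -Real.pi + t * (Real.pi - 1 / 5) < -(1 / 5) := by nlinarith [ht.2]
    set x : ℝ := -Real.pi + t * (Real.pi - 1 / 5) with hx
    have e1 : (((x : ℝ) : ℂ) * (1 + I)).re = (((x : ℝ) : ℂ) * (1 + I)).im := by rw [r1, r2]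
    have e2 : (((x : ℝ) : ℂ) * (1 + I)).re < 0 := by rw [r1]; linarith
    have e3 : √2 / 5 < ‖((x : ℝ) : ℂ) * (1 + I)‖ := by
      rw [norm_diag e1 e2, r1]
      nlinarith
    refine ⟨⟨by rw [r1]; exact a1, by rw [r1]; linarith, by rw [r2]; exact a1, by rw [r2]; linarith, e3.le⟩, ?_⟩
    unfold idx
    rw [if_neg (by rw [r1]; linarith), if_neg (by rw [r2]; linarith), if_neg e3.ne', if_pos ⟨e1, e2⟩]
  · intro t _ t' _ h
    have h3 := congrArg Complex.re h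
    dsimp only at h3
    rw [r1, r1] at h3
    have h4 : t * (Real.pi - 1 / 5) = t' * (Real.pi - 1 / 5) := by linarith
    exact mul_right_cancel₀ (by linarith) h4
  · intro ζ hζ h
    have h' : ‖ζ‖ ≠ √2 / 5 ∧ ζ.re = ζ.im ∧ ζ.re < 0 := by
      unfold idx at h
      split_ifs at h with h1 h2 h3 h4 h5 h6 <;> first | exact ⟨h4, h6⟩ | (exfalso; revert h; decide)
    obtain ⟨h3, h4, h5⟩ := h'
    have h6 : ζ.re < -(1 / 5) := by
      have h7 := hζ.2.2.2.2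
      have h8 := lt_of_le_of_ne h7 (Ne.symm h3)
      rw [norm_diag h4 h5] at h8
      nlinarith
    have hd : 0 < Real.pi - 1 / 5 := by linarith
    refine ⟨(ζ.re + Real.pi) / (Real.pi - 1 / 5), ⟨div_pos (by linarith [hζ.1]) hd, ?_⟩, ?_⟩
    · rw [div_lt_one hd]
      linarith
    · rw [div_mul_cancel₀ _ hd.ne']
      refine Complex.ext ?_ ?_
      · rw [r1]
        ring
      · rw [r2, ← h4]
        ring
  · intro t ht
    rcases ht with rfl | rfl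
    · refine ⟨⟨Real.pi, Real.pi⟩, (idx0 rfl rfl).1, ?_, ?_⟩
      · rw [hH.2.1]
        refine ⟨-1, -1, ?_, ?_⟩
        · dsimp only
          rw [r1]
          push_cast
          ring
        · dsimp only
          rw [r2]
          push_cast
          ring
      · rw [(idx0 rfl rfl).2]
        decide
    · have e1 : (((-Real.pi + 1 * (Real.pi - 1 / 5) : ℝ) : ℂ) * (1 + I)).re = -(1 / 5) := by
        rw [r1]
        ring
      have e2 : (((-Real.pi + 1 * (Real.pi - 1 / 5) : ℝ) : ℂ) * (1 + I)).im = -(1 / 5) := by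
        rw [r2]
        ring
      refine ⟨_, (idx1 e1 e2).1, rfl, ?_⟩
      rw [(idx1 e1 e2).2]
      decide

theorem c6 (hC : S_CELL) (hH : S_HTE) (hQ : S_QQ) :
    Nonempty (↥(cc 6) ≃ₜ (Fin (dd 6) → ℝ)) ∧ closure (cc 6) \ cc 6 ⊆ ⋃ j, ⋃ _ : dd j < dd 6, cc j := by
  have hp := Real.pi_gt_three
  obtain ⟨q1, q2, q3, q4⟩ := hQ
  refine cell_aux hC hH 6 2 rfl (fun x => QQ (x 0, x 1)) ?_ ?_ ?_ ?_ ?_
  · exact q1.comp ((continuous_apply 0).prodMk (continuous_apply 1))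
  · intro x hx
    have x0 := hx 0
    have x1 := hx 1
    obtain ⟨g1, g2, g3, g4, g5, g6⟩ := q2 (x 0, x 1) ⟨⟨x0.1.le, x0.2.le⟩, ⟨x1.1.le, x1.2.le⟩⟩
    have k1 : ‖QQ (x 0, x 1)‖ ≠ √2 / 5 := fun h => x1.1.ne' (g2.1 h)
    have k2 : ¬ (|(QQ (x 0, x 1)).re| = Real.pi ∨ |(QQ (x 0, x 1)).im| = Real.pi) := fun h => x1.2.ne (g5.1 h)
    push Not at k2
    have k3 := abs_lt.1 (lt_of_le_of_ne g3 k2.1)
    have k4 := abs_lt.1 (lt_of_le_of_ne g4 k2.2)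
    have k5 : ¬ ((QQ (x 0, x 1)).re = (QQ (x 0, x 1)).im ∧ (QQ (x 0, x 1)).re < 0) := by
      rw [g6]
      rintro (h | h)
      · exact x0.1.ne' h
      · exact x0.2.ne h
    refine ⟨⟨k3.1, k3.2.le, k4.1, k4.2.le, g1⟩, ?_⟩
    unfold idx
    rw [if_neg k3.2.ne, if_neg k4.2.ne, if_neg k1, if_neg k5]
  · intro x hx y hy h
    have x0 := hx 0
    have x1 := hx 1
    have y0 := hy 0
    have y1 := hy 1
    have h2 := q3 (show (x 0, x 1) ∈ Ico (0 : ℝ) 1 ×ˢ Icc (0 : ℝ) 1 from ⟨⟨x0.1.le, x0.2⟩, ⟨x1.1.le, x1.2.le⟩⟩)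
      (show (y 0, y 1) ∈ Ico (0 : ℝ) 1 ×ˢ Icc (0 : ℝ) 1 from ⟨⟨y0.1.le, y0.2⟩, ⟨y1.1.le, y1.2.le⟩⟩) h
    rw [Prod.mk.injEq] at h2
    funext i
    fin_cases i
    · exact h2.1
    · exact h2.2
  · intro ζ hζ h
    have h' : ζ.re ≠ Real.pi ∧ ζ.im ≠ Real.pi ∧ ‖ζ‖ ≠ √2 / 5 ∧ ¬ (ζ.re = ζ.im ∧ ζ.re < 0) := by
      unfold idx at h
      split_ifs at h with h1 h2 h3 h4 h5 h6 <;> first | exact ⟨h1, h3, h4, h6⟩ | (exfalso; revert h; decide)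
    obtain ⟨n1, n2, n3, n4⟩ := h'
    obtain ⟨z1, z2, z3, z4, z5⟩ := hζ
    have a1 : |ζ.re| < Real.pi := abs_lt.2 ⟨z1, lt_of_le_of_ne z2 n1⟩
    have a2 : |ζ.im| < Real.pi := abs_lt.2 ⟨z3, lt_of_le_of_ne z4 n2⟩
    obtain ⟨⟨s, t⟩, ⟨hs, ht⟩, hx⟩ := q4 ζ a1.le a2.le z5
    dsimp only at hs ht
    obtain ⟨g1, g2, g3, g4, g5, g6⟩ := q2 (s, t) ⟨⟨hs.1, hs.2.le⟩, ht⟩
    rw [hx] at g1 g2 g3 g4 g5 g6
    have t0 : t ≠ 0 := fun h => n3 (g2.2 h)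
    have t1 : t ≠ 1 := by
      intro h
      rcases g5.2 h with h | h
      · exact a1.ne h
      · exact a2.ne h
    have s0 : s ≠ 0 := fun h => n4 (g6.2 (Or.inl h))
    refine ⟨![s, t], ?_, by simpa using hx⟩
    intro i
    fin_cases i
    · exact ⟨lt_of_le_of_ne hs.1 (Ne.symm s0), hs.2⟩
    · exact ⟨lt_of_le_of_ne ht.1 (Ne.symm t0), lt_of_le_of_ne ht.2 t1⟩
  · intro y hy hy'
    have y0 : y 0 ∈ Icc (0 : ℝ) 1 := ⟨hy.1 0, hy.2 0⟩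
    have y1 : y 1 ∈ Icc (0 : ℝ) 1 := ⟨hy.1 1, hy.2 1⟩
    obtain ⟨g1, g2, g3, g4, g5, g6⟩ := q2 (y 0, y 1) ⟨y0, y1⟩
    obtain ⟨ξ, hξ, hξ1, hξ2, hξ3⟩ := reduce hH g3 g4 g1
    refine ⟨ξ, hξ, hξ1, ?_⟩
    by_cases hb : |(QQ (y 0, y 1)).re| = Real.pi ∨ |(QQ (y 0, y 1)).im| = Real.pi
    · exact hξ2 hb
    · have hb' := hb
      push Not at hb'
      have h3 := lt_of_le_of_ne g3 hb'.1
      have h4 := lt_of_le_of_ne g4 hb'.2
      have h5 := hξ3 h3 h4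
      rw [h5]
      have h6 : (QQ (y 0, y 1)).re ≠ Real.pi := (lt_of_abs_lt h3).ne
      have h7 : (QQ (y 0, y 1)).im ≠ Real.pi := (lt_of_abs_lt h4).ne
      have h8 : y 1 ≠ 1 := fun h => hb (g5.2 h)
      unfold idx
      rw [if_neg h6, if_neg h7]
      by_cases h9 : ‖QQ (y 0, y 1)‖ = √2 / 5
      · rw [if_pos h9]
        split_ifs <;> decide
      · rw [if_neg h9]
        have h10 : y 1 ≠ 0 := fun h => h9 (g2.2 h)
        have h11 : y 0 = 0 ∨ y 0 = 1 := by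
          by_contra h12
          push Not at h12
          refine hy' fun i => ?_
          fin_cases i
          · exact ⟨lt_of_le_of_ne y0.1 (Ne.symm h12.1), lt_of_le_of_ne y0.2 h12.2⟩
          · exact ⟨lt_of_le_of_ne y1.1 (Ne.symm h10), lt_of_le_of_ne y1.2 h8⟩
        rw [if_pos (g6.2 h11)]
        decide

end CHIx

open CHIx in
theorem t_CHI : M_CHI := by
  intro hC hH hQ
  refine ⟨7, cc, dd, ?_, ?_, ?_, ?_, ?_⟩
  · rw [hH.1]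
    ext p
    constructor
    · intro h
      obtain ⟨i, ζ, ⟨⟨z1, z2, z3, z4, z5⟩, -⟩, rfl⟩ := mem_iUnion.1 h
      exact ⟨ζ, ⟨abs_le.2 ⟨z1.le, z2⟩, abs_le.2 ⟨z3.le, z4⟩, z5⟩, rfl⟩
    · rintro ⟨ζ, ⟨h1, h2, h3⟩, rfl⟩
      obtain ⟨ξ, hξ, hξ1, -⟩ := reduce hH h1 h2 h3
      exact mem_iUnion.2 ⟨idx ξ, ξ, ⟨hξ, rfl⟩, hξ1⟩
  · intro i j hij
    rw [Set.disjoint_left]
    rintro p ⟨ζ, ⟨hζ, hi⟩, rfl⟩ ⟨ξ, ⟨hξ, hj⟩, h⟩
    have h1 := EE_injOn hH hξ hζ h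
    rw [h1, hi] at hj
    exact hij hj
  · intro i
    fin_cases i
    · exact (c0 hC hH).1
    · exact (c1 hC hH).1
    · exact (c2 hC hH).1
    · exact (c3 hC hH).1
    · exact (c4 hC hH hQ).1
    · exact (c5 hC hH).1
    · exact (c6 hC hH hQ).1
  · intro i
    fin_cases i
    · exact (c0 hC hH).2
    · exact (c1 hC hH).2
    · exact (c2 hC hH).2
    · exact (c3 hC hH).2
    · exact (c4 hC hH hQ).2
    · exact (c5 hC hH).2
    · exact (c6 hC hH hQ).2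
  · decide

end

end Pool.Agent.LIX.G
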