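import Pool.Agent.LIX.StmtsG

/-!
# LIX, block G: the surface is connected (CON)
-/

set_option autoImplicit false

namespace Pool.Agent.LIX.G

open Set Metric Complex

noncomputable section

theorem t_CON : M_CON := by
  intro hH hQ
  obtain ⟨h1, -, h3⟩ := hH
  obtain ⟨q1, q2, -, q4⟩ := hQ
  have h : HT = (fun x => EE (QQ x)) '' (Icc (0 : ℝ) 1 ×ˢ Icc (0 : ℝ) 1) := by
    rw [h1]
    ext p
    constructor
    · rintro ⟨ζ, ⟨a, b, c⟩, rfl⟩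
      obtain ⟨x, ⟨hx1, hx2⟩, rfl⟩ := q4 ζ a b c
      exact ⟨x, ⟨⟨hx1.1, hx1.2.le⟩, hx2⟩, rfl⟩
    · rintro ⟨x, hx, rfl⟩
      obtain ⟨a, -, b, c, -⟩ := q2 x hx
      exact ⟨QQ x, ⟨b, c, a⟩, rfl⟩
  change IsConnected HT
  rw [h]
  refine IsConnected.image ?_ _ (h3.comp q1).continuousOn
  refine ⟨⟨(0, 0), ⟨le_rfl, zero_le_one⟩, ⟨le_rfl, zero_le_one⟩⟩, ?_⟩
  exact ((convex_Icc (0 : ℝ) 1).prod (convex_Icc (0 : ℝ) 1)).isPreconnected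

end

end Pool.Agent.LIX.G
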