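import Pool.Agent.LIX.StmtsG

/-!
# LIX, block G: charts at the points of the skeleton (CRS)
-/

set_option autoImplicit false

namespace Pool.Agent.LIX.G

open Set Metric Complex

noncomputable section

theorem t_CRS : M_CRS := by
  intro hG hP hNe hPo p hp hs
  obtain ⟨i, hi⟩ := mem_iUnion.1 hs
  obtain ⟨j, hj⟩ := mem_iUnion.1 hi
  rw [collar_TT.edge i j] at hj
  obtain ⟨v, hv, rfl⟩ := hj
  have hvS : v ∈ Skl := mem_iUnion.2 ⟨i, mem_iUnion.2 ⟨j, hv⟩⟩
  have hv' : v ∈ Sph := Skl_subset hvS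
  have him : v.1.im = 0 := (collar_TT.surf v hv' 0 ⟨le_rfl, zero_le_one⟩).1 hp
  by_cases h0 : v.1 = 0
  · have h1 : ‖v.1‖ ^ 2 + v.2 ^ 2 = 1 := hv'
    rw [h0, norm_zero] at h1
    have h2 : v.2 = 1 ∨ v.2 = -1 := by
      have h3 : (v.2 - 1) * (v.2 + 1) = 0 := by nlinarith
      rcases mul_eq_zero.1 h3 with h | h
      · exact Or.inl (by linarith)
      · exact Or.inr (by linarith)
    have h3 := hPo v.2 h2
    have h4 : v = (0, v.2) := Prod.ext h0 rfl
    dsimp only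
    rw [h4]
    exact h3
  · obtain ⟨e, U₀, κ, δ, he, hw, hδ, hδ1, hsk⟩ := hNe v hvS him h0
    obtain ⟨hk, hpp, h1, h2⟩ := hP e he
    have hp3 := Real.pi_gt_three
    have hNo : IsOpen {w : ℂ × ℝ | 0 < e * w.1.re} := isOpen_lt continuous_const (by fun_prop)
    have c1 : Continuous fun x : ℝ × ℝ => |x.1 - U₀| := by fun_prop
    have c2 : Continuous fun x : ℝ × ℝ => |x.2| := by fun_prop
    have c3 : Continuous fun x : ℝ × ℝ => |x.1 + κ * x.2| := by fun_prop
    have hbo : IsOpen {x : ℝ × ℝ | |x.1 - U₀| < δ ∧ |x.2| < δ} :=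
      (isOpen_lt c1 continuous_const).inter (isOpen_lt c2 continuous_const)
    have hU : (0 : ℝ) < Real.pi / 2 := by linarith
    refine hG (ℂ × ℂ) TT HT VT col collar_TT v
      ({w | 0 < e * w.1.re} ∩ (kk e) ⁻¹' {x : ℝ × ℝ | |x.1 - U₀| < δ ∧ |x.2| < δ})
      {x | |x.1 + κ * x.2| < δ ∧ |x.2| < δ}
      (fun w => ((kk e w).1 - U₀ - κ * (kk e w).2, (kk e w).2))
      (fun x => pp e (x.1 + U₀ + κ * x.2, x.2)) {v | v.1 = 0 ∧ v.2.2 = 0} hv' ?_
      (hk.isOpen_inter_preimage hNo hbo) ?_ ?_ ?_ ?_ ?_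
    · have h5 := h1 (U₀, 0) (by simpa using hU)
      rw [hw]
      refine ⟨h5.2.1, ?_⟩
      change |(kk e (pp e (U₀, 0))).1 - U₀| < δ ∧ |(kk e (pp e (U₀, 0))).2| < δ
      rw [h5.2.2.1]
      simpa using hδ
    · exact (isOpen_lt c3 continuous_const).inter (isOpen_lt c2 continuous_const)
    · have h6 : ContinuousOn (kk e) (Sph ∩ ({w | 0 < e * w.1.re} ∩
          (kk e) ⁻¹' {x : ℝ × ℝ | |x.1 - U₀| < δ ∧ |x.2| < δ})) := hk.mono fun w hw => hw.2.1
      exact ContinuousOn.prodMk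
        (((continuous_fst.comp_continuousOn h6).sub continuousOn_const).sub
          (continuousOn_const.mul (continuous_snd.comp_continuousOn h6)))
        (continuous_snd.comp_continuousOn h6)
    · apply Continuous.continuousOn
      exact hpp.comp (by fun_prop)
    · rintro w ⟨hwS, hw1, hw2⟩
      have hw1' : 0 < e * w.1.re := hw1
      have hw2' : |(kk e w).1 - U₀| < δ ∧ |(kk e w).2| < δ := hw2
      obtain ⟨h3, h4⟩ := h2 w hwS hw1'
      have h5 := (h1 (kk e w) h3).2.2.2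
      rw [h4] at h5
      have h6 : (kk e w).1 - U₀ - κ * (kk e w).2 + U₀ + κ * (kk e w).2 = (kk e w).1 := by ring
      refine ⟨⟨?_, hw2'.2⟩, ?_, h5, fun l => ?_⟩
      · change |(kk e w).1 - U₀ - κ * (kk e w).2 + κ * (kk e w).2| < δ
        have h7 : (kk e w).1 - U₀ - κ * (kk e w).2 + κ * (kk e w).2 = (kk e w).1 - U₀ := by ring
        rw [h7]
        exact hw2'.1
      · change pp e ((kk e w).1 - U₀ - κ * (kk e w).2 + U₀ + κ * (kk e w).2, (kk e w).2) = w
        rw [h6]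
        exact h4
      · have h8 := hsk (kk e w) hw2'.1 hw2'.2
        rw [h4] at h8
        rw [h8]
        change _ ↔ (kk e w).1 - U₀ - κ * (kk e w).2 = 0 ∧ l = 0
        constructor
        · rintro ⟨h9, h10⟩
          exact ⟨by rw [h9]; ring, h10⟩
        · rintro ⟨h9, h10⟩
          exact ⟨by linarith, h10⟩
    · rintro x ⟨hx1, hx2⟩
      have hx3 : |x.2| < Real.pi / 2 := by linarith
      obtain ⟨h3, h4, h5, -⟩ := h1 (x.1 + U₀ + κ * x.2, x.2) hx3
      refine ⟨⟨h3, h4, ?_⟩, ?_⟩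
      · change |(kk e (pp e (x.1 + U₀ + κ * x.2, x.2))).1 - U₀| < δ ∧
          |(kk e (pp e (x.1 + U₀ + κ * x.2, x.2))).2| < δ
        rw [h5]
        refine ⟨?_, hx2⟩
        have h7 : x.1 + U₀ + κ * x.2 - U₀ = x.1 + κ * x.2 := by ring
        dsimp only
        rw [h7]
        exact hx1
      · rw [h5]
        refine Prod.ext ?_ rfl
        dsimp only
        ring

end

end Pool.Agent.LIX.G
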