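import Pool.Agent.LIX.StmtsG

/-!
# LIX, block G: charts at boundary points (GCH)
-/

set_option autoImplicit false

namespace Pool.Agent.LIX.G

open Set Metric Complex

noncomputable section

namespace GCHx

/-- The inverse of an injective continuous map on a compact set is continuous. -/
theorem continuousOn_inv {X Y : Type} [TopologicalSpace X] [TopologicalSpace Y] [T2Space Y] [Nonempty X]
    {c : X → Y} {D : Set X} (hD : IsCompact D) (hc : ContinuousOn c D) (hi : InjOn c D) :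
    ContinuousOn (Function.invFunOn c D) (c '' D) := by
  rw [continuousOn_iff_isClosed]
  intro t ht
  refine ⟨c '' (D ∩ t), ?_, ?_⟩
  · exact ((hD.inter_right ht).image_of_continuousOn (hc.mono inter_subset_left)).isClosed
  · ext y
    constructor
    · rintro ⟨h1, x, hx, rfl⟩
      have h2 : Function.invFunOn c D (c x) = x := hi.leftInvOn_invFunOn hx
      have h3 : Function.invFunOn c D (c x) ∈ t := h1
      rw [h2] at h3
      exact ⟨⟨x, ⟨hx, h3⟩, rfl⟩, ⟨x, hx, rfl⟩⟩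
    · rintro ⟨⟨x, ⟨hx, hxt⟩, rfl⟩, h4⟩
      refine ⟨?_, h4⟩
      change Function.invFunOn c D (c x) ∈ t
      have h2 : Function.invFunOn c D (c x) = x := hi.leftInvOn_invFunOn hx
      rw [h2]
      exact hxt

end GCHx

theorem t_GCH : S_GCH := by
  intro Y _ _ T H V c hC v N W k k' S hv hvN hN hW hk hk' hkf hkb
  obtain ⟨O, hO, hOc⟩ := hC.opn
  set D : Set ((ℂ × ℝ) × ℝ) := Sph ×ˢ Icc 0 1 with hD
  have hDc : IsCompact D := isCompact_Sph.prod isCompact_Icc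
  set ci : Y → (ℂ × ℝ) × ℝ := Function.invFunOn c D with hci
  have hcic : ContinuousOn ci (c '' D) := GCHx.continuousOn_inv hDc hC.cont hC.inj
  have hcil : ∀ x ∈ D, ci (c x) = x := fun x hx => hC.inj.leftInvOn_invFunOn hx
  -- the open set
  have hF : IsClosed (c '' ((Sph \ N) ×ˢ Icc (0 : ℝ) 1)) := by
    have h1 : IsCompact (Sph \ N) := isCompact_Sph.diff hN
    refine ((h1.prod isCompact_Icc).image_of_continuousOn (hC.cont.mono ?_)).isClosed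
    exact prod_mono sdiff_subset le_rfl
  set U : Set Y := O \ c '' ((Sph \ N) ×ˢ Icc (0 : ℝ) 1) with hU
  have hUo : IsOpen U := hO.sdiff hF
  have hUb : ∀ x : Y, x ∈ U ∩ T.body ↔ ∃ w ∈ Sph ∩ N, ∃ l ∈ Ico (0 : ℝ) 1, x = c (w, l) := by
    intro x
    constructor
    · rintro ⟨⟨h1, h2⟩, h3⟩
      have h4 : x ∈ T.body ∩ O := ⟨h3, h1⟩
      rw [hOc] at h4
      obtain ⟨⟨w, l⟩, ⟨h5, h6⟩, rfl⟩ := h4
      dsimp only at h5 h6
      refine ⟨w, ⟨h5, ?_⟩, l, h6, rfl⟩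
      by_contra h7
      exact h2 ⟨(w, l), ⟨⟨h5, h7⟩, ⟨h6.1, h6.2.le⟩⟩, rfl⟩
    · rintro ⟨w, hw, l, hl, rfl⟩
      have h4 : c (w, l) ∈ T.body ∩ O := by
        rw [hOc]
        exact ⟨(w, l), ⟨hw.1, hl⟩, rfl⟩
      refine ⟨⟨h4.2, ?_⟩, h4.1⟩
      rintro ⟨⟨w', l'⟩, ⟨h5, h6⟩, h7⟩
      dsimp only at h5 h6
      have h8 := hC.inj (show (w', l') ∈ D from ⟨h5.1, h6⟩)
        (show (w, l) ∈ D from ⟨hw.1, ⟨hl.1, hl.2.le⟩⟩) h7
      rw [Prod.mk.injEq] at h8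
      rw [h8.1] at h5
      exact h5.2 hw.2
  have hUi : ∀ x ∈ U ∩ T.body, (ci x).1 ∈ Sph ∩ N ∧ (ci x).2 ∈ Ico (0 : ℝ) 1 ∧ x = c (ci x) := by
    intro x hx
    obtain ⟨w, hw, l, hl, rfl⟩ := (hUb x).1 hx
    rw [hcil (w, l) ⟨hw.1, ⟨hl.1, hl.2.le⟩⟩]
    exact ⟨hw, hl, rfl⟩
  have hUD : ∀ x ∈ U ∩ T.body, x ∈ c '' D := by
    intro x hx
    obtain ⟨w, hw, l, hl, rfl⟩ := (hUb x).1 hx
    exact ⟨(w, l), ⟨hw.1, ⟨hl.1, hl.2.le⟩⟩, rfl⟩
  set Wc : Set (ℝ × ℝ × ℝ) := {x | (x.1, x.2.1) ∈ W ∧ x.2.2 < 1} with hWc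
  have hWco : IsOpen Wc := by
    have a1 : Continuous fun x : ℝ × ℝ × ℝ => (x.1, x.2.1) := by fun_prop
    have a2 : Continuous fun x : ℝ × ℝ × ℝ => x.2.2 := by fun_prop
    exact (hW.preimage a1).inter (isOpen_lt a2 continuous_const)
  set F : Y → ℝ × ℝ × ℝ := fun x => ((k (ci x).1).1, (k (ci x).1).2, (ci x).2) with hFd
  set G : ℝ × ℝ × ℝ → Y := fun x => c (k' (x.1, x.2.1), x.2.2) with hGd
  have hFmem : ∀ x ∈ U ∩ T.body, F x ∈ Wc ∩ {v | 0 ≤ v.2.2} := by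
    intro x hx
    obtain ⟨h1, h2, -⟩ := hUi x hx
    exact ⟨⟨(hkf _ h1).1, h2.2⟩, h2.1⟩
  have hGmem : ∀ x ∈ Wc ∩ {v | 0 ≤ v.2.2}, G x ∈ U ∩ T.body := by
    rintro x ⟨⟨h1, h2⟩, h3⟩
    exact (hUb _).2 ⟨_, (hkb _ h1).1, x.2.2, ⟨h3, h2⟩, rfl⟩
  have hGF : ∀ x ∈ U ∩ T.body, G (F x) = x := by
    intro x hx
    obtain ⟨h1, h2, h3⟩ := hUi x hx
    have h4 := (hkf _ h1).2.1
    change c (k' (k (ci x).1), (ci x).2) = x
    rw [h4]
    exact h3.symm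
  have hciG : ∀ x ∈ Wc ∩ {v | 0 ≤ v.2.2}, ci (G x) = (k' (x.1, x.2.1), x.2.2) := by
    rintro x ⟨⟨h1, h2⟩, h3⟩
    have h3' : 0 ≤ x.2.2 := h3
    exact hcil _ ⟨(hkb _ h1).1.1, h3', h2.le⟩
  have hFG : ∀ x ∈ Wc ∩ {v | 0 ≤ v.2.2}, F (G x) = x := by
    intro x hx
    change ((k (ci (G x)).1).1, (k (ci (G x)).1).2, (ci (G x)).2) = x
    rw [hciG x hx]
    dsimp only
    rw [(hkb _ hx.1.1).2]
  have hFc : ContinuousOn F (U ∩ T.body) := by
    have h1 : ContinuousOn ci (U ∩ T.body) := hcic.mono hUD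
    have h2 : ContinuousOn (fun x => k (ci x).1) (U ∩ T.body) :=
      hk.comp (continuous_fst.comp_continuousOn h1) fun x hx => (hUi x hx).1
    exact (continuous_fst.comp_continuousOn h2).prodMk
      ((continuous_snd.comp_continuousOn h2).prodMk (continuous_snd.comp_continuousOn h1))
  have hGc : ContinuousOn G (Wc ∩ {v | 0 ≤ v.2.2}) := by
    have h1 : ContinuousOn (fun x : ℝ × ℝ × ℝ => (k' (x.1, x.2.1), x.2.2)) (Wc ∩ {v | 0 ≤ v.2.2}) := by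
      refine ContinuousOn.prodMk ?_ (by fun_prop)
      exact hk'.comp (by fun_prop) fun x hx => hx.1.1
    refine hC.cont.comp h1 ?_
    rintro x ⟨⟨h2, h3⟩, h4⟩
    have h4' : 0 ≤ x.2.2 := h4
    exact ⟨(hkb _ h2).1.1, h4', h3.le⟩
  refine ⟨U, Wc, hUo, ?_, hWco, ?_⟩
  · exact ((hUb _).2 ⟨v, ⟨hv, hvN⟩, 0, ⟨le_rfl, zero_lt_one⟩, rfl⟩).1
  · refine ⟨{ toFun := fun x => ⟨F x, hFmem _ x.2⟩
              invFun := fun x => ⟨G x, hGmem _ x.2⟩
              left_inv := fun x => Subtype.ext (hGF _ x.2)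
              right_inv := fun x => Subtype.ext (hFG _ x.2)
              continuous_toFun := (continuousOn_iff_continuous_domRestrict.1 hFc).subtype_mk _
              continuous_invFun := (continuousOn_iff_continuous_domRestrict.1 hGc).subtype_mk _ }, ?_⟩
    rintro ⟨x, hx⟩
    obtain ⟨h1, h2, h3⟩ := hUi x hx
    have h4 := hkf _ h1
    have h2' : (ci x).2 ∈ Icc (0 : ℝ) 1 := ⟨h2.1, h2.2.le⟩
    change (x ∈ H ↔ (F x).2.1 = 0) ∧ (x ∈ T.bd ↔ (F x).2.2 = 0) ∧ (x ∈ T.skel ↔ F x ∈ S)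
    have hcix : c ((ci x).1, (ci x).2) = x := h3.symm
    refine ⟨?_, ?_, ?_⟩
    · have h5 := hC.surf (ci x).1 h1.1 (ci x).2 h2'
      rw [hcix] at h5
      rw [h5, h4.2.2.1]
    · rw [hC.bd]
      change _ ↔ (ci x).2 = 0
      constructor
      · rintro ⟨⟨w, l⟩, ⟨h5, h6⟩, h7⟩
        have h6' : l = 0 := h6
        have h5' : w ∈ Sph := h5
        subst h6'
        rw [← h7, hcil (w, 0) ⟨h5', ⟨le_rfl, zero_le_one⟩⟩]
      · intro h5
        refine ⟨ci x, ⟨h1.1, h5⟩, h3.symm⟩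
    · have h6 : x ∈ T.skel ↔ (ci x).1 ∈ Skl ∧ (ci x).2 = 0 := by
        constructor
        · intro h
          obtain ⟨i, hi⟩ := mem_iUnion.1 h
          obtain ⟨j, hj⟩ := mem_iUnion.1 hi
          rw [hC.edge i j] at hj
          obtain ⟨w, hw, h7⟩ := hj
          dsimp only at h7
          have h8 : w ∈ Skl := mem_iUnion.2 ⟨i, mem_iUnion.2 ⟨j, hw⟩⟩
          rw [← h7, hcil (w, 0) ⟨Skl_subset h8, ⟨le_rfl, zero_le_one⟩⟩]
          exact ⟨h8, rfl⟩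
        · rintro ⟨h7, h8⟩
          obtain ⟨i, hi⟩ := mem_iUnion.1 h7
          obtain ⟨j, hj⟩ := mem_iUnion.1 hi
          refine mem_iUnion.2 ⟨i, mem_iUnion.2 ⟨j, ?_⟩⟩
          rw [hC.edge i j]
          refine ⟨(ci x).1, hj, ?_⟩
          dsimp only
          rw [← h8]
          exact hcix
      rw [h6, h4.2.2.2]

end

end Pool.Agent.LIX.G
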