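import Pool.Agent.LIX.StmtsG

/-!
# LIX, block G: the surface as a quotient of a square minus a disk (HTE)
-/

set_option autoImplicit false

namespace Pool.Agent.LIX.G

open Set Metric Complex

noncomputable section

namespace HTEx

theorem s2 : (0 : ℝ) < √2 := Real.sqrt_pos.2 (by norm_num)

theorem s2c : ((√2 : ℝ) : ℂ) ≠ 0 := Complex.ofReal_ne_zero.2 s2.ne'

theorem norm_EE (ζ : ℂ) : ‖(EE ζ).1‖ = 1 / √2 ∧ ‖(EE ζ).2‖ = 1 / √2 := by
  unfold EE
  simp only [norm_div, Complex.norm_exp_ofReal_mul_I, Complex.norm_real, Real.norm_eq_abs, abs_of_pos s2, and_self]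

theorem norm_HT {p : ℂ × ℂ} (h3 : p ∈ S3) (he : ‖p.1‖ = ‖p.2‖) : ‖p.1‖ = 1 / √2 ∧ ‖p.2‖ = 1 / √2 := by
  have h : ‖p.1‖ ^ 2 + ‖p.2‖ ^ 2 = 1 := h3
  have h1 : ‖p.1‖ = 1 / √2 := by
    have e1 : ‖p.1‖ ^ 2 = (1 / √2) ^ 2 := by
      rw [div_pow, Real.sq_sqrt (by norm_num)]
      rw [← he] at h
      linarith
    exact (sq_eq_sq₀ (norm_nonneg _) (by positivity)).1 e1
  exact ⟨h1, by rw [← he]; exact h1⟩

theorem EE_arg {p : ℂ × ℂ} (h3 : p ∈ S3) (he : ‖p.1‖ = ‖p.2‖) : EE ⟨arg p.1, arg p.2⟩ = p := by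
  obtain ⟨h1, h2⟩ := norm_HT h3 he
  unfold EE
  refine Prod.ext ?_ ?_
  · dsimp only
    have h := Complex.norm_mul_exp_arg_mul_I p.1
    rw [h1] at h
    conv_rhs => rw [← h]
    push_cast
    ring
  · dsimp only
    have h := Complex.norm_mul_exp_arg_mul_I p.2
    rw [h2] at h
    conv_rhs => rw [← h]
    push_cast
    ring

theorem norm_sq_re_im (z : ℂ) : ‖z‖ ^ 2 = z.re ^ 2 + z.im ^ 2 := by
  rw [← Complex.normSq_eq_norm_sq, Complex.normSq_apply]
  ring

theorem lt_iff (ζ : ℂ) : ‖ζ‖ < √2 / 5 ↔ ζ.re ^ 2 + ζ.im ^ 2 < 2 / 25 := by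
  rw [← norm_sq_re_im]
  have h : (√2 / 5) ^ 2 = 2 / 25 := by
    rw [div_pow, Real.sq_sqrt (by norm_num)]
    norm_num
  rw [← h]
  exact (sq_lt_sq₀ (norm_nonneg _) (by positivity)).symm

theorem exp_small {x y : ℝ} (hx : |x| < 1) (hy : |y| ≤ Real.pi) (h : exp ((x : ℝ) * I) = exp ((y : ℝ) * I)) : x = y := by
  obtain ⟨n, hn⟩ := Complex.exp_eq_exp_iff_exists_int.1 h
  have h3 : x = y + n * (2 * Real.pi) := by
    have := congrArg Complex.im hn
    simpa using this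
  have hp := Real.pi_gt_three
  obtain ⟨a, b⟩ := abs_lt.1 hx
  obtain ⟨c, d⟩ := abs_le.1 hy
  have h5 : (n : ℝ) < 1 := by
    by_contra h'
    rw [not_lt] at h'
    nlinarith
  have h6 : (-1 : ℝ) < n := by
    by_contra h'
    rw [not_lt] at h'
    nlinarith
  have h7 : n < 1 := by exact_mod_cast h5
  have h8 : -1 < n := by exact_mod_cast h6
  have h9 : n = 0 := by omega
  rw [h3, h9]
  simp

theorem not_mem {ζ : ℂ} (h1 : |ζ.re| ≤ Real.pi) (h2 : |ζ.im| ≤ Real.pi) (h3 : √2 / 5 ≤ ‖ζ‖) :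
    EE ζ ∉ kap '' {v | nrm v < 1 / 5} := by
  rintro ⟨v, hv, hvz⟩
  have hv' : nrm v < 1 / 5 := hv
  have hv2 : nrm v ≤ 1 / 2 := by linarith
  have hn := norm_EE ζ
  have h4 := norm_sub_kap hv2
  rw [hvz, hn.1, hn.2, sub_self] at h4
  have h5 : Real.sin v.1.im = 0 := (mul_eq_zero.1 h4.symm).resolve_left s2.ne'
  have h6 : v.1.im = 0 := (sin_sign ((abs_im_le_nrm v).trans hv2)).1.1 h5
  have hre := abs_re_le_nrm v
  have hsn := abs_snd_le_nrm v
  have hc : ((Real.cos (Real.pi / 4) : ℝ) : ℂ) = 1 / ((√2 : ℝ) : ℂ) := by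
    rw [Real.cos_pi_div_four]
    have : √2 / 2 = 1 / √2 := by
      rw [div_eq_div_iff (by norm_num) s2.ne']
      have := Real.mul_self_sqrt (show (0 : ℝ) ≤ 2 by norm_num)
      linarith
    rw [this]
    push_cast
    rfl
  have e1 : exp (((v.2 + v.1.re : ℝ) : ℂ) * I) = exp ((ζ.re : ℝ) * I) := by
    have := congrArg Prod.fst hvz
    unfold kap EE at this
    dsimp only at this
    rw [h6, sub_zero, hc, one_div, div_eq_mul_inv, mul_comm (exp _) _] at this
    exact mul_left_cancel₀ (inv_ne_zero s2c) this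
  have e2 : exp (((v.2 - v.1.re : ℝ) : ℂ) * I) = exp ((ζ.im : ℝ) * I) := by
    have := congrArg Prod.snd hvz
    unfold kap EE at this
    dsimp only at this
    rw [h6, add_zero, hc, one_div, div_eq_mul_inv, mul_comm (exp _) _] at this
    exact mul_left_cancel₀ (inv_ne_zero s2c) this
  have a1 : |v.2 + v.1.re| < 1 := by
    have := abs_add_le v.2 v.1.re
    linarith
  have a2 : |v.2 - v.1.re| < 1 := by
    have := abs_sub v.2 v.1.re
    linarith
  have f1 := exp_small a1 h1 e1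
  have f2 := exp_small a2 h2 e2
  have h7 := nrm_sq' v
  rw [h6] at h7
  have h8 : ‖ζ‖ < √2 / 5 := by
    rw [lt_iff, ← f1, ← f2]
    have : nrm v ^ 2 < (1 / 5) ^ 2 := by
      have := nrm_nonneg v
      nlinarith
    nlinarith
  linarith

end HTEx

open HTEx in
theorem t_HTE : S_HTE := by
  refine ⟨?_, ?_, ?_⟩
  · ext p
    constructor
    · rintro ⟨⟨h3, hn⟩, he⟩
      refine ⟨⟨arg p.1, arg p.2⟩, ⟨Complex.abs_arg_le_pi _, Complex.abs_arg_le_pi _, ?_⟩, EE_arg h3 he⟩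
      by_contra hlt
      rw [not_le] at hlt
      rw [lt_iff] at hlt
      dsimp only at hlt
      apply hn
      refine ⟨kinv p, ?_, kap_kinv h3⟩
      change nrm (kinv p) < 1 / 5
      have h1 := (norm_HT h3 he).1
      have e0 : Real.pi / 4 - Real.arccos ‖p.1‖ = 0 := by
        have e1 : ‖p.1‖ = Real.cos (Real.pi / 4) := by
          rw [h1, Real.cos_pi_div_four, div_eq_div_iff s2.ne' (by norm_num)]
          have := Real.mul_self_sqrt (show (0 : ℝ) ≤ 2 by norm_num)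
          linarith
        have hp := Real.pi_pos
        rw [e1, Real.arccos_cos (by linarith) (by linarith), sub_self]
      have e2 := nrm_sq' (kinv p)
      have e3 : (kinv p).1.im = 0 := e0
      have e4 : (kinv p).1.re = (arg p.1 - arg p.2) / 2 := rfl
      have e5 : (kinv p).2 = (arg p.1 + arg p.2) / 2 := rfl
      rw [e3, e4, e5] at e2
      have h0 := nrm_nonneg (kinv p)
      nlinarith
    · rintro ⟨ζ, ⟨h1, h2, h3⟩, rfl⟩
      have hn := norm_EE ζ
      refine ⟨⟨?_, not_mem h1 h2 h3⟩, ?_⟩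
      · change ‖(EE ζ).1‖ ^ 2 + ‖(EE ζ).2‖ ^ 2 = 1
        rw [hn.1, hn.2, div_pow, Real.sq_sqrt (by norm_num)]
        norm_num
      · exact hn.1.trans hn.2.symm
  · intro ζ ξ
    have key : ∀ x y : ℝ, exp ((x : ℝ) * I) / ((√2 : ℝ) : ℂ) = exp ((y : ℝ) * I) / ((√2 : ℝ) : ℂ) ↔
        ∃ a : ℤ, y = x + 2 * Real.pi * a := by
      intro x y
      rw [div_left_inj' s2c, Complex.exp_eq_exp_iff_exists_int]
      constructor
      · rintro ⟨n, hn⟩
        refine ⟨-n, ?_⟩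
        have h3 : x = y + n * (2 * Real.pi) := by
          have := congrArg Complex.im hn
          simpa using this
        rw [h3]
        push_cast
        ring
      · rintro ⟨n, hn⟩
        refine ⟨-n, ?_⟩
        rw [hn]
        push_cast
        ring
    unfold EE
    rw [Prod.mk.injEq, key, key]
    constructor
    · rintro ⟨⟨a, ha⟩, b, hb⟩
      exact ⟨a, b, ha, hb⟩
    · rintro ⟨a, b, ha, hb⟩
      exact ⟨⟨a, ha⟩, b, hb⟩
  · unfold EE
    fun_prop

end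

end Pool.Agent.LIX.G
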