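import Pool.Agent.LIX.StmtsG

/-!
# LIX, block G: charts at interior points (INN)
-/

set_option autoImplicit false

namespace Pool.Agent.LIX.G

open Set Metric Complex

noncomputable section

namespace INNx

theorem skel_subset_bd : TT.skel ⊆ TT.bd := by
  intro p hp
  obtain ⟨i, hi⟩ := mem_iUnion.1 hp
  obtain ⟨j, hj⟩ := mem_iUnion.1 hi
  rw [collar_TT.edge i j] at hj
  obtain ⟨v, hv, rfl⟩ := hj
  rw [collar_TT.bd]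
  exact ⟨(v, 0), ⟨Skl_subset (mem_iUnion.2 ⟨i, mem_iUnion.2 ⟨j, hv⟩⟩), rfl⟩, rfl⟩

theorem isCompact_ball (r : ℝ) : IsCompact {v : ℂ × ℝ | nrm v ≤ r} := by
  refine (isCompact_closedBall (0 : ℂ × ℝ) r).of_isClosed_subset (isClosed_le continuous_nrm continuous_const) ?_
  intro v hv
  have hv' : nrm v ≤ r := hv
  rw [mem_closedBall_zero_iff, Prod.norm_def, max_le_iff]
  constructor
  · refine le_trans ?_ hv'
    refine abs_le_of_sq_le_sq' ?_ (nrm_nonneg v) |>.2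
    rw [nrm_sq]
    nlinarith [sq_nonneg v.2]
  · rw [Real.norm_eq_abs]
    exact (abs_snd_le_nrm v).trans hv'

variable (ω₁ ω₂ : ℂ)

/-- the chart -/
def LL (q : ℂ × ℂ) : ℝ × ℝ × ℝ := (arg (q.1 / ω₁), ‖q.1‖ ^ 2 - ‖q.2‖ ^ 2, arg (q.2 / ω₂))

/-- its inverse -/
def KK (x : ℝ × ℝ × ℝ) : ℂ × ℂ :=
  (((√((1 + x.2.1) / 2) : ℝ) : ℂ) * exp ((x.1 : ℝ) * I) * ω₁,
    ((√((1 - x.2.1) / 2) : ℝ) : ℂ) * exp ((x.2.2 : ℝ) * I) * ω₂)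

/-- the domain of the chart -/
def SS : Set (ℂ × ℂ) := {q | q.1 / ω₁ ∈ slitPlane ∧ q.2 / ω₂ ∈ slitPlane}

/-- the domain of the inverse -/
def W0 : Set (ℝ × ℝ × ℝ) := {x | |x.1| < Real.pi ∧ |x.2.1| < 1 ∧ |x.2.2| < Real.pi}

theorem isOpen_W0 : IsOpen W0 := by
  have c1 : Continuous fun x : ℝ × ℝ × ℝ => |x.1| := by fun_prop
  have c2 : Continuous fun x : ℝ × ℝ × ℝ => |x.2.1| := by fun_prop
  have c3 : Continuous fun x : ℝ × ℝ × ℝ => |x.2.2| := by fun_prop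
  exact (isOpen_lt c1 continuous_const).inter ((isOpen_lt c2 continuous_const).inter (isOpen_lt c3 continuous_const))

theorem isOpen_SS : IsOpen (SS ω₁ ω₂) := by
  have c1 : Continuous fun q : ℂ × ℂ => q.1 / ω₁ := by fun_prop
  have c2 : Continuous fun q : ℂ × ℂ => q.2 / ω₂ := by fun_prop
  exact (isOpen_slitPlane.preimage c1).inter (isOpen_slitPlane.preimage c2)

theorem continuous_KK : Continuous (KK ω₁ ω₂) := by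
  unfold KK
  fun_prop

theorem continuousOn_LL : ContinuousOn (LL ω₁ ω₂) (SS ω₁ ω₂) := by
  intro q hq
  apply ContinuousAt.continuousWithinAt
  have h1 : ContinuousAt (fun q : ℂ × ℂ => arg (q.1 / ω₁)) q :=
    ContinuousAt.comp (f := fun q : ℂ × ℂ => q.1 / ω₁) (continuousAt_arg hq.1) (by fun_prop)
  have h2 : ContinuousAt (fun q : ℂ × ℂ => arg (q.2 / ω₂)) q :=
    ContinuousAt.comp (f := fun q : ℂ × ℂ => q.2 / ω₂) (continuousAt_arg hq.2) (by fun_prop)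
  have h3 : ContinuousAt (fun q : ℂ × ℂ => ‖q.1‖ ^ 2 - ‖q.2‖ ^ 2) q := by fun_prop
  exact h1.prodMk (h3.prodMk h2)

variable {ω₁ ω₂}

theorem norm_KK (h1 : ‖ω₁‖ = 1) (h2 : ‖ω₂‖ = 1) (x : ℝ × ℝ × ℝ) :
    ‖(KK ω₁ ω₂ x).1‖ = √((1 + x.2.1) / 2) ∧ ‖(KK ω₁ ω₂ x).2‖ = √((1 - x.2.1) / 2) := by
  unfold KK
  simp only [norm_mul, Complex.norm_exp_ofReal_mul_I, h1, h2, mul_one, Complex.norm_real, Real.norm_eq_abs,
    abs_of_nonneg (Real.sqrt_nonneg _), and_self]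

theorem KK_mem (h1 : ‖ω₁‖ = 1) (h2 : ‖ω₂‖ = 1) {x : ℝ × ℝ × ℝ} (hx : x ∈ W0) : KK ω₁ ω₂ x ∈ S3 := by
  have h := norm_KK h1 h2 x
  obtain ⟨a, b⟩ := abs_lt.1 hx.2.1
  change ‖(KK ω₁ ω₂ x).1‖ ^ 2 + ‖(KK ω₁ ω₂ x).2‖ ^ 2 = 1
  rw [h.1, h.2, Real.sq_sqrt (by linarith), Real.sq_sqrt (by linarith)]
  ring

theorem KK_div (h1 : ω₁ ≠ 0) (h2 : ω₂ ≠ 0) (x : ℝ × ℝ × ℝ) :
    (KK ω₁ ω₂ x).1 / ω₁ = ((√((1 + x.2.1) / 2) : ℝ) : ℂ) * exp ((x.1 : ℝ) * I) ∧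
    (KK ω₁ ω₂ x).2 / ω₂ = ((√((1 - x.2.1) / 2) : ℝ) : ℂ) * exp ((x.2.2 : ℝ) * I) := by
  unfold KK
  exact ⟨mul_div_cancel_right₀ _ h1, mul_div_cancel_right₀ _ h2⟩

theorem arg_aux {r a : ℝ} (hr : 0 < r) (ha : |a| < Real.pi) : arg ((r : ℂ) * exp ((a : ℝ) * I)) = a := by
  obtain ⟨h1, h2⟩ := abs_lt.1 ha
  rw [Complex.arg_real_mul _ hr, Complex.arg_exp_mul_I, toIocMod_eq_self]
  constructor <;> linarith

theorem LL_KK (h1 : ‖ω₁‖ = 1) (h2 : ‖ω₂‖ = 1) {x : ℝ × ℝ × ℝ} (hx : x ∈ W0) :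
    LL ω₁ ω₂ (KK ω₁ ω₂ x) = x ∧ KK ω₁ ω₂ x ∈ SS ω₁ ω₂ := by
  have n1 : ω₁ ≠ 0 := by
    intro h
    rw [h, norm_zero] at h1
    exact zero_ne_one h1
  have n2 : ω₂ ≠ 0 := by
    intro h
    rw [h, norm_zero] at h2
    exact zero_ne_one h2
  obtain ⟨a, b⟩ := abs_lt.1 hx.2.1
  have h := norm_KK h1 h2 x
  have hd := KK_div n1 n2 x
  have s1 : 0 < √((1 + x.2.1) / 2) := Real.sqrt_pos.2 (by linarith)
  have s2 : 0 < √((1 - x.2.1) / 2) := Real.sqrt_pos.2 (by linarith)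
  have a1 : arg ((KK ω₁ ω₂ x).1 / ω₁) = x.1 := by
    rw [hd.1]
    exact arg_aux s1 hx.1
  have a2 : arg ((KK ω₁ ω₂ x).2 / ω₂) = x.2.2 := by
    rw [hd.2]
    exact arg_aux s2 hx.2.2
  refine ⟨?_, ?_, ?_⟩
  · unfold LL
    refine Prod.ext a1 (Prod.ext ?_ a2)
    change ‖(KK ω₁ ω₂ x).1‖ ^ 2 - ‖(KK ω₁ ω₂ x).2‖ ^ 2 = x.2.1
    rw [h.1, h.2, Real.sq_sqrt (by linarith), Real.sq_sqrt (by linarith)]
    ring
  · rw [Complex.mem_slitPlane_iff_arg, a1]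
    refine ⟨(abs_lt.1 hx.1).2.ne, ?_⟩
    rw [hd.1]
    exact mul_ne_zero (Complex.ofReal_ne_zero.2 s1.ne') (Complex.exp_ne_zero _)
  · rw [Complex.mem_slitPlane_iff_arg, a2]
    refine ⟨(abs_lt.1 hx.2.2).2.ne, ?_⟩
    rw [hd.2]
    exact mul_ne_zero (Complex.ofReal_ne_zero.2 s2.ne') (Complex.exp_ne_zero _)

theorem KK_LL (h1 : ‖ω₁‖ = 1) (h2 : ‖ω₂‖ = 1) {q : ℂ × ℂ} (hq : q ∈ S3) (hq' : q ∈ SS ω₁ ω₂) :
    KK ω₁ ω₂ (LL ω₁ ω₂ q) = q ∧ LL ω₁ ω₂ q ∈ W0 := by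
  have n1 : ω₁ ≠ 0 := by
    intro h
    rw [h, norm_zero] at h1
    exact zero_ne_one h1
  have n2 : ω₂ ≠ 0 := by
    intro h
    rw [h, norm_zero] at h2
    exact zero_ne_one h2
  have hq3 : ‖q.1‖ ^ 2 + ‖q.2‖ ^ 2 = 1 := hq
  obtain ⟨g1, g2⟩ := hq'
  rw [Complex.mem_slitPlane_iff_arg] at g1 g2
  have e1 : (1 + (‖q.1‖ ^ 2 - ‖q.2‖ ^ 2)) / 2 = ‖q.1‖ ^ 2 := by linarith
  have e2 : (1 - (‖q.1‖ ^ 2 - ‖q.2‖ ^ 2)) / 2 = ‖q.2‖ ^ 2 := by linarith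
  have e3 : ‖q.1 / ω₁‖ = ‖q.1‖ := by rw [norm_div, h1, div_one]
  have e4 : ‖q.2 / ω₂‖ = ‖q.2‖ := by rw [norm_div, h2, div_one]
  have p1 : 0 < ‖q.1‖ := by
    rw [← e3]
    exact norm_pos_iff.2 g1.2
  have p2 : 0 < ‖q.2‖ := by
    rw [← e4]
    exact norm_pos_iff.2 g2.2
  refine ⟨?_, ?_, ?_, ?_⟩
  · unfold KK LL
    refine Prod.ext ?_ ?_
    · dsimp only
      rw [e1, Real.sqrt_sq (norm_nonneg _)]
      have := Complex.norm_mul_exp_arg_mul_I (q.1 / ω₁)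
      rw [e3] at this
      rw [this, div_mul_cancel₀ _ n1]
    · dsimp only
      rw [e2, Real.sqrt_sq (norm_nonneg _)]
      have := Complex.norm_mul_exp_arg_mul_I (q.2 / ω₂)
      rw [e4] at this
      rw [this, div_mul_cancel₀ _ n2]
  · change |arg (q.1 / ω₁)| < Real.pi
    rw [abs_lt]
    exact ⟨Complex.neg_pi_lt_arg _, lt_of_le_of_ne (Complex.arg_le_pi _) g1.1⟩
  · change |‖q.1‖ ^ 2 - ‖q.2‖ ^ 2| < 1
    rw [abs_lt]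
    constructor <;> nlinarith
  · change |arg (q.2 / ω₂)| < Real.pi
    rw [abs_lt]
    exact ⟨Complex.neg_pi_lt_arg _, lt_of_le_of_ne (Complex.arg_le_pi _) g2.1⟩

end INNx

open INNx in
theorem t_INN : S_INN := by
  intro p hp hb
  obtain ⟨⟨hp3, hpn⟩, hpe⟩ := hp
  have hp3' : ‖p.1‖ ^ 2 + ‖p.2‖ ^ 2 = 1 := hp3
  have hpe' : ‖p.1‖ = ‖p.2‖ := hpe
  have q1 : ‖p.1‖ ≠ 0 := by
    intro h
    rw [← hpe', h] at hp3'
    norm_num at hp3'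
  have q2 : ‖p.2‖ ≠ 0 := by
    rw [← hpe']
    exact q1
  set ω₁ : ℂ := p.1 / (‖p.1‖ : ℝ) with hω₁
  set ω₂ : ℂ := p.2 / (‖p.2‖ : ℝ) with hω₂
  have h1 : ‖ω₁‖ = 1 := by
    rw [hω₁, norm_div, Complex.norm_real, norm_norm, div_self q1]
  have h2 : ‖ω₂‖ = 1 := by
    rw [hω₂, norm_div, Complex.norm_real, norm_norm, div_self q2]
  have p1 : p.1 / ω₁ = ((‖p.1‖ : ℝ) : ℂ) := by
    have : p.1 ≠ 0 := norm_ne_zero_iff.1 q1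
    have h' : ((‖p.1‖ : ℝ) : ℂ) ≠ 0 := Complex.ofReal_ne_zero.2 q1
    rw [hω₁]
    field_simp
  have p2 : p.2 / ω₂ = ((‖p.2‖ : ℝ) : ℂ) := by
    have : p.2 ≠ 0 := norm_ne_zero_iff.1 q2
    have h' : ((‖p.2‖ : ℝ) : ℂ) ≠ 0 := Complex.ofReal_ne_zero.2 q2
    rw [hω₂]
    field_simp
  set C : Set (ℂ × ℂ) := kap '' {v | nrm v ≤ 1 / 5} with hC
  have hCc : IsClosed C := ((isCompact_ball _).image continuous_kap).isClosed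
  have hpC : p ∉ C := by
    rintro ⟨v, hv, hvp⟩
    have hv' : nrm v ≤ 1 / 5 := hv
    rcases lt_or_eq_of_le hv' with h | h
    · exact hpn ⟨v, h, hvp⟩
    · exact hb ⟨v, h, hvp⟩
  set U : Set (ℂ × ℂ) := SS ω₁ ω₂ \ C with hU
  have hUb : ∀ q, q ∈ U ∩ TT.body ↔ q ∈ S3 ∧ q ∈ SS ω₁ ω₂ ∧ q ∉ C := by
    intro q
    constructor
    · rintro ⟨⟨a, b⟩, c, -⟩
      exact ⟨c, a, b⟩
    · rintro ⟨a, b, c⟩
      refine ⟨⟨b, c⟩, a, ?_⟩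
      rintro ⟨v, hv, hvp⟩
      have hv' : nrm v < 1 / 5 := hv
      exact c ⟨v, hv'.le, hvp⟩
  set W : Set (ℝ × ℝ × ℝ) := W0 ∩ (KK ω₁ ω₂) ⁻¹' Cᶜ with hW
  have hL : ∀ q ∈ U ∩ TT.body, LL ω₁ ω₂ q ∈ W ∩ univ := by
    intro q hq
    obtain ⟨a, b, c⟩ := (hUb q).1 hq
    obtain ⟨d, f⟩ := KK_LL h1 h2 a b
    refine ⟨⟨f, ?_⟩, trivial⟩
    change KK ω₁ ω₂ (LL ω₁ ω₂ q) ∈ Cᶜ
    rw [d]
    exact c
  have hK : ∀ x ∈ W ∩ univ, KK ω₁ ω₂ x ∈ U ∩ TT.body := by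
    rintro x ⟨⟨hx, hx'⟩, -⟩
    exact (hUb _).2 ⟨KK_mem h1 h2 hx, (LL_KK h1 h2 hx).2, hx'⟩
  refine ⟨U, W, (isOpen_SS _ _).sdiff hCc, ⟨⟨?_, ?_⟩, hpC⟩,
    isOpen_W0.inter (hCc.isOpen_compl.preimage (continuous_KK _ _)), ?_⟩
  · rw [p1]
    exact Or.inl (by rw [Complex.ofReal_re]; exact lt_of_le_of_ne (norm_nonneg _) (Ne.symm q1))
  · rw [p2]
    exact Or.inl (by rw [Complex.ofReal_re]; exact lt_of_le_of_ne (norm_nonneg _) (Ne.symm q2))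
  · have hLc : ContinuousOn (LL ω₁ ω₂) (U ∩ TT.body) := (continuousOn_LL _ _).mono fun q hq => hq.1.1
    refine ⟨{ toFun := fun x => ⟨LL ω₁ ω₂ x, hL _ x.2⟩
              invFun := fun x => ⟨KK ω₁ ω₂ x, hK _ x.2⟩
              left_inv := fun x => Subtype.ext
                (KK_LL h1 h2 ((hUb _).1 x.2).1 ((hUb _).1 x.2).2.1).1
              right_inv := fun x => Subtype.ext (LL_KK h1 h2 x.2.1.1).1
              continuous_toFun := (continuousOn_iff_continuous_domRestrict.1 hLc).subtype_mk _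
              continuous_invFun := ((continuous_KK _ _).comp continuous_subtype_val).subtype_mk _ }, ?_⟩
    rintro ⟨q, hq⟩
    obtain ⟨a, b, c⟩ := (hUb q).1 hq
    have hnb : q ∉ TT.bd := by
      rintro ⟨v, hv, hvp⟩
      have hv' : nrm v = 1 / 5 := hv
      exact c ⟨v, hv'.le, hvp⟩
    change (q ∈ HT ↔ ‖q.1‖ ^ 2 - ‖q.2‖ ^ 2 = 0) ∧ (q ∈ TT.bd ↔ _ ∈ (∅ : Set (ℝ × ℝ × ℝ))) ∧
      (q ∈ TT.skel ↔ _ ∈ (∅ : Set (ℝ × ℝ × ℝ)))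
    refine ⟨?_, ?_, ?_⟩
    · constructor
      · rintro ⟨-, h⟩
        have h' : ‖q.1‖ = ‖q.2‖ := h
        rw [h', sub_self]
      · intro h
        refine ⟨hq.2, ?_⟩
        have h' : ‖q.1‖ ^ 2 = ‖q.2‖ ^ 2 := by linarith
        exact (sq_eq_sq₀ (norm_nonneg _) (norm_nonneg _)).1 h'
    · exact ⟨fun h => absurd h hnb, fun h => absurd h (notMem_empty _)⟩
    · exact ⟨fun h => absurd (skel_subset_bd h) hnb, fun h => absurd h (notMem_empty _)⟩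

end

end Pool.Agent.LIX.G
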