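import Pool.Agent.LIX.G_NEAR

/-!
# LIX, block G: the boundary length is 12 (LEN)
-/

set_option autoImplicit false

namespace Pool.Agent.LIX.G

open Set Metric Complex

noncomputable section

namespace LENx

/-- the ten crossing points which are not poles -/
def gg (p : ℤ × ℤ) : ℂ × ℝ := nml (((p.1 : ℤ) : ℂ), Mf p.2)

/-- the index set -/
def FF : Finset (ℤ × ℤ) := ({1, -1} : Finset ℤ) ×ˢ ({2, 3, 6, 9, 10} : Finset ℤ)

theorem gg_one (U : ℤ) : gg (1, U) = nml (exp ((0 : ℝ) * I), Mf U) := by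
  unfold gg
  simp

theorem gg_neg_one (U : ℤ) : gg (-1, U) = nml (exp ((Real.pi : ℝ) * I), Mf U) := by
  unfold gg
  simp [Complex.exp_pi_mul_I]

theorem gg_mem {p : ℤ × ℤ} (hp : p ∈ FF) : gg p ∈ Skl ∧ (gg p).1.im = 0 ∧ (gg p).1 ≠ 0 := by
  obtain ⟨s, U⟩ := p
  have hp' : (s = 1 ∨ s = -1) ∧ (U = 2 ∨ U = 3 ∨ U = 6 ∨ U = 9 ∨ U = 10) := by
    simpa [FF] using hp
  refine ⟨?_, ?_, ?_⟩
  · rw [Skl_eq]
    obtain ⟨hs, hU⟩ := hp'
    rcases hs with rfl | rfl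
    · rw [gg_one]
      rcases hU with rfl | rfl | rfl | rfl | rfl
      · refine Or.inl (Or.inl (Or.inr ((NEARx.mem_hlx_nml (by norm_num)).2 ⟨0, ?_⟩)))
        push_cast
        ring
      · refine Or.inl (Or.inr ((NEARx.mem_hlx_nml (by norm_num)).2 ⟨0, ?_⟩))
        push_cast
        ring
      · refine Or.inl (Or.inl (Or.inl (Or.inr ((NEARx.mem_hlx_nml (by norm_num)).2 ⟨-1, ?_⟩))))
        push_cast
        ring
      · refine Or.inl (Or.inl (Or.inl (Or.inl ((NEARx.mem_hlx_nml (by norm_num)).2 ⟨-1, ?_⟩))))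
        push_cast
        ring
      · refine Or.inl (Or.inl (Or.inr ((NEARx.mem_hlx_nml (by norm_num)).2 ⟨-1, ?_⟩)))
        push_cast
        ring
    · rw [gg_neg_one]
      rcases hU with rfl | rfl | rfl | rfl | rfl
      · refine Or.inl (Or.inl (Or.inl (Or.inr ((NEARx.mem_hlx_nml (by norm_num)).2 ⟨0, ?_⟩))))
        push_cast
        ring
      · refine Or.inl (Or.inl (Or.inl (Or.inl ((NEARx.mem_hlx_nml (by norm_num)).2 ⟨0, ?_⟩))))
        push_cast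
        ring
      · refine Or.inl (Or.inl (Or.inr ((NEARx.mem_hlx_nml (by norm_num)).2 ⟨0, ?_⟩)))
        push_cast
        ring
      · refine Or.inl (Or.inr ((NEARx.mem_hlx_nml (by norm_num)).2 ⟨0, ?_⟩))
        push_cast
        ring
      · refine Or.inl (Or.inl (Or.inl (Or.inr ((NEARx.mem_hlx_nml (by norm_num)).2 ⟨-1, ?_⟩))))
        push_cast
        ring
  · obtain ⟨hs, -⟩ := hp'
    unfold gg nml
    dsimp only
    rw [Complex.div_ofReal_im]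
    simp
  · obtain ⟨hs, -⟩ := hp'
    rcases hs with rfl | rfl
    · rw [gg_one]
      exact ((eq_nml_iff (nml_exp_mem _ _) _ _).1 rfl).2.2
    · rw [gg_neg_one]
      exact ((eq_nml_iff (nml_exp_mem _ _) _ _).1 rfl).2.2

theorem gg_prop {p : ℤ × ℤ} (hp : p.1 = 1 ∨ p.1 = -1) :
    (gg p).1 = (‖(gg p).1‖ : ℂ) * (p.1 : ℂ) ∧ (gg p).2 = ‖(gg p).1‖ * Mf p.2 ∧ (gg p).1 ≠ 0 := by
  obtain ⟨s, U⟩ := p
  have hp' : s = 1 ∨ s = -1 := hp
  rcases hp' with rfl | rfl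
  · rw [gg_one]
    have h := (eq_nml_iff (nml_exp_mem 0 (Mf U)) 0 (Mf U)).1 rfl
    simpa using h
  · rw [gg_neg_one]
    have h := (eq_nml_iff (nml_exp_mem Real.pi (Mf U)) Real.pi (Mf U)).1 rfl
    rw [Complex.exp_pi_mul_I] at h ⊢
    push_cast at h ⊢
    exact h

theorem gg_inj : InjOn gg (FF : Set (ℤ × ℤ)) := by
  rintro ⟨s, U⟩ hp ⟨s', U'⟩ hq h
  have hp' : (s = 1 ∨ s = -1) ∧ (U = 2 ∨ U = 3 ∨ U = 6 ∨ U = 9 ∨ U = 10) := by
    simpa [FF] using hp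
  have hq' : (s' = 1 ∨ s' = -1) ∧ (U' = 2 ∨ U' = 3 ∨ U' = 6 ∨ U' = 9 ∨ U' = 10) := by
    simpa [FF] using hq
  obtain ⟨h1, h2, h3⟩ := gg_prop (p := (s, U)) hp'.1
  obtain ⟨h4, h5, h6⟩ := gg_prop (p := (s', U')) hq'.1
  rw [← h] at h4 h5
  have h0 : ‖(gg (s, U)).1‖ ≠ 0 := norm_ne_zero_iff.2 h3
  have h0' : ((‖(gg (s, U)).1‖ : ℝ) : ℂ) ≠ 0 := Complex.ofReal_ne_zero.2 h0
  have h7 : Mf U = Mf U' := mul_left_cancel₀ h0 (h2.symm.trans h5)
  have h8 : (U : ℝ) = U' := strictMono_Mf.injective h7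
  have h9 : ((s : ℤ) : ℂ) = ((s' : ℤ) : ℂ) := mul_left_cancel₀ h0' (h1.symm.trans h4)
  have h10 : s = s' := by exact_mod_cast h9
  have h11 : U = U' := by exact_mod_cast h8
  rw [h10, h11]

theorem set_eq : Skl ∩ {v : ℂ × ℝ | v.1.im = 0} = {((0 : ℂ), (1 : ℝ)), (0, -1)} ∪ gg '' (FF : Set (ℤ × ℤ)) := by
  ext v
  constructor
  · rintro ⟨h1, h2⟩
    have h2' : v.1.im = 0 := h2
    have hS : ‖v.1‖ ^ 2 + v.2 ^ 2 = 1 := Skl_subset h1
    by_cases h0 : v.1 = 0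
    · left
      rw [h0, norm_zero] at hS
      have h3 : (v.2 - 1) * (v.2 + 1) = 0 := by nlinarith
      rcases mul_eq_zero.1 h3 with h | h
      · exact Or.inl (Prod.ext h0 (by linarith : v.2 = 1))
      · exact Or.inr (Prod.ext h0 (by linarith : v.2 = -1))
    · right
      obtain ⟨b, k, hbk, u, hu, n, hn, hwn⟩ := NEARx.off_pole h1 h2' h0
      have hu1 := hu.1
      have hu2 := hu.2
      have hs : ∃ s : ℤ, (s = 1 ∨ s = -1) ∧ exp ((Real.pi * n : ℝ) * I) = ((s : ℤ) : ℂ) := by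
        rcases Int.even_or_odd' n with ⟨k', hk' | hk'⟩
        · refine ⟨1, Or.inl rfl, ?_⟩
          rw [hk', Complex.ext_iff, Complex.exp_ofReal_mul_I_re, Complex.exp_ofReal_mul_I_im, mul_comm Real.pi,
            Real.cos_int_mul_pi, Real.sin_int_mul_pi]
          have : Even (2 * k') := even_two_mul k'
          rw [this.neg_one_zpow]
          simp
        · refine ⟨-1, Or.inr rfl, ?_⟩
          rw [hk', Complex.ext_iff, Complex.exp_ofReal_mul_I_re, Complex.exp_ofReal_mul_I_im, mul_comm Real.pi,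
            Real.cos_int_mul_pi, Real.sin_int_mul_pi]
          have : Odd (2 * k' + 1) := odd_two_mul_add_one k'
          rw [this.neg_one_zpow]
          simp
      obtain ⟨s, hs, hse⟩ := hs
      have hU : ∃ U : ℤ, u = U ∧ (U = 2 ∨ U = 3 ∨ U = 6 ∨ U = 9 ∨ U = 10) := by
        rcases hbk with ⟨rfl, rfl⟩ | ⟨rfl, rfl⟩ | ⟨rfl, rfl⟩ | ⟨rfl, rfl⟩
        · have e1 : u = ((6 * n - 3 : ℤ) : ℝ) := by push_cast; linarith
          have e2 : (0 : ℝ) ≤ ((6 * n - 3 : ℤ) : ℝ) := by rw [← e1]; exact hu1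
          have e3 : ((6 * n - 3 : ℤ) : ℝ) ≤ 12 := by rw [← e1]; exact hu2
          have e4 : 0 ≤ 6 * n - 3 := by exact_mod_cast e2
          have e5 : 6 * n - 3 ≤ 12 := by exact_mod_cast e3
          exact ⟨6 * n - 3, e1, by omega⟩
        · have e1 : u = ((4 * n - 2 : ℤ) : ℝ) := by push_cast; linarith
          have e2 : (0 : ℝ) ≤ ((4 * n - 2 : ℤ) : ℝ) := by rw [← e1]; exact hu1
          have e3 : ((4 * n - 2 : ℤ) : ℝ) ≤ 12 := by rw [← e1]; exact hu2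
          have e4 : 0 ≤ 4 * n - 2 := by exact_mod_cast e2
          have e5 : 4 * n - 2 ≤ 12 := by exact_mod_cast e3
          exact ⟨4 * n - 2, e1, by omega⟩
        · have e1 : u = ((4 * n + 2 : ℤ) : ℝ) := by push_cast; linarith
          have e2 : (0 : ℝ) ≤ ((4 * n + 2 : ℤ) : ℝ) := by rw [← e1]; exact hu1
          have e3 : ((4 * n + 2 : ℤ) : ℝ) ≤ 12 := by rw [← e1]; exact hu2
          have e4 : 0 ≤ 4 * n + 2 := by exact_mod_cast e2
          have e5 : 4 * n + 2 ≤ 12 := by exact_mod_cast e3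
          exact ⟨4 * n + 2, e1, by omega⟩
        · have e1 : u = ((6 * n + 3 : ℤ) : ℝ) := by push_cast; linarith
          have e2 : (0 : ℝ) ≤ ((6 * n + 3 : ℤ) : ℝ) := by rw [← e1]; exact hu1
          have e3 : ((6 * n + 3 : ℤ) : ℝ) ≤ 12 := by rw [← e1]; exact hu2
          have e4 : 0 ≤ 6 * n + 3 := by exact_mod_cast e2
          have e5 : 6 * n + 3 ≤ 12 := by exact_mod_cast e3
          exact ⟨6 * n + 3, e1, by omega⟩
      obtain ⟨U, rfl, hU⟩ := hU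
      refine ⟨(s, U), ?_, ?_⟩
      · simpa [FF] using And.intro hs hU
      · rw [hwn, hse]
        rfl
  · rintro (h | ⟨p, hp, rfl⟩)
    · have h' : v.1 = 0 ∧ (v.2 = 1 ∨ v.2 = -1) := by
        rcases h with h | h
        · rw [h]
          exact ⟨rfl, Or.inl rfl⟩
        · rw [mem_singleton_iff.1 h]
          exact ⟨rfl, Or.inr rfl⟩
      refine ⟨?_, by change v.1.im = 0; rw [h'.1]; rfl⟩
      rw [Skl_eq]
      refine Or.inr ⟨?_, by rw [h'.1]; rfl, by rw [h'.1]; simp⟩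
      change ‖v.1‖ ^ 2 + v.2 ^ 2 = 1
      rw [h'.1, norm_zero]
      rcases h'.2 with h1 | h1 <;> rw [h1] <;> norm_num
    · have := gg_mem hp
      exact ⟨this.1, this.2.1⟩

theorem ncard_eq : (Skl ∩ {v : ℂ × ℝ | v.1.im = 0}).ncard = 12 := by
  rw [set_eq, Set.ncard_union_eq]
  · rw [Set.ncard_pair (by
      intro h
      have := congrArg Prod.snd h
      norm_num at this), gg_inj.ncard_image, Set.ncard_coe_finset]
    decide
  · rw [Set.disjoint_left]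
    rintro v h ⟨p, hp, rfl⟩
    have h1 := (gg_mem hp).2.2
    rcases h with h | h
    · rw [h] at h1
      exact h1 rfl
    · rw [mem_singleton_iff.1 h] at h1
      exact h1 rfl

end LENx

theorem t_LEN : S_LEN := by
  unfold S_LEN len
  have h : HT ∩ TT.skel = (fun v : ℂ × ℝ => col (v, 0)) '' (Skl ∩ {v : ℂ × ℝ | v.1.im = 0}) := by
    ext p
    constructor
    · rintro ⟨h1, h2⟩
      obtain ⟨i, hi⟩ := mem_iUnion.1 h2
      obtain ⟨j, hj⟩ := mem_iUnion.1 hi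
      rw [collar_TT.edge i j] at hj
      obtain ⟨v, hv, rfl⟩ := hj
      have h3 : v ∈ Skl := mem_iUnion.2 ⟨i, mem_iUnion.2 ⟨j, hv⟩⟩
      exact ⟨v, ⟨h3, (collar_TT.surf v (Skl_subset h3) 0 ⟨le_rfl, zero_le_one⟩).1 h1⟩, rfl⟩
    · rintro ⟨v, ⟨h1, h2⟩, rfl⟩
      refine ⟨(collar_TT.surf v (Skl_subset h1) 0 ⟨le_rfl, zero_le_one⟩).2 h2, ?_⟩
      obtain ⟨i, hi⟩ := mem_iUnion.1 h1
      obtain ⟨j, hj⟩ := mem_iUnion.1 hi
      refine mem_iUnion.2 ⟨i, mem_iUnion.2 ⟨j, ?_⟩⟩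
      rw [collar_TT.edge i j]
      exact ⟨v, hj, rfl⟩
  rw [h, Set.InjOn.ncard_image, LENx.ncard_eq]
  rintro v ⟨hv, -⟩ w ⟨hw, -⟩ h1
  have h2 := collar_TT.inj (show (v, (0 : ℝ)) ∈ Sph ×ˢ Icc (0 : ℝ) 1 from ⟨Skl_subset hv, ⟨le_rfl, zero_le_one⟩⟩)
    (show (w, (0 : ℝ)) ∈ Sph ×ˢ Icc (0 : ℝ) 1 from ⟨Skl_subset hw, ⟨le_rfl, zero_le_one⟩⟩) h1
  exact congrArg Prod.fst h2

end

end Pool.Agent.LIX.G
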