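import Pool.Agent.LIX.StmtsG

/-!
# LIX, block G: the skeleton near the crossing points which are not poles (NEAR)
-/

set_option autoImplicit false

namespace Pool.Agent.LIX.G

open Set Metric Complex

noncomputable section

namespace NEARx

/-- membership in a helix of a point given by direction and height -/
theorem mem_hlx_nml {a U b k : ℝ} (hU : U ∈ Icc (0 : ℝ) 12) :
    nml (exp ((a : ℝ) * I), Mf U) ∈ hlx b k ↔ ∃ m : ℤ, a = Real.pi * (b + k * U) + 2 * Real.pi * m := by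
  have hS := nml_exp_mem a (Mf U)
  obtain ⟨h1, h2, h3⟩ := (eq_nml_iff hS a (Mf U)).1 rfl
  rw [mem_hlx hS]
  set w := nml (exp ((a : ℝ) * I), Mf U) with hw
  have h0 : ‖w.1‖ ≠ 0 := norm_ne_zero_iff.2 h3
  have h0' : ((‖w.1‖ : ℝ) : ℂ) ≠ 0 := Complex.ofReal_ne_zero.2 h0
  constructor
  · rintro ⟨-, u, hu, h4, h5⟩
    have h6 : Mf u = Mf U := by
      rw [h2] at h5
      exact (mul_left_cancel₀ h0 h5).symm
    have h7 : u = U := strictMono_Mf.injective h6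
    subst h7
    have h8 : exp ((a : ℝ) * I) = exp ((Real.pi * (b + k * u) : ℝ) * I) := by
      rw [h1] at h4
      have h9 : ‖((‖w.1‖ : ℝ) : ℂ) * exp ((a : ℝ) * I)‖ = ‖w.1‖ := by
        rw [norm_mul, Complex.norm_exp_ofReal_mul_I, mul_one, Complex.norm_real, norm_norm]
      rw [h9] at h4
      exact mul_left_cancel₀ h0' h4
    obtain ⟨m, hm⟩ := Complex.exp_eq_exp_iff_exists_int.1 h8
    refine ⟨m, ?_⟩
    have h10 := congrArg Complex.im hm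
    simp at h10
    rw [h10]
    ring
  · rintro ⟨m, hm⟩
    refine ⟨h3, U, hU, ?_, h2⟩
    have h8 : exp ((a : ℝ) * I) = exp ((Real.pi * (b + k * U) : ℝ) * I) := by
      refine Complex.exp_eq_exp_iff_exists_int.2 ⟨m, ?_⟩
      rw [hm]
      push_cast
      ring
    rw [← h8]
    exact h1

theorem exists_sign (n : ℤ) : ∃ e : ℝ, (e = 1 ∨ e = -1) ∧ (e : ℂ) = exp ((Real.pi * n : ℝ) * I) := by
  refine ⟨Real.cos (Real.pi * n), ?_, ?_⟩
  · rw [mul_comm, Real.cos_int_mul_pi]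
    rcases Int.even_or_odd n with h | h
    · exact Or.inl h.neg_one_zpow
    · exact Or.inr h.neg_one_zpow
  · refine Complex.ext ?_ ?_
    · rw [Complex.ofReal_re, Complex.exp_ofReal_mul_I_re]
    · rw [Complex.ofReal_im, Complex.exp_ofReal_mul_I_im, mul_comm, Real.sin_int_mul_pi]

theorem pp_eq_nml {e : ℝ} {n : ℤ} (he : (e : ℂ) = exp ((Real.pi * n : ℝ) * I)) (x : ℝ × ℝ) :
    pp e x = nml (exp ((Real.pi * n + x.2 : ℝ) * I), Mf x.1) := by
  unfold pp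
  rw [he, ← Complex.exp_add]
  congr 3
  push_cast
  ring

/-- one helix near an integer height -/
theorem one_hlx {e : ℝ} {n U : ℤ} (he : (e : ℂ) = exp ((Real.pi * n : ℝ) * I)) (hU1 : 1 ≤ U) (hU2 : U ≤ 11)
    {x : ℝ × ℝ} (hx1 : |x.1 - U| < 1 / 20) (hx2 : |x.2| < 1 / 20) {b k : ℝ} {B K : ℤ} (hb : 12 * b = B) (hk : 12 * k = K)
    (hK : K = 2 ∨ K = 3) :
    pp e x ∈ hlx b k ↔ (∃ m : ℤ, B + K * U - 12 * n = 24 * m) ∧ x.2 = Real.pi * k * (x.1 - U) := by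
  have g1 : (1 : ℝ) ≤ U := by exact_mod_cast hU1
  have g2 : (U : ℝ) ≤ 11 := by exact_mod_cast hU2
  obtain ⟨a1, a2⟩ := abs_lt.1 hx1
  obtain ⟨a3, a4⟩ := abs_lt.1 hx2
  have hp := Real.pi_gt_three
  have hp2 := Real.pi_pos
  have hk0 : 0 ≤ k := by
    rcases hK with h | h <;> · rw [h] at hk; push_cast at hk; linarith
  have hk1 : k ≤ 1 / 4 := by
    rcases hK with h | h <;> · rw [h] at hk; push_cast at hk; linarith
  rw [pp_eq_nml he, mem_hlx_nml ⟨by linarith, by linarith⟩]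
  constructor
  · rintro ⟨m, hm⟩
    have h1 : x.2 = Real.pi * (b + k * U - n + 2 * m) + Real.pi * (k * (x.1 - U)) := by linarith
    have h2 : |k * (x.1 - U)| < 1 / 60 := by
      rw [abs_mul, abs_of_nonneg hk0]
      nlinarith [abs_nonneg (x.1 - (U : ℝ))]
    obtain ⟨b1, b2⟩ := abs_lt.1 h2
    have h3 : ((B + K * U - 12 * n + 24 * m : ℤ) : ℝ) = 12 * (b + k * U - n + 2 * m) := by
      push_cast
      rw [← hb, ← hk]
      ring
    have h4 : b + k * U - n + 2 * m < 1 / 12 := by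
      by_contra h
      rw [not_lt] at h
      nlinarith
    have h5 : -(1 / 12) < b + k * U - n + 2 * m := by
      by_contra h
      rw [not_lt] at h
      nlinarith
    have h6 : B + K * U - 12 * n + 24 * m < 1 := by
      have : ((B + K * U - 12 * n + 24 * m : ℤ) : ℝ) < 1 := by
        rw [h3]
        linarith
      exact_mod_cast this
    have h7 : -1 < B + K * U - 12 * n + 24 * m := by
      have : (-1 : ℝ) < ((B + K * U - 12 * n + 24 * m : ℤ) : ℝ) := by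
        rw [h3]
        linarith
      exact_mod_cast this
    have h8 : B + K * U - 12 * n + 24 * m = 0 := by linarith
    refine ⟨⟨-m, by linarith⟩, ?_⟩
    rw [h8] at h3
    have h9 : b + k * U - n + 2 * m = 0 := by
      push_cast at h3
      linarith
    rw [h1, h9]
    ring
  · rintro ⟨⟨m, hm⟩, hx⟩
    refine ⟨-m, ?_⟩
    have h3 : ((B + K * U - 12 * n : ℤ) : ℝ) = ((24 * m : ℤ) : ℝ) := by rw [hm]
    push_cast at h3
    rw [← hb, ← hk] at h3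
    have h4 : b + k * U - n - 2 * m = 0 := by linarith
    push_cast
    rw [hx]
    linear_combination (-Real.pi) * h4

theorem abs_Mf_le {u : ℝ} (hu : u ∈ Icc (0 : ℝ) 12) : |Mf u| ≤ 2 := by
  rw [abs_le]
  constructor
  · rw [← Mf_zero]
    exact strictMono_Mf.monotone hu.1
  · rw [← Mf_twelve]
    exact strictMono_Mf.monotone hu.2

/-- points of the skeleton with `im = 0` off the poles lie on a helix -/
theorem off_pole {w : ℂ × ℝ} (hw : w ∈ Skl) (him : w.1.im = 0) (h0 : w.1 ≠ 0) :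
    ∃ b k : ℝ, ((b = 1 / 2 ∧ k = 1 / 6) ∨ (b = 1 / 2 ∧ k = 1 / 4) ∨ (b = -1 / 2 ∧ k = 1 / 4) ∨ (b = -1 / 2 ∧ k = 1 / 6)) ∧
      ∃ u ∈ Icc (0 : ℝ) 12, ∃ n : ℤ, b + k * u = n ∧ w = nml (exp ((Real.pi * n : ℝ) * I), Mf u) := by
  have hS : w ∈ Sph := Skl_subset hw
  have key : ∀ b k : ℝ, w ∈ hlx b k → ∃ u ∈ Icc (0 : ℝ) 12, ∃ n : ℤ, b + k * u = n ∧
      w = nml (exp ((Real.pi * n : ℝ) * I), Mf u) := by
    intro b k h
    obtain ⟨-, u, hu, h1, h2⟩ := (mem_hlx hS b k).1 h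
    have h3 : Real.sin (Real.pi * (b + k * u)) = 0 := by
      have h4 := congrArg Complex.im h1
      rw [Complex.im_ofReal_mul, Complex.exp_ofReal_mul_I_im, him] at h4
      exact (mul_eq_zero.1 h4.symm).resolve_left (norm_ne_zero_iff.2 h0)
    obtain ⟨n, hn⟩ := Real.sin_eq_zero_iff.1 h3
    have h5 : b + k * u = n := by
      have hp := Real.pi_pos
      have : Real.pi * (b + k * u) = Real.pi * n := by linarith
      exact mul_left_cancel₀ hp.ne' this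
    refine ⟨u, hu, n, h5, ?_⟩
    rw [eq_nml_iff hS]
    rw [h5] at h1
    exact ⟨h1, h2, h0⟩
  rw [Skl_eq] at hw
  rcases hw with (((h | h) | h) | h) | h
  · exact ⟨1 / 2, 1 / 6, Or.inl ⟨rfl, rfl⟩, key _ _ h⟩
  · exact ⟨1 / 2, 1 / 4, Or.inr (Or.inl ⟨rfl, rfl⟩), key _ _ h⟩
  · exact ⟨-1 / 2, 1 / 4, Or.inr (Or.inr (Or.inl ⟨rfl, rfl⟩)), key _ _ h⟩
  · exact ⟨-1 / 2, 1 / 6, Or.inr (Or.inr (Or.inr ⟨rfl, rfl⟩)), key _ _ h⟩
  · exact absurd (Complex.ext h.2.1 him) h0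

end NEARx

open NEARx in
theorem t_NEAR : S_NEAR := by
  intro w hw him h0
  obtain ⟨b, k, hbk, u, hu, n, hn, hwn⟩ := off_pole hw him h0
  obtain ⟨e, he, hen⟩ := exists_sign n
  have hu1 := hu.1
  have hu2 := hu.2
  -- the height is an integer
  have hU : ∃ U : ℤ, u = U ∧ 1 ≤ U ∧ U ≤ 11 ∧
      (((b = 1 / 2 ∧ k = 1 / 6) ∧ 6 + 2 * U - 12 * n = 0) ∨ ((b = 1 / 2 ∧ k = 1 / 4) ∧ 6 + 3 * U - 12 * n = 0) ∨
        ((b = -1 / 2 ∧ k = 1 / 4) ∧ -6 + 3 * U - 12 * n = 0) ∨ ((b = -1 / 2 ∧ k = 1 / 6) ∧ -6 + 2 * U - 12 * n = 0)) := by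
    rcases hbk with ⟨rfl, rfl⟩ | ⟨rfl, rfl⟩ | ⟨rfl, rfl⟩ | ⟨rfl, rfl⟩
    · have e1 : u = ((6 * n - 3 : ℤ) : ℝ) := by push_cast; linarith
      have e2 : (0 : ℝ) ≤ ((6 * n - 3 : ℤ) : ℝ) := by rw [← e1]; exact hu1
      have e3 : ((6 * n - 3 : ℤ) : ℝ) ≤ 12 := by rw [← e1]; exact hu2
      have e4 : 0 ≤ 6 * n - 3 := by exact_mod_cast e2
      have e5 : 6 * n - 3 ≤ 12 := by exact_mod_cast e3
      exact ⟨6 * n - 3, e1, by omega, by omega, Or.inl ⟨⟨rfl, rfl⟩, by ring⟩⟩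
    · have e1 : u = ((4 * n - 2 : ℤ) : ℝ) := by push_cast; linarith
      have e2 : (0 : ℝ) ≤ ((4 * n - 2 : ℤ) : ℝ) := by rw [← e1]; exact hu1
      have e3 : ((4 * n - 2 : ℤ) : ℝ) ≤ 12 := by rw [← e1]; exact hu2
      have e4 : 0 ≤ 4 * n - 2 := by exact_mod_cast e2
      have e5 : 4 * n - 2 ≤ 12 := by exact_mod_cast e3
      exact ⟨4 * n - 2, e1, by omega, by omega, Or.inr (Or.inl ⟨⟨rfl, rfl⟩, by ring⟩)⟩
    · have e1 : u = ((4 * n + 2 : ℤ) : ℝ) := by push_cast; linarith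
      have e2 : (0 : ℝ) ≤ ((4 * n + 2 : ℤ) : ℝ) := by rw [← e1]; exact hu1
      have e3 : ((4 * n + 2 : ℤ) : ℝ) ≤ 12 := by rw [← e1]; exact hu2
      have e4 : 0 ≤ 4 * n + 2 := by exact_mod_cast e2
      have e5 : 4 * n + 2 ≤ 12 := by exact_mod_cast e3
      exact ⟨4 * n + 2, e1, by omega, by omega, Or.inr (Or.inr (Or.inl ⟨⟨rfl, rfl⟩, by ring⟩))⟩
    · have e1 : u = ((6 * n + 3 : ℤ) : ℝ) := by push_cast; linarith
      have e2 : (0 : ℝ) ≤ ((6 * n + 3 : ℤ) : ℝ) := by rw [← e1]; exact hu1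
      have e3 : ((6 * n + 3 : ℤ) : ℝ) ≤ 12 := by rw [← e1]; exact hu2
      have e4 : 0 ≤ 6 * n + 3 := by exact_mod_cast e2
      have e5 : 6 * n + 3 ≤ 12 := by exact_mod_cast e3
      exact ⟨6 * n + 3, e1, by omega, by omega, Or.inr (Or.inr (Or.inr ⟨⟨rfl, rfl⟩, by ring⟩))⟩
  obtain ⟨U, rfl, hU1, hU2, hcases⟩ := hU
  have hk0 : 0 < k := by
    rcases hbk with ⟨-, rfl⟩ | ⟨-, rfl⟩ | ⟨-, rfl⟩ | ⟨-, rfl⟩ <;> norm_num
  have hp := Real.pi_pos
  refine ⟨e, U, 1 / (Real.pi * k), 1 / 20, he, ?_, by norm_num, by norm_num, ?_⟩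
  · rw [hwn, pp_eq_nml hen]
    simp
  · intro x hx1 hx2
    have c1 := one_hlx hen hU1 hU2 hx1 hx2 (b := 1 / 2) (k := 1 / 6) (B := 6) (K := 2) (by norm_num) (by norm_num)
      (Or.inl rfl)
    have c2 := one_hlx hen hU1 hU2 hx1 hx2 (b := 1 / 2) (k := 1 / 4) (B := 6) (K := 3) (by norm_num) (by norm_num)
      (Or.inr rfl)
    have c3 := one_hlx hen hU1 hU2 hx1 hx2 (b := -1 / 2) (k := 1 / 4) (B := -6) (K := 3) (by norm_num) (by norm_num)
      (Or.inr rfl)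
    have c4 := one_hlx hen hU1 hU2 hx1 hx2 (b := -1 / 2) (k := 1 / 6) (B := -6) (K := 2) (by norm_num) (by norm_num)
      (Or.inl rfl)
    have hp3 := Real.pi_gt_three
    obtain ⟨a3, a4⟩ := abs_lt.1 hx2
    have c5 : pp e x ∉ {v : ℂ × ℝ | v ∈ Sph ∧ v.1.re = 0 ∧ 2 * ‖v.1‖ ≤ |v.2|} := by
      rintro ⟨h1, h2, -⟩
      rw [pp_eq_nml hen, nml_exp] at h2
      dsimp only at h2
      rw [Complex.div_ofReal_re, Complex.exp_ofReal_mul_I_re] at h2
      have h3 : Real.cos (Real.pi * n + x.2) = 0 :=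
        (div_eq_zero_iff.1 h2).resolve_right (sqrt_pos_aux _).ne'
      have h4 : Real.cos (Real.pi * n + x.2) = (-1) ^ n * Real.cos x.2 := by
        rw [Real.cos_add, mul_comm Real.pi, Real.cos_int_mul_pi, Real.sin_int_mul_pi]
        ring
      rw [h4] at h3
      have h5 : 0 < Real.cos x.2 := Real.cos_pos_of_mem_Ioo ⟨by linarith, by linarith⟩
      rcases mul_eq_zero.1 h3 with h6 | h6
      · exact (zpow_ne_zero n (by norm_num : (-1 : ℝ) ≠ 0)) h6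
      · exact h5.ne' h6
    have c6 : pp e x ∈ Skl ↔ x.2 = Real.pi * k * (x.1 - U) := by
      rw [Skl_eq]
      constructor
      · intro h
        have h' : pp e x ∈ hlx (1 / 2) (1 / 6) ∨ pp e x ∈ hlx (1 / 2) (1 / 4) ∨ pp e x ∈ hlx (-1 / 2) (1 / 4) ∨
            pp e x ∈ hlx (-1 / 2) (1 / 6) := by
          rcases h with (((h | h) | h) | h) | h
          · exact Or.inl h
          · exact Or.inr (Or.inl h)
          · exact Or.inr (Or.inr (Or.inl h))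
          · exact Or.inr (Or.inr (Or.inr h))
          · exact absurd h c5
        rw [c1, c2, c3, c4] at h'
        rcases hcases with ⟨⟨rfl, rfl⟩, hn'⟩ | ⟨⟨rfl, rfl⟩, hn'⟩ | ⟨⟨rfl, rfl⟩, hn'⟩ | ⟨⟨rfl, rfl⟩, hn'⟩ <;>
        rcases h' with ⟨⟨m, hm⟩, h6⟩ | ⟨⟨m, hm⟩, h6⟩ | ⟨⟨m, hm⟩, h6⟩ | ⟨⟨m, hm⟩, h6⟩ <;>
        first
        | exact h6
        | (exfalso; omega)
      · intro h
        rcases hcases with ⟨⟨rfl, rfl⟩, hn'⟩ | ⟨⟨rfl, rfl⟩, hn'⟩ | ⟨⟨rfl, rfl⟩, hn'⟩ | ⟨⟨rfl, rfl⟩, hn'⟩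
        · exact Or.inl (Or.inl (Or.inl (Or.inl (c1.2 ⟨⟨0, by linarith⟩, h⟩))))
        · exact Or.inl (Or.inl (Or.inl (Or.inr (c2.2 ⟨⟨0, by linarith⟩, h⟩))))
        · exact Or.inl (Or.inl (Or.inr (c3.2 ⟨⟨0, by linarith⟩, h⟩)))
        · exact Or.inl (Or.inr (c4.2 ⟨⟨0, by linarith⟩, h⟩))
    rw [c6]
    have hpk : 0 < Real.pi * k := mul_pos hp hk0
    constructor
    · intro h
      rw [h]
      field_simp
      ring
    · intro h
      rw [h]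
      field_simp
      ring

end

end Pool.Agent.LIX.G
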