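import Pool.Agent.LIX.StmtsG

/-!
# LIX, block G: charts at boundary points off the skeleton (OUT)
-/

set_option autoImplicit false

namespace Pool.Agent.LIX.G

open Set Metric Complex

noncomputable section

theorem t_OUT : M_OUT := by
  intro hG hP p hp hb hs
  rw [collar_TT.bd] at hb
  obtain ⟨⟨v, l⟩, ⟨hv, hl⟩, rfl⟩ := hb
  have hl' : l = 0 := hl
  subst hl'
  have hv' : v ∈ Sph := hv
  have him : v.1.im = 0 := (collar_TT.surf v hv' 0 ⟨le_rfl, zero_le_one⟩).1 hp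
  have hsk : v ∉ Skl := by
    intro h
    obtain ⟨i, hi⟩ := mem_iUnion.1 h
    obtain ⟨j, hj⟩ := mem_iUnion.1 hi
    refine hs (mem_iUnion.2 ⟨i, mem_iUnion.2 ⟨j, ?_⟩⟩)
    rw [collar_TT.edge i j]
    exact ⟨v, hj, rfl⟩
  have hre : v.1.re ≠ 0 := by
    intro h
    refine hsk ?_
    rw [Skl_eq]
    refine Or.inr ⟨hv', h, ?_⟩
    have h0 : v.1 = 0 := Complex.ext h him
    rw [h0]
    simp
  obtain ⟨e, he, hepos⟩ : ∃ e : ℝ, (e = 1 ∨ e = -1) ∧ 0 < e * v.1.re := by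
    rcases lt_or_gt_of_ne hre with h | h
    · exact ⟨-1, Or.inr rfl, by linarith⟩
    · exact ⟨1, Or.inl rfl, by linarith⟩
  obtain ⟨hk, hpp, h1, h2⟩ := hP e he
  have hSo : IsOpen (Sklᶜ : Set (ℂ × ℝ)) := isCompact_Skl.isClosed.isOpen_compl
  have hNo : IsOpen {w : ℂ × ℝ | 0 < e * w.1.re} := isOpen_lt continuous_const (by fun_prop)
  have hWo : IsOpen {x : ℝ × ℝ | |x.2| < Real.pi / 2} := isOpen_lt (by fun_prop) continuous_const
  refine hG (ℂ × ℂ) TT HT VT col collar_TT v ({w | 0 < e * w.1.re} ∩ Sklᶜ)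
    ({x | |x.2| < Real.pi / 2} ∩ (pp e) ⁻¹' Sklᶜ) (kk e) (pp e) ∅ hv' ⟨hepos, hsk⟩
    (hNo.inter hSo) (hWo.inter (hSo.preimage hpp))
    (hk.mono fun w hw => hw.2.1) hpp.continuousOn ?_ ?_
  · rintro w ⟨hw, hw1, hw2⟩
    have hw1' : 0 < e * w.1.re := hw1
    obtain ⟨h3, h4⟩ := h2 w hw hw1'
    have h5 := (h1 (kk e w) h3).2.2.2
    rw [h4] at h5
    refine ⟨⟨h3, ?_⟩, h4, h5, fun l => ?_⟩
    · change pp e (kk e w) ∈ Sklᶜ
      rw [h4]
      exact hw2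
    · constructor
      · rintro ⟨h6, -⟩
        exact hw2 h6
      · intro h6
        exact absurd h6 (notMem_empty _)
  · rintro x ⟨hx1, hx2⟩
    obtain ⟨h3, h4, h5, -⟩ := h1 x hx1
    exact ⟨⟨h3, h4, hx2⟩, h5⟩

end

end Pool.Agent.LIX.G
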