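import Pool.Agent.LIX.StmtsG

/-!
# LIX, block G: the peripheral loops are essential (PER)
-/

set_option autoImplicit false

namespace Pool.Agent.LIX.G

open Set Metric Complex

noncomputable section

namespace PERx

theorem s2 : (0 : ℝ) < √2 := Real.sqrt_pos.2 (by norm_num)

theorem norm_HT {p : ℂ × ℂ} (h3 : p ∈ S3) (he : ‖p.1‖ = ‖p.2‖) : ‖p.1‖ = Real.cos (Real.pi / 4) ∧
    ‖p.2‖ = Real.cos (Real.pi / 4) := by
  have h : ‖p.1‖ ^ 2 + ‖p.2‖ ^ 2 = 1 := h3
  have hc : 0 ≤ Real.cos (Real.pi / 4) := by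
    rw [Real.cos_pi_div_four]
    positivity
  have h1 : ‖p.1‖ = Real.cos (Real.pi / 4) := by
    have e1 : ‖p.1‖ ^ 2 = Real.cos (Real.pi / 4) ^ 2 := by
      rw [Real.cos_pi_div_four, div_pow, Real.sq_sqrt (by norm_num)]
      rw [← he] at h
      linarith
    exact (sq_eq_sq₀ (norm_nonneg _) hc).1 e1
  exact ⟨h1, by rw [← he]; exact h1⟩

theorem convex_Disk : Convex ℝ Disk := by
  have h : Disk = closedBall (0 : ℂ) 1 := by
    ext z
    rw [mem_closedBall_zero_iff]
    exact Iff.rfl
  rw [h]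
  exact convex_closedBall _ _

end PERx

open PERx in
theorem t_PER : M_PER := by
  intro hL hU hE hC η hη hη01
  rintro ⟨g, hg, hgH, hgb⟩
  have hcos : 0 < Real.cos (Real.pi / 4) := by
    rw [Real.cos_pi_div_four]
    have := s2
    positivity
  have hn : ∀ w ∈ Disk, ‖(g w).1‖ = Real.cos (Real.pi / 4) ∧ ‖(g w).2‖ = Real.cos (Real.pi / 4) :=
    fun w hw => norm_HT (hgH w hw).1.1 (hgH w hw).2
  have hsub : sphere (0 : ℂ) 1 ⊆ Disk := fun w hw => (mem_sphere_zero_iff_norm.1 hw).le
  obtain ⟨θ, hθ, hθe⟩ := hL ℂ Disk (fun w => (g w).1) convex_Disk (continuous_fst.comp_continuousOn hg)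
    (fun w hw => by
      rw [← norm_ne_zero_iff, (hn w hw).1]
      exact hcos.ne')
  obtain ⟨φ, hφ, hφe⟩ := hL ℂ Disk (fun w => (g w).2) convex_Disk (continuous_snd.comp_continuousOn hg)
    (fun w hw => by
      rw [← norm_ne_zero_iff, (hn w hw).2]
      exact hcos.ne')
  have hcosC : ((Real.cos (Real.pi / 4) : ℝ) : ℂ) ≠ 0 := Complex.ofReal_ne_zero.2 hcos.ne'
  -- values on the circle
  have hval : ∀ w ∈ sphere (0 : ℂ) 1,
      g w = ((Real.cos (Real.pi / 4) : ℂ) * exp (((((1 + η w) / 5) * (w.im + w.re) : ℝ) : ℂ) * I),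
        (Real.cos (Real.pi / 4) : ℂ) * exp (((((1 + η w) / 5) * (w.im - w.re) : ℝ) : ℂ) * I)) := by
    intro w hw
    rw [hgb w (mem_sphere_zero_iff_norm.1 hw), col_eq]
    unfold kap
    dsimp only
    have e1 : ((((1 + η w) / 5 : ℝ) : ℂ) * ((w.re : ℝ) : ℂ)) = (((1 + η w) / 5 * w.re : ℝ) : ℂ) := by
      push_cast
      ring
    rw [e1, Complex.ofReal_re, Complex.ofReal_im, sub_zero, add_zero]
    refine Prod.ext ?_ ?_
    · dsimp only
      congr 3
      push_cast
      ring
    · dsimp only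
      congr 3
      push_cast
      ring
  have hpre : IsPreconnected (sphere (0 : ℂ) 1) := by
    apply isPreconnected_sphere
    rw [Complex.rank_real_complex]
    exact Cardinal.one_lt_two
  have hr : ContinuousOn (fun w : ℂ => (1 + η w) / 5) (sphere 0 1) := (continuousOn_const.add hη).div_const 5
  obtain ⟨n, hnn⟩ := hU ℂ (sphere 0 1) θ (fun w => ((1 + η w) / 5) * (w.im + w.re)) hpre (hθ.mono hsub)
    (hr.mul (by fun_prop)) (fun w hw => by
      have h1 := hθe w (hsub hw)
      rw [(hn w (hsub hw)).1, hval w hw] at h1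
      exact (mul_left_cancel₀ hcosC h1).symm)
  obtain ⟨m, hmm⟩ := hU ℂ (sphere 0 1) φ (fun w => ((1 + η w) / 5) * (w.im - w.re)) hpre (hφ.mono hsub)
    (hr.mul (by fun_prop)) (fun w hw => by
      have h1 := hφe w (hsub hw)
      rw [(hn w (hsub hw)).2, hval w hw] at h1
      exact (mul_left_cancel₀ hcosC h1).symm)
  set G : ℂ → ℂ := fun w => (((((θ w - 2 * Real.pi * n) - (φ w - 2 * Real.pi * m)) / 2 : ℝ) : ℂ) +
    ((((θ w - 2 * Real.pi * n) + (φ w - 2 * Real.pi * m)) / 2 : ℝ) : ℂ) * I) with hG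
  have hGc : ContinuousOn G Disk := by
    have a1 : ContinuousOn (fun w => ((θ w - 2 * Real.pi * n) - (φ w - 2 * Real.pi * m)) / 2) Disk :=
      ((hθ.sub continuousOn_const).sub (hφ.sub continuousOn_const)).div_const 2
    have a2 : ContinuousOn (fun w => ((θ w - 2 * Real.pi * n) + (φ w - 2 * Real.pi * m)) / 2) Disk :=
      ((hθ.sub continuousOn_const).add (hφ.sub continuousOn_const)).div_const 2
    exact (Complex.continuous_ofReal.comp_continuousOn a1).add
      ((Complex.continuous_ofReal.comp_continuousOn a2).mul continuousOn_const)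
  have hG0 : ∀ w ∈ Disk, G w ≠ 0 := by
    intro w hw h0
    have hre := congrArg Complex.re h0
    have him := congrArg Complex.im h0
    rw [hG] at hre him
    simp only [Complex.add_re, Complex.add_im, Complex.ofReal_re, Complex.ofReal_im, Complex.mul_re, Complex.mul_im,
      Complex.I_re, Complex.I_im, Complex.zero_re, Complex.zero_im, mul_zero, mul_one, sub_zero, add_zero,
      zero_add] at hre him
    have h1 : θ w = 2 * Real.pi * n := by linarith
    have h2 : φ w = 2 * Real.pi * m := by linarith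
    have key : ∀ k : ℤ, exp (((2 * Real.pi * k : ℝ) : ℂ) * I) = 1 := by
      intro k
      rw [Complex.exp_eq_one_iff]
      refine ⟨k, ?_⟩
      push_cast
      ring
    have h3 := hθe w hw
    have h4 := hφe w hw
    rw [(hn w hw).1, h1, key, mul_one] at h3
    rw [(hn w hw).2, h2, key, mul_one] at h4
    have h5 : g w = kap (0, 0) := by
      unfold kap
      refine Prod.ext ?_ ?_
      · rw [h3]
        simp
      · rw [h4]
        simp
    have h6 : nrm ((0 : ℂ), (0 : ℝ)) = 0 := by
      unfold nrm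
      simp
    have h7 := (hgH w hw).1
    rw [h5, kap_mem_body (by rw [h6]; norm_num), h6] at h7
    norm_num at h7
  obtain ⟨φ', hφ', hφ'e⟩ := hE G 0 hGc hG0
  refine hC 0 1 one_pos ⟨?_, φ', hφ', ?_⟩
  · intro h
    rw [mem_sphere_zero_iff_norm, norm_zero] at h
    exact zero_ne_one h
  · intro w hw
    have h1 := hφ'e w hw
    have hw1 : ‖w‖ = 1 := mem_sphere_zero_iff_norm.1 hw
    have h2 : G w = (((1 + η w) / 5 : ℝ) : ℂ) * w := by
      rw [hG]
      dsimp only
      rw [hnn w hw, hmm w hw]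
      refine Complex.ext ?_ ?_
      · simp only [Complex.add_re, Complex.ofReal_re, Complex.ofReal_im, Complex.mul_re,
          Complex.I_re, Complex.I_im, mul_zero, mul_one, sub_zero, add_zero, zero_mul]
        ring
      · simp only [Complex.add_im, Complex.ofReal_re, Complex.ofReal_im, Complex.mul_im,
          Complex.I_re, Complex.I_im, mul_zero, mul_one, add_zero, zero_mul, zero_add]
        ring
    have h3 : 0 < (1 + η w) / 5 := by
      have := (hη01 w hw).1
      linarith
    have h3' : (((1 + η w) / 5 : ℝ) : ℂ) ≠ 0 := Complex.ofReal_ne_zero.2 h3.ne'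
    rw [sub_zero, h2, norm_mul, hw1, mul_one, Complex.norm_real, Real.norm_eq_abs, abs_of_pos h3] at h1
    rw [sub_zero, hw1, Complex.ofReal_one, one_mul]
    exact mul_left_cancel₀ h3' h1

end

end Pool.Agent.LIX.G
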