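import Pool.Agent.LIX.StmtsG

/-!
# LIX, block G: charts at the poles (POL)
-/

set_option autoImplicit false

namespace Pool.Agent.LIX.G

open Set Metric Complex

noncomputable section

namespace POLx

theorem abs_Mf_le {u : ℝ} (hu : u ∈ Icc (0 : ℝ) 12) : |Mf u| ≤ 2 := by
  rw [abs_le]
  constructor
  · rw [← Mf_zero]
    exact strictMono_Mf.monotone hu.1
  · rw [← Mf_twelve]
    exact strictMono_Mf.monotone hu.2

theorem hlx_slope {w : ℂ × ℝ} (hw : w ∈ Sph) {b k : ℝ} (h : w ∈ hlx b k) : |w.2| ≤ 2 * ‖w.1‖ := by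
  obtain ⟨-, u, hu, -, h2⟩ := (mem_hlx hw b k).1 h
  rw [h2, abs_mul, abs_of_nonneg (norm_nonneg _)]
  have := abs_Mf_le hu
  nlinarith [norm_nonneg w.1]

theorem mem_Skl_pole {s : ℝ} (hs : s = 1 ∨ s = -1) {w : ℂ × ℝ} (hw : w ∈ Sph) (h : 2 * ‖w.1‖ < s * w.2) :
    w ∈ Skl ↔ w.1.re = 0 := by
  have h1 : 2 * ‖w.1‖ < |w.2| := by
    rcases hs with rfl | rfl
    · rw [one_mul] at h
      exact h.trans_le (le_abs_self _)
    · have := neg_abs_le w.2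
      linarith
  rw [Skl_eq]
  constructor
  · rintro ((((h2 | h2) | h2) | h2) | h2)
    · have := hlx_slope hw h2
      linarith
    · have := hlx_slope hw h2
      linarith
    · have := hlx_slope hw h2
      linarith
    · have := hlx_slope hw h2
      linarith
    · exact h2.2.1
  · intro h2
    exact Or.inr ⟨hw, h2, h1.le⟩

theorem norm_sq_re_im (z : ℂ) : ‖z‖ ^ 2 = z.re ^ 2 + z.im ^ 2 := by
  rw [← Complex.normSq_eq_norm_sq, Complex.normSq_apply]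
  ring

end POLx

open POLx in
theorem t_POL : M_POL := by
  intro hG s hs
  have hss : s * s = 1 := by
    rcases hs with rfl | rfl <;> norm_num
  refine hG (ℂ × ℂ) TT HT VT col collar_TT (0, s) {w | 2 * ‖w.1‖ < s * w.2}
    {x | 5 * (x.1 ^ 2 + x.2 ^ 2) < 1} (fun w => (w.1.re, w.1.im))
    (fun x => (⟨x.1, x.2⟩, s * √(1 - x.1 ^ 2 - x.2 ^ 2))) {v | v.1 = 0 ∧ v.2.2 = 0} ?_ ?_ ?_ ?_ ?_ ?_ ?_ ?_
  · change ‖(0 : ℂ)‖ ^ 2 + s ^ 2 = 1
    rw [norm_zero]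
    nlinarith
  · change 2 * ‖(0 : ℂ)‖ < s * s
    rw [norm_zero, hss]
    norm_num
  · exact isOpen_lt (by fun_prop) (by fun_prop)
  · exact isOpen_lt (by fun_prop) continuous_const
  · fun_prop
  · have h1 : (fun x : ℝ × ℝ => ((⟨x.1, x.2⟩ : ℂ), s * √(1 - x.1 ^ 2 - x.2 ^ 2))) =
        fun x : ℝ × ℝ => ((x.1 : ℂ) + (x.2 : ℂ) * I, s * √(1 - x.1 ^ 2 - x.2 ^ 2)) := by
      funext x
      refine Prod.ext (Complex.ext ?_ ?_) rfl
      · simp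
      · simp
    rw [h1]
    apply Continuous.continuousOn
    fun_prop
  · rintro w ⟨hw, hwN⟩
    have hwN' : 2 * ‖w.1‖ < s * w.2 := hwN
    have hw' : ‖w.1‖ ^ 2 + w.2 ^ 2 = 1 := hw
    have h1 := norm_sq_re_im w.1
    have h0 := norm_nonneg w.1
    have h2 : (s * w.2) ^ 2 = w.2 ^ 2 := by
      rw [mul_pow, pow_two s, hss, one_mul]
    have h3 : 0 < s * w.2 := by linarith
    refine ⟨?_, ?_, Iff.rfl, fun l => ?_⟩
    · change 5 * (w.1.re ^ 2 + w.1.im ^ 2) < 1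
      rw [← h1]
      nlinarith
    · refine Prod.ext (Complex.ext rfl rfl) ?_
      change s * √(1 - w.1.re ^ 2 - w.1.im ^ 2) = w.2
      have h4 : 1 - w.1.re ^ 2 - w.1.im ^ 2 = (s * w.2) ^ 2 := by
        rw [h2]
        linarith
      rw [h4, Real.sqrt_sq h3.le, ← mul_assoc, hss, one_mul]
    · rw [mem_Skl_pole hs hw hwN']
      exact Iff.rfl
  · intro x hx
    have hx' : 5 * (x.1 ^ 2 + x.2 ^ 2) < 1 := hx
    have h1 : ‖(⟨x.1, x.2⟩ : ℂ)‖ ^ 2 = x.1 ^ 2 + x.2 ^ 2 := norm_sq_re_im _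
    have h2 : 0 < 1 - x.1 ^ 2 - x.2 ^ 2 := by nlinarith
    have h3 := Real.sqrt_pos.2 h2
    have h4 := Real.sq_sqrt h2.le
    have h0 := norm_nonneg (⟨x.1, x.2⟩ : ℂ)
    refine ⟨⟨?_, ?_⟩, rfl⟩
    · change ‖(⟨x.1, x.2⟩ : ℂ)‖ ^ 2 + (s * √(1 - x.1 ^ 2 - x.2 ^ 2)) ^ 2 = 1
      rw [h1, mul_pow, h4, pow_two s, hss]
      ring
    · change 2 * ‖(⟨x.1, x.2⟩ : ℂ)‖ < s * (s * √(1 - x.1 ^ 2 - x.2 ^ 2))
      rw [← mul_assoc, hss, one_mul]
      nlinarith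

end

end Pool.Agent.LIX.G
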