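import Pool.Agent.LIX.StmtsG

/-!
# LIX, block G: coordinates of the sphere off the poles (PP)
-/

set_option autoImplicit false

namespace Pool.Agent.LIX.G

open Set Metric Complex

noncomputable section

namespace PPx

theorem nrm_pp {e : ℝ} (he : e = 1 ∨ e = -1) (t m : ℝ) :
    nrm ((e : ℂ) * exp ((t : ℝ) * I), m) = √(1 + m ^ 2) := by
  unfold nrm
  dsimp only
  rw [norm_mul, Complex.norm_exp_ofReal_mul_I, Complex.norm_real, Real.norm_eq_abs]
  rcases he with rfl | rfl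
  · simp
  · simp

theorem pp_eq {e : ℝ} (he : e = 1 ∨ e = -1) (x : ℝ × ℝ) :
    pp e x = (((e : ℂ) * exp ((x.2 : ℝ) * I)) / (√(1 + Mf x.1 ^ 2) : ℝ), Mf x.1 / √(1 + Mf x.1 ^ 2)) := by
  unfold pp nml
  rw [nrm_pp he]

theorem norm_pp {e : ℝ} (he : e = 1 ∨ e = -1) (x : ℝ × ℝ) :
    ‖(pp e x).1‖ = (√(1 + Mf x.1 ^ 2))⁻¹ := by
  rw [pp_eq he]
  dsimp only
  rw [norm_div, norm_mul, Complex.norm_exp_ofReal_mul_I, Complex.norm_real, Complex.norm_real, Real.norm_eq_abs,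
    Real.norm_eq_abs, abs_of_pos (sqrt_pos_aux _)]
  rcases he with rfl | rfl
  · simp
  · simp

theorem pp_mem {e : ℝ} (he : e = 1 ∨ e = -1) (x : ℝ × ℝ) : pp e x ∈ Sph := by
  unfold pp
  exact nml_mem (by rw [nrm_pp he]; exact (sqrt_pos_aux _).ne')

theorem e_sq {e : ℝ} (he : e = 1 ∨ e = -1) : e * e = 1 := by
  rcases he with rfl | rfl <;> norm_num

theorem e_mul_pp {e : ℝ} (he : e = 1 ∨ e = -1) (x : ℝ × ℝ) :
    (e : ℂ) * (pp e x).1 = ((√(1 + Mf x.1 ^ 2))⁻¹ : ℝ) * exp ((x.2 : ℝ) * I) := by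
  rw [pp_eq he]
  dsimp only
  have h1 : (e : ℂ) * (e : ℂ) = 1 := by
    rw [← Complex.ofReal_mul, e_sq he, Complex.ofReal_one]
  rw [div_eq_mul_inv, Complex.ofReal_inv]
  linear_combination (exp ((x.2 : ℝ) * I) * ((√(1 + Mf x.1 ^ 2) : ℝ) : ℂ)⁻¹) * h1

theorem arg_e_pp {e : ℝ} (he : e = 1 ∨ e = -1) (x : ℝ × ℝ) (hx : |x.2| < Real.pi / 2) :
    arg ((e : ℂ) * (pp e x).1) = x.2 := by
  have h1 := abs_lt.1 hx
  have hp := Real.pi_pos
  rw [e_mul_pp he, Complex.arg_real_mul _ (inv_pos.2 (sqrt_pos_aux _)), Complex.arg_exp_mul_I,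
    toIocMod_eq_self]
  constructor <;> linarith

theorem re_e (e : ℝ) (z : ℂ) : ((e : ℂ) * z).re = e * z.re := Complex.re_ofReal_mul _ _

theorem im_e (e : ℝ) (z : ℂ) : ((e : ℂ) * z).im = e * z.im := Complex.im_ofReal_mul _ _

end PPx

open PPx in
theorem t_PP : S_PP := by
  intro e he
  refine ⟨?_, ?_, ?_, ?_⟩
  · intro w hw
    have hw' : 0 < e * w.1.re := hw
    apply ContinuousAt.continuousWithinAt
    have h0 : w.1 ≠ 0 := by
      intro h
      rw [h] at hw'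
      simp at hw'
    have h1 : ContinuousAt (fun w : ℂ × ℝ => MfIso.symm (w.2 / ‖w.1‖)) w := by
      refine continuous_MfIso_symm.continuousAt.comp ?_
      exact ContinuousAt.div (by fun_prop) (by fun_prop) (norm_ne_zero_iff.2 h0)
    have h2 : ContinuousAt (fun w : ℂ × ℝ => arg ((e : ℂ) * w.1)) w := by
      have h3 : ((e : ℂ) * w.1) ∈ slitPlane := Or.inl (by rw [re_e]; exact hw')
      exact ContinuousAt.comp (f := fun w : ℂ × ℝ => (e : ℂ) * w.1) (continuousAt_arg h3) (by fun_prop)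
    exact h1.prodMk h2
  · have h1 : pp e = fun x : ℝ × ℝ => (((e : ℂ) * exp ((x.2 : ℝ) * I)) / (√(1 + Mf x.1 ^ 2) : ℝ),
        Mf x.1 / √(1 + Mf x.1 ^ 2)) := funext (pp_eq he)
    rw [h1]
    have hc : Continuous fun x : ℝ × ℝ => Mf x.1 := continuous_Mf.comp continuous_fst
    have g1 : ∀ x : ℝ × ℝ, √(1 + Mf x.1 ^ 2) ≠ 0 := fun x => (sqrt_pos_aux _).ne'
    have g2 : ∀ x : ℝ × ℝ, ((√(1 + Mf x.1 ^ 2) : ℝ) : ℂ) ≠ 0 := fun x => Complex.ofReal_ne_zero.2 (g1 x)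
    have g3 : Continuous fun x : ℝ × ℝ => √(1 + Mf x.1 ^ 2) := by fun_prop
    refine Continuous.prodMk (Continuous.div ?_ ?_ g2) (Continuous.div hc g3 g1)
    · fun_prop
    · exact Complex.continuous_ofReal.comp g3
  · intro x hx
    have h1 := e_mul_pp he x
    have hs : 0 < (√(1 + Mf x.1 ^ 2))⁻¹ := inv_pos.2 (sqrt_pos_aux _)
    have hx' := abs_lt.1 hx
    have hp := Real.pi_pos
    refine ⟨pp_mem he x, ?_, ?_, ?_⟩
    · rw [← re_e, h1, re_e, Complex.exp_ofReal_mul_I_re]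
      exact mul_pos hs (Real.cos_pos_of_mem_Ioo ⟨hx'.1, hx'.2⟩)
    · unfold kk
      rw [arg_e_pp he x hx, norm_pp he]
      refine Prod.ext ?_ rfl
      change MfIso.symm ((pp e x).2 / (√(1 + Mf x.1 ^ 2))⁻¹) = x.1
      have h2 : (pp e x).2 / (√(1 + Mf x.1 ^ 2))⁻¹ = MfIso x.1 := by
        rw [pp_eq he, MfIso_apply]
        dsimp only
        rw [div_inv_eq_mul, div_mul_cancel₀ _ (sqrt_pos_aux _).ne']
      rw [h2, OrderIso.symm_apply_apply]
    · have h2 : e * (pp e x).1.im = (√(1 + Mf x.1 ^ 2))⁻¹ * Real.sin x.2 := by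
        rw [← im_e, h1, im_e, Complex.exp_ofReal_mul_I_im]
      have h3 : e ≠ 0 := by
        rcases he with rfl | rfl <;> norm_num
      constructor
      · intro h
        rw [h, mul_zero] at h2
        have h4 : Real.sin x.2 = 0 := by
          rcases mul_eq_zero.1 h2.symm with h5 | h5
          · exact absurd h5 hs.ne'
          · exact h5
        by_contra h5
        rcases lt_or_gt_of_ne h5 with h6 | h6
        · exact (Real.sin_neg_of_neg_of_neg_pi_lt h6 (by linarith)).ne h4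
        · exact (Real.sin_pos_of_pos_of_lt_pi h6 (by linarith)).ne' h4
      · intro h
        rw [h, Real.sin_zero, mul_zero] at h2
        exact (mul_eq_zero.1 h2).resolve_left h3
  · intro w hw hw2
    have h0 : w.1 ≠ 0 := by
      intro h
      rw [h] at hw2
      simp at hw2
    have h1 : 0 < ((e : ℂ) * w.1).re := by
      rw [re_e]
      exact hw2
    have h2 : |arg ((e : ℂ) * w.1)| < Real.pi / 2 := Complex.abs_arg_lt_pi_div_two_iff.2 (Or.inl h1)
    refine ⟨h2, ?_⟩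
    have h3 : 0 < ‖w.1‖ := norm_pos_iff.2 h0
    have hw' : ‖w.1‖ ^ 2 + w.2 ^ 2 = 1 := hw
    have h4 : Mf (kk e w).1 = w.2 / ‖w.1‖ := by
      unfold kk
      rw [← MfIso_apply]
      exact OrderIso.apply_symm_apply _ _
    have h5 : √(1 + (w.2 / ‖w.1‖) ^ 2) = ‖w.1‖⁻¹ := by
      rw [Real.sqrt_eq_iff_mul_self_eq (by positivity) (by positivity)]
      field_simp
      linarith
    have h6 : ‖(e : ℂ) * w.1‖ = ‖w.1‖ := by
      rw [norm_mul, Complex.norm_real, Real.norm_eq_abs]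
      rcases he with rfl | rfl
      · simp
      · simp
    have h7 : ((‖w.1‖ : ℝ) : ℂ) * exp ((arg ((e : ℂ) * w.1) : ℝ) * I) = (e : ℂ) * w.1 := by
      have := Complex.norm_mul_exp_arg_mul_I ((e : ℂ) * w.1)
      rw [h6] at this
      exact this
    have h8 : (e : ℂ) * (e : ℂ) = 1 := by
      rw [← Complex.ofReal_mul, e_sq he, Complex.ofReal_one]
    rw [pp_eq he, h4, h5]
    refine Prod.ext ?_ ?_
    · change (e : ℂ) * exp ((arg ((e : ℂ) * w.1) : ℝ) * I) / ((‖w.1‖⁻¹ : ℝ) : ℂ) = w.1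
      rw [Complex.ofReal_inv, div_inv_eq_mul]
      linear_combination (e : ℂ) * h7 + w.1 * h8
    · dsimp only
      rw [div_inv_eq_mul, div_mul_cancel₀ _ h3.ne']

end

end Pool.Agent.LIX.G
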