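import Pool.Agent.LIX.StmtsG

/-!
# LIX, block G: polar coordinates of the square minus the disk (QQ)
-/

set_option autoImplicit false

namespace Pool.Agent.LIX.G

open Set Metric Complex

noncomputable section

namespace QQx

/-- `max |cos a| |sin a|` -/
def mx (a : ℝ) : ℝ := max |Real.cos a| |Real.sin a|

theorem mx_le_one (a : ℝ) : mx a ≤ 1 := max_le (Real.abs_cos_le_one a) (Real.abs_sin_le_one a)

theorem mx_pos (a : ℝ) : 0 < mx a := by
  unfold mx
  rw [lt_max_iff, abs_pos, abs_pos]
  by_contra h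
  push Not at h
  have := Real.sin_sq_add_cos_sq a
  rw [h.1, h.2] at this
  norm_num at this

theorem continuous_mx : Continuous mx := by
  unfold mx
  fun_prop

theorem RR_eq (a : ℝ) : RR a = Real.pi / mx a := rfl

theorem RR_mul (a : ℝ) : RR a * mx a = Real.pi := by
  rw [RR_eq, div_mul_cancel₀ _ (mx_pos a).ne']

theorem pi_le_RR (a : ℝ) : Real.pi ≤ RR a := by
  have h1 := RR_mul a
  have h2 := mx_le_one a
  have h3 : 0 < RR a := by
    rw [RR_eq]
    exact div_pos Real.pi_pos (mx_pos a)
  nlinarith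

theorem continuous_RR : Continuous RR := by
  have h : RR = fun a => Real.pi / mx a := rfl
  rw [h]
  exact continuous_const.div continuous_mx fun a => (mx_pos a).ne'

/-- the radius -/
def rad (x : ℝ × ℝ) : ℝ := (1 - x.2) * (√2 / 5) + x.2 * RR (al x.1)

theorem QQ_eq (x : ℝ × ℝ) : QQ x = ((rad x : ℝ) : ℂ) * exp ((al x.1 : ℝ) * I) := rfl

theorem continuous_al : Continuous al := by
  unfold al
  fun_prop

theorem continuous_rad : Continuous rad := by
  unfold rad
  have h := continuous_RR.comp (continuous_al.comp (continuous_fst (X := ℝ) (Y := ℝ)))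
  have h' : Continuous fun x : ℝ × ℝ => RR (al x.1) := h
  fun_prop

theorem sqrt_two_lt : √2 / 5 < 1 := by
  have : √2 < 5 := by
    rw [Real.sqrt_lt' (by norm_num)]
    norm_num
  linarith

theorem sqrt_two_pos : 0 < √2 / 5 := by positivity

theorem lt_RR (a : ℝ) : √2 / 5 < RR a := by
  have h1 := pi_le_RR a
  have h2 := Real.pi_gt_three
  have h3 := sqrt_two_lt
  linarith

theorem rad_facts {x : ℝ × ℝ} (hx : x.2 ∈ Icc (0 : ℝ) 1) :
    √2 / 5 ≤ rad x ∧ rad x ≤ RR (al x.1) ∧ (rad x = √2 / 5 ↔ x.2 = 0) ∧ (rad x = RR (al x.1) ↔ x.2 = 1) := by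
  have h := lt_RR (al x.1)
  have e : rad x = √2 / 5 + x.2 * (RR (al x.1) - √2 / 5) := by
    unfold rad
    ring
  have e' : rad x = RR (al x.1) - (1 - x.2) * (RR (al x.1) - √2 / 5) := by
    unfold rad
    ring
  have h2 : 0 < RR (al x.1) - √2 / 5 := by linarith
  refine ⟨?_, ?_, ?_, ?_⟩
  · rw [e]
    nlinarith [hx.1]
  · rw [e']
    nlinarith [hx.2]
  · rw [e]
    constructor
    · intro h3
      have h4 : x.2 * (RR (al x.1) - √2 / 5) = 0 := by linarith
      exact (mul_eq_zero.1 h4).resolve_right h2.ne'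
    · intro h3
      rw [h3]
      ring
  · rw [e']
    constructor
    · intro h3
      have h4 : (1 - x.2) * (RR (al x.1) - √2 / 5) = 0 := by linarith
      have := (mul_eq_zero.1 h4).resolve_right h2.ne'
      linarith
    · intro h3
      rw [h3]
      ring

theorem rad_pos {x : ℝ × ℝ} (hx : x.2 ∈ Icc (0 : ℝ) 1) : 0 < rad x :=
  lt_of_lt_of_le sqrt_two_pos (rad_facts hx).1

theorem re_QQ (x : ℝ × ℝ) : (QQ x).re = rad x * Real.cos (al x.1) := by
  rw [QQ_eq, Complex.re_ofReal_mul, Complex.exp_ofReal_mul_I_re]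

theorem im_QQ (x : ℝ × ℝ) : (QQ x).im = rad x * Real.sin (al x.1) := by
  rw [QQ_eq, Complex.im_ofReal_mul, Complex.exp_ofReal_mul_I_im]

theorem norm_QQ {x : ℝ × ℝ} (hx : x.2 ∈ Icc (0 : ℝ) 1) : ‖QQ x‖ = rad x := by
  rw [QQ_eq, norm_mul, Complex.norm_exp_ofReal_mul_I, mul_one, Complex.norm_real, Real.norm_eq_abs,
    abs_of_pos (rad_pos hx)]

/-- the diagonal ray -/
theorem diag {s : ℝ} (hs : s ∈ Icc (0 : ℝ) 1) :
    (Real.cos (al s) = Real.sin (al s) ∧ Real.cos (al s) < 0) ↔ (s = 0 ∨ s = 1) := by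
  have hp := Real.pi_pos
  constructor
  · rintro ⟨h1, h2⟩
    have h3 : Real.sin (al s - Real.pi / 4) = 0 := by
      rw [Real.sin_sub, Real.cos_pi_div_four, Real.sin_pi_div_four, h1]
      ring
    obtain ⟨n, hn⟩ := Real.sin_eq_zero_iff.1 h3
    have h4 : (n : ℝ) = 2 * s - 1 := by
      have : (n : ℝ) * Real.pi = (2 * s - 1) * Real.pi := by
        rw [hn]
        unfold al
        ring
      exact mul_right_cancel₀ hp.ne' this
    have h5 : (-1 : ℝ) ≤ n := by rw [h4]; linarith [hs.1]
    have h6 : (n : ℝ) ≤ 1 := by rw [h4]; linarith [hs.2]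
    have h7 : (-1 : ℤ) ≤ n := by exact_mod_cast h5
    have h8 : n ≤ 1 := by exact_mod_cast h6
    have h9 : n = -1 ∨ n = 0 ∨ n = 1 := by omega
    rcases h9 with rfl | rfl | rfl
    · left
      push_cast at h4
      linarith
    · exfalso
      push_cast at h4
      have h10 : s = 1 / 2 := by linarith
      have h11 : al s = Real.pi / 4 := by
        rw [h10]
        unfold al
        ring
      rw [h11, Real.cos_pi_div_four] at h2
      have : 0 < √2 / 2 := by positivity
      linarith
    · right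
      push_cast at h4
      linarith
  · have h0 : Real.cos (al 0) = Real.sin (al 0) ∧ Real.cos (al 0) < 0 := by
      have e1 : al 0 = Real.pi / 4 - Real.pi := by
        unfold al
        ring
      rw [e1, Real.cos_sub_pi, Real.sin_sub_pi, Real.cos_pi_div_four, Real.sin_pi_div_four]
      have : 0 < √2 / 2 := by positivity
      exact ⟨rfl, by linarith⟩
    rintro (rfl | rfl)
    · exact h0
    · have e1 : al 1 = al 0 + 2 * Real.pi := by
        unfold al
        ring
      rw [e1, Real.cos_add_two_pi, Real.sin_add_two_pi]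
      exact h0

end QQx

open QQx in
theorem t_QQ : S_QQ := by
  have hp := Real.pi_pos
  refine ⟨?_, ?_, ?_, ?_⟩
  · have h : QQ = fun x : ℝ × ℝ => ((rad x : ℝ) : ℂ) * exp ((al x.1 : ℝ) * I) := rfl
    rw [h]
    have h1 := continuous_rad
    have h2 : Continuous fun x : ℝ × ℝ => al x.1 := continuous_al.comp continuous_fst
    fun_prop
  · rintro x ⟨hx1, hx2⟩
    obtain ⟨h1, h2, h3, h4⟩ := rad_facts hx2
    have h0 := rad_pos hx2
    have hm := RR_mul (al x.1)
    have hm0 := mx_pos (al x.1)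
    have hc : |Real.cos (al x.1)| ≤ mx (al x.1) := le_max_left _ _
    have hs : |Real.sin (al x.1)| ≤ mx (al x.1) := le_max_right _ _
    have r1 : |(QQ x).re| = rad x * |Real.cos (al x.1)| := by rw [re_QQ, abs_mul, abs_of_pos h0]
    have r2 : |(QQ x).im| = rad x * |Real.sin (al x.1)| := by rw [im_QQ, abs_mul, abs_of_pos h0]
    have g0 : rad x * mx (al x.1) ≤ Real.pi := by
      rw [← hm]
      exact mul_le_mul_of_nonneg_right h2 hm0.le
    have g1 : rad x * |Real.cos (al x.1)| ≤ rad x * mx (al x.1) := mul_le_mul_of_nonneg_left hc h0.le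
    have g2 : rad x * |Real.sin (al x.1)| ≤ rad x * mx (al x.1) := mul_le_mul_of_nonneg_left hs h0.le
    refine ⟨?_, ?_, ?_, ?_, ?_, ?_⟩
    · rw [norm_QQ hx2]
      exact h1
    · rw [norm_QQ hx2]
      exact h3
    · rw [r1]
      exact g1.trans g0
    · rw [r2]
      exact g2.trans g0
    · rw [r1, r2, ← h4]
      constructor
      · intro h
        have h5 : rad x * mx (al x.1) = RR (al x.1) * mx (al x.1) := by
          rcases h with h | h <;> linarith
        exact mul_right_cancel₀ hm0.ne' h5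
      · intro h
        rw [h]
        rcases max_choice |Real.cos (al x.1)| |Real.sin (al x.1)| with h5 | h5
        · left
          have h6 : mx (al x.1) = |Real.cos (al x.1)| := h5
          rw [← h6, hm]
        · right
          have h6 : mx (al x.1) = |Real.sin (al x.1)| := h5
          rw [← h6, hm]
    · rw [re_QQ, im_QQ, ← diag hx1]
      constructor
      · rintro ⟨h5, h6⟩
        refine ⟨mul_left_cancel₀ h0.ne' h5, ?_⟩
        by_contra h7
        rw [not_lt] at h7
        have := mul_nonneg h0.le h7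
        linarith
      · rintro ⟨h5, h6⟩
        refine ⟨by rw [h5], mul_neg_of_pos_of_neg h0 h6⟩
  · rintro ⟨s, t⟩ ⟨hs, ht⟩ ⟨s', t'⟩ ⟨hs', ht'⟩ h
    dsimp only at hs ht hs' ht'
    have n1 := norm_QQ (x := (s, t)) ht
    have n2 := norm_QQ (x := (s', t')) ht'
    have h0 := rad_pos (x := (s, t)) ht
    have h1 : rad (s, t) = rad (s', t') := by rw [← n1, ← n2, h]
    rw [QQ_eq, QQ_eq, ← h1] at h
    have h2 : exp ((al s : ℝ) * I) = exp ((al s' : ℝ) * I) :=
      mul_left_cancel₀ (Complex.ofReal_ne_zero.2 h0.ne') h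
    obtain ⟨n, hn⟩ := Complex.exp_eq_exp_iff_exists_int.1 h2
    have h3 : al s = al s' + n * (2 * Real.pi) := by
      have := congrArg Complex.im hn
      simpa using this
    have h4 : s = s' + n := by
      unfold al at h3
      have : Real.pi * (2 * s) = Real.pi * (2 * (s' + n)) := by linarith
      have := mul_left_cancel₀ hp.ne' this
      linarith
    have h5 : (n : ℝ) < 1 := by linarith [hs.2, hs'.1]
    have h6 : (-1 : ℝ) < n := by linarith [hs.1, hs'.2]
    have h7 : n < 1 := by exact_mod_cast h5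
    have h8 : -1 < n := by exact_mod_cast h6
    have h9 : n = 0 := by omega
    have h10 : s = s' := by
      rw [h4, h9]
      simp
    subst h10
    have h11 : rad (s, t) = √2 / 5 + t * (RR (al s) - √2 / 5) := by
      unfold rad
      ring
    have h12 : rad (s, t') = √2 / 5 + t' * (RR (al s) - √2 / 5) := by
      unfold rad
      ring
    have h13 : t * (RR (al s) - √2 / 5) = t' * (RR (al s) - √2 / 5) := by linarith
    have h14 : RR (al s) - √2 / 5 ≠ 0 := by
      have := lt_RR (al s)
      linarith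
    rw [mul_right_cancel₀ h14 h13]
  · intro ζ h1 h2 h3
    have h0 : 0 < ‖ζ‖ := lt_of_lt_of_le sqrt_two_pos h3
    obtain ⟨s, hs, n, hn⟩ : ∃ s ∈ Ico (0 : ℝ) 1, ∃ n : ℤ, al s = arg ζ + n * (2 * Real.pi) := by
      have a1 := Complex.neg_pi_lt_arg ζ
      have a2 := Complex.arg_le_pi ζ
      have e1 : ∀ x : ℝ, al ((arg ζ / Real.pi + 3 / 4) / 2 + x) = arg ζ + x * (2 * Real.pi) := by
        intro x
        unfold al
        field_simp
        ring
      have b1 : -1 < arg ζ / Real.pi := by
        rw [lt_div_iff₀ hp]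
        linarith
      have b2 : arg ζ / Real.pi ≤ 1 := by
        rw [div_le_iff₀ hp]
        linarith
      rcases le_or_gt 0 ((arg ζ / Real.pi + 3 / 4) / 2) with h | h
      · refine ⟨(arg ζ / Real.pi + 3 / 4) / 2 + 0, ⟨by linarith, by linarith⟩, 0, ?_⟩
        rw [e1]
        simp
      · refine ⟨(arg ζ / Real.pi + 3 / 4) / 2 + 1, ⟨by linarith, by linarith⟩, 1, ?_⟩
        rw [e1]
        simp
    have hexp : exp ((al s : ℝ) * I) = exp ((arg ζ : ℝ) * I) := by
      refine Complex.exp_eq_exp_iff_exists_int.2 ⟨n, ?_⟩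
      rw [hn]
      push_cast
      ring
    have hζ : ζ = ((‖ζ‖ : ℝ) : ℂ) * exp ((al s : ℝ) * I) := by
      rw [hexp]
      exact (Complex.norm_mul_exp_arg_mul_I ζ).symm
    have hre : ζ.re = ‖ζ‖ * Real.cos (al s) := by
      conv_lhs => rw [hζ]
      rw [Complex.re_ofReal_mul, Complex.exp_ofReal_mul_I_re]
    have him : ζ.im = ‖ζ‖ * Real.sin (al s) := by
      conv_lhs => rw [hζ]
      rw [Complex.im_ofReal_mul, Complex.exp_ofReal_mul_I_im]
    have hR : ‖ζ‖ ≤ RR (al s) := by
      rw [RR_eq, le_div_iff₀ (mx_pos _)]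
      unfold mx
      rw [mul_max_of_nonneg _ _ h0.le]
      rw [hre, abs_mul, abs_of_pos h0] at h1
      rw [him, abs_mul, abs_of_pos h0] at h2
      exact max_le h1 h2
    have hl := lt_RR (al s)
    have hd : 0 < RR (al s) - √2 / 5 := by linarith
    refine ⟨(s, (‖ζ‖ - √2 / 5) / (RR (al s) - √2 / 5)), ⟨hs, ?_, ?_⟩, ?_⟩
    · exact div_nonneg (by linarith) hd.le
    · change (‖ζ‖ - √2 / 5) / (RR (al s) - √2 / 5) ≤ 1
      rw [div_le_one hd]
      linarith
    · rw [QQ_eq]
      have hr : rad (s, (‖ζ‖ - √2 / 5) / (RR (al s) - √2 / 5)) = ‖ζ‖ := by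
        unfold rad
        dsimp only
        have hq : (‖ζ‖ - √2 / 5) / (RR (al s) - √2 / 5) * (RR (al s) - √2 / 5) = ‖ζ‖ - √2 / 5 :=
          div_mul_cancel₀ _ hd.ne'
        linear_combination hq
      rw [hr]
      exact hζ.symm

end

end Pool.Agent.LIX.G
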