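import Pool.Agent.LIX.StmtsK

/-!
# LIX, block K, module CON: not contractible
-/

set_option autoImplicit false

namespace Pool.Agent.LIX.K

open Set Topology
open scoped unitInterval

namespace CONx

variable {m : ℕ}

theorem sum_abs_pos {p : Fin (m + 1) → ℝ} (hp : 1 / 2 ≤ ‖p‖) : 0 < ∑ i, |p i| := by
  have h0 : 0 ≤ ∑ i, |p i| := Finset.sum_nonneg fun i _ => abs_nonneg _
  rcases h0.lt_or_eq with h | h
  · exact h
  · exfalso
    have h1 : p = 0 := by
      funext i
      have := (Finset.sum_eq_zero_iff_of_nonneg (fun i _ => abs_nonneg (p i))).1 h.symm i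
        (Finset.mem_univ i)
      exact abs_eq_zero.1 this
    rw [h1, norm_zero] at hp
    norm_num at hp

/-- the normalization to the unit sphere of the `l¹` norm -/
noncomputable def nrm (p : {p : Fin (m + 1) → ℝ // 1 / 2 ≤ ‖p‖}) : Sph m :=
  ⟨(∑ i, |p.1 i|)⁻¹ • p.1, by
    have h := sum_abs_pos p.2
    simp only [Pi.smul_apply, smul_eq_mul, abs_mul, abs_inv]
    rw [← Finset.mul_sum, abs_of_pos h]
    exact inv_mul_cancel₀ h.ne'⟩

theorem nrm_cont : Continuous (nrm (m := m)) := by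
  have hv : Continuous fun p : {p : Fin (m + 1) → ℝ // 1 / 2 ≤ ‖p‖} => p.1 :=
    continuous_subtype_val
  have hs : Continuous fun p : {p : Fin (m + 1) → ℝ // 1 / 2 ≤ ‖p‖} => ∑ i, |p.1 i| :=
    continuous_finsetSum _ fun i _ => continuous_abs.comp ((continuous_apply i).comp hv)
  exact Continuous.subtype_mk ((hs.inv₀ fun p => (sum_abs_pos p.2).ne').smul hv) _

end CONx

open CONx in
theorem t_CON : M_CON := by
  intro hEXT X _ m Λ o hΛ hne ho hLo hX
  obtain ⟨c, ⟨h⟩⟩ := id_nullhomotopic X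
  classical
  -- the map on the outer part
  set g : {p : Fin (m + 1) → ℝ // 1 / 2 ≤ ‖p‖} → (Fin (m + 1) → ℝ) := fun p =>
    Λ (h (projIcc 0 1 zero_le_one (2 * (1 - ‖p.1‖)), o (nrm p))) with hg
  have hgc : Continuous g := by
    refine hΛ.comp (h.continuous.comp (Continuous.prodMk ?_ (ho.comp nrm_cont)))
    refine continuous_projIcc.comp ?_
    exact continuous_const.mul (continuous_const.sub (continuous_norm.comp continuous_subtype_val))
  set G : (Fin (m + 1) → ℝ) → (Fin (m + 1) → ℝ) := fun p =>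
    if hp : 1 / 2 ≤ ‖p‖ then g ⟨p, hp⟩ else Λ c with hG
  have hcont : Continuous G := by
    rw [← continuousOn_univ]
    have hU : (univ : Set (Fin (m + 1) → ℝ)) = {p | 1 / 2 ≤ ‖p‖} ∪ {p | ‖p‖ ≤ 1 / 2} := by
      ext p
      simp only [mem_univ, mem_union, true_iff]
      exact le_total (1 / 2 : ℝ) ‖p‖
    rw [hU]
    refine ContinuousOn.union_of_isClosed ?_ ?_ (isClosed_le continuous_const continuous_norm)
      (isClosed_le continuous_norm continuous_const)
    · rw [continuousOn_iff_continuous_domRestrict]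
      refine hgc.congr ?_
      intro p
      have hp : 1 / 2 ≤ ‖p.1‖ := p.2
      simp only [domRestrict_apply, hG, dif_pos hp]
    · refine (continuousOn_const (c := Λ c)).congr ?_
      intro p hp
      have hp' : ‖p‖ ≤ 1 / 2 := hp
      by_cases h1 : 1 / 2 ≤ ‖p‖
      · have h2 : ‖p‖ = 1 / 2 := le_antisymm hp' h1
        simp only [hG, dif_pos h1, hg]
        have h3 : projIcc (0 : ℝ) 1 zero_le_one (2 * (1 - ‖p‖)) = 1 := by
          apply projIcc_of_right_le
          rw [h2]; norm_num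
        rw [h3, h.apply_one]
        rfl
      · simp only [hG, dif_neg h1]
  have hGne : ∀ x, G x ≠ 0 := by
    intro x
    by_cases h1 : 1 / 2 ≤ ‖x‖
    · simp only [hG, dif_pos h1, hg]
      exact hne _
    · simp only [hG, dif_neg h1]
      exact hne _
  obtain ⟨x, hx, ⟨i, hi⟩, c', hc', hGx⟩ := hEXT (m + 1) G hcont.continuousOn fun x _ => hGne x
  have hx1 : ‖x‖ = 1 := by
    apply le_antisymm
    · rw [pi_norm_le_iff_of_nonneg zero_le_one]
      intro j
      rw [Real.norm_eq_abs, abs_le]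
      exact ⟨hx.1 j, hx.2 j⟩
    · calc (1 : ℝ) = ‖x i‖ := by rw [Real.norm_eq_abs, hi]
        _ ≤ ‖x‖ := norm_le_pi_norm x i
  have h1 : 1 / 2 ≤ ‖x‖ := by rw [hx1]; norm_num
  have h2 : G x = (∑ i, |x i|)⁻¹ • x := by
    simp only [hG, dif_pos h1, hg]
    have h3 : projIcc (0 : ℝ) 1 zero_le_one (2 * (1 - ‖x‖)) = 0 := by
      apply projIcc_of_le_left
      rw [hx1]; norm_num
    rw [h3, h.apply_zero]
    exact hLo (nrm ⟨x, h1⟩)
  rw [h2] at hGx
  have h4 := congrFun hGx i
  simp only [Pi.smul_apply, Pi.neg_apply, smul_eq_mul] at h4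
  have h5 : ((∑ i, |x i|)⁻¹ + c') * x i = 0 := by linarith
  rcases mul_eq_zero.1 h5 with h6 | h6
  · have := inv_pos.2 (sum_abs_pos h1)
    linarith
  · rw [h6, abs_zero] at hi
    exact zero_ne_one hi

end Pool.Agent.LIX.K
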