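import Pool.Agent.LIX.StmtsK

/-!
# LIX, block K: a label map with an octahedral sphere
-/

set_option autoImplicit false

namespace Pool.Agent.LIX.K

open Set Topology

theorem t_K34 : M_K34 := by
  intro hLAB hOCT hPI hCON V K m lab pos neg h0 hp hn hf
  obtain ⟨h1, h2⟩ := hLAB V K (m + 1) lab h0
  obtain ⟨o, ho, h3⟩ := hOCT V K m pos neg hf
  exact ⟨hPI K.Space m _ o h1 h2 ho (h3 lab hp hn), hCON K.Space m _ o h1 h2 ho (h3 lab hp hn)⟩

end Pool.Agent.LIX.K
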