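import Pool.Agent.LIX.StmtsK

/-!
# LIX, block K: the criterion for simple connectivity (module K5)
-/

set_option autoImplicit false

namespace Pool.Agent.LIX.K

open Set Topology
open scoped unitInterval

namespace K5x

variable {V : Type} (K : Cpx V)

/-- the class of the edge path in a simplex -/
noncomputable def e (s : Finset V) (hs : s ∈ K.faces) (a b : V) (ha : a ∈ s) (hb : b ∈ s) :
    Path.Homotopic.Quotient (K.vert a (K.single_mem hs ha)) (K.vert b (K.single_mem hs hb)) :=
  K.sc s hs _ _ (K.vert_sub a _ ha) (K.vert_sub b _ hb)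

theorem tri (s s1 s2 s3 : Finset V) (hs : s ∈ K.faces) (h1 : s1 ∈ K.faces) (h2 : s2 ∈ K.faces)
    (h3 : s3 ∈ K.faces) (a b c : V) (ha : a ∈ s) (hb : b ∈ s) (hc : c ∈ s) (ha1 : a ∈ s1)
    (hb1 : b ∈ s1) (hb2 : b ∈ s2) (hc2 : c ∈ s2) (ha3 : a ∈ s3) (hc3 : c ∈ s3) :
    (e K s1 h1 a b ha1 hb1).trans (e K s2 h2 b c hb2 hc2) = e K s3 h3 a c ha3 hc3 :=
  K.sc_trans s hs _ _ _ (K.vert_sub a (K.single_mem hs ha) ha)
    (K.vert_sub b (K.single_mem hs hb) hb) (K.vert_sub c (K.single_mem hs hc) hc)

open Classical in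
/-- the class of the path from the base point `P` to `w` through `J` -/
noncomputable def c (P w J : V) (h : {w, J} ∈ K.faces ∧ {J, P} ∈ K.faces) :
    Path.Homotopic.Quotient
      (K.vert P (K.single_mem h.2 (show P ∈ ({J, P} : Finset V) by simp)))
      (K.vert w (K.single_mem h.1 (show w ∈ ({w, J} : Finset V) by simp))) :=
  (e K {J, P} h.2 P J (by simp) (by simp)).trans (e K {w, J} h.1 J w (by simp) (by simp))

open Classical in
theorem c_step {P w J J' : V} (h : {w, J} ∈ K.faces ∧ {J, P} ∈ K.faces)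
    (h' : {w, J'} ∈ K.faces ∧ {J', P} ∈ K.faces) (h1 : {w, J, J'} ∈ K.faces)
    (h2 : {J, J', P} ∈ K.faces) : c K P w J h = c K P w J' h' := by
  have e1 : (e K {J, P} h.2 P J (by simp) (by simp)).trans
      (e K {w, J, J'} h1 J J' (by simp) (by simp)) =
      e K {J', P} h'.2 P J' (by simp) (by simp) :=
    tri K {J, J', P} _ _ _ h2 h.2 h1 h'.2 P J J' (by simp) (by simp) (by simp)
      (by simp) (by simp) (by simp) (by simp) (by simp) (by simp)
  have e2 : (e K {w, J, J'} h1 J J' (by simp) (by simp)).trans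
      (e K {w, J'} h'.1 J' w (by simp) (by simp)) = e K {w, J} h.1 J w (by simp) (by simp) :=
    tri K {w, J, J'} _ _ _ h1 h1 h'.1 h.1 J J' w (by simp) (by simp) (by simp)
      (by simp) (by simp) (by simp) (by simp) (by simp) (by simp)
  unfold c
  rw [← e1, ← e2, Path.Homotopic.Quotient.trans_assoc]

open Classical in
theorem c_all {P : V} {C : V → Set V} (hC : ∀ w, ∀ J ∈ C w, {w, J} ∈ K.faces ∧ {J, P} ∈ K.faces)
    (w A : V) (hA : A ∈ C w) (B : V)
    (hr : Relation.ReflTransGen (fun J J' => J ∈ C w ∧ J' ∈ C w ∧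
      {w, J, J'} ∈ K.faces ∧ {J, J', P} ∈ K.faces) A B) (hB : B ∈ C w) :
    c K P w A (hC w A hA) = c K P w B (hC w B hB) := by
  induction hr with
  | refl => rfl
  | tail _ h ih =>
    rw [ih h.1]
    exact c_step K _ _ h.2.2.1 h.2.2.2

end K5x

open K5x in
open Classical in
theorem t_K5 : S_K5 := by
  intro V K P C h1 h2 h3 h4
  have hv : ∀ w, {w} ∈ K.faces := fun w =>
    K.single_mem (h2 w _ (h1 w).some_mem).1 (by simp)
  let g : ∀ (v : V) (hv' : {v} ∈ K.faces),
      Path.Homotopic.Quotient (K.vert P (hv P)) (K.vert v hv') :=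
    fun v _ => c K P v (h1 v).some (h2 v _ (h1 v).some_mem)
  have g_eq : ∀ (v : V) (hv' : {v} ∈ K.faces) (J : V) (hJ : J ∈ C v),
      g v hv' = c K P v J (h2 v J hJ) := fun v _ J hJ =>
    c_all K h2 v _ (h1 v).some_mem J (h3 v _ (h1 v).some_mem J hJ) hJ
  have good : ∀ (a b : V) (s : Finset V) (hs : s ∈ K.faces) (ha : a ∈ s) (hb : b ∈ s),
      Good K C a b → (g a (K.single_mem hs ha)).trans (e K s hs a b ha hb) =
        g b (K.single_mem hs hb) := by
    intro a b s hs ha hb hg
    obtain ⟨J, hJa, hJb, hf⟩ := hg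
    rw [g_eq a _ J hJa, g_eq b _ J hJb]
    have e1 : (e K {a, J} (h2 a J hJa).1 J a (by simp) (by simp)).trans (e K s hs a b ha hb) =
        e K {b, J} (h2 b J hJb).1 J b (by simp) (by simp) :=
      tri K {a, b, J} _ _ _ hf _ hs _ J a b (by simp) (by simp) (by simp) (by simp) (by simp)
        ha hb (by simp) (by simp)
    change (c K P a J (h2 a J hJa)).trans (e K s hs a b ha hb) = c K P b J (h2 b J hJb)
    unfold c
    rw [Path.Homotopic.Quotient.trans_assoc, e1]
  have A : Cpx.Pot K (K.vert P (hv P)) :=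
    { g := g
      comp := by
        intro s hs a b ha hb
        change (g a (K.single_mem hs ha)).trans (e K s hs a b ha hb) = g b (K.single_mem hs hb)
        have hab : ({a, b} : Finset V) ∈ K.faces :=
          K.down_closed s hs {a, b} (by
            intro x hx
            rcases Finset.mem_insert.mp hx with rfl | hx
            · exact ha
            · rw [Finset.mem_singleton.mp hx]
              exact hb) ⟨a, by simp⟩
        rcases h4 a b hab with hg | ⟨w, hf, hg1, hg2⟩
        · exact good a b s hs ha hb hg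
        · have e1 := good a w {a, w, b} hf (by simp) (by simp) hg1
          have e2 := good w b {a, w, b} hf (by simp) (by simp) hg2
          have e3 : (e K {a, w, b} hf a w (by simp) (by simp)).trans
              (e K {a, w, b} hf w b (by simp) (by simp)) = e K s hs a b ha hb :=
            tri K {a, w, b} _ _ _ hf hf hf hs a w b (by simp) (by simp) (by simp) (by simp)
              (by simp) (by simp) (by simp) ha hb
          rw [← e3, ← Path.Homotopic.Quotient.trans_assoc]
          exact (congrArg (fun z => z.trans (e K {a, w, b} hf w b (by simp) (by simp))) e1).trans e2 }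
  have := A.simplyConnected
  constructor
  · rintro ⟨x, hx⟩
    have hs : Subsingleton (ZerothHomotopy K.Space) :=
      (pathConnectedSpace_iff_zerothHomotopy.mp inferInstance).2
    obtain ⟨a, b, hab⟩ := hx
    exact hab (HomotopyGroup.pi0EquivZerothHomotopy.injective (Subsingleton.elim _ _))
  · rintro ⟨x, hx⟩
    obtain ⟨a, b, hab⟩ := hx
    exact hab (HomotopyGroup.pi1EquivFundamentalGroup.injective (Subsingleton.elim _ _))

end Pool.Agent.LIX.K
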