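import Pool.Agent.LIX.StmtsK

/-!
# LIX, block K: assembly of the index
-/

set_option autoImplicit false

namespace Pool.Agent.LIX.K

open Set Topology

namespace K6x

/-- a nontrivial homotopy set gives a vertex -/
theorem nonempty_of_piNe {V : Type} (K : Cpx V) {m : ℕ} (h : PiNe m K.Space) : Nonempty V := by
  obtain ⟨x, -⟩ := h
  obtain ⟨v, -⟩ := K.nonempty_of_mem _ x.2.2.2
  exact ⟨v⟩

end K6x

theorem t_K6 : S_K6 := by
  intro Y _ T H
  refine ⟨?_, ?_⟩
  · intro h1
    have hne : Nonempty (Vtx T H) := K6x.nonempty_of_piNe _ h1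
    by_cases h0 : PiNe 0 (diskCpx T H).Space
    · refine ⟨1, by norm_num, Or.inr ⟨hne, le_rfl, h0, ?_⟩⟩
      intro m hm
      exact absurd hm (Nat.not_lt_zero m)
    · refine ⟨2, le_rfl, Or.inr ⟨hne, by norm_num, h1, ?_⟩⟩
      intro m hm
      have hm0 : m = 0 := by omega
      rw [hm0]
      exact h0
  · intro h2 h0 h1
    have hne : Nonempty (Vtx T H) := K6x.nonempty_of_piNe _ h2
    refine Or.inr ⟨hne, by norm_num, h2, ?_⟩
    intro m hm
    rcases (by omega : m = 0 ∨ m = 1) with rfl | rfl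
    · exact h0
    · exact h1

end Pool.Agent.LIX.K
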