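import Pool.Agent.LIX.StmtsK

/-!
# K7A: isomorphic complexes have homeomorphic realizations
-/

set_option autoImplicit false

namespace Pool.Agent.LIX.K

open Set Topology

namespace K7Ax

variable {V V' : Type} {K : Cpx V} {K' : Cpx V'}

/-- the map of the realizations -/
noncomputable def ff (e : V ≃ V') (h : ∀ s ∈ K.faces, s.map e.toEmbedding ∈ K'.faces)
    (x : K.Space) : K'.Space :=
  ⟨Finsupp.equivMapDomain e x.1, fun v => by
    rw [Finsupp.equivMapDomain_apply]
    exact x.2.1 _, by
    rw [Finsupp.sum_equivMapDomain]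
    exact x.2.2.1, h _ x.2.2.2⟩

theorem ff_apply (e : V ≃ V') (h : ∀ s ∈ K.faces, s.map e.toEmbedding ∈ K'.faces)
    (x : K.Space) (v : V') : (ff (K' := K') e h x).1 v = x.1 (e.symm v) := rfl

theorem ff_cont (e : V ≃ V') (h : ∀ s ∈ K.faces, s.map e.toEmbedding ∈ K'.faces) :
    Continuous (ff (K' := K') e h) := by
  rw [K.continuous_iff]
  intro s
  refine K'.cont_of_simplex (s.1.map e.toEmbedding) (h s.1 s.2) _ ?_ ?_
  · intro v
    exact (K.coord_cont (e.symm v)).comp (K.continuous_simplexMap s)
  · intro y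
    show (K.simplexMap s y).1.support.map e.toEmbedding ⊆ s.1.map e.toEmbedding
    exact Finset.map_subset_map.2 (K.simplexMap_support s y)

end K7Ax

theorem t_K7A : S_K7A := by
  intro V V' K K' e he
  have h1 : ∀ s ∈ K.faces, s.map e.toEmbedding ∈ K'.faces := fun s hs => (he s).1 hs
  have h2 : ∀ s ∈ K'.faces, s.map e.symm.toEmbedding ∈ K.faces := by
    intro s hs
    rw [he]
    have : (s.map e.symm.toEmbedding).map e.toEmbedding = s := by
      ext v
      simp
    rw [this]
    exact hs
  exact ⟨{
    toFun := K7Ax.ff e h1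
    invFun := K7Ax.ff e.symm h2
    left_inv := by
      intro x
      apply Subtype.ext
      apply Finsupp.ext
      intro v
      rw [K7Ax.ff_apply, K7Ax.ff_apply, Equiv.symm_symm, Equiv.symm_apply_apply]
    right_inv := by
      intro x
      apply Subtype.ext
      apply Finsupp.ext
      intro v
      rw [K7Ax.ff_apply, K7Ax.ff_apply, Equiv.symm_symm, Equiv.apply_symm_apply]
    continuous_toFun := K7Ax.ff_cont e h1
    continuous_invFun := K7Ax.ff_cont e.symm h2 }⟩

end Pool.Agent.LIX.K
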