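import Pool.Agent.LIX.StmtsK

/-!
# LIX, module K7B: nontriviality of homotopy groups is transported by homeomorphisms

Composition with the homeomorphism maps generalized loops at `x` to generalized loops at `h x`,
and homotopies relative to the boundary to such homotopies; composing back with the inverse shows
that the induced map of classes is injective.
-/

set_option autoImplicit false

namespace Pool.Agent.LIX.K.K7Bx

/-- the generalized loop `h ∘ f` -/
def push {X X' : Type} [TopologicalSpace X] [TopologicalSpace X'] {N : Type} {x : X}
    (h : C(X, X')) (f : GenLoop N X x) : GenLoop N X' (h x) :=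
  ⟨h.comp f.1, fun y hy => by
    show h (f.1 y) = h x
    rw [f.2 y hy]⟩

theorem of_push_homotopic {X X' : Type} [TopologicalSpace X] [TopologicalSpace X'] {N : Type}
    {x : X} (h : X ≃ₜ X') (f g : GenLoop N X x)
    (H : GenLoop.Homotopic (push (h : C(X, X')) f) (push (h : C(X, X')) g)) :
    GenLoop.Homotopic f g := by
  have H1 : ((h : C(X, X')).comp f.1).HomotopicRel ((h : C(X, X')).comp g.1)
      (Cube.boundary N) := H
  have H2 := H1.comp_continuousMap (h.symm : C(X', X))
  have e : ∀ k : C(N → unitInterval, X),
      (h.symm : C(X', X)).comp ((h : C(X, X')).comp k) = k := by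
    intro k
    ext y
    exact h.symm_apply_apply (k y)
  rw [e, e] at H2
  exact H2

end Pool.Agent.LIX.K.K7Bx

namespace Pool.Agent.LIX.K

theorem t_K7B : S_K7B := by
  intro X X' _ _ m h
  rintro ⟨x, hx⟩
  obtain ⟨a, b, hab⟩ := hx.exists_pair_ne
  refine ⟨h x, ?_⟩
  induction a using Quotient.inductionOn with
  | h f =>
    induction b using Quotient.inductionOn with
    | h g =>
      refine ⟨⟨Quotient.mk _ (K7Bx.push (h : C(X, X')) f),
        Quotient.mk _ (K7Bx.push (h : C(X, X')) g), fun he => hab ?_⟩⟩
      exact Quotient.sound (K7Bx.of_push_homotopic h f g (Quotient.exact he))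

end Pool.Agent.LIX.K
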