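import Pool.Agent.LIX.StmtsK

/-!
# LIX, block K: module LAB (label maps are continuous and avoid the origin)
-/

set_option autoImplicit false

namespace Pool.Agent.LIX.K

open Set Topology

namespace LABx

/-- On the closed simplex `s` the label map is the finite sum over `s`. -/
theorem sum_simplexMap {V : Type} (K : Cpx V) {n : ℕ} (lab : V → (Fin n → ℝ)) (s : K.faces)
    (y : stdSimplex ℝ (s : Finset V)) :
    ((K.simplexMap s y).1.sum fun v r => r • lab v) =
      ∑ v ∈ (s : Finset V), (K.simplexMap s y).1 v • lab v := by
  rw [Finsupp.sum_of_support_subset _ (K.simplexMap_support s y) _ (by simp)]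

theorem cont {V : Type} (K : Cpx V) {n : ℕ} (lab : V → (Fin n → ℝ)) :
    Continuous (fun x : K.Space => x.1.sum fun v r => r • lab v) := by
  rw [K.continuous_iff]
  intro s
  have h1 : (fun x : K.Space => x.1.sum fun v r => r • lab v) ∘ K.simplexMap s =
      fun y => ∑ v ∈ (s : Finset V), (K.simplexMap s y).1 v • lab v := by
    funext y
    exact sum_simplexMap K lab s y
  rw [h1]
  refine continuous_finsetSum _ fun v _ => ?_
  exact ((K.coord_cont v).comp (K.continuous_simplexMap s)).smul continuous_const

/-- The value of the label map is a convex combination of the labels of the support. -/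
theorem mem_hull {V : Type} (K : Cpx V) {n : ℕ} (lab : V → (Fin n → ℝ)) (x : K.Space) :
    (x.1.sum fun v r => r • lab v) ∈ convexHull ℝ (lab '' (x.1.support : Set V)) := by
  unfold Finsupp.sum
  refine Convex.sum_mem (convex_convexHull ℝ _) (fun v _ => x.2.1 v) ?_ fun v hv => ?_
  · exact x.2.2.1
  · exact subset_convexHull ℝ _ ⟨v, hv, rfl⟩

end LABx

/-- LAB (K2): label maps are continuous and avoid the origin. -/
theorem t_LAB : S_LAB := by
  intro V K n lab h
  refine ⟨LABx.cont K lab, fun x hx => ?_⟩
  apply h x.1.support x.2.2.2
  rw [← hx]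
  exact LABx.mem_hull K lab x

end Pool.Agent.LIX.K
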