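import Pool.Agent.LIX.StmtsK

/-!
# LIX, block K: module OCT (the octahedral sphere in the complex)
-/

set_option autoImplicit false

namespace Pool.Agent.LIX.K

open Set Topology

namespace OCTx

variable {V : Type} {m : ℕ}

/-- The point of the octahedral sphere with the coordinates `z`. -/
noncomputable def oF (pos neg : Fin (m + 1) → V) (z : Fin (m + 1) → ℝ) : V →₀ ℝ :=
  ∑ i, Finsupp.single (pos i) (max (z i) 0) + ∑ i, Finsupp.single (neg i) (max (-z i) 0)

open Classical in
theorem oF_apply (pos neg : Fin (m + 1) → V) (z : Fin (m + 1) → ℝ) (v : V) :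
    oF pos neg z v = ∑ i, (if pos i = v then max (z i) 0 else 0) +
      ∑ i, (if neg i = v then max (-z i) 0 else 0) := by
  unfold oF
  rw [Finsupp.add_apply, Finsupp.finsetSum_apply, Finsupp.finsetSum_apply]
  congr 1
  · exact Finset.sum_congr rfl fun i _ => by rw [Finsupp.single_apply]
  · exact Finset.sum_congr rfl fun i _ => by rw [Finsupp.single_apply]

theorem oF_nonneg (pos neg : Fin (m + 1) → V) (z : Fin (m + 1) → ℝ) (v : V) :
    0 ≤ oF pos neg z v := by
  classical
  rw [oF_apply]
  refine add_nonneg (Finset.sum_nonneg fun i _ => ?_) (Finset.sum_nonneg fun i _ => ?_)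
  · split_ifs
    · exact le_max_right _ _
    · exact le_rfl
  · split_ifs
    · exact le_max_right _ _
    · exact le_rfl

theorem oF_cont (pos neg : Fin (m + 1) → V) (v : V) :
    Continuous fun z : Fin (m + 1) → ℝ => oF pos neg z v := by
  classical
  have h : (fun z : Fin (m + 1) → ℝ => oF pos neg z v) = fun z =>
      ∑ i, (if pos i = v then max (z i) 0 else 0) +
        ∑ i, (if neg i = v then max (-z i) 0 else 0) := by
    funext z
    exact oF_apply pos neg z v
  rw [h]
  refine Continuous.add (continuous_finsetSum _ fun i _ => ?_)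
    (continuous_finsetSum _ fun i _ => ?_)
  · by_cases hi : pos i = v
    · simp only [hi, if_true]
      exact (continuous_apply i).max continuous_const
    · simp only [hi, if_false]
      exact continuous_const
  · by_cases hi : neg i = v
    · simp only [hi, if_true]
      exact (continuous_apply i).neg.max continuous_const
    · simp only [hi, if_false]
      exact continuous_const

/-- Linear sums over the point `oF z`. -/
theorem oF_sum (pos neg : Fin (m + 1) → V) (z : Fin (m + 1) → ℝ) {E : Type} [AddCommGroup E]
    [Module ℝ E] (g : V → E) :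
    ((oF pos neg z).sum fun v r => r • g v) =
      ∑ i, max (z i) 0 • g (pos i) + ∑ i, max (-z i) 0 • g (neg i) := by
  classical
  unfold oF
  rw [Finsupp.sum_add_index' (fun v => zero_smul ℝ (g v)) (fun v a b => add_smul a b (g v))]
  rw [← Finsupp.sum_finsetSum_index (fun v => zero_smul ℝ (g v))
      (fun v a b => add_smul a b (g v)),
    ← Finsupp.sum_finsetSum_index (fun v => zero_smul ℝ (g v))
      (fun v a b => add_smul a b (g v))]
  congr 1
  · exact Finset.sum_congr rfl fun i _ => by
      rw [Finsupp.sum_single_index (zero_smul ℝ (g (pos i)))]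
  · exact Finset.sum_congr rfl fun i _ => by
      rw [Finsupp.sum_single_index (zero_smul ℝ (g (neg i)))]

theorem oF_total (pos neg : Fin (m + 1) → V) (z : Fin (m + 1) → ℝ) (hz : ∑ i, |z i| = 1) :
    ((oF pos neg z).sum fun _ r => r) = 1 := by
  have h := oF_sum pos neg z (fun _ : V => (1 : ℝ))
  simp only [smul_eq_mul, mul_one] at h
  rw [h, ← Finset.sum_add_distrib, ← hz]
  refine Finset.sum_congr rfl fun i _ => ?_
  rcases le_total 0 (z i) with h0 | h0
  · rw [max_eq_left h0, max_eq_right (by linarith), abs_of_nonneg h0, add_zero]
  · rw [max_eq_right h0, max_eq_left (by linarith), abs_of_nonpos h0, zero_add]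

open Classical in
/-- The vertex set of the face of the octahedral sphere with the signs `b`. -/
noncomputable def fc (pos neg : Fin (m + 1) → V) (b : Fin (m + 1) → Bool) : Finset V :=
  Finset.univ.image fun i => if b i = true then pos i else neg i

/-- The closed cell of the sphere with the signs `b`. -/
def cell (b : Fin (m + 1) → Bool) : Set (Sph m) :=
  {z | ∀ i, (b i = true → 0 ≤ z.1 i) ∧ (b i = false → z.1 i ≤ 0)}

theorem oF_support (pos neg : Fin (m + 1) → V) (b : Fin (m + 1) → Bool)
    (z : Fin (m + 1) → ℝ) (hz : ∀ i, (b i = true → 0 ≤ z i) ∧ (b i = false → z i ≤ 0)) :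
    (oF pos neg z).support ⊆ fc pos neg b := by
  classical
  intro v hv
  rw [Finsupp.mem_support_iff, oF_apply] at hv
  by_contra hn
  apply hv
  have h1 : ∀ i, (if pos i = v then max (z i) 0 else 0) = 0 := by
    intro i
    split_ifs with h
    · cases hb : b i with
      | true =>
        exfalso
        apply hn
        exact Finset.mem_image.2 ⟨i, Finset.mem_univ i, by rw [if_pos hb, h]⟩
      | false => exact max_eq_right ((hz i).2 hb)
    · rfl
  have h2 : ∀ i, (if neg i = v then max (-z i) 0 else 0) = 0 := by
    intro i
    split_ifs with h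
    · cases hb : b i with
      | true => exact max_eq_right (by linarith [(hz i).1 hb])
      | false =>
        exfalso
        apply hn
        exact Finset.mem_image.2 ⟨i, Finset.mem_univ i, by
          rw [if_neg (by rw [hb]; exact Bool.false_ne_true), h]⟩
    · rfl
  rw [Finset.sum_eq_zero fun i _ => h1 i, Finset.sum_eq_zero fun i _ => h2 i, add_zero]

theorem mem_cell (z : Sph m) : z ∈ cell (fun i => decide (0 ≤ z.1 i)) := by
  intro i
  refine ⟨fun h => of_decide_eq_true h, fun h => ?_⟩
  have := of_decide_eq_false h
  linarith

theorem isClosed_cell (b : Fin (m + 1) → Bool) : IsClosed (cell b) := by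
  have h : cell b = ⋂ i, {z : Sph m | (b i = true → 0 ≤ z.1 i) ∧ (b i = false → z.1 i ≤ 0)} := by
    ext z
    simp only [cell, mem_ofPred_eq, mem_iInter]
  rw [h]
  refine isClosed_iInter fun i => ?_
  have hc : Continuous fun z : Sph m => z.1 i := (continuous_apply i).comp continuous_subtype_val
  cases b i with
  | true =>
    simp only [true_imp_iff, Bool.true_eq_false, false_imp_iff, and_true]
    exact isClosed_le continuous_const hc
  | false =>
    simp only [Bool.false_eq_true, false_imp_iff, true_and, true_imp_iff]
    exact isClosed_le hc continuous_const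

end OCTx

open OCTx in
/-- OCT: the octahedral sphere in the complex. -/
theorem t_OCT : S_OCT := by
  classical
  intro V K m pos neg hf
  have hface : ∀ b : Fin (m + 1) → Bool, fc pos neg b ∈ K.faces := by
    intro b
    have := hf b
    unfold fc
    convert this
  let o : Sph m → K.Space := fun z => ⟨oF pos neg z.1, oF_nonneg pos neg z.1,
    oF_total pos neg z.1 z.2, by
      refine K.down_closed _ (hface fun i => decide (0 ≤ z.1 i)) _
        (oF_support pos neg _ z.1 (mem_cell z)) ?_
      by_contra hne
      rw [Finset.not_nonempty_iff_eq_empty, Finsupp.support_eq_empty] at hne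
      have h := oF_total pos neg z.1 z.2
      rw [hne, Finsupp.sum_zero_index] at h
      exact zero_ne_one h⟩
  refine ⟨o, ?_, ?_⟩
  · refine (locallyFinite_of_finite (fun b : Fin (m + 1) → Bool => cell b)).continuous ?_ ?_ ?_
    · ext z
      simp only [mem_iUnion, mem_univ, iff_true]
      exact ⟨_, mem_cell z⟩
    · exact fun b => isClosed_cell b
    · intro b
      refine K.contOn_of_simplex (fc pos neg b) (hface b) o (cell b) (fun v => ?_) (fun z hz => ?_)
      · exact ((oF_cont pos neg v).comp continuous_subtype_val).continuousOn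
      · exact oF_support pos neg b z.1 hz
  · intro lab hp hn z
    show ((oF pos neg z.1).sum fun v r => r • lab v) = z.1
    rw [oF_sum]
    have e1 : ∀ i, max (z.1 i) 0 • lab (pos i) = Pi.single i (max (z.1 i) 0) := by
      intro i
      rw [hp i, ← Pi.single_smul, smul_eq_mul, mul_one]
    have e2 : ∀ i, max (-z.1 i) 0 • lab (neg i) = - Pi.single i (max (-z.1 i) 0) := by
      intro i
      rw [hn i, smul_neg, ← Pi.single_smul, smul_eq_mul, mul_one]
    rw [Finset.sum_congr rfl fun i _ => e1 i, Finset.sum_congr rfl fun i _ => e2 i]
    funext j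
    rw [Pi.add_apply, Finset.sum_apply, Finset.sum_apply]
    have s1 : ∑ i, (Pi.single i (max (z.1 i) 0) : Fin (m + 1) → ℝ) j = max (z.1 j) 0 := by
      rw [Finset.sum_eq_single j]
      · rw [Pi.single_eq_same]
      · intro i _ hij
        rw [Pi.single_eq_of_ne (Ne.symm hij)]
      · intro h
        exact absurd (Finset.mem_univ j) h
    have s2 : ∑ i, (-(Pi.single i (max (-z.1 i) 0) : Fin (m + 1) → ℝ)) j = - max (-z.1 j) 0 := by
      rw [Finset.sum_eq_single j]
      · rw [Pi.neg_apply, Pi.single_eq_same]
      · intro i _ hij
        rw [Pi.neg_apply, Pi.single_eq_of_ne (Ne.symm hij), neg_zero]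
      · intro h
        exact absurd (Finset.mem_univ j) h
    rw [s1, s2]
    rcases le_total 0 (z.1 j) with h0 | h0
    · rw [max_eq_left h0, max_eq_right (by linarith)]
      ring
    · rw [max_eq_right h0, max_eq_left (by linarith)]
      ring

end Pool.Agent.LIX.K
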