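import Pool.Agent.LIX.StmtsK

/-!
# LIX, block K: a nontrivial element of a homotopy group
-/

set_option autoImplicit false

namespace Pool.Agent.LIX.K

open Set Topology
open scoped unitInterval

namespace PIx

/-- the map `w ↦ (‖w‖ - 1/2, (1 - ‖w‖) w)` -/
noncomputable def Fp {m : ℕ} (w : Fin m → ℝ) : Fin (m + 1) → ℝ :=
  Fin.cons (‖w‖ - 1 / 2) fun j => (1 - ‖w‖) * w j

theorem Fp_zero {m : ℕ} (w : Fin m → ℝ) : Fp w 0 = ‖w‖ - 1 / 2 := rfl

theorem Fp_succ {m : ℕ} (w : Fin m → ℝ) (j : Fin m) : Fp w j.succ = (1 - ‖w‖) * w j := rfl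

theorem Fp_cont {m : ℕ} : Continuous (Fp (m := m)) := by
  refine continuous_pi fun i => ?_
  refine Fin.cases ?_ (fun j => ?_) i
  · simp only [Fp_zero]
    fun_prop
  · simp only [Fp_succ]
    fun_prop

theorem Fp_ne {m : ℕ} (w : Fin m → ℝ) : ∃ i, Fp w i ≠ 0 := by
  by_contra h
  push Not at h
  have h0 := h 0
  rw [Fp_zero] at h0
  have h1 : w = 0 := by
    funext j
    have h2 := h j.succ
    rw [Fp_succ] at h2
    rcases mul_eq_zero.1 h2 with h3 | h3
    · linarith
    · exact h3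
  rw [h1, norm_zero] at h0
  norm_num at h0

/-- the sum of the absolute values -/
noncomputable def S1 {m : ℕ} (z : Fin (m + 1) → ℝ) : ℝ := ∑ i, |z i|

theorem S1_cont {m : ℕ} : Continuous (S1 (m := m)) := by
  unfold S1
  fun_prop

theorem S1_pos {m : ℕ} (z : Fin (m + 1) → ℝ) (h : ∃ i, z i ≠ 0) : 0 < S1 z := by
  obtain ⟨i, hi⟩ := h
  exact Finset.sum_pos' (fun j _ => abs_nonneg _) ⟨i, Finset.mem_univ i, abs_pos.2 hi⟩

theorem S1_norm {m : ℕ} (z : Fin (m + 1) → ℝ) (h : ∃ i, z i ≠ 0) :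
    ∑ i, |(S1 z)⁻¹ * z i| = 1 := by
  have h1 := S1_pos z h
  simp only [abs_mul, abs_inv, abs_of_pos h1]
  rw [← Finset.mul_sum]
  exact inv_mul_cancel₀ h1.ne'

/-- the map to the sphere -/
noncomputable def Fs {m : ℕ} (w : Fin m → ℝ) : Sph m :=
  ⟨fun i => (S1 (Fp w))⁻¹ * Fp w i, S1_norm _ (Fp_ne w)⟩

theorem Fs_cont {m : ℕ} : Continuous (Fs (m := m)) := by
  refine Continuous.subtype_mk (continuous_pi fun i => ?_) _
  refine Continuous.mul ?_ ((continuous_apply i).comp Fp_cont)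
  exact (S1_cont.comp Fp_cont).inv₀ fun w => (S1_pos _ (Fp_ne w)).ne'

/-- the first unit vector -/
noncomputable def e0 (m : ℕ) : Sph m := ⟨Pi.single 0 1, by
  rw [Fin.sum_univ_succ]
  simp⟩

theorem Fs_bd {m : ℕ} (w : Fin m → ℝ) (h : ‖w‖ = 1) : Fs w = e0 m := by
  have h0 : Fp w 0 = 1 / 2 := by
    rw [Fp_zero, h]
    norm_num
  have h1 : ∀ j : Fin m, Fp w j.succ = 0 := by
    intro j
    rw [Fp_succ, h]
    ring
  have h2 : S1 (Fp w) = 1 / 2 := by
    unfold S1
    rw [Fin.sum_univ_succ, h0]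
    simp only [h1, abs_zero, Finset.sum_const_zero, add_zero]
    norm_num
  apply Subtype.ext
  funext i
  show (S1 (Fp w))⁻¹ * Fp w i = Pi.single (M := fun _ => ℝ) 0 1 i
  rw [h2]
  refine Fin.cases ?_ (fun j => ?_) i
  · rw [h0]
    simp
  · rw [h1]
    simp

/-- the coordinates in `[-1, 1]` -/
def wy {m : ℕ} (y : Fin m → I) (j : Fin m) : ℝ := 2 * (y j : ℝ) - 1

theorem wy_cont {m : ℕ} : Continuous (wy (m := m)) := by
  unfold wy
  fun_prop

theorem wy_le {m : ℕ} (y : Fin m → I) : ‖wy y‖ ≤ 1 := by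
  rw [pi_norm_le_iff_of_nonneg zero_le_one]
  intro j
  have h1 := (y j).2.1
  have h2 := (y j).2.2
  rw [Real.norm_eq_abs, abs_le]
  unfold wy
  constructor <;> linarith

theorem wy_bd {m : ℕ} (y : Fin m → I) (h : y ∈ Cube.boundary (Fin m)) : ‖wy y‖ = 1 := by
  refine le_antisymm (wy_le y) ?_
  obtain ⟨j, hj⟩ := h
  refine le_trans ?_ (norm_le_pi_norm (wy y) j)
  unfold wy
  rcases hj with hj | hj
  · rw [hj]
    norm_num
  · rw [hj]
    norm_num

/-- the time coordinate -/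
noncomputable def tp {m : ℕ} (p : Fin (m + 1) → ℝ) : I := projIcc 0 1 zero_le_one ((p 0 + 1) / 2)

/-- the space coordinates -/
noncomputable def yp {m : ℕ} (p : Fin (m + 1) → ℝ) (j : Fin m) : I :=
  projIcc 0 1 zero_le_one ((p j.succ + 1) / 2)

theorem tp_cont {m : ℕ} : Continuous (tp (m := m)) :=
  continuous_projIcc.comp (by fun_prop)

theorem yp_cont {m : ℕ} : Continuous (yp (m := m)) :=
  continuous_pi fun j => continuous_projIcc.comp (by fun_prop)

theorem yp_val {m : ℕ} (p : Fin (m + 1) → ℝ) (hp : p ∈ Icc (-1 : Fin (m + 1) → ℝ) 1) (j : Fin m) :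
    (yp p j : ℝ) = (p j.succ + 1) / 2 := by
  have h1 : -1 ≤ p j.succ := hp.1 j.succ
  have h2 : p j.succ ≤ 1 := hp.2 j.succ
  unfold yp
  rw [projIcc_of_mem zero_le_one (show (p j.succ + 1) / 2 ∈ Icc (0 : ℝ) 1 from
    ⟨by linarith, by linarith⟩)]

theorem tp_val {m : ℕ} (p : Fin (m + 1) → ℝ) (hp : p ∈ Icc (-1 : Fin (m + 1) → ℝ) 1) :
    (tp p : ℝ) = (p 0 + 1) / 2 := by
  have h1 : -1 ≤ p 0 := hp.1 0
  have h2 : p 0 ≤ 1 := hp.2 0
  unfold tp
  rw [projIcc_of_mem zero_le_one (show (p 0 + 1) / 2 ∈ Icc (0 : ℝ) 1 from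
    ⟨by linarith, by linarith⟩)]

end PIx

open PIx

theorem t_PI : M_PI := by
  intro hE X _ m Λ o hΛ hΛ0 ho hΛo
  refine ⟨o (e0 m), ?_⟩
  let f : GenLoop (Fin m) X (o (e0 m)) := ⟨⟨fun y => o (Fs (wy y)),
    ho.comp (Fs_cont.comp wy_cont)⟩, fun y hy => by
      show o (Fs (wy y)) = o (e0 m)
      rw [Fs_bd _ (wy_bd y hy)]⟩
  refine ⟨⟨Quotient.mk (GenLoop.Homotopic.setoid (Fin m) (o (e0 m))) f,
    Quotient.mk (GenLoop.Homotopic.setoid (Fin m) (o (e0 m))) GenLoop.const, fun h => ?_⟩⟩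
  have h' : GenLoop.Homotopic f GenLoop.const := Quotient.exact h
  obtain ⟨H⟩ := h'
  obtain ⟨p, hp, ⟨i, hi⟩, c, hc, hG⟩ := hE (m + 1) (fun p => Λ (H (tp p, yp p)))
    (by
      apply Continuous.continuousOn
      exact hΛ.comp (H.continuous.comp (tp_cont.prodMk yp_cont)))
    (fun p _ => hΛ0 _)
  have hG' : ∀ k, Λ (H (tp p, yp p)) k = - (c * p k) := fun k => congrFun hG k
  have hx : ∀ k, Λ (o (e0 m)) k = Pi.single (M := fun _ => ℝ) 0 1 k := fun k =>
    congrFun (hΛo (e0 m)) k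
  revert hi
  refine Fin.cases (fun hi => ?_) (fun j hi => ?_) i
  · rcases (abs_eq zero_le_one).1 hi with h0 | h0
    · have ht : tp p = 1 := by
        apply Subtype.ext
        rw [tp_val p hp, h0]
        norm_num
      have h1 : H (tp p, yp p) = o (e0 m) := by
        rw [ht]
        exact H.apply_one (yp p)
      have h2 := hG' 0
      rw [h1, hx 0, h0] at h2
      simp at h2
      linarith
    · have ht : tp p = 0 := by
        apply Subtype.ext
        rw [tp_val p hp, h0]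
        norm_num
      have h1 : H (tp p, yp p) = o (Fs (wy (yp p))) := by
        rw [ht]
        exact H.apply_zero (yp p)
      have hw : ∀ j, wy (yp p) j = p j.succ := by
        intro j
        unfold wy
        rw [yp_val p hp]
        ring
      have ha := S1_pos _ (Fp_ne (wy (yp p)))
      have ha' := inv_pos.2 ha
      have h2 : ∀ k, (S1 (Fp (wy (yp p))))⁻¹ * Fp (wy (yp p)) k = - (c * p k) := by
        intro k
        rw [← hG' k, h1, hΛo]
        rfl
      have h3 : wy (yp p) = 0 := by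
        funext j
        have h4 := h2 j.succ
        rw [Fp_succ, ← hw j] at h4
        have h5 := wy_le (yp p)
        have h6 : ((S1 (Fp (wy (yp p))))⁻¹ * (1 - ‖wy (yp p)‖) + c) * wy (yp p) j = 0 := by
          linear_combination h4
        rcases mul_eq_zero.1 h6 with h7 | h7
        · have h8 : 0 ≤ (S1 (Fp (wy (yp p))))⁻¹ * (1 - ‖wy (yp p)‖) :=
            mul_nonneg ha'.le (by linarith)
          linarith
        · exact h7
      have h4 := h2 0
      rw [Fp_zero, h3, norm_zero, h0] at h4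
      rw [h3] at ha'
      nlinarith
  · have hb : yp p ∈ Cube.boundary (Fin m) := by
      refine ⟨j, ?_⟩
      rcases (abs_eq zero_le_one).1 hi with h0 | h0
      · right
        apply Subtype.ext
        rw [yp_val p hp, h0]
        norm_num
      · left
        apply Subtype.ext
        rw [yp_val p hp, h0]
        norm_num
    have h1 : H (tp p, yp p) = o (e0 m) := by
      rw [H.eq_fst (tp p) hb]
      exact f.2 _ hb
    have h2 := hG' j.succ
    rw [h1, hx j.succ] at h2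
    simp at h2
    rcases h2 with h2 | h2
    · exact absurd h2 hc.ne'
    · rw [h2] at hi
      simp at hi

end Pool.Agent.LIX.K
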