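import Pool.Agent.LIX.StmtsL

/-!
# LIX, block L, module ARCS: joining boundary points with `nn`, `ss` off the chord
-/

set_option autoImplicit false

namespace Pool.Agent.LIX.L

open Set Metric Complex

namespace ARCSx

/-- the right (`s = 1`) or left (`s = -1`) half of the circle -/
noncomputable def arc (s t : ℝ) : ℂ := ⟨s * √(1 / 25 - t ^ 2), t⟩

theorem continuous_arc (s : ℝ) : Continuous (arc s) := by
  have h : (arc s) = fun t : ℝ => ((s * √(1 / 25 - t ^ 2) : ℝ) : ℂ) + (t : ℂ) * I := by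
    funext t
    apply Complex.ext <;> simp [arc]
  rw [h]
  fun_prop

theorem sq_norm (e : ℂ) : ‖e‖ ^ 2 = e.re ^ 2 + e.im ^ 2 := by
  rw [Complex.sq_norm, Complex.normSq_apply]
  ring

theorem circle {e : ℂ} (he : ‖e‖ = 1 / 5) : e.re ^ 2 + e.im ^ 2 = 1 / 25 := by
  rw [← sq_norm, he]
  norm_num

theorem arc_im_self {e : ℂ} (he : ‖e‖ = 1 / 5) {s : ℝ} (hs : s = 1 ∨ s = -1) (h : 0 ≤ s * e.re) :
    arc s e.im = e := by
  have h1 := circle he
  have h2 : 1 / 25 - e.im ^ 2 = (s * e.re) ^ 2 := by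
    rcases hs with rfl | rfl <;> linarith
  apply Complex.ext
  · show s * √(1 / 25 - e.im ^ 2) = e.re
    rw [h2, Real.sqrt_sq h]
    rcases hs with rfl | rfl <;> ring
  · rfl

theorem norm_arc {s : ℝ} (hs : s = 1 ∨ s = -1) {t : ℝ} (ht : |t| ≤ 1 / 5) : ‖arc s t‖ = 1 / 5 := by
  have h0 : 0 ≤ 1 / 25 - t ^ 2 := by
    have := abs_le.1 ht
    nlinarith [sq_abs t, abs_nonneg t]
  have h1 : ‖arc s t‖ ^ 2 = (1 / 5) ^ 2 := by
    rw [sq_norm]
    show (s * √(1 / 25 - t ^ 2)) ^ 2 + t ^ 2 = _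
    rw [mul_pow, Real.sq_sqrt h0]
    rcases hs with rfl | rfl <;> ring
  exact (sq_eq_sq₀ (norm_nonneg _) (by norm_num)).1 h1

theorem abs_im_le {e : ℂ} (he : ‖e‖ = 1 / 5) : |e.im| ≤ 1 / 5 := by
  rw [← he]
  exact Complex.abs_im_le_norm e

theorem joined_arc (s t₀ t₁ : ℝ) : JoinedIn (arc s '' uIcc t₀ t₁) (arc s t₀) (arc s t₁) := by
  have h1 : IsPathConnected (uIcc t₀ t₁) :=
    (convex_uIcc t₀ t₁).isPathConnected ⟨t₀, left_mem_uIcc⟩
  exact (h1.image (continuous_arc s)).joinedIn _ (mem_image_of_mem _ left_mem_uIcc) _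
    (mem_image_of_mem _ right_mem_uIcc)

end ARCSx

open ARCSx

theorem t_ARCS : M_ARCS := by
  intro hCHD b j
  obtain ⟨-, hball, -, -, hsph, hcpt, -, m, hm, hmim, -, -, -, -⟩ := hCHD b j
  have hT : ‖cpt b j true‖ = 1 / 5 ∧ 0 < (cpt b j true).re := by
    have := hcpt true
    simpa [sg] using this
  have hF : ‖cpt b j false‖ = 1 / 5 ∧ (cpt b j false).re < 0 := by
    have := hcpt false
    simpa [sg] using this
  have hcirc : ∀ e : ℂ, ‖e‖ = 1 / 5 → e ∈ Chp b j → e = cpt b j true ∨ e = cpt b j false := by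
    intro e he hC
    have : e ∈ Chp b j ∩ sphere 0 (1 / 5) := ⟨hC, by rwa [mem_sphere_zero_iff_norm]⟩
    rw [hsph] at this
    simpa using this
  have haxis : ∀ e : ℂ, e.re = 0 → 9 / 50 ≤ |e.im| → e ∉ Chp b j := by
    intro e he h9 hC
    have h1 : e ∈ Chp b j ∩ {z | z.re = 0} := ⟨hC, he⟩
    rw [hm, mem_singleton_iff] at h1
    rw [h1] at h9
    exact absurd hmim (not_lt.2 h9)
  have hnnre : nn.re = 0 := by simp [nn]
  have hnnim : nn.im = 9 / 50 := by simp [nn]
  have hssre : ss.re = 0 := by simp [ss]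
  have hssim : ss.im = -(9 / 50) := by simp [ss]
  have hUp : ∀ e, Up b j e → e ∉ Chp b j := by
    rintro e ⟨he, h1, h2⟩ hC
    rcases hcirc e he hC with rfl | rfl
    · exact lt_irrefl _ (h1 hT.2.le)
    · exact lt_irrefl _ (h2 hF.2.le)
  have hDn : ∀ e, Dn b j e → e ∉ Chp b j := by
    rintro e ⟨he, h1, h2⟩ hC
    rcases hcirc e he hC with rfl | rfl
    · exact lt_irrefl _ (h1 hT.2.le)
    · exact lt_irrefl _ (h2 hF.2.le)
  -- the vertical segments
  have hseg : ∀ σ : ℝ, σ = 1 ∨ σ = -1 → JoinedIn (closedBall 0 (1 / 5) \ Chp b j)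
      (((σ * (9 / 50) : ℝ) : ℂ) * I) (((σ * (1 / 5) : ℝ) : ℂ) * I) := by
    intro σ hσ
    have h1 : IsPathConnected (Icc (9 / 50 : ℝ) (1 / 5)) :=
      (convex_Icc _ _).isPathConnected ⟨9 / 50, by constructor <;> norm_num⟩
    have hc : Continuous fun t : ℝ => ((σ * t : ℝ) : ℂ) * I := by fun_prop
    have h2 := (h1.image hc).joinedIn _ (mem_image_of_mem _ (show (9 / 50 : ℝ) ∈ Icc (9 / 50 : ℝ) (1 / 5) by
      constructor <;> norm_num)) _ (mem_image_of_mem _ (show (1 / 5 : ℝ) ∈ Icc (9 / 50 : ℝ) (1 / 5) by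
      constructor <;> norm_num))
    refine h2.mono ?_
    rintro _ ⟨t, ⟨ht1, ht2⟩, rfl⟩
    have habs : |σ * t| = t := by
      rcases hσ with rfl | rfl
      · rw [one_mul, abs_of_nonneg (by linarith)]
      · rw [neg_one_mul, abs_neg, abs_of_nonneg (by linarith)]
    constructor
    · rw [mem_closedBall_zero_iff, norm_mul, Complex.norm_I, mul_one, Complex.norm_real,
        Real.norm_eq_abs, habs]
      exact ht2
    · refine haxis _ (by simp) ?_
      have h3 : ((((σ * t : ℝ) : ℂ) * I)).im = σ * t := by simp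
      rw [h3, habs]
      exact ht1
  -- the arcs
  have harc : ∀ (s : ℝ), s = 1 ∨ s = -1 → ∀ (t₀ t₁ : ℝ), |t₀| ≤ 1 / 5 → |t₁| ≤ 1 / 5 →
      (∀ t ∈ uIcc t₀ t₁, (s = 1 → t ≠ (cpt b j true).im) ∧ (s = -1 → t ≠ (cpt b j false).im)) →
      JoinedIn (closedBall 0 (1 / 5) \ Chp b j) (arc s t₀) (arc s t₁) := by
    intro s hs t₀ t₁ h0 h1 hne
    refine (joined_arc s t₀ t₁).mono ?_
    rintro _ ⟨t, ht, rfl⟩
    have habs : |t| ≤ 1 / 5 := by
      have h0' := abs_le.1 h0
      have h1' := abs_le.1 h1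
      rw [abs_le]
      rcases mem_uIcc.1 ht with h | h
      · exact ⟨h0'.1.trans h.1, h.2.trans h1'.2⟩
      · exact ⟨h1'.1.trans h.1, h.2.trans h0'.2⟩
    have hn := norm_arc hs habs
    refine ⟨by rw [mem_closedBall_zero_iff, hn], fun hC => ?_⟩
    have hsq : 0 ≤ √(1 / 25 - t ^ 2) := Real.sqrt_nonneg _
    rcases hcirc _ hn hC with h | h
    · rcases hs with rfl | rfl
      · exact (hne t ht).1 rfl (congrArg Complex.im h)
      · have h3 : -1 * √(1 / 25 - t ^ 2) = (cpt b j true).re := congrArg Complex.re h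
        have := hT.2
        linarith
    · rcases hs with rfl | rfl
      · have h3 : 1 * √(1 / 25 - t ^ 2) = (cpt b j false).re := congrArg Complex.re h
        have := hF.2
        linarith
      · exact (hne t ht).2 rfl (congrArg Complex.im h)
  have hzero : √(1 / 25 - (1 / 5 : ℝ) ^ 2) = 0 := by
    rw [show (1 / 25 - (1 / 5 : ℝ) ^ 2) = 0 by norm_num, Real.sqrt_zero]
  have harc_top : ∀ s : ℝ, arc s (1 / 5) = (((1 : ℝ) * (1 / 5) : ℝ) : ℂ) * I := by
    intro s
    apply Complex.ext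
    · show s * √(1 / 25 - (1 / 5 : ℝ) ^ 2) = _
      rw [hzero]
      simp
    · show (1 / 5 : ℝ) = _
      simp
  have harc_bot : ∀ s : ℝ, arc s (-(1 / 5)) = (((-1 : ℝ) * (1 / 5) : ℝ) : ℂ) * I := by
    intro s
    apply Complex.ext
    · show s * √(1 / 25 - (-(1 / 5 : ℝ)) ^ 2) = _
      rw [neg_sq, hzero]
      simp
    · show (-(1 / 5 : ℝ)) = _
      simp
  have hnn : nn = ((((1 : ℝ) * (9 / 50) : ℝ) : ℂ)) * I := by rw [nn, one_mul]
  have hss : ss = ((((-1 : ℝ) * (9 / 50) : ℝ) : ℂ)) * I := by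
    rw [ss]
    push_cast
    ring
  refine ⟨?_, ?_, ?_, hUp, hDn, ?_, ?_⟩
  · rintro e ⟨he, h1, h2⟩
    have habs := abs_im_le he
    have htop := hseg 1 (Or.inl rfl)
    rw [← hnn] at htop
    rcases le_total 0 e.re with hre | hre
    · have h3 := harc 1 (Or.inl rfl) (1 / 5) e.im (by norm_num) habs (by
        intro t ht
        rw [mem_uIcc] at ht
        have h4 := h1 hre
        have h5 := (abs_le.1 habs).2
        refine ⟨fun _ h6 => ?_, fun h6 => absurd h6 (by norm_num)⟩
        rcases ht with ht | ht <;> linarith [ht.1, ht.2])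
      rw [harc_top, arc_im_self he (Or.inl rfl) (by linarith)] at h3
      exact htop.trans h3
    · have h3 := harc (-1) (Or.inr rfl) (1 / 5) e.im (by norm_num) habs (by
        intro t ht
        rw [mem_uIcc] at ht
        have h4 := h2 hre
        have h5 := (abs_le.1 habs).2
        refine ⟨fun h6 => absurd h6 (by norm_num), fun _ h6 => ?_⟩
        rcases ht with ht | ht <;> linarith [ht.1, ht.2])
      rw [harc_top, arc_im_self he (Or.inr rfl) (by linarith)] at h3
      exact htop.trans h3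
  · rintro e ⟨he, h1, h2⟩
    have habs := abs_im_le he
    have hbot := hseg (-1) (Or.inr rfl)
    rw [← hss] at hbot
    rcases le_total 0 e.re with hre | hre
    · have h3 := harc 1 (Or.inl rfl) (-(1 / 5)) e.im (by rw [abs_neg]; norm_num) habs (by
        intro t ht
        rw [mem_uIcc] at ht
        have h4 := h1 hre
        have h5 := (abs_le.1 habs).1
        refine ⟨fun _ h6 => ?_, fun h6 => absurd h6 (by norm_num)⟩
        rcases ht with ht | ht <;> linarith [ht.1, ht.2])
      rw [harc_bot, arc_im_self he (Or.inl rfl) (by linarith)] at h3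
      exact hbot.trans h3
    · have h3 := harc (-1) (Or.inr rfl) (-(1 / 5)) e.im (by rw [abs_neg]; norm_num) habs (by
        intro t ht
        rw [mem_uIcc] at ht
        have h4 := h2 hre
        have h5 := (abs_le.1 habs).1
        refine ⟨fun h6 => absurd h6 (by norm_num), fun _ h6 => ?_⟩
        rcases ht with ht | ht <;> linarith [ht.1, ht.2])
      rw [harc_bot, arc_im_self he (Or.inr rfl) (by linarith)] at h3
      exact hbot.trans h3
  · intro e he
    have hce := circle he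
    have hcT := circle hT.1
    have hcF := circle hF.1
    rcases lt_trichotomy e.re 0 with hre | hre | hre
    · rcases lt_trichotomy e.im (cpt b j false).im with h | h | h
      · exact Or.inr (Or.inr (Or.inr ⟨he, fun h5 => absurd hre (not_lt.2 h5), fun _ => h⟩))
      · right
        left
        apply Complex.ext _ h
        rw [h] at hce
        have h6 : e.re ^ 2 = (cpt b j false).re ^ 2 := by linarith
        rcases sq_eq_sq_iff_eq_or_eq_neg.1 h6 with h7 | h7
        · exact h7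
        · have := hF.2
          linarith
      · exact Or.inr (Or.inr (Or.inl ⟨he, fun h5 => absurd hre (not_lt.2 h5), fun _ => h⟩))
    · have hT1 : (cpt b j true).im ^ 2 < 1 / 25 := by nlinarith [hT.2]
      have hF1 : (cpt b j false).im ^ 2 < 1 / 25 := by nlinarith [hF.2]
      have hT2 := abs_lt.1 (abs_lt_of_sq_lt_sq (show (cpt b j true).im ^ 2 < (1 / 5 : ℝ) ^ 2 by
        norm_num; linarith) (by norm_num))
      have hF2 := abs_lt.1 (abs_lt_of_sq_lt_sq (show (cpt b j false).im ^ 2 < (1 / 5 : ℝ) ^ 2 by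
        norm_num; linarith) (by norm_num))
      have h6 : e.im ^ 2 = (1 / 5) ^ 2 := by
        rw [hre] at hce
        linarith
      rcases sq_eq_sq_iff_eq_or_eq_neg.1 h6 with h7 | h7
      · right; right; left
        exact ⟨he, fun _ => by rw [h7]; exact hT2.2, fun _ => by rw [h7]; exact hF2.2⟩
      · right; right; right
        exact ⟨he, fun _ => by rw [h7]; exact hT2.1, fun _ => by rw [h7]; exact hF2.1⟩
    · rcases lt_trichotomy e.im (cpt b j true).im with h | h | h
      · exact Or.inr (Or.inr (Or.inr ⟨he, fun _ => h, fun h5 => absurd hre (not_lt.2 h5)⟩))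
      · left
        apply Complex.ext _ h
        rw [h] at hce
        have h6 : e.re ^ 2 = (cpt b j true).re ^ 2 := by linarith
        rcases sq_eq_sq_iff_eq_or_eq_neg.1 h6 with h7 | h7
        · exact h7
        · have := hT.2
          linarith
      · exact Or.inr (Or.inr (Or.inl ⟨he, fun _ => h, fun h5 => absurd hre (not_lt.2 h5)⟩))
  · exact haxis nn hnnre (by rw [hnnim, abs_of_nonneg (by norm_num)])
  · exact haxis ss hssre (by rw [hssim, abs_neg, abs_of_nonneg (by norm_num)])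

end Pool.Agent.LIX.L
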