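import Pool.Agent.LIX.StmtsL

/-!
# LIX, block L, module CHD: the projected chords
-/

set_option autoImplicit false

namespace Pool.Agent.LIX.L

open Set Metric Complex

namespace CHDx

theorem sg_cases (b : Bool) : (b = true ∧ sg b = 1) ∨ (b = false ∧ sg b = -1) := by
  cases b <;> simp [sg]

theorem sg_sq (b : Bool) : sg b * sg b = 1 := by
  cases b <;> simp [sg]

theorem sg_not (b : Bool) : sg (!b) = -sg b := by
  cases b <;> simp [sg]

theorem abs_sg (b : Bool) : |sg b| = 1 := by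
  cases b <;> simp [sg]

theorem continuous_hj (j : Fin 3) : Continuous (hj j) := by
  fin_cases j
  · change Continuous fun f : ℝ => 2 + 4 * f
    fun_prop
  · change Continuous fun f : ℝ => 3 + 6 * f
    fun_prop
  · change Continuous fun f : ℝ => 6 + 4 * f
    fun_prop

theorem strictMono_hj (j : Fin 3) : StrictMono (hj j) := by
  intro x y h
  fin_cases j
  · change 2 + 4 * x < 2 + 4 * y
    linarith
  · change 3 + 6 * x < 3 + 6 * y
    linarith
  · change 6 + 4 * x < 6 + 4 * y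
    linarith

theorem hj_half (j : Fin 3) : 2 < hj j (1 / 2) ∧ hj j (1 / 2) ≤ 8 := by
  fin_cases j
  · change 2 < 2 + 4 * (1 / 2 : ℝ) ∧ 2 + 4 * (1 / 2 : ℝ) ≤ 8
    norm_num
  · change 2 < 3 + 6 * (1 / 2 : ℝ) ∧ 3 + 6 * (1 / 2 : ℝ) ≤ 8
    norm_num
  · change 2 < 6 + 4 * (1 / 2 : ℝ) ∧ 6 + 4 * (1 / 2 : ℝ) ≤ 8
    norm_num

theorem rt_pos (m : ℝ) : 0 < √(1 + m ^ 2) := Real.sqrt_pos.2 (by positivity)

theorem rt_sq (m : ℝ) : √(1 + m ^ 2) ^ 2 = 1 + m ^ 2 := Real.sq_sqrt (by positivity)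

/-- `x / √(1 + x²)` is injective. -/
theorem slope_inj {x y : ℝ} (h : x / (5 * √(1 + x ^ 2)) = y / (5 * √(1 + y ^ 2))) : x = y := by
  have hx := rt_pos x
  have hy := rt_pos y
  have hx2 := rt_sq x
  have hy2 := rt_sq y
  rw [div_eq_div_iff (by positivity) (by positivity)] at h
  have h1 : x * √(1 + y ^ 2) = y * √(1 + x ^ 2) := by linarith
  have h2 : (x * √(1 + y ^ 2)) ^ 2 = (y * √(1 + x ^ 2)) ^ 2 := by rw [h1]
  rw [mul_pow, mul_pow, hx2, hy2] at h2
  have h3 : x ^ 2 = y ^ 2 := by linarith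
  have h4 : √(1 + x ^ 2) = √(1 + y ^ 2) := by rw [h3]
  rw [h4] at h1
  exact mul_right_cancel₀ hy.ne' h1

/-- the projected curve -/
noncomputable def gm (b : Bool) (j : Fin 3) (f : ℝ) : ℂ :=
  ⟨sg b * Real.cos (Real.pi * f) / (5 * √(1 + Mf (hj j f) ^ 2)),
    Mf (hj j f) / (5 * √(1 + Mf (hj j f) ^ 2))⟩

/-- the curve on the sphere -/
noncomputable def vv (b : Bool) (j : Fin 3) (f : ℝ) : ℂ × ℝ :=
  (((sg b / √(1 + Mf (hj j f) ^ 2) : ℝ) : ℂ) * exp ((Real.pi * f : ℝ) * I),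
    Mf (hj j f) / √(1 + Mf (hj j f) ^ 2))

theorem gm_re (b : Bool) (j : Fin 3) (f : ℝ) :
    (gm b j f).re = sg b * Real.cos (Real.pi * f) / (5 * √(1 + Mf (hj j f) ^ 2)) := rfl

theorem gm_im (b : Bool) (j : Fin 3) (f : ℝ) :
    (gm b j f).im = Mf (hj j f) / (5 * √(1 + Mf (hj j f) ^ 2)) := rfl

theorem continuous_gm (hm : Continuous Mf) (b : Bool) (j : Fin 3) : Continuous (gm b j) := by
  have h1 : Continuous fun f => Mf (hj j f) := hm.comp (continuous_hj j)
  have h2 : Continuous fun f => 5 * √(1 + Mf (hj j f) ^ 2) := by fun_prop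
  have h3 : ∀ f, 5 * √(1 + Mf (hj j f) ^ 2) ≠ 0 := fun f => by
    have := rt_pos (Mf (hj j f))
    positivity
  have h4 : Continuous fun f => sg b * Real.cos (Real.pi * f) / (5 * √(1 + Mf (hj j f) ^ 2)) :=
    Continuous.div (by fun_prop) h2 h3
  have h5 : Continuous fun f => Mf (hj j f) / (5 * √(1 + Mf (hj j f) ^ 2)) :=
    Continuous.div h1 h2 h3
  have h6 : Continuous fun f => ((sg b * Real.cos (Real.pi * f) /
      (5 * √(1 + Mf (hj j f) ^ 2)) : ℝ) : ℂ) +
      ((Mf (hj j f) / (5 * √(1 + Mf (hj j f) ^ 2)) : ℝ) : ℂ) * I :=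
    (continuous_ofReal.comp h4).add ((continuous_ofReal.comp h5).mul continuous_const)
  refine h6.congr fun f => ?_
  refine Complex.ext ?_ ?_
  · rw [gm_re]
    simp only [add_re, ofReal_re, mul_re, I_re, mul_zero, ofReal_im, I_im, mul_one, sub_self,
      add_zero]
  · rw [gm_im]
    simp only [add_im, ofReal_re, mul_im, I_re, mul_zero, ofReal_im, I_im, mul_one, zero_add,
      add_zero]

theorem gm_injective (hm : StrictMono Mf) (b : Bool) (j : Fin 3) : Function.Injective (gm b j) := by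
  intro f g h
  have h1 := congrArg Complex.im h
  rw [gm_im, gm_im] at h1
  exact (strictMono_hj j).injective (hm.injective (slope_inj h1))

theorem norm_sq_gm (b : Bool) (j : Fin 3) (f : ℝ) :
    ‖gm b j f‖ ^ 2 * (25 * (1 + Mf (hj j f) ^ 2)) =
      Real.cos (Real.pi * f) ^ 2 + Mf (hj j f) ^ 2 := by
  have h1 := rt_pos (Mf (hj j f))
  have h2 := rt_sq (Mf (hj j f))
  rw [← Complex.normSq_eq_norm_sq, Complex.normSq_apply, gm_re, gm_im]
  have h4 : sg b ^ 2 = 1 := by rw [sq, sg_sq]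
  generalize √(1 + Mf (hj j f) ^ 2) = r at h1 h2
  rw [← h2]
  have h5 : sg b * Real.cos (Real.pi * f) / (5 * r) * (sg b * Real.cos (Real.pi * f) / (5 * r)) +
      Mf (hj j f) / (5 * r) * (Mf (hj j f) / (5 * r)) =
      (sg b ^ 2 * Real.cos (Real.pi * f) ^ 2 + Mf (hj j f) ^ 2) / (25 * r ^ 2) := by
    field_simp
    ring
  rw [h5, h4, one_mul]
  exact div_mul_cancel₀ _ (by positivity)

theorem norm_vv (b : Bool) (j : Fin 3) (f : ℝ) :
    ‖(vv b j f).1‖ = 1 / √(1 + Mf (hj j f) ^ 2) := by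
  have h1 := rt_pos (Mf (hj j f))
  unfold vv
  dsimp only
  rw [norm_mul, Complex.norm_exp_ofReal_mul_I, Complex.norm_real, Real.norm_eq_abs, abs_div,
    abs_sg, abs_of_pos h1, mul_one]

theorem vv_mem_Sph (b : Bool) (j : Fin 3) (f : ℝ) : vv b j f ∈ Sph := by
  change ‖(vv b j f).1‖ ^ 2 + (vv b j f).2 ^ 2 = 1
  have h1 := rt_pos (Mf (hj j f))
  have h2 := rt_sq (Mf (hj j f))
  rw [norm_vv]
  unfold vv
  dsimp only
  rw [div_pow, div_pow, h2, one_pow, ← add_div]
  exact div_self (by positivity)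

theorem vv_re (b : Bool) (j : Fin 3) (f : ℝ) :
    (vv b j f).1.re = sg b / √(1 + Mf (hj j f) ^ 2) * Real.cos (Real.pi * f) := by
  unfold vv
  dsimp only
  rw [Complex.re_ofReal_mul, Complex.exp_ofReal_mul_I_re]

theorem vv_im (b : Bool) (j : Fin 3) (f : ℝ) :
    (vv b j f).1.im = sg b / √(1 + Mf (hj j f) ^ 2) * Real.sin (Real.pi * f) := by
  unfold vv
  dsimp only
  rw [Complex.im_ofReal_mul, Complex.exp_ofReal_mul_I_im]

theorem lon_vv (b : Bool) (j : Fin 3) {f : ℝ} (hf : f ∈ Icc (0 : ℝ) 1) : lon b (vv b j f) = f := by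
  have h1 := rt_pos (Mf (hj j f))
  have hp := Real.pi_pos
  have h2 : (sg b : ℂ) * (vv b j f).1 =
      ((1 / √(1 + Mf (hj j f) ^ 2) : ℝ) : ℂ) * exp ((Real.pi * f : ℝ) * I) := by
    unfold vv
    dsimp only
    rw [← mul_assoc, ← Complex.ofReal_mul, ← mul_div_assoc, sg_sq]
  unfold lon
  rw [h2, Complex.arg_real_mul _ (by positivity), Complex.arg_exp_mul_I,
    (toIocMod_eq_self _).2, mul_div_cancel_left₀ _ hp.ne']
  constructor
  · nlinarith [hf.1]
  · nlinarith [hf.2]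

theorem ch_eq (h2 : S.S_LON) (h3 : S.S_DLC) (b : Bool) (j : Fin 3) :
    ch b j = vv b j '' Icc 0 1 := by
  ext v
  constructor
  · intro hv
    obtain ⟨-, -, -, -, -, -, h0⟩ := h3 b j
    have hv0 := h0 v hv
    obtain ⟨⟨hs, hi⟩, hd⟩ := hv
    have hs' : ‖v.1‖ ^ 2 + v.2 ^ 2 = 1 := hs
    obtain ⟨-, hl⟩ := h2 b
    obtain ⟨hf, he, -, -⟩ := hl v hv0 hi
    refine ⟨lon b v, hf, ?_⟩
    have hd' : v.2 = ‖v.1‖ * Mf (hj j (lon b v)) := by
      have hd2 : v.2 - ‖v.1‖ * Mf (hj j (lon b v)) = 0 := hd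
      linarith
    have h4 := rt_pos (Mf (hj j (lon b v)))
    have h5 := rt_sq (Mf (hj j (lon b v)))
    have hn : 0 < ‖v.1‖ := norm_pos_iff.2 hv0
    have h6 : (‖v.1‖ * √(1 + Mf (hj j (lon b v)) ^ 2)) ^ 2 = 1 ^ 2 := by
      rw [mul_pow, h5]
      have h61 : v.2 ^ 2 = ‖v.1‖ ^ 2 * Mf (hj j (lon b v)) ^ 2 := by rw [hd', mul_pow]
      rw [h61] at hs'
      linarith
    have h7 : ‖v.1‖ * √(1 + Mf (hj j (lon b v)) ^ 2) = 1 :=
      (sq_eq_sq₀ (by positivity) zero_le_one).1 h6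
    have h8 : ‖v.1‖ = 1 / √(1 + Mf (hj j (lon b v)) ^ 2) := by
      rw [eq_div_iff h4.ne']
      exact h7
    refine Prod.ext ?_ ?_
    · change ((sg b / √(1 + Mf (hj j (lon b v)) ^ 2) : ℝ) : ℂ) *
        exp ((Real.pi * lon b v : ℝ) * I) = v.1
      rw [he.trans rfl]
      have h9 : (sg b : ℂ) * (‖v.1‖ : ℂ) = ((sg b / √(1 + Mf (hj j (lon b v)) ^ 2) : ℝ) : ℂ) := by
        rw [← Complex.ofReal_mul, h8]
        congr 1
        ring
      rw [h9]
    · change Mf (hj j (lon b v)) / √(1 + Mf (hj j (lon b v)) ^ 2) = v.2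
      rw [hd', h8]
      ring
  · rintro ⟨f, hf, rfl⟩
    have h1 := rt_pos (Mf (hj j f))
    have hp := Real.pi_pos
    refine ⟨⟨vv_mem_Sph b j f, ?_⟩, ?_⟩
    · rw [vv_im]
      have h4 : sg b * (sg b / √(1 + Mf (hj j f) ^ 2) * Real.sin (Real.pi * f)) =
          Real.sin (Real.pi * f) / √(1 + Mf (hj j f) ^ 2) := by
        have := sg_sq b
        calc sg b * (sg b / √(1 + Mf (hj j f) ^ 2) * Real.sin (Real.pi * f)) =
            (sg b * sg b) * (Real.sin (Real.pi * f) / √(1 + Mf (hj j f) ^ 2)) := by ring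
          _ = _ := by rw [this, one_mul]
      rw [h4]
      refine div_nonneg (Real.sin_nonneg_of_nonneg_of_le_pi ?_ ?_) h1.le
      · nlinarith [hf.1]
      · nlinarith [hf.2]
    · change (vv b j f).2 - ‖(vv b j f).1‖ * Mf (hj j (lon b (vv b j f))) = 0
      rw [lon_vv b j hf, norm_vv]
      change Mf (hj j f) / √(1 + Mf (hj j f) ^ 2) - 1 / √(1 + Mf (hj j f) ^ 2) * Mf (hj j f) = 0
      ring

theorem pr_col (h : S_PRJ) (b : Bool) (j : Fin 3) (f : ℝ) : pr (col (vv b j f, 0)) = gm b j f := by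
  have h1 := nrm_colarg (vv_mem_Sph b j f) (le_refl (0 : ℝ))
  have h2 := rt_pos (Mf (hj j f))
  rw [col_eq, h.1 _ (by rw [h1]; norm_num)]
  dsimp only
  refine Complex.ext ?_ ?_
  · rw [gm_re]
    simp only [add_re, ofReal_re, mul_re, I_re, mul_zero, ofReal_im, I_im, mul_one, sub_self,
      add_zero, zero_mul, sub_zero]
    rw [vv_re]
    field_simp
  · rw [gm_im]
    simp only [add_im, ofReal_re, mul_im, I_re, mul_zero, ofReal_im, I_im, mul_one, zero_add,
      add_zero]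
    change 1 / 5 * (Mf (hj j f) / √(1 + Mf (hj j f) ^ 2)) = _
    field_simp

theorem Chd_eq (h2 : S.S_LON) (h3 : S.S_DLC) (b : Bool) (j : Fin 3) :
    Chd b j = (fun f => col (vv b j f, 0)) '' Icc 0 1 := by
  unfold Chd
  rw [ch_eq h2 h3, image_image]

theorem Chp_eq (h2 : S.S_LON) (h3 : S.S_DLC) (h4 : S_PRJ) (b : Bool) (j : Fin 3) :
    Chp b j = gm b j '' Icc 0 1 := by
  unfold Chp
  rw [Chd_eq h2 h3, image_image]
  exact image_congr fun f _ => pr_col h4 b j f

theorem norm_cp (r : Bool) (h : ℝ) : ‖cp r h‖ = 1 / 5 := by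
  have h1 := rt_pos (Mf h)
  have h2 := rt_sq (Mf h)
  have h3 : ‖cp r h‖ ^ 2 = (1 / 5) ^ 2 := by
    rw [← Complex.normSq_eq_norm_sq, Complex.normSq_apply]
    unfold cp
    dsimp only
    have h4 : sg r ^ 2 = 1 := by rw [sq, sg_sq]
    have h5 : sg r / (5 * √(1 + Mf h ^ 2)) * (sg r / (5 * √(1 + Mf h ^ 2))) +
        Mf h / (5 * √(1 + Mf h ^ 2)) * (Mf h / (5 * √(1 + Mf h ^ 2))) =
        (sg r ^ 2 + Mf h ^ 2) / (25 * √(1 + Mf h ^ 2) ^ 2) := by
      field_simp
      ring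
    rw [h5, h4, h2, div_eq_iff (by positivity)]
    ring
  exact (sq_eq_sq₀ (norm_nonneg _) (by norm_num)).1 h3

theorem cp_re (r : Bool) (h : ℝ) : 0 < sg r * (cp r h).re := by
  have h1 := rt_pos (Mf h)
  unfold cp
  dsimp only
  rw [← mul_div_assoc, sg_sq]
  positivity

theorem gm_zero (b : Bool) (j : Fin 3) : gm b j 0 = cpt b j b := by
  unfold cpt cp hg gm
  rw [if_pos rfl, mul_zero, Real.cos_zero, mul_one]

theorem gm_one (b : Bool) (j : Fin 3) : gm b j 1 = cpt b j (!b) := by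
  unfold cpt cp hg gm
  rw [if_neg (by cases b <;> simp), sg_not, mul_one, Real.cos_pi]
  congr 2
  ring

theorem cos_pos_iff {f : ℝ} (hf : f ∈ Icc (0 : ℝ) 1) : 0 < Real.cos (Real.pi * f) ↔ f < 1 / 2 := by
  have hp := Real.pi_pos
  constructor
  · intro h
    by_contra h'
    have h1 := Real.cos_nonpos_of_pi_div_two_le_of_le (x := Real.pi * f)
      (by nlinarith [not_lt.1 h']) (by nlinarith [hf.2])
    linarith
  · intro h
    exact Real.cos_pos_of_mem_Ioo ⟨by nlinarith [hf.1], by nlinarith⟩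

theorem cos_neg_iff {f : ℝ} (hf : f ∈ Icc (0 : ℝ) 1) : Real.cos (Real.pi * f) < 0 ↔ 1 / 2 < f := by
  have hp := Real.pi_pos
  constructor
  · intro h
    by_contra h'
    have h1 := Real.cos_nonneg_of_mem_Icc (x := Real.pi * f)
      ⟨by nlinarith [hf.1], by nlinarith [not_lt.1 h']⟩
    linarith
  · intro h
    exact Real.cos_neg_of_pi_div_two_lt_of_lt (by nlinarith) (by nlinarith [hf.2])

theorem re_pos_iff (b : Bool) (j : Fin 3) (f : ℝ) :
    0 < (gm b j f).re ↔ 0 < sg b * Real.cos (Real.pi * f) := by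
  have h1 := rt_pos (Mf (hj j f))
  rw [gm_re]
  constructor
  · intro h
    by_contra h'
    have := div_nonpos_of_nonpos_of_nonneg (not_lt.1 h')
      (show 0 ≤ 5 * √(1 + Mf (hj j f) ^ 2) by positivity)
    linarith
  · intro h
    positivity

theorem re_neg_iff (b : Bool) (j : Fin 3) (f : ℝ) :
    (gm b j f).re < 0 ↔ sg b * Real.cos (Real.pi * f) < 0 := by
  have h1 := rt_pos (Mf (hj j f))
  rw [gm_re]
  constructor
  · intro h
    by_contra h'
    have := div_nonneg (not_lt.1 h') (show 0 ≤ 5 * √(1 + Mf (hj j f) ^ 2) by positivity)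
    linarith
  · intro h
    exact div_neg_of_neg_of_pos h (by positivity)

/-- images of the parts of a curve -/
theorem part_eq (g : ℝ → ℂ) (A : Set ℝ) (P : Set ℂ) (Q : Set ℝ) (hQ : Q ⊆ A)
    (h : ∀ f ∈ A, g f ∈ P ↔ f ∈ Q) : g '' A ∩ P = g '' Q := by
  ext x
  constructor
  · rintro ⟨⟨f, hf, rfl⟩, hx⟩
    exact ⟨f, (h f hf).1 hx, rfl⟩
  · rintro ⟨f, hf, rfl⟩
    exact ⟨⟨f, hQ hf, rfl⟩, (h f (hQ hf)).2 hf⟩

theorem part_facts (g : ℝ → ℂ) (hg : Continuous g) :
    IsPreconnected (g '' Ico 0 (1 / 2)) ∧ IsPreconnected (g '' Ioc (1 / 2) 1) ∧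
      g (1 / 2) ∈ closure (g '' Ico 0 (1 / 2)) ∧ g (1 / 2) ∈ closure (g '' Ioc (1 / 2) 1) := by
  refine ⟨isPreconnected_Ico.image _ hg.continuousOn, isPreconnected_Ioc.image _ hg.continuousOn,
    ?_, ?_⟩
  · refine image_closure_subset_closure_image hg ⟨1 / 2, ?_, rfl⟩
    rw [closure_Ico (by norm_num)]
    norm_num
  · refine image_closure_subset_closure_image hg ⟨1 / 2, ?_, rfl⟩
    rw [closure_Ioc (by norm_num)]
    norm_num

end CHDx

open CHDx in
theorem t_CHD : M_CHD := by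
  intro h1 h2 h3 h4 b j
  obtain ⟨hmc, hmm, -, hm2, -, -, hm8, -, -, -⟩ := h1
  have hg := continuous_gm hmc b j
  have hE := Chp_eq h2 h3 h4 b j
  have hsq : ∀ f, ‖gm b j f‖ ≤ 1 / 5 := by
    intro f
    have k1 := norm_sq_gm b j f
    have k2 := Real.cos_sq_le_one (Real.pi * f)
    have k3 : 0 ≤ Mf (hj j f) ^ 2 := sq_nonneg _
    have k4 : ‖gm b j f‖ ^ 2 ≤ (1 / 5) ^ 2 := by
      by_contra k5
      have k6 := not_le.1 k5
      nlinarith
    exact (sq_le_sq₀ (norm_nonneg _) (by norm_num)).1 k4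
  refine ⟨?_, ?_, ?_, ?_, ?_, fun r => ⟨norm_cp r _, cp_re r _⟩, ?_, gm b j (1 / 2), ?_, ?_, ?_⟩
  · rw [hE]
    exact isCompact_Icc.image hg
  · rw [hE]
    rintro _ ⟨f, -, rfl⟩
    rw [mem_closedBall_zero_iff]
    exact hsq f
  · rw [Chd_eq h2 h3, collar_TT.bd]
    rintro _ ⟨f, -, rfl⟩
    exact ⟨(vv b j f, 0), ⟨vv_mem_Sph b j f, rfl⟩, rfl⟩
  · rw [Chd_eq h2 h3]
    exact ⟨_, 0, ⟨le_rfl, zero_le_one⟩, rfl⟩
  · rw [hE]
    ext x
    constructor
    · rintro ⟨⟨f, hf, rfl⟩, hx⟩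
      rw [mem_sphere_zero_iff_norm] at hx
      have k1 := norm_sq_gm b j f
      rw [hx] at k1
      have k2 : Real.cos (Real.pi * f) ^ 2 = 1 := by linarith
      have hp := Real.pi_pos
      have k3 : Real.sin (Real.pi * f) = 0 := by
        have := Real.sin_sq_add_cos_sq (Real.pi * f)
        have k4 : Real.sin (Real.pi * f) ^ 2 = 0 := by linarith
        exact pow_eq_zero_iff (two_ne_zero) |>.1 k4
      have k5 : f = 0 ∨ f = 1 := by
        by_contra k6
        push Not at k6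
        have k7 : 0 < f := lt_of_le_of_ne hf.1 (Ne.symm k6.1)
        have k8 : f < 1 := lt_of_le_of_ne hf.2 k6.2
        have := Real.sin_pos_of_pos_of_lt_pi (x := Real.pi * f) (by positivity) (by nlinarith)
        linarith
      rcases k5 with rfl | rfl
      · rw [gm_zero]
        cases b <;> simp
      · rw [gm_one]
        cases b <;> simp
    · intro hx
      have k1 : x = gm b j 0 ∨ x = gm b j 1 := by
        rw [gm_zero, gm_one]
        cases b
        · simp only [Bool.not_false]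
          rcases hx with hx | hx
          · exact Or.inr hx
          · exact Or.inl hx
        · simp only [Bool.not_true]
          rcases hx with hx | hx
          · exact Or.inl hx
          · exact Or.inr hx
      rcases k1 with rfl | rfl
      · exact ⟨⟨0, ⟨le_rfl, zero_le_one⟩, rfl⟩, by
          rw [mem_sphere_zero_iff_norm, gm_zero]
          exact norm_cp _ _⟩
      · exact ⟨⟨1, ⟨zero_le_one, le_rfl⟩, rfl⟩, by
          rw [mem_sphere_zero_iff_norm, gm_one]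
          exact norm_cp _ _⟩
  · rw [Chd_eq h2 h3]
    rintro _ ⟨f, -, rfl⟩ _ ⟨f', -, rfl⟩ h
    dsimp only at h ⊢
    rw [pr_col h4, pr_col h4] at h
    rw [gm_injective hmm b j h]
  · rw [hE]
    ext x
    constructor
    · rintro ⟨⟨f, hf, rfl⟩, hx⟩
      have hx' : (gm b j f).re = 0 := hx
      have k1 : ¬ 0 < sg b * Real.cos (Real.pi * f) := fun k => by
        have := (re_pos_iff b j f).2 k
        linarith
      have k2 : ¬ sg b * Real.cos (Real.pi * f) < 0 := fun k => by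
        have := (re_neg_iff b j f).2 k
        linarith
      have k3 : f = 1 / 2 := by
        rcases sg_cases b with ⟨-, hs⟩ | ⟨-, hs⟩
        · rw [hs, one_mul] at k1 k2
          rw [cos_pos_iff hf] at k1
          rw [cos_neg_iff hf] at k2
          linarith
        · rw [hs] at k1 k2
          have k4 : ¬ Real.cos (Real.pi * f) < 0 := fun h => k1 (by linarith)
          have k5 : ¬ 0 < Real.cos (Real.pi * f) := fun h => k2 (by linarith)
          rw [cos_pos_iff hf] at k5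
          rw [cos_neg_iff hf] at k4
          linarith
      rw [k3]
      rfl
    · intro hx
      have hx' : x = gm b j (1 / 2) := hx
      subst hx'
      refine ⟨⟨1 / 2, ⟨by norm_num, by norm_num⟩, rfl⟩, ?_⟩
      change (gm b j (1 / 2)).re = 0
      rw [gm_re, show Real.pi * (1 / 2) = Real.pi / 2 by ring, Real.cos_pi_div_two, mul_zero,
        zero_div]
  · rw [gm_im]
    obtain ⟨k1, k2⟩ := hj_half j
    have k3 : -5 / 3 < Mf (hj j (1 / 2)) := by
      rw [← hm2]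
      exact hmm k1
    have k4 : Mf (hj j (1 / 2)) ≤ 0 := by
      rw [← hm8]
      exact hmm.monotone k2
    generalize Mf (hj j (1 / 2)) = M at k3 k4
    have k5 := rt_pos M
    have k6 := rt_sq M
    rw [abs_div, abs_of_pos (show 0 < 5 * √(1 + M ^ 2) by positivity), div_lt_iff₀ (by positivity)]
    have k7 : |M| ^ 2 < (9 / 50 * (5 * √(1 + M ^ 2))) ^ 2 := by
      rw [sq_abs, mul_pow, mul_pow, k6]
      nlinarith
    exact (sq_lt_sq₀ (abs_nonneg _) (by positivity)).1 k7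
  · obtain ⟨p1, p2, p3, p4⟩ := part_facts (gm b j) hg
    have i1 : Ico (0 : ℝ) (1 / 2) ⊆ Icc 0 1 := fun f hf => ⟨hf.1, by linarith [hf.2]⟩
    have i2 : Ioc (1 / 2 : ℝ) 1 ⊆ Icc 0 1 := fun f hf => ⟨by linarith [hf.1], hf.2⟩
    rw [hE]
    rcases sg_cases b with ⟨-, hs⟩ | ⟨-, hs⟩
    · have e1 : gm b j '' Icc 0 1 ∩ {z | 0 < z.re} = gm b j '' Ico 0 (1 / 2) := by
        refine part_eq _ _ _ _ i1 fun f hf => ?_
        change 0 < (gm b j f).re ↔ _
        rw [re_pos_iff, hs, one_mul, cos_pos_iff hf]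
        exact ⟨fun h => ⟨hf.1, h⟩, fun h => h.2⟩
      have e2 : gm b j '' Icc 0 1 ∩ {z | z.re < 0} = gm b j '' Ioc (1 / 2) 1 := by
        refine part_eq _ _ _ _ i2 fun f hf => ?_
        change (gm b j f).re < 0 ↔ _
        rw [re_neg_iff, hs, one_mul, cos_neg_iff hf]
        exact ⟨fun h => ⟨h, hf.2⟩, fun h => h.1⟩
      rw [e1, e2]
      exact ⟨p1, p2, p3, p4⟩
    · have e1 : gm b j '' Icc 0 1 ∩ {z | 0 < z.re} = gm b j '' Ioc (1 / 2) 1 := by
        refine part_eq _ _ _ _ i2 fun f hf => ?_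
        change 0 < (gm b j f).re ↔ _
        rw [re_pos_iff, hs, neg_one_mul, neg_pos, cos_neg_iff hf]
        exact ⟨fun h => ⟨h, hf.2⟩, fun h => h.1⟩
      have e2 : gm b j '' Icc 0 1 ∩ {z | z.re < 0} = gm b j '' Ico 0 (1 / 2) := by
        refine part_eq _ _ _ _ i1 fun f hf => ?_
        change (gm b j f).re < 0 ↔ _
        rw [re_neg_iff, hs, neg_one_mul, neg_neg_iff_pos, cos_pos_iff hf]
        exact ⟨fun h => ⟨hf.1, h⟩, fun h => h.2⟩
      rw [e1, e2]
      exact ⟨p2, p1, p4, p3⟩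

end Pool.Agent.LIX.L
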