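import Pool.Agent.LIX.StmtsL

/-!
# LIX, block L, module CM: normal form of compressing disks
-/

set_option autoImplicit false

namespace Pool.Agent.LIX.L

open Set Metric Complex

namespace CMx

/-- the parametrisation of the circle -/
noncomputable def ee (t : ℝ) : ℂ := exp ((2 * Real.pi * t : ℝ) * I)

theorem ee_cont : Continuous ee := by
  unfold ee
  fun_prop

theorem ee_norm (t : ℝ) : ‖ee t‖ = 1 := norm_exp_ofReal_mul_I _

theorem ee_add_one (t : ℝ) : ee (t + 1) = ee t := by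
  unfold ee
  have h1 : (((2 * Real.pi * (t + 1) : ℝ) : ℂ)) * I =
      ((2 * Real.pi * t : ℝ) : ℂ) * I + 2 * Real.pi * I := by
    push_cast
    ring
  rw [h1, exp_add, exp_two_pi_mul_I, mul_one]

theorem ee_eq {t s : ℝ} (h : ee t = ee s) : ∃ n : ℤ, t = s + n := by
  unfold ee at h
  obtain ⟨n, hn⟩ := exp_eq_exp_iff_exists_int.1 h
  refine ⟨n, ?_⟩
  have h1 := congrArg Complex.im hn
  simp only [mul_im, add_im, ofReal_re, ofReal_im, I_re, I_im, intCast_re, intCast_im,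
    mul_re] at h1
  norm_num at h1
  have h2 : (0 : ℝ) < 2 * Real.pi := by positivity
  have h3 : 2 * Real.pi * (t - (s + n)) = 0 := by linarith
  rcases mul_eq_zero.1 h3 with h4 | h4
  · exact absurd h4 h2.ne'
  · linarith

theorem ee_surj {z : ℂ} (hz : ‖z‖ = 1) : ∃ t ∈ Icc (-1 : ℝ) 1, ee t = z := by
  have hpi := Real.pi_pos
  refine ⟨arg z / (2 * Real.pi), ⟨?_, ?_⟩, ?_⟩
  · rw [le_div_iff₀ (by positivity)]
    have := neg_pi_lt_arg z
    linarith
  · rw [div_le_iff₀ (by positivity)]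
    have := arg_le_pi z
    linarith
  · unfold ee
    rw [mul_div_cancel₀ _ (by positivity : (2 : ℝ) * Real.pi ≠ 0)]
    have := norm_mul_exp_arg_mul_I z
    rwa [hz, ofReal_one, one_mul] at this

/-- descending a function along a quotient map -/
theorem descend {Y : Type} [TopologicalSpace Y] [T2Space Y] {D : Set Y} (g : ℝ → Y) (a : ℝ → ℂ)
    (hg : Continuous g) (ha : Continuous a) (hgD : ∀ t, g t ∈ D)
    (hsurj : ∀ p ∈ D, ∃ t ∈ Icc (-1 : ℝ) 1, g t = p) (hinj : ∀ t s, g t = g s → a t = a s) :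
    ∃ S : Y → ℂ, ContinuousOn S D ∧ ∀ t, S (g t) = a t := by
  classical
  have hch : ∀ p : D, ∃ t : Icc (-1 : ℝ) 1, g t.1 = p.1 := by
    rintro ⟨p, hp⟩
    obtain ⟨t, ht, h⟩ := hsurj p hp
    exact ⟨⟨t, ht⟩, h⟩
  choose T hT using hch
  set q : Icc (-1 : ℝ) 1 → D := fun t => ⟨g t.1, hgD _⟩ with hq
  have hqc : Continuous q := (hg.comp continuous_subtype_val).subtype_mk _
  have hqs : Function.Surjective q := fun p => ⟨T p, Subtype.ext (hT p)⟩
  have hqm : Topology.IsQuotientMap q := hqc.isClosedMap.isQuotientMap hqc hqs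
  set S' : D → ℂ := fun p => a (T p).1 with hS'
  have hS'c : Continuous S' := by
    rw [hqm.continuous_iff]
    have h1 : S' ∘ q = fun t : Icc (-1 : ℝ) 1 => a t.1 := by
      funext t
      exact hinj _ _ (hT (q t))
    rw [h1]
    exact ha.comp continuous_subtype_val
  refine ⟨fun p => if h : p ∈ D then S' ⟨p, h⟩ else 0, ?_, ?_⟩
  · rw [continuousOn_iff_continuous_domRestrict]
    refine hS'c.congr fun p => ?_
    simp only [domRestrict_apply, dif_pos p.2]
  · intro t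
    simp only [dif_pos (hgD t)]
    exact hinj _ _ (hT ⟨g t, hgD t⟩)

/-- the side condition for one of the coordinates -/
theorem side_aux (hLIFT : S_LIFT) (hUNQ : S_UNQ) {f : ℂ → ℂ} (hf : ContinuousOn f Disk)
    (hne : ∀ z ∈ Disk, f z ≠ 0) (u : ℝ → ℝ) (hu : Continuous u) (c : ℝ) (hc : 0 < c)
    (h : ∀ t, f (ee t) = (c : ℂ) * exp ((u t : ℂ) * I)) : ∀ t, u (t + 1) = u t := by
  have hconv : Convex ℝ Disk := by
    have : Disk = closedBall (0 : ℂ) 1 := by
      ext z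
      simp [Disk]
    rw [this]
    exact convex_closedBall _ _
  obtain ⟨φ, hφ, hφ2⟩ := hLIFT ℂ Disk f hconv hf hne
  have hD : ∀ t, ee t ∈ Disk := fun t => (ee_norm t).le
  have h1 : ∀ t, exp ((u t : ℂ) * I) = exp ((φ (ee t) : ℂ) * I) := by
    intro t
    have h2 := hφ2 (ee t) (hD t)
    have h3 : ‖f (ee t)‖ = c := by
      rw [h t, norm_mul, norm_exp_ofReal_mul_I, mul_one, norm_real, Real.norm_eq_abs,
        abs_of_pos hc]
    rw [h3, h t] at h2
    exact mul_left_cancel₀ (ofReal_ne_zero.2 hc.ne') h2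
  obtain ⟨n, hn⟩ := hUNQ ℝ univ u (fun t => φ (ee t)) isPreconnected_univ hu.continuousOn
    (hφ.comp ee_cont.continuousOn fun t _ => hD t) fun t _ => h1 t
  intro t
  rw [hn t (mem_univ _), hn (t + 1) (mem_univ _), ee_add_one]

end CMx

open CMx in
theorem t_CM : M_CM := by
  intro hLIFT hUNQ hTOR hPRJ hHOL hLFC hLCU f b hf hfb
  obtain ⟨⟨Φ, hΦc, hΦi, hΦ, hΦf⟩, hess⟩ := hf
  have h0 : (0 : ℝ) ∈ Icc (-1 : ℝ) 1 := ⟨by norm_num, by norm_num⟩
  have hfc : ContinuousOn f Disk := by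
    have h1 : ContinuousOn (fun z : ℂ => Φ (z, 0)) Disk :=
      hΦc.comp (continuous_id.prodMk continuous_const).continuousOn fun z hz => ⟨hz, h0⟩
    exact h1.congr fun z hz => (hΦf z hz).symm
  have hfi : InjOn f Disk := by
    intro z hz w hw h
    rw [← hΦf z hz, ← hΦf w hw] at h
    have h1 := hΦi (show (z, (0 : ℝ)) ∈ Disk ×ˢ Icc (-1 : ℝ) 1 from ⟨hz, h0⟩)
      (show (w, (0 : ℝ)) ∈ Disk ×ˢ Icc (-1 : ℝ) 1 from ⟨hw, h0⟩) h
    exact congrArg Prod.fst h1
  have hfb2 : ∀ z ∈ Disk, f z ∉ TT.bd ∧ (f z ∈ HT ↔ ‖z‖ = 1) := by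
    intro z hz
    have h1 := hΦ z hz 0 h0
    rw [hΦf z hz] at h1
    exact h1.2
  have hD : ∀ t, ee t ∈ Disk := fun t => (ee_norm t).le
  have hg : Continuous fun t => f (ee t) := by
    rw [← continuousOn_univ]
    exact hfc.comp ee_cont.continuousOn fun t _ => hD t
  have hgH : ∀ t, f (ee t) ∈ HT := fun t => (hfb2 _ (hD t)).2.2 (ee_norm t)
  obtain ⟨a, hac, ha⟩ := hLFC ℝ univ (fun t => f (ee t)) convex_univ hg.continuousOn
    fun t _ => hgH t
  rw [continuousOn_univ] at hac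
  have ha' : ∀ t, tor (a t) = f (ee t) := fun t => ha t (mem_univ _)
  have hLCU' := (hLCU ℝ univ isPreconnected_univ).2
  obtain ⟨l, hl, hper⟩ := hLCU' (fun t => a (t + 1)) a
    (hac.comp (continuous_id.add continuous_const)).continuousOn hac.continuousOn (by
      intro t _
      rw [ha', ha', ee_add_one])
  have hper' : ∀ t, a (t + 1) = a t + l := fun t => hper t (mem_univ _)
  obtain ⟨htor, -, -, -, -, -, -, -, hadd, -, hthc, hphc⟩ := hTOR
  have hcos : 0 < Real.cos (Real.pi / 4) :=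
    Real.cos_pos_of_mem_Ioo ⟨by linarith [Real.pi_pos], by linarith [Real.pi_pos]⟩
  have hDHT : ∀ t, f (ee t) ∈ f '' Disk ∩ HT := fun t => ⟨⟨_, hD t, rfl⟩, hgH t⟩
  refine ⟨a, l, hl, hac, ha', hper', ?_, ⟨?_, ?_⟩, ?_, ?_⟩
  · intro t l' hl'
    have h1 := (hHOL.1 (a t)).1 (by rw [ha']; exact hgH t) l' hl'
    refine lt_of_le_of_ne h1 fun h2 => ?_
    apply (hfb2 _ (hD t)).1
    rw [← ha']
    exact (hHOL.2.1 (a t)).2 ⟨l', hl', h2.symm⟩
  · rintro ⟨S, hS, hS2, _⟩
    obtain ⟨c, _, hc⟩ := hLCU' (fun t => S (f (ee t))) a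
      (hS.comp hg.continuousOn fun t _ => hDHT t) hac.continuousOn (by
        intro t _
        rw [hS2 _ (hDHT t), ha'])
    have h1 := hc 0 (mem_univ _)
    have h2 := hc (0 + 1) (mem_univ _)
    simp only [ee_add_one] at h2
    rw [h1, hper'] at h2
    have h3 : l = 0 := by linear_combination -h2
    exact h3
  · intro hl0
    have hP : Function.Periodic a 1 := by
      intro t
      rw [hper', hl0, add_zero]
    obtain ⟨S, hS, hS2⟩ := descend (D := f '' Disk ∩ HT) (fun t => f (ee t)) a hg hac hDHT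
      (by
        rintro _ ⟨⟨z, hz, rfl⟩, hzH⟩
        obtain ⟨t, ht, h⟩ := ee_surj ((hfb2 z hz).2.1 hzH)
        exact ⟨t, ht, by rw [h]⟩)
      (by
        intro t s h
        obtain ⟨n, hn⟩ := ee_eq (hfi (hD t) (hD s) h)
        rw [hn]
        have := hP.int_mul n s
        rwa [mul_one] at this)
    refine ⟨S, hS, ?_, ?_⟩
    · rintro _ ⟨⟨z, hz, rfl⟩, hzH⟩
      obtain ⟨t, ht, h⟩ := ee_surj ((hfb2 z hz).2.1 hzH)
      rw [← h, hS2, ha']
    · rintro _ ⟨⟨z, hz, rfl⟩, hzH⟩ hbd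
      exact absurd hbd (hfb2 z hz).1
  · intro hb
    have h1 := side_aux hLIFT hUNQ (f := fun z => (f z).1) (continuous_fst.comp_continuousOn hfc)
      (fun z hz => (hPRJ.2.2.2.2.2.2.2.2.1 b (f z) (hfb ⟨z, hz, rfl⟩)).1 hb) (fun t => th (a t))
      (hthc.comp hac) (Real.cos (Real.pi / 4)) hcos (by
        intro t
        rw [← ha', htor])
    have h2 := h1 0
    simp only [hper', (hadd _ _).1] at h2
    linarith
  · intro hb
    have h1 := side_aux hLIFT hUNQ (f := fun z => (f z).2) (continuous_snd.comp_continuousOn hfc)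
      (fun z hz => (hPRJ.2.2.2.2.2.2.2.2.1 b (f z) (hfb ⟨z, hz, rfl⟩)).2 hb) (fun t => ph (a t))
      (hphc.comp hac) (Real.cos (Real.pi / 4)) hcos (by
        intro t
        rw [← ha', htor])
    have h2 := h1 0
    simp only [hper', (hadd _ _).2.1] at h2
    linarith

end Pool.Agent.LIX.L
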