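import Pool.Agent.LIX.StmtsL

/-!
# LIX, module L_ED: normal form of edge disks, class and side
-/

set_option autoImplicit false

namespace Pool.Agent.LIX.L

open Set Metric Complex

namespace EDx

/-- a function on a compact set descends to the image under a continuous injective map -/
theorem descend {X Y Z : Type*} [TopologicalSpace X] [TopologicalSpace Y] [T2Space Y]
    [TopologicalSpace Z] [Nonempty X] {K : Set X} (hK : IsCompact K) {φ : X → Y}
    (hφ : ContinuousOn φ K) (hi : InjOn φ K) {g : X → Z} (hg : ContinuousOn g K) :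
    ∃ S : Y → Z, ContinuousOn S (φ '' K) ∧ ∀ x ∈ K, S (φ x) = g x := by
  classical
  refine ⟨fun y => g (Function.invFunOn φ K y), ?_, ?_⟩
  · rw [continuousOn_iff_isClosed]
    intro C hC
    obtain ⟨u, hu, hu'⟩ := continuousOn_iff_isClosed.1 hg C hC
    refine ⟨φ '' (u ∩ K), ?_, ?_⟩
    · refine IsCompact.isClosed ?_
      exact (hK.inter_left hu).image_of_continuousOn (hφ.mono inter_subset_right)
    · have key : ∀ x ∈ K, Function.invFunOn φ K (φ x) = x := fun x hx =>
        hi.leftInvOn_invFunOn hx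
      ext y
      constructor
      · rintro ⟨h1, x, hx, rfl⟩
        have h2 : g x ∈ C := by
          have h3 : g (Function.invFunOn φ K (φ x)) ∈ C := h1
          rwa [key x hx] at h3
        have h4 : x ∈ u ∩ K := by
          rw [← hu']
          exact ⟨h2, hx⟩
        exact ⟨⟨x, h4, rfl⟩, x, hx, rfl⟩
      · rintro ⟨⟨x, hx, rfl⟩, h1⟩
        refine ⟨?_, h1⟩
        change g (Function.invFunOn φ K (φ x)) ∈ C
        rw [key x hx.2]
        have h4 : x ∈ g ⁻¹' C ∩ K := by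
          rw [hu']
          exact hx
        exact h4.1
  · intro x hx
    change g (Function.invFunOn φ K (φ x)) = g x
    rw [hi.leftInvOn_invFunOn hx]

theorem real_mem {t : ℝ} (ht : t ∈ Icc (-1 : ℝ) 1) : (t : ℂ) ∈ HDisk := by
  refine ⟨?_, ?_⟩
  · rw [norm_real, Real.norm_eq_abs]
    exact abs_le.2 ht
  · rw [ofReal_im]

theorem hdisk_convex : Convex ℝ HDisk := by
  have : (HDisk : Set ℂ) = closedBall 0 1 ∩ {c : ℂ | 0 ≤ c.im} := by
    ext z
    rw [mem_inter_iff, mem_closedBall_zero_iff]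
    rfl
  rw [this]
  exact (convex_closedBall _ _).inter (convex_halfSpace_im_ge 0)

theorem semi_preconnected : IsPreconnected {z : ℂ | z ∈ HDisk ∧ ‖z‖ = 1} := by
  have : {z : ℂ | z ∈ HDisk ∧ ‖z‖ = 1} = (fun s : ℝ => exp ((s : ℂ) * I)) '' Icc 0 Real.pi := by
    ext z
    constructor
    · rintro ⟨⟨_, h2⟩, h3⟩
      refine ⟨arg z, ⟨arg_nonneg_iff.2 h2, arg_le_pi z⟩, ?_⟩
      have h4 := norm_mul_exp_arg_mul_I z
      rw [h3, ofReal_one, one_mul] at h4
      exact h4
    · rintro ⟨s, hs, rfl⟩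
      have h1 : ‖exp ((s : ℂ) * I)‖ = 1 := norm_exp_ofReal_mul_I s
      refine ⟨⟨h1.le, ?_⟩, h1⟩
      rw [exp_ofReal_mul_I_im]
      exact Real.sin_nonneg_of_mem_Icc hs
  rw [this]
  refine isPreconnected_Icc.image _ (Continuous.continuousOn ?_)
  fun_prop

/-- the winding of a coordinate along the boundary of a disk -/
theorem side (hL : S_LIFT) (hU : S_UNQ) (κ : ℂ × ℂ → ℂ) (τ : ℂ → ℝ) (hκ : Continuous κ)
    (hτ : Continuous τ) (h1 : ∀ x, κ (tor x) = (Real.cos (Real.pi / 4) : ℂ) * exp ((τ x : ℂ) * I))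
    (h2 : ∀ p, τ (pr p) = arg (κ p)) (h3 : ∀ x y, τ (x + y) = τ x + τ y)
    (hpr : ContinuousOn pr TT.bd) (f : ℂ → ℂ × ℂ) (hf : ContinuousOn f HDisk)
    (h0 : ∀ z ∈ HDisk, κ (f z) ≠ 0) (hbd : ∀ z ∈ HDisk, ‖z‖ = 1 → f z ∈ TT.bd)
    (ξ : ℝ → ℂ) (hξ : ContinuousOn ξ (Icc (-1) 1)) (ht : ∀ t ∈ Icc (-1 : ℝ) 1, tor (ξ t) = f t)
    (l c : ℂ) (hl : ξ (-1) = pr (f (-1))) (hr : ξ 1 = c + l) (hc : pr (f 1) = c) : τ l = 0 := by
  obtain ⟨Θ, hΘ, hΘ'⟩ := hL ℂ HDisk (fun z => κ (f z)) hdisk_convex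
    (hκ.comp_continuousOn hf) h0
  have hcos : (0 : ℝ) < Real.cos (Real.pi / 4) := by
    rw [Real.cos_pi_div_four]
    positivity
  -- the diameter
  obtain ⟨n, hn⟩ := hU ℝ (Icc (-1) 1) (fun t => τ (ξ t)) (fun t => Θ t) isPreconnected_Icc
    (hτ.comp_continuousOn hξ) (hΘ.comp continuous_ofReal.continuousOn fun t ht => real_mem ht) (by
      intro t ht'
      have h4 := hΘ' t (real_mem ht')
      have h5 := h1 (ξ t)
      rw [ht t ht'] at h5
      have h6 : ‖κ (f t)‖ = Real.cos (Real.pi / 4) := by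
        rw [h5, norm_mul, norm_exp_ofReal_mul_I, mul_one, norm_real, Real.norm_eq_abs,
          abs_of_pos hcos]
      rw [h6, h5] at h4
      exact mul_left_cancel₀ (ofReal_ne_zero.2 hcos.ne') h4)
  -- the semicircle
  obtain ⟨n', hn'⟩ := hU ℂ {z : ℂ | z ∈ HDisk ∧ ‖z‖ = 1} (fun z => τ (pr (f z))) (fun z => Θ z)
    semi_preconnected
    (hτ.comp_continuousOn (hpr.comp (hf.mono fun z hz => hz.1) fun z hz => hbd z hz.1 hz.2))
    (hΘ.mono fun z hz => hz.1) (by
      intro z hz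
      have h4 := hΘ' z hz.1
      have h5 := norm_mul_exp_arg_mul_I (κ (f z))
      rw [h2]
      have h6 : (‖κ (f z)‖ : ℂ) ≠ 0 := ofReal_ne_zero.2 (norm_ne_zero_iff.2 (h0 z hz.1))
      refine mul_left_cancel₀ h6 ?_
      rw [h5]
      exact h4)
  have m1 : (-1 : ℂ) ∈ HDisk := by
    have := real_mem (t := -1) ⟨le_rfl, by norm_num⟩
    simpa using this
  have m2 : (1 : ℂ) ∈ HDisk := by
    have := real_mem (t := 1) ⟨by norm_num, le_rfl⟩
    simpa using this
  have e1 := hn (-1) ⟨le_rfl, by norm_num⟩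
  have e2 := hn 1 ⟨by norm_num, le_rfl⟩
  have e3 := hn' (-1) ⟨m1, by simp⟩
  have e4 := hn' 1 ⟨m2, by simp⟩
  simp only [ofReal_neg, ofReal_one] at e1 e2 e3 e4
  rw [hl] at e1
  rw [hr, h3] at e2
  rw [hc] at e4
  linarith

end EDx

theorem t_ED : M_ED := by
  intro hL hU hT hP hH hC hLC hE0 D b j hD
  obtain ⟨T1, T2, T3, T4, T5, T6, T7, T8, T9, T10, T11, T12⟩ := hT
  obtain ⟨P1, P2, P3, P4, P5, P6, P7, P8, P9, P10⟩ := hP
  obtain ⟨⟨f, hf, rfl⟩, hV, hbd⟩ := hD
  obtain ⟨f1, f2, f3, f4, ξ, l, r0, hl, x1, x2, x3, x4, x5, x6, x7, x8⟩ := hE0 f b j hf hV hbd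
  obtain ⟨-, -, -, -, -, hcpt, -⟩ := hC b j
  have hnorm : ∀ r, ‖cpt b j r‖ = 1 / 5 := fun r => (hcpt r).1
  -- the maps on the arc
  have hfc : ContinuousOn (fun t : ℝ => f t) (Icc (-1) 1) :=
    f1.comp continuous_ofReal.continuousOn fun t ht => EDx.real_mem ht
  have hfi : InjOn (fun t : ℝ => f t) (Icc (-1) 1) := fun s hs t ht h =>
    ofReal_injective (f2 (EDx.real_mem hs) (EDx.real_mem ht) h)
  have hcls : Cls0 (f '' HDisk) ↔ l = 0 := by
    constructor
    · rintro ⟨S, hS1, hS2, hS3⟩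
      have hmem : ∀ t ∈ Icc (-1 : ℝ) 1, f t ∈ f '' HDisk ∩ HT := by
        intro t ht
        rw [f4]
        exact ⟨t, ht, rfl⟩
      obtain ⟨c, hc, hc'⟩ := (hLC ℝ (Icc (-1) 1) isPreconnected_Icc).2 (fun t => S (f t)) ξ
        (hS1.comp hfc hmem) x1 (fun t ht => by
          change tor (S (f t)) = tor (ξ t)
          rw [hS2 _ (hmem t ht), x3 t ht])
      have small : ∀ x ∈ Lam, ‖x‖ ≤ 2 / 5 → x = 0 := by
        intro x hx hx'
        by_contra hne
        have := T7 x hx hne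
        linarith
      have i1 : (-1 : ℝ) ∈ Icc (-1 : ℝ) 1 := ⟨le_rfl, by norm_num⟩
      have i2 : (1 : ℝ) ∈ Icc (-1 : ℝ) 1 := ⟨by norm_num, le_rfl⟩
      have b1 : f ((-1 : ℝ) : ℂ) ∈ TT.bd := (f3 _ (EDx.real_mem i1)).2.2 (by simp)
      have b2 : f ((1 : ℝ) : ℂ) ∈ TT.bd := (f3 _ (EDx.real_mem i2)).2.2 (by simp)
      have s1 := hS3 _ (hmem _ i1) b1
      have s2 := hS3 _ (hmem _ i2) b2
      have e1 := hc' (-1) i1
      have e2 := hc' 1 i2
      have c0 : c = 0 := by
        refine small c hc ?_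
        have h1 : c = S (f ((-1 : ℝ) : ℂ)) - cpt b j r0 := by
          rw [e1, x4]
          ring
        rw [h1]
        refine (norm_sub_le _ _).trans ?_
        rw [hnorm]
        linarith
      refine small l hl ?_
      have h1 : l = S (f ((1 : ℝ) : ℂ)) - cpt b j (!r0) := by
        rw [e2, x5, c0]
        ring
      rw [h1]
      refine (norm_sub_le _ _).trans ?_
      rw [hnorm]
      linarith
    · intro hl0
      obtain ⟨S, hS, hS'⟩ := EDx.descend isCompact_Icc hfc hfi x1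
      refine ⟨S, ?_, ?_, ?_⟩
      · rw [f4]
        exact hS
      · intro p hp
        rw [f4] at hp
        obtain ⟨t, ht, rfl⟩ := hp
        change tor (S (f t)) = f t
        rw [hS' t ht, x3 t ht]
      · intro p hp hpb
        rw [f4] at hp
        obtain ⟨t, ht, rfl⟩ := hp
        have h1 : ‖(t : ℂ)‖ = 1 := (f3 _ (EDx.real_mem ht)).2.1 hpb
        change ‖S (f t)‖ ≤ 1 / 5
        rw [hS' t ht]
        rw [norm_real, Real.norm_eq_abs] at h1
        rcases eq_or_eq_neg_of_abs_eq h1 with h2 | h2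
        · rw [h2, x5, hl0, add_zero, hnorm]
        · rw [h2, x4, hnorm]
  have hbd' : ∀ z ∈ HDisk, ‖z‖ = 1 → f z ∈ TT.bd := fun z hz h => (f3 z hz).2.2 h
  have hside : (b = true → th l = 0) ∧ (b = false → ph l = 0) := by
    constructor
    · intro hb
      refine EDx.side hL hU Prod.fst th continuous_fst T11 (fun x => by rw [T1]) (fun p => (P6 p).1)
        (fun x y => (T9 x y).1) P2 f f1 (fun z hz => (P9 b _ (hV ⟨z, hz, rfl⟩)).1 hb) hbd' ξ x1 x3 l
        (cpt b j (!r0)) ?_ x5 x7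
      rw [x4, x6]
    · intro hb
      refine EDx.side hL hU Prod.snd ph continuous_snd T12 (fun x => by rw [T1]) (fun p => (P6 p).2)
        (fun x y => (T9 x y).2.1) P2 f f1 (fun z hz => (P9 b _ (hV ⟨z, hz, rfl⟩)).2 hb) hbd' ξ x1 x3
        l (cpt b j (!r0)) ?_ x5 x7
      rw [x4, x6]
  have hE : EForm b j (f '' HDisk) ξ l r0 := by
    refine ⟨hl, x1, x2, ?_, ?_, x4, x5, x8, hcls, hside⟩
    · rw [f4]
      exact image_congr fun t ht => (x3 t ht).symm
    · intro s hs t ht h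
      apply hfi hs ht
      change tor (ξ s) = tor (ξ t) at h
      rw [x3 s hs, x3 t ht] at h
      exact h
  intro r
  by_cases hr : r = r0
  · subst hr
    exact ⟨ξ, l, hE⟩
  · have hr' : r = !r0 := by
      cases r with
      | true =>
        cases r0 with
        | true => exact absurd rfl hr
        | false => rfl
      | false =>
        cases r0 with
        | true => rfl
        | false => exact absurd rfl hr
    subst hr'
    have hneg : ∀ t ∈ Icc (-1 : ℝ) 1, -t ∈ Icc (-1 : ℝ) 1 := fun t ht =>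
      ⟨by linarith [ht.2], by linarith [ht.1]⟩
    have htor : ∀ x, tor (x - l) = tor x := by
      intro x
      rw [T3]
      have : x - l - x = -l := by ring
      rw [this]
      exact T5 l hl
    refine ⟨fun t => ξ (-t) - l, -l, ⟨T5 l hl, ?_, ?_, ?_, ?_, ?_, ?_, ?_, ?_, ?_⟩⟩
    · exact (x1.comp continuous_neg.continuousOn hneg).sub continuousOn_const
    · intro s hs t ht h
      have h1 : ξ (-s) = ξ (-t) := sub_left_injective h
      exact neg_injective (x2 (hneg s hs) (hneg t ht) h1)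
    · rw [hE.img]
      ext p
      constructor
      · rintro ⟨t, ht, rfl⟩
        refine ⟨-t, hneg t ht, ?_⟩
        change tor (ξ (- -t) - l) = tor (ξ t)
        rw [htor, neg_neg]
      · rintro ⟨t, ht, rfl⟩
        refine ⟨-t, hneg t ht, ?_⟩
        change tor (ξ (-t)) = tor (ξ (-t) - l)
        rw [htor]
    · intro s hs t ht h
      change tor (ξ (-s) - l) = tor (ξ (-t) - l) at h
      rw [htor, htor] at h
      exact neg_injective (hE.tinj (hneg s hs) (hneg t ht) h)
    · change ξ (- -1) - l = cpt b j (!r0)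
      rw [neg_neg, x5]
      ring
    · change ξ (-1) - l = cpt b j (!!r0) + -l
      rw [x4, Bool.not_not]
      ring
    · intro t ht l' hl'
      have h1 := x8 (-t) ⟨by linarith [ht.2], by linarith [ht.1]⟩ (l + l') (T6 l hl l' hl')
      change 1 / 5 < ‖ξ (-t) - l - l'‖
      rw [sub_sub]
      exact h1
    · rw [neg_eq_zero]
      exact hcls
    · constructor
      · intro hb
        rw [(T9 l 0).2.2.1, hside.1 hb, neg_zero]
      · intro hb
        rw [(T9 l 0).2.2.2, hside.2 hb, neg_zero]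

end Pool.Agent.LIX.L
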