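import Pool.Agent.LIX.StmtsL

/-!
# LIX, block L, HOL: preimages of `HT` and `bd` under `tor`
-/

set_option autoImplicit false

namespace Pool.Agent.LIX.L

open Set Metric Complex

namespace HOLx

theorem nrm_tor (x : ℂ) : nrm ((x.re : ℂ), x.im) = ‖x‖ := by
  refine (sq_eq_sq₀ (nrm_nonneg _) (norm_nonneg _)).1 ?_
  rw [nrm_sq', ← Complex.normSq_eq_norm_sq, Complex.normSq_apply]
  simp only [Complex.ofReal_re, Complex.ofReal_im]
  ring

theorem norm_tor (x : ℂ) : ‖(tor x).1‖ = ‖(tor x).2‖ := by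
  unfold tor
  rw [norm_kap_fst, norm_kap_snd]
  simp

theorem tor_sub (hT : S_TOR) {x l : ℂ} (hl : l ∈ Lam) : tor x = tor (x - l) := by
  obtain ⟨-, -, h3, -⟩ := hT
  rw [h3]
  rw [sub_sub_cancel]
  exact hl

theorem key (hT : S_TOR) {x : ℂ} {v : ℂ × ℝ} (hv : nrm v ≤ 1 / 5) (h : kap v = tor x) :
    ∃ l ∈ Lam, ‖x - l‖ = nrm v := by
  have hv2 : nrm v ≤ 1 / 2 := by linarith
  have h1 := norm_sub_kap hv2
  rw [h, norm_tor, sub_self] at h1
  have h2 : Real.sin v.1.im = 0 := by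
    rcases mul_eq_zero.1 h1.symm with h | h
    · exact absurd h (by positivity)
    · exact h
  have h3 : v.1.im = 0 := (sin_sign ((abs_im_le_nrm v).trans hv2)).1.1 h2
  have h4 : v = (((⟨v.1.re, v.2⟩ : ℂ).re : ℂ), (⟨v.1.re, v.2⟩ : ℂ).im) := by
    refine Prod.ext (Complex.ext ?_ ?_) ?_
    · simp
    · simpa using h3
    · rfl
  have h5 : kap v = tor ⟨v.1.re, v.2⟩ := by
    rw [tor, ← h4]
  have h6 : nrm v = ‖(⟨v.1.re, v.2⟩ : ℂ)‖ := by
    rw [← nrm_tor, ← h4]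
  obtain ⟨-, -, h7, -⟩ := hT
  rw [h5] at h
  refine ⟨x - ⟨v.1.re, v.2⟩, (h7 _ _).1 h.symm, ?_⟩
  rw [sub_sub_cancel, h6]

end HOLx

theorem t_HOL : M_HOL := by
  intro hT hP
  obtain ⟨p1, -, -, -, -, p6, -, p8, -⟩ := hP
  refine ⟨fun x => ⟨?_, ?_⟩, fun x => ⟨?_, ?_⟩, ?_, ?_, ?_⟩
  · rintro ⟨⟨-, h⟩, -⟩ l hl
    by_contra hlt
    refine h ⟨(((x - l).re : ℂ), (x - l).im), ?_, ?_⟩
    · change nrm _ < 1 / 5
      rw [HOLx.nrm_tor]
      exact not_le.1 hlt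
    · exact (HOLx.tor_sub hT hl).symm
  · intro h
    refine ⟨⟨kap_mem_S3 _, ?_⟩, HOLx.norm_tor x⟩
    rintro ⟨v, hv, hvx⟩
    have hv' : nrm v < 1 / 5 := hv
    obtain ⟨l, hl, hl2⟩ := HOLx.key hT hv'.le hvx
    have := h l hl
    rw [hl2] at this
    linarith
  · rintro ⟨v, hv, hvx⟩
    have hv' : nrm v = 1 / 5 := hv
    obtain ⟨l, hl, hl2⟩ := HOLx.key hT hv'.le hvx
    exact ⟨l, hl, hl2.trans hv'⟩
  · rintro ⟨l, hl, h⟩
    refine ⟨(((x - l).re : ℂ), (x - l).im), ?_, ?_⟩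
    · change nrm _ = 1 / 5
      rw [HOLx.nrm_tor]
      exact h
    · exact (HOLx.tor_sub hT hl).symm
  · intro x l hl h
    rw [HOLx.tor_sub hT hl]
    have h1 : nrm (((x - l).re : ℂ), (x - l).im) ≤ 1 / 2 := by
      rw [HOLx.nrm_tor]
      linarith
    have h2 := p1 _ h1
    refine Eq.trans h2 ?_
    exact Complex.re_add_im (x - l)
  · rintro p ⟨⟨hp, -⟩, hp2⟩
    have hp' : ‖p.1‖ ^ 2 + ‖p.2‖ ^ 2 = 1 := hp
    obtain ⟨t1, -⟩ := hT
    have hc : ‖p.1‖ = Real.cos (Real.pi / 4) := by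
      rw [← hp2] at hp'
      have h1 : ‖p.1‖ ^ 2 = Real.cos (Real.pi / 4) ^ 2 := by
        rw [Real.cos_pi_div_four, div_pow, Real.sq_sqrt (by norm_num)]
        linarith
      have h2 : 0 ≤ Real.cos (Real.pi / 4) := by
        rw [Real.cos_pi_div_four]; positivity
      exact (pow_left_inj₀ (norm_nonneg _) h2 two_ne_zero).1 h1
    refine ⟨pr p, ?_⟩
    rw [t1, (p6 p).1, (p6 p).2]
    refine Prod.ext ?_ ?_
    · change ((Real.cos (Real.pi / 4) : ℝ) : ℂ) * exp ((arg p.1 : ℂ) * I) = p.1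
      rw [← hc]
      exact Complex.norm_mul_exp_arg_mul_I p.1
    · change ((Real.cos (Real.pi / 4) : ℝ) : ℂ) * exp ((arg p.2 : ℂ) * I) = p.2
      rw [← hc, hp2]
      exact Complex.norm_mul_exp_arg_mul_I p.2
  · intro p hp hb x hx
    obtain ⟨-, -, h3, -⟩ := hT
    refine (h3 _ _).1 ?_
    rw [hx, p8 p hb hp]

end Pool.Agent.LIX.L
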