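import Pool.Agent.LIX.StmtsL

/-!
# LIX, block L: `0` is not in the convex hull of admissible labels
-/

set_option autoImplicit false

namespace Pool.Agent.LIX.L

open Set Pool.Agent.LIX

namespace HULx

/-- the possible labels -/
theorem lab_cases (τ : Ty) :
    lv τ = ![1, 0, 0] ∨ (lv τ = ![-1, 0, 0] ∧ ∃ j, τ = Ty.X false j) ∨ lv τ = ![0, 1, 0] ∨
    (lv τ = ![0, -1, 0] ∧ (τ = Ty.D true 0 ∨ ∃ j, τ = Ty.X true j)) ∨
    (lv τ = ![0, 0, 1] ∧ (τ = Ty.U true 2 ∨ ∃ j, τ = Ty.X true j)) ∨ lv τ = ![0, 0, -1] ∨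
    (lv τ = ![1, 1, -1] ∧ τ = Ty.M false) := by
  rcases τ with b | b | ⟨b, j⟩ | ⟨b, j⟩ | ⟨b, j⟩
  · cases b
    · exact Or.inr (Or.inr (Or.inr (Or.inr (Or.inr (Or.inr ⟨rfl, rfl⟩)))))
    · exact Or.inl rfl
  · exact Or.inl rfl
  · cases b
    · exact Or.inr (Or.inl ⟨rfl, j, rfl⟩)
    · fin_cases j
      · exact Or.inr (Or.inr (Or.inr (Or.inl ⟨rfl, Or.inr ⟨0, rfl⟩⟩)))
      · exact Or.inr (Or.inr (Or.inr (Or.inl ⟨rfl, Or.inr ⟨1, rfl⟩⟩)))
      · exact Or.inr (Or.inr (Or.inr (Or.inr (Or.inl ⟨rfl, Or.inr ⟨2, rfl⟩⟩))))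
  · cases b
    · fin_cases j
      · exact Or.inr (Or.inr (Or.inl rfl))
      · exact Or.inr (Or.inr (Or.inl rfl))
      · exact Or.inr (Or.inr (Or.inr (Or.inr (Or.inr (Or.inl rfl)))))
    · fin_cases j
      · exact Or.inl rfl
      · exact Or.inl rfl
      · exact Or.inr (Or.inr (Or.inr (Or.inr (Or.inl ⟨rfl, Or.inl rfl⟩))))
  · cases b
    · fin_cases j
      · exact Or.inr (Or.inr (Or.inl rfl))
      · exact Or.inr (Or.inr (Or.inl rfl))
      · exact Or.inr (Or.inr (Or.inr (Or.inr (Or.inr (Or.inl rfl)))))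
    · fin_cases j
      · exact Or.inr (Or.inr (Or.inr (Or.inl ⟨rfl, Or.inl rfl⟩)))
      · exact Or.inl rfl
      · exact Or.inl rfl

theorem hull (A : Set Ty) (c : Fin 3 → ℝ) (h : ∀ τ ∈ A, 0 < ∑ i, c i * lv τ i) :
    (0 : Fin 3 → ℝ) ∉ convexHull ℝ (lv '' A) := by
  intro h0
  have hc : Convex ℝ {x : Fin 3 → ℝ | 0 < ∑ i, c i * x i} := by
    intro x hx y hy a b ha hb hab
    have hx' : 0 < ∑ i, c i * x i := hx
    have hy' : 0 < ∑ i, c i * y i := hy
    change 0 < ∑ i, c i * (a • x + b • y) i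
    have e : ∑ i, c i * (a • x + b • y) i = a * ∑ i, c i * x i + b * ∑ i, c i * y i := by
      rw [Finset.mul_sum, Finset.mul_sum, ← Finset.sum_add_distrib]
      refine Finset.sum_congr rfl fun i _ => ?_
      simp only [Pi.add_apply, Pi.smul_apply, smul_eq_mul]
      ring
    rw [e]
    rcases ha.eq_or_lt with rfl | ha'
    · have hb' : b = 1 := by linarith
      rw [hb', zero_mul, zero_add, one_mul]
      exact hy'
    · have := mul_pos ha' hx'
      have := mul_nonneg hb hy'.le
      linarith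
  have hsub : convexHull ℝ (lv '' A) ⊆ {x : Fin 3 → ℝ | 0 < ∑ i, c i * x i} := by
    refine convexHull_min ?_ hc
    rintro x ⟨τ, hτ, rfl⟩
    exact h τ hτ
  have h1 : 0 < ∑ i, c i * (0 : Fin 3 → ℝ) i := hsub h0
  simp at h1

theorem dot (c x : Fin 3 → ℝ) : ∑ i, c i * x i = c 0 * x 0 + c 1 * x 1 + c 2 * x 2 :=
  Fin.sum_univ_three _

end HULx

open HULx in
theorem t_HUL : S_HUL := by
  intro A h1 h2 h3
  classical
  have o1 : ∀ τ ∈ A, ∀ τ' ∈ A, lv τ = ![1, 0, 0] → lv τ' = ![-1, 0, 0] → False := by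
    intro τ hτ τ' hτ' e e'
    apply h1 τ hτ τ' hτ'
    rw [e, e']
    ext i
    fin_cases i <;> simp
  have o2 : ∀ τ ∈ A, ∀ τ' ∈ A, lv τ = ![0, 1, 0] → lv τ' = ![0, -1, 0] → False := by
    intro τ hτ τ' hτ' e e'
    apply h1 τ hτ τ' hτ'
    rw [e, e']
    ext i
    fin_cases i <;> simp
  have o3 : ∀ τ ∈ A, ∀ τ' ∈ A, lv τ = ![0, 0, 1] → lv τ' = ![0, 0, -1] → False := by
    intro τ hτ τ' hτ' e e'
    apply h1 τ hτ τ' hτ'
    rw [e, e']
    ext i
    fin_cases i <;> simp
  let s1 : ℝ := if ∃ τ ∈ A, lv τ = ![1, 0, 0] then 1 else -1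
  let s2 : ℝ := if ∃ τ ∈ A, lv τ = ![0, 1, 0] then 1 else -1
  let s3 : ℝ := if ∃ τ ∈ A, lv τ = ![0, 0, 1] then 1 else -1
  have b1 : -1 ≤ s1 ∧ s1 ≤ 1 := by
    simp only [s1]
    split_ifs <;> constructor <;> norm_num
  have b2 : -1 ≤ s2 ∧ s2 ≤ 1 := by
    simp only [s2]
    split_ifs <;> constructor <;> norm_num
  have b3 : -1 ≤ s3 ∧ s3 ≤ 1 := by
    simp only [s3]
    split_ifs <;> constructor <;> norm_num
  have p1 : ∀ τ ∈ A, lv τ = ![1, 0, 0] → s1 = 1 := fun τ hτ e => if_pos ⟨τ, hτ, e⟩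
  have p2 : ∀ τ ∈ A, lv τ = ![0, 1, 0] → s2 = 1 := fun τ hτ e => if_pos ⟨τ, hτ, e⟩
  have p3 : ∀ τ ∈ A, lv τ = ![0, 0, 1] → s3 = 1 := fun τ hτ e => if_pos ⟨τ, hτ, e⟩
  have n1 : ∀ τ ∈ A, lv τ = ![-1, 0, 0] → s1 = -1 := fun τ hτ e =>
    if_neg fun ⟨τ', hτ', e'⟩ => o1 τ' hτ' τ hτ e' e
  have n2 : ∀ τ ∈ A, lv τ = ![0, -1, 0] → s2 = -1 := fun τ hτ e =>
    if_neg fun ⟨τ', hτ', e'⟩ => o2 τ' hτ' τ hτ e' e
  have n3 : ∀ τ ∈ A, lv τ = ![0, 0, -1] → s3 = -1 := fun τ hτ e =>
    if_neg fun ⟨τ', hτ', e'⟩ => o3 τ' hτ' τ hτ e' e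
  by_cases hM : Ty.M false ∈ A
  · by_cases q1 : ∃ τ ∈ A, lv τ = ![-1, 0, 0]
    · by_cases q2 : ∃ τ ∈ A, lv τ = ![0, -1, 0]
      · by_cases q3 : ∃ τ ∈ A, lv τ = ![0, 0, 1]
        · exfalso
          have hX := h2 hM
          have r1 : ∃ j, Ty.X false j ∈ A := by
            obtain ⟨τ, hτ, e⟩ := q1
            rcases lab_cases τ with h | ⟨h, j, hj⟩ | h | ⟨h, -⟩ | ⟨h, -⟩ | h | ⟨h, -⟩
            · have := congrFun (e.symm.trans h) 0
              norm_num at this
            · exact ⟨j, hj ▸ hτ⟩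
            · have := congrFun (e.symm.trans h) 0
              norm_num at this
            · have := congrFun (e.symm.trans h) 0
              norm_num at this
            · have := congrFun (e.symm.trans h) 0
              norm_num at this
            · have := congrFun (e.symm.trans h) 0
              norm_num at this
            · have := congrFun (e.symm.trans h) 0
              norm_num at this
          have r2 : Ty.D true 0 ∈ A := by
            obtain ⟨τ, hτ, e⟩ := q2
            rcases lab_cases τ with h | ⟨h, -⟩ | h | ⟨h, hj | ⟨j, hj⟩⟩ | ⟨h, -⟩ | h | ⟨h, -⟩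
            · have := congrFun (e.symm.trans h) 1
              norm_num at this
            · have := congrFun (e.symm.trans h) 1
              norm_num at this
            · have := congrFun (e.symm.trans h) 1
              norm_num at this
            · exact hj ▸ hτ
            · exact absurd (hj ▸ hτ) (hX j)
            · have := congrFun (e.symm.trans h) 1
              norm_num at this
            · have := congrFun (e.symm.trans h) 1
              norm_num at this
            · have := congrFun (e.symm.trans h) 1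
              norm_num at this
          have r3 : Ty.U true 2 ∈ A := by
            obtain ⟨τ, hτ, e⟩ := q3
            rcases lab_cases τ with h | ⟨h, -⟩ | h | ⟨h, -⟩ | ⟨h, hj | ⟨j, hj⟩⟩ | h | ⟨h, -⟩
            · have := congrFun (e.symm.trans h) 2
              simp at this
            · have := congrFun (e.symm.trans h) 2
              simp at this
            · have := congrFun (e.symm.trans h) 2
              simp at this
            · have := congrFun (e.symm.trans h) 2
              simp at this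
            · exact hj ▸ hτ
            · exact absurd (hj ▸ hτ) (hX j)
            · have : (1 : ℝ) = -1 := congrFun (e.symm.trans h) 2
              norm_num at this
            · have : (1 : ℝ) = -1 := congrFun (e.symm.trans h) 2
              norm_num at this
          obtain ⟨j, hj⟩ := r1
          exact h3 j hj r2 r3
        · refine hull A ![s1, s2, -3] fun τ hτ => ?_
          rw [dot]
          rcases lab_cases τ with h | ⟨h, -⟩ | h | ⟨h, -⟩ | ⟨h, -⟩ | h | ⟨h, -⟩
          · have := p1 τ hτ h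
            rw [h]; simp; linarith
          · have := n1 τ hτ h
            rw [h]; simp; linarith
          · have := p2 τ hτ h
            rw [h]; simp; linarith
          · have := n2 τ hτ h
            rw [h]; simp; linarith
          · exact absurd ⟨τ, hτ, h⟩ q3
          · rw [h]; simp
          · rw [h]; simp; linarith
      · refine hull A ![s1, 3, s3] fun τ hτ => ?_
        rw [dot]
        rcases lab_cases τ with h | ⟨h, -⟩ | h | ⟨h, -⟩ | ⟨h, -⟩ | h | ⟨h, -⟩
        · have := p1 τ hτ h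
          rw [h]; simp; linarith
        · have := n1 τ hτ h
          rw [h]; simp; linarith
        · rw [h]; simp
        · exact absurd ⟨τ, hτ, h⟩ q2
        · have := p3 τ hτ h
          rw [h]; simp; linarith
        · have := n3 τ hτ h
          rw [h]; simp; linarith
        · rw [h]; simp; linarith
    · refine hull A ![3, s2, s3] fun τ hτ => ?_
      rw [dot]
      rcases lab_cases τ with h | ⟨h, -⟩ | h | ⟨h, -⟩ | ⟨h, -⟩ | h | ⟨h, -⟩
      · rw [h]; simp
      · exact absurd ⟨τ, hτ, h⟩ q1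
      · have := p2 τ hτ h
        rw [h]; simp; linarith
      · have := n2 τ hτ h
        rw [h]; simp; linarith
      · have := p3 τ hτ h
        rw [h]; simp; linarith
      · have := n3 τ hτ h
        rw [h]; simp; linarith
      · rw [h]; simp; linarith
  · refine hull A ![s1, s2, s3] fun τ hτ => ?_
    rw [dot]
    rcases lab_cases τ with h | ⟨h, -⟩ | h | ⟨h, -⟩ | ⟨h, -⟩ | h | ⟨h, hm⟩
    · have := p1 τ hτ h
      rw [h]; simp; linarith
    · have := n1 τ hτ h
      rw [h]; simp; linarith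
    · have := p2 τ hτ h
      rw [h]; simp; linarith
    · have := n2 τ hτ h
      rw [h]; simp; linarith
    · have := p3 τ hτ h
      rw [h]; simp; linarith
    · have := n3 τ hτ h
      rw [h]; simp; linarith
    · exact absurd (hm ▸ hτ) hM

end Pool.Agent.LIX.L
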