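import Pool.Agent.LIX.StmtsL

/-!
# LIX, module L_IC: isotopy invariance of the class of a compressing disk
-/

set_option autoImplicit false

namespace Pool.Agent.LIX.L

open Set Metric Complex

namespace ICx

theorem mem_sphere_iff (z : ℂ) : z ∈ sphere (0 : ℂ) 1 ↔ ‖z‖ = 1 := mem_sphere_zero_iff_norm

/-- the inverse of an injective continuous map on a compact set, composed with a map -/
theorem contOn_inv {f : ℂ → ℂ × ℂ} {K : Set ℂ} (hK : IsCompact K) (hf : ContinuousOn f K)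
    {c : ℂ → ℂ} (hc : ContinuousOn c K) {S : ℂ × ℂ → ℂ} (hS : ∀ z ∈ K, S (f z) = c z) :
    ContinuousOn S (f '' K) := by
  rw [continuousOn_iff_isClosed]
  intro t ht
  obtain ⟨u, hu, hut⟩ := (continuousOn_iff_isClosed.1 hc) t ht
  refine ⟨f '' (K ∩ u), ((hK.inter_right hu).image_of_continuousOn
    (hf.mono inter_subset_left)).isClosed, ?_⟩
  ext p
  constructor
  · rintro ⟨hp, z, hz, rfl⟩
    have h1 : c z ∈ t := by
      rw [← hS z hz]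
      exact hp
    have h2 : z ∈ u ∩ K := by
      rw [← hut]
      exact ⟨h1, hz⟩
    exact ⟨⟨z, ⟨hz, h2.1⟩, rfl⟩, ⟨z, hz, rfl⟩⟩
  · rintro ⟨⟨z, ⟨hz, hzu⟩, rfl⟩, -⟩
    have h2 : z ∈ c ⁻¹' t ∩ K := by
      rw [hut]
      exact ⟨hzu, hz⟩
    refine ⟨?_, z, hz, rfl⟩
    change S (f z) ∈ t
    rw [hS z hz]
    exact h2.1

theorem norm_HT {p : ℂ × ℂ} (hp : p ∈ HT) :
    ‖p.1‖ = Real.cos (Real.pi / 4) ∧ ‖p.2‖ = Real.cos (Real.pi / 4) := by
  have h1 : ‖p.1‖ ^ 2 + ‖p.2‖ ^ 2 = 1 := hp.1.1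
  have h2 : ‖p.1‖ = ‖p.2‖ := hp.2
  have h3 : Real.cos (Real.pi / 4) ^ 2 = 1 / 2 := by
    rw [Real.cos_pi_div_four, div_pow, Real.sq_sqrt (by norm_num)]
    norm_num
  have h4 : 0 ≤ Real.cos (Real.pi / 4) := by
    rw [Real.cos_pi_div_four]
    positivity
  have h5 : ‖p.1‖ = Real.cos (Real.pi / 4) := by
    rw [← sq_eq_sq₀ (norm_nonneg _) h4, h3]
    rw [← h2] at h1
    linarith
  exact ⟨h5, by rw [← h2, h5]⟩

theorem cls_iff (hT : S_TOR) {f : ℂ → ℂ × ℂ} (hf : IsCompPar TT HT f) :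
    Cls0 (f '' Disk) ↔ LogOn (sphere (0 : ℂ) 1) (fun z => (f z).1) 0 ∧
      LogOn (sphere (0 : ℂ) 1) (fun z => (f z).2) 0 := by
  obtain ⟨⟨Φ, hΦc, hΦi, hΦ, hΦ0⟩, -⟩ := hf
  obtain ⟨hTt, -, -, -, -, -, -, -, -, -, hthc, hphc⟩ := hT
  have h0 : (0 : ℝ) ∈ Icc (-1 : ℝ) 1 := ⟨by norm_num, by norm_num⟩
  have hfc : ContinuousOn f Disk := by
    have h1 : ContinuousOn (fun z : ℂ => Φ (z, 0)) Disk := by
      refine hΦc.comp (by fun_prop) ?_
      intro z hz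
      exact ⟨hz, h0⟩
    exact h1.congr fun z hz => (hΦ0 z hz).symm
  have hfi : InjOn f Disk := by
    intro z hz w hw h
    rw [← hΦ0 z hz, ← hΦ0 w hw] at h
    exact congrArg Prod.fst (hΦi (show ((z, (0 : ℝ)) : ℂ × ℝ) ∈ Disk ×ˢ Icc (-1) 1 from ⟨hz, h0⟩)
      (show ((w, (0 : ℝ)) : ℂ × ℝ) ∈ Disk ×ˢ Icc (-1) 1 from ⟨hw, h0⟩) h)
  have hH : ∀ z ∈ Disk, (f z ∈ HT ↔ ‖z‖ = 1) := by
    intro z hz
    rw [← hΦ0 z hz]
    exact (hΦ z hz 0 h0).2.2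
  have hb : ∀ z ∈ Disk, f z ∉ TT.bd := by
    intro z hz
    rw [← hΦ0 z hz]
    exact (hΦ z hz 0 h0).2.1
  have hsub : sphere (0 : ℂ) 1 ⊆ Disk := by
    intro z hz
    rw [mem_sphere_iff] at hz
    exact le_of_eq hz
  have himg : f '' Disk ∩ HT = f '' sphere (0 : ℂ) 1 := by
    ext p
    constructor
    · rintro ⟨⟨z, hz, rfl⟩, hp⟩
      exact ⟨z, (mem_sphere_iff z).2 ((hH z hz).1 hp), rfl⟩
    · rintro ⟨z, hz, rfl⟩
      exact ⟨⟨z, hsub hz, rfl⟩, (hH z (hsub hz)).2 ((mem_sphere_iff z).1 hz)⟩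
  have hHs : ∀ z ∈ sphere (0 : ℂ) 1, f z ∈ HT := fun z hz =>
    (hH z (hsub hz)).2 ((mem_sphere_iff z).1 hz)
  constructor
  · rintro ⟨S, hSc, hS, -⟩
    have hSf : ContinuousOn (fun z => S (f z)) (sphere (0 : ℂ) 1) := by
      refine hSc.comp (hfc.mono hsub) ?_
      intro z hz
      exact ⟨⟨z, hsub hz, rfl⟩, hHs z hz⟩
    have hval : ∀ z ∈ sphere (0 : ℂ) 1, tor (S (f z)) = f z := fun z hz =>
      hS _ ⟨⟨z, hsub hz, rfl⟩, hHs z hz⟩
    constructor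
    · refine ⟨fun z => th (S (f z)), hthc.comp_continuousOn hSf, ?_⟩
      intro z hz
      have h1 := congrArg Prod.fst (hval z hz)
      rw [hTt] at h1
      rw [sub_zero, (norm_HT (hHs z hz)).1]
      exact h1.symm
    · refine ⟨fun z => ph (S (f z)), hphc.comp_continuousOn hSf, ?_⟩
      intro z hz
      have h1 := congrArg Prod.snd (hval z hz)
      rw [hTt] at h1
      rw [sub_zero, (norm_HT (hHs z hz)).2]
      exact h1.symm
  · rintro ⟨⟨φ₁, hφ₁, h1⟩, ⟨φ₂, hφ₂, h2⟩⟩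
    set c : ℂ → ℂ := fun z => (((φ₁ z - φ₂ z) / 2 : ℝ) : ℂ) + (((φ₁ z + φ₂ z) / 2 : ℝ) : ℂ) * I
      with hcdef
    have hcc : ContinuousOn c (sphere (0 : ℂ) 1) := by
      refine ContinuousOn.add ?_ (ContinuousOn.mul ?_ continuousOn_const)
      · exact Complex.continuous_ofReal.comp_continuousOn ((hφ₁.sub hφ₂).div_const 2)
      · exact Complex.continuous_ofReal.comp_continuousOn ((hφ₁.add hφ₂).div_const 2)
    have hcr : ∀ z, (c z).re = (φ₁ z - φ₂ z) / 2 := fun z => by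
      rw [hcdef]
      simp
    have hci : ∀ z, (c z).im = (φ₁ z + φ₂ z) / 2 := fun z => by
      rw [hcdef]
      simp
    have hth : ∀ z, th (c z) = φ₁ z := by
      intro z
      unfold th
      rw [hcr, hci]
      ring
    have hph : ∀ z, ph (c z) = φ₂ z := by
      intro z
      unfold ph
      rw [hcr, hci]
      ring
    have hleft : ∀ z ∈ sphere (0 : ℂ) 1, Function.invFunOn f (sphere (0 : ℂ) 1) (f z) = z :=
      fun z hz => (hfi.mono hsub).leftInvOn_invFunOn hz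
    refine ⟨fun p => c (Function.invFunOn f (sphere (0 : ℂ) 1) p), ?_, ?_, ?_⟩
    · rw [himg]
      refine contOn_inv (isCompact_sphere _ _) (hfc.mono hsub) hcc ?_
      intro z hz
      rw [hleft z hz]
    · rw [himg]
      rintro _ ⟨z, hz, rfl⟩
      dsimp only
      rw [hleft z hz, hTt, hth, hph]
      have h3 := h1 z hz
      have h4 := h2 z hz
      rw [sub_zero, (norm_HT (hHs z hz)).1] at h3
      rw [sub_zero, (norm_HT (hHs z hz)).2] at h4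
      exact Prod.ext h3.symm h4.symm
    · rintro p ⟨⟨z, hz, rfl⟩, -⟩ hp
      exact absurd hp (hb z hz)

end ICx

open ICx

theorem t_IC : M_IC := by
  intro hHTP hT hP F hF hpar
  have h0 : (0 : ℝ) ∈ Icc (0 : ℝ) 1 := ⟨le_rfl, zero_le_one⟩
  have h1 : (1 : ℝ) ∈ Icc (0 : ℝ) 1 := ⟨zero_le_one, le_rfl⟩
  rw [cls_iff hT (hpar 0 h0), cls_iff hT (hpar 1 h1)]
  have hPH : ∀ p ∈ HT, p.1 ≠ 0 ∧ p.2 ≠ 0 := hP.2.2.2.2.2.2.2.2.2
  have hsub : sphere (0 : ℂ) 1 ⊆ Disk := by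
    intro z hz
    rw [mem_sphere_iff] at hz
    exact le_of_eq hz
  have hin : ∀ z ∈ sphere (0 : ℂ) 1, ∀ t ∈ Icc (0 : ℝ) 1, F (z, t) ∈ HT := by
    intro z hz t ht
    obtain ⟨⟨Φ, -, -, hΦ, hΦ0⟩, -⟩ := hpar t ht
    have h2 := (hΦ z (hsub hz) 0 ⟨by norm_num, by norm_num⟩).2.2.2 ((mem_sphere_iff z).1 hz)
    rw [hΦ0 z (hsub hz)] at h2
    exact h2
  have hFs : ContinuousOn F (sphere (0 : ℂ) 1 ×ˢ Icc (0 : ℝ) 1) :=
    hF.mono (prod_mono hsub le_rfl)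
  have e1 := hHTP ℂ (sphere (0 : ℂ) 1) (fun p => (F p).1) 0 (isCompact_sphere _ _)
    (continuous_fst.comp_continuousOn hFs) (fun z hz t ht => (hPH _ (hin z hz t ht)).1)
  have e2 := hHTP ℂ (sphere (0 : ℂ) 1) (fun p => (F p).2) 0 (isCompact_sphere _ _)
    (continuous_snd.comp_continuousOn hFs) (fun z hz t ht => (hPH _ (hin z hz t ht)).2)
  exact and_congr e1 e2

end Pool.Agent.LIX.L
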