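import Pool.Agent.LIX.StmtsL

/-!
# LIX, block L, module IE: isotopy invariance of the class, edge disks
-/

set_option autoImplicit false

namespace Pool.Agent.LIX.L

open Set Metric Complex

noncomputable section

namespace IEx

/-- a function on the image of a compact set is continuous if the composition is -/
theorem cont_image {K : Set ℝ} (hK : IsCompact K) {f : ℝ → ℂ × ℂ} (hf : ContinuousOn f K)
    {S : ℂ × ℂ → ℂ} (hS : ContinuousOn (fun x => S (f x)) K) : ContinuousOn S (f '' K) := by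
  rw [continuousOn_iff_isClosed]
  intro t ht
  have h1 : IsCompact (K ∩ (fun x => S (f x)) ⁻¹' t) := by
    refine hK.of_isClosed_subset ?_ inter_subset_left
    exact hS.preimage_isClosed_of_isClosed hK.isClosed ht
  refine ⟨f '' (K ∩ (fun x => S (f x)) ⁻¹' t),
    (h1.image_of_continuousOn (hf.mono inter_subset_left)).isClosed, ?_⟩
  ext p
  constructor
  · rintro ⟨hp, x, hx, rfl⟩
    exact ⟨⟨x, ⟨hx, hp⟩, rfl⟩, ⟨x, hx, rfl⟩⟩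
  · rintro ⟨⟨x, ⟨hx, hp⟩, rfl⟩, -⟩
    exact ⟨hp, ⟨x, hx, rfl⟩⟩

/-- facts on an edge disk -/
theorem facts {f : ℂ → ℂ × ℂ} (hf : IsEdgePar TT HT f) :
    ContinuousOn f HDisk ∧ InjOn f HDisk ∧
      ∀ z ∈ HDisk, (f z ∈ HT ↔ z.im = 0) ∧ (f z ∈ TT.bd ↔ ‖z‖ = 1) := by
  obtain ⟨⟨Φ, hc, hi, h1, h2⟩, -⟩ := hf
  have m0 : (0 : ℝ) ∈ Icc (-1 : ℝ) 1 := ⟨by norm_num, by norm_num⟩
  have hm : ∀ z ∈ HDisk, ((z, (0 : ℝ)) : ℂ × ℝ) ∈ HDisk ×ˢ Icc (-1 : ℝ) 1 :=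
    fun z hz => ⟨hz, m0⟩
  refine ⟨?_, ?_, ?_⟩
  · have h3 : ContinuousOn (fun z : ℂ => Φ (z, (0 : ℝ))) HDisk :=
      hc.comp (by fun_prop) hm
    exact h3.congr fun z hz => (h2 z hz).symm
  · intro z hz w hw e
    rw [← h2 z hz, ← h2 w hw] at e
    exact congrArg Prod.fst (hi (hm z hz) (hm w hw) e)
  · intro z hz
    have h3 := h1 z hz 0 m0
    rw [h2 z hz] at h3
    exact ⟨h3.2.2.1, h3.2.1⟩

theorem mem_hd {x : ℝ} (hx : x ∈ Icc (-1 : ℝ) 1) : ((x : ℝ) : ℂ) ∈ HDisk := by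
  refine ⟨?_, ?_⟩
  · rw [Complex.norm_real, Real.norm_eq_abs]
    exact abs_le.2 hx
  · simp

/-- the class -/
theorem cls (hT : S_TOR) (hP : S_PRJ) (hC : S_LCU) {f : ℂ → ℂ × ℂ} (hf : IsEdgePar TT HT f)
    {ξ : ℝ → ℂ} {l : ℂ} (hl : l ∈ Lam) (hξ : ContinuousOn ξ (Icc (-1) 1))
    (ht : ∀ x ∈ Icc (-1 : ℝ) 1, tor (ξ x) = f (x : ℂ)) (h0 : ξ (-1) = pr (f ((-1 : ℝ) : ℂ)))
    (h1 : ξ 1 = pr (f ((1 : ℝ) : ℂ)) + l) : Cls0 (f '' HDisk) ↔ l = 0 := by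
  obtain ⟨fc, fi, fm⟩ := facts hf
  have m0 : (-1 : ℝ) ∈ Icc (-1 : ℝ) 1 := ⟨le_rfl, by norm_num⟩
  have m1 : (1 : ℝ) ∈ Icc (-1 : ℝ) 1 := ⟨by norm_num, le_rfl⟩
  have fr : ContinuousOn (fun x : ℝ => f (x : ℂ)) (Icc (-1) 1) :=
    fc.comp (by fun_prop) fun x hx => mem_hd hx
  have b0 : f ((-1 : ℝ) : ℂ) ∈ TT.bd := (fm _ (mem_hd m0)).2.2 (by simp)
  have b1 : f ((1 : ℝ) : ℂ) ∈ TT.bd := (fm _ (mem_hd m1)).2.2 (by simp)
  have t0 : f ((-1 : ℝ) : ℂ) ∈ HT := (fm _ (mem_hd m0)).1.2 (by simp)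
  have t1 : f ((1 : ℝ) : ℂ) ∈ HT := (fm _ (mem_hd m1)).1.2 (by simp)
  have p0 : ‖pr (f ((-1 : ℝ) : ℂ))‖ ≤ 1 / 5 := (hP.2.2.2.2.2.2.1 _ b0).1
  have p1 : ‖pr (f ((1 : ℝ) : ℂ))‖ ≤ 1 / 5 := (hP.2.2.2.2.2.2.1 _ b1).1
  have big : ∀ c ∈ Lam, ‖c‖ ≤ 2 / 5 → c = 0 := by
    intro c hc h
    by_contra h3
    have := hT.2.2.2.2.2.2.1 c hc h3
    linarith
  have himg : f '' HDisk ∩ HT = (fun x : ℝ => f (x : ℂ)) '' Icc (-1) 1 := by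
    ext p
    constructor
    · rintro ⟨⟨z, hz, rfl⟩, hp⟩
      have h3 := (fm z hz).1.1 hp
      have h4 : ((z.re : ℝ) : ℂ) = z := by
        apply Complex.ext <;> simp [h3]
      refine ⟨z.re, abs_le.1 ((abs_re_le_norm z).trans hz.1), ?_⟩
      simp only
      rw [h4]
    · rintro ⟨x, hx, rfl⟩
      exact ⟨⟨_, mem_hd hx, rfl⟩, (fm _ (mem_hd hx)).1.2 (by simp)⟩
  constructor
  · rintro ⟨S, hS1, hS2, hS3⟩
    rw [himg] at hS1 hS2 hS3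
    have c1 : ContinuousOn (fun x : ℝ => S (f (x : ℂ))) (Icc (-1) 1) :=
      hS1.comp fr fun x hx => mem_image_of_mem _ hx
    obtain ⟨c, hc, hc'⟩ := (hC ℝ (Icc (-1) 1) isPreconnected_Icc).2 _ _ c1 hξ fun x hx => by
      rw [ht x hx]
      exact hS2 _ (mem_image_of_mem _ hx)
    have n0 : ‖S (f ((-1 : ℝ) : ℂ))‖ ≤ 1 / 5 := hS3 _ (mem_image_of_mem _ m0) b0
    have n1 : ‖S (f ((1 : ℝ) : ℂ))‖ ≤ 1 / 5 := hS3 _ (mem_image_of_mem _ m1) b1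
    have e0 : c = S (f ((-1 : ℝ) : ℂ)) - pr (f ((-1 : ℝ) : ℂ)) := by
      have := hc' _ m0
      rw [this, h0]
      ring
    have z0 : c = 0 := by
      apply big c hc
      rw [e0]
      refine (norm_sub_le _ _).trans ?_
      linarith
    have e1 : l = S (f ((1 : ℝ) : ℂ)) - pr (f ((1 : ℝ) : ℂ)) := by
      have := hc' _ m1
      rw [this, h1, z0]
      ring
    apply big l hl
    rw [e1]
    refine (norm_sub_le _ _).trans ?_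
    linarith
  · intro hl0
    have hex : ∀ p : ℂ × ℂ, ∃ x : ℝ, p ∈ (fun x : ℝ => f (x : ℂ)) '' Icc (-1) 1 →
        x ∈ Icc (-1 : ℝ) 1 ∧ f (x : ℂ) = p := by
      intro p
      by_cases h : p ∈ (fun x : ℝ => f (x : ℂ)) '' Icc (-1) 1
      · obtain ⟨x, hx, e⟩ := h
        exact ⟨x, fun _ => ⟨hx, e⟩⟩
      · exact ⟨0, fun h' => absurd h' h⟩
    choose τ hτ using hex
    have hS : ∀ x ∈ Icc (-1 : ℝ) 1, τ (f (x : ℂ)) = x := by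
      intro x hx
      obtain ⟨a, b⟩ := hτ _ (mem_image_of_mem (fun x : ℝ => f (x : ℂ)) hx)
      exact Complex.ofReal_injective (fi (mem_hd a) (mem_hd hx) b)
    refine ⟨fun p => ξ (τ p), ?_, ?_, ?_⟩
    · rw [himg]
      refine cont_image isCompact_Icc fr ?_
      exact hξ.congr fun x hx => by rw [hS x hx]
    · rw [himg]
      rintro _ ⟨x, hx, rfl⟩
      simp only
      rw [hS x hx, ht x hx]
    · rw [himg]
      rintro _ ⟨x, hx, rfl⟩ hb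
      simp only at hb ⊢
      rw [hS x hx]
      have h3 := (fm _ (mem_hd hx)).2.1 hb
      rw [Complex.norm_real, Real.norm_eq_abs] at h3
      rcases (abs_eq (by norm_num)).1 h3 with e | e
      · rw [e, h1, hl0, add_zero]
        exact p1
      · rw [e, h0]
        exact p0

end IEx

theorem t_IE : M_IE := by
  intro hT hP hH hL hC _ F b j hF hE _
  have hG : ContinuousOn (fun x : ℝ × ℝ => F ((x.1 : ℂ), x.2)) (Icc (-1) 1 ×ˢ Icc 0 1) := by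
    refine hF.comp (by fun_prop) ?_
    intro x hx
    exact ⟨IEx.mem_hd hx.1, hx.2⟩
  have hGH : ∀ x ∈ Icc (-1 : ℝ) 1 ×ˢ Icc (0 : ℝ) 1, F ((x.1 : ℂ), x.2) ∈ HT := by
    intro x hx
    exact ((IEx.facts (hE x.2 hx.2)).2.2 _ (IEx.mem_hd hx.1)).1.2 (by simp)
  obtain ⟨Ξ, hΞ, hΞt⟩ := hL (ℝ × ℝ) (Icc (-1) 1 ×ˢ Icc 0 1) (fun x : ℝ × ℝ => F ((x.1 : ℂ), x.2))
    ((convex_Icc _ _).prod (convex_Icc _ _)) hG hGH
  have m0 : (-1 : ℝ) ∈ Icc (-1 : ℝ) 1 := ⟨le_rfl, by norm_num⟩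
  have m1 : (1 : ℝ) ∈ Icc (-1 : ℝ) 1 := ⟨by norm_num, le_rfl⟩
  have key : ∀ x ∈ Icc (-1 : ℝ) 1, |x| = 1 → ∃ l ∈ Lam, ∀ t ∈ Icc (0 : ℝ) 1,
      Ξ (x, t) = pr (F ((x : ℂ), t)) + l := by
    intro x hx hx1
    have hb : ∀ t ∈ Icc (0 : ℝ) 1, F ((x : ℂ), t) ∈ TT.bd := by
      intro t ht
      refine ((IEx.facts (hE t ht)).2.2 _ (IEx.mem_hd hx)).2.2 ?_
      rw [Complex.norm_real, Real.norm_eq_abs, hx1]
    have c1 : ContinuousOn (fun t : ℝ => Ξ (x, t)) (Icc 0 1) :=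
      hΞ.comp (by fun_prop) fun t ht => ⟨hx, ht⟩
    have c2 : ContinuousOn (fun t : ℝ => F ((x : ℂ), t)) (Icc 0 1) :=
      hF.comp (by fun_prop) fun t ht => ⟨IEx.mem_hd hx, ht⟩
    have c3 : ContinuousOn (fun t : ℝ => pr (F ((x : ℂ), t))) (Icc 0 1) :=
      hP.2.1.comp c2 hb
    obtain ⟨l, hl, h⟩ := (hC ℝ (Icc 0 1) isPreconnected_Icc).1
      (fun t => Ξ (x, t) - pr (F ((x : ℂ), t))) (c1.sub c3) (fun t ht =>
        hH.2.2.2.2 _ (hGH (x, t) ⟨hx, ht⟩) (hb t ht) _ (hΞt (x, t) ⟨hx, ht⟩))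
    refine ⟨l, hl, fun t ht => ?_⟩
    have := h t ht
    rw [← this]
    ring
  obtain ⟨l0, hl0, e0⟩ := key (-1) m0 (by norm_num)
  obtain ⟨l1, hl1, e1⟩ := key 1 m1 (by norm_num)
  have hT' := hT
  obtain ⟨-, -, ht3, -, hneg, hadd, -⟩ := hT
  have hl : l1 - l0 ∈ Lam := by
    rw [sub_eq_add_neg]
    exact hadd _ hl1 _ (hneg _ hl0)
  have hX : ContinuousOn (fun x : ℝ × ℝ => Ξ x - l0) (Icc (-1) 1 ×ˢ Icc 0 1) :=
    hΞ.sub continuousOn_const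
  have e3 : ∀ t ∈ Icc (0 : ℝ) 1, ∀ x ∈ Icc (-1 : ℝ) 1, tor (Ξ (x, t) - l0) = F ((x : ℂ), t) := by
    intro t ht x hx
    rw [← hΞt (x, t) ⟨hx, ht⟩, ht3]
    have : Ξ (x, t) - l0 - Ξ (x, t) = -l0 := by ring
    rw [this]
    exact hneg _ hl0
  have a0 : ∀ t ∈ Icc (0 : ℝ) 1, Ξ (-1, t) - l0 = pr (F (((-1 : ℝ) : ℂ), t)) := by
    intro t ht
    rw [e0 t ht]
    ring
  have a1 : ∀ t ∈ Icc (0 : ℝ) 1, Ξ (1, t) - l0 = pr (F (((1 : ℝ) : ℂ), t)) + (l1 - l0) := by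
    intro t ht
    rw [e1 t ht]
    ring
  refine ⟨fun x => Ξ x - l0, l1 - l0, hl, hX, fun t ht => ⟨e3 t ht, ?_, ?_, ?_⟩⟩
  · have := a0 t ht
    push_cast at this
    exact this
  · have := a1 t ht
    push_cast at this
    exact this
  · refine IEx.cls hT' hP hC (hE t ht) hl (ξ := fun x => Ξ (x, t) - l0) ?_ (e3 t ht) (a0 t ht)
      (a1 t ht)
    exact hX.comp (f := fun x : ℝ => (x, t)) (by fun_prop) fun x hx => ⟨hx, ht⟩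

end

end Pool.Agent.LIX.L
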