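import Pool.Agent.LIX.StmtsL

/-!
# LIX, block L: isotopy invariance of the logarithms
-/

set_option autoImplicit false

namespace Pool.Agent.LIX.L

open Set Metric Complex

namespace ILx

/-- The boundary of the half disk. -/
def A : Set ℂ := {z | z ∈ HDisk ∧ (z.im = 0 ∨ ‖z‖ = 1)}

theorem HDisk_closed : IsClosed HDisk :=
  (isClosed_le continuous_norm continuous_const).inter
    (isClosed_le continuous_const Complex.continuous_im)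

theorem A_compact : IsCompact A := by
  refine (isCompact_closedBall (0 : ℂ) 1).of_isClosed_subset ?_ ?_
  · exact HDisk_closed.inter ((isClosed_eq Complex.continuous_im continuous_const).union
      (isClosed_eq continuous_norm continuous_const))
  · intro z hz
    rw [mem_closedBall_zero_iff]
    exact hz.1.1

theorem edge_facts {f : ℂ → ℂ × ℂ} (hf : IsEdgePar TT HT f) :
    InjOn f HDisk ∧ ∀ z ∈ HDisk, (f z ∈ HT ↔ z.im = 0) ∧ (f z ∈ TT.bd ↔ ‖z‖ = 1) := by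
  obtain ⟨⟨Φ, -, hinj, h1, h2⟩, -⟩ := hf
  have h0 : (0 : ℝ) ∈ Icc (-1 : ℝ) 1 := ⟨by norm_num, by norm_num⟩
  refine ⟨?_, ?_⟩
  · intro z hz z' hz' h
    rw [← h2 z hz, ← h2 z' hz'] at h
    have := hinj (⟨hz, h0⟩ : (z, (0 : ℝ)) ∈ HDisk ×ˢ Icc (-1 : ℝ) 1)
      (⟨hz', h0⟩ : (z', (0 : ℝ)) ∈ HDisk ×ˢ Icc (-1 : ℝ) 1) h
    exact congrArg Prod.fst this
  · intro z hz
    rw [← h2 z hz]
    exact ⟨(h1 z hz 0 h0).2.2.1, (h1 z hz 0 h0).2.1⟩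

theorem real_of_im {z : ℂ} (h : z.im = 0) : ((z.re : ℝ) : ℂ) = z :=
  Complex.ext (Complex.ofReal_re _) (by rw [Complex.ofReal_im, h])

theorem re_mem {z : ℂ} (hz : z ∈ HDisk) : z.re ∈ Icc (-1 : ℝ) 1 :=
  abs_le.1 ((Complex.abs_re_le_norm z).trans hz.1)

theorem real_mem {x : ℝ} (hx : x ∈ Icc (-1 : ℝ) 1) : (x : ℂ) ∈ HDisk := by
  refine ⟨?_, ?_⟩
  · rw [Complex.norm_real, Real.norm_eq_abs]
    exact abs_le.2 hx
  · rw [Complex.ofReal_im]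

theorem w_lt {w : ℂ} (hw : w = nn ∨ w = ss) : ‖w‖ < 1 / 5 := by
  have h : ‖(((9 / 50 : ℝ) : ℂ)) * I‖ = 9 / 50 := by
    rw [norm_mul, Complex.norm_I, mul_one, Complex.norm_real, Real.norm_eq_abs,
      abs_of_nonneg (by norm_num)]
  rcases hw with rfl | rfl
  · rw [nn, h]
    norm_num
  · rw [ss, norm_neg, h]
    norm_num

/-- The loop. -/
noncomputable def g (f : ℂ → ℂ × ℂ) (ξ : ℝ → ℂ) (z : ℂ) : ℂ := if z.im = 0 then ξ z.re else pr (f z)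

theorem far (hT : S_TOR) (hHOL : S_HOL) {f : ℂ → ℂ × ℂ} (hf : IsEdgePar TT HT f) {ξ : ℝ → ℂ}
    (hξ : ∀ x ∈ Icc (-1 : ℝ) 1, tor (ξ x) = f x) {x : ℝ} (hx : x ∈ Icc (-1 : ℝ) 1) :
    1 / 5 ≤ ‖ξ x‖ := by
  have h1 : f x ∈ HT := ((edge_facts hf).2 _ (real_mem hx)).1.2 (Complex.ofReal_im x)
  rw [← hξ x hx] at h1
  have h2 := (hHOL.1 (ξ x)).1 h1 0 hT.2.2.2.1
  rwa [sub_zero] at h2

theorem g_ne (hT : S_TOR) (hHOL : S_HOL) (hARCS : S_ARCS) {f : ℂ → ℂ × ℂ}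
    (hf : IsEdgePar TT HT f) {b : Bool} {j : Fin 3} (hE : Edge b j (f '' HDisk)) {ξ : ℝ → ℂ}
    (hξ : ∀ x ∈ Icc (-1 : ℝ) 1, tor (ξ x) = f x) {w : ℂ} (hw : w = nn ∨ w = ss) {z : ℂ}
    (hz : z ∈ A) : g f ξ z ≠ w := by
  unfold g
  split_ifs with h
  · intro h1
    have h2 := far hT hHOL hf hξ (re_mem hz.1)
    rw [h1] at h2
    exact absurd (w_lt hw) (not_lt.2 h2)
  · intro h1
    have h2 : ‖z‖ = 1 := hz.2.resolve_left h
    have h3 : f z ∈ TT.bd := ((edge_facts hf).2 z hz.1).2.2 h2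
    have h4 : f z ∈ Chd b j := by
      rw [← hE.2.2]
      exact ⟨mem_image_of_mem _ hz.1, h3⟩
    have h5 : w ∈ Chp b j := by
      rw [← h1]
      exact mem_image_of_mem _ h4
    obtain ⟨-, -, -, -, -, h6, h7⟩ := hARCS b j
    rcases hw with rfl | rfl
    · exact h6 h5
    · exact h7 h5

theorem g_inj (hT : S_TOR) (hPRJ : S_PRJ) (hHOL : S_HOL) (hCHD : S_CHD) {f : ℂ → ℂ × ℂ}
    (hf : IsEdgePar TT HT f) {b : Bool} {j : Fin 3} (hE : Edge b j (f '' HDisk)) {ξ : ℝ → ℂ}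
    (hξ : ∀ x ∈ Icc (-1 : ℝ) 1, tor (ξ x) = f x) : InjOn (g f ξ) A := by
  obtain ⟨hinj, hfa⟩ := edge_facts hf
  have key : ∀ z z' : ℂ, z ∈ A → z' ∈ A → z.im = 0 → z'.im ≠ 0 → g f ξ z = g f ξ z' → False := by
    intro z z' hz hz' h h' hg
    unfold g at hg
    rw [if_pos h, if_neg h'] at hg
    have h1 := far hT hHOL hf hξ (re_mem hz.1)
    have h2 : f z' ∈ TT.bd := (hfa z' hz'.1).2.2 (hz'.2.resolve_left h')
    have h3 := hPRJ.2.2.2.2.2.2.1 (f z') h2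
    rw [hg] at h1
    exact h' ((hfa z' hz'.1).1.1 (h3.2.1 (le_antisymm h3.1 h1)))
  intro z hz z' hz' hg
  by_cases h : z.im = 0 <;> by_cases h' : z'.im = 0
  · have hg' := hg
    unfold g at hg'
    rw [if_pos h, if_pos h'] at hg'
    have h1 := hξ _ (re_mem hz.1)
    have h2 := hξ _ (re_mem hz'.1)
    rw [hg', h2, real_of_im h, real_of_im h'] at h1
    exact (hinj hz'.1 hz.1 h1).symm
  · exact (key z z' hz hz' h h' hg).elim
  · exact (key z' z hz' hz h' h hg.symm).elim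
  · have hg' := hg
    unfold g at hg'
    rw [if_neg h, if_neg h'] at hg'
    have h1 : ∀ z ∈ A, z.im ≠ 0 → f z ∈ Chd b j := by
      intro z hz h
      rw [← hE.2.2]
      exact ⟨mem_image_of_mem _ hz.1, (hfa z hz.1).2.2 (hz.2.resolve_left h)⟩
    exact hinj hz.1 hz'.1 ((hCHD b j).2.2.2.2.2.2.1 (h1 z hz h) (h1 z' hz' h') hg')

theorem g_image {f : ℂ → ℂ × ℂ} (hf : IsEdgePar TT HT f) {ξ : ℝ → ℂ}
    (h1 : ξ (-1) = pr (f (-1))) (h2 : ξ 1 = pr (f 1)) :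
    g f ξ '' A = ξ '' Icc (-1) 1 ∪ pr '' (f '' HDisk ∩ TT.bd) := by
  obtain ⟨hinj, hfa⟩ := edge_facts hf
  apply Subset.antisymm
  · rintro _ ⟨z, hz, rfl⟩
    unfold g
    split_ifs with h
    · exact Or.inl (mem_image_of_mem _ (re_mem hz.1))
    · exact Or.inr (mem_image_of_mem _
        ⟨mem_image_of_mem _ hz.1, (hfa z hz.1).2.2 (hz.2.resolve_left h)⟩)
  · rintro _ (⟨x, hx, rfl⟩ | ⟨_, ⟨⟨z, hz, rfl⟩, hb⟩, rfl⟩)
    · refine ⟨(x : ℂ), ⟨real_mem hx, Or.inl (Complex.ofReal_im x)⟩, ?_⟩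
      unfold g
      rw [if_pos (Complex.ofReal_im x), Complex.ofReal_re]
    · have hn : ‖z‖ = 1 := (hfa z hz).2.1 hb
      refine ⟨z, ⟨hz, Or.inr hn⟩, ?_⟩
      unfold g
      split_ifs with h
      · have h3 : z.re = 1 ∨ z.re = -1 := by
          have h4 : ‖((z.re : ℝ) : ℂ)‖ = 1 := by rw [real_of_im h, hn]
          rw [Complex.norm_real, Real.norm_eq_abs] at h4
          exact eq_or_eq_neg_of_abs_eq h4
        rcases h3 with h3 | h3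
        · have h5 : z = 1 := by rw [← real_of_im h, h3, Complex.ofReal_one]
          rw [h3, h5, h2]
        · have h5 : z = -1 := by rw [← real_of_im h, h3, Complex.ofReal_neg, Complex.ofReal_one]
          rw [h3, h5, h1]
      · rfl

theorem lift_eq (hT : S_TOR) {f : ℂ → ℂ × ℂ} (hf : IsEdgePar TT HT f)
    (hfc : ContinuousOn (fun x : ℝ => f x) (Icc (-1) 1)) {S : ℂ × ℂ → ℂ}
    (hS : Lf0 (f '' HDisk) S) {ξ : ℝ → ℂ} (hξc : ContinuousOn ξ (Icc (-1) 1))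
    (hξ : ∀ x ∈ Icc (-1 : ℝ) 1, tor (ξ x) = f x) (h0 : ‖ξ (-1)‖ ≤ 1 / 5) :
    ∀ x ∈ Icc (-1 : ℝ) 1, S (f x) = ξ x := by
  obtain ⟨hinj, hfa⟩ := edge_facts hf
  have hmem : ∀ x ∈ Icc (-1 : ℝ) 1, f x ∈ f '' HDisk ∩ HT := fun x hx =>
    ⟨mem_image_of_mem _ (real_mem hx), (hfa _ (real_mem hx)).1.2 (Complex.ofReal_im x)⟩
  have hc : ContinuousOn (fun x : ℝ => ‖S (f x) - ξ x‖) (Icc (-1) 1) :=
    ((hS.1.comp hfc hmem).sub hξc).norm
  have hlam : ∀ x ∈ Icc (-1 : ℝ) 1, S (f x) - ξ x ∈ Lam := by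
    intro x hx
    apply (hT.2.2.1 _ _).1
    rw [hξ x hx, hS.2.1 _ (hmem x hx)]
  have hbig : ∀ x ∈ Icc (-1 : ℝ) 1, S (f x) - ξ x ≠ 0 → 2 < ‖S (f x) - ξ x‖ := fun x hx h =>
    hT.2.2.2.2.2.2.1 _ (hlam x hx) h
  have hm1 : (-1 : ℝ) ∈ Icc (-1 : ℝ) 1 := ⟨le_rfl, by norm_num⟩
  have hs : ‖S (f ((-1 : ℝ) : ℂ)) - ξ (-1)‖ ≤ 2 / 5 := by
    have h1 : ‖S (f ((-1 : ℝ) : ℂ))‖ ≤ 1 / 5 := by
      apply hS.2.2 _ (hmem _ hm1)
      refine (hfa _ (real_mem hm1)).2.2 ?_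
      simp
    refine (norm_sub_le _ _).trans ?_
    linarith
  intro x hx
  by_contra hne
  have h1 := hbig x hx (sub_ne_zero.2 hne)
  have h2 : (1 : ℝ) ∈ (fun x : ℝ => ‖S (f x) - ξ x‖) '' Icc (-1) 1 := by
    apply isPreconnected_Icc.intermediate_value hm1 hx hc
    exact ⟨by linarith, by linarith⟩
  obtain ⟨y, hy, h3⟩ := h2
  have h3' : ‖S (f y) - ξ y‖ = 1 := h3
  have h4 : S (f y) - ξ y ≠ 0 := by
    intro h4
    rw [h4, norm_zero] at h3'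
    exact zero_ne_one h3'
  have h5 := hbig y hy h4
  rw [h3'] at h5
  norm_num at h5

theorem kset_eq (hT : S_TOR) {f : ℂ → ℂ × ℂ} (hf : IsEdgePar TT HT f)
    (hfc : ContinuousOn (fun x : ℝ => f x) (Icc (-1) 1)) {S : ℂ × ℂ → ℂ}
    (hS : Lf0 (f '' HDisk) S) {ξ : ℝ → ℂ} (hξc : ContinuousOn ξ (Icc (-1) 1))
    (hξ : ∀ x ∈ Icc (-1 : ℝ) 1, tor (ξ x) = f x) (h0 : ‖ξ (-1)‖ ≤ 1 / 5)
    (h1 : ξ (-1) = pr (f (-1))) (h2 : ξ 1 = pr (f 1)) :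
    Kset (f '' HDisk) S = g f ξ '' A := by
  obtain ⟨hinj, hfa⟩ := edge_facts hf
  rw [g_image hf h1 h2, Kset]
  congr 1
  apply Subset.antisymm
  · rintro _ ⟨_, ⟨⟨z, hz, rfl⟩, hH⟩, rfl⟩
    have h3 : z.im = 0 := (hfa z hz).1.1 hH
    refine ⟨z.re, re_mem hz, ?_⟩
    rw [← lift_eq hT hf hfc hS hξc hξ h0 _ (re_mem hz), real_of_im h3]
  · rintro _ ⟨x, hx, rfl⟩
    refine ⟨f x, ⟨mem_image_of_mem _ (real_mem hx), (hfa _ (real_mem hx)).1.2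
      (Complex.ofReal_im x)⟩, lift_eq hT hf hfc hS hξc hξ h0 x hx⟩

end ILx

theorem t_IL : M_IL := by
  intro hHTP hIMG hT hPRJ hHOL hCHD hARCS hED hKSU hIE F b j S S' w hF hpar hEdge hS hS' hw
  have i0 : (0 : ℝ) ∈ Icc (0 : ℝ) 1 := ⟨le_rfl, zero_le_one⟩
  have i1 : (1 : ℝ) ∈ Icc (0 : ℝ) 1 := ⟨zero_le_one, le_rfl⟩
  obtain ⟨Ξ, l, hl, hΞc, hΞ⟩ := hIE F b j hF hpar hEdge
  have hl0 : l = 0 := (hΞ 0 i0).2.2.2.1 ⟨S, hS⟩
  subst hl0
  have e1 : ∀ t ∈ Icc (0 : ℝ) 1, ∀ x ∈ Icc (-1 : ℝ) 1, tor (Ξ (x, t)) = F ((x : ℂ), t) :=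
    fun t ht => (hΞ t ht).1
  have e2 : ∀ t ∈ Icc (0 : ℝ) 1, Ξ (-1, t) = pr (F (-1, t)) := fun t ht => (hΞ t ht).2.1
  have e3 : ∀ t ∈ Icc (0 : ℝ) 1, Ξ (1, t) = pr (F (1, t)) := fun t ht => by
    rw [(hΞ t ht).2.2.1, add_zero]
  have hm1 : (-1 : ℝ) ∈ Icc (-1 : ℝ) 1 := ⟨le_rfl, by norm_num⟩
  have e4 : ∀ t ∈ Icc (0 : ℝ) 1, ‖Ξ (-1, t)‖ ≤ 1 / 5 := by
    intro t ht
    rw [e2 t ht]
    refine (hPRJ.2.2.2.2.2.2.1 _ ?_).1
    have h1 := ((ILx.edge_facts (hpar t ht)).2 _ (ILx.real_mem hm1)).2.2 (by simp)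
    simpa using h1
  -- continuity in the slices
  have hfc : ∀ t ∈ Icc (0 : ℝ) 1, ContinuousOn (fun x : ℝ => F ((x : ℂ), t)) (Icc (-1) 1) := by
    intro t ht
    have h1 : ContinuousOn (fun x : ℝ => ((x : ℂ), t)) (Icc (-1) 1) :=
      Continuous.continuousOn (by fun_prop)
    exact hF.comp h1 fun x hx => ⟨ILx.real_mem hx, ht⟩
  have hξc : ∀ t ∈ Icc (0 : ℝ) 1, ContinuousOn (fun x : ℝ => Ξ (x, t)) (Icc (-1) 1) := by
    intro t ht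
    have h1 : ContinuousOn (fun x : ℝ => (x, t)) (Icc (-1) 1) :=
      Continuous.continuousOn (by fun_prop)
    exact hΞc.comp h1 fun x hx => ⟨hx, ht⟩
  -- the homotopy
  set G : ℂ × ℝ → ℂ := fun p => if p.1.im = 0 then Ξ (p.1.re, p.2) else pr (F p) with hG
  have hGt : ∀ t : ℝ, (fun z => G (z, t)) =
      ILx.g (fun z => F (z, t)) (fun x => Ξ (x, t)) := by
    intro t
    rfl
  have hGc : ContinuousOn G (ILx.A ×ˢ Icc 0 1) := by
    have hcl1 : IsClosed {p : ℂ × ℝ | p.1.im = 0} :=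
      isClosed_eq (Complex.continuous_im.comp continuous_fst) continuous_const
    have hcl2 : IsClosed {p : ℂ × ℝ | ‖p.1‖ = 1} :=
      isClosed_eq (continuous_norm.comp continuous_fst) continuous_const
    have hsub : ILx.A ×ˢ Icc (0 : ℝ) 1 ⊆
        ((ILx.A ×ˢ Icc (0 : ℝ) 1) ∩ {p : ℂ × ℝ | p.1.im = 0}) ∪
          ((ILx.A ×ˢ Icc (0 : ℝ) 1) ∩ {p : ℂ × ℝ | ‖p.1‖ = 1}) := by
      intro p hp
      rcases hp.1.2 with h | h
      · exact Or.inl ⟨hp, h⟩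
      · exact Or.inr ⟨hp, h⟩
    have hAc : IsClosed (ILx.A ×ˢ Icc (0 : ℝ) 1) := ILx.A_compact.isClosed.prod isClosed_Icc
    refine ContinuousOn.mono ?_ hsub
    refine ContinuousOn.union_of_isClosed ?_ ?_ (hAc.inter hcl1) (hAc.inter hcl2)
    · have h1 : ContinuousOn (fun p : ℂ × ℝ => Ξ (p.1.re, p.2))
          ((ILx.A ×ˢ Icc (0 : ℝ) 1) ∩ {p : ℂ × ℝ | p.1.im = 0}) := by
        have h2 : ContinuousOn (fun p : ℂ × ℝ => (p.1.re, p.2))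
            ((ILx.A ×ˢ Icc (0 : ℝ) 1) ∩ {p : ℂ × ℝ | p.1.im = 0}) :=
          Continuous.continuousOn (by fun_prop)
        exact hΞc.comp h2 fun p hp => ⟨ILx.re_mem hp.1.1.1, hp.1.2⟩
      refine h1.congr fun p hp => ?_
      have h3 : p.1.im = 0 := hp.2
      rw [hG]
      simp only [h3, if_true]
    · have h1 : ContinuousOn (fun p : ℂ × ℝ => pr (F p))
          ((ILx.A ×ˢ Icc (0 : ℝ) 1) ∩ {p : ℂ × ℝ | ‖p.1‖ = 1}) := by
        refine hPRJ.2.1.comp (hF.mono fun p hp => ⟨hp.1.1.1, hp.1.2⟩) ?_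
        intro p hp
        exact ((ILx.edge_facts (hpar p.2 hp.1.2)).2 p.1 hp.1.1.1).2.2 hp.2
      refine h1.congr fun p hp => ?_
      by_cases h3 : p.1.im = 0
      · have h4 : p.1.re = 1 ∨ p.1.re = -1 := by
          have h5 : ‖((p.1.re : ℝ) : ℂ)‖ = 1 := by
            rw [ILx.real_of_im h3]
            exact hp.2
          rw [Complex.norm_real, Real.norm_eq_abs] at h5
          exact eq_or_eq_neg_of_abs_eq h5
        rw [hG]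
        simp only [h3, if_true]
        rcases h4 with h4 | h4
        · have h6 : p = (1, p.2) := by
            refine Prod.ext ?_ rfl
            rw [← ILx.real_of_im h3, h4, Complex.ofReal_one]
          rw [h4, e3 p.2 hp.1.2, ← h6]
        · have h6 : p = (-1, p.2) := by
            refine Prod.ext ?_ rfl
            rw [← ILx.real_of_im h3, h4, Complex.ofReal_neg, Complex.ofReal_one]
          rw [h4, e2 p.2 hp.1.2, ← h6]
      · rw [hG]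
        simp only [h3, if_false]
  have hGw : ∀ x ∈ ILx.A, ∀ t ∈ Icc (0 : ℝ) 1, G (x, t) ≠ w := by
    intro x hx t ht
    exact ILx.g_ne hT hHOL hARCS (hpar t ht) (hEdge t ht) (e1 t ht) hw hx
  have hslice : ∀ t ∈ Icc (0 : ℝ) 1, ∀ S'' : ℂ × ℂ → ℂ,
      Lf0 ((fun z => F (z, t)) '' HDisk) S'' →
      (LogOn ILx.A (fun z => G (z, t)) w ↔
        HasLog (Kset ((fun z => F (z, t)) '' HDisk) S'') w) := by
    intro t ht S'' hS''
    rw [ILx.kset_eq hT (hpar t ht) (hfc t ht) hS'' (hξc t ht) (e1 t ht) (e4 t ht) (e2 t ht)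
      (e3 t ht)]
    have h1 : ContinuousOn (fun z => G (z, t)) ILx.A := by
      have h2 : ContinuousOn (fun z : ℂ => (z, t)) ILx.A := Continuous.continuousOn (by fun_prop)
      exact hGc.comp h2 fun z hz => ⟨hz, ht⟩
    refine hIMG ℂ ILx.A _ w ILx.A_compact h1
      (ILx.g_inj hT hPRJ hHOL hCHD (hpar t ht) (hEdge t ht) (e1 t ht)) ?_
    rintro ⟨z, hz, h2⟩
    exact hGw z hz t ht h2
  rw [← hslice 0 i0 S hS, ← hslice 1 i1 S' hS']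
  exact hHTP ℂ ILx.A G w ILx.A_compact hGc hGw

end Pool.Agent.LIX.L
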