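import Pool.Agent.LIX.StmtsL

/-!
# LIX, block L, module KDD: kinds for the model
-/

set_option autoImplicit false

namespace Pool.Agent.LIX.L

open Set Metric Complex

theorem kdd_ch_subset {b b' : Bool} {j j' : Fin 3} (h : Chd b j ⊆ Chd b' j') :
    ch b j ⊆ ch b' j' := by
  intro v hv
  obtain ⟨w, hw, hwv⟩ := h ⟨v, hv, rfl⟩
  have h1 := collar_TT.inj (x₁ := (w, 0)) (x₂ := (v, 0)) ⟨hw.1.1, by simp⟩ ⟨hv.1.1, by simp⟩ hwv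
  have h2 : w = v := congrArg Prod.fst h1
  exact h2 ▸ hw

theorem kdd_scale {A : Set ℂ} {F : ℂ × ℝ → ℂ × ℂ} (hF : ContinuousOn F (A ×ˢ Icc 0 1)) {t : ℝ}
    (ht : t ∈ Icc (0 : ℝ) 1) : ContinuousOn (fun x : ℂ × ℝ => F (x.1, t * x.2)) (A ×ˢ Icc 0 1) := by
  refine hF.comp (by fun_prop) ?_
  rintro ⟨z, s⟩ ⟨hz, hs⟩
  exact ⟨hz, mul_nonneg ht.1 hs.1, mul_le_one₀ ht.2 hs.1 hs.2⟩

theorem t_KDD : M_KDD := by
  intro hEPT hKND hKIN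
  obtain ⟨hKc, hKe⟩ := hKND _ TT HT VT col collar_TT
  obtain ⟨-, hIk, hIs⟩ := hKIN _ TT HT VT col collar_TT
  have i0 : (0 : ℝ) ∈ Icc (0 : ℝ) 1 := by simp
  have j0 : (0 : ℝ) ∈ Icc (-1 : ℝ) 1 := by simp
  have hcomp : ∀ f, IsCompPar TT HT f → f '' Disk ∩ TT.bd = ∅ ∧ ∃ b, f '' Disk ⊆ VT b :=
    fun f hf => hKc f hf
  have hedge : ∀ f, IsEdgePar TT HT f →
      ∃ b j, f '' HDisk ∩ TT.bd = Chd b j ∧ f '' HDisk ⊆ VT b := by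
    intro f hf
    obtain ⟨q, h1, h2⟩ := hKe f hf
    exact ⟨q.1, q.2, h1, h2⟩
  refine ⟨hcomp, hedge, ?_, ?_, ?_, ?_, ?_⟩
  · intro F hF hFt
    obtain ⟨-, b, hb⟩ := hcomp _ (hFt 0 i0)
    refine ⟨b, fun t ht => ⟨⟨_, hFt t ht, rfl⟩, ?_⟩⟩
    refine hIs _ _ b ?_ hb
    left
    refine ⟨fun x => F (x.1, t * x.2), kdd_scale hF ht, ?_, ?_, ?_⟩
    · intro s hs
      exact hFt (t * s) ⟨mul_nonneg ht.1 hs.1, mul_le_one₀ ht.2 hs.1 hs.2⟩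
    · simp
    · simp
  · intro F hF hFt
    obtain ⟨b, j, hj, hb⟩ := hedge _ (hFt 0 i0)
    refine ⟨b, j, fun t ht => ?_⟩
    have hiso : Isotopic TT HT ((fun z => F (z, 0)) '' HDisk) ((fun z => F (z, t)) '' HDisk) := by
      right
      refine ⟨fun x => F (x.1, t * x.2), kdd_scale hF ht, ?_, ?_, ?_⟩
      · intro s hs
        exact hFt (t * s) ⟨mul_nonneg ht.1 hs.1, mul_le_one₀ ht.2 hs.1 hs.2⟩
      · simp
      · simp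
    exact ⟨⟨_, hFt t ht, rfl⟩, hIs _ _ b hiso hb, hIk _ _ (some (b, j)) hiso hj⟩
  · intro D b b' h h'
    by_contra hne
    obtain ⟨⟨f, hf, hD⟩, h1⟩ := h
    obtain ⟨-, h2⟩ := h'
    have hsub : D ⊆ HT := by
      intro p hp
      rw [← collar_TT.side_inter]
      cases b <;> cases b'
      · exact absurd rfl hne
      · exact ⟨h2 hp, h1 hp⟩
      · exact ⟨h1 hp, h2 hp⟩
      · exact absurd rfl hne
    obtain ⟨⟨Φ, -, -, hΦ, hΦ0⟩, -⟩ := hf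
    have hz : (0 : ℂ) ∈ Disk := by
      change ‖(0 : ℂ)‖ ≤ 1
      simp
    have h3 : f 0 ∈ HT := hsub (by rw [hD]; exact ⟨0, hz, rfl⟩)
    rw [← hΦ0 0 hz] at h3
    have h4 := (hΦ 0 hz 0 j0).2.2.1 h3
    simp at h4
  · intro D b b' j' h h'
    obtain ⟨⟨f, hf, hD⟩, -⟩ := h
    obtain ⟨⟨g, hg, hD'⟩, -, -⟩ := h'
    have h1 := (hcomp f hf).1
    rw [← hD] at h1
    obtain ⟨⟨Φ, -, -, hΦ, hΦ0⟩, -⟩ := hg
    have hz : (1 : ℂ) ∈ HDisk := by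
      constructor <;> simp
    have h2 : g 1 ∈ TT.bd := by
      rw [← hΦ0 1 hz]
      exact (hΦ 1 hz 0 j0).2.1.2 (by simp)
    have h3 : g 1 ∈ D ∩ TT.bd := ⟨by rw [hD']; exact ⟨1, hz, rfl⟩, h2⟩
    rw [h1] at h3
    exact h3
  · intro D b b' j j' h h'
    have h1 : Chd b j = Chd b' j' := h.2.2.symm.trans h'.2.2
    have h2 : ch b j = ch b' j' :=
      subset_antisymm (kdd_ch_subset h1.subset) (kdd_ch_subset h1.symm.subset)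
    exact hEPT b j b' j' (by rw [h2])

end Pool.Agent.LIX.L
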