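import Pool.Agent.LIX.StmtsL

/-!
# LIX, module L_KH5: not both logarithms
-/

set_option autoImplicit false

namespace Pool.Agent.LIX.L

open Set Metric Complex

namespace KH5x

theorem norm_of_re {x : ℂ} (h : x.re = 0) : ‖x‖ = |x.im| := by
  have e : x = (x.im : ℂ) * I := by
    apply Complex.ext
    · simp [h]
    · simp
  rw [e, norm_mul, Complex.norm_I, mul_one, Complex.norm_real, Real.norm_eq_abs]
  simp

theorem zero_mem : (0 : ℂ) ∈ Lam := by
  refine ⟨0, 0, ?_⟩
  simp

end KH5x

open KH5x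

theorem t_KH5 : M_KH5 := by
  intro hHL5 hCHD hED hKSU D b j S hE hL
  obtain ⟨ξ, l, hF⟩ := hED D b j hE true
  obtain ⟨hl, hK, -, hK1, -, -, -, -, -⟩ := hKSU D b j S hE hL ξ l true hF
  obtain ⟨-, -, -, -, hsph, hcpt, -, m, hm, hmi, hR, hLt, hmR, hmL⟩ := hCHD b j
  have hm1 : m ∈ Chp b j ∩ {z | z.re = 0} := by rw [hm]; exact mem_singleton m
  have hm0 : m.re = 0 := hm1.2
  have hmK : m ∈ Kset D S := by
    rw [hK]
    exact Or.inr hm1.1
  have hend : ∀ r, cpt b j r ∈ Chp b j := by
    intro r
    have h : cpt b j r ∈ Chp b j ∩ sphere 0 (1 / 5) := by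
      rw [hsph]
      cases r
      · exact Or.inr rfl
      · exact Or.inl rfl
    exact h.1
  -- the arc is outside of the hole
  have hfar : ∀ t ∈ Icc (-1 : ℝ) 1, 1 / 5 ≤ ‖ξ t‖ := by
    intro t ht
    rcases eq_or_lt_of_le ht.1 with h | h
    · rw [← h, hF.left, (hcpt true).1]
    · rcases eq_or_lt_of_le ht.2 with h' | h'
      · rw [h', hF.right, hl, add_zero, (hcpt _).1]
      · have := hF.far t ⟨h, h'⟩ 0 zero_mem
        rw [sub_zero] at this
        exact this.le
  have hmn : ‖m‖ < 1 / 5 := by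
    rw [norm_of_re hm0]
    exact lt_trans hmi (by norm_num)
  have hsub : Chp b j ⊆ Kset D S := by
    rw [hK]
    exact subset_union_right
  have hset : Kset D S ∩ {z | z.re = 0 ∧ -(9 / 50 : ℝ) ≤ z.im ∧ z.im ≤ 9 / 50} = {m} := by
    apply Subset.antisymm
    · rintro x ⟨hx, hx0, hx1, hx2⟩
      have hn : ‖x‖ ≤ 1 / 5 := by
        rw [norm_of_re hx0]
        exact le_trans (abs_le.2 ⟨hx1, hx2⟩) (by norm_num)
      rw [← hm]
      exact ⟨hK1 x hx hn, hx0⟩
    · rintro x rfl
      have := abs_lt.1 hmi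
      exact ⟨hmK, hm0, this.1.le, this.2.le⟩
  have hpre : IsPreconnected (Kset D S \ {m}) := by
    have e : Kset D S \ {m} = ((Chp b j ∩ {z | 0 < z.re}) ∪ ξ '' Icc (-1) 1) ∪
        (Chp b j ∩ {z | z.re < 0}) := by
      rw [hK]
      ext x
      constructor
      · rintro ⟨hx | hx, hxm⟩
        · exact Or.inl (Or.inr hx)
        · rcases lt_trichotomy x.re 0 with h | h | h
          · exact Or.inr ⟨hx, h⟩
          · exfalso
            apply hxm
            have : x ∈ Chp b j ∩ {z | z.re = 0} := ⟨hx, h⟩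
            rw [hm] at this
            exact this
          · exact Or.inl (Or.inl ⟨hx, h⟩)
      · rintro ((⟨hx, h⟩ | ⟨t, ht, rfl⟩) | ⟨hx, h⟩)
        · refine ⟨Or.inr hx, ?_⟩
          intro hxm
          rw [mem_singleton_iff] at hxm
          rw [hxm] at h
          exact absurd hm0 (ne_of_gt h)
        · refine ⟨Or.inl ⟨t, ht, rfl⟩, ?_⟩
          intro hxm
          rw [mem_singleton_iff] at hxm
          have := hfar t ht
          rw [hxm] at this
          exact absurd hmn (not_lt.2 this)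
        · refine ⟨Or.inr hx, ?_⟩
          intro hxm
          rw [mem_singleton_iff] at hxm
          rw [hxm] at h
          exact absurd hm0 (ne_of_lt h)
    rw [e]
    have hξ : IsPreconnected (ξ '' Icc (-1) 1) := isPreconnected_Icc.image ξ hF.cont
    have h1 : cpt b j true ∈ Chp b j ∩ {z | 0 < z.re} := by
      refine ⟨hend true, ?_⟩
      have := (hcpt true).2
      have e1 : sg true = 1 := by simp [sg]
      rw [e1, one_mul] at this
      exact this
    have h2 : cpt b j false ∈ Chp b j ∩ {z | z.re < 0} := by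
      refine ⟨hend false, ?_⟩
      have := (hcpt false).2
      have e1 : sg false = -1 := by simp [sg]
      rw [e1, neg_one_mul, neg_pos] at this
      exact this
    have h3 : cpt b j true ∈ ξ '' Icc (-1) 1 :=
      ⟨-1, ⟨le_rfl, by norm_num⟩, hF.left⟩
    have h4 : cpt b j false ∈ ξ '' Icc (-1) 1 := by
      refine ⟨1, ⟨by norm_num, le_rfl⟩, ?_⟩
      rw [hF.right, hl, add_zero]
      rfl
    exact IsPreconnected.union (cpt b j false) (Or.inr h4) h2
      (IsPreconnected.union (cpt b j true) h1 h3 hR hξ) hLt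
  have hcR : m ∈ closure (Kset D S ∩ {z | 0 < z.re}) :=
    closure_mono (inter_subset_inter_left _ hsub) hmR
  have hcL : m ∈ closure (Kset D S ∩ {z | z.re < 0}) :=
    closure_mono (inter_subset_inter_left _ hsub) hmL
  exact hHL5 (Kset D S) (9 / 50) (9 / 50) m (by norm_num) (by norm_num) hset hpre hcR hcL

end Pool.Agent.LIX.L
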