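import Pool.Agent.LIX.StmtsL

/-!
# LIX, block L, module KH6: one of the logarithms exists
-/

set_option autoImplicit false

namespace Pool.Agent.LIX.L

open Set Metric Complex

namespace KH6x

theorem norm_nn : ‖nn‖ = 9 / 50 := by
  rw [nn, norm_mul, Complex.norm_I, mul_one, Complex.norm_real, Real.norm_eq_abs]
  norm_num

theorem norm_ss : ‖ss‖ = 9 / 50 := by
  have h : ss = -nn := rfl
  rw [h, norm_neg, norm_nn]

end KH6x

theorem t_KH6 : M_KH6 := by
  intro hHL6 hTOR hCHD hARCS hED hKSU D b j S hE hS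
  obtain ⟨ξ, l, hF⟩ := hED D b j hE true
  obtain ⟨hl, hK, -⟩ := hKSU D b j S hE hS ξ l true hF
  obtain ⟨hCc, hCb, -, -, hCs, hcp, -⟩ := hCHD b j
  obtain ⟨hUp, hDn, hcase, -, -, hnn, hss⟩ := hARCS b j
  have h0 : (0 : ℂ) ∈ Lam := hTOR.2.2.2.1
  rw [hK]
  have hleft : ξ (-1) = cpt b j true := hF.left
  have hright : ξ 1 = cpt b j false := by
    have h := hF.right
    rw [hl, add_zero] at h
    exact h
  refine hHL6 ξ (Chp b j) (1 / 5) (cpt b j true) (cpt b j false) nn ss (by norm_num) hF.cont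
    hF.inj ?_ hCc.isClosed hCb hCs ?_ hnn ?_ hss ?_
  · ext x
    constructor
    · rintro ⟨⟨t, ht, rfl⟩, hx⟩
      rw [mem_closedBall_zero_iff] at hx
      rcases eq_or_lt_of_le ht.1 with h1 | h1
      · left
        rw [← h1, hleft]
      · rcases eq_or_lt_of_le ht.2 with h2 | h2
        · right
          rw [h2, hright]
          rfl
        · exfalso
          have h3 := hF.far t ⟨h1, h2⟩ 0 h0
          rw [sub_zero] at h3
          exact absurd hx (not_le.2 h3)
    · rintro (rfl | rfl)
      · refine ⟨⟨-1, ⟨le_rfl, by norm_num⟩, hleft⟩, ?_⟩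
        rw [mem_closedBall_zero_iff]
        exact (hcp true).1.le
      · refine ⟨⟨1, ⟨by norm_num, le_rfl⟩, hright⟩, ?_⟩
        rw [mem_closedBall_zero_iff]
        exact (hcp false).1.le
  · rw [mem_ball_zero_iff, KH6x.norm_nn]
    norm_num
  · rw [mem_ball_zero_iff, KH6x.norm_ss]
    norm_num
  · intro e he hp hq
    rw [mem_sphere_zero_iff_norm] at he
    rcases hcase e he with h | h | h | h
    · exact absurd h hp
    · exact absurd h hq
    · exact Or.inl (hUp e h)
    · exact Or.inr (hDn e h)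

end Pool.Agent.LIX.L
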