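import Pool.Agent.LIX.StmtsL

/-!
# LIX, block L, module KSU: `Kset` does not depend on the lift
-/

set_option autoImplicit false

namespace Pool.Agent.LIX.L

open Set Metric Complex

namespace KSUx

/-- The image of a lift of the class 0 disk is the lifted arc. -/
theorem lift_image (hTOR : S_TOR) (hHOL : S_HOL) (hCHD : S_CHD) (hLCU : S_LCU)
    {D : Set (ℂ × ℂ)} {b : Bool} {j : Fin 3} {S : ℂ × ℂ → ℂ} (hS : Lf0 D S)
    {ξ : ℝ → ℂ} {l : ℂ} {r : Bool} (hF : EForm b j D ξ l r) :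
    S '' (D ∩ HT) = ξ '' Icc (-1) 1 := by
  obtain ⟨-, htc, -, h0, -, -, hbig, -, -, -, -, -⟩ := hTOR
  obtain ⟨hSc, hSt, hSb⟩ := hS
  have hmem : ∀ t ∈ Icc (-1 : ℝ) 1, tor (ξ t) ∈ D ∩ HT := by
    intro t ht
    rw [hF.img]
    exact ⟨t, ht, rfl⟩
  have hcont : ContinuousOn (fun t => S (tor (ξ t))) (Icc (-1 : ℝ) 1) :=
    hSc.comp (htc.comp_continuousOn hF.cont) hmem
  obtain ⟨c, hc, hceq⟩ := (hLCU ℝ (Icc (-1 : ℝ) 1) isPreconnected_Icc).2
    (fun t => S (tor (ξ t))) ξ hcont hF.cont (fun t ht => hSt _ (hmem t ht))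
  have hm1 : (-1 : ℝ) ∈ Icc (-1 : ℝ) 1 := ⟨le_rfl, by norm_num⟩
  have hn1 : ‖ξ (-1)‖ = 1 / 5 := by
    rw [hF.left]
    obtain ⟨-, -, -, -, -, hnorm, -⟩ := hCHD b j
    exact (hnorm r).1
  have hbd : tor (ξ (-1)) ∈ TT.bd := by
    rw [hHOL.2.1]
    exact ⟨0, h0, by rw [sub_zero]; exact hn1⟩
  have hS1 : ‖S (tor (ξ (-1)))‖ ≤ 1 / 5 := hSb _ (hmem _ hm1) hbd
  have hc0 : c = 0 := by
    by_contra hne
    have h2 := hbig c hc hne
    have h3 : c = S (tor (ξ (-1))) - ξ (-1) := by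
      have := hceq (-1) hm1
      rw [this]; ring
    have h4 : ‖c‖ ≤ 1 / 5 + 1 / 5 := by
      rw [h3]
      exact (norm_sub_le _ _).trans (add_le_add hS1 hn1.le)
    linarith
  rw [hF.img, image_image]
  refine image_congr ?_
  intro t ht
  have := hceq t ht
  rw [this, hc0, add_zero]

end KSUx

open KSUx in
theorem t_KSU : M_KSU := by
  intro hTOR _hPRJ hHOL hCHD hARCS hLCU D b j S hE hS ξ l r hF
  have hl : l = 0 := hF.cls.mp ⟨S, hS⟩
  have hK : ∀ S', Lf0 D S' → Kset D S' = ξ '' Icc (-1) 1 ∪ Chp b j := by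
    intro S' hS'
    unfold Kset Chp
    rw [lift_image hTOR hHOL hCHD hLCU hS' hF, hE.2.2]
  have hmem : ∀ t ∈ Icc (-1 : ℝ) 1, tor (ξ t) ∈ D ∩ HT := by
    intro t ht
    rw [hF.img]
    exact ⟨t, ht, rfl⟩
  obtain ⟨-, -, -, h0, -, -, hbig, -, -, -, -, -⟩ := hTOR
  obtain ⟨hCc, hCb, -, -, hCs, -, -, -⟩ := hCHD b j
  obtain ⟨-, -, -, -, -, hnn, hss⟩ := hARCS b j
  have hcpt : ∀ r', cpt b j r' ∈ Chp b j := by
    intro r'
    have h1 : cpt b j r' ∈ Chp b j ∩ sphere 0 (1 / 5) := by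
      rw [hCs]
      cases r'
      · exact Or.inr rfl
      · exact Or.inl rfl
    exact h1.1
  -- every point of the arc is in the chord or outside the hole
  have hcase : ∀ t ∈ Icc (-1 : ℝ) 1, ξ t ∈ Chp b j ∨ ∀ l' ∈ Lam, 1 / 5 < ‖ξ t - l'‖ := by
    intro t ht
    rcases eq_or_lt_of_le ht.1 with h | h
    · left
      rw [← h, hF.left]
      exact hcpt r
    rcases eq_or_lt_of_le ht.2 with h' | h'
    · left
      rw [h', hF.right, hl, add_zero]
      exact hcpt _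
    · right
      exact hF.far t ⟨h, h'⟩
  have hsmall : ∀ x ∈ Kset D S, ‖x‖ ≤ 1 / 5 → x ∈ Chp b j := by
    intro x hx hxn
    rw [hK S hS] at hx
    rcases hx with ⟨t, ht, rfl⟩ | hx
    · rcases hcase t ht with h | h
      · exact h
      · exfalso
        have := h 0 h0
        rw [sub_zero] at this
        linarith
    · exact hx
  have hnnn : ‖nn‖ ≤ 1 / 5 := by
    unfold nn
    rw [norm_mul, Complex.norm_I, mul_one, Complex.norm_real]
    norm_num
  have hssn : ‖ss‖ ≤ 1 / 5 := by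
    unfold ss
    rw [norm_neg, norm_mul, Complex.norm_I, mul_one, Complex.norm_real]
    norm_num
  refine ⟨hl, hK S hS, ?_, hsmall, ?_, ?_, ?_, ?_, ?_⟩
  · rw [hK S hS]
    exact (isCompact_Icc.image_of_continuousOn hF.cont).union hCc
  · intro x hx l' hl' hne
    have key : x ∈ Chp b j → 1 / 5 < ‖x - l'‖ := by
      intro hxC
      have h1 : ‖x‖ ≤ 1 / 5 := by
        have := hCb hxC
        rwa [mem_closedBall, dist_zero_right] at this
      have h2 := hbig l' hl' hne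
      have h3 : ‖l'‖ ≤ ‖x‖ + ‖x - l'‖ := by
        have h4 : l' = x - (x - l') := by ring
        calc ‖l'‖ = ‖x - (x - l')‖ := by rw [← h4]
          _ ≤ ‖x‖ + ‖x - l'‖ := norm_sub_le _ _
      linarith
    rw [hK S hS] at hx
    rcases hx with ⟨t, ht, rfl⟩ | hx
    · rcases hcase t ht with h | h
      · exact key h
      · exact h l' hl'
    · exact key hx
  · intro x hx
    rw [hK S hS] at hx
    rcases hx with ⟨t, ht, rfl⟩ | hx
    · exact Or.inr (hmem t ht).1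
    · exact Or.inl hx
  · intro S' hS'
    rw [hK S hS, hK S' hS']
  · intro h
    exact hnn (hsmall _ h hnnn)
  · intro h
    exact hss (hsmall _ h hssn)

end Pool.Agent.LIX.L
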