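import Pool.Agent.LIX.StmtsL

/-!
# LIX, block L, module LBM: the label map
-/

set_option autoImplicit false

namespace Pool.Agent.LIX.L

open Set Metric

namespace LBMx

theorem lv_add_ne (τ : Ty) : lv τ + lv τ ≠ 0 := by
  intro h
  have h0 := congrFun h 0
  have h1 := congrFun h 1
  have h2 := congrFun h 2
  cases τ with
  | M b => cases b <;> (simp [lv] at h0; try linarith)
  | P b => simp [lv] at h0; try linarith
  | X b j =>
    cases b
    · simp [lv] at h0; try linarith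
    · fin_cases j <;> simp [lv] at h0 h1 h2
  | U b j => cases b <;> fin_cases j <;> simp [lv] at h0 h1 h2
  | D b j => cases b <;> fin_cases j <;> simp [lv] at h0 h1 h2

end LBMx

open LBMx in
theorem t_LBM : M_LBM := by
  classical
  intro hTYP hNA hHUL
  obtain ⟨hex, huni, hinv⟩ := hTYP
  obtain ⟨hN1, hN2, hN3⟩ := hNA
  have hex' : ∀ D : CE TT HT, ∃ τ, HasTy D.1 τ := fun D => hex D.1 D.2
  choose ty hty using hex'
  have hlab : ∀ D D' : CE TT HT, Isotopic TT HT D.1 D'.1 → lv (ty D) = lv (ty D') := by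
    intro D D' h
    rw [huni D'.1 (ty D) (ty D') (hinv D.1 D'.1 (ty D) h (hty D)) (hty D')]
  refine ⟨Quot.lift (fun D => lv (ty D)) hlab, ?_, ?_⟩
  · intro D τ h
    change lv (ty D) = lv τ
    rw [huni D.1 (ty D) τ (hty D) h]
  · rintro s ⟨-, D, hD1, hD2⟩
    have hne : ∀ v w (τ τ' : Ty), τ ≠ τ' → HasTy (D v).1 τ → HasTy (D w).1 τ' → v ≠ w := by
      intro v w τ τ' hττ h1 h2 hvw
      subst hvw
      exact hττ (huni _ _ _ h1 h2)
    have hA := hHUL {τ | ∃ v ∈ s, HasTy (D v).1 τ} ?_ ?_ ?_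
    · intro h0
      apply hA
      refine convexHull_mono ?_ h0
      rintro _ ⟨v, hv, rfl⟩
      refine ⟨ty (D v), ⟨v, hv, hty (D v)⟩, ?_⟩
      conv_rhs => rw [← hD1 v hv]
      rfl
    · rintro τ ⟨v, hv, h1⟩ τ' ⟨w, hw, h2⟩
      by_cases hvw : v = w
      · subst hvw
        rw [huni _ _ _ h1 h2]
        exact lv_add_ne τ'
      · exact hN1 _ _ τ τ' h1 h2 (hD2 v hv w hw hvw)
    · rintro ⟨v, hv, h1⟩ j ⟨w, hw, h2⟩
      have hvw := hne v w _ _ (by simp) h1 h2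
      exact hN2 _ _ j h1 h2 (hD2 v hv w hw hvw)
    · rintro j ⟨v, hv, h1⟩ ⟨w, hw, h2⟩ ⟨x, hx, h3⟩
      have hvw := hne v w _ _ (by simp) h1 h2
      have hvx := hne v x _ _ (by simp) h1 h3
      exact hN3 _ _ _ j h1 h2 h3 (hD2 v hv w hw hvw) (hD2 v hv x hx hvx)

end Pool.Agent.LIX.L
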