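import Pool.Agent.LIX.StmtsL

/-!
# LIX, block L: uniqueness of lifts
-/

set_option autoImplicit false

namespace Pool.Agent.LIX.L

open Set Metric Complex

namespace LCUx

theorem sub_mem (hneg : ∀ x ∈ Lam, -x ∈ Lam) (hadd : ∀ x ∈ Lam, ∀ y ∈ Lam, x + y ∈ Lam)
    {x y : ℂ} (hx : x ∈ Lam) (hy : y ∈ Lam) : x - y ∈ Lam := by
  rw [sub_eq_add_neg]
  exact hadd x hx (-y) (hneg y hy)

theorem const (h0 : (0 : ℂ) ∈ Lam) (hneg : ∀ x ∈ Lam, -x ∈ Lam)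
    (hadd : ∀ x ∈ Lam, ∀ y ∈ Lam, x + y ∈ Lam) (hbig : ∀ x ∈ Lam, x ≠ 0 → 2 < ‖x‖)
    {E : Type} [TopologicalSpace E] {A : Set E} (hA : IsPreconnected A) (ξ : E → ℂ)
    (hξ : ContinuousOn ξ A) (hL : ∀ x ∈ A, ξ x ∈ Lam) : ∃ l ∈ Lam, ∀ x ∈ A, ξ x = l := by
  rcases A.eq_empty_or_nonempty with rfl | ⟨x₀, hx₀⟩
  · exact ⟨0, h0, fun x hx => absurd hx (notMem_empty x)⟩
  · refine ⟨ξ x₀, hL x₀ hx₀, fun x hx => ?_⟩
    by_contra hne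
    have hc : ContinuousOn (fun y => ‖ξ y - ξ x₀‖) A := (hξ.sub continuousOn_const).norm
    have himg : IsPreconnected ((fun y => ‖ξ y - ξ x₀‖) '' A) := hA.image _ hc
    have h1 : (0 : ℝ) ∈ (fun y => ‖ξ y - ξ x₀‖) '' A := ⟨x₀, hx₀, by simp⟩
    have h2 : ‖ξ x - ξ x₀‖ ∈ (fun y => ‖ξ y - ξ x₀‖) '' A := ⟨x, hx, rfl⟩
    have h3 : 2 < ‖ξ x - ξ x₀‖ :=
      hbig _ (sub_mem hneg hadd (hL x hx) (hL x₀ hx₀)) (sub_ne_zero.mpr hne)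
    have h4 : (1 : ℝ) ∈ (fun y => ‖ξ y - ξ x₀‖) '' A :=
      himg.ordConnected.out h1 h2 ⟨zero_le_one, by linarith⟩
    obtain ⟨y, hy, hy1⟩ := h4
    have h5 : ξ y - ξ x₀ ∈ Lam := sub_mem hneg hadd (hL y hy) (hL x₀ hx₀)
    have hy2 : ‖ξ y - ξ x₀‖ = 1 := hy1
    by_cases h6 : ξ y - ξ x₀ = 0
    · rw [h6, norm_zero] at hy2
      exact zero_ne_one hy2
    · have := hbig _ h5 h6
      linarith

end LCUx

theorem t_LCU : M_LCU := by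
  intro hT E _ A hA
  obtain ⟨-, -, htor, h0, hneg, hadd, hbig, -⟩ := hT
  refine ⟨fun ξ hξ hL => LCUx.const h0 hneg hadd hbig hA ξ hξ hL, ?_⟩
  intro ξ η hξ hη h
  obtain ⟨l, hl, hl'⟩ := LCUx.const h0 hneg hadd hbig hA (fun x => ξ x - η x) (hξ.sub hη)
    (fun x hx => (htor _ _).mp (h x hx))
  refine ⟨l, hl, fun x hx => ?_⟩
  have h1 : ξ x - η x = l := hl' x hx
  rw [← h1]
  ring

end Pool.Agent.LIX.L
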