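import Pool.Agent.LIX.StmtsL

/-!
# LIX, block L: LFC, lifting of maps from convex sets to the surface
-/

set_option autoImplicit false

namespace Pool.Agent.LIX.L

open Set Metric Complex

namespace LFCx

theorem norm_eq_cos {a b : ℝ} (ha : 0 ≤ a) (h : a ^ 2 + b ^ 2 = 1) (hab : a = b) :
    a = Real.cos (Real.pi / 4) := by
  subst hab
  rw [Real.cos_pi_div_four]
  have h2 : (√2 / 2) ^ 2 = 1 / 2 := by
    rw [div_pow, Real.sq_sqrt (by norm_num)]
    norm_num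
  have h3 : a ^ 2 = (√2 / 2) ^ 2 := by
    rw [h2]
    linarith
  exact (sq_eq_sq₀ ha (by positivity)).1 h3

theorem norm_fst_HT {p : ℂ × ℂ} (hp : p ∈ HT) :
    ‖p.1‖ = Real.cos (Real.pi / 4) ∧ ‖p.2‖ = Real.cos (Real.pi / 4) := by
  obtain ⟨⟨h1, -⟩, h2⟩ := hp
  have h1' : ‖p.1‖ ^ 2 + ‖p.2‖ ^ 2 = 1 := h1
  have h3 := norm_eq_cos (norm_nonneg _) h1' h2
  exact ⟨h3, h2 ▸ h3⟩

end LFCx

theorem t_LFC : M_LFC := by
  intro hlift htor hprj E _ _ A g hA hg hH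
  obtain ⟨htor1, -⟩ := htor
  have hne : ∀ p ∈ HT, p.1 ≠ 0 ∧ p.2 ≠ 0 := hprj.2.2.2.2.2.2.2.2.2
  obtain ⟨α, hα, hα'⟩ := hlift E A (fun x => (g x).1) hA (continuous_fst.comp_continuousOn hg)
    (fun x hx => (hne _ (hH x hx)).1)
  obtain ⟨β, hβ, hβ'⟩ := hlift E A (fun x => (g x).2) hA (continuous_snd.comp_continuousOn hg)
    (fun x hx => (hne _ (hH x hx)).2)
  refine ⟨fun x => (((α x - β x) / 2 : ℝ) : ℂ) + (((α x + β x) / 2 : ℝ) : ℂ) * I, ?_, ?_⟩
  · have h1 : ContinuousOn (fun x => (((α x - β x) / 2 : ℝ) : ℂ)) A :=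
      Complex.continuous_ofReal.comp_continuousOn ((hα.sub hβ).div_const 2)
    have h2 : ContinuousOn (fun x => (((α x + β x) / 2 : ℝ) : ℂ)) A :=
      Complex.continuous_ofReal.comp_continuousOn ((hα.add hβ).div_const 2)
    exact h1.add (h2.mul continuousOn_const)
  · intro x hx
    obtain ⟨n1, n2⟩ := LFCx.norm_fst_HT (hH x hx)
    have e1 : (g x).1 = ‖(g x).1‖ * exp (α x * I) := hα' x hx
    have e2 : (g x).2 = ‖(g x).2‖ * exp (β x * I) := hβ' x hx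
    rw [htor1]
    have t1 : th ((((α x - β x) / 2 : ℝ) : ℂ) + (((α x + β x) / 2 : ℝ) : ℂ) * I) = α x := by
      unfold th
      simp only [add_im, ofReal_im, mul_im, ofReal_re, I_im, I_re, add_re, mul_re]
      ring
    have t2 : ph ((((α x - β x) / 2 : ℝ) : ℂ) + (((α x + β x) / 2 : ℝ) : ℂ) * I) = β x := by
      unfold ph
      simp only [add_im, ofReal_im, mul_im, ofReal_re, I_im, I_re, add_re, mul_re]
      ring
    rw [t1, t2]
    refine Prod.ext ?_ ?_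
    · rw [e1, n1]
    · rw [e2, n2]

end Pool.Agent.LIX.L
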