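import Pool.Agent.LIX.StmtsL

/-!
# LIX, block L, module N1: non-adjacency of compressing disks and edge disks of nonzero classes
-/

set_option autoImplicit false

namespace Pool.Agent.LIX.L

open Set Metric Complex

namespace N1x

/-- the two lifted curves do not meet -/
lemma no_meet (hP : S_PRJ) (hH : S_HOL) {f : ℂ → ℂ × ℂ} {D' : Set (ℂ × ℂ)} {b : Bool}
    {a : ℝ → ℂ} {l : ℂ} (hC : CForm b f a l) {B : ℝ → ℂ}
    (hB : ∀ s, (∃ l' ∈ Lam, ‖B s - l'‖ ≤ 1 / 5) ∨ tor (B s) ∈ D')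
    (hsub : f '' Disk ∩ D' ⊆ TT.skel) (t s : ℝ) : a t ≠ B s := by
  intro hts
  rcases hB s with ⟨l', hl', h⟩ | h
  · have h1 := hC.far t l' hl'
    rw [hts] at h1
    linarith
  · have h1 : tor (a t) ∈ f '' Disk := by
      rw [hC.lift t]
      refine ⟨_, ?_, rfl⟩
      show ‖exp ((2 * Real.pi * t : ℝ) * I)‖ ≤ 1
      rw [norm_exp_ofReal_mul_I]
    rw [← hts] at h
    have h2 := hP.2.2.2.1 (hsub ⟨h1, h⟩)
    obtain ⟨l', hl', h3⟩ := (hH.2.1 (a t)).1 h2
    have h4 := hC.far t l' hl'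
    linarith

lemma eq_of_coords (hT : S_TOR) {x y : ℂ} (h1 : th x = th y) (h2 : ph x = ph y) : x = y := by
  obtain ⟨-, -, -, -, -, -, -, -, hadd, h0, -, -⟩ := hT
  have h3 : th (x + -y) = 0 := by
    rw [(hadd x (-y)).1, ((hadd y y).2.2.1), h1]
    ring
  have h4 : ph (x + -y) = 0 := by
    rw [(hadd x (-y)).2.1, ((hadd y y).2.2.2), h2]
    ring
  have h5 := h0 _ h3 h4
  exact eq_of_sub_eq_zero (by rw [sub_eq_add_neg]; exact h5)

end N1x

open N1x

/-- MODULE N1. -/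
theorem t_N1 : M_N1 := by
  intro hPM hT hP hH hE hC hR D D' b j hD hcD hD' hcD' hsub
  obtain ⟨⟨f, hf, rfl⟩, hVT⟩ := hD
  obtain ⟨a, l, hCF⟩ := hC f b hf hVT
  obtain ⟨ξ, l', hEF⟩ := hE D' (!b) j hD' true
  obtain ⟨B, hBc, hBp, hB⟩ := hR D' (!b) j ξ l' true hEF
  have hl : l ≠ 0 := fun h => hcD (hCF.cls.2 h)
  have hl' : l' ≠ 0 := fun h => hcD' (hEF.cls.2 h)
  obtain ⟨-, -, -, -, -, -, -, -, hadd, h0, hth, hph⟩ := id hT
  have hthc : Continuous th := hth
  cases b with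
  | true =>
    have h1 : th l = 0 := hCF.side.1 rfl
    have h2 : ph l' = 0 := hEF.side.2 rfl
    have h3 : ph l ≠ 0 := fun h => hl (h0 l h1 h)
    have h4 : th l' ≠ 0 := fun h => hl' (h0 l' h h2)
    obtain ⟨t, s, hts⟩ := hPM (fun t => (th (a t), ph (a t))) (fun s => (th (B s), ph (B s)))
      (ph l) (th l') ((hth.comp hCF.cont).prodMk (hph.comp hCF.cont))
      ((hth.comp hBc).prodMk (hph.comp hBc)) h3 h4
      (fun t => by
        simp only [hCF.per t, (hadd _ _).1, (hadd _ _).2.1, h1, Prod.mk_add_mk])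
      (fun s => by
        simp only [hBp s, (hadd _ _).1, (hadd _ _).2.1, h2, Prod.mk_add_mk])
    have h5 := Prod.mk.inj hts
    exact no_meet hP hH hCF hB hsub t s (eq_of_coords hT h5.1 h5.2)
  | false =>
    have h1 : ph l = 0 := hCF.side.2 rfl
    have h2 : th l' = 0 := hEF.side.1 rfl
    have h3 : th l ≠ 0 := fun h => hl (h0 l h h1)
    have h4 : ph l' ≠ 0 := fun h => hl' (h0 l' h2 h)
    obtain ⟨t, s, hts⟩ := hPM (fun t => (ph (a t), th (a t))) (fun s => (ph (B s), th (B s)))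
      (th l) (ph l') ((hph.comp hCF.cont).prodMk (hth.comp hCF.cont))
      ((hph.comp hBc).prodMk (hth.comp hBc)) h3 h4
      (fun t => by
        simp only [hCF.per t, (hadd _ _).1, (hadd _ _).2.1, h1, Prod.mk_add_mk])
      (fun s => by
        simp only [hBp s, (hadd _ _).1, (hadd _ _).2.1, h2, Prod.mk_add_mk])
    have h5 := Prod.mk.inj hts
    exact no_meet hP hH hCF hB hsub t s (eq_of_coords hT h5.2 h5.1)

end Pool.Agent.LIX.L
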