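import Pool.Agent.LIX.StmtsL

/-!
# LIX, block L, module N2: class 0 compressing disks meet the edge disks which are not of class 0
-/

set_option autoImplicit false

namespace Pool.Agent.LIX.L

open Set Metric Complex

theorem t_N2 : M_N2 := by
  intro hJ1 hTOR hPRJ hHOL hRET hCHD hED D D' b b' j hD hD0 hD' hD1 hs
  obtain ⟨⟨f, hf, rfl⟩, -⟩ := hD
  obtain ⟨S, hSc, hSl, -⟩ := hD0
  obtain ⟨⟨Φ, hΦc, -, hΦ, hΦ0⟩, hess⟩ := hf
  obtain ⟨-, htc, hteq, hz, hneg, hadd, hnorm, hfin, -⟩ := hTOR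
  have i0 : (0 : ℝ) ∈ Icc (-1 : ℝ) 1 := by simp
  have hfc : ContinuousOn f Disk := by
    have h1 : ContinuousOn (fun z : ℂ => Φ (z, 0)) Disk :=
      hΦc.comp (by fun_prop) fun z hz => ⟨hz, i0⟩
    exact h1.congr fun z hz => (hΦ0 z hz).symm
  have hsub : sphere (0 : ℂ) 1 ⊆ Disk := fun z hz => le_of_eq (by simpa using hz)
  have hbd : ∀ z ∈ Disk, f z ∉ TT.bd := by
    intro z hz
    rw [← hΦ0 z hz]
    exact (hΦ z hz 0 i0).2.1
  have hmem : ∀ z ∈ sphere (0 : ℂ) 1, f z ∈ f '' Disk ∩ HT := by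
    intro z hz
    have h1 : ‖z‖ = 1 := by simpa using hz
    refine ⟨⟨z, hsub hz, rfl⟩, ?_⟩
    rw [← hΦ0 z (hsub hz)]
    exact (hΦ z (hsub hz) 0 i0).2.2.2 h1
  set γ : ℂ → ℂ := fun z => S (f z) with hγ
  have hγc : ContinuousOn γ (sphere 0 1) := hSc.comp (hfc.mono hsub) hmem
  have hγt : ∀ z ∈ sphere (0 : ℂ) 1, tor (γ z) = f z := fun z hz => hSl _ (hmem z hz)
  have hγf : ∀ z ∈ sphere (0 : ℂ) 1, ∀ l ∈ Lam, 1 / 5 < ‖γ z - l‖ := by
    intro z hz l hl
    have h1 : tor (γ z) ∈ HT := by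
      rw [hγt z hz]
      exact (hmem z hz).2
    refine lt_of_le_of_ne ((hHOL.1 _).1 h1 l hl) fun h => ?_
    have h2 : tor (γ z) ∈ TT.bd := (hHOL.2.1 _).2 ⟨l, hl, h.symm⟩
    rw [hγt z hz] at h2
    exact hbd z (hsub hz) h2
  obtain ⟨ξ, l, hE⟩ := hED D' b' j hD' true
  have hl0 : l ≠ 0 := fun h => hD1 (hE.cls.2 h)
  set U : Set ℂ := (γ '' sphere 0 1)ᶜ with hU
  have hball : ∀ k ∈ Lam, closedBall k (1 / 5) ⊆ U := by
    rintro k hk x hx ⟨z, hz, rfl⟩
    rw [mem_closedBall, dist_eq_norm] at hx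
    linarith [hγf z hz k hk]
  have hjball : ∀ k ∈ Lam, ∀ x ∈ closedBall k (1 / 5), ∀ y ∈ closedBall k (1 / 5), JoinedIn U x y := by
    intro k hk x hx y hy
    have hpc : IsPathConnected (closedBall k (1 / 5 : ℝ)) :=
      (convex_closedBall k (1 / 5)).isPathConnected ⟨x, hx⟩
    exact (hpc.joinedIn x hx y hy).mono (hball k hk)
  have hjarc : ∀ k ∈ Lam, JoinedIn U (k + ξ (-1)) (k + ξ 1) := by
    intro k hk
    have hpc : IsPathConnected (Icc (-1 : ℝ) 1) :=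
      (convex_Icc (-1 : ℝ) 1).isPathConnected ⟨0, i0⟩
    have hc : ContinuousOn (fun t => k + ξ t) (Icc (-1) 1) := continuousOn_const.add hE.cont
    have hpc' := hpc.image' hc
    refine (hpc'.joinedIn _ ⟨-1, by simp, rfl⟩ _ ⟨1, by simp, rfl⟩).mono ?_
    rintro _ ⟨t, ht, rfl⟩ ⟨z, hz, h⟩
    have h1 : tor (γ z) = tor (ξ t) := by
      rw [h]
      exact (hteq _ _).2 (by simpa using hk)
    rw [hγt z hz] at h1
    have h2 : f z ∈ D' := by
      have h3 : tor (ξ t) ∈ D' ∩ HT := by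
        rw [hE.img]
        exact ⟨t, ht, rfl⟩
      rw [h1]
      exact h3.1
    exact hbd z (hsub hz) (hPRJ.2.2.2.1 (hs ⟨(hmem z hz).1, h2⟩))
  have hcpt : ∀ r, ‖cpt b' j r‖ = 1 / 5 := fun r => ((hCHD b' j).2.2.2.2.2.1 r).1
  have hstep : ∀ k ∈ Lam, JoinedIn U k (k + l) := by
    intro k hk
    have h1 : JoinedIn U k (k + ξ (-1)) := by
      refine hjball k hk _ (mem_closedBall_self (by norm_num)) _ ?_
      rw [mem_closedBall, dist_eq_norm, add_sub_cancel_left, hE.left]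
      exact (hcpt _).le
    have h2 : JoinedIn U (k + ξ 1) (k + l) := by
      refine hjball (k + l) (hadd _ hk _ hE.mem) _ ?_ _ (mem_closedBall_self (by norm_num))
      rw [mem_closedBall, dist_eq_norm, hE.right]
      have : k + (cpt b' j (!true) + l) - (k + l) = cpt b' j (!true) := by ring
      rw [this]
      exact (hcpt _).le
    exact (h1.trans (hjarc k hk)).trans h2
  have hfar : ∀ k ∈ Lam, ∀ R : ℝ, ∃ w, R < ‖w‖ ∧ JoinedIn U k w := by
    intro k hk R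
    have hmul : ∀ n : ℕ, k + (n : ℂ) * l ∈ Lam ∧ JoinedIn U k (k + (n : ℂ) * l) := by
      intro n
      induction n with
      | zero =>
        simp only [Nat.cast_zero, zero_mul, add_zero]
        exact ⟨hk, JoinedIn.refl (hball k hk (mem_closedBall_self (by norm_num)))⟩
      | succ n ih =>
        have e : k + ((n + 1 : ℕ) : ℂ) * l = k + (n : ℂ) * l + l := by
          push_cast
          ring
        rw [e]
        exact ⟨hadd _ ih.1 _ hE.mem, ih.2.trans (hstep _ ih.1)⟩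
    obtain ⟨n, hn⟩ := exists_nat_gt (|R| + ‖k‖)
    refine ⟨k + (n : ℂ) * l, ?_, (hmul n).2⟩
    have h2 : 2 * (n : ℝ) ≤ ‖(n : ℂ) * l‖ := by
      rw [norm_mul, Complex.norm_natCast]
      nlinarith [hnorm l hE.mem hl0, Nat.cast_nonneg (α := ℝ) n]
    have h3 : ‖(n : ℂ) * l‖ ≤ ‖k + (n : ℂ) * l‖ + ‖k‖ := by
      have := norm_sub_le (k + (n : ℂ) * l) k
      rwa [add_sub_cancel_left] at this
    linarith [le_abs_self R, abs_nonneg R, norm_nonneg k]
  have hγL : ∀ x ∈ sphere (0 : ℂ) 1, γ x ∉ Lam := by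
    intro x hx hxL
    have := hγf x hx _ hxL
    rw [sub_self, norm_zero] at this
    norm_num at this
  obtain ⟨G, hGc, hGs, hGL⟩ := hJ1 Lam γ hfin hγc hγL hfar
  obtain ⟨ρ, hρc, hρ1, hρ2⟩ := hRET
  refine hess ⟨fun z => tor (ρ (G z)), ?_, ?_, ?_⟩
  · exact htc.comp_continuousOn (hρc.comp hGc fun z hz => hGL z hz)
  · intro z hz
    exact (hHOL.1 _).2 (hρ1 _ (hGL z hz))
  · intro z hz
    have hz' : z ∈ sphere (0 : ℂ) 1 := by simpa using hz
    change tor (ρ (G z)) = f z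
    rw [hGs z hz', hρ2 _ fun l hl => (hγf z hz' l hl).le, hγt z hz']

end Pool.Agent.LIX.L
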