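import Pool.Agent.LIX.StmtsL

/-!
# LIX, block L, module PER: periodic extension through the holes
-/

set_option autoImplicit false

namespace Pool.Agent.LIX.L

open Set Metric Complex

namespace PERx

theorem int_mul_mem {l : ℂ} (hl : l ∈ Lam) (n : ℤ) : (n : ℂ) * l ∈ Lam := by
  obtain ⟨a, b, rfl⟩ := hl
  refine ⟨n * a, n * b, ?_⟩
  push_cast
  ring

/-- the path on `[0, 1]`: first the arc, then the segment in the hole -/
noncomputable def B0 (ξ : ℝ → ℂ) (c : ℂ) (s : ℝ) : ℂ :=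
  ξ (min (4 * s - 1) 1) + ((max 0 (2 * s - 1) : ℝ) : ℂ) * c

theorem B0_cont {ξ : ℝ → ℂ} (hξ : ContinuousOn ξ (Icc (-1) 1)) (c : ℂ) :
    ContinuousOn (B0 ξ c) (Icc 0 1) := by
  unfold B0
  refine ContinuousOn.add ?_ ?_
  · refine hξ.comp (by fun_prop) ?_
    intro s hs
    exact ⟨le_min (by linarith [hs.1]) (by norm_num), min_le_right _ _⟩
  · refine ContinuousOn.mul ?_ continuousOn_const
    exact (Complex.continuous_ofReal.comp (by fun_prop)).continuousOn

theorem B0_low (ξ : ℝ → ℂ) (c : ℂ) {s : ℝ} (hs : s ≤ 1 / 2) : B0 ξ c s = ξ (4 * s - 1) := by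
  unfold B0
  rw [min_eq_left (by linarith), max_eq_left (by linarith)]
  simp

theorem B0_high (ξ : ℝ → ℂ) (c : ℂ) {s : ℝ} (hs : 1 / 2 ≤ s) :
    B0 ξ c s = ξ 1 + ((2 * s - 1 : ℝ) : ℂ) * c := by
  unfold B0
  rw [min_eq_right (by linarith), max_eq_right (by linarith)]

/-- periodic extension -/
theorem ext_per (f : ℝ → ℂ) (l : ℂ) (hf : ContinuousOn f (Icc 0 1)) (h1 : f 1 = f 0 + l) :
    ∃ B : ℝ → ℂ, Continuous B ∧ (∀ s, B (s + 1) = B s + l) ∧
      ∀ s, B s = f (Int.fract s) + (⌊s⌋ : ℂ) * l := by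
  have : Fact ((0 : ℝ) < 1) := ⟨one_pos⟩
  have hc : ContinuousOn (fun s : ℝ => f s - (s : ℂ) * l) (Icc 0 1) :=
    hf.sub ((Complex.continuous_ofReal.mul continuous_const).continuousOn)
  have h0 : (fun s : ℝ => f s - (s : ℂ) * l) 0 = (fun s : ℝ => f s - (s : ℂ) * l) 1 := by
    simp [h1]
  have hL := AddCircle.liftIco_zero_continuous (p := (1 : ℝ)) h0 hc
  refine ⟨fun s => AddCircle.liftIco 1 0 (fun s : ℝ => f s - (s : ℂ) * l) (s : AddCircle (1 : ℝ)) +
    (s : ℂ) * l, ?_, ?_, ?_⟩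
  · exact (hL.comp (AddCircle.continuous_mk' 1)).add
      (Complex.continuous_ofReal.mul continuous_const)
  · intro s
    simp only
    rw [AddCircle.coe_add_period]
    push_cast
    ring
  · intro s
    simp only
    have h2 : ((s : ℝ) : AddCircle (1 : ℝ)) = ((Int.fract s : ℝ) : AddCircle (1 : ℝ)) := by
      have h3 : s = Int.fract s + ⌊s⌋ • (1 : ℝ) := by
        rw [zsmul_eq_mul, mul_one, Int.fract_add_floor]
      conv_lhs => rw [h3]
      rw [AddCircle.coe_add, AddCircle.coe_zsmul, AddCircle.coe_period, smul_zero, add_zero]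
    have h4 : Int.fract s ∈ Ico (0 : ℝ) (0 + 1) := by
      rw [zero_add]
      exact ⟨Int.fract_nonneg s, Int.fract_lt_one s⟩
    rw [h2, AddCircle.liftIco_coe_apply h4]
    have h5 : (s : ℂ) = ((Int.fract s : ℝ) : ℂ) + (⌊s⌋ : ℂ) := by
      have h6 : s = Int.fract s + (⌊s⌋ : ℝ) := (Int.fract_add_floor s).symm
      have h7 := congrArg (fun x : ℝ => (x : ℂ)) h6
      simp only [Complex.ofReal_add, Complex.ofReal_intCast] at h7
      exact h7
    linear_combination l * h5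

end PERx

open PERx in
theorem t_PER : M_PER := by
  intro hTOR hCHD D b j ξ l r hE
  have hT3 := hTOR.2.2.1
  have hadd := hTOR.2.2.2.2.2.1
  have hcp := (hCHD b j).2.2.2.2.2.1
  have hr := (hcp r).1
  have hnr := (hcp (!r)).1
  have hξ1 := hE.right
  have hξ0 := hE.left
  set c : ℂ := cpt b j r - cpt b j (!r) with hc
  have h1 : B0 ξ c 1 = B0 ξ c 0 + l := by
    rw [B0_high ξ c (by norm_num), B0_low ξ c (by norm_num)]
    have h2 : (4 * (0 : ℝ) - 1) = -1 := by norm_num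
    rw [h2, hξ0, hξ1, hc]
    push_cast
    ring
  obtain ⟨B, hB1, hB2, hB3⟩ := ext_per (B0 ξ c) l (B0_cont hE.cont c) h1
  refine ⟨B, hB1, hB2, ?_⟩
  intro s
  rw [hB3 s]
  have hf0 := Int.fract_nonneg s
  have hf1 := Int.fract_lt_one s
  rcases le_total (Int.fract s) (1 / 2) with h | h
  · right
    rw [B0_low ξ c h]
    have h2 : tor (ξ (4 * Int.fract s - 1) + (⌊s⌋ : ℂ) * l) = tor (ξ (4 * Int.fract s - 1)) := by
      rw [hT3]
      have h3 : ξ (4 * Int.fract s - 1) + (⌊s⌋ : ℂ) * l - ξ (4 * Int.fract s - 1) =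
          (⌊s⌋ : ℂ) * l := by ring
      rw [h3]
      exact int_mul_mem hE.mem _
    rw [h2]
    have h4 : tor (ξ (4 * Int.fract s - 1)) ∈ D ∩ HT := by
      rw [hE.img]
      exact ⟨4 * Int.fract s - 1, ⟨by linarith, by linarith⟩, rfl⟩
    exact h4.1
  · left
    refine ⟨l + (⌊s⌋ : ℂ) * l, hadd _ hE.mem _ (int_mul_mem hE.mem _), ?_⟩
    rw [B0_high ξ c h, hξ1, hc]
    set a : ℝ := 2 * Int.fract s - 1 with ha
    have ha0 : 0 ≤ a := by rw [ha]; linarith
    have ha1 : a ≤ 1 := by rw [ha]; linarith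
    have h5 : cpt b j (!r) + l + (a : ℂ) * (cpt b j r - cpt b j (!r)) + (⌊s⌋ : ℂ) * l -
        (l + (⌊s⌋ : ℂ) * l) = ((1 - a : ℝ) : ℂ) * cpt b j (!r) + (a : ℂ) * cpt b j r := by
      push_cast
      ring
    rw [h5]
    refine (norm_add_le _ _).trans ?_
    rw [norm_mul, norm_mul, hr, hnr, Complex.norm_real, Complex.norm_real,
      Real.norm_of_nonneg ha0, Real.norm_of_nonneg (by linarith : 0 ≤ 1 - a)]
    linarith

end Pool.Agent.LIX.L
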