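import Pool.Agent.LIX.StmtsL

/-!
# LIX, block L, module PRJ: the projection `pr` and `TT.bd`
-/

set_option autoImplicit false

namespace Pool.Agent.LIX.L

open Set Metric Complex

noncomputable section

namespace PRJx

theorem pr_kap (v : ℂ × ℝ) (hv : nrm v ≤ 1 / 2) :
    pr (kap v) = ((v.1.re : ℝ) : ℂ) + (v.2 : ℂ) * I := by
  unfold pr
  rw [arg_kap_fst hv, arg_kap_snd hv]
  apply Complex.ext
  · simp
  · simp

theorem pr_kap' (v : ℂ × ℝ) (hv : nrm v ≤ 1 / 2) : pr (kap v) = ⟨v.1.re, v.2⟩ := by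
  rw [pr_kap v hv]
  apply Complex.ext <;> simp

theorem bd_mem {p : ℂ × ℂ} (hp : p ∈ TT.bd) : ∃ v, nrm v = 1 / 5 ∧ kap v = p := hp

theorem norm_pr {v : ℂ × ℝ} (hv : nrm v = 1 / 5) :
    ‖pr (kap v)‖ ^ 2 = 1 / 25 - v.1.im ^ 2 := by
  rw [pr_kap' v (by rw [hv]; norm_num), ← Complex.normSq_eq_norm_sq, Complex.normSq_apply]
  have h := nrm_sq' v
  rw [hv] at h
  simp only
  nlinarith

theorem body_of_bd {p : ℂ × ℂ} (hp : p ∈ TT.bd) : p ∈ TT.body := by
  obtain ⟨v, hv, rfl⟩ := bd_mem hp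
  exact (kap_mem_body (by rw [hv]; norm_num)).2 hv.ge

theorem ht_iff {v : ℂ × ℝ} (hv : nrm v = 1 / 5) : kap v ∈ HT ↔ v.1.im = 0 := by
  have hv' : nrm v ≤ 1 / 2 := by rw [hv]; norm_num
  have h1 := norm_sub_kap hv'
  have h2 := (sin_sign ((abs_im_le_nrm v).trans hv')).1
  have h3 : kap v ∈ TT.body := (kap_mem_body hv').2 hv.ge
  have h4 : (0 : ℝ) < √2 := by positivity
  constructor
  · rintro ⟨-, h⟩
    rw [h, sub_self] at h1
    rcases mul_eq_zero.1 h1.symm with h5 | h5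
    · exact absurd h5 h4.ne'
    · exact h2.1 h5
  · intro h
    refine ⟨h3, ?_⟩
    rw [h, Real.sin_zero, mul_zero] at h1
    linarith

theorem s3_of_body {p : ℂ × ℂ} (hp : p ∈ TT.body) : ‖p.1‖ ^ 2 + ‖p.2‖ ^ 2 = 1 := hp.1

theorem compact_nrm : IsCompact {v : ℂ × ℝ | nrm v = 1 / 5} := by
  refine (isCompact_closedBall (0 : ℂ × ℝ) 1).of_isClosed_subset
    (isClosed_eq continuous_nrm continuous_const) ?_
  intro v hv
  have h := nrm_sq v
  have h1 : nrm v = 1 / 5 := hv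
  rw [h1] at h
  rw [mem_closedBall_zero_iff, Prod.norm_def, max_le_iff, Real.norm_eq_abs]
  constructor
  · nlinarith [norm_nonneg v.1, sq_nonneg v.2]
  · apply abs_le_of_sq_le_sq _ (by norm_num)
    nlinarith [sq_nonneg ‖v.1‖]

theorem nml_sph (v : ℂ × ℝ) (h : 0 < nrm v) : nml v ∈ Sph := by
  have h1 := nrm_sq v
  change ‖(nml v).1‖ ^ 2 + (nml v).2 ^ 2 = 1
  unfold nml
  simp only
  rw [norm_div, Complex.norm_real, Real.norm_of_nonneg h.le]
  have h2 : nrm v ≠ 0 := h.ne'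
  field_simp
  linarith

theorem nrm_pos_of {v : ℂ × ℝ} (h : ‖v.1‖ = 1) : 0 < nrm v := by
  have h1 := nrm_sq v
  rw [h] at h1
  have h2 := nrm_nonneg v
  have h3 : nrm v ≠ 0 := by
    intro e
    rw [e] at h1
    nlinarith [sq_nonneg v.2]
  exact lt_of_le_of_ne h2 h3.symm

theorem edg_sub (i j : Fin 4) : Edg i j ⊆ Sph := by
  have hh : ∀ b k : ℝ, hlx b k ⊆ Sph := by
    rintro b k _ ⟨u, -, rfl⟩
    exact nml_sph _ (nrm_pos_of (Complex.norm_exp_ofReal_mul_I _))
  have hs : ∀ (z : ℂ) (m : ℝ), ‖z‖ = 1 → ({nml (z, m)} : Set (ℂ × ℝ)) ⊆ Sph := by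
    intro z m hz
    rw [singleton_subset_iff]
    exact nml_sph _ (nrm_pos_of hz)
  have hI : ‖I‖ = 1 := Complex.norm_I
  have hI' : ‖-I‖ = 1 := by rw [norm_neg, Complex.norm_I]
  have ha : {v : ℂ × ℝ | v ∈ Sph ∧ v.1.re = 0 ∧ v.2 ≤ -2 * ‖v.1‖} ⊆ Sph := fun v hv => hv.1
  have hb : {v : ℂ × ℝ | v ∈ Sph ∧ v.1.re = 0 ∧ 2 * ‖v.1‖ ≤ v.2} ⊆ Sph := fun v hv => hv.1
  fin_cases i <;> fin_cases j
  · exact hs _ _ hI
  · exact hh _ _
  · exact hh _ _
  · exact ha
  · exact hh _ _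
  · exact hs _ _ hI
  · exact hb
  · exact hh _ _
  · exact hh _ _
  · exact hb
  · exact hs _ _ hI'
  · exact hh _ _
  · exact ha
  · exact hh _ _
  · exact hh _ _
  · exact hs _ _ hI'

theorem skel_sub : TT.skel ⊆ TT.bd := by
  intro p hp
  unfold Cells.skel at hp
  obtain ⟨i, hi⟩ := mem_iUnion.1 hp
  obtain ⟨j, hj⟩ := mem_iUnion.1 hi
  obtain ⟨v, hv, rfl⟩ := hj
  have h1 := (mem_Sph_iff v).1 (edg_sub i j hv)
  refine ⟨(v.1 / 5, v.2 / 5), ?_, rfl⟩
  have h2 := nrm_smul (r := 1 / 5) (by norm_num) v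
  rw [h1, mul_one] at h2
  change nrm (v.1 / 5, v.2 / 5) = 1 / 5
  rw [← h2]
  congr 1
  refine Prod.ext ?_ ?_
  · simp only
    push_cast
    ring
  · simp only
    ring

end PRJx

theorem t_PRJ : S_PRJ := by
  refine ⟨PRJx.pr_kap, ?_, ?_, PRJx.skel_sub, fun p hp => PRJx.body_of_bd hp, ?_, ?_, ?_, ?_, ?_⟩
  · have h1 : ContinuousOn (fun p : ℂ × ℂ => (((kinv p).1.re : ℝ) : ℂ) + ((kinv p).2 : ℂ) * I)
        TT.bd := by
      have h2 : ContinuousOn kinv TT.bd := by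
        refine continuousOn_kinv.mono ?_
        intro p hp
        obtain ⟨v, hv, rfl⟩ := PRJx.bd_mem hp
        exact kap_slit (by rw [hv]; norm_num)
      have h3 : Continuous fun v : ℂ × ℝ => ((v.1.re : ℝ) : ℂ) + (v.2 : ℂ) * I := by fun_prop
      exact h3.comp_continuousOn h2
    refine h1.congr ?_
    intro p hp
    unfold pr kinv
    apply Complex.ext <;> simp
  · have h1 : TT.bd = kap '' {v | nrm v = 1 / 5} := rfl
    rw [h1]
    exact PRJx.compact_nrm.image continuous_kap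
  · intro p
    unfold th ph pr
    simp only
    constructor <;> ring
  · intro p hp
    obtain ⟨v, hv, rfl⟩ := PRJx.bd_mem hp
    have h1 := PRJx.norm_pr hv
    have h0 := norm_nonneg (pr (kap v))
    refine ⟨by nlinarith [sq_nonneg v.1.im], ?_⟩
    rw [PRJx.ht_iff hv]
    constructor
    · intro h
      rw [h] at h1
      have : v.1.im ^ 2 = 0 := by linarith
      exact pow_eq_zero_iff (two_ne_zero) |>.1 this
    · intro h
      rw [h] at h1
      nlinarith
  · intro p hp hp'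
    obtain ⟨v, hv, rfl⟩ := PRJx.bd_mem hp
    have h1 := (PRJx.ht_iff hv).1 hp'
    unfold tor
    rw [PRJx.pr_kap' v (by rw [hv]; norm_num)]
    congr 1
    refine Prod.ext ?_ rfl
    apply Complex.ext
    · simp
    · simp [h1]
  · rintro b p ⟨hp, h⟩
    have h1 := PRJx.s3_of_body hp
    constructor
    · rintro rfl e
      unfold sg at h
      simp only [if_true] at h
      rw [e, norm_zero] at h1 h
      have := norm_nonneg p.2
      nlinarith
    · rintro rfl e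
      unfold sg at h
      simp only [Bool.false_eq_true, if_false] at h
      rw [e, norm_zero] at h1 h
      have := norm_nonneg p.1
      nlinarith
  · rintro p ⟨hp, h⟩
    have h1 := PRJx.s3_of_body hp
    constructor
    · intro e
      rw [← h, e, norm_zero] at h1
      norm_num at h1
    · intro e
      rw [h, e, norm_zero] at h1
      norm_num at h1

end

end Pool.Agent.LIX.L
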