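import Pool.Agent.LIX.StmtsL

/-!
# LIX, block L, module PTS: order of the points on the circle
-/

set_option autoImplicit false

namespace Pool.Agent.LIX.L

open Set Metric Complex

namespace PTSx

/-- the function `x / (5 √(1 + x²))` -/
theorem mono {x y : ℝ} : x / (5 * √(1 + x ^ 2)) < y / (5 * √(1 + y ^ 2)) ↔ x < y := by
  have key : ∀ t : ℝ, t / (5 * √(1 + t ^ 2)) = Real.sin (Real.arctan t) / 5 := by
    intro t
    rw [Real.sin_arctan, div_div, mul_comm (√(1 + t ^ 2)) 5]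
  rw [key, key, div_lt_div_iff_of_pos_right (by norm_num : (0 : ℝ) < 5)]
  have h1 : ∀ t : ℝ, Real.arctan t ∈ Icc (-(Real.pi / 2)) (Real.pi / 2) := fun t =>
    ⟨(Real.neg_pi_div_two_lt_arctan t).le, (Real.arctan_lt_pi_div_two t).le⟩
  rw [Real.strictMonoOn_sin.lt_iff_lt (h1 x) (h1 y)]
  exact Real.arctan_strictMono.lt_iff_lt

theorem sq_pos (t : ℝ) : 0 < √(1 + t ^ 2) := Real.sqrt_pos.2 (by positivity)

theorem sg_sq (r : Bool) : sg r ^ 2 = 1 := by
  cases r <;> norm_num [sg]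

theorem norm_cp (r : Bool) (h : ℝ) : ‖cp r h‖ = 1 / 5 := by
  have hs := sq_pos (Mf h)
  have hs2 : √(1 + Mf h ^ 2) ^ 2 = 1 + Mf h ^ 2 := Real.sq_sqrt (by positivity)
  have h1 : ‖cp r h‖ ^ 2 = (1 / 5) ^ 2 := by
    rw [← Complex.normSq_eq_norm_sq, Complex.normSq_apply]
    change sg r / (5 * √(1 + Mf h ^ 2)) * (sg r / (5 * √(1 + Mf h ^ 2))) +
      Mf h / (5 * √(1 + Mf h ^ 2)) * (Mf h / (5 * √(1 + Mf h ^ 2))) = (1 / 5) ^ 2
    have h2 : sg r / (5 * √(1 + Mf h ^ 2)) * (sg r / (5 * √(1 + Mf h ^ 2))) +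
      Mf h / (5 * √(1 + Mf h ^ 2)) * (Mf h / (5 * √(1 + Mf h ^ 2))) =
        (sg r ^ 2 + Mf h ^ 2) / (25 * √(1 + Mf h ^ 2) ^ 2) := by
      field_simp
      ring
    rw [h2, sg_sq, hs2]
    have h3 : (1 + Mf h ^ 2) ≠ 0 := by positivity
    field_simp
    norm_num
  exact (sq_eq_sq₀ (norm_nonneg _) (by norm_num)).1 h1

theorem im_lt (r r' : Bool) (hM : StrictMono Mf) (h h' : ℝ) :
    (cp r h).im < (cp r' h').im ↔ h < h' := by
  change Mf h / (5 * √(1 + Mf h ^ 2)) < Mf h' / (5 * √(1 + Mf h' ^ 2)) ↔ h < h'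
  rw [mono]
  exact hM.lt_iff_lt

theorem re_true (h : ℝ) : 0 < (cp true h).re := by
  change 0 < sg true / (5 * √(1 + Mf h ^ 2))
  have := sq_pos (Mf h)
  have hs : sg true = 1 := rfl
  rw [hs]
  positivity

theorem re_false (h : ℝ) : (cp false h).re < 0 := by
  change sg false / (5 * √(1 + Mf h ^ 2)) < 0
  have := sq_pos (Mf h)
  have hs : sg false = -1 := by norm_num [sg]
  rw [hs]
  exact div_neg_of_neg_of_pos (by norm_num) (by positivity)

end PTSx

theorem t_PTS : M_PTS := by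
  intro hMF b j r h
  have hM : StrictMono Mf := hMF.2.1
  unfold Up Dn cpt
  cases r
  · have h1 := PTSx.re_false h
    constructor
    · constructor
      · rintro ⟨-, -, h3⟩
        exact (PTSx.im_lt _ _ hM _ _).1 (h3 h1.le)
      · intro h2
        exact ⟨PTSx.norm_cp _ _, fun h3 => absurd h3 (not_le.2 h1),
          fun _ => (PTSx.im_lt _ _ hM _ _).2 h2⟩
    · constructor
      · rintro ⟨-, -, h3⟩
        exact (PTSx.im_lt _ _ hM _ _).1 (h3 h1.le)
      · intro h2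
        exact ⟨PTSx.norm_cp _ _, fun h3 => absurd h3 (not_le.2 h1),
          fun _ => (PTSx.im_lt _ _ hM _ _).2 h2⟩
  · have h1 := PTSx.re_true h
    constructor
    · constructor
      · rintro ⟨-, h3, -⟩
        exact (PTSx.im_lt _ _ hM _ _).1 (h3 h1.le)
      · intro h2
        exact ⟨PTSx.norm_cp _ _, fun _ => (PTSx.im_lt _ _ hM _ _).2 h2,
          fun h3 => absurd h3 (not_le.2 h1)⟩
    · constructor
      · rintro ⟨-, h3, -⟩
        exact (PTSx.im_lt _ _ hM _ _).1 (h3 h1.le)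
      · intro h2
        exact ⟨PTSx.norm_cp _ _, fun _ => (PTSx.im_lt _ _ hM _ _).2 h2,
          fun h3 => absurd h3 (not_le.2 h1)⟩

end Pool.Agent.LIX.L
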