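import Pool.Agent.LIX.StmtsL

/-!
# LIX, block L: retraction of the complement of the lattice to the complement of the holes
-/

set_option autoImplicit false

namespace Pool.Agent.LIX.L

open Set Metric Complex

namespace RETx

/-- The local formula. -/
noncomputable def g (l x : ℂ) : ℂ :=
  x + ((max 0 (1 / 5 - ‖x - l‖) / ‖x - l‖ : ℝ) : ℂ) * (x - l)

theorem g_cont (l x0 : ℂ) (h : x0 ≠ l) : ContinuousAt (g l) x0 := by
  have h1 : ‖x0 - l‖ ≠ 0 := norm_ne_zero_iff.2 (sub_ne_zero.2 h)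
  have h2 : ContinuousAt (fun x : ℂ => max 0 (1 / 5 - ‖x - l‖) / ‖x - l‖) x0 :=
    ContinuousAt.div (Continuous.continuousAt (by fun_prop))
      (Continuous.continuousAt (by fun_prop)) h1
  have h3 : ContinuousAt (fun x : ℂ => ((max 0 (1 / 5 - ‖x - l‖) / ‖x - l‖ : ℝ) : ℂ)) x0 :=
    Complex.continuous_ofReal.continuousAt.comp h2
  exact continuousAt_id.add (h3.mul (Continuous.continuousAt (by fun_prop)))

theorem g_far (l x : ℂ) (h : 1 / 5 ≤ ‖x - l‖) : g l x = x := by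
  unfold g
  rw [max_eq_left (by linarith), zero_div]
  simp

theorem g_near (l x : ℂ) (h : ‖x - l‖ < 1 / 5) (h0 : x ≠ l) : ‖g l x - l‖ = 1 / 5 := by
  have h1 : 0 < ‖x - l‖ := norm_pos_iff.2 (sub_ne_zero.2 h0)
  have h2 : g l x - l = ((1 / 5 / ‖x - l‖ : ℝ) : ℂ) * (x - l) := by
    unfold g
    rw [max_eq_right (by linarith)]
    have h3 : (1 / 5 - ‖x - l‖) / ‖x - l‖ = 1 / 5 / ‖x - l‖ - 1 := by
      field_simp
    rw [h3, Complex.ofReal_sub, Complex.ofReal_one]
    ring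
  rw [h2, norm_mul, Complex.norm_real, Real.norm_eq_abs, abs_of_pos (by positivity)]
  field_simp

open Classical in
/-- The retraction. -/
noncomputable def rho (x : ℂ) : ℂ :=
  if h : ∃ l, l ∈ Lam ∧ ‖x - l‖ < 1 / 5 then g h.choose x else x

theorem sep (hT : S_TOR) {l l' : ℂ} (hl : l ∈ Lam) (hl' : l' ∈ Lam) (h : l ≠ l') :
    2 < ‖l - l'‖ := by
  obtain ⟨-, -, -, -, hneg, hadd, hbig, -⟩ := hT
  rw [sub_eq_add_neg]
  exact hbig _ (hadd l hl _ (hneg l' hl')) (by
    rw [← sub_eq_add_neg]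
    exact sub_ne_zero.2 h)

theorem rho_near (hT : S_TOR) {l x : ℂ} (hl : l ∈ Lam) (h : ‖x - l‖ < 1 / 5) :
    rho x = g l x := by
  have hex : ∃ l, l ∈ Lam ∧ ‖x - l‖ < 1 / 5 := ⟨l, hl, h⟩
  have h1 := hex.choose_spec
  have h2 : hex.choose = l := by
    by_contra hne
    have h3 := sep hT h1.1 hl hne
    have h4 : ‖hex.choose - l‖ ≤ ‖x - hex.choose‖ + ‖x - l‖ := by
      have h5 : hex.choose - l = (x - l) - (x - hex.choose) := by ring
      rw [h5]
      exact (norm_sub_le _ _).trans (le_of_eq (add_comm _ _))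
    linarith [h1.2]
  rw [rho, dif_pos hex, h2]

theorem rho_far {x : ℂ} (h : ∀ l ∈ Lam, 1 / 5 ≤ ‖x - l‖) : rho x = x := by
  rw [rho, dif_neg]
  rintro ⟨l, hl, h1⟩
  exact absurd (h l hl) (not_le.2 h1)

theorem rho_loc (hT : S_TOR) {l x : ℂ} (hl : l ∈ Lam)
    (h : ∀ l' ∈ Lam, l' ≠ l → 1 / 5 ≤ ‖x - l'‖) : rho x = g l x := by
  rcases lt_or_ge ‖x - l‖ (1 / 5) with h1 | h1
  · exact rho_near hT hl h1
  · rw [g_far l x h1]
    apply rho_far
    intro l' hl'
    by_cases h2 : l' = l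
    · rw [h2]
      exact h1
    · exact h l' hl' h2

end RETx

theorem t_RET : M_RET := by
  intro hT
  refine ⟨RETx.rho, ?_, ?_, fun x hx => RETx.rho_far hx⟩
  · intro x0 hx0
    apply ContinuousAt.continuousWithinAt
    obtain ⟨l0, hl0, h0⟩ : ∃ l0 ∈ Lam, ∀ l ∈ Lam, l ≠ l0 → 1 ≤ ‖x0 - l‖ := by
      by_cases h : ∃ l ∈ Lam, ‖x0 - l‖ < 1
      · obtain ⟨l0, hl0, h1⟩ := h
        refine ⟨l0, hl0, fun l hl hne => ?_⟩
        have h2 := RETx.sep hT hl hl0 hne
        have h3 : ‖l - l0‖ ≤ ‖x0 - l0‖ + ‖x0 - l‖ := by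
          have h5 : l - l0 = (x0 - l0) - (x0 - l) := by ring
          rw [h5]
          exact norm_sub_le _ _
        linarith
      · push Not at h
        exact ⟨0, hT.2.2.2.1, fun l hl _ => h l hl⟩
    have hne : x0 ≠ l0 := by
      rintro rfl
      exact hx0 hl0
    refine (RETx.g_cont l0 x0 hne).congr ?_
    filter_upwards [ball_mem_nhds x0 (by norm_num : (0 : ℝ) < 1 / 2)] with x hx
    refine (RETx.rho_loc hT hl0 fun l hl hll => ?_).symm
    have h1 := h0 l hl hll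
    have h2 : ‖x0 - l‖ ≤ ‖x - x0‖ + ‖x - l‖ := by
      have h5 : x0 - l = (x - l) - (x - x0) := by ring
      rw [h5]
      exact (norm_sub_le _ _).trans (le_of_eq (add_comm _ _))
    rw [mem_ball, dist_eq_norm] at hx
    linarith
  · intro x hx l hl
    by_cases h : ∃ l ∈ Lam, ‖x - l‖ < 1 / 5
    · obtain ⟨l', hl', h1⟩ := h
      have hne : x ≠ l' := by
        rintro rfl
        exact hx hl'
      have h2 := RETx.g_near l' x h1 hne
      rw [RETx.rho_near hT hl' h1]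
      by_cases h3 : l = l'
      · rw [h3, h2]
      · have h4 := RETx.sep hT hl hl' h3
        have h5 : ‖l - l'‖ ≤ ‖RETx.g l' x - l'‖ + ‖RETx.g l' x - l‖ := by
          have h6 : l - l' = (RETx.g l' x - l') - (RETx.g l' x - l) := by ring
          rw [h6]
          exact norm_sub_le _ _
        linarith
    · push Not at h
      rw [RETx.rho_far h]
      exact h l hl

end Pool.Agent.LIX.L
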