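import Pool.Agent.LIX.StmtsL

/-!
# LIX, block L, module TOR: the covering of the torus and its periods
-/

set_option autoImplicit false

namespace Pool.Agent.LIX.L

open Set Metric Complex

namespace TORx

theorem tor_eq (x : ℂ) : tor x = ((Real.cos (Real.pi / 4) : ℂ) * exp ((th x : ℂ) * I),
    (Real.cos (Real.pi / 4) : ℂ) * exp ((ph x : ℂ) * I)) := by
  unfold tor kap th ph
  simp only [Complex.ofReal_re, Complex.ofReal_im, sub_zero, add_zero]

theorem cos_ne : (Real.cos (Real.pi / 4) : ℂ) ≠ 0 := by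
  have h : 0 < Real.cos (Real.pi / 4) := by
    rw [Real.cos_pi_div_four]
    positivity
  exact_mod_cast h.ne'

theorem mem_Lam (x : ℂ) :
    x ∈ Lam ↔ ∃ a b : ℤ, th x = 2 * Real.pi * a ∧ ph x = 2 * Real.pi * b := by
  constructor
  · rintro ⟨a, b, rfl⟩
    refine ⟨a, b, ?_, ?_⟩
    · simp [th]
      ring
    · simp [ph]
      ring
  · rintro ⟨a, b, h1, h2⟩
    refine ⟨a, b, ?_⟩
    unfold th at h1
    unfold ph at h2
    apply Complex.ext
    · simp
      linarith
    · simp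
      linarith

theorem exp_eq (s t : ℝ) : exp ((s : ℂ) * I) = exp ((t : ℂ) * I) ↔
    ∃ n : ℤ, s - t = 2 * Real.pi * n := by
  rw [Complex.exp_eq_exp_iff_exists_int]
  refine exists_congr fun n => ?_
  constructor
  · intro h
    have h1 : ((s : ℂ) - t) * I = (2 * Real.pi * n) * I := by linear_combination h
    have h2 := mul_right_cancel₀ I_ne_zero h1
    exact_mod_cast h2
  · intro h
    have h1 : ((s : ℂ) - t) = (2 * Real.pi * n) := by exact_mod_cast h
    linear_combination I * h1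

theorem sub_th (x y : ℂ) : th (x - y) = th x - th y := by
  unfold th
  simp only [Complex.sub_re, Complex.sub_im]
  ring

theorem sub_ph (x y : ℂ) : ph (x - y) = ph x - ph y := by
  unfold ph
  simp only [Complex.sub_re, Complex.sub_im]
  ring

theorem norm_sq (x : ℂ) : ‖x‖ ^ 2 = (th x ^ 2 + ph x ^ 2) / 2 := by
  rw [← Complex.normSq_eq_norm_sq, Complex.normSq_apply]
  unfold th ph
  ring

theorem abs_th_le (x : ℂ) : |th x| ≤ 2 * ‖x‖ := by
  unfold th
  have h1 := Complex.abs_re_le_norm x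
  have h2 := Complex.abs_im_le_norm x
  have h3 := abs_add_le x.im x.re
  linarith

theorem abs_ph_le (x : ℂ) : |ph x| ≤ 2 * ‖x‖ := by
  unfold ph
  have h1 := Complex.abs_re_le_norm x
  have h2 := Complex.abs_im_le_norm x
  have h3 := abs_sub x.im x.re
  linarith

theorem int_le {R : ℝ} {s : ℝ} {a : ℤ} (hs : |s| ≤ 2 * R) (h : s = 2 * Real.pi * a) :
    a ∈ Icc (-⌈R⌉) ⌈R⌉ := by
  have hpi := Real.pi_gt_three
  have h1 : |s| = 2 * Real.pi * |(a : ℝ)| := by
    rw [h, abs_mul, abs_of_pos (by linarith : (0 : ℝ) < 2 * Real.pi)]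
  have h2 : |(a : ℝ)| ≤ R := by
    have h3 : 0 ≤ |(a : ℝ)| := abs_nonneg _
    nlinarith
  have h4 : |(a : ℝ)| ≤ ⌈R⌉ := le_trans h2 (Int.le_ceil R)
  have h5 : |a| ≤ ⌈R⌉ := by exact_mod_cast h4
  exact abs_le.1 h5

end TORx

open TORx in
theorem t_TOR : S_TOR := by
  refine ⟨tor_eq, ?_, ?_, ?_, ?_, ?_, ?_, ?_, ?_, ?_, ?_, ?_⟩
  · unfold tor
    exact continuous_kap.comp (by fun_prop)
  · intro x y
    rw [mem_Lam, sub_th, sub_ph, tor_eq, tor_eq, Prod.mk.injEq]
    constructor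
    · rintro ⟨h1, h2⟩
      obtain ⟨a, ha⟩ := (exp_eq _ _).1 (mul_left_cancel₀ cos_ne h1)
      obtain ⟨b, hb⟩ := (exp_eq _ _).1 (mul_left_cancel₀ cos_ne h2)
      exact ⟨a, b, ha, hb⟩
    · rintro ⟨a, b, ha, hb⟩
      exact ⟨by rw [(exp_eq _ _).2 ⟨a, ha⟩], by rw [(exp_eq _ _).2 ⟨b, hb⟩]⟩
  · rw [mem_Lam]
    exact ⟨0, 0, by simp [th], by simp [ph]⟩
  · intro x hx
    rw [mem_Lam] at hx ⊢
    obtain ⟨a, b, ha, hb⟩ := hx
    refine ⟨-a, -b, ?_, ?_⟩
    · push_cast
      unfold th at ha ⊢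
      simp only [Complex.neg_re, Complex.neg_im]
      linarith
    · push_cast
      unfold ph at hb ⊢
      simp only [Complex.neg_re, Complex.neg_im]
      linarith
  · intro x hx y hy
    rw [mem_Lam] at hx hy ⊢
    obtain ⟨a, b, ha, hb⟩ := hx
    obtain ⟨a', b', ha', hb'⟩ := hy
    refine ⟨a + a', b + b', ?_, ?_⟩
    · push_cast
      unfold th at ha ha' ⊢
      simp only [Complex.add_re, Complex.add_im]
      linarith
    · push_cast
      unfold ph at hb hb' ⊢
      simp only [Complex.add_re, Complex.add_im]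
      linarith
  · intro x hx h0
    rw [mem_Lam] at hx
    obtain ⟨a, b, ha, hb⟩ := hx
    have hpi := Real.pi_gt_three
    have h1 := norm_sq x
    rw [ha, hb] at h1
    have h2 : (1 : ℝ) ≤ (a : ℝ) ^ 2 + (b : ℝ) ^ 2 := by
      have h3 : (1 : ℤ) ≤ a ^ 2 + b ^ 2 := by
        by_contra hcon
        push Not at hcon
        have h4 : a ^ 2 = 0 := by nlinarith [sq_nonneg a, sq_nonneg b]
        have h5 : b ^ 2 = 0 := by nlinarith [sq_nonneg a, sq_nonneg b]
        have h6 : a = 0 := by simpa using h4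
        have h7 : b = 0 := by simpa using h5
        rw [h6, h7] at h1
        apply h0
        rw [← norm_eq_zero]
        have h8 : ‖x‖ ^ 2 = 0 := by rw [h1]; simp
        simpa using h8
      exact_mod_cast h3
    have h9 : 18 ≤ ‖x‖ ^ 2 := by
      rw [h1]
      have h10 : (9 : ℝ) ≤ Real.pi ^ 2 := by nlinarith
      nlinarith
    nlinarith [norm_nonneg x]
  · intro R
    refine Set.Finite.subset (((finite_Icc (-⌈R⌉) ⌈R⌉).prod (finite_Icc (-⌈R⌉) ⌈R⌉)).image
      fun q : ℤ × ℤ => ((Real.pi * (q.1 - q.2) : ℝ) : ℂ) + ((Real.pi * (q.1 + q.2) : ℝ) : ℂ) * I) ?_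
    rintro x ⟨⟨a, b, hab⟩, hR⟩
    rw [mem_closedBall_zero_iff] at hR
    have hth : th x = 2 * Real.pi * a := by
      rw [hab]
      simp [th]
      ring
    have hph : ph x = 2 * Real.pi * b := by
      rw [hab]
      simp [ph]
      ring
    have h1 : |th x| ≤ 2 * R := le_trans (abs_th_le x) (by linarith)
    have h2 : |ph x| ≤ 2 * R := le_trans (abs_ph_le x) (by linarith)
    exact ⟨(a, b), ⟨int_le h1 hth, int_le h2 hph⟩, hab.symm⟩
  · intro x y
    unfold th ph
    simp only [Complex.add_re, Complex.add_im, Complex.neg_re, Complex.neg_im]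
    refine ⟨?_, ?_, ?_, ?_⟩ <;> ring
  · intro x h1 h2
    unfold th at h1
    unfold ph at h2
    apply Complex.ext
    · simp
      linarith
    · simp
      linarith
  · unfold th
    fun_prop
  · unfold ph
    fun_prop

end Pool.Agent.LIX.L
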