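import Pool.Agent.LIX.StmtsL

/-!
# LIX, block L, module TYP: every disk has exactly one type, types are isotopy invariants
-/

set_option autoImplicit false

namespace Pool.Agent.LIX.L

open Set Metric Complex

theorem t_TYP : M_TYP := by
  intro hKDD hED hKSU hKH5 hKH6 hIC hIE hIL
  obtain ⟨k1, k2, k3, k4, k5, k6, k7⟩ := hKDD
  have hUD : ∀ (D : Set (ℂ × ℂ)) (b b' : Bool) (j j' : Fin 3), HasTy D (Ty.U b j) →
      HasTy D (Ty.D b' j') → False := by
    rintro D b b' j j' ⟨hE, S, hS, hn⟩ ⟨hE', S', hS', hn'⟩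
    obtain ⟨ξ, l, hξ⟩ := hED D b j hE true
    obtain ⟨-, -, -, -, -, -, hK, -, -⟩ := hKSU D b j S hE hS ξ l true hξ
    rw [hK S' hS'] at hn'
    rcases hKH6 D b j S hE hS with h | h
    · exact hn h
    · exact hn' h
  have hXU : ∀ (D : Set (ℂ × ℂ)) (b b' : Bool) (j j' : Fin 3), HasTy D (Ty.X b j) →
      HasTy D (Ty.U b' j') → False := by
    rintro D b b' j j' ⟨-, hn⟩ ⟨-, S, hS, -⟩
    exact hn ⟨S, hS⟩
  have hXD : ∀ (D : Set (ℂ × ℂ)) (b b' : Bool) (j j' : Fin 3), HasTy D (Ty.X b j) →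
      HasTy D (Ty.D b' j') → False := by
    rintro D b b' j j' ⟨-, hn⟩ ⟨-, S, hS, -⟩
    exact hn ⟨S, hS⟩
  have hMP : ∀ (D : Set (ℂ × ℂ)) (b b' : Bool), HasTy D (Ty.M b) → HasTy D (Ty.P b') → False :=
    fun D b b' h h' => h.2 h'.2
  refine ⟨?_, ?_, ?_⟩
  · rintro D (⟨f, hf, rfl⟩ | ⟨f, hf, rfl⟩)
    · obtain ⟨-, b, hb⟩ := k1 f hf
      have hC : Comp b (f '' Disk) := ⟨⟨f, hf, rfl⟩, hb⟩
      by_cases h : Cls0 (f '' Disk)
      · exact ⟨Ty.P b, hC, h⟩
      · exact ⟨Ty.M b, hC, h⟩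
    · obtain ⟨b, j, hbj, hb⟩ := k2 f hf
      have hE : Edge b j (f '' HDisk) := ⟨⟨f, hf, rfl⟩, hb, hbj⟩
      by_cases h : Cls0 (f '' HDisk)
      · obtain ⟨S, hS⟩ := h
        have h5 := hKH5 _ b j S hE hS
        by_cases h6 : HasLog (Kset (f '' HDisk) S) nn
        · exact ⟨Ty.D b j, hE, S, hS, fun h7 => h5 ⟨h6, h7⟩⟩
        · exact ⟨Ty.U b j, hE, S, hS, h6⟩
      · exact ⟨Ty.X b j, hE, h⟩
  · intro D τ τ' h h'
    cases τ with
    | M b =>
      cases τ' with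
      | M b' => rw [k5 D b b' h.1 h'.1]
      | P b' => exact (hMP D b b' h h').elim
      | X b' j' => exact (k6 D b b' j' h.1 h'.1).elim
      | U b' j' => exact (k6 D b b' j' h.1 h'.1).elim
      | D b' j' => exact (k6 D b b' j' h.1 h'.1).elim
    | P b =>
      cases τ' with
      | M b' => exact (hMP D b' b h' h).elim
      | P b' => rw [k5 D b b' h.1 h'.1]
      | X b' j' => exact (k6 D b b' j' h.1 h'.1).elim
      | U b' j' => exact (k6 D b b' j' h.1 h'.1).elim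
      | D b' j' => exact (k6 D b b' j' h.1 h'.1).elim
    | X b j =>
      cases τ' with
      | M b' => exact (k6 D b' b j h'.1 h.1).elim
      | P b' => exact (k6 D b' b j h'.1 h.1).elim
      | X b' j' => obtain ⟨rfl, rfl⟩ := k7 D b b' j j' h.1 h'.1; rfl
      | U b' j' => exact (hXU D b b' j j' h h').elim
      | D b' j' => exact (hXD D b b' j j' h h').elim
    | U b j =>
      cases τ' with
      | M b' => exact (k6 D b' b j h'.1 h.1).elim
      | P b' => exact (k6 D b' b j h'.1 h.1).elim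
      | X b' j' => exact (hXU D b' b j' j h' h).elim
      | U b' j' => obtain ⟨rfl, rfl⟩ := k7 D b b' j j' h.1 h'.1; rfl
      | D b' j' => exact (hUD D b b' j j' h h').elim
    | D b j =>
      cases τ' with
      | M b' => exact (k6 D b' b j h'.1 h.1).elim
      | P b' => exact (k6 D b' b j h'.1 h.1).elim
      | X b' j' => exact (hXD D b' b j' j h' h).elim
      | U b' j' => exact (hUD D b' b j' j h' h).elim
      | D b' j' => obtain ⟨rfl, rfl⟩ := k7 D b b' j j' h.1 h'.1; rfl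
  · rintro D D' τ (⟨F, hF, hFt, rfl, rfl⟩ | ⟨F, hF, hFt, rfl, rfl⟩) h
    · obtain ⟨b, hb⟩ := k3 F hF hFt
      have h0 := hb 0 ⟨le_rfl, zero_le_one⟩
      have h1 := hb 1 ⟨zero_le_one, le_rfl⟩
      have hc := hIC F hF hFt
      cases τ with
      | M b' =>
        obtain rfl := k5 _ b b' h0 h.1
        exact ⟨h1, fun h2 => h.2 (hc.2 h2)⟩
      | P b' =>
        obtain rfl := k5 _ b b' h0 h.1
        exact ⟨h1, hc.1 h.2⟩
      | X b' j' => exact (k6 _ b b' j' h0 h.1).elim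
      | U b' j' => exact (k6 _ b b' j' h0 h.1).elim
      | D b' j' => exact (k6 _ b b' j' h0 h.1).elim
    · obtain ⟨b, j, hb⟩ := k4 F hF hFt
      have h0 := hb 0 ⟨le_rfl, zero_le_one⟩
      have h1 := hb 1 ⟨zero_le_one, le_rfl⟩
      obtain ⟨Ξ, l, -, -, hΞ⟩ := hIE F b j hF hFt hb
      have hc : Cls0 ((fun z => F (z, 0)) '' HDisk) ↔ Cls0 ((fun z => F (z, 1)) '' HDisk) :=
        (hΞ 0 ⟨le_rfl, zero_le_one⟩).2.2.2.trans (hΞ 1 ⟨zero_le_one, le_rfl⟩).2.2.2.symm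
      cases τ with
      | M b' => exact (k6 _ b' b j h.1 h0).elim
      | P b' => exact (k6 _ b' b j h.1 h0).elim
      | X b' j' =>
        obtain ⟨rfl, rfl⟩ := k7 _ b b' j j' h0 h.1
        exact ⟨h1, fun h2 => h.2 (hc.2 h2)⟩
      | U b' j' =>
        obtain ⟨rfl, rfl⟩ := k7 _ b b' j j' h0 h.1
        obtain ⟨-, S, hS, hn⟩ := h
        obtain ⟨S', hS'⟩ := hc.1 ⟨S, hS⟩
        exact ⟨h1, S', hS', fun h2 => hn ((hIL F b j S S' nn hF hFt hb hS hS' (Or.inl rfl)).2 h2)⟩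
      | D b' j' =>
        obtain ⟨rfl, rfl⟩ := k7 _ b b' j j' h0 h.1
        obtain ⟨-, S, hS, hn⟩ := h
        obtain ⟨S', hS'⟩ := hc.1 ⟨S, hS⟩
        exact ⟨h1, S', hS', fun h2 => hn ((hIL F b j S S' ss hF hFt hb hS hS' (Or.inr rfl)).2 h2)⟩

end Pool.Agent.LIX.L
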