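import Pool.Agent.LIX.StmtsL

/-!
# LIX, block L, module WW: the arc of an edge disk and the closed curve of a class 0 edge disk
-/

set_option autoImplicit false

namespace Pool.Agent.LIX.L

open Set Metric Complex

/-- The facts on a compact set `K` (the curve of a class 0 disk) and a lifted arc `ξ` used for WW. -/
theorem ww_core (hHL1 : S_HL1) (hHL2 : S_HL2) (hTOR : S_TOR) {K : Set ℂ} (hK : IsCompact K)
    (hKl : ∀ x ∈ K, ∀ l' ∈ Lam, l' ≠ 0 → 1 / 5 < ‖x - l'‖) {ξ : ℝ → ℂ}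
    (hξ : ContinuousOn ξ (Icc (-1) 1)) (hξK : ∀ t ∈ Ioo (-1 : ℝ) 1, ∀ l' ∈ Lam, ξ t + l' ∉ K)
    {e e' l : ℂ} (hl : l ∈ Lam) (he : ‖e‖ ≤ 1 / 5) (he' : ‖e'‖ ≤ 1 / 5) (h0 : ξ (-1) = e)
    (h1 : ξ 1 = e' + l) (heK : e ∉ K) :
    (l ≠ 0 → HasLog K e) ∧ (l = 0 → e' ∉ K → (HasLog K e ↔ HasLog K e')) := by
  obtain ⟨-, -, -, hz, hneg, hadd, hnorm, -⟩ := hTOR
  -- along the arc
  have harc : ∀ l' ∈ Lam, e + l' ∉ K → e' + l + l' ∉ K →
      (HasLog K (e + l') ↔ HasLog K (e' + l + l')) := by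
    intro l' hl' k1 k2
    have hpre : IsPreconnected ((fun t => ξ t + l') '' Icc (-1 : ℝ) 1) :=
      isPreconnected_Icc.image _ (hξ.add continuousOn_const)
    refine hHL1 K _ _ _ hK hpre ?_ ⟨-1, by simp, by simp only [h0]⟩ ⟨1, by simp, by simp only [h1]⟩
    rintro _ ⟨t, ht, rfl⟩
    change ξ t + l' ∉ K
    rcases eq_or_lt_of_le ht.1 with h | h
    · rw [← h, h0]
      exact k1
    · rcases eq_or_lt_of_le ht.2 with h' | h'
      · rw [h', h1]
        exact k2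
      · exact hξK t ⟨h, h'⟩ l' hl'
  have hball : ∀ l' ∈ Lam, l' ≠ 0 → ∀ x, ‖x - l'‖ ≤ 1 / 5 → x ∉ K := fun l' hl' hne x hx hxK =>
    absurd (hKl x hxK l' hl' hne) (not_lt.2 hx)
  constructor
  · intro hne
    have hmul : ∀ k : ℕ, (k : ℂ) * l ∈ Lam := by
      intro k
      induction k with
      | zero => simpa using hz
      | succ k ih =>
        have := hadd _ ih _ hl
        push_cast
        rw [add_mul, one_mul]
        exact this
    have hmul0 : ∀ k : ℕ, ((k + 1 : ℕ) : ℂ) * l ≠ 0 := fun k =>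
      mul_ne_zero (by exact_mod_cast Nat.succ_ne_zero k) hne
    have hnot : ∀ k : ℕ, e + (k : ℂ) * l ∉ K := by
      intro k
      cases k with
      | zero => simpa using heK
      | succ k =>
        refine hball _ (hmul (k + 1)) (hmul0 k) _ ?_
        rw [add_sub_cancel_right]
        exact he
    have hstep : ∀ k : ℕ, (HasLog K (e + (k : ℂ) * l) ↔ HasLog K (e + ((k + 1 : ℕ) : ℂ) * l)) := by
      intro k
      have hk1 : e' + l + (k : ℂ) * l = e' + ((k + 1 : ℕ) : ℂ) * l := by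
        push_cast
        ring
      have n1 : e' + ((k + 1 : ℕ) : ℂ) * l ∉ K := by
        refine hball _ (hmul (k + 1)) (hmul0 k) _ ?_
        rw [add_sub_cancel_right]
        exact he'
      have s1 := harc _ (hmul k) (hnot k) (by rw [hk1]; exact n1)
      rw [hk1] at s1
      rw [s1]
      refine hHL1 K (closedBall (((k + 1 : ℕ) : ℂ) * l) (1 / 5)) _ _ hK
        (convex_closedBall _ _).isPreconnected ?_ ?_ ?_
      · intro x hx
        rw [mem_closedBall, dist_eq_norm] at hx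
        exact hball _ (hmul (k + 1)) (hmul0 k) _ hx
      · rw [mem_closedBall, dist_eq_norm, add_sub_cancel_right]
        exact he'
      · rw [mem_closedBall, dist_eq_norm, add_sub_cancel_right]
        exact he
    have hall : ∀ k : ℕ, (HasLog K e ↔ HasLog K (e + (k : ℂ) * l)) := by
      intro k
      induction k with
      | zero => simp
      | succ k ih => exact ih.trans (hstep k)
    obtain ⟨R, hR⟩ := hK.isBounded.subset_closedBall 0
    obtain ⟨k, hk⟩ := exists_nat_gt (max R 0 + 1)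
    rw [hall k]
    refine hHL2 K R _ hR ?_
    have hk0 : 0 < (k : ℝ) := by linarith [le_max_right R 0]
    have h2 : 2 * (k : ℝ) ≤ ‖(k : ℂ) * l‖ := by
      rw [norm_mul, Complex.norm_natCast]
      nlinarith [hnorm l hl hne]
    have h3 : ‖(k : ℂ) * l‖ ≤ ‖e + (k : ℂ) * l‖ + ‖e‖ := by
      have := norm_sub_le (e + (k : ℂ) * l) e
      rwa [add_sub_cancel_left] at this
    linarith [le_max_left R 0]
  · intro hl0 hK'
    have h := harc 0 hz (by rw [add_zero]; exact heK) (by rw [add_zero, hl0, add_zero]; exact hK')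
    rw [add_zero, add_zero, hl0, add_zero] at h
    exact h

theorem ww_joined (hHL1 : S_HL1) {K A : Set ℂ} (hK : IsCompact K) (hA : A ⊆ Kᶜ) {x y : ℂ}
    (h : JoinedIn A x y) : HasLog K x ↔ HasLog K y := by
  obtain ⟨γ, hγ⟩ := h
  refine hHL1 K (range γ) _ _ hK (isPreconnected_range γ.continuous) ?_ ⟨0, γ.source⟩ ⟨1, γ.target⟩
  rintro _ ⟨t, rfl⟩
  exact hA (hγ t)

theorem t_WW : M_WW := by
  intro hHL1 hHL2 hTOR hPRJ hHOL hCHD hARCS hED hKSU D D' b b' j j' S' r hD hD' hS' hs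
  obtain ⟨ξ, l, hE⟩ := hED D b j hD r
  obtain ⟨ξ', l', hE'⟩ := hED D' b' j' hD' true
  obtain ⟨-, -, hK, hK1, hK2, hK3, -, -, -⟩ := hKSU D' b' j' S' hD' hS' ξ' l' true hE'
  set K := Kset D' S' with hKdef
  obtain ⟨hA1, hA2, -, hA4, hA5, -, -⟩ := hARCS b' j'
  have hcpt : ∀ r, ‖cpt b j r‖ = 1 / 5 := fun r => ((hCHD b j).2.2.2.2.2.1 r).1
  have hsub : closedBall 0 (1 / 5) \ Chp b' j' ⊆ Kᶜ := by
    rintro x ⟨hx, hx'⟩ hxK
    exact hx' (hK1 x hxK (by simpa using hx))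
  have hfar : ∀ t ∈ Ioo (-1 : ℝ) 1, ∀ l' ∈ Lam, ξ t + l' ∉ K := by
    intro t ht l' hl' hx
    have ht' : t ∈ Icc (-1 : ℝ) 1 := ⟨ht.1.le, ht.2.le⟩
    rcases hK3 _ hx with h | h
    · have h1 : ‖ξ t + l'‖ ≤ 1 / 5 := by
        have := (hCHD b' j').2.1 h
        simpa using this
      have h2 := hE.far t ht (-l') (hTOR.2.2.2.2.1 l' hl')
      rw [sub_neg_eq_add] at h2
      linarith
    · have h1 : tor (ξ t + l') = tor (ξ t) := (hTOR.2.2.1 _ _).2 (by rw [add_sub_cancel_left]; exact hl')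
      rw [h1] at h
      have h2 : tor (ξ t) ∈ D ∩ HT := by
        rw [hE.img]
        exact ⟨t, ht', rfl⟩
      have h3 : tor (ξ t) ∈ TT.bd := hPRJ.2.2.2.1 (hs ⟨h2.1, h⟩)
      obtain ⟨l'', hl'', h4⟩ := (hHOL.2.1 _).1 h3
      have h5 := hE.far t ht l'' hl''
      linarith
  have hmain : cpt b j r ∉ K → (l ≠ 0 → HasLog K (cpt b j r)) ∧
      (l = 0 → cpt b j (!r) ∉ K → (HasLog K (cpt b j r) ↔ HasLog K (cpt b j (!r)))) :=
    ww_core hHL1 hHL2 hTOR hK hK2 hE.cont hfar hE.mem (hcpt r).le (hcpt (!r)).le hE.left hE.right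
  have hnotK : ∀ e : ℂ, ‖e‖ = 1 / 5 → e ∉ Chp b' j' → e ∉ K := fun e he hc =>
    hsub ⟨by simpa using he.le, hc⟩
  constructor
  · intro hnn hss hUp
    have hJ := ww_joined hHL1 hK hsub (hA1 _ hUp)
    obtain ⟨m1, m2⟩ := hmain (hnotK _ (hcpt r) (hA4 _ hUp))
    have hl0 : l = 0 := by
      by_contra hne
      exact hnn (hJ.2 (m1 hne))
    refine ⟨hE.cls.2 hl0, fun hDn => hnn ?_⟩
    have hJ' := ww_joined hHL1 hK hsub (hA2 _ hDn)
    exact hJ.2 ((m2 hl0 (hnotK _ (hcpt (!r)) (hA5 _ hDn))).2 (hJ'.1 hss))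
  · intro hss hnn hDn
    have hJ := ww_joined hHL1 hK hsub (hA2 _ hDn)
    obtain ⟨m1, m2⟩ := hmain (hnotK _ (hcpt r) (hA5 _ hDn))
    have hl0 : l = 0 := by
      by_contra hne
      exact hss (hJ.2 (m1 hne))
    refine ⟨hE.cls.2 hl0, fun hUp => hss ?_⟩
    have hJ' := ww_joined hHL1 hK hsub (hA1 _ hUp)
    exact hJ.2 ((m2 hl0 (hnotK _ (hcpt (!r)) (hA4 _ hUp))).2 (hJ'.1 hnn))

end Pool.Agent.LIX.L
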