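import Pool.Agent.LIX.StmtsL

/-!
# LIX, block L, module YY: consequences of W
-/

set_option autoImplicit false

namespace Pool.Agent.LIX.L

open Set Metric Complex

theorem t_YY : M_YY := by
  intro hPTS hKH6 hWW D D' b b' j j' r hs
  have key : ∀ s : Bool, (Up b' j' (cpt b j s) ↔ hg b' j' s < hg b j s) ∧
      (Dn b' j' (cpt b j s) ↔ hg b j s < hg b' j' s) := fun s => hPTS b' j' s (hg b j s)
  have hU : Edge b j D → HasTy D' (Ty.U b' j') → hg b' j' r < hg b j r →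
      Cls0 D ∧ ¬ Dn b' j' (cpt b j (!r)) := by
    rintro hE ⟨hE', S, hS, hn⟩ hh
    have h1 : HasLog (Kset D' S) ss := (hKH6 D' b' j' S hE' hS).resolve_left hn
    exact (hWW D D' b b' j j' S r hE hE' hS hs).1 hn h1 ((key r).1.2 hh)
  have hD : Edge b j D → HasTy D' (Ty.D b' j') → hg b j r < hg b' j' r →
      Cls0 D ∧ ¬ Up b' j' (cpt b j (!r)) := by
    rintro hE ⟨hE', S, hS, hn⟩ hh
    have h1 : HasLog (Kset D' S) nn := (hKH6 D' b' j' S hE' hS).resolve_right hn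
    exact (hWW D D' b b' j j' S r hE hE' hS hs).2 hn h1 ((key r).2.2 hh)
  refine ⟨?_, ?_, ?_, ?_⟩
  · rintro ⟨hE, hc⟩ hT hh
    exact hc (hU hE hT hh).1
  · rintro ⟨hE, hc⟩ hT hh
    exact hc (hD hE hT hh).1
  · rintro hE hT ⟨hh, hh'⟩
    exact (hU hE hT hh).2 ((key (!r)).2.2 hh')
  · rintro hE hT ⟨hh, hh'⟩
    exact (hD hE hT hh).2 ((key (!r)).1.2 hh')

end Pool.Agent.LIX.L
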