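import Pool.Agent.LIX.StmtsO

/-!
# LIX, block O, module ADM: the height functions are admissible
-/

set_option autoImplicit false

namespace Pool.Agent.LIX.O

open Set Metric Complex

namespace ADMx

theorem up {x c : ℝ} (hx : 0 ≤ x) (hx3 : x ≤ 3) (hc : 8 ≤ c) :
    0 ≤ x / c / 2 ∧ x / c / 2 ≤ 1 / 2 ∧ (x / c / 2 = 0 ↔ x = 0) := by
  have c0 : 0 < c := by linarith
  refine ⟨by positivity, ?_, ?_⟩
  · have h : x / c ≤ 1 := by
      rw [div_le_iff₀ c0]
      linarith
    linarith
  · constructor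
    · intro h
      have h1 : x / c = 0 := by linarith
      rcases div_eq_zero_iff.1 h1 with h2 | h2
      · exact h2
      · exact absurd h2 c0.ne'
    · rintro rfl
      norm_num

end ADMx

open ADMx in
theorem t_ADM : M_ADM := by
  intro hD J
  obtain ⟨b, j, d⟩ := J
  obtain ⟨hc, h3, -⟩ := hD b j
  have hsub : S.Rg b j d ⊆ {v : ℂ × ℝ | 0 ≤ sg b * v.1.im} := fun v hv => hv.1.2
  have hj : ((j : ℕ) : ℝ) ≤ 2 := by
    have h1 : (j : ℕ) ≤ 2 := by omega
    exact_mod_cast h1
  have hj0 : (0 : ℝ) ≤ ((j : ℕ) : ℝ) := Nat.cast_nonneg _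
  cases d with
  | true =>
    have e : et (b, j, true) = fun v => dl b j v / (8 + 4 * ((j : ℕ) : ℝ)) / 2 := by
      funext v
      unfold et S.xi
      rw [if_pos rfl]
    rw [S.Adm, e]
    refine ⟨((hc.mono hsub).div_const _).div_const _, fun v hv => ?_⟩
    have h1 : 0 ≤ dl b j v := by
      have h2 := hv.2
      simpa [sg] using h2
    exact up h1 ((le_abs_self _).trans (h3 v hv.1)) (by linarith)
  | false =>
    have e : et (b, j, false) = fun v => -dl b j v / (16 - 4 * ((j : ℕ) : ℝ)) / 2 := by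
      funext v
      unfold et S.xi
      rw [if_neg (by simp)]
    rw [S.Adm, e]
    refine ⟨((hc.mono hsub).neg.div_const _).div_const _, fun v hv => ?_⟩
    have h1 : 0 ≤ -dl b j v := by
      have h2 := hv.2
      simpa [sg] using h2
    have h4 := up h1 ((neg_le_abs _).trans (h3 v hv.1))
      (by linarith : 8 ≤ 16 - 4 * ((j : ℕ) : ℝ))
    refine ⟨h4.1, h4.2.1, h4.2.2.trans neg_eq_zero⟩

end Pool.Agent.LIX.O
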