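import Pool.Agent.LIX.GBase

/-!
# LIX, block G: the function `Mf`, normalisation and the 1-skeleton `Skl` of the sphere
-/

set_option autoImplicit false

namespace Pool.Agent.LIX

open Set Metric Complex

noncomputable section

/-! ## `Mf` -/

theorem continuous_Mf : Continuous Mf := by
  unfold Mf
  fun_prop

theorem strictMono_Mf : StrictMono Mf := by
  have hp := Real.pi_pos
  have key : ∀ u v : ℝ, u < v → Real.sin (Real.pi / 4 * (max 6 (min 10 u) - 8)) ≤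
      Real.sin (Real.pi / 4 * (max 6 (min 10 v) - 8)) ∧ (6 ≤ u → v ≤ 10 →
      Real.sin (Real.pi / 4 * (max 6 (min 10 u) - 8)) <
      Real.sin (Real.pi / 4 * (max 6 (min 10 v) - 8))) := by
    intro u v huv
    have b1 : 6 ≤ max 6 (min 10 u) := le_max_left _ _
    have b2 : max 6 (min 10 u) ≤ 10 := max_le (by norm_num) (min_le_left _ _)
    have b3 : 6 ≤ max 6 (min 10 v) := le_max_left _ _
    have b4 : max 6 (min 10 v) ≤ 10 := max_le (by norm_num) (min_le_left _ _)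
    have b5 : max 6 (min 10 u) ≤ max 6 (min 10 v) := max_le_max le_rfl (min_le_min le_rfl huv.le)
    constructor
    · apply Real.sin_le_sin_of_le_of_le_pi_div_two <;> nlinarith
    · intro h1 h2
      have c1 : max 6 (min 10 u) = u := by
        rw [min_eq_right (by linarith), max_eq_right h1]
      have c2 : max 6 (min 10 v) = v := by
        rw [min_eq_right h2, max_eq_right (by linarith)]
      rw [c1, c2]
      apply Real.sin_lt_sin_of_lt_of_le_pi_div_two <;> nlinarith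
  intro u v huv
  obtain ⟨h1, h2⟩ := key u v huv
  have g1 : min 0 ((u - 6) / 6) ≤ min 0 ((v - 6) / 6) := min_le_min le_rfl (by linarith)
  have g2 : max 0 ((u - 10) / 2) ≤ max 0 ((v - 10) / 2) := max_le_max le_rfl (by linarith)
  unfold Mf
  rcases lt_or_ge u 6 with h | h
  · have : min 0 ((u - 6) / 6) < min 0 ((v - 6) / 6) := by
      rw [min_eq_right (by linarith : (u - 6) / 6 ≤ 0)]
      exact lt_min (by linarith) (by linarith)
    linarith
  · rcases le_or_gt v 10 with h' | h'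
    · have := h2 h h'
      linarith
    · have : max 0 ((u - 10) / 2) < max 0 ((v - 10) / 2) := by
        rw [max_eq_right (by linarith : 0 ≤ (v - 10) / 2)]
        exact max_lt (by linarith) (by linarith)
      linarith

theorem Mf_zero : Mf 0 = -2 := by
  unfold Mf
  rw [min_eq_right (by norm_num : ((0 : ℝ) - 6) / 6 ≤ 0), max_eq_left (by norm_num : ((0 : ℝ) - 10) / 2 ≤ 0),
    min_eq_right (by norm_num : (0 : ℝ) ≤ 10), max_eq_left (by norm_num : (0 : ℝ) ≤ 6)]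
  have : Real.pi / 4 * (6 - 8) = -(Real.pi / 2) := by ring
  rw [this, Real.sin_neg, Real.sin_pi_div_two]
  norm_num

theorem Mf_twelve : Mf 12 = 2 := by
  unfold Mf
  rw [min_eq_left (by norm_num : (0 : ℝ) ≤ (12 - 6) / 6), max_eq_right (by norm_num : (0 : ℝ) ≤ (12 - 10) / 2),
    min_eq_left (by norm_num : (10 : ℝ) ≤ 12), max_eq_right (by norm_num : (6 : ℝ) ≤ 10)]
  have : Real.pi / 4 * (10 - 8) = Real.pi / 2 := by ring
  rw [this, Real.sin_pi_div_two]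
  norm_num

theorem Mf_of_le_six {u : ℝ} (hu : u ≤ 6) : Mf u = (u - 6) / 6 - 1 := by
  unfold Mf
  rw [min_eq_right (by linarith : (u - 6) / 6 ≤ 0), max_eq_left (by linarith : (u - 10) / 2 ≤ 0),
    min_eq_right (by linarith : u ≤ 10), max_eq_left hu]
  have : Real.pi / 4 * (6 - 8) = -(Real.pi / 2) := by ring
  rw [this, Real.sin_neg, Real.sin_pi_div_two]
  ring

theorem Mf_of_mid {u : ℝ} (h6 : 6 ≤ u) (h10 : u ≤ 10) :
    Mf u = Real.sin (Real.pi / 4 * (u - 8)) := by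
  unfold Mf
  rw [min_eq_left (by linarith : 0 ≤ (u - 6) / 6), max_eq_left (by linarith : (u - 10) / 2 ≤ 0),
    min_eq_right h10, max_eq_right h6]
  ring

theorem Mf_of_ten_le {u : ℝ} (hu : 10 ≤ u) : Mf u = 1 + (u - 10) / 2 := by
  unfold Mf
  rw [min_eq_left (by linarith : 0 ≤ (u - 6) / 6), max_eq_right (by linarith : 0 ≤ (u - 10) / 2),
    min_eq_left hu, max_eq_right (by norm_num : (6 : ℝ) ≤ 10)]
  have : Real.pi / 4 * (10 - 8) = Real.pi / 2 := by ring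
  rw [this, Real.sin_pi_div_two]
  ring

theorem surjective_Mf : Function.Surjective Mf := by
  intro m
  have h1 : Mf (-(6 * |m|)) ≤ m := by
    rw [Mf_of_le_six (by linarith [abs_nonneg m])]
    linarith [neg_abs_le m]
  have h2 : m ≤ Mf (10 + 2 * |m|) := by
    rw [Mf_of_ten_le (by linarith [abs_nonneg m])]
    linarith [le_abs_self m]
  have h3 : -(6 * |m|) ≤ 10 + 2 * |m| := by linarith [abs_nonneg m]
  obtain ⟨u, -, hu⟩ := intermediate_value_Icc h3 continuous_Mf.continuousOn ⟨h1, h2⟩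
  exact ⟨u, hu⟩

/-- `Mf` as a homeomorphism of the line -/
def MfIso : ℝ ≃o ℝ := StrictMono.orderIsoOfSurjective Mf strictMono_Mf surjective_Mf

theorem MfIso_apply (u : ℝ) : MfIso u = Mf u := rfl

theorem continuous_MfIso_symm : Continuous MfIso.symm := MfIso.symm.continuous

/-! ## Normalisation -/

theorem nrm_exp (a m : ℝ) : nrm (exp (a * I), m) = √(1 + m ^ 2) := by
  unfold nrm
  rw [Complex.norm_exp_ofReal_mul_I, one_pow]

theorem nml_exp (a m : ℝ) :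
    nml (exp (a * I), m) = (exp (a * I) / (√(1 + m ^ 2) : ℝ), m / √(1 + m ^ 2)) := by
  unfold nml
  rw [nrm_exp]

theorem nml_mem {v : ℂ × ℝ} (hv : nrm v ≠ 0) : nml v ∈ Sph := by
  have h1 : 0 < nrm v := lt_of_le_of_ne (nrm_nonneg v) (Ne.symm hv)
  rw [mem_Sph_iff]
  have h2 : nml v = (((nrm v)⁻¹ : ℝ) * v.1, (nrm v)⁻¹ * v.2) := by
    unfold nml
    refine Prod.ext ?_ ?_
    · push_cast
      rw [div_eq_inv_mul]
    · dsimp only
      rw [div_eq_inv_mul]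
  rw [h2, nrm_smul (inv_nonneg.2 h1.le), inv_mul_cancel₀ hv]

theorem sqrt_pos_aux (m : ℝ) : 0 < √(1 + m ^ 2) := Real.sqrt_pos.2 (by positivity)

theorem norm_nml_exp (a m : ℝ) : ‖(nml (exp (a * I), m)).1‖ = (√(1 + m ^ 2))⁻¹ := by
  rw [nml_exp]
  dsimp only
  rw [norm_div, Complex.norm_exp_ofReal_mul_I, Complex.norm_real, Real.norm_eq_abs,
    abs_of_pos (sqrt_pos_aux m), one_div]

theorem nml_exp_mem (a m : ℝ) : nml (exp (a * I), m) ∈ Sph :=
  nml_mem (by rw [nrm_exp]; exact (sqrt_pos_aux m).ne')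

/-- points of the sphere off the poles in terms of direction and slope -/
theorem eq_nml_iff {w : ℂ × ℝ} (hw : w ∈ Sph) (a m : ℝ) :
    w = nml (exp (a * I), m) ↔
      w.1 = (‖w.1‖ : ℂ) * exp (a * I) ∧ w.2 = ‖w.1‖ * m ∧ w.1 ≠ 0 := by
  have hs := sqrt_pos_aux m
  constructor
  · intro h
    have h1 : ‖w.1‖ = (√(1 + m ^ 2))⁻¹ := by rw [h, norm_nml_exp]
    refine ⟨?_, ?_, ?_⟩
    · rw [h1]
      conv_lhs => rw [h, nml_exp]
      dsimp only
      push_cast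
      rw [div_eq_inv_mul]
    · rw [h1]
      conv_lhs => rw [h, nml_exp]
      dsimp only
      rw [div_eq_inv_mul]
    · rw [← norm_ne_zero_iff, h1]
      positivity
  · rintro ⟨h1, h2, h3⟩
    have h4 : 0 < ‖w.1‖ := norm_pos_iff.2 h3
    have h5 : ‖w.1‖ ^ 2 + w.2 ^ 2 = 1 := hw
    have h6 : ‖w.1‖ = (√(1 + m ^ 2))⁻¹ := by
      have h7 : ‖w.1‖ ^ 2 * (1 + m ^ 2) = 1 := by
        rw [h2] at h5
        linarith
      have h8 : (‖w.1‖ * √(1 + m ^ 2)) ^ 2 = 1 := by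
        rw [mul_pow, Real.sq_sqrt (by positivity)]
        linarith
      have h9 := mul_pos h4 hs
      exact eq_inv_of_mul_eq_one_left (by nlinarith)
    rw [nml_exp]
    refine Prod.ext ?_ ?_
    · dsimp only
      rw [h1, h6]
      push_cast
      rw [div_eq_inv_mul]
    · dsimp only
      rw [h2, h6, div_eq_inv_mul]

theorem mem_hlx {w : ℂ × ℝ} (hw : w ∈ Sph) (b k : ℝ) :
    w ∈ hlx b k ↔ w.1 ≠ 0 ∧ ∃ u ∈ Icc (0 : ℝ) 12,
      w.1 = (‖w.1‖ : ℂ) * exp ((Real.pi * (b + k * u) : ℝ) * I) ∧ w.2 = ‖w.1‖ * Mf u := by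
  unfold hlx
  constructor
  · rintro ⟨u, hu, rfl⟩
    have h := (eq_nml_iff (nml_exp_mem (Real.pi * (b + k * u)) (Mf u)) (Real.pi * (b + k * u))
      (Mf u)).1 rfl
    exact ⟨h.2.2, u, hu, h.1, h.2.1⟩
  · rintro ⟨h0, u, hu, h1, h2⟩
    exact ⟨u, hu, ((eq_nml_iff hw _ _).2 ⟨h1, h2, h0⟩).symm⟩

theorem hlx_subset (b k : ℝ) : hlx b k ⊆ Sph := by
  rintro _ ⟨u, hu, rfl⟩
  exact nml_exp_mem _ _

theorem isCompact_Sph : IsCompact Sph := by
  have h1 : IsClosed Sph := by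
    unfold Sph
    exact isClosed_eq (by fun_prop) continuous_const
  refine (isCompact_closedBall (0 : ℂ × ℝ) 1).of_isClosed_subset h1 ?_
  intro p hp
  have hp' : ‖p.1‖ ^ 2 + p.2 ^ 2 = 1 := hp
  rw [mem_closedBall_zero_iff, Prod.norm_def, max_le_iff]
  constructor
  · nlinarith [norm_nonneg p.1, sq_nonneg p.2]
  · rw [Real.norm_eq_abs, abs_le]
    constructor <;> nlinarith [norm_nonneg p.1, sq_nonneg ‖p.1‖]

theorem isCompact_hlx (b k : ℝ) : IsCompact (hlx b k) := by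
  unfold hlx
  refine isCompact_Icc.image ?_
  have h : (fun u : ℝ => nml (exp ((Real.pi * (b + k * u) : ℝ) * I), Mf u)) =
      fun u : ℝ => (exp ((Real.pi * (b + k * u) : ℝ) * I) / (√(1 + Mf u ^ 2) : ℝ),
        Mf u / √(1 + Mf u ^ 2)) := by
    funext u
    exact nml_exp _ _
  rw [h]
  have hc := continuous_Mf
  have h1 : ∀ u, √(1 + Mf u ^ 2) ≠ 0 := fun u => (sqrt_pos_aux _).ne'
  have h2 : ∀ u, ((√(1 + Mf u ^ 2) : ℝ) : ℂ) ≠ 0 := fun u => Complex.ofReal_ne_zero.2 (h1 u)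
  refine Continuous.prodMk (Continuous.div ?_ ?_ h2) (Continuous.div hc (by fun_prop) h1)
  · fun_prop
  · exact Complex.continuous_ofReal.comp (by fun_prop)

/-! ## The 1-skeleton -/

theorem vert0 : nml (I, -2) ∈ hlx (1 / 2) (1 / 6) := by
  refine ⟨0, ⟨le_rfl, by norm_num⟩, ?_⟩
  dsimp only
  rw [Mf_zero]
  congr 2
  have : ((Real.pi * (1 / 2 + 1 / 6 * 0) : ℝ) : ℂ) = (Real.pi : ℂ) / 2 := by
    push_cast
    ring
  rw [this, Complex.exp_pi_div_two_mul_I]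

theorem vert1 : nml (I, 2) ∈ hlx (1 / 2) (1 / 6) := by
  refine ⟨12, ⟨by norm_num, le_rfl⟩, ?_⟩
  dsimp only
  rw [Mf_twelve]
  congr 2
  have : ((Real.pi * (1 / 2 + 1 / 6 * 12) : ℝ) : ℂ) * I = (Real.pi : ℂ) / 2 * I + 2 * Real.pi * I := by
    push_cast
    ring
  rw [this, Complex.exp_add, Complex.exp_pi_div_two_mul_I, Complex.exp_two_pi_mul_I, mul_one]

theorem vert3 : nml (-I, -2) ∈ hlx (-1 / 2) (1 / 6) := by
  refine ⟨0, ⟨le_rfl, by norm_num⟩, ?_⟩
  dsimp only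
  rw [Mf_zero]
  congr 2
  have : ((Real.pi * (-1 / 2 + 1 / 6 * 0) : ℝ) : ℂ) * I = -((Real.pi : ℂ) / 2 * I) := by
    push_cast
    ring
  rw [this, Complex.exp_neg, Complex.exp_pi_div_two_mul_I, Complex.inv_I]

theorem vert2 : nml (-I, 2) ∈ hlx (-1 / 2) (1 / 6) := by
  refine ⟨12, ⟨by norm_num, le_rfl⟩, ?_⟩
  dsimp only
  rw [Mf_twelve]
  congr 2
  have : ((Real.pi * (-1 / 2 + 1 / 6 * 12) : ℝ) : ℂ) * I = -((Real.pi : ℂ) / 2 * I) + 2 * Real.pi * I := by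
    push_cast
    ring
  rw [this, Complex.exp_add, Complex.exp_neg, Complex.exp_pi_div_two_mul_I, Complex.inv_I,
    Complex.exp_two_pi_mul_I, mul_one]

theorem Skl_eq : Skl = hlx (1 / 2) (1 / 6) ∪ hlx (1 / 2) (1 / 4) ∪ hlx (-1 / 2) (1 / 4) ∪
    hlx (-1 / 2) (1 / 6) ∪ {v | v ∈ Sph ∧ v.1.re = 0 ∧ 2 * ‖v.1‖ ≤ |v.2|} := by
  ext v
  constructor
  · intro h
    obtain ⟨i, hi⟩ := mem_iUnion.1 h
    obtain ⟨j, hj⟩ := mem_iUnion.1 hi
    have a1 : v.2 ≤ -2 * ‖v.1‖ → 2 * ‖v.1‖ ≤ |v.2| := fun h => by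
      linarith [neg_abs_le v.2]
    have a2 : 2 * ‖v.1‖ ≤ v.2 → 2 * ‖v.1‖ ≤ |v.2| := fun h => h.trans (le_abs_self _)
    fin_cases i <;> fin_cases j
    · have : v = nml (I, -2) := hj
      rw [this]
      exact Or.inl (Or.inl (Or.inl (Or.inl vert0)))
    · exact Or.inl (Or.inl (Or.inl (Or.inl hj)))
    · exact Or.inl (Or.inl (Or.inl (Or.inr hj)))
    · have h' : v ∈ Sph ∧ v.1.re = 0 ∧ v.2 ≤ -2 * ‖v.1‖ := hj
      exact Or.inr ⟨h'.1, h'.2.1, a1 h'.2.2⟩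
    · exact Or.inl (Or.inl (Or.inl (Or.inl hj)))
    · have : v = nml (I, 2) := hj
      rw [this]
      exact Or.inl (Or.inl (Or.inl (Or.inl vert1)))
    · have h' : v ∈ Sph ∧ v.1.re = 0 ∧ 2 * ‖v.1‖ ≤ v.2 := hj
      exact Or.inr ⟨h'.1, h'.2.1, a2 h'.2.2⟩
    · exact Or.inl (Or.inl (Or.inr hj))
    · exact Or.inl (Or.inl (Or.inl (Or.inr hj)))
    · have h' : v ∈ Sph ∧ v.1.re = 0 ∧ 2 * ‖v.1‖ ≤ v.2 := hj
      exact Or.inr ⟨h'.1, h'.2.1, a2 h'.2.2⟩
    · have : v = nml (-I, 2) := hj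
      rw [this]
      exact Or.inl (Or.inr vert2)
    · exact Or.inl (Or.inr hj)
    · have h' : v ∈ Sph ∧ v.1.re = 0 ∧ v.2 ≤ -2 * ‖v.1‖ := hj
      exact Or.inr ⟨h'.1, h'.2.1, a1 h'.2.2⟩
    · exact Or.inl (Or.inl (Or.inr hj))
    · exact Or.inl (Or.inr hj)
    · have : v = nml (-I, -2) := hj
      rw [this]
      exact Or.inl (Or.inr vert3)
  · have mk : ∀ i j, v ∈ Edg i j → v ∈ Skl := fun i j h => mem_iUnion.2 ⟨i, mem_iUnion.2 ⟨j, h⟩⟩
    rintro ((((h | h) | h) | h) | h)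
    · exact mk 0 1 h
    · exact mk 0 2 h
    · exact mk 1 3 h
    · exact mk 2 3 h
    · rcases le_total 0 v.2 with h0 | h0
      · refine mk 1 2 ⟨h.1, h.2.1, ?_⟩
        have := h.2.2
        rwa [abs_of_nonneg h0] at this
      · refine mk 0 3 ⟨h.1, h.2.1, ?_⟩
        have := h.2.2
        rw [abs_of_nonpos h0] at this
        linarith

theorem Skl_subset : Skl ⊆ Sph := by
  rw [Skl_eq]
  rintro v ((((h | h) | h) | h) | h)
  · exact hlx_subset _ _ h
  · exact hlx_subset _ _ h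
  · exact hlx_subset _ _ h
  · exact hlx_subset _ _ h
  · exact h.1

theorem isCompact_Skl : IsCompact Skl := by
  rw [Skl_eq]
  refine ((((isCompact_hlx _ _).union (isCompact_hlx _ _)).union (isCompact_hlx _ _)).union
    (isCompact_hlx _ _)).union ?_
  have h : {v : ℂ × ℝ | v ∈ Sph ∧ v.1.re = 0 ∧ 2 * ‖v.1‖ ≤ |v.2|} =
      Sph ∩ ({v | v.1.re = 0} ∩ {v | 2 * ‖v.1‖ ≤ |v.2|}) := rfl
  rw [h]
  refine isCompact_Sph.inter_right (IsClosed.inter ?_ ?_)
  · exact isClosed_eq (by fun_prop) continuous_const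
  · exact isClosed_le (by fun_prop) (by fun_prop)

end

end Pool.Agent.LIX
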