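import Pool.Agent.LIX.StmtsL
import Pool.Agent.LIX.GSph

/-!
# LIX, block LO: the types of the six disks of the octahedron

* `t_OD`: graph disks over the region above (below) a chord have type `U` (`D`).
* `t_OM`: the disk `DM0 = {arg p.1 = π} ∩ VT true` has type `M true`.
* `t_OX`: the disks `DX b` (`{arg p.1 = 0} ∩ VT true`, `{arg p.2 = 0} ∩ VT false`) have type `X b 2`.
-/

set_option autoImplicit false

namespace Pool.Agent.LIX.LO

open Set Metric Complex

noncomputable section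

/-- The disk `arg p.1 = π` on the side `true`. -/
def DM0 : Set (ℂ × ℂ) := {p | p ∈ VT true ∧ arg p.1 = Real.pi}

/-- The disks `arg p.1 = 0` on the side `true` and `arg p.2 = 0` on the side `false`. -/
def DX (b : Bool) : Set (ℂ × ℂ) := {p | p ∈ VT b ∧ arg (if b = true then p.1 else p.2) = 0}

/-- The type of the graph disk over the region `J`. -/
def tyJ (J : S.Ct) : Ty := if J.2.2 = true then Ty.U J.1 J.2.1 else Ty.D J.1 J.2.1

def S_OD : Prop := ∀ (J : S.Ct) (η : ℂ × ℝ → ℝ), S.Adm J η → HasTy (S.GD col J η) (tyJ J)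

def M_OD : Prop := S.S_QI → S.S_GE → L.S_KH5 → S_OD

def S_OM : Prop := (∃ f, IsCompPar TT HT f ∧ DM0 = f '' Disk) → HasTy DM0 (Ty.M true)

def M_OM : Prop := L.S_TOR → L.S_LCU → S_OM

def S_OX : Prop := ∀ b, (∃ f, IsEdgePar TT HT f ∧ DX b = f '' HDisk) → HasTy (DX b) (Ty.X b 2)

def M_OX : Prop := L.S_TOR → L.S_HOL → L.S_LCU → S_OX

/-! ## Preliminaries -/

theorem sg_mul_self (b : Bool) : sg b * sg b = 1 := by
  cases b <;> simp [sg]

theorem abs_sg (b : Bool) : |sg b| = 1 := by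
  cases b <;> simp [sg]

/-- The chords `A3` and `B3` are planar. -/
theorem dl_two (b : Bool) (v : ℂ × ℝ) (hv : 0 ≤ sg b * v.1.im) :
    dl b 2 v = v.2 + sg b * v.1.re := by
  unfold dl lon hj
  set w : ℂ := (sg b : ℂ) * v.1 with hw
  have hwim : w.im = sg b * v.1.im := by rw [hw, Complex.im_ofReal_mul]
  have hwre : w.re = sg b * v.1.re := by rw [hw, Complex.re_ofReal_mul]
  have hn : ‖w‖ = ‖v.1‖ := by
    rw [hw, norm_mul, Complex.norm_real, Real.norm_eq_abs, abs_sg, one_mul]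
  have h0 : 0 ≤ arg w := Complex.arg_nonneg_iff.2 (by rw [hwim]; exact hv)
  have h1 : arg w ≤ Real.pi := Complex.arg_le_pi w
  have hp := Real.pi_pos
  have hq0 : 0 ≤ arg w / Real.pi := div_nonneg h0 hp.le
  have hq1 : arg w / Real.pi ≤ 1 := (div_le_one hp).2 h1
  have e1 : (![2 + 4 * (arg w / Real.pi), 3 + 6 * (arg w / Real.pi), 6 + 4 * (arg w / Real.pi)] :
      Fin 3 → ℝ) 2 = 6 + 4 * (arg w / Real.pi) := rfl
  rw [e1, Mf_of_mid (by linarith) (by linarith)]
  have e2 : Real.pi / 4 * (6 + 4 * (arg w / Real.pi) - 8) = -(Real.pi / 2 - arg w) := by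
    field_simp
    ring
  rw [e2, Real.sin_neg, Real.sin_pi_div_two_sub, ← hn, ← hwre, ← Complex.norm_mul_cos_arg w]
  ring

theorem mem_bd_iff {v : ℂ × ℝ} (hv : v ∈ Sph) {l : ℝ} (hl : l ∈ Icc (0 : ℝ) 1) :
    col (v, l) ∈ TT.bd ↔ l = 0 := by
  rw [collar_TT.bd]
  constructor
  · rintro ⟨⟨w, m⟩, ⟨hw, hm⟩, h⟩
    have hm' : m = 0 := hm
    subst hm'
    have := collar_TT.inj (x₁ := (w, 0)) (x₂ := (v, l)) ⟨hw, by simp⟩ ⟨hv, hl⟩ h
    exact (congrArg Prod.snd this).symm
  · rintro rfl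
    exact ⟨(v, 0), ⟨hv, rfl⟩, rfl⟩

theorem pr_kap {v : ℂ × ℝ} (hv : nrm v ≤ 1 / 2) : pr (kap v) = ⟨v.1.re, v.2⟩ := by
  unfold pr
  rw [arg_kap_fst hv, arg_kap_snd hv]
  apply Complex.ext
  · change (v.2 + v.1.re - (v.2 - v.1.re)) / 2 = v.1.re
    ring
  · change (v.2 + v.1.re + (v.2 - v.1.re)) / 2 = v.2
    ring

theorem pr_col {v : ℂ × ℝ} (hv : v ∈ Sph) {l : ℝ} (hl : l ∈ Icc (0 : ℝ) 1) :
    pr (col (v, l)) = ⟨(1 + l) / 5 * v.1.re, (1 + l) / 5 * v.2⟩ := by
  rw [col_eq, pr_kap]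
  · rw [Complex.re_ofReal_mul]
  · rw [nrm_colarg hv hl.1]
    linarith [hl.2]

/-- A ray upwards. -/
theorem hasLog_up {K : Set ℂ} {z : ℂ} (h : ∀ x ∈ K, x.re = z.re → x.im < z.im) : HasLog K z := by
  refine ⟨fun hz => absurd (h z hz rfl) (lt_irrefl _), fun x => arg ((x - z) * I) - Real.pi / 2, ?_, ?_⟩
  · have hs : ∀ x ∈ K, (x - z) * I ∈ slitPlane := by
      intro x hx
      rw [Complex.mem_slitPlane_iff]
      by_cases h1 : x.re = z.re
      · left
        have := h x hx h1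
        simp
        linarith
      · right
        simp
        exact sub_ne_zero.2 h1
    refine ContinuousOn.sub ?_ continuousOn_const
    intro x hx
    apply ContinuousAt.continuousWithinAt
    have h2 : ContinuousAt (fun x : ℂ => (x - z) * I) x := by fun_prop
    exact ContinuousAt.comp (g := arg) (f := fun x : ℂ => (x - z) * I)
      (Complex.continuousAt_arg (hs x hx)) h2
  · intro x hx
    have h1 := Complex.norm_mul_exp_arg_mul_I ((x - z) * I)
    rw [norm_mul, Complex.norm_I, mul_one] at h1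
    have h2 : exp (((arg ((x - z) * I) - Real.pi / 2 : ℝ) : ℂ) * I) =
        exp ((arg ((x - z) * I) : ℂ) * I) * (-I) := by
      push_cast
      rw [sub_mul, Complex.exp_sub, Complex.exp_pi_div_two_mul_I, div_I]
      ring
    rw [h2, ← mul_assoc, h1]
    linear_combination (x - z) * Complex.I_mul_I

/-- A ray downwards. -/
theorem hasLog_down {K : Set ℂ} {z : ℂ} (h : ∀ x ∈ K, x.re = z.re → z.im < x.im) : HasLog K z := by
  refine ⟨fun hz => absurd (h z hz rfl) (lt_irrefl _),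
    fun x => arg ((x - z) * (-I)) + Real.pi / 2, ?_, ?_⟩
  · have hs : ∀ x ∈ K, (x - z) * (-I) ∈ slitPlane := by
      intro x hx
      rw [Complex.mem_slitPlane_iff]
      by_cases h1 : x.re = z.re
      · left
        have := h x hx h1
        simp
        linarith
      · right
        simp
        exact sub_ne_zero.2 (Ne.symm h1)
    refine ContinuousOn.add ?_ continuousOn_const
    intro x hx
    apply ContinuousAt.continuousWithinAt
    have h2 : ContinuousAt (fun x : ℂ => (x - z) * (-I)) x := by fun_prop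
    exact ContinuousAt.comp (g := arg) (f := fun x : ℂ => (x - z) * (-I))
      (Complex.continuousAt_arg (hs x hx)) h2
  · intro x hx
    have h1 := Complex.norm_mul_exp_arg_mul_I ((x - z) * (-I))
    rw [norm_mul, norm_neg, Complex.norm_I, mul_one] at h1
    have h2 : exp (((arg ((x - z) * (-I)) + Real.pi / 2 : ℝ) : ℂ) * I) =
        exp ((arg ((x - z) * (-I)) : ℂ) * I) * I := by
      push_cast
      rw [add_mul, Complex.exp_add, Complex.exp_pi_div_two_mul_I]
    rw [h2, ← mul_assoc, h1]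
    linear_combination (x - z) * Complex.I_mul_I

/-! ## Graph disks -/

theorem Mf_le_one {u : ℝ} (hu : u ≤ 10) : Mf u ≤ 1 := by
  have h := strictMono_Mf.monotone hu
  rw [Mf_of_ten_le le_rfl] at h
  linarith

theorem le_Mf {u : ℝ} (hu : 2 ≤ u) : -(5 / 3) ≤ Mf u := by
  have h := strictMono_Mf.monotone hu
  rw [Mf_of_le_six (by norm_num : (2 : ℝ) ≤ 6)] at h
  linarith

theorem hj_mem (j : Fin 3) {f : ℝ} (h0 : 0 ≤ f) (h1 : f ≤ 1) : 2 ≤ hj j f ∧ hj j f ≤ 10 := by
  unfold hj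
  fin_cases j <;> simp <;> constructor <;> linarith

theorem lon_mem (b : Bool) (v : ℂ × ℝ) (hv : 0 ≤ sg b * v.1.im) : 0 ≤ lon b v ∧ lon b v ≤ 1 := by
  unfold lon
  set w : ℂ := (sg b : ℂ) * v.1 with hw
  have hwim : w.im = sg b * v.1.im := by rw [hw, Complex.im_ofReal_mul]
  have h0 : 0 ≤ arg w := Complex.arg_nonneg_iff.2 (by rw [hwim]; exact hv)
  exact ⟨div_nonneg h0 Real.pi_pos.le, (div_le_one Real.pi_pos).2 (Complex.arg_le_pi w)⟩

/-- Points of the chords are not near the poles. -/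
theorem abs_lt_of_dl {b : Bool} {j : Fin 3} {v : ℂ × ℝ} (hv : v ∈ Hem b) (h : dl b j v = 0) :
    |v.2| < 9 / 10 := by
  obtain ⟨hS, hs⟩ := hv
  have hS' : ‖v.1‖ ^ 2 + v.2 ^ 2 = 1 := hS
  obtain ⟨f0, f1⟩ := lon_mem b v hs
  obtain ⟨g0, g1⟩ := hj_mem j f0 f1
  have m1 := Mf_le_one g1
  have m0 := le_Mf g0
  unfold dl at h
  have h2 : v.2 = ‖v.1‖ * Mf (hj j (lon b v)) := by linarith
  have hn := norm_nonneg v.1
  have h3 : |Mf (hj j (lon b v))| ≤ 5 / 3 := abs_le.2 ⟨by linarith, by linarith⟩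
  have h4 : |v.2| ≤ ‖v.1‖ * (5 / 3) := by
    rw [h2, abs_mul, abs_of_nonneg hn]
    exact mul_le_mul_of_nonneg_left h3 hn
  have h5 : |v.2| ^ 2 = v.2 ^ 2 := sq_abs _
  have h6 : |v.2| ^ 2 ≤ (‖v.1‖ * (5 / 3)) ^ 2 := pow_le_pow_left₀ (abs_nonneg _) h4 2
  nlinarith [abs_nonneg v.2]

theorem t_OD : M_OD := by
  intro hQI hGE hKH5 J η hη
  obtain ⟨b, j, d⟩ := J
  obtain ⟨hc, hη'⟩ := hη
  dsimp only at hc hη'
  have hsub : ∀ v ∈ S.Rg b j d, v ∈ Sph ∧ 0 ≤ sg b * v.1.im := fun v hv => hv.1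
  have hI : ∀ v ∈ S.Rg b j d, η v ∈ Icc (0 : ℝ) 1 := fun v hv =>
    ⟨(hη' v hv).1, by linarith [(hη' v hv).2.1]⟩
  set D : Set (ℂ × ℂ) := S.GD col (b, j, d) η with hD
  have hDdef : D = (fun v => col (v, η v)) '' S.Rg b j d := rfl
  -- the trace on the boundary
  have hbd : ∀ v ∈ S.Rg b j d, (col (v, η v) ∈ TT.bd ↔ dl b j v = 0) := fun v hv => by
    rw [mem_bd_iff (hsub v hv).1 (hI v hv)]
    exact (hη' v hv).2.2
  have hE : Edge b j D := by
    refine ⟨⟨fun w => col (S.qI b j d (w, 0), η (S.qI b j d (w, 0))),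
      hGE _ TT HT VT col collar_TT (b, j, d) η ⟨hc, hη'⟩, ?_⟩, ?_, ?_⟩
    · have h := (hQI b j d).2.2.2
      rw [hDdef, ← h, image_image]
    · rintro _ ⟨v, hv, rfl⟩
      exact (collar_TT.side b v (hsub v hv).1 _ (hI v hv)).2 (hsub v hv).2
    · ext p
      constructor
      · rintro ⟨⟨v, hv, rfl⟩, hp⟩
        have h1 := (hbd v hv).1 hp
        have h2 : η v = 0 := (hη' v hv).2.2.2 h1
        refine ⟨v, ⟨hv.1, h1⟩, ?_⟩
        change col (v, 0) = col (v, η v)
        rw [h2]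
      · rintro ⟨v, ⟨hv, hv0⟩, rfl⟩
        have hR : v ∈ S.Rg b j d := ⟨hv, by rw [hv0, mul_zero]⟩
        have h2 : η v = 0 := (hη' v hR).2.2.2 hv0
        have h3 := (hbd v hR).2 hv0
        rw [h2] at h3
        refine ⟨⟨v, hR, ?_⟩, h3⟩
        change col (v, η v) = col (v, 0)
        rw [h2]
  -- the lift
  have hL : Lf0 D pr := by
    refine ⟨?_, ?_, ?_⟩
    · rintro p ⟨⟨v, hv, rfl⟩, -⟩
      apply ContinuousAt.continuousWithinAt
      have hn : nrm (((1 + η v) / 5 : ℝ) * v.1, (1 + η v) / 5 * v.2) ≤ 1 / 2 := by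
        rw [nrm_colarg (hsub v hv).1 (hI v hv).1]
        linarith [(hI v hv).2]
      have hs := kap_slit hn
      rw [← col_eq] at hs
      have h1 : ContinuousAt (fun p : ℂ × ℂ => arg p.1) (col (v, η v)) :=
        ContinuousAt.comp (g := arg) (f := fun p : ℂ × ℂ => p.1)
          (Complex.continuousAt_arg hs.1) continuousAt_fst
      have h2 : ContinuousAt (fun p : ℂ × ℂ => arg p.2) (col (v, η v)) :=
        ContinuousAt.comp (g := arg) (f := fun p : ℂ × ℂ => p.2)
          (Complex.continuousAt_arg hs.2) continuousAt_snd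
      have h3 : pr = fun p : ℂ × ℂ => (((arg p.1 - arg p.2) / 2 : ℝ) : ℂ) +
          (((arg p.1 + arg p.2) / 2 : ℝ) : ℂ) * I := by
        funext p
        apply Complex.ext <;> simp [pr]
      rw [h3]
      exact (Complex.continuous_ofReal.continuousAt.comp ((h1.sub h2).div_const 2)).add
        ((Complex.continuous_ofReal.continuousAt.comp ((h1.add h2).div_const 2)).mul
          continuousAt_const)
    · rintro p ⟨⟨v, hv, rfl⟩, hH⟩
      have h0 : v.1.im = 0 := (collar_TT.surf v (hsub v hv).1 _ (hI v hv)).1 hH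
      change tor (pr (col (v, η v))) = col (v, η v)
      rw [pr_col (hsub v hv).1 (hI v hv), col_eq]
      unfold tor
      congr 1
      refine Prod.ext ?_ rfl
      apply Complex.ext
      · simp
      · simp [h0]
    · rintro p ⟨⟨v, hv, rfl⟩, hH⟩ hp
      have h1 : dl b j v = 0 := (hbd v hv).1 hp
      have h2 : η v = 0 := (hη' v hv).2.2.2 h1
      change ‖pr (col (v, η v))‖ ≤ 1 / 5
      rw [h2, pr_col (hsub v hv).1 (by simp)]
      have hS : nrm v ^ 2 = 1 := by rw [(mem_Sph_iff v).1 (hsub v hv).1, one_pow]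
      rw [nrm_sq'] at hS
      refine abs_le_of_sq_le_sq' ?_ (by norm_num) |>.2
      rw [← Complex.normSq_eq_norm_sq, Complex.normSq_apply]
      nlinarith [sq_nonneg v.1.im]
  -- the curve
  have hK : ∀ x ∈ Kset D pr, x.re = 0 → (d = false → x.im < 9 / 50) ∧ (d = true → -(9 / 50) < x.im) := by
    have key : ∀ v ∈ S.Rg b j d, (v.1.im = 0 ∨ dl b j v = 0) → (pr (col (v, η v))).re = 0 →
        (d = false → (pr (col (v, η v))).im < 9 / 50) ∧
        (d = true → -(9 / 50) < (pr (col (v, η v))).im) := by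
      intro v hv hor hre
      rw [pr_col (hsub v hv).1 (hI v hv)] at hre ⊢
      dsimp only at hre ⊢
      have hpos : 0 < (1 + η v) / 5 := by linarith [(hI v hv).1]
      have hr : v.1.re = 0 := by
        rcases mul_eq_zero.1 hre with h | h
        · exact absurd h hpos.ne'
        · exact h
      by_cases h0 : dl b j v = 0
      · have h1 := abs_lt.1 (abs_lt_of_dl hv.1 h0)
        have h2 : η v = 0 := (hη' v hv).2.2.2 h0
        rw [h2]
        constructor <;> intro _ <;> linarith [h1.1, h1.2]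
      · have him : v.1.im = 0 := hor.resolve_right h0
        have hz : v.1 = 0 := Complex.ext hr him
        have hd : dl b j v = v.2 := by
          unfold dl
          rw [hz, norm_zero, zero_mul, sub_zero]
        have hv2 := hv.2
        rw [hd] at hv2
        constructor
        · rintro rfl
          simp only [sg] at hv2
          norm_num at hv2
          nlinarith
        · rintro rfl
          simp only [sg] at hv2
          norm_num at hv2
          nlinarith
    rintro x (⟨p, ⟨⟨v, hv, rfl⟩, hH⟩, rfl⟩ | ⟨p, ⟨⟨v, hv, rfl⟩, hp⟩, rfl⟩)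
    · exact key v hv (Or.inl ((collar_TT.surf v (hsub v hv).1 _ (hI v hv)).1 hH))
    · exact key v hv (Or.inr ((hbd v hv).1 hp))
  have h5 := hKH5 D b j pr hE hL
  unfold tyJ
  dsimp only
  cases d with
  | false =>
    rw [if_neg (by simp)]
    refine ⟨hE, pr, hL, fun hss => h5 ⟨?_, hss⟩⟩
    refine hasLog_up fun x hx hre => ?_
    have e1 : nn.re = 0 := by simp [nn]
    have e2 : nn.im = 9 / 50 := by simp [nn]
    rw [e2]
    exact (hK x hx (hre.trans e1)).1 rfl
  | true =>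
    rw [if_pos rfl]
    refine ⟨hE, pr, hL, fun hnn => h5 ⟨hnn, ?_⟩⟩
    refine hasLog_down fun x hx hre => ?_
    have e1 : ss.re = 0 := by simp [ss]
    have e2 : ss.im = -(9 / 50) := by simp [ss]
    rw [e2]
    exact (hK x hx (hre.trans e1)).2 rfl

/-! ## The other three disks -/

theorem tor_eq (x : ℂ) : tor x = ((Real.cos (Real.pi / 4) : ℂ) * exp ((th x : ℂ) * I),
    (Real.cos (Real.pi / 4) : ℂ) * exp ((ph x : ℂ) * I)) := by
  unfold tor kap th ph
  simp only [Complex.ofReal_im, Complex.ofReal_re, sub_zero, add_zero]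

theorem cos_pos : 0 < Real.cos (Real.pi / 4) := by
  rw [Real.cos_pi_div_four]
  positivity

theorem tor_norm (x : ℂ) : ‖(tor x).1‖ = ‖(tor x).2‖ := by
  rw [tor_eq]
  simp only [norm_mul, Complex.norm_exp_ofReal_mul_I]

theorem tor_S3 (x : ℂ) : tor x ∈ S3 := kap_mem_S3 _

theorem mem_VT_of_HT {p : ℂ × ℂ} (hp : p ∈ HT) (b : Bool) : p ∈ VT b := by
  have h : p ∈ VT true ∩ VT false := by
    rw [collar_TT.side_inter]
    exact hp
  cases b
  · exact h.2
  · exact h.1

theorem arg_tor_fst {x : ℂ} {t : ℝ} (ht : t ∈ Ioc (-Real.pi) Real.pi) (h : th x = t) :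
    arg (tor x).1 = t := by
  rw [tor_eq]
  dsimp only
  rw [Complex.arg_real_mul _ cos_pos, h, Complex.arg_exp_mul_I, toIocMod_eq_self]
  rw [show -Real.pi + 2 * Real.pi = Real.pi by ring]
  exact ht

theorem arg_tor_snd {x : ℂ} {t : ℝ} (ht : t ∈ Ioc (-Real.pi) Real.pi) (h : ph x = t) :
    arg (tor x).2 = t := by
  rw [tor_eq]
  dsimp only
  rw [Complex.arg_real_mul _ cos_pos, h, Complex.arg_exp_mul_I, toIocMod_eq_self]
  rw [show -Real.pi + 2 * Real.pi = Real.pi by ring]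
  exact ht

theorem t_OM : M_OM := by
  intro hTOR hLCU hf
  refine ⟨⟨hf, fun p hp => hp.1⟩, ?_⟩
  rintro ⟨σ, hc, hl, -⟩
  set a : ℝ → ℂ := fun t => (((Real.pi - t) / 2 : ℝ) : ℂ) + (((Real.pi + t) / 2 : ℝ) : ℂ) * I with ha
  have hth : ∀ t, th (a t) = Real.pi := by
    intro t
    simp only [ha, th, Complex.add_im, Complex.add_re, Complex.ofReal_im, Complex.ofReal_re,
      Complex.re_ofReal_mul, Complex.im_ofReal_mul, Complex.I_re, Complex.I_im]
    ring
  have hph : ∀ t, ph (a t) = t := by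
    intro t
    simp only [ha, ph, Complex.add_im, Complex.add_re, Complex.ofReal_im, Complex.ofReal_re,
      Complex.re_ofReal_mul, Complex.im_ofReal_mul, Complex.I_re, Complex.I_im]
    ring
  have hac : Continuous a := by
    rw [ha]
    fun_prop
  have hpi := Real.pi_gt_three
  have harg : ∀ t, arg (tor (a t)).1 = Real.pi := fun t =>
    arg_tor_fst ⟨by linarith, le_rfl⟩ (hth t)
  have hHT : ∀ t, tor (a t) ∈ HT := by
    intro t
    refine ⟨⟨tor_S3 _, ?_⟩, tor_norm _⟩
    rintro ⟨v, hv, hvt⟩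
    have hv' : nrm v < 1 / 5 := hv
    have h1 := arg_kap_fst (v := v) (by linarith)
    rw [hvt, harg] at h1
    have h2 := abs_le.1 (abs_re_le_nrm v)
    have h3 := abs_le.1 (abs_snd_le_nrm v)
    linarith [h2.2, h3.2]
  have hmem : ∀ t, tor (a t) ∈ DM0 ∩ HT := fun t => ⟨⟨mem_VT_of_HT (hHT t) true, harg t⟩, hHT t⟩
  have htc := hTOR.2.1
  have hξ : Continuous fun t => σ (tor (a t)) :=
    hc.comp_continuous (htc.comp hac) hmem
  obtain ⟨-, h⟩ := hLCU ℝ univ isPreconnected_univ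
  obtain ⟨l, -, h'⟩ := h (fun t => σ (tor (a t))) a hξ.continuousOn hac.continuousOn
    fun t _ => hl _ (hmem t)
  have e0 := h' 0 (mem_univ _)
  have e1 := h' (2 * Real.pi) (mem_univ _)
  have e2 : tor (a (2 * Real.pi)) = tor (a 0) := by
    rw [tor_eq, tor_eq, hth, hth, hph, hph]
    simp [Complex.exp_two_pi_mul_I]
  rw [e2, e0] at e1
  have e3 : a 0 = a (2 * Real.pi) := add_right_cancel e1
  have e4 := hph 0
  rw [e3, hph] at e4
  linarith

theorem mem_DX_iff {b : Bool} {v : ℂ × ℝ} (hv : v ∈ Sph) :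
    col (v, 0) ∈ DX b ↔ v ∈ ch b 2 := by
  have hn : nrm (((1 + 0) / 5 : ℝ) * v.1, (1 + 0) / 5 * v.2) ≤ 1 / 2 := by
    rw [nrm_colarg hv le_rfl]
    norm_num
  have h0 : (0 : ℝ) ∈ Icc (0 : ℝ) 1 := by simp
  have h1 := collar_TT.side b v hv 0 h0
  constructor
  · rintro ⟨hV, ha⟩
    have h2 := h1.1 hV
    refine ⟨⟨hv, h2⟩, ?_⟩
    rw [dl_two b v h2]
    rw [col_eq] at ha
    cases b with
    | true =>
      rw [if_pos rfl, arg_kap_fst hn] at ha
      dsimp only at ha
      rw [Complex.re_ofReal_mul] at ha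
      simp only [sg, if_true]
      linarith
    | false =>
      rw [if_neg (by simp), arg_kap_snd hn] at ha
      dsimp only at ha
      rw [Complex.re_ofReal_mul] at ha
      have e : sg false = -1 := by simp [sg]
      rw [e]
      linarith
  · rintro ⟨⟨-, h2⟩, hd⟩
    rw [dl_two b v h2] at hd
    refine ⟨h1.2 h2, ?_⟩
    rw [col_eq]
    cases b with
    | true =>
      rw [if_pos rfl, arg_kap_fst hn]
      dsimp only
      rw [Complex.re_ofReal_mul]
      simp only [sg, if_true] at hd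
      linarith
    | false =>
      rw [if_neg (by simp), arg_kap_snd hn]
      dsimp only
      rw [Complex.re_ofReal_mul]
      have e : sg false = -1 := by simp [sg]
      rw [e] at hd
      linarith

theorem DX_bd (b : Bool) : DX b ∩ TT.bd = Chd b 2 := by
  ext p
  constructor
  · rintro ⟨hp, hb⟩
    rw [collar_TT.bd] at hb
    obtain ⟨⟨v, l⟩, ⟨hv, hl⟩, rfl⟩ := hb
    have hl' : l = 0 := hl
    subst hl'
    exact ⟨v, (mem_DX_iff hv).1 hp, rfl⟩
  · rintro ⟨v, hv, rfl⟩
    exact ⟨(mem_DX_iff hv.1.1).2 hv, (mem_bd_iff hv.1.1 (by simp)).2 rfl⟩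

theorem norm_sq_eq (x : ℂ) : ‖x‖ ^ 2 = (th x ^ 2 + ph x ^ 2) / 2 := by
  rw [← Complex.normSq_eq_norm_sq, Complex.normSq_apply]
  unfold th ph
  ring

theorem t_OX : M_OX := by
  intro hTOR hHOL hLCU b hf
  refine ⟨⟨hf, fun p hp => hp.1, DX_bd b⟩, ?_⟩
  rintro ⟨σ, hc, hl, hn⟩
  have hpi := Real.pi_gt_three
  have hs2 : √2 ^ 2 = 2 := Real.sq_sqrt (by norm_num)
  have hs0 : 0 < √2 := by positivity
  have hs1 : √2 ≤ 3 / 2 := by nlinarith
  set a : ℝ → ℂ := fun t => ((-(sg b * t) / 2 : ℝ) : ℂ) + ((t / 2 : ℝ) : ℂ) * I with ha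
  have hac : Continuous a := by
    rw [ha]
    fun_prop
  have hre : ∀ t, (a t).re = -(sg b * t) / 2 := by
    intro t
    simp only [ha, Complex.add_re, Complex.ofReal_re, Complex.re_ofReal_mul, Complex.I_re]
    ring
  have him : ∀ t, (a t).im = t / 2 := by
    intro t
    simp only [ha, Complex.add_im, Complex.ofReal_im, Complex.im_ofReal_mul, Complex.I_im]
    ring
  have hN : ∀ t, ‖a t‖ ^ 2 = t ^ 2 / 2 := by
    intro t
    rw [← Complex.normSq_eq_norm_sq, Complex.normSq_apply, hre, him]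
    linear_combination (t ^ 2 / 4) * sg_mul_self b
  set A : Set ℝ := Icc (√2 / 5) (2 * Real.pi - √2 / 5) with hA
  -- distance to the lattice
  have hdist : ∀ t ∈ A, ∀ l ∈ Lam, 1 / 5 ≤ ‖a t - l‖ := by
    intro t ht l hlL
    obtain ⟨m, n, rfl⟩ := hlL
    have key : ∀ k : ℤ, √2 / 5 ≤ |t - 2 * Real.pi * k| := by
      intro k
      rcases le_or_gt k 0 with hk | hk
      · have hk' : (k : ℝ) ≤ 0 := by exact_mod_cast hk
        have : 2 * Real.pi * k ≤ 0 := by nlinarith
        exact le_abs.2 (Or.inl (by linarith [ht.1]))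
      · have hk' : (1 : ℝ) ≤ k := by exact_mod_cast hk
        have : 2 * Real.pi ≤ 2 * Real.pi * k := by nlinarith
        exact le_abs.2 (Or.inr (by linarith [ht.2]))
    have hsq : (1 / 5 : ℝ) ^ 2 ≤ ‖a t - (((Real.pi * (m - n) : ℝ) : ℂ) +
        ((Real.pi * (m + n) : ℝ) : ℂ) * I)‖ ^ 2 := by
      rw [← Complex.normSq_eq_norm_sq, Complex.normSq_apply]
      simp only [Complex.sub_re, Complex.sub_im, Complex.add_re, Complex.add_im, Complex.ofReal_re,
        Complex.ofReal_im, Complex.re_ofReal_mul, Complex.im_ofReal_mul, Complex.I_re, Complex.I_im,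
        hre, him]
      cases b with
      | true =>
        have h1 := pow_le_pow_left₀ (by positivity) (key n) 2
        rw [sq_abs] at h1
        have e : sg true = 1 := by simp [sg]
        rw [e]
        nlinarith [sq_nonneg (2 * Real.pi * (m : ℝ))]
      | false =>
        have h1 := pow_le_pow_left₀ (by positivity) (key m) 2
        rw [sq_abs] at h1
        have e : sg false = -1 := by simp [sg]
        rw [e]
        nlinarith [sq_nonneg (2 * Real.pi * (n : ℝ))]
    exact (abs_le_of_sq_le_sq' hsq (norm_nonneg _)).2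
  have hHT : ∀ t ∈ A, tor (a t) ∈ HT := fun t ht => (hHOL.1 _).2 (hdist t ht)
  have hmem : ∀ t ∈ A, tor (a t) ∈ DX b ∩ HT := by
    intro t ht
    refine ⟨⟨mem_VT_of_HT (hHT t ht) b, ?_⟩, hHT t ht⟩
    cases b with
    | true =>
      rw [if_pos rfl]
      refine arg_tor_fst ⟨by linarith, by linarith⟩ ?_
      have e : sg true = 1 := by simp [sg]
      unfold th
      rw [hre, him, e]
      ring
    | false =>
      rw [if_neg (by simp)]
      refine arg_tor_snd ⟨by linarith, by linarith⟩ ?_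
      have e : sg false = -1 := by simp [sg]
      unfold ph
      rw [hre, him, e]
      ring
  have htc := hTOR.2.1
  have hξ : ContinuousOn (fun t => σ (tor (a t))) A :=
    hc.comp (htc.comp hac).continuousOn hmem
  obtain ⟨-, h⟩ := hLCU ℝ A isPreconnected_Icc
  obtain ⟨c, hcL, h'⟩ := h (fun t => σ (tor (a t))) a hξ hac.continuousOn
    fun t ht => hl _ (hmem t ht)
  have hbdm : ∀ t l, l ∈ Lam → ‖a t - l‖ = 1 / 5 → tor (a t) ∈ TT.bd := fun t l hlL h1 =>
    (hHOL.2.1 _).2 ⟨l, hlL, h1⟩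
  have hA1 : √2 / 5 ∈ A := ⟨le_rfl, by linarith⟩
  have hA2 : 2 * Real.pi - √2 / 5 ∈ A := ⟨by linarith, le_rfl⟩
  have hnorm : ∀ z : ℂ, ‖z‖ ^ 2 = (1 / 5) ^ 2 → ‖z‖ = 1 / 5 := fun z hz => by
    nlinarith [norm_nonneg z]
  have n1 : ‖a (√2 / 5)‖ = 1 / 5 := by
    apply hnorm
    rw [hN]
    nlinarith
  have b1 : tor (a (√2 / 5)) ∈ TT.bd := by
    refine hbdm _ 0 hTOR.2.2.2.1 ?_
    rw [sub_zero]
    exact n1
  have b2 : tor (a (2 * Real.pi - √2 / 5)) ∈ TT.bd := by
    cases b with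
    | true =>
      refine hbdm _ (((Real.pi * ((0 : ℤ) - (1 : ℤ)) : ℝ) : ℂ) +
        ((Real.pi * ((0 : ℤ) + (1 : ℤ)) : ℝ) : ℂ) * I) ⟨0, 1, rfl⟩ ?_
      apply hnorm
      rw [← Complex.normSq_eq_norm_sq, Complex.normSq_apply]
      simp only [Complex.sub_re, Complex.sub_im, Complex.add_re, Complex.add_im, Complex.ofReal_re,
        Complex.ofReal_im, Complex.re_ofReal_mul, Complex.im_ofReal_mul, Complex.I_re, Complex.I_im,
        hre, him]
      have e : sg true = 1 := by simp [sg]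
      rw [e]
      push_cast
      nlinarith
    | false =>
      refine hbdm _ (((Real.pi * ((1 : ℤ) - (0 : ℤ)) : ℝ) : ℂ) +
        ((Real.pi * ((1 : ℤ) + (0 : ℤ)) : ℝ) : ℂ) * I) ⟨1, 0, rfl⟩ ?_
      apply hnorm
      rw [← Complex.normSq_eq_norm_sq, Complex.normSq_apply]
      simp only [Complex.sub_re, Complex.sub_im, Complex.add_re, Complex.add_im, Complex.ofReal_re,
        Complex.ofReal_im, Complex.re_ofReal_mul, Complex.im_ofReal_mul, Complex.I_re, Complex.I_im,
        hre, him]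
      have e : sg false = -1 := by simp [sg]
      rw [e]
      push_cast
      nlinarith
  have k1 := hn _ (hmem _ hA1) b1
  have k2 := hn _ (hmem _ hA2) b2
  rw [h' _ hA1] at k1
  rw [h' _ hA2] at k2
  have hc0 : c = 0 := by
    by_contra hne
    have h2 := hTOR.2.2.2.2.2.2.1 c hcL hne
    have h3 : ‖c‖ ≤ ‖a (√2 / 5) + c‖ + ‖a (√2 / 5)‖ := by
      have := norm_sub_le (a (√2 / 5) + c) (a (√2 / 5))
      rwa [add_sub_cancel_left] at this
    linarith
  rw [hc0, add_zero] at k2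
  have k3 := pow_le_pow_left₀ (norm_nonneg _) k2 2
  rw [hN] at k3
  nlinarith

end

end Pool.Agent.LIX.LO
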