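import Pool.Agent.LIX.StmtsO
import Pool.Agent.LIX.LO

/-!
# LIX, block O, module DL2: the third chord is a plane section
-/

set_option autoImplicit false

namespace Pool.Agent.LIX.O

theorem t_DL2 : M_DL2 := fun _ b v hv => LO.dl_two b v hv.2

end Pool.Agent.LIX.O
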