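import Pool.Agent.LIX.StmtsO

/-!
# LIX, module DTY: types and labels of the six disks
-/

set_option autoImplicit false

namespace Pool.Agent.LIX.O

open Set Metric Complex

namespace DTYx

lemma three (i : Fin 3) : i = 0 ∨ i = 1 ∨ i = 2 := by
  revert i
  decide

end DTYx

theorem t_DTY : M_DTY := by
  intro hM hX hSW hG hA
  refine ⟨?_, ?_, ?_⟩
  · intro i a
    rcases DTYx.three i with rfl | rfl | rfl
    · cases a
      · exact hSW.2 _ 2 hX
      · exact hM
    · cases a
      · exact hG (true, 0, false) _ (hA (true, 0, false))
      · exact hG (false, 0, false) _ (hA (false, 0, false))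
    · cases a
      · exact hG (false, 2, true) _ (hA (false, 2, true))
      · exact hX
  · intro i
    rcases DTYx.three i with rfl | rfl | rfl
    · change (![1, 0, 0] : Fin 3 → ℝ) = Pi.single 0 1
      funext k
      rcases DTYx.three k with rfl | rfl | rfl <;> simp
    · change (![0, 1, 0] : Fin 3 → ℝ) = Pi.single 1 1
      funext k
      rcases DTYx.three k with rfl | rfl | rfl <;> simp
    · change (![0, 0, 1] : Fin 3 → ℝ) = Pi.single 2 1
      funext k
      rcases DTYx.three k with rfl | rfl | rfl <;> simp
  · intro i
    rcases DTYx.three i with rfl | rfl | rfl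
    · change (![-1, 0, 0] : Fin 3 → ℝ) = - Pi.single 0 1
      funext k
      rcases DTYx.three k with rfl | rfl | rfl <;> simp
    · change (![0, -1, 0] : Fin 3 → ℝ) = - Pi.single 1 1
      funext k
      rcases DTYx.three k with rfl | rfl | rfl <;> simp
    · change (![0, 0, -1] : Fin 3 → ℝ) = - Pi.single 2 1
      funext k
      rcases DTYx.three k with rfl | rfl | rfl <;> simp

end Pool.Agent.LIX.O
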