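import Pool.Agent.LIX.StmtsO

/-!
# LIX, block O, module FAC: faces of the disk complex
-/

set_option autoImplicit false

namespace Pool.Agent.LIX.O

open Set Metric Complex

noncomputable section

open Classical in
theorem t_FAC : S_FAC := by
  intro Y _ T H D hD b
  have hV : ∀ i, (if b i = true then cls (D i true) else cls (D i false)) = cls (D i (b i)) := by
    intro i
    cases hb : b i
    · exact if_neg Bool.false_ne_true
    · exact if_pos rfl
  have hmem : ∀ v ∈ (Finset.univ.image fun i =>
      if b i = true then cls (D i true) else cls (D i false)), ∃ i, cls (D i (b i)) = v := by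
    intro v hv
    obtain ⟨i, -, hi⟩ := Finset.mem_image.1 hv
    exact ⟨i, (hV i).symm.trans hi⟩
  refine ⟨⟨_, Finset.mem_image_of_mem _ (Finset.mem_univ 0)⟩,
    fun v => if h : ∃ i, cls (D i (b i)) = v then D h.choose (b h.choose) else D 0 true, ?_, ?_⟩
  · intro v hv
    have h := hmem v hv
    show cls (if h : ∃ i, cls (D i (b i)) = v then D h.choose (b h.choose) else D 0 true) = v
    rw [dif_pos h]
    exact h.choose_spec
  · intro v hv w hw hne
    have h := hmem v hv
    have h' := hmem w hw
    show (if h : ∃ i, cls (D i (b i)) = v then D h.choose (b h.choose) else D 0 true).1 ∩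
      (if h : ∃ i, cls (D i (b i)) = w then D h.choose (b h.choose) else D 0 true).1 ⊆ T.skel
    rw [dif_pos h, dif_pos h']
    refine hD _ _ _ _ fun he => hne ?_
    rw [← h.choose_spec, ← h'.choose_spec, he]

end

end Pool.Agent.LIX.O
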