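import Pool.Agent.LIX.StmtsO

/-!
# LIX, block O, module HDD: the explicit conformal map of the half disk onto the disk
-/

set_option autoImplicit false

namespace Pool.Agent.LIX.O

open Set Metric Complex

namespace HDDx

/-- the numerator, without the factor `-I` -/
noncomputable def nu (z : ℂ) : ℂ := (1 + z) ^ 2 - I * (1 - z) ^ 2

/-- the denominator -/
noncomputable def de (z : ℂ) : ℂ := (1 + z) ^ 2 + I * (1 - z) ^ 2

theorem qh_eq (z : ℂ) : qh z = -I * nu z / de z := rfl

theorem de_re (z : ℂ) : (de z).re = (1 + z.re) ^ 2 - z.im ^ 2 + 2 * (1 - z.re) * z.im := by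
  simp only [de, sq, add_re, mul_re, sub_re, one_re, add_im, one_im, sub_im, mul_im, I_re, I_im]
  ring

theorem de_im (z : ℂ) : (de z).im = 2 * (1 + z.re) * z.im + (1 - z.re) ^ 2 - z.im ^ 2 := by
  simp only [de, sq, add_re, mul_re, sub_re, one_re, add_im, one_im, sub_im, mul_im, I_re, I_im]
  ring

theorem nu_re (z : ℂ) : (nu z).re = (1 + z.re) ^ 2 - z.im ^ 2 - 2 * (1 - z.re) * z.im := by
  simp only [nu, sq, add_re, mul_re, sub_re, one_re, add_im, one_im, sub_im, mul_im, I_re, I_im]
  ring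

theorem nu_im (z : ℂ) : (nu z).im = 2 * (1 + z.re) * z.im - (1 - z.re) ^ 2 + z.im ^ 2 := by
  simp only [nu, sq, add_re, mul_re, sub_re, one_re, add_im, one_im, sub_im, mul_im, I_re, I_im]
  ring

theorem nsq_sub (z : ℂ) : normSq (de z) - normSq (nu z) = 16 * (1 - normSq z) * z.im := by
  rw [normSq_apply, normSq_apply, normSq_apply, de_re, de_im, nu_re, nu_im]
  ring

theorem nsq_le {z : ℂ} (hz : z ∈ HDisk) : normSq z ≤ 1 := by
  rw [normSq_eq_norm_sq]
  nlinarith [norm_nonneg z, hz.1]

theorem nu_le_de {z : ℂ} (hz : z ∈ HDisk) : normSq (nu z) ≤ normSq (de z) := by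
  have h1 := nsq_sub z
  have h2 := mul_nonneg (sub_nonneg.2 (nsq_le hz)) hz.2
  linarith

theorem de_ne {z : ℂ} (hz : z ∈ HDisk) : de z ≠ 0 := by
  intro h
  have h1 := nu_le_de hz
  rw [h, map_zero] at h1
  have h2 : nu z = 0 := normSq_eq_zero.1 (le_antisymm h1 (normSq_nonneg _))
  have h3 : (1 + z) ^ 2 = 0 := by
    have : (1 + z) ^ 2 = (de z + nu z) / 2 := by
      rw [de, nu]
      ring
    rw [this, h, h2]
    simp
  have h4 : I * (1 - z) ^ 2 = 0 := by
    have : I * (1 - z) ^ 2 = (de z - nu z) / 2 := by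
      rw [de, nu]
      ring
    rw [this, h, h2]
    simp
  have h5 : 1 + z = 0 := by simpa using h3
  have h6 : 1 - z = 0 := by simpa using h4
  have h7 : (2 : ℂ) = 0 := by linear_combination h5 + h6
  norm_num at h7

theorem norm_qh (z : ℂ) : ‖qh z‖ = ‖nu z‖ / ‖de z‖ := by
  rw [qh_eq, norm_div, norm_mul, norm_neg, norm_I, one_mul]

theorem norm_qh_le {z : ℂ} (hz : z ∈ HDisk) : ‖qh z‖ ≤ 1 := by
  have h1 : 0 < ‖de z‖ := norm_pos_iff.2 (de_ne hz)
  rw [norm_qh, div_le_one h1]
  have h2 := nu_le_de hz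
  rw [normSq_eq_norm_sq, normSq_eq_norm_sq] at h2
  exact (sq_le_sq₀ (norm_nonneg _) (norm_nonneg _)).1 h2

theorem norm_qh_eq {z : ℂ} (hz : z ∈ HDisk) : ‖qh z‖ = 1 ↔ ‖z‖ = 1 ∨ z.im = 0 := by
  have h1 : 0 < ‖de z‖ := norm_pos_iff.2 (de_ne hz)
  have h2 := nsq_sub z
  rw [norm_qh, div_eq_one_iff_eq h1.ne', ← sq_eq_sq₀ (norm_nonneg _) (norm_nonneg _),
    ← normSq_eq_norm_sq, ← normSq_eq_norm_sq]
  constructor
  · intro h
    rw [h, sub_self] at h2
    rcases mul_eq_zero.1 h2.symm with h3 | h3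
    · left
      have h4 : normSq z = 1 := by linarith
      rw [normSq_eq_norm_sq] at h4
      nlinarith [norm_nonneg z]
    · exact Or.inr h3
  · rintro (h | h)
    · have h4 : normSq z = 1 := by rw [normSq_eq_norm_sq, h]; norm_num
      rw [h4] at h2
      linarith
    · rw [h] at h2
      linarith

theorem re_qh {z : ℂ} (hz : z ∈ HDisk) :
    (qh z).re * normSq (de z) = 8 * z.im ^ 2 - 2 * (1 - normSq z) ^ 2 := by
  have h1 : qh z * de z = -I * nu z := by
    rw [qh_eq, div_mul_cancel₀ _ (de_ne hz)]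
  have h2 : qh z * (normSq (de z) : ℂ) = -I * nu z * (starRingEnd ℂ) (de z) := by
    rw [← mul_conj, ← mul_assoc, h1]
  have h3 := congrArg Complex.re h2
  rw [re_mul_ofReal] at h3
  rw [h3]
  simp only [mul_re, neg_re, I_re, neg_im, I_im, mul_im, conj_re, conj_im, de_re, de_im, nu_re,
    nu_im, normSq_apply]
  ring

end HDDx

open HDDx

theorem t_HDD : S_HDD := by
  refine ⟨?_, ?_, ?_, ?_, ?_⟩
  · have h1 : ContinuousOn (fun z => -I * nu z / de z) HDisk := by
      refine ContinuousOn.div ?_ ?_ fun z hz => de_ne hz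
      · unfold nu
        fun_prop
      · unfold de
        fun_prop
    exact h1
  · intro z hz w hw h
    rw [qh_eq, qh_eq, div_eq_div_iff (de_ne hz) (de_ne hw)] at h
    have h1 : nu z * de w = nu w * de z := by
      have h2 : -I * (nu z * de w - nu w * de z) = 0 := by linear_combination h
      rcases mul_eq_zero.1 h2 with h3 | h3
      · exact absurd h3 (neg_ne_zero.2 I_ne_zero)
      · exact sub_eq_zero.1 h3
    have h2 : ((1 + z) * (1 - w)) ^ 2 = ((1 + w) * (1 - z)) ^ 2 := by
      have h3 : 2 * I * (((1 + z) * (1 - w)) ^ 2 - ((1 + w) * (1 - z)) ^ 2) = 0 := by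
        unfold nu de at h1
        linear_combination h1
      rcases mul_eq_zero.1 h3 with h4 | h4
      · exact absurd h4 (by simp)
      · exact sub_eq_zero.1 h4
    rcases sq_eq_sq_iff_eq_or_eq_neg.1 h2 with h3 | h3
    · linear_combination h3 / 2
    · have h4 : z * w = 1 := by linear_combination -h3 / 2
      have h5 : ‖z‖ * ‖w‖ = 1 := by rw [← norm_mul, h4, norm_one]
      have h6 : ‖z‖ = 1 := by
        nlinarith [norm_nonneg z, norm_nonneg w, hz.1, hw.1]
      have h7 : w = (starRingEnd ℂ) z := by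
        have h8 : z * (starRingEnd ℂ) z = 1 := by
          rw [mul_conj, normSq_eq_norm_sq, h6]
          norm_num
        have hz0 : z ≠ 0 := by
          rintro rfl
          rw [zero_mul] at h4
          exact zero_ne_one h4
        exact mul_left_cancel₀ hz0 (h4.trans h8.symm)
      have h8 : w.im = -z.im := by rw [h7, conj_im]
      have h9 : z.im = 0 := by
        have := hz.2
        have := hw.2
        linarith
      apply Complex.ext
      · rw [h7, conj_re]
      · rw [h8, h9, neg_zero]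
  · intro z hz
    have hD : 0 < normSq (de z) := normSq_pos.2 (de_ne hz)
    have hre := re_qh hz
    refine ⟨norm_qh_le hz, norm_qh_eq hz, ?_, ?_, ?_⟩
    · intro h
      have h4 : normSq z = 1 := by rw [normSq_eq_norm_sq, h]; norm_num
      rw [h4] at hre
      by_contra h5
      have h6 := mul_neg_of_neg_of_pos (not_le.1 h5) hD
      nlinarith [sq_nonneg z.im]
    · intro h
      rw [h] at hre
      by_contra h5
      have h6 := mul_pos (not_le.1 h5) hD
      nlinarith [sq_nonneg (1 - normSq z)]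
    · intro h1 h2
      rw [h2, zero_mul] at hre
      rcases (norm_qh_eq hz).1 h1 with h3 | h3
      · refine ⟨h3, ?_⟩
        have h4 : normSq z = 1 := by rw [normSq_eq_norm_sq, h3]; norm_num
        rw [h4] at hre
        have h5 : z.im ^ 2 = 0 := by linarith
        exact pow_eq_zero_iff (two_ne_zero) |>.1 h5
      · refine ⟨?_, h3⟩
        rw [h3] at hre
        have h4 : (1 - normSq z) ^ 2 = 0 := by linarith
        have h5 : 1 - normSq z = 0 := pow_eq_zero_iff (two_ne_zero) |>.1 h4
        have h6 : normSq z = 1 := by linarith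
        rw [normSq_eq_norm_sq] at h6
        nlinarith [norm_nonneg z]
  · rw [qh]
    have h1 : (1 : ℂ) + 1 = 2 := by norm_num
    rw [h1, sub_self]
    have h2 : (2 : ℂ) ^ 2 + I * 0 ^ 2 ≠ 0 := by simp
    rw [div_eq_iff h2]
    ring
  · rw [qh]
    have h1 : (1 : ℂ) - -1 = 2 := by norm_num
    rw [h1, add_neg_cancel]
    have h2 : (0 : ℂ) ^ 2 + I * 2 ^ 2 ≠ 0 := by simp
    rw [div_eq_iff h2]
    ring

end Pool.Agent.LIX.O
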