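import Pool.Agent.LIX.StmtsO

/-!
# LIX, block O, module MAIN: the main theorem from the blocks
-/

set_option autoImplicit false

namespace Pool.Agent.LIX.O

open Set Metric Complex

theorem t_MAIN : M_MAIN := by
  intro hPFI hTR1 hTR4 hTR8 hMOD hG2 hOAS
  obtain ⟨f, g, hm⟩ := hMOD
  obtain ⟨hs, hc, hchi, hlen⟩ := hG2
  obtain ⟨hi, hw⟩ := hOAS
  obtain ⟨ps, pc, pchi, plen, pw, pi⟩ := hPFI
  have hd : Disjoint HT (∅ : Set (ℂ × ℂ)) := disjoint_empty _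
  obtain ⟨h1, h2, h3⟩ := hTR4 _ _ stdTet TT ∅ ∅ f g hm HT hs.sub hd hs.compact
  obtain ⟨h4, h5⟩ := hTR8 _ _ stdTet TT ∅ ∅ f g hm HT hs.sub hd
  exact ⟨PP.HT, g '' HT, ps, hTR1 _ _ stdTet TT ∅ ∅ f g hm HT hd hs, pc, h3 hc, pchi, h1 (-1) hchi,
    plen, h2.trans hlen, pw, h4.1 hw, pi, (h5 3).1 hi⟩

end Pool.Agent.LIX.O
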