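import Pool.Agent.LIX.StmtsO

/-!
# LIX, block O, module OAS: the local index of the torus is 3
-/

set_option autoImplicit false

namespace Pool.Agent.LIX.O

open Set Metric Complex

namespace OASx

theorem isCE_of_ty {D : Set (ℂ × ℂ)} {τ : Ty} (h : HasTy D τ) : IsCE TT HT D := by
  cases τ with
  | M b => exact Or.inl h.1.1
  | P b => exact Or.inl h.1.1
  | X b j => exact Or.inr h.1.1
  | U b j => exact Or.inr h.1.1
  | D b j => exact Or.inr h.1.1

end OASx

open OASx

theorem t_OAS : M_OAS := by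
  intro hK34 hK6 hASM hLBM hG3 hDTY hOIN hFAC
  obtain ⟨lab, hlab, hhull⟩ := hLBM
  obtain ⟨hty, hpos, hneg⟩ := hDTY
  let D : Fin 3 → Bool → CE TT HT := fun i a => ⟨DO i a, isCE_of_ty (hty i a)⟩
  have hl : ∀ i a, lab (cls (D i a)) = lv (dty i a) := fun i a => hlab (D i a) _ (hty i a)
  have h34 := hK34 (Vtx TT HT) (diskCpx TT HT) 2 lab (fun i => cls (D i true))
    (fun i => cls (D i false)) hhull (fun i => (hl i true).trans (hpos i))
    (fun i => (hl i false).trans (hneg i))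
    (hFAC (ℂ × ℂ) TT HT D (fun i j a b hij => hOIN i j a b hij))
  obtain ⟨h0, h1⟩ := hASM (ℂ × ℂ) TT HT VT col collar_TT hG3
  exact ⟨(hK6 (ℂ × ℂ) TT HT).2 h34.1 h0 h1, Or.inr h34.2⟩

end Pool.Agent.LIX.O
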