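import Pool.Agent.LIX.StmtsO

/-!
# LIX, module O_OIN: non-opposite disks of the octahedron meet only in the skeleton
-/

set_option autoImplicit false

namespace Pool.Agent.LIX.O

open Set Metric Complex

noncomputable section

namespace OINx

theorem mem_skel_of_Skl {v : ℂ × ℝ} (hv : v ∈ Skl) : col (v, 0) ∈ TT.skel := by
  obtain ⟨i, hi⟩ := mem_iUnion.1 hv
  obtain ⟨i', hi'⟩ := mem_iUnion.1 hi
  refine mem_iUnion.2 ⟨i, mem_iUnion.2 ⟨i', ?_⟩⟩
  rw [collar_TT.edge]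
  exact ⟨v, hi', rfl⟩

theorem arg_col {v : ℂ × ℝ} {l : ℝ} (hv : v ∈ Sph) (hl : l ∈ Icc (0 : ℝ) 1) :
    arg (col (v, l)).1 = (1 + l) / 5 * (v.2 + v.1.re) ∧
    arg (col (v, l)).2 = (1 + l) / 5 * (v.2 - v.1.re) := by
  have n1 := nrm_colarg hv hl.1
  have h2 := hl.2
  have h3 : nrm (((1 + l) / 5 : ℝ) * v.1, (1 + l) / 5 * v.2) ≤ 1 / 2 := by rw [n1]; linarith
  rw [col_eq, arg_kap_fst h3, arg_kap_snd h3]
  simp only [Complex.re_ofReal_mul]
  constructor <;> ring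

theorem abs_le_one {v : ℂ × ℝ} (hv : v ∈ Sph) : |v.2| ≤ 1 ∧ |v.1.re| ≤ 1 := by
  have h := (mem_Sph_iff v).1 hv
  exact ⟨(abs_snd_le_nrm v).trans h.le, (abs_re_le_nrm v).trans h.le⟩

theorem re_nonneg {v : ℂ × ℝ} {l : ℝ} (hv : v ∈ Sph) (hl : l ∈ Icc (0 : ℝ) 1) :
    0 ≤ (col (v, l)).1.re := by
  have h1 := (arg_col hv hl).1
  obtain ⟨h2, h3⟩ := abs_le_one hv
  have h4 : |arg (col (v, l)).1| ≤ Real.pi / 2 := by
    rw [h1, abs_mul]
    have h5 : |v.2 + v.1.re| ≤ 2 := by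
      refine (abs_add_le _ _).trans ?_
      linarith
    have h6 : |(1 + l) / 5| ≤ 2 / 5 := by
      rw [abs_of_nonneg (by linarith [hl.1])]
      linarith [hl.2]
    have h7 := Real.pi_gt_three
    calc |(1 + l) / 5| * |v.2 + v.1.re| ≤ 2 / 5 * 2 :=
          mul_le_mul h6 h5 (abs_nonneg _) (by norm_num)
      _ ≤ Real.pi / 2 := by linarith
  exact Complex.abs_arg_le_pi_div_two_iff.1 h4

theorem arg_zero {z : ℂ} (h1 : z.im = 0) (h2 : 0 < z.re) : arg z = 0 := by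
  rw [Complex.arg_eq_zero_iff]
  exact ⟨h2.le, h1⟩

/-- The points of a graph disk. -/
theorem mem_GD (hADM : S_ADM) {J : S.Ct} {p : ℂ × ℂ} (h : p ∈ S.GD col J (et J)) :
    ∃ v ∈ S.Rg J.1 J.2.1 J.2.2, v ∈ Sph ∧ et J v ∈ Icc (0 : ℝ) 1 ∧ p = col (v, et J v) := by
  obtain ⟨v, hv, rfl⟩ := h
  obtain ⟨-, h2⟩ := hADM J
  obtain ⟨h3, h4, -⟩ := h2 v hv
  exact ⟨v, hv, hv.1.1, ⟨h3, by linarith⟩, rfl⟩

theorem mem_skel_of_dl (hCHE : S.S_CHE) (hADM : S_ADM) {J : S.Ct} {v : ℂ × ℝ}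
    (hv : v ∈ S.Rg J.1 J.2.1 J.2.2) (h0 : dl J.1 J.2.1 v = 0) : col (v, et J v) ∈ TT.skel := by
  obtain ⟨-, h2⟩ := hADM J
  rw [(h2 v hv).2.2.2 h0]
  exact mem_skel_of_Skl (hCHE.2 J.1 J.2.1 ⟨hv.1, h0⟩)

theorem fX_pt (hXPR : S_XPR) {p : ℂ × ℂ} (h : p ∈ fX '' HDisk) :
    p ∈ VT true ∧ p.1.im = 0 ∧ 0 < p.1.re := by
  obtain ⟨z, hz, rfl⟩ := h
  obtain ⟨h1, h2, h3, -⟩ := hXPR.2.1 z hz
  exact ⟨h1, h2, h3⟩

theorem sfX_pt (hSW1 : S_SW1) (hXPR : S_XPR) {p : ℂ × ℂ} (h : p ∈ sw '' (fX '' HDisk)) :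
    p ∈ VT false ∧ p.2.im = 0 ∧ 0 < p.2.re := by
  obtain ⟨q, hq, rfl⟩ := h
  obtain ⟨h1, h2, h3⟩ := fX_pt hXPR hq
  exact ⟨(hSW1.2.2.2.1 true q).2 h1, h2, h3⟩

theorem fX_col (hXPR : S_XPR) (hDL2 : S_DL2) {v : ℂ × ℝ} {l : ℝ} (hv : v ∈ Sph)
    (hl : l ∈ Icc (0 : ℝ) 1) (h : col (v, l) ∈ fX '' HDisk) : v ∈ ch true 2 := by
  obtain ⟨h1, h2, h3⟩ := fX_pt hXPR h
  have h4 := (arg_col hv hl).1
  rw [arg_zero h2 h3] at h4
  have h5 : v.2 + v.1.re = 0 := by
    rcases mul_eq_zero.1 h4.symm with h | h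
    · have := hl.1
      linarith
    · exact h
  have h6 : v ∈ Hem true := ⟨hv, (collar_TT.side true v hv l hl).1 h1⟩
  refine ⟨h6, ?_⟩
  rw [hDL2 true v h6]
  simp only [sg, if_true, one_mul]
  exact h5

theorem sfX_col (hSW1 : S_SW1) (hXPR : S_XPR) (hDL2 : S_DL2) {v : ℂ × ℝ} {l : ℝ} (hv : v ∈ Sph)
    (hl : l ∈ Icc (0 : ℝ) 1) (h : col (v, l) ∈ sw '' (fX '' HDisk)) : v ∈ ch false 2 := by
  obtain ⟨h1, h2, h3⟩ := sfX_pt hSW1 hXPR h
  have h4 := (arg_col hv hl).2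
  rw [arg_zero h2 h3] at h4
  have h5 : v.2 - v.1.re = 0 := by
    rcases mul_eq_zero.1 h4.symm with h | h
    · have := hl.1
      linarith
    · exact h
  have h6 : v ∈ Hem false := ⟨hv, (collar_TT.side false v hv l hl).1 h1⟩
  refine ⟨h6, ?_⟩
  rw [hDL2 false v h6]
  simp only [sg]
  have h7 : (if false = true then (1 : ℝ) else -1) = -1 := if_neg (by decide)
  rw [h7]
  linarith

theorem G_M (hMPR : S_MPR) (hADM : S_ADM) (J : S.Ct) :
    S.GD col J (et J) ∩ fM '' Disk ⊆ TT.skel := by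
  rintro p ⟨h1, z, hz, hzp⟩
  exfalso
  obtain ⟨v, -, hv, hl, rfl⟩ := mem_GD hADM h1
  have h2 := (hMPR.2 z hz).1
  rw [hzp] at h2
  exact absurd (re_nonneg hv hl) (not_le.2 h2)

theorem G_X (hCHE : S.S_CHE) (hTRC : S.S_TRC) (hXPR : S_XPR) (hDL2 : S_DL2) (hADM : S_ADM)
    (J : S.Ct) (hJ : S.cptk (some J) (some (true, 2)) = true) :
    S.GD col J (et J) ∩ fX '' HDisk ⊆ TT.skel := by
  rintro p ⟨h1, h2⟩
  obtain ⟨v, hvR, hv, hl, rfl⟩ := mem_GD hADM h1
  have h3 := fX_col hXPR hDL2 hv hl h2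
  exact mem_skel_of_dl hCHE hADM hvR (hTRC J (true, 2) hJ v hvR h3)

theorem G_Y (hCHE : S.S_CHE) (hTRC : S.S_TRC) (hSW1 : S_SW1) (hXPR : S_XPR) (hDL2 : S_DL2)
    (hADM : S_ADM) (J : S.Ct) (hJ : S.cptk (some J) (some (false, 2)) = true) :
    S.GD col J (et J) ∩ sw '' (fX '' HDisk) ⊆ TT.skel := by
  rintro p ⟨h1, h2⟩
  obtain ⟨v, hvR, hv, hl, rfl⟩ := mem_GD hADM h1
  have h3 := sfX_col hSW1 hXPR hDL2 hv hl h2
  exact mem_skel_of_dl hCHE hADM hvR (hTRC J (false, 2) hJ v hvR h3)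

theorem G_G (hCHE : S.S_CHE) (hXI : S.S_XI) (hADM : S_ADM) (J J' : S.Ct)
    (hJ : S.cpt2 (some J) (some J') = true) (hne : J ≠ J') :
    S.GD col J (et J) ∩ S.GD col J' (et J') ⊆ TT.skel := by
  rintro p ⟨h1, h2⟩
  obtain ⟨v, hvR, hv, hl, rfl⟩ := mem_GD hADM h1
  obtain ⟨v', hvR', hv', hl', he⟩ := mem_GD hADM h2
  have h3 := collar_TT.inj (show (v, et J v) ∈ Sph ×ˢ Icc 0 1 from ⟨hv, hl⟩)
    (show (v', et J' v') ∈ Sph ×ˢ Icc 0 1 from ⟨hv', hl'⟩) he
  have h4 := congrArg Prod.fst h3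
  have h5 := congrArg Prod.snd h3
  simp only at h4 h5
  subst h4
  rcases hXI J J' hJ hne v hvR hvR' with h6 | h6 | h6
  · exact mem_skel_of_dl hCHE hADM hvR h6.2
  · rw [h5]
    exact mem_skel_of_dl hCHE hADM hvR' h6.2
  · exfalso
    refine h6 ?_
    unfold et at h5
    linarith

theorem M_X (hMPR : S_MPR) (hXPR : S_XPR) : fM '' Disk ∩ fX '' HDisk ⊆ TT.skel := by
  rintro p ⟨⟨z, hz, hzp⟩, h2⟩
  exfalso
  have h3 := (hMPR.2 z hz).1
  rw [hzp] at h3
  exact absurd h3 (not_lt.2 (fX_pt hXPR h2).2.2.le)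

theorem X_Y (hSW1 : S_SW1) (hXPR : S_XPR) : fX '' HDisk ∩ sw '' (fX '' HDisk) ⊆ TT.skel := by
  rintro p ⟨h1, h2⟩
  exfalso
  obtain ⟨⟨hb, a1⟩, a2, a3⟩ := fX_pt hXPR h1
  obtain ⟨⟨-, b1⟩, b2, b3⟩ := sfX_pt hSW1 hXPR h2
  have h7 : (if false = true then (1 : ℝ) else -1) = -1 := if_neg (by decide)
  simp only [sg, if_true, one_mul] at a1
  simp only [sg, h7] at b1
  have hn : ‖p.1‖ = ‖p.2‖ := by linarith
  have hS : ‖p.1‖ ^ 2 + ‖p.2‖ ^ 2 = 1 := hb.1
  have e1 : p.1 = ((p.1.re : ℝ) : ℂ) := by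
    refine Complex.ext ?_ ?_
    · simp
    · simpa using a2
  have e2 : p.2 = ((p.2.re : ℝ) : ℂ) := by
    refine Complex.ext ?_ ?_
    · simp
    · simpa using b2
  have n1 : ‖p.1‖ = p.1.re := by
    rw [e1, Complex.norm_real, Real.norm_of_nonneg (by simpa using a3.le)]
    simp
  have n2 : ‖p.2‖ = p.2.re := by
    rw [e2, Complex.norm_real, Real.norm_of_nonneg (by simpa using b3.le)]
    simp
  have hc : Real.cos (Real.pi / 4) = √2 / 2 := Real.cos_pi_div_four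
  have hc2 : (√2 / 2) ^ 2 = 1 / 2 := by
    rw [div_pow, Real.sq_sqrt (by norm_num)]
    norm_num
  have r1 : p.1.re = √2 / 2 := by
    have h8 : p.1.re ^ 2 = (√2 / 2) ^ 2 := by
      rw [hc2, ← n1]
      rw [← hn] at hS
      linarith
    exact (sq_eq_sq₀ a3.le (by positivity)).1 h8
  have r2 : p.2.re = √2 / 2 := by
    rw [← n2, ← hn, n1, r1]
  refine hb.2 ⟨0, ?_, ?_⟩
  · change nrm 0 < 1 / 5
    unfold nrm
    simp
  · refine Prod.ext ?_ ?_
    · rw [e1, r1]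
      unfold kap
      simp only [Prod.fst_zero, Prod.snd_zero, Complex.zero_im, Complex.zero_re, sub_zero, add_zero,
        Complex.ofReal_zero, zero_mul, Complex.exp_zero, mul_one]
      rw [hc]
    · rw [e2, r2]
      unfold kap
      simp only [Prod.fst_zero, Prod.snd_zero, Complex.zero_im, Complex.zero_re, sub_zero, add_zero,
        Complex.ofReal_zero, zero_mul, Complex.exp_zero, mul_one]
      rw [hc]

end OINx

open OINx in
theorem t_OIN : M_OIN := by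
  intro hCHE hXI hTRC _ hSW1 hMPR hXPR hDL2 hADM
  have gm := G_M hMPR hADM
  have gx := G_X hCHE hTRC hXPR hDL2 hADM
  have gy := G_Y hCHE hTRC hSW1 hXPR hDL2 hADM
  have gg := G_G hCHE hXI hADM
  have mx := OINx.M_X hMPR hXPR
  have xy := OINx.X_Y hSW1 hXPR
  have key : ∀ i j a b, i < j → DO i a ∩ DO j b ⊆ TT.skel := by
    intro i j a b hij
    fin_cases i <;> fin_cases j
    · exact absurd hij (by decide)
    · cases a <;> cases b
      · change sw '' (fX '' HDisk) ∩ S.GD col (true, 0, false) (et (true, 0, false)) ⊆ TT.skel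
        rw [inter_comm]
        exact gy _ (by decide)
      · change sw '' (fX '' HDisk) ∩ S.GD col (false, 0, false) (et (false, 0, false)) ⊆ TT.skel
        rw [inter_comm]
        exact gy _ (by decide)
      · change fM '' Disk ∩ S.GD col (true, 0, false) (et (true, 0, false)) ⊆ TT.skel
        rw [inter_comm]
        exact gm _
      · change fM '' Disk ∩ S.GD col (false, 0, false) (et (false, 0, false)) ⊆ TT.skel
        rw [inter_comm]
        exact gm _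
    · cases a <;> cases b
      · change sw '' (fX '' HDisk) ∩ S.GD col (false, 2, true) (et (false, 2, true)) ⊆ TT.skel
        rw [inter_comm]
        exact gy _ (by decide)
      · change sw '' (fX '' HDisk) ∩ fX '' HDisk ⊆ TT.skel
        rw [inter_comm]
        exact xy
      · change fM '' Disk ∩ S.GD col (false, 2, true) (et (false, 2, true)) ⊆ TT.skel
        rw [inter_comm]
        exact gm _
      · exact mx
    · exact absurd hij (by decide)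
    · exact absurd hij (by decide)
    · cases a <;> cases b
      · exact gg (true, 0, false) (false, 2, true) (by decide) (by decide)
      · exact gx (true, 0, false) (by decide)
      · exact gg (false, 0, false) (false, 2, true) (by decide) (by decide)
      · exact gx (false, 0, false) (by decide)
    · exact absurd hij (by decide)
    · exact absurd hij (by decide)
    · exact absurd hij (by decide)
  intro i j a b hij
  rcases lt_or_gt_of_ne hij with h | h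
  · exact key i j a b h
  · rw [inter_comm]
    exact key j i b a h

end

end Pool.Agent.LIX.O
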