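import Pool.Agent.LIX.StmtsO

/-!
# LIX, block O, module PSC: radial cut-off and the coordinates of the 3-sphere
-/

set_option autoImplicit false

namespace Pool.Agent.LIX.O

open Set Metric Complex

noncomputable section

namespace PSCx

theorem sqle {a b : ℝ} (h : a ^ 2 ≤ b ^ 2) (hb : 0 ≤ b) : a ≤ b := (abs_le_of_sq_le_sq' h hb).2

theorem fx_nonneg (s : ℝ) : 0 ≤ fx s := Real.sqrt_nonneg _

theorem fx_sq {s : ℝ} (hs : s ∈ Icc (-1 : ℝ) 1) : fx s ^ 2 = 2 / 25 - (s / 1000) ^ 2 := by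
  apply Real.sq_sqrt
  obtain ⟨h1, h2⟩ := hs
  nlinarith

theorem fx_le (s : ℝ) : fx s ≤ 1 / 2 := by
  apply Real.sqrt_le_iff.2
  refine ⟨by norm_num, ?_⟩
  nlinarith [sq_nonneg (s / 1000)]

theorem Yc_nonneg (s : ℝ) (w : ℂ) : 0 ≤ Yc s w := Real.sqrt_nonneg _

theorem Yc_sq (s : ℝ) (w : ℂ) : Yc s w ^ 2 = max 0 (fx s ^ 2 - arg w ^ 2) / 2 := by
  apply Real.sq_sqrt
  have := le_max_left 0 (fx s ^ 2 - arg w ^ 2)
  positivity

theorem Yc_le {s : ℝ} (hs : s ∈ Icc (-1 : ℝ) 1) (w : ℂ) : Yc s w ≤ 1 / 5 := by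
  apply Real.sqrt_le_iff.2
  refine ⟨by norm_num, ?_⟩
  have h1 : max 0 (fx s ^ 2 - arg w ^ 2) ≤ 2 / 25 := by
    apply max_le (by norm_num)
    rw [fx_sq hs]
    nlinarith [sq_nonneg (s / 1000), sq_nonneg (arg w)]
  linarith

/-- `Y = 0` iff `fx ≤ |arg|` -/
theorem Yc_zero_iff (s : ℝ) (w : ℂ) : Yc s w = 0 ↔ fx s ≤ |arg w| := by
  have h1 := Yc_sq s w
  have h2 := fx_nonneg s
  constructor
  · intro h
    rw [h] at h1
    have h3 := le_max_right 0 (fx s ^ 2 - arg w ^ 2)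
    have h4 : fx s ^ 2 ≤ |arg w| ^ 2 := by
      rw [sq_abs]
      linarith
    exact sqle h4 (abs_nonneg _)
  · intro h
    have h3 : fx s ^ 2 ≤ arg w ^ 2 := by
      rw [← sq_abs (arg w)]
      exact pow_le_pow_left₀ h2 h 2
    rw [max_eq_left (by linarith)] at h1
    have h4 : Yc s w ^ 2 = 0 := by rw [h1]; norm_num
    exact pow_eq_zero_iff (two_ne_zero) |>.1 h4

theorem pi_bounds : (3 : ℝ) < Real.pi := Real.pi_gt_three

theorem cos_pos {s : ℝ} (hs : s ∈ Icc (-1 : ℝ) 1) (w : ℂ) : 0 < Real.cos (Real.pi / 4 + Yc s w) := by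
  have h1 := Yc_nonneg s w
  have h2 := Yc_le hs w
  have h3 := pi_bounds
  apply Real.cos_pos_of_mem_Ioo
  constructor <;> linarith

theorem cos_le {s : ℝ} (hs : s ∈ Icc (-1 : ℝ) 1) (w : ℂ) :
    Real.cos (Real.pi / 4 + Yc s w) ≤ Real.cos (Real.pi / 4) := by
  have h1 := Yc_nonneg s w
  have h2 := Yc_le hs w
  have h3 := pi_bounds
  apply Real.cos_le_cos_of_nonneg_of_le_pi <;> linarith

theorem norm_cw {s : ℝ} (hs : s ∈ Icc (-1 : ℝ) 1) (w : ℂ) :
    ‖cw s w‖ = Real.cos (Real.pi / 4 + Yc s w) * ‖w‖ := by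
  unfold cw
  rw [norm_mul, Complex.norm_real, Real.norm_eq_abs, abs_of_pos (cos_pos hs w)]

theorem arg_cw {s : ℝ} (hs : s ∈ Icc (-1 : ℝ) 1) (w : ℂ) : arg (cw s w) = arg w := by
  unfold cw
  exact arg_real_mul w (cos_pos hs w)

theorem cos_quarter_sq : Real.cos (Real.pi / 4) ^ 2 = 1 / 2 := by
  rw [Real.cos_pi_div_four, div_pow, Real.sq_sqrt (by norm_num)]
  norm_num

theorem cos_quarter_pos : 0 < Real.cos (Real.pi / 4) := by
  rw [Real.cos_pi_div_four]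
  positivity

/-- all facts on a point -/
structure Pt (s : ℝ) (w : ℂ) (y : ℝ) : Prop where
  y0 : 0 ≤ y
  y1 : y ≤ Real.pi / 4
  cos_eq : Real.cos (Real.pi / 4 + y) = ‖cw s w‖
  mem : ps s (cw s w) ∈ S3
  kin : kinv (ps s (cw s w)) = (⟨(s / 1000 - arg w) / 2, y⟩, (s / 1000 + arg w) / 2)
  r : ‖(ps s (cw s w)).1‖ = √(1 - ‖cw s w‖ ^ 2)
  rpos : 0 < √(1 - ‖cw s w‖ ^ 2)
  csq : ‖cw s w‖ ^ 2 ≤ 1 / 2

theorem cw_le {s : ℝ} (hs : s ∈ Icc (-1 : ℝ) 1) {w : ℂ} (hw : w ∈ Disk) :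
    ‖cw s w‖ ≤ Real.cos (Real.pi / 4) := by
  rw [norm_cw hs]
  have h1 := cos_pos hs w
  have h2 := cos_le hs w
  have h3 : ‖w‖ ≤ 1 := hw
  have h4 := norm_nonneg w
  nlinarith

theorem arg_ps {s : ℝ} (hs : s ∈ Icc (-1 : ℝ) 1) {c : ℂ} (hc : 0 < √(1 - ‖c‖ ^ 2)) :
    arg (ps s c).1 = s / 1000 := by
  unfold ps
  dsimp only
  rw [Complex.arg_real_mul _ hc, Complex.arg_exp_mul_I, toIocMod_eq_self]
  have h3 := pi_bounds
  obtain ⟨h1, h2⟩ := hs
  constructor <;> linarith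

theorem pt {s : ℝ} (hs : s ∈ Icc (-1 : ℝ) 1) {w : ℂ} (hw : w ∈ Disk) : ∃ y, Pt s w y := by
  have h1 := cw_le hs hw
  have h2 := cos_quarter_sq
  have h0 := norm_nonneg (cw s w)
  have hcsq : ‖cw s w‖ ^ 2 ≤ 1 / 2 := by
    rw [← h2]
    exact pow_le_pow_left₀ h0 h1 2
  have hrs : √(1 - ‖cw s w‖ ^ 2) ^ 2 = 1 - ‖cw s w‖ ^ 2 := Real.sq_sqrt (by linarith)
  have hr0 : 0 < √(1 - ‖cw s w‖ ^ 2) := Real.sqrt_pos.2 (by linarith)
  have hr : ‖(ps s (cw s w)).1‖ = √(1 - ‖cw s w‖ ^ 2) := by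
    unfold ps
    dsimp only
    rw [norm_mul, Complex.norm_exp_ofReal_mul_I, mul_one, Complex.norm_real, Real.norm_eq_abs,
      abs_of_pos hr0]
  set r := √(1 - ‖cw s w‖ ^ 2) with hrdef
  have hr1 : r ≤ 1 := by nlinarith [sq_nonneg ‖cw s w‖]
  refine ⟨Real.pi / 4 - Real.arccos r, ?_, ?_, ?_, ?_, ?_, hr, hr0, hcsq⟩
  · have h3 : Real.cos (Real.pi / 4) ≤ r := by
      have h4 : Real.cos (Real.pi / 4) ^ 2 ≤ r ^ 2 := by rw [h2, hrs]; linarith
      exact sqle h4 hr0.le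
    have h5 : Real.arccos r ≤ Real.arccos (Real.cos (Real.pi / 4)) := Real.arccos_le_arccos h3
    rw [Real.arccos_cos (by positivity) (by linarith [pi_bounds])] at h5
    linarith
  · have := Real.arccos_nonneg r
    linarith
  · have e1 : Real.pi / 4 + (Real.pi / 4 - Real.arccos r) = Real.pi / 2 - Real.arccos r := by ring
    rw [e1, Real.cos_pi_div_two_sub, Real.sin_arccos, hrs]
    have e2 : 1 - (1 - ‖cw s w‖ ^ 2) = ‖cw s w‖ ^ 2 := by ring
    rw [e2, Real.sqrt_sq h0]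
  · change ‖(ps s (cw s w)).1‖ ^ 2 + ‖cw s w‖ ^ 2 = 1
    rw [hr, hrs]
    ring
  · unfold kinv
    rw [arg_ps hs hr0, hr]
    have e3 : arg (ps s (cw s w)).2 = arg w := arg_cw hs w
    rw [e3]

theorem Pt.Yle {s : ℝ} (hs : s ∈ Icc (-1 : ℝ) 1) {w : ℂ} (hw : w ∈ Disk) {y : ℝ}
    (h : Pt s w y) : Yc s w ≤ y := by
  by_contra hcon
  have h1 : y < Yc s w := not_le.1 hcon
  have h2 := Yc_nonneg s w
  have h3 := Yc_le hs w
  have h4 := pi_bounds
  have h5 : Real.cos (Real.pi / 4 + Yc s w) < Real.cos (Real.pi / 4 + y) := by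
    apply Real.cos_lt_cos_of_nonneg_of_le_pi
    · have := h.y0
      positivity
    · linarith
    · linarith
  rw [h.cos_eq, norm_cw hs] at h5
  have h6 : ‖w‖ ≤ 1 := hw
  have h7 := cos_pos hs w
  nlinarith [norm_nonneg w]

theorem Pt.eq_iff {s : ℝ} (hs : s ∈ Icc (-1 : ℝ) 1) {w : ℂ} {y : ℝ}
    (h : Pt s w y) : y = Yc s w ↔ ‖w‖ = 1 := by
  have h7 := cos_pos hs w
  constructor
  · intro he
    have h1 := h.cos_eq
    rw [he, norm_cw hs] at h1
    have h2 : Real.cos (Real.pi / 4 + Yc s w) * (‖w‖ - 1) = 0 := by linarith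
    rcases mul_eq_zero.1 h2 with h3 | h3
    · exact absurd h3 h7.ne'
    · linarith
  · intro he
    have h1 := h.cos_eq
    rw [norm_cw hs, he, mul_one] at h1
    have h2 := Yc_nonneg s w
    have h3 := Yc_le hs w
    have h4 := pi_bounds
    have h5 := h.y0
    have h6 := h.y1
    have h8 := Real.injOn_cos (x₁ := Real.pi / 4 + y) (x₂ := Real.pi / 4 + Yc s w)
      ⟨by positivity, by linarith⟩ ⟨by positivity, by linarith⟩ h1
    linarith

theorem Pt.nrm_eq {s : ℝ} (hs : s ∈ Icc (-1 : ℝ) 1) {w : ℂ} {y : ℝ}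
    (h : Pt s w y) : nrm (kinv (ps s (cw s w))) ^ 2 = 1 / 25 + ((arg w ^ 2 - fx s ^ 2) / 2 + y ^ 2) := by
  rw [nrm_sq', h.kin, fx_sq hs]
  ring

theorem Pt.nrm_ge {s : ℝ} (hs : s ∈ Icc (-1 : ℝ) 1) {w : ℂ} (hw : w ∈ Disk) {y : ℝ}
    (h : Pt s w y) : 1 / 5 ≤ nrm (kinv (ps s (cw s w))) := by
  have h1 := h.nrm_eq hs
  have h2 := h.Yle hs hw
  have h3 := Yc_sq s w
  have h4 := le_max_right 0 (fx s ^ 2 - arg w ^ 2)
  have h5 := Yc_nonneg s w
  have h6 : (1 / 5 : ℝ) ^ 2 ≤ nrm (kinv (ps s (cw s w))) ^ 2 := by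
    rw [h1]
    nlinarith
  exact sqle h6 (nrm_nonneg _)

theorem Pt.body {s : ℝ} (hs : s ∈ Icc (-1 : ℝ) 1) {w : ℂ} (hw : w ∈ Disk) {y : ℝ}
    (h : Pt s w y) : ps s (cw s w) ∈ TT.body := by
  rw [TT_body_eq]
  refine ⟨h.mem, ?_⟩
  rintro ⟨-, h1⟩
  have h2 : nrm (kinv (ps s (cw s w))) < 1 / 5 := h1
  exact absurd (h.nrm_ge hs hw) (not_le.2 h2)

theorem Pt.le {s : ℝ} {w : ℂ} {y : ℝ} (h : Pt s w y) :
    ‖cw s w‖ ≤ √(1 - ‖cw s w‖ ^ 2) := by
  apply Real.le_sqrt_of_sq_le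
  have := h.csq
  linarith

theorem bd_iff {p : ℂ × ℂ} (hp : p ∈ S3) : p ∈ TT.bd ↔ nrm (kinv p) = 1 / 5 := by
  constructor
  · rintro ⟨v, hv, rfl⟩
    have hv' : nrm v = 1 / 5 := hv
    rw [kinv_kap (by rw [hv']; norm_num), hv']
  · intro h
    exact ⟨kinv p, h, kap_kinv hp⟩

theorem Pt.bd {s : ℝ} (hs : s ∈ Icc (-1 : ℝ) 1) {w : ℂ} (hw : w ∈ Disk) {y : ℝ}
    (h : Pt s w y) : ps s (cw s w) ∈ TT.bd ↔ ‖w‖ = 1 ∧ |arg w| ≤ fx s := by
  rw [bd_iff h.mem]
  have h1 := h.nrm_eq hs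
  have h2 := h.Yle hs hw
  have h3 := Yc_sq s w
  have h4 := le_max_right 0 (fx s ^ 2 - arg w ^ 2)
  have h5 := Yc_nonneg s w
  constructor
  · intro he
    rw [he] at h1
    have h6 : y ^ 2 ≤ Yc s w ^ 2 := by linarith
    have h7 : y ≤ Yc s w := sqle h6 h5
    have h8 : y = Yc s w := le_antisymm h7 h2
    refine ⟨(h.eq_iff hs).1 h8, ?_⟩
    have h9 : |arg w| ^ 2 ≤ fx s ^ 2 := by
      rw [sq_abs]
      nlinarith [sq_nonneg y]
    exact sqle h9 (fx_nonneg s)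
  · rintro ⟨he, ha⟩
    have h8 : y = Yc s w := (h.eq_iff hs).2 he
    have h9 : arg w ^ 2 ≤ fx s ^ 2 := by
      rw [← sq_abs (arg w)]
      exact pow_le_pow_left₀ (abs_nonneg _) ha 2
    rw [max_eq_right (by linarith)] at h3
    rw [h8, h3] at h1
    have h10 : nrm (kinv (ps s (cw s w))) ^ 2 = (1 / 5) ^ 2 := by
      rw [h1]
      ring
    exact (sq_eq_sq₀ (nrm_nonneg _) (by norm_num)).1 h10

theorem Pt.ht {s : ℝ} (hs : s ∈ Icc (-1 : ℝ) 1) {w : ℂ} (hw : w ∈ Disk) {y : ℝ}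
    (h : Pt s w y) : ps s (cw s w) ∈ HT ↔ ‖w‖ = 1 ∧ fx s ≤ |arg w| := by
  have hbody := h.body hs hw
  have h1 : ps s (cw s w) ∈ HT ↔ √(1 - ‖cw s w‖ ^ 2) = ‖cw s w‖ := by
    constructor
    · rintro ⟨-, h2⟩
      rw [h.r] at h2
      exact h2
    · intro h2
      refine ⟨hbody, ?_⟩
      rw [h.r]
      exact h2
  rw [h1]
  have h0 := norm_nonneg (cw s w)
  have hcsq := h.csq
  have hrs : √(1 - ‖cw s w‖ ^ 2) ^ 2 = 1 - ‖cw s w‖ ^ 2 := Real.sq_sqrt (by linarith)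
  have h2 := cos_quarter_sq
  have h3 := cos_quarter_pos
  have h4 := cos_pos hs w
  have h5 := cos_le hs w
  have h6 : ‖w‖ ≤ 1 := hw
  constructor
  · intro he
    rw [he] at hrs
    have h7 : ‖cw s w‖ ^ 2 = Real.cos (Real.pi / 4) ^ 2 := by rw [h2]; linarith
    have h8 : ‖cw s w‖ = Real.cos (Real.pi / 4) := (sq_eq_sq₀ h0 h3.le).1 h7
    rw [norm_cw hs] at h8
    have h9 : ‖w‖ = 1 := by
      by_contra hcon
      have h10 : ‖w‖ < 1 := lt_of_le_of_ne h6 hcon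
      nlinarith
    rw [h9, mul_one] at h8
    refine ⟨h9, (Yc_zero_iff s w).1 ?_⟩
    have h10 := Yc_nonneg s w
    have h11 := Yc_le hs w
    have h12 := pi_bounds
    have h13 := Real.injOn_cos (x₁ := Real.pi / 4 + Yc s w) (x₂ := Real.pi / 4)
      ⟨by positivity, by linarith⟩ ⟨by positivity, by linarith⟩ h8
    linarith
  · rintro ⟨h9, h10⟩
    have h11 := (Yc_zero_iff s w).2 h10
    have h12 : ‖cw s w‖ = Real.cos (Real.pi / 4) := by
      rw [norm_cw hs, h9, h11, add_zero, mul_one]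
    have h13 : √(1 - ‖cw s w‖ ^ 2) ^ 2 = ‖cw s w‖ ^ 2 := by
      rw [hrs, h12, h2]
      norm_num
    exact (sq_eq_sq₀ (Real.sqrt_nonneg _) h0).1 h13

theorem Pt.last {s : ℝ} {w : ℂ} {y : ℝ}
    (h : Pt s w y) (hb : ps s (cw s w) ∈ TT.bd) :
    ∃ v ∈ Hem true, v.2 + v.1.re = s / 200 ∧ ps s (cw s w) = col (v, 0) := by
  rw [bd_iff h.mem] at hb
  refine ⟨(((5 : ℝ) : ℂ) * (kinv (ps s (cw s w))).1, 5 * (kinv (ps s (cw s w))).2), ⟨?_, ?_⟩, ?_, ?_⟩
  · rw [mem_Sph_iff, nrm_smul (by norm_num), hb]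
    norm_num
  · rw [h.kin]
    have h1 := h.y0
    simp only [sg, if_true, one_mul, im_ofReal_mul]
    positivity
  · rw [h.kin]
    simp only [re_ofReal_mul]
    ring
  · rw [col_eq]
    have h2 : ((((1 + 0) / 5 : ℝ) : ℂ) * (((5 : ℝ) : ℂ) * (kinv (ps s (cw s w))).1),
        (1 + 0) / 5 * (5 * (kinv (ps s (cw s w))).2)) = kinv (ps s (cw s w)) := by
      refine Prod.ext ?_ ?_
      · push_cast
        ring
      · ring
    rw [h2, kap_kinv h.mem]

/-! ### Continuity -/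

theorem continuous_fx : Continuous fx := by
  unfold fx
  fun_prop

theorem continuous_cw : Continuous (fun x : ℝ × ℂ => cw x.1 x.2) := by
  rw [continuous_iff_continuousAt]
  rintro ⟨s, w⟩
  by_cases hw : w ∈ slitPlane
  · have h0 : ContinuousAt arg ((s, w) : ℝ × ℂ).2 := continuousAt_arg hw
    have h1 : ContinuousAt (fun x : ℝ × ℂ => arg x.2) (s, w) := h0.comp continuousAt_snd
    have h2 : ContinuousAt (fun x : ℝ × ℂ => fx x.1) (s, w) :=
      (continuous_fx.comp continuous_fst).continuousAt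
    have h3 : ContinuousAt (fun x : ℝ × ℂ => Yc x.1 x.2) (s, w) := by
      unfold Yc
      exact (((continuousAt_const.max ((h2.pow 2).sub (h1.pow 2))).div_const 2)).sqrt
    have h4 : ContinuousAt (fun x : ℝ × ℂ => Real.cos (Real.pi / 4 + Yc x.1 x.2)) (s, w) :=
      Real.continuous_cos.continuousAt.comp (continuousAt_const.add h3)
    unfold cw
    exact (Complex.continuous_ofReal.continuousAt.comp h4).mul continuousAt_snd
  · by_cases hw0 : w = 0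
    · subst hw0
      have h1 : cw s 0 = 0 := by
        unfold cw
        rw [mul_zero]
      unfold ContinuousAt
      dsimp only
      rw [h1]
      have h2 : Filter.Tendsto (fun x : ℝ × ℂ => ‖x.2‖) (nhds (s, 0)) (nhds 0) := by
        have h3 : Continuous (fun x : ℝ × ℂ => ‖x.2‖) := by fun_prop
        have h4 := h3.tendsto (s, 0)
        simpa using h4
      refine squeeze_zero_norm (fun x => ?_) h2
      unfold cw
      rw [norm_mul, Complex.norm_real, Real.norm_eq_abs]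
      have h3 := Real.abs_cos_le_one (Real.pi / 4 + Yc x.1 x.2)
      exact mul_le_of_le_one_left (norm_nonneg _) h3
    · have hre : w.re < 0 := by
        rw [Complex.mem_slitPlane_iff] at hw
        push Not at hw
        refine lt_of_le_of_ne hw.1 ?_
        intro h
        exact hw0 (Complex.ext h hw.2)
      have h1 : ∀ x : ℝ × ℂ, x.2.re < 0 → cw x.1 x.2 = ((Real.cos (Real.pi / 4) : ℝ) : ℂ) * x.2 := by
        intro x hx
        have h2 : Yc x.1 x.2 = 0 := by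
          rw [Yc_zero_iff]
          by_contra hcon
          have h3 : |arg x.2| < fx x.1 := not_le.1 hcon
          have h4 := fx_le x.1
          have h5 : |arg x.2| ≤ Real.pi / 2 := by
            have := pi_bounds
            linarith
          rw [Complex.abs_arg_le_pi_div_two_iff] at h5
          linarith
        unfold cw
        rw [h2, add_zero]
      have h2 : ∀ᶠ x : ℝ × ℂ in nhds (s, w), x.2.re < 0 := by
        have h3 : IsOpen {x : ℝ × ℂ | x.2.re < 0} :=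
          isOpen_lt (Complex.continuous_re.comp continuous_snd) continuous_const
        exact h3.mem_nhds hre
      have h3 : ContinuousAt (fun x : ℝ × ℂ => ((Real.cos (Real.pi / 4) : ℝ) : ℂ) * x.2) (s, w) := by
        fun_prop
      refine h3.congr ?_
      filter_upwards [h2] with x hx
      exact (h1 x hx).symm

theorem continuous_ps : Continuous (fun x : ℝ × ℂ => ps x.1 x.2) := by
  unfold ps
  fun_prop

theorem continuous_pscw : Continuous (fun x : ℝ × ℂ => ps x.1 (cw x.1 x.2)) :=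
  Continuous.comp (g := fun x : ℝ × ℂ => ps x.1 x.2) (f := fun x : ℝ × ℂ => (x.1, cw x.1 x.2))
    continuous_ps (continuous_fst.prodMk continuous_cw)

theorem Pt.vt {s : ℝ} (hs : s ∈ Icc (-1 : ℝ) 1) {w : ℂ} (hw : w ∈ Disk) {y : ℝ}
    (h : Pt s w y) : ps s (cw s w) ∈ VT true := by
  have h1 : ‖(ps s (cw s w)).2‖ ≤ ‖(ps s (cw s w)).1‖ := by
    rw [h.r]
    exact h.le
  have h2 : 0 ≤ sg true * (‖(ps s (cw s w)).1‖ - ‖(ps s (cw s w)).2‖) := by
    simp only [sg, if_true, one_mul]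
    linarith
  exact ⟨h.body hs hw, h2⟩

end PSCx

open PSCx in
theorem t_PSC : S_PSC := by
  refine ⟨?_, ?_, ?_⟩
  · exact continuous_pscw.continuousOn
  · rintro ⟨s, w⟩ ⟨hs, hw⟩ ⟨s', w'⟩ ⟨hs', hw'⟩ h
    dsimp only at hs hw hs' hw' h
    obtain ⟨y, hy⟩ := pt hs hw
    obtain ⟨y', hy'⟩ := pt hs' hw'
    have h1 : cw s w = cw s' w' := congrArg Prod.snd h
    have h2 : s = s' := by
      have h3 : arg (ps s (cw s w)).1 = arg (ps s' (cw s' w')).1 :=
        congrArg (fun p : ℂ × ℂ => arg p.1) h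
      rw [arg_ps hs hy.rpos, arg_ps hs' hy'.rpos] at h3
      linarith
    subst h2
    have h3 : arg w = arg w' := by
      rw [← arg_cw hs w, ← arg_cw hs w', h1]
    have h4 : Yc s w = Yc s w' := by
      unfold Yc
      rw [h3]
    have h5 : w = w' := by
      unfold cw at h1
      rw [h4] at h1
      exact mul_left_cancel₀ (Complex.ofReal_ne_zero.2 (cos_pos hs w').ne') h1
    rw [h5]
  · intro s hs w hw
    obtain ⟨y, hy⟩ := pt hs hw
    refine ⟨hy.vt hs hw, hy.bd hs hw, hy.ht hs hw, hy.last, ?_⟩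
    · intro h1 h2
      unfold cw
      rw [(Yc_zero_iff s w).2 h2, add_zero]

end

end Pool.Agent.LIX.O
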