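import Pool.Agent.LIX.StmtsO

/-!
# LIX, block O: the swap of the coordinates preserves the model
-/

set_option autoImplicit false

namespace Pool.Agent.LIX.O

open Set Metric Complex

noncomputable section

namespace SW1x

lemma rt_rt (v : ℂ × ℝ) : rt (rt v) = v := by
  simp [rt]

lemma sw_sw (p : ℂ × ℂ) : sw (sw p) = p := rfl

lemma nrm_rt (v : ℂ × ℝ) : nrm (rt v) = nrm v := by
  simp [nrm, rt]

lemma kap_rt (v : ℂ × ℝ) : kap (rt v) = sw (kap v) := by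
  simp only [kap, rt, sw, Complex.neg_im, Complex.neg_re, sub_neg_eq_add, ← sub_eq_add_neg]

lemma nml_rt (v : ℂ × ℝ) : rt (nml v) = nml (rt v) := by
  have h := nrm_rt v
  simp only [nml, h]
  simp [rt, neg_div]

lemma sg_not (b : Bool) : sg (!b) = - sg b := by
  cases b <;> simp [sg]

lemma mem_Sph_rt (v : ℂ × ℝ) : rt v ∈ Sph ↔ v ∈ Sph := by
  simp [Sph, rt]

lemma sw_mem_kap (A : Set (ℂ × ℝ)) (hA : ∀ v, v ∈ A → rt v ∈ A) (p : ℂ × ℂ) :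
    sw p ∈ kap '' A ↔ p ∈ kap '' A := by
  constructor
  · rintro ⟨v, hv, e⟩
    refine ⟨rt v, hA v hv, ?_⟩
    rw [kap_rt, e, sw_sw]
  · rintro ⟨v, hv, e⟩
    refine ⟨rt v, hA v hv, ?_⟩
    rw [kap_rt, e]

lemma sw_body (p : ℂ × ℂ) : sw p ∈ TT.body ↔ p ∈ TT.body := by
  have h1 : sw p ∈ S3 ↔ p ∈ S3 := by
    simp [S3, sw, add_comm]
  have h2 : sw p ∈ kap '' {v | nrm v < 1 / 5} ↔ p ∈ kap '' {v | nrm v < 1 / 5} :=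
    sw_mem_kap _ (fun v hv => by
      rw [Set.mem_ofPred_eq, nrm_rt]
      exact hv) p
  change (sw p ∈ S3 ∧ sw p ∉ kap '' {v | nrm v < 1 / 5}) ↔
    (p ∈ S3 ∧ p ∉ kap '' {v | nrm v < 1 / 5})
  rw [h1, h2]

lemma sw_bd (p : ℂ × ℂ) : sw p ∈ TT.bd ↔ p ∈ TT.bd :=
  sw_mem_kap {v | nrm v = 1 / 5} (fun v hv => by
      rw [Set.mem_ofPred_eq, nrm_rt]
      exact hv) p

lemma sw_HT (p : ℂ × ℂ) : sw p ∈ HT ↔ p ∈ HT := by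
  change (sw p ∈ TT.body ∧ ‖p.2‖ = ‖p.1‖) ↔ (p ∈ TT.body ∧ ‖p.1‖ = ‖p.2‖)
  rw [sw_body, eq_comm]

lemma sw_VT (b : Bool) (p : ℂ × ℂ) : sw p ∈ VT (!b) ↔ p ∈ VT b := by
  change (sw p ∈ TT.body ∧ 0 ≤ sg (!b) * (‖p.2‖ - ‖p.1‖)) ↔
    (p ∈ TT.body ∧ 0 ≤ sg b * (‖p.1‖ - ‖p.2‖))
  rw [sw_body, sg_not]
  have : - sg b * (‖p.2‖ - ‖p.1‖) = sg b * (‖p.1‖ - ‖p.2‖) := by ring
  rw [this]

lemma rt_hlx (k : ℝ) (v : ℂ × ℝ) (h : v ∈ hlx (1 / 2) k) : rt v ∈ hlx (-1 / 2) k := by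
  obtain ⟨u, hu, rfl⟩ := h
  refine ⟨u, hu, ?_⟩
  change nml _ = rt (nml _)
  rw [nml_rt]
  congr 1
  refine Prod.ext ?_ rfl
  change exp _ = - exp _
  rw [← Complex.exp_sub_pi_mul_I]
  congr 1
  push_cast
  ring

lemma rt_hlx' (k : ℝ) (v : ℂ × ℝ) (h : v ∈ hlx (-1 / 2) k) : rt v ∈ hlx (1 / 2) k := by
  obtain ⟨u, hu, rfl⟩ := h
  refine ⟨u, hu, ?_⟩
  change nml _ = rt (nml _)
  rw [nml_rt]
  congr 1
  refine Prod.ext ?_ rfl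
  change exp _ = - exp _
  rw [← Complex.exp_add_pi_mul_I]
  congr 1
  push_cast
  ring

lemma rt_bot (v : ℂ × ℝ) (h : v ∈ {v : ℂ × ℝ | v ∈ Sph ∧ v.1.re = 0 ∧ v.2 ≤ -2 * ‖v.1‖}) :
    rt v ∈ {v : ℂ × ℝ | v ∈ Sph ∧ v.1.re = 0 ∧ v.2 ≤ -2 * ‖v.1‖} := by
  obtain ⟨h1, h2, h3⟩ := h
  refine ⟨(mem_Sph_rt v).2 h1, ?_, ?_⟩
  · simpa [rt] using h2
  · simpa [rt] using h3

lemma rt_top (v : ℂ × ℝ) (h : v ∈ {v : ℂ × ℝ | v ∈ Sph ∧ v.1.re = 0 ∧ 2 * ‖v.1‖ ≤ v.2}) :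
    rt v ∈ {v : ℂ × ℝ | v ∈ Sph ∧ v.1.re = 0 ∧ 2 * ‖v.1‖ ≤ v.2} := by
  obtain ⟨h1, h2, h3⟩ := h
  refine ⟨(mem_Sph_rt v).2 h1, ?_, ?_⟩
  · simpa [rt] using h2
  · simpa [rt] using h3

lemma rt_pt (w v : ℂ × ℝ) (h : v ∈ ({nml w} : Set (ℂ × ℝ))) :
    rt v ∈ ({nml (rt w)} : Set (ℂ × ℝ)) := by
  rw [Set.mem_singleton_iff] at h ⊢
  rw [h, nml_rt]

lemma rt_Edg (i j : Fin 4) (v : ℂ × ℝ) (h : v ∈ Edg i j) :
    rt v ∈ Edg (Fin.rev i) (Fin.rev j) := by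
  fin_cases i <;> fin_cases j
  · exact rt_pt (I, -2) v h
  · exact rt_hlx _ v h
  · exact rt_hlx _ v h
  · exact rt_bot v h
  · exact rt_hlx _ v h
  · exact rt_pt (I, 2) v h
  · exact rt_top v h
  · exact rt_hlx' _ v h
  · exact rt_hlx _ v h
  · exact rt_top v h
  · have h1 : rt (-I, 2) = (I, 2) := by simp [rt]
    have := rt_pt (-I, 2) v h
    rw [h1] at this
    exact this
  · exact rt_hlx' _ v h
  · exact rt_bot v h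
  · exact rt_hlx' _ v h
  · exact rt_hlx' _ v h
  · have h1 : rt (-I, -2) = (I, -2) := by simp [rt]
    have := rt_pt (-I, -2) v h
    rw [h1] at this
    exact this

lemma sw_edge (i j : Fin 4) (p : ℂ × ℂ) (h : p ∈ TT.edge i j) :
    sw p ∈ TT.edge (Fin.rev i) (Fin.rev j) := by
  obtain ⟨v, hv, rfl⟩ := h
  refine ⟨rt v, rt_Edg i j v hv, ?_⟩
  change kap ((rt v).1 / 5, (rt v).2 / 5) = sw (kap (v.1 / 5, v.2 / 5))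
  rw [← kap_rt]
  congr 1
  simp [rt, neg_div]

lemma sw_skel' (p : ℂ × ℂ) (h : p ∈ TT.skel) : sw p ∈ TT.skel := by
  simp only [Cells.skel, Set.mem_iUnion] at h ⊢
  obtain ⟨i, j, h⟩ := h
  exact ⟨_, _, sw_edge i j p h⟩

lemma sw_skel (p : ℂ × ℂ) : sw p ∈ TT.skel ↔ p ∈ TT.skel :=
  ⟨fun h => by
    have := sw_skel' _ h
    rwa [sw_sw] at this, sw_skel' p⟩

lemma lon_rt (b : Bool) (v : ℂ × ℝ) : lon (!b) (rt v) = lon b v := by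
  unfold lon
  rw [sg_not]
  congr 2
  simp [rt]

lemma dl_rt (b : Bool) (j : Fin 3) (v : ℂ × ℝ) : dl (!b) j (rt v) = dl b j v := by
  unfold dl
  rw [lon_rt]
  simp [rt]

lemma Hem_rt (b : Bool) (v : ℂ × ℝ) : rt v ∈ Hem (!b) ↔ v ∈ Hem b := by
  change (rt v ∈ Sph ∧ 0 ≤ sg (!b) * (-v.1).im) ↔ (v ∈ Sph ∧ 0 ≤ sg b * v.1.im)
  rw [mem_Sph_rt, sg_not, Complex.neg_im, neg_mul_neg]

lemma ch_rt (b : Bool) (j : Fin 3) (v : ℂ × ℝ) : rt v ∈ ch (!b) j ↔ v ∈ ch b j := by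
  change (rt v ∈ Hem (!b) ∧ dl (!b) j (rt v) = 0) ↔ (v ∈ Hem b ∧ dl b j v = 0)
  rw [Hem_rt, dl_rt]

lemma col_rt (v : ℂ × ℝ) (l : ℝ) : col (rt v, l) = sw (col (v, l)) := by
  unfold col
  rw [← kap_rt]
  congr 1
  simp [rt]

lemma Chd_sw (b : Bool) (j : Fin 3) : sw '' Chd b j = Chd (!b) j := by
  ext p
  constructor
  · rintro ⟨_, ⟨v, hv, rfl⟩, rfl⟩
    exact ⟨rt v, (ch_rt b j v).2 hv, col_rt v 0⟩
  · rintro ⟨v, hv, rfl⟩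
    have h : rt v ∈ ch b j := by
      rw [← ch_rt, rt_rt]
      exact hv
    refine ⟨_, ⟨rt v, h, rfl⟩, ?_⟩
    change sw (col (rt v, 0)) = col (v, 0)
    rw [col_rt, sw_sw]

end SW1x

open SW1x in
theorem t_SW1 : S_SW1 :=
  ⟨kap_rt, col_rt, fun p => ⟨sw_body p, sw_bd p, sw_skel p, sw_HT p⟩, sw_VT, sw_edge,
    fun b j v => ⟨dl_rt b j v, Hem_rt b v, ch_rt b j v⟩, Chd_sw⟩

end

end Pool.Agent.LIX.O
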