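import Pool.Agent.LIX.StmtsO

/-!
# LIX, block O: the swap carries edge disks and types X (SW2)
-/

set_option autoImplicit false

namespace Pool.Agent.LIX.O

open Set Metric Complex ComplexConjugate

namespace SW2x

theorem sw_sw (p : ℂ × ℂ) : sw (sw p) = p := rfl

theorem sw_cont : Continuous sw := continuous_swap

theorem sw_inj : Function.Injective sw := fun p q h => by
  have h1 : sw (sw p) = sw (sw q) := congrArg sw h
  rwa [sw_sw, sw_sw] at h1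

theorem tor_neg_conj (hk : ∀ v, kap (rt v) = sw (kap v)) (x : ℂ) : tor (-conj x) = sw (tor x) := by
  have h1 : (((-conj x).re : ℝ) : ℂ) = -((x.re : ℝ) : ℂ) := by
    rw [neg_re, conj_re, ofReal_neg]
  have h2 : (-conj x).im = x.im := by
    rw [neg_im, conj_im, neg_neg]
  unfold tor
  rw [h1, h2]
  exact hk ((x.re : ℂ), x.im)

end SW2x

open SW2x in
theorem t_SW2 : M_SW2 := by
  intro hSW
  obtain ⟨hk, -, hcell, hV, hedge, -, hChd⟩ := hSW
  have hpar : ∀ f, IsEdgePar TT HT f → IsEdgePar TT HT fun z => sw (f z) := by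
    rintro f ⟨⟨Φ, hc, hi, hp, h0⟩, i, j, he⟩
    refine ⟨⟨fun x => sw (Φ x), sw_cont.comp_continuousOn hc, ?_, ?_, ?_⟩, Fin.rev i, Fin.rev j, ?_⟩
    · intro x hx y hy hxy
      exact hi hx hy (sw_inj hxy)
    · intro z hz s hs
      obtain ⟨h1, h2, h3, h4⟩ := hp z hz s hs
      obtain ⟨c1, c2, c3, c4⟩ := hcell (Φ (z, s))
      exact ⟨c1.mpr h1, c2.trans h2, c4.trans h3, c3.trans h4⟩
    · intro z hz
      show sw (Φ (z, 0)) = sw (f z)
      rw [h0 z hz]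
    · intro z hz h1
      exact hedge i j _ (he z hz h1)
  refine ⟨hpar, ?_⟩
  rintro D j ⟨⟨⟨f, hf, hDf⟩, hDV, hDbd⟩, hn⟩
  refine ⟨⟨⟨fun z => sw (f z), hpar f hf, ?_⟩, ?_, ?_⟩, ?_⟩
  · rw [hDf, image_image]
  · rintro q ⟨p, hp, rfl⟩
    exact (hV true p).mpr (hDV hp)
  · have h1 : sw '' D ∩ TT.bd = sw '' (D ∩ TT.bd) := by
      ext q
      constructor
      · rintro ⟨⟨p, hp, rfl⟩, hq⟩
        exact ⟨p, ⟨hp, (hcell p).2.1.mp hq⟩, rfl⟩
      · rintro ⟨p, ⟨hp, hb⟩, rfl⟩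
        exact ⟨⟨p, hp, rfl⟩, (hcell p).2.1.mpr hb⟩
    rw [h1, hDbd]
    exact hChd true j
  · rintro ⟨S', hS1, hS2, hS3⟩
    refine hn ⟨fun p => -conj (S' (sw p)), ?_, ?_, ?_⟩
    · have hmaps : MapsTo sw (D ∩ HT) (sw '' D ∩ HT) := by
        rintro p ⟨hp, hH⟩
        exact ⟨mem_image_of_mem sw hp, (hcell p).2.2.2.mpr hH⟩
      have h1 : ContinuousOn (fun p => S' (sw p)) (D ∩ HT) :=
        hS1.comp sw_cont.continuousOn hmaps
      exact (continuous_conj.comp_continuousOn h1).neg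
    · rintro p ⟨hp, hH⟩
      show tor (-conj (S' (sw p))) = p
      rw [tor_neg_conj hk, hS2 (sw p) ⟨mem_image_of_mem sw hp, (hcell p).2.2.2.mpr hH⟩]
      rfl
    · rintro p ⟨hp, hH⟩ hb
      show ‖-conj (S' (sw p))‖ ≤ 1 / 5
      rw [norm_neg, RCLike.norm_conj]
      exact hS3 (sw p) ⟨mem_image_of_mem sw hp, (hcell p).2.2.2.mpr hH⟩ ((hcell p).2.1.mpr hb)

end Pool.Agent.LIX.O
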