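import Pool.Agent.LIX.StmtsO
import Pool.Agent.LIX.LO

/-!
# LIX, block O, module TYG: the types of graph disks
-/

set_option autoImplicit false

namespace Pool.Agent.LIX.O

theorem t_TYG : M_TYG := fun _ _ _ hQI hGE _ _ h5 J η hη => LO.t_OD hQI hGE h5 J η hη

end Pool.Agent.LIX.O
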