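import Pool.Agent.LIX.StmtsO
import Pool.Agent.LIX.LO

/-!
# LIX, block O, module TYM: the type of `M0`
-/

set_option autoImplicit false

namespace Pool.Agent.LIX.O

open Set Metric Complex

theorem t_TYM : M_TYM := by
  intro hCIR hTOR hMPR
  obtain ⟨hpar, hv⟩ := hMPR
  refine ⟨⟨⟨fM, hpar, rfl⟩, ?_⟩, ?_⟩
  · rintro _ ⟨z, hz, rfl⟩
    exact (hv z hz).2
  · rintro ⟨σ, hc, hl, -⟩
    obtain ⟨⟨Φ, hΦc, -, hΦ, hΦ0⟩, -⟩ := hpar
    have i0 : (0 : ℝ) ∈ Icc (-1 : ℝ) 1 := by simp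
    have hfc : ContinuousOn fM Disk := by
      have h1 : ContinuousOn (fun z : ℂ => Φ (z, 0)) Disk :=
        hΦc.comp (by fun_prop) fun z hz => ⟨hz, i0⟩
      exact h1.congr fun z hz => (hΦ0 z hz).symm
    have hmem : ∀ z ∈ sphere (0 : ℂ) 1, fM z ∈ fM '' Disk ∩ HT := by
      intro z hz
      have h1 : ‖z‖ = 1 := by simpa using hz
      have h2 : z ∈ Disk := le_of_eq h1
      refine ⟨⟨z, h2, rfl⟩, ?_⟩
      rw [← hΦ0 z h2]
      exact (hΦ z h2 0 i0).2.2.2 h1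
    have hsub : sphere (0 : ℂ) 1 ⊆ Disk := fun z hz => le_of_eq (by simpa using hz)
    have hσ : ContinuousOn (fun z => σ (fM z)) (sphere 0 1) :=
      hc.comp (hfc.mono hsub) hmem
    have hphc : Continuous ph := hTOR.2.2.2.2.2.2.2.2.2.2.2
    refine hCIR 0 1 one_pos ⟨by simp, fun z => ph (σ (fM z)), hphc.comp_continuousOn hσ, ?_⟩
    intro z hz
    have h1 : ‖z‖ = 1 := by simpa using hz
    have h2 := hl _ (hmem z hz)
    rw [LO.tor_eq] at h2
    have h3 := congrArg Prod.snd h2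
    simp only [fM] at h3
    have h4 : ((Real.cos (Real.pi / 4) : ℝ) : ℂ) = ((1 / √2 : ℝ) : ℂ) := by
      congr 1
      rw [Real.cos_pi_div_four]
      have hs2 : √2 ^ 2 = 2 := Real.sq_sqrt (by norm_num)
      have hs0 : √2 ≠ 0 := by positivity
      field_simp
      linarith
    rw [h4] at h3
    have h5 : (((1 / √2 : ℝ)) : ℂ) ≠ 0 := by
      rw [Complex.ofReal_ne_zero]
      positivity
    have h6 := mul_left_cancel₀ h5 h3
    rw [sub_zero, h1, Complex.ofReal_one, one_mul]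
    exact h6.symm

end Pool.Agent.LIX.O
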