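import Pool.Agent.LIX.StmtsO
import Pool.Agent.LIX.LO

/-!
# LIX, block O, module TYX: the type of `XA3`
-/

set_option autoImplicit false

namespace Pool.Agent.LIX.O

open Set Metric Complex

theorem Mf_four : Mf 4 < 0 := by
  rw [Mf_of_le_six (by norm_num)]
  norm_num

/-- A chord contained in the chord `(true, 2)`. -/
theorem chord_unique {b : Bool} {j : Fin 3} (h : ch b j ⊆ ch true 2) : b = true ∧ j = 2 := by
  set m : ℝ := Mf (hj j (1 / 2)) with hm
  set u : ℂ := (sg b : ℂ) * I with hu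
  have hnu : ‖u‖ = 1 := by
    rw [hu, norm_mul, Complex.norm_real, Real.norm_eq_abs, LO.abs_sg, Complex.norm_I, mul_one]
  have hN : nrm (u, m) = √(1 + m ^ 2) := by
    unfold nrm
    rw [hnu, one_pow]
  have hs : 0 < √(1 + m ^ 2) := sqrt_pos_aux m
  set N : ℝ := √(1 + m ^ 2) with hNdef
  have hv : nml (u, m) = (u / (N : ℂ), m / N) := by
    unfold nml
    rw [hN]
  have hSph : nml (u, m) ∈ Sph := nml_mem (by rw [hN]; exact hs.ne')
  rw [hv] at hSph
  have him : (u / (N : ℂ)).im = sg b / N := by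
    rw [hu, Complex.div_ofReal_im]
    simp
  have hre : (u / (N : ℂ)).re = 0 := by
    rw [hu, Complex.div_ofReal_re]
    simp
  have hnorm : ‖u / (N : ℂ)‖ = 1 / N := by
    rw [norm_div, hnu, Complex.norm_real, Real.norm_eq_abs, abs_of_pos hs]
  have hlon : lon b (u / (N : ℂ), m / N) = 1 / 2 := by
    unfold lon
    dsimp only
    have e : (sg b : ℂ) * (u / (N : ℂ)) = ((1 / N : ℝ) : ℂ) * I := by
      rw [hu]
      have e1 : (sg b : ℂ) * ((sg b : ℂ) * I / (N : ℂ)) = ((sg b * sg b : ℝ) : ℂ) * (((1 / N : ℝ) : ℂ) * I) := by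
        push_cast
        ring
      rw [e1, LO.sg_mul_self, Complex.ofReal_one, one_mul]
    rw [e, Complex.arg_real_mul _ (by positivity), Complex.arg_I]
    field_simp
  have hmem : ((u / (N : ℂ), m / N) : ℂ × ℝ) ∈ ch b j := by
    refine ⟨⟨hSph, ?_⟩, ?_⟩
    · dsimp only
      rw [him, mul_div_assoc', LO.sg_mul_self]
      positivity
    · unfold dl
      rw [hlon]
      dsimp only
      rw [hnorm, ← hm]
      ring
  have h2 := h hmem
  have hb : b = true := by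
    by_contra hb
    have hb' : b = false := by simpa using hb
    have h3 := h2.1.2
    dsimp only at h3
    rw [him, hb'] at h3
    simp only [sg] at h3
    norm_num at h3
    have : 0 < 1 / N := by positivity
    have h4 : (-1 : ℝ) / N = -(1 / N) := by ring
    rw [h4] at h3
    linarith
  refine ⟨hb, ?_⟩
  have h3 := h2.2
  rw [LO.dl_two true _ h2.1.2] at h3
  dsimp only at h3
  rw [hre, mul_zero, add_zero] at h3
  have h4 : m = 0 := by
    rcases div_eq_zero_iff.1 h3 with h | h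
    · exact h
    · exact absurd h hs.ne'
  rw [hm] at h4
  fin_cases j
  · exfalso
    have e : hj 0 (1 / 2) = 4 := by
      simp [hj]
      norm_num
    simp only [Fin.zero_eta] at h4
    rw [e] at h4
    exact absurd h4 Mf_four.ne
  · exfalso
    have e : hj 1 (1 / 2) = 6 := by
      simp [hj]
      norm_num
    simp only [Fin.mk_one] at h4
    rw [e, Mf_of_le_six le_rfl] at h4
    norm_num at h4
  · rfl

theorem ch_subset_of_Chd {b b' : Bool} {j j' : Fin 3} (h : Chd b j ⊆ Chd b' j') :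
    ch b j ⊆ ch b' j' := by
  intro v hv
  obtain ⟨w, hw, hwv⟩ := h ⟨v, hv, rfl⟩
  have h1 := collar_TT.inj (x₁ := (w, 0)) (x₂ := (v, 0)) ⟨hw.1.1, by simp⟩ ⟨hv.1.1, by simp⟩ hwv
  have h2 : w = v := congrArg Prod.fst h1
  exact h2 ▸ hw

theorem t_TYX : M_TYX := by
  intro _ _ _ hTOR hKDD hWMO hPSC _ hXPR
  obtain ⟨hpar, hX, hX2⟩ := hXPR
  set D : Set (ℂ × ℂ) := fX '' HDisk with hD
  -- the kind
  have hEd : Edge true 2 D := by
    obtain ⟨b, j, h1, h2⟩ := hKDD.2.1 fX hpar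
    have h3 : Chd b j ⊆ Chd true 2 := by
      rw [← h1]
      rintro _ ⟨⟨z, hz, rfl⟩, hp⟩
      exact (hX z hz).2.2.2 hp
    obtain ⟨rfl, rfl⟩ := chord_unique (ch_subset_of_Chd h3)
    exact ⟨⟨fX, hpar, rfl⟩, h2, h1⟩
  refine ⟨hEd, ?_⟩
  rintro ⟨σ, hc, hl, hn⟩
  obtain ⟨⟨Φ, hΦc, -, hΦ, hΦ0⟩, -⟩ := hpar
  have i0 : (0 : ℝ) ∈ Icc (-1 : ℝ) 1 := by simp
  have hfc : ContinuousOn fX HDisk := by
    have h1 : ContinuousOn (fun z : ℂ => Φ (z, 0)) HDisk :=
      hΦc.comp (by fun_prop) fun z hz => ⟨hz, i0⟩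
    exact h1.congr fun z hz => (hΦ0 z hz).symm
  have hHD : ∀ x ∈ Icc (-1 : ℝ) 1, (x : ℂ) ∈ HDisk := by
    intro x hx
    refine ⟨?_, ?_⟩
    · rw [Complex.norm_real, Real.norm_eq_abs]
      exact abs_le.2 hx
    · simp
  have hmem : ∀ x ∈ Icc (-1 : ℝ) 1, fX (x : ℂ) ∈ D ∩ HT := by
    intro x hx
    refine ⟨⟨_, hHD x hx, rfl⟩, ?_⟩
    rw [← hΦ0 _ (hHD x hx)]
    exact (hΦ _ (hHD x hx) 0 i0).2.2.1.2 (by simp)
  have hphc : Continuous ph := hTOR.2.2.2.2.2.2.2.2.2.2.2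
  set ψ : ℝ → ℝ := fun x => ph (σ (fX (x : ℂ))) with hψ
  have hψc : ContinuousOn ψ (Icc (-1) 1) := by
    refine hphc.comp_continuousOn (hc.comp (hfc.comp ?_ hHD) hmem)
    exact Complex.continuous_ofReal.continuousOn
  have hexp : ∀ x ∈ Icc (-1 : ℝ) 1, exp ((ψ x : ℂ) * I) = Wm ((x : ℂ), 0) := by
    intro x hx
    have h2 := hl _ (hmem x hx)
    rw [LO.tor_eq] at h2
    have h3 := congrArg Prod.snd h2
    rw [hX2 _ (hHD x hx) (by simp)] at h3
    have h5 : ((Real.cos (Real.pi / 4) : ℝ) : ℂ) ≠ 0 := by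
      rw [Complex.ofReal_ne_zero]
      exact LO.cos_pos.ne'
    exact mul_left_cancel₀ h5 h3
  have hs2 : √2 ^ 2 = 2 := Real.sq_sqrt (by norm_num)
  have hs0 : 0 < √2 := by positivity
  have hfx : fx 0 = √2 / 5 := by
    unfold fx
    rw [Real.sqrt_eq_iff_mul_self_eq (by norm_num) (by positivity)]
    nlinarith
  have hfx1 : fx 0 < 1 := by
    rw [hfx]
    nlinarith
  have hfx0 : 0 < fx 0 := by
    rw [hfx]
    positivity
  -- the ends
  have hend : ∀ x ∈ Icc (-1 : ℝ) 1, ‖(x : ℂ)‖ = 1 → ψ x = arg (Wm ((x : ℂ), 0)) := by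
    intro x hx hx1
    have hb : fX (x : ℂ) ∈ TT.bd := by
      rw [← hΦ0 _ (hHD x hx)]
      exact (hΦ _ (hHD x hx) 0 i0).2.1.2 hx1
    have h1 := hn _ (hmem x hx) hb
    have h2 : ψ x ^ 2 ≤ 2 * ‖σ (fX (x : ℂ))‖ ^ 2 := by
      rw [LO.norm_sq_eq]
      have : ψ x = ph (σ (fX (x : ℂ))) := rfl
      rw [this]
      nlinarith [sq_nonneg (th (σ (fX (x : ℂ))))]
    have h3 : ‖σ (fX (x : ℂ))‖ ^ 2 ≤ (1 / 5) ^ 2 := pow_le_pow_left₀ (norm_nonneg _) h1 2
    have h4 : |ψ x| ≤ 1 := by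
      refine abs_le_of_sq_le_sq ?_ (by norm_num)
      linarith
    have hp := Real.pi_gt_three
    rw [← hexp x hx, Complex.arg_exp_mul_I]
    have h5 := abs_le.1 h4
    refine ((toIocMod_eq_self _).2 ⟨?_, ?_⟩).symm
    · linarith
    · linarith
  have e1 : ψ (-1) = fx 0 := by
    rw [hend (-1) (by simp) (by simp)]
    have := ((hWMO.2 0 i0).2.2).2
    simpa using this
  have e2 : ψ 1 = - fx 0 := by
    rw [hend 1 (by simp) (by simp)]
    have := ((hWMO.2 0 i0).2.2).1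
    simpa using this
  obtain ⟨x, hx, hx0⟩ : (0 : ℝ) ∈ ψ '' Icc (-1) 1 := by
    refine intermediate_value_Icc' (by norm_num) hψc ⟨?_, ?_⟩
    · rw [e2]
      linarith
    · rw [e1]
      exact hfx0.le
  have h1 := hexp x hx
  rw [hx0, Complex.ofReal_zero, zero_mul, Complex.exp_zero] at h1
  have h2 := ((hWMO.2 0 i0).2.1 _ (hHD x hx)).2.2.1 (by simp)
  rw [← h1, Complex.arg_one, abs_zero] at h2
  linarith [h2.2]

end Pool.Agent.LIX.O
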