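import Pool.Agent.LIX.StmtsO

/-!
# LIX, block O, WMO: composition with a Moebius map, angles on the boundary
-/

set_option autoImplicit false

namespace Pool.Agent.LIX.O

open Set Metric Complex

namespace WMOx

theorem fx_nonneg (s : ℝ) : 0 ≤ fx s := Real.sqrt_nonneg _

theorem fx_lt (s : ℝ) : fx s < 1 / 2 := by
  unfold fx
  rw [Real.sqrt_lt' (by norm_num)]
  nlinarith [sq_nonneg (s / 1000)]

theorem fx_pos {s : ℝ} (hs : s ∈ Icc (-1 : ℝ) 1) : 0 < fx s := by
  unfold fx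
  apply Real.sqrt_pos.2
  have h1 : (s / 1000) ^ 2 ≤ 1 / 1000000 := by
    rw [div_pow]
    have : s ^ 2 ≤ 1 := by nlinarith [hs.1, hs.2]
    linarith
  linarith

theorem cos_fx_pos (s : ℝ) : 0 < Real.cos (fx s) := by
  have h1 := fx_nonneg s
  have h2 := fx_lt s
  have h3 := Real.pi_gt_three
  apply Real.cos_pos_of_mem_Ioo
  constructor <;> linarith

theorem sin_fx_pos {s : ℝ} (hs : s ∈ Icc (-1 : ℝ) 1) : 0 < Real.sin (fx s) := by
  have h1 := fx_pos hs
  have h2 := fx_lt s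
  have h3 := Real.pi_gt_three
  apply Real.sin_pos_of_pos_of_lt_pi h1
  linarith

theorem am_facts {s : ℝ} (hs : s ∈ Icc (-1 : ℝ) 1) : 0 < am s ∧ am s < 1 ∧
    2 * am s = Real.cos (fx s) * (1 + am s ^ 2) ∧ 1 - am s ^ 2 = Real.sin (fx s) * (1 + am s ^ 2) := by
  have hc := cos_fx_pos s
  have hs' := sin_fx_pos hs
  have h1 := Real.sin_sq_add_cos_sq (fx s)
  have ha : am s * Real.cos (fx s) = 1 - Real.sin (fx s) := by
    unfold am
    exact div_mul_cancel₀ _ hc.ne'
  generalize Real.cos (fx s) = c at *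
  generalize Real.sin (fx s) = d at *
  generalize am s = a at *
  have hd1 : d < 1 := by nlinarith
  have ha0 : 0 < a := by
    by_contra h
    have : a * c ≤ 0 := mul_nonpos_of_nonpos_of_nonneg (not_lt.1 h) hc.le
    linarith
  have h2 : a * (1 + d) = c := by
    have : (a * (1 + d) - c) * c = 0 := by
      have : (a * (1 + d) - c) * c = (a * c) * (1 + d) - c ^ 2 := by ring
      rw [this, ha]
      linarith
    rcases mul_eq_zero.1 this with h | h
    · linarith
    · exact absurd h hc.ne'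
  have h3 : a ^ 2 * (1 + d) = 1 - d := by
    have : a ^ 2 * (1 + d) = a * (a * (1 + d)) := by ring
    rw [this, h2, ha]
  have hd0 : 0 < 1 + d := by linarith
  have ha1 : a < 1 := by
    by_contra h
    have h4 : 1 ≤ a := not_lt.1 h
    have h5 : 1 ≤ a ^ 2 := by nlinarith
    nlinarith
  refine ⟨ha0, ha1, ?_, ?_⟩
  · have : (2 * a - c * (1 + a ^ 2)) * (1 + d) = 0 := by
      have : (2 * a - c * (1 + a ^ 2)) * (1 + d) =
        2 * (a * (1 + d)) - c * ((1 + d) + a ^ 2 * (1 + d)) := by ring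
      rw [this, h2, h3]
      ring
    rcases mul_eq_zero.1 this with h | h
    · linarith
    · exact absurd h hd0.ne'
  · have : (1 - a ^ 2 - d * (1 + a ^ 2)) * (1 + d) = 0 := by
      have : (1 - a ^ 2 - d * (1 + a ^ 2)) * (1 + d) =
        (1 + d) - a ^ 2 * (1 + d) - d * ((1 + d) + a ^ 2 * (1 + d)) := by ring
      rw [this, h3]
      ring
    rcases mul_eq_zero.1 this with h | h
    · linarith
    · exact absurd h hd0.ne'

theorem continuous_am : Continuous am := by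
  have h1 : Continuous fx := by
    unfold fx
    fun_prop
  unfold am
  exact (continuous_const.sub (Real.continuous_sin.comp h1)).div (Real.continuous_cos.comp h1)
    fun s => (cos_fx_pos s).ne'

theorem den_ne {a : ℝ} (h0 : 0 < a) (h1 : a < 1) {q : ℂ} (hq : ‖q‖ ≤ 1) :
    (1 + (a : ℂ) * q) ≠ 0 := by
  intro h
  have h2 : (a : ℂ) * q = -1 := by linear_combination h
  have h3 : ‖(a : ℂ) * q‖ = 1 := by rw [h2, norm_neg, norm_one]
  rw [norm_mul, Complex.norm_real, Real.norm_eq_abs, abs_of_pos h0] at h3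
  nlinarith [norm_nonneg q]

/-- the Moebius map -/
noncomputable def mo (a : ℝ) (q : ℂ) : ℂ := (q + (a : ℂ)) / (1 + (a : ℂ) * q)

theorem norm_mo_sq {a : ℝ} (q : ℂ) :
    ‖1 + (a : ℂ) * q‖ ^ 2 - ‖q + (a : ℂ)‖ ^ 2 = (1 - a ^ 2) * (1 - ‖q‖ ^ 2) := by
  rw [← Complex.normSq_eq_norm_sq, ← Complex.normSq_eq_norm_sq, ← Complex.normSq_eq_norm_sq,
    Complex.normSq_apply, Complex.normSq_apply, Complex.normSq_apply]
  simp only [Complex.add_re, Complex.add_im, Complex.mul_re, Complex.mul_im, Complex.ofReal_re,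
    Complex.ofReal_im, Complex.one_re, Complex.one_im]
  ring

theorem norm_mo {a : ℝ} (h0 : 0 < a) (h1 : a < 1) {q : ℂ} (hq : ‖q‖ ≤ 1) :
    ‖mo a q‖ ≤ 1 ∧ (‖mo a q‖ = 1 ↔ ‖q‖ = 1) := by
  have hd := den_ne h0 h1 hq
  have hd' : 0 < ‖1 + (a : ℂ) * q‖ := norm_pos_iff.2 hd
  have h2 := norm_mo_sq (a := a) q
  have h3 : 0 < 1 - a ^ 2 := by nlinarith
  have h4 := norm_nonneg q
  have h5 := norm_nonneg (q + (a : ℂ))
  unfold mo
  rw [norm_div, div_le_one hd', div_eq_one_iff_eq hd'.ne']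
  refine ⟨?_, ?_, ?_⟩
  · refine abs_le_of_sq_le_sq' ?_ hd'.le |>.2
    have : 0 ≤ (1 - a ^ 2) * (1 - ‖q‖ ^ 2) := mul_nonneg h3.le (by nlinarith)
    linarith
  · intro h
    rw [h, sub_self] at h2
    rcases mul_eq_zero.1 h2.symm with h6 | h6
    · exact absurd h6 h3.ne'
    · nlinarith
  · intro h
    rw [h] at h2
    have : ‖1 + (a : ℂ) * q‖ ^ 2 = ‖q + (a : ℂ)‖ ^ 2 := by linarith
    exact ((sq_eq_sq₀ hd'.le h5).1 this).symm

theorem re_mo {a c : ℝ} (h0 : 0 < a) (h1 : a < 1) (hc : 2 * a = c * (1 + a ^ 2)) {q : ℂ}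
    (hq : ‖q‖ = 1) :
    ((mo a q).re - c) * ((1 + a ^ 2) * ‖1 + (a : ℂ) * q‖ ^ 2) = (1 - a ^ 2) ^ 2 * q.re := by
  have hd := den_ne h0 h1 hq.le
  have hd' : 0 < ‖1 + (a : ℂ) * q‖ := norm_pos_iff.2 hd
  have hn : Complex.normSq (1 + (a : ℂ) * q) = ‖1 + (a : ℂ) * q‖ ^ 2 :=
    Complex.normSq_eq_norm_sq _
  have hq2 : q.re * q.re + q.im * q.im = 1 := by
    rw [← Complex.normSq_apply, Complex.normSq_eq_norm_sq, hq, one_pow]
  have hn0 : Complex.normSq (1 + (a : ℂ) * q) ≠ 0 := by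
    rw [hn]; positivity
  have hre : (mo a q).re * Complex.normSq (1 + (a : ℂ) * q) =
      (1 + a ^ 2) * q.re + a * (1 + (q.re * q.re + q.im * q.im)) := by
    unfold mo
    rw [Complex.div_re, add_mul, div_mul_cancel₀ _ hn0, div_mul_cancel₀ _ hn0]
    simp only [Complex.add_re, Complex.add_im, Complex.mul_re, Complex.mul_im, Complex.ofReal_re,
      Complex.ofReal_im, Complex.one_re, Complex.one_im]
    ring
  have hns : Complex.normSq (1 + (a : ℂ) * q) =
      1 + 2 * a * q.re + a ^ 2 * (q.re * q.re + q.im * q.im) := by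
    rw [Complex.normSq_apply]
    simp only [Complex.add_re, Complex.add_im, Complex.mul_re, Complex.mul_im, Complex.ofReal_re,
      Complex.ofReal_im, Complex.one_re, Complex.one_im]
    ring
  rw [hq2] at hre hns
  rw [← hn]
  have e1 : ((mo a q).re - c) * ((1 + a ^ 2) * Complex.normSq (1 + (a : ℂ) * q)) =
      (1 + a ^ 2) * ((mo a q).re * Complex.normSq (1 + (a : ℂ) * q)) -
      (c * (1 + a ^ 2)) * Complex.normSq (1 + (a : ℂ) * q) := by ring
  rw [e1, hre, hns, ← hc]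
  ring

theorem re_mo_sign {a c : ℝ} (h0 : 0 < a) (h1 : a < 1) (hc : 2 * a = c * (1 + a ^ 2)) {q : ℂ}
    (hq : ‖q‖ = 1) :
    (c ≤ (mo a q).re ↔ 0 ≤ q.re) ∧ ((mo a q).re ≤ c ↔ q.re ≤ 0) := by
  have hd := den_ne h0 h1 hq.le
  have hd' : 0 < ‖1 + (a : ℂ) * q‖ := norm_pos_iff.2 hd
  have h := re_mo h0 h1 hc hq
  have h3 : 0 < 1 - a ^ 2 := by nlinarith
  have h4 : 0 < (1 - a ^ 2) ^ 2 := by positivity
  have h5 : 0 < (1 + a ^ 2) * ‖1 + (a : ℂ) * q‖ ^ 2 := by positivity
  constructor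
  · rw [← sub_nonneg, ← mul_nonneg_iff_of_pos_right h5, h, mul_nonneg_iff_of_pos_left h4]
  · rw [← sub_nonpos]
    constructor
    · intro h6
      have h7 : ((mo a q).re - c) * ((1 + a ^ 2) * ‖1 + (a : ℂ) * q‖ ^ 2) ≤ 0 :=
        mul_nonpos_of_nonpos_of_nonneg h6 h5.le
      rw [h] at h7
      by_contra h8
      have := mul_pos h4 (not_le.1 h8)
      linarith
    · intro h6
      have h7 : (1 - a ^ 2) ^ 2 * q.re ≤ 0 := mul_nonpos_of_nonneg_of_nonpos h4.le h6
      rw [← h] at h7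
      by_contra h8
      have := mul_pos (not_le.1 h8) h5
      linarith

theorem arg_iff {w : ℂ} (hw : ‖w‖ = 1) {f : ℝ} (hf0 : 0 ≤ f) (hf1 : f < 1 / 2) :
    (|arg w| ≤ f ↔ Real.cos f ≤ w.re) ∧ (f ≤ |arg w| ↔ w.re ≤ Real.cos f) := by
  have hw0 : w ≠ 0 := by
    intro h
    rw [h, norm_zero] at hw
    exact zero_ne_one hw
  have h1 : Real.cos |arg w| = w.re := by
    rw [Real.cos_abs, Complex.cos_arg hw0, hw, div_one]
  have hp := Real.pi_gt_three
  have hm1 : |arg w| ∈ Icc (0 : ℝ) Real.pi := ⟨abs_nonneg _, Complex.abs_arg_le_pi w⟩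
  have hm2 : f ∈ Icc (0 : ℝ) Real.pi := ⟨hf0, by linarith⟩
  constructor
  · rw [← h1, Real.strictAntiOn_cos.le_iff_ge hm2 hm1]
  · rw [← h1, Real.strictAntiOn_cos.le_iff_ge hm1 hm2]

end WMOx

theorem t_WMO : M_WMO := by
  rintro ⟨hqc, hqi, hq, hq1, hq2⟩
  have hWm : ∀ z s, Wm (z, s) = WMOx.mo (am s) (qh z) := fun z s => rfl
  refine ⟨?_, ?_⟩
  · have h1 : ContinuousOn (fun x : ℂ × ℝ => qh x.1) (HDisk ×ˢ Icc (-1 : ℝ) 1) :=
      hqc.comp continuousOn_fst fun x hx => hx.1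
    have h2 : ContinuousOn (fun x : ℂ × ℝ => (am x.2 : ℂ)) (HDisk ×ˢ Icc (-1 : ℝ) 1) :=
      (Complex.continuous_ofReal.comp (WMOx.continuous_am.comp continuous_snd)).continuousOn
    unfold Wm
    refine (h1.add h2).div (continuousOn_const.add (h2.mul h1)) ?_
    rintro ⟨z, s⟩ ⟨hz, hs⟩
    obtain ⟨a0, a1, -, -⟩ := WMOx.am_facts hs
    exact WMOx.den_ne a0 a1 (hq z hz).1
  · intro s hs
    obtain ⟨a0, a1, ac, as⟩ := WMOx.am_facts hs
    have hf0 := WMOx.fx_pos hs
    have hf1 := WMOx.fx_lt s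
    have hp := Real.pi_gt_three
    refine ⟨?_, ?_, ?_, ?_⟩
    · intro z hz z' hz' h
      apply hqi hz hz'
      have h' : WMOx.mo (am s) (qh z) = WMOx.mo (am s) (qh z') := h
      unfold WMOx.mo at h'
      rw [div_eq_div_iff (WMOx.den_ne a0 a1 (hq z hz).1) (WMOx.den_ne a0 a1 (hq z' hz').1)] at h'
      have h3 : (qh z - qh z') * (1 - (am s : ℂ) ^ 2) = 0 := by linear_combination h'
      rcases mul_eq_zero.1 h3 with h4 | h4
      · exact sub_eq_zero.1 h4
      · exfalso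
        have h5 : ((1 - am s ^ 2 : ℝ) : ℂ) = 0 := by push_cast; exact h4
        have h6 : (1 - am s ^ 2 : ℝ) = 0 := by exact_mod_cast h5
        nlinarith
    · intro z hz
      obtain ⟨q1, q2, q3, q4, q5⟩ := hq z hz
      obtain ⟨m1, m2⟩ := WMOx.norm_mo a0 a1 q1
      rw [hWm]
      refine ⟨m1, ⟨?_, ?_⟩, ⟨?_, ?_⟩⟩
      · intro h
        have h1 : ‖qh z‖ = 1 := q2.2 (Or.inl h)
        have h2 := m2.2 h1
        refine ⟨h2, ?_⟩
        rw [(WMOx.arg_iff h2 hf0.le hf1).1, (WMOx.re_mo_sign a0 a1 ac h1).1]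
        exact q3 h
      · rintro ⟨h1, h2⟩
        have h3 := m2.1 h1
        rw [(WMOx.arg_iff h1 hf0.le hf1).1, (WMOx.re_mo_sign a0 a1 ac h3).1] at h2
        rcases q2.1 h3 with h4 | h4
        · exact h4
        · exact (q5 h3 (le_antisymm (q4 h4) h2)).1
      · intro h
        have h1 : ‖qh z‖ = 1 := q2.2 (Or.inr h)
        have h2 := m2.2 h1
        refine ⟨h2, ?_⟩
        rw [(WMOx.arg_iff h2 hf0.le hf1).2, (WMOx.re_mo_sign a0 a1 ac h1).2]
        exact q4 h
      · rintro ⟨h1, h2⟩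
        have h3 := m2.1 h1
        rw [(WMOx.arg_iff h1 hf0.le hf1).2, (WMOx.re_mo_sign a0 a1 ac h3).2] at h2
        rcases q2.1 h3 with h4 | h4
        · exact (q5 h3 (le_antisymm h2 (q3 h4))).2
        · exact h4
    · rw [hWm, hq1]
      have h1 : WMOx.mo (am s) (-I) = exp (((-fx s : ℝ) : ℂ) * I) := by
        unfold WMOx.mo
        rw [div_eq_iff (WMOx.den_ne a0 a1 (by simp)), Complex.exp_mul_I, ← Complex.ofReal_cos,
          ← Complex.ofReal_sin, Real.cos_neg, Real.sin_neg]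
        have e1 : (Real.cos (fx s) : ℂ) * (1 + (am s : ℂ) ^ 2) = 2 * (am s : ℂ) := by
          rw [← Complex.ofReal_pow, ← Complex.ofReal_one, ← Complex.ofReal_add,
            ← Complex.ofReal_mul, ← ac]
          push_cast; ring
        have e2 : (Real.sin (fx s) : ℂ) * (1 + (am s : ℂ) ^ 2) = 1 - (am s : ℂ) ^ 2 := by
          rw [← Complex.ofReal_pow, ← Complex.ofReal_one, ← Complex.ofReal_add,
            ← Complex.ofReal_mul, ← as]
          push_cast; ring
        have e3 : (1 + (am s : ℂ) ^ 2) ≠ 0 := by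
          have : ((1 + am s ^ 2 : ℝ) : ℂ) ≠ 0 := Complex.ofReal_ne_zero.2 (by positivity)
          push_cast at this
          exact this
        apply mul_left_cancel₀ e3
        have hI : I ^ 2 = -1 := Complex.I_sq
        rw [Complex.ofReal_neg]
        linear_combination (-1 + (am s : ℂ) * I) * e1 + (I + (am s : ℂ)) * e2 +
          (-(am s : ℂ) * (Real.sin (fx s) : ℂ) * (1 + (am s : ℂ) ^ 2)) * hI
      rw [h1, Complex.arg_exp_mul_I, toIocMod_eq_self]
      constructor <;> linarith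
    · rw [hWm, hq2]
      have h1 : WMOx.mo (am s) I = exp (((fx s : ℝ) : ℂ) * I) := by
        unfold WMOx.mo
        rw [div_eq_iff (WMOx.den_ne a0 a1 (by simp)), Complex.exp_mul_I, ← Complex.ofReal_cos,
          ← Complex.ofReal_sin]
        have e1 : (Real.cos (fx s) : ℂ) * (1 + (am s : ℂ) ^ 2) = 2 * (am s : ℂ) := by
          rw [← Complex.ofReal_pow, ← Complex.ofReal_one, ← Complex.ofReal_add,
            ← Complex.ofReal_mul, ← ac]
          push_cast; ring
        have e2 : (Real.sin (fx s) : ℂ) * (1 + (am s : ℂ) ^ 2) = 1 - (am s : ℂ) ^ 2 := by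
          rw [← Complex.ofReal_pow, ← Complex.ofReal_one, ← Complex.ofReal_add,
            ← Complex.ofReal_mul, ← as]
          push_cast; ring
        have e3 : (1 + (am s : ℂ) ^ 2) ≠ 0 := by
          have : ((1 + am s ^ 2 : ℝ) : ℂ) ≠ 0 := Complex.ofReal_ne_zero.2 (by positivity)
          push_cast at this
          exact this
        apply mul_left_cancel₀ e3
        have hI : I ^ 2 = -1 := Complex.I_sq
        linear_combination (-1 - (am s : ℂ) * I) * e1 + (-I + (am s : ℂ)) * e2 +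
          (-(am s : ℂ) * (Real.sin (fx s) : ℂ) * (1 + (am s : ℂ) ^ 2)) * hI
      rw [h1, Complex.arg_exp_mul_I, toIocMod_eq_self]
      constructor <;> linarith

end Pool.Agent.LIX.O
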