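import Pool.Agent.LIX.StmtsO

/-!
# LIX, block O, module XPR: the explicit edge-compressing disk
-/

set_option autoImplicit false

namespace Pool.Agent.LIX.O

open Set Metric Complex

namespace XPRx

theorem nml_sph (v : ℂ × ℝ) (h : 0 < nrm v) : nml v ∈ Sph := by
  have h1 := nrm_sq v
  change ‖(nml v).1‖ ^ 2 + (nml v).2 ^ 2 = 1
  unfold nml
  simp only
  rw [norm_div, Complex.norm_real, Real.norm_of_nonneg h.le]
  have h2 : nrm v ≠ 0 := h.ne'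
  field_simp
  linarith

theorem nrm_pos_of {v : ℂ × ℝ} (h : ‖v.1‖ = 1) : 0 < nrm v := by
  have h1 := nrm_sq v
  rw [h] at h1
  have h2 := nrm_nonneg v
  have h3 : nrm v ≠ 0 := by
    intro e
    rw [e] at h1
    nlinarith [sq_nonneg v.2]
  exact lt_of_le_of_ne h2 h3.symm

theorem edg_sub (i j : Fin 4) : Edg i j ⊆ Sph := by
  have hh : ∀ b k : ℝ, hlx b k ⊆ Sph := by
    rintro b k _ ⟨u, -, rfl⟩
    exact nml_sph _ (nrm_pos_of (Complex.norm_exp_ofReal_mul_I _))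
  have hs : ∀ (z : ℂ) (m : ℝ), ‖z‖ = 1 → ({nml (z, m)} : Set (ℂ × ℝ)) ⊆ Sph := by
    intro z m hz
    rw [singleton_subset_iff]
    exact nml_sph _ (nrm_pos_of hz)
  have hI : ‖I‖ = 1 := Complex.norm_I
  have hI' : ‖-I‖ = 1 := by rw [norm_neg, Complex.norm_I]
  have ha : {v : ℂ × ℝ | v ∈ Sph ∧ v.1.re = 0 ∧ v.2 ≤ -2 * ‖v.1‖} ⊆ Sph := fun v hv => hv.1
  have hb : {v : ℂ × ℝ | v ∈ Sph ∧ v.1.re = 0 ∧ 2 * ‖v.1‖ ≤ v.2} ⊆ Sph := fun v hv => hv.1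
  fin_cases i <;> fin_cases j
  · exact hs _ _ hI
  · exact hh _ _
  · exact hh _ _
  · exact ha
  · exact hh _ _
  · exact hs _ _ hI
  · exact hb
  · exact hh _ _
  · exact hh _ _
  · exact hb
  · exact hs _ _ hI'
  · exact hh _ _
  · exact ha
  · exact hh _ _
  · exact hh _ _
  · exact hs _ _ hI'

theorem col0_inj {v w : ℂ × ℝ} (hv : v ∈ Sph) (hw : w ∈ Sph) (h : col (v, 0) = col (w, 0)) :
    v = w := by
  have h0 : (0 : ℝ) ∈ Icc (0 : ℝ) 1 := ⟨le_rfl, zero_le_one⟩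
  have h1 := collar_TT.inj (show ((v, 0) : (ℂ × ℝ) × ℝ) ∈ Sph ×ˢ Icc 0 1 from ⟨hv, h0⟩)
    (show ((w, 0) : (ℂ × ℝ) × ℝ) ∈ Sph ×ˢ Icc 0 1 from ⟨hw, h0⟩) h
  exact congrArg Prod.fst h1

/-- a point of the skeleton which is the image of a point of the sphere -/
theorem skel_iff {v : ℂ × ℝ} (hv : v ∈ Sph) : col (v, 0) ∈ TT.skel ↔ v ∈ Skl := by
  unfold Cells.skel Skl
  simp only [mem_iUnion]
  constructor
  · rintro ⟨i, j, h⟩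
    rw [collar_TT.edge i j] at h
    obtain ⟨w, hw, hwv⟩ := h
    have := col0_inj (edg_sub i j hw) hv hwv
    rw [this] at hw
    exact ⟨i, j, hw⟩
  · rintro ⟨i, j, h⟩
    refine ⟨i, j, ?_⟩
    rw [collar_TT.edge i j]
    exact ⟨v, h, rfl⟩

/-- far from the poles -/
theorem far {v : ℂ × ℝ} (hv : v ∈ Sph) {s : ℝ} (hs : s ∈ Icc (-1 : ℝ) 1)
    (h : v.2 + v.1.re = s / 200) : 1 / 2 ≤ ‖v.1‖ := by
  have h1 : ‖v.1‖ ^ 2 + v.2 ^ 2 = 1 := hv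
  by_contra hn
  push Not at hn
  have h2 := abs_le.1 (Complex.abs_re_le_norm v.1)
  have h3 := norm_nonneg v.1
  have h4 := hs.1
  have h5 := hs.2
  have h6 : |v.2| ≤ 1 / 2 + 1 / 200 := by
    rw [abs_le]
    constructor <;> linarith
  have h7 : v.2 ^ 2 ≤ (1 / 2 + 1 / 200) ^ 2 := by
    rw [← sq_abs]
    exact pow_le_pow_left₀ (abs_nonneg _) h6 2
  nlinarith

theorem cont (G : ℝ × ℂ → ℂ × ℂ) (W : ℂ × ℝ → ℂ) (A : Set (ℂ × ℝ)) (B : Set (ℝ × ℂ))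
    (hG : ContinuousOn G B) (hW : ContinuousOn W A)
    (hm : MapsTo (fun x : ℂ × ℝ => ((x.2, W x) : ℝ × ℂ)) A B) :
    ContinuousOn (fun x : ℂ × ℝ => G (x.2, W x)) A :=
  ContinuousOn.comp (g := G) (f := fun x : ℂ × ℝ => ((x.2, W x) : ℝ × ℂ)) hG
    (continuous_snd.continuousOn.prodMk hW) hm

theorem injx (G : ℝ × ℂ → ℂ × ℂ) (W : ℂ × ℝ → ℂ) (A : Set (ℂ × ℝ)) (B : Set (ℝ × ℂ))
    (hG : InjOn G B) (hm : MapsTo (fun x : ℂ × ℝ => ((x.2, W x) : ℝ × ℂ)) A B)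
    (hW : ∀ z z' s, (z, s) ∈ A → (z', s) ∈ A → W (z, s) = W (z', s) → z = z') :
    InjOn (fun x : ℂ × ℝ => G (x.2, W x)) A := by
  rintro ⟨z, s⟩ hx ⟨z', s'⟩ hy h
  have h1 := hG (hm hx) (hm hy) h
  have h2 : s = s' := congrArg Prod.fst h1
  have h3 : W (z, s) = W (z', s') := congrArg Prod.snd h1
  subst h2
  rw [hW z z' s hx hy h3]

end XPRx

theorem t_XPR : M_XPR := by
  intro hPRJ hCHE hLSK hW hP hD
  obtain ⟨hWc, hW2⟩ := hW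
  obtain ⟨hPc, hPi, hP2⟩ := hP
  have hWD : ∀ x : ℂ × ℝ, x ∈ HDisk ×ˢ Icc (-1 : ℝ) 1 → Wm x ∈ Disk := by
    intro x hx
    exact ((hW2 x.2 hx.2).2.1 x.1 hx.1).1
  have h00 : (0 : ℝ) ∈ Icc (-1 : ℝ) 1 := ⟨by norm_num, by norm_num⟩
  have hmap : MapsTo (fun x : ℂ × ℝ => ((x.2, Wm x) : ℝ × ℂ)) (HDisk ×ˢ Icc (-1 : ℝ) 1)
      (Icc (-1 : ℝ) 1 ×ˢ Disk) := fun x hx => ⟨hx.2, hWD x hx⟩
  have hbody : ∀ z ∈ HDisk, ∀ s ∈ Icc (-1 : ℝ) 1, PhX (z, s) ∈ VT true := by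
    intro z hz s hs
    exact (hP2 s hs (Wm (z, s)) (hWD (z, s) ⟨hz, hs⟩)).1
  have hbd : ∀ z ∈ HDisk, ∀ s ∈ Icc (-1 : ℝ) 1, (PhX (z, s) ∈ TT.bd ↔ ‖z‖ = 1) := by
    intro z hz s hs
    have h1 := (hP2 s hs (Wm (z, s)) (hWD (z, s) ⟨hz, hs⟩)).2.1
    have h2 := ((hW2 s hs).2.1 z hz).2.1
    exact h1.trans h2.symm
  have hHT : ∀ z ∈ HDisk, ∀ s ∈ Icc (-1 : ℝ) 1, (PhX (z, s) ∈ HT ↔ z.im = 0) := by
    intro z hz s hs
    have h1 := (hP2 s hs (Wm (z, s)) (hWD (z, s) ⟨hz, hs⟩)).2.2.1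
    have h2 := ((hW2 s hs).2.1 z hz).2.2
    exact h1.trans h2.symm
  have hv : ∀ z ∈ HDisk, ∀ s ∈ Icc (-1 : ℝ) 1, PhX (z, s) ∈ TT.bd →
      ∃ v ∈ Hem true, v.2 + v.1.re = s / 200 ∧ PhX (z, s) = col (v, 0) := by
    intro z hz s hs h
    exact (hP2 s hs (Wm (z, s)) (hWD (z, s) ⟨hz, hs⟩)).2.2.2.1 h
  have hdl : ∀ v ∈ Hem true, dl true 2 v = v.2 + v.1.re := by
    intro v hv
    rw [hD true v hv]
    simp [sg]
  have hch : ∀ z ∈ HDisk, PhX (z, 0) ∈ TT.bd → ∃ v ∈ ch true 2, PhX (z, 0) = col (v, 0) := by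
    intro z hz h
    obtain ⟨v, hv1, hv2, hv3⟩ := hv z hz 0 h00 h
    refine ⟨v, ⟨hv1, ?_⟩, hv3⟩
    rw [hdl v hv1, hv2, zero_div]
  refine ⟨⟨⟨PhX, ?_, ?_, ?_, fun z _ => rfl⟩, ?_⟩, ?_, ?_⟩
  · exact XPRx.cont (fun x : ℝ × ℂ => ps x.1 (cw x.1 x.2)) Wm _ _ hPc hWc hmap
  · exact XPRx.injx (fun x : ℝ × ℂ => ps x.1 (cw x.1 x.2)) Wm _ _ hPi hmap
      fun z z' s hz hz' h => (hW2 s hz.2).1 hz.1 hz'.1 h
  · intro z hz s hs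
    refine ⟨(hbody z hz s hs).1, hbd z hz s hs, hHT z hz s hs, ?_⟩
    constructor
    · intro h
      have h1 : PhX (z, s) ∈ TT.bd := hPRJ.2.2.2.1 h
      refine ⟨(hbd z hz s hs).1 h1, ?_⟩
      obtain ⟨v, hv1, hv2, hv3⟩ := hv z hz s hs h1
      rw [hv3, XPRx.skel_iff hv1.1] at h
      have h2 := XPRx.far hv1.1 hs hv2
      have h3 := hLSK true 2 v hv1 h (by
        rw [hdl v hv1, hv2, abs_le]
        have h4 := hs.1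
        have h5 := hs.2
        constructor <;> linarith)
      rw [hdl v hv1, hv2] at h3
      linarith
    · rintro ⟨h1, rfl⟩
      obtain ⟨v, hv1, hv2⟩ := hch z hz ((hbd z hz 0 hs).2 h1)
      rw [hv2, XPRx.skel_iff hv1.1.1]
      exact hCHE.2 true 2 hv1
  · obtain ⟨i, i', hii⟩ := hCHE.1 true 2
    refine ⟨i, i', fun z hz h1 => ?_⟩
    obtain ⟨v, hv1, hv2⟩ := hch z hz ((hbd z hz 0 h00).2 h1)
    rw [collar_TT.edge i i']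
    exact ⟨v, hii hv1, hv2.symm⟩
  · intro z hz
    have h1 := hbody z hz 0 h00
    have h2 : (fX z).1 = ((√(1 - ‖cw 0 (Wm (z, 0))‖ ^ 2) : ℝ) : ℂ) := by
      change ((√(1 - ‖cw 0 (Wm (z, 0))‖ ^ 2) : ℝ) : ℂ) * exp (((0 : ℝ) / 1000 : ℝ) * I) = _
      rw [zero_div, Complex.ofReal_zero, zero_mul, Complex.exp_zero, mul_one]
    have h3 : (fX z).1 ≠ 0 := (hPRJ.2.2.2.2.2.2.2.2.1 true (fX z) h1).1 rfl
    refine ⟨h1, ?_, ?_, ?_⟩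
    · rw [h2, Complex.ofReal_im]
    · rw [h2, Complex.ofReal_re]
      refine lt_of_le_of_ne (Real.sqrt_nonneg _) fun h4 => h3 ?_
      rw [h2, ← h4, Complex.ofReal_zero]
    · intro h4
      obtain ⟨v, hv1, hv2⟩ := hch z hz h4
      exact ⟨v, hv1, hv2.symm⟩
  · intro z hz him
    have h1 := (((hW2 0 h00).2.1 z hz).2.2).1 him
    exact (hP2 0 h00 (Wm (z, 0)) (hWD (z, 0) ⟨hz, h00⟩)).2.2.2.2 h1.1 h1.2

end Pool.Agent.LIX.O
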