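import Pool.Agent.LIX.StmtsP

/-!
# LIX, module ADJ (block P): disks with opposite labels are not adjacent
-/

set_option autoImplicit false

namespace Pool.Agent.LIX.PP

open Set Metric Pool.Agent.LIX.TR

namespace ADJ

theorem zero_mem_Disk : (0 : ℂ) ∈ Disk := by
  change ‖(0 : ℂ)‖ ≤ 1
  simp

/-- the middle point of the half disk -/
noncomputable def mid : ℂ := Complex.I / 2

theorem mid_im : mid.im = 1 / 2 := by
  simp [mid]

theorem mid_norm : ‖mid‖ = 1 / 2 := by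
  simp [mid]

theorem mid_mem : mid ∈ HDisk := by
  refine ⟨?_, ?_⟩
  · rw [mid_norm]; norm_num
  · rw [mid_im]; norm_num

theorem one_mem : (1 : ℂ) ∈ HDisk := by
  refine ⟨?_, ?_⟩
  · simp
  · simp

theorem zero_mem_Icc : (0 : ℝ) ∈ Icc (-1 : ℝ) 1 := by
  constructor <;> norm_num

theorem zero_mem : (0 : ℝ) ∈ Icc (0 : ℝ) 1 := by
  constructor <;> norm_num

theorem one_mem' : (1 : ℝ) ∈ Icc (0 : ℝ) 1 := by
  constructor <;> norm_num

/-- the facts which are used -/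
structure Facts : Prop where
  comp : ∀ f : ℂ → R4, IsCompPar stdTet HT f →
    IsCompPar cyl HC (fun z => th (f z)) ∧ ∀ z ∈ Disk, f z ∈ stdTet.body ∧ f z ∉ ends
  edge : ∀ f : ℂ → R4, IsEdgePar stdTet HT f →
    IsEdgePar cyl HC (fun z => th (f z)) ∧ ∀ z ∈ HDisk, f z ∈ stdTet.body ∧ f z ∉ ends
  img : ∀ x ∈ HT, th x ∈ HC
  inj : ∀ x ∈ stdTet.body, x ∉ ends → ∀ y ∈ stdTet.body, y ∉ ends → th x = th y → x = y
  skel : ∀ x ∈ stdTet.body, x ∉ ends → x ∈ stdTet.skel → th x ∈ cyl.skel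
  odd : ∀ p : R3, G (iota p) = - G p
  sidC : ∀ f, IsCompPar cyl HC f → (∀ z ∈ Disk, ‖z‖ < 1 → 0 < G (f z)) ∨
    (∀ z ∈ Disk, ‖z‖ < 1 → G (f z) < 0)
  sidE : ∀ f, IsEdgePar cyl HC f → (∀ z ∈ HDisk, 0 < z.im → 0 < G (f z)) ∨
    (∀ z ∈ HDisk, 0 < z.im → G (f z) < 0)

theorem facts (hTRS : Stmt_TRS) (hTR2 : Stmt_TR2) (hMOD : Stmt_MOD) (hGF : Stmt_GF)
    (hSID : Stmt_SID) (hCON : Stmt_CON) : Facts := by
  have hM : Model stdTet cyl ends ∅ th thi := hMOD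
  obtain ⟨hM', hH⟩ := hTRS _ _ _ _ _ _ _ _ hM
  have hsub : HC ⊆ cyl.body := hCON.2.2.2
  obtain ⟨h1, h2, h3⟩ := hH HC hsub (disjoint_empty _)
  have h4 := hTR2 _ _ _ _ _ _ _ _ hM' HT h2 h3
  have h5 : th '' HT = HC := h1
  rw [h5] at h4
  refine ⟨h4.1, h4.2, ?_, ?_, ?_, ?_, hSID.1, hSID.2⟩
  · intro x hx
    rw [← h5]
    exact mem_image_of_mem _ hx
  · intro x hx hxe y hy hye h
    rw [← (hM.maps x hx hxe).2.2, ← (hM.maps y hy hye).2.2, h]
  · intro x hx hxe hs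
    obtain ⟨i, hi⟩ := mem_iUnion.1 hs
    obtain ⟨j, hj⟩ := mem_iUnion.1 hi
    exact mem_iUnion.2 ⟨i, mem_iUnion.2 ⟨j, (hM.edge x hx hxe i j).1 hj⟩⟩
  · rintro ⟨u, v, w⟩
    exact hGF.2.2.2.1 u v w

theorem comp_mem_iff {f : ℂ → R4} (hf : IsCompPar stdTet HT f) {z : ℂ} (hz : z ∈ Disk) :
    f z ∉ stdTet.bd ∧ (f z ∈ HT ↔ ‖z‖ = 1) := by
  obtain ⟨⟨Φ, _, _, h3, h4⟩, _⟩ := hf
  have h5 := h3 z hz 0 zero_mem_Icc
  rw [h4 z hz] at h5
  exact ⟨h5.2.1, h5.2.2⟩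

theorem edge_mem_iff {f : ℂ → R4} (hf : IsEdgePar stdTet HT f) {z : ℂ} (hz : z ∈ HDisk) :
    (f z ∈ stdTet.bd ↔ ‖z‖ = 1) ∧ (f z ∈ HT ↔ z.im = 0) := by
  obtain ⟨⟨Φ, _, _, h3, h4⟩, _⟩ := hf
  have h5 := h3 z hz 0 zero_mem_Icc
  rw [h4 z hz] at h5
  exact ⟨h5.2.1, h5.2.2.1⟩

theorem not_both {D : Set R4} (h : ∃ f, IsEdgePar stdTet HT f ∧ D = f '' HDisk) :
    ¬ ∃ f, IsCompPar stdTet HT f ∧ D = f '' Disk := by
  rintro ⟨f', hf', hD'⟩
  obtain ⟨f, hf, hD⟩ := h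
  have h1 : f 1 ∈ D := by
    rw [hD]
    exact mem_image_of_mem _ one_mem
  have h2 : f 1 ∈ stdTet.bd := (edge_mem_iff hf one_mem).1.2 (by simp)
  rw [hD'] at h1
  obtain ⟨z, hz, hzf⟩ := h1
  rw [← hzf] at h2
  exact (comp_mem_iff hf' hz).1 h2

theorem side_comp (hF : Facts) {f : ℂ → R4} (hf : IsCompPar stdTet HT f) :
    (∀ x ∈ f '' Disk, x ∉ HT → 0 < G (th x)) ↔ 0 < G (th (f 0)) := by
  have h0 : ‖(0 : ℂ)‖ < 1 := by simp
  constructor
  · intro h
    refine h _ (mem_image_of_mem _ zero_mem_Disk) ?_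
    rw [(comp_mem_iff hf zero_mem_Disk).2]
    exact h0.ne
  · intro h
    rcases hF.sidC _ (hF.comp f hf).1 with h1 | h1
    · rintro x ⟨z, hz, rfl⟩ hx
      rw [(comp_mem_iff hf hz).2] at hx
      exact h1 z hz (lt_of_le_of_ne hz hx)
    · exact absurd h (not_lt.2 (h1 0 zero_mem_Disk h0).le)

theorem side_edge (hF : Facts) {f : ℂ → R4} (hf : IsEdgePar stdTet HT f) :
    (∀ x ∈ f '' HDisk, x ∉ HT → 0 < G (th x)) ↔ 0 < G (th (f mid)) := by
  have h0 : 0 < mid.im := by rw [mid_im]; norm_num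
  constructor
  · intro h
    refine h _ (mem_image_of_mem _ mid_mem) ?_
    rw [(edge_mem_iff hf mid_mem).2]
    exact h0.ne'
  · intro h
    rcases hF.sidE _ (hF.edge f hf).1 with h1 | h1
    · rintro x ⟨z, hz, rfl⟩ hx
      rw [(edge_mem_iff hf hz).2] at hx
      exact h1 z hz (lt_of_le_of_ne hz.2 (Ne.symm hx))
    · exact absurd h (not_lt.2 (h1 mid mid_mem h0).le)


theorem iota_iota (p : R3) : iota (iota p) = p := by
  obtain ⟨u, v, w⟩ := p
  simp [iota]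

theorem iota_skel {p : R3} (h : p ∈ cyl.skel) : iota p ∈ cyl.skel := by
  obtain ⟨i, hi⟩ := mem_iUnion.1 h
  obtain ⟨j, hj⟩ := mem_iUnion.1 hi
  obtain ⟨u, v, w⟩ := p
  have hw : |(-w : ℝ)| < 1 := by
    rw [abs_neg]
    exact hj.1
  have key : ∀ i j : Fin 4, cor i j (u, v, w) → ∃ i' : Fin 4, cor i' j (iota (u, v, w)) := by
    rintro i j ⟨h1, h2⟩
    rcases h1 with ⟨_, h1⟩ | ⟨_, h1⟩
    · refine ⟨1, Or.inr ⟨rfl, ?_⟩, h2⟩
      change -u = 1
      change u = -1 at h1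
      rw [h1, neg_neg]
    · refine ⟨0, Or.inl ⟨rfl, ?_⟩, h2⟩
      change -u = -1
      change u = 1 at h1
      rw [h1]
  rcases hj.2 with h1 | h1
  · obtain ⟨i', h2⟩ := key i j h1
    exact mem_iUnion.2 ⟨i', mem_iUnion.2 ⟨j, hw, Or.inl h2⟩⟩
  · obtain ⟨i', h2⟩ := key j i h1
    exact mem_iUnion.2 ⟨i', mem_iUnion.2 ⟨i, hw, Or.inl h2⟩⟩

/-- a compressing disk and an edge-compressing disk on opposite sides -/
theorem main (hF : Facts) (hIOT : Stmt_IOT) (hNAX : Stmt_NAX) {f e : ℂ → R4}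
    (hf : IsCompPar stdTet HT f) (he : IsEdgePar stdTet HT e)
    (h : (0 < G (th (f 0))) ↔ ¬ (0 < G (th (e mid))))
    (hs : f '' Disk ∩ e '' HDisk ⊆ stdTet.skel) : False := by
  have hf' := hF.comp f hf
  have he' := hF.edge e he
  have h0 : ‖(0 : ℂ)‖ < 1 := by simp
  have h1 : 0 < mid.im := by rw [mid_im]; norm_num
  have hfz : ∀ z ∈ Disk, ¬ ‖z‖ < 1 → G (th (f z)) = 0 := by
    intro z hz hz1
    have h2 : f z ∈ HT := (comp_mem_iff hf hz).2.2 (le_antisymm hz (not_lt.1 hz1))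
    exact (hF.img _ h2).2
  have hez : ∀ z ∈ HDisk, ¬ 0 < z.im → G (th (e z)) = 0 := by
    intro z hz hz1
    have h2 : e z ∈ HT := (edge_mem_iff he hz).2.2 (le_antisymm (not_lt.1 hz1) hz.2)
    exact (hF.img _ h2).2
  -- the intersection of the images
  have hsk : ∀ z ∈ Disk, ∀ w ∈ HDisk, th (f z) = th (e w) → th (f z) ∈ cyl.skel := by
    intro z hz w hw hzw
    have h2 : f z = e w := hF.inj _ (hf'.2 z hz).1 (hf'.2 z hz).2 _ (he'.2 w hw).1 (he'.2 w hw).2 hzw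
    refine hF.skel _ (hf'.2 z hz).1 (hf'.2 z hz).2 (hs ⟨mem_image_of_mem _ hz, ?_⟩)
    rw [h2]
    exact mem_image_of_mem _ hw
  rcases hF.sidC _ hf'.1 with hc | hc
  · -- side X
    rcases hF.sidE _ he'.1 with hd | hd
    · exact (h.1 (hc 0 zero_mem_Disk h0)) (hd mid mid_mem h1)
    · refine hNAX _ _ hf'.1 he'.1 ?_ ?_ ?_
      · intro z hz
        by_cases hz1 : ‖z‖ < 1
        · exact (hc z hz hz1).le
        · exact (hfz z hz hz1).ge
      · intro z hz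
        by_cases hz1 : 0 < z.im
        · exact (hd z hz hz1).le
        · exact (hez z hz hz1).le
      · rintro y ⟨⟨z, hz, hzy⟩, ⟨w, hw, hwy⟩⟩
        rw [← hzy]
        exact hsk z hz w hw (hzy.trans hwy.symm)
  · rcases hF.sidE _ he'.1 with hd | hd
    · refine hNAX _ _ (hIOT.1 _ hf'.1) (hIOT.2 _ he'.1) ?_ ?_ ?_
      · intro z hz
        rw [hF.odd]
        by_cases hz1 : ‖z‖ < 1
        · exact (neg_pos.2 (hc z hz hz1)).le
        · rw [hfz z hz hz1, neg_zero]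
      · intro z hz
        rw [hF.odd]
        by_cases hz1 : 0 < z.im
        · exact (neg_lt_zero.2 (hd z hz hz1)).le
        · rw [hez z hz hz1, neg_zero]
      · rintro y ⟨⟨z, hz, hzy⟩, ⟨w, hw, hwy⟩⟩
        rw [← hzy]
        apply iota_skel
        apply hsk z hz w hw
        have h2 : iota (th (f z)) = iota (th (e w)) := hzy.trans hwy.symm
        rw [← iota_iota (th (f z)), h2, iota_iota]
    · exact absurd (h.2 (not_lt.2 (hd mid mid_mem h1).le)) (not_lt.2 (hc 0 zero_mem_Disk h0).le)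

theorem lab_comp (hF : Facts) {f : ℂ → R4} (hf : IsCompPar stdTet HT f) :
    (0 < G (th (f 0)) → labD (f '' Disk) = 0) ∧ (¬ 0 < G (th (f 0)) → labD (f '' Disk) = 1) := by
  have hc1 : ∃ g, IsCompPar stdTet HT g ∧ f '' Disk = g '' Disk := ⟨f, hf, rfl⟩
  unfold labD
  rw [if_pos hc1]
  constructor
  · intro h
    rw [if_pos ((side_comp hF hf).2 h)]
  · intro h
    rw [if_neg (fun h2 => h ((side_comp hF hf).1 h2))]

theorem lab_edge (hF : Facts) {f : ℂ → R4} (hf : IsEdgePar stdTet HT f) :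
    (0 < G (th (f mid)) → labD (f '' HDisk) = 3) ∧
      (¬ 0 < G (th (f mid)) → labD (f '' HDisk) = 2) := by
  have hc1 : ¬ ∃ g, IsCompPar stdTet HT g ∧ f '' HDisk = g '' Disk := not_both ⟨f, hf, rfl⟩
  unfold labD
  rw [if_neg hc1]
  constructor
  · intro h
    rw [if_pos ((side_edge hF hf).2 h)]
  · intro h
    rw [if_neg (fun h2 => h ((side_edge hF hf).1 h2))]

/-- opposite labels of a compressing and an edge-compressing disk -/
theorem sides (hF : Facts) {f e : ℂ → R4} (hf : IsCompPar stdTet HT f)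
    (he : IsEdgePar stdTet HT e) (h : labD (f '' Disk) = labD (e '' HDisk) + 2) :
    (0 < G (th (f 0))) ↔ ¬ (0 < G (th (e mid))) := by
  obtain ⟨c1, c2⟩ := lab_comp hF hf
  obtain ⟨e1, e2⟩ := lab_edge hF he
  by_cases h1 : 0 < G (th (f 0))
  · by_cases h2 : 0 < G (th (e mid))
    · rw [c1 h1, e1 h2] at h
      exact absurd h (by decide)
    · exact ⟨fun _ => h2, fun _ => h1⟩
  · by_cases h2 : 0 < G (th (e mid))
    · exact ⟨fun h3 => absurd h3 h1, fun h3 => absurd h2 h3⟩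
    · rw [c2 h1, e2 h2] at h
      exact absurd h (by decide)

end ADJ

theorem t_ADJ : Stmt_TRS → Stmt_TR2 → Stmt_MOD → Stmt_GF → Stmt_SID → Stmt_IOT → Stmt_NAX →
    Stmt_CON → Stmt_ADJ := by
  intro hTRS hTR2 hMOD hGF hSID hIOT hNAX hCON
  have hF := ADJ.facts hTRS hTR2 hMOD hGF hSID hCON
  rintro ⟨D, hD⟩ ⟨D', hD'⟩ hlab hs
  change labD D = labD D' + 2 at hlab
  change D ∩ D' ⊆ stdTet.skel at hs
  have hlab' : labD D' = labD D + 2 := by
    rw [hlab, add_assoc]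
    have : (2 : ZMod 4) + 2 = 0 := by decide
    rw [this, add_zero]
  rcases hD with ⟨f, hf, rfl⟩ | ⟨f, hf, rfl⟩
  · rcases hD' with ⟨e, he, rfl⟩ | ⟨e, he, rfl⟩
    · obtain ⟨a1, a2⟩ := ADJ.lab_comp hF hf
      obtain ⟨b1, b2⟩ := ADJ.lab_comp hF he
      by_cases h1 : 0 < G (th (f 0))
      · by_cases h2 : 0 < G (th (e 0))
        · rw [a1 h1, b1 h2] at hlab
          exact absurd hlab (by decide)
        · rw [a1 h1, b2 h2] at hlab
          exact absurd hlab (by decide)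
      · by_cases h2 : 0 < G (th (e 0))
        · rw [a2 h1, b1 h2] at hlab
          exact absurd hlab (by decide)
        · rw [a2 h1, b2 h2] at hlab
          exact absurd hlab (by decide)
    · exact ADJ.main hF hIOT hNAX hf he (ADJ.sides hF hf he hlab) hs
  · rcases hD' with ⟨e, he, rfl⟩ | ⟨e, he, rfl⟩
    · exact ADJ.main hF hIOT hNAX he hf (ADJ.sides hF he hf hlab') (by rwa [inter_comm])
    · obtain ⟨a1, a2⟩ := ADJ.lab_edge hF hf
      obtain ⟨b1, b2⟩ := ADJ.lab_edge hF he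
      by_cases h1 : 0 < G (th (f ADJ.mid))
      · by_cases h2 : 0 < G (th (e ADJ.mid))
        · rw [a1 h1, b1 h2] at hlab
          exact absurd hlab (by decide)
        · rw [a1 h1, b2 h2] at hlab
          exact absurd hlab (by decide)
      · by_cases h2 : 0 < G (th (e ADJ.mid))
        · rw [a2 h1, b1 h2] at hlab
          exact absurd hlab (by decide)
        · rw [a2 h1, b2 h2] at hlab
          exact absurd hlab (by decide)

end Pool.Agent.LIX.PP
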