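import Pool.Agent.LIX.StmtsP

/-!
# LIX, module P_CHI: the Euler characteristic of the pair of pants
-/

set_option autoImplicit false

namespace Pool.Agent.LIX.PP

open Set Metric Pool.Agent.LIX.TR

/-- cells of the real line: even index a point, odd index an open interval -/
def cel (a : ℕ → ℝ) (i : ℕ) : Set ℝ :=
  if i % 2 = 0 then {a (i / 2)} else Ioo (a (i / 2)) (a (i / 2 + 1))

theorem cel_even (a : ℕ → ℝ) (k : ℕ) : cel a (2 * k) = {a k} := by
  unfold cel
  rw [if_pos (by omega), show 2 * k / 2 = k by omega]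

theorem cel_odd (a : ℕ → ℝ) (k : ℕ) : cel a (2 * k + 1) = Ioo (a k) (a (k + 1)) := by
  unfold cel
  rw [if_neg (by omega), show (2 * k + 1) / 2 = k by omega]

theorem cel_cover (a : ℕ → ℝ) (n : ℕ) (x : ℝ) (h0 : a 0 ≤ x) (h1 : x ≤ a n) :
    ∃ i, i < 2 * n + 1 ∧ x ∈ cel a i := by
  induction n with
  | zero =>
    refine ⟨0, by omega, ?_⟩
    have := cel_even a 0
    rw [Nat.mul_zero] at this
    rw [this]
    exact le_antisymm h1 h0
  | succ n ih =>
    rcases le_or_gt x (a n) with h | h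
    · obtain ⟨i, hi, hx⟩ := ih h
      exact ⟨i, by omega, hx⟩
    · rcases h1.eq_or_lt with h2 | h2
      · refine ⟨2 * (n + 1), by omega, ?_⟩
        rw [cel_even]
        exact h2
      · refine ⟨2 * n + 1, by omega, ?_⟩
        rw [cel_odd]
        exact ⟨h, h2⟩

theorem cel_sub (a : ℕ → ℝ) (i : ℕ) (x : ℝ) (hx : x ∈ cel a i) :
    a (i / 2) ≤ x ∧ x ≤ a ((i + 1) / 2) ∧ (i % 2 = 1 → a (i / 2) < x ∧ x < a ((i + 1) / 2)) := by
  rcases Nat.even_or_odd' i with ⟨k, rfl | rfl⟩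
  · rw [cel_even] at hx
    have hx' : x = a k := hx
    rw [show 2 * k / 2 = k by omega, show (2 * k + 1) / 2 = k by omega]
    exact ⟨hx'.ge, hx'.le, fun h => by omega⟩
  · rw [cel_odd] at hx
    rw [show (2 * k + 1) / 2 = k by omega, show (2 * k + 1 + 1) / 2 = k + 1 by omega]
    exact ⟨hx.1.le, hx.2.le, fun _ => ⟨hx.1, hx.2⟩⟩

/-- the cells are ordered -/
theorem cel_lt (a : ℕ → ℝ) (ha : StrictMono a) (i j : ℕ) (hij : i < j) (x : ℝ) (hx : x ∈ cel a i)
    (hy : x ∈ cel a j) : False := by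
  obtain ⟨h1, h2, h3⟩ := cel_sub a i x hx
  obtain ⟨g1, g2, g3⟩ := cel_sub a j x hy
  have h4 : a ((i + 1) / 2) ≤ a (j / 2) := ha.monotone (by omega)
  rcases Nat.mod_two_eq_zero_or_one i with hi | hi
  · rcases Nat.mod_two_eq_zero_or_one j with hj | hj
    · have : a ((i + 1) / 2) < a (j / 2) := ha (by omega)
      linarith
    · have := (g3 hj).1
      linarith
  · have := (h3 hi).2
    linarith

theorem cel_inj (a : ℕ → ℝ) (ha : StrictMono a) (i j : ℕ) (x : ℝ) (hx : x ∈ cel a i)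
    (hy : x ∈ cel a j) : i = j := by
  rcases lt_trichotomy i j with h | h | h
  · exact (cel_lt a ha i j h x hx hy).elim
  · exact h
  · exact (cel_lt a ha j i h x hy hx).elim

theorem cel_clos (a : ℕ → ℝ) (ha : StrictMono a) (n i : ℕ) (hi : i < 2 * n + 1) (x : ℝ)
    (hx : x ∈ closure (cel a i)) :
    ∃ j, j < 2 * n + 1 ∧ x ∈ cel a j ∧ (j = i ∨ j % 2 < i % 2) := by
  rcases Nat.even_or_odd' i with ⟨k, rfl | rfl⟩
  · rw [cel_even, closure_singleton] at hx
    refine ⟨2 * k, hi, ?_, Or.inl rfl⟩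
    rw [cel_even]
    exact hx
  · have hk : a k < a (k + 1) := ha (Nat.lt_succ_self k)
    rw [cel_odd, closure_Ioo hk.ne] at hx
    rcases hx.1.eq_or_lt with h1 | h1
    · refine ⟨2 * k, by omega, ?_, Or.inr (by omega)⟩
      rw [cel_even]
      exact h1.symm
    · rcases hx.2.eq_or_lt with h2 | h2
      · refine ⟨2 * (k + 1), by omega, ?_, Or.inr (by omega)⟩
        rw [cel_even]
        exact h2
      · refine ⟨2 * k + 1, hi, ?_, Or.inl rfl⟩
        rw [cel_odd]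
        exact ⟨h1, h2⟩

/-- a bounded open interval is a line -/
theorem ioo_homeo (a b : ℝ) (h : a < b) : Nonempty (↥(Ioo a b) ≃ₜ ℝ) := by
  rw [Real.Ioo_eq_ball]
  have hr : 0 < (b - a) / 2 := by linarith
  let e := (OpenPartialHomeomorph.univBall (E := ℝ) ((a + b) / 2) ((b - a) / 2))
  have h1 : e.source = univ := OpenPartialHomeomorph.univBall_source _ _
  have h2 : e.target = ball ((a + b) / 2) ((b - a) / 2) := OpenPartialHomeomorph.univBall_target _ hr
  have f := e.toHomeomorphSourceTarget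
  rw [h1, h2] at f
  exact ⟨f.symm.trans (Homeomorph.Set.univ ℝ)⟩

theorem cel_homeo (a : ℕ → ℝ) (ha : StrictMono a) (i : ℕ) :
    Nonempty (↥(cel a i) ≃ₜ (Fin (i % 2) → ℝ)) := by
  rcases Nat.even_or_odd' i with ⟨k, rfl | rfl⟩
  · rw [cel_even, show 2 * k % 2 = 0 by omega]
    exact ⟨Homeomorph.homeomorphOfUnique _ _⟩
  · rw [cel_odd, show (2 * k + 1) % 2 = 1 by omega]
    obtain ⟨e⟩ := ioo_homeo _ _ (ha (Nat.lt_succ_self k))
    exact ⟨e.trans (Homeomorph.funUnique (Fin 1) ℝ).symm⟩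

/-- the Euler characteristic with any finite index type -/
theorem hasChi_of {Y : Type*} [TopologicalSpace Y] {ι : Type} [Fintype ι] (H : Set Y) (n : ℤ)
    (c : ι → Set Y) (d : ι → ℕ) (h1 : (⋃ i, c i) = H) (h2 : ∀ i j, i ≠ j → Disjoint (c i) (c j))
    (h3 : ∀ i, Nonempty (↥(c i) ≃ₜ (Fin (d i) → ℝ)))
    (h4 : ∀ i, ∀ x ∈ closure (c i), x ∉ c i → ∃ j, d j < d i ∧ x ∈ c j)
    (h5 : n = ∑ i, (-1) ^ d i) : HasChi H n := by
  let e := Fintype.equivFin ι
  refine ⟨Fintype.card ι, fun k => c (e.symm k), fun k => d (e.symm k), ?_, ?_, ?_, ?_, ?_⟩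
  · rw [← h1]
    exact e.symm.surjective.iUnion_comp c
  · intro i j hij
    exact h2 _ _ (fun h => hij (e.symm.injective h))
  · intro i
    exact h3 _
  · rintro i x ⟨hx, hx'⟩
    obtain ⟨j, hj, hxj⟩ := h4 _ x hx hx'
    refine mem_iUnion.2 ⟨e j, mem_iUnion.2 ⟨?_, ?_⟩⟩
    · change d (e.symm (e j)) < d (e.symm i)
      rw [Equiv.symm_apply_apply]
      exact hj
    · change x ∈ c (e.symm (e j))
      rw [Equiv.symm_apply_apply]
      exact hxj
  · rw [h5]
    exact (Equiv.sum_comp e.symm (fun i => ((-1 : ℤ)) ^ d i)).symm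

/-- product of two cells -/
theorem prod_homeo (s t : Set ℝ) (m n : ℕ) (h1 : Nonempty (↥s ≃ₜ (Fin m → ℝ)))
    (h2 : Nonempty (↥t ≃ₜ (Fin n → ℝ))) : Nonempty (↥(s ×ℂ t) ≃ₜ (Fin (m + n) → ℝ)) := by
  obtain ⟨e1⟩ := h1
  obtain ⟨e2⟩ := h2
  have e3 : ↥(s ×ℂ t) ≃ₜ ↥s × ↥t :=
    { toFun := fun z => (⟨z.1.re, z.2.1⟩, ⟨z.1.im, z.2.2⟩)
      invFun := fun p => ⟨⟨p.1.1, p.2.1⟩, p.1.2, p.2.2⟩
      left_inv := fun z => rfl
      right_inv := fun p => rfl
      continuous_toFun := by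
        refine Continuous.prodMk ?_ ?_
        · exact (Complex.continuous_re.comp continuous_subtype_val).subtype_mk _
        · exact (Complex.continuous_im.comp continuous_subtype_val).subtype_mk _
      continuous_invFun := by
        refine Continuous.subtype_mk ?_ _
        exact Complex.equivRealProdCLM.symm.continuous.comp
          ((continuous_subtype_val.comp continuous_fst).prodMk
            (continuous_subtype_val.comp continuous_snd)) }
  exact ⟨e3.trans ((e1.prodCongr e2).trans (Fin.appendHomeomorph m n))⟩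

theorem continuous_pr : Continuous pr := by
  have : Continuous (fun p : R3 => (((1 - |p.2.2|) * p.1 - p.2.2 / 2, (1 - |p.2.2|) * p.2.1) : ℝ × ℝ)) := by
    fun_prop
  exact Complex.equivRealProdCLM.symm.continuous.comp this

theorem image_homeo {X Y : Type*} [TopologicalSpace X] [TopologicalSpace Y] (f : X → Y) (g : Y → X)
    (s : Set X) (hf : ContinuousOn f s) (hg : Continuous g) (h : ∀ x ∈ s, g (f x) = x) :
    Nonempty (↥(f '' s) ≃ₜ ↥s) := by
  refine ⟨{
    toFun := fun p => ⟨g p.1, ?_⟩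
    invFun := fun x => ⟨f x.1, mem_image_of_mem f x.2⟩
    left_inv := ?_
    right_inv := ?_
    continuous_toFun := ?_
    continuous_invFun := ?_ }⟩
  · obtain ⟨x, hx, hxp⟩ := p.2
    rw [← hxp, h x hx]
    exact hx
  · rintro ⟨p, x, hx, rfl⟩
    apply Subtype.ext
    change f (g (f x)) = f x
    rw [h x hx]
  · rintro ⟨x, hx⟩
    apply Subtype.ext
    exact h x hx
  · exact (hg.comp continuous_subtype_val).subtype_mk _
  · exact (continuousOn_iff_continuous_domRestrict.1 hf).subtype_mk _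

/-- the division points of the `x`-axis -/
noncomputable def ax (k : ℕ) : ℝ :=
  if k = 0 then -1 else if k = 1 then -4 / 7 else if k = 2 then -2 / 7 else
  if k = 3 then 2 / 7 else if k = 4 then 4 / 7 else (k : ℝ) - 4

/-- the division points of the `y`-axis -/
noncomputable def ay (k : ℕ) : ℝ :=
  if k = 0 then -1 else if k = 1 then -1 / 7 else if k = 2 then 1 / 7 else (k : ℝ) - 2

theorem ax_mono : StrictMono ax := by
  refine strictMono_nat_of_lt_succ fun k => ?_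
  rcases k with _ | _ | _ | _ | _ | k
  · norm_num [ax]
  · norm_num [ax]
  · norm_num [ax]
  · norm_num [ax]
  · norm_num [ax]
  · simp only [ax]
    rw [if_neg (by omega), if_neg (by omega), if_neg (by omega), if_neg (by omega),
      if_neg (by omega), if_neg (by omega), if_neg (by omega), if_neg (by omega),
      if_neg (by omega), if_neg (by omega)]
    push_cast
    linarith

theorem ay_mono : StrictMono ay := by
  refine strictMono_nat_of_lt_succ fun k => ?_
  rcases k with _ | _ | _ | k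
  · norm_num [ay]
  · norm_num [ay]
  · norm_num [ay]
  · simp only [ay]
    rw [if_neg (by omega), if_neg (by omega), if_neg (by omega), if_neg (by omega),
      if_neg (by omega), if_neg (by omega)]
    push_cast
    linarith

theorem ax0 : ax 0 = -1 := by norm_num [ax]
theorem ax1 : ax 1 = -4 / 7 := by norm_num [ax]
theorem ax2 : ax 2 = -2 / 7 := by norm_num [ax]
theorem ax3 : ax 3 = 2 / 7 := by norm_num [ax]
theorem ax4 : ax 4 = 4 / 7 := by norm_num [ax]
theorem ax5 : ax 5 = 1 := by norm_num [ax]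
theorem ay0 : ay 0 = -1 := by norm_num [ay]
theorem ay1 : ay 1 = -1 / 7 := by norm_num [ay]
theorem ay2 : ay 2 = 1 / 7 := by norm_num [ay]
theorem ay3 : ay 3 = 1 := by norm_num [ay]

/-- the index set of the cells -/
abbrev Idx : Type := {p : Fin 11 × Fin 7 // ¬ (p.2.1 = 3 ∧ (p.1.1 = 3 ∨ p.1.1 = 7))}

theorem idx_sum : (-1 : ℤ) = ∑ p : Idx, (-1) ^ (p.1.1.1 % 2 + p.1.2.1 % 2) := by
  decide +kernel

/-- the cells of the planar pair of pants -/
def pc (p : Fin 11 × Fin 7) : Set ℂ := cel ax p.1.1 ×ℂ cel ay p.2.1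

theorem mem_pc_33 (z : ℂ) : z ∈ cel ax 3 ×ℂ cel ay 3 ↔
    (-4 / 7 < z.re ∧ z.re < -2 / 7 ∧ |z.im| < 1 / 7) := by
  have h1 := cel_odd ax 1
  have h2 := cel_odd ay 1
  norm_num at h1 h2
  rw [h1, h2, Complex.mem_reProdIm, ax1, ax2, ay1, ay2, abs_lt, mem_Ioo, mem_Ioo, neg_div 7 (1 : ℝ)]
  exact and_assoc

theorem mem_pc_73 (z : ℂ) : z ∈ cel ax 7 ×ℂ cel ay 3 ↔
    (2 / 7 < z.re ∧ z.re < 4 / 7 ∧ |z.im| < 1 / 7) := by
  have h1 := cel_odd ax 3
  have h2 := cel_odd ay 1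
  norm_num at h1 h2
  rw [h1, h2, Complex.mem_reProdIm, ax3, ax4, ay1, ay2, abs_lt, mem_Ioo, mem_Ioo, neg_div 7 (1 : ℝ)]
  exact and_assoc

theorem pc_inj (p q : Fin 11 × Fin 7) (z : ℂ) (h1 : z ∈ pc p) (h2 : z ∈ pc q) : p = q := by
  apply Prod.ext
  · exact Fin.ext (cel_inj ax ax_mono _ _ _ h1.1 h2.1)
  · exact Fin.ext (cel_inj ay ay_mono _ _ _ h1.2 h2.2)

theorem pc_cover (z : ℂ) (h1 : |z.re| ≤ 1) (h2 : |z.im| ≤ 1) : ∃ p, z ∈ pc p := by
  rw [abs_le] at h1 h2
  obtain ⟨i, hi, hi'⟩ := cel_cover ax 5 z.re (by rw [ax0]; exact h1.1) (by rw [ax5]; exact h1.2)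
  obtain ⟨j, hj, hj'⟩ := cel_cover ay 3 z.im (by rw [ay0]; exact h2.1) (by rw [ay3]; exact h2.2)
  exact ⟨(⟨i, hi⟩, ⟨j, hj⟩), hi', hj'⟩

theorem pc_sub (p : Idx) : pc p.1 ⊆ PQ := by
  intro z hz
  obtain ⟨h1, h2, -⟩ := cel_sub ax _ _ hz.1
  obtain ⟨g1, g2, -⟩ := cel_sub ay _ _ hz.2
  have hi := p.1.1.2
  have hj := p.1.2.2
  have e1 : ax 0 ≤ ax (p.1.1.1 / 2) := ax_mono.monotone (by omega)
  have e2 : ax ((p.1.1.1 + 1) / 2) ≤ ax 5 := ax_mono.monotone (by omega)
  have e3 : ay 0 ≤ ay (p.1.2.1 / 2) := ay_mono.monotone (by omega)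
  have e4 : ay ((p.1.2.1 + 1) / 2) ≤ ay 3 := ay_mono.monotone (by omega)
  rw [ax0] at e1
  rw [ax5] at e2
  rw [ay0] at e3
  rw [ay3] at e4
  refine ⟨abs_le.2 ⟨by linarith, by linarith⟩, abs_le.2 ⟨by linarith, by linarith⟩, ?_, ?_⟩
  · intro h
    have h' := (mem_pc_33 z).2 h
    have := pc_inj p.1 (⟨3, by norm_num⟩, ⟨3, by norm_num⟩) z hz h'
    apply p.2
    rw [this]
    exact ⟨rfl, Or.inl rfl⟩
  · intro h
    have h' := (mem_pc_73 z).2 h
    have := pc_inj p.1 (⟨7, by norm_num⟩, ⟨3, by norm_num⟩) z hz h'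
    apply p.2
    rw [this]
    exact ⟨rfl, Or.inr rfl⟩

theorem pc_union : (⋃ p : Idx, pc p.1) = PQ := by
  apply Subset.antisymm
  · exact iUnion_subset pc_sub
  · rintro z ⟨h1, h2, h3, h4⟩
    obtain ⟨p, hp⟩ := pc_cover z h1 h2
    refine mem_iUnion.2 ⟨⟨p, ?_⟩, hp⟩
    rintro ⟨h5, h6 | h6⟩
    · apply h3
      have : z ∈ pc p := hp
      unfold pc at this
      rw [h5, h6] at this
      exact (mem_pc_33 z).1 this
    · apply h4
      have : z ∈ pc p := hp
      unfold pc at this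
      rw [h5, h6] at this
      exact (mem_pc_73 z).1 this

theorem pc_clos (p : Idx) (z : ℂ) (hz : z ∈ closure (pc p.1)) (hz' : z ∉ pc p.1) :
    ∃ q : Idx, q.1.1.1 % 2 + q.1.2.1 % 2 < p.1.1.1 % 2 + p.1.2.1 % 2 ∧ z ∈ pc q.1 := by
  unfold pc at hz
  rw [Complex.closure_reProdIm] at hz
  obtain ⟨i, hi, hzi, hi'⟩ := cel_clos ax ax_mono 5 _ p.1.1.2 _ hz.1
  obtain ⟨j, hj, hzj, hj'⟩ := cel_clos ay ay_mono 3 _ p.1.2.2 _ hz.2
  have hlt : i % 2 + j % 2 < p.1.1.1 % 2 + p.1.2.1 % 2 := by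
    rcases hi' with rfl | hi'
    · rcases hj' with rfl | hj'
      · exact (hz' ⟨hzi, hzj⟩).elim
      · omega
    · rcases hj' with rfl | hj'
      · omega
      · omega
  refine ⟨⟨(⟨i, hi⟩, ⟨j, hj⟩), ?_⟩, hlt, hzi, hzj⟩
  rintro ⟨h5, h6⟩
  change j = 3 at h5
  change i = 3 ∨ i = 7 at h6
  omega

theorem PQ_closed : IsClosed PQ := by
  have : PQ = {z : ℂ | |z.re| ≤ 1} ∩ {z : ℂ | |z.im| ≤ 1} ∩
      {z : ℂ | -4 / 7 < z.re ∧ z.re < -2 / 7 ∧ |z.im| < 1 / 7}ᶜ ∩
      {z : ℂ | 2 / 7 < z.re ∧ z.re < 4 / 7 ∧ |z.im| < 1 / 7}ᶜ := by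
    ext z
    simp only [PQ, mem_ofPred_eq, mem_inter_iff, mem_compl_iff, and_assoc]
  rw [this]
  have hre := Complex.continuous_re
  have him := Complex.continuous_im
  refine IsClosed.inter (IsClosed.inter (IsClosed.inter ?_ ?_) ?_) ?_
  · exact isClosed_le hre.abs continuous_const
  · exact isClosed_le him.abs continuous_const
  · refine IsOpen.isClosed_compl ?_
    exact (isOpen_lt continuous_const hre).inter
      ((isOpen_lt hre continuous_const).inter (isOpen_lt him.abs continuous_const))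
  · refine IsOpen.isClosed_compl ?_
    exact (isOpen_lt continuous_const hre).inter
      ((isOpen_lt hre continuous_const).inter (isOpen_lt him.abs continuous_const))

theorem PQ_compact : IsCompact PQ := by
  refine (isCompact_closedBall (0 : ℂ) 2).of_isClosed_subset PQ_closed ?_
  intro z hz
  rw [mem_closedBall, dist_zero_right]
  have := Complex.norm_le_abs_re_add_abs_im z
  linarith [hz.1, hz.2.1]

theorem t_CHI : Stmt_SEC → Stmt_CHI := by
  rintro ⟨hs1, hs2, hs3⟩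
  have hleft : ∀ z ∈ PQ, pr (sec z) = z := fun z hz => (hs1 z hz).2
  have hinj : InjOn sec PQ := fun z hz w hw h => by
    rw [← hleft z hz, ← hleft w hw, h]
  have himg : sec '' PQ = HC := by
    apply Subset.antisymm
    · rintro _ ⟨z, hz, rfl⟩
      exact (hs1 z hz).1
    · intro p hp
      exact ⟨pr p, (hs2 p hp).1, (hs2 p hp).2⟩
  refine hasChi_of (ι := Idx) HC (-1) (fun p => sec '' pc p.1)
    (fun p => p.1.1.1 % 2 + p.1.2.1 % 2) ?_ ?_ ?_ ?_ idx_sum
  · rw [← image_iUnion, pc_union, himg]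
  · intro p q hpq
    rw [disjoint_left]
    rintro _ ⟨z, hz, rfl⟩ ⟨w, hw, hwz⟩
    have : w = z := hinj (pc_sub q hw) (pc_sub p hz) hwz
    subst this
    exact hpq (Subtype.ext (pc_inj _ _ _ hz hw))
  · intro p
    obtain ⟨e1⟩ := image_homeo sec pr (pc p.1) (hs3.mono (pc_sub p)) continuous_pr
      (fun z hz => hleft z (pc_sub p hz))
    obtain ⟨e2⟩ := prod_homeo _ _ _ _ (cel_homeo ax ax_mono p.1.1.1) (cel_homeo ay ay_mono p.1.2.1)
    exact ⟨e1.trans e2⟩
  · intro p y hy hy'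
    have hc : closure (pc p.1) ⊆ PQ := closure_minimal (pc_sub p) PQ_closed
    have hcl : IsClosed (sec '' closure (pc p.1)) := by
      refine IsCompact.isClosed ?_
      exact (PQ_compact.of_isClosed_subset isClosed_closure hc).image_of_continuousOn (hs3.mono hc)
    have h1 : closure (sec '' pc p.1) ⊆ sec '' closure (pc p.1) :=
      closure_minimal (image_mono subset_closure) hcl
    obtain ⟨z, hz, rfl⟩ := h1 hy
    obtain ⟨q, hq, hq'⟩ := pc_clos p z hz (fun h => hy' (mem_image_of_mem _ h))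
    exact ⟨q, hq, mem_image_of_mem _ hq'⟩

end Pool.Agent.LIX.PP
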