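import Pool.Agent.LIX.StmtsP

/-!
# LIX, module CON: the surface `HC` is connected, compact and of length `12`
-/

set_option autoImplicit false

namespace Pool.Agent.LIX.PP

open Set Metric Pool.Agent.LIX.TR

namespace CON

/-- a closed rectangle -/
def rect (a b c d : ℝ) : Set ℂ := {z | a ≤ z.re ∧ z.re ≤ b ∧ c ≤ z.im ∧ z.im ≤ d}

theorem rect_preconn (a b c d : ℝ) : IsPreconnected (rect a b c d) := by
  have h : Convex ℝ (rect a b c d) := by
    have e : rect a b c d = Complex.reLm ⁻¹' (Icc a b) ∩ Complex.imLm ⁻¹' (Icc c d) := by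
      ext z
      simp only [rect, mem_setOf_eq, mem_Icc, mem_inter_iff, mem_preimage, Complex.reLm_coe,
        Complex.imLm_coe]
      tauto
    rw [e]
    exact ((convex_Icc a b).linear_preimage Complex.reLm).inter
      ((convex_Icc c d).linear_preimage Complex.imLm)
  exact h.isPreconnected

theorem PQ_eq : PQ = ((((rect (-1) 1 (1 / 7) 1 ∪ rect (-1) (-4 / 7) (-1) 1) ∪
    rect (-2 / 7) (2 / 7) (-1) 1) ∪ rect (4 / 7) 1 (-1) 1) ∪ rect (-1) 1 (-1) (-1 / 7)) := by
  ext z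
  simp only [PQ, rect, mem_union, mem_setOf_eq]
  constructor
  · rintro ⟨h1, h2, h3, h4⟩
    rw [abs_le] at h1 h2
    rw [abs_lt] at h3 h4
    by_contra hcon
    simp only [not_or, not_and, not_le] at hcon
    obtain ⟨⟨⟨⟨c1, c2⟩, c3⟩, c4⟩, c5⟩ := hcon
    -- the imaginary part is small
    have i1 : z.im < 1 / 7 := by
      by_contra h
      push Not at h
      exact absurd h2.2 (not_le.2 (c1 h1.1 h1.2 h))
    have i2 : -1 / 7 < z.im := by
      exact c5 h1.1 h1.2 h2.1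
    have r1 : -4 / 7 < z.re := by
      by_contra h
      push Not at h
      exact absurd h2.2 (not_le.2 (c2 h1.1 h h2.1))
    have r4 : z.re < 4 / 7 := by
      by_contra h
      push Not at h
      exact absurd h2.2 (not_le.2 (c4 h h1.2 h2.1))
    have i3 : -(1 / 7) < z.im ∧ z.im < 1 / 7 := ⟨by linarith, i1⟩
    have r2 : -2 / 7 ≤ z.re := by
      by_contra h
      push Not at h
      exact h3 ⟨r1, h, i3⟩
    have r3 : z.re ≤ 2 / 7 := by
      by_contra h
      push Not at h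
      exact h4 ⟨h, r4, i3⟩
    exact absurd h2.2 (not_le.2 (c3 r2 r3 h2.1))
  · rintro ((((⟨h1, h2, h3, h4⟩ | ⟨h1, h2, h3, h4⟩) | ⟨h1, h2, h3, h4⟩) | ⟨h1, h2, h3, h4⟩) |
      ⟨h1, h2, h3, h4⟩)
    all_goals
      refine ⟨abs_le.2 ⟨by linarith, by linarith⟩, abs_le.2 ⟨by linarith, by linarith⟩, ?_, ?_⟩
      all_goals
        rintro ⟨k1, k2, k3⟩
        rw [abs_lt] at k3
        obtain ⟨k3, k4⟩ := k3
        linarith

theorem PQ_conn : IsConnected PQ := by
  refine ⟨⟨⟨0, 1⟩, ?_⟩, ?_⟩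
  · rw [PQ_eq]
    refine Or.inl (Or.inl (Or.inl (Or.inl ?_)))
    simp only [rect, mem_setOf_eq]
    norm_num
  · rw [PQ_eq]
    refine IsPreconnected.union ⟨0, -1⟩ ?_ ?_ (IsPreconnected.union ⟨1, 1⟩ ?_ ?_
      (IsPreconnected.union ⟨0, 1⟩ ?_ ?_ (IsPreconnected.union ⟨-1, 1⟩ ?_ ?_ (rect_preconn _ _ _ _)
        (rect_preconn _ _ _ _)) (rect_preconn _ _ _ _)) (rect_preconn _ _ _ _))
      (rect_preconn _ _ _ _)
    · refine Or.inl (Or.inr ?_)
      simp only [rect, mem_setOf_eq]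
      norm_num
    · simp only [rect, mem_setOf_eq]
      norm_num
    · refine Or.inl (Or.inl ?_)
      simp only [rect, mem_setOf_eq]
      norm_num
    · simp only [rect, mem_setOf_eq]
      norm_num
    · refine Or.inl ?_
      simp only [rect, mem_setOf_eq]
      norm_num
    · simp only [rect, mem_setOf_eq]
      norm_num
    · simp only [rect, mem_setOf_eq]
      norm_num
    · simp only [rect, mem_setOf_eq]
      norm_num

theorem rect_closed (a b c d : ℝ) : IsClosed (rect a b c d) := by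
  have h1 : IsClosed {z : ℂ | a ≤ z.re} := isClosed_le continuous_const Complex.continuous_re
  have h2 : IsClosed {z : ℂ | z.re ≤ b} := isClosed_le Complex.continuous_re continuous_const
  have h3 : IsClosed {z : ℂ | c ≤ z.im} := isClosed_le continuous_const Complex.continuous_im
  have h4 : IsClosed {z : ℂ | z.im ≤ d} := isClosed_le Complex.continuous_im continuous_const
  exact h1.inter (h2.inter (h3.inter h4))

theorem PQ_compact : IsCompact PQ := by
  apply Metric.isCompact_of_isClosed_isBounded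
  · rw [PQ_eq]
    exact ((((rect_closed _ _ _ _).union (rect_closed _ _ _ _)).union
      (rect_closed _ _ _ _)).union (rect_closed _ _ _ _)).union (rect_closed _ _ _ _)
  · rw [Metric.isBounded_iff_subset_closedBall (0 : ℂ)]
    refine ⟨2, fun z hz => ?_⟩
    rw [mem_closedBall_zero_iff]
    have h := Complex.norm_le_abs_re_add_abs_im z
    have h1 := hz.1
    have h2 := hz.2.1
    linarith

theorem HC_eq (hS : Stmt_SEC) : HC = sec '' PQ := by
  obtain ⟨h1, h2, _⟩ := hS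
  ext p
  constructor
  · intro hp
    exact ⟨pr p, (h2 p hp).1, (h2 p hp).2⟩
  · rintro ⟨z, hz, rfl⟩
    exact (h1 z hz).1

/-- the heights of the points of `HC` on the corner lines -/
theorem G_corner (hG : Stmt_GF) {u v w : ℝ} (hu : |u| = 1) (hv : |v| = 1) (hw : |w| < 1) :
    G (u, v, w) = 0 ↔ w = -(6 / 7) ∨ w = 0 ∨ w = 6 / 7 := by
  obtain ⟨_, h3, h4, h5, _, h6, _⟩ := hG
  rw [abs_lt] at hw
  have hg : ∀ u' : ℝ, |u'| = 1 → g1 u' v = 1 := fun u' hu' =>
    ((h6 u' v).2 hu'.le hv.le).2 (Or.inl hu')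
  have hpos : ∀ u' w' : ℝ, |u'| = 1 → 0 < w' → w' < 1 → (G (u', v, w') = 0 ↔ w' = 6 / 7) := by
    intro u' w' hu' h0 h1
    rw [(h3 u' v w' hu'.le hv.le h0 h1).1, hg u' hu']
    constructor
    · intro h; linarith
    · intro h; rw [h]; norm_num
  have hu' : |(-u)| = 1 := by rw [abs_neg]; exact hu
  rcases lt_trichotomy w 0 with h | h | h
  · have e := h5 u v w
    have e2 := hpos (-u) (-w) hu' (by linarith) (by linarith)
    rw [e, neg_eq_zero] at e2
    rw [e2]
    constructor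
    · intro h7; left; linarith
    · rintro (h7 | h7 | h7) <;> linarith
  · subst h
    rw [(h4 u v).1, hg u hu, hg (-u) hu']
    constructor
    · intro _; right; left; rfl
    · intro _; norm_num
  · rw [hpos u w hu h (by linarith)]
    constructor
    · intro h7; right; right; exact h7
    · rintro (h7 | h7 | h7)
      · linarith
      · linarith
      · exact h7

theorem mem_skel {p : R3} : p ∈ cyl.skel ↔ |p.2.2| < 1 ∧ (p.1 = -1 ∨ p.1 = 1) ∧
    (p.2.1 = -1 ∨ p.2.1 = 1) := by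
  simp only [Cells.skel, mem_iUnion]
  constructor
  · rintro ⟨i, j, h1, h2⟩
    refine ⟨h1, ?_⟩
    rcases h2 with ⟨h2, h3⟩ | ⟨h2, h3⟩ <;> tauto
  · rintro ⟨h1, h2 | h2, h3 | h3⟩
    · exact ⟨0, 2, h1, Or.inl ⟨Or.inl ⟨rfl, h2⟩, Or.inl ⟨rfl, h3⟩⟩⟩
    · exact ⟨0, 3, h1, Or.inl ⟨Or.inl ⟨rfl, h2⟩, Or.inr ⟨rfl, h3⟩⟩⟩
    · exact ⟨1, 2, h1, Or.inl ⟨Or.inr ⟨rfl, h2⟩, Or.inl ⟨rfl, h3⟩⟩⟩
    · exact ⟨1, 3, h1, Or.inl ⟨Or.inr ⟨rfl, h2⟩, Or.inr ⟨rfl, h3⟩⟩⟩

open Classical in
theorem inter_eq (hG : Stmt_GF) : HC ∩ cyl.skel =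
    (((({-1, 1} : Finset ℝ) ×ˢ (({-1, 1} : Finset ℝ) ×ˢ ({-(6 / 7), 0, 6 / 7} : Finset ℝ)) :
      Finset (ℝ × ℝ × ℝ))) : Set (ℝ × ℝ × ℝ)) := by
  ext p
  obtain ⟨u, v, w⟩ := p
  rw [mem_inter_iff, mem_skel, Finset.mem_coe, Finset.mem_product, Finset.mem_product]
  simp only [Finset.mem_insert, Finset.mem_singleton]
  have habs : ∀ x : ℝ, (x = -1 ∨ x = 1) → |x| = 1 := by
    rintro x (rfl | rfl) <;> simp
  constructor
  · rintro ⟨⟨_, h2⟩, h3, h4, h5⟩
    exact ⟨h4, h5, (G_corner hG (habs u h4) (habs v h5) h3).1 h2⟩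
  · rintro ⟨h4, h5, h6⟩
    have h3 : |w| < 1 := by
      rw [abs_lt]
      rcases h6 with rfl | rfl | rfl <;> constructor <;> norm_num
    refine ⟨⟨⟨(habs u h4).le, (habs v h5).le, h3⟩, ?_⟩, h3, h4, h5⟩
    exact (G_corner hG (habs u h4) (habs v h5) h3).2 h6

theorem len_eq (hG : Stmt_GF) : len cyl HC = 12 := by
  classical
  have c2 : (({-1, 1} : Finset ℝ)).card = 2 := Finset.card_pair (by norm_num)
  have c3 : (({-(6 / 7), 0, 6 / 7} : Finset ℝ)).card = 3 := by
    rw [Finset.card_insert_of_notMem, Finset.card_pair (by norm_num)]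
    simp only [Finset.mem_insert, Finset.mem_singleton]
    norm_num
  rw [len, inter_eq hG, Set.ncard_coe_finset, Finset.card_product, Finset.card_product, c2, c3]

end CON

theorem t_CON : Stmt_SEC → Stmt_GF → Stmt_CON := by
  intro hS hG
  have e := CON.HC_eq hS
  refine ⟨?_, CON.len_eq hG, ?_, fun p hp => hp.1⟩
  · rw [e]
    exact CON.PQ_conn.image _ hS.2.2
  · rw [e]
    exact CON.PQ_compact.image_of_continuousOn hS.2.2

end Pool.Agent.LIX.PP
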