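import Pool.Agent.LIX.StmtsP

/-!
# LIX, module DCX: an explicit compressing disk
-/

set_option autoImplicit false

namespace Pool.Agent.LIX.PP

open Set Metric Pool.Agent.LIX.TR

namespace DCX

/-- the squared-norm map divided by the gauge -/
noncomputable def m (z : ℂ) : ℂ := ((‖z‖ / N3 z : ℝ) : ℂ) * z

/-- the radius -/
noncomputable def R (w : ℝ) : ℝ := (1 + 1 / (1 + w)) / 8

lemma N3_cont : Continuous N3 := by
  unfold N3
  fun_prop

lemma norm_le (z : ℂ) : ‖z‖ ≤ 5 / 2 * N3 z := by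
  have h1 : ‖z‖ ≤ |z.re| + |z.im| := Complex.norm_le_abs_re_add_abs_im z
  have h2 : |z.im| ≤ N3 z := le_max_right _ _
  have h3 : -(2 * z.re) / 3 ≤ N3 z := (le_max_left _ _).trans (le_max_left _ _)
  have h4 : 2 * z.re ≤ N3 z := (le_max_right _ _).trans (le_max_left _ _)
  have h5 : |z.re| ≤ 3 / 2 * N3 z := by
    have h0 : 0 ≤ N3 z := (abs_nonneg _).trans h2
    rw [abs_le]
    constructor <;> linarith
  linarith

lemma N3_nonneg (z : ℂ) : 0 ≤ N3 z := (abs_nonneg _).trans (le_max_right _ _)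

lemma N3_pos (z : ℂ) (hz : z ≠ 0) : 0 < N3 z := by
  have h1 := norm_le z
  have h2 : 0 < ‖z‖ := norm_pos_iff.2 hz
  linarith

lemma N3_zero : N3 0 = 0 := by
  simp [N3]

lemma N3_smul (c : ℝ) (hc : 0 ≤ c) (z : ℂ) : N3 ((c : ℂ) * z) = c * N3 z := by
  unfold N3
  rw [Complex.re_ofReal_mul, Complex.im_ofReal_mul, mul_max_of_nonneg _ _ hc,
    mul_max_of_nonneg _ _ hc, abs_mul, abs_of_nonneg hc]
  congr 2
  · ring
  · ring

lemma N3_m (z : ℂ) : N3 (m z) = ‖z‖ := by
  unfold m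
  rw [N3_smul _ (div_nonneg (norm_nonneg _) (N3_nonneg _))]
  rcases eq_or_ne z 0 with rfl | hz
  · simp
  · exact div_mul_cancel₀ _ (N3_pos z hz).ne'

lemma m_inj (z z' : ℂ) (h : m z = m z') : z = z' := by
  have h1 : ‖z‖ = ‖z'‖ := by
    rw [← N3_m, ← N3_m, h]
  rcases eq_or_ne z 0 with rfl | hz
  · rw [norm_zero] at h1
    exact (norm_eq_zero.1 h1.symm).symm
  · have hz' : z' ≠ 0 := by
      rw [← norm_pos_iff, ← h1]
      exact norm_pos_iff.2 hz
    unfold m at h
    have hp : 0 < ‖z‖ := norm_pos_iff.2 hz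
    have hc : 0 ≤ ‖z‖ / N3 z := div_nonneg (norm_nonneg _) (N3_nonneg _)
    have hc' : 0 ≤ ‖z'‖ / N3 z' := div_nonneg (norm_nonneg _) (N3_nonneg _)
    have h2 := congrArg norm h
    rw [norm_mul, norm_mul, Complex.norm_real, Complex.norm_real, Real.norm_of_nonneg hc,
      Real.norm_of_nonneg hc', ← h1] at h2
    have h3 := mul_right_cancel₀ hp.ne' h2
    have h3' : ‖z'‖ / N3 z' = ‖z‖ / N3 z := by rw [← h1]; exact h3.symm
    rw [h3'] at h
    have h4 : ((‖z‖ / N3 z : ℝ) : ℂ) ≠ 0 := by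
      rw [Complex.ofReal_ne_zero]
      exact (div_pos hp (N3_pos z hz)).ne'
    exact mul_left_cancel₀ h4 h

lemma m_norm_le (z : ℂ) : ‖m z‖ ≤ 5 / 2 * ‖z‖ := by
  rcases eq_or_ne z 0 with rfl | hz
  · simp [m]
  · unfold m
    rw [norm_mul, Complex.norm_real,
      Real.norm_of_nonneg (div_nonneg (norm_nonneg _) (N3_nonneg _))]
    apply mul_le_mul_of_nonneg_right _ (norm_nonneg z)
    rw [div_le_iff₀ (N3_pos z hz)]
    exact norm_le z

lemma m_cont : Continuous m := by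
  rw [continuous_iff_continuousAt]
  intro z
  rcases eq_or_ne z 0 with rfl | hz
  · have h0 : m 0 = 0 := by simp [m]
    rw [ContinuousAt, h0]
    apply squeeze_zero_norm m_norm_le
    have : Filter.Tendsto (fun a : ℂ => 5 / 2 * ‖a‖) (nhds 0) (nhds (5 / 2 * ‖(0 : ℂ)‖)) :=
      (continuous_const.mul continuous_norm).tendsto 0
    rw [norm_zero, mul_zero] at this
    exact this
  · unfold m
    apply ContinuousAt.mul _ continuousAt_id
    apply Complex.continuous_ofReal.continuousAt.comp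
    exact ContinuousAt.div continuous_norm.continuousAt N3_cont.continuousAt (N3_pos z hz).ne'

/-- the bicollar -/
noncomputable def Ph (q : ℂ × ℝ) : R3 :=
  (1 / 2 + R (-1 / 2 + q.2 / 4) * (m q.1).re, R (-1 / 2 + q.2 / 4) * (m q.1).im,
    -1 / 2 + q.2 / 4)

lemma R_half : R (-1 / 2) = 3 / 8 := by
  unfold R
  norm_num

lemma Ph_zero (z : ℂ) : Ph (z, 0) = fCX z := by
  unfold Ph fCX pt3
  simp only [zero_div, add_zero, R_half]
  unfold m
  rw [Complex.re_ofReal_mul, Complex.im_ofReal_mul]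
  ext
  · simp only
    ring
  · simp only
    ring
  · simp only

lemma R_bd (s : ℝ) (hs : s ∈ Icc (-1 : ℝ) 1) :
    0 < R (-1 / 2 + s / 4) ∧ R (-1 / 2 + s / 4) ≤ 5 / 8 := by
  obtain ⟨h1, h2⟩ := hs
  have h3 : 1 / 4 ≤ 1 + (-1 / 2 + s / 4) := by linarith
  have h4 : 1 / (1 + (-1 / 2 + s / 4)) ≤ 4 := by
    rw [div_le_iff₀ (by linarith)]
    linarith
  have h5 : 0 < 1 / (1 + (-1 / 2 + s / 4)) := by
    apply div_pos one_pos
    linarith
  unfold R
  constructor <;> linarith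

lemma R_eq (w : ℝ) (hw : 0 < 1 + w) : (1 + w) * (8 * R w - 1) = 1 := by
  unfold R
  field_simp
  ring

lemma Ph_cont : ContinuousOn Ph (Disk ×ˢ Icc (-1) 1) := by
  have hR : ContinuousOn (fun q : ℂ × ℝ => R (-1 / 2 + q.2 / 4)) (Disk ×ˢ Icc (-1) 1) := by
    unfold R
    apply ContinuousOn.div_const
    apply ContinuousOn.add continuousOn_const
    apply ContinuousOn.div continuousOn_const (by fun_prop)
    intro q hq
    have := hq.2.1
    have h3 : 0 < 1 + (-1 / 2 + q.2 / 4) := by linarith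
    exact h3.ne'
  have hm1 : Continuous (fun q : ℂ × ℝ => (m q.1).re) :=
    Complex.continuous_re.comp (m_cont.comp continuous_fst)
  have hm2 : Continuous (fun q : ℂ × ℝ => (m q.1).im) :=
    Complex.continuous_im.comp (m_cont.comp continuous_fst)
  unfold Ph
  apply ContinuousOn.prodMk
  · exact continuousOn_const.add (hR.mul hm1.continuousOn)
  · apply ContinuousOn.prodMk
    · exact hR.mul hm2.continuousOn
    · fun_prop

lemma Ph_inj : InjOn Ph (Disk ×ˢ Icc (-1) 1) := by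
  rintro ⟨z, s⟩ hq ⟨z', s'⟩ hq' h
  unfold Ph at h
  simp only [Prod.mk.injEq] at h
  obtain ⟨h1, h2, h3⟩ := h
  have hs : s = s' := by linarith
  subst hs
  have hR := (R_bd s hq.2).1
  have h4 : (m z).re = (m z').re := by
    have : R (-1 / 2 + s / 4) * (m z).re = R (-1 / 2 + s / 4) * (m z').re := by linarith
    exact mul_left_cancel₀ hR.ne' this
  have h5 : (m z).im = (m z').im := mul_left_cancel₀ hR.ne' h2
  have h6 : z = z' := m_inj z z' (Complex.ext h4 h5)
  rw [h6]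

lemma g1_Ph (z : ℂ) (s : ℝ) (hs : s ∈ Icc (-1 : ℝ) 1) :
    g1 (-(Ph (z, s)).1) (Ph (z, s)).2.1 = R (-1 / 2 + s / 4) * ‖z‖ := by
  have h1 := N3_smul (R (-1 / 2 + s / 4)) (R_bd s hs).1.le (m z)
  rw [N3_m] at h1
  rw [← h1]
  unfold g1 N3 Ph
  simp only [Complex.re_ofReal_mul, Complex.im_ofReal_mul]
  congr 2
  · ring
  · ring

end DCX

open DCX in
theorem t_DCX : Stmt_GF → Stmt_SEC → Stmt_NRT → Stmt_DCX := by
  intro hG hS hN
  obtain ⟨-, hG3, -, hG5, -, hG6, -, hprc⟩ := hG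
  obtain ⟨-, hS2, -⟩ := hS
  have hside : ∀ z ∈ Disk, ∀ s ∈ Icc (-1 : ℝ) 1,
      (|(Ph (z, s)).1| ≤ 1 ∧ |(Ph (z, s)).2.1| ≤ 1 ∧ |(Ph (z, s)).2.2| < 1) ∧
      ¬ (|(Ph (z, s)).1| = 1 ∨ |(Ph (z, s)).2.1| = 1) ∧
      (G (Ph (z, s)) = 0 ↔ ‖z‖ = 1) ∧ (‖z‖ < 1 → 0 < G (Ph (z, s))) := by
    intro z hz s hs
    have hz1 : ‖z‖ ≤ 1 := hz
    have hz0 : 0 ≤ ‖z‖ := norm_nonneg z
    obtain ⟨hR0, hR1⟩ := R_bd s hs
    have hg := g1_Ph z s hs
    have hgle : g1 (-(Ph (z, s)).1) (Ph (z, s)).2.1 ≤ 5 / 8 := by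
      rw [hg]
      calc R (-1 / 2 + s / 4) * ‖z‖ ≤ R (-1 / 2 + s / 4) * 1 :=
            mul_le_mul_of_nonneg_left hz1 hR0.le
        _ ≤ 5 / 8 := by rw [mul_one]; exact hR1
    have hb := (hG6 (-(Ph (z, s)).1) (Ph (z, s)).2.1)
    have hb1 := hb.1.2 (by linarith)
    have hw : (Ph (z, s)).2.2 = -1 / 2 + s / 4 := rfl
    obtain ⟨hs1, hs2⟩ := hs
    have hw1 : |(Ph (z, s)).2.2| < 1 := by
      rw [hw, abs_lt]
      constructor <;> linarith
    have hb2 := hb.2 hb1.1 hb1.2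
    have hw0 : 0 < -(Ph (z, s)).2.2 := by
      rw [hw]
      linarith
    have hw2 : -(Ph (z, s)).2.2 < 1 := by
      rw [hw]
      linarith
    have h3 := hG3 (-(Ph (z, s)).1) (Ph (z, s)).2.1 (-(Ph (z, s)).2.2) hb1.1 hb1.2 hw0 hw2
    have h5 := hG5 (Ph (z, s)).1 (Ph (z, s)).2.1 (Ph (z, s)).2.2
    rw [h5, hg, hw] at h3
    have hRe := R_eq (-1 / 2 + s / 4) (by linarith)
    have he : (1 - -(-1 / 2 + s / 4)) * (8 * (R (-1 / 2 + s / 4) * ‖z‖) - 1) =
        1 - (1 + (-1 / 2 + s / 4)) * (8 * R (-1 / 2 + s / 4)) * (1 - ‖z‖) := by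
      linear_combination hRe
    have hpos : 0 < (1 + (-1 / 2 + s / 4)) * (8 * R (-1 / 2 + s / 4)) := by
      apply mul_pos
      · linarith
      · linarith
    rw [he] at h3
    have heq : ((Ph (z, s)).1, (Ph (z, s)).2.1, (Ph (z, s)).2.2) = Ph (z, s) := rfl
    rw [← hw, heq] at h3
    refine ⟨⟨by rw [← abs_neg]; exact hb1.1, hb1.2, hw1⟩, ?_, ?_, ?_⟩
    · intro hor
      have : g1 (-(Ph (z, s)).1) (Ph (z, s)).2.1 = 1 := by
        apply hb2.2
        rw [abs_neg]
        exact hor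
      linarith
    · have h31 := h3.1
      rw [neg_eq_zero] at h31
      rw [h31]
      constructor
      · intro h
        have : (1 + (Ph (z, s)).2.2) * (8 * R (Ph (z, s)).2.2) * (1 - ‖z‖) = 0 := by linarith
        rcases mul_eq_zero.1 this with h' | h'
        · rw [hw] at h'
          exact absurd h' hpos.ne'
        · linarith
      · intro h
        rw [h]
        ring
    · intro hlt
      by_contra hcon
      have hle : 0 ≤ -G (Ph (z, s)) := by linarith
      have hprod : 0 < (1 + (Ph (z, s)).2.2) * (8 * R (Ph (z, s)).2.2) * (1 - ‖z‖) := by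
        rw [hw]
        exact mul_pos hpos (by linarith)
      rcases hle.eq_or_lt with h0 | h0
      · have := h3.1.1 h0.symm
        linarith
      · have := h3.2.1 h0
        linarith
  refine ⟨⟨⟨Ph, Ph_cont, Ph_inj, ?_, fun z _ => Ph_zero z⟩, ?_⟩, ?_⟩
  · intro z hz s hs
    obtain ⟨h1, h2, h3, -⟩ := hside z hz s hs
    refine ⟨h1, ?_, ?_⟩
    · intro h
      exact h2 h.2.2.2
    · rw [← h3]
      exact ⟨fun h => h.2, fun h => ⟨h1, h⟩⟩
  · rintro ⟨k, hkc, hkH, hkb⟩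
    apply hN
    refine ⟨fun z => pr (k z) - 1 / 2, ?_, ?_, ?_⟩
    · exact (hprc.comp_continuousOn hkc).sub continuousOn_const
    · intro z hz h0
      have h1 := (hS2 (k z) (hkH z hz)).1
      rw [sub_eq_zero.1 h0] at h1
      apply h1.2.2.2
      have hre : (1 / 2 : ℂ).re = 1 / 2 := by norm_num
      have him : (1 / 2 : ℂ).im = 0 := by norm_num
      rw [hre, him]
      norm_num
    · intro z hz
      refine ⟨3 / 16 * (‖z‖ / N3 z), ?_, ?_⟩
      · have hz0 : z ≠ 0 := by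
          rw [← norm_pos_iff, hz]
          exact one_pos
        rw [hz]
        exact mul_pos (by norm_num) (div_pos one_pos (N3_pos z hz0))
      · simp only [hkb z hz]
        have hre : (1 / 2 : ℂ).re = 1 / 2 := by norm_num
        have him : (1 / 2 : ℂ).im = 0 := by norm_num
        have habs : |(-1 / 2 : ℝ)| = 1 / 2 := by
          rw [abs_of_nonpos (by norm_num)]
          norm_num
        apply Complex.ext
        · rw [Complex.sub_re, hre, Complex.re_ofReal_mul]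
          unfold pr fCX pt3
          simp only
          rw [habs]
          ring
        · rw [Complex.sub_im, him, Complex.im_ofReal_mul]
          unfold pr fCX pt3
          simp only
          rw [habs]
          ring
  · intro z hz
    refine ⟨rfl, ?_⟩
    intro hlt
    have h := (hside z hz 0 (by constructor <;> norm_num)).2.2.2 hlt
    rw [Ph_zero] at h
    exact h

end Pool.Agent.LIX.PP
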