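import Pool.Agent.LIX.StmtsP

/-!
# LIX, module DEX: an explicit edge-compressing disk
-/

set_option autoImplicit false

namespace Pool.Agent.LIX.PP

open Set Metric Pool.Agent.LIX.TR

namespace DEX

/-- the gauge radius -/
noncomputable def sg (z : ℂ) : ℝ := 1 / 4 + 3 / 4 * ‖z‖

/-- the height -/
noncomputable def ww (z : ℂ) : ℝ := 3 * (‖z‖ - z.re) / (1 + 6 * ‖z‖)

/-- the first coordinate -/
noncomputable def uu (z : ℂ) (s : ℝ) : ℝ := -1 / 2 + sg z * (-1 / 2 + max s 0 / 4)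

/-- the second coordinate -/
noncomputable def vv (z : ℂ) (s : ℝ) : ℝ := sg z * (1 + min s 0 / 4)

/-- the bicollar -/
noncomputable def Phi (q : ℂ × ℝ) : R3 := (uu q.1 q.2, vv q.1 q.2, ww q.1)

lemma sg_ge (z : ℂ) : 1 / 4 ≤ sg z := by
  unfold sg
  have := norm_nonneg z
  linarith

lemma sg_le {z : ℂ} (h : ‖z‖ ≤ 1) : sg z ≤ 1 := by
  unfold sg
  linarith

lemma sg_eq_one {z : ℂ} : sg z = 1 ↔ ‖z‖ = 1 := by
  unfold sg
  constructor <;> intro h <;> linarith

lemma den_pos (z : ℂ) : 0 < 1 + 6 * ‖z‖ := by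
  have := norm_nonneg z
  linarith

lemma ww_nonneg (z : ℂ) : 0 ≤ ww z := by
  unfold ww
  have h1 := Complex.re_le_norm z
  exact div_nonneg (by linarith) (den_pos z).le

lemma ww_lt (z : ℂ) : ww z < 1 := by
  unfold ww
  have h1 := Complex.abs_re_le_norm z
  have h2 := norm_nonneg z
  have h3 := neg_abs_le z.re
  rw [div_lt_one (den_pos z)]
  linarith

lemma abs_ww (z : ℂ) : |ww z| < 1 := by
  rw [abs_of_nonneg (ww_nonneg z)]
  exact ww_lt z

lemma ww_eq_zero {z : ℂ} : ww z = 0 ↔ z.re = ‖z‖ := by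
  unfold ww
  rw [div_eq_zero_iff]
  constructor
  · rintro (h | h)
    · linarith
    · exact absurd h (den_pos z).ne'
  · intro h
    left
    rw [h]
    ring

lemma ww_mul (z : ℂ) : (1 - ww z) * (8 * sg z - 1) = 1 + 3 * (‖z‖ + z.re) := by
  have h := (den_pos z).ne'
  have h1 : 8 * sg z - 1 = 1 + 6 * ‖z‖ := by
    unfold sg
    ring
  rw [h1]
  unfold ww
  rw [sub_mul, div_mul_cancel₀ _ h]
  ring

lemma max_bounds {s : ℝ} (hs : s ∈ Icc (-1 : ℝ) 1) :
    0 ≤ max s 0 ∧ max s 0 ≤ 1 ∧ -1 ≤ min s 0 ∧ min s 0 ≤ 0 ∧ (max s 0 = 0 ∨ min s 0 = 0) ∧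
      max s 0 + min s 0 = s := by
  obtain ⟨h1, h2⟩ := hs
  refine ⟨le_max_right _ _, max_le h2 zero_le_one, le_min h1 (by norm_num), min_le_right _ _,
    ?_, ?_⟩
  · rcases le_total s 0 with h | h
    · left
      exact max_eq_right h
    · right
      exact min_eq_right h
  · rw [max_add_min, add_zero]

lemma g1_eq (z : ℂ) {s : ℝ} (hs : s ∈ Icc (-1 : ℝ) 1) : g1 (uu z s) (vv z s) = sg z := by
  obtain ⟨h1, h2, h3, h4, h5, -⟩ := max_bounds hs
  have h0 := sg_ge z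
  have hpos : 0 < sg z := by linarith
  unfold g1 uu vv
  set a := max s 0 with ha
  set b := min s 0 with hb
  set σ := sg z with hσ
  have hv : |σ * (1 + b / 4)| = σ * (1 + b / 4) := abs_of_nonneg (mul_nonneg hpos.le (by linarith))
  rw [hv]
  have e1 : (2 * (-1 / 2 + σ * (-1 / 2 + a / 4)) + 1) / 3 = -(σ * (1 - a / 2)) / 3 := by ring
  have e2 : -(2 * (-1 / 2 + σ * (-1 / 2 + a / 4)) + 1) = σ * (1 - a / 2) := by ring
  rw [e1, e2]
  have p1 : 0 ≤ σ * (1 - a / 2) := mul_nonneg hpos.le (by linarith)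
  rw [max_eq_right (by linarith : -(σ * (1 - a / 2)) / 3 ≤ σ * (1 - a / 2))]
  have p2 : 0 ≤ σ * a := mul_nonneg hpos.le h1
  have p3 : σ * b ≤ 0 := mul_nonpos_of_nonneg_of_nonpos hpos.le h4
  rcases h5 with h5 | h5
  · rw [h5]
    rw [max_eq_left]
    · ring
    · nlinarith
  · rw [h5]
    rw [max_eq_right]
    · ring
    · nlinarith

lemma uu_le (z : ℂ) {s : ℝ} (hs : s ∈ Icc (-1 : ℝ) 1) : uu z s ≤ -1 / 2 := by
  obtain ⟨h1, h2, h3, h4, h5, -⟩ := max_bounds hs
  have h0 := sg_ge z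
  unfold uu
  have : sg z * (-1 / 2 + max s 0 / 4) ≤ 0 :=
    mul_nonpos_of_nonneg_of_nonpos (by linarith) (by linarith)
  linarith

lemma vv_pos (z : ℂ) {s : ℝ} (hs : s ∈ Icc (-1 : ℝ) 1) : 0 < vv z s := by
  obtain ⟨h1, h2, h3, h4, h5, -⟩ := max_bounds hs
  have h0 := sg_ge z
  unfold vv
  exact mul_pos (by linarith) (by linarith)

lemma corner_iff {z : ℂ} (hz : ‖z‖ ≤ 1) {s : ℝ} (hs : s ∈ Icc (-1 : ℝ) 1) :
    (uu z s = -1 ∧ vv z s = 1) ↔ (‖z‖ = 1 ∧ s = 0) := by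
  obtain ⟨h1, h2, h3, h4, h5, h6⟩ := max_bounds hs
  have h0 := sg_ge z
  have hle := sg_le hz
  have hpos : 0 < sg z := by linarith
  rw [← sg_eq_one]
  unfold uu vv
  constructor
  · rintro ⟨hu, hv⟩
    have p2 : 0 ≤ sg z * max s 0 := mul_nonneg hpos.le h1
    have p3 : sg z * min s 0 ≤ 0 := mul_nonpos_of_nonneg_of_nonpos hpos.le h4
    have q1 : sg z - sg z * max s 0 / 2 = 1 := by linarith
    have q2 : sg z + sg z * min s 0 / 4 = 1 := by linarith
    have hs1 : sg z = 1 := by linarith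
    refine ⟨hs1, ?_⟩
    rw [hs1] at q1 q2
    have r1 : max s 0 = 0 := by linarith
    have r2 : min s 0 = 0 := by linarith
    rw [← h6, r1, r2, add_zero]
  · rintro ⟨hs1, rfl⟩
    rw [hs1, max_self, min_self]
    norm_num

lemma skel_iff (p : R3) : p ∈ cyl.skel ↔ |p.2.2| < 1 ∧ |p.1| = 1 ∧ |p.2.1| = 1 := by
  have key : ∀ x : ℝ, |x| = 1 ↔ (x = 1 ∨ x = -1) := fun x => abs_eq zero_le_one
  unfold Cells.skel
  simp only [mem_iUnion]
  constructor
  · rintro ⟨i, j, h1, h2⟩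
    refine ⟨h1, ?_⟩
    rcases h2 with ⟨h2, h3⟩ | ⟨h2, h3⟩
    · constructor
      · rw [key]
        rcases h2 with h2 | h2
        · exact Or.inr h2.2
        · exact Or.inl h2.2
      · rw [key]
        rcases h3 with h3 | h3
        · exact Or.inr h3.2
        · exact Or.inl h3.2
    · constructor
      · rw [key]
        rcases h2 with h2 | h2
        · exact Or.inr h2.2
        · exact Or.inl h2.2
      · rw [key]
        rcases h3 with h3 | h3
        · exact Or.inr h3.2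
        · exact Or.inl h3.2
  · rintro ⟨h1, h2, h3⟩
    rw [key] at h2 h3
    rcases h2 with h2 | h2
    · rcases h3 with h3 | h3
      · exact ⟨1, 3, h1, Or.inl ⟨Or.inr ⟨rfl, h2⟩, Or.inr ⟨rfl, h3⟩⟩⟩
      · exact ⟨1, 2, h1, Or.inl ⟨Or.inr ⟨rfl, h2⟩, Or.inl ⟨rfl, h3⟩⟩⟩
    · rcases h3 with h3 | h3
      · exact ⟨0, 3, h1, Or.inl ⟨Or.inl ⟨rfl, h2⟩, Or.inr ⟨rfl, h3⟩⟩⟩
      · exact ⟨0, 2, h1, Or.inl ⟨Or.inl ⟨rfl, h2⟩, Or.inl ⟨rfl, h3⟩⟩⟩

lemma re_eq_iff {z : ℂ} : (z.re = ‖z‖ ∨ z.re = -‖z‖) ↔ z.im = 0 := by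
  have h := Complex.sq_norm z
  rw [Complex.normSq_apply] at h
  constructor
  · rintro (h1 | h1)
    · rw [h1] at h
      have : z.im * z.im = 0 := by nlinarith
      exact mul_self_eq_zero.mp this
    · rw [h1] at h
      have : z.im * z.im = 0 := by nlinarith
      exact mul_self_eq_zero.mp this
  · intro h1
    rw [h1] at h
    have h2 : z.re ^ 2 = ‖z‖ ^ 2 := by rw [h]; ring
    exact sq_eq_sq_iff_eq_or_eq_neg.mp h2

lemma in_body (hGF : Stmt_GF) {z : ℂ} (hz : ‖z‖ ≤ 1) {s : ℝ} (hs : s ∈ Icc (-1 : ℝ) 1) :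
    |uu z s| ≤ 1 ∧ |vv z s| ≤ 1 := by
  obtain ⟨-, -, -, -, -, h6, -, -⟩ := hGF
  rw [(h6 _ _).1, g1_eq z hs]
  exact sg_le hz

/-- the sign of `G` on the bicollar -/
lemma G_pos (hGF : Stmt_GF) {z : ℂ} (hz : z ∈ HDisk) {s : ℝ} (hs : s ∈ Icc (-1 : ℝ) 1)
    (him : z.im ≠ 0) : 0 < G (uu z s, vv z s, ww z) := by
  obtain ⟨hu, hv⟩ := in_body hGF hz.1 hs
  obtain ⟨-, h3, -, -, -, -, -, -⟩ := hGF
  have hn : ¬ (z.re = ‖z‖ ∨ z.re = -‖z‖) := fun h => him ((re_eq_iff).mp h)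
  push Not at hn
  have hw : 0 < ww z := lt_of_le_of_ne (ww_nonneg z) (fun h => hn.1 (ww_eq_zero.mp h.symm))
  rw [(h3 _ _ _ hu hv hw (ww_lt z)).2, g1_eq z hs, ww_mul]
  have h1 := Complex.abs_re_le_norm z
  have h2 := neg_abs_le z.re
  have h4 : -‖z‖ ≤ z.re := by linarith
  have h5 : -‖z‖ < z.re := lt_of_le_of_ne h4 (fun h => hn.2 h.symm)
  linarith

lemma G_zero (hGF : Stmt_GF) {z : ℂ} (hz : z ∈ HDisk) {s : ℝ} (hs : s ∈ Icc (-1 : ℝ) 1)
    (him : z.im = 0) : G (uu z s, vv z s, ww z) = 0 := by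
  obtain ⟨hu, hv⟩ := in_body hGF hz.1 hs
  obtain ⟨-, h3, h4, -, -, -, -, -⟩ := hGF
  by_cases hw : ww z = 0
  · rw [hw, (h4 _ _).1, g1_eq z hs]
    refine ⟨sg_ge z, ?_⟩
    have := uu_le z hs
    have h5 : (2 * (-uu z s) + 1) / 3 ≤ g1 (-uu z s) (vv z s) := by
      unfold g1
      exact le_trans (le_max_left _ _) (le_max_left _ _)
    linarith
  · have hw' : 0 < ww z := lt_of_le_of_ne (ww_nonneg z) (Ne.symm hw)
    rw [(h3 _ _ _ hu hv hw' (ww_lt z)).1, g1_eq z hs, ww_mul]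
    rcases (re_eq_iff).mpr him with h | h
    · exact absurd (ww_eq_zero.mpr h) hw
    · rw [h]
      ring

lemma cont_sg : Continuous sg := by
  unfold sg
  fun_prop

lemma cont_ww : Continuous ww := by
  unfold ww
  refine Continuous.div ?_ ?_ (fun z => (den_pos z).ne')
  · exact continuous_const.mul (continuous_norm.sub Complex.continuous_re)
  · exact continuous_const.add (continuous_const.mul continuous_norm)

lemma cont_Phi : Continuous Phi := by
  unfold Phi uu vv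
  have h1 : Continuous fun q : ℂ × ℝ => sg q.1 := cont_sg.comp continuous_fst
  have h2 : Continuous fun q : ℂ × ℝ => ww q.1 := cont_ww.comp continuous_fst
  have h3 : Continuous fun q : ℂ × ℝ => max q.2 0 := continuous_snd.max continuous_const
  have h4 : Continuous fun q : ℂ × ℝ => min q.2 0 := continuous_snd.min continuous_const
  refine Continuous.prodMk ?_ (Continuous.prodMk ?_ h2)
  · exact continuous_const.add (h1.mul (continuous_const.add (h3.div_const 4)))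
  · exact h1.mul (continuous_const.add (h4.div_const 4))

lemma inj_Phi : InjOn Phi (HDisk ×ˢ Icc (-1) 1) := by
  rintro ⟨z, s⟩ ⟨hz, hs⟩ ⟨z', s'⟩ ⟨hz', hs'⟩ h
  simp only at hz hs hz' hs'
  have hu : uu z s = uu z' s' := congrArg (fun p : R3 => p.1) h
  have hv : vv z s = vv z' s' := congrArg (fun p : R3 => p.2.1) h
  have hw : ww z = ww z' := congrArg (fun p : R3 => p.2.2) h
  have hsg : sg z = sg z' := by
    rw [← g1_eq z hs, ← g1_eq z' hs', hu, hv]
  have hn : ‖z‖ = ‖z'‖ := by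
    unfold sg at hsg
    linarith
  have hre : z.re = z'.re := by
    unfold ww at hw
    rw [hn] at hw
    have h1 := (den_pos z').ne'
    rw [div_left_inj' h1] at hw
    linarith
  have him : z.im = z'.im := by
    have h1 := Complex.sq_norm z
    have h2 := Complex.sq_norm z'
    rw [Complex.normSq_apply] at h1 h2
    rw [hn, h2, hre] at h1
    have h3 : z.im ^ 2 = z'.im ^ 2 := by nlinarith
    exact (sq_eq_sq₀ hz.2 hz'.2).mp h3
  have hzz : z = z' := Complex.ext hre him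
  subst hzz
  have hpos : 0 < sg z := by
    have := sg_ge z
    linarith
  have ha : max s 0 = max s' 0 := by
    unfold uu at hu
    have h1 : sg z * (-1 / 2 + max s 0 / 4) = sg z * (-1 / 2 + max s' 0 / 4) := by linarith
    have h2 := mul_left_cancel₀ hpos.ne' h1
    linarith
  have hb : min s 0 = min s' 0 := by
    unfold vv at hv
    have h2 := mul_left_cancel₀ hpos.ne' hv
    linarith
  obtain ⟨-, -, -, -, -, e1⟩ := max_bounds hs
  obtain ⟨-, -, -, -, -, e2⟩ := max_bounds hs'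
  have : s = s' := by rw [← e1, ← e2, ha, hb]
  rw [this]

lemma Phi_zero (z : ℂ) : Phi (z, 0) = fEX z := by
  unfold Phi uu vv fEX ww sg
  simp only [max_self, min_self]
  refine Prod.ext ?_ (Prod.ext ?_ rfl)
  · simp only
    ring
  · simp only
    ring

end DEX

open DEX in
/-- the explicit edge-compressing disk -/
theorem t_DEX : Stmt_GF → Stmt_DEX := by
  intro hGF
  have h0mem : (0 : ℝ) ∈ Icc (-1 : ℝ) 1 := ⟨by norm_num, by norm_num⟩
  refine ⟨⟨⟨Phi, cont_Phi.continuousOn, inj_Phi, ?_, fun z _ => Phi_zero z⟩, ?_⟩, ?_⟩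
  · intro z hz s hs
    obtain ⟨hu, hv⟩ := in_body hGF hz.1 hs
    have hbody : Phi (z, s) ∈ cyl.body := ⟨hu, hv, abs_ww z⟩
    refine ⟨hbody, ?_, ?_, ?_⟩
    · have h6 := hGF.2.2.2.2.2.1 (uu z s) (vv z s)
      have h7 := h6.2 hu hv
      rw [g1_eq z hs, sg_eq_one] at h7
      rw [h7]
      constructor
      · rintro ⟨-, -, -, h⟩
        exact h
      · intro h
        exact ⟨hu, hv, abs_ww z, h⟩
    · constructor
      · rintro ⟨-, h⟩
        by_contra him
        have := G_pos hGF hz hs him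
        exact this.ne' h
      · intro h
        exact ⟨hbody, G_zero hGF hz hs h⟩
    · rw [skel_iff, ← corner_iff hz.1 hs]
      have hu' := uu_le z hs
      have hv' := vv_pos z hs
      constructor
      · rintro ⟨-, h1, h2⟩
        have h1' : |uu z s| = 1 := h1
        have h2' : |vv z s| = 1 := h2
        rw [abs_of_nonpos (by linarith)] at h1'
        rw [abs_of_pos hv'] at h2'
        exact ⟨by linarith, h2'⟩
      · rintro ⟨h1, h2⟩
        refine ⟨abs_ww z, ?_, ?_⟩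
        · change |uu z s| = 1
          rw [h1]
          norm_num
        · change |vv z s| = 1
          rw [h2]
          norm_num
  · refine ⟨0, 3, ?_⟩
    intro z hz h1
    rw [← Phi_zero z]
    obtain ⟨hu, hv⟩ := (corner_iff hz.1 h0mem).mpr ⟨h1, rfl⟩
    exact ⟨abs_ww z, Or.inl ⟨Or.inl ⟨rfl, hu⟩, Or.inr ⟨rfl, hv⟩⟩⟩
  · intro z hz
    rw [← Phi_zero z]
    refine ⟨?_, ww_nonneg z, ?_⟩
    · have := uu_le z h0mem
      change uu z 0 < 0
      linarith
    · intro him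
      exact G_pos hGF hz h0mem him

end Pool.Agent.LIX.PP
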