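import Pool.Agent.LIX.StmtsP

/-!
# LIX, block P: the four disks
-/

set_option autoImplicit false

namespace Pool.Agent.LIX.PP

open Set Metric Pool.Agent.LIX.TR

namespace FOUX

lemma comp_body {f : ℂ → R3} (hf : IsCompPar cyl HC f) {z : ℂ} (hz : z ∈ Disk) :
    f z ∈ cyl.body ∧ (f z ∈ HC ↔ ‖z‖ = 1) := by
  obtain ⟨⟨Φ, -, -, h3, h4⟩, -⟩ := hf
  have h := h3 z hz 0 ⟨by norm_num, by norm_num⟩
  rw [h4 z hz] at h
  exact ⟨h.1, h.2.2⟩

lemma comp_bd {f : ℂ → R4} (hf : IsCompPar stdTet HT f) {z : ℂ} (hz : z ∈ Disk) :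
    f z ∉ stdTet.bd := by
  obtain ⟨⟨Φ, -, -, h3, h4⟩, -⟩ := hf
  have h := h3 z hz 0 ⟨by norm_num, by norm_num⟩
  rw [h4 z hz] at h
  exact h.2.1

lemma edge_body {f : ℂ → R3} (hf : IsEdgePar cyl HC f) {z : ℂ} (hz : z ∈ HDisk) :
    f z ∈ cyl.body ∧ (f z ∈ HC ↔ z.im = 0) := by
  obtain ⟨⟨Φ, -, -, h3, h4⟩, -⟩ := hf
  have h := h3 z hz 0 ⟨by norm_num, by norm_num⟩
  rw [h4 z hz] at h
  exact ⟨h.1, h.2.2.1⟩

lemma edge_bd {f : ℂ → R4} (hf : IsEdgePar stdTet HT f) {z : ℂ} (hz : z ∈ HDisk) :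
    f z ∈ stdTet.bd ↔ ‖z‖ = 1 := by
  obtain ⟨⟨Φ, -, -, h3, h4⟩, -⟩ := hf
  have h := h3 z hz 0 ⟨by norm_num, by norm_num⟩
  rw [h4 z hz] at h
  exact h.2.1

lemma zero_mem : (0 : ℂ) ∈ Disk := by
  show ‖(0 : ℂ)‖ ≤ 1
  rw [norm_zero]
  exact zero_le_one

lemma one_mem : (1 : ℂ) ∈ HDisk := by
  refine ⟨?_, ?_⟩
  · rw [norm_one]
  · rw [Complex.one_im]

lemma half_mem : (Complex.I / 2) ∈ HDisk := by
  refine ⟨?_, ?_⟩
  · rw [norm_div, Complex.norm_I]
    norm_num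
  · simp

lemma half_im : (Complex.I / 2 : ℂ).im ≠ 0 := by
  simp

end FOUX

open FOUX in
theorem t_FOU : Stmt_TR2 → Stmt_MOD → Stmt_GF → Stmt_DCX → Stmt_DEX → Stmt_IOT → Stmt_CON →
    Stmt_FOU := by
  intro hTR2 hMOD hGF hDCX hDEX hIOT hCON
  have hM : Model stdTet cyl ends ∅ th thi := hMOD
  have hsub : HC ⊆ cyl.body := hCON.2.2.2
  obtain ⟨hC, hE⟩ := hTR2 R4 R3 stdTet cyl ends ∅ th thi hM HC hsub (Set.disjoint_empty _)
  have hth : ∀ p ∈ cyl.body, th (thi p) = p := fun p hp => (hM.maps' p hp (Set.notMem_empty _)).2.2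
  have hHT : ∀ p ∈ cyl.body, (thi p ∈ HT ↔ p ∈ HC) := by
    intro p hp
    constructor
    · rintro ⟨p', hp', h⟩
      have h2 := congrArg th h
      rw [hth p hp, hth p' (hsub hp')] at h2
      rw [← h2]
      exact hp'
    · intro h
      exact ⟨p, h, rfl⟩
  have hGi : ∀ p : R3, G (iota p) = - G p := by
    rintro ⟨u, v, w⟩
    exact hGF.2.2.2.1 u v w
  -- the parametrised disks in the cylinder
  have c0 := hDCX.1
  have c1 : IsCompPar cyl HC (fun z => iota (fCX z)) := hIOT.1 _ c0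
  have c3 := hDEX.1
  have c2 : IsEdgePar cyl HC (fun z => iota (fEX z)) := hIOT.2 _ c3
  have d0 := (hC _ c0).1
  have d1 := (hC _ c1).1
  have d2 := (hE _ c2).1
  have d3 := (hE _ c3).1
  let D0 : CE stdTet HT := ⟨(fun z => thi (fCX z)) '' Disk, Or.inl ⟨_, d0, rfl⟩⟩
  let D1 : CE stdTet HT := ⟨(fun z => thi (iota (fCX z))) '' Disk, Or.inl ⟨_, d1, rfl⟩⟩
  let D2 : CE stdTet HT := ⟨(fun z => thi (iota (fEX z))) '' HDisk, Or.inr ⟨_, d2, rfl⟩⟩
  let D3 : CE stdTet HT := ⟨(fun z => thi (fEX z)) '' HDisk, Or.inr ⟨_, d3, rfl⟩⟩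
  have l0 : labD D0.1 = 0 := by
    unfold labD
    rw [if_pos ⟨_, d0, rfl⟩, if_pos]
    rintro x ⟨z, hz, rfl⟩ hx
    have hb := comp_body c0 hz
    rw [hHT _ hb.1, hb.2] at hx
    show 0 < G (th (thi (fCX z)))
    rw [hth _ hb.1]
    exact (hDCX.2 z hz).2 (lt_of_le_of_ne hz hx)
  have l1 : labD D1.1 = 1 := by
    unfold labD
    rw [if_pos ⟨_, d1, rfl⟩, if_neg]
    intro h
    have hb := comp_body c1 zero_mem
    have h1 := (hDCX.2 0 zero_mem).2 (by rw [norm_zero]; exact zero_lt_one)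
    have h2 := h (thi (iota (fCX 0))) ⟨0, zero_mem, rfl⟩ (by
      rw [hHT _ hb.1, hb.2, norm_zero]
      exact zero_ne_one)
    rw [hth _ hb.1, hGi] at h2
    linarith
  have l2 : labD D2.1 = 2 := by
    unfold labD
    rw [if_neg, if_neg]
    · intro h
      have hb := edge_body c2 half_mem
      have h1 := (hDEX.2 _ half_mem).2.2 half_im
      have h2 := h (thi (iota (fEX (Complex.I / 2)))) ⟨Complex.I / 2, half_mem, rfl⟩ (by
        rw [hHT _ hb.1, hb.2]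
        exact half_im)
      rw [hth _ hb.1, hGi] at h2
      linarith
    · rintro ⟨f, hf, hD⟩
      have h1 : (fun z => thi (iota (fEX z))) 1 ∈ D2.1 := ⟨1, one_mem, rfl⟩
      rw [hD] at h1
      obtain ⟨z, hz, h2⟩ := h1
      have h3 := comp_bd hf hz
      rw [h2] at h3
      exact h3 ((edge_bd d2 one_mem).mpr norm_one)
  have l3 : labD D3.1 = 3 := by
    unfold labD
    rw [if_neg, if_pos]
    · rintro x ⟨z, hz, rfl⟩ hx
      have hb := edge_body c3 hz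
      rw [hHT _ hb.1, hb.2] at hx
      show 0 < G (th (thi (fEX z)))
      rw [hth _ hb.1]
      exact (hDEX.2 z hz).2.2 hx
    · rintro ⟨f, hf, hD⟩
      have h1 : (fun z => thi (fEX z)) 1 ∈ D3.1 := ⟨1, one_mem, rfl⟩
      rw [hD] at h1
      obtain ⟨z, hz, h2⟩ := h1
      have h3 := comp_bd hf hz
      rw [h2] at h3
      exact h3 ((edge_bd d3 one_mem).mpr norm_one)
  have inj : ∀ p ∈ cyl.body, ∀ p' ∈ cyl.body, thi p = thi p' → p = p' := by
    intro p hp p' hp' h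
    have h2 := congrArg th h
    rwa [hth p hp, hth p' hp'] at h2
  have e01 : D0.1 ∩ D1.1 = ∅ := by
    rw [Set.eq_empty_iff_forall_notMem]
    rintro x ⟨⟨z, hz, rfl⟩, z', hz', h⟩
    have h1 := inj _ (comp_body c1 hz').1 _ (comp_body c0 hz).1 h
    have h2 := congrArg (fun p : R3 => p.2.2) h1
    have h3 := (hDCX.2 z hz).1
    have h4 := (hDCX.2 z' hz').1
    have h5 : (iota (fCX z')).2.2 = - (fCX z').2.2 := rfl
    change (iota (fCX z')).2.2 = (fCX z).2.2 at h2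
    rw [h5, h3, h4] at h2
    norm_num at h2
  have e12 : D1.1 ∩ D2.1 = ∅ := by
    rw [Set.eq_empty_iff_forall_notMem]
    rintro x ⟨⟨z, hz, rfl⟩, z', hz', h⟩
    have h1 := inj _ (edge_body c2 hz').1 _ (comp_body c1 hz).1 h
    have h2 := congrArg (fun p : R3 => p.2.2) h1
    have h3 := (hDCX.2 z hz).1
    have h4 := (hDEX.2 z' hz').2.1
    have h5 : (iota (fCX z)).2.2 = - (fCX z).2.2 := rfl
    have h6 : (iota (fEX z')).2.2 = - (fEX z').2.2 := rfl
    change (iota (fEX z')).2.2 = (iota (fCX z)).2.2 at h2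
    rw [h5, h6, h3] at h2
    linarith
  have e23 : D2.1 ∩ D3.1 = ∅ := by
    rw [Set.eq_empty_iff_forall_notMem]
    rintro x ⟨⟨z, hz, rfl⟩, z', hz', h⟩
    have h1 := inj _ (edge_body c3 hz').1 _ (edge_body c2 hz).1 h
    have h2 := congrArg (fun p : R3 => p.1) h1
    have h3 := (hDEX.2 z hz).1
    have h4 := (hDEX.2 z' hz').1
    have h5 : (iota (fEX z)).1 = - (fEX z).1 := rfl
    change (fEX z').1 = (iota (fEX z)).1 at h2
    rw [h5] at h2
    linarith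
  have e30 : D3.1 ∩ D0.1 = ∅ := by
    rw [Set.eq_empty_iff_forall_notMem]
    rintro x ⟨⟨z, hz, rfl⟩, z', hz', h⟩
    have h1 := inj _ (comp_body c0 hz').1 _ (edge_body c3 hz).1 h
    have h2 := congrArg (fun p : R3 => p.2.2) h1
    have h3 := (hDCX.2 z' hz').1
    have h4 := (hDEX.2 z hz).2.1
    change (fCX z').2.2 = (fEX z).2.2 at h2
    rw [h3] at h2
    linarith
  refine ⟨fun i : ZMod 4 => (![D0, D1, D2, D3] : Fin 4 → CE stdTet HT) i, ?_, ?_⟩
  · intro i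
    have h : ∀ i : Fin 4, labD ((![D0, D1, D2, D3] : Fin 4 → CE stdTet HT) i).1 =
        ((i : Fin 4) : ZMod 4) := by
      intro i
      fin_cases i
      · exact l0
      · exact l1
      · exact l2
      · exact l3
    exact h i
  · intro i
    have h : ∀ i : Fin 4, ((![D0, D1, D2, D3] : Fin 4 → CE stdTet HT) i).1 ∩
        ((![D0, D1, D2, D3] : Fin 4 → CE stdTet HT) (i + 1)).1 = ∅ := by
      intro i
      fin_cases i
      · exact e01
      · exact e12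
      · exact e23
      · exact e30
    exact h i

end Pool.Agent.LIX.PP
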