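import Pool.Agent.LIX.StmtsP

/-!
# LIX, block P: elementary facts on the defining function (module GF)
-/

set_option autoImplicit false

namespace Pool.Agent.LIX.PP

open Set Metric Pool.Agent.LIX.TR

namespace GF

theorem g1_scale (u v w : ℝ) (h0 : 0 ≤ w) (h1 : w < 1) :
    g1 (pr (u, v, w)).re (pr (u, v, w)).im = (1 - w) * g1 u v := by
  have hw : (0 : ℝ) ≤ 1 - w := by linarith
  simp only [pr, g1, abs_of_nonneg h0]
  rw [mul_max_of_nonneg _ _ hw, mul_max_of_nonneg _ _ hw, abs_mul, abs_of_nonneg hw]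
  congr 2
  · ring
  · ring

theorem F_neg (x y : ℝ) : F (-x) y = - F x y := by
  simp only [F, neg_neg]
  ring

theorem g1_lt (x y : ℝ) (h : g1 x y < 1 / 4) : 1 / 4 ≤ g1 (-x) y := by
  have h1 : (2 * x + 1) / 3 ≤ g1 x y := (le_max_left _ _).trans (le_max_left _ _)
  have h2 : (2 * (-x) + 1) / 3 ≤ g1 (-x) y := (le_max_left _ _).trans (le_max_left _ _)
  linarith

theorem re_pr (u v w : ℝ) : (pr (-u, v, -w)).re = - (pr (u, v, w)).re := by
  simp only [pr, abs_neg]
  ring

theorem im_pr (u v w : ℝ) : (pr (-u, v, -w)).im = (pr (u, v, w)).im := by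
  simp only [pr, abs_neg]

theorem part3 (u v w : ℝ) (h0 : 0 < w) (h1 : w < 1) :
    (G (u, v, w) = 0 ↔ (1 - w) * (8 * g1 u v - 1) = 1) ∧
    (0 < G (u, v, w) ↔ 1 < (1 - w) * (8 * g1 u v - 1)) := by
  have hg := g1_scale u v w h0.le h1
  have hG : G (u, v, w) = w - (max 0 (2 - 8 * g1 (pr (u, v, w)).re (pr (u, v, w)).im) -
      max 0 (2 - 8 * g1 (-(pr (u, v, w)).re) (pr (u, v, w)).im)) := rfl
  by_cases hlt : g1 (pr (u, v, w)).re (pr (u, v, w)).im < 1 / 4
  · have h2 := g1_lt _ _ hlt
    rw [max_eq_right (by linarith), max_eq_left (by linarith)] at hG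
    have h3 : G (u, v, w) = (1 - w) * (8 * g1 u v - 1) - 1 := by
      rw [hG, hg]
      ring
    rw [h3]
    constructor
    · exact sub_eq_zero
    · exact sub_pos
  · have h2 := not_lt.1 hlt
    rw [max_eq_left (by linarith)] at hG
    have h3 : 0 < G (u, v, w) := by
      rw [hG]
      have := le_max_left 0 (2 - 8 * g1 (-(pr (u, v, w)).re) (pr (u, v, w)).im)
      linarith
    have h4 : 1 < (1 - w) * (8 * g1 u v - 1) := by
      rw [hg] at h2
      nlinarith
    exact ⟨⟨fun h => absurd h h3.ne', fun h => absurd h h4.ne'⟩, ⟨fun _ => h4, fun _ => h3⟩⟩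

theorem part4 (u v : ℝ) : (G (u, v, 0) = 0 ↔ 1 / 4 ≤ g1 u v ∧ 1 / 4 ≤ g1 (-u) v) ∧
    (0 < G (u, v, 0) ↔ g1 (-u) v < 1 / 4) := by
  have hG : G (u, v, 0) = max 0 (2 - 8 * g1 (-u) v) - max 0 (2 - 8 * g1 u v) := by
    simp only [G, F, pr, abs_zero, sub_zero, one_mul, zero_div]
    ring
  by_cases h1 : g1 u v < 1 / 4
  · have h2 := g1_lt u v h1
    rw [max_eq_left (by linarith), max_eq_right (by linarith)] at hG
    rw [hG]
    constructor
    · constructor
      · intro h
        linarith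
      · rintro ⟨h3, -⟩
        linarith
    · constructor
      · intro h
        linarith
      · intro h
        linarith
  · have h1' := not_lt.1 h1
    rw [max_eq_left (a := (0 : ℝ)) (b := 2 - 8 * g1 u v) (by linarith)] at hG
    rw [hG]
    by_cases h2 : g1 (-u) v < 1 / 4
    · rw [max_eq_right (by linarith)]
      constructor
      · constructor
        · intro h
          linarith
        · rintro ⟨-, h3⟩
          linarith
      · constructor
        · intro _
          exact h2
        · intro _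
          linarith
    · have h2' := not_lt.1 h2
      rw [max_eq_left (by linarith)]
      constructor
      · exact ⟨fun _ => ⟨h1', h2'⟩, fun _ => by ring⟩
      · constructor
        · intro h
          linarith
        · intro h
          exact absurd h h2

theorem G_neg (u v w : ℝ) : G (-u, v, -w) = - G (u, v, w) := by
  have h1 : G (-u, v, -w) = -w - F (pr (-u, v, -w)).re (pr (-u, v, -w)).im := rfl
  have h2 : G (u, v, w) = w - F (pr (u, v, w)).re (pr (u, v, w)).im := rfl
  rw [h1, h2, re_pr, im_pr, F_neg]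
  ring

theorem part6 (u v : ℝ) : (|u| ≤ 1 ∧ |v| ≤ 1 ↔ g1 u v ≤ 1) ∧
    (|u| ≤ 1 → |v| ≤ 1 → (g1 u v = 1 ↔ |u| = 1 ∨ |v| = 1)) := by
  have h1 : |u| ≤ 1 ∧ |v| ≤ 1 ↔ g1 u v ≤ 1 := by
    rw [g1, max_le_iff, max_le_iff, abs_le]
    constructor
    · rintro ⟨⟨a, b⟩, c⟩
      exact ⟨⟨by linarith, by linarith⟩, c⟩
    · rintro ⟨⟨a, b⟩, c⟩
      exact ⟨⟨by linarith, by linarith⟩, c⟩
  refine ⟨h1, fun hu hv => ?_⟩
  have hle := h1.1 ⟨hu, hv⟩
  have hu' := abs_le.1 hu
  have a1 : (2 * u + 1) / 3 ≤ g1 u v := (le_max_left _ _).trans (le_max_left _ _)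
  have a2 : -(2 * u + 1) ≤ g1 u v := (le_max_right _ _).trans (le_max_left _ _)
  have a3 : |v| ≤ g1 u v := le_max_right _ _
  constructor
  · intro h
    by_contra hc
    rw [not_or] at hc
    have hu1 : |u| < 1 := lt_of_le_of_ne hu hc.1
    have hv1 : |v| < 1 := lt_of_le_of_ne hv hc.2
    have hu2 := abs_lt.1 hu1
    have : g1 u v < 1 := by
      rw [g1, max_lt_iff, max_lt_iff]
      exact ⟨⟨by linarith, by linarith⟩, hv1⟩
    linarith
  · rintro (h | h)
    · rcases eq_or_eq_neg_of_abs_eq h with h | h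
      · subst h
        linarith
      · subst h
        linarith
    · linarith

theorem cont_pr : Continuous pr := by
  have h : pr = fun p : R3 => Complex.equivRealProdCLM.symm
      ((1 - |p.2.2|) * p.1 - p.2.2 / 2, (1 - |p.2.2|) * p.2.1) := by
    funext p
    apply Complex.ext
    · simp [pr]
    · simp [pr]
  rw [h]
  apply Complex.equivRealProdCLM.symm.continuous.comp
  fun_prop

theorem cont_G : Continuous G := by
  have h1 : Continuous fun p : R3 => (pr p).re := Complex.continuous_re.comp cont_pr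
  have h2 : Continuous fun p : R3 => (pr p).im := Complex.continuous_im.comp cont_pr
  unfold G F g1
  fun_prop

end GF

open GF in
theorem t_GF : Stmt_GF :=
  ⟨g1_scale, fun u v w _ _ h0 h1 => part3 u v w h0 h1, part4, G_neg,
    fun u v w => ⟨re_pr u v w, im_pr u v w⟩, part6, cont_G, cont_pr⟩

end Pool.Agent.LIX.PP
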