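import Pool.Agent.LIX.StmtsP

/-!
# LIX, block P: the symmetry preserves disks (module IOT)
-/

set_option autoImplicit false

namespace Pool.Agent.LIX.PP

open Set Metric Pool.Agent.LIX.TR

namespace IOT

theorem iota_iota (p : R3) : iota (iota p) = p := by
  simp [iota]

theorem iota_inj : Function.Injective iota := fun p q h => by
  rw [← iota_iota p, ← iota_iota q, h]

theorem cont_iota : Continuous iota := by
  unfold iota
  fun_prop

theorem iota_body (p : R3) : iota p ∈ cyl.body ↔ p ∈ cyl.body := by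
  simp [cyl, iota]

theorem iota_bd (p : R3) : iota p ∈ cyl.bd ↔ p ∈ cyl.bd := by
  simp [cyl, iota]

theorem iota_HC (hG : ∀ u v w : ℝ, G (-u, v, -w) = - G (u, v, w)) (p : R3) :
    iota p ∈ HC ↔ p ∈ HC := by
  obtain ⟨u, v, w⟩ := p
  have h : G (iota (u, v, w)) = - G (u, v, w) := hG u v w
  constructor
  · rintro ⟨h1, h2⟩
    refine ⟨(iota_body _).1 h1, ?_⟩
    rw [h] at h2
    exact neg_eq_zero.1 h2
  · rintro ⟨h1, h2⟩
    refine ⟨(iota_body _).2 h1, ?_⟩
    rw [h, h2, neg_zero]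

/-- exchange of `0` and `1` -/
def sg (i : Fin 4) : Fin 4 := Equiv.swap 0 1 i

theorem sg_sg (i : Fin 4) : sg (sg i) = i := Equiv.swap_apply_self _ _ _

theorem sg0 (i : Fin 4) : sg i = 0 ↔ i = 1 := by revert i; decide

theorem sg1 (i : Fin 4) : sg i = 1 ↔ i = 0 := by revert i; decide

theorem sg2 (i : Fin 4) : sg i = 2 ↔ i = 2 := by revert i; decide

theorem sg3 (i : Fin 4) : sg i = 3 ↔ i = 3 := by revert i; decide

theorem cor_iota (i j : Fin 4) (p : R3) : cor (sg i) (sg j) (iota p) ↔ cor i j p := by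
  have e1 : (iota p).1 = -1 ↔ p.1 = 1 := by simp [iota]
  have e2 : (iota p).1 = 1 ↔ p.1 = -1 := by
    constructor
    · intro h
      have : -p.1 = 1 := h
      linarith
    · intro h
      change -p.1 = 1
      rw [h]; ring
  have e3 : (iota p).2.1 = p.2.1 := rfl
  unfold cor
  rw [sg0, sg1, sg2, sg3, e1, e2, e3]
  tauto

theorem edge_iota (i j : Fin 4) (p : R3) : iota p ∈ cyl.edge (sg i) (sg j) ↔ p ∈ cyl.edge i j := by
  have e : |(iota p).2.2| < 1 ↔ |p.2.2| < 1 := by simp [iota]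
  change (|(iota p).2.2| < 1 ∧ (cor (sg i) (sg j) (iota p) ∨ cor (sg j) (sg i) (iota p))) ↔
    (|p.2.2| < 1 ∧ (cor i j p ∨ cor j i p))
  rw [e, cor_iota, cor_iota]

theorem skel_iota (p : R3) : iota p ∈ cyl.skel ↔ p ∈ cyl.skel := by
  have key : ∀ q : R3, q ∈ cyl.skel → iota q ∈ cyl.skel := by
    intro q hq
    obtain ⟨i, hi⟩ := mem_iUnion.1 hq
    obtain ⟨j, hj⟩ := mem_iUnion.1 hi
    exact mem_iUnion.2 ⟨sg i, mem_iUnion.2 ⟨sg j, (edge_iota i j q).2 hj⟩⟩
  constructor
  · intro h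
    have := key _ h
    rwa [iota_iota] at this
  · exact key p

end IOT

open IOT in
theorem t_IOT : Stmt_GF → Stmt_IOT := by
  intro hGF
  have hG := hGF.2.2.2.1
  constructor
  · rintro f ⟨⟨Φ, h1, h2, h3, h4⟩, hess⟩
    refine ⟨⟨fun p => iota (Φ p), cont_iota.comp_continuousOn h1,
      fun x hx y hy hxy => h2 hx hy (iota_inj hxy), ?_, ?_⟩, ?_⟩
    · intro z hz s hs
      obtain ⟨a, b, c⟩ := h3 z hz s hs
      exact ⟨(iota_body _).2 a, fun h => b ((iota_bd _).1 h), (iota_HC hG _).trans c⟩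
    · intro z hz
      change iota (Φ (z, 0)) = iota (f z)
      rw [h4 z hz]
    · rintro ⟨g, hg1, hg2, hg3⟩
      apply hess
      refine ⟨fun z => iota (g z), cont_iota.comp_continuousOn hg1,
        fun z hz => (iota_HC hG _).2 (hg2 z hz), fun z hz => ?_⟩
      change iota (g z) = f z
      rw [hg3 z hz, iota_iota]
  · rintro f ⟨⟨Φ, h1, h2, h3, h4⟩, i, j, hij⟩
    refine ⟨⟨fun p => iota (Φ p), cont_iota.comp_continuousOn h1,
      fun x hx y hy hxy => h2 hx hy (iota_inj hxy), ?_, ?_⟩, sg i, sg j, ?_⟩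
    · intro z hz s hs
      obtain ⟨a, b, c, d⟩ := h3 z hz s hs
      exact ⟨(iota_body _).2 a, (iota_bd _).trans b, (iota_HC hG _).trans c, (skel_iota _).trans d⟩
    · intro z hz
      change iota (Φ (z, 0)) = iota (f z)
      rw [h4 z hz]
    · intro z hz hz1
      exact (edge_iota i j _).2 (hij z hz hz1)

end Pool.Agent.LIX.PP
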