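import Pool.Agent.LIX.StmtsP

/-!
# LIX, module ISO (block P): isotopic disks have the same label
-/

set_option autoImplicit false

namespace Pool.Agent.LIX.PP

open Set Metric Pool.Agent.LIX.TR

namespace ISO

theorem zero_mem_Disk : (0 : ℂ) ∈ Disk := by
  change ‖(0 : ℂ)‖ ≤ 1
  simp

/-- the middle point of the half disk -/
noncomputable def mid : ℂ := Complex.I / 2

theorem mid_im : mid.im = 1 / 2 := by
  simp [mid]

theorem mid_norm : ‖mid‖ = 1 / 2 := by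
  simp [mid]

theorem mid_mem : mid ∈ HDisk := by
  refine ⟨?_, ?_⟩
  · rw [mid_norm]; norm_num
  · rw [mid_im]; norm_num

theorem one_mem : (1 : ℂ) ∈ HDisk := by
  refine ⟨?_, ?_⟩
  · simp
  · simp

theorem zero_mem_Icc : (0 : ℝ) ∈ Icc (-1 : ℝ) 1 := by
  constructor <;> norm_num

theorem zero_mem : (0 : ℝ) ∈ Icc (0 : ℝ) 1 := by
  constructor <;> norm_num

theorem one_mem' : (1 : ℝ) ∈ Icc (0 : ℝ) 1 := by
  constructor <;> norm_num

/-- the facts which are used -/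
structure Facts : Prop where
  comp : ∀ f : ℂ → R4, IsCompPar stdTet HT f →
    IsCompPar cyl HC (fun z => th (f z)) ∧ ∀ z ∈ Disk, f z ∈ stdTet.body ∧ f z ∉ ends
  edge : ∀ f : ℂ → R4, IsEdgePar stdTet HT f →
    IsEdgePar cyl HC (fun z => th (f z)) ∧ ∀ z ∈ HDisk, f z ∈ stdTet.body ∧ f z ∉ ends
  cth : ContinuousOn th (stdTet.body \ ends)
  cG : Continuous G
  sidC : ∀ f, IsCompPar cyl HC f → (∀ z ∈ Disk, ‖z‖ < 1 → 0 < G (f z)) ∨
    (∀ z ∈ Disk, ‖z‖ < 1 → G (f z) < 0)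
  sidE : ∀ f, IsEdgePar cyl HC f → (∀ z ∈ HDisk, 0 < z.im → 0 < G (f z)) ∨
    (∀ z ∈ HDisk, 0 < z.im → G (f z) < 0)

theorem facts (hTRS : Stmt_TRS) (hTR2 : Stmt_TR2) (hMOD : Stmt_MOD) (hGF : Stmt_GF)
    (hSID : Stmt_SID) (hCON : Stmt_CON) : Facts := by
  have hM : Model stdTet cyl ends ∅ th thi := hMOD
  obtain ⟨hM', hH⟩ := hTRS _ _ _ _ _ _ _ _ hM
  have hsub : HC ⊆ cyl.body := hCON.2.2.2
  obtain ⟨h1, h2, h3⟩ := hH HC hsub (disjoint_empty _)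
  have h4 := hTR2 _ _ _ _ _ _ _ _ hM' HT h2 h3
  have h5 : th '' HT = HC := h1
  rw [h5] at h4
  exact ⟨h4.1, h4.2, hM.contf, hGF.2.2.2.2.2.2.1, hSID.1, hSID.2⟩

/-- continuous nonvanishing functions on the interval have constant sign -/
theorem const_sign {u : ℝ → ℝ} (hu : ContinuousOn u (Icc 0 1)) (h0 : ∀ t ∈ Icc (0 : ℝ) 1, u t ≠ 0) :
    0 < u 0 ↔ 0 < u 1 := by
  have hp : IsPreconnected (Icc (0 : ℝ) 1) := isPreconnected_Icc
  constructor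
  · intro h
    by_contra hcon
    have h1 : u 1 ≤ 0 := not_lt.1 hcon
    obtain ⟨t, ht, ht0⟩ := hp.intermediate_value one_mem' zero_mem hu ⟨h1, h.le⟩
    exact h0 t ht ht0
  · intro h
    by_contra hcon
    have h1 : u 0 ≤ 0 := not_lt.1 hcon
    obtain ⟨t, ht, ht0⟩ := hp.intermediate_value zero_mem one_mem' hu ⟨h1, h.le⟩
    exact h0 t ht ht0

theorem comp_mem_iff {f : ℂ → R4} (hf : IsCompPar stdTet HT f) {z : ℂ} (hz : z ∈ Disk) :
    f z ∉ stdTet.bd ∧ (f z ∈ HT ↔ ‖z‖ = 1) := by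
  obtain ⟨⟨Φ, _, _, h3, h4⟩, _⟩ := hf
  have h5 := h3 z hz 0 zero_mem_Icc
  rw [h4 z hz] at h5
  exact ⟨h5.2.1, h5.2.2⟩

theorem edge_mem_iff {f : ℂ → R4} (hf : IsEdgePar stdTet HT f) {z : ℂ} (hz : z ∈ HDisk) :
    (f z ∈ stdTet.bd ↔ ‖z‖ = 1) ∧ (f z ∈ HT ↔ z.im = 0) := by
  obtain ⟨⟨Φ, _, _, h3, h4⟩, _⟩ := hf
  have h5 := h3 z hz 0 zero_mem_Icc
  rw [h4 z hz] at h5
  exact ⟨h5.2.1, h5.2.2.1⟩

theorem not_both {D : Set R4} (h : ∃ f, IsEdgePar stdTet HT f ∧ D = f '' HDisk) :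
    ¬ ∃ f, IsCompPar stdTet HT f ∧ D = f '' Disk := by
  rintro ⟨f', hf', hD'⟩
  obtain ⟨f, hf, hD⟩ := h
  have h1 : f 1 ∈ D := by
    rw [hD]
    exact mem_image_of_mem _ one_mem
  have h2 : f 1 ∈ stdTet.bd := (edge_mem_iff hf one_mem).1.2 (by simp)
  rw [hD'] at h1
  obtain ⟨z, hz, hzf⟩ := h1
  rw [← hzf] at h2
  exact (comp_mem_iff hf' hz).1 h2

theorem side_comp (hF : Facts) {f : ℂ → R4} (hf : IsCompPar stdTet HT f) :
    (∀ x ∈ f '' Disk, x ∉ HT → 0 < G (th x)) ↔ 0 < G (th (f 0)) := by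
  have h0 : ‖(0 : ℂ)‖ < 1 := by simp
  constructor
  · intro h
    refine h _ (mem_image_of_mem _ zero_mem_Disk) ?_
    rw [(comp_mem_iff hf zero_mem_Disk).2]
    exact h0.ne
  · intro h
    rcases hF.sidC _ (hF.comp f hf).1 with h1 | h1
    · rintro x ⟨z, hz, rfl⟩ hx
      rw [(comp_mem_iff hf hz).2] at hx
      exact h1 z hz (lt_of_le_of_ne hz hx)
    · exact absurd h (not_lt.2 (h1 0 zero_mem_Disk h0).le)

theorem side_edge (hF : Facts) {f : ℂ → R4} (hf : IsEdgePar stdTet HT f) :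
    (∀ x ∈ f '' HDisk, x ∉ HT → 0 < G (th x)) ↔ 0 < G (th (f mid)) := by
  have h0 : 0 < mid.im := by rw [mid_im]; norm_num
  constructor
  · intro h
    refine h _ (mem_image_of_mem _ mid_mem) ?_
    rw [(edge_mem_iff hf mid_mem).2]
    exact h0.ne'
  · intro h
    rcases hF.sidE _ (hF.edge f hf).1 with h1 | h1
    · rintro x ⟨z, hz, rfl⟩ hx
      rw [(edge_mem_iff hf hz).2] at hx
      exact h1 z hz (lt_of_le_of_ne hz.2 (Ne.symm hx))
    · exact absurd h (not_lt.2 (h1 mid mid_mem h0).le)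

theorem lab_comp {f f' : ℂ → R4} (hf : IsCompPar stdTet HT f) (hf' : IsCompPar stdTet HT f')
    (hF : Facts) (h : 0 < G (th (f 0)) ↔ 0 < G (th (f' 0))) :
    labD (f '' Disk) = labD (f' '' Disk) := by
  have hc1 : ∃ g, IsCompPar stdTet HT g ∧ f '' Disk = g '' Disk := ⟨f, hf, rfl⟩
  have hc2 : ∃ g, IsCompPar stdTet HT g ∧ f' '' Disk = g '' Disk := ⟨f', hf', rfl⟩
  unfold labD
  rw [if_pos hc1, if_pos hc2]
  have h1 : (∀ x ∈ f '' Disk, x ∉ HT → 0 < G (th x)) ↔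
      (∀ x ∈ f' '' Disk, x ∉ HT → 0 < G (th x)) := by
    rw [side_comp hF hf, side_comp hF hf']
    exact h
  by_cases h2 : ∀ x ∈ f '' Disk, x ∉ HT → 0 < G (th x)
  · rw [if_pos h2, if_pos (h1.1 h2)]
  · rw [if_neg h2, if_neg (fun h3 => h2 (h1.2 h3))]

theorem lab_edge {f f' : ℂ → R4} (hf : IsEdgePar stdTet HT f) (hf' : IsEdgePar stdTet HT f')
    (hF : Facts) (h : 0 < G (th (f mid)) ↔ 0 < G (th (f' mid))) :
    labD (f '' HDisk) = labD (f' '' HDisk) := by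
  have hc1 : ¬ ∃ g, IsCompPar stdTet HT g ∧ f '' HDisk = g '' Disk := not_both ⟨f, hf, rfl⟩
  have hc2 : ¬ ∃ g, IsCompPar stdTet HT g ∧ f' '' HDisk = g '' Disk := not_both ⟨f', hf', rfl⟩
  unfold labD
  rw [if_neg hc1, if_neg hc2]
  have h1 : (∀ x ∈ f '' HDisk, x ∉ HT → 0 < G (th x)) ↔
      (∀ x ∈ f' '' HDisk, x ∉ HT → 0 < G (th x)) := by
    rw [side_edge hF hf, side_edge hF hf']
    exact h
  by_cases h2 : ∀ x ∈ f '' HDisk, x ∉ HT → 0 < G (th x)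
  · rw [if_pos h2, if_pos (h1.1 h2)]
  · rw [if_neg h2, if_neg (fun h3 => h2 (h1.2 h3))]

end ISO

theorem t_ISO : Stmt_TRS → Stmt_TR2 → Stmt_MOD → Stmt_GF → Stmt_SID → Stmt_CON → Stmt_ISO := by
  intro hTRS hTR2 hMOD hGF hSID hCON
  have hF := ISO.facts hTRS hTR2 hMOD hGF hSID hCON
  intro D D' hiso
  rcases hiso with ⟨F, hc, hpar, hD, hD'⟩ | ⟨F, hc, hpar, hD, hD'⟩
  · rw [← hD, ← hD']
    refine ISO.lab_comp (hpar 0 ISO.zero_mem) (hpar 1 ISO.one_mem') hF ?_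
    refine ISO.const_sign (u := fun t => G (th (F (0, t)))) ?_ ?_
    · refine hF.cG.comp_continuousOn (hF.cth.comp (hc.comp (by fun_prop) ?_) ?_)
      · intro t ht
        exact ⟨ISO.zero_mem_Disk, ht⟩
      · intro t ht
        exact (hF.comp _ (hpar t ht)).2 0 ISO.zero_mem_Disk
    · intro t ht
      have h0 : ‖(0 : ℂ)‖ < 1 := by simp
      rcases hF.sidC _ (hF.comp _ (hpar t ht)).1 with h1 | h1
      · exact (h1 0 ISO.zero_mem_Disk h0).ne'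
      · exact (h1 0 ISO.zero_mem_Disk h0).ne
  · rw [← hD, ← hD']
    refine ISO.lab_edge (hpar 0 ISO.zero_mem) (hpar 1 ISO.one_mem') hF ?_
    refine ISO.const_sign (u := fun t => G (th (F (ISO.mid, t)))) ?_ ?_
    · refine hF.cG.comp_continuousOn (hF.cth.comp (hc.comp (by fun_prop) ?_) ?_)
      · intro t ht
        exact ⟨ISO.mid_mem, ht⟩
      · intro t ht
        exact (hF.edge _ (hpar t ht)).2 ISO.mid ISO.mid_mem
    · intro t ht
      have h0 : 0 < ISO.mid.im := by rw [ISO.mid_im]; norm_num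
      rcases hF.sidE _ (hF.edge _ (hpar t ht)).1 with h1 | h1
      · exact (h1 ISO.mid ISO.mid_mem h0).ne'
      · exact (h1 ISO.mid ISO.mid_mem h0).ne

end Pool.Agent.LIX.PP
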