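import Pool.Agent.LIX.StmtsP

/-!
# LIX, block P, module K3X: a label map to the 4-cycle
-/

set_option autoImplicit false

namespace Pool.Agent.LIX.PP

open Set Metric Pool.Agent.LIX.TR

namespace K3X

/-- the four points of the square -/
noncomputable def L (i : ZMod 4) : Fin 2 → ℝ :=
  if i = 0 then Pi.single 0 1 else if i = 1 then Pi.single 1 1 else
    if i = 2 then -Pi.single 0 1 else -Pi.single 1 1

lemma L0 : L 0 = Pi.single 0 1 := if_pos rfl

lemma L1 : L 1 = Pi.single 1 1 := by
  rw [L, if_neg (by decide), if_pos rfl]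

lemma L2 : L 2 = -Pi.single 0 1 := by
  rw [L, if_neg (by decide), if_neg (by decide), if_pos rfl]

lemma L3 : L 3 = -Pi.single 1 1 := by
  rw [L, if_neg (by decide), if_neg (by decide), if_neg (by decide)]

lemma four (i : ZMod 4) : i = 0 ∨ i = 1 ∨ i = 2 ∨ i = 3 := by
  revert i
  decide

lemma convex_pos (a b : ℝ) : Convex ℝ {x : Fin 2 → ℝ | 0 < a * x 0 + b * x 1} := by
  intro x hx y hy s t hs ht hst
  rw [Set.mem_ofPred_eq] at hx hy ⊢
  simp only [Pi.add_apply, Pi.smul_apply, smul_eq_mul]
  have h1 : a * (s * x 0 + t * y 0) + b * (s * x 1 + t * y 1) =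
      s * (a * x 0 + b * x 1) + t * (a * y 0 + b * y 1) := by ring
  rw [h1]
  rcases hs.lt_or_eq with hs' | hs'
  · have := mul_pos hs' hx
    have := mul_nonneg ht hy.le
    linarith
  · have : t = 1 := by linarith
    rw [← hs', this]
    linarith

lemma hull {T : Set (ZMod 4)} (h : ∀ i ∈ T, ∀ j ∈ T, i ≠ j + 2) :
    (0 : Fin 2 → ℝ) ∉ convexHull ℝ (L '' T) := by
  classical
  obtain ⟨a, b, hab⟩ : ∃ a b : ℝ, ∀ i ∈ T, 0 < a * L i 0 + b * L i 1 := by
    refine ⟨if (2 : ZMod 4) ∈ T then -1 else 1, if (3 : ZMod 4) ∈ T then -1 else 1, ?_⟩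
    intro i hi
    rcases four i with rfl | rfl | rfl | rfl
    · have h2 : (2 : ZMod 4) ∉ T := fun h2 => h 0 hi 2 h2 (by decide)
      rw [if_neg h2, L0]
      simp
    · have h2 : (3 : ZMod 4) ∉ T := fun h2 => h 1 hi 3 h2 (by decide)
      rw [if_neg h2, L1]
      simp
    · rw [if_pos hi, L2]
      simp
    · rw [if_pos hi, L3]
      simp
  intro h0
  have h1 : convexHull ℝ (L '' T) ⊆ {x : Fin 2 → ℝ | 0 < a * x 0 + b * x 1} := by
    apply convexHull_min _ (convex_pos a b)
    rintro _ ⟨i, hi, rfl⟩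
    exact hab i hi
  have h2 : (0 : ℝ) < a * (0 : Fin 2 → ℝ) 0 + b * (0 : Fin 2 → ℝ) 1 := h1 h0
  simp at h2

end K3X

open K3X in
theorem t_K3X : Pool.Agent.LIX.K.S_K34 → Stmt_K3 := by
  intro hK V K lab v h1 h2 h3
  refine hK V K 1 (fun x => L (lab x)) ![v 0, v 1] ![v 2, v 3] ?_ ?_ ?_ ?_
  · intro s hs
    have e : (fun x => L (lab x)) '' (s : Set V) = L '' (lab '' (s : Set V)) := by
      rw [Set.image_image]
    rw [e]
    apply hull
    rintro _ ⟨a, ha, rfl⟩ _ ⟨b, hb, rfl⟩
    exact h1 s hs a ha b hb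
  · intro i
    fin_cases i
    · change L (lab (v 0)) = _
      rw [h2, L0]
      rfl
    · change L (lab (v 1)) = _
      rw [h2, L1]
      rfl
  · intro i
    fin_cases i
    · change L (lab (v 2)) = _
      rw [h2, L2]
      rfl
    · change L (lab (v 3)) = _
      rw [h2, L3]
      rfl
  · intro b
    classical
    have key : ∀ (i : ZMod 4) (t : Finset V), t.Nonempty → (∀ x ∈ t, x = v i ∨ x = v (i + 1)) →
        t ∈ K.faces := by
      intro i t ht h
      obtain ⟨s, hs, hi, hi'⟩ := h3 i
      refine K.down_closed s hs t (fun x hx => ?_) ht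
      rcases h x hx with rfl | rfl
      · exact hi
      · exact hi'
    have hne : (Finset.univ.image fun i : Fin 2 =>
        if b i = true then (![v 0, v 1] : Fin 2 → V) i else (![v 2, v 3] : Fin 2 → V) i).Nonempty :=
      ⟨_, Finset.mem_image.mpr ⟨0, Finset.mem_univ _, rfl⟩⟩
    have hmem : ∀ x, x ∈ (Finset.univ.image fun i : Fin 2 =>
        if b i = true then (![v 0, v 1] : Fin 2 → V) i else (![v 2, v 3] : Fin 2 → V) i) →
        x = (if b 0 = true then v 0 else v 2) ∨ x = (if b 1 = true then v 1 else v 3) := by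
      intro x hx
      obtain ⟨i, -, rfl⟩ := Finset.mem_image.mp hx
      fin_cases i
      · left; rfl
      · right; rfl
    by_cases hb0 : b 0 = true <;> by_cases hb1 : b 1 = true
    · refine key 0 _ hne fun x hx => ?_
      have := hmem x hx
      rw [if_pos hb0, if_pos hb1] at this
      exact this
    · refine key 3 _ hne fun x hx => ?_
      have := hmem x hx
      rw [if_pos hb0, if_neg hb1] at this
      exact this.symm
    · refine key 1 _ hne fun x hx => ?_
      have := hmem x hx
      rw [if_neg hb0, if_pos hb1] at this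
      exact this.symm
    · refine key 2 _ hne fun x hx => ?_
      have := hmem x hx
      rw [if_neg hb0, if_neg hb1] at this
      exact this

end Pool.Agent.LIX.PP
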