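import Pool.Agent.LIX.StmtsP

set_option autoImplicit false

namespace Pool.Agent.LIX.PP

open Set Metric Pool.Agent.LIX.TR

namespace MODaux

lemma sum4 {x : R4} (hx : x ∈ stdSimplex ℝ (Fin 4)) : x 0 + x 1 + x 2 + x 3 = 1 := by
  have h := hx.2
  rw [Fin.sum_univ_four] at h
  exact h

lemma mk4 {x : R4} (h0 : ∀ i, 0 ≤ x i) (h : x 0 + x 1 + x 2 + x 3 = 1) : x ∈ stdSimplex ℝ (Fin 4) := by
  refine ⟨h0, ?_⟩
  rw [Fin.sum_univ_four]
  exact h

lemma pos01 {x : R4} (hx : x ∈ stdSimplex ℝ (Fin 4)) (hn : x ∉ ends) : 0 < x 0 + x 1 := by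
  have h0 := hx.1 0
  have h1 := hx.1 1
  by_contra h
  exact hn ⟨hx, Or.inr ⟨by linarith, by linarith⟩⟩

lemma pos23 {x : R4} (hx : x ∈ stdSimplex ℝ (Fin 4)) (hn : x ∉ ends) : 0 < x 2 + x 3 := by
  have h0 := hx.1 2
  have h1 := hx.1 3
  by_contra h
  exact hn ⟨hx, Or.inl ⟨by linarith, by linarith⟩⟩

lemma thi0 (p : R3) : thi p 0 = (1 + p.2.2) * (1 - p.1) / 4 := rfl
lemma thi1 (p : R3) : thi p 1 = (1 + p.2.2) * (1 + p.1) / 4 := rfl
lemma thi2 (p : R3) : thi p 2 = (1 - p.2.2) * (1 - p.2.1) / 4 := rfl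
lemma thi3 (p : R3) : thi p 3 = (1 - p.2.2) * (1 + p.2.1) / 4 := rfl

lemma ext4 {x y : R4} (h0 : x 0 = y 0) (h1 : x 1 = y 1) (h2 : x 2 = y 2) (h3 : x 3 = y 3) : x = y := by
  funext i
  fin_cases i
  · exact h0
  · exact h1
  · exact h2
  · exact h3

lemma abs_le_div {a b : ℝ} (ha : 0 ≤ a) (hb : 0 ≤ b) (h : 0 < a + b) : |(b - a) / (a + b)| ≤ 1 := by
  rw [abs_div, abs_of_pos h, div_le_one h, abs_le]
  constructor <;> linarith

lemma div_eq_one {a b : ℝ} (h : 0 < a + b) : (b - a) / (a + b) = 1 ↔ a = 0 := by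
  rw [div_eq_iff h.ne']
  constructor <;> intro h' <;> linarith

lemma div_eq_neg_one {a b : ℝ} (h : 0 < a + b) : (b - a) / (a + b) = -1 ↔ b = 0 := by
  rw [div_eq_iff h.ne']
  constructor <;> intro h' <;> linarith

lemma maps1 {x : R4} (hx : x ∈ stdSimplex ℝ (Fin 4)) (hn : x ∉ ends) :
    th x ∈ cyl.body ∧ thi (th x) = x := by
  have h01 := pos01 hx hn
  have h23 := pos23 hx hn
  have hs := sum4 hx
  constructor
  · refine ⟨abs_le_div (hx.1 0) (hx.1 1) h01, abs_le_div (hx.1 2) (hx.1 3) h23, ?_⟩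
    change |(x 0 + x 1) - (x 2 + x 3)| < 1
    rw [abs_lt]
    constructor <;> linarith
  · have e1 : 1 + (th x).2.2 = 2 * (x 0 + x 1) := by
      change 1 + ((x 0 + x 1) - (x 2 + x 3)) = _
      linarith
    have e2 : 1 - (th x).2.2 = 2 * (x 2 + x 3) := by
      change 1 - ((x 0 + x 1) - (x 2 + x 3)) = _
      linarith
    have e3 : (th x).1 = (x 1 - x 0) / (x 0 + x 1) := rfl
    have e4 : (th x).2.1 = (x 3 - x 2) / (x 2 + x 3) := rfl
    refine ext4 ?_ ?_ ?_ ?_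
    · rw [thi0, e1, e3]
      field_simp
      ring
    · rw [thi1, e1, e3]
      field_simp
      ring
    · rw [thi2, e2, e4]
      field_simp
      ring
    · rw [thi3, e2, e4]
      field_simp
      ring

lemma maps2 {p : R3} (hp : p ∈ cyl.body) : thi p ∈ stdSimplex ℝ (Fin 4) ∧ thi p ∉ ends ∧ th (thi p) = p := by
  obtain ⟨h1, h2, h3⟩ := hp
  rw [abs_le] at h1 h2
  rw [abs_lt] at h3
  have a1 : 0 < 1 + p.2.2 := by linarith
  have a2 : 0 < 1 - p.2.2 := by linarith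
  have b1 : 0 ≤ 1 - p.1 := by linarith
  have b2 : 0 ≤ 1 + p.1 := by linarith
  have b3 : 0 ≤ 1 - p.2.1 := by linarith
  have b4 : 0 ≤ 1 + p.2.1 := by linarith
  have e01 : thi p 0 + thi p 1 = (1 + p.2.2) / 2 := by rw [thi0, thi1]; ring
  have e23 : thi p 2 + thi p 3 = (1 - p.2.2) / 2 := by rw [thi2, thi3]; ring
  refine ⟨mk4 ?_ ?_, ?_, ?_⟩
  · intro i
    fin_cases i
    · change 0 ≤ thi p 0
      rw [thi0]
      positivity
    · change 0 ≤ thi p 1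
      rw [thi1]
      positivity
    · change 0 ≤ thi p 2
      rw [thi2]
      positivity
    · change 0 ≤ thi p 3
      rw [thi3]
      positivity
  · linarith
  · rintro ⟨_, ⟨h, h'⟩ | ⟨h, h'⟩⟩
    · rw [h, h'] at e23
      linarith
    · rw [h, h'] at e01
      linarith
  · refine Prod.ext ?_ (Prod.ext ?_ ?_)
    · change (thi p 1 - thi p 0) / (thi p 0 + thi p 1) = p.1
      rw [e01, thi0, thi1]
      field_simp
      ring
    · change (thi p 3 - thi p 2) / (thi p 2 + thi p 3) = p.2.1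
      rw [e23, thi2, thi3]
      field_simp
      ring
    · change (thi p 0 + thi p 1) - (thi p 2 + thi p 3) = p.2.2
      rw [e01, e23]
      ring

lemma continuous_thi : Continuous thi := by
  refine continuous_pi fun i => ?_
  fin_cases i
  · change Continuous fun p : R3 => (1 + p.2.2) * (1 - p.1) / 4
    fun_prop
  · change Continuous fun p : R3 => (1 + p.2.2) * (1 + p.1) / 4
    fun_prop
  · change Continuous fun p : R3 => (1 - p.2.2) * (1 - p.2.1) / 4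
    fun_prop
  · change Continuous fun p : R3 => (1 - p.2.2) * (1 + p.2.1) / 4
    fun_prop

lemma closed_ends : IsClosed ends := by
  have h : ends = stdSimplex ℝ (Fin 4) ∩
      (({x : R4 | x 2 = 0} ∩ {x : R4 | x 3 = 0}) ∪ ({x : R4 | x 0 = 0} ∩ {x : R4 | x 1 = 0})) := rfl
  rw [h]
  have hc : ∀ i : Fin 4, IsClosed {x : R4 | x i = 0} := fun i =>
    isClosed_eq (continuous_apply i) continuous_const
  exact (isClosed_stdSimplex ℝ (Fin 4)).inter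
    (((hc 2).inter (hc 3)).union ((hc 0).inter (hc 1)))

lemma edge_iff {x : R4} (hx : x ∈ stdSimplex ℝ (Fin 4)) (hn : x ∉ ends) (i j : Fin 4) :
    x ∈ stdTet.edge i j ↔ th x ∈ cyl.edge i j := by
  have h01 := pos01 hx hn
  have h23 := pos23 hx hn
  have hb := (maps1 hx hn).1.2.2
  have n01 : ¬ (x 0 = 0 ∧ x 1 = 0) := fun h => by linarith [h.1, h.2]
  have n23 : ¬ (x 2 = 0 ∧ x 3 = 0) := fun h => by linarith [h.1, h.2]
  have e1 : (th x).1 = 1 ↔ x 0 = 0 := div_eq_one h01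
  have e2 : (th x).1 = -1 ↔ x 1 = 0 := div_eq_neg_one h01
  have e3 : (th x).2.1 = 1 ↔ x 2 = 0 := div_eq_one h23
  have e4 : (th x).2.1 = -1 ↔ x 3 = 0 := div_eq_neg_one h23
  have l : x ∈ stdTet.edge i j ↔ ∀ k, k ≠ i → k ≠ j → x k = 0 :=
    ⟨fun h => h.2, fun h => ⟨hx, h⟩⟩
  have r : th x ∈ cyl.edge i j ↔ (cor i j (th x) ∨ cor j i (th x)) :=
    ⟨fun h => h.2, fun h => ⟨hb, h⟩⟩
  rw [l, r]
  simp only [cor, e1, e2, e3, e4]
  fin_cases i <;> fin_cases j <;> simp [Fin.forall_fin_succ] <;> tauto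

end MODaux

open MODaux

theorem t_MOD : Stmt_MOD := by
  refine ⟨closed_ends, isClosed_empty, ?_, empty_subset _, ?_, ?_, ?_, ?_, ?_, ?_, ?_, ?_, ?_, ?_⟩
  · rintro x ⟨hx, ⟨h, h'⟩ | ⟨h, h'⟩⟩
    · refine mem_iUnion.2 ⟨0, mem_iUnion.2 ⟨1, hx, ?_⟩⟩
      intro k h0 h1
      fin_cases k
      · exact absurd rfl h0
      · exact absurd rfl h1
      · exact h
      · exact h'
    · refine mem_iUnion.2 ⟨2, mem_iUnion.2 ⟨3, hx, ?_⟩⟩
      intro k h0 h1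
      fin_cases k
      · exact h
      · exact h'
      · exact absurd rfl h0
      · exact absurd rfl h1
  · intro x hx
    obtain ⟨i, hx⟩ := mem_iUnion.1 hx
    obtain ⟨j, hx⟩ := mem_iUnion.1 hx
    refine ⟨hx.1, ?_⟩
    have hk : ∀ i j : Fin 4, ∃ k : Fin 4, k ≠ i ∧ k ≠ j := by decide
    obtain ⟨k, h1, h2⟩ := hk i j
    exact ⟨k, hx.2 k h1 h2⟩
  · intro p hp
    obtain ⟨i, hp⟩ := mem_iUnion.1 hp
    obtain ⟨j, hp⟩ := mem_iUnion.1 hp
    obtain ⟨hw, hp⟩ := hp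
    have h1 : (p.1 = 1 ∨ p.1 = -1) ∧ (p.2.1 = 1 ∨ p.2.1 = -1) := by
      rcases hp with ⟨h | h, h' | h'⟩ | ⟨h | h, h' | h'⟩ <;>
        exact ⟨by first | exact Or.inl h.2 | exact Or.inr h.2,
          by first | exact Or.inl h'.2 | exact Or.inr h'.2⟩
    have hu : |p.1| = 1 := by
      rcases h1.1 with h | h <;> rw [h] <;> simp
    have hv : |p.2.1| = 1 := by
      rcases h1.2 with h | h <;> rw [h] <;> simp
    exact ⟨hu.le, hv.le, hw, Or.inl hu⟩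
  · intro x hx hn
    exact ⟨(maps1 hx hn).1, fun h => h, (maps1 hx hn).2⟩
  · intro p hp _
    exact maps2 hp
  · have h01 : ∀ x ∈ stdTet.body \ ends, x 0 + x 1 ≠ 0 := fun x hx => (pos01 hx.1 hx.2).ne'
    have h23 : ∀ x ∈ stdTet.body \ ends, x 2 + x 3 ≠ 0 := fun x hx => (pos23 hx.1 hx.2).ne'
    have c : ∀ i : Fin 4, ContinuousOn (fun x : R4 => x i) (stdTet.body \ ends) := fun i =>
      (continuous_apply i).continuousOn
    exact (((c 1).sub (c 0)).div ((c 0).add (c 1)) h01).prodMk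
      ((((c 3).sub (c 2)).div ((c 2).add (c 3)) h23).prodMk
        (((c 0).add (c 1)).sub ((c 2).add (c 3))))
  · exact continuous_thi.continuousOn
  · intro x hx hn
    have hm := (maps1 hx hn).1
    have h01 := pos01 hx hn
    have h23 := pos23 hx hn
    have e1 : (th x).1 = 1 ↔ x 0 = 0 := div_eq_one h01
    have e2 : (th x).1 = -1 ↔ x 1 = 0 := div_eq_neg_one h01
    have e3 : (th x).2.1 = 1 ↔ x 2 = 0 := div_eq_one h23
    have e4 : (th x).2.1 = -1 ↔ x 3 = 0 := div_eq_neg_one h23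
    have l : x ∈ stdTet.bd ↔ ∃ i, x i = 0 := ⟨fun h => h.2, fun h => ⟨hx, h⟩⟩
    have r : th x ∈ cyl.bd ↔ (|(th x).1| = 1 ∨ |(th x).2.1| = 1) :=
      ⟨fun h => h.2.2.2, fun h => ⟨hm.1, hm.2.1, hm.2.2, h⟩⟩
    rw [l, r, abs_eq zero_le_one, abs_eq zero_le_one, e1, e2, e3, e4]
    constructor
    · rintro ⟨i, hi⟩
      fin_cases i
      · exact Or.inl (Or.inl hi)
      · exact Or.inl (Or.inr hi)
      · exact Or.inr (Or.inl hi)
      · exact Or.inr (Or.inr hi)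
    · rintro ((h | h) | (h | h))
      · exact ⟨0, h⟩
      · exact ⟨1, h⟩
      · exact ⟨2, h⟩
      · exact ⟨3, h⟩
  · intro x hx hn i j
    exact edge_iff hx hn i j
  · intro i j
    by_cases hij : (∃ k : Fin 4, (k = 2 ∨ k = 3) ∧ (k = i ∨ k = j)) ∧
        (∃ k : Fin 4, (k = 0 ∨ k = 1) ∧ (k = i ∨ k = j))
    · right
      refine ⟨fun x => x 2 + x 3,
        ((continuous_apply 2).add (continuous_apply 3)).continuousOn, ?_, ?_⟩
      · rintro x ⟨hx, hx'⟩ y ⟨hy, hy'⟩ hxy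
        have sx := sum4 hx
        have sy := sum4 hy
        simp only at hxy
        have key : (x 0 = 0 ∧ y 0 = 0 ∨ x 1 = 0 ∧ y 1 = 0) ∧ (x 2 = 0 ∧ y 2 = 0 ∨ x 3 = 0 ∧ y 3 = 0) := by
          have hk : ∀ i j : Fin 4, ((∃ k : Fin 4, (k = 2 ∨ k = 3) ∧ (k = i ∨ k = j)) ∧
              (∃ k : Fin 4, (k = 0 ∨ k = 1) ∧ (k = i ∨ k = j))) →
              (((0 : Fin 4) ≠ i ∧ (0 : Fin 4) ≠ j) ∨ ((1 : Fin 4) ≠ i ∧ (1 : Fin 4) ≠ j)) ∧
              (((2 : Fin 4) ≠ i ∧ (2 : Fin 4) ≠ j) ∨ ((3 : Fin 4) ≠ i ∧ (3 : Fin 4) ≠ j)) := by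
            decide
          obtain ⟨k1, k2⟩ := hk i j hij
          constructor
          · rcases k1 with k | k
            · exact Or.inl ⟨hx' 0 k.1 k.2, hy' 0 k.1 k.2⟩
            · exact Or.inr ⟨hx' 1 k.1 k.2, hy' 1 k.1 k.2⟩
          · rcases k2 with k | k
            · exact Or.inl ⟨hx' 2 k.1 k.2, hy' 2 k.1 k.2⟩
            · exact Or.inr ⟨hx' 3 k.1 k.2, hy' 3 k.1 k.2⟩
        obtain ⟨k1, k2⟩ := key
        rcases k1 with ⟨a, b⟩ | ⟨a, b⟩ <;> rcases k2 with ⟨c, d⟩ | ⟨c, d⟩ <;>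
          refine ext4 ?_ ?_ ?_ ?_ <;> linarith
      · rintro x ⟨hx, hx'⟩ ⟨_, ⟨h, h'⟩ | ⟨h, h'⟩⟩
        · left
          rintro y ⟨hy, _⟩
          have := hy.1 2
          have := hy.1 3
          simp only
          linarith
        · right
          rintro y ⟨hy, _⟩
          have := hy.1 0
          have := hy.1 1
          have sx := sum4 hx
          have sy := sum4 hy
          simp only
          linarith
    · left
      rintro x ⟨hx, hx'⟩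
      refine ⟨hx, ?_⟩
      have hk : ∀ i j : Fin 4, ¬ ((∃ k : Fin 4, (k = 2 ∨ k = 3) ∧ (k = i ∨ k = j)) ∧
              (∃ k : Fin 4, (k = 0 ∨ k = 1) ∧ (k = i ∨ k = j))) →
              (((2 : Fin 4) ≠ i ∧ (2 : Fin 4) ≠ j) ∧ ((3 : Fin 4) ≠ i ∧ (3 : Fin 4) ≠ j)) ∨
              (((0 : Fin 4) ≠ i ∧ (0 : Fin 4) ≠ j) ∧ ((1 : Fin 4) ≠ i ∧ (1 : Fin 4) ≠ j)) := by
        decide
      rcases hk i j hij with ⟨k, k'⟩ | ⟨k, k'⟩
      · exact Or.inl ⟨hx' 2 k.1 k.2, hx' 3 k'.1 k'.2⟩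
      · exact Or.inr ⟨hx' 0 k.1 k.2, hx' 1 k'.1 k'.2⟩
  · intro i j
    right
    refine ⟨fun p => p.2.2, (continuous_snd.comp continuous_snd).continuousOn, ?_, ?_⟩
    · rintro p ⟨_, hp⟩ q ⟨_, hq⟩ hpq
      refine Prod.ext ?_ (Prod.ext ?_ hpq)
      · rcases hp with ⟨⟨a, b⟩ | ⟨a, b⟩, ⟨c, d⟩ | ⟨c, d⟩⟩ | ⟨⟨a, b⟩ | ⟨a, b⟩, ⟨c, d⟩ | ⟨c, d⟩⟩ <;>
          subst a <;> subst c <;>
          rcases hq with ⟨⟨a', b'⟩ | ⟨a', b'⟩, ⟨c', d'⟩ | ⟨c', d'⟩⟩ |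
            ⟨⟨a', b'⟩ | ⟨a', b'⟩, ⟨c', d'⟩ | ⟨c', d'⟩⟩ <;>
          first
            | (exact absurd a' (by decide))
            | (exact absurd c' (by decide))
            | (rw [b, b'])
      · rcases hp with ⟨⟨a, b⟩ | ⟨a, b⟩, ⟨c, d⟩ | ⟨c, d⟩⟩ | ⟨⟨a, b⟩ | ⟨a, b⟩, ⟨c, d⟩ | ⟨c, d⟩⟩ <;>
          subst a <;> subst c <;>
          rcases hq with ⟨⟨a', b'⟩ | ⟨a', b'⟩, ⟨c', d'⟩ | ⟨c', d'⟩⟩ |
            ⟨⟨a', b'⟩ | ⟨a', b'⟩, ⟨c', d'⟩ | ⟨c', d'⟩⟩ <;>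
          first
            | (exact absurd a' (by decide))
            | (exact absurd c' (by decide))
            | (rw [d, d'])
    · intro p _ h
      exact absurd h (notMem_empty p)

end Pool.Agent.LIX.PP
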