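import Pool.Agent.LIX.StmtsP

/-!
# LIX, block P, module NAX

A compressing disk on one side and an edge-compressing disk on the other side meet off the 1-skeleton.
-/

set_option autoImplicit false

namespace Pool.Agent.LIX.PP

open Set Metric Pool.Agent.LIX.TR

namespace NAX

/-- two points on the same corner line have the same `(u, v)` -/
theorem cor_eq {i j : Fin 4} {p q : R3} (hp : cor i j p ∨ cor j i p) (hq : cor i j q ∨ cor j i q) :
    p.1 = q.1 ∧ p.2.1 = q.2.1 := by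
  unfold cor at hp hq
  rcases hp with ⟨h1 | h1, h2 | h2⟩ | ⟨h1 | h1, h2 | h2⟩ <;>
  rcases hq with ⟨h3 | h3, h4 | h4⟩ | ⟨h3 | h3, h4 | h4⟩ <;>
  first
    | exact ⟨h1.2.trans h3.2.symm, h2.2.trans h4.2.symm⟩
    | (exfalso
       obtain ⟨h1, -⟩ := h1
       obtain ⟨h2, -⟩ := h2
       obtain ⟨h3, -⟩ := h3
       obtain ⟨h4, -⟩ := h4
       omega)

theorem cor_abs {i j : Fin 4} {p : R3} (hp : cor i j p ∨ cor j i p) :
    |p.1| = 1 ∧ |p.2.1| = 1 := by
  unfold cor at hp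
  rcases hp with ⟨h1 | h1, h2 | h2⟩ | ⟨h1 | h1, h2 | h2⟩ <;>
  (rw [h1.2, h2.2]; norm_num)

theorem skel_sub {p : R3} (hp : p ∈ cyl.skel) : p ∈ cyl.bd := by
  simp only [Cells.skel, mem_iUnion] at hp
  obtain ⟨i, j, h1, h2⟩ := hp
  have h3 := cor_abs h2
  exact ⟨h3.1.le, h3.2.le, h1, Or.inl h3.1⟩

theorem F_neg_half : F (-1 / 2) 0 = 2 := by
  have h1 : g1 (-1 / 2) 0 = 0 := by
    unfold g1
    norm_num
  have h2 : g1 (-(-1 / 2)) 0 = 2 / 3 := by
    unfold g1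
    rw [abs_zero, max_eq_left (by norm_num), max_eq_left (by norm_num)]
    norm_num
  unfold F
  rw [h1, h2, max_eq_right (by norm_num), max_eq_left (by norm_num)]
  norm_num

/-- the value of `F` on the boundary of the second hole -/
theorem F_hole {x y : ℝ} (h1 : 2 / 7 ≤ x) (h2 : x ≤ 4 / 7) (h3 : |y| ≤ 1 / 7)
    (h4 : ¬ (2 / 7 < x ∧ x < 4 / 7 ∧ |y| < 1 / 7)) : F x y = - (6 / 7) := by
  have a1 : g1 (-x) y = 1 / 7 := by
    unfold g1
    apply le_antisymm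
    · refine max_le (max_le ?_ ?_) h3 <;> linarith
    · by_cases b1 : 2 / 7 < x
      · by_cases b2 : x < 4 / 7
        · have b3 : 1 / 7 ≤ |y| := by
            by_contra h
            exact h4 ⟨b1, b2, not_le.mp h⟩
          exact b3.trans (le_max_right _ _)
        · refine le_trans ?_ (le_max_left _ _)
          refine le_trans ?_ (le_max_right _ _)
          linarith [not_lt.mp b2]
      · refine le_trans ?_ (le_max_left _ _)
        refine le_trans ?_ (le_max_left _ _)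
        linarith [not_lt.mp b1]
  have a2 : 1 / 4 ≤ g1 x y := by
    unfold g1
    refine le_trans ?_ (le_max_left _ _)
    refine le_trans ?_ (le_max_left _ _)
    linarith
  unfold F
  rw [a1, max_eq_left (by linarith), max_eq_right (by norm_num)]
  norm_num

theorem sec_bd {z : ℂ} (hz : z ∈ PQ) (h : 2 / 7 ≤ z.re ∧ z.re ≤ 4 / 7 ∧ |z.im| ≤ 1 / 7) :
    sec z ∈ cyl.bd := by
  obtain ⟨h1, h2, h3⟩ := h
  have hF := F_hole h1 h2 h3 hz.2.2.2
  have e1 : sec z = (7 * (z.re - 3 / 7), 7 * z.im, -(6 / 7)) := by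
    unfold sec
    rw [hF, abs_neg, abs_of_pos (by norm_num)]
    refine Prod.ext ?_ (Prod.ext ?_ rfl)
    · show (z.re + -(6 / 7) / 2) / (1 - 6 / 7) = 7 * (z.re - 3 / 7)
      ring
    · show z.im / (1 - 6 / 7) = 7 * z.im
      ring
  rw [e1]
  have e2 : |7 * z.im| = 7 * |z.im| := by rw [abs_mul, abs_of_pos (by norm_num : (0 : ℝ) < 7)]
  refine ⟨?_, ?_, ?_, ?_⟩
  · show |7 * (z.re - 3 / 7)| ≤ 1
    rw [abs_le]
    constructor <;> linarith
  · show |7 * z.im| ≤ 1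
    rw [e2]
    linarith
  · show |(-(6 / 7) : ℝ)| < 1
    rw [abs_neg, abs_of_pos (by norm_num)]
    norm_num
  · show |7 * (z.re - 3 / 7)| = 1 ∨ |7 * z.im| = 1
    by_cases b1 : 2 / 7 < z.re
    · by_cases b2 : z.re < 4 / 7
      · right
        have b3 : 1 / 7 ≤ |z.im| := by
          by_contra h
          exact hz.2.2.2 ⟨b1, b2, not_le.mp h⟩
        rw [e2, le_antisymm h3 b3]
        norm_num
      · left
        rw [le_antisymm h2 (not_lt.mp b2)]
        norm_num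
    · left
      rw [le_antisymm (not_lt.mp b1) h1]
      norm_num

/-- the values of `G` on a corner line -/
theorem corner (hGF : Stmt_GF) {a b : ℝ} (ha : |a| = 1) (hb : |b| = 1) {w : ℝ} (hw : |w| < 1) :
    (G (a, b, w) = 0 → w = 0 ∨ w = 6 / 7 ∨ w = - (6 / 7)) ∧ G (a, b, 0) = 0 ∧
    0 < G (a, b, 3 / 7) := by
  obtain ⟨-, h3, h4, h5, -, h6, -, -⟩ := hGF
  have k1 : g1 a b = 1 := ((h6 a b).2 ha.le hb.le).2 (Or.inl ha)
  have ha' : |(-a)| = 1 := by rw [abs_neg, ha]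
  have k2 : g1 (-a) b = 1 := ((h6 (-a) b).2 ha'.le hb.le).2 (Or.inl ha')
  obtain ⟨w1, w2⟩ := abs_lt.mp hw
  refine ⟨fun h => ?_, ?_, ?_⟩
  · rcases lt_trichotomy w 0 with h0 | h0 | h0
    · right; right
      have s1 : G (-a, b, -w) = 0 := by rw [h5, h, neg_zero]
      have s2 := (h3 (-a) b (-w) ha'.le hb.le (by linarith) (by linarith)).1.1 s1
      rw [k2] at s2
      linarith
    · exact Or.inl h0
    · right; left
      have s2 := (h3 a b w ha.le hb.le h0 w2).1.1 h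
      rw [k1] at s2
      linarith
  · refine (h4 a b).1.2 ?_
    rw [k1, k2]
    norm_num
  · refine (h3 a b (3 / 7) ha.le hb.le (by norm_num) (by norm_num)).2.2 ?_
    rw [k1]
    norm_num

end NAX

open NAX in
theorem t_NAX : Stmt_GF → Stmt_SEC → Stmt_PLN → Stmt_NAX := by
  intro hGF hSEC hPLN f e hf he hGf hGe hsub
  obtain ⟨⟨Φ, Φc, Φi, Φp, Φf⟩, hess⟩ := hf
  obtain ⟨⟨Ψ, Ψc, Ψi, Ψp, Ψe⟩, i, j, hij⟩ := he
  have hpr : Continuous pr := hGF.2.2.2.2.2.2.2
  have h0 : (0 : ℝ) ∈ Icc (-1 : ℝ) 1 := ⟨by norm_num, by norm_num⟩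
  -- facts on `f`
  have fc : ContinuousOn f Disk := by
    have h1 : ContinuousOn (fun z : ℂ => Φ (z, 0)) Disk :=
      Φc.comp (by fun_prop) fun z hz => ⟨hz, h0⟩
    exact h1.congr fun z hz => (Φf z hz).symm
  have fi : ∀ z ∈ Disk, ∀ z' ∈ Disk, f z = f z' → z = z' := by
    intro z hz z' hz' h
    rw [← Φf z hz, ← Φf z' hz'] at h
    exact congrArg Prod.fst (Φi ⟨hz, h0⟩ ⟨hz', h0⟩ h)
  have fb : ∀ z ∈ Disk, f z ∈ cyl.body ∧ f z ∉ cyl.bd ∧ (f z ∈ HC ↔ ‖z‖ = 1) := by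
    intro z hz
    rw [← Φf z hz]
    exact Φp z hz 0 h0
  -- facts on `e`
  have ec : ContinuousOn e HDisk := by
    have h1 : ContinuousOn (fun z : ℂ => Ψ (z, 0)) HDisk :=
      Ψc.comp (by fun_prop) fun z hz => ⟨hz, h0⟩
    exact h1.congr fun z hz => (Ψe z hz).symm
  have ei : ∀ z ∈ HDisk, ∀ z' ∈ HDisk, e z = e z' → z = z' := by
    intro z hz z' hz' h
    rw [← Ψe z hz, ← Ψe z' hz'] at h
    exact congrArg Prod.fst (Ψi ⟨hz, h0⟩ ⟨hz', h0⟩ h)
  have eb : ∀ z ∈ HDisk, e z ∈ cyl.body ∧ (e z ∈ HC ↔ z.im = 0) := by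
    intro z hz
    rw [← Ψe z hz]
    exact ⟨(Ψp z hz 0 h0).1, (Ψp z hz 0 h0).2.2.1⟩
  have cD : ∀ z : ℂ, ‖z‖ = 1 → z ∈ Disk := fun z hz => hz.le
  -- the semicircle
  obtain ⟨γ, hγ⟩ : ∃ γ : ℝ → ℂ, γ = fun θ : ℝ => Complex.exp (θ * Complex.I) := ⟨_, rfl⟩
  have γc : Continuous γ := by
    rw [hγ]
    fun_prop
  have γn : ∀ θ, ‖γ θ‖ = 1 := by
    intro θ
    rw [hγ]
    exact Complex.norm_exp_ofReal_mul_I θ
  have γim : ∀ θ, (γ θ).im = Real.sin θ := by
    intro θ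
    rw [hγ]
    exact Complex.exp_ofReal_mul_I_im θ
  have γH : ∀ θ ∈ Icc 0 Real.pi, γ θ ∈ HDisk := by
    intro θ hθ
    refine ⟨(γn θ).le, ?_⟩
    rw [γim]
    exact Real.sin_nonneg_of_nonneg_of_le_pi hθ.1 hθ.2
  have γ0 : γ 0 = 1 := by
    rw [hγ]
    simp
  have γπ : γ Real.pi = -1 := by
    rw [hγ]
    simp
  have oneH : (1 : ℂ) ∈ HDisk := by
    rw [← γ0]
    exact γH 0 ⟨le_rfl, Real.pi_pos.le⟩
  have negH : (-1 : ℂ) ∈ HDisk := by
    rw [← γπ]
    exact γH Real.pi ⟨Real.pi_pos.le, le_rfl⟩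
  obtain ⟨a, ha⟩ : ∃ a, a = (e 1).1 := ⟨_, rfl⟩
  obtain ⟨b, hb⟩ : ∃ b, b = (e 1).2.1 := ⟨_, rfl⟩
  have one1 : ‖(1 : ℂ)‖ = 1 := norm_one
  have ab : |a| = 1 ∧ |b| = 1 := by
    rw [ha, hb]
    exact cor_abs (hij 1 oneH one1).2
  have line : ∀ z ∈ HDisk, ‖z‖ = 1 → e z = (a, b, (e z).2.2) := by
    intro z hz h1
    have h2 := cor_eq (hij z hz h1).2 (hij 1 oneH one1).2
    rw [ha, hb]
    exact Prod.ext h2.1 (Prod.ext h2.2 rfl)
  have wlt : ∀ z ∈ HDisk, |(e z).2.2| < 1 := fun z hz => (eb z hz).1.2.2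
  have wend : ∀ z ∈ HDisk, ‖z‖ = 1 → z.im = 0 →
      (e z).2.2 = 0 ∨ (e z).2.2 = 6 / 7 ∨ (e z).2.2 = - (6 / 7) := by
    intro z hz h1 h2
    have h3 : G (e z) = 0 := ((eb z hz).2.2 h2).2
    rw [line z hz h1] at h3
    exact (corner hGF ab.1 ab.2 (wlt z hz)).1 h3
  have w1 := wend 1 oneH one1 (by simp)
  have nn : ‖(-1 : ℂ)‖ = 1 := by rw [norm_neg, norm_one]
  have w2 := wend (-1) negH nn (by simp)
  have wne : (e 1).2.2 ≠ (e (-1)).2.2 := by
    intro h
    have h1 : e 1 = e (-1) := by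
      rw [line 1 oneH one1, line (-1) negH nn, h]
    have h2 := ei 1 oneH (-1) negH h1
    norm_num at h2
  -- intermediate values
  have wc : ContinuousOn (fun θ : ℝ => (e (γ θ)).2.2) (Icc 0 Real.pi) := by
    have h1 : ContinuousOn (fun θ : ℝ => e (γ θ)) (Icc 0 Real.pi) :=
      ec.comp γc.continuousOn γH
    exact (continuous_snd.comp continuous_snd).comp_continuousOn h1
  have ivt : ∀ w : ℝ, w ∈ uIcc (e 1).2.2 (e (-1)).2.2 → w ≠ (e 1).2.2 → w ≠ (e (-1)).2.2 →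
      G (a, b, w) < 0 := by
    intro w hw h1 h2
    have h3 : uIcc (e 1).2.2 (e (-1)).2.2 ⊆ (fun θ : ℝ => (e (γ θ)).2.2) '' (uIcc 0 Real.pi) := by
      have h4 := intermediate_value_uIcc (a := 0) (b := Real.pi)
        (f := fun θ : ℝ => (e (γ θ)).2.2) (by rwa [uIcc_of_le Real.pi_pos.le])
      simp only [γ0, γπ] at h4
      exact h4
    obtain ⟨θ, hθ, h4⟩ := h3 hw
    simp only at h4
    rw [uIcc_of_le Real.pi_pos.le] at hθ
    have h5 : θ ≠ 0 := by
      rintro rfl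
      rw [γ0] at h4
      exact h1 h4.symm
    have h6 : θ ≠ Real.pi := by
      rintro rfl
      rw [γπ] at h4
      exact h2 h4.symm
    have h7 : 0 < Real.sin θ :=
      Real.sin_pos_of_pos_of_lt_pi (lt_of_le_of_ne hθ.1 (Ne.symm h5)) (lt_of_le_of_ne hθ.2 h6)
    have h8 := γH θ hθ
    have h9 : e (γ θ) ∉ HC := by
      intro h
      have := (eb _ h8).2.1 h
      rw [γim] at this
      exact h7.ne' this
    have h10 : e (γ θ) = (a, b, w) := by
      rw [line _ h8 (γn θ), h4]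
    rw [← h10]
    refine lt_of_le_of_ne (hGe _ h8) fun h => h9 ⟨(eb _ h8).1, h⟩
  -- the two ends
  have c1 := (corner hGF ab.1 ab.2 (w := 0) (by simp)).2
  have ends2 : ((e 1).2.2 = -(6 / 7) ∧ (e (-1)).2.2 = 0) ∨ ((e (-1)).2.2 = -(6 / 7) ∧ (e 1).2.2 = 0) := by
    rcases w1 with w1 | w1 | w1 <;> rcases w2 with w2 | w2 | w2
    · exact absurd (w1.trans w2.symm) wne
    · exfalso
      have := ivt (3 / 7) (by rw [w1, w2, uIcc_of_le (by norm_num)]; constructor <;> norm_num)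
        (by rw [w1]; norm_num) (by rw [w2]; norm_num)
      exact lt_asymm this c1.2
    · exact Or.inr ⟨w2, w1⟩
    · exfalso
      have := ivt (3 / 7) (by rw [w1, w2, uIcc_of_ge (by norm_num)]; constructor <;> norm_num)
        (by rw [w1]; norm_num) (by rw [w2]; norm_num)
      exact lt_asymm this c1.2
    · exact absurd (w1.trans w2.symm) wne
    · exfalso
      have := ivt 0 (by rw [w1, w2, uIcc_of_ge (by norm_num)]; constructor <;> norm_num)
        (by rw [w1]; norm_num) (by rw [w2]; norm_num)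
      rw [c1.1] at this
      exact lt_irrefl _ this
    · exact Or.inl ⟨w1, w2⟩
    · exfalso
      have := ivt 0 (by rw [w1, w2, uIcc_of_le (by norm_num)]; constructor <;> norm_num)
        (by rw [w1]; norm_num) (by rw [w2]; norm_num)
      rw [c1.1] at this
      exact lt_irrefl _ this
    · exact absurd (w1.trans w2.symm) wne
  obtain ⟨σ, hσ, σ1, σ2⟩ : ∃ σ : ℝ, |σ| = 1 ∧ e (σ : ℂ) = (a, b, -(6 / 7)) ∧
      e ((-σ : ℝ) : ℂ) = (a, b, 0) := by
    rcases ends2 with ⟨h1, h2⟩ | ⟨h1, h2⟩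
    · refine ⟨1, abs_one, ?_, ?_⟩
      · rw [Complex.ofReal_one, line 1 oneH one1, h1]
      · rw [Complex.ofReal_neg, Complex.ofReal_one, line (-1) negH nn, h2]
    · refine ⟨-1, by rw [abs_neg, abs_one], ?_, ?_⟩
      · rw [Complex.ofReal_neg, Complex.ofReal_one, line (-1) negH nn, h1]
      · rw [neg_neg, Complex.ofReal_one, line 1 oneH one1, h2]
  -- the plane lemma
  have αH : ∀ s ∈ Icc (0 : ℝ) 1, (((σ * (1 - 2 * s) : ℝ)) : ℂ) ∈ HDisk := by
    intro s hs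
    refine ⟨?_, ?_⟩
    · rw [Complex.norm_real, Real.norm_eq_abs, abs_mul, hσ, one_mul, abs_le]
      constructor <;> linarith [hs.1, hs.2]
    · rw [Complex.ofReal_im]
  obtain ⟨g, gc, gP, gb⟩ := hPLN (fun z => pr (f z)) (fun s => pr (e ((σ * (1 - 2 * s) : ℝ) : ℂ)))
    (hpr.comp_continuousOn fc)
    (by
      intro z hz h
      have h1 : (f z).2.2 < 1 := (abs_lt.mp (fb z hz).1.2.2).2
      have h2 := hGf z hz
      unfold G at h2
      rw [h] at h2
      have h3 : F ((-1 / 2 : ℂ)).re ((-1 / 2 : ℂ)).im = 2 := by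
        have e1 : ((-1 / 2 : ℂ)).re = -1 / 2 := by norm_num
        have e2 : ((-1 / 2 : ℂ)).im = 0 := by norm_num
        rw [e1, e2]
        exact F_neg_half
      rw [h3] at h2
      linarith)
    (by
      intro z hz z' hz' h
      have h1 := (hSEC.2.1 _ ((fb z (cD z hz)).2.2.2 hz)).2
      have h2 := (hSEC.2.1 _ ((fb z' (cD z' hz')).2.2.2 hz')).2
      simp only at h
      rw [h, h2] at h1
      exact (fi z' (cD z' hz') z (cD z hz) h1).symm)
    (fun z hz => (hSEC.2.1 _ ((fb z (cD z hz)).2.2.2 hz)).1)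
    (by
      intro z hz h
      have h1 := hSEC.2.1 _ ((fb z (cD z hz)).2.2.2 hz)
      have h2 := sec_bd h1.1 h
      rw [h1.2] at h2
      exact (fb z (cD z hz)).2.1 h2)
    (by
      refine hpr.comp_continuousOn (ec.comp ?_ αH)
      fun_prop)
    (by
      simp only [mul_zero, sub_zero, mul_one]
      rw [σ1]
      unfold pr
      have k1 : |(-(6 / 7) : ℝ)| = 6 / 7 := by rw [abs_neg, abs_of_pos (by norm_num)]
      simp only [k1]
      obtain ⟨k2, k3⟩ := abs_le.mp ab.1.le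
      refine ⟨by linarith, by linarith, ?_⟩
      rw [abs_mul, ab.2, abs_of_pos (by norm_num)]
      norm_num)
    (by
      left
      have k0 : σ * (1 - 2 * 1) = -σ := by ring
      simp only [k0]
      rw [σ2]
      unfold pr
      simp only [abs_zero, sub_zero, one_mul, zero_div]
      exact ab.1.ge)
    (by
      intro s hs z hz h
      have h1 := (hSEC.2.1 _ ((fb z (cD z hz)).2.2.2 hz)).2
      have h2 := (hSEC.2.1 _ ((eb _ (αH s hs)).2.2 (Complex.ofReal_im _))).2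
      rw [h, h1] at h2
      have h3 : f z ∈ cyl.skel := hsub ⟨⟨z, cD z hz, rfl⟩, ⟨_, αH s hs, h2.symm⟩⟩
      exact (fb z (cD z hz)).2.1 (skel_sub h3))
  refine hess ⟨fun z => sec (g z), hSEC.2.2.comp gc gP, fun z hz => (hSEC.1 _ (gP z hz)).1, ?_⟩
  intro z hz
  show sec (g z) = f z
  rw [gb z hz]
  exact (hSEC.2.1 _ ((fb z (cD z hz)).2.2.2 hz)).2

end Pool.Agent.LIX.PP
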