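import Mathlib

/-!
# LIX, block TB: continuous logarithms

`CLog K f`: the function `f` has a continuous logarithm on the set `K`.
-/

namespace Pool.Agent.LIX

open Set Metric Complex Filter Topology

/-- `f` has a continuous logarithm on `K`. -/
def CLog {X : Type*} [TopologicalSpace X] (K : Set X) (f : X → ℂ) : Prop :=
  ∃ g : X → ℂ, ContinuousOn g K ∧ ∀ x ∈ K, exp (g x) = f x

section basic

variable {X Y : Type*} [TopologicalSpace X] [TopologicalSpace Y] {K L : Set X} {f f' : X → ℂ}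

theorem CLog.mono (h : CLog L f) (hKL : K ⊆ L) : CLog K f := by
  obtain ⟨g, hg, he⟩ := h
  exact ⟨g, hg.mono hKL, fun x hx => he x (hKL hx)⟩

theorem CLog.congr (h : CLog K f) (hf : ∀ x ∈ K, f' x = f x) : CLog K f' := by
  obtain ⟨g, hg, he⟩ := h
  exact ⟨g, hg, fun x hx => by rw [he x hx, hf x hx]⟩

theorem CLog.ne_zero (h : CLog K f) {x : X} (hx : x ∈ K) : f x ≠ 0 := by
  obtain ⟨g, _, he⟩ := h
  rw [← he x hx]
  exact exp_ne_zero _

theorem CLog.continuousOn (h : CLog K f) : ContinuousOn f K := by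
  obtain ⟨g, hg, he⟩ := h
  exact (continuous_exp.comp_continuousOn hg).congr fun x hx => (he x hx).symm

theorem CLog.mul (h : CLog K f) (h' : CLog K f') : CLog K fun x => f x * f' x := by
  obtain ⟨g, hg, he⟩ := h
  obtain ⟨g', hg', he'⟩ := h'
  exact ⟨fun x => g x + g' x, hg.add hg', fun x hx => by rw [exp_add, he x hx, he' x hx]⟩

theorem CLog.inv (h : CLog K f) : CLog K fun x => (f x)⁻¹ := by
  obtain ⟨g, hg, he⟩ := h
  exact ⟨fun x => -g x, hg.neg, fun x hx => by rw [exp_neg, he x hx]⟩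

theorem CLog.div (h : CLog K f) (h' : CLog K f') : CLog K fun x => f x / f' x := by
  refine (h.mul h'.inv).congr fun x _ => div_eq_mul_inv _ _

theorem CLog.zpow (h : CLog K f) (n : ℤ) : CLog K fun x => f x ^ n := by
  obtain ⟨g, hg, he⟩ := h
  exact ⟨fun x => n * g x, continuousOn_const.mul hg, fun x hx => by
    rw [exp_int_mul, he x hx]⟩

theorem cLog_const {c : ℂ} (hc : c ≠ 0) : CLog K fun _ => c :=
  ⟨fun _ => log c, continuousOn_const, fun _ _ => exp_log hc⟩

theorem CLog.comp {M : Set Y} {φ : Y → X} (h : CLog K f) (hφ : ContinuousOn φ M)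
    (hm : MapsTo φ M K) : CLog M fun y => f (φ y) := by
  obtain ⟨g, hg, he⟩ := h
  exact ⟨fun y => g (φ y), hg.comp hφ hm, fun y hy => he _ (hm hy)⟩

/-- a function with values near `1` has a logarithm -/
theorem cLog_of_near (hf : ContinuousOn f K) (h1 : ∀ x ∈ K, ‖f x - 1‖ < 1) :
    CLog K f := by
  have hs : ∀ x ∈ K, f x ∈ slitPlane := by
    intro x hx
    refine Or.inl ?_
    have h2 := (abs_re_le_norm (f x - 1)).trans_lt (h1 x hx)
    rw [sub_re, one_re, abs_lt] at h2
    linarith [h2.1]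
  refine ⟨fun x => log (f x), fun x hx => ?_, fun x hx => exp_log (slitPlane_ne_zero (hs x hx))⟩
  exact (continuousAt_clog (hs x hx)).comp_continuousWithinAt (hf x hx)

/-- a function with values in the slit plane has a logarithm -/
theorem cLog_of_slit (hf : ContinuousOn f K) (hs : ∀ x ∈ K, f x ∈ slitPlane) :
    CLog K f := by
  refine ⟨fun x => log (f x), fun x hx => ?_, fun x hx => exp_log (slitPlane_ne_zero (hs x hx))⟩
  exact (continuousAt_clog (hs x hx)).comp_continuousWithinAt (hf x hx)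

/-- two functions that are close relative to the size of the second one -/
theorem CLog.of_close (h : CLog K f') (hf : ContinuousOn f K)
    (h1 : ∀ x ∈ K, ‖f x - f' x‖ < ‖f' x‖) : CLog K f := by
  have h2 : CLog K fun x => f x / f' x := by
    refine cLog_of_near (hf.div h.continuousOn fun x hx => h.ne_zero hx) fun x hx => ?_
    have h3 : f' x ≠ 0 := h.ne_zero hx
    have h4 : f x / f' x - 1 = (f x - f' x) / f' x := by
      field_simp
    rw [h4, norm_div, div_lt_one (norm_pos_iff.2 h3)]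
    exact h1 x hx
  refine (h2.mul h).congr fun x hx => ?_
  exact (div_mul_cancel₀ _ (h.ne_zero hx)).symm

end basic

/-- **Homotopy invariance**: if `H` is a homotopy of nonvanishing functions on a compact set, the
quotient of the two ends has a logarithm. -/
theorem cLog_homotopy {X : Type*} [PseudoMetricSpace X] {K : Set X} (hK : IsCompact K)
    {H : X × ℝ → ℂ} (hH : ContinuousOn H (K ×ˢ Icc 0 1))
    (h0 : ∀ x ∈ K, ∀ t ∈ Icc (0 : ℝ) 1, H (x, t) ≠ 0) :
    CLog K fun x => H (x, 1) / H (x, 0) := by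
  have hc : IsCompact (K ×ˢ Icc (0 : ℝ) 1) := hK.prod isCompact_Icc
  rcases K.eq_empty_or_nonempty with rfl | ⟨x0, hx0⟩
  · exact ⟨fun _ => 0, continuousOn_empty _, fun x hx => hx.elim⟩
  have hne : (K ×ˢ Icc (0 : ℝ) 1).Nonempty := ⟨(x0, 0), hx0, by simp⟩
  -- a lower bound
  obtain ⟨p, hp, hmin⟩ := hc.exists_isMinOn hne hH.norm
  have hδ : 0 < ‖H p‖ := norm_pos_iff.2 (h0 p.1 hp.1 p.2 hp.2)
  have hlow : ∀ x ∈ K, ∀ t ∈ Icc (0 : ℝ) 1, ‖H p‖ ≤ ‖H (x, t)‖ := fun x hx t ht =>
    hmin (⟨hx, ht⟩ : (x, t) ∈ K ×ˢ Icc (0 : ℝ) 1)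
  have hu := hc.uniformContinuousOn_of_continuous hH
  rw [Metric.uniformContinuousOn_iff] at hu
  obtain ⟨η, hη, hη2⟩ := hu ‖H p‖ hδ
  obtain ⟨N, hN⟩ := exists_nat_gt (1 / η)
  have hNpos : (0 : ℝ) < N := lt_trans (by positivity) hN
  have hN1 : (1 : ℝ) / N < η := by
    rw [div_lt_iff₀ hNpos]
    rw [div_lt_iff₀ hη] at hN
    linarith
  -- induction
  have key : ∀ k : ℕ, k ≤ N → CLog K fun x => H (x, k / N) / H (x, 0) := by
    intro k
    induction k with
    | zero =>
      intro _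
      refine (cLog_const (K := K) (one_ne_zero)).congr fun x hx => ?_
      have : ((0 : ℕ) : ℝ) / N = 0 := by simp
      rw [this]
      exact div_self (h0 x hx 0 (by simp))
    | succ k ih =>
      intro hk
      have h1 := ih (by omega)
      have hkN : ((k : ℝ) + 1) ≤ N := by exact_mod_cast hk
      have ht0 : (k : ℝ) / N ∈ Icc (0 : ℝ) 1 :=
        ⟨by positivity, by rw [div_le_one hNpos]; linarith⟩
      have ht1 : ((k : ℝ) + 1) / N ∈ Icc (0 : ℝ) 1 :=
        ⟨by positivity, by rw [div_le_one hNpos]; exact hkN⟩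
      have hc1 : ∀ t ∈ Icc (0 : ℝ) 1, ContinuousOn (fun x => H (x, t)) K := fun t ht =>
        hH.comp (by fun_prop) fun x hx => ⟨hx, ht⟩
      have h2 : CLog K fun x => H (x, ((k : ℝ) + 1) / N) / H (x, k / N) := by
        refine cLog_of_near ((hc1 _ ht1).div (hc1 _ ht0) fun x hx => h0 x hx _ ht0)
          fun x hx => ?_
        have h3 : H (x, (k : ℝ) / N) ≠ 0 := h0 x hx _ ht0
        have h4 : H (x, ((k : ℝ) + 1) / N) / H (x, k / N) - 1 =
            (H (x, ((k : ℝ) + 1) / N) - H (x, k / N)) / H (x, k / N) := by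
          field_simp
        rw [h4, norm_div, div_lt_one (norm_pos_iff.2 h3)]
        refine lt_of_lt_of_le ?_ (hlow x hx _ ht0)
        have h5 := hη2 (x, ((k : ℝ) + 1) / N) ⟨hx, ht1⟩ (x, (k : ℝ) / N) ⟨hx, ht0⟩ (by
          rw [Prod.dist_eq, dist_self, Real.dist_eq]
          have h6 : ((k : ℝ) + 1) / N - k / N = 1 / N := by ring
          rw [h6, abs_of_pos (by positivity)]
          exact max_lt hη hN1)
        rwa [dist_eq_norm] at h5
      refine (h2.mul h1).congr fun x hx => ?_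
      push_cast
      have h3 : H (x, (k : ℝ) / N) ≠ 0 := h0 x hx _ ht0
      rw [div_mul_div_cancel₀ h3]
  have h7 := key N le_rfl
  rwa [div_self hNpos.ne'] at h7

/-- a function on a compact set that contracts in itself -/
theorem cLog_of_contraction {X : Type*} [PseudoMetricSpace X] {K : Set X} (hK : IsCompact K)
    {c : X × ℝ → X} (hc : ContinuousOn c (K ×ˢ Icc 0 1))
    (hm : ∀ x ∈ K, ∀ t ∈ Icc (0 : ℝ) 1, c (x, t) ∈ K) (h1 : ∀ x ∈ K, c (x, 1) = x)
    {p : X} (h0 : ∀ x ∈ K, c (x, 0) = p) {f : X → ℂ} (hf : ContinuousOn f K)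
    (hf0 : ∀ x ∈ K, f x ≠ 0) : CLog K f := by
  rcases K.eq_empty_or_nonempty with rfl | ⟨x0, hx0⟩
  · exact ⟨fun _ => 0, continuousOn_empty _, fun x hx => hx.elim⟩
  have hp : p ∈ K := by
    rw [← h0 x0 hx0]
    exact hm x0 hx0 0 (by simp)
  have h2 := cLog_homotopy hK (H := fun q => f (c q)) (hf.comp hc fun q hq =>
    hm q.1 hq.1 q.2 hq.2) fun x hx t ht => hf0 _ (hm x hx t ht)
  refine (h2.mul (cLog_const (hf0 p hp))).congr fun x hx => ?_
  rw [h1 x hx, h0 x hx, div_mul_cancel₀ _ (hf0 p hp)]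

/-- convex compact sets -/
theorem cLog_convex {E : Type*} [NormedAddCommGroup E] [NormedSpace ℝ E] {K : Set E}
    (hK : IsCompact K) (hc : Convex ℝ K) {f : E → ℂ} (hf : ContinuousOn f K)
    (hf0 : ∀ x ∈ K, f x ≠ 0) : CLog K f := by
  rcases K.eq_empty_or_nonempty with rfl | ⟨x0, hx0⟩
  · exact ⟨fun _ => 0, continuousOn_empty _, fun x hx => hx.elim⟩
  refine cLog_of_contraction hK (c := fun q => q.2 • q.1 + (1 - q.2) • x0) (p := x0)
    (by fun_prop) (fun x hx t ht => ?_) (fun x _ => ?_) (fun x _ => ?_) hf hf0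
  · exact hc hx hx0 ht.1 (by linarith [ht.2]) (by ring)
  · simp
  · simp

/-- images under injective continuous maps -/
theorem CLog.image {X Y : Type*} [TopologicalSpace X] [TopologicalSpace Y] [T2Space Y]
    {K : Set X} (hK : IsCompact K) {φ : X → Y} (hφ : ContinuousOn φ K) (hi : InjOn φ K)
    {f : Y → ℂ} (h : CLog K fun x => f (φ x)) : CLog (φ '' K) f := by
  classical
  obtain ⟨g, hg, he⟩ := h
  rcases K.eq_empty_or_nonempty with rfl | ⟨x0, hx0⟩
  · exact ⟨fun _ => 0, by simp, fun y hy => by simp at hy⟩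
  haveI : Nonempty X := ⟨x0⟩
  have hx : ∀ y ∈ φ '' K, ∃ x ∈ K, φ x = y := fun y hy => hy
  choose! ψ hψ1 hψ2 using hx
  have hψ3 : ∀ x ∈ K, ψ (φ x) = x := fun x hx' =>
    hi (hψ1 _ ⟨x, hx', rfl⟩) hx' (hψ2 _ ⟨x, hx', rfl⟩)
  have hcont : ContinuousOn ψ (φ '' K) := by
    haveI : CompactSpace K := isCompact_iff_compactSpace.1 hK
    have h1 : Continuous (fun x : K => (⟨φ x, x, x.2, rfl⟩ : φ '' K)) :=
      (continuousOn_iff_continuous_domRestrict.1 hφ).subtype_mk _
    have h2 : Function.Bijective (fun x : K => (⟨φ x, x, x.2, rfl⟩ : φ '' K)) := by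
      constructor
      · intro a b hab
        exact Subtype.ext (hi a.2 b.2 (Subtype.ext_iff.1 hab))
      · rintro ⟨y, x, hx', rfl⟩
        exact ⟨⟨x, hx'⟩, rfl⟩
    obtain ⟨e, he'⟩ : ∃ e : K ≃ₜ φ '' K, ∀ x : K, ((e x : φ '' K) : Y) = φ x :=
      ⟨Continuous.homeoOfEquivCompactToT2 (f := Equiv.ofBijective _ h2) h1, fun x => rfl⟩
    rw [continuousOn_iff_continuous_domRestrict]
    refine (continuous_subtype_val.comp e.symm.continuous).congr fun y => ?_
    obtain ⟨x, rfl⟩ := e.surjective y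
    have h4 := hψ3 x x.2
    rw [← he' x] at h4
    rw [Function.comp_apply, e.symm_apply_apply]
    exact h4.symm
  exact ⟨fun y => g (ψ y), hg.comp hcont fun y hy => hψ1 y hy, fun y hy => by
    rw [he _ (hψ1 y hy)]
    exact congrArg f (hψ2 y hy)⟩

end Pool.Agent.LIX
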