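import Pool.Agent.LIX.StmtsP
import Pool.Agent.LIX.Log
import Pool.Agent.LIX.Bors

set_option autoImplicit false

/-!
# LIX, block P: no retraction
-/

namespace Pool.Agent.LIX.PP

open Set Metric Pool.Agent.LIX.TR

theorem t_NRT : Stmt_NRT := by
  rintro ⟨h, hc, h0, hp⟩
  have hD : Disk = closedBall (0 : ℂ) 1 := by
    ext z
    rw [mem_closedBall, dist_zero_right]
    rfl
  have hS : sphere (0 : ℂ) 1 ⊆ Disk := by
    rw [hD]
    exact sphere_subset_closedBall
  have h1 : CLog Disk h :=
    cLog_convex (by rw [hD]; exact isCompact_closedBall _ _)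
      (by rw [hD]; exact convex_closedBall _ _) hc h0
  have h2 : CLog (sphere (0 : ℂ) 1) h := h1.mono hS
  have h3 : CLog (sphere (0 : ℂ) 1) fun z => z / h z := by
    refine cLog_of_slit ?_ ?_
    · exact continuousOn_id.div (hc.mono hS) fun z hz => h0 z (hS hz)
    · intro z hz
      have hz1 : ‖z‖ = 1 := by
        rw [mem_sphere, dist_zero_right] at hz
        exact hz
      obtain ⟨c, hc0, hc1⟩ := hp z hz1
      have hz0 : z ≠ 0 := by
        intro e
        rw [e, norm_zero] at hz1
        exact zero_ne_one hz1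
      have e : z / h z = ((c⁻¹ : ℝ) : ℂ) := by
        rw [hc1, Complex.ofReal_inv, div_mul_eq_div_div_swap, div_self hz0, one_div]
      rw [e]
      exact Or.inl (by rw [Complex.ofReal_re]; positivity)
  refine not_cLog_sphere 0 one_pos ((h2.mul h3).congr ?_)
  intro z hz
  rw [sub_zero, mul_div_cancel₀ z (h0 z (hS hz))]

end Pool.Agent.LIX.PP
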