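import Pool.Agent.LIX.StmtsP

/-!
# LIX, block P, module PFI

The assembly of block P: the pair of pants of Euler characteristic `-1` and length `12` has a
well-defined local index, which is at most `2`.
-/

set_option autoImplicit false

namespace Pool.Agent.LIX.PP

open Set Metric Pool.Agent.LIX.TR

namespace PFIX

/-- In `ZMod 4` an element is not its opposite. -/
theorem ne_add_two (x : ZMod 4) : x ≠ x + 2 := by
  revert x; decide

/-- In `ZMod 4` an element is not its successor. -/
theorem ne_add_one (x : ZMod 4) : x ≠ x + 1 := by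
  revert x; decide

/-- The label of a class of disks. -/
noncomputable def lab (hiso : Stmt_ISO) : Vtx stdTet HT → ZMod 4 :=
  Quot.lift (fun D : CE stdTet HT => labD D.1) fun D D' h => hiso D D' h

theorem lab_cls (hiso : Stmt_ISO) (D : CE stdTet HT) : lab hiso (cls D) = labD D.1 := rfl

/-- No opposite labels on a face. -/
theorem face_lab (hiso : Stmt_ISO) (hadj : Stmt_ADJ) :
    ∀ s ∈ (diskCpx stdTet HT).faces, ∀ a ∈ s, ∀ b ∈ s, lab hiso a ≠ lab hiso b + 2 := by
  intro s hs a ha b hb hab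
  obtain ⟨_, D, hD1, hD2⟩ := hs
  by_cases h : a = b
  · subst h
    exact ne_add_two _ hab
  · have h1 := hD2 a ha b hb h
    refine hadj (D a) (D b) ?_ h1
    rw [← lab_cls hiso, ← lab_cls hiso, hD1 a ha, hD1 b hb]
    exact hab

open Classical in
/-- Two disjoint disks of different classes span a face. -/
theorem pair_face (D E : CE stdTet HT) (hne : cls D ≠ cls E) (hdis : D.1 ∩ E.1 = ∅) :
    ({cls D, cls E} : Finset (Vtx stdTet HT)) ∈ (diskCpx stdTet HT).faces := by
  obtain ⟨R, hR1, hR2⟩ : ∃ R : Vtx stdTet HT → CE stdTet HT, R (cls D) = D ∧ R (cls E) = E :=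
    ⟨fun v => if v = cls D then D else E, if_pos rfl, if_neg (Ne.symm hne)⟩
  refine ⟨⟨cls D, Finset.mem_insert_self _ _⟩, R, ?_, ?_⟩
  · intro v hv
    rcases Finset.mem_insert.1 hv with h | h
    · rw [h, hR1]
    · rw [Finset.mem_singleton.1 h, hR2]
  · intro v hv w hw hvw
    rcases Finset.mem_insert.1 hv with h | h
    · rcases Finset.mem_insert.1 hw with h' | h'
      · exact absurd (h.trans h'.symm) hvw
      · rw [h, Finset.mem_singleton.1 h', hR1, hR2, hdis]
        exact Set.empty_subset _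
    · rcases Finset.mem_insert.1 hw with h' | h'
      · rw [h', Finset.mem_singleton.1 h, hR1, hR2, Set.inter_comm, hdis]
        exact Set.empty_subset _
      · exact absurd ((Finset.mem_singleton.1 h).trans (Finset.mem_singleton.1 h').symm) hvw

/-- The disk complex of the pair of pants. -/
theorem complex (hK3 : Stmt_K3) (hiso : Stmt_ISO) (hadj : Stmt_ADJ) (hfou : Stmt_FOU) :
    PiNe 1 (diskCpx stdTet HT).Space ∧ ¬ ContractibleSpace (diskCpx stdTet HT).Space := by
  classical
  obtain ⟨D, hD1, hD2⟩ := hfou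
  refine hK3 (Vtx stdTet HT) (diskCpx stdTet HT) (lab hiso) (fun i => cls (D i))
    (face_lab hiso hadj) (fun i => ?_) (fun i => ?_)
  · rw [lab_cls, hD1]
  · have hne : cls (D i) ≠ cls (D (i + 1)) := by
      intro h
      have h1 := congrArg (lab hiso) h
      rw [lab_cls, lab_cls, hD1, hD1] at h1
      exact ne_add_one i h1
    exact ⟨{cls (D i), cls (D (i + 1))}, pair_face _ _ hne (hD2 i),
      Finset.mem_insert_self _ _, Finset.mem_insert_of_mem (Finset.mem_singleton_self _)⟩

end PFIX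

theorem t_PFI : Stmt_K3 → Pool.Agent.LIX.K.S_K6 → Stmt_TR1 → Stmt_TR4 → Stmt_MOD → Stmt_SURF →
    Stmt_CON → Stmt_CHI → Stmt_ISO → Stmt_ADJ → Stmt_FOU → Stmt_PFI := by
  intro hK3 hK6 hTR1 hTR4 hMOD hSURF hCON hCHI hISO hADJ hFOU
  obtain ⟨hc1, hc2, hc3, hc4⟩ := hCON
  have hdis : Disjoint HC (∅ : Set R3) := Set.disjoint_empty _
  have hsurf : IsSurf stdTet HT := hTR1 R4 R3 stdTet cyl ends ∅ th thi hMOD HC hdis hSURF
  have h4 := hTR4 R4 R3 stdTet cyl ends ∅ th thi hMOD HC hc4 hdis hc3
  have hcx := PFIX.complex hK3 hISO hADJ hFOU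
  exact ⟨hsurf, h4.2.2 hc1, h4.1 (-1) hCHI, h4.2.1.trans hc2, Or.inr hcx.2,
    (hK6 R4 stdTet HT).1 hcx.1⟩

end Pool.Agent.LIX.PP
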