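import Pool.Agent.LIX.StmtsP

/-!
# The plane lemma
-/

set_option autoImplicit false

namespace Pool.Agent.LIX.PP

open Set Metric Pool.Agent.LIX.TR

namespace PLN

/-- the closed rectangle of the second hole -/
def rect : Set ℂ := {z | 2 / 7 ≤ z.re ∧ z.re ≤ 4 / 7 ∧ |z.im| ≤ 1 / 7}

theorem half_mem : (1 / 2 : ℂ) ∈ rect := by
  have h1 : (1 / 2 : ℂ).re = 1 / 2 := by norm_num
  have h2 : (1 / 2 : ℂ).im = 0 := by norm_num
  refine ⟨?_, ?_, ?_⟩
  · rw [h1]; norm_num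
  · rw [h1]; norm_num
  · rw [h2]; norm_num

theorem seg_mem {z : ℂ} (hz : z ∈ rect) {t : ℝ} (h0 : 0 ≤ t) (h1 : t ≤ 1) :
    (1 / 2 : ℂ) + (t : ℂ) * (z - 1 / 2) ∈ rect := by
  obtain ⟨a1, a2, a3⟩ := hz
  have e1 : ((1 / 2 : ℂ) + (t : ℂ) * (z - 1 / 2)).re = 1 / 2 + t * (z.re - 1 / 2) := by
    rw [Complex.add_re, Complex.re_ofReal_mul, Complex.sub_re]
    norm_num
  have e2 : ((1 / 2 : ℂ) + (t : ℂ) * (z - 1 / 2)).im = t * z.im := by
    rw [Complex.add_im, Complex.im_ofReal_mul, Complex.sub_im]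
    norm_num
  refine ⟨?_, ?_, ?_⟩
  · rw [e1]; nlinarith
  · rw [e1]; nlinarith
  · rw [e2, abs_mul, abs_of_nonneg h0]
    nlinarith [abs_nonneg z.im]

theorem norm_ge {z : ℂ} (h : 1 ≤ |z.re| ∨ 1 ≤ |z.im|) : 1 ≤ ‖z‖ := by
  rcases h with h | h
  · exact h.trans (Complex.abs_re_le_norm z)
  · exact h.trans (Complex.abs_im_le_norm z)

end PLN

open PLN in
theorem t_PLN : Pool.Agent.LIX.S_EXT → Pool.Agent.LIX.S_IMG → Pool.Agent.LIX.S_BOR →
    Pool.Agent.LIX.S_J1F → Stmt_RET → Stmt_PLN := by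
  intro hEXT hIMG hBOR hJ1F hRET c α hc hcm hinj hPQ hrect hα hα0 hα1 hαc
  have hsub : (sphere (0 : ℂ) 1) ⊆ Disk := by
    intro z hz
    rw [mem_sphere_zero_iff_norm] at hz
    exact hz.le
  have hn : ∀ z ∈ sphere (0 : ℂ) 1, ‖z‖ = 1 := fun z hz => mem_sphere_zero_iff_norm.1 hz
  have hcs : ContinuousOn c (sphere 0 1) := hc.mono hsub
  have hcomp : IsCompact (sphere (0 : ℂ) 1) := isCompact_sphere 0 1
  have hK : IsCompact (c '' sphere 0 1) := hcomp.image_of_continuousOn hcs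
  -- the point `-1/2`
  have ha : ∀ R : ℝ, ∃ w, R < ‖w‖ ∧ JoinedIn (c '' sphere 0 1)ᶜ (-1 / 2) w := by
    have h1 := hEXT c (-1 / 2) hc hcm
    have hinj' : InjOn c (sphere 0 1) := fun x hx y hy h => hinj (hn x hx) (hn y hy) h
    have h2 : (-1 / 2 : ℂ) ∉ c '' sphere 0 1 := by
      rintro ⟨z, hz, h⟩
      exact hcm z (hsub hz) h
    exact hBOR _ _ hK ((hIMG ℂ (sphere 0 1) c (-1 / 2) hcomp hcs hinj' h2).1 h1)
  -- the point `1/2`
  have hb : ∀ R : ℝ, ∃ w, R < ‖w‖ ∧ JoinedIn (c '' sphere 0 1)ᶜ (1 / 2) w := by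
    intro R
    have j1 : JoinedIn (c '' sphere 0 1)ᶜ (1 / 2 : ℂ) (α 0) := by
      refine JoinedIn.ofLine (f := fun t : ℝ => (1 / 2 : ℂ) + (t : ℂ) * (α 0 - 1 / 2))
        (by fun_prop) ?_ ?_ ?_
      · simp
      · simp
      · rintro _ ⟨t, ht, rfl⟩ ⟨z, hz, h⟩
        have h1 := seg_mem (z := α 0) hα0 ht.1 ht.2
        apply hrect z (hn z hz)
        rw [h]
        exact h1
    have j2 : JoinedIn (c '' sphere 0 1)ᶜ (α 0) (α 1) := by
      refine JoinedIn.ofLine (f := α) hα rfl rfl ?_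
      rintro _ ⟨t, ht, rfl⟩ ⟨z, hz, h⟩
      exact hαc t ht z (hn z hz) h.symm
    have j3 : JoinedIn (c '' sphere 0 1)ᶜ (α 1) (((|R| + 2 : ℝ) : ℂ) * α 1) := by
      refine JoinedIn.ofLine (f := fun t : ℝ => ((1 + t * (|R| + 1) : ℝ) : ℂ) * α 1)
        (by fun_prop) ?_ ?_ ?_
      · simp
      · have e : 1 + 1 * (|R| + 1) = |R| + 2 := by ring
        change ((1 + 1 * (|R| + 1) : ℝ) : ℂ) * α 1 = _
        rw [e]
      · rintro _ ⟨t, ht, rfl⟩ ⟨z, hz, h⟩
        have h1 := hPQ z (hn z hz)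
        rw [h] at h1
        obtain ⟨b1, b2, -, -⟩ := h1
        rw [Complex.re_ofReal_mul, abs_mul] at b1
        rw [Complex.im_ofReal_mul, abs_mul] at b2
        have hR := abs_nonneg R
        rcases eq_or_lt_of_le ht.1 with h0 | h0
        · apply hαc 1 (right_mem_Icc.2 zero_le_one) z (hn z hz)
          rw [h, ← h0]
          simp
        · have hpos : 0 < t * (|R| + 1) := mul_pos h0 (by linarith)
          have hr : 1 < |1 + t * (|R| + 1)| := by
            rw [abs_of_pos (by linarith)]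
            linarith
          rcases hα1 with h2 | h2
          · nlinarith
          · nlinarith
    refine ⟨_, ?_, (j1.trans j2).trans j3⟩
    rw [norm_mul, Complex.norm_real, Real.norm_eq_abs]
    have h1 := norm_ge hα1
    have h2 : |R| + 2 ≤ |(|R| + 2)| := le_abs_self _
    have h3 := le_abs_self R
    have h4 := abs_nonneg R
    nlinarith
  -- extension
  obtain ⟨G, hG, hGc, hGZ⟩ := hJ1F {-1 / 2, 1 / 2} c (by simp) hcs (by
    intro x hx hmem
    rcases hmem with h | h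
    · exact hcm x (hsub hx) h
    · apply hrect x (hn x hx)
      rw [mem_singleton_iff] at h
      rw [h]
      exact half_mem) (by
    intro z hz R
    rcases hz with h | h
    · rw [h]; exact ha R
    · rw [mem_singleton_iff] at h
      rw [h]; exact hb R)
  obtain ⟨ρ, hρ, hρPQ, hρid⟩ := hRET
  have hG1 : ∀ z ∈ Disk, G z ≠ -1 / 2 := fun z hz h => hGZ z hz (Or.inl h)
  have hG2 : ∀ z ∈ Disk, G z ≠ 1 / 2 := fun z hz h => hGZ z hz (Or.inr h)
  refine ⟨fun z => ρ (G z), hρ.comp hG fun z hz => ⟨hG1 z hz, hG2 z hz⟩,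
    fun z hz => hρPQ _ (hG1 z hz) (hG2 z hz), fun z hz => ?_⟩
  have h1 : G z = c z := hGc z (mem_sphere_zero_iff_norm.2 hz)
  change ρ (G z) = c z
  rw [h1]
  exact hρid _ (hPQ z hz)

end Pool.Agent.LIX.PP
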