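import Pool.Agent.LIX.StmtsP

/-!
# LIX, block P: the surface is homeomorphic to a planar pair of pants
-/

set_option autoImplicit false

namespace Pool.Agent.LIX.PP

open Set Metric Pool.Agent.LIX.TR

namespace SECx

theorem g1_lt {x y c : ℝ} : g1 x y < c ↔ (2 * x + 1) / 3 < c ∧ -(2 * x + 1) < c ∧ |y| < c := by
  unfold g1
  rw [max_lt_iff, max_lt_iff]
  tauto

theorem g1_le {x y c : ℝ} : g1 x y ≤ c ↔ (2 * x + 1) / 3 ≤ c ∧ -(2 * x + 1) ≤ c ∧ |y| ≤ c := by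
  unfold g1
  rw [max_le_iff, max_le_iff]
  tauto

theorem F_neg (x y : ℝ) : F (-x) y = - F x y := by
  unfold F
  rw [neg_neg]
  ring

theorem F_pos {x y : ℝ} (h : g1 x y < 1 / 4) : F x y = 2 - 8 * g1 x y := by
  have h1 : 1 / 4 ≤ g1 (-x) y := by
    have h2 := (g1_lt.1 h).1
    have h3 := (g1_le.1 (le_refl (g1 (-x) y))).1
    linarith
  unfold F
  rw [max_eq_right (by linarith), max_eq_left (by linarith), sub_zero]

theorem F_zero {x y : ℝ} (h : 1 / 4 ≤ g1 x y) (h' : 1 / 4 ≤ g1 (-x) y) : F x y = 0 := by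
  unfold F
  rw [max_eq_left (by linarith), max_eq_left (by linarith), sub_zero]

theorem posbd {x y : ℝ} (h1 : 1 / 7 ≤ g1 x y) (h : g1 x y < 1 / 4) :
    |F x y| ≤ 6 / 7 ∧ |x + F x y / 2| ≤ 1 - |F x y| ∧ |y| ≤ 1 - |F x y| := by
  obtain ⟨a1, a2, a3⟩ := g1_le.1 (le_refl (g1 x y))
  rw [F_pos h, abs_of_pos (show (0 : ℝ) < 2 - 8 * g1 x y by linarith)]
  refine ⟨by linarith, ?_, by linarith⟩
  rw [abs_le]
  constructor <;> linarith

theorem bd {x y : ℝ} (hx : |x| ≤ 1) (hy : |y| ≤ 1) (h1 : 1 / 7 ≤ g1 x y)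
    (h2 : 1 / 7 ≤ g1 (-x) y) :
    |F x y| ≤ 6 / 7 ∧ |x + F x y / 2| ≤ 1 - |F x y| ∧ |y| ≤ 1 - |F x y| := by
  by_cases h : g1 x y < 1 / 4
  · exact posbd h1 h
  · by_cases h' : g1 (-x) y < 1 / 4
    · have h3 := posbd h2 h'
      have e : -x + F (-x) y / 2 = -(x + F x y / 2) := by
        rw [F_neg]
        ring
      rwa [e, abs_neg, F_neg, abs_neg] at h3
    · rw [F_zero (not_lt.1 h) (not_lt.1 h')]
      simp only [abs_zero, zero_div, add_zero, sub_zero]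
      exact ⟨by norm_num, hx, hy⟩

theorem mem_PQ {z : ℂ} : z ∈ PQ ↔ |z.re| ≤ 1 ∧ |z.im| ≤ 1 ∧ 1 / 7 ≤ g1 z.re z.im ∧
    1 / 7 ≤ g1 (-z.re) z.im := by
  unfold PQ
  rw [mem_ofPred_eq]
  have e1 : (-4 / 7 < z.re ∧ z.re < -2 / 7 ∧ |z.im| < 1 / 7) ↔ g1 z.re z.im < 1 / 7 := by
    rw [g1_lt]
    constructor
    · rintro ⟨a, b, c⟩
      exact ⟨by linarith, by linarith, c⟩
    · rintro ⟨a, b, c⟩
      exact ⟨by linarith, by linarith, c⟩
  have e2 : (2 / 7 < z.re ∧ z.re < 4 / 7 ∧ |z.im| < 1 / 7) ↔ g1 (-z.re) z.im < 1 / 7 := by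
    rw [g1_lt]
    constructor
    · rintro ⟨a, b, c⟩
      exact ⟨by linarith, by linarith, c⟩
    · rintro ⟨a, b, c⟩
      exact ⟨by linarith, by linarith, c⟩
  rw [e1, e2, not_lt, not_lt]

theorem pr_sec {z : ℂ} (h : |F z.re z.im| < 1) : pr (sec z) = z := by
  have h1 : 1 - |F z.re z.im| ≠ 0 := by
    intro h0
    linarith
  apply Complex.ext
  · change (1 - |F z.re z.im|) * ((z.re + F z.re z.im / 2) / (1 - |F z.re z.im|)) -
      F z.re z.im / 2 = z.re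
    rw [mul_div_cancel₀ _ h1]
    ring
  · change (1 - |F z.re z.im|) * (z.im / (1 - |F z.re z.im|)) = z.im
    rw [mul_div_cancel₀ _ h1]

theorem sec_mem {z : ℂ} (hz : z ∈ PQ) : sec z ∈ HC ∧ pr (sec z) = z := by
  obtain ⟨h1, h2, h3, h4⟩ := mem_PQ.1 hz
  obtain ⟨b1, b2, b3⟩ := bd h1 h2 h3 h4
  have hF : |F z.re z.im| < 1 := by linarith
  have hpos : 0 < 1 - |F z.re z.im| := by linarith
  have hps := pr_sec hF
  refine ⟨⟨⟨?_, ?_, hF⟩, ?_⟩, hps⟩
  · change |(z.re + F z.re z.im / 2) / (1 - |F z.re z.im|)| ≤ 1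
    rw [abs_div, abs_of_pos hpos, div_le_one hpos]
    exact b2
  · change |z.im / (1 - |F z.re z.im|)| ≤ 1
    rw [abs_div, abs_of_pos hpos, div_le_one hpos]
    exact b3
  · unfold G
    rw [hps]
    change F z.re z.im - F z.re z.im = 0
    ring

theorem rect {u v w : ℝ} (hu : |u| ≤ 1) (hv : |v| ≤ 1) (hw : |w| < 1)
    (h : w = F ((1 - |w|) * u - w / 2) ((1 - |w|) * v)) :
    1 / 7 ≤ g1 ((1 - |w|) * u - w / 2) ((1 - |w|) * v) := by
  by_contra hcon
  rw [not_le] at hcon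
  have h1 := F_pos (lt_trans hcon (by norm_num : (1 / 7 : ℝ) < 1 / 4))
  rw [← h] at h1
  have hwp : 0 < w := by linarith
  have hwa : |w| = w := abs_of_pos hwp
  rw [hwa] at hw hcon h1
  rw [abs_le] at hu
  have hle : g1 ((1 - w) * u - w / 2) ((1 - w) * v) ≤ 1 - w := by
    rw [g1_le]
    refine ⟨?_, ?_, ?_⟩
    · nlinarith [mul_nonneg (show 0 ≤ 1 - w by linarith) (show 0 ≤ 1 - u by linarith)]
    · nlinarith [mul_nonneg (show 0 ≤ 1 - w by linarith) (show 0 ≤ 1 + u by linarith)]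
    · rw [abs_mul, abs_of_pos (show 0 < 1 - w by linarith)]
      nlinarith [mul_nonneg (show 0 ≤ 1 - w by linarith) (show 0 ≤ 1 - |v| by linarith)]
  linarith

theorem pr_mem {p : R3} (hp : p ∈ HC) : pr p ∈ PQ ∧ sec (pr p) = p := by
  obtain ⟨u, v, w⟩ := p
  obtain ⟨⟨hu, hv, hw⟩, hG⟩ := hp
  change |u| ≤ 1 at hu
  change |v| ≤ 1 at hv
  change |w| < 1 at hw
  have hG' : w = F ((1 - |w|) * u - w / 2) ((1 - |w|) * v) := by
    have h1 : w - F ((1 - |w|) * u - w / 2) ((1 - |w|) * v) = 0 := hG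
    linarith
  have hpos : 0 < 1 - |w| := by linarith
  have hr1 := rect hu hv hw hG'
  have hr2 : 1 / 7 ≤ g1 (-((1 - |w|) * u - w / 2)) ((1 - |w|) * v) := by
    have e : (1 - |(-w)|) * (-u) - (-w) / 2 = -((1 - |w|) * u - w / 2) := by
      rw [abs_neg]
      ring
    have h2 := rect (u := -u) (v := v) (w := -w) (by rwa [abs_neg]) hv (by rwa [abs_neg]) (by
      rw [e, abs_neg, F_neg, ← hG'])
    rwa [e, abs_neg] at h2
  constructor
  · rw [mem_PQ]
    refine ⟨?_, ?_, hr1, hr2⟩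
    · change |(1 - |w|) * u - w / 2| ≤ 1
      have h3 : |(1 - |w|) * u - w / 2| ≤ |(1 - |w|) * u| + |w / 2| := abs_sub _ _
      rw [abs_mul, abs_of_pos hpos, abs_div, abs_of_pos (show (0 : ℝ) < 2 by norm_num)] at h3
      nlinarith [mul_nonneg hpos.le (show 0 ≤ 1 - |u| by linarith), abs_nonneg w]
    · change |(1 - |w|) * v| ≤ 1
      rw [abs_mul, abs_of_pos hpos]
      nlinarith [mul_nonneg hpos.le (show 0 ≤ 1 - |v| by linarith), abs_nonneg w]
  · change (((1 - |w|) * u - w / 2 + F ((1 - |w|) * u - w / 2) ((1 - |w|) * v) / 2) /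
        (1 - |F ((1 - |w|) * u - w / 2) ((1 - |w|) * v)|),
      (1 - |w|) * v / (1 - |F ((1 - |w|) * u - w / 2) ((1 - |w|) * v)|),
      F ((1 - |w|) * u - w / 2) ((1 - |w|) * v)) = (u, v, w)
    rw [← hG']
    have e1 : ((1 - |w|) * u - w / 2 + w / 2) / (1 - |w|) = u := by
      rw [sub_add_cancel, mul_div_cancel_left₀ _ hpos.ne']
    have e2 : (1 - |w|) * v / (1 - |w|) = v := mul_div_cancel_left₀ _ hpos.ne'
    rw [e1, e2]

theorem cont_g1 : Continuous fun q : ℝ × ℝ => g1 q.1 q.2 := by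
  unfold g1
  fun_prop

theorem cont_F : Continuous fun z : ℂ => F z.re z.im := by
  unfold F
  have h1 : Continuous fun z : ℂ => g1 z.re z.im :=
    cont_g1.comp (Complex.continuous_re.prodMk Complex.continuous_im)
  have h2 : Continuous fun z : ℂ => g1 (-z.re) z.im :=
    cont_g1.comp (Complex.continuous_re.neg.prodMk Complex.continuous_im)
  exact (continuous_const.max (continuous_const.sub (continuous_const.mul h1))).sub
    (continuous_const.max (continuous_const.sub (continuous_const.mul h2)))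

theorem cont_sec : ContinuousOn sec PQ := by
  have hne : ∀ z ∈ PQ, 1 - |F z.re z.im| ≠ 0 := by
    intro z hz h0
    obtain ⟨h1, h2, h3, h4⟩ := mem_PQ.1 hz
    have := (bd h1 h2 h3 h4).1
    linarith
  have hd : ContinuousOn (fun z : ℂ => 1 - |F z.re z.im|) PQ :=
    (continuous_const.sub cont_F.abs).continuousOn
  have ha : ContinuousOn (fun z : ℂ => z.re + F z.re z.im / 2) PQ :=
    (Complex.continuous_re.add (cont_F.div_const 2)).continuousOn
  exact (ha.div hd hne).prodMk ((Complex.continuous_im.continuousOn.div hd hne).prodMk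
    cont_F.continuousOn)

end SECx

theorem t_SEC : Stmt_GF → Stmt_SEC :=
  fun _ => ⟨fun _ hz => SECx.sec_mem hz, fun _ hp => SECx.pr_mem hp, SECx.cont_sec⟩

end Pool.Agent.LIX.PP
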