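import Pool.Agent.LIX.StmtsP

/-!
# LIX, block P, module SID: each disk is on one side
-/

set_option autoImplicit false

namespace Pool.Agent.LIX.PP

open Set Metric Pool.Agent.LIX.TR

namespace SIDX

/-- a continuous function without zeros on a connected set has constant sign -/
theorem sign {S : Set ℂ} (hS : IsPreconnected S) {h : ℂ → ℝ} (hc : ContinuousOn h S)
    (h0 : ∀ z ∈ S, h z ≠ 0) : (∀ z ∈ S, 0 < h z) ∨ (∀ z ∈ S, h z < 0) := by
  by_contra hcon
  rw [not_or] at hcon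
  obtain ⟨h1, h2⟩ := hcon
  rw [not_forall] at h1 h2
  obtain ⟨a, ha⟩ := h1
  obtain ⟨b, hb⟩ := h2
  rw [Classical.not_imp] at ha hb
  have ha2 := not_lt.1 ha.2
  have hb2 := not_lt.1 hb.2
  obtain ⟨z, hz, hz0⟩ := hS.intermediate_value ha.1 hb.1 hc ⟨ha2, hb2⟩
  exact h0 z hz hz0

end SIDX

theorem t_SID : Stmt_GF → Stmt_SID := by
  intro hGF
  have hG : Continuous G := hGF.2.2.2.2.2.2.1
  have h00 : (0 : ℝ) ∈ Icc (-1 : ℝ) 1 := ⟨by norm_num, by norm_num⟩
  constructor
  · rintro f ⟨⟨Φ, hc, -, hΦ, hf⟩, -⟩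
    have hfc : ContinuousOn f Disk := by
      have h1 : ContinuousOn (fun z : ℂ => Φ (z, 0)) Disk :=
        hc.comp (by fun_prop) fun z hz => ⟨hz, h00⟩
      exact h1.congr fun z hz => (hf z hz).symm
    have hsub : ball (0 : ℂ) 1 ⊆ Disk := fun z hz => (mem_ball_zero_iff.1 hz).le
    have h := SIDX.sign (S := ball (0 : ℂ) 1) (h := fun z => G (f z))
      (convex_ball (0 : ℂ) 1).isPreconnected
      (hG.comp_continuousOn (hfc.mono hsub)) (by
        intro z hz h0
        have h1 := hΦ z (hsub hz) 0 h00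
        rw [hf z (hsub hz)] at h1
        have h2 : ‖z‖ = 1 := h1.2.2.1 ⟨h1.1, h0⟩
        exact absurd h2 (mem_ball_zero_iff.1 hz).ne)
    rcases h with h | h
    · exact Or.inl fun z _ hz => h z (mem_ball_zero_iff.2 hz)
    · exact Or.inr fun z _ hz => h z (mem_ball_zero_iff.2 hz)
  · rintro f ⟨⟨Φ, hc, -, hΦ, hf⟩, -⟩
    have hfc : ContinuousOn f HDisk := by
      have h1 : ContinuousOn (fun z : ℂ => Φ (z, 0)) HDisk :=
        hc.comp (by fun_prop) fun z hz => ⟨hz, h00⟩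
      exact h1.congr fun z hz => (hf z hz).symm
    have hsub : closedBall (0 : ℂ) 1 ∩ {z : ℂ | 0 < z.im} ⊆ HDisk :=
      fun z hz => ⟨mem_closedBall_zero_iff.1 hz.1, le_of_lt hz.2⟩
    have h := SIDX.sign (S := closedBall (0 : ℂ) 1 ∩ {z : ℂ | 0 < z.im}) (h := fun z => G (f z))
      ((convex_closedBall (0 : ℂ) 1).inter (convex_halfSpace_im_gt 0)).isPreconnected
      (hG.comp_continuousOn (hfc.mono hsub)) (by
        intro z hz h0
        have h1 := hΦ z (hsub hz) 0 h00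
        rw [hf z (hsub hz)] at h1
        have h2 : z.im = 0 := h1.2.2.1.1 ⟨h1.1, h0⟩
        have h3 : 0 < z.im := hz.2
        exact absurd h2 h3.ne')
    rcases h with h | h
    · exact Or.inl fun z hz hz' => h z ⟨mem_closedBall_zero_iff.2 hz.1, hz'⟩
    · exact Or.inr fun z hz hz' => h z ⟨mem_closedBall_zero_iff.2 hz.1, hz'⟩

end Pool.Agent.LIX.PP
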