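import Pool.Agent.LIX.StmtsP

/-!
# LIX, block P: charts of the square at boundary points
-/

set_option autoImplicit false

namespace Pool.Agent.LIX.PP

open Set Metric Pool.Agent.LIX.TR

namespace SQC

/-- the square -/
def Q : Set (ℝ × ℝ) := {q : ℝ × ℝ | |q.1| ≤ 1 ∧ |q.2| ≤ 1}

/-- the half plane -/
def Hp : Set (ℝ × ℝ) := {q : ℝ × ℝ | 0 ≤ q.2}

theorem mkChart (U : Set (ℝ × ℝ)) (hU : IsOpen U) (f g : ℝ × ℝ → ℝ × ℝ) (hf : Continuous f)
    (hg : Continuous g) (h1 : ∀ x ∈ U, x ∈ Q → f x ∈ Hp ∧ g (f x) = x)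
    (h2 : ∀ y, y ∈ Hp → g y ∈ U → g y ∈ Q ∧ f (g y) = y) :
    ∃ W : Set (ℝ × ℝ), IsOpen W ∧ ∃ e : ↥(U ∩ Q) ≃ₜ ↥(W ∩ Hp),
      ∀ x : ↥(U ∩ Q), (e x : ℝ × ℝ) = f x := by
  have m1 : ∀ x : ↥(U ∩ Q), f (x : ℝ × ℝ) ∈ (g ⁻¹' U) ∩ Hp := by
    intro x
    obtain ⟨ha, hb⟩ := h1 x x.2.1 x.2.2
    refine ⟨?_, ha⟩
    rw [mem_preimage, hb]
    exact x.2.1
  have m2 : ∀ y : ↥((g ⁻¹' U) ∩ Hp), g (y : ℝ × ℝ) ∈ U ∩ Q := fun y =>
    ⟨y.2.1, (h2 y y.2.2 y.2.1).1⟩
  have c1 : Continuous fun x : ↥(U ∩ Q) => (⟨f x, m1 x⟩ : ↥((g ⁻¹' U) ∩ Hp)) :=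
    (hf.comp continuous_subtype_val).subtype_mk m1
  have c2 : Continuous fun y : ↥((g ⁻¹' U) ∩ Hp) => (⟨g y, m2 y⟩ : ↥(U ∩ Q)) :=
    (hg.comp continuous_subtype_val).subtype_mk m2
  exact ⟨g ⁻¹' U, hU.preimage hg,
    { toFun := fun x => ⟨f x, m1 x⟩
      invFun := fun y => ⟨g y, m2 y⟩
      left_inv := fun x => Subtype.ext (h1 x x.2.1 x.2.2).2
      right_inv := fun y => Subtype.ext (h2 y y.2.2 y.2.1).2
      continuous_toFun := c1
      continuous_invFun := c2 }, fun x => rfl⟩

theorem sgn {s : ℝ} (hs : |s| = 1) : s = 1 ∨ s = -1 := by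
  rcases abs_cases s with ⟨h, _⟩ | ⟨h, _⟩
  · left; linarith
  · right; linarith

theorem sq {s : ℝ} (hs : s = 1 ∨ s = -1) (x : ℝ) : s * (s * x) = x := by
  rcases hs with rfl | rfl <;> ring

theorem abs_eq' {s : ℝ} (hs : s = 1 ∨ s = -1) (x : ℝ) (h : 0 < s * x) : |x| = s * x := by
  rcases hs with rfl | rfl
  · rw [one_mul] at *
    exact abs_of_pos h
  · rw [abs_of_neg (by linarith)]
    ring

theorem le_one {s : ℝ} (hs : s = 1 ∨ s = -1) (x : ℝ) (h : |x| ≤ 1) : s * x ≤ 1 := by
  have := abs_le.1 h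
  rcases hs with rfl | rfl <;> linarith

theorem abs_mul' {s : ℝ} (hs : s = 1 ∨ s = -1) (x : ℝ) : |s * x| = |x| := by
  rcases hs with rfl | rfl
  · rw [one_mul]
  · rw [neg_one_mul, abs_neg]

end SQC

open SQC

theorem t_SQC : Stmt_SQC := by
  intro u0 v0 hu hv hb
  by_cases hc : |u0| = 1 ∧ |v0| = 1
  · -- corner
    have hs := sgn hc.1
    have ht := sgn hc.2
    let U : Set (ℝ × ℝ) := {q | |1 - u0 * q.1| < 1 ∧ |1 - v0 * q.2| < 1}
    have hU : IsOpen U := by
      have c1 : Continuous fun q : ℝ × ℝ => |1 - u0 * q.1| := by fun_prop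
      have c2 : Continuous fun q : ℝ × ℝ => |1 - v0 * q.2| := by fun_prop
      exact (isOpen_lt c1 continuous_const).inter (isOpen_lt c2 continuous_const)
    obtain ⟨W, hW, e, he⟩ := mkChart U hU
      (fun q => ((1 - u0 * q.1) - (1 - v0 * q.2), min (1 - u0 * q.1) (1 - v0 * q.2)))
      (fun q => (u0 * (1 - (q.2 + max q.1 0)), v0 * (1 - (q.2 + max (-q.1) 0))))
      (by fun_prop) (by fun_prop)
      (by
        rintro ⟨u, v⟩ _ ⟨h3, h4⟩
        have h5 := le_one hs u h3
        have h6 := le_one ht v h4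
        have h9 : 0 ≤ min (1 - u0 * u) (1 - v0 * v) := le_min (by linarith) (by linarith)
        refine ⟨h9, ?_⟩
        have h7 := sq hs u
        have h8 := sq ht v
        have e1 : min (1 - u0 * u) (1 - v0 * v) + max (1 - u0 * u - (1 - v0 * v)) 0 =
            1 - u0 * u := by
          rcases le_total (1 - u0 * u) (1 - v0 * v) with h | h
          · rw [min_eq_left h, max_eq_right (by linarith), add_zero]
          · rw [min_eq_right h, max_eq_left (by linarith)]
            ring
        have e2 : min (1 - u0 * u) (1 - v0 * v) + max (-(1 - u0 * u - (1 - v0 * v))) 0 =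
            1 - v0 * v := by
          rcases le_total (1 - u0 * u) (1 - v0 * v) with h | h
          · rw [min_eq_left h, max_eq_left (by linarith)]
            ring
          · rw [min_eq_right h, max_eq_right (by linarith), add_zero]
        apply Prod.ext
        · change u0 * (1 - (min (1 - u0 * u) (1 - v0 * v) +
            max (1 - u0 * u - (1 - v0 * v)) 0)) = u
          rw [e1, sub_sub_cancel, h7]
        · change v0 * (1 - (min (1 - u0 * u) (1 - v0 * v) +
            max (-(1 - u0 * u - (1 - v0 * v))) 0)) = v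
          rw [e2, sub_sub_cancel, h8])
      (by
        rintro ⟨θ, z⟩ hz ⟨h3, h4⟩
        have hz' : 0 ≤ z := hz
        have ea : u0 * (u0 * (1 - (z + max θ 0))) = 1 - (z + max θ 0) := sq hs _
        have eb : v0 * (v0 * (1 - (z + max (-θ) 0))) = 1 - (z + max (-θ) 0) := sq ht _
        have ha0 : 0 ≤ max θ 0 := le_max_right _ _
        have hb0 : 0 ≤ max (-θ) 0 := le_max_right _ _
        change |1 - u0 * (u0 * (1 - (z + max θ 0)))| < 1 at h3
        change |1 - v0 * (v0 * (1 - (z + max (-θ) 0)))| < 1 at h4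
        rw [ea, sub_sub_cancel] at h3
        rw [eb, sub_sub_cancel] at h4
        have h3' := (abs_lt.1 h3).2
        have h4' := (abs_lt.1 h4).2
        refine ⟨⟨?_, ?_⟩, ?_⟩
        · change |u0 * (1 - (z + max θ 0))| ≤ 1
          rw [abs_mul' hs, abs_le]
          constructor <;> linarith
        · change |v0 * (1 - (z + max (-θ) 0))| ≤ 1
          rw [abs_mul' ht, abs_le]
          constructor <;> linarith
        · apply Prod.ext
          · change 1 - u0 * (u0 * (1 - (z + max θ 0))) -
              (1 - v0 * (v0 * (1 - (z + max (-θ) 0)))) = θ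
            rw [ea, eb, sub_sub_cancel, sub_sub_cancel]
            rcases le_total θ 0 with h | h
            · rw [max_eq_right h, max_eq_left (by linarith)]
              ring
            · rw [max_eq_left h, max_eq_right (by linarith)]
              ring
          · change min (1 - u0 * (u0 * (1 - (z + max θ 0))))
              (1 - v0 * (v0 * (1 - (z + max (-θ) 0)))) = z
            rw [ea, eb, sub_sub_cancel, sub_sub_cancel]
            rcases le_total θ 0 with h | h
            · rw [max_eq_right h, max_eq_left (by linarith), min_eq_left (by linarith)]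
              ring
            · rw [max_eq_left h, max_eq_right (by linarith), min_eq_right (by linarith)]
              ring)
    have hU0 : (u0, v0) ∈ U := by
      have e1 : u0 * u0 = 1 := by
        have := sq hs 1
        rwa [mul_one] at this
      have e2 : v0 * v0 = 1 := by
        have := sq ht 1
        rwa [mul_one] at this
      refine ⟨?_, ?_⟩
      · change |1 - u0 * u0| < 1
        rw [e1, sub_self, abs_zero]
        exact one_pos
      · change |1 - v0 * v0| < 1
        rw [e2, sub_self, abs_zero]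
        exact one_pos
    -- description of the points
    have key : ∀ x : ↥(U ∩ Q), (|(x : ℝ × ℝ).1| = 1 ↔ 1 - u0 * (x : ℝ × ℝ).1 = 0) ∧
        (|(x : ℝ × ℝ).2| = 1 ↔ 1 - v0 * (x : ℝ × ℝ).2 = 0) ∧
        0 ≤ 1 - u0 * (x : ℝ × ℝ).1 ∧ 0 ≤ 1 - v0 * (x : ℝ × ℝ).2 := by
      rintro ⟨⟨u, v⟩, ⟨h3, h4⟩, h5, h6⟩
      change |1 - u0 * u| < 1 at h3
      change |1 - v0 * v| < 1 at h4
      change |u| ≤ 1 at h5
      change |v| ≤ 1 at h6
      change (|u| = 1 ↔ 1 - u0 * u = 0) ∧ (|v| = 1 ↔ 1 - v0 * v = 0) ∧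
        0 ≤ 1 - u0 * u ∧ 0 ≤ 1 - v0 * v
      have h3' := (abs_lt.1 h3).2
      have h4' := (abs_lt.1 h4).2
      have h7 := le_one hs u h5
      have h8 := le_one ht v h6
      rw [abs_eq' hs u (by linarith), abs_eq' ht v (by linarith)]
      refine ⟨⟨fun h => by linarith, fun h => by linarith⟩,
        ⟨fun h => by linarith, fun h => by linarith⟩, by linarith, by linarith⟩
    refine ⟨U, W, hU, hU0, hW, e, ?_, fun h => absurd hc h, fun _ => ?_⟩
    · intro x
      obtain ⟨k1, k2, k3, k4⟩ := key x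
      have e2 : ((e x : ℝ × ℝ)).2 =
          min (1 - u0 * (x : ℝ × ℝ).1) (1 - v0 * (x : ℝ × ℝ).2) := congrArg Prod.snd (he x)
      rw [k1, k2]
      constructor
      · rintro (h | h)
        · exact e2.trans (by rw [h]; exact min_eq_left k4)
        · exact e2.trans (by rw [h]; exact min_eq_right k3)
      · intro h
        have h' := e2.symm.trans h
        rcases min_choice (1 - u0 * (x : ℝ × ℝ).1) (1 - v0 * (x : ℝ × ℝ).2) with h5 | h5
        · left; rw [← h5]; exact h'
        · right; rw [← h5]; exact h'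
    · intro x
      obtain ⟨k1, k2, k3, k4⟩ := key x
      have e2 := he x
      rw [k1, k2]
      constructor
      · rintro ⟨h, h'⟩
        refine (e2).trans ?_
        change (1 - u0 * (x : ℝ × ℝ).1 - (1 - v0 * (x : ℝ × ℝ).2),
          min (1 - u0 * (x : ℝ × ℝ).1) (1 - v0 * (x : ℝ × ℝ).2)) = (0, 0)
        rw [h, h', sub_zero, min_self]
      · intro h
        have h' := e2.symm.trans h
        have a1 : 1 - u0 * (x : ℝ × ℝ).1 - (1 - v0 * (x : ℝ × ℝ).2) = 0 := congrArg Prod.fst h'
        have a2 : min (1 - u0 * (x : ℝ × ℝ).1) (1 - v0 * (x : ℝ × ℝ).2) = 0 :=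
          congrArg Prod.snd h'
        have a3 : 1 - u0 * (x : ℝ × ℝ).1 = 1 - v0 * (x : ℝ × ℝ).2 := by linarith
        rw [a3, min_self] at a2
        exact ⟨by rw [a3, a2], a2⟩
  · by_cases hu1 : |u0| = 1
    · have hs := sgn hu1
      have hv1 : |v0| < 1 := lt_of_le_of_ne hv fun h => hc ⟨hu1, h⟩
      let U : Set (ℝ × ℝ) := {q | |q.2| < 1 ∧ 0 < u0 * q.1}
      have hU : IsOpen U := by
        have c1 : Continuous fun q : ℝ × ℝ => |q.2| := by fun_prop
        have c2 : Continuous fun q : ℝ × ℝ => u0 * q.1 := by fun_prop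
        exact (isOpen_lt c1 continuous_const).inter (isOpen_lt continuous_const c2)
      obtain ⟨W, hW, e, he⟩ := mkChart U hU
        (fun q => (q.2, 1 - u0 * q.1)) (fun q => (u0 * (1 - q.2), q.1))
        (by fun_prop) (by fun_prop)
        (by
          rintro ⟨u, v⟩ _ ⟨h3, h4⟩
          have h5 := le_one hs u h3
          have h7 := sq hs u
          refine ⟨?_, ?_⟩
          · change 0 ≤ 1 - u0 * u
            linarith
          · apply Prod.ext
            · change u0 * (1 - (1 - u0 * u)) = u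
              rw [sub_sub_cancel, h7]
            · rfl)
        (by
          rintro ⟨θ, z⟩ hz ⟨h3, h4⟩
          have hz' : 0 ≤ z := hz
          have ea : u0 * (u0 * (1 - z)) = 1 - z := sq hs _
          change |θ| < 1 at h3
          change 0 < u0 * (u0 * (1 - z)) at h4
          rw [ea] at h4
          refine ⟨⟨?_, h3.le⟩, ?_⟩
          · change |u0 * (1 - z)| ≤ 1
            rw [abs_mul' hs, abs_le]
            constructor <;> linarith
          · apply Prod.ext
            · rfl
            · change 1 - u0 * (u0 * (1 - z)) = z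
              rw [ea, sub_sub_cancel])
      refine ⟨U, W, hU, ⟨hv1, ?_⟩, hW, e, ?_, fun _ x hx hx' => hx.1.ne hx'.2,
        fun h => absurd h hc⟩
      · change 0 < u0 * u0
        rcases hs with h | h <;> rw [h] <;> norm_num
      · rintro ⟨⟨u, v⟩, ⟨h3, h4⟩, h5, h6⟩
        have e2 : ((e ⟨(u, v), ⟨h3, h4⟩, h5, h6⟩ : ℝ × ℝ)).2 = 1 - u0 * u :=
          congrArg Prod.snd (he ⟨(u, v), ⟨h3, h4⟩, h5, h6⟩)
        change |v| < 1 at h3
        change 0 < u0 * u at h4
        change (|u| = 1 ∨ |v| = 1) ↔ _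
        constructor
        · rintro (h | h)
          · refine e2.trans ?_
            rw [← abs_eq' hs u h4, h, sub_self]
          · exact absurd h h3.ne
        · intro h
          left
          have h' := e2.symm.trans h
          rw [abs_eq' hs u h4]
          linarith
    · have hv1 : |v0| = 1 := hb.resolve_left hu1
      have hs := sgn hv1
      have hu2 : |u0| < 1 := lt_of_le_of_ne hu hu1
      let U : Set (ℝ × ℝ) := {q | |q.1| < 1 ∧ 0 < v0 * q.2}
      have hU : IsOpen U := by
        have c1 : Continuous fun q : ℝ × ℝ => |q.1| := by fun_prop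
        have c2 : Continuous fun q : ℝ × ℝ => v0 * q.2 := by fun_prop
        exact (isOpen_lt c1 continuous_const).inter (isOpen_lt continuous_const c2)
      obtain ⟨W, hW, e, he⟩ := mkChart U hU
        (fun q => (q.1, 1 - v0 * q.2)) (fun q => (q.1, v0 * (1 - q.2)))
        (by fun_prop) (by fun_prop)
        (by
          rintro ⟨u, v⟩ _ ⟨h3, h4⟩
          have h5 := le_one hs v h4
          have h7 := sq hs v
          refine ⟨?_, ?_⟩
          · change 0 ≤ 1 - v0 * v
            linarith
          · apply Prod.ext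
            · rfl
            · change v0 * (1 - (1 - v0 * v)) = v
              rw [sub_sub_cancel, h7])
        (by
          rintro ⟨θ, z⟩ hz ⟨h3, h4⟩
          have hz' : 0 ≤ z := hz
          have ea : v0 * (v0 * (1 - z)) = 1 - z := sq hs _
          change |θ| < 1 at h3
          change 0 < v0 * (v0 * (1 - z)) at h4
          rw [ea] at h4
          refine ⟨⟨h3.le, ?_⟩, ?_⟩
          · change |v0 * (1 - z)| ≤ 1
            rw [abs_mul' hs, abs_le]
            constructor <;> linarith
          · apply Prod.ext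
            · rfl
            · change 1 - v0 * (v0 * (1 - z)) = z
              rw [ea, sub_sub_cancel])
      refine ⟨U, W, hU, ⟨hu2, ?_⟩, hW, e, ?_, fun _ x hx hx' => hx.1.ne hx'.1,
        fun h => absurd h hc⟩
      · change 0 < v0 * v0
        rcases hs with h | h <;> rw [h] <;> norm_num
      · rintro ⟨⟨u, v⟩, ⟨h3, h4⟩, h5, h6⟩
        have e2 : ((e ⟨(u, v), ⟨h3, h4⟩, h5, h6⟩ : ℝ × ℝ)).2 = 1 - v0 * v :=
          congrArg Prod.snd (he ⟨(u, v), ⟨h3, h4⟩, h5, h6⟩)
        change |u| < 1 at h3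
        change 0 < v0 * v at h4
        change (|u| = 1 ∨ |v| = 1) ↔ _
        constructor
        · rintro (h | h)
          · exact absurd h h3.ne
          · refine e2.trans ?_
            rw [← abs_eq' hs v h4, h, sub_self]
        · intro h
          right
          have h' := e2.symm.trans h
          rw [abs_eq' hs v h4]
          linarith

end Pool.Agent.LIX.PP
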