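import Pool.Agent.LIX.StmtsP

/-!
# LIX, block P: the surface is properly embedded and locally flat
-/

set_option autoImplicit false

namespace Pool.Agent.LIX.PP

open Set Metric Pool.Agent.LIX.TR

namespace SURF

/-- a homeomorphism of subsets from a pair of inverse functions -/
def mkH {X Y : Type} [TopologicalSpace X] [TopologicalSpace Y] (A : Set X) (B : Set Y)
    (f : X → Y) (g : Y → X) (hf : ∀ x ∈ A, f x ∈ B) (hg : ∀ y ∈ B, g y ∈ A)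
    (hgf : ∀ x ∈ A, g (f x) = x) (hfg : ∀ y ∈ B, f (g y) = y) (cf : ContinuousOn f A)
    (cg : ContinuousOn g B) : ↥A ≃ₜ ↥B where
  toFun x := ⟨f x, hf x x.2⟩
  invFun y := ⟨g y, hg y y.2⟩
  left_inv x := Subtype.ext (hgf x x.2)
  right_inv y := Subtype.ext (hfg y y.2)
  continuous_toFun := (continuousOn_iff_continuous_domRestrict.1 cf).subtype_mk _
  continuous_invFun := (continuousOn_iff_continuous_domRestrict.1 cg).subtype_mk _

theorem mem_body {p : R3} : p ∈ cyl.body ↔ |p.1| ≤ 1 ∧ |p.2.1| ≤ 1 ∧ |p.2.2| < 1 := Iff.rfl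

theorem mem_bd {p : R3} : p ∈ cyl.bd ↔
    |p.1| ≤ 1 ∧ |p.2.1| ≤ 1 ∧ |p.2.2| < 1 ∧ (|p.1| = 1 ∨ |p.2.1| = 1) := Iff.rfl

theorem mem_skel {p : R3} : p ∈ cyl.skel ↔ |p.2.2| < 1 ∧ |p.1| = 1 ∧ |p.2.1| = 1 := by
  have h1 : ∀ x : ℝ, |x| = 1 ↔ x = 1 ∨ x = -1 := fun x => abs_eq (by norm_num)
  rw [Cells.skel, mem_iUnion]
  constructor
  · rintro ⟨i, hi⟩
    obtain ⟨j, hw, h | h⟩ := mem_iUnion.1 hi
    · obtain ⟨h2 | h2, h3 | h3⟩ := h <;> refine ⟨hw, ?_, ?_⟩ <;> rw [h1] <;>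
        first | exact Or.inl h2.2 | exact Or.inr h2.2 | exact Or.inl h3.2 | exact Or.inr h3.2
    · obtain ⟨h2 | h2, h3 | h3⟩ := h <;> refine ⟨hw, ?_, ?_⟩ <;> rw [h1] <;>
        first | exact Or.inl h2.2 | exact Or.inr h2.2 | exact Or.inl h3.2 | exact Or.inr h3.2
  · rintro ⟨hw, hu, hv⟩
    have key : ∀ i j : Fin 4, cor i j p → ∃ i, p ∈ ⋃ j, cyl.edge i j := fun i j h =>
      ⟨i, mem_iUnion.2 ⟨j, hw, Or.inl h⟩⟩
    rcases (h1 _).1 hu with hu | hu <;> rcases (h1 _).1 hv with hv | hv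
    · exact key 1 3 ⟨Or.inr ⟨rfl, hu⟩, Or.inr ⟨rfl, hv⟩⟩
    · exact key 1 2 ⟨Or.inr ⟨rfl, hu⟩, Or.inl ⟨rfl, hv⟩⟩
    · exact key 0 3 ⟨Or.inl ⟨rfl, hu⟩, Or.inr ⟨rfl, hv⟩⟩
    · exact key 0 2 ⟨Or.inl ⟨rfl, hu⟩, Or.inl ⟨rfl, hv⟩⟩

theorem vert_empty : cyl.vert = ∅ := by
  rw [Set.eq_empty_iff_forall_notMem]
  intro p hp
  obtain ⟨i, hi⟩ := mem_iUnion.1 hp
  have key : ¬ cor i i p := by
    rintro ⟨h1 | h1, h2 | h2⟩ <;> (have h3 := h1.1.symm.trans h2.1; revert h3; decide)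
  rcases hi.2 with h | h
  · exact key h
  · exact key h

theorem continuous_g1 : Continuous fun q : ℝ × ℝ => g1 q.1 q.2 := by
  unfold g1
  fun_prop

theorem continuous_F : Continuous fun q : ℝ × ℝ => F q.1 q.2 := by
  unfold F
  have h1 := continuous_g1
  have h2 : Continuous fun q : ℝ × ℝ => g1 (-q.1) q.2 :=
    h1.comp (f := fun q : ℝ × ℝ => (-q.1, q.2)) (by fun_prop)
  exact (continuous_const.max (continuous_const.sub (continuous_const.mul h1))).sub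
    (continuous_const.max (continuous_const.sub (continuous_const.mul h2)))

theorem isCompact_PQ : IsCompact PQ := by
  apply Metric.isCompact_of_isClosed_isBounded
  · have e : PQ = ({z : ℂ | |z.re| ≤ 1} ∩ {z : ℂ | |z.im| ≤ 1}) ∩
        (({z : ℂ | -4 / 7 < z.re} ∩ {z : ℂ | z.re < -2 / 7} ∩ {z : ℂ | |z.im| < 1 / 7})ᶜ ∩
        ({z : ℂ | 2 / 7 < z.re} ∩ {z : ℂ | z.re < 4 / 7} ∩ {z : ℂ | |z.im| < 1 / 7})ᶜ) := by
      ext z
      simp only [PQ, mem_ofPred_eq, mem_inter_iff, mem_compl_iff]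
      tauto
    rw [e]
    have hre := Complex.continuous_re
    have him := Complex.continuous_im
    refine ((isClosed_le hre.abs continuous_const).inter
      (isClosed_le him.abs continuous_const)).inter (IsClosed.inter ?_ ?_)
    · exact (((isOpen_lt continuous_const hre).inter (isOpen_lt hre continuous_const)).inter
        (isOpen_lt him.abs continuous_const)).isClosed_compl
    · exact (((isOpen_lt continuous_const hre).inter (isOpen_lt hre continuous_const)).inter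
        (isOpen_lt him.abs continuous_const)).isClosed_compl
  · refine (Metric.isBounded_closedBall (x := (0 : ℂ)) (r := 2)).subset ?_
    rintro z ⟨h1, h2, -⟩
    rw [mem_closedBall_zero_iff]
    exact (Complex.norm_le_abs_re_add_abs_im z).trans (by linarith)

/-- the chart of the interior -/
theorem inner_chart (hGc : Continuous G) (hpc : Continuous pr) {p : R3} (hp : p ∈ HC)
    (hb : p ∉ cyl.bd) : HasChart cyl HC p univ ∅ ∅ := by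
  have hF := continuous_F
  have hpr : ∀ u v w : ℝ, (pr (u, v, w)).re = (1 - |w|) * u - w / 2 ∧
      (pr (u, v, w)).im = (1 - |w|) * v := fun u v w => ⟨rfl, rfl⟩
  have hG : ∀ u v w : ℝ, G (u, v, w) = w - F (pr (u, v, w)).re (pr (u, v, w)).im :=
    fun _ _ _ => rfl
  let wf : R3 → ℝ := fun q => q.2.1 + F q.1 q.2.2
  have hwf : Continuous wf :=
    (continuous_fst.comp continuous_snd).add
      (hF.comp (f := fun q : R3 => (q.1, q.2.2)) (by fun_prop))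
  let U : Set R3 := {q | |q.1| < 1 ∧ |q.2.1| < 1 ∧ |q.2.2| < 1}
  let W : Set R3 := {q | |wf q| < 1 ∧ |q.1 + wf q / 2| < 1 - |wf q| ∧ |q.2.2| < 1 - |wf q|}
  have hU : IsOpen U := by
    refine (isOpen_lt (f := fun q : R3 => |q.1|) (by fun_prop) continuous_const).inter
      ((isOpen_lt (f := fun q : R3 => |q.2.1|) (by fun_prop) continuous_const).inter
        (isOpen_lt (f := fun q : R3 => |q.2.2|) (by fun_prop) continuous_const))
  have hW : IsOpen W := by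
    refine (isOpen_lt hwf.abs continuous_const).inter
      ((isOpen_lt (continuous_fst.add (hwf.div_const _)).abs (continuous_const.sub hwf.abs)).inter
        (isOpen_lt (f := fun q : R3 => |q.2.2|) (by fun_prop) (continuous_const.sub hwf.abs)))
  have hUb : U ⊆ cyl.body := fun q hq => ⟨hq.1.le, hq.2.1.le, hq.2.2⟩
  have hpU : p ∈ U := by
    have h1 := hp.1
    rw [mem_body] at h1
    rw [mem_bd] at hb
    refine ⟨lt_of_le_of_ne h1.1 fun h => hb ⟨h1.1, h1.2.1, h1.2.2, Or.inl h⟩,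
      lt_of_le_of_ne h1.2.1 fun h => hb ⟨h1.1, h1.2.1, h1.2.2, Or.inr h⟩, h1.2.2⟩
  let f : R3 → R3 := fun q => ((pr q).re, G q, (pr q).im)
  let g : R3 → R3 := fun q => ((q.1 + wf q / 2) / (1 - |wf q|), q.2.2 / (1 - |wf q|), wf q)
  have hwff : ∀ q, wf (f q) = q.2.2 := by
    intro q
    show G q + F (pr q).re (pr q).im = q.2.2
    unfold G
    ring
  have hf : ∀ q ∈ U ∩ cyl.body, f q ∈ W ∩ univ := by
    rintro q ⟨⟨h1, h2, h3⟩, -⟩
    have h4 : 0 < 1 - |q.2.2| := by linarith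
    refine ⟨⟨?_, ?_, ?_⟩, trivial⟩
    · rw [hwff]; exact h3
    · rw [hwff]
      show |(1 - |q.2.2|) * q.1 - q.2.2 / 2 + q.2.2 / 2| < _
      rw [sub_add_cancel, abs_mul, abs_of_pos h4]
      exact mul_lt_of_lt_one_right h4 h1
    · rw [hwff]
      show |(1 - |q.2.2|) * q.2.1| < _
      rw [abs_mul, abs_of_pos h4]
      exact mul_lt_of_lt_one_right h4 h2
  have hg : ∀ q ∈ W ∩ univ, g q ∈ U ∩ cyl.body := by
    rintro q ⟨⟨h1, h2, h3⟩, -⟩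
    have h4 : 0 < 1 - |wf q| := by linarith
    have h5 : g q ∈ U := by
      refine ⟨?_, ?_, h1⟩
      · show |(q.1 + wf q / 2) / (1 - |wf q|)| < 1
        rw [abs_div, abs_of_pos h4, div_lt_one h4]
        exact h2
      · show |q.2.2 / (1 - |wf q|)| < 1
        rw [abs_div, abs_of_pos h4, div_lt_one h4]
        exact h3
    exact ⟨h5, hUb h5⟩
  have hgf : ∀ q ∈ U ∩ cyl.body, g (f q) = q := by
    rintro q ⟨⟨h1, h2, h3⟩, -⟩
    have h4 : 1 - |q.2.2| ≠ 0 := by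
      have : 0 < 1 - |q.2.2| := by linarith
      exact this.ne'
    have e1 : g (f q) = (((1 - |q.2.2|) * q.1 - q.2.2 / 2 + q.2.2 / 2) / (1 - |q.2.2|),
        ((1 - |q.2.2|) * q.2.1) / (1 - |q.2.2|), q.2.2) := by
      show ((((pr q).re) + wf (f q) / 2) / (1 - |wf (f q)|), (pr q).im / (1 - |wf (f q)|),
        wf (f q)) = _
      rw [hwff]
      rfl
    rw [e1, sub_add_cancel, mul_div_cancel_left₀ _ h4, mul_div_cancel_left₀ _ h4]
  have hfg : ∀ q ∈ W ∩ univ, f (g q) = q := by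
    rintro q ⟨⟨h1, h2, h3⟩, -⟩
    have h4 : 1 - |wf q| ≠ 0 := by
      have : 0 < 1 - |wf q| := by linarith
      exact this.ne'
    have e1 : (pr (g q)).re = q.1 := by
      show (1 - |wf q|) * ((q.1 + wf q / 2) / (1 - |wf q|)) - wf q / 2 = q.1
      rw [mul_div_cancel₀ _ h4]
      ring
    have e2 : (pr (g q)).im = q.2.2 := by
      show (1 - |wf q|) * (q.2.2 / (1 - |wf q|)) = q.2.2
      rw [mul_div_cancel₀ _ h4]
    have e3 : G (g q) = q.2.1 := by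
      have : G (g q) = wf q - F (pr (g q)).re (pr (g q)).im := rfl
      rw [this, e1, e2]
      show q.2.1 + F q.1 q.2.2 - F q.1 q.2.2 = q.2.1
      ring
    show ((pr (g q)).re, G (g q), (pr (g q)).im) = q
    rw [e1, e2, e3]
  have cf : Continuous f :=
    (Complex.continuous_re.comp hpc).prodMk (hGc.prodMk (Complex.continuous_im.comp hpc))
  have cg : ContinuousOn g (W ∩ univ) := by
    have h0 : ∀ q ∈ W ∩ univ, 1 - |wf q| ≠ 0 := by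
      rintro q ⟨⟨h1, -⟩, -⟩
      have : 0 < 1 - |wf q| := by linarith
      exact this.ne'
    have c1 : ContinuousOn (fun q : R3 => 1 - |wf q|) (W ∩ univ) :=
      (continuous_const.sub hwf.abs).continuousOn
    exact ((continuous_fst.add (hwf.div_const _)).continuousOn.div c1 h0).prodMk
      (((continuous_snd.comp continuous_snd).continuousOn.div c1 h0).prodMk hwf.continuousOn)
  refine ⟨U, W, hU, hpU, hW, mkH _ _ f g hf hg hgf hfg cf.continuousOn cg, ?_⟩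
  rintro ⟨x, hxU, hxb⟩
  refine ⟨?_, ?_, ?_⟩
  · show x ∈ HC ↔ G x = 0
    exact ⟨fun h => h.2, fun h => ⟨hxb, h⟩⟩
  · refine iff_of_false ?_ (notMem_empty _)
    intro h
    rcases (mem_bd.1 h).2.2.2 with h1 | h1
    · exact hxU.1.ne h1
    · exact hxU.2.1.ne h1
  · refine iff_of_false ?_ (notMem_empty _)
    intro h
    exact hxU.1.ne (mem_skel.1 h).2.1

/-- the chart of the square as a pair of functions, in a small open set -/
theorem sqc' (hS : Stmt_SQC) (u0 v0 : ℝ) (hu : |u0| ≤ 1) (hv : |v0| ≤ 1)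
    (hb : |u0| = 1 ∨ |v0| = 1) (R : Set (ℝ × ℝ)) (hR : IsOpen R) (hR0 : (u0, v0) ∈ R) :
    ∃ (U W : Set (ℝ × ℝ)) (E D : ℝ × ℝ → ℝ × ℝ), IsOpen U ∧ (u0, v0) ∈ U ∧ U ⊆ R ∧ IsOpen W ∧
      (∀ q ∈ U, |q.1| ≤ 1 → |q.2| ≤ 1 → E q ∈ W ∧ 0 ≤ (E q).2 ∧ D (E q) = q ∧
        (|q.1| = 1 ∨ |q.2| = 1 ↔ (E q).2 = 0)) ∧
      (∀ r ∈ W, 0 ≤ r.2 → D r ∈ U ∧ |(D r).1| ≤ 1 ∧ |(D r).2| ≤ 1 ∧ E (D r) = r) ∧
      ContinuousOn E (U ∩ {q | |q.1| ≤ 1 ∧ |q.2| ≤ 1}) ∧ ContinuousOn D (W ∩ {r | 0 ≤ r.2}) ∧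
      (¬ (|u0| = 1 ∧ |v0| = 1) → ∀ q ∈ U, ¬ (|q.1| = 1 ∧ |q.2| = 1)) ∧
      (|u0| = 1 ∧ |v0| = 1 → ∀ q ∈ U, |q.1| ≤ 1 → |q.2| ≤ 1 →
        (|q.1| = 1 ∧ |q.2| = 1 ↔ E q = (0, 0))) := by
  classical
  obtain ⟨U, W, hU, h0, hW, e, he1, he2, he3⟩ := hS u0 v0 hu hv hb
  let E : ℝ × ℝ → ℝ × ℝ := fun q =>
    if h : q ∈ U ∩ {q : ℝ × ℝ | |q.1| ≤ 1 ∧ |q.2| ≤ 1} then (e ⟨q, h⟩ : ℝ × ℝ) else 0
  let D : ℝ × ℝ → ℝ × ℝ := fun r =>
    if h : r ∈ W ∩ {q : ℝ × ℝ | 0 ≤ q.2} then (e.symm ⟨r, h⟩ : ℝ × ℝ) else 0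
  have hE : ∀ (q : ℝ × ℝ) (h : q ∈ U ∩ {q : ℝ × ℝ | |q.1| ≤ 1 ∧ |q.2| ≤ 1}),
      E q = (e ⟨q, h⟩ : ℝ × ℝ) := fun q h => dif_pos h
  have hD : ∀ (r : ℝ × ℝ) (h : r ∈ W ∩ {q : ℝ × ℝ | 0 ≤ q.2}),
      D r = (e.symm ⟨r, h⟩ : ℝ × ℝ) := fun r h => dif_pos h
  have hDE : ∀ q ∈ U ∩ {q : ℝ × ℝ | |q.1| ≤ 1 ∧ |q.2| ≤ 1}, D (E q) = q := by
    intro q h
    rw [hE q h, hD _ (e ⟨q, h⟩).2]
    simp
  have hED : ∀ r ∈ W ∩ {q : ℝ × ℝ | 0 ≤ q.2}, E (D r) = r := by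
    intro r h
    rw [hD r h, hE _ (e.symm ⟨r, h⟩).2]
    simp
  have cE : ContinuousOn E (U ∩ {q : ℝ × ℝ | |q.1| ≤ 1 ∧ |q.2| ≤ 1}) := by
    rw [continuousOn_iff_continuous_domRestrict]
    have : (U ∩ {q : ℝ × ℝ | |q.1| ≤ 1 ∧ |q.2| ≤ 1}).domRestrict E =
        fun x => (e x : ℝ × ℝ) := by
      funext x
      exact hE x x.2
    rw [this]
    exact continuous_subtype_val.comp e.continuous
  have cD : ContinuousOn D (W ∩ {q : ℝ × ℝ | 0 ≤ q.2}) := by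
    rw [continuousOn_iff_continuous_domRestrict]
    have : (W ∩ {q : ℝ × ℝ | 0 ≤ q.2}).domRestrict D = fun x => (e.symm x : ℝ × ℝ) := by
      funext x
      exact hD x x.2
    rw [this]
    exact continuous_subtype_val.comp e.symm.continuous
  -- the smaller set
  obtain ⟨T, hT, hTD⟩ := continuousOn_iff'.1 cD R hR
  have hmem : ∀ r ∈ W ∩ {q : ℝ × ℝ | 0 ≤ q.2}, (D r ∈ R ↔ r ∈ T) := by
    intro r hr
    constructor
    · intro h
      have : r ∈ D ⁻¹' R ∩ (W ∩ {q : ℝ × ℝ | 0 ≤ q.2}) := ⟨h, hr⟩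
      rw [hTD] at this
      exact this.1
    · intro h
      have : r ∈ T ∩ (W ∩ {q : ℝ × ℝ | 0 ≤ q.2}) := ⟨h, hr⟩
      rw [← hTD] at this
      exact this.1
  refine ⟨U ∩ R, W ∩ T, E, D, hU.inter hR, ⟨h0, hR0⟩, inter_subset_right, hW.inter hT, ?_, ?_,
    cE.mono fun q hq => ⟨hq.1.1, hq.2⟩, cD.mono fun r hr => ⟨hr.1.1, hr.2⟩,
    fun hc q hq => he2 hc q hq.1, ?_⟩
  · rintro q ⟨hqU, hqR⟩ h1 h2
    have hq : q ∈ U ∩ {q : ℝ × ℝ | |q.1| ≤ 1 ∧ |q.2| ≤ 1} := ⟨hqU, h1, h2⟩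
    have h3 : E q ∈ W ∩ {q : ℝ × ℝ | 0 ≤ q.2} := by
      rw [hE q hq]
      exact (e ⟨q, hq⟩).2
    refine ⟨⟨h3.1, (hmem _ h3).1 (by rwa [hDE q hq])⟩, h3.2, hDE q hq, ?_⟩
    rw [hE q hq]
    exact he1 ⟨q, hq⟩
  · rintro r ⟨hrW, hrT⟩ h1
    have hr : r ∈ W ∩ {q : ℝ × ℝ | 0 ≤ q.2} := ⟨hrW, h1⟩
    have h3 : D r ∈ U ∩ {q : ℝ × ℝ | |q.1| ≤ 1 ∧ |q.2| ≤ 1} := by
      rw [hD r hr]
      exact (e.symm ⟨r, hr⟩).2
    exact ⟨⟨h3.1, (hmem r hr).2 hrT⟩, h3.2.1, h3.2.2, hED r hr⟩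
  · rintro hc q ⟨hqU, -⟩ h1 h2
    have hq : q ∈ U ∩ {q : ℝ × ℝ | |q.1| ≤ 1 ∧ |q.2| ≤ 1} := ⟨hqU, h1, h2⟩
    rw [hE q hq]
    exact he3 hc ⟨q, hq⟩

/-- near a boundary point the surface is a graph -/
theorem graph (hGF : Stmt_GF) {u0 v0 w0 : ℝ} (hp : (u0, v0, w0) ∈ HC)
    (hb : |u0| = 1 ∨ |v0| = 1) :
    ∃ (R : Set (ℝ × ℝ)) (I : Set ℝ) (ψ : ℝ × ℝ → ℝ), IsOpen R ∧ (u0, v0) ∈ R ∧ IsOpen I ∧
      w0 ∈ I ∧ (∀ w ∈ I, |w| < 1) ∧ ContinuousOn ψ R ∧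
      ∀ u v w : ℝ, (u, v) ∈ R → |u| ≤ 1 → |v| ≤ 1 → w ∈ I → (G (u, v, w) = 0 ↔ w = ψ (u, v)) := by
  obtain ⟨-, hpos, hzero, hsym, -, hsq, -, -⟩ := hGF
  obtain ⟨hu0, hv0, hw0⟩ := mem_body.1 hp.1
  simp only at hu0 hv0 hw0
  have hg0 : g1 u0 v0 = 1 := ((hsq u0 v0).2 hu0 hv0).2 hb
  have hg0' : g1 (-u0) v0 = 1 :=
    ((hsq (-u0) v0).2 (by rwa [abs_neg]) hv0).2 (by rwa [abs_neg])
  have hc := continuous_g1
  have hc' : Continuous fun q : ℝ × ℝ => g1 (-q.1) q.2 :=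
    hc.comp (f := fun q : ℝ × ℝ => (-q.1, q.2)) (by fun_prop)
  -- the equation
  have key : ∀ g w : ℝ, 1 / 4 < g → ((1 - w) * (8 * g - 1) = 1 ↔ w = (8 * g - 2) / (8 * g - 1)) := by
    intro g w hg
    have h1 : 8 * g - 1 ≠ 0 := by
      have : 0 < 8 * g - 1 := by linarith
      exact this.ne'
    rw [eq_div_iff h1]
    constructor
    · intro h; linarith
    · intro h; linarith
  rcases lt_trichotomy w0 0 with h | h | h
  · -- `w0 < 0`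
    refine ⟨{q | 1 / 4 < g1 (-q.1) q.2}, Ioo (-1) 0,
      fun q => -((8 * g1 (-q.1) q.2 - 2) / (8 * g1 (-q.1) q.2 - 1)),
      isOpen_lt continuous_const hc', ?_, isOpen_Ioo, ⟨(abs_lt.1 hw0).1, h⟩, ?_, ?_, ?_⟩
    · show 1 / 4 < g1 (-u0) v0
      rw [hg0']; norm_num
    · intro w hw
      rw [abs_lt]
      exact ⟨hw.1, by linarith [hw.2]⟩
    · refine (ContinuousOn.div ?_ ?_ ?_).neg
      · exact ((continuous_const.mul hc').sub continuous_const).continuousOn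
      · exact ((continuous_const.mul hc').sub continuous_const).continuousOn
      · intro q hq
        have h1 : 1 / 4 < g1 (-q.1) q.2 := hq
        have : 0 < 8 * g1 (-q.1) q.2 - 1 := by linarith
        exact this.ne'
    · intro u v w hR hu hv hw
      have h1 := (hpos (-u) v (-w) (by rwa [abs_neg]) hv (by linarith [hw.2])
        (by linarith [hw.1])).1
      rw [hsym, neg_eq_zero] at h1
      rw [h1, key _ _ hR]
      show -w = (8 * g1 (-u) v - 2) / (8 * g1 (-u) v - 1) ↔ w = -((8 * g1 (-u) v - 2) / (8 * g1 (-u) v - 1))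
      constructor
      · intro h; linarith
      · intro h; linarith
  · -- `w0 = 0`
    subst h
    refine ⟨{q | 3 / 8 < g1 q.1 q.2} ∩ {q | 3 / 8 < g1 (-q.1) q.2}, Ioo (-(1 / 4)) (1 / 4),
      fun _ => 0, (isOpen_lt continuous_const hc).inter (isOpen_lt continuous_const hc'),
      ⟨?_, ?_⟩, isOpen_Ioo, ⟨by norm_num, by norm_num⟩, ?_, continuousOn_const, ?_⟩
    · show 3 / 8 < g1 u0 v0
      rw [hg0]; norm_num
    · show 3 / 8 < g1 (-u0) v0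
      rw [hg0']; norm_num
    · intro w hw
      rw [abs_lt]
      exact ⟨by linarith [hw.1], by linarith [hw.2]⟩
    · intro u v w hR hu hv hw
      have hR1 : 3 / 8 < g1 u v := hR.1
      have hR2 : 3 / 8 < g1 (-u) v := hR.2
      show G (u, v, w) = 0 ↔ w = 0
      rcases lt_trichotomy w 0 with h | h | h
      · have h1 := (hpos (-u) v (-w) (by rwa [abs_neg]) hv (by linarith)
          (by linarith [hw.1])).1
        rw [hsym, neg_eq_zero] at h1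
        rw [h1]
        refine iff_of_false ?_ h.ne
        intro h2
        have h3 : -w < 1 / 4 := by linarith [hw.1]
        nlinarith
      · subst h
        refine iff_of_true ?_ rfl
        rw [(hzero u v).1]
        exact ⟨by linarith, by linarith⟩
      · have h1 := (hpos u v w hu hv h (by linarith [hw.2])).1
        rw [h1]
        refine iff_of_false ?_ h.ne'
        intro h2
        have h3 : w < 1 / 4 := hw.2
        nlinarith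
  · -- `0 < w0`
    refine ⟨{q | 1 / 4 < g1 q.1 q.2}, Ioo 0 1,
      fun q => (8 * g1 q.1 q.2 - 2) / (8 * g1 q.1 q.2 - 1),
      isOpen_lt continuous_const hc, ?_, isOpen_Ioo, ⟨h, (abs_lt.1 hw0).2⟩, ?_, ?_, ?_⟩
    · show 1 / 4 < g1 u0 v0
      rw [hg0]; norm_num
    · intro w hw
      rw [abs_lt]
      exact ⟨by linarith [hw.1], hw.2⟩
    · refine ContinuousOn.div ?_ ?_ ?_
      · exact ((continuous_const.mul hc).sub continuous_const).continuousOn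
      · exact ((continuous_const.mul hc).sub continuous_const).continuousOn
      · intro q hq
        have h1 : 1 / 4 < g1 q.1 q.2 := hq
        have : 0 < 8 * g1 q.1 q.2 - 1 := by linarith
        exact this.ne'
    · intro u v w hR hu hv hw
      rw [(hpos u v w hu hv hw.1 hw.2).1, key _ _ hR]

/-- the charts of the boundary -/
theorem outer_chart (hGF : Stmt_GF) (hS : Stmt_SQC) {u0 v0 w0 : ℝ} (hp : (u0, v0, w0) ∈ HC)
    (hb : |u0| = 1 ∨ |v0| = 1) :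
    (¬ (|u0| = 1 ∧ |v0| = 1) → HasChart cyl HC (u0, v0, w0) {v | 0 ≤ v.2.2} {v | v.2.2 = 0} ∅) ∧
    (|u0| = 1 ∧ |v0| = 1 → HasChart cyl HC (u0, v0, w0) {v | 0 ≤ v.2.2} {v | v.2.2 = 0}
      {v | v.1 = 0 ∧ v.2.2 = 0}) := by
  obtain ⟨hu0, hv0, hw0⟩ := mem_body.1 hp.1
  simp only at hu0 hv0 hw0
  obtain ⟨R, I, ψ, hR, hR0, hI, hI0, hI1, hψ, hgr⟩ := graph hGF hp hb
  obtain ⟨U2, W2, E, D, hU2, hU20, hU2R, hW2, hE, hD, cE, cD, hnc, hcor⟩ :=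
    sqc' hS u0 v0 hu0 hv0 hb R hR hR0
  let U : Set R3 := {p | (p.1, p.2.1) ∈ U2 ∧ p.2.2 ∈ I}
  have hU : IsOpen U := (hU2.preimage (f := fun p : R3 => (p.1, p.2.1)) (by fun_prop)).inter
    (hI.preimage (f := fun p : R3 => p.2.2) (by fun_prop))
  let M : Set R3 := {v | 0 ≤ v.2.2}
  let W3 : Set R3 := {q | (q.1, q.2.2) ∈ W2}
  have hW3 : IsOpen W3 := hW2.preimage (f := fun p : R3 => (p.1, p.2.2)) (by fun_prop)
  have cD3 : ContinuousOn (fun q : R3 => D (q.1, q.2.2)) (W3 ∩ M) :=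
    cD.comp (f := fun p : R3 => (p.1, p.2.2)) (by fun_prop) fun q hq => ⟨hq.1, hq.2⟩
  have hDR : ∀ q ∈ W3 ∩ M, D (q.1, q.2.2) ∈ R := fun q hq => hU2R (hD _ hq.1 hq.2).1
  have cψD : ContinuousOn (fun q : R3 => q.2.1 + ψ (D (q.1, q.2.2))) (W3 ∩ M) :=
    ContinuousOn.add (by fun_prop) (hψ.comp cD3 hDR)
  obtain ⟨T, hT, hTD⟩ := continuousOn_iff'.1 cψD I hI
  have hmem : ∀ q ∈ W3 ∩ M, (q.2.1 + ψ (D (q.1, q.2.2)) ∈ I ↔ q ∈ T) := by
    intro q hq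
    constructor
    · intro h
      have : q ∈ (fun q : R3 => q.2.1 + ψ (D (q.1, q.2.2))) ⁻¹' I ∩ (W3 ∩ M) := ⟨h, hq⟩
      rw [hTD] at this
      exact this.1
    · intro h
      have : q ∈ T ∩ (W3 ∩ M) := ⟨h, hq⟩
      rw [← hTD] at this
      exact this.1
  let f : R3 → R3 := fun p => ((E (p.1, p.2.1)).1, p.2.2 - ψ (p.1, p.2.1), (E (p.1, p.2.1)).2)
  let g : R3 → R3 := fun q => ((D (q.1, q.2.2)).1, (D (q.1, q.2.2)).2,
    q.2.1 + ψ (D (q.1, q.2.2)))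
  have hDf : ∀ p ∈ U ∩ cyl.body, D ((f p).1, (f p).2.2) = (p.1, p.2.1) := by
    rintro p ⟨⟨h1, h2⟩, h3⟩
    exact (hE _ h1 h3.1 h3.2.1).2.2.1
  have hf : ∀ p ∈ U ∩ cyl.body, f p ∈ (W3 ∩ T) ∩ M := by
    rintro p hp
    have h4 := hDf p hp
    obtain ⟨⟨h1, h2⟩, h3⟩ := hp
    have h5 := hE _ h1 h3.1 h3.2.1
    have h6 : f p ∈ W3 ∩ M := ⟨h5.1, h5.2.1⟩
    refine ⟨⟨h6.1, (hmem _ h6).1 ?_⟩, h6.2⟩
    rw [h4]
    show p.2.2 - ψ (p.1, p.2.1) + ψ (p.1, p.2.1) ∈ I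
    rw [sub_add_cancel]
    exact h2
  have hg : ∀ q ∈ (W3 ∩ T) ∩ M, g q ∈ U ∩ cyl.body := by
    rintro q ⟨⟨h1, h2⟩, h3⟩
    have h4 := hD _ h1 h3
    have h5 := (hmem q ⟨h1, h3⟩).2 h2
    exact ⟨⟨h4.1, h5⟩, h4.2.1, h4.2.2.1, hI1 _ h5⟩
  have hgf : ∀ p ∈ U ∩ cyl.body, g (f p) = p := by
    intro p hp
    have h4 := hDf p hp
    show ((D ((f p).1, (f p).2.2)).1, (D ((f p).1, (f p).2.2)).2,
      p.2.2 - ψ (p.1, p.2.1) + ψ (D ((f p).1, (f p).2.2))) = p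
    rw [h4, sub_add_cancel]
  have hfg : ∀ q ∈ (W3 ∩ T) ∩ M, f (g q) = q := by
    rintro q ⟨⟨h1, h2⟩, h3⟩
    have h4 := (hD _ h1 h3).2.2.2
    show ((E (D (q.1, q.2.2))).1, q.2.1 + ψ (D (q.1, q.2.2)) - ψ (D (q.1, q.2.2)),
      (E (D (q.1, q.2.2))).2) = q
    rw [h4, add_sub_cancel_right]
  have cE3 : ContinuousOn (fun p : R3 => E (p.1, p.2.1)) (U ∩ cyl.body) :=
    cE.comp (f := fun p : R3 => (p.1, p.2.1)) (by fun_prop)
      fun p hp => ⟨hp.1.1, hp.2.1, hp.2.2.1⟩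
  have cψ : ContinuousOn (fun p : R3 => ψ (p.1, p.2.1)) (U ∩ cyl.body) :=
    hψ.comp (f := fun p : R3 => (p.1, p.2.1)) (by fun_prop) fun p hp => hU2R hp.1.1
  have cf : ContinuousOn f (U ∩ cyl.body) :=
    (continuous_fst.comp_continuousOn cE3).prodMk
      ((ContinuousOn.sub (by fun_prop) cψ).prodMk (continuous_snd.comp_continuousOn cE3))
  have cg : ContinuousOn g ((W3 ∩ T) ∩ M) := by
    have c1 : ContinuousOn g (W3 ∩ M) :=
      (continuous_fst.comp_continuousOn cD3).prodMk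
        ((continuous_snd.comp_continuousOn cD3).prodMk cψD)
    exact c1.mono fun q hq => ⟨hq.1.1, hq.2⟩
  have hH : ∀ x ∈ U ∩ cyl.body, (x ∈ HC ↔ (f x).2.1 = 0) := by
    rintro x ⟨⟨h1, h2⟩, h3⟩
    have h4 := hgr x.1 x.2.1 x.2.2 (hU2R h1) h3.1 h3.2.1 h2
    show x ∈ HC ↔ x.2.2 - ψ (x.1, x.2.1) = 0
    rw [sub_eq_zero, ← h4]
    exact ⟨fun h => h.2, fun h => ⟨h3, h⟩⟩
  have hB : ∀ x ∈ U ∩ cyl.body, (x ∈ cyl.bd ↔ (f x).2.2 = 0) := by
    rintro x ⟨⟨h1, h2⟩, h3⟩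
    have h4 := (hE _ h1 h3.1 h3.2.1).2.2.2
    show x ∈ cyl.bd ↔ (E (x.1, x.2.1)).2 = 0
    rw [← h4, mem_bd]
    exact ⟨fun h => h.2.2.2, fun h => ⟨h3.1, h3.2.1, h3.2.2, h⟩⟩
  constructor
  · intro hc
    refine ⟨U, W3 ∩ T, hU, ⟨hU20, hI0⟩, hW3.inter hT, mkH _ _ f g hf hg hgf hfg cf cg, ?_⟩
    rintro ⟨x, hx⟩
    refine ⟨hH x hx, hB x hx, ?_⟩
    refine iff_of_false ?_ (notMem_empty _)
    intro h
    exact hnc hc _ hx.1.1 (mem_skel.1 h).2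
  · intro hc
    refine ⟨U, W3 ∩ T, hU, ⟨hU20, hI0⟩, hW3.inter hT, mkH _ _ f g hf hg hgf hfg cf cg, ?_⟩
    rintro ⟨x, hx⟩
    refine ⟨hH x hx, hB x hx, ?_⟩
    have h4 := hcor hc _ hx.1.1 hx.2.1 hx.2.2.1
    show x ∈ cyl.skel ↔ (E (x.1, x.2.1)).1 = 0 ∧ (E (x.1, x.2.1)).2 = 0
    rw [mem_skel]
    rw [Prod.ext_iff] at h4
    rw [← show ((|x.1| = 1 ∧ |x.2.1| = 1) ↔ _) from h4]
    exact ⟨fun h => h.2, fun h => ⟨hx.2.2.2, h⟩⟩

end SURF

open SURF in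
theorem t_SURF : Stmt_GF → Stmt_SEC → Stmt_SQC → Stmt_SURF := by
  intro hGF hSEC hSQC
  refine ⟨fun p hp => hp.1, ?_, ?_, ?_, ?_, ?_⟩
  · have e : HC = sec '' PQ := by
      ext p
      constructor
      · intro hp
        exact ⟨pr p, (hSEC.2.1 p hp).1, (hSEC.2.1 p hp).2⟩
      · rintro ⟨z, hz, rfl⟩
        exact (hSEC.1 z hz).1
    rw [e]
    exact isCompact_PQ.image_of_continuousOn hSEC.2.2
  · rw [vert_empty]
    exact disjoint_empty _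
  · intro p hp hb
    exact inner_chart hGF.2.2.2.2.2.2.1 hGF.2.2.2.2.2.2.2 hp hb
  · rintro ⟨u0, v0, w0⟩ hp hb hs
    have h1 := mem_bd.1 hb
    refine (outer_chart hGF hSQC hp h1.2.2.2).1 fun hc => hs ?_
    rw [mem_skel]
    exact ⟨h1.2.2.1, hc⟩
  · rintro ⟨u0, v0, w0⟩ hp hs
    have h1 := mem_skel.1 hs
    exact (outer_chart hGF hSQC hp (Or.inl h1.2.1)).2 h1.2

end Pool.Agent.LIX.PP
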