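import Pool.Agent.LIX.StmtsTB

/-!
# LIX, block TB: extension of a loop off a finite set (helper63)
-/

namespace Pool.Agent.LIX

open Set Metric Complex

theorem t_J1F : M_J1F := by
  classical
  intro hPUSH hRAD Z c hZ hc hcZ hfar
  have hJ : IsCompact (c '' sphere (0 : ℂ) 1) := (isCompact_sphere 0 1).image_of_continuousOn hc
  induction Z, hZ using Set.Finite.induction_on with
  | empty =>
    let f : C(sphere (0 : ℂ) 1, ℂ) := ⟨fun x => c x, continuousOn_iff_continuous_domRestrict.1 hc⟩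
    obtain ⟨G, hG⟩ := ContinuousMap.exists_restrict_eq (isClosed_sphere (x := (0 : ℂ)) (ε := 1)) f
    refine ⟨G, G.continuous.continuousOn, fun x hx => ?_, fun _ _ => notMem_empty _⟩
    have := congrArg (fun F : C(sphere (0 : ℂ) 1, ℂ) => F ⟨x, hx⟩) hG
    exact this
  | @insert z Z' hz hZ' ih =>
    obtain ⟨G1, hG1, hG1c, hG1Z⟩ := ih (fun x hx h => hcZ x hx (mem_insert_of_mem _ h))
      (fun y hy R => hfar y (mem_insert_of_mem _ hy) R)
    obtain ⟨R, hR0, hR⟩ := hJ.isBounded.subset_ball_lt 0 0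
    obtain ⟨w, hw, hjoin⟩ := hfar z (mem_insert _ _) (R + 1)
    obtain ⟨h, L, -, hLU, hfix, hhz⟩ := hPUSH _ z w hJ.isClosed.isOpen_compl hjoin
    have hfixJ : ∀ x ∈ sphere (0 : ℂ) 1, h (c x) = c x := fun x hx =>
      hfix _ fun hL => hLU hL (mem_image_of_mem c hx)
    have hfin : ((fun v : ℂ => ‖v‖) '' (h '' Z')).Finite := (hZ'.image _).image _
    obtain ⟨R', hR', hR'n⟩ := (Set.Ioo_infinite (by linarith : R < R + 1)).exists_notMem_finite hfin
    obtain ⟨ρ, hρ, hρ1, hρ2⟩ := hRAD R' (hR0.trans hR'.1)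
    have key : ∀ x ∈ Disk, ρ (h (G1 x)) ∉ h '' Z' ∧ ρ (h (G1 x)) ≠ w := by
      intro x hx
      rcases le_total ‖h (G1 x)‖ R' with h1 | h1
      · rw [hρ1 _ h1]
        refine ⟨?_, ?_⟩
        · rintro ⟨y, hy, hyx⟩
          exact hG1Z x hx (h.injective hyx ▸ hy)
        · intro h2
          rw [h2] at h1
          linarith [hR'.2]
      · have h3 := hρ2 _ h1
        refine ⟨fun h2 => hR'n ⟨_, h2, h3⟩, fun h2 => ?_⟩
        rw [h2] at h3
        linarith [hR'.2]
    refine ⟨fun x => h.symm (ρ (h (G1 x))), ?_, fun x hx => ?_, fun x hx hmem => ?_⟩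
    · exact h.symm.continuous.comp_continuousOn
        (hρ.comp_continuousOn (h.continuous.comp_continuousOn hG1))
    · have h4 : ‖c x‖ ≤ R' := by
        have := hR (mem_image_of_mem c hx)
        rw [mem_ball_zero_iff] at this
        linarith [hR'.1]
      show h.symm (ρ (h (G1 x))) = c x
      rw [hG1c x hx, hfixJ x hx, hρ1 _ h4]
      exact (h.symm_apply_eq).2 (hfixJ x hx).symm
    · obtain ⟨k1, k2⟩ := key x hx
      rcases hmem with h5 | h5
      · apply k2
        rw [← hhz, ← h5]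
        exact (h.apply_symm_apply _).symm
      · apply k1
        exact ⟨_, h5, h.apply_symm_apply _⟩

end Pool.Agent.LIX
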