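import Pool.Agent.LIX.StmtsTB

set_option autoImplicit false

namespace Pool.Agent.LIX

open Set Metric

theorem t_PU1 : S_PU1 := by
  intro x y r hr
  have hr0 : 0 < r := (norm_nonneg _).trans_lt hr
  set b : ℂ → ℝ := fun w => max 0 (1 - ‖w - x‖ / r) with hb
  have hbL : ∀ w w', |b w - b w'| ≤ ‖w - w'‖ / r := by
    intro w w'
    have h1 : |b w - b w'| ≤ |(1 - ‖w - x‖ / r) - (1 - ‖w' - x‖ / r)| := by
      have := abs_max_sub_max_le_max (0 : ℝ) (1 - ‖w - x‖ / r) 0 (1 - ‖w' - x‖ / r)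
      simpa using this
    refine h1.trans ?_
    have h2 : (1 - ‖w - x‖ / r) - (1 - ‖w' - x‖ / r) = (‖w' - x‖ - ‖w - x‖) / r := by ring
    rw [h2, abs_div, abs_of_pos hr0]
    gcongr
    have h3 := abs_norm_sub_norm_le (w' - x) (w - x)
    have h4 : w' - x - (w - x) = -(w - w') := by ring
    rw [h4, norm_neg] at h3
    exact h3
  set c : NNReal := ⟨‖y - x‖ / r, by positivity⟩ with hc
  have hc1 : (c : ℝ) < 1 := by
    change ‖y - x‖ / r < 1
    rw [div_lt_one hr0]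
    exact hr
  set h : ℂ → ℂ := fun w => w + (b w : ℂ) * (y - x) with hh
  have happ : ApproximatesLinearOn h ((ContinuousLinearEquiv.refl ℝ ℂ : ℂ ≃L[ℝ] ℂ) : ℂ →L[ℝ] ℂ)
      univ c := by
    intro w _ w' _
    have e : h w - h w' - ((ContinuousLinearEquiv.refl ℝ ℂ : ℂ ≃L[ℝ] ℂ) : ℂ →L[ℝ] ℂ) (w - w') =
        ((b w - b w' : ℝ) : ℂ) * (y - x) := by
      simp only [hh, ContinuousLinearEquiv.coe_refl, ContinuousLinearMap.coe_id', id_eq]
      push_cast
      ring
    rw [e, norm_mul, Complex.norm_real, Real.norm_eq_abs]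
    change |b w - b w'| * ‖y - x‖ ≤ ‖y - x‖ / r * ‖w - w'‖
    calc |b w - b w'| * ‖y - x‖ ≤ (‖w - w'‖ / r) * ‖y - x‖ := by
          gcongr
          exact hbL w w'
      _ = ‖y - x‖ / r * ‖w - w'‖ := by ring
  have hcond : Subsingleton ℂ ∨ c < ‖((ContinuousLinearEquiv.refl ℝ ℂ).symm : ℂ →L[ℝ] ℂ)‖₊⁻¹ := by
    right
    have hn : ‖((ContinuousLinearEquiv.refl ℝ ℂ).symm : ℂ →L[ℝ] ℂ)‖₊ = 1 := by
      have : ((ContinuousLinearEquiv.refl ℝ ℂ).symm : ℂ →L[ℝ] ℂ) = ContinuousLinearMap.id ℝ ℂ := rfl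
      rw [this]
      ext
      exact ContinuousLinearMap.norm_id
    rw [hn, inv_one]
    exact_mod_cast hc1
  refine ⟨happ.toHomeomorph h hcond, ?_, ?_⟩
  · intro w hw
    have hw' : r < ‖w - x‖ := by
      rw [mem_closedBall, dist_eq_norm, not_le] at hw
      exact hw
    have hb0 : b w = 0 := by
      simp only [hb]
      apply max_eq_left
      rw [sub_nonpos, le_div_iff₀ hr0]
      linarith
    change w + (b w : ℂ) * (y - x) = w
    rw [hb0]
    simp
  · have hb1 : b x = 1 := by simp [hb]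
    change x + (b x : ℂ) * (y - x) = y
    rw [hb1]
    simp

end Pool.Agent.LIX
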