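import Pool.Agent.LIX.StmtsTB

/-!
# LIX, block TB: push homeomorphisms
-/

set_option autoImplicit false

namespace Pool.Agent.LIX

open Set Metric Complex

namespace TBPUSH

/-- there is a homeomorphism with support in a compact subset of `U` that moves `x` to `y` -/
def Ps (U : Set ℂ) (x y : ℂ) : Prop :=
  ∃ (h : ℂ ≃ₜ ℂ) (L : Set ℂ), IsCompact L ∧ L ⊆ U ∧ (∀ w, w ∉ L → h w = w) ∧ h x = y

theorem symm {U : Set ℂ} {x y : ℂ} (h : Ps U x y) : Ps U y x := by
  obtain ⟨h, L, h1, h2, h3, h4⟩ := h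
  refine ⟨h.symm, L, h1, h2, fun w hw => ?_, ?_⟩
  · rw [Homeomorph.symm_apply_eq, h3 w hw]
  · rw [Homeomorph.symm_apply_eq, h4]

theorem trans {U : Set ℂ} {x y z : ℂ} (h : Ps U x y) (h' : Ps U y z) : Ps U x z := by
  obtain ⟨h, L, h1, h2, h3, h4⟩ := h
  obtain ⟨k, K, k1, k2, k3, k4⟩ := h'
  refine ⟨h.trans k, L ∪ K, h1.union k1, union_subset h2 k2, fun w hw => ?_, ?_⟩
  · rw [Homeomorph.trans_apply, h3 w fun e => hw (Or.inl e), k3 w fun e => hw (Or.inr e)]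
  · rw [Homeomorph.trans_apply, h4, k4]

theorem near (hP : S_PU1) {U : Set ℂ} {x y : ℂ} {r : ℝ} (hr : closedBall x r ⊆ U)
    (hy : y ∈ ball x r) : Ps U x y := by
  rw [mem_ball, dist_eq_norm] at hy
  obtain ⟨h, h1, h2⟩ := hP x y r hy
  exact ⟨h, closedBall x r, isCompact_closedBall x r, hr, h1, h2⟩

end TBPUSH

open TBPUSH in
theorem t_PUSH : M_PUSH := by
  intro hP U x y hU hj
  obtain ⟨γ, hγ⟩ := hj
  have hS : IsPreconnected (range γ) := (isConnected_range γ.continuous).isPreconnected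
  have hx : x ∈ range γ := ⟨0, γ.source⟩
  have hy : y ∈ range γ := ⟨1, γ.target⟩
  have hSU : range γ ⊆ U := by
    rintro _ ⟨t, rfl⟩
    exact hγ t
  refine hS.induction₂' (Ps U) (fun z hz => ?_) (fun a b c _ _ _ => trans) hx hy
  obtain ⟨r, hr, hr2⟩ := nhds_basis_closedBall.mem_iff.1 (hU.mem_nhds (hSU hz))
  refine mem_nhdsWithin_of_mem_nhds ?_
  filter_upwards [ball_mem_nhds z hr] with w hw
  have h1 := near hP hr2 hw
  exact ⟨h1, symm h1⟩

end Pool.Agent.LIX
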