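import Pool.Agent.LIX.StmtsTB

/-!
# The radial retraction of the plane onto a closed disk
-/

namespace Pool.Agent.LIX

theorem t_RAD : S_RAD := by
  intro R hR
  have hpos : ∀ w : ℂ, 0 < max R ‖w‖ := fun w => lt_of_lt_of_le hR (le_max_left _ _)
  refine ⟨fun w => ((R / max R ‖w‖ : ℝ) : ℂ) * w, ?_, ?_, ?_⟩
  · have h1 : Continuous fun w : ℂ => (R / max R ‖w‖ : ℝ) :=
      continuous_const.div (continuous_const.max continuous_norm) fun w => (hpos w).ne'
    exact (Complex.continuous_ofReal.comp h1).mul continuous_id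
  · intro w hw
    have h1 : max R ‖w‖ = R := max_eq_left hw
    simp only [h1, div_self hR.ne', Complex.ofReal_one, one_mul]
  · intro w hw
    have h1 : max R ‖w‖ = ‖w‖ := max_eq_right hw
    have h2 : 0 < ‖w‖ := lt_of_lt_of_le hR hw
    simp only [h1, norm_mul, Complex.norm_real, Real.norm_eq_abs]
    rw [abs_of_pos (div_pos hR h2), div_mul_cancel₀ _ h2.ne']

end Pool.Agent.LIX
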