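import Pool.Agent.LIX.StmtsTR

/-!
# LIX, block TR, module TR1: surfaces are carried over
-/

set_option autoImplicit false

namespace Pool.Agent.LIX.TR

open Set Metric

namespace TR1

variable {Y Y' : Type} [TopologicalSpace Y] [TopologicalSpace Y'] {T : Cells Y}
    {T' : Cells Y'} {A : Set Y} {A' : Set Y'} {f : Y → Y'} {g : Y' → Y}

theorem skel_iff (hM : Model T T' A A' f g) {x : Y} (hx : x ∈ T.body) (hxA : x ∉ A) :
    x ∈ T.skel ↔ f x ∈ T'.skel := by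
  simp only [Cells.skel, mem_iUnion, hM.edge x hx hxA]

theorem mem_image_iff (hM : Model T T' A A' f g) {H' : Set Y'} (hH : H' ⊆ T'.body)
    (hd : Disjoint H' A') {x : Y} (hx : x ∈ T.body) (hxA : x ∉ A) :
    x ∈ g '' H' ↔ f x ∈ H' := by
  constructor
  · rintro ⟨y, hy, rfl⟩
    have hyA : y ∉ A' := fun h => disjoint_left.mp hd hy h
    rw [(hM.maps' y (hH hy) hyA).2.2]
    exact hy
  · intro h
    exact ⟨f x, h, (hM.maps x hx hxA).2.2⟩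

theorem chart (hM : Model T T' A A' f g) {H' : Set Y'} (hH : H' ⊆ T'.body)
    (hd : Disjoint H' A') {p : Y'} (hp : p ∈ T'.body) (hpA : p ∉ A')
    {M B S : Set (ℝ × ℝ × ℝ)} (hc : HasChart T' H' p M B S) :
    HasChart T (g '' H') (g p) M B S := by
  obtain ⟨U', W, hU', hpU, hW, e, he⟩ := hc
  -- the open set of the source
  obtain ⟨V, hV, hVe⟩ := (continuousOn_iff'.mp hM.contf) U' hU'
  have hUmem : ∀ x, x ∈ (V ∩ Aᶜ) ∩ T.body ↔ x ∈ T.body ∧ x ∉ A ∧ f x ∈ U' := by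
    intro x
    constructor
    · rintro ⟨⟨hxV, hxA⟩, hxb⟩
      have h1 : x ∈ V ∩ (T.body \ A) := ⟨hxV, hxb, hxA⟩
      rw [← hVe] at h1
      exact ⟨hxb, hxA, h1.1⟩
    · rintro ⟨hxb, hxA, hxU⟩
      have h1 : x ∈ f ⁻¹' U' ∩ (T.body \ A) := ⟨hxU, hxb, hxA⟩
      rw [hVe] at h1
      exact ⟨⟨h1.1, hxA⟩, hxb⟩
  -- the open set of the target
  have hopen : IsOpen (e.symm ⁻¹' {x : ↥(U' ∩ T'.body) | (x : Y') ∉ A'}) := by
    refine IsOpen.preimage e.symm.continuous ?_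
    exact hM.closed'.isOpen_compl.preimage continuous_subtype_val
  obtain ⟨W0, hW0, hW0e⟩ := isOpen_induced_iff.mp hopen
  have hWmem : ∀ w (hw : w ∈ W ∩ M), w ∈ W0 ↔ ((e.symm ⟨w, hw⟩ : ↥(U' ∩ T'.body)) : Y') ∉ A' := by
    intro w hw
    have h1 : (⟨w, hw⟩ : ↥(W ∩ M)) ∈ Subtype.val ⁻¹' W0 ↔
        (⟨w, hw⟩ : ↥(W ∩ M)) ∈ e.symm ⁻¹' {x : ↥(U' ∩ T'.body) | (x : Y') ∉ A'} := by
      rw [hW0e]
    exact h1
  have hf1 : ∀ x : ↥((V ∩ Aᶜ) ∩ T.body), f x ∈ U' ∩ T'.body := fun x => by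
    have h := (hUmem x).mp x.2
    exact ⟨h.2.2, (hM.maps x h.1 h.2.1).1⟩
  have hf2 : ∀ x : ↥((V ∩ Aᶜ) ∩ T.body), f x ∉ A' := fun x => by
    have h := (hUmem x).mp x.2
    exact (hM.maps x h.1 h.2.1).2.1
  have hf3 : ∀ x : ↥((V ∩ Aᶜ) ∩ T.body), g (f x) = x := fun x => by
    have h := (hUmem x).mp x.2
    exact (hM.maps x h.1 h.2.1).2.2
  have hfc : Continuous fun x : ↥((V ∩ Aᶜ) ∩ T.body) => f x := by
    have h1 : ContinuousOn f ((V ∩ Aᶜ) ∩ T.body) := by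
      refine hM.contf.mono ?_
      rintro x hx
      have h := (hUmem x).mp hx
      exact ⟨h.1, h.2.1⟩
    exact continuousOn_iff_continuous_domRestrict.mp h1
  have hg1 : ∀ w : ↥((W0 ∩ W) ∩ M), (w : ℝ × ℝ × ℝ) ∈ W ∩ M := fun w => ⟨w.2.1.2, w.2.2⟩
  have hg2 : ∀ w : ↥((W0 ∩ W) ∩ M),
      ((e.symm ⟨w, hg1 w⟩ : ↥(U' ∩ T'.body)) : Y') ∉ A' := fun w =>
    (hWmem w (hg1 w)).mp w.2.1.1
  have hg3 : ∀ w : ↥((W0 ∩ W) ∩ M),
      ((e.symm ⟨w, hg1 w⟩ : ↥(U' ∩ T'.body)) : Y') ∈ T'.body := fun w =>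
    (e.symm ⟨w, hg1 w⟩ : ↥(U' ∩ T'.body)).2.2
  have hg4 : ∀ w : ↥((W0 ∩ W) ∩ M),
      g ((e.symm ⟨w, hg1 w⟩ : ↥(U' ∩ T'.body)) : Y') ∈ (V ∩ Aᶜ) ∩ T.body := fun w => by
    have h := hM.maps' _ (hg3 w) (hg2 w)
    rw [hUmem]
    refine ⟨h.1, h.2.1, ?_⟩
    rw [h.2.2]
    exact (e.symm ⟨w, hg1 w⟩ : ↥(U' ∩ T'.body)).2.1
  have hgc : Continuous fun w : ↥((W0 ∩ W) ∩ M) =>
      g ((e.symm ⟨w, hg1 w⟩ : ↥(U' ∩ T'.body)) : Y') := by
    refine hM.contg.comp_continuous ?_ (fun w => ⟨hg3 w, hg2 w⟩)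
    refine continuous_subtype_val.comp (e.symm.continuous.comp ?_)
    exact Continuous.subtype_mk continuous_subtype_val _
  have hto : ∀ x : ↥((V ∩ Aᶜ) ∩ T.body),
      ((e ⟨f x, hf1 x⟩ : ↥(W ∩ M)) : ℝ × ℝ × ℝ) ∈ (W0 ∩ W) ∩ M := fun x => by
    have h1 := (e ⟨f x, hf1 x⟩ : ↥(W ∩ M)).2
    refine ⟨⟨?_, h1.1⟩, h1.2⟩
    rw [hWmem _ h1]
    rw [Subtype.coe_eta, e.symm_apply_apply]
    exact hf2 x
  let E : ↥((V ∩ Aᶜ) ∩ T.body) ≃ₜ ↥((W0 ∩ W) ∩ M) :=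
    { toFun := fun x => ⟨(e ⟨f x, hf1 x⟩ : ↥(W ∩ M)), hto x⟩
      invFun := fun w => ⟨g ((e.symm ⟨w, hg1 w⟩ : ↥(U' ∩ T'.body)) : Y'), hg4 w⟩
      left_inv := by
        intro x
        apply Subtype.ext
        simp only [Subtype.coe_eta, e.symm_apply_apply]
        exact hf3 x
      right_inv := by
        intro w
        apply Subtype.ext
        have h := (hM.maps' _ (hg3 w) (hg2 w)).2.2
        simp only [h, Subtype.coe_eta, e.apply_symm_apply]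
      continuous_toFun := by
        refine Continuous.subtype_mk ?_ _
        refine continuous_subtype_val.comp (e.continuous.comp ?_)
        exact Continuous.subtype_mk hfc _
      continuous_invFun := Continuous.subtype_mk hgc _ }
  have hE : ∀ x : ↥((V ∩ Aᶜ) ∩ T.body),
      ((E x : ↥((W0 ∩ W) ∩ M)) : ℝ × ℝ × ℝ) = (e ⟨f x, hf1 x⟩ : ↥(W ∩ M)) := fun _ => rfl
  refine ⟨V ∩ Aᶜ, W0 ∩ W, hV.inter hM.closed.isOpen_compl, ?_, hW0.inter hW, E, ?_⟩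
  · have h := hM.maps' p hp hpA
    have h2 : g p ∈ (V ∩ Aᶜ) ∩ T.body := by
      rw [hUmem]
      refine ⟨h.1, h.2.1, ?_⟩
      rw [h.2.2]
      exact hpU
    exact h2.1
  · intro x
    have h := (hUmem x).mp x.2
    have h3 := he ⟨f x, hf1 x⟩
    rw [hE x]
    refine ⟨?_, ?_, ?_⟩
    · rw [mem_image_iff hM hH hd h.1 h.2.1]
      exact h3.1
    · rw [hM.bd x h.1 h.2.1]
      exact h3.2.1
    · rw [skel_iff hM h.1 h.2.1]
      exact h3.2.2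

end TR1

theorem t_TR1 : Stmt_TR1 := by
  intro Y Y' _ _ T T' A A' f g hM H' hd hS
  have hA : ∀ p ∈ H', p ∉ A' := fun p hp h => disjoint_left.mp hd hp h
  have hbd : ∀ p ∈ H', (g p ∈ T.bd ↔ p ∈ T'.bd) := by
    intro p hp
    have h := hM.maps' p (hS.sub hp) (hA p hp)
    rw [hM.bd (g p) h.1 h.2.1, h.2.2]
  have hsk : ∀ p ∈ H', (g p ∈ T.skel ↔ p ∈ T'.skel) := by
    intro p hp
    have h := hM.maps' p (hS.sub hp) (hA p hp)
    rw [TR1.skel_iff hM h.1 h.2.1, h.2.2]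
  refine ⟨?_, ?_, ?_, ?_, ?_, ?_⟩
  · rintro x ⟨p, hp, rfl⟩
    exact (hM.maps' p (hS.sub hp) (hA p hp)).1
  · exact hS.compact.image_of_continuousOn
      (hM.contg.mono fun p hp => ⟨hS.sub hp, hA p hp⟩)
  · rw [disjoint_left]
    rintro x ⟨p, hp, rfl⟩ hv
    have h := hM.maps' p (hS.sub hp) (hA p hp)
    rw [Cells.vert, mem_iUnion] at hv
    obtain ⟨i, hi⟩ := hv
    rw [hM.edge (g p) h.1 h.2.1, h.2.2] at hi
    exact disjoint_left.mp hS.miss hp (mem_iUnion.mpr ⟨i, hi⟩)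
  · rintro x ⟨p, hp, rfl⟩ hb
    rw [hbd p hp] at hb
    exact TR1.chart hM hS.sub hd (hS.sub hp) (hA p hp) (hS.inner p hp hb)
  · rintro x ⟨p, hp, rfl⟩ hb hs
    rw [hbd p hp] at hb
    rw [hsk p hp] at hs
    exact TR1.chart hM hS.sub hd (hS.sub hp) (hA p hp) (hS.outer p hp hb hs)
  · rintro x ⟨p, hp, rfl⟩ hs
    rw [hsk p hp] at hs
    exact TR1.chart hM hS.sub hd (hS.sub hp) (hA p hp) (hS.cross p hp hs)

end Pool.Agent.LIX.TR
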