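import Pool.Agent.LIX.StmtsTR

/-!
# LIX, module TR2: disks avoid the removed set and are carried over
-/

set_option autoImplicit false

namespace Pool.Agent.LIX.TR

open Set Metric

namespace TR2

variable {Y Y' : Type} [TopologicalSpace Y] [TopologicalSpace Y'] {T : Cells Y} {T' : Cells Y'}
  {A : Set Y} {A' : Set Y'} {f : Y → Y'} {g : Y' → Y}

theorem skel_iff (M : Model T T' A A' f g) {x : Y} (hx : x ∈ T.body) (hxA : x ∉ A) :
    x ∈ T.skel ↔ f x ∈ T'.skel := by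
  unfold Cells.skel
  simp only [mem_iUnion]
  constructor
  · rintro ⟨i, j, h⟩
    exact ⟨i, j, (M.edge x hx hxA i j).1 h⟩
  · rintro ⟨i, j, h⟩
    exact ⟨i, j, (M.edge x hx hxA i j).2 h⟩

theorem image_iff (M : Model T T' A A' f g) {H' : Set Y'} (hH : H' ⊆ T'.body)
    (hd : Disjoint H' A') {y : Y'} (hy : y ∈ T'.body) (hyA : y ∉ A') :
    g y ∈ g '' H' ↔ y ∈ H' := by
  constructor
  · rintro ⟨h, hh, e⟩
    have h1 := (M.maps' h (hH hh) (fun ha => disjoint_left.1 hd hh ha)).2.2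
    have h2 := (M.maps' y hy hyA).2.2
    rw [e, h2] at h1
    rw [h1]
    exact hh
  · intro h
    exact ⟨y, h, rfl⟩

/-- the points of the bicollar of an edge-compressing disk are not in `A'` -/
theorem edge_avoid (M : Model T T' A A' f g) {H' : Set Y'} (hd : Disjoint H' A')
    {F : ℂ → Y'} {Φ : ℂ × ℝ → Y'} (hc : ContinuousOn Φ (HDisk ×ˢ Icc (-1) 1))
    (hi : InjOn Φ (HDisk ×ˢ Icc (-1) 1))
    (hp : ∀ z ∈ HDisk, ∀ s ∈ Icc (-1 : ℝ) 1, Φ (z, s) ∈ T'.body ∧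
      (Φ (z, s) ∈ T'.bd ↔ ‖z‖ = 1) ∧ (Φ (z, s) ∈ H' ↔ z.im = 0) ∧
      (Φ (z, s) ∈ T'.skel ↔ ‖z‖ = 1 ∧ s = 0))
    (hF : ∀ z ∈ HDisk, Φ (z, 0) = F z) {i j : Fin 4}
    (he : ∀ z ∈ HDisk, ‖z‖ = 1 → F z ∈ T'.edge i j) :
    ∀ z ∈ HDisk, ∀ s ∈ Icc (-1 : ℝ) 1, Φ (z, s) ∉ A' := by
  intro z hz s hs hA
  have h0 : (0 : ℝ) ∈ Icc (-1 : ℝ) 1 := ⟨by norm_num, by norm_num⟩
  obtain ⟨hz1, rfl⟩ := (hp z hz s hs).2.2.2.1 (M.subs' hA)
  have key : ∀ w ∈ HDisk, w.im = 0 → F w ∉ A' := by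
    intro w hw hw0 hwA
    have h1 : Φ (w, 0) ∈ H' := (hp w hw 0 h0).2.2.1.2 hw0
    rw [hF w hw] at h1
    exact disjoint_left.1 hd h1 hwA
  have h1D : (1 : ℂ) ∈ HDisk := ⟨by simp, by simp⟩
  rw [hF z hz] at hA
  rcases M.arc' i j with harc | ⟨σ, σc, σi, σA⟩
  · exact key 1 h1D (by simp) (harc (he 1 h1D (by simp)))
  · -- the angle function
    have hexp : ∀ θ ∈ Icc (0 : ℝ) Real.pi, Complex.exp (θ * Complex.I) ∈ HDisk ∧
        ‖Complex.exp (θ * Complex.I)‖ = 1 := by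
      intro θ hθ
      have hn : ‖Complex.exp (θ * Complex.I)‖ = 1 := Complex.norm_exp_ofReal_mul_I θ
      refine ⟨⟨hn.le, ?_⟩, hn⟩
      rw [Complex.exp_ofReal_mul_I_im]
      exact Real.sin_nonneg_of_nonneg_of_le_pi hθ.1 hθ.2
    have hmap : MapsTo (fun θ : ℝ => (Complex.exp (θ * Complex.I), (0 : ℝ)))
        (Icc 0 Real.pi) (HDisk ×ˢ Icc (-1) 1) := fun θ hθ => ⟨(hexp θ hθ).1, h0⟩
    have hcont1 : Continuous (fun θ : ℝ => (Complex.exp (θ * Complex.I), (0 : ℝ))) := by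
      fun_prop
    have hmap2 : MapsTo (fun θ : ℝ => Φ (Complex.exp (θ * Complex.I), (0 : ℝ)))
        (Icc 0 Real.pi) (T'.edge i j) := by
      intro θ hθ
      change Φ (Complex.exp (θ * Complex.I), (0 : ℝ)) ∈ T'.edge i j
      rw [hF _ (hexp θ hθ).1]
      exact he _ (hexp θ hθ).1 (hexp θ hθ).2
    have hcont2 : ContinuousOn (fun θ : ℝ => Φ (Complex.exp (θ * Complex.I), (0 : ℝ)))
        (Icc 0 Real.pi) := hc.comp hcont1.continuousOn hmap
    have hcont3 : ContinuousOn (fun θ : ℝ => σ (Φ (Complex.exp (θ * Complex.I), (0 : ℝ))))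
        (Icc 0 Real.pi) := σc.comp hcont2 hmap2
    have hinj : InjOn (fun θ : ℝ => σ (Φ (Complex.exp (θ * Complex.I), (0 : ℝ))))
        (Icc 0 Real.pi) := by
      intro a ha b hb hab
      have h1 := σi (hmap2 ha) (hmap2 hb) hab
      have h2 := hi (hmap ha) (hmap hb) h1
      have h3 : Complex.exp (a * Complex.I) = Complex.exp (b * Complex.I) := congrArg Prod.fst h2
      have h4 := congrArg Complex.re h3
      rw [Complex.exp_ofReal_mul_I_re, Complex.exp_ofReal_mul_I_re] at h4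
      exact Real.injOn_cos ha hb h4
    -- `z` is a point of the open semicircle
    have hzim : 0 < z.im := by
      rcases hz.2.lt_or_eq with h | h
      · exact h
      · exact absurd hA (key z hz h.symm)
    have hz0 : z ≠ 0 := by
      intro h
      rw [h] at hzim
      simp at hzim
    have hzexp : Complex.exp (Complex.arg z * Complex.I) = z := by
      have := Complex.norm_mul_exp_arg_mul_I z
      rwa [hz1, Complex.ofReal_one, one_mul] at this
    have harg0 : 0 < Complex.arg z := by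
      rcases (Complex.arg_nonneg_iff.2 hz.2).lt_or_eq with h | h
      · exact h
      · exfalso
        rw [← hzexp, ← h] at hzim
        simp at hzim
    have hargpi : Complex.arg z < Real.pi := by
      rcases (Complex.arg_le_pi z).lt_or_eq with h | h
      · exact h
      · exfalso
        rw [← hzexp, h] at hzim
        simp at hzim
    have hza : Complex.arg z ∈ Icc (0 : ℝ) Real.pi := ⟨harg0.le, hargpi.le⟩
    have h0a : (0 : ℝ) ∈ Icc (0 : ℝ) Real.pi := ⟨le_rfl, Real.pi_pos.le⟩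
    have hpa : Real.pi ∈ Icc (0 : ℝ) Real.pi := ⟨Real.pi_pos.le, le_rfl⟩
    have hval : σ (Φ (Complex.exp (Complex.arg z * Complex.I), (0 : ℝ))) = σ (F z) := by
      rw [hzexp, hF z hz]
    have hmm := hcont3.strictMonoOn_of_injOn_Icc' Real.pi_pos.le hinj
    have hzE : F z ∈ T'.edge i j := he z hz hz1
    rcases hmm with hmm | hmm
    · have a1 := hmm h0a hza harg0
      have a2 := hmm hza hpa hargpi
      simp only at a1 a2
      rw [hval] at a1 a2
      rcases σA (F z) hzE hA with h | h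
      · exact absurd (h _ (hmap2 h0a)) (not_le.2 a1)
      · exact absurd (h _ (hmap2 hpa)) (not_le.2 a2)
    · have a1 := hmm h0a hza harg0
      have a2 := hmm hza hpa hargpi
      simp only at a1 a2
      rw [hval] at a1 a2
      rcases σA (F z) hzE hA with h | h
      · exact absurd (h _ (hmap2 hpa)) (not_le.2 a2)
      · exact absurd (h _ (hmap2 h0a)) (not_le.2 a1)

end TR2

theorem t_TR2 : Stmt_TR2 := by
  intro Y Y' _ _ T T' A A' f g M H' hH hd
  have h0 : (0 : ℝ) ∈ Icc (-1 : ℝ) 1 := ⟨by norm_num, by norm_num⟩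
  constructor
  · rintro F ⟨⟨Φ, hc, hi, hp, hF⟩, hext⟩
    have hA : ∀ z ∈ Disk, ∀ s ∈ Icc (-1 : ℝ) 1, Φ (z, s) ∉ A' := by
      intro z hz s hs h
      exact (hp z hz s hs).2.1 (M.skb' (M.subs' h))
    have hmaps : MapsTo Φ (Disk ×ˢ Icc (-1) 1) (T'.body \ A') := fun p h =>
      ⟨(hp p.1 h.1 p.2 h.2).1, hA p.1 h.1 p.2 h.2⟩
    have hFb : ∀ z ∈ Disk, F z ∈ T'.body ∧ F z ∉ A' := by
      intro z hz
      rw [← hF z hz]
      exact ⟨(hp z hz 0 h0).1, hA z hz 0 h0⟩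
    refine ⟨⟨⟨fun p => g (Φ p), M.contg.comp hc hmaps, ?_, ?_, ?_⟩, ?_⟩, hFb⟩
    · intro p hp1 q hq1 hpq
      apply hi hp1 hq1
      rw [← (M.maps' _ (hmaps hp1).1 (hmaps hp1).2).2.2,
        ← (M.maps' _ (hmaps hq1).1 (hmaps hq1).2).2.2]
      exact congrArg f hpq
    · intro z hz s hs
      have h1 := hp z hz s hs
      have h2 := M.maps' _ h1.1 (hA z hz s hs)
      refine ⟨h2.1, ?_, ?_⟩
      · intro h3
        have h4 := (M.bd _ h2.1 h2.2.1).1 h3
        rw [h2.2.2] at h4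
        exact h1.2.1 h4
      · rw [← h1.2.2]
        exact TR2.image_iff M hH hd h1.1 (hA z hz s hs)
    · intro z hz
      simp only
      rw [hF z hz]
    · rintro ⟨k, kc, kH, kF⟩
      apply hext
      have hk : ∀ z ∈ Disk, k z ∈ T.body ∧ k z ∉ A ∧ f (k z) ∈ H' := by
        intro z hz
        obtain ⟨h, hh, e⟩ := kH z hz
        have h1 := M.maps' h (hH hh) (fun ha => disjoint_left.1 hd hh ha)
        rw [← e]
        refine ⟨h1.1, h1.2.1, ?_⟩
        rw [h1.2.2]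
        exact hh
      refine ⟨fun z => f (k z), M.contf.comp kc (fun z hz => ⟨(hk z hz).1, (hk z hz).2.1⟩),
        fun z hz => (hk z hz).2.2, ?_⟩
      intro z hz1
      have hz : z ∈ Disk := hz1.le
      simp only
      rw [kF z hz1]
      exact (M.maps' _ (hFb z hz).1 (hFb z hz).2).2.2
  · rintro F ⟨⟨Φ, hc, hi, hp, hF⟩, i, j, he⟩
    have hA : ∀ z ∈ HDisk, ∀ s ∈ Icc (-1 : ℝ) 1, Φ (z, s) ∉ A' :=
      TR2.edge_avoid M hd hc hi hp hF he
    have hmaps : MapsTo Φ (HDisk ×ˢ Icc (-1) 1) (T'.body \ A') := fun p h =>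
      ⟨(hp p.1 h.1 p.2 h.2).1, hA p.1 h.1 p.2 h.2⟩
    have hFb : ∀ z ∈ HDisk, F z ∈ T'.body ∧ F z ∉ A' := by
      intro z hz
      rw [← hF z hz]
      exact ⟨(hp z hz 0 h0).1, hA z hz 0 h0⟩
    refine ⟨⟨⟨fun p => g (Φ p), M.contg.comp hc hmaps, ?_, ?_, ?_⟩, i, j, ?_⟩, hFb⟩
    · intro p hp1 q hq1 hpq
      apply hi hp1 hq1
      rw [← (M.maps' _ (hmaps hp1).1 (hmaps hp1).2).2.2,
        ← (M.maps' _ (hmaps hq1).1 (hmaps hq1).2).2.2]
      exact congrArg f hpq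
    · intro z hz s hs
      have h1 := hp z hz s hs
      have h2 := M.maps' _ h1.1 (hA z hz s hs)
      refine ⟨h2.1, ?_, ?_, ?_⟩
      · rw [← h1.2.1, M.bd _ h2.1 h2.2.1, h2.2.2]
      · rw [← h1.2.2.1]
        exact TR2.image_iff M hH hd h1.1 (hA z hz s hs)
      · rw [← h1.2.2.2, TR2.skel_iff M h2.1 h2.2.1, h2.2.2]
    · intro z hz
      simp only
      rw [hF z hz]
    · intro z hz hz1
      have h2 := M.maps' _ (hFb z hz).1 (hFb z hz).2
      rw [M.edge _ h2.1 h2.2.1, h2.2.2]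
      exact he z hz hz1

end Pool.Agent.LIX.TR
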