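import Pool.Agent.LIX.StmtsTR

set_option autoImplicit false

namespace Pool.Agent.LIX.TR

open Set Metric

theorem t_TR4 : Stmt_TR4 := by
  intro Y Y' _ _ _ _ T T' A A' f g hM H' hb hd hc
  have hA : ∀ y ∈ H', y ∉ A' := fun y hy h => Set.disjoint_left.1 hd hy h
  have hgy : ∀ y ∈ H', g y ∈ T.body ∧ g y ∉ A ∧ f (g y) = y :=
    fun y hy => hM.maps' y (hb hy) (hA y hy)
  have hinj : ∀ y ∈ H', ∀ z ∈ H', g y = g z → y = z := by
    intro y hy z hz h
    rw [← (hgy y hy).2.2, ← (hgy z hz).2.2, h]
  have hcg : ContinuousOn g H' := hM.contg.mono fun y hy => ⟨hb hy, hA y hy⟩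
  have hcl : IsClosed H' := hc.isClosed
  refine ⟨?_, ?_, ?_⟩
  · rintro n ⟨m, c, d, h1, h2, h3, h4, h5⟩
    have hsub : ∀ i, c i ⊆ H' := by
      intro i
      rw [← h1]
      exact subset_iUnion c i
    refine ⟨m, fun i => g '' c i, d, ?_, ?_, ?_, ?_, h5⟩
    · rw [← h1, image_iUnion]
    · intro i j hij
      rw [Set.disjoint_left]
      rintro x ⟨y, hy, rfl⟩ ⟨z, hz, hzy⟩
      have h6 : z = y := hinj z (hsub j hz) y (hsub i hy) hzy
      rw [h6] at hz
      exact Set.disjoint_left.1 (h2 i j hij) hy hz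
    · intro i
      obtain ⟨e⟩ := h3 i
      have cf : ContinuousOn f (g '' c i) := hM.contf.mono (by
        rintro x ⟨y, hy, rfl⟩
        exact ⟨(hgy y (hsub i hy)).1, (hgy y (hsub i hy)).2.1⟩)
      have cg : ContinuousOn g (c i) := hcg.mono (hsub i)
      have hfc : ∀ x : ↥(g '' c i), f x.1 ∈ c i := by
        rintro ⟨x, y, hy, h⟩
        show f x ∈ c i
        rw [← h, (hgy y (hsub i hy)).2.2]
        exact hy
      let φ : ↥(g '' c i) ≃ₜ ↥(c i) :=
        { toFun := fun x => ⟨f x.1, hfc x⟩
          invFun := fun y => ⟨g y.1, mem_image_of_mem g y.2⟩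
          left_inv := by
            rintro ⟨x, y, hy, rfl⟩
            apply Subtype.ext
            show g (f (g y)) = g y
            rw [(hgy y (hsub i hy)).2.2]
          right_inv := by
            rintro ⟨y, hy⟩
            apply Subtype.ext
            exact (hgy y (hsub i hy)).2.2
          continuous_toFun :=
            Continuous.subtype_mk (continuousOn_iff_continuous_domRestrict.1 cf) hfc
          continuous_invFun :=
            Continuous.subtype_mk (continuousOn_iff_continuous_domRestrict.1 cg)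
              (fun y => mem_image_of_mem g y.2) }
      exact ⟨φ.trans e⟩
    · intro i x hx
      have hci : closure (c i) ⊆ H' := closure_minimal (hsub i) hcl
      have hk : IsCompact (closure (c i)) := hc.of_isClosed_subset isClosed_closure hci
      have hk2 : IsClosed (g '' closure (c i)) := (hk.image_of_continuousOn (hcg.mono hci)).isClosed
      have h6 : closure (g '' c i) ⊆ g '' closure (c i) :=
        closure_minimal (image_mono subset_closure) hk2
      obtain ⟨y, hy, rfl⟩ := h6 hx.1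
      have h7 : y ∉ c i := fun h => hx.2 (mem_image_of_mem g h)
      have h8 := h4 i ⟨hy, h7⟩
      simp only [mem_iUnion] at h8 ⊢
      obtain ⟨j, hj, hyj⟩ := h8
      exact ⟨j, hj, mem_image_of_mem g hyj⟩
  · have h1 : g '' H' ∩ T.skel = g '' (H' ∩ T'.skel) := by
      ext x
      constructor
      · rintro ⟨⟨y, hy, rfl⟩, hx⟩
        refine ⟨y, ⟨hy, ?_⟩, rfl⟩
        simp only [Cells.skel, mem_iUnion] at hx ⊢
        obtain ⟨i, j, hij⟩ := hx
        refine ⟨i, j, ?_⟩
        have h2 := (hM.edge (g y) (hgy y hy).1 (hgy y hy).2.1 i j).1 hij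
        rwa [(hgy y hy).2.2] at h2
      · rintro ⟨y, ⟨hy, hs⟩, rfl⟩
        refine ⟨mem_image_of_mem g hy, ?_⟩
        simp only [Cells.skel, mem_iUnion] at hs ⊢
        obtain ⟨i, j, hij⟩ := hs
        refine ⟨i, j, (hM.edge (g y) (hgy y hy).1 (hgy y hy).2.1 i j).2 ?_⟩
        rwa [(hgy y hy).2.2]
    show (g '' H' ∩ T.skel).ncard = (H' ∩ T'.skel).ncard
    rw [h1]
    exact InjOn.ncard_image fun y hy z hz h => hinj y hy.1 z hz.1 h
  · intro h
    exact h.image g hcg

end Pool.Agent.LIX.TR
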