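import Pool.Agent.LIX.TR_TRS
import Pool.Agent.LIX.TR_TR1
import Pool.Agent.LIX.TR_TR2
import Pool.Agent.LIX.TR_TR4
import Pool.Agent.LIX.P_MOD
import Pool.Agent.LIX.P_GF
import Pool.Agent.LIX.P_SEC
import Pool.Agent.LIX.P_SQC
import Pool.Agent.LIX.P_SURF
import Pool.Agent.LIX.P_CON
import Pool.Agent.LIX.P_CHI
import Pool.Agent.LIX.P_NRT
import Pool.Agent.LIX.P_DCX
import Pool.Agent.LIX.P_DEX
import Pool.Agent.LIX.P_IOT
import Pool.Agent.LIX.P_RET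
import Pool.Agent.LIX.P_PLN
import Pool.Agent.LIX.P_NAX
import Pool.Agent.LIX.P_SID
import Pool.Agent.LIX.P_ISO
import Pool.Agent.LIX.P_ADJ
import Pool.Agent.LIX.P_FOU
import Pool.Agent.LIX.P_K3X
import Pool.Agent.LIX.P_PFI
import Pool.Agent.LIX.K_K34
import Pool.Agent.LIX.K_LAB
import Pool.Agent.LIX.K_OCT
import Pool.Agent.LIX.K_EXT
import Pool.Agent.LIX.K_PI
import Pool.Agent.LIX.K_CON
import Pool.Agent.LIX.K_K6
import Pool.Agent.LIX.TBBasic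
import Pool.Agent.LIX.TB_J1F
import Pool.Agent.LIX.TB_PUSH
import Pool.Agent.LIX.TB_PU1
import Pool.Agent.LIX.TB_RAD

/-!
# LIX, block P: assembly
-/

set_option autoImplicit false

namespace Pool.Agent.LIX.PP

open Set Metric Pool.Agent.LIX.TR

/-- the pair of pants in the tetrahedron has a well-defined local index at most `2` -/
theorem pfi : Stmt_PFI := by
  have hK34 : Pool.Agent.LIX.K.S_K34 :=
    Pool.Agent.LIX.K.t_K34 Pool.Agent.LIX.K.t_LAB Pool.Agent.LIX.K.t_OCT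
      (Pool.Agent.LIX.K.t_PI Pool.Agent.LIX.K.t_EXT) (Pool.Agent.LIX.K.t_CON Pool.Agent.LIX.K.t_EXT)
  have hSEC := t_SEC t_GF
  have hCON := t_CON hSEC t_GF
  have hIOT := t_IOT t_GF
  have hSID := t_SID t_GF
  have hPLN := t_PLN Pool.Agent.LIX.t_EXT Pool.Agent.LIX.t_IMG Pool.Agent.LIX.t_BOR
    (Pool.Agent.LIX.t_J1F (Pool.Agent.LIX.t_PUSH Pool.Agent.LIX.t_PU1) Pool.Agent.LIX.t_RAD) t_RET
  have hNAX := t_NAX t_GF hSEC hPLN
  exact t_PFI (t_K3X hK34) Pool.Agent.LIX.K.t_K6 t_TR1 t_TR4 t_MOD (t_SURF t_GF hSEC t_SQC) hCON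
    (t_CHI hSEC)
    (t_ISO t_TRS t_TR2 t_MOD t_GF hSID hCON)
    (t_ADJ t_TRS t_TR2 t_MOD t_GF hSID hIOT hNAX hCON)
    (t_FOU t_TR2 t_MOD t_GF (t_DCX t_GF hSEC t_NRT) (t_DEX t_GF) hIOT hCON)

end Pool.Agent.LIX.PP
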