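import Pool.Agent.LIX.StmtsS

/-!
# LIX, block S, module ASM: `π₀ = π₁ = 0`
-/

set_option autoImplicit false

namespace Pool.Agent.LIX.S

open Set Metric Complex

namespace ASM

theorem cpt2_symm : ∀ I I' : Ct, cpt2 (some I) (some I') = cpt2 (some I') (some I) := by
  decide

theorem cptk_some_none (I : Ct) : cptk (some I) none = true := rfl

theorem cpt2_none (I : Ct) : cpt2 none (some I) = true := rfl

theorem cpt2_some_none (I : Ct) : cpt2 (some I) none = true := by
  obtain ⟨b, j, d⟩ := I
  rfl

end ASM

open ASM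

open Classical in
theorem t_ASM : M_ASM := by
  intro hK5 hKND hKIN hL2 hDEC hSLD Y _ _ T H V c hc hP
  obtain ⟨hD1, hD2, hD3, hD4⟩ := hDEC
  obtain ⟨hN1, hN2⟩ := hKND Y T H V c hc
  obtain ⟨hI1, hI2, -⟩ := hKIN Y T H V c hc
  obtain ⟨vt, hvt⟩ := hL2 Y T H V c hc hP
  -- kinds
  have hex : ∀ D : CE T H, ∃ k, HasKd T c D.1 k := by
    rintro ⟨D, hD⟩
    rcases hD with ⟨f, hf, rfl⟩ | ⟨f, hf, rfl⟩
    · exact ⟨none, (hN1 f hf).1⟩
    · obtain ⟨q, hq, -⟩ := hN2 f hf
      exact ⟨some q, hq⟩
  have hinv : ∀ D D' : CE T H, cls D = cls D' → ∀ k, (HasKd T c D.1 k ↔ HasKd T c D'.1 k) := by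
    intro D D' h
    have h1 := Quot.eqvGen_exact h
    clear h
    induction h1 with
    | rel x y hxy =>
      intro k
      constructor
      · exact hI2 _ _ _ hxy
      · intro hk
        obtain ⟨k₀, hk₀⟩ := hex x
        have h2 := hI2 _ _ _ hxy hk₀
        rw [hI1 _ _ _ y.2 hk h2]
        exact hk₀
    | refl x => exact fun k => Iff.rfl
    | symm x y _ ih => exact fun k => (ih k).symm
    | trans x y z _ _ ih1 ih2 => exact fun k => (ih1 k).trans (ih2 k)
  have hrep : ∀ v : Vtx T H, ∃ D : CE T H, cls D = v := fun v => Quot.exists_rep v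
  choose rep hrep' using hrep
  choose kd hkd using hex
  set kf : Vtx T H → Option (Bool × Fin 3) := fun v => kd (rep v) with hkf
  have hkf1 : ∀ D : CE T H, HasKd T c D.1 (kf (cls D)) := by
    intro D
    exact (hinv _ _ (hrep' (cls D)) _).1 (hkd (rep (cls D)))
  have hkf2 : ∀ (D : CE T H) (k : Option (Bool × Fin 3)), HasKd T c D.1 k → kf (cls D) = k := by
    intro D k hk
    exact hI1 _ _ _ D.2 (hkf1 D) hk
  -- simultaneous representatives
  have hL : ∀ (s : Finset (Vtx T H)) (D : Vtx T H → CE T H) (Js : Finset (Option Ct)),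
      (∀ v ∈ s, cls (D v) = v) → (∀ v ∈ s, ∀ w ∈ s, v ≠ w → (D v).1 ∩ (D w).1 ⊆ T.skel) →
      (∀ J ∈ Js, ∀ v ∈ s, cptk J (kf v) = true) →
      (∀ J ∈ Js, ∀ J' ∈ Js, J ≠ J' → cpt2 J J' = true) →
      (s ∪ Js.image vt).Nonempty → s ∪ Js.image vt ∈ (diskCpx T H).faces := by
    intro s D Js h1 h2 h3 h4 h5
    refine hvt s D kf Js (fun v hv => ⟨h1 v hv, ?_⟩) h2 h3 h4 h5
    have := hkf1 (D v)
    rwa [h1 v hv] at this
  have hL0 : ∀ Js : Finset (Option Ct), (∀ J ∈ Js, ∀ J' ∈ Js, J ≠ J' → cpt2 J J' = true) →
      Js.Nonempty → Js.image vt ∈ (diskCpx T H).faces := by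
    intro Js h1 h2
    have := hL ∅ rep Js (by simp) (by simp) (by simp) h1 (by simpa using h2)
    simpa using this
  have hLw : ∀ (w : Vtx T H) (Js : Finset (Option Ct)), (∀ J ∈ Js, cptk J (kf w) = true) →
      (∀ J ∈ Js, ∀ J' ∈ Js, J ≠ J' → cpt2 J J' = true) →
      {w} ∪ Js.image vt ∈ (diskCpx T H).faces := by
    intro w Js h1 h2
    refine hL {w} rep Js (fun v _ => hrep' v) ?_ ?_ h2 (by simp)
    · intro v hv v' hv' h
      rw [Finset.mem_singleton] at hv hv'
      exact absurd (hv.trans hv'.symm) h
    · intro J hJ v hv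
      rw [Finset.mem_singleton] at hv
      rw [hv]
      exact h1 J hJ
  set C : Vtx T H → Set (Vtx T H) :=
    fun v => {J | ∃ I : Ct, J = vt (some I) ∧ cptk (some I) (kf v) = true} with hC
  have hpair : ∀ I I' : Ct, cpt2 (some I) (some I') = true →
      ∀ J ∈ ({some I, some I'} : Finset (Option Ct)), ∀ J' ∈ ({some I, some I'} : Finset (Option Ct)),
        J ≠ J' → cpt2 J J' = true := by
    intro I I' h J hJ J' hJ' hne
    simp only [Finset.mem_insert, Finset.mem_singleton] at hJ hJ'
    rcases hJ with rfl | rfl <;> rcases hJ' with rfl | rfl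
    · exact absurd rfl hne
    · exact h
    · rw [cpt2_symm]
      exact h
    · exact absurd rfl hne
  have htrip : ∀ I I' : Ct, cpt2 (some I) (some I') = true →
      ∀ J ∈ ({some I, some I', none} : Finset (Option Ct)),
        ∀ J' ∈ ({some I, some I', none} : Finset (Option Ct)), J ≠ J' → cpt2 J J' = true := by
    intro I I' h J hJ J' hJ' hne
    simp only [Finset.mem_insert, Finset.mem_singleton] at hJ hJ'
    rcases hJ with rfl | rfl | rfl <;> rcases hJ' with rfl | rfl | rfl
    · exact absurd rfl hne
    · exact h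
    · exact cpt2_some_none _
    · rw [cpt2_symm]
      exact h
    · exact absurd rfl hne
    · exact cpt2_some_none _
    · exact cpt2_none _
    · exact cpt2_none _
    · exact absurd rfl hne
  have hstep : ∀ (w : Vtx T H) (I I' : Ct), cptk (some I) (kf w) = true →
      cptk (some I') (kf w) = true → cpt2 (some I) (some I') = true →
      vt (some I) ∈ C w ∧ vt (some I') ∈ C w ∧ {w, vt (some I), vt (some I')} ∈ (diskCpx T H).faces ∧
        {vt (some I), vt (some I'), vt none} ∈ (diskCpx T H).faces := by
    intro w I I' h1 h2 h3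
    refine ⟨⟨I, rfl, h1⟩, ⟨I', rfl, h2⟩, ?_, ?_⟩
    · have h4 := hLw w {some I, some I'} (by
        intro J hJ
        simp only [Finset.mem_insert, Finset.mem_singleton] at hJ
        rcases hJ with rfl | rfl
        · exact h1
        · exact h2) (hpair I I' h3)
      have h5 : ({w} : Finset (Vtx T H)) ∪ ({some I, some I'} : Finset (Option Ct)).image vt =
          {w, vt (some I), vt (some I')} := by
        ext x
        simp only [Finset.mem_union, Finset.mem_singleton, Finset.mem_image, Finset.mem_insert,
          exists_eq_or_imp, exists_eq_left]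
        tauto
      rwa [h5] at h4
    · have h4 := hL0 {some I, some I', none} (htrip I I' h3) (by simp)
      have h5 : ({some I, some I', none} : Finset (Option Ct)).image vt =
          {vt (some I), vt (some I'), vt none} := by
        ext x
        simp
      rwa [h5] at h4
  -- good pairs
  have hgood : ∀ (u v : Vtx T H) (D : Vtx T H → CE T H) (I : Ct), cls (D u) = u → cls (D v) = v →
      (D u).1 ∩ (D v).1 ⊆ T.skel → cptk (some I) (kf u) = true → cptk (some I) (kf v) = true →
      K.Good (diskCpx T H) C u v := by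
    intro u v D I h1 h2 h3 h4 h5
    refine ⟨vt (some I), ⟨I, rfl, h4⟩, ⟨I, rfl, h5⟩, ?_⟩
    have h6 := hL {u, v} D {some I} (by
        intro x hx
        simp only [Finset.mem_insert, Finset.mem_singleton] at hx
        rcases hx with rfl | rfl
        · exact h1
        · exact h2) (by
        intro x hx y hy hxy
        simp only [Finset.mem_insert, Finset.mem_singleton] at hx hy
        rcases hx with rfl | rfl <;> rcases hy with rfl | rfl
        · exact absurd rfl hxy
        · exact h3
        · rw [inter_comm]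
          exact h3
        · exact absurd rfl hxy) (by
        intro J hJ x hx
        simp only [Finset.mem_insert, Finset.mem_singleton] at hJ hx
        subst hJ
        rcases hx with rfl | rfl
        · exact h4
        · exact h5) (by
        intro J hJ J' hJ' hne
        simp only [Finset.mem_singleton] at hJ hJ'
        exact absurd (hJ.trans hJ'.symm) hne) (by simp)
    have h7 : ({u, v} : Finset (Vtx T H)) ∪ ({some I} : Finset (Option Ct)).image vt =
        {u, v, vt (some I)} := by
      ext x
      simp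
    rwa [h7] at h6
  have hgsymm : ∀ u v : Vtx T H, K.Good (diskCpx T H) C u v → K.Good (diskCpx T H) C v u := by
    rintro u v ⟨J, h1, h2, h3⟩
    refine ⟨J, h2, h1, ?_⟩
    rwa [Finset.insert_comm] at h3
  have hmid : ∀ (u v : Vtx T H) (D : Vtx T H → CE T H), cls (D u) = u → cls (D v) = v →
      (D u).1 ∩ (D v).1 ⊆ T.skel → kf u = some (true, 1) → kf v = some (false, 1) →
      ∃ w, {u, w, v} ∈ (diskCpx T H).faces ∧ K.Good (diskCpx T H) C u w ∧
        K.Good (diskCpx T H) C w v := by
    intro u v D h1 h2 h3 h4 h5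
    have k1 : HasKd T c (D u).1 (some (true, 1)) := by
      have := hkf1 (D u)
      rwa [h1, h4] at this
    have k2 : HasKd T c (D v).1 (some (false, 1)) := by
      have := hkf1 (D v)
      rwa [h2, h5] at this
    obtain ⟨D', j, hj, hD', hd1, hd2⟩ := hSLD Y T H V c hc (D u) (D v) k1 k2 h3
    have hw : kf (cls D') = some (true, j) := hkf2 D' _ hD'
    have hwu : cls D' ≠ u := by
      intro h
      rw [h, h4, Option.some.injEq, Prod.mk.injEq] at hw
      exact hj hw.2.symm
    have hwv : cls D' ≠ v := by
      intro h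
      rw [h, h5, Option.some.injEq, Prod.mk.injEq] at hw
      exact absurd hw.1 (by decide)
    have huv : u ≠ v := by
      rintro rfl
      rw [h4, Option.some.injEq, Prod.mk.injEq] at h5
      exact absurd h5.1 (by decide)
    set E : Vtx T H → CE T H := fun x => if x = cls D' then D' else D x with hE
    have e1 : E (cls D') = D' := by simp [hE]
    have e2 : E u = D u := by simp [hE, hwu.symm]
    have e3 : E v = D v := by simp [hE, hwv.symm]
    obtain ⟨⟨I1, c1, c2⟩, I2, c3, c4⟩ := hD4 j hj
    refine ⟨cls D', ⟨by simp, E, ?_, ?_⟩, ?_, ?_⟩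
    · intro x hx
      simp only [Finset.mem_insert, Finset.mem_singleton] at hx
      rcases hx with rfl | rfl | rfl
      · rw [e2, h1]
      · rw [e1]
      · rw [e3, h2]
    · have d1 : (E (cls D')).1 ∩ (E u).1 ⊆ T.skel := by
        rw [e1, e2]
        exact hd1
      have d2 : (E (cls D')).1 ∩ (E v).1 ⊆ T.skel := by
        rw [e1, e3]
        exact hd2
      have d3 : (E u).1 ∩ (E v).1 ⊆ T.skel := by
        rw [e2, e3]
        exact h3
      intro x hx y hy hxy
      simp only [Finset.mem_insert, Finset.mem_singleton] at hx hy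
      rcases hx with hx | hx | hx <;> rcases hy with hy | hy | hy
      · exact absurd (hx.trans hy.symm) hxy
      · rw [hx, hy, inter_comm]
        exact d1
      · rw [hx, hy]
        exact d3
      · rw [hx, hy]
        exact d1
      · exact absurd (hx.trans hy.symm) hxy
      · rw [hx, hy]
        exact d2
      · rw [hx, hy, inter_comm]
        exact d3
      · rw [hx, hy, inter_comm]
        exact d2
      · exact absurd (hx.trans hy.symm) hxy
    · refine hgood u (cls D') E I1 (by rw [e2, h1]) (by rw [e1]) ?_ (by rw [h4]; exact c2)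
        (by rw [hw]; exact c1)
      rw [e1, e2, inter_comm]
      exact hd1
    · refine hgood (cls D') v E I2 (by rw [e1]) (by rw [e3, h2]) ?_ (by rw [hw]; exact c3)
        (by rw [h5]; exact c4)
      rw [e1, e3]
      exact hd2
  refine hK5 (Vtx T H) (diskCpx T H) (vt none) C ?_ ?_ ?_ ?_
  · intro w
    obtain ⟨I, hI⟩ := hD1 (kf w)
    exact ⟨_, I, rfl, hI⟩
  · rintro w J ⟨I, rfl, hI⟩
    constructor
    · have h4 := hLw w {some I} (by
        intro J hJ
        rw [Finset.mem_singleton] at hJ
        rw [hJ]
        exact hI) (by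
        intro J hJ J' hJ' hne
        simp only [Finset.mem_singleton] at hJ hJ'
        exact absurd (hJ.trans hJ'.symm) hne)
      have h5 : ({w} : Finset (Vtx T H)) ∪ ({some I} : Finset (Option Ct)).image vt =
          {w, vt (some I)} := by
        ext x
        simp
      rwa [h5] at h4
    · have h4 := hL0 {some I, none} (by
        intro J hJ J' hJ' hne
        simp only [Finset.mem_insert, Finset.mem_singleton] at hJ hJ'
        rcases hJ with rfl | rfl <;> rcases hJ' with rfl | rfl
        · exact absurd rfl hne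
        · exact cpt2_some_none _
        · exact cpt2_none _
        · exact absurd rfl hne) (by simp)
      have h5 : ({some I, none} : Finset (Option Ct)).image vt = {vt (some I), vt none} := by
        ext x
        simp
      rwa [h5] at h4
  · rintro w _ ⟨I, rfl, hI⟩ _ ⟨I', rfl, hI'⟩
    obtain ⟨J1, J2, a1, a2, a3, a4, a5⟩ := hD2 (kf w) I I' hI hI'
    refine Relation.ReflTransGen.head (hstep w I J1 hI a1 a3) ?_
    refine Relation.ReflTransGen.head (hstep w J1 J2 a1 a2 a4) ?_
    exact Relation.ReflTransGen.single (hstep w J2 I' a2 hI' a5)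
  · rintro u v ⟨-, D, hD, hDD⟩
    have g1 : cls (D u) = u := hD u (by simp)
    have g2 : cls (D v) = v := hD v (by simp)
    by_cases huv : u = v
    · subst huv
      obtain ⟨I, hI⟩ := hD1 (kf u)
      left
      refine ⟨vt (some I), ⟨I, rfl, hI⟩, ⟨I, rfl, hI⟩, ?_⟩
      have h4 := hLw u {some I} (by
        intro J hJ
        rw [Finset.mem_singleton] at hJ
        rw [hJ]
        exact hI) (by
        intro J hJ J' hJ' hne
        simp only [Finset.mem_singleton] at hJ hJ'
        exact absurd (hJ.trans hJ'.symm) hne)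
      have h5 : ({u} : Finset (Vtx T H)) ∪ ({some I} : Finset (Option Ct)).image vt =
          {u, u, vt (some I)} := by
        ext x
        simp
      rwa [h5] at h4
    · have g3 : (D u).1 ∩ (D v).1 ⊆ T.skel := hDD u (by simp) v (by simp) huv
      rcases hD3 (kf u) (kf v) with ⟨I, hI1, hI2⟩ | ⟨h1, h2⟩ | ⟨h1, h2⟩
      · exact Or.inl (hgood u v D I g1 g2 g3 hI1 hI2)
      · exact Or.inr (hmid u v D g1 g2 g3 h1 h2)
      · right
        obtain ⟨w, w1, w2, w3⟩ := hmid v u D g2 g1 (by rw [inter_comm]; exact g3) h2 h1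
        refine ⟨w, ?_, hgsymm _ _ w3, hgsymm _ _ w2⟩
        have h5 : ({u, w, v} : Finset (Vtx T H)) = {v, w, u} := by
          ext x
          simp only [Finset.mem_insert, Finset.mem_singleton]
          tauto
        rwa [h5]

end Pool.Agent.LIX.S
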