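import Pool.Agent.LIX.StmtsS

/-!
# LIX, block S, module CHE: every chord lies in an edge
-/

set_option autoImplicit false

namespace Pool.Agent.LIX.S

open Set Metric Complex

noncomputable section

namespace CHEx

theorem sub {b k x y : ℝ} (hx : 0 ≤ x) (hy : y ≤ 12) : hpt b k '' Icc x y ⊆ hlx b k := by
  rintro _ ⟨u, hu, rfl⟩
  exact ⟨u, ⟨hx.trans hu.1, hu.2.trans hy⟩, rfl⟩

theorem main (h : S_CHH) (b : Bool) (j : Fin 3) : ∃ i i', ch b j ⊆ Edg i i' := by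
  obtain ⟨h1, h2, h3, h4, h5, h6⟩ := h
  cases b <;> fin_cases j
  · refine ⟨0, 2, ?_⟩
    change ch false 0 ⊆ hlx (1 / 2) (1 / 4)
    rw [h4]
    exact sub (by norm_num) (by norm_num)
  · refine ⟨0, 1, ?_⟩
    change ch false 1 ⊆ hlx (1 / 2) (1 / 6)
    rw [h5]
    exact sub (by norm_num) (by norm_num)
  · refine ⟨1, 3, ?_⟩
    change ch false 2 ⊆ hlx (-1 / 2) (1 / 4)
    rw [h6]
    exact sub (by norm_num) (by norm_num)
  · refine ⟨1, 3, ?_⟩
    change ch true 0 ⊆ hlx (-1 / 2) (1 / 4)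
    rw [h1]
    exact sub (by norm_num) (by norm_num)
  · refine ⟨2, 3, ?_⟩
    change ch true 1 ⊆ hlx (-1 / 2) (1 / 6)
    rw [h2]
    exact sub (by norm_num) (by norm_num)
  · refine ⟨0, 2, ?_⟩
    change ch true 2 ⊆ hlx (1 / 2) (1 / 4)
    rw [h3]
    exact sub (by norm_num) (by norm_num)

end CHEx

theorem t_CHE : M_CHE := by
  intro h
  refine ⟨CHEx.main h, fun b j => ?_⟩
  obtain ⟨i, i', hi⟩ := CHEx.main h b j
  intro v hv
  exact mem_iUnion.2 ⟨i, mem_iUnion.2 ⟨i', hi hv⟩⟩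

end

end Pool.Agent.LIX.S
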