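import Pool.Agent.LIX.StmtsS

/-!
# LIX, block S, module CHH: the chords are pieces of the helices
-/

set_option autoImplicit false

namespace Pool.Agent.LIX.S

open Set Metric Complex

noncomputable section

namespace CHHx

theorem sg_mul_sg (b : Bool) : sg b * sg b = 1 := by
  cases b <;> norm_num [sg]

theorem abs_sg (b : Bool) : |sg b| = 1 := by
  cases b <;> norm_num [sg]

/-- general case -/
theorem chord (hN : S_NML) (hL : S_LON) (b : Bool) (j : Fin 3) (β κ u₁ L : ℝ) (hLp : 0 < L)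
    (hh : ∀ f, hj j f = u₁ + L * f)
    (hexp : ∀ f : ℝ, exp ((Real.pi * (β + κ * (u₁ + L * f)) : ℝ) * I) =
      (sg b : ℂ) * exp ((Real.pi * f : ℝ) * I)) :
    ch b j = hpt β κ '' Icc u₁ (u₁ + L) := by
  obtain ⟨_, hN1, hN2, hN3, _, _⟩ := hN
  have hnorm : ∀ θ : ℝ, ‖exp ((θ : ℂ) * I)‖ = 1 := Complex.norm_exp_ofReal_mul_I
  apply Set.Subset.antisymm
  · rintro v ⟨⟨hS, hside⟩, hdl⟩
    have hv2 : v.2 = ‖v.1‖ * Mf (hj j (lon b v)) := by
      rw [dl] at hdl
      linarith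
    have hv1 : v.1 ≠ 0 := by
      intro h0
      rw [h0, norm_zero, zero_mul] at hv2
      have hS' : ‖v.1‖ ^ 2 + v.2 ^ 2 = 1 := hS
      rw [h0, hv2, norm_zero] at hS'
      norm_num at hS'
    obtain ⟨hf, hpol, _, _⟩ := (hL b).2 v hv1 hside
    set f := lon b v with hfdef
    refine ⟨u₁ + L * f, ⟨?_, ?_⟩, ?_⟩
    · nlinarith [hf.1]
    · nlinarith [hf.2]
    · have hr : 0 < ‖v.1‖ := norm_pos_iff.2 hv1
      rw [hpt, hexp f]
      have h3 := hN3 ((sg b : ℂ) * exp ((Real.pi * f : ℝ) * I), Mf (u₁ + L * f)) ‖v.1‖ hr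
      rw [← h3]
      have h4 : (((‖v.1‖ : ℝ) : ℂ) * ((sg b : ℂ) * exp ((Real.pi * f : ℝ) * I)),
          ‖v.1‖ * Mf (u₁ + L * f)) = v := by
        apply Prod.ext
        · show ((‖v.1‖ : ℝ) : ℂ) * ((sg b : ℂ) * exp ((Real.pi * f : ℝ) * I)) = v.1
          conv_rhs => rw [hpol]
          ring
        · show ‖v.1‖ * Mf (u₁ + L * f) = v.2
          rw [hv2, hh]
      show nml (((‖v.1‖ : ℝ) : ℂ) * ((sg b : ℂ) * exp ((Real.pi * f : ℝ) * I)),
          ‖v.1‖ * Mf (u₁ + L * f)) = v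
      rw [h4]
      exact (hN2 v hS).1
  · rintro _ ⟨u, hu, rfl⟩
    obtain ⟨f, hf⟩ : ∃ f : ℝ, f = (u - u₁) / L := ⟨_, rfl⟩
    have huf : u = u₁ + L * f := by
      rw [hf]
      field_simp
      ring
    have hf0 : 0 ≤ f := by
      rw [hf]
      exact div_nonneg (by linarith [hu.1]) hLp.le
    have hf1 : f ≤ 1 := by
      rw [hf, div_le_one hLp]
      linarith [hu.2]
    rw [huf, hpt, hexp f]
    set w : ℂ := exp ((Real.pi * f : ℝ) * I) with hw
    have hwn : ‖w‖ = 1 := hnorm _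
    set M : ℝ := Mf (u₁ + L * f) with hM
    have hne : ((sg b : ℂ) * w, M) ≠ 0 := by
      intro h0
      have h1 : (sg b : ℂ) * w = 0 := congrArg Prod.fst h0
      have h2 : ‖(sg b : ℂ) * w‖ = 1 := by
        rw [norm_mul, hwn, mul_one, Complex.norm_real, Real.norm_eq_abs, abs_sg]
      rw [h1, norm_zero] at h2
      exact zero_ne_one h2
    obtain ⟨hNp, hSph⟩ := hN1 _ hne
    set N : ℝ := nrm ((sg b : ℂ) * w, M) with hNdef
    have hv1 : (nml ((sg b : ℂ) * w, M)).1 = (sg b : ℂ) * w / (N : ℂ) := rfl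
    have hv2 : (nml ((sg b : ℂ) * w, M)).2 = M / N := rfl
    have hre : (sg b : ℂ) * w / (N : ℂ) = ((sg b / N : ℝ) : ℂ) * w := by
      push_cast
      ring
    have hwim : w.im = Real.sin (Real.pi * f) := by
      rw [hw, Complex.exp_ofReal_mul_I_im]
    have hpf : 0 ≤ Real.pi * f := mul_nonneg Real.pi_pos.le hf0
    have hpf1 : Real.pi * f ≤ Real.pi := by nlinarith [Real.pi_pos]
    have hsin : 0 ≤ Real.sin (Real.pi * f) := Real.sin_nonneg_of_nonneg_of_le_pi hpf hpf1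
    have hn1 : ‖(nml ((sg b : ℂ) * w, M)).1‖ = 1 / N := by
      rw [hv1, hre, norm_mul, hwn, mul_one, Complex.norm_real, Real.norm_eq_abs, abs_div, abs_sg,
        abs_of_pos hNp]
    have hlon : lon b (nml ((sg b : ℂ) * w, M)) = f := by
      rw [lon, hv1, hre]
      have e1 : (sg b : ℂ) * (((sg b / N : ℝ) : ℂ) * w) = ((N⁻¹ : ℝ) : ℂ) * w := by
        have e2 : (sg b : ℂ) * (sg b : ℂ) = 1 := by
          rw [← Complex.ofReal_mul, sg_mul_sg, Complex.ofReal_one]
        push_cast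
        calc (sg b : ℂ) * ((sg b : ℂ) / (N : ℂ) * w) = ((sg b : ℂ) * (sg b : ℂ)) * ((N : ℂ)⁻¹ * w) := by
              ring
          _ = (N : ℂ)⁻¹ * w := by rw [e2, one_mul]
      rw [e1, Complex.arg_real_mul _ (inv_pos.2 hNp), hw, Complex.exp_mul_I,
        Complex.arg_cos_add_sin_mul_I ⟨by linarith [Real.pi_pos], hpf1⟩]
      field_simp
    refine ⟨⟨hSph, ?_⟩, ?_⟩
    · rw [hv1, hre, Complex.im_ofReal_mul, hwim, ← mul_assoc, ← mul_div_assoc, sg_mul_sg, one_div_mul_eq_div]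
      exact div_nonneg hsin hNp.le
    · rw [dl, hn1, hv2, hlon, hh, ← hM]
      ring

end CHHx

open CHHx

theorem t_CHH : M_CHH := by
  intro _ hN hL
  have eT : ∀ a f : ℝ, a = f → exp ((Real.pi * a : ℝ) * I) =
      (sg true : ℂ) * exp ((Real.pi * f : ℝ) * I) := by
    rintro a f rfl
    simp [sg]
  have eT2 : ∀ a f : ℝ, a = f + 2 → exp ((Real.pi * a : ℝ) * I) =
      (sg true : ℂ) * exp ((Real.pi * f : ℝ) * I) := by
    rintro a f rfl
    have e1 : ((Real.pi * (f + 2) : ℝ) : ℂ) * I =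
        ((Real.pi * f : ℝ) : ℂ) * I + 2 * Real.pi * I := by
      push_cast
      ring
    rw [e1, Complex.exp_add, Complex.exp_two_pi_mul_I, mul_one]
    simp [sg]
  have eF : ∀ a f : ℝ, a = f + 1 → exp ((Real.pi * a : ℝ) * I) =
      (sg false : ℂ) * exp ((Real.pi * f : ℝ) * I) := by
    rintro a f rfl
    have e1 : ((Real.pi * (f + 1) : ℝ) : ℂ) * I =
        ((Real.pi * f : ℝ) : ℂ) * I + Real.pi * I := by
      push_cast
      ring
    rw [e1, Complex.exp_add, Complex.exp_pi_mul_I]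
    simp [sg]
  refine ⟨?_, ?_, ?_, ?_, ?_, ?_⟩
  · have := chord hN hL true 0 (-1 / 2) (1 / 4) 2 4 (by norm_num) (fun f => rfl)
      (fun f => eT _ _ (by ring))
    rwa [show (2 : ℝ) + 4 = 6 by norm_num] at this
  · have := chord hN hL true 1 (-1 / 2) (1 / 6) 3 6 (by norm_num) (fun f => rfl)
      (fun f => eT _ _ (by ring))
    rwa [show (3 : ℝ) + 6 = 9 by norm_num] at this
  · have := chord hN hL true 2 (1 / 2) (1 / 4) 6 4 (by norm_num) (fun f => rfl)
      (fun f => eT2 _ _ (by ring))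
    rwa [show (6 : ℝ) + 4 = 10 by norm_num] at this
  · have := chord hN hL false 0 (1 / 2) (1 / 4) 2 4 (by norm_num) (fun f => rfl)
      (fun f => eF _ _ (by ring))
    rwa [show (2 : ℝ) + 4 = 6 by norm_num] at this
  · have := chord hN hL false 1 (1 / 2) (1 / 6) 3 6 (by norm_num) (fun f => rfl)
      (fun f => eF _ _ (by ring))
    rwa [show (3 : ℝ) + 6 = 9 by norm_num] at this
  · have := chord hN hL false 2 (-1 / 2) (1 / 4) 6 4 (by norm_num) (fun f => rfl)
      (fun f => eF _ _ (by ring))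
    rwa [show (6 : ℝ) + 4 = 10 by norm_num] at this

end

end Pool.Agent.LIX.S
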