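import Pool.Agent.LIX.StmtsS

/-!
# LIX, block S, module DLC: the height function `dl`
-/

set_option autoImplicit false

namespace Pool.Agent.LIX.S

open Set Metric Complex

noncomputable section

namespace DLCx

theorem hj_cont (j : Fin 3) : Continuous (hj j) := by
  fin_cases j <;> (unfold hj; simp; fun_prop)

theorem hj_mem (j : Fin 3) (f : ℝ) (hf : f ∈ Icc (0 : ℝ) 1) : hj j f ∈ Icc (0 : ℝ) 12 := by
  obtain ⟨h0, h1⟩ := hf
  fin_cases j <;> (unfold hj; simp; constructor <;> linarith)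

theorem Mf_abs (hM : S_MF) (u : ℝ) (hu : u ∈ Icc (0 : ℝ) 12) : |Mf u| ≤ 2 := by
  obtain ⟨-, h1, h2, -, -, -, -, -, h3, -⟩ := hM
  have a := h1.monotone hu.1
  have b := h1.monotone hu.2
  rw [h2] at a
  rw [h3] at b
  exact abs_le.2 ⟨a, b⟩

theorem term_abs (hM : S_MF) (hL : S_LON) (b : Bool) (j : Fin 3) (v : ℂ × ℝ)
    (hv : 0 ≤ sg b * v.1.im) : |‖v.1‖ * Mf (hj j (lon b v))| ≤ ‖v.1‖ * 2 := by
  by_cases h : v.1 = 0
  · rw [h]; simp
  · rw [abs_mul, abs_norm]
    exact mul_le_mul_of_nonneg_left (Mf_abs hM _ (hj_mem j _ ((hL b).2 v h hv).1))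
      (norm_nonneg _)

theorem dl_zero (b : Bool) (j : Fin 3) (v : ℂ × ℝ) (h : v.1 = 0) : dl b j v = v.2 := by
  unfold dl
  rw [h]
  simp

theorem dl_cont (hM : S_MF) (hL : S_LON) (b : Bool) (j : Fin 3) :
    ContinuousOn (dl b j) {v : ℂ × ℝ | 0 ≤ sg b * v.1.im} := by
  intro v hv
  have e : dl b j = fun w : ℂ × ℝ => w.2 - ‖w.1‖ * Mf (hj j (lon b w)) := rfl
  rw [e]
  refine ContinuousWithinAt.sub continuous_snd.continuousWithinAt ?_
  by_cases h : v.1 = 0
  · have h1 : Filter.Tendsto (fun w : ℂ × ℝ => ‖w.1‖ * 2)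
        (nhdsWithin v {v : ℂ × ℝ | 0 ≤ sg b * v.1.im}) (nhds 0) := by
      have : Continuous fun w : ℂ × ℝ => ‖w.1‖ * 2 := by fun_prop
      have h2 := this.tendsto v
      simp only [h, norm_zero, zero_mul] at h2
      exact h2.mono_left nhdsWithin_le_nhds
    unfold ContinuousWithinAt
    simp only [h, norm_zero, zero_mul]
    refine squeeze_zero_norm' ?_ h1
    filter_upwards [self_mem_nhdsWithin] with w hw
    exact term_abs hM hL b j w hw
  · have h1 : ContinuousWithinAt (lon b) {v : ℂ × ℝ | 0 ≤ sg b * v.1.im} v := by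
      have h2 := (hL b).1 v ⟨h, hv⟩
      have h3 : {v : ℂ × ℝ | v.1 ≠ 0} ∈ nhds v :=
        (isOpen_compl_singleton.preimage continuous_fst).mem_nhds h
      have h4 : {v : ℂ × ℝ | v.1 ≠ 0 ∧ 0 ≤ sg b * v.1.im} =
          {v : ℂ × ℝ | 0 ≤ sg b * v.1.im} ∩ {v : ℂ × ℝ | v.1 ≠ 0} := by
        ext w
        exact and_comm
      rw [h4] at h2
      exact (continuousWithinAt_inter h3).1 h2
    refine ContinuousWithinAt.mul (by fun_prop) ?_
    exact (hM.1.comp (hj_cont j)).continuousAt.comp_continuousWithinAt h1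

theorem hem_compact (hN : S_NML) (b : Bool) : IsCompact (Hem b) := by
  have h1 : Hem b = Sph ∩ {v : ℂ × ℝ | 0 ≤ sg b * v.1.im} := rfl
  rw [h1]
  refine hN.2.2.2.2.1.inter_right ?_
  exact isClosed_le continuous_const (by fun_prop)

theorem pre_compact (hM : S_MF) (hN : S_NML) (hL : S_LON) (b : Bool) (j : Fin 3) (t : Set ℝ)
    (ht : IsClosed t) : IsCompact {v | v ∈ Hem b ∧ dl b j v ∈ t} := by
  have h1 : ContinuousOn (dl b j) (Hem b) := (dl_cont hM hL b j).mono fun v hv => hv.2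
  exact (hem_compact hN b).of_isClosed_subset
    (h1.preimage_isClosed_of_isClosed (hem_compact hN b).isClosed ht) fun v hv => hv.1

end DLCx

theorem t_DLC : M_DLC := by
  intro hM hN hL b j
  refine ⟨DLCx.dl_cont hM hL b j, ?_, DLCx.dl_zero b j, DLCx.hem_compact hN b, ?_, ?_, ?_⟩
  · intro v hv
    have h1 := hv.1
    unfold Sph at h1
    rw [mem_setOf_eq] at h1
    have h2 : ‖v.1‖ ≤ 1 := by nlinarith [norm_nonneg v.1, sq_nonneg v.2]
    have h3 : |v.2| ≤ 1 := by
      rw [abs_le]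
      constructor <;> nlinarith [norm_nonneg v.1, sq_nonneg ‖v.1‖]
    have h4 := DLCx.term_abs hM hL b j v hv.2
    have e : dl b j v = v.2 - ‖v.1‖ * Mf (hj j (lon b v)) := rfl
    rw [e]
    refine (abs_sub _ _).trans ?_
    linarith
  · intro d
    exact DLCx.pre_compact hM hN hL b j {x | 0 ≤ sg d * x}
      (isClosed_le continuous_const (by fun_prop))
  · exact DLCx.pre_compact hM hN hL b j {0} isClosed_singleton
  · intro v hv h
    have h1 := hv.2
    rw [DLCx.dl_zero b j v h] at h1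
    have h2 := hv.1.1
    unfold Sph at h2
    rw [mem_setOf_eq, h, h1] at h2
    norm_num at h2

end

end Pool.Agent.LIX.S
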