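import Pool.Agent.LIX.StmtsS

/-!
# LIX, block S: the end points determine the chord
-/

set_option autoImplicit false

namespace Pool.Agent.LIX.S

open Set Metric Complex

noncomputable section

namespace EPTx

theorem lon_real (b : Bool) {x z : ℝ} (hx : x ≠ 0) :
    lon b ((x : ℂ), z) = if 0 < sg b * x then 0 else 1 := by
  have hs : sg b ≠ 0 := by cases b <;> simp [sg]
  unfold lon
  rw [show (((x : ℂ), z) : ℂ × ℝ).1 = (x : ℂ) from rfl, ← ofReal_mul]
  split_ifs with h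
  · rw [arg_ofReal_of_nonneg h.le, zero_div]
  · have h1 : sg b * x < 0 := lt_of_le_of_ne (not_lt.1 h) (mul_ne_zero hs hx)
    rw [arg_ofReal_of_neg h1, div_self Real.pi_ne_zero]

/-- the point with direction `ε = ± 1` and slope `s` -/
def pt (ε s : ℝ) : ℂ × ℝ := (((ε / √(1 + s ^ 2) : ℝ) : ℂ), s / √(1 + s ^ 2))

theorem mem_ch (b : Bool) (j : Fin 3) {ε : ℝ} (hε : ε = 1 ∨ ε = -1) (s : ℝ) :
    pt ε s ∈ ch b j ∩ {v | v.1.im = 0} ↔ s = Mf (hj j (if 0 < sg b * ε then 0 else 1)) := by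
  have hN : 0 < √(1 + s ^ 2) := Real.sqrt_pos.2 (by positivity)
  have hN2 : √(1 + s ^ 2) ^ 2 = 1 + s ^ 2 := Real.sq_sqrt (by positivity)
  set N := √(1 + s ^ 2) with hNdef
  have hεa : |ε| = 1 := by
    rcases hε with rfl | rfl
    · exact abs_one
    · rw [abs_neg, abs_one]
  have hε0 : ε ≠ 0 := by
    rintro rfl
    rw [abs_zero] at hεa
    exact zero_ne_one hεa
  have habs : |ε / N| = 1 / N := by rw [abs_div, abs_of_pos hN, hεa]
  have hsph : pt ε s ∈ Sph := by
    change ‖((ε / N : ℝ) : ℂ)‖ ^ 2 + (s / N) ^ 2 = 1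
    rw [Complex.norm_real, Real.norm_eq_abs, habs, div_pow, div_pow, ← add_div, one_pow, ← hN2,
      div_self (by positivity)]
  have him : (pt ε s).1.im = 0 := ofReal_im _
  have hiff : (0 < sg b * (ε / N)) ↔ 0 < sg b * ε := by
    rw [← mul_div_assoc, div_pos_iff_of_pos_right hN]
  have hdl : dl b j (pt ε s) = (s - Mf (hj j (if 0 < sg b * ε then 0 else 1))) / N := by
    change s / N - ‖((ε / N : ℝ) : ℂ)‖ * Mf (hj j (lon b (((ε / N : ℝ) : ℂ), s / N))) = _
    rw [lon_real b (div_ne_zero hε0 hN.ne'), Complex.norm_real, Real.norm_eq_abs, habs]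
    simp only [hiff]
    ring
  constructor
  · rintro ⟨⟨-, h⟩, -⟩
    rw [hdl, div_eq_zero_iff] at h
    exact sub_eq_zero.1 (h.resolve_right hN.ne')
  · intro h
    refine ⟨⟨⟨hsph, ?_⟩, ?_⟩, him⟩
    · rw [him, mul_zero]
    · rw [hdl, ← h, sub_self, zero_div]

end EPTx

open EPTx in
theorem t_EPT : M_EPT := by
  intro hMF _ _ b j b' j' h
  have hinj := hMF.2.1.injective
  have key : ∀ ε : ℝ, (ε = 1 ∨ ε = -1) → hj j (if 0 < sg b * ε then 0 else 1) =
      hj j' (if 0 < sg b' * ε then 0 else 1) := by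
    intro ε hε
    apply hinj
    rw [← mem_ch b' j' hε, ← h, mem_ch b j hε]
  have h1 := key 1 (Or.inl rfl)
  have h2 := key (-1) (Or.inr rfl)
  fin_cases j <;> fin_cases j' <;> cases b <;> cases b' <;>
    first
    | exact ⟨rfl, rfl⟩
    | (exfalso; norm_num [hj, sg] at h1; done)
    | (exfalso; norm_num [hj, sg] at h2; done)

end

end Pool.Agent.LIX.S
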