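import Pool.Agent.LIX.StmtsS

/-!
# LIX, module S_GE: graph disks are edge-compressing disks
-/

set_option autoImplicit false

namespace Pool.Agent.LIX.S

open Set Metric Complex

noncomputable section

namespace GEx

theorem sg_sq (d : Bool) : sg d * sg d = 1 := by cases d <;> simp [sg]

theorem sg_ne (d : Bool) : sg d ≠ 0 := by cases d <;> simp [sg]

theorem sg_abs (d : Bool) : |sg d| = 1 := by cases d <;> simp [sg]

theorem Ds_zero (b : Bool) (j : Fin 3) (d : Bool) (v : ℂ × ℝ) :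
    Ds b j d 0 v = sg d * dl b j v := by simp [Ds]

theorem Ds_sub (b : Bool) (j : Fin 3) (d : Bool) (s s' : ℝ) (v : ℂ × ℝ) :
    Ds b j d s v = Ds b j d s' v + (s' - s) * (‖v.1‖ / 100) := by
  unfold Ds
  ring

theorem dl_zero_iff (b : Bool) (j : Fin 3) (d : Bool) (v : ℂ × ℝ) :
    dl b j v = 0 ↔ Ds b j d 0 v = 0 := by
  rw [Ds_zero, mul_eq_zero]
  exact ⟨fun h => Or.inr h, fun h => h.resolve_left (sg_ne d)⟩

/-- `η` extended by zero. -/
def ep (b : Bool) (j : Fin 3) (d : Bool) (η : ℂ × ℝ → ℝ) (v : ℂ × ℝ) : ℝ :=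
  if 0 ≤ Ds b j d 0 v then η v else 0

/-- The height function for `s ≥ 0`. -/
def E1 (b : Bool) (j : Fin 3) (d : Bool) (η : ℂ × ℝ → ℝ) (x : (ℂ × ℝ) × ℝ) : ℝ :=
  η x.1 * (Ds b j d x.2 x.1 / Ds b j d 0 x.1) * (1 - x.2 / 2)

/-- The height function for `s ≤ 0`. -/
def E2 (b : Bool) (j : Fin 3) (d : Bool) (η : ℂ × ℝ → ℝ) (x : (ℂ × ℝ) × ℝ) : ℝ :=
  ep b j d η x.1 + 1 / 4 * min (-x.2) (Ds b j d x.2 x.1)

open Classical in
/-- The height function. -/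
def EE (b : Bool) (j : Fin 3) (d : Bool) (η : ℂ × ℝ → ℝ) (x : (ℂ × ℝ) × ℝ) : ℝ :=
  if 0 ≤ x.2 then E1 b j d η x else E2 b j d η x

/-- The domain. -/
def AA (b : Bool) (j : Fin 3) (d : Bool) : Set ((ℂ × ℝ) × ℝ) :=
  {x | x.1 ∈ Hem b ∧ x.2 ∈ Icc (-1 : ℝ) 1 ∧ 0 ≤ Ds b j d x.2 x.1}

variable {b : Bool} {j : Fin 3} {d : Bool} {η : ℂ × ℝ → ℝ}

/-- Properties of an admissible function. -/
structure Ad (b : Bool) (j : Fin 3) (d : Bool) (η : ℂ × ℝ → ℝ) : Prop where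
  cont : ContinuousOn η {v | v ∈ Hem b ∧ 0 ≤ Ds b j d 0 v}
  nonneg : ∀ v ∈ Hem b, 0 ≤ Ds b j d 0 v → 0 ≤ η v
  le : ∀ v ∈ Hem b, 0 ≤ Ds b j d 0 v → η v ≤ 1 / 2
  zero : ∀ v ∈ Hem b, 0 ≤ Ds b j d 0 v → (η v = 0 ↔ Ds b j d 0 v = 0)

theorem ad_of_adm (h : Adm (b, j, d) η) : Ad b j d η := by
  have hset : Rg b j d = {v | v ∈ Hem b ∧ 0 ≤ Ds b j d 0 v} := by
    ext v
    simp only [Rg, mem_ofPred_eq, Ds_zero]
  obtain ⟨h1, h2⟩ := h
  simp only at h1 h2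
  rw [hset] at h1 h2
  exact ⟨h1, fun v hv h0 => (h2 v ⟨hv, h0⟩).1, fun v hv h0 => (h2 v ⟨hv, h0⟩).2.1,
    fun v hv h0 => by rw [(h2 v ⟨hv, h0⟩).2.2, dl_zero_iff b j d v]⟩

theorem D0_of_pos {x : (ℂ × ℝ) × ℝ} (hx : x ∈ AA b j d) (hs : 0 ≤ x.2) :
    Ds b j d x.2 x.1 ≤ Ds b j d 0 x.1 ∧ 0 ≤ Ds b j d 0 x.1 := by
  have h1 := Ds_sub b j d 0 x.2 x.1
  have h2 : 0 ≤ (x.2 - 0) * (‖x.1.1‖ / 100) := by positivity
  constructor <;> linarith [hx.2.2]

theorem ratio_mem {x : (ℂ × ℝ) × ℝ} (hx : x ∈ AA b j d) (hs : 0 ≤ x.2) :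
    0 ≤ Ds b j d x.2 x.1 / Ds b j d 0 x.1 ∧ Ds b j d x.2 x.1 / Ds b j d 0 x.1 ≤ 1 := by
  obtain ⟨h1, h2⟩ := D0_of_pos hx hs
  exact ⟨div_nonneg hx.2.2 h2, div_le_one_of_le₀ h1 h2⟩

theorem E1_nonneg (hη : Ad b j d η) {x : (ℂ × ℝ) × ℝ} (hx : x ∈ AA b j d) (hs : 0 ≤ x.2) :
    0 ≤ E1 b j d η x := by
  obtain ⟨h1, h2⟩ := D0_of_pos hx hs
  have h3 := ratio_mem hx hs
  have h4 : 0 ≤ 1 - x.2 / 2 := by linarith [hx.2.1.2]
  exact mul_nonneg (mul_nonneg (hη.nonneg _ hx.1 h2) h3.1) h4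

theorem E1_le (hη : Ad b j d η) {x : (ℂ × ℝ) × ℝ} (hx : x ∈ AA b j d) (hs : 0 ≤ x.2) :
    E1 b j d η x ≤ η x.1 := by
  obtain ⟨h1, h2⟩ := D0_of_pos hx hs
  have h3 := ratio_mem hx hs
  have h4 : 0 ≤ 1 - x.2 / 2 := by linarith [hx.2.1.2]
  have h5 : 1 - x.2 / 2 ≤ 1 := by linarith
  have h6 := hη.nonneg _ hx.1 h2
  have h7 : η x.1 * (Ds b j d x.2 x.1 / Ds b j d 0 x.1) ≤ η x.1 * 1 :=
    mul_le_mul_of_nonneg_left h3.2 h6
  rw [mul_one] at h7
  have h8 : 0 ≤ η x.1 * (Ds b j d x.2 x.1 / Ds b j d 0 x.1) := mul_nonneg h6 h3.1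
  calc E1 b j d η x ≤ η x.1 * (Ds b j d x.2 x.1 / Ds b j d 0 x.1) * 1 :=
        mul_le_mul_of_nonneg_left h5 h8
    _ ≤ η x.1 := by rw [mul_one]; exact h7

theorem ep_mem (hη : Ad b j d η) {v : ℂ × ℝ} (hv : v ∈ Hem b) :
    0 ≤ ep b j d η v ∧ ep b j d η v ≤ 1 / 2 := by
  unfold ep
  split_ifs with h
  · exact ⟨hη.nonneg v hv h, hη.le v hv h⟩
  · constructor <;> norm_num

theorem E2_mem (hη : Ad b j d η) {x : (ℂ × ℝ) × ℝ} (hx : x ∈ AA b j d) (hs : x.2 ≤ 0) :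
    0 ≤ E2 b j d η x ∧ E2 b j d η x ≤ 3 / 4 := by
  have h1 := ep_mem hη hx.1
  have h2 : 0 ≤ min (-x.2) (Ds b j d x.2 x.1) := le_min (by linarith) hx.2.2
  have h3 : min (-x.2) (Ds b j d x.2 x.1) ≤ 1 := (min_le_left _ _).trans (by linarith [hx.2.1.1])
  unfold E2
  constructor <;> linarith

theorem EE_mem (hη : Ad b j d η) {x : (ℂ × ℝ) × ℝ} (hx : x ∈ AA b j d) :
    EE b j d η x ∈ Icc (0 : ℝ) 1 := by
  unfold EE
  split_ifs with h
  · refine ⟨E1_nonneg hη hx h, (E1_le hη hx h).trans ?_⟩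
    linarith [hη.le _ hx.1 (D0_of_pos hx h).2]
  · obtain ⟨h1, h2⟩ := E2_mem hη hx (not_le.1 h).le
    exact ⟨h1, by linarith⟩

theorem E_agree (hη : Ad b j d η) {v : ℂ × ℝ} (hx : (v, (0 : ℝ)) ∈ AA b j d) :
    E1 b j d η (v, 0) = η v ∧ E2 b j d η (v, 0) = η v := by
  have h0 : 0 ≤ Ds b j d 0 v := hx.2.2
  constructor
  · unfold E1
    simp only [zero_div, sub_zero, mul_one]
    by_cases h : Ds b j d 0 v = 0
    · rw [h, zero_div, mul_zero, (hη.zero v hx.1 h0).2 h]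
    · rw [div_self h, mul_one]
  · unfold E2 ep
    simp only [neg_zero]
    rw [if_pos h0, min_eq_left h0]
    ring

theorem EE_zero (hη : Ad b j d η) {v : ℂ × ℝ} (hx : (v, (0 : ℝ)) ∈ AA b j d) :
    EE b j d η (v, 0) = η v := by
  unfold EE
  rw [if_pos (le_refl (0 : ℝ))]
  exact (E_agree hη hx).1

/-- Zeros of the height function. -/
theorem EE_eq_zero (hη : Ad b j d η) {x : (ℂ × ℝ) × ℝ} (hx : x ∈ AA b j d) :
    EE b j d η x = 0 ↔ Ds b j d x.2 x.1 = 0 := by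
  unfold EE
  split_ifs with h
  · obtain ⟨h1, h2⟩ := D0_of_pos hx h
    have h4 : 1 - x.2 / 2 ≠ 0 := by
      have := hx.2.1.2
      intro h0
      linarith
    unfold E1
    rw [mul_eq_zero, mul_eq_zero, div_eq_zero_iff, hη.zero _ hx.1 h2]
    constructor
    · rintro ((h5 | h5 | h5) | h5)
      · exact le_antisymm (by rw [← h5]; exact h1) hx.2.2
      · exact h5
      · exact le_antisymm (by rw [← h5]; exact h1) hx.2.2
      · exact absurd h5 h4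
    · intro h5
      exact Or.inl (Or.inr (Or.inl h5))
  · have hs : x.2 < 0 := not_le.1 h
    have h1 := ep_mem hη hx.1
    have h2 : 0 ≤ min (-x.2) (Ds b j d x.2 x.1) := le_min (by linarith) hx.2.2
    unfold E2
    constructor
    · intro h3
      have h4 : min (-x.2) (Ds b j d x.2 x.1) = 0 := by linarith [h1.1]
      rcases min_choice (-x.2) (Ds b j d x.2 x.1) with h5 | h5
      · rw [h5] at h4
        linarith
      · rw [h5] at h4
        exact h4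
    · intro h3
      rw [h3, min_eq_right (by linarith)]
      have h4 := Ds_sub b j d 0 x.2 x.1
      have h5 : ep b j d η x.1 = 0 := by
        unfold ep
        split_ifs with h6
        · have h7 : 0 ≤ -x.2 * (‖x.1.1‖ / 100) := mul_nonneg (by linarith) (by positivity)
          rw [(hη.zero _ hx.1 h6)]
          rw [h3] at h4
          linarith
        · rfl
      rw [h5]
      ring

/-- The values at the pole. -/
theorem D_pole (hDLC : S_DLC) {x : (ℂ × ℝ) × ℝ} (hx : x ∈ AA b j d) (h0 : x.1.1 = 0) (s : ℝ) :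
    Ds b j d s x.1 = 1 := by
  have h1 : dl b j x.1 = x.1.2 := (hDLC b j).2.2.1 x.1 h0
  have h2 : ∀ s, Ds b j d s x.1 = sg d * x.1.2 := by
    intro s
    unfold Ds
    rw [h1, h0, norm_zero]
    ring
  have h3 : x.1.2 ^ 2 = 1 := by
    have := hx.1.1
    simp only [Sph, mem_ofPred_eq, h0, norm_zero] at this
    linarith
  have h4 : (sg d * x.1.2) ^ 2 = 1 := by
    rw [mul_pow, pow_two (sg d), sg_sq, one_mul, h3]
  have h5 : 0 ≤ sg d * x.1.2 := by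
    rw [← h2 x.2]
    exact hx.2.2
  rw [h2]
  nlinarith

/-- The heights are strictly decreasing in `s`. -/
theorem EE_lt (hη : Ad b j d η) (hDLC : S_DLC) {v : ℂ × ℝ} {s s' : ℝ} (hx : (v, s) ∈ AA b j d)
    (hx' : (v, s') ∈ AA b j d) (hlt : s < s') : EE b j d η (v, s') < EE b j d η (v, s) := by
  have hsub := Ds_sub b j d s s' v
  have hD : 0 ≤ Ds b j d s' v := hx'.2.2
  have hs1 : -1 ≤ s := hx.2.1.1
  have hs1' : s' ≤ 1 := hx'.2.1.2
  -- either strict or constant one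
  have hcase : (Ds b j d s' v < Ds b j d s v) ∨ (∀ t, Ds b j d t v = 1) := by
    by_cases h0 : v.1 = 0
    · exact Or.inr fun t => D_pole hDLC hx h0 t
    · left
      have h1 : 0 < ‖v.1‖ := norm_pos_iff.2 h0
      have h2 : 0 < (s' - s) * (‖v.1‖ / 100) := by
        have : 0 < s' - s := by linarith
        positivity
      linarith
  have hpos : 0 < Ds b j d s v := by
    rcases hcase with h | h
    · linarith
    · rw [h]
      norm_num
  have hle : Ds b j d s' v ≤ Ds b j d s v := by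
    rcases hcase with h | h
    · exact h.le
    · rw [h, h]
  unfold EE
  by_cases h1 : 0 ≤ s
  · have h1' : 0 ≤ s' := h1.trans hlt.le
    rw [if_pos h1, if_pos h1']
    have h2 := D0_of_pos hx h1
    simp only at h2
    have hD0 : 0 < Ds b j d 0 v := lt_of_lt_of_le hpos h2.1
    have hηp : 0 < η v := by
      refine lt_of_le_of_ne (hη.nonneg v hx.1 h2.2) ?_
      intro h3
      exact hD0.ne' ((hη.zero v hx.1 h2.2).1 h3.symm)
    unfold E1
    simp only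
    have h3 : 0 < η v * (Ds b j d s v / Ds b j d 0 v) := by positivity
    have h4 : η v * (Ds b j d s' v / Ds b j d 0 v) ≤ η v * (Ds b j d s v / Ds b j d 0 v) := by
      gcongr
    have h5 : 1 - s' / 2 < 1 - s / 2 := by linarith
    have h6 : 0 ≤ 1 - s' / 2 := by linarith
    calc η v * (Ds b j d s' v / Ds b j d 0 v) * (1 - s' / 2)
        ≤ η v * (Ds b j d s v / Ds b j d 0 v) * (1 - s' / 2) := mul_le_mul_of_nonneg_right h4 h6
      _ < η v * (Ds b j d s v / Ds b j d 0 v) * (1 - s / 2) := mul_lt_mul_of_pos_left h5 h3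
  · rw [if_neg h1]
    have h1s : s < 0 := not_le.1 h1
    by_cases h2 : 0 ≤ s'
    · rw [if_pos h2]
      have h3 := D0_of_pos hx' h2
      simp only at h3
      have h4 := E1_le hη hx' h2
      have h5 : 0 < min (-s) (Ds b j d s v) := lt_min (by linarith) hpos
      unfold E2 ep
      simp only at h4 ⊢
      rw [if_pos h3.2]
      linarith
    · rw [if_neg h2]
      have h2s : s' < 0 := not_le.1 h2
      unfold E2
      simp only
      have h6 : min (-s') (Ds b j d s' v) < min (-s) (Ds b j d s v) := by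
        rcases hcase with h | h
        · exact min_lt_min (by linarith) h
        · rw [h, h, min_eq_left (by linarith), min_eq_left (by linarith)]
          linarith
      linarith

/-! ### Continuity -/

theorem D_cont (hDLC : S_DLC) (b : Bool) (j : Fin 3) (d : Bool) :
    ContinuousOn (fun x : (ℂ × ℝ) × ℝ => Ds b j d x.2 x.1) {x | x.1 ∈ Hem b} := by
  have h1 : ContinuousOn (fun x : (ℂ × ℝ) × ℝ => dl b j x.1) {x | x.1 ∈ Hem b} :=
    (hDLC b j).1.comp continuousOn_fst fun x hx => hx.2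
  unfold Ds
  fun_prop

theorem D0_cont (hDLC : S_DLC) (b : Bool) (j : Fin 3) (d : Bool) :
    ContinuousOn (fun v : ℂ × ℝ => Ds b j d 0 v) (Hem b) := by
  have h1 : ContinuousOn (dl b j) (Hem b) := (hDLC b j).1.mono fun x hx => hx.2
  have h2 : (fun v : ℂ × ℝ => Ds b j d 0 v) = fun v => sg d * dl b j v := by
    funext v
    exact Ds_zero b j d v
  rw [h2]
  fun_prop

theorem isClosed_Hem (hDLC : S_DLC) (b : Bool) : IsClosed (Hem b) :=
  (hDLC b 0).2.2.2.1.isClosed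

theorem isClosed_Hem' (hDLC : S_DLC) (b : Bool) :
    IsClosed {x : (ℂ × ℝ) × ℝ | x.1 ∈ Hem b} :=
  (isClosed_Hem hDLC b).preimage continuous_fst

theorem isClosed_AA (hDLC : S_DLC) (b : Bool) (j : Fin 3) (d : Bool) :
    IsClosed (AA b j d) := by
  have h1 := (D_cont hDLC b j d).preimage_isClosed_of_isClosed (isClosed_Hem' hDLC b)
    (isClosed_Ici (a := (0 : ℝ)))
  have h2 : IsClosed {x : (ℂ × ℝ) × ℝ | x.2 ∈ Icc (-1 : ℝ) 1} :=
    isClosed_Icc.preimage continuous_snd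
  have h3 : AA b j d = ({x : (ℂ × ℝ) × ℝ | x.1 ∈ Hem b} ∩
      (fun x : (ℂ × ℝ) × ℝ => Ds b j d x.2 x.1) ⁻¹' Ici 0) ∩
      {x : (ℂ × ℝ) × ℝ | x.2 ∈ Icc (-1 : ℝ) 1} := by
    ext x
    exact ⟨fun h => ⟨⟨h.1, h.2.2⟩, h.2.1⟩, fun h => ⟨h.1.1, h.2, h.1.2⟩⟩
  rw [h3]
  exact h1.inter h2

theorem ep_cont (hη : Ad b j d η) (hDLC : S_DLC) : ContinuousOn (ep b j d η) (Hem b) := by
  have hc1 : IsClosed {v | v ∈ Hem b ∧ 0 ≤ Ds b j d 0 v} := by
    have := (D0_cont hDLC b j d).preimage_isClosed_of_isClosed (isClosed_Hem hDLC b)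
      (isClosed_Ici (a := (0 : ℝ)))
    exact this
  have hc2 : IsClosed {v | v ∈ Hem b ∧ Ds b j d 0 v ≤ 0} := by
    have := (D0_cont hDLC b j d).preimage_isClosed_of_isClosed (isClosed_Hem hDLC b)
      (isClosed_Iic (a := (0 : ℝ)))
    exact this
  have h1 : ContinuousOn (ep b j d η) {v | v ∈ Hem b ∧ 0 ≤ Ds b j d 0 v} := by
    refine hη.cont.congr ?_
    rintro v ⟨_, hv⟩
    unfold ep
    rw [if_pos hv]
  have h2 : ContinuousOn (ep b j d η) {v | v ∈ Hem b ∧ Ds b j d 0 v ≤ 0} := by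
    refine (continuousOn_const (c := (0 : ℝ))).congr ?_
    rintro v ⟨hv1, hv⟩
    unfold ep
    split_ifs with h
    · exact (hη.zero v hv1 h).2 (le_antisymm hv h)
    · rfl
  have h3 : Hem b = {v | v ∈ Hem b ∧ 0 ≤ Ds b j d 0 v} ∪ {v | v ∈ Hem b ∧ Ds b j d 0 v ≤ 0} := by
    ext v
    constructor
    · intro hv
      rcases le_total 0 (Ds b j d 0 v) with h | h
      · exact Or.inl ⟨hv, h⟩
      · exact Or.inr ⟨hv, h⟩
    · rintro (h | h)
      · exact h.1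
      · exact h.1
  rw [h3]
  exact h1.union_of_isClosed h2 hc1 hc2

theorem E2_cont (hη : Ad b j d η) (hDLC : S_DLC) :
    ContinuousOn (E2 b j d η) {x | x.1 ∈ Hem b} := by
  have h1 : ContinuousOn (fun x : (ℂ × ℝ) × ℝ => ep b j d η x.1) {x | x.1 ∈ Hem b} :=
    (ep_cont hη hDLC).comp continuousOn_fst fun x hx => hx
  have h2 := D_cont hDLC b j d
  have h3 : ContinuousOn (fun x : (ℂ × ℝ) × ℝ => -x.2) {x | x.1 ∈ Hem b} :=
    (continuous_snd.neg).continuousOn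
  exact h1.add (continuousOn_const.mul (h3.inf h2))

theorem E1_cont (hη : Ad b j d η) (hDLC : S_DLC) :
    ContinuousOn (E1 b j d η) {x | x ∈ AA b j d ∧ 0 ≤ x.2} := by
  have hsub : ∀ x ∈ {x : (ℂ × ℝ) × ℝ | x ∈ AA b j d ∧ 0 ≤ x.2},
      x.1 ∈ {v | v ∈ Hem b ∧ 0 ≤ Ds b j d 0 v} := fun x hx => ⟨hx.1.1, (D0_of_pos hx.1 hx.2).2⟩
  have h1 : ContinuousOn (fun x : (ℂ × ℝ) × ℝ => η x.1) {x | x ∈ AA b j d ∧ 0 ≤ x.2} :=
    hη.cont.comp continuousOn_fst hsub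
  have h2 : ContinuousOn (fun x : (ℂ × ℝ) × ℝ => Ds b j d x.2 x.1)
      {x | x ∈ AA b j d ∧ 0 ≤ x.2} := (D_cont hDLC b j d).mono fun x hx => hx.1.1
  have h3 : ContinuousOn (fun x : (ℂ × ℝ) × ℝ => Ds b j d 0 x.1)
      {x | x ∈ AA b j d ∧ 0 ≤ x.2} :=
    (D0_cont hDLC b j d).comp continuousOn_fst fun x hx => hx.1.1
  intro x hx
  by_cases h0 : Ds b j d 0 x.1 = 0
  · have hηx : η x.1 = 0 := (hη.zero _ hx.1.1 (hsub x hx).2).2 h0
    have hE : E1 b j d η x = 0 := by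
      unfold E1
      rw [hηx]
      ring
    unfold ContinuousWithinAt
    rw [hE]
    have h4 : Filter.Tendsto (fun x : (ℂ × ℝ) × ℝ => η x.1)
        (nhdsWithin x {x | x ∈ AA b j d ∧ 0 ≤ x.2}) (nhds 0) := by
      have h5 := h1 x hx
      unfold ContinuousWithinAt at h5
      simp only [hηx] at h5
      exact h5
    refine tendsto_of_tendsto_of_tendsto_of_le_of_le' tendsto_const_nhds h4 ?_ ?_
    · filter_upwards [self_mem_nhdsWithin] with y hy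
      exact E1_nonneg hη hy.1 hy.2
    · filter_upwards [self_mem_nhdsWithin] with y hy
      exact E1_le hη hy.1 hy.2
  · have h4 : ContinuousWithinAt (fun x : (ℂ × ℝ) × ℝ => 1 - x.2 / 2)
        {x | x ∈ AA b j d ∧ 0 ≤ x.2} x := by
      have : Continuous (fun x : (ℂ × ℝ) × ℝ => 1 - x.2 / 2) := by fun_prop
      exact this.continuousWithinAt
    exact ((h1 x hx).mul ((h2 x hx).div (h3 x hx) h0)).mul h4

theorem EE_cont (hη : Ad b j d η) (hDLC : S_DLC) : ContinuousOn (EE b j d η) (AA b j d) := by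
  have hA := isClosed_AA hDLC b j d
  have hc1 : IsClosed {x | x ∈ AA b j d ∧ 0 ≤ x.2} :=
    hA.inter (isClosed_Ici.preimage continuous_snd)
  have hc2 : IsClosed {x | x ∈ AA b j d ∧ x.2 ≤ 0} :=
    hA.inter (isClosed_Iic.preimage continuous_snd)
  have h1 : ContinuousOn (EE b j d η) {x | x ∈ AA b j d ∧ 0 ≤ x.2} := by
    refine (E1_cont hη hDLC).congr ?_
    rintro x ⟨_, hx⟩
    unfold EE
    rw [if_pos hx]
  have h2 : ContinuousOn (EE b j d η) {x | x ∈ AA b j d ∧ x.2 ≤ 0} := by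
    refine ((E2_cont hη hDLC).mono fun x hx => hx.1.1).congr ?_
    rintro ⟨v, s⟩ ⟨hx1, hx⟩
    unfold EE
    by_cases h : 0 ≤ s
    · have h0 : s = 0 := le_antisymm hx h
      subst h0
      rw [if_pos (le_refl (0 : ℝ))]
      rw [(E_agree hη hx1).1, (E_agree hη hx1).2]
    · rw [if_neg h]
  have h3 : AA b j d = {x | x ∈ AA b j d ∧ 0 ≤ x.2} ∪ {x | x ∈ AA b j d ∧ x.2 ≤ 0} := by
    ext x
    constructor
    · intro hx
      rcases le_total 0 x.2 with h | h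
      · exact Or.inl ⟨hx, h⟩
      · exact Or.inr ⟨hx, h⟩
    · rintro (h | h)
      · exact h.1
      · exact h.1
  rw [h3]
  exact h1.union_of_isClosed h2 hc1 hc2

/-- The skeleton is in the sphere. -/
theorem Edg_sub (hNML : S_NML) (i i' : Fin 4) : Edg i i' ⊆ Sph := by
  have hn : ∀ v : ℂ × ℝ, v ≠ 0 → nml v ∈ Sph := fun v hv => (hNML.2.1 v hv).2
  have hs : ∀ v : ℂ × ℝ, v ≠ 0 → ({nml v} : Set (ℂ × ℝ)) ⊆ Sph := by
    intro v hv x hx
    rw [mem_singleton_iff.1 hx]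
    exact hn v hv
  have hh : ∀ β κ : ℝ, hlx β κ ⊆ Sph := by
    rintro β κ _ ⟨u, _, rfl⟩
    refine hn _ ?_
    intro h
    have h1 := congrArg Prod.fst h
    exact Complex.exp_ne_zero _ h1
  have hp1 : {v : ℂ × ℝ | v ∈ Sph ∧ v.1.re = 0 ∧ v.2 ≤ -2 * ‖v.1‖} ⊆ Sph := fun v hv => hv.1
  have hp2 : {v : ℂ × ℝ | v ∈ Sph ∧ v.1.re = 0 ∧ 2 * ‖v.1‖ ≤ v.2} ⊆ Sph := fun v hv => hv.1
  have hI : ∀ z : ℝ, ((I, z) : ℂ × ℝ) ≠ 0 := by
    intro z h
    exact Complex.I_ne_zero (congrArg Prod.fst h)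
  have hI' : ∀ z : ℝ, ((-I, z) : ℂ × ℝ) ≠ 0 := by
    intro z h
    exact neg_ne_zero.2 Complex.I_ne_zero (congrArg Prod.fst h)
  fin_cases i <;> fin_cases i'
  · exact hs _ (hI _)
  · exact hh _ _
  · exact hh _ _
  · exact hp1
  · exact hh _ _
  · exact hs _ (hI _)
  · exact hp2
  · exact hh _ _
  · exact hh _ _
  · exact hp2
  · exact hs _ (hI' _)
  · exact hh _ _
  · exact hp1
  · exact hh _ _
  · exact hh _ _
  · exact hs _ (hI' _)

theorem Skl_sub (hNML : S_NML) : Skl ⊆ Sph := by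
  intro v hv
  obtain ⟨i, hi⟩ := mem_iUnion.1 hv
  obtain ⟨i', hi'⟩ := mem_iUnion.1 hi
  exact Edg_sub hNML i i' hi'

section collar

variable {Y : Type} [TopologicalSpace Y] {T : Cells Y} {H : Set Y} {V : Bool → Set Y}
  {c : (ℂ × ℝ) × ℝ → Y}

theorem mem_bd (hC : Collar T H V c) {v : ℂ × ℝ} {l : ℝ} (hv : v ∈ Sph) (hl : l ∈ Icc (0 : ℝ) 1) :
    c (v, l) ∈ T.bd ↔ l = 0 := by
  rw [hC.bd]
  constructor
  · rintro ⟨⟨u, m⟩, ⟨hu, hm⟩, h⟩
    have h1 := hC.inj ⟨hu, by rw [mem_singleton_iff.1 hm]; exact ⟨le_refl _, zero_le_one⟩⟩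
      (show ((v, l) : (ℂ × ℝ) × ℝ) ∈ Sph ×ˢ Icc 0 1 from ⟨hv, hl⟩) h
    have h2 := congrArg Prod.snd h1
    simp only at h2
    rw [← h2]
    exact mem_singleton_iff.1 hm
  · rintro rfl
    exact ⟨(v, 0), ⟨hv, rfl⟩, rfl⟩

theorem mem_skel (hC : Collar T H V c) (hNML : S_NML) {v : ℂ × ℝ} {l : ℝ} (hv : v ∈ Sph)
    (hl : l ∈ Icc (0 : ℝ) 1) : c (v, l) ∈ T.skel ↔ l = 0 ∧ v ∈ Skl := by
  constructor
  · intro h
    obtain ⟨i, hi⟩ := mem_iUnion.1 h
    obtain ⟨i', hi'⟩ := mem_iUnion.1 hi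
    rw [hC.edge] at hi'
    obtain ⟨u, hu, hu2⟩ := hi'
    have h1 := hC.inj (show ((u, 0) : (ℂ × ℝ) × ℝ) ∈ Sph ×ˢ Icc 0 1 from
      ⟨Edg_sub hNML i i' hu, le_refl _, zero_le_one⟩)
      (show ((v, l) : (ℂ × ℝ) × ℝ) ∈ Sph ×ˢ Icc 0 1 from ⟨hv, hl⟩) hu2
    have h2 := congrArg Prod.snd h1
    have h3 := congrArg Prod.fst h1
    simp only at h2 h3
    rw [← h2, ← h3]
    exact ⟨rfl, mem_iUnion.2 ⟨i, mem_iUnion.2 ⟨i', hu⟩⟩⟩
  · rintro ⟨rfl, h⟩
    obtain ⟨i, hi⟩ := mem_iUnion.1 h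
    obtain ⟨i', hi'⟩ := mem_iUnion.1 hi
    refine mem_iUnion.2 ⟨i, mem_iUnion.2 ⟨i', ?_⟩⟩
    rw [hC.edge]
    exact ⟨v, hi', rfl⟩

end collar

end GEx

open GEx in
theorem t_GE : M_GE := by
  intro _ hNML hDLC hCHE hLSK hQI Y _ _ T H V c hC J η hJ
  obtain ⟨b, j, d⟩ := J
  have hη := ad_of_adm hJ
  obtain ⟨q1, q2, q3, -⟩ := hQI b j d
  have hA : ∀ w ∈ HDisk, ∀ s ∈ Icc (-1 : ℝ) 1, (qI b j d (w, s), s) ∈ AA b j d :=
    fun w hw s hs => ⟨(q2 w hw s hs).1, hs, (q2 w hw s hs).2.1⟩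
  have hSph : ∀ w ∈ HDisk, ∀ s ∈ Icc (-1 : ℝ) 1, qI b j d (w, s) ∈ Sph :=
    fun w hw s hs => (q2 w hw s hs).1.1
  have hEm : ∀ w ∈ HDisk, ∀ s ∈ Icc (-1 : ℝ) 1,
      EE b j d η (qI b j d (w, s), s) ∈ Icc (0 : ℝ) 1 := fun w hw s hs => EE_mem hη (hA w hw s hs)
  have hE0 : ∀ w ∈ HDisk, ∀ s ∈ Icc (-1 : ℝ) 1,
      (EE b j d η (qI b j d (w, s), s) = 0 ↔ ‖w‖ = 1) := by
    intro w hw s hs
    rw [EE_eq_zero hη (hA w hw s hs)]
    exact (q2 w hw s hs).2.2.1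
  have h00 : (0 : ℝ) ∈ Icc (-1 : ℝ) 1 := ⟨by norm_num, by norm_num⟩
  refine ⟨⟨fun x => c (qI b j d x, EE b j d η (qI b j d x, x.2)), ?_, ?_, ?_, ?_⟩, ?_⟩
  · -- continuity
    have h1 : ContinuousOn (fun x : ℂ × ℝ => (qI b j d x, x.2)) (HDisk ×ˢ Icc (-1) 1) :=
      q1.prodMk continuousOn_snd
    have h2 : ContinuousOn (fun x : ℂ × ℝ => EE b j d η (qI b j d x, x.2))
        (HDisk ×ˢ Icc (-1) 1) :=
      (EE_cont hη hDLC).comp h1 fun x hx => hA x.1 hx.1 x.2 hx.2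
    exact hC.cont.comp (q1.prodMk h2) fun x hx => ⟨hSph x.1 hx.1 x.2 hx.2, hEm x.1 hx.1 x.2 hx.2⟩
  · -- injectivity
    rintro ⟨w, s⟩ ⟨hw, hs⟩ ⟨w', s'⟩ ⟨hw', hs'⟩ h
    simp only at hw hs hw' hs' h
    have h1 := hC.inj (show (qI b j d (w, s), EE b j d η (qI b j d (w, s), s)) ∈ Sph ×ˢ Icc 0 1
      from ⟨hSph w hw s hs, hEm w hw s hs⟩)
      (show (qI b j d (w', s'), EE b j d η (qI b j d (w', s'), s')) ∈ Sph ×ˢ Icc 0 1
      from ⟨hSph w' hw' s' hs', hEm w' hw' s' hs'⟩) h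
    have h2 := congrArg Prod.fst h1
    have h3 := congrArg Prod.snd h1
    simp only at h2 h3
    have hA1 := hA w hw s hs
    have hA2 := hA w' hw' s' hs'
    rw [← h2] at hA2 h3
    have hss : s = s' := by
      rcases lt_trichotomy s s' with h4 | h4 | h4
      · exact absurd h3 (EE_lt hη hDLC hA1 hA2 h4).ne'
      · exact h4
      · exact absurd h3 (EE_lt hη hDLC hA2 hA1 h4).ne
    subst hss
    rw [(q3 s hs).1 hw hw' h2]
  · intro z hz s hs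
    have hv := hSph z hz s hs
    have hl := hEm z hz s hs
    refine ⟨hC.body _ hv _ hl, ?_, ?_, ?_⟩
    · rw [mem_bd hC hv hl]
      exact hE0 z hz s hs
    · rw [hC.surf _ hv _ hl]
      exact (q2 z hz s hs).2.2.2
    · rw [mem_skel hC hNML hv hl, hE0 z hz s hs]
      refine and_congr_right fun hz1 => ?_
      have hD : Ds b j d s (qI b j d (z, s)) = 0 := (q2 z hz s hs).2.2.1.2 hz1
      have hne : (qI b j d (z, s)).1 ≠ 0 := by
        intro h0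
        have := D_pole hDLC (hA z hz s hs) h0 s
        rw [hD] at this
        exact zero_ne_one this
      have hpos : 0 < ‖(qI b j d (z, s)).1‖ := norm_pos_iff.2 hne
      have h1 : sg d * dl b j (qI b j d (z, s)) = s * ‖(qI b j d (z, s)).1‖ / 100 := by
        unfold Ds at hD
        linarith
      constructor
      · intro hS
        have h2 : |dl b j (qI b j d (z, s))| ≤ ‖(qI b j d (z, s)).1‖ / 100 := by
          have h3 : |sg d * dl b j (qI b j d (z, s))| = |dl b j (qI b j d (z, s))| := by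
            rw [abs_mul, sg_abs, one_mul]
          rw [← h3, h1, mul_div_assoc, abs_mul, abs_of_nonneg (by positivity :
            (0 : ℝ) ≤ ‖(qI b j d (z, s)).1‖ / 100)]
          have h4 : |s| ≤ 1 := abs_le.2 hs
          have h5 : (0 : ℝ) ≤ ‖(qI b j d (z, s)).1‖ / 100 := by positivity
          calc |s| * (‖(qI b j d (z, s)).1‖ / 100) ≤ 1 * (‖(qI b j d (z, s)).1‖ / 100) :=
                mul_le_mul_of_nonneg_right h4 h5
            _ = ‖(qI b j d (z, s)).1‖ / 100 := one_mul _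
        have h3 := hLSK b j _ (q2 z hz s hs).1 hS h2
        rw [h3, mul_zero] at h1
        have h4 : s * ‖(qI b j d (z, s)).1‖ = 0 := by linarith
        exact (mul_eq_zero.1 h4).resolve_right hpos.ne'
      · intro hs0
        subst hs0
        refine hCHE.2 b j ⟨(q2 z hz 0 hs).1, ?_⟩
        exact (dl_zero_iff b j d _).2 hD
  · intro z hz
    simp only
    rw [EE_zero hη (hA z hz 0 h00)]
  · obtain ⟨i, i', hi⟩ := hCHE.1 b j
    refine ⟨i, i', fun z hz hz1 => ?_⟩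
    have hD : Ds b j d 0 (qI b j d (z, 0)) = 0 := (q2 z hz 0 h00).2.2.1.2 hz1
    have h1 : η (qI b j d (z, 0)) = 0 :=
      (hη.zero _ (q2 z hz 0 h00).1 (q2 z hz 0 h00).2.1).2 hD
    simp only
    rw [h1, hC.edge]
    exact ⟨qI b j d (z, 0), hi ⟨(q2 z hz 0 h00).1, (dl_zero_iff b j d _).2 hD⟩, rfl⟩

end

end Pool.Agent.LIX.S
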