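import Pool.Agent.LIX.StmtsS

/-!
# LIX, block S, module HLX: injective paths in an edge are chords
-/

set_option autoImplicit false

namespace Pool.Agent.LIX.S

open Set Metric Complex

noncomputable section

namespace HLXx

theorem nrm_pos (t m : ℝ) : 0 < nrm (exp ((t : ℝ) * I), m) := by
  unfold nrm
  apply Real.sqrt_pos.2
  simp only [norm_exp_ofReal_mul_I]
  positivity

theorem hpt_fst (b k u : ℝ) :
    (hpt b k u).1 = exp ((Real.pi * (b + k * u) : ℝ) * I) /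
      (nrm (exp ((Real.pi * (b + k * u) : ℝ) * I), Mf u) : ℂ) := rfl

theorem hpt_snd (b k u : ℝ) :
    (hpt b k u).2 = Mf u / nrm (exp ((Real.pi * (b + k * u) : ℝ) * I), Mf u) := rfl

theorem norm_fst (b k u : ℝ) :
    ‖(hpt b k u).1‖ = 1 / nrm (exp ((Real.pi * (b + k * u) : ℝ) * I), Mf u) := by
  rw [hpt_fst, norm_div, norm_exp_ofReal_mul_I, norm_real, Real.norm_of_nonneg (nrm_pos _ _).le]

theorem norm_fst_pos (b k u : ℝ) : 0 < ‖(hpt b k u).1‖ := by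
  rw [norm_fst]
  exact div_pos one_pos (nrm_pos _ _)

/-- the slope -/
theorem slope (b k u : ℝ) : (hpt b k u).2 / ‖(hpt b k u).1‖ = Mf u := by
  rw [norm_fst, hpt_snd]
  have := (nrm_pos (Real.pi * (b + k * u)) (Mf u)).ne'
  field_simp

theorem im_eq (b k u : ℝ) :
    (hpt b k u).1.im = Real.sin (Real.pi * (b + k * u)) /
      nrm (exp ((Real.pi * (b + k * u) : ℝ) * I), Mf u) := by
  rw [hpt_fst, div_ofReal_im, exp_ofReal_mul_I_im]

theorem im_zero (b k u : ℝ) : (hpt b k u).1.im = 0 ↔ ∃ n : ℤ, (n : ℝ) = b + k * u := by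
  rw [im_eq, div_eq_zero_iff, Real.sin_eq_zero_iff]
  constructor
  · rintro (⟨n, h⟩ | h)
    · refine ⟨n, ?_⟩
      have := Real.pi_pos
      have h2 : Real.pi * ((n : ℝ) - (b + k * u)) = 0 := by linarith
      rcases mul_eq_zero.1 h2 with h3 | h3
      · linarith
      · linarith
    · exact absurd h (nrm_pos _ _).ne'
  · rintro ⟨n, h⟩
    left
    exact ⟨n, by rw [← h]; ring⟩

/-- an injective path in a helix -/
theorem path (hM : S_MF) (b k : ℝ) (g : ℝ → ℂ × ℝ) (hc : ContinuousOn g (Icc (-1) 1))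
    (hi : InjOn g (Icc (-1) 1)) (hg : ∀ x ∈ Icc (-1 : ℝ) 1, g x ∈ hlx b k)
    (h0 : (g (-1)).1.im = 0) (h1 : (g 1).1.im = 0)
    (hn : ∀ x ∈ Ioo (-1 : ℝ) 1, (g x).1.im ≠ 0) :
    ∃ u v : ℝ, 0 ≤ u ∧ u < v ∧ v ≤ 12 ∧ (hpt b k u).1.im = 0 ∧ (hpt b k v).1.im = 0 ∧
      (∀ w, u < w → w < v → (hpt b k w).1.im ≠ 0) ∧ g '' Icc (-1) 1 = hpt b k '' Icc u v := by
  have hg' : ∀ x, ∃ t : ℝ, x ∈ Icc (-1 : ℝ) 1 → t ∈ Icc (0 : ℝ) 12 ∧ hpt b k t = g x := by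
    intro x
    by_cases hx : x ∈ Icc (-1 : ℝ) 1
    · obtain ⟨t, ht, e⟩ := hg x hx
      exact ⟨t, fun _ => ⟨ht, e⟩⟩
    · exact ⟨0, fun h => absurd h hx⟩
  choose τ hτ using hg'
  have hs : ∀ x ∈ Icc (-1 : ℝ) 1, Mf (τ x) = (g x).2 / ‖(g x).1‖ := by
    intro x hx
    rw [← (hτ x hx).2, slope]
  have hcM : ContinuousOn (fun x => Mf (τ x)) (Icc (-1) 1) := by
    refine ContinuousOn.congr ?_ hs
    refine ContinuousOn.div (continuous_snd.comp_continuousOn hc)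
      (continuous_norm.comp_continuousOn (continuous_fst.comp_continuousOn hc)) ?_
    intro x hx
    rw [← (hτ x hx).2]
    exact (norm_fst_pos _ _ _).ne'
  have hcτ : ContinuousOn τ (Icc (-1) 1) := by
    intro x hx
    have h2 := hcM x hx
    unfold ContinuousWithinAt at h2 ⊢
    rw [tendsto_order] at h2 ⊢
    constructor
    · intro a ha
      filter_upwards [h2.1 (Mf a) (hM.2.1 ha)] with y hy
      exact hM.2.1.lt_iff_lt.1 hy
    · intro a ha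
      filter_upwards [h2.2 (Mf a) (hM.2.1 ha)] with y hy
      exact hM.2.1.lt_iff_lt.1 hy
  have hiτ : InjOn τ (Icc (-1) 1) := by
    intro x hx y hy e
    apply hi hx hy
    rw [← (hτ x hx).2, ← (hτ y hy).2, e]
  have m0 : (-1 : ℝ) ∈ Icc (-1 : ℝ) 1 := ⟨le_rfl, by norm_num⟩
  have m1 : (1 : ℝ) ∈ Icc (-1 : ℝ) 1 := ⟨by norm_num, le_rfl⟩
  have himg : g '' Icc (-1) 1 = hpt b k '' (τ '' Icc (-1) 1) := by
    rw [image_image]
    exact image_congr fun x hx => ((hτ x hx).2).symm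
  rcases hcτ.strictMonoOn_of_injOn_Icc' (by norm_num) hiτ with hm | hm
  · have e : τ '' Icc (-1) 1 = Icc (τ (-1)) (τ 1) := by
      apply Subset.antisymm
      · rintro _ ⟨x, hx, rfl⟩
        exact ⟨hm.monotoneOn m0 hx hx.1, hm.monotoneOn hx m1 hx.2⟩
      · exact intermediate_value_Icc (by norm_num) hcτ
    refine ⟨τ (-1), τ 1, (hτ _ m0).1.1, hm m0 m1 (by norm_num), (hτ _ m1).1.2, ?_, ?_, ?_, ?_⟩
    · rw [(hτ _ m0).2]; exact h0
    · rw [(hτ _ m1).2]; exact h1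
    · intro w hw1 hw2
      have hw : w ∈ τ '' Icc (-1) 1 := by rw [e]; exact ⟨hw1.le, hw2.le⟩
      obtain ⟨x, hx, rfl⟩ := hw
      rw [(hτ _ hx).2]
      exact hn x ⟨(hm.lt_iff_lt m0 hx).1 hw1, (hm.lt_iff_lt hx m1).1 hw2⟩
    · rw [himg, e]
  · have e : τ '' Icc (-1) 1 = Icc (τ 1) (τ (-1)) := by
      apply Subset.antisymm
      · rintro _ ⟨x, hx, rfl⟩
        exact ⟨hm.antitoneOn hx m1 hx.2, hm.antitoneOn m0 hx hx.1⟩
      · exact intermediate_value_Icc' (by norm_num) hcτ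
    refine ⟨τ 1, τ (-1), (hτ _ m1).1.1, hm m0 m1 (by norm_num), (hτ _ m0).1.2, ?_, ?_, ?_, ?_⟩
    · rw [(hτ _ m1).2]; exact h1
    · rw [(hτ _ m0).2]; exact h0
    · intro w hw1 hw2
      have hw : w ∈ τ '' Icc (-1) 1 := by rw [e]; exact ⟨hw1.le, hw2.le⟩
      obtain ⟨x, hx, rfl⟩ := hw
      rw [(hτ _ hx).2]
      exact hn x ⟨(hm.lt_iff_gt hx m0).1 hw2, (hm.lt_iff_gt m1 hx).1 hw1⟩
    · rw [himg, e]

theorem z6 (b : ℝ) (c : ℤ) (hb : b = c + 1 / 2) (u : ℝ) (h0 : 0 ≤ u) (h1 : u ≤ 12)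
    (h : (hpt b (1 / 6) u).1.im = 0) : u = 3 ∨ u = 9 := by
  obtain ⟨n, hn⟩ := (im_zero _ _ _).1 h
  rw [hb] at hn
  have e : ((n - c : ℤ) : ℝ) = 1 / 2 + 1 / 6 * u := by push_cast; linarith
  have a1 : (0 : ℝ) < ((n - c : ℤ) : ℝ) := by rw [e]; positivity
  have a2 : ((n - c : ℤ) : ℝ) < 3 := by rw [e]; linarith
  have a3 : 0 < n - c := by exact_mod_cast a1
  have a4 : n - c < 3 := by exact_mod_cast a2
  generalize n - c = m at *
  interval_cases m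
  · left; push_cast at e; linarith
  · right; push_cast at e; linarith

theorem z4 (b : ℝ) (c : ℤ) (hb : b = c + 1 / 2) (u : ℝ) (h0 : 0 ≤ u) (h1 : u ≤ 12)
    (h : (hpt b (1 / 4) u).1.im = 0) : u = 2 ∨ u = 6 ∨ u = 10 := by
  obtain ⟨n, hn⟩ := (im_zero _ _ _).1 h
  rw [hb] at hn
  have e : ((n - c : ℤ) : ℝ) = 1 / 2 + 1 / 4 * u := by push_cast; linarith
  have a1 : (0 : ℝ) < ((n - c : ℤ) : ℝ) := by rw [e]; positivity
  have a2 : ((n - c : ℤ) : ℝ) < 4 := by rw [e]; linarith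
  have a3 : 0 < n - c := by exact_mod_cast a1
  have a4 : n - c < 4 := by exact_mod_cast a2
  generalize n - c = m at *
  interval_cases m
  · left; push_cast at e; linarith
  · right; left; push_cast at e; linarith
  · right; right; push_cast at e; linarith

theorem z4' (b : ℝ) (c : ℤ) (hb : b = c + 1 / 2) : (hpt b (1 / 4) 6).1.im = 0 := by
  rw [im_zero]
  exact ⟨c + 2, by rw [hb]; push_cast; ring⟩

theorem case6 (hM : S_MF) (b : ℝ) (c : ℤ) (hb : b = c + 1 / 2) (g : ℝ → ℂ × ℝ)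
    (hc : ContinuousOn g (Icc (-1) 1))
    (hi : InjOn g (Icc (-1) 1)) (hg : ∀ x ∈ Icc (-1 : ℝ) 1, g x ∈ hlx b (1 / 6))
    (h0 : (g (-1)).1.im = 0) (h1 : (g 1).1.im = 0)
    (hn : ∀ x ∈ Ioo (-1 : ℝ) 1, (g x).1.im ≠ 0) :
    g '' Icc (-1) 1 = hpt b (1 / 6) '' Icc 3 9 := by
  obtain ⟨u, v, hu, huv, hv, zu, zv, hw, e⟩ := path hM b (1 / 6) g hc hi hg h0 h1 hn
  rcases z6 b c hb u hu (by linarith) zu with rfl | rfl <;>
    rcases z6 b c hb v (by linarith) hv zv with rfl | rfl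
  · exact absurd huv (lt_irrefl _)
  · exact e
  · exact absurd huv (by norm_num)
  · exact absurd huv (lt_irrefl _)

theorem case4 (hM : S_MF) (b : ℝ) (c : ℤ) (hb : b = c + 1 / 2) (g : ℝ → ℂ × ℝ)
    (hc : ContinuousOn g (Icc (-1) 1))
    (hi : InjOn g (Icc (-1) 1)) (hg : ∀ x ∈ Icc (-1 : ℝ) 1, g x ∈ hlx b (1 / 4))
    (h0 : (g (-1)).1.im = 0) (h1 : (g 1).1.im = 0)
    (hn : ∀ x ∈ Ioo (-1 : ℝ) 1, (g x).1.im ≠ 0) :
    g '' Icc (-1) 1 = hpt b (1 / 4) '' Icc 2 6 ∨ g '' Icc (-1) 1 = hpt b (1 / 4) '' Icc 6 10 := by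
  obtain ⟨u, v, hu, huv, hv, zu, zv, hw, e⟩ := path hM b (1 / 4) g hc hi hg h0 h1 hn
  rcases z4 b c hb u hu (by linarith) zu with rfl | rfl | rfl <;>
    rcases z4 b c hb v (by linarith) hv zv with rfl | rfl | rfl
  · exact absurd huv (lt_irrefl _)
  · exact Or.inl e
  · exact absurd (z4' b c hb) (hw 6 (by norm_num) (by norm_num))
  · exact absurd huv (by norm_num)
  · exact absurd huv (lt_irrefl _)
  · exact Or.inr e
  · exact absurd huv (by norm_num)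
  · exact absurd huv (by norm_num)
  · exact absurd huv (lt_irrefl _)

theorem sph_zero (v : ℂ × ℝ) (hv : v ∈ Sph) (h : v.1 = 0) : v.2 = 1 ∨ v.2 = -1 := by
  have h1 : ‖v.1‖ ^ 2 + v.2 ^ 2 = 1 := hv
  rw [h, norm_zero] at h1
  have : (v.2 - 1) * (v.2 + 1) = 0 := by nlinarith
  rcases mul_eq_zero.1 this with h2 | h2
  · left; linarith
  · right; linarith

theorem low (v w : ℂ × ℝ) (hv : v ∈ {v | v ∈ Sph ∧ v.1.re = 0 ∧ v.2 ≤ -2 * ‖v.1‖})
    (hw : w ∈ {v | v ∈ Sph ∧ v.1.re = 0 ∧ v.2 ≤ -2 * ‖v.1‖}) (h : v.1.im = 0)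
    (h' : w.1.im = 0) : v = w := by
  have key : ∀ v : ℂ × ℝ, (v ∈ Sph ∧ v.1.re = 0 ∧ v.2 ≤ -2 * ‖v.1‖) → v.1.im = 0 →
      v = (0, -1) := by
    intro v hv h
    have e : v.1 = 0 := Complex.ext hv.2.1 h
    refine Prod.ext e ?_
    have h3 := hv.2.2
    rw [e, norm_zero] at h3
    rcases sph_zero v hv.1 e with h2 | h2
    · rw [h2] at h3; norm_num at h3
    · exact h2
  rw [key v hv h, key w hw h']

theorem high (v w : ℂ × ℝ) (hv : v ∈ {v | v ∈ Sph ∧ v.1.re = 0 ∧ 2 * ‖v.1‖ ≤ v.2})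
    (hw : w ∈ {v | v ∈ Sph ∧ v.1.re = 0 ∧ 2 * ‖v.1‖ ≤ v.2}) (h : v.1.im = 0)
    (h' : w.1.im = 0) : v = w := by
  have key : ∀ v : ℂ × ℝ, (v ∈ Sph ∧ v.1.re = 0 ∧ 2 * ‖v.1‖ ≤ v.2) → v.1.im = 0 →
      v = (0, 1) := by
    intro v hv h
    have e : v.1 = 0 := Complex.ext hv.2.1 h
    refine Prod.ext e ?_
    have h3 := hv.2.2
    rw [e, norm_zero] at h3
    rcases sph_zero v hv.1 e with h2 | h2
    · exact h2
    · rw [h2] at h3; norm_num at h3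
  rw [key v hv h, key w hw h']

end HLXx

theorem t_HLX : M_HLX := by
  intro hM hN hC g i i' hc hi hg h0 h1 hn
  obtain ⟨c0, c1, c2, c3, c4, c5⟩ := hC
  have m0 : (-1 : ℝ) ∈ Icc (-1 : ℝ) 1 := ⟨le_rfl, by norm_num⟩
  have m1 : (1 : ℝ) ∈ Icc (-1 : ℝ) 1 := ⟨by norm_num, le_rfl⟩
  have hne : g (-1) ≠ g 1 := fun e => absurd (hi m0 m1 e) (by norm_num)
  have e0 := hg _ m0
  have e1 := hg _ m1
  have A6 : (∀ x ∈ Icc (-1 : ℝ) 1, g x ∈ hlx (1 / 2) (1 / 6)) →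
      ∃ b j, g '' Icc (-1) 1 = ch b j := fun h =>
    ⟨false, 1, by rw [c4]; exact HLXx.case6 hM (1 / 2) 0 (by norm_num) g hc hi h h0 h1 hn⟩
  have B6 : (∀ x ∈ Icc (-1 : ℝ) 1, g x ∈ hlx (-1 / 2) (1 / 6)) →
      ∃ b j, g '' Icc (-1) 1 = ch b j := fun h =>
    ⟨true, 1, by rw [c1]; exact HLXx.case6 hM (-1 / 2) (-1) (by norm_num) g hc hi h h0 h1 hn⟩
  have A4 : (∀ x ∈ Icc (-1 : ℝ) 1, g x ∈ hlx (1 / 2) (1 / 4)) →
      ∃ b j, g '' Icc (-1) 1 = ch b j := by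
    intro h
    rcases HLXx.case4 hM (1 / 2) 0 (by norm_num) g hc hi h h0 h1 hn with e | e
    · exact ⟨false, 0, by rw [c3]; exact e⟩
    · exact ⟨true, 2, by rw [c2]; exact e⟩
  have B4 : (∀ x ∈ Icc (-1 : ℝ) 1, g x ∈ hlx (-1 / 2) (1 / 4)) →
      ∃ b j, g '' Icc (-1) 1 = ch b j := by
    intro h
    rcases HLXx.case4 hM (-1 / 2) (-1) (by norm_num) g hc hi h h0 h1 hn with e | e
    · exact ⟨true, 0, by rw [c0]; exact e⟩
    · exact ⟨false, 2, by rw [c5]; exact e⟩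
  fin_cases i <;> fin_cases i'
  · exact absurd (Eq.trans (mem_singleton_iff.1 e0) (mem_singleton_iff.1 e1).symm) hne
  · exact A6 hg
  · exact A4 hg
  · exact absurd (HLXx.low _ _ e0 e1 h0 h1) hne
  · exact A6 hg
  · exact absurd (Eq.trans (mem_singleton_iff.1 e0) (mem_singleton_iff.1 e1).symm) hne
  · exact absurd (HLXx.high _ _ e0 e1 h0 h1) hne
  · exact B4 hg
  · exact A4 hg
  · exact absurd (HLXx.high _ _ e0 e1 h0 h1) hne
  · exact absurd (Eq.trans (mem_singleton_iff.1 e0) (mem_singleton_iff.1 e1).symm) hne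
  · exact B6 hg
  · exact absurd (HLXx.low _ _ e0 e1 h0 h1) hne
  · exact B4 hg
  · exact B6 hg
  · exact absurd (Eq.trans (mem_singleton_iff.1 e0) (mem_singleton_iff.1 e1).symm) hne

end

end Pool.Agent.LIX.S
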