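import Pool.Agent.LIX.StmtsS

/-!
# LIX, block S: kinds and sides are invariants of the isotopy class
-/

set_option autoImplicit false

namespace Pool.Agent.LIX.S

open Set Metric Complex

noncomputable section

namespace KINx

variable {Y : Type} [TopologicalSpace Y] {T : Cells Y} {H : Set Y}
  {V : Bool → Set Y} {c : (ℂ × ℝ) × ℝ → Y}

theorem sg_sq (b : Bool) : sg b * sg b = 1 := by
  cases b <;> simp [sg]

theorem ch_nonempty (b : Bool) (j : Fin 3) : (ch b j).Nonempty := by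
  set s := Mf (hj j 0) with hs
  set N := √(1 + s ^ 2) with hN0
  have hN : 0 < N := Real.sqrt_pos.2 (by positivity)
  have hN2 : N ^ 2 = 1 + s ^ 2 := Real.sq_sqrt (by positivity)
  have habs : |sg b / N| = 1 / N := by
    rw [abs_div, abs_of_pos hN]
    cases b <;> simp [sg]
  have hlon : lon b (((sg b / N : ℝ) : ℂ), s / N) = 0 := by
    unfold lon
    have h1 : (sg b : ℂ) * ((sg b / N : ℝ) : ℂ) = ((1 / N : ℝ) : ℂ) := by
      rw [← ofReal_mul, ← mul_div_assoc, sg_sq]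
    rw [show ((((sg b / N : ℝ) : ℂ), s / N) : ℂ × ℝ).1 = ((sg b / N : ℝ) : ℂ) from rfl, h1,
      arg_ofReal_of_nonneg (by positivity), zero_div]
  refine ⟨(((sg b / N : ℝ) : ℂ), s / N), ⟨?_, ?_⟩, ?_⟩
  · change ‖((sg b / N : ℝ) : ℂ)‖ ^ 2 + (s / N) ^ 2 = 1
    rw [Complex.norm_real, Real.norm_eq_abs, habs, div_pow, div_pow, ← add_div, one_pow, ← hN2,
      div_self (by positivity)]
  · change 0 ≤ sg b * (((sg b / N : ℝ) : ℂ)).im
    rw [ofReal_im, mul_zero]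
  · change s / N - ‖((sg b / N : ℝ) : ℂ)‖ * Mf (hj j (lon b (((sg b / N : ℝ) : ℂ), s / N))) = 0
    rw [hlon, ← hs, Complex.norm_real, Real.norm_eq_abs, habs]
    ring

theorem ch_sub (b : Bool) (j : Fin 3) : ch b j ⊆ Sph := fun _ h => h.1.1

theorem c_inj (hC : Collar T H V c) : InjOn (fun v : ℂ × ℝ => c (v, 0)) Sph := by
  intro v hv w hw h
  have h0 : (0 : ℝ) ∈ Icc (0 : ℝ) 1 := ⟨le_rfl, zero_le_one⟩
  exact congrArg Prod.fst (hC.inj (mk_mem_prod hv h0) (mk_mem_prod hw h0) h)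

/-- kinds are unique -/
theorem unique (hEPT : S_EPT) (hC : Collar T H V c) {D : Set Y} {k k' : Option (Bool × Fin 3)}
    (h : HasKd T c D k) (h' : HasKd T c D k') : k = k' := by
  cases k with
  | none =>
    cases k' with
    | none => rfl
    | some q =>
      exfalso
      have h1 : D ∩ T.bd = ∅ := h
      have h2 : D ∩ T.bd = (fun v => c (v, 0)) '' ch q.1 q.2 := h'
      rw [h1] at h2
      exact ((ch_nonempty q.1 q.2).image _).ne_empty h2.symm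
  | some q =>
    have h1 : D ∩ T.bd = (fun v => c (v, 0)) '' ch q.1 q.2 := h
    cases k' with
    | none =>
      exfalso
      have h2 : D ∩ T.bd = ∅ := h'
      rw [h2] at h1
      exact ((ch_nonempty q.1 q.2).image _).ne_empty h1.symm
    | some q' =>
      have h2 : D ∩ T.bd = (fun v => c (v, 0)) '' ch q'.1 q'.2 := h'
      rw [h1] at h2
      have h3 : ch q.1 q.2 = ch q'.1 q'.2 :=
        ((c_inj hC).image_eq_image_iff (ch_sub _ _) (ch_sub _ _)).1 h2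
      obtain ⟨h4, h5⟩ := hEPT q.1 q.2 q'.1 q'.2 (by rw [h3])
      rw [Prod.ext h4 h5]

theorem edge_facts {f : ℂ → Y} (hf : IsEdgePar T H f) {z : ℂ} (hz : z ∈ HDisk) :
    f z ∈ T.body ∧ (f z ∈ T.bd ↔ ‖z‖ = 1) ∧ (f z ∈ H ↔ z.im = 0) := by
  obtain ⟨⟨Φ, -, -, h1, h2⟩, -⟩ := hf
  have h3 := h1 z hz 0 ⟨by norm_num, by norm_num⟩
  rw [h2 z hz] at h3
  exact ⟨h3.1, h3.2.1, h3.2.2.1⟩

theorem comp_facts {f : ℂ → Y} (hf : IsCompPar T H f) {z : ℂ} (hz : z ∈ Disk) :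
    f z ∈ T.body ∧ (f z ∈ H ↔ ‖z‖ = 1) := by
  obtain ⟨⟨Φ, -, -, h1, h2⟩, -⟩ := hf
  have h3 := h1 z hz 0 ⟨by norm_num, by norm_num⟩
  rw [h2 z hz] at h3
  exact ⟨h3.1, h3.2.2⟩

theorem one_mem : (1 : ℂ) ∈ HDisk := ⟨by simp, by simp⟩

theorem neg_one_mem : (-1 : ℂ) ∈ HDisk := ⟨by simp, by simp⟩

/-- the end points -/
theorem ends (hC : Collar T H V c) {f : ℂ → Y} (hf : IsEdgePar T H f) {q : Bool × Fin 3}
    (hk : HasKd T c (f '' HDisk) (some q)) :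
    (fun v => c (v, 0)) '' (ch q.1 q.2 ∩ {v | v.1.im = 0}) = {f 1, f (-1)} := by
  have hk' : f '' HDisk ∩ T.bd = (fun v => c (v, 0)) '' ch q.1 q.2 := hk
  have h01 : (0 : ℝ) ∈ Icc (0 : ℝ) 1 := ⟨le_rfl, zero_le_one⟩
  have key : ∀ z ∈ HDisk, ‖z‖ = 1 → z.im = 0 →
      f z ∈ (fun v => c (v, 0)) '' (ch q.1 q.2 ∩ {v | v.1.im = 0}) := by
    intro z hz hz1 hz2
    obtain ⟨-, h1, h2⟩ := edge_facts hf hz
    have h3 : f z ∈ f '' HDisk ∩ T.bd := ⟨mem_image_of_mem _ hz, h1.2 hz1⟩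
    rw [hk'] at h3
    obtain ⟨v, hv, hvz⟩ := h3
    refine ⟨v, ⟨hv, ?_⟩, hvz⟩
    have h4 : c (v, 0) ∈ H := by
      rw [show c (v, 0) = f z from hvz]
      exact h2.2 hz2
    exact (hC.surf v (ch_sub _ _ hv) 0 h01).1 h4
  apply Subset.antisymm
  · rintro _ ⟨v, ⟨hv, hv0⟩, rfl⟩
    have h1 : c (v, 0) ∈ f '' HDisk ∩ T.bd := by
      rw [hk']
      exact mem_image_of_mem (fun v => c (v, 0)) hv
    obtain ⟨⟨z, hz, hzv⟩, h2⟩ := h1
    obtain ⟨-, h3, h4⟩ := edge_facts hf hz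
    have h5 : ‖z‖ = 1 := h3.1 (by rw [hzv]; exact h2)
    have h6 : z.im = 0 := h4.1 (by
      rw [hzv]
      exact (hC.surf v (ch_sub _ _ hv) 0 h01).2 hv0)
    have h7 : z = (z.re : ℂ) := Complex.ext rfl (by rw [h6, ofReal_im])
    rw [h7, Complex.norm_real, Real.norm_eq_abs] at h5
    change c (v, 0) ∈ ({f 1, f (-1)} : Set Y)
    rw [← hzv]
    rcases (abs_eq zero_le_one).1 h5 with h8 | h8
    · left
      rw [h7, h8, ofReal_one]
    · right
      rw [mem_singleton_iff, h7, h8, ofReal_neg, ofReal_one]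
  · rintro y (rfl | hy)
    · exact key 1 one_mem (by simp) (by simp)
    · rw [mem_singleton_iff] at hy
      rw [hy]
      exact key (-1) neg_one_mem (by simp) (by simp)

theorem slice {S : Set ℂ} {F : ℂ × ℝ → Y} (hF : ContinuousOn F (S ×ˢ Icc 0 1)) {z : ℂ}
    (hz : z ∈ S) : ContinuousOn (fun t : ℝ => F (z, t)) (Icc 0 1) :=
  hF.comp (continuousOn_const.prodMk continuousOn_id) fun _ ht => mk_mem_prod hz ht

/-- the kind of an isotopy of edge disks is constant -/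
theorem kind_const [T2Space Y] (hEPT : S_EPT) (hC : Collar T H V c)
    (hK : ∀ f, IsEdgePar T H f → ∃ q, HasKd T c (f '' HDisk) (some q))
    {F : ℂ × ℝ → Y} (hF : ContinuousOn F (HDisk ×ˢ Icc 0 1))
    (hp : ∀ t ∈ Icc (0 : ℝ) 1, IsEdgePar T H fun z => F (z, t)) {q0 q1 : Bool × Fin 3}
    (h0 : HasKd T c ((fun z => F (z, 0)) '' HDisk) (some q0))
    (h1 : HasKd T c ((fun z => F (z, 1)) '' HDisk) (some q1)) : q0 = q1 := by
  let S : Set Y := ⋃ q ∈ {q : Bool × Fin 3 | ∃ t ∈ Icc (0 : ℝ) 1,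
      HasKd T c ((fun z => F (z, t)) '' HDisk) (some q)},
    (fun v => c (v, 0)) '' (ch q.1 q.2 ∩ {v | v.1.im = 0})
  have hS : S.Finite := by
    apply Set.Finite.biUnion (Set.toFinite _)
    rintro q ⟨t, ht, hk⟩
    rw [ends hC (hp t ht) hk]
    exact Set.toFinite _
  have hfin : Finite S := hS
  have hdis : IsDiscrete S := ⟨inferInstance⟩
  have hmap : ∀ t ∈ Icc (0 : ℝ) 1, F (1, t) ∈ S ∧ F (-1, t) ∈ S := by
    intro t ht
    obtain ⟨q, hq⟩ := hK _ (hp t ht)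
    have h2 := ends hC (hp t ht) hq
    have h3 : ({F (1, t), F (-1, t)} : Set Y) ⊆ S := by
      rw [← h2]
      exact Set.subset_biUnion_of_mem (u := fun q : Bool × Fin 3 =>
        (fun v => c (v, 0)) '' (ch q.1 q.2 ∩ {v | v.1.im = 0})) ⟨t, ht, hq⟩
    exact ⟨h3 (Or.inl rfl), h3 (Or.inr rfl)⟩
  have hm0 : (0 : ℝ) ∈ Icc (0 : ℝ) 1 := ⟨le_rfl, zero_le_one⟩
  have hm1 : (1 : ℝ) ∈ Icc (0 : ℝ) 1 := ⟨zero_le_one, le_rfl⟩
  have e1 : F (1, 0) = F (1, 1) :=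
    isPreconnected_Icc.constant_of_mapsTo hdis (slice hF one_mem) (fun t ht => (hmap t ht).1) hm0 hm1
  have e2 : F (-1, 0) = F (-1, 1) :=
    isPreconnected_Icc.constant_of_mapsTo hdis (slice hF neg_one_mem) (fun t ht => (hmap t ht).2)
      hm0 hm1
  have h2 := ends hC (hp 0 hm0) h0
  have h3 := ends hC (hp 1 hm1) h1
  have h4 : (fun v => c (v, 0)) '' (ch q0.1 q0.2 ∩ {v | v.1.im = 0}) =
      (fun v => c (v, 0)) '' (ch q1.1 q1.2 ∩ {v | v.1.im = 0}) := by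
    rw [h2, h3]
    simp only [e1, e2]
  have h5 := ((c_inj hC).image_eq_image_iff (fun v hv => ch_sub _ _ hv.1)
    (fun v hv => ch_sub _ _ hv.1)).1 h4
  obtain ⟨h6, h7⟩ := hEPT _ _ _ _ h5
  exact Prod.ext h6 h7

theorem side_inter' (hC : Collar T H V c) {b b' : Bool} {y : Y} (h : y ∈ V b) (h' : y ∈ V b')
    (hy : y ∉ H) : b = b' := by
  by_contra hne
  apply hy
  rw [← hC.side_inter]
  cases b <;> cases b'
  · exact absurd rfl hne
  · exact ⟨h', h⟩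
  · exact ⟨h, h'⟩
  · exact absurd rfl hne

theorem side_path (hC : Collar T H V c) {γ : ℝ → Y} (hγ : ContinuousOn γ (Icc 0 1))
    (hb : ∀ t ∈ Icc (0 : ℝ) 1, γ t ∈ T.body) (hH : ∀ t ∈ Icc (0 : ℝ) 1, γ t ∉ H) {b : Bool}
    (h0 : γ 0 ∈ V b) : γ 1 ∈ V b := by
  have hm0 : (0 : ℝ) ∈ Icc (0 : ℝ) 1 := ⟨le_rfl, zero_le_one⟩
  have hm1 : (1 : ℝ) ∈ Icc (0 : ℝ) 1 := ⟨zero_le_one, le_rfl⟩
  have hun : ∀ t ∈ Icc (0 : ℝ) 1, γ t ∈ V b ∨ γ t ∈ V (!b) := by
    intro t ht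
    have h1 := hb t ht
    rw [← hC.side_union] at h1
    cases b
    · exact h1.symm
    · exact h1
  by_contra hcon
  have hpre := isPreconnected_Icc.image γ hγ
  obtain ⟨y, ⟨t, ht, rfl⟩, h2, h3⟩ := (isPreconnected_closed_iff.1 hpre) (V b) (V (!b))
    (hC.side_closed b) (hC.side_closed (!b))
    (by
      rintro _ ⟨t, ht, rfl⟩
      exact hun t ht)
    ⟨γ 0, mem_image_of_mem _ hm0, h0⟩
    ⟨γ 1, mem_image_of_mem _ hm1, (hun 1 hm1).resolve_left hcon⟩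
  have := side_inter' hC h2 h3 (hH t ht)
  cases b <;> exact absurd this (by decide)

end KINx

open KINx in
theorem t_KIN : M_KIN := by
  intro hEPT hKND Y _ _ T H V c hC
  obtain ⟨hKc, hKe⟩ := hKND Y T H V c hC
  have hm0 : (0 : ℝ) ∈ Icc (0 : ℝ) 1 := ⟨le_rfl, zero_le_one⟩
  have hm1 : (1 : ℝ) ∈ Icc (0 : ℝ) 1 := ⟨zero_le_one, le_rfl⟩
  have hK : ∀ f, IsEdgePar T H f → ∃ q, HasKd T c (f '' HDisk) (some q) :=
    fun f hf => (hKe f hf).imp fun q hq => hq.1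
  refine ⟨fun D k k' _ h h' => unique hEPT hC h h', ?_, ?_⟩
  · rintro D D' k (⟨F, hF, hp, rfl, rfl⟩ | ⟨F, hF, hp, rfl, rfl⟩) hk
    · have h1 := (hKc _ (hp 0 hm0)).1
      rw [unique hEPT hC hk h1]
      exact (hKc _ (hp 1 hm1)).1
    · obtain ⟨q, hq⟩ := hK _ (hp 0 hm0)
      obtain ⟨q', hq'⟩ := hK _ (hp 1 hm1)
      rw [unique hEPT hC hk hq, kind_const hEPT hC hK hF hp hq hq']
      exact hq'
  · rintro D D' b (⟨F, hF, hp, rfl, rfl⟩ | ⟨F, hF, hp, rfl, rfl⟩) hD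
    · have hz : (0 : ℂ) ∈ Disk := by
        change ‖(0 : ℂ)‖ ≤ 1
        rw [norm_zero]
        exact zero_le_one
      have hf : ∀ t ∈ Icc (0 : ℝ) 1, F (0, t) ∉ H := by
        intro t ht h
        have h1 := (comp_facts (hp t ht) hz).2.1 h
        rw [norm_zero] at h1
        exact zero_ne_one h1
      have h1 : F (0, 1) ∈ V b := side_path hC (slice hF hz)
        (fun t ht => (comp_facts (hp t ht) hz).1) hf (hD (mem_image_of_mem _ hz))
      obtain ⟨b', hb'⟩ := (hKc _ (hp 1 hm1)).2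
      have h2 : F (0, 1) ∈ V b' := hb' (mem_image_of_mem _ hz)
      rw [side_inter' hC h1 h2 (hf 1 hm1)]
      exact hb'
    · obtain ⟨q, hq, hq2⟩ := hKe _ (hp 0 hm0)
      obtain ⟨q', hq', hq2'⟩ := hKe _ (hp 1 hm1)
      have hqq := kind_const hEPT hC hK hF hp hq hq'
      have hz : (I / 2 : ℂ) ∈ HDisk := by
        constructor
        · rw [norm_div, norm_I]
          norm_num
        · simp
      have h1 : F (I / 2, 0) ∉ H := by
        intro h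
        have h2 := (edge_facts (hp 0 hm0) hz).2.2.1 h
        simp at h2
      have h3 : b = q.1 := side_inter' hC (hD (mem_image_of_mem _ hz))
        (hq2 (mem_image_of_mem _ hz)) h1
      rw [h3, hqq]
      exact hq2'

end

end Pool.Agent.LIX.S
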