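import Pool.Agent.LIX.StmtsS

/-!
# LIX, block S, module KND: kinds and sides of disks exist
-/

set_option autoImplicit false

namespace Pool.Agent.LIX.S

open Set Metric Complex

namespace KNDx

theorem isCompact_Sph : IsCompact Sph := by
  have hcl : IsClosed Sph := by
    unfold Sph
    exact isClosed_eq (by fun_prop) continuous_const
  have hb : Bornology.IsBounded Sph := by
    refine (Metric.isBounded_closedBall (x := (0 : ℂ × ℝ)) (r := 1)).subset ?_
    intro v hv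
    have h : ‖v.1‖ ^ 2 + v.2 ^ 2 = 1 := hv
    rw [mem_closedBall_zero_iff, Prod.norm_def, max_le_iff]
    constructor
    · nlinarith [norm_nonneg v.1, sq_nonneg v.2]
    · rw [Real.norm_eq_abs, abs_le]
      constructor <;> nlinarith [sq_nonneg ‖v.1‖]
  exact Metric.isCompact_of_isClosed_isBounded hcl hb

theorem nml_mem {w : ℂ} (hw : ‖w‖ = 1) (m : ℝ) : nml (w, m) ∈ Sph := by
  have h0 : 0 < ‖w‖ ^ 2 + m ^ 2 := by rw [hw]; positivity
  have hpos : 0 < nrm (w, m) := by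
    unfold nrm
    exact Real.sqrt_pos.2 h0
  have hsq : nrm (w, m) ^ 2 = ‖w‖ ^ 2 + m ^ 2 := by
    unfold nrm
    exact Real.sq_sqrt h0.le
  unfold nml Sph
  simp only [mem_ofPred_eq, norm_div, Complex.norm_real, Real.norm_eq_abs, abs_of_pos hpos]
  rw [div_pow, div_pow, ← add_div, hsq]
  exact div_self h0.ne'

theorem hlx_sub (β κ : ℝ) : hlx β κ ⊆ Sph := by
  rintro _ ⟨u, -, rfl⟩
  exact nml_mem (Complex.norm_exp_ofReal_mul_I _) _

theorem Edg_sub (i j : Fin 4) : Edg i j ⊆ Sph := by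
  have hI : ‖(-I : ℂ)‖ = 1 := by rw [norm_neg, Complex.norm_I]
  have h1 : ({nml (I, -2)} : Set (ℂ × ℝ)) ⊆ Sph := singleton_subset_iff.2 (nml_mem Complex.norm_I _)
  have h2 : ({nml (I, 2)} : Set (ℂ × ℝ)) ⊆ Sph := singleton_subset_iff.2 (nml_mem Complex.norm_I _)
  have h3 : ({nml (-I, 2)} : Set (ℂ × ℝ)) ⊆ Sph := singleton_subset_iff.2 (nml_mem hI _)
  have h4 : ({nml (-I, -2)} : Set (ℂ × ℝ)) ⊆ Sph := singleton_subset_iff.2 (nml_mem hI _)
  have h5 : {v : ℂ × ℝ | v ∈ Sph ∧ v.1.re = 0 ∧ v.2 ≤ -2 * ‖v.1‖} ⊆ Sph := fun v hv => hv.1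
  have h6 : {v : ℂ × ℝ | v ∈ Sph ∧ v.1.re = 0 ∧ 2 * ‖v.1‖ ≤ v.2} ⊆ Sph := fun v hv => hv.1
  fin_cases i <;> fin_cases j
  exacts [h1, hlx_sub _ _, hlx_sub _ _, h5, hlx_sub _ _, h2, h6, hlx_sub _ _, hlx_sub _ _, h6, h3,
    hlx_sub _ _, h5, hlx_sub _ _, hlx_sub _ _, h4]

theorem side {Y : Type} [TopologicalSpace Y] {T : Cells Y} {H : Set Y}
    {V : Bool → Set Y} {c : (ℂ × ℝ) × ℝ → Y} (hc : Collar T H V c) {S S' : Set ℂ} {f : ℂ → Y}
    (hS : IsPreconnected S') (hSS : S' ⊆ S) (hf : ContinuousOn f S) (hb : ∀ z ∈ S, f z ∈ T.body)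
    (hH : ∀ z ∈ S, (f z ∈ H ↔ z ∉ S')) : ∃ b, f '' S ⊆ V b := by
  have h1 : IsPreconnected (f '' S') := hS.image f (hf.mono hSS)
  have h2 : f '' S' ⊆ V true ∪ V false := by
    rintro _ ⟨z, hz, rfl⟩
    rw [hc.side_union]
    exact hb z (hSS hz)
  have h3 : f '' S' ∩ (V true ∩ V false) = ∅ := by
    rw [hc.side_inter, eq_empty_iff_forall_notMem]
    rintro _ ⟨⟨z, hz, rfl⟩, h⟩
    exact (hH z (hSS hz)).1 h hz
  have hHV : ∀ b, H ⊆ V b := by
    intro b
    rw [← hc.side_inter]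
    cases b
    · exact inter_subset_right
    · exact inter_subset_left
  have h4 : ∀ b, f '' S' ⊆ V b → f '' S ⊆ V b := by
    rintro b h _ ⟨z, hz, rfl⟩
    by_cases h5 : z ∈ S'
    · exact h ⟨z, h5, rfl⟩
    · exact hHV b ((hH z hz).2 h5)
  rcases isPreconnected_iff_subset_of_disjoint_closed.1 h1 (V true) (V false) (hc.side_closed _)
    (hc.side_closed _) h2 h3 with h | h
  · exact ⟨true, h4 _ h⟩
  · exact ⟨false, h4 _ h⟩

/-- Parametrisation of the semicircle. -/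
noncomputable def pc (x : ℝ) : ℂ := (x : ℂ) + (√(1 - x ^ 2) : ℝ) * I

theorem pc_re (x : ℝ) : (pc x).re = x := by simp [pc]

theorem pc_im (x : ℝ) : (pc x).im = √(1 - x ^ 2) := by simp [pc]

theorem pc_cont : Continuous pc := by
  unfold pc
  fun_prop

theorem pc_norm {x : ℝ} (hx : x ∈ Icc (-1 : ℝ) 1) : ‖pc x‖ = 1 := by
  have h0 : 0 ≤ 1 - x ^ 2 := by nlinarith [hx.1, hx.2]
  rw [Complex.norm_eq_sqrt_sq_add_sq, pc_re, pc_im, Real.sq_sqrt h0]
  simp

theorem pc_mem {x : ℝ} (hx : x ∈ Icc (-1 : ℝ) 1) : pc x ∈ HDisk :=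
  ⟨(pc_norm hx).le, by rw [pc_im]; exact Real.sqrt_nonneg _⟩

theorem pc_surj {w : ℂ} (hw : w ∈ HDisk) (h1 : ‖w‖ = 1) : ∃ x ∈ Icc (-1 : ℝ) 1, pc x = w := by
  have h2 : w.re ^ 2 + w.im ^ 2 = 1 := by
    have h3 := Complex.sq_norm w
    rw [Complex.normSq_apply, h1] at h3
    nlinarith
  refine ⟨w.re, ⟨by nlinarith [sq_nonneg w.im], by nlinarith [sq_nonneg w.im]⟩, ?_⟩
  apply Complex.ext
  · exact pc_re _
  · rw [pc_im, show 1 - w.re ^ 2 = w.im ^ 2 by linarith, Real.sqrt_sq hw.2]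

end KNDx

open KNDx in
theorem t_KND : M_KND := by
  intro hX Y _ _ T H V c hc
  constructor
  · rintro f ⟨⟨Φ, hΦc, hΦi, hΦ, hf⟩, -⟩
    have h0 : (0 : ℝ) ∈ Icc (-1 : ℝ) 1 := ⟨by norm_num, by norm_num⟩
    have hfc : ContinuousOn f Disk := by
      have h1 : ContinuousOn (fun z : ℂ => Φ (z, 0)) Disk :=
        hΦc.comp (by fun_prop) fun z hz => ⟨hz, h0⟩
      exact h1.congr fun z hz => (hf z hz).symm
    refine ⟨?_, ?_⟩
    · show f '' Disk ∩ T.bd = ∅
      rw [eq_empty_iff_forall_notMem]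
      rintro _ ⟨⟨z, hz, rfl⟩, h⟩
      rw [← hf z hz] at h
      exact (hΦ z hz 0 h0).2.1 h
    · refine side hc (S' := ball 0 1) (convex_ball (0 : ℂ) 1).isPreconnected ?_ hfc ?_ ?_
      · intro z hz
        rw [mem_ball_zero_iff] at hz
        exact hz.le
      · intro z hz
        rw [← hf z hz]
        exact (hΦ z hz 0 h0).1
      · intro z hz
        rw [← hf z hz, (hΦ z hz 0 h0).2.2, mem_ball_zero_iff, not_lt]
        exact ⟨fun h => h.ge, fun h => le_antisymm hz h⟩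
  · rintro f ⟨⟨Φ, hΦc, hΦi, hΦ, hf⟩, i, i', hed⟩
    have h0 : (0 : ℝ) ∈ Icc (-1 : ℝ) 1 := ⟨by norm_num, by norm_num⟩
    have hfc : ContinuousOn f HDisk := by
      have h1 : ContinuousOn (fun z : ℂ => Φ (z, 0)) HDisk :=
        hΦc.comp (by fun_prop) fun z hz => ⟨hz, h0⟩
      exact h1.congr fun z hz => (hf z hz).symm
    have hfi : InjOn f HDisk := by
      intro z hz z' hz' h
      rw [← hf z hz, ← hf z' hz'] at h
      exact congrArg Prod.fst (hΦi ⟨hz, h0⟩ ⟨hz', h0⟩ h)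
    have hfH : ∀ z ∈ HDisk, (f z ∈ H ↔ z.im = 0) := by
      intro z hz
      rw [← hf z hz]
      exact (hΦ z hz 0 h0).2.2.1
    have hfb : ∀ z ∈ HDisk, (f z ∈ T.bd ↔ ‖z‖ = 1) := by
      intro z hz
      rw [← hf z hz]
      exact (hΦ z hz 0 h0).2.1
    obtain ⟨b', hb'⟩ : ∃ b, f '' HDisk ⊆ V b := by
      refine side hc (S' := closedBall 0 1 ∩ {z : ℂ | 0 < z.im})
        ((convex_closedBall (0 : ℂ) 1).inter (convex_halfSpace_im_gt 0)).isPreconnected ?_ hfc ?_ ?_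
      · rintro z ⟨hz, hz'⟩
        rw [mem_closedBall_zero_iff] at hz
        exact ⟨hz, le_of_lt hz'⟩
      · intro z hz
        rw [← hf z hz]
        exact (hΦ z hz 0 h0).1
      · intro z hz
        rw [hfH z hz]
        constructor
        · rintro h ⟨-, h'⟩
          have h'' : 0 < z.im := h'
          exact h''.ne' h
        · intro h
          by_contra h'
          exact h ⟨mem_closedBall_zero_iff.2 hz.1, lt_of_le_of_ne hz.2 (Ne.symm h')⟩
    -- the lift to the sphere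
    have hcs : CompactSpace Sph := isCompact_iff_compactSpace.1 isCompact_Sph
    let e : Sph → Y := fun v => c (v.1, 0)
    have hec : Continuous e := by
      have h1 : ContinuousOn (fun v : ℂ × ℝ => c (v, 0)) Sph :=
        hc.cont.comp (by fun_prop) fun v hv => ⟨hv, ⟨le_rfl, zero_le_one⟩⟩
      exact continuousOn_iff_continuous_domRestrict.1 h1
    have hei : Function.Injective e := by
      intro v v' h
      apply Subtype.ext
      exact congrArg Prod.fst (hc.inj ⟨v.2, ⟨le_rfl, zero_le_one⟩⟩ ⟨v'.2, ⟨le_rfl, zero_le_one⟩⟩ h)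
    have hemb : Topology.IsClosedEmbedding e := hec.isClosedEmbedding hei
    have hex : ∀ x : Icc (-1 : ℝ) 1, ∃ v : Sph, v.1 ∈ Edg i i' ∧ e v = f (pc x) := by
      intro x
      have h1 := hed (pc x) (pc_mem x.2) (pc_norm x.2)
      rw [hc.edge] at h1
      obtain ⟨v, hv, hv'⟩ := h1
      exact ⟨⟨v, Edg_sub i i' hv⟩, hv, hv'⟩
    choose g' hg1 hg2 using hex
    have hgc : Continuous g' := by
      rw [hemb.isInducing.continuous_iff]
      have h1 : ContinuousOn (fun x : ℝ => f (pc x)) (Icc (-1) 1) :=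
        hfc.comp pc_cont.continuousOn fun x hx => pc_mem hx
      have h2 := continuousOn_iff_continuous_domRestrict.1 h1
      have h3 : e ∘ g' = domRestrict (Icc (-1) 1) (fun x : ℝ => f (pc x)) := by
        funext x
        exact hg2 x
      rw [h3]
      exact h2
    classical
    let g : ℝ → ℂ × ℝ := fun x => if h : x ∈ Icc (-1 : ℝ) 1 then (g' ⟨x, h⟩).1 else 0
    have hg : ∀ x (hx : x ∈ Icc (-1 : ℝ) 1), g x = (g' ⟨x, hx⟩).1 := fun x hx => dif_pos hx
    have hgS : ∀ x ∈ Icc (-1 : ℝ) 1, g x ∈ Sph := by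
      intro x hx
      rw [hg x hx]
      exact (g' ⟨x, hx⟩).2
    have hgf : ∀ x ∈ Icc (-1 : ℝ) 1, c (g x, 0) = f (pc x) := by
      intro x hx
      rw [hg x hx]
      exact hg2 ⟨x, hx⟩
    have hgcon : ContinuousOn g (Icc (-1) 1) := by
      rw [continuousOn_iff_continuous_domRestrict]
      have h1 : domRestrict (Icc (-1 : ℝ) 1) g = fun x => (g' x).1 := by
        funext x
        exact hg x.1 x.2
      rw [h1]
      exact continuous_subtype_val.comp hgc
    have hgi : InjOn g (Icc (-1) 1) := by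
      intro x hx y hy h
      have h1 : f (pc x) = f (pc y) := by rw [← hgf x hx, ← hgf y hy, h]
      have h2 := hfi (pc_mem hx) (pc_mem hy) h1
      rw [← pc_re x, ← pc_re y, h2]
    have hgim : ∀ x ∈ Icc (-1 : ℝ) 1, ((g x).1.im = 0 ↔ √(1 - x ^ 2) = 0) := by
      intro x hx
      rw [← hc.surf (g x) (hgS x hx) 0 ⟨le_rfl, zero_le_one⟩, hgf x hx, hfH _ (pc_mem hx), pc_im]
    obtain ⟨b, j, hbj⟩ := hX g i i' hgcon hgi (fun x hx => by rw [hg x hx]; exact hg1 ⟨x, hx⟩)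
      ((hgim (-1) ⟨le_rfl, by norm_num⟩).2 (by norm_num)) ((hgim 1 ⟨by norm_num, le_rfl⟩).2 (by norm_num))
      (fun x hx h => by
        have h1 := (hgim x ⟨hx.1.le, hx.2.le⟩).1 h
        rw [Real.sqrt_eq_zero'] at h1
        nlinarith [hx.1, hx.2])
    refine ⟨(b, j), ?_, ?_⟩
    · show f '' HDisk ∩ T.bd = (fun v => c (v, 0)) '' ch b j
      rw [← hbj]
      ext y
      constructor
      · rintro ⟨⟨w, hw, rfl⟩, h⟩
        obtain ⟨x, hx, rfl⟩ := pc_surj hw ((hfb w hw).1 h)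
        exact ⟨g x, ⟨x, hx, rfl⟩, hgf x hx⟩
      · rintro ⟨_, ⟨x, hx, rfl⟩, rfl⟩
        simp only [hgf x hx]
        exact ⟨⟨pc x, pc_mem hx, rfl⟩, (hfb _ (pc_mem hx)).2 (pc_norm hx)⟩
    · have h00 : (0 : ℝ) ∈ Icc (-1 : ℝ) 1 := h0
      have h1 : g 0 ∈ ch b j := by rw [← hbj]; exact ⟨0, h00, rfl⟩
      have h2 : 0 ≤ sg b * (g 0).1.im := h1.1.2
      have h3 : c (g 0, 0) ∈ V b' := by
        rw [hgf 0 h00]
        exact hb' ⟨_, pc_mem h00, rfl⟩
      rw [hc.side b' (g 0) (hgS 0 h00) 0 ⟨le_rfl, zero_le_one⟩] at h3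
      have h4 : (g 0).1.im ≠ 0 := by
        intro h
        have h5 := (hgim 0 h00).1 h
        norm_num at h5
      have h5 : b = b' := by
        cases b <;> cases b' <;> simp only [sg] at h2 h3 <;> first
          | rfl
          | (exfalso; apply h4; norm_num at h2 h3; linarith)
      show f '' HDisk ⊆ V b
      rw [h5]
      exact hb'

end Pool.Agent.LIX.S
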