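import Pool.Agent.LIX.StmtsS

/-!
# LIX, block S, module L1: the classes of the graph disks do not depend on the height function
-/

set_option autoImplicit false

namespace Pool.Agent.LIX.S

open Set Metric Complex

namespace L1x

theorem contF {Y : Type} [TopologicalSpace Y] (c : (ℂ × ℝ) × ℝ → Y) (D : Set ℂ) (R : Set (ℂ × ℝ))
    (q : ℂ → ℂ × ℝ) (η η' : ℂ × ℝ → ℝ) (hR : R ⊆ Sph) (hc : ContinuousOn c (Sph ×ˢ Icc 0 1))
    (hq : ContinuousOn q D) (hqR : ∀ w ∈ D, q w ∈ R) (h1 : ContinuousOn η R)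
    (h2 : ContinuousOn η' R) (h3 : ∀ v ∈ R, 0 ≤ η v ∧ η v ≤ 1 / 2)
    (h4 : ∀ v ∈ R, 0 ≤ η' v ∧ η' v ≤ 1 / 2) :
    ContinuousOn (fun x : ℂ × ℝ => c (q x.1, (1 - x.2) * η (q x.1) + x.2 * η' (q x.1)))
      (D ×ˢ Icc 0 1) := by
  have hq1 : ContinuousOn (fun x : ℂ × ℝ => q x.1) (D ×ˢ Icc (0 : ℝ) 1) :=
    hq.comp continuousOn_fst (fun x hx => hx.1)
  have hη : ContinuousOn (fun x : ℂ × ℝ => η (q x.1)) (D ×ˢ Icc (0 : ℝ) 1) :=
    h1.comp hq1 (fun x hx => hqR _ hx.1)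
  have hη' : ContinuousOn (fun x : ℂ × ℝ => η' (q x.1)) (D ×ˢ Icc (0 : ℝ) 1) :=
    h2.comp hq1 (fun x hx => hqR _ hx.1)
  have hg : ContinuousOn (fun x : ℂ × ℝ => (q x.1, (1 - x.2) * η (q x.1) + x.2 * η' (q x.1)))
      (D ×ˢ Icc (0 : ℝ) 1) := by
    refine hq1.prodMk (ContinuousOn.add ?_ ?_)
    · exact (continuousOn_const.sub continuousOn_snd).mul hη
    · exact continuousOn_snd.mul hη'
  refine hc.comp hg ?_
  rintro ⟨w, t⟩ ⟨hw, ht⟩
  have hw' : w ∈ D := hw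
  obtain ⟨ht0, ht1⟩ : (0 : ℝ) ≤ t ∧ t ≤ 1 := ht
  obtain ⟨a1, a2⟩ := h3 _ (hqR w hw')
  obtain ⟨b1, b2⟩ := h4 _ (hqR w hw')
  refine ⟨hR (hqR w hw'), ?_, ?_⟩
  · have := mul_nonneg (sub_nonneg.2 ht1) a1
    have := mul_nonneg ht0 b1
    show 0 ≤ (1 - t) * η (q w) + t * η' (q w)
    linarith
  · show (1 - t) * η (q w) + t * η' (q w) ≤ 1
    nlinarith

theorem conv_bd {a a' t : ℝ} (ht : t ∈ Icc (0 : ℝ) 1) (h1 : 0 ≤ a ∧ a ≤ 1 / 2)
    (h2 : 0 ≤ a' ∧ a' ≤ 1 / 2) : 0 ≤ (1 - t) * a + t * a' ∧ (1 - t) * a + t * a' ≤ 1 / 2 := by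
  obtain ⟨ht0, ht1⟩ := ht
  have e1 := mul_nonneg (sub_nonneg.2 ht1) h1.1
  have e2 := mul_nonneg ht0 h2.1
  refine ⟨by linarith, ?_⟩
  nlinarith [h1.2, h2.2]

theorem adm (J : Ct) (η η' : ℂ × ℝ → ℝ) (t : ℝ) (ht : t ∈ Icc (0 : ℝ) 1) (h : Adm J η)
    (h' : Adm J η') : Adm J (fun v => (1 - t) * η v + t * η' v) := by
  refine ⟨(h.1.const_mul _).add (h'.1.const_mul _), ?_⟩
  intro v hv
  obtain ⟨a1, a2, a3⟩ := h.2 v hv
  obtain ⟨b1, b2, b3⟩ := h'.2 v hv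
  obtain ⟨e1, e2⟩ := conv_bd ht ⟨a1, a2⟩ ⟨b1, b2⟩
  refine ⟨e1, e2, ?_, ?_⟩
  · intro h0
    have h0' : (1 - t) * η v + t * η' v = 0 := h0
    have f1 := mul_nonneg (sub_nonneg.2 ht.2) a1
    have f2 := mul_nonneg ht.1 b1
    rcases eq_or_lt_of_le ht.1 with h2 | h2
    · apply a3.1
      rw [← h2] at h0'
      linarith
    · apply b3.1
      have h3 : t * η' v = 0 := by linarith
      rcases mul_eq_zero.1 h3 with h4 | h4
      · exact absurd h4 h2.ne'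
      · exact h4
  · intro h0
    show (1 - t) * η v + t * η' v = 0
    rw [a3.2 h0, b3.2 h0]
    ring

theorem admP (b : Bool) (η η' : ℂ × ℝ → ℝ) (t : ℝ) (ht : t ∈ Icc (0 : ℝ) 1) (h : AdmP b η)
    (h' : AdmP b η') : AdmP b (fun v => (1 - t) * η v + t * η' v) := by
  refine ⟨(h.1.const_mul _).add (h'.1.const_mul _), ?_⟩
  intro v hv
  obtain ⟨a1, a2⟩ := h.2 v hv
  obtain ⟨b1, b2⟩ := h'.2 v hv
  obtain ⟨e1, e2⟩ := conv_bd ht ⟨a1.le, a2⟩ ⟨b1.le, b2⟩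
  refine ⟨?_, e2⟩
  show 0 < (1 - t) * η v + t * η' v
  rcases eq_or_lt_of_le ht.1 with h2 | h2
  · rw [← h2]
    simpa using a1
  · have f1 := mul_nonneg (sub_nonneg.2 ht.2) a1.le
    have f2 := mul_pos h2 b1
    linarith

theorem contqP (b : Bool) : Continuous (qP b) := by
  unfold qP
  fun_prop

end L1x

open L1x in
theorem t_L1 : M_L1 := by
  intro hQI hGE hPE Y _ _ T H V c hC hP
  have hRg : ∀ b j d, Rg b j d ⊆ Sph := fun b j d v hv => hv.1.1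
  have hHem : ∀ b, Hem b ⊆ Sph := fun b v hv => hv.1
  refine ⟨?_, ?_, ?_, ?_⟩
  · intro J η hη
    refine Or.inr ⟨_, hGE Y T H V c hC J η hη, ?_⟩
    unfold GD
    rw [← (hQI J.1 J.2.1 J.2.2).2.2.2, image_image]
  · intro J η η' hη hη'
    have him := (hQI J.1 J.2.1 J.2.2).2.2.2
    have hqc : ContinuousOn (fun w => qI J.1 J.2.1 J.2.2 (w, 0)) HDisk := by
      refine (hQI J.1 J.2.1 J.2.2).1.comp (by fun_prop) ?_
      intro w hw
      exact ⟨hw, by constructor <;> norm_num⟩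
    have hqR : ∀ w ∈ HDisk, qI J.1 J.2.1 J.2.2 (w, 0) ∈ Rg J.1 J.2.1 J.2.2 := by
      intro w hw
      rw [← him]
      exact ⟨w, hw, rfl⟩
    refine Or.inr ⟨fun x => c (qI J.1 J.2.1 J.2.2 (x.1, 0),
      (1 - x.2) * η (qI J.1 J.2.1 J.2.2 (x.1, 0)) + x.2 * η' (qI J.1 J.2.1 J.2.2 (x.1, 0))),
      ?_, ?_, ?_, ?_⟩
    · exact contF c HDisk (Rg J.1 J.2.1 J.2.2) (fun w => qI J.1 J.2.1 J.2.2 (w, 0)) η η'
        (hRg _ _ _) hC.cont hqc hqR hη.1 hη'.1 (fun v hv => ⟨(hη.2 v hv).1, (hη.2 v hv).2.1⟩)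
        (fun v hv => ⟨(hη'.2 v hv).1, (hη'.2 v hv).2.1⟩)
    · intro t ht
      exact hGE Y T H V c hC J _ (adm J η η' t ht hη hη')
    · unfold GD
      rw [← him, image_image]
      apply image_congr
      intro w _
      simp
    · unfold GD
      rw [← him, image_image]
      apply image_congr
      intro w _
      simp
  · intro b η hη
    refine Or.inl ⟨_, (hPE Y T H V c hC hP b η hη).1, ?_⟩
    unfold PD
    rw [← (hPE Y T H V c hC hP b η hη).2, image_image]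
  · intro b η η' hη hη'
    have him := (hPE Y T H V c hC hP b η hη).2
    have hqR : ∀ w ∈ Disk, qP b w ∈ Hem b := by
      intro w hw
      rw [← him]
      exact ⟨w, hw, rfl⟩
    refine Or.inl ⟨fun x => c (qP b x.1, (1 - x.2) * η (qP b x.1) + x.2 * η' (qP b x.1)),
      ?_, ?_, ?_, ?_⟩
    · exact contF c Disk (Hem b) (qP b) η η' (hHem b) hC.cont (contqP b).continuousOn hqR hη.1
        hη'.1 (fun v hv => ⟨(hη.2 v hv).1.le, (hη.2 v hv).2⟩)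
        (fun v hv => ⟨(hη'.2 v hv).1.le, (hη'.2 v hv).2⟩)
    · intro t ht
      exact (hPE Y T H V c hC hP b _ (admP b η η' t ht hη hη')).1
    · unfold PD
      rw [← him, image_image]
      apply image_congr
      intro w _
      simp
    · unfold PD
      rw [← him, image_image]
      apply image_congr
      intro w _
      simp

end Pool.Agent.LIX.S
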