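import Pool.Agent.LIX.StmtsS

/-!
# LIX, block S: simultaneous representatives
-/

set_option autoImplicit false

namespace Pool.Agent.LIX.S

open Set Metric Complex

noncomputable section

namespace L2x

theorem isClosed_Sph : IsClosed Sph := by
  unfold Sph
  exact isClosed_eq (by fun_prop) continuous_const

theorem isCompact_Disk : IsCompact Disk := by
  have : Disk = closedBall (0 : ℂ) 1 := by
    ext z
    change ‖z‖ ≤ 1 ↔ z ∈ closedBall (0 : ℂ) 1
    rw [mem_closedBall_zero_iff]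
  rw [this]
  exact isCompact_closedBall 0 1

theorem isCompact_HDisk : IsCompact HDisk := by
  refine isCompact_Disk.of_isClosed_subset ?_ fun z hz => hz.1
  exact (isClosed_le (f := fun z : ℂ => ‖z‖) continuous_norm continuous_const).inter
    (isClosed_le continuous_const Complex.continuous_im)

/-! ### the weights -/

theorem den_pos (J : Ct) : (8 : ℝ) ≤ 8 + 4 * ((J.2.1 : ℕ) : ℝ) ∧ (8 : ℝ) ≤ 16 - 4 * ((J.2.1 : ℕ) : ℝ) := by
  have h1 : ((J.2.1 : ℕ) : ℝ) ≤ 2 := by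
    have : (J.2.1 : ℕ) ≤ 2 := by omega
    exact_mod_cast this
  have h2 : (0 : ℝ) ≤ ((J.2.1 : ℕ) : ℝ) := Nat.cast_nonneg _
  constructor <;> linarith

theorem xi_facts (hDLC : S_DLC) (J : Ct) {v : ℂ × ℝ} (hv : v ∈ Rg J.1 J.2.1 J.2.2) :
    0 ≤ xi J v ∧ xi J v ≤ 3 / 8 ∧ (xi J v = 0 ↔ dl J.1 J.2.1 v = 0) := by
  obtain ⟨b, j, d⟩ := J
  have h3 := (hDLC b j).2.1 v hv.1
  have h4 : 0 ≤ sg d * dl b j v := hv.2
  obtain ⟨p1, p2⟩ := den_pos (b, j, d)
  change (8 : ℝ) ≤ 8 + 4 * ((j : ℕ) : ℝ) at p1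
  change (8 : ℝ) ≤ 16 - 4 * ((j : ℕ) : ℝ) at p2
  rw [abs_le] at h3
  unfold xi
  change 0 ≤ (if d = true then dl b j v / (8 + 4 * ((j : ℕ) : ℝ)) else
      -dl b j v / (16 - 4 * ((j : ℕ) : ℝ))) ∧
    (if d = true then dl b j v / (8 + 4 * ((j : ℕ) : ℝ)) else
      -dl b j v / (16 - 4 * ((j : ℕ) : ℝ))) ≤ 3 / 8 ∧
    ((if d = true then dl b j v / (8 + 4 * ((j : ℕ) : ℝ)) else
      -dl b j v / (16 - 4 * ((j : ℕ) : ℝ))) = 0 ↔ dl b j v = 0)
  cases d
  · rw [if_neg Bool.false_ne_true]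
    have h5 : 0 ≤ -dl b j v := by simpa [sg] using h4
    refine ⟨div_nonneg h5 (by linarith), ?_, ?_⟩
    · rw [div_le_iff₀ (by linarith)]
      linarith
    · rw [div_eq_zero_iff, neg_eq_zero]
      constructor
      · rintro (h | h)
        · exact h
        · exfalso; linarith
      · exact fun h => Or.inl h
  · rw [if_pos rfl]
    have h5 : 0 ≤ dl b j v := by simpa [sg] using h4
    refine ⟨div_nonneg h5 (by linarith), ?_, ?_⟩
    · rw [div_le_iff₀ (by linarith)]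
      linarith
    · rw [div_eq_zero_iff]
      constructor
      · rintro (h | h)
        · exact h
        · exfalso; linarith
      · exact fun h => Or.inl h

theorem xi_cont (hDLC : S_DLC) (J : Ct) : ContinuousOn (xi J) (Rg J.1 J.2.1 J.2.2) := by
  have h1 : ContinuousOn (dl J.1 J.2.1) (Rg J.1 J.2.1 J.2.2) :=
    (hDLC J.1 J.2.1).1.mono fun v hv => hv.1.2
  unfold xi
  by_cases h : J.2.2 = true
  · simp only [h, if_true]
    rw [h] at h1
    exact h1.div_const _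
  · have h2 : ∀ v, (if J.2.2 = true then dl J.1 J.2.1 v / (8 + 4 * ((J.2.1 : ℕ) : ℝ)) else
        -dl J.1 J.2.1 v / (16 - 4 * ((J.2.1 : ℕ) : ℝ))) =
        -dl J.1 J.2.1 v / (16 - 4 * ((J.2.1 : ℕ) : ℝ)) := fun v => if_neg h
    simp only [h2]
    exact h1.neg.div_const _

/-! ### heights -/

/-- the domains -/
def dom (J : Option Ct) : Set (ℂ × ℝ) :=
  match J with
  | none => Hem true
  | some J => Rg J.1 J.2.1 J.2.2

/-- the height functions -/
def ht (μ : ℂ × ℝ → ℝ) (J : Option Ct) (v : ℂ × ℝ) : ℝ :=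
  match J with
  | none => μ v / 2
  | some J => μ v * xi J v / 2

variable {Y : Type} [TopologicalSpace Y] {T : Cells Y} {H : Set Y}
  {V : Bool → Set Y} {c : (ℂ × ℝ) × ℝ → Y}

/-- the disks -/
def Ed (c : (ℂ × ℝ) × ℝ → Y) (μ : ℂ × ℝ → ℝ) (J : Option Ct) : Set Y :=
  match J with
  | none => PD c true (fun v => μ v / 2)
  | some J => GD c J (fun v => μ v * xi J v / 2)

theorem Ed_eq (μ : ℂ × ℝ → ℝ) (J : Option Ct) :
    Ed c μ J = (fun v => c (v, ht μ J v)) '' dom J := by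
  cases J <;> rfl

theorem dom_sub (J : Option Ct) {v : ℂ × ℝ} (h : v ∈ dom J) : v ∈ Sph := by
  cases J with
  | none => exact h.1
  | some J => exact h.1.1

/-- admissible heights, both cases -/
def AdmO (J : Option Ct) (η : ℂ × ℝ → ℝ) : Prop :=
  match J with
  | none => AdmP true η
  | some J => Adm J η

theorem isClosed_CE [T2Space Y] {D : Set Y} (h : IsCE T H D) : IsClosed D := by
  rcases h with ⟨f, ⟨⟨Φ, hc, -, -, h0⟩, -⟩, rfl⟩ | ⟨f, ⟨⟨Φ, hc, -, -, h0⟩, -⟩, rfl⟩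
  · have e : f '' Disk = (fun z => Φ (z, 0)) '' Disk := image_congr fun z hz => (h0 z hz).symm
    rw [e]
    exact (isCompact_Disk.image_of_continuousOn (hc.comp
      (continuousOn_id.prodMk continuousOn_const) fun z hz =>
      mk_mem_prod hz ⟨by norm_num, by norm_num⟩)).isClosed
  · have e : f '' HDisk = (fun z => Φ (z, 0)) '' HDisk := image_congr fun z hz => (h0 z hz).symm
    rw [e]
    exact (isCompact_HDisk.image_of_continuousOn (hc.comp
      (continuousOn_id.prodMk continuousOn_const) fun z hz =>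
      mk_mem_prod hz ⟨by norm_num, by norm_num⟩)).isClosed

/-- the obstacle -/
def obs (c : (ℂ × ℝ) × ℝ → Y) (B : Set Y) : Set ((ℂ × ℝ) × ℝ) :=
  Sph ×ˢ {1} ∪ (Sph ×ˢ Icc 0 1 ∩ c ⁻¹' B)

theorem isClosed_obs (hC : Collar T H V c) {B : Set Y} (hB : IsClosed B) :
    IsClosed (obs c B) :=
  (isClosed_Sph.prod isClosed_singleton).union
    (hC.cont.preimage_isClosed_of_isClosed (isClosed_Sph.prod isClosed_Icc) hB)

/-- the distance to the obstacle -/
def mu (c : (ℂ × ℝ) × ℝ → Y) (B : Set Y) (v : ℂ × ℝ) : ℝ := infDist (v, (0 : ℝ)) (obs c B)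

theorem mu_cont (B : Set Y) : Continuous (mu c B) :=
  (continuous_infDist_pt _).comp (continuous_id.prodMk continuous_const)

theorem mu_nonneg (B : Set Y) (v : ℂ × ℝ) : 0 ≤ mu c B v := infDist_nonneg

theorem mu_le_of_mem {B : Set Y} {v : ℂ × ℝ} {l : ℝ} (h : (v, l) ∈ obs c B) (hl : 0 ≤ l) :
    mu c B v ≤ l := by
  refine le_trans (infDist_le_dist_of_mem h) ?_
  rw [Prod.dist_eq, dist_self, Real.dist_eq, zero_sub, abs_neg, abs_of_nonneg hl]
  exact le_of_eq (max_eq_right hl)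

theorem mu_le_one (B : Set Y) {v : ℂ × ℝ} (hv : v ∈ Sph) : mu c B v ≤ 1 :=
  mu_le_of_mem (Or.inl (mk_mem_prod hv rfl)) zero_le_one

theorem mu_zero (hC : Collar T H V c) {B : Set Y} (hB : IsClosed B) {v : ℂ × ℝ} (hv : v ∈ Sph)
    (h : mu c B v = 0) : c (v, 0) ∈ B := by
  have hne : (obs c B).Nonempty := ⟨(v, 1), Or.inl (mk_mem_prod hv rfl)⟩
  have h1 : (v, (0 : ℝ)) ∈ obs c B := ((isClosed_obs hC hB).mem_iff_infDist_zero hne).2 h
  rcases h1 with h1 | h1
  · exfalso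
    have : (0 : ℝ) = 1 := h1.2
    exact zero_ne_one this
  · exact h1.2

theorem admO (hDLC : S_DLC) {μ : ℂ × ℝ → ℝ} (hμ : Continuous μ)
    (h0 : ∀ v ∈ Sph, 0 ≤ μ v ∧ μ v ≤ 1) (J : Option Ct)
    (hz : ∀ v ∈ dom J, μ v = 0 → ∃ J0, J = some J0 ∧ dl J0.1 J0.2.1 v = 0) :
    AdmO J (ht μ J) := by
  cases J with
  | none =>
    refine ⟨(hμ.div_const 2).continuousOn, ?_⟩
    intro v hv
    obtain ⟨h1, h2⟩ := h0 v hv.1
    have h3 : μ v ≠ 0 := by
      intro h
      obtain ⟨J0, hJ0, -⟩ := hz v hv h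
      exact absurd hJ0 (by simp)
    have h4 : 0 < μ v := lt_of_le_of_ne h1 (Ne.symm h3)
    change 0 < μ v / 2 ∧ μ v / 2 ≤ 1 / 2
    constructor <;> linarith
  | some J =>
    refine ⟨(hμ.continuousOn.mul (xi_cont hDLC J)).div_const 2, ?_⟩
    intro v hv
    obtain ⟨h1, h2⟩ := h0 v hv.1.1
    obtain ⟨h3, h4, h5⟩ := xi_facts hDLC J hv
    change 0 ≤ μ v * xi J v / 2 ∧ μ v * xi J v / 2 ≤ 1 / 2 ∧
      (μ v * xi J v / 2 = 0 ↔ dl J.1 J.2.1 v = 0)
    refine ⟨by positivity, ?_, ?_⟩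
    · have : μ v * xi J v ≤ 1 * 1 := mul_le_mul h2 (by linarith) h3 zero_le_one
      linarith
    · constructor
      · intro h
        have h6 : μ v * xi J v = 0 := by linarith
        rcases mul_eq_zero.1 h6 with h7 | h7
        · obtain ⟨J0, hJ0, h8⟩ := hz v hv h7
          rw [Option.some.injEq] at hJ0
          rw [hJ0]
          exact h8
        · exact h5.1 h7
      · intro h
        rw [h5.2 h, mul_zero, zero_div]

theorem ce_O {hC : Collar T H V c}
    (h1 : ∀ (J : Ct) (η : ℂ × ℝ → ℝ), Adm J η → IsCE T H (GD c J η))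
    (h2 : ∀ (b : Bool) (η : ℂ × ℝ → ℝ), AdmP b η → IsCE T H (PD c b η)) {μ : ℂ × ℝ → ℝ}
    {J : Option Ct} (h : AdmO J (ht μ J)) : IsCE T H (Ed c μ J) := by
  cases J with
  | none => exact h2 _ _ h
  | some J => exact h1 _ _ h

theorem iso_O
    (h1 : ∀ (J : Ct) (η η' : ℂ × ℝ → ℝ), Adm J η → Adm J η' → Isotopic T H (GD c J η) (GD c J η'))
    (h2 : ∀ (b : Bool) (η η' : ℂ × ℝ → ℝ), AdmP b η → AdmP b η' →
      Isotopic T H (PD c b η) (PD c b η')) {μ μ' : ℂ × ℝ → ℝ}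
    {J : Option Ct} (h : AdmO J (ht μ J)) (h' : AdmO J (ht μ' J)) :
    Isotopic T H (Ed c μ J) (Ed c μ' J) := by
  cases J with
  | none => exact h2 _ _ _ h h'
  | some J => exact h1 _ _ _ h h'

theorem adm_one (hDLC : S_DLC) (J : Option Ct) : AdmO J (ht (fun _ => 1) J) := by
  apply admO hDLC continuous_const
  · intro v _
    exact ⟨zero_le_one, le_rfl⟩
  · intro v _ h
    exact absurd h one_ne_zero

theorem skel_mem (hCHE : S_CHE) (hC : Collar T H V c) {b : Bool} {j : Fin 3} {v : ℂ × ℝ}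
    (h : v ∈ ch b j) : c (v, 0) ∈ T.skel := by
  obtain ⟨i, i', hi⟩ := hCHE.1 b j
  have h1 : c (v, 0) ∈ T.edge i i' := by
    rw [hC.edge]
    exact mem_image_of_mem (fun v => c (v, 0)) (hi h)
  exact mem_iUnion.2 ⟨i, mem_iUnion.2 ⟨i', h1⟩⟩

end L2x

open L2x in
theorem t_L2 : M_L2 := by
  classical
  intro hDLC hCHE hXI hTRC hKND hKIN hL1 Y _ _ T H V c hC hP
  obtain ⟨g1, g2, g3, g4⟩ := hL1 Y T H V c hC hP
  refine ⟨fun J => cls ⟨Ed c (fun _ => 1) J, ce_O (hC := hC) g1 g3 (adm_one hDLC J)⟩, ?_⟩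
  intro s D k Js hs hdis hk hJJ hne
  -- the obstacle
  set B : Set Y := ⋃ v ∈ s, (D v).1 with hB
  have hBc : IsClosed B := s.finite_toSet.isClosed_biUnion fun v _ => isClosed_CE (D v).2
  set μ := mu c B with hμ
  have hμ0 : ∀ v ∈ Sph, 0 ≤ μ v ∧ μ v ≤ 1 := fun v hv => ⟨mu_nonneg B v, mu_le_one B hv⟩
  have h00 : (0 : ℝ) ∈ Icc (0 : ℝ) 1 := ⟨le_rfl, zero_le_one⟩
  have hz : ∀ J ∈ Js, ∀ v ∈ dom J, μ v = 0 → ∃ J0, J = some J0 ∧ dl J0.1 J0.2.1 v = 0 := by
    intro J hJ v hv h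
    have h1 : c (v, 0) ∈ B := mu_zero hC hBc (dom_sub J hv) h
    obtain ⟨w, hw, h2⟩ := mem_iUnion₂.1 h1
    have h3 : c (v, 0) ∈ T.bd := by
      rw [hC.bd]
      exact mem_image_of_mem _ (mk_mem_prod (dom_sub J hv) rfl)
    have h4 := (hs w hw).2
    have h5 := hk J hJ w hw
    cases hkw : k w with
    | none =>
      exfalso
      rw [hkw] at h4
      have h6 : (D w).1 ∩ T.bd = ∅ := h4
      have h7 : c (v, 0) ∈ (D w).1 ∩ T.bd := ⟨h2, h3⟩
      rw [h6] at h7
      exact h7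
    | some q =>
      rw [hkw] at h4 h5
      have h6 : (D w).1 ∩ T.bd = (fun v => c (v, 0)) '' ch q.1 q.2 := h4
      have h7 : c (v, 0) ∈ (D w).1 ∩ T.bd := ⟨h2, h3⟩
      rw [h6] at h7
      obtain ⟨v', hv', h8⟩ := h7
      have h9 : v' = v := congrArg Prod.fst (hC.inj (mk_mem_prod hv'.1.1 h00)
        (mk_mem_prod (dom_sub J hv) h00) h8)
      rw [h9] at hv'
      cases J with
      | none => exact absurd h5 (by simp [cptk])
      | some J => exact ⟨J, rfl, hTRC J q h5 v hv hv'⟩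
  have hadm : ∀ J ∈ Js, AdmO J (ht μ J) := fun J hJ =>
    admO hDLC (mu_cont B) hμ0 J (hz J hJ)
  -- bounds for the heights
  have hbd : ∀ J ∈ Js, ∀ v ∈ dom J, 0 ≤ ht μ J v ∧ ht μ J v ≤ μ v / 2 := by
    intro J hJ v hv
    obtain ⟨m1, m2⟩ := hμ0 v (dom_sub J hv)
    cases J with
    | none =>
      change 0 ≤ μ v / 2 ∧ μ v / 2 ≤ μ v / 2
      exact ⟨by linarith, le_rfl⟩
    | some J =>
      obtain ⟨h3, h4, -⟩ := xi_facts hDLC J hv
      change 0 ≤ μ v * xi J v / 2 ∧ μ v * xi J v / 2 ≤ μ v / 2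
      refine ⟨by positivity, ?_⟩
      have : μ v * xi J v ≤ μ v * 1 := mul_le_mul_of_nonneg_left (by linarith) m1
      linarith
  have hIcc : ∀ J ∈ Js, ∀ v ∈ dom J, ht μ J v ∈ Icc (0 : ℝ) 1 := by
    intro J hJ v hv
    obtain ⟨h1, h2⟩ := hbd J hJ v hv
    have h3 := (hμ0 v (dom_sub J hv)).2
    exact ⟨h1, by linarith⟩
  -- a point of height zero over the domain is in the skeleton
  have hskel : ∀ J ∈ Js, ∀ v ∈ dom J, μ v = 0 → c (v, ht μ J v) ∈ T.skel := by
    intro J hJ v hv h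
    obtain ⟨J0, rfl, h1⟩ := hz J hJ v hv h
    have h2 : ht μ (some J0) v = 0 := by
      change μ v * xi J0 v / 2 = 0
      rw [h, zero_mul, zero_div]
    rw [h2]
    exact skel_mem hCHE hC (b := J0.1) (j := J0.2.1) ⟨hv.1, h1⟩
  have hch : ∀ J0 : Ct, ∀ v ∈ Rg J0.1 J0.2.1 J0.2.2, v ∈ ch J0.1 J0.2.1 →
      c (v, ht μ (some J0) v) ∈ T.skel := by
    intro J0 v hv h
    have h2 : ht μ (some J0) v = 0 := by
      change μ v * xi J0 v / 2 = 0
      rw [(xi_facts hDLC J0 hv).2.2.2 h.2, mul_zero, zero_div]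
    rw [h2]
    exact skel_mem hCHE hC h
  -- disk of `s` and graph
  have hmix : ∀ w ∈ s, ∀ J ∈ Js, (D w).1 ∩ Ed c μ J ⊆ T.skel := by
    rintro w hw J hJ y ⟨hy, hy'⟩
    rw [Ed_eq] at hy'
    obtain ⟨v, hv, rfl⟩ := hy'
    obtain ⟨h1, h2⟩ := hbd J hJ v hv
    have h3 : (v, ht μ J v) ∈ obs c B := Or.inr ⟨mk_mem_prod (dom_sub J hv) (hIcc J hJ v hv),
      mem_iUnion₂.2 ⟨w, hw, hy⟩⟩
    have h4 : μ v ≤ ht μ J v := mu_le_of_mem h3 h1
    exact hskel J hJ v hv (le_antisymm (by linarith) (hμ0 v (dom_sub J hv)).1)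
  -- two graphs
  have hgg : ∀ J ∈ Js, ∀ J' ∈ Js, J ≠ J' → Ed c μ J ∩ Ed c μ J' ⊆ T.skel := by
    rintro J hJ J' hJ' hne y ⟨hy, hy'⟩
    rw [Ed_eq] at hy hy'
    obtain ⟨v, hv, rfl⟩ := hy
    obtain ⟨v', hv', h1⟩ := hy'
    have h2 := hC.inj (mk_mem_prod (dom_sub J' hv') (hIcc J' hJ' v' hv'))
      (mk_mem_prod (dom_sub J hv) (hIcc J hJ v hv)) h1
    have h3 : v' = v := congrArg Prod.fst h2
    rw [h3] at hv' h2
    have h4 : ht μ J' v = ht μ J v := congrArg Prod.snd h2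
    have hcp := hJJ J hJ J' hJ' hne
    cases J with
    | none =>
      cases J' with
      | none => exact absurd rfl hne
      | some J' =>
        have h5 : μ v * xi J' v / 2 = μ v / 2 := h4
        have h6 := xi_facts hDLC J' hv'
        have h7 : μ v = 0 := by
          have h8 : μ v * (1 - xi J' v) = 0 := by linarith
          rcases mul_eq_zero.1 h8 with h9 | h9
          · exact h9
          · exfalso; linarith [h6.2.1]
        exact hskel none hJ v hv h7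
    | some J =>
      cases J' with
      | none =>
        have h5 : μ v / 2 = μ v * xi J v / 2 := h4
        have h6 := xi_facts hDLC J hv
        have h7 : μ v = 0 := by
          have h8 : μ v * (1 - xi J v) = 0 := by linarith
          rcases mul_eq_zero.1 h8 with h9 | h9
          · exact h9
          · exfalso; linarith [h6.2.1]
        exact hskel (some J) hJ v hv h7
      | some J' =>
        have hne' : J ≠ J' := fun h => hne (by rw [h])
        rcases hXI J J' hcp hne' v hv hv' with h5 | h5 | h5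
        · exact hch J v hv h5
        · have h6 := hch J' v hv' h5
          rw [h4] at h6
          exact h6
        · have h6 : μ v * xi J' v / 2 = μ v * xi J v / 2 := h4
          have h7 : μ v = 0 := by
            have h8 : μ v * (xi J v - xi J' v) = 0 := by linarith
            rcases mul_eq_zero.1 h8 with h9 | h9
            · exact h9
            · exact absurd (sub_eq_zero.1 h9) h5
          exact hskel (some J) hJ v hv h7
  -- representatives
  have hrep : ∀ v : Vtx T H, ∃ R : CE T H, (v ∈ s → R = D v) ∧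
      (v ∉ s → (∃ J ∈ Js, cls ⟨Ed c (fun _ => 1) J, ce_O (hC := hC) g1 g3 (adm_one hDLC J)⟩ = v) →
        ∃ J ∈ Js, cls ⟨Ed c (fun _ => 1) J, ce_O (hC := hC) g1 g3 (adm_one hDLC J)⟩ = v ∧
          R.1 = Ed c μ J ∧ cls R = v) := by
    intro v
    by_cases hv : v ∈ s
    · exact ⟨D v, fun _ => rfl, fun h => absurd hv h⟩
    · by_cases h : ∃ J ∈ Js,
        cls ⟨Ed c (fun _ => 1) J, ce_O (hC := hC) g1 g3 (adm_one hDLC J)⟩ = v
      · obtain ⟨J, hJ, hJv⟩ := h
        refine ⟨⟨Ed c μ J, ce_O (hC := hC) g1 g3 (hadm J hJ)⟩, fun h => absurd h hv,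
          fun _ _ => ⟨J, hJ, hJv, rfl, ?_⟩⟩
        rw [← hJv]
        exact Quot.sound (iso_O g2 g4 (hadm J hJ) (adm_one hDLC J))
      · exact ⟨D v, fun _ => rfl, fun _ h' => absurd h' h⟩
  choose R hR1 hR2 using hrep
  refine ⟨hne, R, ?_, ?_⟩
  · intro v hv
    by_cases hvs : v ∈ s
    · rw [hR1 v hvs]
      exact (hs v hvs).1
    · rcases Finset.mem_union.1 hv with h | h
      · exact absurd h hvs
      · obtain ⟨J, -, -, -, h1⟩ := hR2 v hvs (Finset.mem_image.1 h)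
        exact h1
  · intro v hv w hw hvw
    by_cases hvs : v ∈ s
    · rw [hR1 v hvs]
      by_cases hws : w ∈ s
      · rw [hR1 w hws]
        exact hdis v hvs w hws hvw
      · obtain ⟨J, hJ, -, h1, -⟩ := hR2 w hws
          (Finset.mem_image.1 ((Finset.mem_union.1 hw).resolve_left hws))
        rw [h1]
        exact hmix v hvs J hJ
    · obtain ⟨J, hJ, hJv, h1, -⟩ := hR2 v hvs
        (Finset.mem_image.1 ((Finset.mem_union.1 hv).resolve_left hvs))
      rw [h1]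
      by_cases hws : w ∈ s
      · rw [hR1 w hws, inter_comm]
        exact hmix w hws J hJ
      · obtain ⟨J', hJ', hJw, h2, -⟩ := hR2 w hws
          (Finset.mem_image.1 ((Finset.mem_union.1 hw).resolve_left hws))
        rw [h2]
        apply hgg J hJ J' hJ'
        rintro rfl
        exact hvw (by rw [← hJv, ← hJw])

end

end Pool.Agent.LIX.S
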