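import Pool.Agent.LIX.StmtsS

/-!
# LIX, block S, module LON: the longitude
-/

set_option autoImplicit false

namespace Pool.Agent.LIX.S

open Set Metric Complex

theorem lon_sg_mul (b : Bool) : sg b * sg b = 1 := by
  cases b <;> simp [sg]

theorem lon_cont_arg {z : ℂ} (hz : z ≠ 0) : ContinuousWithinAt arg {z : ℂ | 0 ≤ z.im} z := by
  by_cases h : z ∈ slitPlane
  · exact (Complex.continuousAt_arg h).continuousWithinAt
  · rw [Complex.mem_slitPlane_iff, not_or, not_lt, not_not] at h
    refine Complex.continuousWithinAt_arg_of_re_neg_of_im_zero (lt_of_le_of_ne h.1 fun h0 => hz ?_) h.2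
    exact Complex.ext h0 h.2

theorem t_LON : S_LON := by
  intro b
  have hp := Real.pi_pos
  constructor
  · intro v hv
    obtain ⟨h0, h1⟩ := hv
    have hne : (sg b : ℂ) * v.1 ≠ 0 := by
      refine mul_ne_zero ?_ h0
      rw [Complex.ofReal_ne_zero]
      intro h
      have := lon_sg_mul b
      rw [h] at this
      norm_num at this
    have hc : ContinuousWithinAt (fun v : ℂ × ℝ => (sg b : ℂ) * v.1)
        {v : ℂ × ℝ | v.1 ≠ 0 ∧ 0 ≤ sg b * v.1.im} v := by fun_prop
    have hm : MapsTo (fun v : ℂ × ℝ => (sg b : ℂ) * v.1)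
        {v : ℂ × ℝ | v.1 ≠ 0 ∧ 0 ≤ sg b * v.1.im} {z : ℂ | 0 ≤ z.im} := by
      rintro w ⟨-, hw⟩
      change 0 ≤ ((sg b : ℂ) * w.1).im
      rw [Complex.im_ofReal_mul]
      exact hw
    have h2 : ContinuousWithinAt (fun v : ℂ × ℝ => arg ((sg b : ℂ) * v.1))
        {v : ℂ × ℝ | v.1 ≠ 0 ∧ 0 ≤ sg b * v.1.im} v :=
      ContinuousWithinAt.comp (g := arg) (f := fun v : ℂ × ℝ => (sg b : ℂ) * v.1)
        (lon_cont_arg hne) hc hm
    exact h2.div_const _
  · intro v h0 h1
    set w : ℂ := (sg b : ℂ) * v.1 with hw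
    have hwim : w.im = sg b * v.1.im := by rw [hw, Complex.im_ofReal_mul]
    have hwre : w.re = sg b * v.1.re := by rw [hw, Complex.re_ofReal_mul]
    have habs : |sg b| = 1 := by cases b <;> simp [sg]
    have hn : ‖w‖ = ‖v.1‖ := by
      rw [hw, norm_mul, Complex.norm_real, Real.norm_eq_abs, habs, one_mul]
    have hw0 : w ≠ 0 := by
      rw [← norm_ne_zero_iff, hn, norm_ne_zero_iff]
      exact h0
    have hlon : lon b v = arg w / Real.pi := rfl
    have hvw : v.1 = (sg b : ℂ) * w := by
      rw [hw, ← mul_assoc, ← Complex.ofReal_mul, lon_sg_mul, Complex.ofReal_one, one_mul]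
    have g0 : 0 ≤ arg w := Complex.arg_nonneg_iff.2 (by rw [hwim]; exact h1)
    have g1 : arg w ≤ Real.pi := Complex.arg_le_pi w
    have hs0 : sg b ≠ 0 := by
      intro h
      have := lon_sg_mul b
      rw [h] at this
      norm_num at this
    refine ⟨⟨div_nonneg g0 hp.le, (div_le_one hp).2 g1⟩, ?_, ?_, ?_⟩
    · have e : Real.pi * lon b v = arg w := by
        rw [hlon]
        field_simp
      rw [e, mul_assoc, ← hn, Complex.norm_mul_exp_arg_mul_I]
      exact hvw
    · intro him
      have him' : w.im = 0 := by rw [hwim, him, mul_zero]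
      rcases lt_trichotomy w.re 0 with h | h | h
      · right
        refine ⟨?_, by rw [← hwre]; exact h⟩
        rw [hlon, Complex.arg_eq_pi_iff.2 ⟨h, him'⟩, div_self hp.ne']
      · exact absurd (Complex.ext h him') hw0
      · left
        refine ⟨?_, by rw [← hwre]; exact h⟩
        rw [hlon, Complex.arg_eq_zero_iff.2 ⟨h.le, him'⟩, zero_div]
    · intro h
      have hwim0 : w.im = 0 := by
        rcases h with h | h
        · rw [hlon, div_eq_zero_iff] at h
          have h2 : arg w = 0 := h.resolve_right hp.ne'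
          exact (Complex.arg_eq_zero_iff.1 h2).2
        · rw [hlon, div_eq_one_iff_eq hp.ne'] at h
          exact (Complex.arg_eq_pi_iff.1 h).2
      rw [hwim] at hwim0
      exact (mul_eq_zero.1 hwim0).resolve_left hs0

end Pool.Agent.LIX.S
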