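import Pool.Agent.LIX.StmtsS

/-!
# LIX, block S, module LSK: the skeleton near a chord
-/

set_option autoImplicit false

namespace Pool.Agent.LIX.S

open Set Metric Complex

namespace LSKx

/-- The possible heights of the skeleton over the longitude `f`. -/
def U (f u : ℝ) : Prop :=
  u = 4 * f - 2 ∨ u = 6 * f - 3 ∨ u = 2 + 4 * f ∨ u = 3 + 6 * f ∨ u = 6 + 4 * f ∨ u = 9 + 6 * f ∨
    u = 10 + 4 * f

/-- The possible slopes of the skeleton over the longitude `f`. -/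
def Cl (f : ℝ) (v : ℂ × ℝ) : Prop :=
  2 * ‖v.1‖ ≤ v.2 ∨ v.2 ≤ -2 * ‖v.1‖ ∨ ∃ u, v.2 = ‖v.1‖ * Mf u ∧ U f u

theorem nml_slope (hN : S_NML) (w : ℂ) (hw : ‖w‖ = 1) (m : ℝ) :
    0 < ‖(nml (w, m)).1‖ ∧ (nml (w, m)).2 = ‖(nml (w, m)).1‖ * m ∧
      (nml (w, m)).1 = (‖(nml (w, m)).1‖ : ℂ) * w := by
  have h0 : ((w, m) : ℂ × ℝ) ≠ 0 := by
    intro h
    have h1 : w = 0 := congrArg Prod.fst h
    rw [h1, norm_zero] at hw
    exact zero_ne_one hw
  have hpos : 0 < nrm (w, m) := (hN.2.1 _ h0).1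
  have hn : ‖(nml (w, m)).1‖ = (nrm (w, m))⁻¹ := by
    unfold nml
    simp only [norm_div, hw, Complex.norm_real, Real.norm_eq_abs, abs_of_pos hpos, one_div]
  refine ⟨by rw [hn]; positivity, ?_, ?_⟩
  · rw [hn]
    unfold nml
    simp only
    field_simp
  · rw [hn]
    unfold nml
    simp only
    push_cast
    rw [div_eq_inv_mul]

theorem angle {b : Bool} {s f : ℝ}
    (h : exp ((Real.pi * s : ℝ) * I) = (sg b : ℂ) * exp ((Real.pi * f : ℝ) * I)) :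
    ∃ n : ℤ, s = f + (if b = true then 0 else 1) + 2 * (n : ℝ) := by
  have hpi : (Real.pi : ℂ) ≠ 0 := by exact_mod_cast Real.pi_ne_zero
  have key : ∀ g : ℝ, exp ((Real.pi * s : ℝ) * I) = exp ((Real.pi * g : ℝ) * I) →
      ∃ n : ℤ, s = g + 2 * (n : ℝ) := by
    intro g hg
    rw [Complex.exp_eq_exp_iff_exists_int] at hg
    obtain ⟨n, hn⟩ := hg
    refine ⟨n, ?_⟩
    have h1 : (Real.pi : ℂ) * I * (s : ℂ) = (Real.pi : ℂ) * I * ((g : ℂ) + 2 * n) := by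
      push_cast at hn
      linear_combination hn
    have h2 : (s : ℂ) = (g : ℂ) + 2 * n := mul_left_cancel₀ (mul_ne_zero hpi I_ne_zero) h1
    exact_mod_cast h2
  cases b with
  | true =>
    have h1 : exp ((Real.pi * s : ℝ) * I) = exp ((Real.pi * f : ℝ) * I) := by
      rw [h]
      simp [sg]
    obtain ⟨n, hn⟩ := key f h1
    exact ⟨n, by simpa using hn⟩
  | false =>
    have h1 : exp ((Real.pi * s : ℝ) * I) = exp ((Real.pi * (f + 1) : ℝ) * I) := by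
      rw [h]
      have h2 : (((Real.pi * (f + 1) : ℝ) : ℂ) * I) = ((Real.pi * f : ℝ) : ℂ) * I + Real.pi * I := by
        push_cast
        ring
      rw [h2, Complex.exp_add, Complex.exp_pi_mul_I]
      simp [sg]
    obtain ⟨n, hn⟩ := key (f + 1) h1
    exact ⟨n, by simpa using hn⟩

/-- The points of a helix. -/
theorem cl_hlx (hN : S_NML) (hL : S_LON) {b : Bool} {β κ : ℝ}
    (hβ : (β = 1 / 2 ∧ κ = 1 / 6) ∨ (β = 1 / 2 ∧ κ = 1 / 4) ∨ (β = -1 / 2 ∧ κ = 1 / 4) ∨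
      (β = -1 / 2 ∧ κ = 1 / 6)) {v : ℂ × ℝ} (hv : v ∈ Hem b) (h : v ∈ hlx β κ) :
    Cl (lon b v) v := by
  obtain ⟨u, ⟨hu0, hu12⟩, rfl⟩ := h
  set w : ℂ := exp ((Real.pi * (β + κ * u) : ℝ) * I) with hw
  have hw1 : ‖w‖ = 1 := by rw [hw, Complex.norm_exp_ofReal_mul_I]
  obtain ⟨hp, hs, he⟩ := nml_slope hN w hw1 (Mf u)
  refine Or.inr (Or.inr ⟨u, hs, ?_⟩)
  set v : ℂ × ℝ := nml (w, Mf u) with hvd
  have hv0 : v.1 ≠ 0 := norm_pos_iff.1 hp
  obtain ⟨⟨hf0, hf1⟩, hpol, -, -⟩ := (hL b).2 v hv0 hv.2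
  set f : ℝ := lon b v with hf
  have hpc : ((‖v.1‖ : ℝ) : ℂ) ≠ 0 := by exact_mod_cast hp.ne'
  have h1 : w = (sg b : ℂ) * exp ((Real.pi * f : ℝ) * I) := by
    apply mul_left_cancel₀ hpc
    rw [← he]
    calc v.1 = (sg b : ℂ) * (‖v.1‖ : ℂ) * exp ((Real.pi * f : ℝ) * I) := hpol
      _ = _ := by ring
  obtain ⟨n, hn⟩ := angle (b := b) (s := β + κ * u) (f := f) (by rw [← h1, hw])
  have hn2 : (n : ℝ) < 2 := by
    rcases hβ with ⟨rfl, rfl⟩ | ⟨rfl, rfl⟩ | ⟨rfl, rfl⟩ | ⟨rfl, rfl⟩ <;> split_ifs at hn <;> linarith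
  have hn1 : (-2 : ℝ) < n := by
    rcases hβ with ⟨rfl, rfl⟩ | ⟨rfl, rfl⟩ | ⟨rfl, rfl⟩ | ⟨rfl, rfl⟩ <;> split_ifs at hn <;> linarith
  have hn3 : n = -1 ∨ n = 0 ∨ n = 1 := by
    have a1 : n < 2 := by exact_mod_cast hn2
    have a2 : -2 < n := by exact_mod_cast hn1
    omega
  unfold U
  rcases hn3 with rfl | rfl | rfl <;> push_cast at hn <;>
    rcases hβ with ⟨rfl, rfl⟩ | ⟨rfl, rfl⟩ | ⟨rfl, rfl⟩ | ⟨rfl, rfl⟩ <;> split_ifs at hn
  all_goals first
    | (exfalso; linarith)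
    | (left; linarith)
    | (right; left; linarith)
    | (right; right; left; linarith)
    | (right; right; right; left; linarith)
    | (right; right; right; right; left; linarith)
    | (right; right; right; right; right; left; linarith)
    | (right; right; right; right; right; right; linarith)

theorem norm_negI : ‖(-I : ℂ)‖ = 1 := by rw [norm_neg, Complex.norm_I]

theorem cl_skl (hN : S_NML) (hL : S_LON) {b : Bool} {v : ℂ × ℝ} (hv : v ∈ Hem b)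
    (h : v ∈ Skl) : Cl (lon b v) v := by
  unfold Skl at h
  rw [mem_iUnion] at h
  obtain ⟨i, h⟩ := h
  rw [mem_iUnion] at h
  obtain ⟨i', h⟩ := h
  have hp1 : v ∈ {v | v ∈ Sph ∧ v.1.re = 0 ∧ v.2 ≤ -2 * ‖v.1‖} → Cl (lon b v) v :=
    fun h => Or.inr (Or.inl h.2.2)
  have hp2 : v ∈ {v | v ∈ Sph ∧ v.1.re = 0 ∧ 2 * ‖v.1‖ ≤ v.2} → Cl (lon b v) v :=
    fun h => Or.inl h.2.2
  have hq1 : v ∈ ({nml (I, -2)} : Set (ℂ × ℝ)) → Cl (lon b v) v := by
    intro h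
    rw [mem_singleton_iff] at h
    obtain ⟨-, h2, -⟩ := nml_slope hN I Complex.norm_I (-2)
    rw [← h] at h2
    exact Or.inr (Or.inl (by rw [h2]; linarith))
  have hq2 : v ∈ ({nml (-I, -2)} : Set (ℂ × ℝ)) → Cl (lon b v) v := by
    intro h
    rw [mem_singleton_iff] at h
    obtain ⟨-, h2, -⟩ := nml_slope hN (-I) norm_negI (-2)
    rw [← h] at h2
    exact Or.inr (Or.inl (by rw [h2]; linarith))
  have hq3 : v ∈ ({nml (I, 2)} : Set (ℂ × ℝ)) → Cl (lon b v) v := by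
    intro h
    rw [mem_singleton_iff] at h
    obtain ⟨-, h2, -⟩ := nml_slope hN I Complex.norm_I 2
    rw [← h] at h2
    exact Or.inl (by rw [h2]; linarith)
  have hq4 : v ∈ ({nml (-I, 2)} : Set (ℂ × ℝ)) → Cl (lon b v) v := by
    intro h
    rw [mem_singleton_iff] at h
    obtain ⟨-, h2, -⟩ := nml_slope hN (-I) norm_negI 2
    rw [← h] at h2
    exact Or.inl (by rw [h2]; linarith)
  have hh1 : v ∈ hlx (1 / 2) (1 / 6) → Cl (lon b v) v := cl_hlx hN hL (by norm_num) hv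
  have hh2 : v ∈ hlx (1 / 2) (1 / 4) → Cl (lon b v) v := cl_hlx hN hL (by norm_num) hv
  have hh3 : v ∈ hlx (-1 / 2) (1 / 4) → Cl (lon b v) v := cl_hlx hN hL (by norm_num) hv
  have hh4 : v ∈ hlx (-1 / 2) (1 / 6) → Cl (lon b v) v := cl_hlx hN hL (by norm_num) hv
  fin_cases i <;> fin_cases i'
  exacts [hq1 h, hh1 h, hh2 h, hp1 h, hh1 h, hq3 h, hp2 h, hh3 h, hh2 h, hp2 h, hq4 h, hh4 h,
    hp1 h, hh3 h, hh4 h, hq2 h]

theorem hj_range (j : Fin 3) {f : ℝ} (h0 : 0 ≤ f) (h1 : f ≤ 1) : 2 ≤ hj j f ∧ hj j f ≤ 10 := by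
  fin_cases j <;> simp [hj] <;> constructor <;> linarith

theorem hj_gap (j : Fin 3) {f u : ℝ} (h0 : 0 ≤ f) (h1 : f ≤ 1) (hu : U f u) :
    u = hj j f ∨ u + 1 ≤ hj j f ∨ hj j f + 1 ≤ u := by
  unfold U at hu
  fin_cases j <;> simp only [hj] <;>
    rcases hu with rfl | rfl | rfl | rfl | rfl | rfl | rfl <;>
    first
      | (left; simp; done)
      | (right; left; simp; linarith)
      | (right; right; simp; linarith)

theorem pole {v : ℂ × ℝ} {b : Bool} (hv : v ∈ Hem b) (h0 : v.1 = 0) : |v.2| = 1 := by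
  have h1 : ‖v.1‖ ^ 2 + v.2 ^ 2 = 1 := hv.1
  rw [h0, norm_zero] at h1
  have h2 : v.2 ^ 2 = 1 := by linarith
  rcases (sq_eq_one_iff (a := v.2)).1 h2 with h | h <;> rw [h] <;> norm_num

end LSKx

open LSKx in
theorem t_LSK : M_LSK := by
  intro hM hN hL
  obtain ⟨-, hmono, -, hM2, -, -, -, hM10, -, hgap⟩ := hM
  have hrange : ∀ (j : Fin 3) (f : ℝ), 0 ≤ f → f ≤ 1 → -5 / 3 ≤ Mf (hj j f) ∧ Mf (hj j f) ≤ 1 := by
    intro j f h0 h1
    obtain ⟨a, c⟩ := hj_range j h0 h1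
    exact ⟨hM2 ▸ hmono.monotone a, hM10 ▸ hmono.monotone c⟩
  constructor
  · intro b j v hv hs hd
    by_cases h0 : v.1 = 0
    · exfalso
      have h1 := pole hv h0
      unfold dl at hd
      rw [h0, norm_zero, zero_mul, sub_zero, zero_div, h1] at hd
      linarith
    have hp : 0 < ‖v.1‖ := norm_pos_iff.2 h0
    obtain ⟨⟨hf0, hf1⟩, -, -, -⟩ := (hL b).2 v h0 hv.2
    obtain ⟨hr1, hr2⟩ := hrange j _ hf0 hf1
    have hd' := hd
    unfold dl at hd'
    rw [abs_le] at hd'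
    obtain ⟨hd1, hd2⟩ := hd'
    rcases cl_skl hN hL hv hs with h | h | ⟨u, hu, hU⟩
    · exfalso
      nlinarith
    · exfalso
      nlinarith
    · rcases hj_gap j hf0 hf1 hU with h | h | h
      · unfold dl
        rw [hu, h, sub_self]
      · exfalso
        have h1 : Mf u + 1 / 10 ≤ Mf (hj j (lon b v)) := le_trans (hgap u) (hmono.monotone h)
        rw [hu] at hd1
        nlinarith
      · exfalso
        have h1 : Mf (hj j (lon b v)) + 1 / 10 ≤ Mf u := le_trans (hgap _) (hmono.monotone h)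
        rw [hu] at hd2
        nlinarith
  · intro b v hv hs
    by_cases h0 : v.1 = 0
    · unfold dl
      rw [h0, norm_zero]
      simp only [zero_mul, sub_zero]
      constructor <;> rintro ⟨h1, h2⟩ <;> linarith
    have hp : 0 < ‖v.1‖ := norm_pos_iff.2 h0
    obtain ⟨⟨hf0, hf1⟩, -, -, -⟩ := (hL b).2 v h0 hv.2
    have key : ∀ j j' : Fin 3, dl b j v > 0 → dl b j' v < 0 →
        ∃ u, U (lon b v) u ∧ hj j (lon b v) < u ∧ u < hj j' (lon b v) := by
      intro j j' h1 h2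
      obtain ⟨hr1, hr2⟩ := hrange j _ hf0 hf1
      obtain ⟨hr3, hr4⟩ := hrange j' _ hf0 hf1
      unfold dl at h1 h2
      rcases cl_skl hN hL hv hs with h | h | ⟨u, hu, hU⟩
      · exfalso
        nlinarith
      · exfalso
        nlinarith
      · refine ⟨u, hU, ?_, ?_⟩
        · rw [hu, gt_iff_lt, sub_pos] at h1
          exact hmono.lt_iff_lt.1 (lt_of_mul_lt_mul_left h1 hp.le)
        · rw [hu, sub_neg] at h2
          exact hmono.lt_iff_lt.1 (lt_of_mul_lt_mul_left h2 hp.le)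
    constructor
    · rintro ⟨h1, h2⟩
      obtain ⟨u, hU, h3, h4⟩ := key 0 1 h1 h2
      simp only [hj, Matrix.cons_val_zero, Matrix.cons_val_one] at h3 h4
      unfold U at hU
      rcases hU with rfl | rfl | rfl | rfl | rfl | rfl | rfl <;> linarith
    · rintro ⟨h1, h2⟩
      obtain ⟨u, hU, h3, h4⟩ := key 1 2 h1 h2
      simp only [hj, Matrix.cons_val_one, Matrix.cons_val] at h3 h4
      unfold U at hU
      rcases hU with rfl | rfl | rfl | rfl | rfl | rfl | rfl <;> linarith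

end Pool.Agent.LIX.S
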