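import Pool.Agent.LIX.StmtsS

/-!
# LIX, block S, module MF: the function `Mf`
-/

set_option autoImplicit false

namespace Pool.Agent.LIX.S.MFx

open Set Metric Complex

/-- the middle part -/
noncomputable def mid (u : ℝ) : ℝ := Real.sin (Real.pi / 4 * (max 6 (min 10 u) - 8))

theorem Mf_eq (u : ℝ) : Mf u = min 0 ((u - 6) / 6) + mid u + max 0 ((u - 10) / 2) := rfl

theorem Mf_low {u : ℝ} (h : u ≤ 6) : Mf u = (u - 6) / 6 - 1 := by
  rw [Mf_eq, mid, min_eq_right (by linarith : (u - 6) / 6 ≤ 0), max_eq_left (by linarith : (u - 10) / 2 ≤ 0),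
    max_eq_left (by rw [min_eq_right (by linarith : u ≤ 10)]; exact h : min 10 u ≤ 6)]
  have : Real.pi / 4 * ((6 : ℝ) - 8) = -(Real.pi / 2) := by ring
  rw [this, Real.sin_neg, Real.sin_pi_div_two]
  ring

theorem Mf_high {u : ℝ} (h : 10 ≤ u) : Mf u = (u - 10) / 2 + 1 := by
  rw [Mf_eq, mid, min_eq_left (by linarith : (0 : ℝ) ≤ (u - 6) / 6), max_eq_right (by linarith : 0 ≤ (u - 10) / 2),
    min_eq_left h, max_eq_right (by norm_num : (6 : ℝ) ≤ 10)]
  have : Real.pi / 4 * ((10 : ℝ) - 8) = Real.pi / 2 := by ring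
  rw [this, Real.sin_pi_div_two]
  ring

theorem Mf_mid {u : ℝ} (h : 6 ≤ u) (h' : u ≤ 10) : Mf u = Real.sin (Real.pi / 4 * (u - 8)) := by
  rw [Mf_eq, mid, min_eq_left (by linarith : (0 : ℝ) ≤ (u - 6) / 6), max_eq_left (by linarith : (u - 10) / 2 ≤ 0),
    min_eq_right h', max_eq_right h]
  ring

theorem Mf_cont : Continuous Mf := by
  unfold Mf
  fun_prop

theorem mono_low : StrictMonoOn Mf (Iic 6) := by
  intro u hu w hw huw
  rw [Mf_low hu, Mf_low hw]
  linarith

theorem mono_high : StrictMonoOn Mf (Ici 10) := by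
  intro u hu w hw huw
  rw [Mf_high hu, Mf_high hw]
  linarith

theorem mono_mid : StrictMonoOn Mf (Icc 6 10) := by
  intro u hu w hw huw
  rw [Mf_mid hu.1 hu.2, Mf_mid hw.1 hw.2]
  have hp := Real.pi_pos
  apply Real.strictMonoOn_sin
  · constructor <;> nlinarith [hu.1, hu.2]
  · constructor <;> nlinarith [hw.1, hw.2]
  · nlinarith

theorem Mf_mono : StrictMono Mf := by
  have h1 : StrictMonoOn Mf (Iic 10) := by
    have : Iic (10 : ℝ) = Iic 6 ∪ Icc 6 10 := by
      ext x; simp only [mem_Iic, mem_union, mem_Icc]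
      constructor
      · intro h
        rcases le_total x 6 with h6 | h6
        · exact Or.inl h6
        · exact Or.inr ⟨h6, h⟩
      · rintro (h | h)
        · linarith
        · exact h.2
    rw [this]
    exact mono_low.union mono_mid isGreatest_Iic (isLeast_Icc (by norm_num))
  have h2 : StrictMonoOn Mf (Iic 10 ∪ Ici 10) := h1.union mono_high isGreatest_Iic isLeast_Ici
  rw [Iic_union_Ici] at h2
  exact strictMonoOn_univ.mp h2

theorem cos_ub {a : ℝ} (h0 : 0 ≤ a) (h1 : a ≤ 1) : Real.cos (Real.pi / 4 * a) ≤ 1 - a ^ 2 / 8 := by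
  have hp := Real.pi_pos
  have h := Real.cos_le_one_sub_mul_cos_sq (x := Real.pi / 4 * a)
    (by rw [abs_of_nonneg (by positivity)]; nlinarith)
  have h2 : 2 / Real.pi ^ 2 * (Real.pi / 4 * a) ^ 2 = a ^ 2 / 8 := by
    field_simp
    ring
  linarith

theorem gap_mid {x : ℝ} (h0 : -(Real.pi / 2) ≤ x) (h1 : x ≤ Real.pi / 4) :
    Real.sin x + 1 / 10 ≤ Real.sin (x + Real.pi / 4) := by
  have hp := Real.pi_pos
  have e1 : Real.sin (x + Real.pi / 4) - Real.sin x = 2 * Real.sin (Real.pi / 8) * Real.cos (x + Real.pi / 8) := by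
    rw [Real.sin_sub_sin]
    have a1 : (x + Real.pi / 4 - x) / 2 = Real.pi / 8 := by ring
    have a2 : (x + Real.pi / 4 + x) / 2 = x + Real.pi / 8 := by ring
    rw [a1, a2]
  have e2 : Real.cos (3 * Real.pi / 8) ≤ Real.cos (x + Real.pi / 8) := by
    rw [← Real.cos_abs (x + Real.pi / 8)]
    apply Real.cos_le_cos_of_nonneg_of_le_pi (abs_nonneg _) (by linarith)
    rw [abs_le]
    constructor <;> linarith
  have e3 : Real.cos (3 * Real.pi / 8) = Real.sin (Real.pi / 8) := by
    rw [← Real.cos_pi_div_two_sub]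
    congr 1
    ring
  have e4 : 0 < Real.sin (Real.pi / 8) := Real.sin_pos_of_pos_of_lt_pi (by linarith) (by linarith)
  have e5 : Real.cos (Real.pi / 4) = 1 - 2 * Real.sin (Real.pi / 8) ^ 2 := by
    have := Real.cos_two_mul (Real.pi / 8)
    have h2 := Real.sin_sq_add_cos_sq (Real.pi / 8)
    rw [show Real.pi / 4 = 2 * (Real.pi / 8) by ring, this]
    linarith
  have e6 := cos_ub (a := 1) (by norm_num) le_rfl
  rw [mul_one] at e6
  rw [e3] at e2
  nlinarith

theorem gap (u : ℝ) : Mf u + 1 / 10 ≤ Mf (u + 1) := by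
  have hp := Real.pi_pos
  rcases le_total u 5 with h | h
  · rw [Mf_low (by linarith : u ≤ 6), Mf_low (by linarith : u + 1 ≤ 6)]
    linarith
  rcases le_total u 6 with h6 | h6
  · rw [Mf_low h6, Mf_mid (by linarith : 6 ≤ u + 1) (by linarith : u + 1 ≤ 10)]
    have e := cos_ub (a := u - 5) (by linarith) (by linarith)
    have e1 : Real.sin (Real.pi / 4 * (u + 1 - 8)) = - Real.cos (Real.pi / 4 * (u - 5)) := by
      rw [show Real.pi / 4 * (u + 1 - 8) = Real.pi / 4 * (u - 5) - Real.pi / 2 by ring, Real.sin_sub_pi_div_two]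
    rw [e1]
    nlinarith [sq_nonneg (u - 5 - 2 / 3)]
  rcases le_total u 9 with h9 | h9
  · rw [Mf_mid h6 (by linarith), Mf_mid (by linarith : 6 ≤ u + 1) (by linarith : u + 1 ≤ 10)]
    have e := gap_mid (x := Real.pi / 4 * (u - 8)) (by nlinarith) (by nlinarith)
    rw [show Real.pi / 4 * (u + 1 - 8) = Real.pi / 4 * (u - 8) + Real.pi / 4 by ring]
    exact e
  rcases le_total u 10 with h10 | h10
  · rw [Mf_mid h6 h10, Mf_high (by linarith : 10 ≤ u + 1)]
    have e := cos_ub (a := 10 - u) (by linarith) (by linarith)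
    have e1 : Real.sin (Real.pi / 4 * (u - 8)) = Real.cos (Real.pi / 4 * (10 - u)) := by
      rw [← Real.sin_pi_div_two_sub]
      congr 1
      ring
    rw [e1]
    nlinarith [sq_nonneg (10 - u)]
  · rw [Mf_high h10, Mf_high (by linarith : 10 ≤ u + 1)]
    linarith

end Pool.Agent.LIX.S.MFx

namespace Pool.Agent.LIX.S

open Set Metric Complex MFx

/-- The function `Mf`: continuity, monotonicity, values, gap. -/
theorem t_MF : S_MF := by
  refine ⟨Mf_cont, Mf_mono, ?_, ?_, ?_, ?_, ?_, ?_, ?_, gap⟩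
  · rw [Mf_low (by norm_num)]; norm_num
  · rw [Mf_low (by norm_num)]; norm_num
  · rw [Mf_low (by norm_num)]; norm_num
  · rw [Mf_low (by norm_num)]; norm_num
  · rw [Mf_mid (by norm_num) (by norm_num)]; norm_num
  · rw [Mf_high (by norm_num)]; norm_num
  · rw [Mf_high (by norm_num)]; norm_num

end Pool.Agent.LIX.S
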