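import Pool.Agent.LIX.StmtsS

/-!
# LIX, block S, module NML: normalisation and the sphere
-/

set_option autoImplicit false

namespace Pool.Agent.LIX.S.NMLx

open Set Metric Complex

theorem sq_pos {v : ℂ × ℝ} (h : v ≠ 0) : 0 < ‖v.1‖ ^ 2 + v.2 ^ 2 := by
  by_contra hc
  push Not at hc
  have h1 : ‖v.1‖ ^ 2 = 0 := by nlinarith [sq_nonneg ‖v.1‖, sq_nonneg v.2]
  have h2 : v.2 ^ 2 = 0 := by nlinarith [sq_nonneg ‖v.1‖, sq_nonneg v.2]
  apply h
  apply Prod.ext
  · exact norm_eq_zero.mp (pow_eq_zero_iff (two_ne_zero) |>.mp h1)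
  · exact pow_eq_zero_iff (two_ne_zero) |>.mp h2

theorem nrm_pos {v : ℂ × ℝ} (h : v ≠ 0) : 0 < nrm v := Real.sqrt_pos.mpr (sq_pos h)

theorem nrm_sq (v : ℂ × ℝ) : nrm v ^ 2 = ‖v.1‖ ^ 2 + v.2 ^ 2 :=
  Real.sq_sqrt (by positivity)

theorem nrm_cont : Continuous nrm := by
  unfold nrm
  fun_prop

theorem norm_div_real (z : ℂ) {t : ℝ} (ht : 0 < t) : ‖z / (t : ℂ)‖ = ‖z‖ / t := by
  rw [norm_div, Complex.norm_real, Real.norm_of_nonneg ht.le]

theorem nml_mem {v : ℂ × ℝ} (h : v ≠ 0) : nml v ∈ Sph := by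
  have h0 := nrm_pos h
  have h1 := nrm_sq v
  show ‖v.1 / (nrm v : ℂ)‖ ^ 2 + (v.2 / nrm v) ^ 2 = 1
  rw [norm_div_real _ h0, div_pow, div_pow, ← add_div, ← h1, div_self (by positivity)]

theorem nrm_smul (v : ℂ × ℝ) {t : ℝ} (ht : 0 < t) : nrm ((t : ℂ) * v.1, t * v.2) = t * nrm v := by
  unfold nrm
  have : ‖(t : ℂ) * v.1‖ ^ 2 + (t * v.2) ^ 2 = t ^ 2 * (‖v.1‖ ^ 2 + v.2 ^ 2) := by
    rw [norm_mul, Complex.norm_real, Real.norm_of_nonneg ht.le]
    ring
  show √(‖(t : ℂ) * v.1‖ ^ 2 + (t * v.2) ^ 2) = _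
  rw [this, Real.sqrt_mul (by positivity), Real.sqrt_sq ht.le]

end Pool.Agent.LIX.S.NMLx

namespace Pool.Agent.LIX.S

open Set Metric Complex NMLx

/-- Normalisation and the sphere. -/
theorem t_NML : S_NML := by
  refine ⟨?_, fun v hv => ⟨nrm_pos hv, nml_mem hv⟩, ?_, ?_, ?_, nrm_cont⟩
  · unfold nml
    apply ContinuousOn.prodMk
    · apply ContinuousOn.div
      · exact continuous_fst.continuousOn
      · exact (Complex.continuous_ofReal.comp nrm_cont).continuousOn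
      · intro v hv
        exact Complex.ofReal_ne_zero.mpr (nrm_pos hv).ne'
    · apply ContinuousOn.div
      · exact continuous_snd.continuousOn
      · exact nrm_cont.continuousOn
      · intro v hv
        exact (nrm_pos hv).ne'
  · intro v hv
    have h1 : nrm v = 1 := by
      unfold nrm
      rw [show ‖v.1‖ ^ 2 + v.2 ^ 2 = 1 from hv, Real.sqrt_one]
    refine ⟨?_, h1⟩
    unfold nml
    rw [h1]
    simp
  · intro v t ht
    unfold nml
    rw [nrm_smul v ht]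
    have ht' : (t : ℂ) ≠ 0 := Complex.ofReal_ne_zero.mpr ht.ne'
    apply Prod.ext
    · show (t : ℂ) * v.1 / ((t * nrm v : ℝ) : ℂ) = v.1 / (nrm v : ℂ)
      rw [Complex.ofReal_mul, mul_div_mul_left _ _ ht']
    · show t * v.2 / (t * nrm v) = v.2 / nrm v
      rw [mul_div_mul_left _ _ ht.ne']
  · have hcl : IsClosed Sph := by
      apply isClosed_eq
      · fun_prop
      · exact continuous_const
    apply IsCompact.of_isClosed_subset ((isCompact_closedBall (0 : ℂ) 1).prod (isCompact_closedBall (0 : ℝ) 1))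
      hcl
    intro v hv
    have hv' : ‖v.1‖ ^ 2 + v.2 ^ 2 = 1 := hv
    refine ⟨?_, ?_⟩
    · rw [mem_closedBall_zero_iff]
      nlinarith [sq_nonneg v.2, norm_nonneg v.1]
    · rw [mem_closedBall_zero_iff, Real.norm_eq_abs]
      exact abs_le_one_iff_mul_self_le_one.mpr (by nlinarith [sq_nonneg ‖v.1‖])

end Pool.Agent.LIX.S
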