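import Pool.Agent.LIX.StmtsS
import Pool.Agent.Lib_helper53.Shadow.InvDomain

/-!
# LIX, block S, module OPN: the strip is relatively open
-/

set_option autoImplicit false

namespace Pool.Agent.LIX.S

open Set Metric Complex

noncomputable section

namespace OPNx

/-- the cylinder -/
def Q : Set (ℂ × ℝ) := {x | ‖x.1‖ ≤ 1 ∧ |x.2| ≤ 1}

/-- invariance of domain in `ℂ × ℝ` -/
theorem inv (F : ℂ × ℝ → ℂ × ℝ) (hF : ContinuousOn F Q) (hi : InjOn F Q) :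
    F 0 ∈ interior (F '' Q) := by
  let L := WithLp.prodContinuousLinearEquiv 2 ℝ ℂ ℝ
  let _ : MeasurableSpace (WithLp 2 (ℂ × ℝ)) := borel _
  have : BorelSpace (WithLp 2 (ℂ × ℝ)) := ⟨rfl⟩
  have hL : MapsTo L (closedBall 0 1) Q := by
    intro x hx
    rw [mem_closedBall_zero_iff] at hx
    have h2 := WithLp.prod_norm_sq_eq_of_L2 x
    have e1 : (L x).1 = x.fst := rfl
    have e2 : (L x).2 = x.snd := rfl
    have h3 : ‖x‖ ^ 2 ≤ 1 := by nlinarith [norm_nonneg x]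
    refine ⟨?_, ?_⟩
    · rw [e1]
      nlinarith [norm_nonneg x.fst, sq_nonneg ‖x.snd‖]
    · rw [e2, ← Real.norm_eq_abs]
      nlinarith [norm_nonneg x.snd, sq_nonneg ‖x.fst‖]
  have h1 := Pool.Agent.Lib_helper53.Shadow.mem_interior_image
    (f := fun x : WithLp 2 (ℂ × ℝ) => L.symm (F (L x)))
    (L.symm.continuous.comp_continuousOn (hF.comp L.continuous.continuousOn hL))
    (fun x hx y hy e => L.injective (hi (hL hx) (hL hy) (L.symm.injective e)))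
  have h2 : L (L.symm (F (L 0))) ∈ L '' interior
      ((fun x : WithLp 2 (ℂ × ℝ) => L.symm (F (L x))) '' closedBall 0 1) :=
    mem_image_of_mem _ h1
  rw [L.apply_symm_apply, map_zero, ← ContinuousLinearEquiv.coe_toHomeomorph,
    Homeomorph.image_interior, image_image] at h2
  refine interior_mono ?_ h2
  rintro _ ⟨x, hx, rfl⟩
  refine ⟨L x, hL hx, ?_⟩
  simp only [ContinuousLinearEquiv.coe_toHomeomorph]
  exact (L.apply_symm_apply _).symm

/-- the reflection -/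
def rho (v : ℂ × ℝ) : ℂ × ℝ := ((starRingEnd ℂ) v.1, v.2)

theorem rho_cont : Continuous rho := by
  unfold rho
  exact (Complex.continuous_conj.comp continuous_fst).prodMk continuous_snd

theorem rho_rho (v : ℂ × ℝ) : rho (rho v) = v := by
  unfold rho
  simp

theorem rho_of (v : ℂ × ℝ) (h : v.1.im = 0) : rho v = v := by
  unfold rho
  exact Prod.ext (Complex.conj_eq_iff_im.2 h) rfl

theorem rho_sph (v : ℂ × ℝ) (h : v ∈ Sph) : rho v ∈ Sph := by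
  unfold Sph rho at *
  simpa using h

/-- the double -/
def dbl (ψ : ℂ × ℝ → ℂ × ℝ) (x : ℂ × ℝ) : ℂ × ℝ :=
  if 0 ≤ x.1.im then ψ x else rho (ψ ((starRingEnd ℂ) x.1, x.2))

/-- the closed annulus -/
def An : Set (ℂ × ℝ) := {x | ‖x.1‖ = 1 ∧ x.2 ∈ Icc (-1 : ℝ) 1}

structure Hyp (ψ : ℂ × ℝ → ℂ × ℝ) : Prop where
  cont : ContinuousOn ψ (Smc ×ˢ Icc (-1) 1)
  inj : InjOn ψ (Smc ×ˢ Icc (-1) 1)
  mem : ∀ w ∈ Smc, ∀ s ∈ Icc (-1 : ℝ) 1, ψ (w, s) ∈ Hem true ∧ ((ψ (w, s)).1.im = 0 ↔ w.im = 0)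

theorem smc_of {x : ℂ × ℝ} (hx : x ∈ An) (h : 0 ≤ x.1.im) : x ∈ Smc ×ˢ Icc (-1 : ℝ) 1 :=
  ⟨⟨⟨hx.1.le, h⟩, hx.1⟩, hx.2⟩

theorem smc_conj {x : ℂ × ℝ} (hx : x ∈ An) (h : x.1.im ≤ 0) :
    ((starRingEnd ℂ) x.1, x.2) ∈ Smc ×ˢ Icc (-1 : ℝ) 1 := by
  refine ⟨⟨⟨?_, ?_⟩, ?_⟩, hx.2⟩
  · simp [hx.1]
  · simpa using h
  · simp [hx.1]

theorem hem_im {v : ℂ × ℝ} (h : v ∈ Hem true) : 0 ≤ v.1.im := by
  have := h.2
  unfold sg at this
  simpa using this

theorem im_nonneg {ψ : ℂ × ℝ → ℂ × ℝ} (H : Hyp ψ) {x : ℂ × ℝ} (hx : x ∈ Smc ×ˢ Icc (-1 : ℝ) 1) :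
    0 ≤ (ψ x).1.im := hem_im (H.mem x.1 hx.1 x.2 hx.2).1

theorem im_neg {ψ : ℂ × ℝ → ℂ × ℝ} (H : Hyp ψ) {x : ℂ × ℝ} (hx : x ∈ An) (h : x.1.im < 0) :
    (dbl ψ x).1.im < 0 := by
  have h1 := smc_conj hx h.le
  have h2 := im_nonneg H h1
  have h3 := (H.mem _ h1.1 _ h1.2).2
  unfold dbl
  rw [if_neg (not_le.2 h)]
  have h4 : (ψ ((starRingEnd ℂ) x.1, x.2)).1.im ≠ 0 := by
    intro e
    have := h3.1 e
    simp only [Complex.conj_im] at this
    linarith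
  have h5 := lt_of_le_of_ne h2 h4.symm
  unfold rho
  simpa using h5

theorem im_pos {ψ : ℂ × ℝ → ℂ × ℝ} (H : Hyp ψ) {x : ℂ × ℝ} (hx : x ∈ An) (h : 0 ≤ x.1.im) :
    0 ≤ (dbl ψ x).1.im := by
  unfold dbl
  rw [if_pos h]
  exact im_nonneg H (smc_of hx h)

theorem dbl_sph {ψ : ℂ × ℝ → ℂ × ℝ} (H : Hyp ψ) {x : ℂ × ℝ} (hx : x ∈ An) : dbl ψ x ∈ Sph := by
  unfold dbl
  by_cases h : 0 ≤ x.1.im
  · rw [if_pos h]
    have h1 := smc_of hx h
    exact (H.mem _ h1.1 _ h1.2).1.1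
  · rw [if_neg h]
    have h1 := smc_conj hx (not_le.1 h).le
    exact rho_sph _ (H.mem _ h1.1 _ h1.2).1.1

theorem dbl_inj {ψ : ℂ × ℝ → ℂ × ℝ} (H : Hyp ψ) : InjOn (dbl ψ) An := by
  intro x hx y hy e
  by_cases h : 0 ≤ x.1.im
  · by_cases h' : 0 ≤ y.1.im
    · unfold dbl at e
      rw [if_pos h, if_pos h'] at e
      exact H.inj (smc_of hx h) (smc_of hy h') e
    · have a := im_pos H hx h
      have b := im_neg H hy (not_le.1 h')
      rw [e] at a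
      linarith
  · by_cases h' : 0 ≤ y.1.im
    · have a := im_pos H hy h'
      have b := im_neg H hx (not_le.1 h)
      rw [e] at b
      linarith
    · unfold dbl at e
      rw [if_neg h, if_neg h'] at e
      have e2 := congrArg rho e
      rw [rho_rho, rho_rho] at e2
      have e3 := H.inj (smc_conj hx (not_le.1 h).le) (smc_conj hy (not_le.1 h').le) e2
      rw [Prod.mk.injEq] at e3
      exact Prod.ext ((starRingEnd ℂ).injective e3.1) e3.2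

theorem dbl_cont {ψ : ℂ × ℝ → ℂ × ℝ} (H : Hyp ψ) : ContinuousOn (dbl ψ) An := by
  have hAn : IsClosed An := by
    unfold An
    refine IsClosed.and ?_ ?_
    · exact isClosed_eq (by fun_prop) continuous_const
    · exact isClosed_Icc.preimage continuous_snd
  have e : An = (An ∩ {x | 0 ≤ x.1.im}) ∪ (An ∩ {x | x.1.im ≤ 0}) := by
    ext x
    constructor
    · intro hx
      rcases le_total 0 x.1.im with h | h
      · exact Or.inl ⟨hx, h⟩
      · exact Or.inr ⟨hx, h⟩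
    · rintro (h | h)
      · exact h.1
      · exact h.1
  rw [e]
  refine ContinuousOn.union_of_isClosed ?_ ?_ ?_ ?_
  · refine (H.cont.mono ?_).congr ?_
    · intro x hx
      exact smc_of hx.1 hx.2
    · intro x hx
      unfold dbl
      exact if_pos hx.2
  · have h1 : ContinuousOn (fun x : ℂ × ℝ => rho (ψ ((starRingEnd ℂ) x.1, x.2)))
        (An ∩ {x | x.1.im ≤ 0}) := by
      refine rho_cont.comp_continuousOn (H.cont.comp ?_ ?_)
      · exact ((Complex.continuous_conj.comp continuous_fst).prodMk continuous_snd).continuousOn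
      · intro x hx
        exact smc_conj hx.1 hx.2
    refine h1.congr ?_
    intro x hx
    unfold dbl
    by_cases h : 0 ≤ x.1.im
    · have h0 : x.1.im = 0 := le_antisymm hx.2 h
      have h2 : ((starRingEnd ℂ) x.1, x.2) = x := Prod.ext (Complex.conj_eq_iff_im.2 h0) rfl
      simp only
      rw [if_pos h, h2, rho_of]
      have h3 := smc_of hx.1 h
      exact (H.mem _ h3.1 _ h3.2).2.2 h0
    · exact if_neg h
  · exact hAn.inter (isClosed_le continuous_const (by fun_prop))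
  · exact hAn.inter (isClosed_le (by fun_prop) continuous_const)

/-- the source chart -/
def par (w : ℂ) (s ε : ℝ) (x : ℂ × ℝ) : ℂ × ℝ :=
  (w * exp ((ε * x.1.re : ℝ) * I), s + ε * x.1.im)

theorem par_cont (w : ℂ) (s ε : ℝ) : Continuous (par w s ε) := by
  unfold par
  fun_prop

theorem par_mem {w : ℂ} {s ε s₂ : ℝ} (hw : ‖w‖ = 1) (hε : 0 < ε)
    (hs : |s| + ε < s₂) {x : ℂ × ℝ} (hx : x ∈ Q) :
    ‖(par w s ε x).1‖ = 1 ∧ (par w s ε x).2 ∈ Ioo (-s₂) s₂ := by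
  unfold par
  refine ⟨?_, ?_⟩
  · simp only
    rw [norm_mul, hw, norm_exp_ofReal_mul_I, one_mul]
  · simp only
    have h3 : |x.1.im| ≤ 1 := (abs_im_le_norm _).trans hx.1
    rw [abs_le] at h3
    have h4 := abs_lt.1 (lt_of_le_of_lt (le_of_eq rfl) (show |s| < s₂ - ε by linarith))
    constructor
    · nlinarith [h4.1]
    · nlinarith [h4.2]

theorem par_inj {w : ℂ} {s ε : ℝ} (hw : ‖w‖ = 1) (hε : 0 < ε) (hε1 : ε ≤ 1) {x y : ℂ × ℝ}
    (hx : x ∈ Q) (hy : y ∈ Q) (e : par w s ε x = par w s ε y) : x.1 = y.1 := by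
  unfold par at e
  rw [Prod.mk.injEq] at e
  obtain ⟨e1, e2⟩ := e
  have hw0 : w ≠ 0 := by
    intro h
    rw [h, norm_zero] at hw
    exact zero_ne_one hw
  have e3 := mul_left_cancel₀ hw0 e1
  have im_eq : ∀ t : ℝ, (((t : ℝ) : ℂ) * I).im = t := by
    intro t
    simp
  have b : ∀ x : ℂ × ℝ, x ∈ Q → -Real.pi < ε * x.1.re ∧ ε * x.1.re ≤ Real.pi := by
    intro x hx
    have h3 : |x.1.re| ≤ 1 := (abs_re_le_norm _).trans hx.1
    rw [abs_le] at h3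
    have := Real.pi_gt_three
    constructor
    · nlinarith [h3.1]
    · nlinarith [h3.2]
  have e4 := Complex.exp_inj_of_neg_pi_lt_of_le_pi (by rw [im_eq]; exact (b x hx).1)
    (by rw [im_eq]; exact (b x hx).2) (by rw [im_eq]; exact (b y hy).1)
    (by rw [im_eq]; exact (b y hy).2) e3
  have e5 := congrArg Complex.im e4
  rw [im_eq, im_eq] at e5
  have e6 : x.1.re = y.1.re := mul_left_cancel₀ hε.ne' e5
  have e7 : x.1.im = y.1.im := mul_left_cancel₀ hε.ne' (by linarith)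
  exact Complex.ext e6 e7

/-- scaling -/
def scl (t : ℝ) (v : ℂ × ℝ) : ℂ × ℝ := ((t : ℂ) * v.1, t * v.2)

theorem scl_cont : Continuous fun p : ℝ × (ℂ × ℝ) => scl p.1 p.2 := by
  unfold scl
  fun_prop

theorem scl_sph {t : ℝ} {v : ℂ × ℝ} (hv : v ∈ Sph) (ht : 0 < t) :
    ‖(scl t v).1‖ ^ 2 + (scl t v).2 ^ 2 = t ^ 2 := by
  have h1 : ‖v.1‖ ^ 2 + v.2 ^ 2 = 1 := hv
  unfold scl
  simp only
  rw [norm_mul, norm_real, Real.norm_of_nonneg ht.le, mul_pow, mul_pow, ← mul_add, h1, mul_one]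

theorem scl_one (v : ℂ × ℝ) : scl 1 v = v := by
  unfold scl
  simp

theorem scl_inj {t t' : ℝ} {v v' : ℂ × ℝ} (hv : v ∈ Sph) (hv' : v' ∈ Sph) (ht : 0 < t)
    (ht' : 0 < t') (e : scl t v = scl t' v') : t = t' ∧ v = v' := by
  have a := scl_sph hv ht
  have b := scl_sph hv' ht'
  rw [e, b] at a
  have h1 : t = t' := by nlinarith
  subst h1
  refine ⟨rfl, ?_⟩
  unfold scl at e
  rw [Prod.mk.injEq] at e
  have ht0 : (t : ℂ) ≠ 0 := by exact_mod_cast ht.ne'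
  exact Prod.ext (mul_left_cancel₀ ht0 e.1) (mul_left_cancel₀ ht.ne' e.2)

theorem main {ψ : ℂ × ℝ → ℂ × ℝ} (H : Hyp ψ) {s₂ : ℝ} (h2 : s₂ ≤ 1) {w : ℂ}
    {s : ℝ} (hw : w ∈ Smc) (hs : s ∈ Ioo (-s₂) s₂) :
    ∃ U, IsOpen U ∧ ψ (w, s) ∈ U ∧ Hem true ∩ U ⊆ ψ '' (Smc ×ˢ Ioo (-s₂) s₂) := by
  have hs' : |s| < s₂ := abs_lt.2 hs
  obtain ⟨ε, hε, hε1, hεs⟩ : ∃ ε : ℝ, 0 < ε ∧ ε ≤ 1 ∧ |s| + ε < s₂ := by
    refine ⟨(s₂ - |s|) / 2, by linarith, ?_, by linarith⟩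
    have := abs_nonneg s
    linarith
  have hAn : ∀ x ∈ Q, par w s ε x ∈ An := by
    intro x hx
    obtain ⟨a, b⟩ := par_mem hw.2 hε hεs hx
    exact ⟨a, by linarith [b.1], by linarith [b.2]⟩
  let F : ℂ × ℝ → ℂ × ℝ := fun x => scl (Real.exp (ε * x.2)) (dbl ψ (par w s ε x))
  have hFc : ContinuousOn F Q := by
    have h1 : ContinuousOn (fun x => dbl ψ (par w s ε x)) Q :=
      (dbl_cont H).comp (par_cont w s ε).continuousOn hAn
    have h3 : Continuous fun x : ℂ × ℝ => Real.exp (ε * x.2) := by fun_prop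
    exact scl_cont.comp_continuousOn (h3.continuousOn.prodMk h1)
  have hFi : InjOn F Q := by
    intro x hx y hy e
    obtain ⟨e1, e2⟩ := scl_inj (dbl_sph H (hAn x hx)) (dbl_sph H (hAn y hy)) (Real.exp_pos _)
      (Real.exp_pos _) e
    have e3 := par_inj hw.2 hε hε1 hx hy (dbl_inj H (hAn x hx) (hAn y hy) e2)
    have e4 := Real.exp_injective e1
    exact Prod.ext e3 (mul_left_cancel₀ hε.ne' e4)
  have h0 := inv F hFc hFi
  refine ⟨interior (F '' Q), isOpen_interior, ?_, ?_⟩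
  · have e : F 0 = ψ (w, s) := by
      have e1 : par w s ε 0 = (w, s) := by
        unfold par
        simp
      have e2 : F 0 = scl (Real.exp (ε * (0 : ℂ × ℝ).2)) (dbl ψ (par w s ε 0)) := rfl
      rw [e2, e1]
      simp only [Prod.snd_zero, mul_zero, Real.exp_zero]
      rw [scl_one]
      unfold dbl
      exact if_pos hw.1.2
    rw [← e]
    exact h0
  · rintro v ⟨hv, hv'⟩
    obtain ⟨x, hx, rfl⟩ := interior_subset hv'
    have a := scl_sph (dbl_sph H (hAn x hx)) (Real.exp_pos (ε * x.2))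
    have b : ‖(F x).1‖ ^ 2 + (F x).2 ^ 2 = 1 := hv.1
    have c : Real.exp (ε * x.2) ^ 2 = 1 := a.symm.trans b
    have d : Real.exp (ε * x.2) = 1 := by
      have := Real.exp_pos (ε * x.2)
      nlinarith
    have e : F x = dbl ψ (par w s ε x) := by
      have e2 : F x = scl (Real.exp (ε * x.2)) (dbl ψ (par w s ε x)) := rfl
      rw [e2, d, scl_one]
    obtain ⟨p1, p2⟩ := par_mem hw.2 hε hεs hx
    by_cases h : 0 ≤ (par w s ε x).1.im
    · refine ⟨par w s ε x, ⟨⟨⟨p1.le, h⟩, p1⟩, p2⟩, ?_⟩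
      rw [e]
      unfold dbl
      rw [if_pos h]
    · have h3 := im_neg H (hAn x hx) (not_le.1 h)
      have h4 := hem_im hv
      rw [e] at h4
      linarith

end OPNx

theorem t_OPN : S_OPN := by
  intro ψ hc hi hm s₂ hs0 hs1
  have H : OPNx.Hyp ψ := ⟨hc, hi, hm⟩
  refine ⟨⋃₀ {U | IsOpen U ∧ Hem true ∩ U ⊆ ψ '' (Smc ×ˢ Ioo (-s₂) s₂)},
    isOpen_sUnion fun U hU => hU.1, ?_⟩
  apply Subset.antisymm
  · rintro _ ⟨⟨w, s⟩, ⟨hw, hs⟩, rfl⟩
    simp only at hw hs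
    obtain ⟨U, h1, h2, h3⟩ := OPNx.main H hs1 hw hs
    exact ⟨(hm w hw s ⟨by linarith [hs.1], by linarith [hs.2]⟩).1, U, ⟨h1, h3⟩, h2⟩
  · rintro v ⟨hv, U, ⟨-, h3⟩, h2⟩
    exact h3 ⟨hv, h2⟩

end

end Pool.Agent.LIX.S
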