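import Pool.Agent.LIX.StmtsS

/-!
# LIX, module ORD: the order of the chords
-/

set_option autoImplicit false

namespace Pool.Agent.LIX.S

open Set Metric Complex

namespace ORDx

lemma cle_iff (q q' : Bool × Fin 3) : cle q q' = true ↔ hR q ≤ hR q' ∧ hL q ≤ hL q' := by
  unfold cle
  rw [decide_eq_true_iff]

lemma same : ∀ (b : Bool) (j j' : Fin 3), cle (b, j) (b, j') = true → j ≤ j' := by
  decide

lemma hj0 (f : ℝ) : hj 0 f = 2 + 4 * f := rfl

lemma hj1 (f : ℝ) : hj 1 f = 3 + 6 * f := rfl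

lemma hj2 (f : ℝ) : hj 2 f = 6 + 4 * f := rfl

lemma three (j : Fin 3) : j = 0 ∨ j = 1 ∨ j = 2 := by
  revert j
  decide

lemma hj_mono {j j' : Fin 3} (h : j ≤ j') {f : ℝ} (hf : f ∈ Icc (0 : ℝ) 1) :
    hj j f ≤ hj j' f := by
  obtain ⟨h0, h1⟩ := hf
  rcases three j with rfl | rfl | rfl <;> rcases three j' with rfl | rfl | rfl
  · exact le_refl _
  · rw [hj0, hj1]
    linarith
  · rw [hj0, hj2]
    linarith
  · exact absurd h (by decide)
  · exact le_refl _
  · rw [hj1, hj2]
    linarith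
  · exact absurd h (by decide)
  · exact absurd h (by decide)
  · exact le_refl _

/-- the heights at the longitude `0` -/
lemma at_zero (q : Bool × Fin 3) : hj q.2 0 = ((![2, 3, 6] q.2 : ℕ) : ℝ) := by
  rcases three q.2 with h | h | h
  · rw [h, hj0]
    norm_num
  · rw [h, hj1]
    norm_num
  · rw [h, hj2]
    change (6 : ℝ) + 4 * 0 = ((6 : ℕ) : ℝ)
    norm_num

/-- the heights at the longitude `1` -/
lemma at_one (q : Bool × Fin 3) : hj q.2 1 = ((![6, 9, 10] q.2 : ℕ) : ℝ) := by
  rcases three q.2 with h | h | h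
  · rw [h, hj0]
    norm_num
  · rw [h, hj1]
    norm_num
  · rw [h, hj2]
    change (6 : ℝ) + 4 * 1 = ((10 : ℕ) : ℝ)
    norm_num

lemma sg_true : sg true = 1 := by
  unfold sg
  exact if_pos rfl

lemma sg_false : sg false = -1 := by
  unfold sg
  exact if_neg (by decide)

/-- on the circle, right part -/
lemma right (hL' : S_LON) (q : Bool × Fin 3) {v : ℂ × ℝ} (hv : v.1 ≠ 0) (him : v.1.im = 0)
    (hre : 0 < v.1.re) : hj q.2 (lon q.1 v) = (hR q : ℝ) := by
  obtain ⟨b, j⟩ := q
  have h0 : 0 ≤ sg b * v.1.im := by rw [him, mul_zero]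
  obtain ⟨-, -, h3, -⟩ := (hL' b).2 v hv h0
  cases b
  · rcases h3 him with ⟨-, h4⟩ | ⟨h4, -⟩
    · rw [sg_false] at h4
      linarith
    · change hj j (lon false v) = (hR (false, j) : ℝ)
      rw [h4]
      exact at_one (false, j)
  · rcases h3 him with ⟨h4, -⟩ | ⟨-, h4⟩
    · change hj j (lon true v) = (hR (true, j) : ℝ)
      rw [h4]
      exact at_zero (true, j)
    · rw [sg_true] at h4
      linarith

/-- on the circle, left part -/
lemma left (hL' : S_LON) (q : Bool × Fin 3) {v : ℂ × ℝ} (hv : v.1 ≠ 0) (him : v.1.im = 0)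
    (hre : v.1.re < 0) : hj q.2 (lon q.1 v) = (hL q : ℝ) := by
  obtain ⟨b, j⟩ := q
  have h0 : 0 ≤ sg b * v.1.im := by rw [him, mul_zero]
  obtain ⟨-, -, h3, -⟩ := (hL' b).2 v hv h0
  cases b
  · rcases h3 him with ⟨h4, -⟩ | ⟨-, h4⟩
    · change hj j (lon false v) = (hL (false, j) : ℝ)
      rw [h4]
      exact at_zero (false, j)
    · rw [sg_false] at h4
      linarith
  · rcases h3 him with ⟨-, h4⟩ | ⟨h4, -⟩
    · rw [sg_true] at h4
      linarith
    · change hj j (lon true v) = (hL (true, j) : ℝ)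
      rw [h4]
      exact at_one (true, j)

/-- comparison of the heights -/
lemma dl_le (hMF : S_MF) {b b' : Bool} {j j' : Fin 3} {v : ℂ × ℝ}
    (h : hj j (lon b v) ≤ hj j' (lon b' v)) : dl b' j' v ≤ dl b j v := by
  unfold dl
  have h1 : Mf (hj j (lon b v)) ≤ Mf (hj j' (lon b' v)) := hMF.2.1.monotone h
  have h2 := mul_le_mul_of_nonneg_left h1 (norm_nonneg v.1)
  linarith

lemma im_zero {b b' : Bool} (hb : b ≠ b') {v : ℂ × ℝ} (h : v ∈ Hem b) (h' : v ∈ Hem b') :
    v.1.im = 0 := by
  have h1 := h.2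
  have h2 := h'.2
  cases b <;> cases b'
  · exact absurd rfl hb
  · rw [sg_false] at h1
    rw [sg_true] at h2
    linarith
  · rw [sg_true] at h1
    rw [sg_false] at h2
    linarith
  · exact absurd rfl hb

end ORDx

open ORDx in
/-- the order of the chords -/
theorem t_ORD : M_ORD := by
  intro hMF hLON q q' hc v hv hv'
  obtain ⟨b, j⟩ := q
  obtain ⟨b', j'⟩ := q'
  by_cases h0 : v.1 = 0
  · unfold dl
    rw [h0, norm_zero, zero_mul, zero_mul]
  · by_cases hb : b = b'
    · subst hb
      refine dl_le hMF (hj_mono (same b j j' hc) ?_)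
      exact ((hLON b).2 v h0 hv.2).1
    · have him := im_zero hb hv hv'
      obtain ⟨hr, hl⟩ := (cle_iff _ _).mp hc
      have hre : v.1.re ≠ 0 := fun h => h0 (Complex.ext h him)
      refine dl_le hMF ?_
      rcases lt_or_gt_of_ne hre with h1 | h1
      · have e1 := left hLON (b, j) h0 him h1
        have e2 := left hLON (b', j') h0 him h1
        change hj j (lon b v) = _ at e1
        change hj j' (lon b' v) = _ at e2
        rw [e1, e2]
        exact Nat.cast_le.mpr hl
      · have e1 := right hLON (b, j) h0 him h1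
        have e2 := right hLON (b', j') h0 him h1
        change hj j (lon b v) = _ at e1
        change hj j' (lon b' v) = _ at e2
        rw [e1, e2]
        exact Nat.cast_le.mpr hr

end Pool.Agent.LIX.S
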