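import Pool.Agent.LIX.StmtsS

/-!
# LIX, block S, module QI: parametrisation of the shifted regions
-/

set_option autoImplicit false

namespace Pool.Agent.LIX.S

open Set Metric Complex

noncomputable section

namespace QIx

theorem sg_sq (b : Bool) : sg b * sg b = 1 := by cases b <;> simp [sg]

theorem sg_ne (b : Bool) : sg b ≠ 0 := by cases b <;> simp [sg]

theorem sg_sqC (b : Bool) : (sg b : ℂ) * (sg b : ℂ) = 1 := by
  rw [← Complex.ofReal_mul, sg_sq, Complex.ofReal_one]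

theorem norm_sg (b : Bool) : ‖(sg b : ℂ)‖ = 1 := by cases b <;> simp [sg]

/-- the vector before normalisation -/
def pre (b : Bool) (j : Fin 3) (d : Bool) (w : ℂ) (s : ℝ) : ℂ × ℝ :=
  ((sg b : ℂ) * w, ‖w‖ * (Mf (hj j (arg w / Real.pi)) + sg d * s / 100) + sg d * (1 - ‖w‖))

theorem qI_eq (b : Bool) (j : Fin 3) (d : Bool) (w : ℂ) (s : ℝ) :
    qI b j d (w, s) = nml (pre b j d w s) := rfl

theorem pre_ne (b : Bool) (j : Fin 3) (d : Bool) (w : ℂ) (s : ℝ) : pre b j d w s ≠ 0 := by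
  intro h
  have h1 : (sg b : ℂ) * w = 0 := congrArg Prod.fst h
  have h2 : ‖w‖ * (Mf (hj j (arg w / Real.pi)) + sg d * s / 100) + sg d * (1 - ‖w‖) = 0 :=
    congrArg Prod.snd h
  have h3 : w = 0 := by
    rcases mul_eq_zero.1 h1 with h3 | h3
    · exact absurd (Complex.ofReal_eq_zero.1 h3) (sg_ne b)
    · exact h3
  rw [h3, norm_zero, zero_mul, zero_add, sub_zero, mul_one] at h2
  exact sg_ne d h2

section

variable (b : Bool) (j : Fin 3) (d : Bool) (w : ℂ) (s : ℝ)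

theorem nml_fst (v : ℂ × ℝ) : (nml v).1 = v.1 / (nrm v : ℂ) := rfl

theorem nml_snd (v : ℂ × ℝ) : (nml v).2 = v.2 / nrm v := rfl

theorem norm_fst (hN : 0 < nrm (pre b j d w s)) :
    ‖(qI b j d (w, s)).1‖ = ‖w‖ / nrm (pre b j d w s) := by
  rw [qI_eq, nml_fst, norm_div, Complex.norm_real, Real.norm_eq_abs, abs_of_pos hN]
  show ‖(sg b : ℂ) * w‖ / _ = _
  rw [norm_mul, norm_sg, one_mul]

theorem sg_fst : (sg b : ℂ) * (qI b j d (w, s)).1 = ((1 / nrm (pre b j d w s) : ℝ) : ℂ) * w := by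
  rw [qI_eq, nml_fst]
  show (sg b : ℂ) * ((sg b : ℂ) * w / (nrm (pre b j d w s) : ℂ)) = _
  rw [← mul_div_assoc, ← mul_assoc, sg_sqC, one_mul, Complex.ofReal_div, Complex.ofReal_one]
  ring

theorem lon_eq (hN : 0 < nrm (pre b j d w s)) :
    lon b (qI b j d (w, s)) = arg w / Real.pi := by
  unfold lon
  rw [sg_fst, Complex.arg_real_mul w (one_div_pos.2 hN)]

theorem Ds_eq (hN : 0 < nrm (pre b j d w s)) :
    Ds b j d s (qI b j d (w, s)) = (1 - ‖w‖) / nrm (pre b j d w s) := by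
  unfold Ds dl
  rw [lon_eq b j d w s hN, norm_fst b j d w s hN]
  have h1 : (qI b j d (w, s)).2 = (‖w‖ * (Mf (hj j (arg w / Real.pi)) + sg d * s / 100) +
    sg d * (1 - ‖w‖)) / nrm (pre b j d w s) := rfl
  rw [h1]
  have hd := sg_sq d
  have hN' := hN.ne'
  generalize nrm (pre b j d w s) = N at *
  generalize Mf (hj j (arg w / Real.pi)) = M at *
  have e : sg d * ((‖w‖ * (M + sg d * s / 100) + sg d * (1 - ‖w‖)) / N - ‖w‖ / N * M) -
      s * (‖w‖ / N) / 100 = ((sg d * sg d) * (‖w‖ * s / 100 + (1 - ‖w‖)) - s * ‖w‖ / 100) / N := by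
    ring
  rw [e, hd]
  ring

theorem im_eq : sg b * (qI b j d (w, s)).1.im = w.im / nrm (pre b j d w s) := by
  have h := congrArg Complex.im (sg_fst b j d w s)
  rw [Complex.im_ofReal_mul, Complex.im_ofReal_mul] at h
  rw [h]
  ring

end

/-- the point with the given image -/
theorem surj (hNML : S_NML) (hDLC : S_DLC) (b : Bool) (j : Fin 3) (d : Bool) (s : ℝ)
    (v : ℂ × ℝ) (hv : v ∈ Hem b) (hD : 0 ≤ Ds b j d s v) :
    ∃ w ∈ HDisk, qI b j d (w, s) = v := by
  have hdl0 := (hDLC b j).2.2.1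
  have hSph : v ∈ Sph := hv.1
  have him : 0 ≤ sg b * v.1.im := hv.2
  set S : ℝ := ‖v.1‖ + Ds b j d s v with hS
  have hSpos : 0 < S := by
    have h0 : 0 ≤ S := add_nonneg (norm_nonneg _) hD
    refine lt_of_le_of_ne h0 fun h1 => ?_
    have h2 : ‖v.1‖ = 0 := by
      have := norm_nonneg v.1
      linarith
    have h3 : Ds b j d s v = 0 := by linarith
    have h4 : v.1 = 0 := norm_eq_zero.1 h2
    have h5 : sg d * dl b j v - s * ‖v.1‖ / 100 = 0 := h3
    rw [hdl0 v h4, h2, mul_zero, zero_div, sub_zero] at h5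
    have h6 : v.2 = 0 := by
      rcases mul_eq_zero.1 h5 with h6 | h6
      · exact absurd h6 (sg_ne d)
      · exact h6
    have h7 : ‖v.1‖ ^ 2 + v.2 ^ 2 = 1 := hSph
    rw [h2, h6] at h7
    norm_num at h7
  have hSi : 0 < 1 / S := one_div_pos.2 hSpos
  have hw : ∃ w : ℂ, w = ((1 / S : ℝ) : ℂ) * ((sg b : ℂ) * v.1) := ⟨_, rfl⟩
  obtain ⟨w, hw⟩ := hw
  have hnw : ‖w‖ = ‖v.1‖ / S := by
    rw [hw, norm_mul, norm_mul, norm_sg, one_mul, Complex.norm_real, Real.norm_eq_abs,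
      abs_of_pos hSi]
    ring
  have h1w : 1 - ‖w‖ = Ds b j d s v / S := by
    rw [hnw, eq_div_iff hSpos.ne', sub_mul, div_mul_cancel₀ _ hSpos.ne', hS]
    ring
  have himw : w.im = sg b * v.1.im / S := by
    rw [hw, Complex.im_ofReal_mul, Complex.im_ofReal_mul]
    ring
  have harg : arg w / Real.pi = lon b v := by
    unfold lon
    rw [hw, Complex.arg_real_mul _ hSi]
  refine ⟨w, ⟨?_, ?_⟩, ?_⟩
  · have h2 : 0 ≤ Ds b j d s v / S := div_nonneg hD hSpos.le
    rw [← h1w] at h2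
    linarith
  · rw [himw]
    exact div_nonneg him hSpos.le
  · have e1 : (sg b : ℂ) * w = ((1 / S : ℝ) : ℂ) * v.1 := by
      rw [hw]
      have e : (sg b : ℂ) * (((1 / S : ℝ) : ℂ) * ((sg b : ℂ) * v.1)) =
        ((sg b : ℂ) * (sg b : ℂ)) * (((1 / S : ℝ) : ℂ) * v.1) := by ring
      rw [e, sg_sqC, one_mul]
    have e2 : ‖w‖ * (Mf (hj j (arg w / Real.pi)) + sg d * s / 100) + sg d * (1 - ‖w‖) =
        1 / S * v.2 := by
      rw [h1w, hnw, harg]
      have e3 : Ds b j d s v = sg d * (v.2 - ‖v.1‖ * Mf (hj j (lon b v))) - s * ‖v.1‖ / 100 := rfl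
      rw [e3]
      have hd := sg_sq d
      generalize Mf (hj j (lon b v)) = M at *
      have e : ‖v.1‖ / S * (M + sg d * s / 100) +
          sg d * ((sg d * (v.2 - ‖v.1‖ * M) - s * ‖v.1‖ / 100) / S) =
          (‖v.1‖ * M + (sg d * sg d) * (v.2 - ‖v.1‖ * M)) / S := by ring
      rw [e, hd]
      ring
    have e4 : pre b j d w s = (((1 / S : ℝ) : ℂ) * v.1, 1 / S * v.2) := Prod.ext e1 e2
    rw [qI_eq, e4, hNML.2.2.2.1 v (1 / S) hSi]
    exact (hNML.2.2.1 v hSph).1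

theorem cont_pre (hDLC : S_DLC) (b : Bool) (j : Fin 3) (d : Bool) :
    ContinuousOn (fun x : ℂ × ℝ => pre b j d x.1 x.2) (HDisk ×ˢ Icc (-1) 1) := by
  have h1 := (hDLC b j).1
  have hc : ContinuousOn (fun x : ℂ × ℝ => dl b j ((sg b : ℂ) * x.1, 0)) (HDisk ×ˢ Icc (-1) 1) := by
    refine h1.comp (t := {v : ℂ × ℝ | 0 ≤ sg b * v.1.im}) ?_ ?_
    · exact ((continuous_const.mul continuous_fst).prodMk continuous_const).continuousOn
    · rintro ⟨w, s⟩ ⟨hw, -⟩
      show 0 ≤ sg b * ((sg b : ℂ) * w).im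
      rw [Complex.im_ofReal_mul, ← mul_assoc, sg_sq, one_mul]
      exact hw.2
  have e : ∀ x : ℂ × ℝ, pre b j d x.1 x.2 = ((sg b : ℂ) * x.1,
      - dl b j ((sg b : ℂ) * x.1, 0) + ‖x.1‖ * (sg d * x.2 / 100) + sg d * (1 - ‖x.1‖)) := by
    rintro ⟨w, s⟩
    refine Prod.ext rfl ?_
    show ‖w‖ * (Mf (hj j (arg w / Real.pi)) + sg d * s / 100) + sg d * (1 - ‖w‖) =
      - (0 - ‖(sg b : ℂ) * w‖ * Mf (hj j (arg ((sg b : ℂ) * ((sg b : ℂ) * w)) / Real.pi))) +
        ‖w‖ * (sg d * s / 100) + sg d * (1 - ‖w‖)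
    rw [norm_mul, norm_sg, one_mul, ← mul_assoc, sg_sqC, one_mul]
    ring
  have hn : Continuous fun x : ℂ × ℝ => ‖x.1‖ := continuous_norm.comp continuous_fst
  have h2 : ContinuousOn (fun x : ℂ × ℝ => ((sg b : ℂ) * x.1,
      - dl b j ((sg b : ℂ) * x.1, 0) + ‖x.1‖ * (sg d * x.2 / 100) + sg d * (1 - ‖x.1‖)))
      (HDisk ×ˢ Icc (-1) 1) := by
    refine ContinuousOn.prodMk (continuous_const.mul continuous_fst).continuousOn ?_
    refine (hc.neg.add ?_).add ?_
    · exact (hn.mul ((continuous_const.mul continuous_snd).div_const _)).continuousOn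
    · exact (continuous_const.mul (continuous_const.sub hn)).continuousOn
  exact h2.congr fun x _ => e x

end QIx

open QIx in
theorem t_QI : M_QI := by
  intro _ hNML _ hDLC b j d
  have hN : ∀ w s, 0 < nrm (pre b j d w s) := fun w s => (hNML.2.1 _ (pre_ne b j d w s)).1
  have hA : ∀ w ∈ HDisk, ∀ s ∈ Icc (-1 : ℝ) 1, qI b j d (w, s) ∈ Hem b ∧
      0 ≤ Ds b j d s (qI b j d (w, s)) ∧
      (Ds b j d s (qI b j d (w, s)) = 0 ↔ ‖w‖ = 1) ∧
      ((qI b j d (w, s)).1.im = 0 ↔ w.im = 0) := by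
    intro w hw s _
    have hp := hN w s
    refine ⟨⟨(hNML.2.1 _ (pre_ne b j d w s)).2, ?_⟩, ?_, ?_, ?_⟩
    · rw [im_eq]
      exact div_nonneg hw.2 hp.le
    · rw [Ds_eq b j d w s hp]
      exact div_nonneg (sub_nonneg.2 hw.1) hp.le
    · rw [Ds_eq b j d w s hp, div_eq_zero_iff, or_iff_left hp.ne', sub_eq_zero]
      exact eq_comm
    · have h1 := im_eq b j d w s
      constructor
      · intro h
        rw [h, mul_zero] at h1
        rcases div_eq_zero_iff.1 h1.symm with h2 | h2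
        · exact h2
        · exact absurd h2 hp.ne'
      · intro h
        rw [h, zero_div] at h1
        rcases mul_eq_zero.1 h1 with h2 | h2
        · exact absurd h2 (sg_ne b)
        · exact h2
  have hB : ∀ s ∈ Icc (-1 : ℝ) 1, InjOn (fun w => qI b j d (w, s)) HDisk ∧
      (fun w => qI b j d (w, s)) '' HDisk = {v | v ∈ Hem b ∧ 0 ≤ Ds b j d s v} := by
    intro s hs
    constructor
    · intro w _ w' _ he
      have he' : qI b j d (w, s) = qI b j d (w', s) := he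
      have key : ∀ u : ℂ, ((‖(qI b j d (u, s)).1‖ + Ds b j d s (qI b j d (u, s)) : ℝ) : ℂ) * u =
          (sg b : ℂ) * (qI b j d (u, s)).1 := by
        intro u
        rw [norm_fst b j d u s (hN u s), Ds_eq b j d u s (hN u s), sg_fst]
        have e : ‖u‖ / nrm (pre b j d u s) + (1 - ‖u‖) / nrm (pre b j d u s) =
          1 / nrm (pre b j d u s) := by ring
        rw [e]
      have hpos : ‖(qI b j d (w, s)).1‖ + Ds b j d s (qI b j d (w, s)) ≠ 0 := by
        rw [norm_fst b j d w s (hN w s), Ds_eq b j d w s (hN w s)]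
        have e : ‖w‖ / nrm (pre b j d w s) + (1 - ‖w‖) / nrm (pre b j d w s) =
          1 / nrm (pre b j d w s) := by ring
        rw [e]
        exact (one_div_pos.2 (hN w s)).ne'
      have h1 := key w
      have h2 := key w'
      rw [← he'] at h2
      exact mul_left_cancel₀ (Complex.ofReal_ne_zero.2 hpos) (h1.trans h2.symm)
    · ext v
      constructor
      · rintro ⟨w, hw, rfl⟩
        have h := hA w hw s hs
        exact ⟨h.1, h.2.1⟩
      · rintro ⟨hv, hD⟩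
        obtain ⟨w, hw, he⟩ := surj hNML hDLC b j d s v hv hD
        exact ⟨w, hw, he⟩
  refine ⟨?_, hA, hB, ?_⟩
  · have h1 : ContinuousOn (fun x : ℂ × ℝ => nml (pre b j d x.1 x.2)) (HDisk ×ˢ Icc (-1) 1) :=
      hNML.1.comp (t := {v : ℂ × ℝ | v ≠ 0}) (cont_pre hDLC b j d) fun x _ => pre_ne b j d x.1 x.2
    exact h1
  · rw [(hB 0 ⟨by norm_num, by norm_num⟩).2]
    ext v
    have e : Ds b j d 0 v = sg d * dl b j v := by
      unfold Ds
      rw [zero_mul, zero_div, sub_zero]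
    show (v ∈ Hem b ∧ 0 ≤ Ds b j d 0 v) ↔ (v ∈ Hem b ∧ 0 ≤ sg d * dl b j v)
    rw [e]

end

end Pool.Agent.LIX.S
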