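import Pool.Agent.LIX.StmtsS

/-!
# LIX, block S, module SGN: the two sides of the strip
-/

set_option autoImplicit false

namespace Pool.Agent.LIX.S.SGNx

open Set Metric Complex

theorem smc_pre : IsPreconnected Smc := by
  have h : Smc = (fun x : ℝ => exp ((x : ℂ) * I)) '' Icc 0 Real.pi := by
    ext w
    constructor
    · intro hw
      have h1 : (‖w‖ : ℂ) * exp ((arg w : ℂ) * I) = w := Complex.norm_mul_exp_arg_mul_I w
      rw [hw.2, Complex.ofReal_one, one_mul] at h1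
      exact ⟨arg w, ⟨Complex.arg_nonneg_iff.mpr hw.1.2, Complex.arg_le_pi w⟩, h1⟩
    · rintro ⟨x, hx, rfl⟩
      have h1 : ‖exp ((x : ℂ) * I)‖ = 1 := Complex.norm_exp_ofReal_mul_I x
      refine ⟨⟨h1.le, ?_⟩, h1⟩
      show 0 ≤ (exp ((x : ℂ) * I)).im
      rw [Complex.exp_ofReal_mul_I_im]
      exact Real.sin_nonneg_of_nonneg_of_le_pi hx.1 hx.2
  rw [h]
  apply isPreconnected_Icc.image
  fun_prop

theorem const_sign {α : Type*} [TopologicalSpace α] {S : Set α} (hS : IsPreconnected S) {g : α → ℝ}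
    (hg : ContinuousOn g S) (h0 : ∀ p ∈ S, g p ≠ 0) {p q : α} (hp : p ∈ S) (hq : q ∈ S) (hpos : 0 < g p) :
    0 < g q := by
  by_contra hc
  push Not at hc
  have h1 : g q < 0 := lt_of_le_of_ne hc (h0 q hq)
  have h2 := (hS.image g hg).ordConnected.out (mem_image_of_mem g hq) (mem_image_of_mem g hp)
    (show (0 : ℝ) ∈ Icc (g q) (g p) from ⟨h1.le, hpos.le⟩)
  obtain ⟨r, hr, hre⟩ := h2
  exact h0 r hr hre

theorem dl_nml (hN : S_NML) (j : Fin 3) {w : ℂ × ℝ} (hw : w ≠ 0) :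
    dl true j (nml w) = dl true j w / nrm w := by
  have h0 : 0 < nrm w := (hN.2.1 w hw).1
  have h1 : lon true (nml w) = lon true w := by
    unfold lon nml
    simp only
    congr 1
    have : ((sg true : ℝ) : ℂ) * (w.1 / (nrm w : ℂ)) = (((nrm w)⁻¹ : ℝ) : ℂ) * (((sg true : ℝ) : ℂ) * w.1) := by
      rw [Complex.ofReal_inv]
      ring
    rw [this, Complex.arg_real_mul _ (inv_pos.mpr h0)]
  unfold dl
  rw [h1]
  unfold nml
  simp only
  rw [norm_div, Complex.norm_real, Real.norm_of_nonneg h0.le]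
  ring

end Pool.Agent.LIX.S.SGNx

namespace Pool.Agent.LIX.S

open Set Metric Complex SGNx

/-- Module SGN. -/
theorem t_SGN : M_SGN := by
  intro hO hM hN hL hD ψ hψc hψi hψm hψ0
  obtain ⟨dlc, -, -, -, -, -, -⟩ := hD true 1
  set g : ℂ × ℝ → ℝ := fun p => dl true 1 (ψ p) with hg
  have hgc : ContinuousOn g (Smc ×ˢ Icc (-1) 1) := by
    apply dlc.comp hψc
    intro p hp
    exact (hψm p.1 hp.1 p.2 hp.2).1.2
  have hz : ∀ w ∈ Smc, ∀ s ∈ Icc (-1 : ℝ) 1, g (w, s) = 0 → s = 0 := by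
    intro w hw s hs h
    have h1 : ψ (w, s) ∈ ch true 1 := ⟨(hψm w hw s hs).1, h⟩
    rw [← hψ0] at h1
    obtain ⟨w', hw', he⟩ := h1
    have h2 := hψi (x₁ := (w', 0)) (x₂ := (w, s)) ⟨hw', by norm_num⟩ ⟨hw, hs⟩ he
    exact (Prod.ext_iff.mp h2).2.symm
  have hI : (I : ℂ) ∈ Smc := ⟨⟨by simp, by simp⟩, by simp⟩
  have p1 : IsPreconnected (Smc ×ˢ Ioc (0 : ℝ) 1) := smc_pre.prod isPreconnected_Ioc
  have p2 : IsPreconnected (Smc ×ˢ Ico (-1 : ℝ) 0) := smc_pre.prod isPreconnected_Ico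
  have s1 : Smc ×ˢ Ioc (0 : ℝ) 1 ⊆ Smc ×ˢ Icc (-1) 1 :=
    prod_mono_right fun x hx => ⟨by linarith [hx.1], hx.2⟩
  have s2 : Smc ×ˢ Ico (-1 : ℝ) 0 ⊆ Smc ×ˢ Icc (-1) 1 :=
    prod_mono_right fun x hx => ⟨hx.1, by linarith [hx.2]⟩
  have m1 : (I, (1 : ℝ)) ∈ Smc ×ˢ Ioc (0 : ℝ) 1 := ⟨hI, by norm_num⟩
  have m2 : (I, (-1 : ℝ)) ∈ Smc ×ˢ Ico (-1 : ℝ) 0 := ⟨hI, by norm_num⟩
  -- constant signs
  have key : ∀ σ : Bool, (0 < sg σ * g (I, 1) → ∀ w ∈ Smc, ∀ s ∈ Ioc (0 : ℝ) 1, 0 < sg σ * g (w, s)) ∧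
      (0 < sg σ * g (I, -1) → ∀ w ∈ Smc, ∀ s ∈ Ico (-1 : ℝ) 0, 0 < sg σ * g (w, s)) := by
    intro σ
    have hs0 : sg σ ≠ 0 := by cases σ <;> simp [sg]
    constructor
    · intro h w hw s hs
      refine const_sign (g := fun p => sg σ * g p) p1 (continuousOn_const.mul (hgc.mono s1)) ?_ m1 (q := (w, s))
        ⟨hw, hs⟩ h
      rintro ⟨w', s'⟩ hp h1
      rcases mul_eq_zero.mp h1 with h2 | h2
      · exact hs0 h2
      · have h3 := hz w' hp.1 s' (s1 hp).2 h2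
        have h4 : (0 : ℝ) < s' := hp.2.1
        linarith
    · intro h w hw s hs
      refine const_sign (g := fun p => sg σ * g p) p2 (continuousOn_const.mul (hgc.mono s2)) ?_ m2 (q := (w, s))
        ⟨hw, hs⟩ h
      rintro ⟨w', s'⟩ hp h1
      rcases mul_eq_zero.mp h1 with h2 | h2
      · exact hs0 h2
      · have h3 := hz w' hp.1 s' (s2 hp).2 h2
        have h4 : s' < (0 : ℝ) := hp.2.2
        linarith
  -- the two signs are not equal
  have hne : ∀ σ : Bool, ¬ (0 < sg σ * g (I, 1) ∧ 0 < sg σ * g (I, -1)) := by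
    rintro σ ⟨ha, hb⟩
    have hnn : ∀ w ∈ Smc, ∀ s ∈ Icc (-1 : ℝ) 1, 0 ≤ sg σ * g (w, s) := by
      intro w hw s hs
      rcases lt_trichotomy s 0 with h | h | h
      · exact ((key σ).2 hb w hw s ⟨hs.1, h⟩).le
      · have : ψ (w, 0) ∈ ch true 1 := by rw [← hψ0]; exact ⟨w, hw, rfl⟩
        have h2 : g (w, s) = 0 := by rw [h]; exact this.2
        rw [h2, mul_zero]
      · exact ((key σ).1 ha w hw s ⟨h, hs.2⟩).le
    obtain ⟨O, hOo, hOe⟩ := hO ψ hψc hψi hψm 1 one_pos le_rfl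
    set v₀ := ψ (I, 0) with hv0
    have hv0m := hψm I hI 0 (by norm_num)
    have hv0im : 0 < v₀.1.im := by
      have h1 : v₀.1.im ≠ 0 := by
        intro h
        have := hv0m.2.mp h
        simp at this
      have h2 : 0 ≤ sg true * v₀.1.im := hv0m.1.2
      have h3 : sg true = 1 := rfl
      rw [h3, one_mul] at h2
      exact lt_of_le_of_ne h2 (Ne.symm h1)
    have hv0O : v₀ ∈ O := by
      have : v₀ ∈ ψ '' (Smc ×ˢ Ioo (-1) 1) := ⟨(I, 0), ⟨hI, by norm_num⟩, rfl⟩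
      rw [hOe] at this
      exact this.2
    have hv0dl : dl true 1 v₀ = 0 := by
      have : ψ (I, 0) ∈ ch true 1 := by rw [← hψ0]; exact ⟨I, hI, rfl⟩
      exact this.2
    have hw0 : ∀ t : ℝ, ((v₀.1, v₀.2 - sg σ * t) : ℂ × ℝ) ≠ 0 := by
      intro t h
      have h1 : v₀.1 = 0 := congrArg Prod.fst h
      rw [h1] at hv0im
      simp at hv0im
    have hcont : Continuous fun t : ℝ => nml (v₀.1, v₀.2 - sg σ * t) :=
      hN.1.comp_continuous (by fun_prop) hw0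
    have h00 : nml (v₀.1, v₀.2 - sg σ * 0) = v₀ := by
      rw [mul_zero, sub_zero]
      exact (hN.2.2.1 v₀ hv0m.1.1).1
    have hnhds : ∀ᶠ t in nhds (0 : ℝ), nml (v₀.1, v₀.2 - sg σ * t) ∈ O := by
      apply hcont.continuousAt.eventually_mem
      show O ∈ nhds (nml (v₀.1, v₀.2 - sg σ * 0))
      rw [h00]
      exact hOo.mem_nhds hv0O
    obtain ⟨ε, hε, hball⟩ := Metric.eventually_nhds_iff.mp hnhds
    have ht : nml (v₀.1, v₀.2 - sg σ * (ε / 2)) ∈ O := by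
      apply hball
      rw [Real.dist_eq, sub_zero, abs_of_pos (by positivity)]
      linarith
    have hpos : 0 < nrm (v₀.1, v₀.2 - sg σ * (ε / 2)) := (hN.2.1 _ (hw0 _)).1
    have hH : nml (v₀.1, v₀.2 - sg σ * (ε / 2)) ∈ Hem true := by
      refine ⟨(hN.2.1 _ (hw0 _)).2, ?_⟩
      have h3 : sg true = 1 := rfl
      rw [h3, one_mul]
      unfold nml
      simp only
      rw [Complex.div_ofReal_im]
      positivity
    have hmem : nml (v₀.1, v₀.2 - sg σ * (ε / 2)) ∈ ψ '' (Smc ×ˢ Ioo (-1) 1) := by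
      rw [hOe]
      exact ⟨hH, ht⟩
    obtain ⟨⟨w, s⟩, hp, he⟩ := hmem
    have h5 := hnn w hp.1 s ⟨hp.2.1.le, hp.2.2.le⟩
    have h6 : g (w, s) = dl true 1 (nml (v₀.1, v₀.2 - sg σ * (ε / 2))) := by rw [← he]
    rw [h6, dl_nml hN 1 (hw0 _)] at h5
    have h7 : dl true 1 (v₀.1, v₀.2 - sg σ * (ε / 2)) = - (sg σ * (ε / 2)) := by
      have h8 : dl true 1 (v₀.1, v₀.2 - sg σ * (ε / 2)) = dl true 1 v₀ - sg σ * (ε / 2) := by
        unfold dl lon
        simp only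
        ring
      rw [h8, hv0dl]
      ring
    rw [h7] at h5
    have h8 : sg σ * (- (sg σ * (ε / 2)) / nrm (v₀.1, v₀.2 - sg σ * (ε / 2))) =
        - (ε / 2 / nrm (v₀.1, v₀.2 - sg σ * (ε / 2))) := by
      have h9 : sg σ * sg σ = 1 := by cases σ <;> simp [sg]
      have : sg σ * (- (sg σ * (ε / 2)) / nrm (v₀.1, v₀.2 - sg σ * (ε / 2))) =
        - ((sg σ * sg σ) * (ε / 2) / nrm (v₀.1, v₀.2 - sg σ * (ε / 2))) := by ring
      rw [this, h9, one_mul]
    rw [h8] at h5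
    have h10 : 0 < ε / 2 / nrm (v₀.1, v₀.2 - sg σ * (ε / 2)) := by positivity
    linarith
  -- conclusion
  have g1 : g (I, 1) ≠ 0 := fun h => by
    have := hz I hI 1 (by norm_num) h
    norm_num at this
  have g2 : g (I, -1) ≠ 0 := fun h => by
    have := hz I hI (-1) (by norm_num) h
    norm_num at this
  have fin : ∀ σ : Bool, 0 < sg σ * g (I, 1) → ∃ σ : Bool, ∀ w ∈ Smc, ∀ s ∈ Ioc (0 : ℝ) 1,
      0 < sg σ * dl true 1 (ψ (w, s)) ∧ sg σ * dl true 1 (ψ (w, -s)) < 0 := by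
    intro σ h
    have hb : 0 < sg (!σ) * g (I, -1) := by
      have h1 := hne σ
      have h2 : ¬ 0 < sg σ * g (I, -1) := fun h3 => h1 ⟨h, h3⟩
      push Not at h2
      have h3 : sg σ * g (I, -1) ≠ 0 := by
        apply mul_ne_zero _ g2
        cases σ <;> simp [sg]
      have h4 : sg σ * g (I, -1) < 0 := lt_of_le_of_ne h2 h3
      have h5 : sg (!σ) = - sg σ := by cases σ <;> simp [sg]
      rw [h5]
      linarith
    refine ⟨σ, fun w hw s hs => ⟨(key σ).1 h w hw s hs, ?_⟩⟩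
    have h6 := (key (!σ)).2 hb w hw (-s) ⟨by linarith [hs.2], by linarith [hs.1]⟩
    have h5 : sg (!σ) = - sg σ := by cases σ <;> simp [sg]
    rw [h5] at h6
    have h7 : g (w, -s) = dl true 1 (ψ (w, -s)) := rfl
    rw [h7] at h6
    linarith
  rcases lt_or_gt_of_ne g1 with h | h
  · apply fin false
    have h3 : sg false = -1 := rfl
    rw [h3]
    linarith
  · apply fin true
    have h3 : sg true = 1 := rfl
    rw [h3]
    linarith

end Pool.Agent.LIX.S
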