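import Pool.Agent.LIX.StmtsS

/-!
# LIX, block S, module SLD: the slide
-/

set_option autoImplicit false

namespace Pool.Agent.LIX.S

open Set Metric Complex

namespace SLD

/-- The inverse of an injective continuous map on a compact set is continuous. -/
theorem contOn_inv {X Y : Type*} [TopologicalSpace X] [Nonempty X] [TopologicalSpace Y] [T2Space Y]
    {f : X → Y} {K : Set X} (hK : IsCompact K) (hf : ContinuousOn f K) (hi : InjOn f K) :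
    ContinuousOn (Function.invFunOn f K) (f '' K) := by
  rw [continuousOn_iff_isClosed]
  intro t ht
  refine ⟨f '' (K ∩ t), ((hK.inter_right ht).image_of_continuousOn
    (hf.mono inter_subset_left)).isClosed, ?_⟩
  ext y
  constructor
  · rintro ⟨h1, x, hx, rfl⟩
    have h2 : Function.invFunOn f K (f x) = x := hi.leftInvOn_invFunOn hx
    have h1' : Function.invFunOn f K (f x) ∈ t := h1
    rw [h2] at h1'
    exact ⟨⟨x, ⟨hx, h1'⟩, rfl⟩, x, hx, rfl⟩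
  · rintro ⟨⟨x, ⟨hx, hxt⟩, rfl⟩, -⟩
    refine ⟨?_, x, hx, rfl⟩
    have h2 : Function.invFunOn f K (f x) = x := hi.leftInvOn_invFunOn hx
    change Function.invFunOn f K (f x) ∈ t
    rw [h2]
    exact hxt

theorem HDisk_compact : IsCompact HDisk := by
  have h1 : HDisk = closedBall (0 : ℂ) 1 ∩ {z | 0 ≤ z.im} := by
    ext z
    simp [HDisk]
  rw [h1]
  exact (isCompact_closedBall 0 1).inter_right (isClosed_le continuous_const continuous_im)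

theorem Disk_compact : IsCompact Disk := by
  have h1 : Disk = closedBall (0 : ℂ) 1 := by
    ext z
    simp [Disk]
  rw [h1]
  exact isCompact_closedBall 0 1

theorem hj_eq {f f' : ℝ} (j j' : Fin 3) (hMF : S_MF) {v : ℂ × ℝ} (hv : v.1 ≠ 0)
    (h : v.2 - ‖v.1‖ * Mf (hj j f) = 0) (h' : v.2 - ‖v.1‖ * Mf (hj j' f') = 0) : hj j f = hj j' f' := by
  have h0 : 0 < ‖v.1‖ := norm_pos_iff.2 hv
  have h1 : Mf (hj j f) = Mf (hj j' f') := by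
    have h2 : ‖v.1‖ * Mf (hj j f) = ‖v.1‖ * Mf (hj j' f') := by linarith
    exact mul_left_cancel₀ h0.ne' h2
  exact hMF.2.1.injective h1

theorem dj1 (hMF : S_MF) (hLON : S_LON) (hDLC : S_DLC) (σ : Bool) :
    ∀ v, v ∈ ch true (jn σ) → v ∉ ch true 1 := by
  intro v hv hv'
  have hv1 := (hDLC true (jn σ)).2.2.2.2.2.2 v hv
  have h1 : v.2 - ‖v.1‖ * Mf (hj (jn σ) (lon true v)) = 0 := hv.2
  have h2 : v.2 - ‖v.1‖ * Mf (hj 1 (lon true v)) = 0 := hv'.2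
  have h3 := hj_eq (jn σ) 1 hMF hv1 h1 h2
  obtain ⟨h4, -⟩ := (hLON true).2 v hv1 hv.1.2
  cases σ
  · have h5 : 2 + 4 * lon true v = 3 + 6 * lon true v := h3
    linarith [h4.1]
  · have h5 : 6 + 4 * lon true v = 3 + 6 * lon true v := h3
    linarith [h4.2]

theorem dj2 (hMF : S_MF) (hLON : S_LON) (hDLC : S_DLC) (j : Fin 3) :
    ∀ v, v ∈ ch true j → v ∉ ch false 1 := by
  intro v hv hv'
  have hv1 := (hDLC true j).2.2.2.2.2.2 v hv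
  have h1 : v.2 - ‖v.1‖ * Mf (hj j (lon true v)) = 0 := hv.2
  have h2 : v.2 - ‖v.1‖ * Mf (hj 1 (lon false v)) = 0 := hv'.2
  have h3 := hj_eq j 1 hMF hv1 h1 h2
  have h4 : 0 ≤ v.1.im := by
    have := hv.1.2
    simpa [sg] using this
  have h5 : v.1.im ≤ 0 := by
    have := hv'.1.2
    simpa [sg] using this
  have h6 : v.1.im = 0 := le_antisymm h5 h4
  obtain ⟨-, -, h7, -⟩ := (hLON true).2 v hv1 hv.1.2
  obtain ⟨-, -, h8, -⟩ := (hLON false).2 v hv1 hv'.1.2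
  have s1 : sg true = 1 := by simp [sg]
  have s2 : sg false = -1 := by simp [sg]
  rcases h7 h6 with ⟨a1, a2⟩ | ⟨a1, a2⟩ <;> rcases h8 h6 with ⟨b1, b2⟩ | ⟨b1, b2⟩ <;>
    rw [a1, b1] at h3 <;> rw [s1] at a2 <;> rw [s2] at b2
  · linarith
  · have : hj 1 1 = 9 := by
      simp [hj]
      norm_num
    rw [this] at h3
    fin_cases j
    · have e : hj 0 0 = 2 := by simp [hj]
      have h3' : hj 0 0 = 9 := h3
      rw [e] at h3'
      norm_num at h3'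
    · have e : hj 1 0 = 3 := by simp [hj]
      have h3' : hj 1 0 = 9 := h3
      rw [e] at h3'
      norm_num at h3'
    · have e : hj 2 0 = 6 := by simp [hj]
      have h3' : hj 2 0 = 9 := h3
      rw [e] at h3'
      norm_num at h3'
  · have : hj 1 0 = 3 := by simp [hj]
    rw [this] at h3
    fin_cases j
    · have e : hj 0 1 = 6 := by
        simp [hj]
        norm_num
      have h3' : hj 0 1 = 3 := h3
      rw [e] at h3'
      norm_num at h3'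
    · have e : hj 1 1 = 9 := by
        simp [hj]
        norm_num
      have h3' : hj 1 1 = 3 := h3
      rw [e] at h3'
      norm_num at h3'
    · have e : hj 2 1 = 10 := by
        simp [hj]
        norm_num
      have h3' : hj 2 1 = 3 := h3
      rw [e] at h3'
      norm_num at h3'
  · linarith

end SLD

open SLD

theorem t_SLD : M_SLD := by
  intro hMF hNML hLON hDLC hCHE hKND hKIN hSGN hSQ hTHE Y _ _ T H V c hc D E hkD hkE hDE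
  have hSph : IsCompact Sph := hNML.2.2.2.2.1
  obtain ⟨hI1, -, -⟩ := hKIN Y T H V c hc
  obtain ⟨hN1, hN2⟩ := hKND Y T H V c hc
  have h01 : (0 : ℝ) ∈ Icc (0 : ℝ) 1 := ⟨le_rfl, zero_le_one⟩
  have hcinj : ∀ v ∈ Sph, ∀ v' ∈ Sph, c (v, 0) = c (v', 0) → v = v' := by
    intro v hv v' hv' h
    have := hc.inj (show ((v, 0) : (ℂ × ℝ) × ℝ) ∈ Sph ×ˢ Icc (0 : ℝ) 1 from ⟨hv, h01⟩)
      (show ((v', 0) : (ℂ × ℝ) × ℝ) ∈ Sph ×ˢ Icc (0 : ℝ) 1 from ⟨hv', h01⟩) h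
    exact congrArg Prod.fst this
  have hbd : ∀ v ∈ Sph, c (v, 0) ∈ T.bd := by
    intro v hv
    rw [hc.bd]
    exact ⟨(v, 0), ⟨hv, rfl⟩, rfl⟩
  have hVb : V true ⊆ T.body := by
    rw [← hc.side_union]
    exact subset_union_left
  have hHV : H ⊆ V true := by
    rw [← hc.side_inter]
    exact inter_subset_left
  have hskbd : T.skel ⊆ T.bd := by
    intro p hp
    unfold Cells.skel at hp
    simp only [mem_iUnion, hc.edge] at hp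
    obtain ⟨i, i', v, hv, rfl⟩ := hp
    have hvS : v ∈ Sph := by
      have hn : ∀ w : ℂ × ℝ, w ≠ 0 → nml w ∈ Sph := fun w hw => (hNML.2.1 w hw).2
      have h1 : ∀ b k : ℝ, ∀ w ∈ hlx b k, w ∈ Sph := by
        rintro b k w ⟨u, -, rfl⟩
        refine hn _ fun h => ?_
        exact exp_ne_zero _ (congrArg Prod.fst h)
      have h2 : ∀ (a : ℂ) (r : ℝ), a ≠ 0 → ∀ w ∈ ({nml (a, r)} : Set (ℂ × ℝ)), w ∈ Sph := by
        intro a r ha w hw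
        rw [mem_singleton_iff.1 hw]
        exact hn _ fun h => ha (congrArg Prod.fst h)
      have h3 : (I : ℂ) ≠ 0 := I_ne_zero
      have h4 : (-I : ℂ) ≠ 0 := neg_ne_zero.2 I_ne_zero
      fin_cases i <;> fin_cases i' <;>
        first
          | exact h2 _ _ h3 _ hv
          | exact h2 _ _ h4 _ hv
          | exact h1 _ _ _ hv
          | exact hv.1
    exact hbd v hvS
  -- the disk `D`
  have hkD' : D.1 ∩ T.bd = (fun v => c (v, 0)) '' ch true 1 := hkD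
  have hkE' : E.1 ∩ T.bd = (fun v => c (v, 0)) '' ch false 1 := hkE
  obtain ⟨f, hf, hfD⟩ : ∃ f, IsEdgePar T H f ∧ D.1 = f '' HDisk := by
    rcases D.2 with ⟨f, hf, hfD⟩ | h
    · exfalso
      have h1 := (hN1 f hf).1
      rw [← hfD] at h1
      have h2 := hI1 D.1 none (some (true, 1)) D.2 h1 hkD
      cases h2
    · exact h
  obtain ⟨⟨Φ, hΦc, hΦi, hΦ, hΦ0⟩, -⟩ := hf
  have h0I : (0 : ℝ) ∈ Icc (-1 : ℝ) 1 := ⟨by norm_num, by norm_num⟩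
  have hDbd : ∀ z ∈ HDisk, ‖z‖ = 1 → ∃ v ∈ ch true 1, Φ (z, 0) = c (v, 0) := by
    intro z hz h1
    have h2 : Φ (z, 0) ∈ D.1 ∩ T.bd := by
      refine ⟨?_, (hΦ z hz 0 h0I).2.1.2 h1⟩
      rw [hfD]
      exact ⟨z, hz, (hΦ0 z hz).symm⟩
    rw [hkD'] at h2
    obtain ⟨v, hv, hv2⟩ := h2
    exact ⟨v, hv, hv2.symm⟩
  -- the bicollar lies in `V true`
  have hΦV : ∀ z ∈ HDisk, ∀ s ∈ Icc (-1 : ℝ) 1, Φ (z, s) ∈ V true := by
    have hA : IsPreconnected (({z : ℂ | ‖z‖ ≤ 1} ∩ {z | 0 < z.im}) ×ˢ Icc (-1 : ℝ) 1) := by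
      refine (Convex.prod (Convex.inter ?_ (convex_halfSpace_im_gt 0)) (convex_Icc _ _)).isPreconnected
      have h1 : {z : ℂ | ‖z‖ ≤ 1} = closedBall (0 : ℂ) 1 := by
        ext z
        simp
      rw [h1]
      exact convex_closedBall 0 1
    have hAs : (({z : ℂ | ‖z‖ ≤ 1} ∩ {z | 0 < z.im}) ×ˢ Icc (-1 : ℝ) 1) ⊆ HDisk ×ˢ Icc (-1 : ℝ) 1 := by
      rintro ⟨z, s⟩ ⟨⟨h1, h2⟩, hs⟩
      exact ⟨⟨h1, le_of_lt h2⟩, hs⟩
    have hB := hA.image Φ (hΦc.mono hAs)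
    have hB2 := isPreconnected_closed_iff.1 hB (V true) (V false) (hc.side_closed true)
      (hc.side_closed false) (by
        rintro _ ⟨⟨z, s⟩, h1, rfl⟩
        rw [hc.side_union]
        exact (hΦ z (hAs h1).1 s (hAs h1).2).1) (by
        have hI : (I : ℂ) ∈ HDisk := ⟨by simp, by simp⟩
        obtain ⟨v, hv, hv2⟩ := hDbd I hI (by simp)
        refine ⟨Φ (I, 0), ⟨(I, 0), ⟨⟨by simp, by simp⟩, h0I⟩, rfl⟩, ?_⟩
        rw [hv2]
        exact (hc.side true v hv.1.1 0 h01).2 hv.1.2)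
    have hB3 : ∀ z ∈ HDisk, 0 < z.im → ∀ s ∈ Icc (-1 : ℝ) 1, Φ (z, s) ∉ V false := by
      intro z hz hz2 s hs hF
      obtain ⟨p, ⟨⟨z', s'⟩, h1, rfl⟩, h2⟩ := hB2 ⟨Φ (z, s), ⟨(z, s), ⟨⟨hz.1, hz2⟩, hs⟩, rfl⟩, hF⟩
      rw [hc.side_inter] at h2
      have h3 := (hΦ z' (hAs h1).1 s' (hAs h1).2).2.2.1.1 h2
      have h4 : 0 < z'.im := h1.1.2
      exact h4.ne' h3
    intro z hz s hs
    rcases hz.2.eq_or_lt with h1 | h1
    · exact hHV ((hΦ z hz s hs).2.2.1.2 h1.symm)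
    · have h2 := (hΦ z hz s hs).1
      rw [← hc.side_union] at h2
      exact h2.resolve_right (hB3 z hz h1 s hs)
  -- the traces
  set c0 : ℂ × ℝ → Y := fun v => c (v, 0) with hc0
  have hc0c : ContinuousOn c0 Sph :=
    hc.cont.comp (by fun_prop) fun v hv => ⟨hv, h01⟩
  have hc0i : InjOn c0 Sph := fun v hv v' hv' h => hcinj v hv v' hv' h
  set ψ : ℂ × ℝ → ℂ × ℝ := fun x => Function.invFunOn c0 Sph (Φ x) with hψdef
  have hSmc : Smc ×ˢ Icc (-1 : ℝ) 1 ⊆ HDisk ×ˢ Icc (-1 : ℝ) 1 := prod_mono (fun w hw => hw.1) subset_rfl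
  have hΦbd : ∀ w ∈ Smc, ∀ s ∈ Icc (-1 : ℝ) 1, Φ (w, s) ∈ c0 '' Sph := by
    intro w hw s hs
    have h1 := (hΦ w hw.1 s hs).2.1.2 hw.2
    rw [hc.bd] at h1
    obtain ⟨⟨v, l⟩, ⟨hv, hl⟩, h2⟩ := h1
    have hl' : l = 0 := hl
    subst hl'
    exact ⟨v, hv, h2⟩
  have hψ1 : ∀ w ∈ Smc, ∀ s ∈ Icc (-1 : ℝ) 1, ψ (w, s) ∈ Sph ∧ Φ (w, s) = c (ψ (w, s), 0) := by
    intro w hw s hs
    have h1 := hΦbd w hw s hs
    exact ⟨Function.invFunOn_mem h1, (Function.invFunOn_eq h1).symm⟩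
  have hψ2 : ∀ w ∈ Smc, ∀ s ∈ Icc (-1 : ℝ) 1, ψ (w, s) ∈ Hem true ∧ Φ (w, s) = c (ψ (w, s), 0) := by
    intro w hw s hs
    obtain ⟨h1, h2⟩ := hψ1 w hw s hs
    refine ⟨⟨h1, ?_⟩, h2⟩
    have h3 := hΦV w hw.1 s hs
    rw [h2] at h3
    exact (hc.side true _ h1 0 h01).1 h3
  have hψ3 : ∀ w ∈ Smc, ∀ s ∈ Icc (-1 : ℝ) 1, ψ (w, s) ∈ Hem true ∧
      ((ψ (w, s)).1.im = 0 ↔ w.im = 0) := by
    intro w hw s hs
    obtain ⟨h1, h2⟩ := hψ2 w hw s hs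
    refine ⟨h1, ?_⟩
    rw [← hc.surf _ h1.1 0 h01, ← h2]
    exact (hΦ w hw.1 s hs).2.2.1
  have hψc : ContinuousOn ψ (Smc ×ˢ Icc (-1) 1) := by
    refine (contOn_inv hSph hc0c hc0i).comp (hΦc.mono hSmc) ?_
    rintro ⟨w, s⟩ ⟨hw, hs⟩
    exact hΦbd w hw s hs
  have hψi : InjOn ψ (Smc ×ˢ Icc (-1) 1) := by
    rintro ⟨w, s⟩ ⟨hw, hs⟩ ⟨w', s'⟩ ⟨hw', hs'⟩ h
    refine hΦi (hSmc ⟨hw, hs⟩) (hSmc ⟨hw', hs'⟩) ?_
    rw [(hψ1 w hw s hs).2, (hψ1 w' hw' s' hs').2, h]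
  have hψ0 : (fun w => ψ (w, 0)) '' Smc = ch true 1 := by
    ext v
    constructor
    · rintro ⟨w, hw, rfl⟩
      obtain ⟨v, hv, hv2⟩ := hDbd w hw.1 hw.2
      obtain ⟨h1, h2⟩ := hψ1 w hw 0 h0I
      have h3 : ψ (w, 0) = v := hcinj _ h1 v hv.1.1 (by rw [← h2, hv2])
      change ψ (w, 0) ∈ ch true 1
      rw [h3]
      exact hv
    · intro hv
      have h1 : c (v, 0) ∈ D.1 ∩ T.bd := by
        rw [hkD']
        exact ⟨v, hv, rfl⟩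
      obtain ⟨h2, h3⟩ := h1
      rw [hfD] at h2
      obtain ⟨w, hw, hw2⟩ := h2
      have h4 : Φ (w, 0) = c (v, 0) := by
        rw [hΦ0 w hw, hw2]
      have h5 : ‖w‖ = 1 := (hΦ w hw 0 h0I).2.1.1 (by rw [h4]; exact h3)
      obtain ⟨h6, h7⟩ := hψ1 w ⟨hw, h5⟩ 0 h0I
      refine ⟨w, ⟨hw, h5⟩, ?_⟩
      exact hcinj _ h6 v hv.1.1 (by rw [← h7, h4])
  obtain ⟨σ, hσ⟩ := hSGN ψ hψc hψi hψ3 hψ0
  -- `D` and `E` are disjoint
  have hDE0 : ∀ p, p ∈ D.1 → p ∉ E.1 := by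
    intro p hp hp'
    have h1 : p ∈ T.bd := hskbd (hDE ⟨hp, hp'⟩)
    have h2 : p ∈ D.1 ∩ T.bd := ⟨hp, h1⟩
    have h3 : p ∈ E.1 ∩ T.bd := ⟨hp', h1⟩
    rw [hkD'] at h2
    rw [hkE'] at h3
    obtain ⟨v, hv, rfl⟩ := h2
    obtain ⟨v', hv', h4⟩ := h3
    have h5 := hcinj v' hv'.1.1 v hv.1.1 h4
    rw [h5] at hv'
    exact dj2 hMF hLON hDLC 1 v hv hv'
  have hEc : IsCompact E.1 := by
    rcases E.2 with ⟨g, ⟨⟨Ψ, hΨc, -, -, hΨ0⟩, -⟩, hg⟩ | ⟨g, ⟨⟨Ψ, hΨc, -, -, hΨ0⟩, -⟩, hg⟩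
    · rw [hg]
      refine Disk_compact.image_of_continuousOn ?_
      have h1 : ContinuousOn (fun z : ℂ => Ψ (z, 0)) Disk :=
        hΨc.comp (by fun_prop) fun z hz => ⟨hz, h0I⟩
      exact h1.congr fun z hz => (hΨ0 z hz).symm
    · rw [hg]
      refine HDisk_compact.image_of_continuousOn ?_
      have h1 : ContinuousOn (fun z : ℂ => Ψ (z, 0)) HDisk :=
        hΨc.comp (by fun_prop) fun z hz => ⟨hz, h0I⟩
      exact h1.congr fun z hz => (hΨ0 z hz).symm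
  have hDc : IsCompact D.1 := by
    rw [hfD]
    refine HDisk_compact.image_of_continuousOn ?_
    have h1 : ContinuousOn (fun z : ℂ => Φ (z, 0)) HDisk :=
      hΦc.comp (by fun_prop) fun z hz => ⟨hz, h0I⟩
    exact h1.congr fun z hz => (hΦ0 z hz).symm
  -- a thin layer off `E`
  obtain ⟨ε, hε, hεE⟩ : ∃ ε : ℝ, 0 < ε ∧ ∀ z ∈ HDisk, ∀ s, 0 ≤ s → s < ε → s ≤ 1 → Φ (z, s) ∉ E.1 := by
    have hA : IsCompact (HDisk ×ˢ Icc (0 : ℝ) 1) := HDisk_compact.prod isCompact_Icc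
    have hM : ContinuousOn Φ (HDisk ×ˢ Icc (0 : ℝ) 1) :=
      hΦc.mono (prod_mono subset_rfl (Icc_subset_Icc (by norm_num) le_rfl))
    have hB : IsCompact (HDisk ×ˢ Icc (0 : ℝ) 1 ∩ Φ ⁻¹' E.1) :=
      hA.of_isClosed_subset (hM.preimage_isClosed_of_isClosed hA.isClosed hEc.isClosed) inter_subset_left
    have hB2 := (hB.image (f := Prod.snd) continuous_snd).isClosed
    have h0 : (0 : ℝ) ∈ (Prod.snd '' (HDisk ×ˢ Icc (0 : ℝ) 1 ∩ Φ ⁻¹' E.1))ᶜ := by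
      rintro ⟨⟨z, l⟩, ⟨⟨hz, -⟩, hk⟩, hl⟩
      have hl' : l = 0 := hl
      subst hl'
      refine hDE0 _ ?_ hk
      rw [hfD]
      exact ⟨z, hz, (hΦ0 z hz).symm⟩
    obtain ⟨ε, hε, hε2⟩ := Metric.isOpen_iff.1 hB2.isOpen_compl 0 h0
    refine ⟨ε, hε, ?_⟩
    intro z hz s hs0 hs1 hs2 hk
    have h3 : s ∈ ball (0 : ℝ) ε := by
      rw [mem_ball, dist_zero_right, Real.norm_eq_abs, abs_of_nonneg hs0]
      exact hs1
    exact hε2 h3 ⟨(z, s), ⟨⟨hz, hs0, hs2⟩, hk⟩, rfl⟩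
  obtain ⟨s₁, τ, hs0, hsε, hs1, hτc, hτi, hτ, hτ1, hτ2, hO⟩ := hSQ ψ hψc hψi hψ3 hψ0 σ hσ ε hε
  have hs1I : s₁ ∈ Icc (-1 : ℝ) 1 := ⟨by linarith, hs1.le⟩
  obtain ⟨g, hg1, hg2, hg3⟩ := hTHE Y T H V c hc Φ ψ τ s₁ (D.1 ∪ E.1) (jn σ) hΦc hΦi
    (fun z hz s hs => ⟨hΦV z hz s hs, (hΦ z hz s hs).2⟩) hψ2 hs0 hs1 hτc hτi hτ hτ1 hτ2 hO
    (hDc.union hEc) (by
      intro x hx y hy hk
      obtain ⟨t1, -, t3⟩ := hτ x hx y hy
      have hτbd := hbd _ t1.1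
      have hj2 : ∀ y', y' = (2 : ℝ) → τ (x, y') ∈ ch true (jn σ) := by
        rintro y' rfl
        rw [← hτ2]
        exact ⟨x, hx, rfl⟩
      rcases hk with hk | hk
      · have h2 : c (τ (x, y), 0) ∈ D.1 ∩ T.bd := ⟨hk, hτbd⟩
        rw [hkD'] at h2
        obtain ⟨v, hv, hv2⟩ := h2
        have h3 : v = τ (x, y) := hcinj v hv.1.1 _ t1.1 hv2
        rw [h3] at hv
        have h4 := t3.1 (hCHE.2 _ _ hv)
        exact dj1 hMF hLON hDLC σ _ (hj2 y h4) hv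
      · have h2 : c (τ (x, y), 0) ∈ E.1 ∩ T.bd := ⟨hk, hτbd⟩
        rw [hkE'] at h2
        obtain ⟨v, hv, hv2⟩ := h2
        have h3 : v = τ (x, y) := hcinj v hv.1.1 _ t1.1 hv2
        rw [h3] at hv
        have h4 := t3.1 (hCHE.2 _ _ hv)
        exact dj2 hMF hLON hDLC (jn σ) _ (hj2 y h4) hv) (by
      intro w hw hk
      rcases hk with hk | hk
      · rw [hfD] at hk
        obtain ⟨z, hz, hz2⟩ := hk
        have h1 : Φ (z, 0) = Φ (w, s₁) := by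
          rw [hΦ0 z hz, hz2]
        have h2 := hΦi (show ((z, 0) : ℂ × ℝ) ∈ HDisk ×ˢ Icc (-1 : ℝ) 1 from ⟨hz, h0I⟩)
          (show ((w, s₁) : ℂ × ℝ) ∈ HDisk ×ˢ Icc (-1 : ℝ) 1 from ⟨hw, hs1I⟩) h1
        have h3 : (0 : ℝ) = s₁ := congrArg Prod.snd h2
        exact hs0.ne h3
      · exact hεE w hw s₁ hs0.le hsε hs1.le hk)
  refine ⟨⟨g '' HDisk, Or.inr ⟨g, hg1, rfl⟩⟩, jn σ, ?_, hg2, ?_, ?_⟩
  · cases σ <;> decide
  · intro p hp
    have : p ∈ g '' HDisk ∩ (D.1 ∪ E.1) := ⟨hp.1, Or.inl hp.2⟩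
    rw [hg3] at this
    exact absurd this (notMem_empty p)
  · intro p hp
    have : p ∈ g '' HDisk ∩ (D.1 ∪ E.1) := ⟨hp.1, Or.inr hp.2⟩
    rw [hg3] at this
    exact absurd this (notMem_empty p)

end Pool.Agent.LIX.S
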