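import Pool.Agent.LIX.StmtsS

/-!
# LIX, block S, module SQ: the rectangle between a parallel copy and the next chord
-/

set_option autoImplicit false
set_option linter.unusedSectionVars false

namespace Pool.Agent.LIX.S.SQx

open Set Metric Function

/-- A continuous injection of a compact set has a continuous inverse on its image. -/
theorem inv_cont {α β : Type*} [TopologicalSpace α] [TopologicalSpace β] [T2Space β] [Nonempty α]
    {f : α → β} {K : Set α} (hK : IsCompact K) (hf : ContinuousOn f K) (hi : InjOn f K) :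
    ContinuousOn (invFunOn f K) (f '' K) := by
  rw [continuousOn_iff_isClosed]
  intro t ht
  refine ⟨f '' (K ∩ t), ((hK.inter_right ht).image_of_continuousOn (hf.mono inter_subset_left)).isClosed, ?_⟩
  ext y
  constructor
  · rintro ⟨h1, x, hx, rfl⟩
    have e : invFunOn f K (f x) = x := hi.leftInvOn_invFunOn hx
    refine ⟨⟨x, ⟨hx, ?_⟩, rfl⟩, x, hx, rfl⟩
    have h1' : invFunOn f K (f x) ∈ t := h1
    rwa [e] at h1'
  · rintro ⟨⟨x, ⟨hx, hxt⟩, rfl⟩, -⟩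
    refine ⟨?_, x, hx, rfl⟩
    show invFunOn f K (f x) ∈ t
    rw [hi.leftInvOn_invFunOn hx]
    exact hxt

/-- Data of the abstract gluing. -/
structure Dat {X W : Type*} [MetricSpace X] [MetricSpace W] (E : Set X) (Wc : Set W) (c s₂ : ℝ)
    (st : ℝ × ℝ → X) (ψ : W × ℝ → X) : Prop where
  Ecl : IsClosed E
  Wcp : IsCompact Wc
  cpos : 1 < c
  spos : 0 < s₂
  stc : ContinuousOn st (Icc 0 1 ×ˢ Icc 0 c)
  sti : InjOn st (Icc 0 1 ×ˢ Icc 0 c)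
  stE : ∀ x ∈ Icc (0 : ℝ) 1, ∀ y ∈ Icc (0 : ℝ) c, st (x, y) ∈ E
  psc : ContinuousOn ψ (Wc ×ˢ Icc 0 s₂)
  psi : InjOn ψ (Wc ×ˢ Icc 0 s₂)
  sub : ψ '' (Wc ×ˢ Icc 0 s₂) ⊆ st '' (Icc 0 1 ×ˢ Ico 0 (1 / 2))
  opn : ∃ O, IsOpen O ∧ ψ '' (Wc ×ˢ Ico 0 s₂) = E ∩ O
  bot : (fun x => st (x, 0)) '' Icc 0 1 = (fun w => ψ (w, 0)) '' Wc

section

variable {X W : Type*} [MetricSpace X] [MetricSpace W] [Nonempty W] {E : Set X} {Wc : Set W} {c s₂ : ℝ}
  {st : ℝ × ℝ → X} {ψ : W × ℝ → X}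

open Classical in
/-- the shift -/
noncomputable def gg (Wc : Set W) (s₂ : ℝ) (ψ : W × ℝ → X) (x : X) : X :=
  if x ∈ ψ '' (Wc ×ˢ Icc 0 s₂) then
    ψ ((invFunOn ψ (Wc ×ˢ Icc 0 s₂) x).1, s₂ / 2 + (invFunOn ψ (Wc ×ˢ Icc 0 s₂) x).2 / 2)
  else x

theorem gg_psi (h : Dat E Wc c s₂ st ψ) {w : W} (hw : w ∈ Wc) {s : ℝ} (hs : s ∈ Icc 0 s₂) :
    gg Wc s₂ ψ (ψ (w, s)) = ψ (w, s₂ / 2 + s / 2) := by
  have hm : (w, s) ∈ Wc ×ˢ Icc 0 s₂ := ⟨hw, hs⟩
  have e : invFunOn ψ (Wc ×ˢ Icc 0 s₂) (ψ (w, s)) = (w, s) := h.psi.leftInvOn_invFunOn hm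
  unfold gg
  rw [if_pos ⟨_, hm, rfl⟩, e]

theorem gg_off {x : X} (hx : x ∉ ψ '' (Wc ×ˢ Icc 0 s₂)) : gg Wc s₂ ψ x = x := if_neg hx

theorem psE (h : Dat E Wc c s₂ st ψ) {w : W} (hw : w ∈ Wc) {s : ℝ} (hs : s ∈ Icc 0 s₂) : ψ (w, s) ∈ E := by
  obtain ⟨p, hp, hpe⟩ := h.sub ⟨(w, s), ⟨hw, hs⟩, rfl⟩
  rw [← hpe]
  have h1 := h.cpos
  exact h.stE p.1 hp.1 p.2 ⟨hp.2.1, by linarith [hp.2.2]⟩

theorem gg_cont (h : Dat E Wc c s₂ st ψ) : ContinuousOn (gg Wc s₂ ψ) E := by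
  obtain ⟨O, hO, hOe⟩ := h.opn
  have hKc : IsCompact (Wc ×ˢ Icc (0 : ℝ) s₂) := h.Wcp.prod isCompact_Icc
  have hAc : IsCompact (ψ '' (Wc ×ˢ Icc 0 s₂)) := hKc.image_of_continuousOn h.psc
  have hs := h.spos
  have h1 : ContinuousOn (gg Wc s₂ ψ) (ψ '' (Wc ×ˢ Icc 0 s₂)) := by
    have h2 : ContinuousOn (fun x => ψ ((invFunOn ψ (Wc ×ˢ Icc 0 s₂) x).1,
        s₂ / 2 + (invFunOn ψ (Wc ×ˢ Icc 0 s₂) x).2 / 2)) (ψ '' (Wc ×ˢ Icc 0 s₂)) := by
      have h3 := inv_cont hKc h.psc h.psi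
      apply h.psc.comp (f := fun x => ((invFunOn ψ (Wc ×ˢ Icc 0 s₂) x).1,
        s₂ / 2 + (invFunOn ψ (Wc ×ˢ Icc 0 s₂) x).2 / 2))
      · exact (continuous_fst.comp_continuousOn h3).prodMk
          (continuousOn_const.add ((continuous_snd.comp_continuousOn h3).div_const 2))
      · rintro x ⟨p, hp, rfl⟩
        have e : invFunOn ψ (Wc ×ˢ Icc 0 s₂) (ψ p) = p := h.psi.leftInvOn_invFunOn hp
        simp only [e]
        exact ⟨hp.1, by constructor <;> linarith [hp.2.1, hp.2.2]⟩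
    apply h2.congr
    intro x hx
    unfold gg
    rw [if_pos hx]
  have h2 : ContinuousOn (gg Wc s₂ ψ) (E \ O) := by
    apply continuousOn_id.congr
    intro x hx
    by_cases hxA : x ∈ ψ '' (Wc ×ˢ Icc 0 s₂)
    · obtain ⟨p, hp, rfl⟩ := hxA
      have h3 : p.2 = s₂ := by
        by_contra hc
        have h4 : ψ p ∈ ψ '' (Wc ×ˢ Ico 0 s₂) := ⟨p, ⟨hp.1, hp.2.1, lt_of_le_of_ne hp.2.2 hc⟩, rfl⟩
        rw [hOe] at h4
        exact hx.2 h4.2
      have h5 := gg_psi h hp.1 hp.2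
      rw [h3] at h5
      have h6 : p = (p.1, s₂) := Prod.ext rfl h3
      rw [← h3] at h5
      show gg Wc s₂ ψ (ψ p) = ψ p
      rw [h6, gg_psi h hp.1 (by constructor <;> linarith)]
      congr 2
      ring
    · exact gg_off hxA
  have h3 : E = ψ '' (Wc ×ˢ Icc 0 s₂) ∪ E \ O := by
    ext x
    constructor
    · intro hx
      by_cases hxO : x ∈ O
      · left
        have h4 : x ∈ ψ '' (Wc ×ˢ Ico 0 s₂) := by rw [hOe]; exact ⟨hx, hxO⟩
        exact image_mono (prod_mono_right Ico_subset_Icc_self) h4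
      · exact Or.inr ⟨hx, hxO⟩
    · rintro (⟨p, hp, rfl⟩ | hx)
      · exact psE h hp.1 hp.2
      · exact hx.1
  rw [h3]
  exact h1.union_of_isClosed h2 hAc.isClosed (h.Ecl.sdiff hO)

theorem mem_half (h : Dat E Wc c s₂ st ψ) {w : W} (hw : w ∈ Wc) {s : ℝ} (hs : s ∈ Icc 0 s₂) :
    (w, s₂ / 2 + s / 2) ∈ Wc ×ˢ Icc (0 : ℝ) s₂ := by
  have := h.spos
  exact ⟨hw, by constructor <;> simp only <;> linarith [hs.1, hs.2]⟩

theorem gg_mem (h : Dat E Wc c s₂ st ψ) : ∀ x ∈ ψ '' (Wc ×ˢ Icc 0 s₂),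
    gg Wc s₂ ψ x ∈ ψ '' (Wc ×ˢ Icc 0 s₂) := by
  rintro x ⟨p, hp, rfl⟩
  have := gg_psi h hp.1 hp.2
  rw [show gg Wc s₂ ψ (ψ p) = ψ (p.1, s₂ / 2 + p.2 / 2) from this]
  exact mem_image_of_mem _ (mem_half h hp.1 hp.2)

theorem gg_inj (h : Dat E Wc c s₂ st ψ) : Injective (gg Wc s₂ ψ) := by
  have hs := h.spos
  have key := gg_mem h
  intro x y hxy
  by_cases hx : x ∈ ψ '' (Wc ×ˢ Icc 0 s₂)
  · by_cases hy : y ∈ ψ '' (Wc ×ˢ Icc 0 s₂)
    · obtain ⟨p, hp, rfl⟩ := hx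
      obtain ⟨q, hq, rfl⟩ := hy
      have e1 : gg Wc s₂ ψ (ψ p) = ψ (p.1, s₂ / 2 + p.2 / 2) := gg_psi h hp.1 hp.2
      have e2 : gg Wc s₂ ψ (ψ q) = ψ (q.1, s₂ / 2 + q.2 / 2) := gg_psi h hq.1 hq.2
      rw [e1, e2] at hxy
      have h1 := h.psi (mem_half h hp.1 hp.2) (mem_half h hq.1 hq.2) hxy
      have h2 := (Prod.ext_iff.mp h1).1
      have h3 := (Prod.ext_iff.mp h1).2
      simp only at h2 h3
      congr 1
      exact Prod.ext h2 (by linarith)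
    · exfalso
      apply hy
      have := key x hx
      rw [hxy, gg_off hy] at this
      exact this
  · by_cases hy : y ∈ ψ '' (Wc ×ˢ Icc 0 s₂)
    · exfalso
      apply hx
      have := key y hy
      rw [← hxy, gg_off hx] at this
      exact this
    · rwa [gg_off hx, gg_off hy] at hxy

/-- the image of the shift avoids the lower half of the strip -/
theorem gg_avoid (h : Dat E Wc c s₂ st ψ) (x : X) : gg Wc s₂ ψ x ∉ ψ '' (Wc ×ˢ Ico 0 (s₂ / 2)) := by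
  have hs := h.spos
  rintro ⟨q, hq, hqe⟩
  have hq' : q ∈ Wc ×ˢ Icc (0 : ℝ) s₂ := ⟨hq.1, hq.2.1, by linarith [hq.2.2]⟩
  by_cases hx : x ∈ ψ '' (Wc ×ˢ Icc 0 s₂)
  · obtain ⟨p, hp, rfl⟩ := hx
    have e1 : gg Wc s₂ ψ (ψ p) = ψ (p.1, s₂ / 2 + p.2 / 2) := gg_psi h hp.1 hp.2
    rw [e1] at hqe
    have h1 := h.psi hq' (mem_half h hp.1 hp.2) hqe
    have h3 := (Prod.ext_iff.mp h1).2
    simp only at h3
    linarith [hq.2.2, hp.2.1]
  · rw [gg_off hx] at hqe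
    exact hx ⟨q, hq', hqe⟩

/-- surjectivity of the shift -/
theorem gg_surj (h : Dat E Wc c s₂ st ψ) {y : X} (hy : y ∉ ψ '' (Wc ×ˢ Ico 0 (s₂ / 2)))
    (hB : y ∈ st '' (Icc 0 1 ×ˢ Ico 0 c)) : ∃ x ∈ st '' (Icc 0 1 ×ˢ Ico 0 c), gg Wc s₂ ψ x = y := by
  have hs := h.spos
  by_cases hx : y ∈ ψ '' (Wc ×ˢ Icc 0 s₂)
  · obtain ⟨p, hp, rfl⟩ := hx
    have h1 : s₂ / 2 ≤ p.2 := by
      by_contra hc
      exact hy ⟨p, ⟨hp.1, hp.2.1, lt_of_not_ge hc⟩, rfl⟩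
    have hm : 2 * (p.2 - s₂ / 2) ∈ Icc (0 : ℝ) s₂ := by
      constructor <;> linarith [hp.2.2]
    refine ⟨ψ (p.1, 2 * (p.2 - s₂ / 2)), ?_, ?_⟩
    · obtain ⟨q, hq, hqe⟩ := h.sub ⟨(p.1, 2 * (p.2 - s₂ / 2)), ⟨hp.1, hm⟩, rfl⟩
      rw [← hqe]
      have := h.cpos
      exact ⟨q, ⟨hq.1, hq.2.1, by linarith [hq.2.2]⟩, rfl⟩
    · rw [gg_psi h hp.1 hm]
      congr 1
      apply Prod.ext
      · rfl
      · simp only
        ring
  · exact ⟨y, hB, gg_off hx⟩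

/-- the foot map -/
noncomputable def wx (Wc : Set W) (s₂ : ℝ) (st : ℝ × ℝ → X) (ψ : W × ℝ → X) (x : ℝ) : W :=
  (invFunOn ψ (Wc ×ˢ Icc 0 s₂) (st (x, 0))).1

theorem wx_spec (h : Dat E Wc c s₂ st ψ) {x : ℝ} (hx : x ∈ Icc (0 : ℝ) 1) :
    wx Wc s₂ st ψ x ∈ Wc ∧ ψ (wx Wc s₂ st ψ x, 0) = st (x, 0) := by
  have hs := h.spos
  have h1 : st (x, 0) ∈ (fun w => ψ (w, 0)) '' Wc := by
    rw [← h.bot]
    exact ⟨x, hx, rfl⟩
  obtain ⟨w, hw, hwe⟩ := h1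
  have hm : (w, (0 : ℝ)) ∈ Wc ×ˢ Icc (0 : ℝ) s₂ := ⟨hw, le_rfl, hs.le⟩
  have e : invFunOn ψ (Wc ×ˢ Icc 0 s₂) (st (x, 0)) = (w, 0) := by
    rw [← hwe]
    exact h.psi.leftInvOn_invFunOn hm
  unfold wx
  rw [e]
  exact ⟨hw, hwe⟩

theorem wx_cont (h : Dat E Wc c s₂ st ψ) : ContinuousOn (wx Wc s₂ st ψ) (Icc 0 1) := by
  have hs := h.spos
  have hc := h.cpos
  have hKc : IsCompact (Wc ×ˢ Icc (0 : ℝ) s₂) := h.Wcp.prod isCompact_Icc
  apply continuous_fst.comp_continuousOn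
  apply (inv_cont hKc h.psc h.psi).comp (f := fun x : ℝ => st (x, 0))
  · apply h.stc.comp (f := fun x : ℝ => (x, (0 : ℝ))) (by fun_prop)
    intro x hx
    exact ⟨hx, le_rfl, by linarith⟩
  · intro x hx
    have h1 := wx_spec h hx
    show st (x, 0) ∈ _
    rw [← h1.2]
    exact ⟨(wx Wc s₂ st ψ x, 0), ⟨h1.1, le_rfl, hs.le⟩, rfl⟩

theorem wx_inj (h : Dat E Wc c s₂ st ψ) : InjOn (wx Wc s₂ st ψ) (Icc 0 1) := by
  intro x hx y hy hxy
  have hc := h.cpos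
  have h1 := (wx_spec h hx).2
  have h2 := (wx_spec h hy).2
  rw [hxy, h2] at h1
  have h3 := h.sti (x₁ := (y, 0)) (x₂ := (x, 0)) ⟨hy, le_rfl, by linarith⟩ ⟨hx, le_rfl, by linarith⟩ h1
  exact (Prod.ext_iff.mp h3).1.symm

theorem wx_surj (h : Dat E Wc c s₂ st ψ) {w : W} (hw : w ∈ Wc) : ∃ x ∈ Icc (0 : ℝ) 1, wx Wc s₂ st ψ x = w := by
  have hs := h.spos
  have h1 : ψ (w, 0) ∈ (fun x => st (x, 0)) '' Icc 0 1 := by
    rw [h.bot]
    exact ⟨w, hw, rfl⟩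
  obtain ⟨x, hx, hxe⟩ := h1
  refine ⟨x, hx, ?_⟩
  have h2 := wx_spec h hx
  have hxe' : st (x, 0) = ψ (w, 0) := hxe
  rw [hxe'] at h2
  have h3 := h.psi (x₁ := (wx Wc s₂ st ψ x, 0)) (x₂ := (w, 0)) ⟨h2.1, le_rfl, hs.le⟩ ⟨hw, le_rfl, hs.le⟩ h2.2
  exact (Prod.ext_iff.mp h3).1

/-- reparametrisation of the height -/
noncomputable def yy (c y : ℝ) : ℝ := min (y - 1) 1 + max (y - 2) 0 * (c - 1)

theorem yy_cont (c : ℝ) : Continuous (yy c) := by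
  unfold yy
  fun_prop

theorem yy_low {c y : ℝ} (h : y ≤ 2) : yy c y = y - 1 := by
  unfold yy
  rw [min_eq_left (by linarith), max_eq_right (by linarith)]
  ring

theorem yy_high {c y : ℝ} (h : 2 ≤ y) : yy c y = 1 + (y - 2) * (c - 1) := by
  unfold yy
  rw [min_eq_right (by linarith), max_eq_left (by linarith)]

theorem yy_mem {c y : ℝ} (hc : 1 < c) (h1 : 1 ≤ y) (h3 : y ≤ 3) : yy c y ∈ Icc 0 c := by
  rcases le_total y 2 with h | h
  · rw [yy_low h]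
    constructor <;> linarith
  · rw [yy_high h]
    constructor <;> nlinarith

theorem yy_mem' {c y : ℝ} (hc : 1 < c) (h1 : 1 ≤ y) (h3 : y < 3) : yy c y ∈ Ico 0 c := by
  rcases le_total y 2 with h | h
  · rw [yy_low h]
    constructor <;> linarith
  · rw [yy_high h]
    constructor <;> nlinarith

theorem yy_inj {c : ℝ} (hc : 1 < c) : StrictMono (yy c) := by
  intro x y hxy
  rcases le_total y 2 with h | h
  · rw [yy_low h, yy_low (by linarith)]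
    linarith
  · rw [yy_high h]
    rcases le_total x 2 with h' | h'
    · rw [yy_low h']
      have h5 : 0 ≤ (y - 2) * (c - 1) := mul_nonneg (by linarith) (by linarith)
      rcases h'.lt_or_eq with h4 | h4
      · linarith
      · have h6 : 0 < (y - 2) * (c - 1) := mul_pos (by linarith) (by linarith)
        linarith
    · rw [yy_high h']
      nlinarith

theorem yy_surj {c z : ℝ} (hc : 1 < c) (h0 : 0 ≤ z) (h1 : z < c) : ∃ y, 1 ≤ y ∧ y < 3 ∧ yy c y = z := by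
  rcases le_total z 1 with h | h
  · exact ⟨z + 1, by linarith, by linarith, by rw [yy_low (by linarith)]; ring⟩
  · refine ⟨2 + (z - 1) / (c - 1), ?_, ?_, ?_⟩
    · have : 0 ≤ (z - 1) / (c - 1) := div_nonneg (by linarith) (by linarith)
      linarith
    · have : (z - 1) / (c - 1) < 1 := by
        rw [div_lt_one (by linarith)]
        linarith
      linarith
    · have h2 : 0 ≤ (z - 1) / (c - 1) := div_nonneg (by linarith) (by linarith)
      rw [yy_high (by linarith)]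
      have h3 : c - 1 ≠ 0 := by linarith
      field_simp
      ring

open Classical in
/-- the rectangle -/
noncomputable def tau (Wc : Set W) (c s₂ : ℝ) (st : ℝ × ℝ → X) (ψ : W × ℝ → X) (p : ℝ × ℝ) : X :=
  if p.2 ≤ 1 then ψ (wx Wc s₂ st ψ p.1, s₂ / 4 * (1 + p.2)) else gg Wc s₂ ψ (st (p.1, yy c p.2))

theorem tau_low {x y : ℝ} (hy : y ≤ 1) :
    tau Wc c s₂ st ψ (x, y) = ψ (wx Wc s₂ st ψ x, s₂ / 4 * (1 + y)) := if_pos hy

theorem tau_high (h : Dat E Wc c s₂ st ψ) {x y : ℝ} (hx : x ∈ Icc (0 : ℝ) 1) (hy : 1 ≤ y) :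
    tau Wc c s₂ st ψ (x, y) = gg Wc s₂ ψ (st (x, yy c y)) := by
  have hs := h.spos
  rcases hy.lt_or_eq with h1 | h1
  · exact if_neg (not_le.mpr h1)
  · have hw := wx_spec h hx
    rw [← h1, tau_low le_rfl, yy_low (by norm_num : (1 : ℝ) ≤ 2), sub_self, ← hw.2,
      gg_psi h hw.1 ⟨le_rfl, hs.le⟩]
    congr 2
    ring

theorem tau_cont (h : Dat E Wc c s₂ st ψ) : ContinuousOn (tau Wc c s₂ st ψ) (Icc 0 1 ×ˢ Icc 0 3) := by
  have hs := h.spos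
  have hc := h.cpos
  have h1 : ContinuousOn (tau Wc c s₂ st ψ) (Icc 0 1 ×ˢ Icc 0 1) := by
    have h2 : ContinuousOn (fun p : ℝ × ℝ => ψ (wx Wc s₂ st ψ p.1, s₂ / 4 * (1 + p.2))) (Icc 0 1 ×ˢ Icc 0 1) := by
      apply h.psc.comp (f := fun p : ℝ × ℝ => (wx Wc s₂ st ψ p.1, s₂ / 4 * (1 + p.2)))
      · apply ContinuousOn.prodMk
        · exact (wx_cont h).comp continuousOn_fst fun p hp => hp.1
        · fun_prop
      · intro p hp
        refine ⟨(wx_spec h hp.1).1, ?_, ?_⟩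
        · simp only
          nlinarith [hp.2.1]
        · simp only
          nlinarith [hp.2.2]
    apply h2.congr
    intro p hp
    exact tau_low hp.2.2
  have h2 : ContinuousOn (tau Wc c s₂ st ψ) (Icc 0 1 ×ˢ Icc 1 3) := by
    have h3 : ContinuousOn (fun p : ℝ × ℝ => gg Wc s₂ ψ (st (p.1, yy c p.2))) (Icc 0 1 ×ˢ Icc 1 3) := by
      apply (gg_cont h).comp (f := fun p : ℝ × ℝ => st (p.1, yy c p.2))
      · apply h.stc.comp (f := fun p : ℝ × ℝ => (p.1, yy c p.2))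
        · exact (continuous_fst.prodMk ((yy_cont c).comp continuous_snd)).continuousOn
        · intro p hp
          exact ⟨hp.1, yy_mem hc hp.2.1 hp.2.2⟩
      · intro p hp
        exact h.stE p.1 hp.1 _ (yy_mem hc hp.2.1 hp.2.2)
    apply h3.congr
    intro p hp
    exact tau_high h hp.1 hp.2.1
  have h3 : (Icc (0 : ℝ) 1 ×ˢ Icc (0 : ℝ) 3) = Icc 0 1 ×ˢ Icc 0 1 ∪ Icc 0 1 ×ˢ Icc 1 3 := by
    rw [← prod_union, Icc_union_Icc_eq_Icc (by norm_num) (by norm_num)]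
  rw [h3]
  exact h1.union_of_isClosed h2 (isClosed_Icc.prod isClosed_Icc) (isClosed_Icc.prod isClosed_Icc)

theorem mem_low (h : Dat E Wc c s₂ st ψ) {x y : ℝ} (hx : x ∈ Icc (0 : ℝ) 1) (hy : 0 ≤ y) (hy1 : y ≤ 1) :
    (wx Wc s₂ st ψ x, s₂ / 4 * (1 + y)) ∈ Wc ×ˢ Icc (0 : ℝ) s₂ := by
  have hs := h.spos
  refine ⟨(wx_spec h hx).1, ?_, ?_⟩ <;> simp only <;> nlinarith

theorem tau_inj (h : Dat E Wc c s₂ st ψ) : InjOn (tau Wc c s₂ st ψ) (Icc 0 1 ×ˢ Icc 0 3) := by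
  have hs := h.spos
  have hc := h.cpos
  have cross : ∀ x ∈ Icc (0 : ℝ) 1, ∀ y, 0 ≤ y → y < 1 → ∀ x' ∈ Icc (0 : ℝ) 1, ∀ y', 1 ≤ y' →
      tau Wc c s₂ st ψ (x, y) ≠ tau Wc c s₂ st ψ (x', y') := by
    intro x hx y hy hy1 x' hx' y' hy' he
    rw [tau_low hy1.le, tau_high h hx' hy'] at he
    apply gg_avoid h (st (x', yy c y'))
    rw [← he]
    refine ⟨(wx Wc s₂ st ψ x, s₂ / 4 * (1 + y)), ⟨(wx_spec h hx).1, ?_, ?_⟩, rfl⟩
    · simp only
      nlinarith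
    · simp only
      nlinarith
  rintro ⟨x, y⟩ hp ⟨x', y'⟩ hp' he
  have hx : x ∈ Icc (0 : ℝ) 1 := hp.1
  have hy : y ∈ Icc (0 : ℝ) 3 := hp.2
  have hx' : x' ∈ Icc (0 : ℝ) 1 := hp'.1
  have hy' : y' ∈ Icc (0 : ℝ) 3 := hp'.2
  rcases lt_or_ge y 1 with h1 | h1
  · rcases lt_or_ge y' 1 with h2 | h2
    · rw [tau_low h1.le, tau_low h2.le] at he
      have h3 := h.psi (mem_low h hx hy.1 h1.le) (mem_low h hx' hy'.1 h2.le) he
      have h4 := (Prod.ext_iff.mp h3).1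
      have h5 := (Prod.ext_iff.mp h3).2
      simp only at h4 h5
      have h6 := wx_inj h hx hx' h4
      have h7 : y = y' := by
        have : s₂ / 4 ≠ 0 := by positivity
        have h8 := mul_left_cancel₀ this h5
        linarith
      rw [h6, h7]
    · exact absurd he (cross x hx y hy.1 h1 x' hx' y' h2)
  · rcases lt_or_ge y' 1 with h2 | h2
    · exact absurd he.symm (cross x' hx' y' hy'.1 h2 x hx y h1)
    · rw [tau_high h hx h1, tau_high h hx' h2] at he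
      have h3 := gg_inj h he
      have h4 := h.sti (x₁ := (x, yy c y)) (x₂ := (x', yy c y')) ⟨hx, yy_mem hc h1 hy.2⟩
        ⟨hx', yy_mem hc h2 hy'.2⟩ h3
      have h5 := (Prod.ext_iff.mp h4).1
      have h6 := (Prod.ext_iff.mp h4).2
      simp only at h5 h6
      rw [h5, (yy_inj hc).injective h6]

/-- normal form of the points of the rectangle -/
theorem tau_form (h : Dat E Wc c s₂ st ψ) {x y : ℝ} (hx : x ∈ Icc (0 : ℝ) 1) (hy : y ∈ Icc (0 : ℝ) 3) :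
    (∃ w ∈ Wc, ∃ s s' y', 0 < s ∧ s ≤ s₂ ∧ s' ∈ Icc 0 s₂ ∧ y' ∈ Ico (0 : ℝ) (1 / 2) ∧
      tau Wc c s₂ st ψ (x, y) = ψ (w, s) ∧ ψ (w, s') = st (x, y') ∧ y ≠ 2) ∨
    (1 ≤ y ∧ tau Wc c s₂ st ψ (x, y) = st (x, yy c y) ∧ st (x, yy c y) ∉ ψ '' (Wc ×ˢ Icc 0 s₂)) := by
  have hs := h.spos
  have hc := h.cpos
  rcases lt_or_ge y 1 with h1 | h1
  · left
    have hw := wx_spec h hx
    refine ⟨wx Wc s₂ st ψ x, hw.1, s₂ / 4 * (1 + y), 0, 0, by nlinarith [hy.1], by nlinarith [hy.1],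
      ⟨le_rfl, hs.le⟩, ⟨le_rfl, by norm_num⟩, tau_low h1.le, hw.2, by intro hh; linarith⟩
  · by_cases hA : st (x, yy c y) ∈ ψ '' (Wc ×ˢ Icc 0 s₂)
    · left
      obtain ⟨p, hp, hpe⟩ := hA
      have h2 : st (x, yy c y) ∈ st '' (Icc 0 1 ×ˢ Ico 0 (1 / 2)) := by
        apply h.sub
        exact ⟨p, hp, hpe⟩
      obtain ⟨q, hq, hqe⟩ := h2
      have h3 := h.sti (x₁ := q) (x₂ := (x, yy c y)) ⟨hq.1, hq.2.1, by linarith [hq.2.2]⟩
        ⟨hx, yy_mem hc h1 hy.2⟩ hqe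
      have h4 : yy c y ∈ Ico (0 : ℝ) (1 / 2) := by
        rw [h3] at hq
        exact hq.2
      refine ⟨p.1, hp.1, s₂ / 2 + p.2 / 2, p.2, yy c y, by linarith [hp.2.1], by linarith [hp.2.2],
        hp.2, h4, ?_, hpe, ?_⟩
      · rw [tau_high h hx h1, ← hpe]
        exact gg_psi h hp.1 hp.2
      · rintro rfl
        rw [yy_low le_rfl] at h4
        have := h4.2
        norm_num at this
    · right
      refine ⟨h1, ?_, hA⟩
      rw [tau_high h hx h1, gg_off hA]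

theorem tau_two (h : Dat E Wc c s₂ st ψ) {x : ℝ} (hx : x ∈ Icc (0 : ℝ) 1) :
    tau Wc c s₂ st ψ (x, 2) = st (x, 1) := by
  rcases tau_form h hx (y := 2) ⟨by norm_num, by norm_num⟩ with ⟨-, -, -, -, -, -, -, -, -, -, -, h2⟩ | ⟨-, h2, -⟩
  · exact absurd rfl h2
  · rw [h2, yy_low le_rfl]
    norm_num

theorem tau_one (h : Dat E Wc c s₂ st ψ) :
    (fun x => tau Wc c s₂ st ψ (x, 1)) '' Icc 0 1 = (fun w => ψ (w, s₂ / 2)) '' Wc := by
  have e : ∀ x, tau Wc c s₂ st ψ (x, 1) = ψ (wx Wc s₂ st ψ x, s₂ / 2) := by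
    intro x
    rw [tau_low le_rfl]
    congr 2
    ring
  ext v
  constructor
  · rintro ⟨x, hx, rfl⟩
    exact ⟨_, (wx_spec h hx).1, (e x).symm⟩
  · rintro ⟨w, hw, rfl⟩
    obtain ⟨x, hx, hxe⟩ := wx_surj h hw
    refine ⟨x, hx, ?_⟩
    show tau Wc c s₂ st ψ (x, 1) = ψ (w, s₂ / 2)
    rw [e x, hxe]

theorem tau_image (h : Dat E Wc c s₂ st ψ) :
    tau Wc c s₂ st ψ '' (Icc 0 1 ×ˢ Ioo 0 3) =
      st '' (Icc 0 1 ×ˢ Ico 0 c) \ ψ '' (Wc ×ˢ Icc 0 (s₂ / 4)) := by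
  have hs := h.spos
  have hc := h.cpos
  have hup : ψ '' (Wc ×ˢ Icc 0 s₂) ⊆ st '' (Icc 0 1 ×ˢ Ico 0 c) := by
    intro v hv
    obtain ⟨q, hq, hqe⟩ := h.sub hv
    exact ⟨q, ⟨hq.1, hq.2.1, by linarith [hq.2.2]⟩, hqe⟩
  ext v
  constructor
  · rintro ⟨⟨x, y⟩, hp, rfl⟩
    have hx : x ∈ Icc (0 : ℝ) 1 := hp.1
    have hy : y ∈ Ioo (0 : ℝ) 3 := hp.2
    rcases lt_or_ge y 1 with h1 | h1
    · rw [tau_low h1.le]
      refine ⟨hup ⟨_, mem_low h hx hy.1.le h1.le, rfl⟩, ?_⟩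
      rintro ⟨q, hq, hqe⟩
      have h2 := h.psi (x₁ := q) ⟨hq.1, hq.2.1, by linarith [hq.2.2]⟩ (mem_low h hx hy.1.le h1.le) hqe
      have h3 := (Prod.ext_iff.mp h2).2
      simp only at h3
      have := hq.2.2
      nlinarith [hy.1]
    · rw [tau_high h hx h1]
      refine ⟨?_, ?_⟩
      · by_cases hA : st (x, yy c y) ∈ ψ '' (Wc ×ˢ Icc 0 s₂)
        · exact hup (gg_mem h _ hA)
        · rw [gg_off hA]
          exact ⟨_, ⟨hx, yy_mem' hc h1 hy.2⟩, rfl⟩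
      · rintro ⟨q, hq, hqe⟩
        apply gg_avoid h (st (x, yy c y))
        rw [← hqe]
        exact ⟨q, ⟨hq.1, hq.2.1, by linarith [hq.2.2]⟩, rfl⟩
  · rintro ⟨hv, hv'⟩
    by_cases hA : v ∈ ψ '' (Wc ×ˢ Ico 0 (s₂ / 2))
    · obtain ⟨p, hp, rfl⟩ := hA
      have h1 : s₂ / 4 < p.2 := by
        by_contra hcc
        exact hv' ⟨p, ⟨hp.1, hp.2.1, le_of_not_gt hcc⟩, rfl⟩
      obtain ⟨x, hx, hxe⟩ := wx_surj h hp.1
      have h2 : 4 / s₂ * p.2 - 1 < 1 := by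
        have : 4 / s₂ * p.2 < 4 / s₂ * (s₂ / 2) := by
          apply mul_lt_mul_of_pos_left hp.2.2
          positivity
        have h3 : 4 / s₂ * (s₂ / 2) = 2 := by field_simp; norm_num
        linarith
      have h2' : 0 < 4 / s₂ * p.2 - 1 := by
        have : 4 / s₂ * (s₂ / 4) < 4 / s₂ * p.2 := by
          apply mul_lt_mul_of_pos_left h1
          positivity
        have h3 : 4 / s₂ * (s₂ / 4) = 1 := by field_simp
        linarith
      refine ⟨(x, 4 / s₂ * p.2 - 1), ⟨hx, h2', by linarith⟩, ?_⟩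
      rw [tau_low h2.le, hxe]
      congr 1
      apply Prod.ext
      · rfl
      · simp only
        field_simp
        ring
    · obtain ⟨v', hv'', he⟩ := gg_surj h hA hv
      obtain ⟨⟨x, z⟩, hz, rfl⟩ := hv''
      obtain ⟨y, hy1, hy3, hye⟩ := yy_surj hc hz.2.1 hz.2.2
      refine ⟨(x, y), ⟨hz.1, by linarith, hy3⟩, ?_⟩
      rw [tau_high h hz.1 hy1, hye]
      exact he

end

end Pool.Agent.LIX.S.SQx

namespace Pool.Agent.LIX.S

open Set Metric Complex SQx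

theorem SQx.smc_compact : IsCompact Smc := by
  have hcl : IsClosed Smc := by
    have h1 : IsClosed {w : ℂ | ‖w‖ ≤ 1} := isClosed_le continuous_norm continuous_const
    have h2 : IsClosed {w : ℂ | 0 ≤ w.im} := isClosed_le continuous_const Complex.continuous_im
    have h3 : IsClosed {w : ℂ | ‖w‖ = 1} := isClosed_eq continuous_norm continuous_const
    have : Smc = ({w : ℂ | ‖w‖ ≤ 1} ∩ {w : ℂ | 0 ≤ w.im}) ∩ {w : ℂ | ‖w‖ = 1} := rfl
    rw [this]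
    exact (h1.inter h2).inter h3
  exact (isCompact_closedBall (0 : ℂ) 1).of_isClosed_subset hcl fun w hw => by
    rw [mem_closedBall_zero_iff]
    exact hw.2.le

/-- Module SQ. -/
theorem t_SQ : M_SQ := by
  intro hO hN hD hS ψ hψc hψi hψm hψ0 σ hσ ε hε
  obtain ⟨stc, sti, stm, st0, st1, sto⟩ := hS σ
  obtain ⟨dlc, -, -, hHc, -, hchc, -⟩ := hD true 1
  have hHem : ∀ v ∈ Hem true, v ∈ {v : ℂ × ℝ | 0 ≤ sg true * v.1.im} := fun v hv => hv.2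
  have dlc' : ContinuousOn (fun v => sg σ * dl true 1 v) (Hem true) :=
    continuousOn_const.mul (dlc.mono hHem)
  set E : Set (ℂ × ℝ) := {v | v ∈ Hem true ∧ 0 ≤ sg σ * dl true 1 v} with hE
  have Ecl : IsClosed E := by
    obtain ⟨u, hu, hue⟩ := (continuousOn_iff_isClosed.mp dlc') (Ici 0) isClosed_Ici
    have : E = u ∩ Hem true := by
      rw [← hue]
      ext v
      exact ⟨fun h => ⟨h.2, h.1⟩, fun h => ⟨h.2, h.1⟩⟩
    rw [this]
    exact hu.inter hHc.isClosed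
  -- points of the strip with `s ≥ 0` are in `E`
  have hdl0 : ∀ w ∈ Smc, dl true 1 (ψ (w, 0)) = 0 := by
    intro w hw
    have : ψ (w, 0) ∈ ch true 1 := by rw [← hψ0]; exact ⟨w, hw, rfl⟩
    exact this.2
  have hsE : ∀ w ∈ Smc, ∀ s ∈ Icc (0 : ℝ) 1, ψ (w, s) ∈ E := by
    intro w hw s hs
    refine ⟨(hψm w hw s ⟨by linarith [hs.1], hs.2⟩).1, ?_⟩
    rcases hs.1.lt_or_eq with h1 | h1
    · exact (hσ w hw s ⟨h1, hs.2⟩).1.le
    · rw [← h1, hdl0 w hw, mul_zero]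
  -- choice of `s₂`
  obtain ⟨Oh, hOh, hOhe⟩ := sto (1 / 2) (by norm_num) (by norm_num)
  have hψc01 : ContinuousOn ψ (Smc ×ˢ Icc 0 1) := hψc.mono (prod_mono_right (Icc_subset_Icc (by norm_num) le_rfl))
  obtain ⟨s₂, hs0, hs1, hsε, hsub⟩ : ∃ s₂ : ℝ, 0 < s₂ ∧ s₂ ≤ 1 ∧ s₂ < ε ∧
      ψ '' (Smc ×ˢ Icc 0 s₂) ⊆ st σ '' (Icc 0 1 ×ˢ Ico 0 (1 / 2)) := by
    have hK : IsCompact ((Smc ×ˢ Icc (0 : ℝ) 1) ∩ {p | ψ p ∉ Oh}) := by
      obtain ⟨u, hu, hue⟩ := (continuousOn_iff_isClosed.mp hψc01) Ohᶜ hOh.isClosed_compl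
      have : (Smc ×ˢ Icc (0 : ℝ) 1) ∩ {p | ψ p ∉ Oh} = (Smc ×ˢ Icc (0 : ℝ) 1) ∩ u := by
        rw [inter_comm, inter_comm _ u]
        exact hue
      rw [this]
      exact (SQx.smc_compact.prod isCompact_Icc).inter_right hu
    have key : ∀ w ∈ Smc, ∀ s ∈ Icc (0 : ℝ) 1, ψ (w, s) ∈ Oh →
        ψ (w, s) ∈ st σ '' (Icc 0 1 ×ˢ Ico 0 (1 / 2)) := by
      intro w hw s hs h
      rw [hOhe]
      exact ⟨hsE w hw s hs, h⟩
    rcases ((Smc ×ˢ Icc (0 : ℝ) 1) ∩ {p | ψ p ∉ Oh}).eq_empty_or_nonempty with he | hne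
    · refine ⟨min 1 (ε / 2), by positivity, min_le_left _ _, by
        have := min_le_right (1 : ℝ) (ε / 2); linarith, ?_⟩
      rintro v ⟨⟨w, s⟩, hp, rfl⟩
      have hs : s ∈ Icc (0 : ℝ) 1 := ⟨hp.2.1, hp.2.2.trans (min_le_left _ _)⟩
      apply key w hp.1 s hs
      by_contra hc
      have : (w, s) ∈ (Smc ×ˢ Icc (0 : ℝ) 1) ∩ {p | ψ p ∉ Oh} := ⟨⟨hp.1, hs⟩, hc⟩
      rw [he] at this
      exact this
    · obtain ⟨p₀, hp₀, hmin⟩ := hK.exists_isMinOn hne continuous_snd.continuousOn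
      have hpos : 0 < p₀.2 := by
        rcases hp₀.1.2.1.lt_or_eq with h | h
        · exact h
        · exfalso
          apply hp₀.2
          have h2 : ψ p₀ = ψ (p₀.1, 0) := by
            congr 1
            exact Prod.ext rfl h.symm
          have h3 : ψ (p₀.1, 0) ∈ (fun x => st σ (x, 0)) '' Icc 0 1 := by
            rw [st0, ← hψ0]
            exact ⟨p₀.1, hp₀.1.1, rfl⟩
          obtain ⟨x, hx, hxe⟩ := h3
          have h4 : st σ (x, 0) ∈ st σ '' (Icc 0 1 ×ˢ Ico 0 (1 / 2)) := ⟨(x, 0), ⟨hx, le_rfl, by norm_num⟩, rfl⟩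
          rw [hOhe] at h4
          have hxe' : st σ (x, 0) = ψ (p₀.1, 0) := hxe
          show ψ p₀ ∈ Oh
          rw [h2, ← hxe']
          exact h4.2
      refine ⟨min (min 1 (ε / 2)) (p₀.2 / 2), by positivity, (min_le_left _ _).trans (min_le_left _ _), by
        have h1 := min_le_left (min (1 : ℝ) (ε / 2)) (p₀.2 / 2)
        have h2 := min_le_right (1 : ℝ) (ε / 2)
        linarith, ?_⟩
      rintro v ⟨⟨w, s⟩, hp, rfl⟩
      have hs' : s ≤ p₀.2 / 2 := hp.2.2.trans (min_le_right _ _)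
      have hs : s ∈ Icc (0 : ℝ) 1 := ⟨hp.2.1, hp.2.2.trans ((min_le_left _ _).trans (min_le_left _ _))⟩
      apply key w hp.1 s hs
      by_contra hc
      have h1 : (w, s) ∈ (Smc ×ˢ Icc (0 : ℝ) 1) ∩ {p | ψ p ∉ Oh} := ⟨⟨hp.1, hs⟩, hc⟩
      have h2 : p₀.2 ≤ s := hmin h1
      linarith
  -- the data
  obtain ⟨O', hO', hO'e⟩ := hO ψ hψc hψi hψm s₂ hs0 hs1
  have hdat : Dat E Smc (1 + 1 / 400) s₂ (st σ) ψ := {
    Ecl := Ecl
    Wcp := SQx.smc_compact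
    cpos := by norm_num
    spos := hs0
    stc := stc
    sti := sti
    stE := fun x hx y hy => ⟨(stm x hx y hy).1, (stm x hx y hy).2.2.1⟩
    psc := hψc.mono (prod_mono_right (Icc_subset_Icc (by norm_num) hs1))
    psi := hψi.mono (prod_mono_right (Icc_subset_Icc (by norm_num) hs1))
    sub := hsub
    opn := by
      refine ⟨O', hO', ?_⟩
      ext v
      constructor
      · rintro ⟨⟨w, s⟩, hp, rfl⟩
        have hp1 : w ∈ Smc := hp.1
        have hp2 : s ∈ Ico (0 : ℝ) s₂ := hp.2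
        have h1 : ψ (w, s) ∈ Hem true ∩ O' := by
          rw [← hO'e]
          exact ⟨(w, s), ⟨hp1, by constructor <;> linarith [hp2.1, hp2.2]⟩, rfl⟩
        exact ⟨hsE w hp1 s ⟨hp2.1, by linarith [hp2.2]⟩, h1.2⟩
      · rintro ⟨hvE, hvO⟩
        have h1 : v ∈ ψ '' (Smc ×ˢ Ioo (-s₂) s₂) := by
          rw [hO'e]
          exact ⟨hvE.1, hvO⟩
        obtain ⟨⟨w, s⟩, hp, rfl⟩ := h1
        have hp1 : w ∈ Smc := hp.1
        have hp2 : s ∈ Ioo (-s₂) s₂ := hp.2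
        refine ⟨(w, s), ⟨hp1, ?_, hp2.2⟩, rfl⟩
        show (0 : ℝ) ≤ s
        by_contra hc
        push Not at hc
        have h2 := (hσ w hp1 (-s) ⟨by linarith, by linarith [hp2.1]⟩).2
        rw [neg_neg] at h2
        exact absurd hvE.2 (not_le.mpr h2)
    bot := by rw [st0, hψ0] }
  -- auxiliary: points `ψ (w, s)` with `0 < s ≤ s₂` are not in the skeleton
  have hskl : ∀ w ∈ Smc, ∀ s, 0 < s → s ≤ s₂ → ψ (w, s) ∉ Skl := by
    intro w hw s h0 h1 hsk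
    obtain ⟨⟨x, y⟩, hq, hqe⟩ := hsub ⟨(w, s), ⟨hw, h0.le, h1⟩, rfl⟩
    have hx : x ∈ Icc (0 : ℝ) 1 := hq.1
    have hy : y ∈ Ico (0 : ℝ) (1 / 2) := hq.2
    have hs := stm x hx y ⟨hy.1, by linarith [hy.2]⟩
    rw [← hqe] at hsk
    rcases hs.2.2.2.2.mp hsk with h2 | h2
    · have h3 := hs.2.2.2.1.mpr h2
      rw [hqe] at h3
      have h4 := (hσ w hw s ⟨h0, h1.trans hs1⟩).1
      rw [h3, mul_zero] at h4
      exact lt_irrefl _ h4
    · have := hy.2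
      linarith
  have ht := tau_cont hdat
  refine ⟨s₂ / 2, tau Smc (1 + 1 / 400) s₂ (st σ) ψ, by positivity, by linarith, by linarith, ht,
    tau_inj hdat, ?_, tau_one hdat, ?_, ?_⟩
  · intro x hx y hy
    rcases tau_form hdat hx hy with ⟨w, hw, s, s', y', h0, h1, h2, h3, h4, h5, h6⟩ | ⟨h1, h2, h3⟩
    · have hm := hψm w hw s ⟨by linarith, by linarith⟩
      have hm' := hψm w hw s' ⟨by linarith [h2.1], by linarith [h2.2]⟩
      have hst := stm x hx y' ⟨h3.1, by linarith [h3.2]⟩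
      rw [h4]
      refine ⟨hm.1, ?_, ?_⟩
      · rw [hm.2, ← hm'.2, h5]
        exact hst.2.1
      · exact ⟨fun hh => absurd hh (hskl w hw s h0 h1), fun hh => absurd hh h6⟩
    · have hyy := yy_mem (c := 1 + 1 / 400) (by norm_num) h1 hy.2
      have hst := stm x hx _ hyy
      rw [h2]
      refine ⟨hst.1, hst.2.1, ?_⟩
      rw [hst.2.2.2.2]
      constructor
      · rintro (h4 | h4)
        · exfalso
          apply h3
          rw [h4]
          have hw := wx_spec hdat hx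
          rw [← hw.2]
          exact ⟨(wx Smc s₂ (st σ) ψ x, 0), ⟨hw.1, le_rfl, hs0.le⟩, rfl⟩
        · have h5 : yy (1 + 1 / 400) 2 = 1 := by rw [yy_low le_rfl]; norm_num
          exact (yy_inj (c := 1 + 1 / 400) (by norm_num)).injective (h4.trans h5.symm)
      · rintro rfl
        right
        rw [yy_low le_rfl]
        norm_num
  · rw [← st1]
    apply image_congr
    intro x hx
    exact tau_two hdat hx
  · obtain ⟨O1, hO1, hO1e⟩ := sto (1 + 1 / 400) (by norm_num) le_rfl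
    have hC : IsClosed (ψ '' (Smc ×ˢ Icc 0 (s₂ / 4))) := by
      apply IsCompact.isClosed
      apply (SQx.smc_compact.prod isCompact_Icc).image_of_continuousOn
      exact hψc.mono (prod_mono_right (Icc_subset_Icc (by norm_num) (by linarith)))
    obtain ⟨O2, hO2, hO2e⟩ := (_root_.continuousOn_iff'.mp dlc') (Ioi 0) isOpen_Ioi
    refine ⟨O1 ∩ O2 ∩ (ψ '' (Smc ×ˢ Icc 0 (s₂ / 4)))ᶜ, (hO1.inter hO2).inter hC.isOpen_compl, ?_⟩
    rw [tau_image hdat, hO1e]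
    ext v
    constructor
    · rintro ⟨⟨h1, h2⟩, h3⟩
      refine ⟨h1.1, ⟨h2, ?_⟩, h3⟩
      have h4 : v ∈ (fun v => sg σ * dl true 1 v) ⁻¹' Ioi 0 ∩ Hem true := by
        refine ⟨?_, h1.1⟩
        show 0 < sg σ * dl true 1 v
        rcases h1.2.lt_or_eq with h5 | h5
        · exact h5
        · exfalso
          apply h3
          have h6 : dl true 1 v = 0 := by
            rcases mul_eq_zero.mp h5.symm with h7 | h7
            · exfalso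
              revert h7
              cases σ <;> simp [sg]
            · exact h7
          have h7 : v ∈ ch true 1 := ⟨h1.1, h6⟩
          rw [← hψ0] at h7
          obtain ⟨w, hw, rfl⟩ := h7
          exact ⟨(w, 0), ⟨hw, le_rfl, by positivity⟩, rfl⟩
      rw [hO2e] at h4
      exact h4.1
    · rintro ⟨h1, ⟨h2, h3⟩, h4⟩
      have h5 : v ∈ (fun v => sg σ * dl true 1 v) ⁻¹' Ioi 0 ∩ Hem true := by
        rw [hO2e]
        exact ⟨h3, h1⟩
      exact ⟨⟨⟨h1, le_of_lt h5.1⟩, h2⟩, h4⟩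

end Pool.Agent.LIX.S
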