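import Pool.Agent.LIX.StmtsS

/-!
# LIX, block S, module STD: the standard strip
-/

set_option autoImplicit false

namespace Pool.Agent.LIX.S.STDx

open Set Metric Complex

/-- the point with longitude `x` and slope `m` on the side `y ≥ 0` -/
noncomputable def pt (x m : ℝ) : ℂ × ℝ := nml (exp ((Real.pi * x : ℝ) * I), m)

theorem ne0 (x m : ℝ) : ((exp ((Real.pi * x : ℝ) * I), m) : ℂ × ℝ) ≠ 0 := by
  intro h
  exact Complex.exp_ne_zero _ (congrArg Prod.fst h)

theorem nrm_pos (hN : S_NML) (x m : ℝ) : 0 < nrm (exp ((Real.pi * x : ℝ) * I), m) :=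
  (hN.2.1 _ (ne0 x m)).1

theorem pt_norm (hN : S_NML) (x m : ℝ) : ‖(pt x m).1‖ = (nrm (exp ((Real.pi * x : ℝ) * I), m))⁻¹ := by
  have h0 := nrm_pos hN x m
  unfold pt nml
  simp only
  rw [norm_div, Complex.norm_exp_ofReal_mul_I, Complex.norm_real, Real.norm_of_nonneg h0.le, one_div]

theorem pt_pos (hN : S_NML) (x m : ℝ) : 0 < ‖(pt x m).1‖ := by
  rw [pt_norm hN]
  exact inv_pos.mpr (nrm_pos hN x m)

theorem pt_snd (hN : S_NML) (x m : ℝ) : (pt x m).2 = ‖(pt x m).1‖ * m := by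
  rw [pt_norm hN]
  unfold pt nml
  simp only
  rw [div_eq_inv_mul]

theorem pt_fst (hN : S_NML) (x m : ℝ) :
    (pt x m).1 = (‖(pt x m).1‖ : ℂ) * exp ((Real.pi * x : ℝ) * I) := by
  rw [pt_norm hN]
  unfold pt nml
  simp only
  rw [div_eq_inv_mul, Complex.ofReal_inv]

theorem pt_im (hN : S_NML) (x m : ℝ) : (pt x m).1.im = ‖(pt x m).1‖ * Real.sin (Real.pi * x) := by
  have h := congrArg Complex.im (pt_fst hN x m)
  rw [h, Complex.im_ofReal_mul]
  congr 1
  exact Complex.exp_ofReal_mul_I_im _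

theorem pt_lon (hN : S_NML) {x : ℝ} (hx : x ∈ Icc (0 : ℝ) 1) (m : ℝ) : lon true (pt x m) = x := by
  have hp := Real.pi_pos
  have h0 := pt_pos hN x m
  unfold lon
  have h1 : ((sg true : ℝ) : ℂ) * (pt x m).1 =
      (‖(pt x m).1‖ : ℂ) * (Complex.cos ((Real.pi * x : ℝ) : ℂ) + Complex.sin ((Real.pi * x : ℝ) : ℂ) * I) := by
    rw [← Complex.exp_mul_I, ← pt_fst hN x m]
    simp [sg]
  rw [h1, Complex.arg_mul_cos_add_sin_mul_I h0]
  · field_simp
  · constructor <;> nlinarith [hx.1, hx.2]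

theorem pt_mem (hN : S_NML) {x : ℝ} (hx : x ∈ Icc (0 : ℝ) 1) (m : ℝ) : pt x m ∈ Hem true := by
  have hp := Real.pi_pos
  refine ⟨(hN.2.1 _ (ne0 x m)).2, ?_⟩
  rw [pt_im hN]
  have h1 : 0 ≤ Real.sin (Real.pi * x) :=
    Real.sin_nonneg_of_nonneg_of_le_pi (by nlinarith [hx.1]) (by nlinarith [hx.2])
  have h2 : sg true = 1 := rfl
  rw [h2, one_mul]
  positivity

theorem pt_im0 (hN : S_NML) {x : ℝ} (hx : x ∈ Icc (0 : ℝ) 1) (m : ℝ) :
    (pt x m).1.im = 0 ↔ x = 0 ∨ x = 1 := by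
  have hp := Real.pi_pos
  rw [pt_im hN, mul_eq_zero, or_iff_right (pt_pos hN x m).ne']
  constructor
  · intro h
    by_contra hc
    push Not at hc
    have h1 : 0 < x := lt_of_le_of_ne hx.1 (Ne.symm hc.1)
    have h2 : x < 1 := lt_of_le_of_ne hx.2 hc.2
    exact (Real.sin_pos_of_pos_of_lt_pi (by positivity) (by nlinarith)).ne' h
  · rintro (rfl | rfl) <;> simp

theorem pt_dl (hN : S_NML) {x : ℝ} (hx : x ∈ Icc (0 : ℝ) 1) (m : ℝ) (j : Fin 3) :
    dl true j (pt x m) = ‖(pt x m).1‖ * (m - Mf (hj j x)) := by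
  unfold dl
  rw [pt_lon hN hx, pt_snd hN]
  ring

theorem pt_eq (hN : S_NML) (hL : S_LON) {v : ℂ × ℝ} (hv : v ∈ Hem true) (h0 : v.1 ≠ 0) :
    v = pt (lon true v) (v.2 / ‖v.1‖) := by
  have h1 := ((hL true).2 v h0 hv.2).2.1
  have h2 : 0 < ‖v.1‖ := norm_pos_iff.mpr h0
  have h3 : v.1 = (‖v.1‖ : ℂ) * exp ((Real.pi * lon true v : ℝ) * I) := by
    have h4 : ((sg true : ℝ) : ℂ) = 1 := by simp [sg]
    rw [h4, one_mul] at h1
    exact h1
  have h5 := hN.2.2.2.1 (exp ((Real.pi * lon true v : ℝ) * I), v.2 / ‖v.1‖) ‖v.1‖ h2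
  have h6 : ((‖v.1‖ : ℂ) * exp ((Real.pi * lon true v : ℝ) * I), ‖v.1‖ * (v.2 / ‖v.1‖)) = v := by
    apply Prod.ext
    · exact h3.symm
    · simp only
      field_simp
  rw [h6, (hN.2.2.1 v hv.1).1] at h5
  exact h5

theorem hj_mem (j : Fin 3) {f : ℝ} (hf : f ∈ Icc (0 : ℝ) 1) : hj j f ∈ Icc (0 : ℝ) 12 := by
  obtain ⟨h0, h1⟩ := hf
  fin_cases j <;> (unfold hj; simp; constructor <;> linarith)

theorem Mf_mem (hM : S_MF) (j : Fin 3) {f : ℝ} (hf : f ∈ Icc (0 : ℝ) 1) :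
    -2 ≤ Mf (hj j f) ∧ Mf (hj j f) ≤ 2 := by
  obtain ⟨-, h1, h2, -, -, -, -, -, h3, -⟩ := hM
  have h := hj_mem j hf
  have a := h1.monotone h.1
  have b := h1.monotone h.2
  rw [h2] at a
  rw [h3] at b
  exact ⟨a, b⟩

/-- the gap between the two chords -/
theorem gap (hM : S_MF) (σ : Bool) {x : ℝ} (hx : x ∈ Icc (0 : ℝ) 1) :
    1 / 10 ≤ sg σ * (Mf (hj (jn σ) x) - Mf (hj 1 x)) := by
  obtain ⟨-, h1, -, -, -, -, -, -, -, h3⟩ := hM
  cases σ with
  | true =>
    have e1 : hj 1 x = 3 + 6 * x := rfl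
    have e2 : hj (jn true) x = 6 + 4 * x := rfl
    have e3 := h1.monotone (show hj 1 x + 1 ≤ hj (jn true) x by rw [e1, e2]; linarith [hx.2])
    have e4 := h3 (hj 1 x)
    have e5 : sg true = 1 := rfl
    rw [e5]
    linarith
  | false =>
    have e1 : hj 1 x = 3 + 6 * x := rfl
    have e2 : hj (jn false) x = 2 + 4 * x := rfl
    have e3 := h1.monotone (show hj (jn false) x + 1 ≤ hj 1 x by rw [e1, e2]; linarith [hx.1])
    have e4 := h3 (hj (jn false) x)
    have e5 : sg false = -1 := rfl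
    rw [e5]
    linarith

theorem sg_sq (σ : Bool) : sg σ * sg σ = 1 := by
  cases σ <;> simp [sg]

theorem gap_ne (hM : S_MF) (σ : Bool) {x : ℝ} (hx : x ∈ Icc (0 : ℝ) 1) :
    Mf (hj (jn σ) x) - Mf (hj 1 x) ≠ 0 := by
  intro h
  have := gap hM σ hx
  rw [h, mul_zero] at this
  linarith

/-- the slope in the strip -/
noncomputable def sl (σ : Bool) (x y : ℝ) : ℝ := (1 - y) * Mf (hj 1 x) + y * Mf (hj (jn σ) x)

theorem st_eq (σ : Bool) (x y : ℝ) : st σ (x, y) = pt x (sl σ x y) := rfl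

theorem sl_sub (σ : Bool) (x y : ℝ) : sl σ x y - Mf (hj 1 x) = y * (Mf (hj (jn σ) x) - Mf (hj 1 x)) := by
  unfold sl
  ring

theorem sl_sub' (σ : Bool) (x y : ℝ) :
    sl σ x y - Mf (hj (jn σ) x) = (y - 1) * (Mf (hj (jn σ) x) - Mf (hj 1 x)) := by
  unfold sl
  ring

theorem hj_cont (j : Fin 3) : Continuous (hj j) := by
  fin_cases j <;> (unfold hj; simp; fun_prop)

theorem st_cont (hM : S_MF) (hN : S_NML) (σ : Bool) : Continuous (st σ) := by
  have h1 : Continuous fun x : ℝ × ℝ => ((exp ((Real.pi * x.1 : ℝ) * I),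
      (1 - x.2) * Mf (hj 1 x.1) + x.2 * Mf (hj (jn σ) x.1)) : ℂ × ℝ) := by
    have h2 : Continuous fun x : ℝ × ℝ => Mf (hj 1 x.1) := hM.1.comp ((hj_cont 1).comp continuous_fst)
    have h3 : Continuous fun x : ℝ × ℝ => Mf (hj (jn σ) x.1) :=
      hM.1.comp ((hj_cont (jn σ)).comp continuous_fst)
    fun_prop
  have h4 := hN.1.comp_continuous h1 (fun x => ne0 x.1 _)
  exact h4

/-- the height coordinate -/
noncomputable def Yc (σ : Bool) (v : ℂ × ℝ) : ℝ :=
  (v.2 / ‖v.1‖ - Mf (hj 1 (lon true v))) / (Mf (hj (jn σ) (lon true v)) - Mf (hj 1 (lon true v)))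

theorem st_Yc (hM : S_MF) (hN : S_NML) (hL : S_LON) (σ : Bool) {v : ℂ × ℝ} (hv : v ∈ Hem true) (h0 : v.1 ≠ 0) :
    st σ (lon true v, Yc σ v) = v := by
  have hx := ((hL true).2 v h0 hv.2).1
  have hg := gap_ne hM σ hx
  rw [st_eq]
  have h1 : sl σ (lon true v) (Yc σ v) = v.2 / ‖v.1‖ := by
    have h2 := sl_sub σ (lon true v) (Yc σ v)
    unfold Yc at h2 ⊢
    rw [div_mul_cancel₀ _ hg] at h2
    linarith
  rw [h1]
  exact (pt_eq hN hL hv h0).symm

theorem Yc_dl (hM : S_MF) (hL : S_LON) (σ : Bool) {v : ℂ × ℝ} (hv : v ∈ Hem true) (h0 : v.1 ≠ 0) :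
    sg σ * dl true 1 v = ‖v.1‖ * (Yc σ v * (sg σ * (Mf (hj (jn σ) (lon true v)) - Mf (hj 1 (lon true v))))) := by
  have hx := ((hL true).2 v h0 hv.2).1
  have hg := gap_ne hM σ hx
  have h2 : ‖v.1‖ ≠ 0 := norm_ne_zero_iff.mpr h0
  have h3 : Yc σ v * (Mf (hj (jn σ) (lon true v)) - Mf (hj 1 (lon true v))) =
      v.2 / ‖v.1‖ - Mf (hj 1 (lon true v)) := by
    unfold Yc
    rw [div_mul_cancel₀ _ hg]
  have h4 : ‖v.1‖ * (v.2 / ‖v.1‖) = v.2 := by field_simp
  have h5 : dl true 1 v = v.2 - ‖v.1‖ * Mf (hj 1 (lon true v)) := rfl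
  have h6 : Yc σ v * (sg σ * (Mf (hj (jn σ) (lon true v)) - Mf (hj 1 (lon true v)))) =
      sg σ * (Yc σ v * (Mf (hj (jn σ) (lon true v)) - Mf (hj 1 (lon true v)))) := by ring
  rw [h6, h3, h5]
  calc sg σ * (v.2 - ‖v.1‖ * Mf (hj 1 (lon true v)))
      = sg σ * (‖v.1‖ * (v.2 / ‖v.1‖) - ‖v.1‖ * Mf (hj 1 (lon true v))) := by rw [h4]
    _ = _ := by ring

end Pool.Agent.LIX.S.STDx

namespace Pool.Agent.LIX.S

open Set Metric Complex STDx

/-- Module STD: the standard strip. -/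
theorem t_STD : M_STD := by
  intro hM hN hL hD hC hK hB σ
  have hinj : InjOn (st σ) (Icc 0 1 ×ˢ Icc 0 (1 + 1 / 400)) := by
    rintro ⟨x, y⟩ hp ⟨x', y'⟩ hp' he
    have hx : x ∈ Icc (0 : ℝ) 1 := hp.1
    have hx' : x' ∈ Icc (0 : ℝ) 1 := hp'.1
    rw [st_eq, st_eq] at he
    have h1 : x = x' := by
      have := congrArg (lon true) he
      rwa [pt_lon hN hx, pt_lon hN hx'] at this
    subst h1
    have h2 : sl σ x y = sl σ x y' := by
      have e1 := pt_snd hN x (sl σ x y)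
      have e2 := pt_snd hN x (sl σ x y')
      rw [he, e2] at e1
      exact (mul_left_cancel₀ (pt_pos hN x _).ne' e1).symm
    have h3 : (y - y') * (Mf (hj (jn σ) x) - Mf (hj 1 x)) = 0 := by
      unfold sl at h2
      linear_combination h2
    rcases mul_eq_zero.mp h3 with h4 | h4
    · rw [sub_eq_zero.mp h4]
    · exact absurd h4 (gap_ne hM σ hx)
  have hst : ∀ x ∈ Icc (0 : ℝ) 1, ∀ y ∈ Icc (0 : ℝ) (1 + 1 / 400), st σ (x, y) ∈ Hem true ∧
      ((st σ (x, y)).1.im = 0 ↔ x = 0 ∨ x = 1) ∧ 0 ≤ sg σ * dl true 1 (st σ (x, y)) ∧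
      (dl true 1 (st σ (x, y)) = 0 ↔ y = 0) ∧ (st σ (x, y) ∈ Skl ↔ y = 0 ∨ y = 1) := by
    intro x hx y hy
    have hg := gap hM σ hx
    have hg0 := gap_ne hM σ hx
    have hp := pt_pos hN x (sl σ x y)
    have hd1 : dl true 1 (pt x (sl σ x y)) =
        ‖(pt x (sl σ x y)).1‖ * (y * (Mf (hj (jn σ) x) - Mf (hj 1 x))) := by
      rw [pt_dl hN hx, sl_sub]
    have hdj : dl true (jn σ) (pt x (sl σ x y)) =
        ‖(pt x (sl σ x y)).1‖ * ((y - 1) * (Mf (hj (jn σ) x) - Mf (hj 1 x))) := by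
      rw [pt_dl hN hx, sl_sub']
    rw [st_eq]
    refine ⟨pt_mem hN hx _, pt_im0 hN hx _, ?_, ?_, ?_⟩
    · rw [hd1]
      have : sg σ * (‖(pt x (sl σ x y)).1‖ * (y * (Mf (hj (jn σ) x) - Mf (hj 1 x)))) =
          ‖(pt x (sl σ x y)).1‖ * (y * (sg σ * (Mf (hj (jn σ) x) - Mf (hj 1 x)))) := by ring
      rw [this]
      exact mul_nonneg hp.le (mul_nonneg hy.1 (by linarith))
    · rw [hd1, mul_eq_zero, or_iff_right hp.ne', mul_eq_zero, or_iff_left hg0]
    · constructor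
      · intro hsk
        by_contra hc
        push Not at hc
        have hy0 : 0 < y := lt_of_le_of_ne hy.1 (Ne.symm hc.1)
        rcases lt_or_gt_of_ne hc.2 with h1 | h1
        · have hBET := hB true (pt x (sl σ x y)) (pt_mem hN hx _) hsk
          cases σ with
          | true =>
            have hg' : 0 < Mf (hj (jn true) x) - Mf (hj 1 x) := by
              have e5 : sg true = 1 := rfl
              rw [e5] at hg
              linarith
            apply hBET.2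
            constructor
            · rw [hd1]
              positivity
            · have hdj' : dl true 2 (pt x (sl true x y)) =
                  ‖(pt x (sl true x y)).1‖ * ((y - 1) * (Mf (hj (jn true) x) - Mf (hj 1 x))) := hdj
              rw [hdj']
              have : (y - 1) * (Mf (hj (jn true) x) - Mf (hj 1 x)) < 0 :=
                mul_neg_of_neg_of_pos (by linarith) hg'
              exact mul_neg_of_pos_of_neg hp this
          | false =>
            have hg' : Mf (hj (jn false) x) - Mf (hj 1 x) < 0 := by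
              have e5 : sg false = -1 := rfl
              rw [e5] at hg
              linarith
            apply hBET.1
            constructor
            · have hdj' : dl true 0 (pt x (sl false x y)) =
                  ‖(pt x (sl false x y)).1‖ * ((y - 1) * (Mf (hj (jn false) x) - Mf (hj 1 x))) := hdj
              rw [hdj']
              exact mul_pos hp (mul_pos_of_neg_of_neg (by linarith) hg')
            · rw [hd1]
              exact mul_neg_of_pos_of_neg hp (mul_neg_of_pos_of_neg hy0 hg')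
        · have h2 : |dl true (jn σ) (pt x (sl σ x y))| ≤ ‖(pt x (sl σ x y)).1‖ / 100 := by
            rw [hdj, abs_mul, abs_mul, abs_of_pos hp, abs_of_pos (by linarith : 0 < y - 1)]
            have h3 : |Mf (hj (jn σ) x) - Mf (hj 1 x)| ≤ 4 := by
              have a := Mf_mem hM (jn σ) hx
              have b := Mf_mem hM 1 hx
              rw [abs_le]
              constructor <;> linarith [a.1, a.2, b.1, b.2]
            have h4 : (y - 1) * |Mf (hj (jn σ) x) - Mf (hj 1 x)| ≤ 1 / 400 * 4 := by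
              apply mul_le_mul _ h3 (abs_nonneg _) (by norm_num)
              linarith [hy.2]
            nlinarith
          have h3 := hK true (jn σ) _ (pt_mem hN hx _) hsk h2
          rw [hdj, mul_eq_zero, or_iff_right hp.ne', mul_eq_zero, or_iff_left hg0] at h3
          linarith
      · rintro (rfl | rfl)
        · apply hC.2 true 1
          refine ⟨pt_mem hN hx _, ?_⟩
          rw [hd1]
          ring
        · apply hC.2 true (jn σ)
          refine ⟨pt_mem hN hx _, ?_⟩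
          rw [hdj]
          ring
  refine ⟨(st_cont hM hN σ).continuousOn, hinj, hst, ?_, ?_, ?_⟩
  · ext v
    constructor
    · rintro ⟨x, hx, rfl⟩
      have := hst x hx 0 ⟨le_rfl, by norm_num⟩
      exact ⟨this.1, this.2.2.2.1.mpr rfl⟩
    · intro hv
      have h0 : v.1 ≠ 0 := (hD true 1).2.2.2.2.2.2 v hv
      have hx := ((hL true).2 v h0 hv.1.2).1
      refine ⟨lon true v, hx, ?_⟩
      show st σ (lon true v, 0) = v
      have h1 := Yc_dl hM hL σ hv.1 h0
      rw [hv.2, mul_zero] at h1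
      have h2 : Yc σ v = 0 := by
        rcases mul_eq_zero.mp h1.symm with h3 | h3
        · exact absurd h3 (norm_ne_zero_iff.mpr h0)
        · rcases mul_eq_zero.mp h3 with h4 | h4
          · exact h4
          · have := gap hM σ hx
            linarith
      rw [← h2]
      exact st_Yc hM hN hL σ hv.1 h0
  · ext v
    constructor
    · rintro ⟨x, hx, rfl⟩
      refine ⟨(hst x hx 1 ⟨by norm_num, by norm_num⟩).1, ?_⟩
      show dl true (jn σ) (st σ (x, 1)) = 0
      rw [st_eq, pt_dl hN hx, sl_sub']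
      ring
    · intro hv
      have h0 : v.1 ≠ 0 := (hD true (jn σ)).2.2.2.2.2.2 v hv
      have hx := ((hL true).2 v h0 hv.1.2).1
      refine ⟨lon true v, hx, ?_⟩
      show st σ (lon true v, 1) = v
      have h1 : dl true (jn σ) v = v.2 - ‖v.1‖ * Mf (hj (jn σ) (lon true v)) := rfl
      rw [hv.2] at h1
      have hn : ‖v.1‖ ≠ 0 := norm_ne_zero_iff.mpr h0
      have h3 : v.2 / ‖v.1‖ = Mf (hj (jn σ) (lon true v)) := by
        rw [div_eq_iff hn]
        linarith
      have h2 : Yc σ v = 1 := by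
        unfold Yc
        rw [h3, div_self (gap_ne hM σ hx)]
      rw [← h2]
      exact st_Yc hM hN hL σ hv.1 h0
  · intro y₀ hy0 hy1
    have hEsub : {v : ℂ × ℝ | v ∈ Hem true ∧ v.1 ≠ 0} ⊆ {v : ℂ × ℝ | v.1 ≠ 0 ∧ 0 ≤ sg true * v.1.im} :=
      fun v hv => ⟨hv.2, hv.1.2⟩
    have hlc : ContinuousOn (lon true) {v : ℂ × ℝ | v ∈ Hem true ∧ v.1 ≠ 0} := (hL true).1.mono hEsub
    have hYc : ContinuousOn (Yc σ) {v : ℂ × ℝ | v ∈ Hem true ∧ v.1 ≠ 0} := by
      unfold Yc
      have a1 : ContinuousOn (fun v : ℂ × ℝ => Mf (hj 1 (lon true v))) {v : ℂ × ℝ | v ∈ Hem true ∧ v.1 ≠ 0} :=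
        (hM.1.comp (hj_cont 1)).comp_continuousOn hlc
      have a2 : ContinuousOn (fun v : ℂ × ℝ => Mf (hj (jn σ) (lon true v)))
          {v : ℂ × ℝ | v ∈ Hem true ∧ v.1 ≠ 0} :=
        (hM.1.comp (hj_cont (jn σ))).comp_continuousOn hlc
      apply ContinuousOn.div
      · apply ContinuousOn.sub _ a1
        apply ContinuousOn.div continuous_snd.continuousOn continuous_fst.norm.continuousOn
        intro v hv
        exact norm_ne_zero_iff.mpr hv.2
      · exact a2.sub a1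
      · intro v hv
        exact gap_ne hM σ (((hL true).2 v hv.2 hv.1.2).1)
    obtain ⟨O1, hO1, hO1e⟩ := (_root_.continuousOn_iff'.mp hYc) (Iio y₀) isOpen_Iio
    have hO2 : IsOpen {v : ℂ × ℝ | v.1 ≠ 0} := isOpen_ne_fun continuous_fst continuous_const
    refine ⟨O1 ∩ {v : ℂ × ℝ | v.1 ≠ 0}, hO1.inter hO2, ?_⟩
    ext v
    constructor
    · rintro ⟨⟨x, y⟩, hp, rfl⟩
      have hx : x ∈ Icc (0 : ℝ) 1 := hp.1
      have hy : y ∈ Ico (0 : ℝ) y₀ := hp.2
      have hy' : y ∈ Icc (0 : ℝ) (1 + 1 / 400) := ⟨hy.1, by linarith [hy.2]⟩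
      have h1 := hst x hx y hy'
      have h0 : (st σ (x, y)).1 ≠ 0 := by
        rw [st_eq]
        exact norm_ne_zero_iff.mp (pt_pos hN x _).ne'
      have hl : lon true (st σ (x, y)) = x := by rw [st_eq]; exact pt_lon hN hx _
      have hY : Yc σ (st σ (x, y)) = y := by
        have h2 := st_Yc hM hN hL σ h1.1 h0
        unfold Yc
        rw [hl]
        have h3 : (st σ (x, y)).2 / ‖(st σ (x, y)).1‖ = sl σ x y := by
          rw [st_eq]
          have h4 := pt_pos hN x (sl σ x y)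
          rw [div_eq_iff h4.ne', pt_snd hN]
          ring
        rw [h3, sl_sub, mul_div_assoc, div_self (gap_ne hM σ hx), mul_one]
      refine ⟨⟨h1.1, h1.2.2.1⟩, ?_, h0⟩
      have h5 : st σ (x, y) ∈ Yc σ ⁻¹' Iio y₀ ∩ {v : ℂ × ℝ | v ∈ Hem true ∧ v.1 ≠ 0} := by
        refine ⟨?_, h1.1, h0⟩
        show Yc σ (st σ (x, y)) < y₀
        rw [hY]
        exact hy.2
      rw [hO1e] at h5
      exact h5.1
    · rintro ⟨⟨h1, h2⟩, h3, h4⟩
      have h5 : v ∈ Yc σ ⁻¹' Iio y₀ ∩ {v : ℂ × ℝ | v ∈ Hem true ∧ v.1 ≠ 0} := by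
        rw [hO1e]
        exact ⟨h3, h1, h4⟩
      have hx := ((hL true).2 v h4 h1.2).1
      have hg := gap hM σ hx
      have h6 : 0 ≤ Yc σ v := by
        rw [Yc_dl hM hL σ h1 h4] at h2
        have h7 : 0 < ‖v.1‖ := norm_pos_iff.mpr h4
        have h8 : 0 ≤ Yc σ v * (sg σ * (Mf (hj (jn σ) (lon true v)) - Mf (hj 1 (lon true v)))) :=
          nonneg_of_mul_nonneg_right h2 h7
        exact nonneg_of_mul_nonneg_left h8 (by linarith)
      exact ⟨(lon true v, Yc σ v), ⟨hx, h6, h5.1⟩, st_Yc hM hN hL σ h1 h4⟩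

end Pool.Agent.LIX.S
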