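import Pool.Agent.LIX.StmtsS

/-!
# LIX, block S, module THE: the slide homeomorphism
-/

set_option autoImplicit false

namespace Pool.Agent.LIX.S

open Set Metric Complex

namespace THE

/-- The inverse of an injective continuous map on a compact set is continuous. -/
theorem contOn_inv {X Y : Type*} [TopologicalSpace X] [Nonempty X] [TopologicalSpace Y] [T2Space Y]
    {f : X → Y} {K : Set X} (hK : IsCompact K) (hf : ContinuousOn f K) (hi : InjOn f K) :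
    ContinuousOn (Function.invFunOn f K) (f '' K) := by
  rw [continuousOn_iff_isClosed]
  intro t ht
  refine ⟨f '' (K ∩ t), ((hK.inter_right ht).image_of_continuousOn
    (hf.mono inter_subset_left)).isClosed, ?_⟩
  ext y
  constructor
  · rintro ⟨h1, x, hx, rfl⟩
    have h2 : Function.invFunOn f K (f x) = x := hi.leftInvOn_invFunOn hx
    have h1' : Function.invFunOn f K (f x) ∈ t := h1
    rw [h2] at h1'
    exact ⟨⟨x, ⟨hx, h1'⟩, rfl⟩, x, hx, rfl⟩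
  · rintro ⟨⟨x, ⟨hx, hxt⟩, rfl⟩, -⟩
    refine ⟨?_, x, hx, rfl⟩
    have h2 : Function.invFunOn f K (f x) = x := hi.leftInvOn_invFunOn hx
    change Function.invFunOn f K (f x) ∈ t
    rw [h2]
    exact hxt

/-- the piecewise linear stretching -/
noncomputable def Sf (t y : ℝ) : ℝ := (1 - t) * y + t * min (2 * y) ((y + 3) / 2)

theorem Sf_cont : Continuous fun a : ℝ × ℝ => Sf a.1 a.2 := by
  unfold Sf
  fun_prop

theorem Sf_mem {t y : ℝ} (ht : t ∈ Icc (0 : ℝ) 1) (hy : y ∈ Icc (0 : ℝ) 3) : Sf t y ∈ Icc (0 : ℝ) 3 := by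
  obtain ⟨ht0, ht1⟩ := ht
  obtain ⟨hy0, hy1⟩ := hy
  have h1 : 0 ≤ min (2 * y) ((y + 3) / 2) := le_min (by linarith) (by linarith)
  have h2 : min (2 * y) ((y + 3) / 2) ≤ 3 := (min_le_right _ _).trans (by linarith)
  unfold Sf
  constructor
  · nlinarith
  · nlinarith

theorem Sf_zero (t : ℝ) : Sf t 0 = 0 := by
  unfold Sf
  rw [min_eq_left (by norm_num)]
  ring

theorem Sf_three (t : ℝ) : Sf t 3 = 3 := by
  unfold Sf
  rw [min_eq_right (by norm_num)]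
  ring

theorem Sf_t_zero (y : ℝ) : Sf 0 y = y := by
  unfold Sf
  ring

theorem Sf_one_one : Sf 1 1 = 2 := by
  unfold Sf
  rw [min_eq_left (by norm_num)]
  ring

theorem Sf_lt {t y y' : ℝ} (ht : t ∈ Icc (0 : ℝ) 1) (h : y < y') : Sf t y < Sf t y' := by
  obtain ⟨ht0, ht1⟩ := ht
  have h1 : min (2 * y) ((y + 3) / 2) < min (2 * y') ((y' + 3) / 2) :=
    min_lt_min (by linarith) (by linarith)
  unfold Sf
  rcases ht0.eq_or_lt with h0 | h0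
  · rw [← h0]
    linarith
  · nlinarith

theorem Sf_inj {t y y' : ℝ} (ht : t ∈ Icc (0 : ℝ) 1) (h : Sf t y = Sf t y') : y = y' := by
  rcases lt_trichotomy y y' with h1 | h1 | h1
  · exact absurd h (Sf_lt ht h1).ne
  · exact h1
  · exact absurd h (Sf_lt ht h1).ne'

theorem Sf_pos {t y : ℝ} (ht : t ∈ Icc (0 : ℝ) 1) (h : y ∈ Ioo (0 : ℝ) 3) : Sf t y ∈ Ioo (0 : ℝ) 3 := by
  have h1 := Sf_lt ht h.1
  have h2 := Sf_lt ht h.2
  rw [Sf_zero] at h1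
  rw [Sf_three] at h2
  exact ⟨h1, h2⟩

theorem Sf_one_eq_two {y : ℝ} : Sf 1 y = 2 ↔ y = 1 := by
  constructor
  · intro h
    rw [← Sf_one_one] at h
    exact Sf_inj ⟨zero_le_one, le_rfl⟩ h
  · rintro rfl
    exact Sf_one_one

theorem Edg_sub (hNML : S_NML) (i i' : Fin 4) (v : ℂ × ℝ) (hv : v ∈ Edg i i') : v ∈ Sph := by
  have hn : ∀ w : ℂ × ℝ, w ≠ 0 → nml w ∈ Sph := fun w hw => (hNML.2.1 w hw).2
  have h1 : ∀ b k : ℝ, ∀ w ∈ hlx b k, w ∈ Sph := by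
    rintro b k w ⟨u, -, rfl⟩
    refine hn _ fun h => ?_
    exact exp_ne_zero _ (congrArg Prod.fst h)
  have h2 : ∀ (a : ℂ) (r : ℝ), a ≠ 0 → ∀ w ∈ ({nml (a, r)} : Set (ℂ × ℝ)), w ∈ Sph := by
    intro a r ha w hw
    rw [mem_singleton_iff.1 hw]
    exact hn _ fun h => ha (congrArg Prod.fst h)
  have h3 : (I : ℂ) ≠ 0 := I_ne_zero
  have h4 : (-I : ℂ) ≠ 0 := neg_ne_zero.2 I_ne_zero
  fin_cases i <;> fin_cases i' <;>
    first
      | exact h2 _ _ h3 _ hv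
      | exact h2 _ _ h4 _ hv
      | exact h1 _ _ _ hv
      | exact hv.1

end THE

open THE

theorem t_THE : M_THE := by
  intro hNML hCHE Y _ _ T H V c hc Φ ψ τ s₁ K j hΦc hΦi hΦ hψ hs0 hs1 hτc hτi hτ hτ1 hτ2 hO hK hKb hKΦ
  have hSph : IsCompact Sph := hNML.2.2.2.2.1
  obtain ⟨O, hO1, hO2⟩ := hO
  have hHem : ∀ v ∈ Hem true, v ∈ Sph := fun v hv => hv.1
  -- facts on the collar
  have hcinj : ∀ v ∈ Sph, ∀ l ∈ Icc (0 : ℝ) 1, ∀ v' ∈ Sph, ∀ l' ∈ Icc (0 : ℝ) 1,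
      c (v, l) = c (v', l') → v = v' ∧ l = l' := by
    intro v hv l hl v' hv' l' hl' h
    have := hc.inj (show ((v, l) : (ℂ × ℝ) × ℝ) ∈ Sph ×ˢ Icc (0 : ℝ) 1 from ⟨hv, hl⟩)
      (show ((v', l') : (ℂ × ℝ) × ℝ) ∈ Sph ×ˢ Icc (0 : ℝ) 1 from ⟨hv', hl'⟩) h
    exact Prod.mk.injEq .. ▸ this
  have h01 : (0 : ℝ) ∈ Icc (0 : ℝ) 1 := ⟨le_rfl, zero_le_one⟩
  have hbd : ∀ v ∈ Sph, ∀ l ∈ Icc (0 : ℝ) 1, (c (v, l) ∈ T.bd ↔ l = 0) := by
    intro v hv l hl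
    rw [hc.bd]
    constructor
    · rintro ⟨⟨v', l'⟩, ⟨hv', hl'⟩, h⟩
      have hl'' : l' = 0 := hl'
      subst hl''
      exact (hcinj v' hv' 0 h01 v hv l hl h).2.symm
    · rintro rfl
      exact ⟨(v, 0), ⟨hv, rfl⟩, rfl⟩
  have hskel : ∀ p, p ∈ T.skel ↔ ∃ v ∈ Skl, p = c (v, 0) := by
    intro p
    unfold Cells.skel Skl
    simp only [mem_iUnion, hc.edge]
    constructor
    · rintro ⟨i, i', v, hv, rfl⟩
      exact ⟨v, ⟨i, i', hv⟩, rfl⟩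
    · rintro ⟨v, ⟨i, i', hv⟩, rfl⟩
      exact ⟨i, i', v, hv, rfl⟩
  have hSklSph : ∀ v ∈ Skl, v ∈ Sph := by
    intro v hv
    unfold Skl at hv
    simp only [mem_iUnion] at hv
    obtain ⟨i, i', hv⟩ := hv
    exact Edg_sub hNML i i' v hv
  have hskel2 : ∀ v ∈ Sph, ∀ l ∈ Icc (0 : ℝ) 1, (c (v, l) ∈ T.skel ↔ l = 0 ∧ v ∈ Skl) := by
    intro v hv l hl
    rw [hskel]
    constructor
    · rintro ⟨v', hv', h⟩
      obtain ⟨h1, h2⟩ := hcinj v hv l hl v' (hSklSph v' hv') 0 h01 h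
      exact ⟨h2, h1 ▸ hv'⟩
    · rintro ⟨rfl, h⟩
      exact ⟨v, h, rfl⟩
  have hVb : V true ⊆ T.body := by
    rw [← hc.side_union]
    exact subset_union_left
  have hside : ∀ v ∈ Sph, ∀ l ∈ Icc (0 : ℝ) 1, (c (v, l) ∈ V true ↔ v ∈ Hem true) := by
    intro v hv l hl
    rw [hc.side true v hv l hl]
    exact ⟨fun h => ⟨hv, h⟩, fun h => h.2⟩
  -- the layer which misses `K`
  obtain ⟨lam, hl0, hl1, hlK⟩ : ∃ lam : ℝ, 0 < lam ∧ lam ≤ 1 / 2 ∧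
      ∀ x ∈ Icc (0 : ℝ) 1, ∀ y ∈ Icc (0 : ℝ) 3, ∀ l ∈ Icc (0 : ℝ) lam, c (τ (x, y), l) ∉ K := by
    have hA : IsCompact ((Icc (0 : ℝ) 1 ×ˢ Icc (0 : ℝ) 3) ×ˢ Icc (0 : ℝ) 1) :=
      (isCompact_Icc.prod isCompact_Icc).prod isCompact_Icc
    have hM : ContinuousOn (fun a : (ℝ × ℝ) × ℝ => c (τ a.1, a.2))
        ((Icc (0 : ℝ) 1 ×ˢ Icc (0 : ℝ) 3) ×ˢ Icc (0 : ℝ) 1) := by
      refine hc.cont.comp ((hτc.comp continuousOn_fst fun a ha => ha.1).prodMk continuousOn_snd) ?_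
      rintro ⟨⟨x, y⟩, l⟩ ⟨⟨hx, hy⟩, hl⟩
      exact ⟨hHem _ (hτ x hx y hy).1, hl⟩
    have hB : IsCompact ((Icc (0 : ℝ) 1 ×ˢ Icc (0 : ℝ) 3) ×ˢ Icc (0 : ℝ) 1 ∩
        (fun a : (ℝ × ℝ) × ℝ => c (τ a.1, a.2)) ⁻¹' K) :=
      hA.of_isClosed_subset (hM.preimage_isClosed_of_isClosed hA.isClosed hK.isClosed) inter_subset_left
    have hB2 := (hB.image (f := Prod.snd) continuous_snd).isClosed
    have h0 : (0 : ℝ) ∈ (Prod.snd '' ((Icc (0 : ℝ) 1 ×ˢ Icc (0 : ℝ) 3) ×ˢ Icc (0 : ℝ) 1 ∩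
        (fun a : (ℝ × ℝ) × ℝ => c (τ a.1, a.2)) ⁻¹' K))ᶜ := by
      rintro ⟨⟨⟨x, y⟩, l⟩, ⟨⟨⟨hx, hy⟩, -⟩, hk⟩, hl⟩
      have hl' : l = 0 := hl
      subst hl'
      exact hKb x hx y hy hk
    obtain ⟨ε, hε, hε2⟩ := Metric.isOpen_iff.1 hB2.isOpen_compl 0 h0
    refine ⟨min (1 / 2) (ε / 2), lt_min (by norm_num) (by linarith), min_le_left _ _, ?_⟩
    intro x hx y hy l hl hk
    have h1 : l ≤ 1 / 2 := hl.2.trans (min_le_left _ _)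
    have h2 : l ≤ ε / 2 := hl.2.trans (min_le_right _ _)
    have h3 : l ∈ ball (0 : ℝ) ε := by
      rw [mem_ball, dist_zero_right, Real.norm_eq_abs, abs_of_nonneg hl.1]
      linarith
    exact hε2 h3 ⟨((x, y), l), ⟨⟨⟨hx, hy⟩, hl.1, by linarith⟩, hk⟩, rfl⟩
  have hlam1 : ∀ l ∈ Icc (0 : ℝ) lam, l ∈ Icc (0 : ℝ) 1 := fun l hl => ⟨hl.1, by linarith [hl.2]⟩
  -- relative openness of the region where something moves
  obtain ⟨O₂, hO₂, hO₂'⟩ : ∃ O₂ : Set Y, IsOpen O₂ ∧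
      V true ∩ O₂ = c '' ((τ '' (Icc 0 1 ×ˢ Ioo 0 3)) ×ˢ Ico 0 lam) := by
    obtain ⟨O', hO', hO'2⟩ := hc.opn
    have hN : IsCompact ((Sph ×ˢ Icc (0 : ℝ) 1) \ (O ×ˢ Iio lam)) :=
      (hSph.prod isCompact_Icc).diff (hO1.prod isOpen_Iio)
    have hN2 : IsClosed (c '' ((Sph ×ˢ Icc (0 : ℝ) 1) \ (O ×ˢ Iio lam))) :=
      (hN.image_of_continuousOn (hc.cont.mono diff_subset)).isClosed
    refine ⟨O' ∩ (c '' ((Sph ×ˢ Icc (0 : ℝ) 1) \ (O ×ˢ Iio lam)))ᶜ, hO'.inter hN2.isOpen_compl, ?_⟩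
    rw [hO2]
    ext p
    constructor
    · rintro ⟨hp, hp1, hp2⟩
      have hp3 : p ∈ T.body ∩ O' := ⟨hVb hp, hp1⟩
      rw [hO'2] at hp3
      obtain ⟨⟨v, l⟩, ⟨hv, hl⟩, rfl⟩ := hp3
      have hl' : l ∈ Icc (0 : ℝ) 1 := ⟨hl.1, hl.2.le⟩
      have h4 : ((v, l) : (ℂ × ℝ) × ℝ) ∈ O ×ˢ Iio lam := by
        by_contra h
        exact hp2 ⟨(v, l), ⟨⟨hv, hl'⟩, h⟩, rfl⟩
      exact ⟨(v, l), ⟨⟨(hside v hv l hl').1 hp, h4.1⟩, hl.1, h4.2⟩, rfl⟩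
    · rintro ⟨⟨v, l⟩, ⟨⟨hv, hvO⟩, hl⟩, rfl⟩
      have hl' : l ∈ Icc (0 : ℝ) 1 := ⟨hl.1, by linarith [hl.2]⟩
      have hvS := hHem v hv
      refine ⟨(hside v hvS l hl').2 hv, ?_, ?_⟩
      · have : c (v, l) ∈ T.body ∩ O' := by
          rw [hO'2]
          exact ⟨(v, l), ⟨hvS, hl.1, by linarith [hl.2]⟩, rfl⟩
        exact this.2
      · rintro ⟨⟨v', l'⟩, ⟨⟨hv', hl''⟩, h⟩, he⟩
        obtain ⟨h1, h2⟩ := hcinj v' hv' l' hl'' v hvS l hl' he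
        subst h1 h2
        exact h ⟨hvO, hl.2⟩
  -- the box and the two maps
  set A : Set ((ℝ × ℝ) × ℝ) := (Icc (0 : ℝ) 1 ×ˢ Icc (0 : ℝ) 3) ×ˢ Icc (0 : ℝ) lam with hAdef
  have hAc : IsCompact A := (isCompact_Icc.prod isCompact_Icc).prod isCompact_Icc
  set M : (ℝ × ℝ) × ℝ → Y := fun a => c (τ a.1, a.2) with hMdef
  set P : (ℝ × ℝ) × ℝ → (ℝ × ℝ) × ℝ := fun a => ((a.1.1, Sf (1 - a.2 / lam) a.1.2), a.2) with hPdef
  have hAt : ∀ a ∈ A, (1 - a.2 / lam) ∈ Icc (0 : ℝ) 1 := by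
    rintro ⟨⟨x, y⟩, l⟩ ⟨-, hl⟩
    have h1 : 0 ≤ l / lam := div_nonneg hl.1 hl0.le
    have h2 : l / lam ≤ 1 := (div_le_one hl0).2 hl.2
    exact ⟨by simp only; linarith, by simp only; linarith⟩
  have hAS : ∀ a ∈ A, τ a.1 ∈ Hem true ∧ τ a.1 ∈ Sph ∧ a.2 ∈ Icc (0 : ℝ) 1 := by
    rintro ⟨⟨x, y⟩, l⟩ ⟨⟨hx, hy⟩, hl⟩
    exact ⟨(hτ x hx y hy).1, hHem _ (hτ x hx y hy).1, hlam1 l hl⟩
  have hPA : ∀ a ∈ A, P a ∈ A := by
    rintro ⟨⟨x, y⟩, l⟩ ha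
    have h1 := hAt _ ha
    obtain ⟨⟨hx, hy⟩, hl⟩ := ha
    exact ⟨⟨hx, Sf_mem h1 hy⟩, hl⟩
  have hMc : ContinuousOn M A := by
    refine hc.cont.comp ((hτc.comp continuousOn_fst fun a ha => ha.1).prodMk continuousOn_snd) ?_
    intro a ha
    exact ⟨(hAS a ha).2.1, (hAS a ha).2.2⟩
  have hMi : InjOn M A := by
    rintro ⟨xy, l⟩ ha ⟨xy', l'⟩ ha' h
    obtain ⟨h1, h2⟩ := hcinj _ (hAS _ ha).2.1 _ (hAS _ ha).2.2 _ (hAS _ ha').2.1 _ (hAS _ ha').2.2 h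
    have h3 := hτi ha.1 ha'.1 h1
    have h3' : xy = xy' := h3
    have h2' : l = l' := h2
    rw [h3', h2']
  have hPc : Continuous P := by
    refine Continuous.prodMk (Continuous.prodMk (by fun_prop) ?_) continuous_snd
    exact Sf_cont.comp (by fun_prop : Continuous fun a : (ℝ × ℝ) × ℝ => ((1 - a.2 / lam, a.1.2) : ℝ × ℝ))
  have hPi : ∀ a ∈ A, ∀ a' ∈ A, P a = P a' → a = a' := by
    rintro ⟨⟨x, y⟩, l⟩ ha ⟨⟨x', y'⟩, l'⟩ ha' h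
    have e1 : x = x' := congrArg (fun b : (ℝ × ℝ) × ℝ => b.1.1) h
    have e2 : l = l' := congrArg Prod.snd h
    have e3 : Sf (1 - l / lam) y = Sf (1 - l' / lam) y' := congrArg (fun b : (ℝ × ℝ) × ℝ => b.1.2) h
    rw [← e2] at e3
    have e4 := Sf_inj (hAt _ ha) e3
    rw [e1, e2, e4]
  classical
  set Θ : Y → Y := fun p => if p ∈ M '' A then M (P (Function.invFunOn M A p)) else p with hΘdef
  have hΘ1 : ∀ a ∈ A, Θ (M a) = M (P a) := by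
    intro a ha
    have h1 : M a ∈ M '' A := ⟨a, ha, rfl⟩
    have h2 : Function.invFunOn M A (M a) = a := hMi.leftInvOn_invFunOn ha
    simp only [hΘdef, if_pos h1, h2]
  have hΘ2 : ∀ p, p ∉ M '' A → Θ p = p := by
    intro p hp
    simp only [hΘdef, if_neg hp]
  have hQV : M '' A ⊆ V true := by
    rintro _ ⟨a, ha, rfl⟩
    exact (hside _ (hAS a ha).2.1 _ (hAS a ha).2.2).2 (hAS a ha).1
  have hΘV : ∀ p ∈ V true, Θ p ∈ V true := by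
    intro p hp
    by_cases h : p ∈ M '' A
    · obtain ⟨a, ha, rfl⟩ := h
      rw [hΘ1 a ha]
      exact hQV ⟨_, hPA a ha, rfl⟩
    · rw [hΘ2 p h]
      exact hp
  have hΘQ : ∀ p, Θ p ∈ M '' A ↔ p ∈ M '' A := by
    intro p
    by_cases h : p ∈ M '' A
    · refine ⟨fun _ => h, fun _ => ?_⟩
      obtain ⟨a, ha, rfl⟩ := h
      rw [hΘ1 a ha]
      exact ⟨_, hPA a ha, rfl⟩
    · rw [hΘ2 p h]
  have hΘi : InjOn Θ (V true) := by
    intro p hp p' hp' h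
    by_cases h1 : p ∈ M '' A
    · have h2 : p' ∈ M '' A := by
        rw [← hΘQ p', ← h, hΘQ p]
        exact h1
      obtain ⟨a, ha, rfl⟩ := h1
      obtain ⟨a', ha', rfl⟩ := h2
      rw [hΘ1 a ha, hΘ1 a' ha'] at h
      have h3 := hMi (hPA a ha) (hPA a' ha') h
      rw [hPi a ha a' ha' h3]
    · have h2 : p' ∉ M '' A := by
        rw [← hΘQ p', ← h, hΘQ p]
        exact h1
      rwa [hΘ2 p h1, hΘ2 p' h2] at h
  have hΘc : ContinuousOn Θ (V true) := by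
    have hcl1 : IsClosed (M '' A) := (hAc.image_of_continuousOn hMc).isClosed
    have hcl2 : IsClosed (V true ∩ O₂ᶜ) := (hc.side_closed true).inter hO₂.isClosed_compl
    have h1 : ContinuousOn Θ (M '' A) := by
      have h2 : ContinuousOn (fun p => M (P (Function.invFunOn M A p))) (M '' A) := by
        refine hMc.comp (hPc.comp_continuousOn (contOn_inv hAc hMc hMi)) ?_
        intro p hp
        exact hPA _ (Function.invFunOn_mem hp)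
      refine h2.congr fun p hp => ?_
      simp only [hΘdef, if_pos hp]
    have h3 : ContinuousOn Θ (V true ∩ O₂ᶜ) := by
      refine continuousOn_id.congr fun p hp => ?_
      change Θ p = p
      by_cases hQ : p ∈ M '' A
      · obtain ⟨⟨⟨x, y⟩, l⟩, ha, rfl⟩ := hQ
        rw [hΘ1 _ ha]
        have h4 : ¬ (y ∈ Ioo (0 : ℝ) 3 ∧ l < lam) := by
          rintro ⟨hy, hl⟩
          have h5 : M ((x, y), l) ∈ V true ∩ O₂ := by
            rw [hO₂']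
            exact ⟨(τ (x, y), l), ⟨⟨(x, y), ⟨ha.1.1, hy⟩, rfl⟩, ha.2.1, hl⟩, rfl⟩
          exact hp.2 h5.2
        have h6 : P ((x, y), l) = ((x, y), l) := by
          simp only [hPdef]
          by_cases hl : l < lam
          · have h7 : y = 0 ∨ y = 3 := by
              have h8 : y ∉ Ioo (0 : ℝ) 3 := fun hy => h4 ⟨hy, hl⟩
              have hy0 : 0 ≤ y := ha.1.2.1
              have hy3 : y ≤ 3 := ha.1.2.2
              rcases hy0.eq_or_lt with h | h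
              · exact Or.inl h.symm
              · rcases hy3.eq_or_lt with h' | h'
                · exact Or.inr h'
                · exact absurd ⟨h, h'⟩ h8
            rcases h7 with rfl | rfl
            · rw [Sf_zero]
            · rw [Sf_three]
          · have h9 : l = lam := le_antisymm ha.2.2 (not_lt.1 hl)
            rw [h9, div_self hl0.ne', sub_self, Sf_t_zero]
        rw [h6]
      · exact hΘ2 p hQ
    have h5 : V true = M '' A ∪ (V true ∩ O₂ᶜ) := by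
      ext p
      constructor
      · intro hp
        by_cases h : p ∈ O₂
        · left
          have h6 : p ∈ V true ∩ O₂ := ⟨hp, h⟩
          rw [hO₂'] at h6
          obtain ⟨⟨v, l⟩, ⟨⟨⟨x, y⟩, ⟨hx, hy⟩, rfl⟩, hl⟩, rfl⟩ := h6
          exact ⟨((x, y), l), ⟨⟨hx, hy.1.le, hy.2.le⟩, hl.1, hl.2.le⟩, rfl⟩
        · exact Or.inr ⟨hp, h⟩
      · rintro (h | h)
        · exact hQV h
        · exact h.1
    rw [h5]
    exact h1.union_of_isClosed h3 hcl1 hcl2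
  -- invariance
  have hΘbd : ∀ p, (Θ p ∈ T.bd ↔ p ∈ T.bd) := by
    intro p
    by_cases h : p ∈ M '' A
    · obtain ⟨a, ha, rfl⟩ := h
      rw [hΘ1 a ha]
      have h1 := hbd _ (hAS _ (hPA a ha)).2.1 _ (hAS _ (hPA a ha)).2.2
      have h2 := hbd _ (hAS a ha).2.1 _ (hAS a ha).2.2
      exact h1.trans h2.symm
    · rw [hΘ2 p h]
  have hΘH : ∀ p, (Θ p ∈ H ↔ p ∈ H) := by
    intro p
    by_cases h : p ∈ M '' A
    · obtain ⟨a, ha, rfl⟩ := h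
      rw [hΘ1 a ha]
      have h1 := hc.surf _ (hAS _ (hPA a ha)).2.1 _ (hAS _ (hPA a ha)).2.2
      have h2 := hc.surf _ (hAS a ha).2.1 _ (hAS a ha).2.2
      have h3 := (hτ a.1.1 ha.1.1 a.1.2 ha.1.2).2.1
      have h4 := (hτ (P a).1.1 (hPA a ha).1.1 (P a).1.2 (hPA a ha).1.2).2.1
      exact h1.trans (h4.trans (h3.symm.trans h2.symm))
    · rw [hΘ2 p h]
  -- the arc at height `s₁`
  have harc : ∀ w ∈ Smc, ∃ x ∈ Icc (0 : ℝ) 1, ((x, 1), 0) ∈ A ∧ Φ (w, s₁) = M ((x, 1), 0) ∧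
      τ (x, 1) = ψ (w, s₁) := by
    intro w hw
    have h1 : ψ (w, s₁) ∈ (fun x => τ (x, 1)) '' Icc 0 1 := by
      rw [hτ1]
      exact ⟨w, hw, rfl⟩
    obtain ⟨x, hx, hx2⟩ := h1
    have hx2' : τ (x, 1) = ψ (w, s₁) := hx2
    refine ⟨x, hx, ⟨⟨hx, by norm_num, by norm_num⟩, le_rfl, hl0.le⟩, ?_, hx2'⟩
    rw [(hψ w hw s₁ ⟨by linarith, hs1.le⟩).2, ← hx2']
  have hP1 : ∀ x : ℝ, P ((x, 1), 0) = ((x, 2), 0) := by
    intro x
    simp only [hPdef, zero_div, sub_zero, Sf_one_one]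
  have hskT : ∀ a ∈ A, (M (P a) ∈ T.skel ↔ a.2 = 0 ∧ a.1.2 = 1) := by
    intro a ha
    have hPa := hPA a ha
    have h1 := hskel2 _ (hAS _ hPa).2.1 _ (hAS _ hPa).2.2
    have h2 := (hτ (P a).1.1 hPa.1.1 (P a).1.2 hPa.1.2).2.2
    refine h1.trans ?_
    change a.2 = 0 ∧ τ (P a).1 ∈ Skl ↔ _
    constructor
    · rintro ⟨h3, h4⟩
      have h5 := h2.1 h4
      have h6 : Sf (1 - a.2 / lam) a.1.2 = 2 := h5
      rw [h3, zero_div, sub_zero] at h6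
      exact ⟨h3, Sf_one_eq_two.1 h6⟩
    · rintro ⟨h3, h4⟩
      refine ⟨h3, h2.2 ?_⟩
      change Sf (1 - a.2 / lam) a.1.2 = 2
      rw [h3, zero_div, sub_zero, h4, Sf_one_one]
  -- the bicollar
  obtain ⟨ρ, hρ0, hρ1, hρ2⟩ : ∃ ρ : ℝ, 0 < ρ ∧ ρ < s₁ ∧ ρ < 1 - s₁ :=
    ⟨min s₁ (1 - s₁) / 2, by
      have := lt_min hs0 (sub_pos.2 hs1)
      linarith, by
      have := min_le_left s₁ (1 - s₁)
      linarith, by
      have := min_le_right s₁ (1 - s₁)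
      linarith⟩
  have hsI : ∀ s ∈ Icc (-1 : ℝ) 1, s₁ + ρ * s ∈ Icc (-1 : ℝ) 1 ∧ 0 < s₁ + ρ * s := by
    intro s hs
    have h1 : -ρ ≤ ρ * s := by nlinarith [hs.1]
    have h2 : ρ * s ≤ ρ := by nlinarith [hs.2]
    exact ⟨⟨by linarith, by linarith⟩, by linarith⟩
  have hs1I : s₁ ∈ Icc (-1 : ℝ) 1 := ⟨by linarith, hs1.le⟩
  refine ⟨fun z => Θ (Φ (z, s₁)), ⟨⟨fun x => Θ (Φ (x.1, s₁ + ρ * x.2)), ?_, ?_, ?_, ?_⟩, ?_⟩, ?_, ?_⟩
  · refine hΘc.comp (hΦc.comp (by fun_prop) ?_) ?_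
    · rintro ⟨z, s⟩ ⟨hz, hs⟩
      exact ⟨hz, (hsI s hs).1⟩
    · rintro ⟨z, s⟩ ⟨hz, hs⟩
      exact (hΦ z hz _ (hsI s hs).1).1
  · rintro ⟨z, s⟩ ⟨hz, hs⟩ ⟨z', s'⟩ ⟨hz', hs'⟩ h
    have h1 := hΘi (hΦ z hz _ (hsI s hs).1).1 (hΦ z' hz' _ (hsI s' hs').1).1 h
    have h2 := hΦi (show ((z, s₁ + ρ * s) : ℂ × ℝ) ∈ HDisk ×ˢ Icc (-1 : ℝ) 1 from ⟨hz, (hsI s hs).1⟩)
      (show ((z', s₁ + ρ * s') : ℂ × ℝ) ∈ HDisk ×ˢ Icc (-1 : ℝ) 1 from ⟨hz', (hsI s' hs').1⟩) h1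
    have h3 : z = z' := congrArg Prod.fst h2
    have h4 : s₁ + ρ * s = s₁ + ρ * s' := congrArg Prod.snd h2
    have h5 : s = s' := by
      have : ρ * s = ρ * s' := by linarith
      exact mul_left_cancel₀ hρ0.ne' this
    rw [h3, h5]
  · intro z hz s hs
    obtain ⟨hsJ, hsP⟩ := hsI s hs
    obtain ⟨g1, g2, g3, g4⟩ := hΦ z hz _ hsJ
    refine ⟨hVb (hΘV _ g1), (hΘbd _).trans g2, (hΘH _).trans g3, ?_⟩
    change Θ (Φ (z, s₁ + ρ * s)) ∈ T.skel ↔ _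
    by_cases hQ : Φ (z, s₁ + ρ * s) ∈ M '' A
    · obtain ⟨a, ha, hae⟩ := hQ
      rw [← hae, hΘ1 a ha, hskT a ha]
      constructor
      · rintro ⟨h1, h2⟩
        have h3 : (fun x => τ (x, 1)) a.1.1 ∈ (fun w => ψ (w, s₁)) '' Smc := by
          rw [← hτ1]
          exact ⟨a.1.1, ha.1.1, rfl⟩
        obtain ⟨w, hw, hw2⟩ := h3
        have h4 : Φ (w, s₁) = Φ (z, s₁ + ρ * s) := by
          rw [(hψ w hw s₁ hs1I).2, ← hae]
          have hw3 : ψ (w, s₁) = τ (a.1.1, 1) := hw2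
          have h5 : a = ((a.1.1, 1), 0) := by
            rw [← h1, ← h2]
          rw [hw3, h5]
        have h6 := hΦi (show ((w, s₁) : ℂ × ℝ) ∈ HDisk ×ˢ Icc (-1 : ℝ) 1 from ⟨hw.1, hs1I⟩)
          (show ((z, s₁ + ρ * s) : ℂ × ℝ) ∈ HDisk ×ˢ Icc (-1 : ℝ) 1 from ⟨hz, hsJ⟩) h4
        have h7 : w = z := congrArg Prod.fst h6
        have h8 : s₁ = s₁ + ρ * s := congrArg Prod.snd h6
        refine ⟨h7 ▸ hw.2, ?_⟩
        have h9 : ρ * s = 0 := by linarith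
        exact (mul_eq_zero.1 h9).resolve_left hρ0.ne'
      · rintro ⟨h1, rfl⟩
        obtain ⟨x, hx, hxA, hxM, -⟩ := harc z ⟨hz, h1⟩
        have h3 : M a = M ((x, 1), 0) := by
          rw [hae, mul_zero, add_zero, hxM]
        have h4 := hMi ha hxA h3
        rw [h4]
        exact ⟨rfl, rfl⟩
    · rw [hΘ2 _ hQ, g4]
      constructor
      · rintro ⟨-, h2⟩
        exact absurd h2 hsP.ne'
      · rintro ⟨h1, rfl⟩
        obtain ⟨x, hx, hxA, hxM, -⟩ := harc z ⟨hz, h1⟩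
        refine absurd ⟨_, hxA, ?_⟩ hQ
        rw [← hxM, mul_zero, add_zero]
  · intro z hz
    simp only [mul_zero, add_zero]
  · obtain ⟨i, i', hii⟩ := hCHE.1 true j
    refine ⟨i, i', fun z hz hz1 => ?_⟩
    obtain ⟨x, hx, hxA, hxM, -⟩ := harc z ⟨hz, hz1⟩
    change Θ (Φ (z, s₁)) ∈ _
    rw [hxM, hΘ1 _ hxA, hP1, hc.edge]
    have h1 : τ (x, 2) ∈ ch true j := by
      rw [← hτ2]
      exact ⟨x, hx, rfl⟩
    exact ⟨τ (x, 2), hii h1, rfl⟩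
  · change (fun z => Θ (Φ (z, s₁))) '' HDisk ∩ T.bd = (fun v => c (v, 0)) '' ch true j
    ext p
    constructor
    · rintro ⟨⟨z, hz, rfl⟩, hp⟩
      have h1 : Φ (z, s₁) ∈ T.bd := (hΘbd _).1 hp
      have h2 := (hΦ z hz s₁ hs1I).2.1.1 h1
      obtain ⟨x, hx, hxA, hxM, -⟩ := harc z ⟨hz, h2⟩
      change Θ (Φ (z, s₁)) ∈ _
      rw [hxM, hΘ1 _ hxA, hP1, ← hτ2]
      exact ⟨τ (x, 2), ⟨x, hx, rfl⟩, rfl⟩
    · rintro ⟨v, hv, rfl⟩
      have hv' := hv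
      rw [← hτ2] at hv'
      obtain ⟨x, hx, rfl⟩ := hv'
      have h3 : (fun x => τ (x, 1)) x ∈ (fun w => ψ (w, s₁)) '' Smc := by
        rw [← hτ1]
        exact ⟨x, hx, rfl⟩
      obtain ⟨w, hw, hw2⟩ := h3
      have hw3 : ψ (w, s₁) = τ (x, 1) := hw2
      have hxA : ((x, 1), 0) ∈ A := ⟨⟨hx, by norm_num, by norm_num⟩, le_rfl, hl0.le⟩
      have h4 : Θ (Φ (w, s₁)) = c (τ (x, 2), 0) := by
        have h5 : Φ (w, s₁) = M ((x, 1), 0) := by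
          rw [(hψ w hw s₁ hs1I).2, hw3]
        rw [h5, hΘ1 _ hxA, hP1]
      refine ⟨⟨w, hw.1, h4⟩, ?_⟩
      have h6 : Φ (w, s₁) ∈ T.bd := (hΦ w hw.1 s₁ hs1I).2.1.2 hw.2
      have h7 := (hΘbd _).2 h6
      rw [h4] at h7
      exact h7
  · rw [Set.eq_empty_iff_forall_notMem]
    rintro p ⟨⟨z, hz, rfl⟩, hp⟩
    change Θ (Φ (z, s₁)) ∈ K at hp
    by_cases hQ : Φ (z, s₁) ∈ M '' A
    · obtain ⟨a, ha, hae⟩ := hQ
      rw [← hae, hΘ1 a ha] at hp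
      have hPa := hPA a ha
      exact hlK _ hPa.1.1 _ hPa.1.2 _ hPa.2 hp
    · rw [hΘ2 _ hQ] at hp
      exact hKΦ z hz hp

end Pool.Agent.LIX.S
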