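import Pool.Agent.LIX.StmtsS

/-!
# LIX, block S, module XI: compatible collars
-/

set_option autoImplicit false

namespace Pool.Agent.LIX.S

open Set Metric Complex

noncomputable section

namespace XIx

theorem lt_of_cle : ∀ q q' : Bool × Fin 3, cle q q' = true → q ≠ q' → q.2.val < q'.2.val := by
  decide

theorem ne_of (δ δ' : ℝ) (a a' : ℕ) (h : a < a') (h0 : 0 < δ') (h1 : δ' ≤ δ) :
    δ / (8 + 4 * (a : ℝ)) ≠ δ' / (8 + 4 * (a' : ℝ)) := by
  have h2 : (a : ℝ) < a' := by exact_mod_cast h
  have h3 : (0 : ℝ) ≤ a := Nat.cast_nonneg a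
  intro e
  rw [div_eq_div_iff (by positivity) (by positivity)] at e
  nlinarith

theorem ne_of' (δ δ' : ℝ) (a a' : ℕ) (h : a < a') (h4 : a' < 3) (h0 : δ' < 0) (h1 : δ' ≤ δ) :
    -δ / (16 - 4 * (a : ℝ)) ≠ -δ' / (16 - 4 * (a' : ℝ)) := by
  have h2 : (a : ℝ) < a' := by exact_mod_cast h
  have h6 : (a' : ℝ) < 3 := by exact_mod_cast h4
  intro e
  rw [div_eq_div_iff (by linarith) (by linarith)] at e
  nlinarith

theorem same (hO : S_ORD) (q q' : Bool × Fin 3) (d : Bool) (hc : cle q q' = true)
    (hne : q ≠ q') (v : ℂ × ℝ) (h : v ∈ Rg q.1 q.2 d) (h' : v ∈ Rg q'.1 q'.2 d) :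
    v ∈ ch q'.1 q'.2 ∨ xi (q.1, q.2, d) v ≠ xi (q'.1, q'.2, d) v := by
  have o := hO q q' hc v h.1 h'.1
  have l := lt_of_cle q q' hc hne
  by_cases h0 : dl q'.1 q'.2 v = 0
  · exact Or.inl ⟨h'.1, h0⟩
  · right
    have h2 := h.2
    have h3 := h'.2
    cases d
    · unfold sg at h2 h3
      simp only [Bool.false_eq_true, if_false] at h2 h3
      unfold xi
      simp only [Bool.false_eq_true, if_false]
      exact ne_of' _ _ _ _ l q'.2.isLt (lt_of_le_of_ne (by linarith) h0) o
    · unfold sg at h2 h3
      simp only [if_true] at h2 h3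
      unfold xi
      simp only [if_true]
      exact ne_of _ _ _ _ l (lt_of_le_of_ne (by linarith) (Ne.symm h0)) o

theorem opp (hO : S_ORD) (q q' : Bool × Fin 3) (hc : cle q' q = true) (v : ℂ × ℝ)
    (h : v ∈ Rg q.1 q.2 true) (h' : v ∈ Rg q'.1 q'.2 false) : v ∈ ch q.1 q.2 := by
  have o := hO q' q hc v h'.1 h.1
  have h2 := h.2
  have h3 := h'.2
  unfold sg at h2 h3
  simp only [Bool.false_eq_true, if_false, if_true] at h2 h3
  exact ⟨h.1, by linarith⟩

end XIx

theorem t_XI : M_XI := by
  intro hO
  constructor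
  · rintro ⟨b, j, d⟩ ⟨b', j', d'⟩ hc hne v h h'
    unfold cpt2 at hc
    simp only at hc
    by_cases hd : d = d'
    · subst hd
      rw [if_pos rfl, Bool.or_eq_true] at hc
      have hq : (b, j) ≠ (b', j') := by
        intro e
        apply hne
        rw [Prod.mk.injEq] at e
        rw [e.1, e.2]
      rcases hc with hc | hc
      · rcases XIx.same hO (b, j) (b', j') d hc hq v h h' with h1 | h1
        · exact Or.inr (Or.inl h1)
        · exact Or.inr (Or.inr h1)
      · rcases XIx.same hO (b', j') (b, j) d hc hq.symm v h' h with h1 | h1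
        · exact Or.inl h1
        · exact Or.inr (Or.inr h1.symm)
    · rw [if_neg hd] at hc
      cases d
      · have hd' : d' = true := by cases d' <;> simp_all
        subst hd'
        simp only [Bool.false_eq_true, if_false] at hc
        exact Or.inr (Or.inl (XIx.opp hO (b', j') (b, j) hc v h' h))
      · have hd' : d' = false := by cases d' <;> simp_all
        subst hd'
        simp only [if_true] at hc
        exact Or.inl (XIx.opp hO (b, j) (b', j') hc v h h')
  · rintro ⟨b, j, d⟩ q hc v h h'
    unfold cptk at hc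
    simp only at hc
    have h2 := h.2
    cases d
    · simp only [Bool.false_eq_true, if_false] at hc
      have o := hO (b, j) q hc v h.1 h'.1
      unfold sg at h2
      simp only [Bool.false_eq_true, if_false] at h2
      rw [h'.2] at o
      simp only at o ⊢
      linarith
    · simp only [if_true] at hc
      have o := hO q (b, j) hc v h'.1 h.1
      unfold sg at h2
      simp only [if_true] at h2
      rw [h'.2] at o
      simp only at o ⊢
      linarith

end

end Pool.Agent.LIX.S
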