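import Pool.Agent.LIX.StmtsTB

/-!
# LIX, block TB: the easy statements
-/

namespace Pool.Agent.LIX

open Set Metric Complex

namespace TBB

theorem polar_of_exp {w l : ℂ} (h : exp l = w) : w = ‖w‖ * exp (l.im * I) := by
  have h1 : ‖w‖ = Real.exp l.re := by rw [← h, norm_exp]
  rw [h1, ofReal_exp, ← exp_add, ← h]
  congr 1
  exact (re_add_im l).symm

theorem exp_of_polar {w : ℂ} {φ : ℝ} (hw : w ≠ 0) (h : w = ‖w‖ * exp (φ * I)) :
    exp (Real.log ‖w‖ + φ * I) = w := by
  rw [exp_add, ← ofReal_exp, Real.exp_log (norm_pos_iff.2 hw)]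
  exact h.symm

/-- complex logarithms and arguments -/
theorem logOn_of_cLog {E : Type*} [TopologicalSpace E] {A : Set E} {g : E → ℂ} {z : ℂ}
    (h : CLog A fun x => g x - z) : LogOn A g z := by
  obtain ⟨l, hl, he⟩ := h
  exact ⟨fun x => (l x).im, continuous_im.comp_continuousOn hl, fun x hx => polar_of_exp (he x hx)⟩

theorem cLog_of_logOn {E : Type*} [TopologicalSpace E] {A : Set E} {g : E → ℂ} {z : ℂ}
    (hg : ContinuousOn g A) (h0 : ∀ x ∈ A, g x ≠ z) (h : LogOn A g z) :
    CLog A fun x => g x - z := by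
  obtain ⟨φ, hφ, he⟩ := h
  refine ⟨fun x => (Real.log ‖g x - z‖ : ℝ) + φ x * I, ?_, fun x hx =>
    exp_of_polar (sub_ne_zero.2 (h0 x hx)) (he x hx)⟩
  have h1 : ContinuousOn (fun x => Real.log ‖g x - z‖) A :=
    ((hg.sub continuousOn_const).norm).log fun x hx =>
      (norm_pos_iff.2 (sub_ne_zero.2 (h0 x hx))).ne'
  exact (continuous_ofReal.comp_continuousOn h1).add
    ((continuous_ofReal.comp_continuousOn hφ).mul continuousOn_const)

theorem hasLog_iff {K : Set ℂ} {z : ℂ} : HasLog K z ↔ z ∉ K ∧ CLog K fun x => x - z := by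
  constructor
  · rintro ⟨h1, h2⟩
    exact ⟨h1, cLog_of_logOn (g := fun x => x) continuousOn_id
      (fun x hx h => h1 (h ▸ hx)) h2⟩
  · rintro ⟨h1, h2⟩
    exact ⟨h1, logOn_of_cLog (g := fun x => x) h2⟩

end TBB

theorem t_HL1 : S_HL1 := by
  intro K S z w hK hS hSK hz hw
  have h1 := cLog_iff_of_component hK hS (disjoint_left.2 fun x hx hxK => hSK hx hxK) hz hw
  rw [TBB.hasLog_iff, TBB.hasLog_iff, h1]
  exact and_congr_left fun _ => ⟨fun _ => hSK hw, fun _ => hSK hz⟩

theorem t_HL2 : S_HL2 := by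
  intro K R z hK hR
  rw [TBB.hasLog_iff]
  constructor
  · intro hz
    have := hK hz
    rw [mem_closedBall_zero_iff] at this
    linarith
  · by_cases hR0 : R < 0
    · have hE : K = ∅ := by
        rw [eq_empty_iff_forall_notMem]
        intro x hx
        have := hK hx
        rw [mem_closedBall_zero_iff] at this
        linarith [norm_nonneg x]
      rw [hE]
      exact ⟨fun _ => 0, continuousOn_empty _, fun x hx => hx.elim⟩
    · have hz0 : z ≠ 0 := by
        rw [← norm_pos_iff]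
        linarith
      have h1 : CLog K fun _ : ℂ => -z := cLog_const (neg_ne_zero.2 hz0)
      refine h1.of_close (by fun_prop) fun x hx => ?_
      have h2 : x - z - -z = x := by ring
      rw [h2, norm_neg]
      have := hK hx
      rw [mem_closedBall_zero_iff] at this
      linarith

theorem t_BOR : S_BOR := by
  intro K z hK h R
  rw [TBB.hasLog_iff] at h
  have h1 := (cLog_iff_unbounded hK h.1).1 h.2
  obtain ⟨w, hw, hR⟩ : ∃ w ∈ connectedComponentIn Kᶜ z, R < ‖w‖ := by
    by_contra hne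
    push Not at hne
    exact h1 (isBounded_iff_forall_norm_le.2 ⟨R, hne⟩)
  refine ⟨w, hR, ?_⟩
  have ho : IsOpen (connectedComponentIn Kᶜ z) := hK.isClosed.isOpen_compl.connectedComponentIn
  have hc : IsConnected (connectedComponentIn Kᶜ z) :=
    ⟨⟨w, hw⟩, isPreconnected_connectedComponentIn⟩
  have hp := ho.isConnected_iff_isPathConnected.1 hc
  exact (hp.joinedIn z (mem_connectedComponentIn h.1) w hw).mono (connectedComponentIn_subset _ _)

theorem t_ARC : S_ARC := by
  intro g z hg hi hz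
  rw [TBB.hasLog_iff]
  refine ⟨hz, ?_⟩
  refine CLog.image isCompact_Icc hg hi ?_
  refine cLog_convex isCompact_Icc (convex_Icc (-1) 1) (hg.sub continuousOn_const)
    fun t ht h0 => ?_
  exact hz ⟨t, ht, sub_eq_zero.1 h0⟩

theorem t_HTP : S_HTP := by
  intro E _ A G z hA hG h0
  have hc : ∀ t ∈ Icc (0 : ℝ) 1, ContinuousOn (fun x => G (x, t)) A := fun t ht =>
    hG.comp (by fun_prop) fun x hx => ⟨hx, ht⟩
  have i0 : (0 : ℝ) ∈ Icc (0 : ℝ) 1 := by simp
  have i1 : (1 : ℝ) ∈ Icc (0 : ℝ) 1 := by simp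
  have h1 := cLog_homotopy hA (H := fun q => G q - z) (hG.sub continuousOn_const)
    fun x hx t ht => sub_ne_zero.2 (h0 x hx t ht)
  constructor
  · intro h
    have h2 := TBB.cLog_of_logOn (hc 0 i0) (fun x hx => h0 x hx 0 i0) h
    refine TBB.logOn_of_cLog ((h1.mul h2).congr fun x hx => ?_)
    exact (div_mul_cancel₀ _ (sub_ne_zero.2 (h0 x hx 0 i0))).symm
  · intro h
    have h2 := TBB.cLog_of_logOn (hc 1 i1) (fun x hx => h0 x hx 1 i1) h
    refine TBB.logOn_of_cLog ((h2.div h1).congr fun x hx => ?_)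
    have h3 : G (x, 1) - z ≠ 0 := sub_ne_zero.2 (h0 x hx 1 i1)
    rw [div_div_cancel₀ h3]

theorem t_IMG : S_IMG := by
  intro E _ A g z hA hg hi hz
  rw [TBB.hasLog_iff]
  have h0 : ∀ x ∈ A, g x ≠ z := fun x hx h => hz ⟨x, hx, h⟩
  constructor
  · intro h
    exact ⟨hz, CLog.image hA hg hi (TBB.cLog_of_logOn hg h0 h)⟩
  · rintro ⟨_, h⟩
    exact TBB.logOn_of_cLog (h.comp hg (mapsTo_image g A))

theorem t_CIR : S_CIR := by
  intro z r hr h
  exact not_cLog_sphere z hr (TBB.hasLog_iff.1 h).2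

theorem t_EXT : S_EXT := by
  intro g z hg h0
  have hD : (Disk : Set ℂ) = closedBall 0 1 := by
    ext x
    rw [mem_closedBall_zero_iff]
    rfl
  have h1 : CLog Disk fun x => g x - z := by
    rw [hD]
    refine cLog_convex (isCompact_closedBall 0 1) (convex_closedBall 0 1) ?_ ?_
    · rw [← hD]
      exact hg.sub continuousOn_const
    · rw [← hD]
      exact fun x hx => sub_ne_zero.2 (h0 x hx)
  refine TBB.logOn_of_cLog (h1.mono ?_)
  rw [hD]
  exact sphere_subset_closedBall

end Pool.Agent.LIX
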