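import Pool.Agent.LIX.StmtsTB

/-!
# LIX, block TB: two points on both sides of a curve (HL5)
-/

namespace Pool.Agent.LIX

open Set Metric Complex Topology Filter ComplexConjugate

namespace TBHL5

/-- the function with the argument of the quotient -/
noncomputable def Q (a b : ℝ) (x : ℂ) : ℂ := (x - a * I) * conj (x - -(b * I))

theorem Q_re (a b : ℝ) (x : ℂ) : (Q a b x).re = x.re ^ 2 + (x.im - a) * (x.im + b) := by
  simp [Q]
  ring

theorem Q_im (a b : ℝ) (x : ℂ) : (Q a b x).im = -(x.re * (a + b)) := by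
  simp [Q]
  ring

theorem Q_cont (a b : ℝ) : Continuous (Q a b) := by
  unfold Q
  exact (continuous_id.sub continuous_const).mul
    (continuous_conj.comp (continuous_id.sub continuous_const))

theorem polar {x n s : ℂ} {φ ψ : ℝ} (h1 : x - n = ‖x - n‖ * exp (φ * I))
    (h2 : x - s = ‖x - s‖ * exp (ψ * I)) :
    (x - n) * conj (x - s) = ‖(x - n) * conj (x - s)‖ * exp ((φ - ψ : ℝ) * I) := by
  have h3 : conj (x - s) = ‖x - s‖ * exp (-(ψ * I)) := by
    conv_lhs => rw [h2]
    rw [map_mul, conj_ofReal, ← exp_conj, map_mul, conj_ofReal, conj_I]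
    congr 2
    ring
  have h4 : ‖(x - n) * conj (x - s)‖ = ‖x - n‖ * ‖x - s‖ := by
    rw [norm_mul, RCLike.norm_conj]
  rw [h4]
  push_cast
  calc (x - n) * conj (x - s)
      = (‖x - n‖ * exp (φ * I)) * (‖x - s‖ * exp (-(ψ * I))) := by rw [← h1, ← h3]
    _ = ‖x - n‖ * ‖x - s‖ * (exp (φ * I) * exp (-(ψ * I))) := by ring
    _ = _ := by
        rw [← exp_add]
        congr 2
        ring

end TBHL5

open TBHL5 in
theorem t_HL5 : M_HL5 := by
  intro hUNQ K a b m ha hb hK hpre hR hL
  rintro ⟨⟨hnK, φ, hφ, hφe⟩, ⟨hsK, ψ, hψ, hψe⟩⟩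
  -- the point m
  have hm : m ∈ K ∩ {z | z.re = 0 ∧ -b ≤ z.im ∧ z.im ≤ a} := by
    rw [hK]
    exact rfl
  obtain ⟨hmK, hm0, hmb, hma⟩ := hm
  have hma' : m.im < a := by
    rcases hma.lt_or_eq with h | h
    · exact h
    · exfalso
      have : m = a * I := by
        apply Complex.ext
        · simp [hm0]
        · simp [h]
      exact hnK (this ▸ hmK)
  have hmb' : -b < m.im := by
    rcases hmb.lt_or_eq with h | h
    · exact h
    · exfalso
      have : m = -(b * I) := by
        apply Complex.ext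
        · simp [hm0]
        · simp [← h]
      exact hsK (this ▸ hmK)
  have hab : 0 < a + b := by positivity
  have hQe : ∀ x ∈ K, Q a b x = ‖Q a b x‖ * exp ((φ x - ψ x : ℝ) * I) := fun x hx =>
    polar (hφe x hx) (hψe x hx)
  -- off m
  have hslit : ∀ x ∈ K \ {m}, Q a b x ∈ slitPlane := by
    rintro x ⟨hx, hxm⟩
    by_cases hre : x.re = 0
    · refine Or.inl ?_
      rw [Q_re, hre]
      have hseg : ¬ (-b ≤ x.im ∧ x.im ≤ a) := by
        intro h
        have : x ∈ K ∩ {z | z.re = 0 ∧ -b ≤ z.im ∧ z.im ≤ a} := ⟨hx, hre, h⟩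
        rw [hK] at this
        exact hxm this
      have h0 : (0 : ℝ) ^ 2 + (x.im - a) * (x.im + b) = (x.im - a) * (x.im + b) := by ring
      rw [h0]
      by_cases h1 : -b ≤ x.im
      · have h2 : a < x.im := by
          by_contra h3
          exact hseg ⟨h1, not_lt.1 h3⟩
        exact mul_pos (by linarith) (by linarith)
      · rw [not_le] at h1
        exact mul_pos_of_neg_of_neg (by linarith) (by linarith)
    · refine Or.inr ?_
      rw [Q_im]
      exact neg_ne_zero.2 (mul_ne_zero hre hab.ne')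
  obtain ⟨N, hN⟩ := hUNQ ℂ (K \ {m}) (fun x => φ x - ψ x) (fun x => arg (Q a b x)) hpre
    ((hφ.sub hψ).mono diff_subset) (fun x hx =>
      ((continuousAt_arg (hslit x hx)).comp (Q_cont a b).continuousAt).continuousWithinAt)
    (fun x hx => by
      have h1 := hQe x hx.1
      have h2 : Q a b x ≠ 0 := slitPlane_ne_zero (hslit x hx)
      have h3 : (‖Q a b x‖ : ℂ) ≠ 0 := by
        exact_mod_cast (norm_pos_iff.2 h2).ne'
      have h4 : (‖Q a b x‖ : ℂ) * exp (arg (Q a b x) * I) = Q a b x := norm_mul_exp_arg_mul_I _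
      rw [← mul_right_inj' h3, h4]
      exact h1.symm)
  -- at m
  have hQm : -Q a b m ∈ slitPlane := by
    refine Or.inl ?_
    rw [neg_re, Q_re, hm0]
    have : (m.im - a) * (m.im + b) < 0 := mul_neg_of_neg_of_pos (by linarith) (by linarith)
    nlinarith
  obtain ⟨E, hE⟩ : ∃ E : ℂ → ℝ, ∀ x, E x = φ x - ψ x - arg (-Q a b x) := ⟨_, fun _ => rfl⟩
  have hEc : ContinuousWithinAt E K m := by
    have h1 : ContinuousWithinAt (fun x => φ x - ψ x - arg (-Q a b x)) K m :=
      ((hφ m hmK).sub (hψ m hmK)).sub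
        (ContinuousAt.comp (f := fun x => -Q a b x) (continuousAt_arg hQm)
          (Q_cont a b).neg.continuousAt).continuousWithinAt
    exact h1.congr (fun x _ => hE x) (hE m)
  have hlim : ∀ (S : Set ℂ) (c : ℝ), m ∈ closure (K ∩ S) → (∀ x ∈ K ∩ S, E x = c) → E m = c := by
    intro S c hcl hc
    haveI : (𝓝[K ∩ S] m).NeBot := mem_closure_iff_nhdsWithin_neBot.1 hcl
    have h1 : Tendsto E (𝓝[K ∩ S] m) (𝓝 (E m)) :=
      (hEc.mono inter_subset_left).tendsto
    have h2 : Tendsto E (𝓝[K ∩ S] m) (𝓝 c) := by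
      refine tendsto_const_nhds.congr' ?_
      filter_upwards [self_mem_nhdsWithin] with x hx
      exact (hc x hx).symm
    exact tendsto_nhds_unique h1 h2
  have hne : ∀ x : ℂ, x.re ≠ 0 → x ∉ ({m} : Set ℂ) := by
    intro x hx h
    rw [mem_singleton_iff] at h
    exact hx (h ▸ hm0)
  have h1 : E m = 2 * Real.pi * N - Real.pi := by
    refine hlim _ _ hR ?_
    rintro x ⟨hx, hxp⟩
    have hxp' : 0 < x.re := hxp
    have h2 := hN x ⟨hx, hne x hxp'.ne'⟩
    have h3 : (Q a b x).im < 0 := by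
      rw [Q_im]
      have := mul_pos hxp' hab
      linarith
    have h4 := arg_neg_eq_arg_add_pi_of_im_neg h3
    have h2' : φ x - ψ x = arg (Q a b x) + 2 * Real.pi * N := h2
    rw [hE, h2', h4]
    ring
  have h2 : E m = 2 * Real.pi * N + Real.pi := by
    refine hlim _ _ hL ?_
    rintro x ⟨hx, hxp⟩
    have hxp' : x.re < 0 := hxp
    have h2 := hN x ⟨hx, hne x hxp'.ne⟩
    have h3 : 0 < (Q a b x).im := by
      rw [Q_im]
      have := mul_neg_of_neg_of_pos hxp' hab
      linarith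
    have h4 := arg_neg_eq_arg_sub_pi_of_im_pos h3
    have h2' : φ x - ψ x = arg (Q a b x) + 2 * Real.pi * N := h2
    rw [hE, h2', h4]
    ring
  linarith [Real.pi_pos]

end Pool.Agent.LIX
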