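import Pool.Agent.LIX.StmtsTB

/-!
# LIX, block TB: arcs and logarithms (HL6)
-/

namespace Pool.Agent.LIX

open Set Metric Complex

theorem t_HL6 : M_HL6 := by
  intro hHL1 hHL2 hBOR hARC g C r p q n s hr hg hi hA hC hCr hCs hn hnC hs hsC hJ
  obtain ⟨A, hAdef⟩ : ∃ A, A = g '' Icc (-1) 1 := ⟨_, rfl⟩
  rw [← hAdef] at hA ⊢
  have hAc : IsCompact A := by
    rw [hAdef]
    exact isCompact_Icc.image_of_continuousOn hg
  have hCc : IsCompact C := (isCompact_closedBall (0 : ℂ) r).of_isClosed_subset hC hCr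
  have hACc : IsCompact (A ∪ C) := hAc.union hCc
  have hsub : A ∩ closedBall 0 r ⊆ C := by
    rw [hA, ← hCs]
    exact inter_subset_left
  have hnA : n ∉ A := fun h => hnC (hsub ⟨h, ball_subset_closedBall hn⟩)
  have hlog : HasLog A n := by
    rw [hAdef]
    exact hARC g n hg hi (by rwa [← hAdef])
  obtain ⟨R, hR⟩ : ∃ R : ℝ, A ∪ C ⊆ closedBall 0 R := by
    obtain ⟨R, hR⟩ := hACc.isBounded.exists_norm_le
    exact ⟨R, fun x hx => mem_closedBall_zero_iff.2 (hR x hx)⟩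
  obtain ⟨w, hwR, hJw⟩ := hBOR A n hAc hlog (max R r)
  have hwR1 : R < ‖w‖ := lt_of_le_of_lt (le_max_left _ _) hwR
  have hwr : r < ‖w‖ := lt_of_le_of_lt (le_max_right _ _) hwR
  obtain ⟨γ, hγ⟩ := hJw
  -- last exit
  obtain ⟨T, hT⟩ : ∃ T : Set ℝ, T = {t | t ∈ Icc (0 : ℝ) 1 ∧ ‖γ.extend t‖ ≤ r} := ⟨_, rfl⟩
  have hγc : Continuous γ.extend := γ.continuous_extend
  have hTc : IsCompact T := by
    rw [hT]
    exact (isCompact_Icc (a := (0 : ℝ)) (b := 1)).inter_right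
      (isClosed_le hγc.norm continuous_const)
  have h0T : (0 : ℝ) ∈ T := by
    rw [hT]
    refine ⟨by simp, ?_⟩
    rw [γ.extend_zero]
    rw [mem_ball_zero_iff] at hn
    exact hn.le
  obtain ⟨t0, ht0, hmax⟩ := hTc.exists_isGreatest ⟨0, h0T⟩
  have ht0' := ht0
  rw [hT] at ht0'
  obtain ⟨⟨ht00, ht01⟩, ht0r⟩ := ht0'
  have ht1 : t0 < 1 := by
    rcases ht01.lt_or_eq with h | h
    · exact h
    · exfalso
      rw [h, γ.extend_one] at ht0r
      linarith
  have hout : ∀ t, t0 < t → t ≤ 1 → r < ‖γ.extend t‖ := by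
    intro t h1 h2
    by_contra hle
    rw [not_lt] at hle
    have : t ∈ T := by
      rw [hT]
      exact ⟨⟨ht00.trans h1.le, h2⟩, hle⟩
    exact absurd (hmax this) (not_le.2 h1)
  have heq : ‖γ.extend t0‖ = r := by
    refine le_antisymm ht0r ?_
    by_contra hlt
    rw [not_le] at hlt
    have h1 : ∀ᶠ t in nhds t0, ‖γ.extend t‖ < r :=
      (hγc.norm.tendsto t0).eventually (gt_mem_nhds hlt)
    have h2 : ∀ᶠ t in nhdsWithin t0 (Ioi t0), ‖γ.extend t‖ < r :=
      h1.filter_mono nhdsWithin_le_nhds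
    have h3 : ∀ᶠ t in nhdsWithin t0 (Ioi t0), t ∈ Ioo t0 1 := Ioo_mem_nhdsGT ht1
    obtain ⟨t, h4, h5⟩ := (h2.and h3).exists
    exact absurd h4 (not_lt.2 (hout t h5.1 h5.2.le).le)
  have hAγ : ∀ t, γ.extend t ∉ A := by
    intro t
    have : γ.extend t ∈ range γ := by
      rw [← γ.extend_range]
      exact mem_range_self t
    obtain ⟨u, hu⟩ := this
    rw [← hu]
    exact hγ u
  obtain ⟨e, he⟩ : ∃ e, e = γ.extend t0 := ⟨_, rfl⟩
  have heS : e ∈ sphere (0 : ℂ) r := by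
    rw [mem_sphere_zero_iff_norm, he]
    exact heq
  have hpA : p ∈ A := by
    have : p ∈ A ∩ closedBall 0 r := by
      rw [hA]
      exact Or.inl rfl
    exact this.1
  have hqA : q ∈ A := by
    have : q ∈ A ∩ closedBall 0 r := by
      rw [hA]
      exact Or.inr rfl
    exact this.1
  have hep : e ≠ p := fun h => hAγ t0 (by rw [← he, h]; exact hpA)
  have heq' : e ≠ q := fun h => hAγ t0 (by rw [← he, h]; exact hqA)
  have heC : e ∉ C := by
    intro h
    have : e ∈ C ∩ sphere 0 r := ⟨h, heS⟩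
    rw [hCs] at this
    rcases this with h1 | h1
    · exact hep h1
    · exact heq' h1
  -- the outer piece
  have hpiece : γ.extend '' Icc t0 1 ⊆ (A ∪ C)ᶜ := by
    rintro _ ⟨t, ht, rfl⟩ h
    rcases h with h | h
    · exact hAγ t h
    · rcases ht.1.eq_or_lt with h1 | h1
      · rw [← h1, ← he] at h
        exact heC h
      · have h2 := hCr h
        rw [mem_closedBall_zero_iff] at h2
        exact absurd h2 (not_le.2 (hout t h1 ht.2))
  have hpre : IsPreconnected (γ.extend '' Icc t0 1) :=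
    isPreconnected_Icc.image _ hγc.continuousOn
  have he1 : e ∈ γ.extend '' Icc t0 1 := ⟨t0, ⟨le_rfl, ht1.le⟩, he.symm⟩
  have hw1 : w ∈ γ.extend '' Icc t0 1 := ⟨1, ⟨ht1.le, le_rfl⟩, γ.extend_one⟩
  have hLw : HasLog (A ∪ C) w := hHL2 _ R w hR hwR1
  have hLe : HasLog (A ∪ C) e := (hHL1 _ _ e w hACc hpre hpiece he1 hw1).2 hLw
  have hball : closedBall 0 r \ C ⊆ (A ∪ C)ᶜ := by
    rintro x ⟨hx, hxC⟩ h
    rcases h with h | h
    · exact hxC (hsub ⟨h, hx⟩)
    · exact hxC h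
  have hfin : ∀ y, JoinedIn (closedBall 0 r \ C) y e → HasLog (A ∪ C) y := by
    rintro y ⟨δ, hδ⟩
    have h1 : IsPreconnected (range δ) := isPreconnected_range δ.continuous
    have h2 : range δ ⊆ (A ∪ C)ᶜ := by
      rintro _ ⟨t, rfl⟩
      exact hball (hδ t)
    exact (hHL1 _ _ y e hACc h1 h2 ⟨0, δ.source⟩ ⟨1, δ.target⟩).2 hLe
  rcases hJ e heS hep heq' with h | h
  · exact Or.inl (hfin n h)
  · exact Or.inr (hfin s h)

end Pool.Agent.LIX
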