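import Pool.Agent.LIX.StmtsTB

open Metric Set

namespace Pool.Agent.LIX

theorem t_J1 : M_J1 := by
  intro hF hRad Z c hZ hc hcZ hfar
  have hJc : IsCompact (c '' sphere (0 : ℂ) 1) := (isCompact_sphere (0 : ℂ) 1).image_of_continuousOn hc
  obtain ⟨R₀, hR₀⟩ := hJc.isBounded.subset_ball (0 : ℂ)
  set R : ℝ := max R₀ 1 with hRdef
  have hRpos : 0 < R := lt_of_lt_of_le one_pos (le_max_right _ _)
  have hJR : ∀ x ∈ sphere (0 : ℂ) 1, ‖c x‖ < R := by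
    intro x hx
    have h1 : c x ∈ ball (0 : ℂ) R₀ := hR₀ (mem_image_of_mem c hx)
    rw [mem_ball_zero_iff] at h1
    exact lt_of_lt_of_le h1 (le_max_left _ _)
  have hfin : (Z ∩ closedBall 0 (R + 1)).Finite := hZ (R + 1)
  have hfin2 : ((fun z : ℂ => ‖z‖) '' (Z ∩ closedBall 0 (R + 1))).Finite := hfin.image _
  have hlt : R < R + 1 := by linarith
  obtain ⟨R', hR', hnot⟩ := (Set.Ioo_infinite hlt).exists_notMem_finite hfin2
  have hR'1 : R < R' := hR'.1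
  have hR'2 : R' < R + 1 := hR'.2
  have hR'pos : 0 < R' := lt_trans hRpos hR'1
  have hZ' : (Z ∩ closedBall 0 R').Finite := hZ R'
  obtain ⟨G₀, hG₀c, hG₀s, hG₀d⟩ := hF (Z ∩ closedBall 0 R') c hZ' hc
    (fun x hx hmem => hcZ x hx hmem.1) (fun z hz => hfar z hz.1)
  obtain ⟨ρ, hρc, hρid, hρn⟩ := hRad R' hR'pos
  refine ⟨fun x => ρ (G₀ x), hρc.comp_continuousOn hG₀c, ?_, ?_⟩
  · intro x hx
    have h1 : ‖c x‖ ≤ R' := (lt_trans (hJR x hx) hR'1).le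
    show ρ (G₀ x) = c x
    rw [hG₀s x hx]
    exact hρid _ h1
  · intro x hx hmem
    have hmem' : ρ (G₀ x) ∈ Z := hmem
    rcases le_total ‖G₀ x‖ R' with h | h
    · rw [hρid _ h] at hmem'
      exact hG₀d x hx ⟨hmem', mem_closedBall_zero_iff.mpr h⟩
    · have h2 : ‖ρ (G₀ x)‖ = R' := hρn _ h
      refine hnot ⟨ρ (G₀ x), ⟨hmem', ?_⟩, h2⟩
      rw [mem_closedBall_zero_iff, h2]
      exact hR'2.le

end Pool.Agent.LIX
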