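import Pool.Agent.LIX.StmtsTB

/-!
# LIX, block TB: a continuous argument on a convex set (module TB_LIFT)
-/

namespace Pool.Agent.LIX

open Set Metric Complex

namespace TBLIFT

open scoped unitInterval

/-- the straight homotopy from the constant map to the identity of a convex set -/
theorem seg_mem {E : Type} [NormedAddCommGroup E] [NormedSpace ℝ E] {A : Set E}
    (hA : Convex ℝ A) {x0 : E} (h0 : x0 ∈ A) (p : I × A) :
    x0 + (p.1 : ℝ) • (p.2.1 - x0) ∈ A :=
  hA.add_smul_sub_mem h0 p.2.2 p.1.2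

theorem exists_lift {E : Type} [NormedAddCommGroup E] [NormedSpace ℝ E] (A : Set E) (g : E → ℂ)
    (hA : Convex ℝ A) (hg : ContinuousOn g A) (hne : ∀ x ∈ A, g x ≠ 0) {x0 : E} (h0 : x0 ∈ A) :
    ∃ ψ : A → ℂ, Continuous ψ ∧ ∀ x : A, exp (ψ x) = g x := by
  have hgc : Continuous (A.domRestrict g) := continuousOn_iff_continuous_domRestrict.1 hg
  let sg : I × A → A := fun p => ⟨x0 + (p.1 : ℝ) • (p.2.1 - x0), seg_mem hA h0 p⟩
  have hsg : Continuous sg := by
    apply Continuous.subtype_mk
    exact continuous_const.add ((continuous_subtype_val.comp continuous_fst).smul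
      ((continuous_subtype_val.comp continuous_snd).sub continuous_const))
  let H : C(I × A, {z : ℂ // z ≠ 0}) :=
    ⟨fun p => ⟨g (sg p).1, hne _ (sg p).2⟩, Continuous.subtype_mk (hgc.comp hsg) _⟩
  let f : C(A, ℂ) := ContinuousMap.const _ (log (g x0))
  have H0 : ∀ a, H (0, a) = (fun z : ℂ ↦ (⟨_, z.exp_ne_zero⟩ : {z : ℂ // z ≠ 0})) (f a) := by
    intro a
    apply Subtype.ext
    change g (x0 + ((0 : I) : ℝ) • (a.1 - x0)) = exp (log (g x0))
    rw [exp_log (hne x0 h0)]
    simp
  refine ⟨fun a => isCoveringMap_exp.liftHomotopy H f H0 (1, a), by fun_prop, fun a => ?_⟩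
  have h1 := congrFun (isCoveringMap_exp.liftHomotopy_lifts H f H0) (1, a)
  have h2 := congrArg Subtype.val h1
  change exp (isCoveringMap_exp.liftHomotopy H f H0 (1, a)) =
    g (x0 + ((1 : I) : ℝ) • (a.1 - x0)) at h2
  rw [h2]
  simp

end TBLIFT

open TBLIFT in
theorem t_LIFT : S_LIFT := by
  intro E _ _ A g hA hg hne
  rcases A.eq_empty_or_nonempty with rfl | ⟨x0, h0⟩
  · exact ⟨fun _ => 0, continuousOn_const, fun x hx => absurd hx (notMem_empty x)⟩
  · classical
    obtain ⟨ψ, hψ, hexp⟩ := exists_lift A g hA hg hne h0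
    refine ⟨fun x => if h : x ∈ A then (ψ ⟨x, h⟩).im else 0, ?_, ?_⟩
    · rw [continuousOn_iff_continuous_domRestrict]
      have h1 : A.domRestrict (fun x => if h : x ∈ A then (ψ ⟨x, h⟩).im else 0) =
          fun a : A => (ψ a).im := by
        funext a
        simp [Set.domRestrict]
      rw [h1]
      exact continuous_im.comp hψ
    · intro x hx
      simp only [hx, dif_pos]
      rw [← hexp ⟨x, hx⟩, norm_exp, ofReal_exp, ← Complex.exp_add, re_add_im]

end Pool.Agent.LIX
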