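import Pool.Agent.LIX.StmtsTB

/-!
# LIX, block TB: Poincaré - Miranda on a square
-/

namespace Pool.Agent.LIX

open Set Metric Complex

namespace TBMIR

/-- the map from the unit circle to the boundary of the square -/
noncomputable def sq (N : ℝ) (z : ℂ) : ℝ × ℝ :=
  (N / max |z.re| |z.im| * z.re, N / max |z.re| |z.im| * z.im)

theorem max_pos {z : ℂ} (hz : z ∈ sphere (0 : ℂ) 1) : 0 < max |z.re| |z.im| := by
  by_contra h
  have h0 : max |z.re| |z.im| ≤ 0 := not_lt.1 h
  have h1 : z.re = 0 := abs_nonpos_iff.1 ((le_max_left _ _).trans h0)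
  have h2 : z.im = 0 := abs_nonpos_iff.1 ((le_max_right _ _).trans h0)
  have h3 : z = 0 := Complex.ext h1 h2
  rw [mem_sphere_zero_iff_norm, h3, norm_zero] at hz
  exact zero_ne_one hz

theorem sq_cont (N : ℝ) : ContinuousOn (sq N) (sphere 0 1) := by
  have h1 : ContinuousOn (fun z : ℂ => max |z.re| |z.im|) (sphere 0 1) := by fun_prop
  have h2 : ContinuousOn (fun z : ℂ => N / max |z.re| |z.im|) (sphere 0 1) :=
    continuousOn_const.div h1 fun z hz => (max_pos hz).ne'
  exact (h2.mul continuous_re.continuousOn).prodMk (h2.mul continuous_im.continuousOn)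

theorem sq_mem {N : ℝ} (hN : 0 < N) {z : ℂ} (hz : z ∈ sphere (0 : ℂ) 1) :
    sq N z ∈ Icc (-N) N ×ˢ Icc (-N) N := by
  have hm := max_pos hz
  have key : ∀ a : ℝ, |a| ≤ max |z.re| |z.im| → N / max |z.re| |z.im| * a ∈ Icc (-N) N := by
    intro a ha
    have h1 : |N / max |z.re| |z.im| * a| ≤ N := by
      rw [abs_mul, abs_div, abs_of_pos hN, abs_of_pos hm, div_mul_eq_mul_div, div_le_iff₀ hm]
      exact mul_le_mul_of_nonneg_left ha hN.le
    exact abs_le.1 h1
  exact ⟨key _ (le_max_left _ _), key _ (le_max_right _ _)⟩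

end TBMIR

open TBMIR in
theorem t_MIR : S_MIR := by
  intro N f g hN hf hg hfs hgs
  by_contra hno
  push Not at hno
  set S : Set (ℝ × ℝ) := Icc (-N) N ×ˢ Icc (-N) N with hS
  have hSc : IsCompact S := isCompact_Icc.prod isCompact_Icc
  have hSx : Convex ℝ S := (convex_Icc _ _).prod (convex_Icc _ _)
  obtain ⟨F, hF⟩ : ∃ F : ℝ × ℝ → ℂ, ∀ p, F p = f p + g p * I := ⟨_, fun _ => rfl⟩
  have hFre : ∀ p, (F p).re = f p := fun p => by rw [hF]; simp
  have hFim : ∀ p, (F p).im = g p := fun p => by rw [hF]; simp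
  have hFc : ContinuousOn F S := by
    have h1 : ContinuousOn (fun p => (f p : ℂ) + g p * I) S :=
      (continuous_ofReal.comp_continuousOn hf).add
        ((continuous_ofReal.comp_continuousOn hg).mul continuousOn_const)
    exact h1.congr fun p _ => hF p
  have hF0 : ∀ p ∈ S, F p ≠ 0 := by
    intro p hp h0
    refine hno p hp ?_ ?_
    · rw [← hFre, h0, zero_re]
    · rw [← hFim, h0, zero_im]
  have hlog : CLog S F := cLog_convex hSc hSx hFc hF0
  have hlog2 : CLog (sphere (0 : ℂ) 1) fun z => F (sq N z) :=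
    hlog.comp (sq_cont N) fun z hz => sq_mem hN hz
  have hFs : ContinuousOn (fun z : ℂ => F (sq N z)) (sphere 0 1) :=
    hFc.comp (sq_cont N) fun z hz => sq_mem hN hz
  -- the homotopy
  have hH0 : ∀ z ∈ sphere (0 : ℂ) 1, ∀ t ∈ Icc (0 : ℝ) 1,
      (t : ℂ) * F (sq N z) + (1 - (t : ℂ)) * z ≠ 0 := by
    intro z hz t ht h0
    have hm := max_pos hz
    have hmem := sq_mem hN hz
    have hre : t * f (sq N z) + (1 - t) * z.re = 0 := by
      have h1 := congrArg re h0
      rw [add_re, re_ofReal_mul, hFre, zero_re] at h1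
      have h2 : (1 - (t : ℂ)) * z = ((1 - t : ℝ) : ℂ) * z := by push_cast; ring
      rwa [h2, re_ofReal_mul] at h1
    have him : t * g (sq N z) + (1 - t) * z.im = 0 := by
      have h1 := congrArg im h0
      rw [add_im, im_ofReal_mul, hFim, zero_im] at h1
      have h2 : (1 - (t : ℂ)) * z = ((1 - t : ℝ) : ℂ) * z := by push_cast; ring
      rwa [h2, im_ofReal_mul] at h1
    -- a convex combination of two positive numbers is positive
    have pos : ∀ a b : ℝ, 0 < a → 0 < b → t * a + (1 - t) * b ≠ 0 := by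
      intro a b ha hb
      have h1 : 0 < t * a + (1 - t) * b := by
        rcases eq_or_lt_of_le ht.1 with h | h
        · rw [← h]; linarith
        · have h2 : 0 < t * a := mul_pos h ha
          have h3 : 0 ≤ (1 - t) * b := mul_nonneg (by linarith [ht.2]) hb.le
          linarith
      exact h1.ne'
    have neg : ∀ a b : ℝ, a < 0 → b < 0 → t * a + (1 - t) * b ≠ 0 := by
      intro a b ha hb h
      refine pos (-a) (-b) (by linarith) (by linarith) ?_
      linarith
    rcases le_total |z.im| |z.re| with h | h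
    · have hmx : max |z.re| |z.im| = |z.re| := max_eq_left h
      rw [hmx] at hm
      rcases lt_or_ge z.re 0 with h1 | h1
      · have h2 : sq N z = (-N, (sq N z).2) := by
          refine Prod.ext ?_ rfl
          change N / max |z.re| |z.im| * z.re = -N
          rw [hmx, abs_of_neg h1]
          field_simp [h1.ne]
        refine neg _ _ ?_ h1 hre
        rw [h2]
        exact (hfs _ hmem.2).1
      · have h3 : 0 < z.re := by rwa [abs_of_nonneg h1] at hm
        have h2 : sq N z = (N, (sq N z).2) := by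
          refine Prod.ext ?_ rfl
          change N / max |z.re| |z.im| * z.re = N
          rw [hmx, abs_of_pos h3]
          field_simp
        refine pos _ _ ?_ h3 hre
        rw [h2]
        exact (hfs _ hmem.2).2
    · have hmx : max |z.re| |z.im| = |z.im| := max_eq_right h
      rw [hmx] at hm
      rcases lt_or_ge z.im 0 with h1 | h1
      · have h2 : sq N z = ((sq N z).1, -N) := by
          refine Prod.ext rfl ?_
          change N / max |z.re| |z.im| * z.im = -N
          rw [hmx, abs_of_neg h1]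
          field_simp [h1.ne]
        refine neg _ _ ?_ h1 him
        rw [h2]
        exact (hgs _ hmem.1).1
      · have h3 : 0 < z.im := by rwa [abs_of_nonneg h1] at hm
        have h2 : sq N z = ((sq N z).1, N) := by
          refine Prod.ext rfl ?_
          change N / max |z.re| |z.im| * z.im = N
          rw [hmx, abs_of_pos h3]
          field_simp
        refine pos _ _ ?_ h3 him
        rw [h2]
        exact (hgs _ hmem.1).2
  have hH : ContinuousOn (fun q : ℂ × ℝ => (q.2 : ℂ) * F (sq N q.1) + (1 - (q.2 : ℂ)) * q.1)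
      (sphere (0 : ℂ) 1 ×ˢ Icc (0 : ℝ) 1) := by
    have h1 : ContinuousOn (fun q : ℂ × ℝ => F (sq N q.1)) (sphere (0 : ℂ) 1 ×ˢ Icc (0 : ℝ) 1) :=
      hFs.comp continuous_fst.continuousOn fun q hq => hq.1
    have h2 : Continuous (fun q : ℂ × ℝ => (q.2 : ℂ)) := continuous_ofReal.comp continuous_snd
    have h3 : Continuous (fun q : ℂ × ℝ => (1 - (q.2 : ℂ)) * q.1) :=
      (continuous_const.sub h2).mul continuous_fst
    exact (h2.continuousOn.mul h1).add h3.continuousOn
  have h4 := cLog_homotopy (isCompact_sphere (0 : ℂ) 1) hH fun z hz t ht => hH0 z hz t ht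
  have h5 : CLog (sphere (0 : ℂ) 1) fun z => F (sq N z) / z := by
    refine h4.congr fun z _ => ?_
    simp
  refine not_cLog_sphere 0 one_pos ((hlog2.div h5).congr fun z hz => ?_)
  have h6 := hF0 _ (sq_mem hN hz)
  have h7 : z ≠ 0 := by
    rintro rfl
    simp at hz
  rw [sub_zero]
  field_simp

end Pool.Agent.LIX
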