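import Pool.Agent.LIX.StmtsTB

/-!
# LIX, block TB: uniqueness of arguments
-/

namespace Pool.Agent.LIX

open Set Metric Complex

namespace TBUNQ

/-- a preconnected set of reals that contains only integers has at most one point -/
theorem eq_of_int {S : Set ℝ} (hS : IsPreconnected S) (hZ : ∀ s ∈ S, ∃ n : ℤ, s = n) {a b : ℝ}
    (ha : a ∈ S) (hb : b ∈ S) : a = b := by
  wlog hab : a ≤ b generalizing a b
  · exact (this hb ha (le_of_not_ge hab)).symm
  by_contra hne
  obtain ⟨n, hn⟩ := hZ a ha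
  obtain ⟨m, hm⟩ := hZ b hb
  have hlt : a < b := lt_of_le_of_ne hab hne
  rw [hn, hm] at hlt
  have hnm : n + 1 ≤ m := by
    have : n < m := by exact_mod_cast hlt
    omega
  have hnm' : (n : ℝ) + 1 ≤ m := by exact_mod_cast hnm
  have hmid : a + 1 / 2 ∈ S := by
    refine hS.Icc_subset ha hb ⟨by linarith, ?_⟩
    rw [hn, hm]
    linarith
  obtain ⟨k, hk⟩ := hZ _ hmid
  rw [hn] at hk
  have h1 : (n : ℝ) < k := by linarith
  have h2 : (k : ℝ) < n + 1 := by linarith
  have h1' : n < k := by exact_mod_cast h1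
  have h2' : k < n + 1 := by exact_mod_cast h2
  omega

end TBUNQ

theorem t_UNQ : S_UNQ := by
  intro E _ A φ ψ hA hφ hψ h
  have hpi : (0 : ℝ) < 2 * Real.pi := by positivity
  have key : ∀ x ∈ A, ∃ n : ℤ, (φ x - ψ x) / (2 * Real.pi) = n := by
    intro x hx
    obtain ⟨n, hn⟩ := exp_eq_exp_iff_exists_int.1 (h x hx)
    refine ⟨n, ?_⟩
    have h1 := congrArg Complex.im hn
    simp at h1
    rw [h1]
    field_simp
    ring
  rcases A.eq_empty_or_nonempty with rfl | ⟨x0, hx0⟩
  · exact ⟨0, fun x hx => hx.elim⟩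
  obtain ⟨n, hn⟩ := key x0 hx0
  refine ⟨n, fun x hx => ?_⟩
  have hc : ContinuousOn (fun x => (φ x - ψ x) / (2 * Real.pi)) A := (hφ.sub hψ).div_const _
  have himg := hA.image _ hc
  have h2 := TBUNQ.eq_of_int himg (by
    rintro s ⟨y, hy, rfl⟩
    exact key y hy) (mem_image_of_mem _ hx) (mem_image_of_mem _ hx0)
  rw [hn, div_eq_iff hpi.ne'] at h2
  linarith

end Pool.Agent.LIX
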