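import Pool.Agent.LIX.StmtsTR

/-!
# LIX, module TR5: the disk complexes of a surface in two models are isomorphic
-/

set_option autoImplicit false

namespace Pool.Agent.LIX.TR

open Set Metric

namespace TR5

variable {Y Y' : Type} [TopologicalSpace Y] [TopologicalSpace Y'] {T : Cells Y} {T' : Cells Y'}
  {A : Set Y} {A' : Set Y'} {f : Y → Y'} {g : Y' → Y}

theorem ce_image (h2 : Stmt_TR2) (M : Model T T' A A' f g) {H' : Set Y'} (hs : H' ⊆ T'.body)
    (hd : Disjoint H' A') {D : Set Y'} (hD : IsCE T' H' D) :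
    IsCE T (g '' H') (g '' D) ∧ ∀ y ∈ D, y ∈ T'.body ∧ y ∉ A' := by
  obtain ⟨hc, he⟩ := h2 Y Y' T T' A A' f g M H' hs hd
  rcases hD with ⟨F, hF, rfl⟩ | ⟨F, hF, rfl⟩
  · obtain ⟨h3, h4⟩ := hc F hF
    refine ⟨Or.inl ⟨_, h3, image_image g F Disk⟩, ?_⟩
    rintro y ⟨z, hz, rfl⟩
    exact h4 z hz
  · obtain ⟨h3, h4⟩ := he F hF
    refine ⟨Or.inr ⟨_, h3, image_image g F HDisk⟩, ?_⟩
    rintro y ⟨z, hz, rfl⟩
    exact h4 z hz

theorem iso_image (h2 : Stmt_TR2) (M : Model T T' A A' f g) {H' : Set Y'} (hs : H' ⊆ T'.body)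
    (hd : Disjoint H' A') {D D' : Set Y'} (hD : Isotopic T' H' D D') :
    Isotopic T (g '' H') (g '' D) (g '' D') := by
  obtain ⟨hc, he⟩ := h2 Y Y' T T' A A' f g M H' hs hd
  rcases hD with ⟨F, hF, hp, rfl, rfl⟩ | ⟨F, hF, hp, rfl, rfl⟩
  · refine Or.inl ⟨fun p => g (F p), ?_, ?_, ?_, ?_⟩
    · refine M.contg.comp hF ?_
      rintro ⟨z, t⟩ ⟨hz, ht⟩
      exact (hc _ (hp t ht)).2 z hz
    · intro t ht
      exact (hc _ (hp t ht)).1
    · exact (image_image g (fun z => F (z, 0)) Disk).symm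
    · exact (image_image g (fun z => F (z, 1)) Disk).symm
  · refine Or.inr ⟨fun p => g (F p), ?_, ?_, ?_, ?_⟩
    · refine M.contg.comp hF ?_
      rintro ⟨z, t⟩ ⟨hz, ht⟩
      exact (he _ (hp t ht)).2 z hz
    · intro t ht
      exact (he _ (hp t ht)).1
    · exact (image_image g (fun z => F (z, 0)) HDisk).symm
    · exact (image_image g (fun z => F (z, 1)) HDisk).symm

theorem back_image (M : Model T T' A A' f g) {D : Set Y'}
    (hD : ∀ y ∈ D, y ∈ T'.body ∧ y ∉ A') : f '' (g '' D) = D := by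
  ext y
  constructor
  · rintro ⟨_, ⟨z, hz, rfl⟩, rfl⟩
    rw [(M.maps' z (hD z hz).1 (hD z hz).2).2.2]
    exact hz
  · intro hy
    exact ⟨g y, ⟨y, hy, rfl⟩, (M.maps' y (hD y hy).1 (hD y hy).2).2.2⟩

theorem cap_image (M : Model T T' A A' f g) {D D' : Set Y'}
    (hD : ∀ y ∈ D, y ∈ T'.body ∧ y ∉ A') (hD' : ∀ y ∈ D', y ∈ T'.body ∧ y ∉ A')
    (h : D ∩ D' ⊆ T'.skel) : g '' D ∩ g '' D' ⊆ T.skel := by
  rintro x ⟨⟨y, hy, rfl⟩, ⟨y', hy', hyy⟩⟩
  have h1 := M.maps' y (hD y hy).1 (hD y hy).2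
  have h2 := M.maps' y' (hD' y' hy').1 (hD' y' hy').2
  have h3 : y' = y := by rw [← h2.2.2, hyy, h1.2.2]
  subst h3
  have h4 := h ⟨hy, hy'⟩
  obtain ⟨i, hi⟩ := mem_iUnion.1 h4
  obtain ⟨j, hj⟩ := mem_iUnion.1 hi
  refine mem_iUnion.2 ⟨i, mem_iUnion.2 ⟨j, ?_⟩⟩
  rw [M.edge (g y') h1.1 h1.2.1 i j, h1.2.2]
  exact hj

end TR5

open TR5

theorem t_TR5 : Stmt_TRS → Stmt_TR2 → Stmt_TR5 := by
  intro hS h2 Y Y' _ _ T T' A A' f g M H' hs hd
  obtain ⟨M', hM'⟩ := hS Y Y' T T' A A' f g M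
  obtain ⟨hfg, hs', hd'⟩ := hM' H' hs hd
  have hin : ∀ {D : Set Y'}, IsCE T' H' D → ∀ y ∈ D, y ∈ T'.body ∧ y ∉ A' :=
    fun hD => (ce_image h2 M hs hd hD).2
  have hin' : ∀ {D : Set Y}, IsCE T (g '' H') D → ∀ y ∈ D, y ∈ T.body ∧ y ∉ A :=
    fun hD => (ce_image h2 M' hs' hd' hD).2
  have hce : ∀ {D : Set Y'}, IsCE T' H' D → IsCE T (g '' H') (g '' D) :=
    fun hD => (ce_image h2 M hs hd hD).1
  have hce' : ∀ {D : Set Y}, IsCE T (g '' H') D → IsCE T' H' (f '' D) := by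
    intro D hD
    have h := (ce_image h2 M' hs' hd' hD).1
    rw [hfg] at h
    exact h
  let E : CE T' H' ≃ CE T (g '' H') :=
    { toFun := fun D => ⟨g '' D.1, hce D.2⟩
      invFun := fun D => ⟨f '' D.1, hce' D.2⟩
      left_inv := fun D => Subtype.ext (back_image M (hin D.2))
      right_inv := fun D => Subtype.ext (back_image M' (hin' D.2)) }
  have hE : ∀ D D' : CE T' H', Isotopic T' H' D.1 D'.1 ↔
      Isotopic T (g '' H') (E D).1 (E D').1 := by
    intro D D'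
    constructor
    · intro h
      exact iso_image h2 M hs hd h
    · intro h
      have h3 := iso_image h2 M' hs' hd' h
      rw [hfg] at h3
      have h4 : f '' (E D).1 = D.1 := back_image M (hin D.2)
      have h5 : f '' (E D').1 = D'.1 := back_image M (hin D'.2)
      rw [h4, h5] at h3
      exact h3
  let e : Vtx T' H' ≃ Vtx T (g '' H') := Quot.congr E hE
  have he : ∀ D : CE T' H', e (cls D) = cls (E D) := fun D => rfl
  have he' : ∀ D : CE T (g '' H'), e.symm (cls D) = cls (E.symm D) := fun D => rfl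
  refine ⟨e, fun s => ?_⟩
  constructor
  · rintro ⟨hne, D, hD1, hD2⟩
    refine ⟨hne.map, fun v => E (D (e.symm v)), ?_, ?_⟩
    · intro v hv
      obtain ⟨w, hw, rfl⟩ := Finset.mem_map.1 hv
      change cls (E (D (e.symm (e w)))) = e w
      rw [e.symm_apply_apply, ← he, hD1 w hw]
    · intro v hv v' hv' hvv
      obtain ⟨w, hw, rfl⟩ := Finset.mem_map.1 hv
      obtain ⟨w', hw', rfl⟩ := Finset.mem_map.1 hv'
      change (E (D (e.symm (e w)))).1 ∩ (E (D (e.symm (e w')))).1 ⊆ T.skel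
      rw [e.symm_apply_apply, e.symm_apply_apply]
      exact cap_image M (hin (D w).2) (hin (D w').2)
        (hD2 w hw w' hw' fun h => hvv (by rw [h]))
  · rintro ⟨hne, D, hD1, hD2⟩
    refine ⟨Finset.map_nonempty.1 hne, fun v => E.symm (D (e v)), ?_, ?_⟩
    · intro v hv
      change cls (E.symm (D (e v))) = v
      rw [← he', hD1 (e v) (Finset.mem_map.2 ⟨v, hv, rfl⟩), e.symm_apply_apply]
    · intro v hv w hw hvw
      exact cap_image M' (hin' (D (e v)).2) (hin' (D (e w)).2)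
        (hD2 (e v) (Finset.mem_map.2 ⟨v, hv, rfl⟩) (e w) (Finset.mem_map.2 ⟨w, hw, rfl⟩)
          fun h => hvw (e.injective h))

end Pool.Agent.LIX.TR
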