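import Pool.Agent.LIX.StmtsTR

/-!
# LIX, block TR: index and well-definedness are the same (helper63)
-/

set_option autoImplicit false

namespace Pool.Agent.LIX.TR

open Set Metric

theorem t_TR8 : Stmt_TR5 → Pool.Agent.LIX.K.S_K7A → Pool.Agent.LIX.K.S_K7B → Stmt_TR8 := by
  intro h5 hA hB Y Y' _ _ T T' A A' f g hM H' hH' hdis
  obtain ⟨e, he⟩ := h5 Y Y' T T' A A' f g hM H' hH' hdis
  obtain ⟨ψ⟩ := hA _ _ (diskCpx T' H') (diskCpx T (g '' H')) e he
  have hE : IsEmpty (Vtx T' H') ↔ IsEmpty (Vtx T (g '' H')) := e.isEmpty_congr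
  have hN : Nonempty (Vtx T' H') ↔ Nonempty (Vtx T (g '' H')) := e.nonempty_congr
  have hC : ContractibleSpace (diskCpx T' H').Space ↔
      ContractibleSpace (diskCpx T (g '' H')).Space := ψ.contractibleSpace_iff
  have hP : ∀ m, PiNe m (diskCpx T' H').Space ↔ PiNe m (diskCpx T (g '' H')).Space := fun m =>
    ⟨hB _ _ m ψ, hB _ _ m ψ.symm⟩
  refine ⟨?_, fun n => ?_⟩
  · rw [WellDef, WellDef, hE, hC]
  · simp only [HasIndex, hE, hN, hP]

end Pool.Agent.LIX.TR
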