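import Pool.Agent.LIX.StmtsTR

/-!
# LIX, module TRS: symmetry of a model
-/

set_option autoImplicit false

namespace Pool.Agent.LIX.TR

open Set Metric

/-- the symmetric model -/
theorem TRS.symm {Y Y' : Type} [TopologicalSpace Y] [TopologicalSpace Y'] {T : Cells Y}
    {T' : Cells Y'} {A : Set Y} {A' : Set Y'} {f : Y → Y'} {g : Y' → Y}
    (h : Model T T' A A' f g) : Model T' T A' A g f where
  closed := h.closed'
  closed' := h.closed
  subs := h.subs'
  subs' := h.subs
  skb := h.skb'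
  skb' := h.skb
  maps := h.maps'
  maps' := h.maps
  contf := h.contg
  contg := h.contf
  bd := fun y hy hyA => by
    obtain ⟨h1, h2, h3⟩ := h.maps' y hy hyA
    have h4 := h.bd (g y) h1 h2
    rw [h3] at h4
    exact h4.symm
  edge := fun y hy hyA i j => by
    obtain ⟨h1, h2, h3⟩ := h.maps' y hy hyA
    have h4 := h.edge (g y) h1 h2 i j
    rw [h3] at h4
    exact h4.symm
  arc := h.arc'
  arc' := h.arc

theorem t_TRS : Stmt_TRS := by
  intro Y Y' _ _ T T' A A' f g h
  refine ⟨TRS.symm h, ?_⟩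
  intro H' hb hd
  have hA : ∀ y ∈ H', y ∉ A' := fun y hy hyA => Set.disjoint_left.1 hd hy hyA
  refine ⟨?_, ?_, ?_⟩
  · rw [Set.image_image]
    ext y
    constructor
    · rintro ⟨z, hz, rfl⟩
      have h3 := (h.maps' z (hb hz) (hA z hz)).2.2
      show f (g z) ∈ H'
      rw [h3]
      exact hz
    · intro hy
      exact ⟨y, hy, (h.maps' y (hb hy) (hA y hy)).2.2⟩
  · rintro _ ⟨y, hy, rfl⟩
    exact (h.maps' y (hb hy) (hA y hy)).1
  · rw [Set.disjoint_left]
    rintro _ ⟨y, hy, rfl⟩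
    exact (h.maps' y (hb hy) (hA y hy)).2.1

end Pool.Agent.LIX.TR
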