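import Pool.Agent.LIX.G4_ARC
import Pool.Agent.LIX.G4_ASM
import Pool.Agent.LIX.G4_BDY
import Pool.Agent.LIX.G4_CONE
import Pool.Agent.LIX.G4_GA
import Pool.Agent.LIX.G4_HLX
import Pool.Agent.LIX.G4_KAP
import Pool.Agent.LIX.G4_MF
import Pool.Agent.LIX.G4_MOD
import Pool.Agent.LIX.G4_MON
import Pool.Agent.LIX.G4_RHO
import Pool.Agent.LIX.G4_STE
import Pool.Agent.LIX.G4_STR
import Pool.Agent.LIX.G4_TET
import Pool.Agent.LIX.G4_TW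
import Pool.Agent.LIX.G_CELL
import Pool.Agent.LIX.G_CHI
import Pool.Agent.LIX.G_CON
import Pool.Agent.LIX.G_CRS
import Pool.Agent.LIX.G_GCH
import Pool.Agent.LIX.G_HTE
import Pool.Agent.LIX.G_INN
import Pool.Agent.LIX.G_LEN
import Pool.Agent.LIX.G_NEAR
import Pool.Agent.LIX.G_OUT
import Pool.Agent.LIX.G_PER
import Pool.Agent.LIX.G_POL
import Pool.Agent.LIX.G_PP
import Pool.Agent.LIX.G_QQ
import Pool.Agent.LIX.G_SURF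
import Pool.Agent.LIX.K_CON
import Pool.Agent.LIX.K_EXT
import Pool.Agent.LIX.K_K34
import Pool.Agent.LIX.K_K5
import Pool.Agent.LIX.K_K6
import Pool.Agent.LIX.K_K7A
import Pool.Agent.LIX.K_K7B
import Pool.Agent.LIX.K_LAB
import Pool.Agent.LIX.K_OCT
import Pool.Agent.LIX.K_PI
import Pool.Agent.LIX.L_ARCS
import Pool.Agent.LIX.L_CHD
import Pool.Agent.LIX.L_CM
import Pool.Agent.LIX.L_ED
import Pool.Agent.LIX.L_ED0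
import Pool.Agent.LIX.L_HOL
import Pool.Agent.LIX.L_HUL
import Pool.Agent.LIX.L_IC
import Pool.Agent.LIX.L_IE
import Pool.Agent.LIX.L_IL
import Pool.Agent.LIX.L_KDD
import Pool.Agent.LIX.L_KH5
import Pool.Agent.LIX.L_KH6
import Pool.Agent.LIX.L_KSU
import Pool.Agent.LIX.L_LBM
import Pool.Agent.LIX.L_LCU
import Pool.Agent.LIX.L_LFC
import Pool.Agent.LIX.L_N1
import Pool.Agent.LIX.L_N2
import Pool.Agent.LIX.L_NA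
import Pool.Agent.LIX.L_PER
import Pool.Agent.LIX.L_PRJ
import Pool.Agent.LIX.L_PTS
import Pool.Agent.LIX.L_RET
import Pool.Agent.LIX.L_TOR
import Pool.Agent.LIX.L_TYP
import Pool.Agent.LIX.L_WW
import Pool.Agent.LIX.L_YY
import Pool.Agent.LIX.O_ADM
import Pool.Agent.LIX.O_DL2
import Pool.Agent.LIX.O_DTY
import Pool.Agent.LIX.O_FAC
import Pool.Agent.LIX.O_HDD
import Pool.Agent.LIX.O_MAIN
import Pool.Agent.LIX.O_MPR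
import Pool.Agent.LIX.O_OAS
import Pool.Agent.LIX.O_OIN
import Pool.Agent.LIX.O_PSC
import Pool.Agent.LIX.O_SW1
import Pool.Agent.LIX.O_SW2
import Pool.Agent.LIX.O_TYG
import Pool.Agent.LIX.O_TYM
import Pool.Agent.LIX.O_TYX
import Pool.Agent.LIX.O_WMO
import Pool.Agent.LIX.O_XPR
import Pool.Agent.LIX.P_Final
import Pool.Agent.LIX.S_ASM
import Pool.Agent.LIX.S_CHE
import Pool.Agent.LIX.S_CHH
import Pool.Agent.LIX.S_DEC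
import Pool.Agent.LIX.S_DLC
import Pool.Agent.LIX.S_EPT
import Pool.Agent.LIX.S_GE
import Pool.Agent.LIX.S_HLX
import Pool.Agent.LIX.S_KIN
import Pool.Agent.LIX.S_KND
import Pool.Agent.LIX.S_L1
import Pool.Agent.LIX.S_L2
import Pool.Agent.LIX.S_LON
import Pool.Agent.LIX.S_LSK
import Pool.Agent.LIX.S_MF
import Pool.Agent.LIX.S_NML
import Pool.Agent.LIX.S_OPN
import Pool.Agent.LIX.S_ORD
import Pool.Agent.LIX.S_PE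
import Pool.Agent.LIX.S_QI
import Pool.Agent.LIX.S_SGN
import Pool.Agent.LIX.S_SLD
import Pool.Agent.LIX.S_SQ
import Pool.Agent.LIX.S_STD
import Pool.Agent.LIX.S_THE
import Pool.Agent.LIX.S_XI
import Pool.Agent.LIX.TBBasic
import Pool.Agent.LIX.TB_HL5
import Pool.Agent.LIX.TB_HL6
import Pool.Agent.LIX.TB_J1
import Pool.Agent.LIX.TB_J1F
import Pool.Agent.LIX.TB_LIFT
import Pool.Agent.LIX.TB_MIR
import Pool.Agent.LIX.TB_PM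
import Pool.Agent.LIX.TB_PU1
import Pool.Agent.LIX.TB_PUSH
import Pool.Agent.LIX.TB_RAD
import Pool.Agent.LIX.TB_UNQ
import Pool.Agent.LIX.TR_TR1
import Pool.Agent.LIX.TR_TR2
import Pool.Agent.LIX.TR_TR4
import Pool.Agent.LIX.TR_TR5
import Pool.Agent.LIX.TR_TR8
import Pool.Agent.LIX.TR_TRS

/-!
# LIX: the final assembly
-/

set_option autoImplicit false

namespace Pool.Agent.LIX

/-- the main theorem: two surfaces of the same topological type and length in the tetrahedron, both with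
well-defined local index, with different local indices -/
theorem main : Main := by
  have hK_LAB : Pool.Agent.LIX.K.S_LAB := Pool.Agent.LIX.K.t_LAB
  have hK_OCT : Pool.Agent.LIX.K.S_OCT := Pool.Agent.LIX.K.t_OCT
  have hK_EXT : Pool.Agent.LIX.K.S_EXT := Pool.Agent.LIX.K.t_EXT
  have hK_PI : Pool.Agent.LIX.K.S_PI := Pool.Agent.LIX.K.t_PI hK_EXT
  have hK_CON : Pool.Agent.LIX.K.S_CON := Pool.Agent.LIX.K.t_CON hK_EXT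
  have hK_K34 : Pool.Agent.LIX.K.S_K34 := Pool.Agent.LIX.K.t_K34 hK_LAB hK_OCT hK_PI hK_CON
  have hK_K6 : Pool.Agent.LIX.K.S_K6 := Pool.Agent.LIX.K.t_K6
  have hK_K5 : Pool.Agent.LIX.K.S_K5 := Pool.Agent.LIX.K.t_K5
  have hS_MF : Pool.Agent.LIX.S.S_MF := Pool.Agent.LIX.S.t_MF
  have hS_NML : Pool.Agent.LIX.S.S_NML := Pool.Agent.LIX.S.t_NML
  have hS_LON : Pool.Agent.LIX.S.S_LON := Pool.Agent.LIX.S.t_LON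
  have hS_CHH : Pool.Agent.LIX.S.S_CHH := Pool.Agent.LIX.S.t_CHH hS_MF hS_NML hS_LON
  have hS_HLX : Pool.Agent.LIX.S.S_HLX := Pool.Agent.LIX.S.t_HLX hS_MF hS_NML hS_CHH
  have hS_KND : Pool.Agent.LIX.S.S_KND := Pool.Agent.LIX.S.t_KND hS_HLX
  have hS_EPT : Pool.Agent.LIX.S.S_EPT := Pool.Agent.LIX.S.t_EPT hS_MF hS_NML hS_LON
  have hS_KIN : Pool.Agent.LIX.S.S_KIN := Pool.Agent.LIX.S.t_KIN hS_EPT hS_KND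
  have hS_DLC : Pool.Agent.LIX.S.S_DLC := Pool.Agent.LIX.S.t_DLC hS_MF hS_NML hS_LON
  have hS_CHE : Pool.Agent.LIX.S.S_CHE := Pool.Agent.LIX.S.t_CHE hS_CHH
  have hS_ORD : Pool.Agent.LIX.S.S_ORD := Pool.Agent.LIX.S.t_ORD hS_MF hS_LON
  have hS_XI : Pool.Agent.LIX.S.S_XI := (Pool.Agent.LIX.S.t_XI hS_ORD).1
  have hS_TRC : Pool.Agent.LIX.S.S_TRC := (Pool.Agent.LIX.S.t_XI hS_ORD).2
  have hS_QI : Pool.Agent.LIX.S.S_QI := Pool.Agent.LIX.S.t_QI hS_MF hS_NML hS_LON hS_DLC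
  have hS_LSK : Pool.Agent.LIX.S.S_LSK := (Pool.Agent.LIX.S.t_LSK hS_MF hS_NML hS_LON).1
  have hS_GE : Pool.Agent.LIX.S.S_GE := Pool.Agent.LIX.S.t_GE hS_MF hS_NML hS_DLC hS_CHE hS_LSK hS_QI
  have hS_PE : Pool.Agent.LIX.S.S_PE := Pool.Agent.LIX.S.t_PE
  have hS_L1 : Pool.Agent.LIX.S.S_L1 := Pool.Agent.LIX.S.t_L1 hS_QI hS_GE hS_PE
  have hS_L2 : Pool.Agent.LIX.S.S_L2 := Pool.Agent.LIX.S.t_L2 hS_DLC hS_CHE hS_XI hS_TRC hS_KND hS_KIN hS_L1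
  have hS_DEC : Pool.Agent.LIX.S.S_DEC := Pool.Agent.LIX.S.t_DEC
  have hS_OPN : Pool.Agent.LIX.S.S_OPN := Pool.Agent.LIX.S.t_OPN
  have hS_SGN : Pool.Agent.LIX.S.S_SGN := Pool.Agent.LIX.S.t_SGN hS_OPN hS_MF hS_NML hS_LON hS_DLC
  have hS_BET : Pool.Agent.LIX.S.S_BET := (Pool.Agent.LIX.S.t_LSK hS_MF hS_NML hS_LON).2
  have hS_STD : Pool.Agent.LIX.S.S_STD := Pool.Agent.LIX.S.t_STD hS_MF hS_NML hS_LON hS_DLC hS_CHE hS_LSK hS_BET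
  have hS_SQ : Pool.Agent.LIX.S.S_SQ := Pool.Agent.LIX.S.t_SQ hS_OPN hS_NML hS_DLC hS_STD
  have hS_THE : Pool.Agent.LIX.S.S_THE := Pool.Agent.LIX.S.t_THE hS_NML hS_CHE
  have hS_SLD : Pool.Agent.LIX.S.S_SLD := Pool.Agent.LIX.S.t_SLD hS_MF hS_NML hS_LON hS_DLC hS_CHE hS_KND hS_KIN hS_SGN hS_SQ hS_THE
  have hS_ASM : Pool.Agent.LIX.S.S_ASM := Pool.Agent.LIX.S.t_ASM hK_K5 hS_KND hS_KIN hS_L2 hS_DEC hS_SLD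
  have hL_KDD : Pool.Agent.LIX.L.S_KDD := Pool.Agent.LIX.L.t_KDD hS_EPT hS_KND hS_KIN
  have hB_LIFT : Pool.Agent.LIX.S_LIFT := Pool.Agent.LIX.t_LIFT
  have hB_UNQ : Pool.Agent.LIX.S_UNQ := Pool.Agent.LIX.t_UNQ
  have hL_TOR : Pool.Agent.LIX.L.S_TOR := Pool.Agent.LIX.L.t_TOR
  have hL_PRJ : Pool.Agent.LIX.L.S_PRJ := Pool.Agent.LIX.L.t_PRJ
  have hL_HOL : Pool.Agent.LIX.L.S_HOL := Pool.Agent.LIX.L.t_HOL hL_TOR hL_PRJ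
  have hL_CHD : Pool.Agent.LIX.L.S_CHD := Pool.Agent.LIX.L.t_CHD hS_MF hS_LON hS_DLC hL_PRJ
  have hL_LCU : Pool.Agent.LIX.L.S_LCU := Pool.Agent.LIX.L.t_LCU hL_TOR
  have hL_LFC : Pool.Agent.LIX.L.S_LFC := Pool.Agent.LIX.L.t_LFC hB_LIFT hL_TOR hL_PRJ
  have hL_ED0 : Pool.Agent.LIX.L.S_ED0 := Pool.Agent.LIX.L.t_ED0 hL_TOR hL_PRJ hL_HOL hL_CHD hL_LFC
  have hL_ED : Pool.Agent.LIX.L.S_ED := Pool.Agent.LIX.L.t_ED hB_LIFT hB_UNQ hL_TOR hL_PRJ hL_HOL hL_CHD hL_LCU hL_ED0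
  have hL_ARCS : Pool.Agent.LIX.L.S_ARCS := Pool.Agent.LIX.L.t_ARCS hL_CHD
  have hL_KSU : Pool.Agent.LIX.L.S_KSU := Pool.Agent.LIX.L.t_KSU hL_TOR hL_PRJ hL_HOL hL_CHD hL_ARCS hL_LCU
  have hB_HL5 : Pool.Agent.LIX.S_HL5 := Pool.Agent.LIX.t_HL5 hB_UNQ
  have hL_KH5 : Pool.Agent.LIX.L.S_KH5 := Pool.Agent.LIX.L.t_KH5 hB_HL5 hL_CHD hL_ED hL_KSU
  have hB_HL1 : Pool.Agent.LIX.S_HL1 := Pool.Agent.LIX.t_HL1
  have hB_HL2 : Pool.Agent.LIX.S_HL2 := Pool.Agent.LIX.t_HL2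
  have hB_BOR : Pool.Agent.LIX.S_BOR := Pool.Agent.LIX.t_BOR
  have hB_ARC : Pool.Agent.LIX.S_ARC := Pool.Agent.LIX.t_ARC
  have hB_HL6 : Pool.Agent.LIX.S_HL6 := Pool.Agent.LIX.t_HL6 hB_HL1 hB_HL2 hB_BOR hB_ARC
  have hL_KH6 : Pool.Agent.LIX.L.S_KH6 := Pool.Agent.LIX.L.t_KH6 hB_HL6 hL_TOR hL_CHD hL_ARCS hL_ED hL_KSU
  have hB_HTP : Pool.Agent.LIX.S_HTP := Pool.Agent.LIX.t_HTP
  have hL_IC : Pool.Agent.LIX.L.S_IC := Pool.Agent.LIX.L.t_IC hB_HTP hL_TOR hL_PRJ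
  have hL_IE : Pool.Agent.LIX.L.S_IE := Pool.Agent.LIX.L.t_IE hL_TOR hL_PRJ hL_HOL hL_LFC hL_LCU hL_ED
  have hB_IMG : Pool.Agent.LIX.S_IMG := Pool.Agent.LIX.t_IMG
  have hL_IL : Pool.Agent.LIX.L.S_IL := Pool.Agent.LIX.L.t_IL hB_HTP hB_IMG hL_TOR hL_PRJ hL_HOL hL_CHD hL_ARCS hL_ED hL_KSU hL_IE
  have hL_TYP : Pool.Agent.LIX.L.S_TYP := Pool.Agent.LIX.L.t_TYP hL_KDD hL_ED hL_KSU hL_KH5 hL_KH6 hL_IC hL_IE hL_IL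
  have hB_MIR : Pool.Agent.LIX.S_MIR := Pool.Agent.LIX.t_MIR
  have hB_PM : Pool.Agent.LIX.S_PM := Pool.Agent.LIX.t_PM hB_MIR
  have hL_CM : Pool.Agent.LIX.L.S_CM := Pool.Agent.LIX.L.t_CM hB_LIFT hB_UNQ hL_TOR hL_PRJ hL_HOL hL_LFC hL_LCU
  have hL_PER : Pool.Agent.LIX.L.S_PER := Pool.Agent.LIX.L.t_PER hL_TOR hL_CHD
  have hL_N1 : Pool.Agent.LIX.L.S_N1 := Pool.Agent.LIX.L.t_N1 hB_PM hL_TOR hL_PRJ hL_HOL hL_ED hL_CM hL_PER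
  have hB_PU1 : Pool.Agent.LIX.S_PU1 := Pool.Agent.LIX.t_PU1
  have hB_PUSH : Pool.Agent.LIX.S_PUSH := Pool.Agent.LIX.t_PUSH hB_PU1
  have hB_RAD : Pool.Agent.LIX.S_RAD := Pool.Agent.LIX.t_RAD
  have hB_J1F : Pool.Agent.LIX.S_J1F := Pool.Agent.LIX.t_J1F hB_PUSH hB_RAD
  have hB_J1 : Pool.Agent.LIX.S_J1 := Pool.Agent.LIX.t_J1 hB_J1F hB_RAD
  have hL_RET : Pool.Agent.LIX.L.S_RET := Pool.Agent.LIX.L.t_RET hL_TOR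
  have hL_N2 : Pool.Agent.LIX.L.S_N2 := Pool.Agent.LIX.L.t_N2 hB_J1 hL_TOR hL_PRJ hL_HOL hL_RET hL_CHD hL_ED
  have hL_PTS : Pool.Agent.LIX.L.S_PTS := Pool.Agent.LIX.L.t_PTS hS_MF
  have hL_WW : Pool.Agent.LIX.L.S_WW := Pool.Agent.LIX.L.t_WW hB_HL1 hB_HL2 hL_TOR hL_PRJ hL_HOL hL_CHD hL_ARCS hL_ED hL_KSU
  have hL_YY : Pool.Agent.LIX.L.S_YY := Pool.Agent.LIX.L.t_YY hL_PTS hL_KH6 hL_WW
  have hL_NA : Pool.Agent.LIX.L.S_NA := Pool.Agent.LIX.L.t_NA hL_N1 hL_N2 hL_YY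
  have hL_HUL : Pool.Agent.LIX.L.S_HUL := Pool.Agent.LIX.L.t_HUL
  have hL_LBM : Pool.Agent.LIX.L.S_LBM := Pool.Agent.LIX.L.t_LBM hL_TYP hL_NA hL_HUL
  have hB_CIR : Pool.Agent.LIX.S_CIR := Pool.Agent.LIX.t_CIR
  have hB_EXT : Pool.Agent.LIX.S_EXT := Pool.Agent.LIX.t_EXT
  have hO_MPR : Pool.Agent.LIX.O.S_MPR := Pool.Agent.LIX.O.t_MPR hB_CIR hB_EXT
  have hO_TYM : Pool.Agent.LIX.O.S_TYM := Pool.Agent.LIX.O.t_TYM hB_CIR hL_TOR hO_MPR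
  have hO_HDD : Pool.Agent.LIX.O.S_HDD := Pool.Agent.LIX.O.t_HDD
  have hO_WMO : Pool.Agent.LIX.O.S_WMO := Pool.Agent.LIX.O.t_WMO hO_HDD
  have hO_PSC : Pool.Agent.LIX.O.S_PSC := Pool.Agent.LIX.O.t_PSC
  have hO_DL2 : Pool.Agent.LIX.O.S_DL2 := Pool.Agent.LIX.O.t_DL2 hS_LON
  have hO_XPR : Pool.Agent.LIX.O.S_XPR := Pool.Agent.LIX.O.t_XPR hL_PRJ hS_CHE hS_LSK hO_WMO hO_PSC hO_DL2
  have hO_TYX : Pool.Agent.LIX.O.S_TYX := Pool.Agent.LIX.O.t_TYX hS_MF hS_NML hS_LON hL_TOR hL_KDD hO_WMO hO_PSC hO_DL2 hO_XPR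
  have hO_SW1 : Pool.Agent.LIX.O.S_SW1 := Pool.Agent.LIX.O.t_SW1
  have hO_SW2 : Pool.Agent.LIX.O.S_SW2 := Pool.Agent.LIX.O.t_SW2 hO_SW1
  have hO_TYG : Pool.Agent.LIX.O.S_TYG := Pool.Agent.LIX.O.t_TYG hB_HL1 hB_HL2 hS_DLC hS_QI hS_GE hL_PRJ hL_CHD hL_KH5
  have hO_ADM : Pool.Agent.LIX.O.S_ADM := Pool.Agent.LIX.O.t_ADM hS_DLC
  have hO_DTY : Pool.Agent.LIX.O.S_DTY := Pool.Agent.LIX.O.t_DTY hO_TYM hO_TYX hO_SW2 hO_TYG hO_ADM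
  have hO_OIN : Pool.Agent.LIX.O.S_OIN := Pool.Agent.LIX.O.t_OIN hS_CHE hS_XI hS_TRC hL_PRJ hO_SW1 hO_MPR hO_XPR hO_DL2 hO_ADM
  have hO_FAC : Pool.Agent.LIX.O.S_FAC := Pool.Agent.LIX.O.t_FAC
  have hG4_KAP : Pool.Agent.LIX.G4.S_KAP := Pool.Agent.LIX.G4.t_KAP
  have hG4_MON : Pool.Agent.LIX.G4.S_MON := Pool.Agent.LIX.G4.t_MON
  have hG4_RHO : Pool.Agent.LIX.G4.S_RHO := Pool.Agent.LIX.G4.t_RHO hG4_KAP hG4_MON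
  have hG4_STR : Pool.Agent.LIX.G4.S_STR := Pool.Agent.LIX.G4.t_STR hG4_KAP hG4_MON
  have hG4_STE : Pool.Agent.LIX.G4.S_STE := Pool.Agent.LIX.G4.t_STE
  have hG4_CONE : Pool.Agent.LIX.G4.S_CONE := Pool.Agent.LIX.G4.t_CONE
  have hG4_BDY : Pool.Agent.LIX.G4.S_BDY := Pool.Agent.LIX.G4.t_BDY hG4_KAP hG4_MON hG4_RHO hG4_STR hG4_STE hG4_CONE
  have hG4_TW : Pool.Agent.LIX.G4.S_TW := Pool.Agent.LIX.G4.t_TW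
  have hG4_MF : Pool.Agent.LIX.G4.S_MF := Pool.Agent.LIX.G4.t_MF
  have hG4_ARC4 : Pool.Agent.LIX.G4.S_ARC4 := Pool.Agent.LIX.G4.t_ARC4
  have hG4_HLX : Pool.Agent.LIX.G4.S_HLX := Pool.Agent.LIX.G4.t_HLX hG4_MF hG4_ARC4
  have hG4_GA : Pool.Agent.LIX.G4.S_GA := Pool.Agent.LIX.G4.t_GA
  have hG4_TET : Pool.Agent.LIX.G4.S_TET := Pool.Agent.LIX.G4.t_TET
  have hG4_G4 : Pool.Agent.LIX.G4.S_G4 := Pool.Agent.LIX.G4.t_G4 hG4_BDY hG4_CONE hG4_TW hG4_MF hG4_HLX hG4_GA hG4_TET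
  have hG4_MOD : Pool.Agent.LIX.G4.S_MOD := Pool.Agent.LIX.G4.t_MOD hG4_G4
  have hG_INN : Pool.Agent.LIX.G.S_INN := Pool.Agent.LIX.G.t_INN
  have hG_GCH : Pool.Agent.LIX.G.S_GCH := Pool.Agent.LIX.G.t_GCH
  have hG_PP : Pool.Agent.LIX.G.S_PP := Pool.Agent.LIX.G.t_PP
  have hG_OUT : Pool.Agent.LIX.G.S_OUT := Pool.Agent.LIX.G.t_OUT hG_GCH hG_PP
  have hG_NEAR : Pool.Agent.LIX.G.S_NEAR := Pool.Agent.LIX.G.t_NEAR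
  have hG_POL : Pool.Agent.LIX.G.S_POL := Pool.Agent.LIX.G.t_POL hG_GCH
  have hG_CRS : Pool.Agent.LIX.G.S_CRS := Pool.Agent.LIX.G.t_CRS hG_GCH hG_PP hG_NEAR hG_POL
  have hG_SURF : Pool.Agent.LIX.G.S_SURF := Pool.Agent.LIX.G.t_SURF hG_INN hG_OUT hG_CRS
  have hG_HTE : Pool.Agent.LIX.G.S_HTE := Pool.Agent.LIX.G.t_HTE
  have hG_QQ : Pool.Agent.LIX.G.S_QQ := Pool.Agent.LIX.G.t_QQ
  have hG_CON : Pool.Agent.LIX.G.S_CON := Pool.Agent.LIX.G.t_CON hG_HTE hG_QQ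
  have hG_CELL : Pool.Agent.LIX.G.S_CELL := Pool.Agent.LIX.G.t_CELL
  have hG_CHI : Pool.Agent.LIX.G.S_CHI := Pool.Agent.LIX.G.t_CHI hG_CELL hG_HTE hG_QQ
  have hG_LEN : Pool.Agent.LIX.G.S_LEN := Pool.Agent.LIX.G.t_LEN
  have hG_PER : Pool.Agent.LIX.G.S_PER := Pool.Agent.LIX.G.t_PER hB_LIFT hB_UNQ hB_EXT hB_CIR
  have hK_K7A : Pool.Agent.LIX.K.S_K7A := Pool.Agent.LIX.K.t_K7A
  have hK_K7B : Pool.Agent.LIX.K.S_K7B := Pool.Agent.LIX.K.t_K7B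
  have hO_G2 : Pool.Agent.LIX.O.S_G2 := ⟨hG_SURF, hG_CON, hG_CHI, hG_LEN⟩
  have hO_G3 : Pool.Agent.LIX.O.S_G3 := hG_PER
  have hO_OAS : Pool.Agent.LIX.O.S_OAS := Pool.Agent.LIX.O.t_OAS hK_K34 hK_K6 hS_ASM hL_LBM hO_G3 hO_DTY hO_OIN hO_FAC
  have h5 := TR.t_TR5 TR.t_TRS TR.t_TR2
  have h8 := TR.t_TR8 h5 hK_K7A hK_K7B
  exact O.t_MAIN PP.pfi TR.t_TR1 TR.t_TR4 h8 hG4_MOD hO_G2 hO_OAS

end Pool.Agent.LIX
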