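import Pool.Agent.LIX.StmtsG4

/-!
# LIX, block G4, module ARC: the straight edges of the sphere in polar coordinates
-/

set_option autoImplicit false

namespace Pool.Agent.LIX.G4

open Set Metric Complex

namespace ARC

/-- a point of the sphere on a ray -/
theorem eq_nml {v w : ℂ × ℝ} (hv : v ∈ Sph) {t : ℝ} (ht : 0 < t) (h : v = t • w) : v = nml w := by
  have h1 := mem_Sph.1 hv
  rw [h, nrm_smul_of_nonneg ht.le] at h1
  have h2 : t = (nrm w)⁻¹ := eq_inv_of_mul_eq_one_left h1
  rw [nml_eq, ← h2, h]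

theorem nml_ray {w : ℂ × ℝ} (hw : w ≠ 0) : ∃ t : ℝ, 0 < t ∧ nml w = t • w ∧ nml w ∈ Sph :=
  ⟨(nrm w)⁻¹, inv_pos.2 (nrm_pos hw), nml_eq w, by rw [nml_eq]; exact nrm_unit hw⟩

theorem pole {v : ℂ × ℝ} (hv : v ∈ Sph) (h : v.1 = 0) : v = (0, 1) ∨ v = (0, -1) := by
  have h1 : ‖v.1‖ ^ 2 + v.2 ^ 2 = 1 := hv
  rw [h, norm_zero] at h1
  have h2 : v.2 ^ 2 = 1 := by linarith
  have h4 : (v.2 - 1) * (v.2 + 1) = 0 := by linear_combination h2
  rcases mul_eq_zero.1 h4 with h3 | h3
  · exact Or.inl (Prod.ext h (sub_eq_zero.1 h3))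
  · exact Or.inr (Prod.ext h (eq_neg_of_add_eq_zero_left h3))

theorem reI (x y : ℝ) : ((x : ℂ) + (y : ℂ) * I).re = x := by simp

theorem imI (x y : ℝ) : ((x : ℂ) + (y : ℂ) * I).im = y := by simp

end ARC

open ARC

theorem t_ARC4 : S_ARC4 := by
  refine ⟨?_, ?_, ?_⟩
  · intro e δ he hδ
    have he2 : e * e = 1 := by rcases he with rfl | rfl <;> norm_num
    have hδ2 : δ * δ = 1 := by rcases hδ with rfl | rfl <;> norm_num
    ext v
    constructor
    · rintro ⟨t, ht, rfl⟩
      have hs : 0 ≤ Real.sin t := Real.sin_nonneg_of_mem_Icc ⟨ht.1, by linarith [ht.2, Real.pi_pos]⟩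
      have hc : 0 ≤ Real.cos t := Real.cos_nonneg_of_mem_Icc ⟨by linarith [ht.1, Real.pi_pos], ht.2⟩
      set w : ℂ × ℝ := (((e * Real.sin t : ℝ) : ℂ) + ((δ * Real.cos t : ℝ) : ℂ) * I, Real.sin t - Real.cos t) with hw
      have w1 : w.1.re = e * Real.sin t := reI _ _
      have w2 : w.1.im = δ * Real.cos t := imI _ _
      have w3 : w.2 = Real.sin t - Real.cos t := rfl
      have hw0 : w ≠ 0 := by
        intro h
        have a1 : e * Real.sin t = 0 := by rw [← w1, h]; rfl
        have a2 : δ * Real.cos t = 0 := by rw [← w2, h]; rfl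
        have a3 := Real.sin_sq_add_cos_sq t
        have a4 : Real.sin t = e * (e * Real.sin t) := by rw [← mul_assoc, he2, one_mul]
        have a5 : Real.cos t = δ * (δ * Real.cos t) := by rw [← mul_assoc, hδ2, one_mul]
        rw [a1, mul_zero] at a4
        rw [a2, mul_zero] at a5
        rw [a4, a5] at a3
        norm_num at a3
      obtain ⟨r, hr, h1, h2⟩ := nml_ray hw0
      change nml w ∈ _
      refine ⟨h2, ?_, ?_, ?_⟩
      · rw [h1, Prod.smul_fst, Complex.smul_re, smul_eq_mul, w1]
        have : e * (r * (e * Real.sin t)) = r * Real.sin t := by linear_combination r * Real.sin t * he2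
        rw [this]
        positivity
      · rw [h1, Prod.smul_fst, Complex.smul_im, smul_eq_mul, w2]
        have : δ * (r * (δ * Real.cos t)) = r * Real.cos t := by linear_combination r * Real.cos t * hδ2
        rw [this]
        positivity
      · rw [h1, Prod.smul_fst, Prod.smul_snd, Complex.smul_re, Complex.smul_im, smul_eq_mul, smul_eq_mul,
          smul_eq_mul, w1, w2, w3]
        linear_combination (-r * Real.sin t) * he2 + r * Real.cos t * hδ2
    · rintro ⟨hv, h1, h2, h3⟩
      have hn : v.1 ≠ 0 := by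
        intro h
        rw [h] at h3
        simp only [Complex.zero_re, Complex.zero_im, mul_zero, sub_zero] at h3
        exact ne_zero_of_Sph hv (Prod.ext h h3)
      have hpos : 0 < ‖v.1‖ := norm_pos_iff.2 hn
      have hsq : ‖v.1‖ ^ 2 = v.1.re ^ 2 + v.1.im ^ 2 := by
        rw [← Complex.normSq_eq_norm_sq, Complex.normSq_apply]
        ring
      set a : ℝ := e * v.1.re / ‖v.1‖ with ha
      have ha0 : 0 ≤ a := div_nonneg h1 hpos.le
      have hb0 : 0 ≤ δ * v.1.im / ‖v.1‖ := div_nonneg h2 hpos.le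
      have hab : a ^ 2 + (δ * v.1.im / ‖v.1‖) ^ 2 = 1 := by
        rw [ha, div_pow, div_pow, ← add_div, div_eq_one_iff_eq (by positivity), hsq]
        linear_combination (v.1.re ^ 2) * he2 + (v.1.im ^ 2) * hδ2
      have ha1 : a ≤ 1 := by nlinarith [sq_nonneg (δ * v.1.im / ‖v.1‖)]
      have hcos : Real.cos (Real.arcsin a) = δ * v.1.im / ‖v.1‖ := by
        rw [Real.cos_arcsin, ← hab, add_sub_cancel_left, Real.sqrt_sq hb0]
      have hsin : Real.sin (Real.arcsin a) = a := Real.sin_arcsin (by linarith) ha1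
      refine ⟨Real.arcsin a, ⟨Real.arcsin_nonneg.2 ha0, Real.arcsin_le_pi_div_two a⟩, ?_⟩
      symm
      apply eq_nml hv hpos
      have k1 : ‖v.1‖ * a = e * v.1.re := by rw [ha]; field_simp
      have k2 : ‖v.1‖ * (δ * v.1.im / ‖v.1‖) = δ * v.1.im := by field_simp
      refine Prod.ext (Complex.ext ?_ ?_) ?_
      · rw [Prod.smul_fst, Complex.smul_re, smul_eq_mul, hcos, hsin]
        have : (((e * a : ℝ) : ℂ) + ((δ * (δ * v.1.im / ‖v.1‖) : ℝ) : ℂ) * I).re = e * a := reI _ _
        rw [this]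
        linear_combination (-e) * k1 - v.1.re * he2
      · rw [Prod.smul_fst, Complex.smul_im, smul_eq_mul, hcos, hsin]
        have : (((e * a : ℝ) : ℂ) + ((δ * (δ * v.1.im / ‖v.1‖) : ℝ) : ℂ) * I).im =
          δ * (δ * v.1.im / ‖v.1‖) := imI _ _
        rw [this]
        linear_combination (-δ) * k2 - v.1.im * hδ2
      · rw [Prod.smul_snd, smul_eq_mul, hcos, hsin, h3]
        linear_combination (-1) * k1 + k2
  · intro b m hb hm
    ext v
    constructor
    · rintro ⟨hv, h1, h2⟩
      by_cases h0 : v.1 = 0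
      · rcases pole hv h0 with h | h
        · exact Or.inl (Or.inl h)
        · rw [h] at h2
          simp only [norm_zero, mul_zero] at h2
          norm_num at h2
      · have hpos : 0 < ‖v.1‖ := norm_pos_iff.2 h0
        have hm' : m ≤ v.2 / ‖v.1‖ := by rwa [le_div_iff₀ hpos]
        have h3 : ‖v.1‖ * (v.2 / ‖v.1‖) = v.2 := by field_simp
        rcases h1 with h1 | h1
        · refine Or.inl (Or.inr ⟨v.2 / ‖v.1‖, hm', ?_⟩)
          symm
          refine eq_nml hv hpos (Prod.ext ?_ ?_)
          · rw [Prod.smul_fst, Complex.real_smul]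
            exact h1
          · rw [Prod.smul_snd, smul_eq_mul]
            exact h3.symm
        · refine Or.inr ⟨v.2 / ‖v.1‖, hm', ?_⟩
          symm
          refine eq_nml hv hpos (Prod.ext ?_ ?_)
          · rw [Prod.smul_fst, Complex.real_smul, mul_neg, ← neg_mul]
            exact h1
          · rw [Prod.smul_snd, smul_eq_mul]
            exact h3.symm
    · have key : ∀ (c : ℂ) (s : ℝ), ‖c‖ = 1 → m ≤ s → nml (c, s) ∈ Sph ∧
          (nml (c, s)).1 = (‖(nml (c, s)).1‖ : ℂ) * c ∧ m * ‖(nml (c, s)).1‖ ≤ (nml (c, s)).2 := by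
        intro c s hc hs
        have hne : ((c, s) : ℂ × ℝ) ≠ 0 := by
          intro h
          have : c = 0 := congrArg Prod.fst h
          rw [this, norm_zero] at hc
          exact zero_ne_one hc
        obtain ⟨t, ht, e1, e2⟩ := nml_ray hne
        have e3 : (nml (c, s)).1 = (t : ℂ) * c := by
          rw [e1, Prod.smul_fst, Complex.real_smul]
        have e4 : ‖(nml (c, s)).1‖ = t := by
          rw [e3, norm_mul, hc, mul_one, Complex.norm_real, Real.norm_eq_abs, abs_of_pos ht]
        refine ⟨e2, ?_, ?_⟩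
        · rw [e4]
          exact e3
        · rw [e4, e1, Prod.smul_snd, smul_eq_mul, mul_comm]
          exact mul_le_mul_of_nonneg_left hs ht.le
      rintro ((h | ⟨s, hs, rfl⟩) | ⟨s, hs, rfl⟩)
      · rw [h]
        refine ⟨by simp [Sph], Or.inl (by simp), by simp⟩
      · obtain ⟨k1, k2, k3⟩ := key b s hb hs
        exact ⟨k1, Or.inl k2, k3⟩
      · obtain ⟨k1, k2, k3⟩ := key (-b) s (by rw [norm_neg, hb]) hs
        refine ⟨k1, Or.inr ?_, k3⟩
        rw [neg_mul, ← mul_neg]
        exact k2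
  · intro b m hb hm
    ext v
    constructor
    · rintro ⟨hv, h1, h2⟩
      by_cases h0 : v.1 = 0
      · rcases pole hv h0 with h | h
        · rw [h] at h2
          simp only [norm_zero, mul_zero] at h2
          norm_num at h2
        · exact Or.inl (Or.inl h)
      · have hpos : 0 < ‖v.1‖ := norm_pos_iff.2 h0
        have hm' : v.2 / ‖v.1‖ ≤ -m := by rwa [div_le_iff₀ hpos]
        have h3 : ‖v.1‖ * (v.2 / ‖v.1‖) = v.2 := by field_simp
        rcases h1 with h1 | h1
        · refine Or.inl (Or.inr ⟨v.2 / ‖v.1‖, hm', ?_⟩)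
          symm
          refine eq_nml hv hpos (Prod.ext ?_ ?_)
          · rw [Prod.smul_fst, Complex.real_smul]
            exact h1
          · rw [Prod.smul_snd, smul_eq_mul]
            exact h3.symm
        · refine Or.inr ⟨v.2 / ‖v.1‖, hm', ?_⟩
          symm
          refine eq_nml hv hpos (Prod.ext ?_ ?_)
          · rw [Prod.smul_fst, Complex.real_smul, mul_neg, ← neg_mul]
            exact h1
          · rw [Prod.smul_snd, smul_eq_mul]
            exact h3.symm
    · have key : ∀ (c : ℂ) (s : ℝ), ‖c‖ = 1 → s ≤ -m → nml (c, s) ∈ Sph ∧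
          (nml (c, s)).1 = (‖(nml (c, s)).1‖ : ℂ) * c ∧ (nml (c, s)).2 ≤ -m * ‖(nml (c, s)).1‖ := by
        intro c s hc hs
        have hne : ((c, s) : ℂ × ℝ) ≠ 0 := by
          intro h
          have : c = 0 := congrArg Prod.fst h
          rw [this, norm_zero] at hc
          exact zero_ne_one hc
        obtain ⟨t, ht, e1, e2⟩ := nml_ray hne
        have e3 : (nml (c, s)).1 = (t : ℂ) * c := by
          rw [e1, Prod.smul_fst, Complex.real_smul]
        have e4 : ‖(nml (c, s)).1‖ = t := by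
          rw [e3, norm_mul, hc, mul_one, Complex.norm_real, Real.norm_eq_abs, abs_of_pos ht]
        refine ⟨e2, ?_, ?_⟩
        · rw [e4]
          exact e3
        · rw [e4, e1, Prod.smul_snd, smul_eq_mul, mul_comm (-m) t]
          exact mul_le_mul_of_nonneg_left hs ht.le
      rintro ((h | ⟨s, hs, rfl⟩) | ⟨s, hs, rfl⟩)
      · rw [h]
        refine ⟨by simp [Sph], Or.inl (by simp), by simp⟩
      · obtain ⟨k1, k2, k3⟩ := key b s hb hs
        exact ⟨k1, Or.inl k2, k3⟩
      · obtain ⟨k1, k2, k3⟩ := key (-b) s (by rw [norm_neg, hb]) hs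
        refine ⟨k1, Or.inr ?_, k3⟩
        rw [neg_mul, ← mul_neg]
        exact k2

end Pool.Agent.LIX.G4
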