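import Pool.Agent.LIX.StmtsG4

/-!
# LIX, block G4, module TW: twist homeomorphisms of the sphere
-/

set_option autoImplicit false

namespace Pool.Agent.LIX.G4

open Set Metric Complex Filter Topology

noncomputable section

namespace TW

theorem ne_zero_of_norm {e : ℂ} {m : ℝ} (he : ‖e‖ = 1) : ((e, m) : ℂ × ℝ) ≠ 0 := by
  intro h
  have : e = 0 := congrArg Prod.fst h
  rw [this, norm_zero] at he
  exact zero_ne_one he

/-- a point of the sphere on a ray -/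
theorem eq_nml {v w : ℂ × ℝ} (hv : v ∈ Sph) {t : ℝ} (ht : 0 < t) (h : v = t • w) : v = nml w := by
  have h1 := mem_Sph.1 hv
  rw [h, nrm_smul_of_nonneg ht.le] at h1
  have h2 : t = (nrm w)⁻¹ := eq_inv_of_mul_eq_one_left h1
  rw [nml_eq, ← h2, h]

/-- direction and slope of `nml (e, m)` -/
theorem nml_coords {e : ℂ} {m : ℝ} (he : ‖e‖ = 1) : nml (e, m) ∈ Sph ∧ (nml (e, m)).1 ≠ 0 ∧
    (nml (e, m)).1 / (‖(nml (e, m)).1‖ : ℂ) = e ∧ (nml (e, m)).2 / ‖(nml (e, m)).1‖ = m := by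
  have hne := ne_zero_of_norm (m := m) he
  have ht : 0 < (nrm (e, m))⁻¹ := inv_pos.2 (nrm_pos hne)
  have h0 : nml (e, m) ∈ Sph := by
    rw [nml_eq]
    exact nrm_unit hne
  rw [nml_eq] at h0 ⊢
  set t := (nrm (e, m))⁻¹
  have h1 : (t • ((e, m) : ℂ × ℝ)).1 = (t : ℂ) * e := by rw [Prod.smul_fst, Complex.real_smul]
  have h2 : ‖(t • ((e, m) : ℂ × ℝ)).1‖ = t := by
    rw [h1, norm_mul, he, mul_one, Complex.norm_real, Real.norm_eq_abs, abs_of_pos ht]
  have htc : (t : ℂ) ≠ 0 := Complex.ofReal_ne_zero.2 ht.ne'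
  refine ⟨h0, ?_, ?_, ?_⟩
  · rw [← norm_pos_iff, h2]
    exact ht
  · rw [h2, h1]
    field_simp
  · rw [h2, Prod.smul_snd, smul_eq_mul]
    field_simp

theorem eq_nml_coords {v : ℂ × ℝ} (hv : v ∈ Sph) (h : v.1 ≠ 0) :
    v = nml (v.1 / (‖v.1‖ : ℂ), v.2 / ‖v.1‖) := by
  have hp : 0 < ‖v.1‖ := norm_pos_iff.2 h
  have hpc : (‖v.1‖ : ℂ) ≠ 0 := Complex.ofReal_ne_zero.2 hp.ne'
  refine eq_nml hv hp (Prod.ext ?_ ?_)
  · rw [Prod.smul_fst, Complex.real_smul]
    field_simp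
  · rw [Prod.smul_snd, smul_eq_mul]
    field_simp

theorem norm_dir {v : ℂ × ℝ} (h : v.1 ≠ 0) : ‖v.1 / (‖v.1‖ : ℂ)‖ = 1 := by
  rw [norm_div, Complex.norm_real, norm_norm, div_self (norm_ne_zero_iff.2 h)]

/-- the twist -/
def Tf (σ α : ℝ → ℝ) (v : ℂ × ℝ) : ℂ × ℝ :=
  if v.1 = 0 then v else
    nml (v.1 / (‖v.1‖ : ℂ) * exp ((α (v.2 / ‖v.1‖) : ℂ) * I), σ (v.2 / ‖v.1‖))

variable {σ α : ℝ → ℝ}

theorem Tf_zero {v : ℂ × ℝ} (h : v.1 = 0) : Tf σ α v = v := if_pos h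

theorem Tf_ne {v : ℂ × ℝ} (h : v.1 ≠ 0) : Tf σ α v =
    nml (v.1 / (‖v.1‖ : ℂ) * exp ((α (v.2 / ‖v.1‖) : ℂ) * I), σ (v.2 / ‖v.1‖)) := if_neg h

theorem norm_dir_exp {e : ℂ} (he : ‖e‖ = 1) (x : ℝ) : ‖e * exp ((x : ℂ) * I)‖ = 1 := by
  rw [norm_mul, he, Complex.norm_exp_ofReal_mul_I, mul_one]

theorem Tf_nml {e : ℂ} {m : ℝ} (he : ‖e‖ = 1) :
    Tf σ α (nml (e, m)) = nml (e * exp ((α m : ℂ) * I), σ m) := by
  obtain ⟨-, h1, h2, h3⟩ := nml_coords (m := m) he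
  rw [Tf_ne h1, h2, h3]

theorem Tf_mem {v : ℂ × ℝ} (hv : v ∈ Sph) : Tf σ α v ∈ Sph := by
  by_cases h : v.1 = 0
  · rw [Tf_zero h]
    exact hv
  · rw [Tf_ne h]
    exact (nml_coords (norm_dir_exp (norm_dir h) _)).1

/-- second coordinate -/
theorem snd_nml {e : ℂ} {s : ℝ} (he : ‖e‖ = 1) : (nml (e, s)).2 = s / √(1 + s ^ 2) := by
  have : nrm (e, s) = √(1 + s ^ 2) := by
    unfold nrm
    simp only [he, one_pow]
  rw [← this]
  rfl

theorem big {c s : ℝ} (hc : c < 1) (hs : 1 / (1 - c) ≤ s) : c < s / √(1 + s ^ 2) := by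
  have h1 : 0 < 1 - c := by linarith
  have h2 : 0 < 1 / (1 - c) := by positivity
  have hs0 : 0 < s := by linarith
  have h3 : √(1 + s ^ 2) ≤ 1 + s := by
    rw [Real.sqrt_le_left (by linarith)]
    nlinarith
  have h4 : 0 < √(1 + s ^ 2) := Real.sqrt_pos.2 (by positivity)
  have h5 : s / (1 + s) ≤ s / √(1 + s ^ 2) := div_le_div_of_nonneg_left hs0.le h4 h3
  refine lt_of_lt_of_le ?_ h5
  rw [lt_div_iff₀ (by linarith)]
  have h6 : 1 ≤ s * (1 - c) := by rwa [div_le_iff₀ h1] at hs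
  nlinarith

theorem abs_snd_le {v : ℂ × ℝ} (hv : v ∈ Sph) : |v.2| ≤ 1 := by
  have h1 : ‖v.1‖ ^ 2 + v.2 ^ 2 = 1 := hv
  rw [abs_le_one_iff_mul_self_le_one]
  nlinarith [sq_nonneg ‖v.1‖]

theorem snd_zero {v : ℂ × ℝ} (hv : v ∈ Sph) (h : v.1 = 0) : |v.2| = 1 := by
  have h1 : ‖v.1‖ ^ 2 + v.2 ^ 2 = 1 := hv
  rw [h, norm_zero] at h1
  have h2 : |v.2| ^ 2 = 1 := by rw [sq_abs]; linarith
  exact (pow_eq_one_iff_of_nonneg (abs_nonneg _) two_ne_zero).1 h2

/-- a map into the sphere with second coordinate tending to `δ = ± 1` tends to the pole -/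
theorem tendsto_pole {F : Filter (ℂ × ℝ)} {g : ℂ × ℝ → ℂ × ℝ} {δ : ℝ} (hδ : δ ^ 2 = 1)
    (hg : ∀ᶠ v in F, g v ∈ Sph) (h : Tendsto (fun v => (g v).2) F (𝓝 δ)) :
    Tendsto g F (𝓝 (0, δ)) := by
  rw [nhds_prod_eq, Filter.tendsto_prod_iff']
  refine ⟨?_, h⟩
  rw [tendsto_zero_iff_norm_tendsto_zero]
  have h1 : Tendsto (fun v => √(1 - (g v).2 ^ 2)) F (𝓝 √(1 - δ ^ 2)) :=
    ((h.pow 2).const_sub 1).sqrt
  rw [hδ, sub_self, Real.sqrt_zero] at h1
  refine h1.congr' ?_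
  filter_upwards [hg] with v hv
  have h2 : ‖(g v).1‖ ^ 2 + (g v).2 ^ 2 = 1 := hv
  have h3 : 1 - (g v).2 ^ 2 = ‖(g v).1‖ ^ 2 := by linarith
  rw [h3, Real.sqrt_sq (norm_nonneg _)]

theorem cont_nml : ContinuousOn nml {w : ℂ × ℝ | w ≠ 0} := by
  have e : nml = fun w => (nrm w)⁻¹ • w := funext nml_eq
  rw [e]
  exact (cont_nrm.continuousOn.inv₀ fun v hv => (nrm_pos hv).ne').smul continuousOn_id

theorem cont_off (hσ : Continuous σ) (hα : Continuous α) :
    ContinuousOn (Tf σ α) {v | v.1 ≠ 0} := by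
  have h1 : ContinuousOn (fun v : ℂ × ℝ => v.2 / ‖v.1‖) {v | v.1 ≠ 0} :=
    continuousOn_snd.div continuousOn_fst.norm fun v hv => norm_ne_zero_iff.2 hv
  have h2 : ContinuousOn (fun v : ℂ × ℝ => v.1 / (‖v.1‖ : ℂ)) {v | v.1 ≠ 0} :=
    continuousOn_fst.div (Complex.continuous_ofReal.comp_continuousOn continuousOn_fst.norm)
      fun v hv => Complex.ofReal_ne_zero.2 (norm_ne_zero_iff.2 hv)
  have h3 : ContinuousOn (fun v : ℂ × ℝ => exp ((α (v.2 / ‖v.1‖) : ℂ) * I)) {v | v.1 ≠ 0} :=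
    Complex.continuous_exp.comp_continuousOn
      ((Complex.continuous_ofReal.comp_continuousOn (hα.comp_continuousOn h1)).mul continuousOn_const)
  have h4 : ContinuousOn (fun v : ℂ × ℝ => ((v.1 / (‖v.1‖ : ℂ) * exp ((α (v.2 / ‖v.1‖) : ℂ) * I),
      σ (v.2 / ‖v.1‖)) : ℂ × ℝ)) {v | v.1 ≠ 0} := (h2.mul h3).prodMk (hσ.comp_continuousOn h1)
  refine (cont_nml.comp h4 fun v hv => ne_zero_of_norm (norm_dir_exp (norm_dir hv) _)).congr ?_
  intro v hv
  exact Tf_ne hv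

theorem cont_north (hm : StrictMono σ) (hs : Function.Surjective σ) :
    ContinuousWithinAt (Tf σ α) Sph (0, 1) := by
  have hT : Tf σ α (0, 1) = (0, 1) := Tf_zero rfl
  unfold ContinuousWithinAt
  rw [hT]
  refine tendsto_pole (by norm_num) (eventually_mem_nhdsWithin.mono fun v hv => Tf_mem hv) ?_
  refine tendsto_order.2 ⟨fun c hc => ?_, fun c hc => ?_⟩
  · obtain ⟨m0, hm0⟩ := hs (1 / (1 - c))
    have hO1 : {v : ℂ × ℝ | m0 * ‖v.1‖ < v.2} ∈ 𝓝 ((0, 1) : ℂ × ℝ) := by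
      refine (isOpen_lt (by fun_prop) (by fun_prop)).mem_nhds ?_
      simp
    have hO2 : {v : ℂ × ℝ | 0 < v.2} ∈ 𝓝 ((0, 1) : ℂ × ℝ) := by
      refine (isOpen_lt (by fun_prop) (by fun_prop)).mem_nhds ?_
      simp
    filter_upwards [mem_nhdsWithin_of_mem_nhds hO1, mem_nhdsWithin_of_mem_nhds hO2,
      self_mem_nhdsWithin] with v h1 h2 h3
    by_cases h0 : v.1 = 0
    · rw [Tf_zero h0]
      have h4 := snd_zero h3 h0
      have h2' : 0 < v.2 := h2
      rw [abs_of_pos h2'] at h4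
      rw [h4]
      exact hc
    · rw [Tf_ne h0, snd_nml (norm_dir_exp (norm_dir h0) _)]
      apply big hc
      rw [← hm0]
      apply hm.monotone
      have hp : 0 < ‖v.1‖ := norm_pos_iff.2 h0
      rw [le_div_iff₀ hp]
      exact le_of_lt h1
  · filter_upwards [self_mem_nhdsWithin] with v h3
    exact lt_of_le_of_lt ((le_abs_self _).trans (abs_snd_le (Tf_mem h3))) hc

theorem cont_south (hm : StrictMono σ) (hs : Function.Surjective σ) :
    ContinuousWithinAt (Tf σ α) Sph (0, -1) := by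
  have hT : Tf σ α (0, -1) = (0, -1) := Tf_zero rfl
  unfold ContinuousWithinAt
  rw [hT]
  refine tendsto_pole (by norm_num) (eventually_mem_nhdsWithin.mono fun v hv => Tf_mem hv) ?_
  refine tendsto_order.2 ⟨fun c hc => ?_, fun c hc => ?_⟩
  · filter_upwards [self_mem_nhdsWithin] with v h3
    have h4 := (abs_le.1 (abs_snd_le (Tf_mem (σ := σ) (α := α) h3))).1
    exact lt_of_lt_of_le hc h4
  · have hc' : -c < 1 := by linarith
    obtain ⟨m0, hm0⟩ := hs (-(1 / (1 - -c)))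
    have hO1 : {v : ℂ × ℝ | v.2 < m0 * ‖v.1‖} ∈ 𝓝 ((0, -1) : ℂ × ℝ) := by
      refine (isOpen_lt (by fun_prop) (by fun_prop)).mem_nhds ?_
      simp
    have hO2 : {v : ℂ × ℝ | v.2 < 0} ∈ 𝓝 ((0, -1) : ℂ × ℝ) := by
      refine (isOpen_lt (by fun_prop) (by fun_prop)).mem_nhds ?_
      simp
    filter_upwards [mem_nhdsWithin_of_mem_nhds hO1, mem_nhdsWithin_of_mem_nhds hO2,
      self_mem_nhdsWithin] with v h1 h2 h3
    by_cases h0 : v.1 = 0
    · rw [Tf_zero h0]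
      have h4 := snd_zero h3 h0
      have h2' : v.2 < 0 := h2
      rw [abs_of_neg h2'] at h4
      have : v.2 = -1 := by linarith
      rw [this]
      exact hc
    · rw [Tf_ne h0, snd_nml (norm_dir_exp (norm_dir h0) _)]
      have hp : 0 < ‖v.1‖ := norm_pos_iff.2 h0
      have h5 : v.2 / ‖v.1‖ ≤ m0 := by
        rw [div_le_iff₀ hp]
        exact le_of_lt h1
      have h6 := hm.monotone h5
      rw [hm0] at h6
      have h7 := big (s := -σ (v.2 / ‖v.1‖)) hc' (by linarith)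
      rw [neg_sq, neg_div] at h7
      linarith

/-- the twist is a homeomorphism of the sphere -/
theorem hm_Tf (hσ : Continuous σ) (hα : Continuous α) (hm : StrictMono σ)
    (hs : Function.Surjective σ) : Hm Sph Sph (Tf σ α) := by
  refine ⟨cpt_Sph, ?_, ?_, ?_⟩
  · intro v hv
    by_cases h : v.1 = 0
    · have h1 := snd_zero hv h
      rcases abs_cases v.2 with ⟨h2, _⟩ | ⟨h2, _⟩
      · have : v = (0, 1) := Prod.ext h (by rw [← h2, h1])
        rw [this]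
        exact cont_north hm hs
      · have : v = (0, -1) := Prod.ext h (by
          change v.2 = -1
          linarith)
        rw [this]
        exact cont_south hm hs
    · exact ((cont_off hσ hα).continuousAt
        ((isOpen_ne_fun continuous_fst continuous_const).mem_nhds h)).continuousWithinAt
  · intro v hv w hw e
    by_cases h : v.1 = 0
    · by_cases h' : w.1 = 0
      · rwa [Tf_zero h, Tf_zero h'] at e
      · exfalso
        rw [Tf_zero h, Tf_ne h'] at e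
        apply (nml_coords (norm_dir_exp (norm_dir h') (α (w.2 / ‖w.1‖)))
          (m := σ (w.2 / ‖w.1‖))).2.1
        rw [← e]
        exact h
    · by_cases h' : w.1 = 0
      · exfalso
        rw [Tf_zero h', Tf_ne h] at e
        apply (nml_coords (norm_dir_exp (norm_dir h) (α (v.2 / ‖v.1‖)))
          (m := σ (v.2 / ‖v.1‖))).2.1
        rw [e]
        exact h'
      · rw [Tf_ne h, Tf_ne h'] at e
        obtain ⟨-, -, a1, a2⟩ := nml_coords (norm_dir_exp (norm_dir h) (α (v.2 / ‖v.1‖)))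
          (m := σ (v.2 / ‖v.1‖))
        obtain ⟨-, -, b1, b2⟩ := nml_coords (norm_dir_exp (norm_dir h') (α (w.2 / ‖w.1‖)))
          (m := σ (w.2 / ‖w.1‖))
        rw [e, b2] at a2
        have h3 := hm.injective a2
        rw [e, b1, h3] at a1
        have h4 := mul_right_cancel₀ (Complex.exp_ne_zero _) a1
        rw [eq_nml_coords hv h, eq_nml_coords hw h', ← h4, h3]
  · ext w
    constructor
    · rintro ⟨v, hv, rfl⟩
      exact Tf_mem hv
    · intro hw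
      by_cases h : w.1 = 0
      · exact ⟨w, hw, Tf_zero h⟩
      · obtain ⟨m, hm'⟩ := hs (w.2 / ‖w.1‖)
        have hd := norm_dir h
        have hd' : ‖w.1 / (‖w.1‖ : ℂ) * exp (((-α m : ℝ) : ℂ) * I)‖ = 1 := norm_dir_exp hd _
        refine ⟨nml (w.1 / (‖w.1‖ : ℂ) * exp (((-α m : ℝ) : ℂ) * I), m), (nml_coords hd').1, ?_⟩
        rw [Tf_nml hd', hm', mul_assoc, ← Complex.exp_add]
        have e0 : ((-α m : ℝ) : ℂ) * I + (α m : ℂ) * I = 0 := by
          push_cast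
          ring
        rw [e0, Complex.exp_zero, mul_one]
        exact (eq_nml_coords hw h).symm

end TW

open TW

theorem t_TW : S_TW := by
  intro M ψ a hMc hMm hMs hψc hψm hψs hac
  set N := (hMm.orderIsoOfSurjective M hMs).symm with hN
  have hNc : Continuous N := N.continuous
  have hNM : ∀ s, N (M s) = s := fun s => (hMm.orderIsoOfSurjective M hMs).symm_apply_apply s
  refine ⟨Tf (fun x => ψ (N x)) (fun x => a (N x)), hm_Tf (hψc.comp hNc) (hac.comp hNc)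
    (hψm.comp N.strictMono) (hψs.comp N.surjective), Tf_zero rfl, Tf_zero rfl, fun w s => ?_⟩
  rw [Tf_nml (Complex.norm_exp_ofReal_mul_I w)]
  simp only [hNM]
  rw [← Complex.exp_add]
  congr 3
  push_cast
  ring

end

end Pool.Agent.LIX.G4
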