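import Pool.Agent.LIX.GBase

/-!
# LIX, block G: the collar of the model (`Collar TT HT VT col`)
-/

set_option autoImplicit false

namespace Pool.Agent.LIX

open Set Metric Complex

noncomputable section

theorem col_eq (v : ℂ × ℝ) (l : ℝ) :
    col (v, l) = kap (((1 + l) / 5 : ℝ) * v.1, (1 + l) / 5 * v.2) := rfl

theorem nrm_colarg {v : ℂ × ℝ} (hv : v ∈ Sph) {l : ℝ} (hl : 0 ≤ l) :
    nrm (((1 + l) / 5 : ℝ) * v.1, (1 + l) / 5 * v.2) = (1 + l) / 5 := by
  rw [nrm_smul (by positivity), (mem_Sph_iff v).1 hv, mul_one]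

theorem continuous_col : Continuous col := by
  unfold col
  exact continuous_kap.comp (by fun_prop)

/-- `|p₁| - |p₂|` in the coordinates -/
theorem norm_sub_kap {v : ℂ × ℝ} (hv : nrm v ≤ 1 / 2) :
    ‖(kap v).1‖ - ‖(kap v).2‖ = √2 * Real.sin v.1.im := by
  have h1 := cos_pos_aux ((abs_im_le_nrm v).trans hv)
  rw [norm_kap_fst, norm_kap_snd, abs_of_pos h1.1, abs_of_pos h1.2, Real.cos_sub, Real.cos_add,
    Real.cos_pi_div_four, Real.sin_pi_div_four]
  ring

theorem sin_sign {y : ℝ} (hy : |y| ≤ 1 / 2) :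
    (Real.sin y = 0 ↔ y = 0) ∧ ∀ b, (0 ≤ sg b * Real.sin y ↔ 0 ≤ sg b * y) := by
  obtain ⟨h1, h2⟩ := abs_le.1 hy
  have hp := Real.pi_gt_three
  have k1 : 0 < y → 0 < Real.sin y := fun h => Real.sin_pos_of_pos_of_lt_pi h (by linarith)
  have k2 : y < 0 → Real.sin y < 0 := fun h => Real.sin_neg_of_neg_of_neg_pi_lt h (by linarith)
  constructor
  · constructor
    · intro h
      rcases lt_trichotomy y 0 with h' | h' | h'
      · exact absurd h (k2 h').ne
      · exact h'
      · exact absurd h (k1 h').ne'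
    · rintro rfl
      exact Real.sin_zero
  · intro b
    rcases lt_trichotomy y 0 with h' | h' | h'
    · have := k2 h'
      cases b <;> simp only [sg] <;> norm_num <;> constructor <;> intro <;> linarith
    · subst h'
      simp
    · have := k1 h'
      cases b <;> simp only [sg] <;> norm_num <;> constructor <;> intro <;> linarith

theorem kap_mem_body {v : ℂ × ℝ} (hv : nrm v ≤ 1 / 2) : kap v ∈ TT.body ↔ 1 / 5 ≤ nrm v := by
  constructor
  · rintro ⟨-, h⟩
    by_contra h'
    exact h ⟨v, not_le.1 h', rfl⟩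
  · intro h
    refine ⟨kap_mem_S3 v, ?_⟩
    rintro ⟨w, hw, hwv⟩
    have hw' : nrm w < 1 / 5 := hw
    have h2 : w = v := kap_injOn (show nrm w ≤ 1 / 2 by linarith) hv hwv
    rw [h2] at hw'
    linarith

theorem collar_TT : Collar TT HT VT col where
  cont := continuous_col.continuousOn
  inj := by
    rintro ⟨v, l⟩ ⟨hv, hl⟩ ⟨w, m⟩ ⟨hw, hm⟩ h
    dsimp only at hv hl hw hm
    rw [col_eq, col_eq] at h
    have n1 := nrm_colarg hv hl.1
    have n2 := nrm_colarg hw hm.1
    have hl2 := hl.2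
    have hm2 := hm.2
    have h3 := kap_injOn (show nrm _ ≤ 1 / 2 by rw [n1]; linarith)
      (show nrm _ ≤ 1 / 2 by rw [n2]; linarith) h
    have h4 : l = m := by
      rw [h3, n2] at n1
      linarith
    subst h4
    have h5 : ((1 + l) / 5 : ℝ) ≠ 0 := by
      have := hl.1
      positivity
    have h6 := congrArg Prod.fst h3
    have h7 := congrArg Prod.snd h3
    dsimp only at h6 h7
    have h8 : v.1 = w.1 := mul_left_cancel₀ (Complex.ofReal_ne_zero.2 h5) h6
    have h9 : v.2 = w.2 := mul_left_cancel₀ h5 h7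
    rw [Prod.ext h8 h9]
  body := by
    intro v hv l hl
    have n1 := nrm_colarg hv hl.1
    have h1 := hl.1
    have h2 := hl.2
    rw [col_eq, kap_mem_body (by rw [n1]; linarith), n1]
    linarith
  bd := by
    ext p
    constructor
    · rintro ⟨v, hv, rfl⟩
      have hv' : nrm v = 1 / 5 := hv
      refine ⟨((((5 : ℝ) : ℂ) * v.1, 5 * v.2), 0), ⟨?_, rfl⟩, ?_⟩
      · rw [mem_Sph_iff, nrm_smul (by norm_num), hv']
        norm_num
      · rw [col_eq]
        congr 1
        refine Prod.ext ?_ ?_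
        · push_cast
          ring
        · ring
    · rintro ⟨⟨v, l⟩, ⟨hv, hl⟩, rfl⟩
      have hl' : l = 0 := hl
      subst hl'
      refine ⟨_, ?_, (col_eq v 0).symm⟩
      change nrm _ = 1 / 5
      rw [nrm_colarg hv le_rfl]
      norm_num
  surf := by
    intro v hv l hl
    have n1 := nrm_colarg hv hl.1
    have h1 := hl.1
    have h2 := hl.2
    have h3 : nrm (((1 + l) / 5 : ℝ) * v.1, (1 + l) / 5 * v.2) ≤ 1 / 2 := by rw [n1]; linarith
    have h4 := norm_sub_kap h3
    have h5 := (abs_im_le_nrm _).trans h3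
    have h6 : ((((1 + l) / 5 : ℝ) : ℂ) * v.1, (1 + l) / 5 * v.2).1.im = (1 + l) / 5 * v.1.im := by
      simp only [Complex.im_ofReal_mul]
    rw [h6] at h4 h5
    rw [← col_eq] at h4
    have h7 : (0 : ℝ) < (1 + l) / 5 := by positivity
    have hb : col (v, l) ∈ TT.body := by
      rw [col_eq, kap_mem_body h3, n1]
      linarith
    constructor
    · rintro ⟨-, h⟩
      rw [h, sub_self] at h4
      have h8 : Real.sin ((1 + l) / 5 * v.1.im) = 0 := by
        rcases mul_eq_zero.1 h4.symm with h | h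
        · exact absurd h (by positivity)
        · exact h
      have h9 := (sin_sign h5).1.1 h8
      rcases mul_eq_zero.1 h9 with h | h
      · exact absurd h h7.ne'
      · exact h
    · intro h
      refine ⟨hb, ?_⟩
      rw [h, mul_zero, Real.sin_zero, mul_zero] at h4
      linarith
  opn := by
    refine ⟨KO (2 / 5), isOpen_KO _, ?_⟩
    ext p
    constructor
    · rintro ⟨⟨hp1, hp2⟩, hp3⟩
      have h1 : p ∈ kap '' {v | nrm v < 2 / 5} := by
        rw [← S3_inter_KO (by norm_num)]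
        exact ⟨hp1, hp3⟩
      obtain ⟨v, hv, rfl⟩ := h1
      have hv' : nrm v < 2 / 5 := hv
      have h2 : 1 / 5 ≤ nrm v := by
        by_contra h
        exact hp2 ⟨v, not_le.1 h, rfl⟩
      have h3 : nrm v ≠ 0 := by
        intro h
        rw [h] at h2
        norm_num at h2
      refine ⟨((((nrm v)⁻¹ : ℝ) * v.1, (nrm v)⁻¹ * v.2), 5 * nrm v - 1), ⟨?_, ?_, ?_⟩, ?_⟩
      · rw [mem_Sph_iff, nrm_smul (inv_nonneg.2 (nrm_nonneg v)), inv_mul_cancel₀ h3]
      · change 0 ≤ 5 * nrm v - 1
        linarith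
      · change 5 * nrm v - 1 < 1
        linarith
      · rw [col_eq]
        congr 1
        have h4 : (1 + (5 * nrm v - 1)) / 5 = nrm v := by ring
        rw [h4]
        refine Prod.ext ?_ ?_
        · change ((nrm v : ℝ) : ℂ) * (((nrm v)⁻¹ : ℝ) * v.1) = v.1
          rw [← mul_assoc, ← Complex.ofReal_mul, mul_inv_cancel₀ h3, Complex.ofReal_one, one_mul]
        · change nrm v * ((nrm v)⁻¹ * v.2) = v.2
          rw [← mul_assoc, mul_inv_cancel₀ h3, one_mul]
    · rintro ⟨⟨v, l⟩, ⟨hv, hl⟩, rfl⟩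
      dsimp only at hv hl
      have n1 := nrm_colarg hv hl.1
      have h1 := hl.1
      have h2 := hl.2
      have h3 : nrm (((1 + l) / 5 : ℝ) * v.1, (1 + l) / 5 * v.2) ≤ 1 / 2 := by rw [n1]; linarith
      refine ⟨?_, ?_⟩
      · rw [col_eq, kap_mem_body h3, n1]
        linarith
      · rw [col_eq]
        refine ⟨kap_slit h3, ?_⟩
        change nrm (kinv (kap _)) < 2 / 5
        rw [kinv_kap h3, n1]
        linarith
  edge := by
    intro i j
    change (fun v : ℂ × ℝ => kap (v.1 / 5, v.2 / 5)) '' Edg i j = (fun v => col (v, 0)) '' Edg i j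
    congr 1
    funext v
    rw [col_eq]
    congr 1
    refine Prod.ext ?_ ?_
    · push_cast
      ring
    · ring
  cpt := isCompact_TT_body
  side_closed := by
    intro b
    have h : VT b = TT.body ∩ {p : ℂ × ℂ | 0 ≤ sg b * (‖p.1‖ - ‖p.2‖)} := rfl
    rw [h]
    exact isCompact_TT_body.isClosed.inter (isClosed_le continuous_const (by fun_prop))
  side_union := by
    ext p
    constructor
    · rintro (h | h)
      · exact h.1
      · exact h.1
    · intro h
      rcases le_total ‖p.2‖ ‖p.1‖ with h1 | h1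
      · left
        refine ⟨h, ?_⟩
        simp only [sg, if_true]
        linarith
      · right
        refine ⟨h, ?_⟩
        simp only [sg]
        norm_num
        exact h1
  side_inter := by
    ext p
    constructor
    · rintro ⟨⟨h, h1⟩, ⟨-, h2⟩⟩
      refine ⟨h, ?_⟩
      simp only [sg] at h1 h2
      norm_num at h1 h2
      linarith
    · rintro ⟨h, h1⟩
      have h2 : ‖p.1‖ - ‖p.2‖ = 0 := by rw [h1, sub_self]
      refine ⟨⟨h, ?_⟩, ⟨h, ?_⟩⟩
      · rw [h2, mul_zero]
      · rw [h2, mul_zero]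
  side := by
    intro b v hv l hl
    have n1 := nrm_colarg hv hl.1
    have h1 := hl.1
    have h2 := hl.2
    have h3 : nrm (((1 + l) / 5 : ℝ) * v.1, (1 + l) / 5 * v.2) ≤ 1 / 2 := by rw [n1]; linarith
    have h4 := norm_sub_kap h3
    have h5 := (abs_im_le_nrm _).trans h3
    have h6 : ((((1 + l) / 5 : ℝ) : ℂ) * v.1, (1 + l) / 5 * v.2).1.im = (1 + l) / 5 * v.1.im := by
      simp only [Complex.im_ofReal_mul]
    rw [h6] at h4 h5
    rw [← col_eq] at h4
    have h7 : (0 : ℝ) < (1 + l) / 5 := by positivity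
    have hb : col (v, l) ∈ TT.body := by
      rw [col_eq, kap_mem_body h3, n1]
      linarith
    have h8 : col (v, l) ∈ VT b ↔ 0 ≤ sg b * (‖(col (v, l)).1‖ - ‖(col (v, l)).2‖) :=
      ⟨fun h => h.2, fun h => ⟨hb, h⟩⟩
    rw [h8, h4]
    have h9 : sg b * (√2 * Real.sin ((1 + l) / 5 * v.1.im)) =
        √2 * (sg b * Real.sin ((1 + l) / 5 * v.1.im)) := by ring
    rw [h9, mul_nonneg_iff_of_pos_left (by positivity), (sin_sign h5).2 b]
    have h10 : sg b * ((1 + l) / 5 * v.1.im) = (1 + l) / 5 * (sg b * v.1.im) := by ring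
    rw [h10, mul_nonneg_iff_of_pos_left h7]

end

end Pool.Agent.LIX
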