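import Pool.Agent.LIX.StmtsG

/-!
# LIX, block G: `HT` is a properly embedded surface in `TT`
-/

set_option autoImplicit false

namespace Pool.Agent.LIX.G

open Set Metric Complex

noncomputable section

namespace SURFx

theorem compact_HT : IsCompact HT := by
  have h : HT = TT.body ∩ {p : ℂ × ℂ | ‖p.1‖ = ‖p.2‖} := rfl
  rw [h]
  exact isCompact_TT_body.inter_right (isClosed_eq (by fun_prop) (by fun_prop))

theorem im_nml_ne {z : ℂ} {m : ℝ} (hz : z.im ≠ 0) : (nml (z, m)).1.im ≠ 0 := by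
  have h1 : nrm (z, m) ≠ 0 := by
    intro h
    have h2 := nrm_sq' (z, m)
    rw [h] at h2
    have h3 : 0 < z.im ^ 2 := by positivity
    simp only at h2
    nlinarith [sq_nonneg z.re, sq_nonneg m]
  unfold nml
  simp only [Complex.div_ofReal_im]
  exact div_ne_zero hz h1

theorem miss : Disjoint HT TT.vert := by
  rw [Set.disjoint_left]
  intro p hp hv
  obtain ⟨i, hi⟩ := mem_iUnion.1 hv
  rw [collar_TT.edge i i] at hi
  obtain ⟨v, hv1, rfl⟩ := hi
  have key : v ∈ Sph ∧ v.1.im ≠ 0 := by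
    have a1 : ∀ m, (nml (I, m)).1.im ≠ 0 := fun m => im_nml_ne (by simp)
    have a2 : ∀ m, (nml (-I, m)).1.im ≠ 0 := fun m => im_nml_ne (by simp)
    have a3 : v ∈ Skl := mem_iUnion.2 ⟨i, mem_iUnion.2 ⟨i, hv1⟩⟩
    refine ⟨Skl_subset a3, ?_⟩
    fin_cases i
    · have : v = nml (I, -2) := hv1
      rw [this]
      exact a1 _
    · have : v = nml (I, 2) := hv1
      rw [this]
      exact a1 _
    · have : v = nml (-I, 2) := hv1
      rw [this]
      exact a2 _
    · have : v = nml (-I, -2) := hv1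
      rw [this]
      exact a2 _
  exact key.2 ((collar_TT.surf v key.1 0 ⟨le_rfl, zero_le_one⟩).1 hp)

theorem skel_subset_bd : TT.skel ⊆ TT.bd := by
  intro p hp
  obtain ⟨i, hi⟩ := mem_iUnion.1 hp
  obtain ⟨j, hj⟩ := mem_iUnion.1 hi
  rw [collar_TT.edge i j] at hj
  obtain ⟨v, hv, rfl⟩ := hj
  rw [collar_TT.bd]
  exact ⟨(v, 0), ⟨Skl_subset (mem_iUnion.2 ⟨i, mem_iUnion.2 ⟨j, hv⟩⟩), rfl⟩, rfl⟩

end SURFx

theorem t_SURF : M_SURF := fun h1 h2 h3 =>
  { sub := fun _ hp => hp.1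
    compact := SURFx.compact_HT
    miss := SURFx.miss
    inner := h1
    outer := h2
    cross := h3 }

end

end Pool.Agent.LIX.G
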