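import Pool.Agent.LIX.StmtsO
import Pool.Agent.LIX.TBBasic
import Pool.Agent.LIX.TB_LIFT
import Pool.Agent.LIX.TB_UNQ
import Pool.Agent.LIX.G_GCH
import Pool.Agent.LIX.G_PP
import Pool.Agent.LIX.G_NEAR
import Pool.Agent.LIX.G_OUT
import Pool.Agent.LIX.G_POL
import Pool.Agent.LIX.G_CRS
import Pool.Agent.LIX.G_INN
import Pool.Agent.LIX.G_SURF
import Pool.Agent.LIX.G_LEN
import Pool.Agent.LIX.G_CELL
import Pool.Agent.LIX.G_HTE
import Pool.Agent.LIX.G_QQ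
import Pool.Agent.LIX.G_CON
import Pool.Agent.LIX.G_CHI
import Pool.Agent.LIX.G_PER

/-!
# LIX, block G: assembly of G2 and G3
-/

set_option autoImplicit false

namespace Pool.Agent.LIX.G

theorem t_G2 : O.S_G2 :=
  ⟨t_SURF t_INN (t_OUT t_GCH t_PP) (t_CRS t_GCH t_PP t_NEAR (t_POL t_GCH)), t_CON t_HTE t_QQ,
    t_CHI t_CELL t_HTE t_QQ, t_LEN⟩

theorem t_G3 : O.S_G3 := t_PER t_LIFT t_UNQ t_EXT t_CIR

end Pool.Agent.LIX.G
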