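import Pool.Agent.LIX.KSC

/-!
# LIX, block K: a potential on the vertices makes the realization simply connected
-/

set_option autoImplicit false

open Topology Set
open scoped unitInterval

namespace Pool.Agent.LIX

namespace Cpx

variable {V : Type*} (K : Cpx V)

/-- the class of the straight path -/
noncomputable def sc (s : Finset V) (hs : s ∈ K.faces) (x y : K.Space)
    (hx : x.1.support ⊆ s) (hy : y.1.support ⊆ s) : Path.Homotopic.Quotient x y :=
  Path.Homotopic.Quotient.mk (K.spath s hs x y hx hy)

theorem sc_eq (s s' : Finset V) (hs : s ∈ K.faces) (hs' : s' ∈ K.faces) (x y : K.Space)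
    (hx : x.1.support ⊆ s) (hy : y.1.support ⊆ s) (hx' : x.1.support ⊆ s')
    (hy' : y.1.support ⊆ s') : K.sc s hs x y hx hy = K.sc s' hs' x y hx' hy' := rfl

theorem sc_trans (s : Finset V) (hs : s ∈ K.faces) (x y z : K.Space)
    (hx : x.1.support ⊆ s) (hy : y.1.support ⊆ s) (hz : z.1.support ⊆ s) :
    (K.sc s hs x y hx hy).trans (K.sc s hs y z hy hz) = K.sc s hs x z hx hz := by
  unfold sc
  rw [← Path.Homotopic.Quotient.mk_trans, Path.Homotopic.Quotient.eq]
  apply K.homotopic_of_simplex s hs
  · intro t
    rw [Path.trans_apply]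
    split_ifs
    · exact K.spath_support _ _ _ _ _ _ _
    · exact K.spath_support _ _ _ _ _ _ _
  · intro t
    exact K.spath_support _ _ _ _ _ _ _

theorem sc_self (s : Finset V) (hs : s ∈ K.faces) (x : K.Space) (hx : x.1.support ⊆ s) :
    K.sc s hs x x hx hx = Path.Homotopic.Quotient.refl x := by
  unfold sc
  rw [← Path.Homotopic.Quotient.mk_refl, Path.Homotopic.Quotient.eq]
  apply K.homotopic_of_simplex s hs
  · intro t
    exact K.spath_support _ _ _ _ _ _ _
  · intro t
    exact hx

theorem sc_star (v : V) {y z : K.Space} (γ : Path y z) (h : ∀ t, γ t ∈ K.star v)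
    (hy : y ∈ K.star v) (hz : z ∈ K.star v) :
    (Path.Homotopic.Quotient.mk γ).trans (K.sc z.1.support z.2.2.2 z (K.vert v (K.star_vert hz))
      (Finset.Subset.refl _) (K.vert_sub v _ (K.star_mem hz))) =
    K.sc y.1.support y.2.2.2 y (K.vert v (K.star_vert hy))
      (Finset.Subset.refl _) (K.vert_sub v _ (K.star_mem hy)) := by
  have hv := K.star_vert hy
  let f : C(K.star v, K.Space) := ⟨Subtype.val, continuous_subtype_val⟩
  let g : C(K.star v, K.Space) := ⟨fun _ => K.vert v hv, continuous_const⟩
  let F : f.Homotopy g :=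
    { toFun := fun p => K.sdef v (p.2, p.1)
      continuous_toFun := (K.sdef_cont v).comp (continuous_snd.prodMk continuous_fst)
      map_zero_left := by
        intro x
        apply Subtype.ext
        ext w
        refine (K.sdef_apply _ _ _).trans ?_
        simp [f]
      map_one_left := by
        intro x
        apply Subtype.ext
        ext w
        refine (K.sdef_apply _ _ _).trans ?_
        simp [g, vert] }
  let p : Path (⟨y, hy⟩ : K.star v) ⟨z, hz⟩ :=
    { toFun := fun t => ⟨γ t, h t⟩
      continuous_toFun := γ.continuous.subtype_mk _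
      source' := by
        apply Subtype.ext
        exact γ.source
      target' := by
        apply Subtype.ext
        exact γ.target }
  have h1 := Path.Homotopic.map_trans_evalAt F p
  have h2 : p.map (map_continuous f) = γ := by
    ext t
    rfl
  have h3 : p.map (map_continuous g) = Path.refl (K.vert v hv) := by
    ext t
    rfl
  rw [h2, h3] at h1
  unfold sc
  rw [← Path.Homotopic.Quotient.mk_trans, Path.Homotopic.Quotient.eq]
  refine h1.trans ?_
  exact ⟨Path.Homotopy.transRefl _⟩

/-- a potential -/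
structure Pot (P : K.Space) where
  /-- the class of paths to a vertex -/
  g : ∀ (v : V) (hv : {v} ∈ K.faces), Path.Homotopic.Quotient P (K.vert v hv)
  comp : ∀ (s : Finset V) (hs : s ∈ K.faces) (a b : V) (ha : a ∈ s) (hb : b ∈ s),
    (g a (K.single_mem hs ha)).trans (K.sc s hs (K.vert a (K.single_mem hs ha))
      (K.vert b (K.single_mem hs hb)) (K.vert_sub a _ ha) (K.vert_sub b _ hb)) =
    g b (K.single_mem hs hb)

variable {K}

namespace Pot

variable {P : K.Space} (A : Pot K P)

/-- the class to an arbitrary point, via `v` -/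
noncomputable def gv (y : K.Space) (v : V) (hv : v ∈ y.1.support) : Path.Homotopic.Quotient P y :=
  (A.g v (K.single_mem y.2.2.2 hv)).trans (K.sc y.1.support y.2.2.2
    (K.vert v (K.single_mem y.2.2.2 hv)) y (K.vert_sub v _ hv) (Finset.Subset.refl _))

theorem gv_eq (y : K.Space) (v w : V) (hv : v ∈ y.1.support) (hw : w ∈ y.1.support) :
    A.gv y v hv = A.gv y w hw := by
  unfold gv
  rw [← A.comp y.1.support y.2.2.2 v w hv hw, Path.Homotopic.Quotient.trans_assoc, sc_trans]

/-- the class to an arbitrary point -/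
def G (y : K.Space) (c : Path.Homotopic.Quotient P y) : Prop := ∀ v hv, c = A.gv y v hv

theorem exG (y : K.Space) : ∃ c, A.G y c := by
  obtain ⟨v, hv⟩ := K.exists_star y
  exact ⟨A.gv y v (K.star_mem hv), fun w hw => A.gv_eq y _ _ _ _⟩

theorem G_unique {y : K.Space} {c d : Path.Homotopic.Quotient P y} (hc : A.G y c) (hd : A.G y d) : c = d := by
  obtain ⟨v, hv⟩ := K.exists_star y
  rw [hc v (K.star_mem hv), hd v (K.star_mem hv)]

theorem G_step (v : V) {y z : K.Space} (γ : Path y z) (h : ∀ t, γ t ∈ K.star v)
    (c : Path.Homotopic.Quotient P y) (hc : A.G y c) : A.G z (c.trans (Path.Homotopic.Quotient.mk γ)) := by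
  have hy : y ∈ K.star v := by simpa using h 0
  have hz : z ∈ K.star v := by simpa using h 1
  have h1 := K.sc_star v γ h hy hz
  have h2 : Path.Homotopic.Quotient.mk γ = (K.sc y.1.support y.2.2.2 y (K.vert v (K.star_vert hy))
      (Finset.Subset.refl _) (K.vert_sub v _ (K.star_mem hy))).trans
      (K.sc z.1.support z.2.2.2 (K.vert v (K.star_vert hz)) z
       (K.vert_sub v _ (K.star_mem hz)) (Finset.Subset.refl _)) := by
    rw [← h1, Path.Homotopic.Quotient.trans_assoc, sc_trans, sc_self]
    simp
  intro w hw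
  rw [A.gv_eq z w v hw (K.star_mem hz), hc v (K.star_mem hy), h2]
  unfold gv
  rw [Path.Homotopic.Quotient.trans_assoc, ← Path.Homotopic.Quotient.trans_assoc (K.sc y.1.support y.2.2.2 _ _ _ _), sc_trans, sc_self]
  simp

theorem G_cast {y y' : K.Space} (h : y' = y) (c : Path.Homotopic.Quotient P y) :
    A.G y' (c.cast rfl h) ↔ A.G y c := by
  subst h
  simp

theorem cast_trans_cast {X : Type*} [TopologicalSpace X] {a b c b' c' : X} (h : b' = b)
    (h' : c' = c) (u : Path.Homotopic.Quotient a b) (w : Path.Homotopic.Quotient b c) :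
    (u.cast rfl h).trans (w.cast h h') = (u.trans w).cast rfl h' := by
  subst h
  subst h'
  simp

theorem G_path {y z : K.Space} (γ : Path y z) (c : Path.Homotopic.Quotient P y) (hc : A.G y c) :
    A.G z (c.trans (Path.Homotopic.Quotient.mk γ)) := by
  obtain ⟨t, ht0, htm, ⟨n, hn⟩, ht⟩ := exists_monotone_Icc_subset_open_cover_unitInterval
    (c := fun v : V => γ ⁻¹' (K.star v)) (fun v => (K.isOpen_star v).preimage γ.continuous)
    (fun u _ => by
      obtain ⟨v, hv⟩ := K.exists_star (γ u)
      exact mem_iUnion.2 ⟨v, hv⟩)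
  have hc' : A.G (γ 0) (c.cast rfl γ.source) := (A.G_cast γ.source c).2 hc
  have key : ∀ k, ∀ u, u = t k →
      A.G (γ u) ((c.cast rfl γ.source).trans (Path.Homotopic.Quotient.mk (γ.subpath 0 u))) := by
    intro k
    induction k with
    | zero =>
      intro u hu
      rw [ht0] at hu
      subst hu
      rw [Path.subpath_self]
      simpa using hc'
    | succ k ih =>
      intro u hu
      subst hu
      obtain ⟨v, hv⟩ := ht k
      have h1 := A.G_step v (γ.subpath (t k) (t (k + 1))) (by
        intro w
        have h2 : γ.subpath (t k) (t (k + 1)) w ∈ range (γ.subpath (t k) (t (k + 1))) := ⟨w, rfl⟩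
        rw [Path.range_subpath_of_le _ _ _ (htm (Nat.le_succ k))] at h2
        obtain ⟨w', hw', h3⟩ := h2
        rw [← h3]
        exact hv hw') _ (ih (t k) rfl)
      rw [Path.Homotopic.Quotient.trans_assoc, ← Path.Homotopic.Quotient.mk_trans] at h1
      have h4 : Path.Homotopic.Quotient.mk ((γ.subpath 0 (t k)).trans (γ.subpath (t k) (t (k + 1)))) =
          Path.Homotopic.Quotient.mk (γ.subpath 0 (t (k + 1))) :=
        Path.Homotopic.Quotient.eq.2 ⟨Path.Homotopy.subpathTransSubpath γ _ _ _⟩
      rw [h4] at h1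
      exact h1
  have h5 := key n 1 (hn n le_rfl).symm
  rw [Path.subpath_zero_one, Path.Homotopic.Quotient.mk_cast, cast_trans_cast] at h5
  exact (A.G_cast γ.target _).1 h5

include A in
theorem simplyConnected : SimplyConnectedSpace K.Space := by
  rw [simply_connected_iff_paths_homotopic]
  refine ⟨⟨⟨P⟩, ?_⟩, ?_⟩
  · intro x y
    obtain ⟨c, -⟩ := A.exG x
    obtain ⟨d, -⟩ := A.exG y
    obtain ⟨c', -⟩ := Path.Homotopic.Quotient.mk_surjective c
    obtain ⟨d', -⟩ := Path.Homotopic.Quotient.mk_surjective d
    exact ⟨c'.symm.trans d'⟩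
  · intro x y
    refine ⟨fun a b => ?_⟩
    obtain ⟨c, hc⟩ := A.exG x
    obtain ⟨p, rfl⟩ := Path.Homotopic.Quotient.mk_surjective a
    obtain ⟨q, rfl⟩ := Path.Homotopic.Quotient.mk_surjective b
    have h1 := A.G_unique (A.G_path p c hc) (A.G_path q c hc)
    have h2 : c.symm.trans (c.trans (Path.Homotopic.Quotient.mk p)) = c.symm.trans (c.trans (Path.Homotopic.Quotient.mk q)) := by
      rw [h1]
    rw [← Path.Homotopic.Quotient.trans_assoc, ← Path.Homotopic.Quotient.trans_assoc] at h2
    simpa using h2

end Pot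

end Cpx

end Pool.Agent.LIX
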