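import Pool.Agent.LIX.KTop

/-!
# LIX, block K: simple connectivity of the realization from a potential
-/

set_option autoImplicit false

open Topology Set
open scoped unitInterval

namespace Pool.Agent.LIX

namespace Cpx

variable {V : Type*} (K : Cpx V)

theorem seg_apply (s : Finset V) (hs : s ∈ K.faces) (x y : K.Space) (hx : x.1.support ⊆ s)
    (hy : y.1.support ⊆ s) (t : I) (v : V) :
    (K.seg s hs x y hx hy t).1 v = (1 - t) * x.1 v + t * y.1 v := by
  simp [seg]

theorem seg_support (s : Finset V) (hs : s ∈ K.faces) (x y : K.Space) (hx : x.1.support ⊆ s)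
    (hy : y.1.support ⊆ s) (t : I) : (K.seg s hs x y hx hy t).1.support ⊆ s := by
  intro v hv
  by_contra h
  have h1 : x.1 v = 0 := by
    by_contra h2
    exact h (hx (by simpa using h2))
  have h3 : y.1 v = 0 := by
    by_contra h2
    exact h (hy (by simpa using h2))
  apply Finsupp.mem_support_iff.1 hv
  rw [seg_apply, h1, h3]
  ring

/-- the straight path in a simplex -/
noncomputable def spath (s : Finset V) (hs : s ∈ K.faces) (x y : K.Space)
    (hx : x.1.support ⊆ s) (hy : y.1.support ⊆ s) : Path x y where
  toFun := K.seg s hs x y hx hy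
  continuous_toFun := by
    apply K.cont_of_simplex s hs
    · intro v
      simp only [seg_apply]
      fun_prop
    · exact K.seg_support s hs x y hx hy
  source' := by
    apply Subtype.ext
    ext v
    rw [seg_apply]
    simp
  target' := by
    apply Subtype.ext
    ext v
    rw [seg_apply]
    simp

theorem spath_support (s : Finset V) (hs : s ∈ K.faces) (x y : K.Space)
    (hx : x.1.support ⊆ s) (hy : y.1.support ⊆ s) (t : I) :
    (K.spath s hs x y hx hy t).1.support ⊆ s :=
  K.seg_support s hs x y hx hy t

/-- two paths in a simplex are homotopic -/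
theorem homotopic_of_simplex (s : Finset V) (hs : s ∈ K.faces) {x y : K.Space} (p q : Path x y)
    (hp : ∀ t, (p t).1.support ⊆ s) (hq : ∀ t, (q t).1.support ⊆ s) : p.Homotopic q := by
  refine ⟨⟨⟨⟨fun z => K.seg s hs (p z.2) (q z.2) (hp _) (hq _) z.1, ?_⟩, ?_, ?_⟩, ?_⟩⟩
  · apply K.cont_of_simplex s hs
    · intro v
      simp only [seg_apply]
      have h1 : Continuous fun z : I × I => (p z.2).1 v :=
        (K.coord_cont v).comp (p.continuous.comp continuous_snd)
      have h2 : Continuous fun z : I × I => (q z.2).1 v :=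
        (K.coord_cont v).comp (q.continuous.comp continuous_snd)
      fun_prop
    · intro z
      exact K.seg_support s hs _ _ _ _ _
  · intro t
    apply Subtype.ext
    ext v
    refine (K.seg_apply s hs (p t) (q t) (hp _) (hq _) 0 v).trans ?_
    simp
  · intro t
    apply Subtype.ext
    ext v
    refine (K.seg_apply s hs (p t) (q t) (hp _) (hq _) 1 v).trans ?_
    simp
  · intro t z hz
    apply Subtype.ext
    ext v
    refine (K.seg_apply s hs (p z) (q z) (hp _) (hq _) t v).trans ?_
    rcases hz with rfl | rfl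
    · simp; ring
    · simp; ring

/-- the open star of a vertex -/
def star (v : V) : Set K.Space := {x | 0 < x.1 v}

theorem isOpen_star (v : V) : IsOpen (K.star v) := isOpen_lt continuous_const (K.coord_cont v)

theorem exists_star (x : K.Space) : ∃ v, x ∈ K.star v := by
  have h : x.1.support.Nonempty := K.nonempty_of_mem _ x.2.2.2
  obtain ⟨v, hv⟩ := h
  exact ⟨v, lt_of_le_of_ne (x.2.1 v) (Finsupp.mem_support_iff.1 hv).symm⟩

theorem star_mem {v : V} {x : K.Space} (h : x ∈ K.star v) : v ∈ x.1.support :=
  Finsupp.mem_support_iff.2 (ne_of_gt h)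

theorem star_vert {v : V} {x : K.Space} (h : x ∈ K.star v) : {v} ∈ K.faces :=
  K.single_mem x.2.2.2 (K.star_mem h)

theorem vert_support (v : V) (hv : {v} ∈ K.faces) : (K.vert v hv).1.support = {v} := by
  unfold vert
  exact Finsupp.support_single _ one_ne_zero

theorem vert_sub {s : Finset V} (v : V) (hv : {v} ∈ K.faces) (h : v ∈ s) :
    (K.vert v hv).1.support ⊆ s := by
  rw [vert_support]
  simpa using h

/-- the deformation of a star to its vertex -/
noncomputable def sdef (v : V) (z : K.star v × I) : K.Space :=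
  K.seg z.1.1.1.support z.1.1.2.2.2 z.1.1 (K.vert v (K.star_vert z.1.2)) (Finset.Subset.refl _)
    (K.vert_sub v _ (K.star_mem z.1.2)) z.2

theorem sdef_apply (v w : V) (z : K.star v × I) :
    (K.sdef v z).1 w = (1 - z.2) * z.1.1.1 w + z.2 * (Finsupp.single v (1 : ℝ)) w :=
  K.seg_apply _ _ _ _ _ _ _ _

theorem sdef_cont (v : V) : Continuous (K.sdef v) := by
  have hq := (K.isQuotientMap_qmap).restrictPreimage_isOpen (K.isOpen_star v)
  apply hq.continuous_lift_prod_left
  apply K.cont_of_local
  · intro w
    simp only [sdef_apply]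
    have h1 : Continuous fun z : (K.qmap ⁻¹' (K.star v)) × I =>
        ((K.star v).restrictPreimage K.qmap z.1).1.1 w :=
      (K.coord_cont w).comp (continuous_subtype_val.comp (hq.continuous.comp continuous_fst))
    fun_prop
  · rintro ⟨⟨⟨s, x⟩, hx⟩, t⟩
    refine ⟨(fun z : (K.qmap ⁻¹' (K.star v)) × I => z.1.1) ⁻¹' (range (Sigma.mk s)), ?_, s.1,
      s.2, ?_⟩
    · apply IsOpen.mem_nhds
      · exact isOpen_range_sigmaMk.preimage (continuous_subtype_val.comp continuous_fst)
      · exact ⟨x, rfl⟩
    · rintro ⟨⟨⟨s', x'⟩, hx'⟩, t'⟩ ⟨y, hy⟩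
      simp only at hy
      obtain ⟨rfl, -⟩ := Sigma.mk.inj_iff.1 hy
      refine Finset.Subset.trans (K.seg_support _ _ _ _ _ _ _) ?_
      exact K.simplexMap_support _ _

end Cpx

end Pool.Agent.LIX
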