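import Pool.Agent.LIX.Defs

/-!
# LIX, block K: the topology of the realization of an abstract simplicial complex
-/

set_option autoImplicit false

open Topology Set
open scoped unitInterval

namespace Pool.Agent.LIX

namespace Cpx

variable {V : Type*} (K : Cpx V)

theorem simplexMap_apply (s : K.faces) (x : stdSimplex ℝ (s : Finset V)) (v : V)
    [Decidable (v ∈ (s : Finset V))] :
    (K.simplexMap s x).1 v = if h : v ∈ (s : Finset V) then x.1 ⟨v, h⟩ else 0 := by
  unfold simplexMap
  simp only [Finsupp.onFinset_apply]
  by_cases h : v ∈ (s : Finset V) <;> simp [h]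

theorem simplexMap_support (s : K.faces) (x : stdSimplex ℝ (s : Finset V)) :
    (K.simplexMap s x).1.support ⊆ s.1 := by
  classical
  intro v hv
  by_contra h
  apply Finsupp.mem_support_iff.1 hv
  rw [simplexMap_apply]
  simp [h]

theorem continuous_iff {Z : Type*} [TopologicalSpace Z] {f : K.Space → Z} :
    Continuous f ↔ ∀ s, Continuous (f ∘ K.simplexMap s) := by
  rw [continuous_iSup_dom]
  refine forall_congr' fun s => ?_
  exact continuous_coinduced_dom

theorem continuous_simplexMap (s : K.faces) : Continuous (K.simplexMap s) :=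
  (K.continuous_iff (f := id)).1 continuous_id s

/-- the map from the disjoint union of the simplices -/
noncomputable def qmap (p : Σ s : K.faces, stdSimplex ℝ (s : Finset V)) : K.Space :=
  K.simplexMap p.1 p.2

/-- a point in a simplex -/
def lift (s : K.faces) (x : K.Space) (h : x.1.support ⊆ s.1) : stdSimplex ℝ (s : Finset V) :=
  ⟨fun v => x.1 v.1, fun v => x.2.1 _, by
    have h1 := x.2.2.1
    rw [Finsupp.sum_of_support_subset _ h _ (by simp)] at h1
    exact (Finset.sum_coe_sort s.1 fun v => x.1 v).trans h1⟩

theorem simplexMap_lift (s : K.faces) (x : K.Space) (h : x.1.support ⊆ s.1) :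
    K.simplexMap s (K.lift s x h) = x := by
  classical
  apply Subtype.ext
  ext v
  rw [simplexMap_apply]
  by_cases hv : v ∈ s.1
  · simp [hv, lift]
  · simp only [hv, dite_false]
    symm
    by_contra h2
    exact hv (h (by simpa using h2))

theorem qmap_surj : Function.Surjective K.qmap := fun x =>
  ⟨⟨⟨x.1.support, x.2.2.2⟩, K.lift _ x (Finset.Subset.refl x.1.support)⟩,
    K.simplexMap_lift _ x (Finset.Subset.refl x.1.support)⟩

theorem isQuotientMap_qmap : IsQuotientMap K.qmap := by
  refine ⟨⟨?_⟩, K.qmap_surj⟩
  show (⨆ s : K.faces, TopologicalSpace.coinduced (K.simplexMap s) inferInstance) =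
    TopologicalSpace.coinduced K.qmap (⨆ s : K.faces, TopologicalSpace.coinduced (Sigma.mk s) _)
  rw [coinduced_iSup]
  rfl

theorem coord_cont (v : V) : Continuous fun x : K.Space => x.1 v := by
  classical
  rw [K.continuous_iff]
  intro s
  by_cases h : v ∈ s.1
  · have : (fun x : K.Space => x.1 v) ∘ K.simplexMap s = fun x => x.1 ⟨v, h⟩ := by
      funext x
      show (K.simplexMap s x).1 v = _
      rw [simplexMap_apply]
      simp [h]
    rw [this]
    exact (continuous_apply _).comp continuous_subtype_val
  · have : (fun x : K.Space => x.1 v) ∘ K.simplexMap s = fun x => 0 := by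
      funext x
      show (K.simplexMap s x).1 v = _
      rw [simplexMap_apply]
      simp [h]
    rw [this]
    exact continuous_const

theorem cont_of_simplex {Z : Type*} [TopologicalSpace Z] (s : Finset V) (hs : s ∈ K.faces)
    (f : Z → K.Space) (hc : ∀ v, Continuous fun z => (f z).1 v)
    (h : ∀ z, (f z).1.support ⊆ s) : Continuous f := by
  have h1 : f = fun z => K.simplexMap ⟨s, hs⟩ (K.lift ⟨s, hs⟩ (f z) (h z)) := by
    funext z
    rw [simplexMap_lift]
  rw [h1]
  apply (K.continuous_simplexMap _).comp
  apply Continuous.subtype_mk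
  exact continuous_pi fun v => hc _

theorem contOn_of_simplex {Z : Type*} [TopologicalSpace Z] (s : Finset V) (hs : s ∈ K.faces)
    (f : Z → K.Space) (U : Set Z) (hc : ∀ v, ContinuousOn (fun z => (f z).1 v) U)
    (h : ∀ z ∈ U, (f z).1.support ⊆ s) : ContinuousOn f U := by
  rw [continuousOn_iff_continuous_restrict]
  exact K.cont_of_simplex s hs _ (fun v => continuousOn_iff_continuous_restrict.1 (hc v))
    fun z => h _ z.2

theorem cont_of_local {Z : Type*} [TopologicalSpace Z] (f : Z → K.Space)
    (hc : ∀ v, Continuous fun z => (f z).1 v)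
    (hs : ∀ z, ∃ U ∈ 𝓝 z, ∃ s ∈ K.faces, ∀ z' ∈ U, (f z').1.support ⊆ s) :
    Continuous f := by
  rw [continuous_iff_continuousAt]
  intro z
  obtain ⟨U, hU, s, hs1, hs2⟩ := hs z
  exact (K.contOn_of_simplex s hs1 f U (fun v => (hc v).continuousOn) hs2).continuousAt hU

theorem single_mem {s : Finset V} (hs : s ∈ K.faces) {v : V} (hv : v ∈ s) : {v} ∈ K.faces :=
  K.down_closed s hs _ (by simpa using hv) (by simp)

/-- the vertices of the realization -/
noncomputable def vert (v : V) (hv : {v} ∈ K.faces) : K.Space :=
  ⟨Finsupp.single v 1, fun w => by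
    classical
    rw [Finsupp.single_apply]
    split_ifs <;> norm_num, by simp, by
    rw [Finsupp.support_single _ one_ne_zero]
    exact hv⟩

/-- the points of a segment in a simplex -/
noncomputable def seg (s : Finset V) (hs : s ∈ K.faces) (x y : K.Space) (hx : x.1.support ⊆ s)
    (hy : y.1.support ⊆ s) (t : I) : K.Space :=
  have hsum : (((1 - t : ℝ)) • x.1 + (t : ℝ) • y.1).sum (fun _ r => r) = 1 := by
    classical
    rw [Finsupp.sum_add_index' (by simp) (by simp),
      Finsupp.sum_smul_index' (by simp), Finsupp.sum_smul_index' (by simp)]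
    simp only [smul_eq_mul]
    rw [← Finsupp.mul_sum, ← Finsupp.mul_sum]
    rw [show (x.1.sum fun _ c => c) = 1 from x.2.2.1, show (y.1.sum fun _ c => c) = 1 from y.2.2.1]
    ring
  ⟨((1 - t : ℝ)) • x.1 + (t : ℝ) • y.1, fun v => by
    have h1 := x.2.1 v
    have h2 := y.2.1 v
    have h3 := t.2.1
    have h4 := t.2.2
    simp only [Finsupp.coe_add, Finsupp.coe_smul, Pi.add_apply, Pi.smul_apply, smul_eq_mul]
    have : 0 ≤ 1 - (t : ℝ) := by linarith
    positivity, hsum, by
    classical
    refine K.down_closed s hs _ ?_ ?_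
    · refine Finset.Subset.trans Finsupp.support_add ?_
      exact Finset.union_subset (Finsupp.support_smul.trans hx) (Finsupp.support_smul.trans hy)
    · by_contra hne
      rw [Finset.not_nonempty_iff_eq_empty, Finsupp.support_eq_empty] at hne
      rw [hne] at hsum
      simp at hsum⟩

end Cpx

end Pool.Agent.LIX
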