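import Pool.Agent.LIX.StmtsL

/-!
# LIX, block L, module NA: non-adjacency in terms of labels
-/

set_option autoImplicit false

namespace Pool.Agent.LIX.L

open Set Metric Complex

theorem na_hj (j : Fin 3) (f : ℝ) : hj j f = (![2 + 4 * f, 3 + 6 * f, 6 + 4 * f] : Fin 3 → ℝ) j := rfl

theorem na_hg_tt (j : Fin 3) : hg true j true = (![2, 3, 6] : Fin 3 → ℝ) j := by
  unfold hg
  rw [if_pos rfl, na_hj]
  fin_cases j <;> simp

theorem na_hg_tf (j : Fin 3) : hg true j false = (![6, 9, 10] : Fin 3 → ℝ) j := by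
  unfold hg
  rw [if_neg (by simp), na_hj]
  fin_cases j <;> simp <;> norm_num

theorem na_hg_ff (j : Fin 3) : hg false j false = (![2, 3, 6] : Fin 3 → ℝ) j := by
  unfold hg
  rw [if_pos rfl, na_hj]
  fin_cases j <;> simp

theorem na_hg_ft (j : Fin 3) : hg false j true = (![6, 9, 10] : Fin 3 → ℝ) j := by
  unfold hg
  rw [if_neg (by simp), na_hj]
  fin_cases j <;> simp <;> norm_num

/-- the seven classes of types -/
theorem na_class (τ : Ty) :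
    ((τ = Ty.M true ∨ (∃ b, τ = Ty.P b) ∨ τ = Ty.U true 0 ∨ τ = Ty.U true 1 ∨ τ = Ty.D true 1 ∨
      τ = Ty.D true 2) ∧ lv τ = ![1, 0, 0]) ∨
    ((∃ j, τ = Ty.X false j) ∧ lv τ = ![-1, 0, 0]) ∨
    ((∃ j, j ≠ 2 ∧ (τ = Ty.U false j ∨ τ = Ty.D false j)) ∧ lv τ = ![0, 1, 0]) ∨
    ((τ = Ty.D true 0 ∨ τ = Ty.X true 0 ∨ τ = Ty.X true 1) ∧ lv τ = ![0, -1, 0]) ∨
    ((τ = Ty.X true 2 ∨ τ = Ty.U true 2) ∧ lv τ = ![0, 0, 1]) ∨
    ((τ = Ty.U false 2 ∨ τ = Ty.D false 2) ∧ lv τ = ![0, 0, -1]) ∨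
    (τ = Ty.M false ∧ lv τ = ![1, 1, -1]) := by
  rcases τ with b | b | ⟨b, j⟩ | ⟨b, j⟩ | ⟨b, j⟩
  · cases b
    · simp [lv]
    · simp [lv]
  · simp [lv]
  · cases b
    · simp [lv]
    · fin_cases j <;> simp [lv]
  · cases b
    · fin_cases j <;> simp [lv]
    · fin_cases j <;> simp [lv]
  · cases b
    · fin_cases j <;> simp [lv]
    · fin_cases j <;> simp [lv]

theorem na_e1 (hN1 : S_N1) (hN2 : S_N2) (hYY : S_YY) {D D' : Set (ℂ × ℂ)} {τ : Ty} {j : Fin 3}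
    (hτ : τ = Ty.M true ∨ (∃ b, τ = Ty.P b) ∨ τ = Ty.U true 0 ∨ τ = Ty.U true 1 ∨ τ = Ty.D true 1 ∨
      τ = Ty.D true 2) (h : HasTy D τ) (h' : HasTy D' (Ty.X false j)) : ¬ (D ∩ D' ⊆ TT.skel) := by
  intro hs
  have hs' : D' ∩ D ⊆ TT.skel := by rwa [inter_comm]
  rcases hτ with rfl | ⟨b, rfl⟩ | rfl | rfl | rfl | rfl
  · exact hN1 D D' true j h.1 h.2 h'.1 h'.2 hs
  · exact hN2 D D' b false j h.1 h.2 h'.1 h'.2 hs
  · refine (hYY D' D false true j 0 true hs').1 h' h ?_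
    rw [na_hg_tt, na_hg_ft]
    fin_cases j <;> simp <;> norm_num
  · refine (hYY D' D false true j 1 true hs').1 h' h ?_
    rw [na_hg_tt, na_hg_ft]
    fin_cases j <;> simp <;> norm_num
  · refine (hYY D' D false true j 1 false hs').2.1 h' h ?_
    rw [na_hg_tf, na_hg_ff]
    fin_cases j <;> simp <;> norm_num
  · refine (hYY D' D false true j 2 false hs').2.1 h' h ?_
    rw [na_hg_tf, na_hg_ff]
    fin_cases j <;> simp <;> norm_num

/-- edge disks on the side `true` against class 0 edge disks on the side `false` -/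
theorem na_e23 (hYY : S_YY) {D D' : Set (ℂ × ℂ)} {j j' : Fin 3} (h : Edge true j D)
    (h' : HasTy D' (Ty.U false j') ∨ HasTy D' (Ty.D false j'))
    (h1 : (![2, 3, 6] : Fin 3 → ℝ) j < (![6, 9, 10] : Fin 3 → ℝ) j')
    (h2 : (![2, 3, 6] : Fin 3 → ℝ) j' < (![6, 9, 10] : Fin 3 → ℝ) j) : ¬ (D ∩ D' ⊆ TT.skel) := by
  intro hs
  rcases h' with h' | h'
  · refine (hYY D D' true false j j' false hs).2.2.1 h h' ⟨?_, ?_⟩
    · rw [na_hg_ff, na_hg_tf]
      exact h2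
    · rw [Bool.not_false, na_hg_tt, na_hg_ft]
      exact h1
  · refine (hYY D D' true false j j' true hs).2.2.2 h h' ⟨?_, ?_⟩
    · rw [na_hg_tt, na_hg_ft]
      exact h1
    · rw [Bool.not_true, na_hg_ff, na_hg_tf]
      exact h2

theorem na_e2 (hYY : S_YY) {D D' : Set (ℂ × ℂ)} {τ : Ty} {j' : Fin 3}
    (hτ : τ = Ty.D true 0 ∨ τ = Ty.X true 0 ∨ τ = Ty.X true 1) (h : HasTy D τ) (hj : j' ≠ 2)
    (h' : HasTy D' (Ty.U false j') ∨ HasTy D' (Ty.D false j')) : ¬ (D ∩ D' ⊆ TT.skel) := by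
  have hE : Edge true 0 D ∨ Edge true 1 D := by
    rcases hτ with rfl | rfl | rfl
    · exact Or.inl h.1
    · exact Or.inl h.1
    · exact Or.inr h.1
  rcases hE with hE | hE
  · refine na_e23 hYY hE h' ?_ ?_
    · fin_cases j' <;> simp at hj ⊢ <;> norm_num
    · fin_cases j' <;> simp at hj ⊢ <;> norm_num
  · refine na_e23 hYY hE h' ?_ ?_
    · fin_cases j' <;> simp at hj ⊢ <;> norm_num
    · fin_cases j' <;> simp at hj ⊢ <;> norm_num

theorem na_e3 (hYY : S_YY) {D D' : Set (ℂ × ℂ)} {τ : Ty}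
    (hτ : τ = Ty.X true 2 ∨ τ = Ty.U true 2) (h : HasTy D τ)
    (h' : HasTy D' (Ty.U false 2) ∨ HasTy D' (Ty.D false 2)) : ¬ (D ∩ D' ⊆ TT.skel) := by
  have hE : Edge true 2 D := by
    rcases hτ with rfl | rfl
    · exact h.1
    · exact h.1
  refine na_e23 hYY hE h' ?_ ?_
  · simp
    norm_num
  · simp
    norm_num

theorem t_NA : M_NA := by
  intro hN1 hN2 hYY
  refine ⟨?_, ?_, ?_⟩
  · intro D D' τ τ' h h' hs h0
    have hs' : D' ∩ D ⊆ TT.skel := by rwa [inter_comm]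
    have e0 := congrFun h0 0
    have e1 := congrFun h0 1
    have e2 := congrFun h0 2
    rcases na_class τ with ⟨c, l⟩ | ⟨c, l⟩ | ⟨c, l⟩ | ⟨c, l⟩ | ⟨c, l⟩ | ⟨c, l⟩ | ⟨c, l⟩ <;>
    rcases na_class τ' with ⟨c', l'⟩ | ⟨c', l'⟩ | ⟨c', l'⟩ | ⟨c', l'⟩ | ⟨c', l'⟩ | ⟨c', l'⟩ | ⟨c', l'⟩ <;>
    (rw [l, l'] at e0 e1 e2) <;>
    try (first | (norm_num at e0; done) | (norm_num at e1; done) | (norm_num at e2; done) |
      (simp at e0; done) | (simp at e1; done) | (simp at e2; done))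
    · obtain ⟨j, rfl⟩ := c'
      exact na_e1 hN1 hN2 hYY c h h' hs
    · obtain ⟨j, rfl⟩ := c
      exact na_e1 hN1 hN2 hYY c' h' h hs'
    · obtain ⟨j, hj, hc⟩ := c
      exact na_e2 hYY c' h' hj (hc.imp (fun e => e ▸ h) fun e => e ▸ h) hs'
    · obtain ⟨j, hj, hc⟩ := c'
      exact na_e2 hYY c h hj (hc.imp (fun e => e ▸ h') fun e => e ▸ h') hs
    · exact na_e3 hYY c h (c'.imp (fun e => e ▸ h') fun e => e ▸ h') hs
    · exact na_e3 hYY c' h' (c.imp (fun e => e ▸ h) fun e => e ▸ h) hs'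
  · intro D D' j h h'
    exact hN1 D D' false j h.1 h.2 h'.1 h'.2
  · intro D D' D'' j h h' h'' hs hs'
    by_cases hj : j = 2
    · refine (hYY D D'' false true j 2 true hs').1 h h'' ?_
      rw [na_hg_tt, na_hg_ft, hj]
      simp
      norm_num
    · refine (hYY D D' false true j 0 false hs).2.1 h h' ?_
      rw [na_hg_tf, na_hg_ff]
      fin_cases j <;> simp at hj ⊢ <;> norm_num

end Pool.Agent.LIX.L
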