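import Pool.Agent.LIX.StmtsTB

/-!
# LIX, block TB: a vertical and a horizontal periodic curve meet
-/

namespace Pool.Agent.LIX

open Set Metric Complex

namespace TBPM

/-- a continuous 1-periodic function is bounded -/
theorem per_bound (u : ℝ → ℝ) (hu : Continuous u) (hp : ∀ t, u (t + 1) = u t) :
    ∃ C, 0 ≤ C ∧ ∀ t, |u t| ≤ C := by
  have hper : Function.Periodic u 1 := hp
  have hb := hper.isBounded_of_continuous one_ne_zero hu
  obtain ⟨C, hC⟩ := hb.exists_norm_le
  refine ⟨max C 0, le_max_right _ _, fun t => ?_⟩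
  have h1 := hC (u t) (mem_range_self t)
  rw [Real.norm_eq_abs] at h1
  exact h1.trans (le_max_left _ _)

/-- sign estimate: `l (l x + d)` has the sign of `x` if `|d| < |l| |x|` -/
theorem sgn_pos {l x d : ℝ} (hl : l ≠ 0) (hx : 0 < x) (hd : |d| < |l| * x) :
    0 < (l * x + d) * l := by
  have h1 : |d * l| < l * l * x := by
    rw [abs_mul]
    have h2 : 0 < |l| := abs_pos.2 hl
    calc |d| * |l| < |l| * x * |l| := mul_lt_mul_of_pos_right hd h2
      _ = |l| * |l| * x := by ring
      _ = l * l * x := by rw [abs_mul_abs_self]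
  have h3 := (abs_lt.1 h1).1
  nlinarith

theorem sgn_neg {l x d : ℝ} (hl : l ≠ 0) (hx : 0 < x) (hd : |d| < |l| * x) :
    (l * (-x) + d) * l < 0 := by
  have h := sgn_pos (d := -d) hl hx (by rwa [abs_neg])
  nlinarith

end TBPM

theorem t_PM : M_PM := by
  intro hM a b k l ha hb hk hl hap hbp
  have ha1 : Continuous fun t => (a t).1 := continuous_fst.comp ha
  have ha2 : Continuous fun t => (a t).2 := continuous_snd.comp ha
  have hb1 : Continuous fun t => (b t).1 := continuous_fst.comp hb
  have hb2 : Continuous fun t => (b t).2 := continuous_snd.comp hb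
  obtain ⟨C1, hC1, h1⟩ := TBPM.per_bound (fun t => (a t).1) ha1 (by
    intro t; simp only [hap t, Prod.fst_add, add_zero])
  obtain ⟨C2, hC2, h2⟩ := TBPM.per_bound (fun t => (a t).2 - k * t)
    (ha2.sub (continuous_const.mul continuous_id)) (by
    intro t; simp only [hap t, Prod.snd_add]; ring)
  obtain ⟨C3, hC3, h3⟩ := TBPM.per_bound (fun t => (b t).1 - l * t)
    (hb1.sub (continuous_const.mul continuous_id)) (by
    intro t; simp only [hbp t, Prod.fst_add]; ring)
  obtain ⟨C4, hC4, h4⟩ := TBPM.per_bound (fun t => (b t).2) hb2 (by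
    intro t; simp only [hbp t, Prod.snd_add, add_zero])
  have hk0 : 0 < |k| := abs_pos.2 hk
  have hl0 : 0 < |l| := abs_pos.2 hl
  obtain ⟨N, hN, hNk, hNl⟩ : ∃ N : ℝ, 0 < N ∧ C2 + C4 < |k| * N ∧ C1 + C3 < |l| * N := by
    refine ⟨(C2 + C4) / |k| + (C1 + C3) / |l| + 1, by positivity, ?_, ?_⟩
    · have h : |k| * ((C2 + C4) / |k|) = C2 + C4 := by field_simp
      have h' : 0 ≤ |k| * ((C1 + C3) / |l|) := by positivity
      nlinarith
    · have h : |l| * ((C1 + C3) / |l|) = C1 + C3 := by field_simp
      have h' : 0 ≤ |l| * ((C2 + C4) / |k|) := by positivity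
      nlinarith
  obtain ⟨p, -, hp1, hp2⟩ := hM N (fun p => ((b p.1).1 - (a p.2).1) * l)
    (fun p => ((a p.2).2 - (b p.1).2) * k) hN
    (((hb1.comp continuous_fst).sub (ha1.comp continuous_snd)).mul continuous_const).continuousOn
    (((ha2.comp continuous_snd).sub (hb2.comp continuous_fst)).mul continuous_const).continuousOn
    (by
      intro s _
      have key : ∀ x : ℝ, |((b x).1 - l * x) - (a s).1| < |l| * N := by
        intro x
        refine lt_of_le_of_lt (abs_sub _ _) ?_
        have e1 := h1 s
        have e3 := h3 x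
        linarith
      constructor
      · have h := TBPM.sgn_neg hl hN (key (-N))
        have e : (l * (-N) + (((b (-N)).1 - l * (-N)) - (a s).1)) * l
            = ((b (-N)).1 - (a s).1) * l := by ring
        rw [e] at h
        exact h
      · have h := TBPM.sgn_pos hl hN (key N)
        have e : (l * N + (((b N).1 - l * N) - (a s).1)) * l
            = ((b N).1 - (a s).1) * l := by ring
        rw [e] at h
        exact h)
    (by
      intro t _
      have key : ∀ x : ℝ, |((a x).2 - k * x) - (b t).2| < |k| * N := by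
        intro x
        refine lt_of_le_of_lt (abs_sub _ _) ?_
        have e1 := h4 t
        have e3 := h2 x
        linarith
      constructor
      · have h := TBPM.sgn_neg hk hN (key (-N))
        have e : (k * (-N) + (((a (-N)).2 - k * (-N)) - (b t).2)) * k
            = ((a (-N)).2 - (b t).2) * k := by ring
        rw [e] at h
        exact h
      · have h := TBPM.sgn_pos hk hN (key N)
        have e : (k * N + (((a N).2 - k * N) - (b t).2)) * k
            = ((a N).2 - (b t).2) * k := by ring
        rw [e] at h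
        exact h)
  refine ⟨p.2, p.1, ?_⟩
  have e1 : (b p.1).1 - (a p.2).1 = 0 := (mul_eq_zero.1 hp1).resolve_right hl
  have e2 : (a p.2).2 - (b p.1).2 = 0 := (mul_eq_zero.1 hp2).resolve_right hk
  exact Prod.ext (by linarith) (by linarith)

end Pool.Agent.LIX
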