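import Pool.Agent.LIX.TBBasic
import Pool.Agent.LIX.TB_LIFT
import Pool.Agent.LIX.TB_UNQ
import Pool.Agent.LIX.TB_HL5
import Pool.Agent.LIX.TB_HL6
import Pool.Agent.LIX.TB_PU1
import Pool.Agent.LIX.TB_PUSH
import Pool.Agent.LIX.TB_RAD
import Pool.Agent.LIX.TB_J1F
import Pool.Agent.LIX.TB_J1
import Pool.Agent.LIX.TB_MIR
import Pool.Agent.LIX.TB_PM
import Pool.Agent.LIX.S_MF
import Pool.Agent.LIX.S_NML
import Pool.Agent.LIX.S_LON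
import Pool.Agent.LIX.S_DLC
import Pool.Agent.LIX.S_CHH
import Pool.Agent.LIX.S_HLX
import Pool.Agent.LIX.S_EPT
import Pool.Agent.LIX.S_KND
import Pool.Agent.LIX.S_KIN
import Pool.Agent.LIX.L_TOR
import Pool.Agent.LIX.L_PRJ
import Pool.Agent.LIX.L_HOL
import Pool.Agent.LIX.L_RET
import Pool.Agent.LIX.L_CHD
import Pool.Agent.LIX.L_ARCS
import Pool.Agent.LIX.L_PTS
import Pool.Agent.LIX.L_LFC
import Pool.Agent.LIX.L_LCU
import Pool.Agent.LIX.L_ED0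
import Pool.Agent.LIX.L_ED
import Pool.Agent.LIX.L_CM
import Pool.Agent.LIX.L_KSU
import Pool.Agent.LIX.L_KH5
import Pool.Agent.LIX.L_KH6
import Pool.Agent.LIX.L_PER
import Pool.Agent.LIX.L_N1
import Pool.Agent.LIX.L_N2
import Pool.Agent.LIX.L_WW
import Pool.Agent.LIX.L_YY
import Pool.Agent.LIX.L_NA
import Pool.Agent.LIX.L_KDD
import Pool.Agent.LIX.L_IC
import Pool.Agent.LIX.L_IE
import Pool.Agent.LIX.L_IL
import Pool.Agent.LIX.L_TYP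
import Pool.Agent.LIX.L_HUL
import Pool.Agent.LIX.L_LBM

/-!
# LIX, block L: assembly (all statements of the block, without hypotheses)
-/

set_option autoImplicit false

namespace Pool.Agent.LIX.L

/-! ## Toolkit and block S -/

theorem b_HL5 : S_HL5 := t_HL5 t_UNQ
theorem b_HL6 : S_HL6 := t_HL6 t_HL1 t_HL2 t_BOR t_ARC
theorem b_PUSH : S_PUSH := t_PUSH t_PU1
theorem b_J1 : S_J1 := t_J1 (t_J1F b_PUSH t_RAD) t_RAD
theorem b_PM : S_PM := t_PM t_MIR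
theorem b_DLC : S.S_DLC := S.t_DLC S.t_MF S.t_NML S.t_LON
theorem b_CHH : S.S_CHH := S.t_CHH S.t_MF S.t_NML S.t_LON
theorem b_HLX : S.S_HLX := S.t_HLX S.t_MF S.t_NML b_CHH
theorem b_EPT : S.S_EPT := S.t_EPT S.t_MF S.t_NML S.t_LON
theorem b_KND : S.S_KND := S.t_KND b_HLX
theorem b_KIN : S.S_KIN := S.t_KIN b_EPT b_KND

/-! ## Block L -/

theorem a_TOR : S_TOR := t_TOR
theorem a_PRJ : S_PRJ := t_PRJ
theorem a_HOL : S_HOL := t_HOL a_TOR a_PRJ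
theorem a_RET : S_RET := t_RET a_TOR
theorem a_CHD : S_CHD := t_CHD S.t_MF S.t_LON b_DLC a_PRJ
theorem a_ARCS : S_ARCS := t_ARCS a_CHD
theorem a_PTS : S_PTS := t_PTS S.t_MF
theorem a_LFC : S_LFC := t_LFC t_LIFT a_TOR a_PRJ
theorem a_LCU : S_LCU := t_LCU a_TOR
theorem a_ED0 : S_ED0 := t_ED0 a_TOR a_PRJ a_HOL a_CHD a_LFC
theorem a_ED : S_ED := t_ED t_LIFT t_UNQ a_TOR a_PRJ a_HOL a_CHD a_LCU a_ED0
theorem a_CM : S_CM := t_CM t_LIFT t_UNQ a_TOR a_PRJ a_HOL a_LFC a_LCU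
theorem a_KSU : S_KSU := t_KSU a_TOR a_PRJ a_HOL a_CHD a_ARCS a_LCU
theorem a_KH5 : S_KH5 := t_KH5 b_HL5 a_CHD a_ED a_KSU
theorem a_KH6 : S_KH6 := t_KH6 b_HL6 a_TOR a_CHD a_ARCS a_ED a_KSU
theorem a_PER : S_PER := t_PER a_TOR a_CHD
theorem a_N1 : S_N1 := t_N1 b_PM a_TOR a_PRJ a_HOL a_ED a_CM a_PER
theorem a_N2 : S_N2 := t_N2 b_J1 a_TOR a_PRJ a_HOL a_RET a_CHD a_ED
theorem a_WW : S_WW := t_WW t_HL1 t_HL2 a_TOR a_PRJ a_HOL a_CHD a_ARCS a_ED a_KSU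
theorem a_YY : S_YY := t_YY a_PTS a_KH6 a_WW
theorem a_NA : S_NA := t_NA a_N1 a_N2 a_YY
theorem a_KDD : S_KDD := t_KDD b_EPT b_KND b_KIN
theorem a_IC : S_IC := t_IC t_HTP a_TOR a_PRJ
theorem a_IE : S_IE := t_IE a_TOR a_PRJ a_HOL a_LFC a_LCU a_ED
theorem a_IL : S_IL := t_IL t_HTP t_IMG a_TOR a_PRJ a_HOL a_CHD a_ARCS a_ED a_KSU a_IE
theorem a_TYP : S_TYP := t_TYP a_KDD a_ED a_KSU a_KH5 a_KH6 a_IC a_IE a_IL
theorem a_LBM : S_LBM := t_LBM a_TYP a_NA t_HUL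

end Pool.Agent.LIX.L
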