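import Pool.Agent.LIX.StmtsL

/-!
# LIX, block L: ED0, normal form of edge disks, first part
-/

set_option autoImplicit false

namespace Pool.Agent.LIX.L

open Set Metric Complex

theorem t_ED0 : M_ED0 := by
  intro hTOR hPRJ hHOL hCHD hLFC f b j hf hV hbd
  obtain ⟨-, -, htor, h0, hneg, hadd, -, -, -, -, -, -⟩ := hTOR
  obtain ⟨-, -, -, -, -, -, hpr, htp, -, -⟩ := hPRJ
  obtain ⟨hH1, hH2, -, -, hH5⟩ := hHOL
  obtain ⟨-, -, -, -, hcirc, -, -, -⟩ := hCHD b j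
  obtain ⟨⟨Φ, hc, hi, hp, hz⟩, -⟩ := hf
  have z0 : (0 : ℝ) ∈ Icc (-1 : ℝ) 1 := by constructor <;> norm_num
  have hfc : ContinuousOn f HDisk := by
    have h1 : ContinuousOn (fun z : ℂ => Φ (z, 0)) HDisk := by
      refine hc.comp (by fun_prop) ?_
      intro z hz'
      exact ⟨hz', z0⟩
    exact h1.congr fun z hz' => (hz z hz').symm
  have hfi : InjOn f HDisk := by
    intro z hz1 w hw1 he
    rw [← hz z hz1, ← hz w hw1] at he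
    have := hi ⟨hz1, z0⟩ ⟨hw1, z0⟩ he
    exact congrArg Prod.fst this
  have hchar : ∀ z ∈ HDisk, (f z ∈ HT ↔ z.im = 0) ∧ (f z ∈ TT.bd ↔ ‖z‖ = 1) := by
    intro z hz1
    obtain ⟨-, h2, h3, -⟩ := hp z hz1 0 z0
    rw [hz z hz1] at h2 h3
    exact ⟨h3, h2⟩
  have hmem : ∀ t : ℝ, t ∈ Icc (-1 : ℝ) 1 → (t : ℂ) ∈ HDisk := by
    intro t ht
    refine ⟨?_, by simp⟩
    rw [Complex.norm_real, Real.norm_eq_abs, abs_le]
    exact ht
  have hHT : ∀ t : ℝ, t ∈ Icc (-1 : ℝ) 1 → f t ∈ HT := fun t ht =>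
    (hchar _ (hmem t ht)).1.2 (by simp)
  have himg : f '' HDisk ∩ HT = (fun t : ℝ => f t) '' Icc (-1) 1 := by
    ext p
    constructor
    · rintro ⟨⟨z, hz1, rfl⟩, hpH⟩
      have him := (hchar z hz1).1.1 hpH
      have hzr : z = ((z.re : ℝ) : ℂ) := by
        apply Complex.ext <;> simp [him]
      refine ⟨z.re, ?_, ?_⟩
      · have h1 := hz1.1
        rw [hzr, Complex.norm_real, Real.norm_eq_abs, abs_le] at h1
        exact h1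
      · exact congrArg f hzr.symm
    · rintro ⟨t, ht, rfl⟩
      exact ⟨⟨_, hmem t ht, rfl⟩, hHT t ht⟩
  refine ⟨hfc, hfi, hchar, himg, ?_⟩
  have hm1 : (-1 : ℝ) ∈ Icc (-1 : ℝ) 1 := ⟨le_rfl, by norm_num⟩
  have hp1 : (1 : ℝ) ∈ Icc (-1 : ℝ) 1 := ⟨by norm_num, le_rfl⟩
  obtain ⟨ξ', hξc, hξt⟩ := hLFC ℝ (Icc (-1) 1) (fun t : ℝ => f t) (convex_Icc _ _)
    (hfc.comp (by fun_prop) fun t ht => hmem t ht) (fun t ht => hHT t ht)
  have hbm : f ((-1 : ℝ) : ℂ) ∈ TT.bd := (hchar _ (hmem _ hm1)).2.2 (by simp)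
  have hbp : f ((1 : ℝ) : ℂ) ∈ TT.bd := (hchar _ (hmem _ hp1)).2.2 (by simp)
  have hl0 : ξ' (-1) - pr (f ((-1 : ℝ) : ℂ)) ∈ Lam := hH5 _ (hHT _ hm1) hbm _ (hξt _ hm1)
  set l0 : ℂ := ξ' (-1) - pr (f ((-1 : ℝ) : ℂ)) with hl0d
  have hξ2 : ∀ t ∈ Icc (-1 : ℝ) 1, tor (ξ' t - l0) = f t := by
    intro t ht
    rw [← hξt t ht]
    rw [htor]
    have : ξ' t - l0 - ξ' t = -l0 := by ring
    rw [this]
    exact hneg _ hl0
  have hl1 : (ξ' 1 - l0) - pr (f ((1 : ℝ) : ℂ)) ∈ Lam := hH5 _ (hHT _ hp1) hbp _ (hξ2 _ hp1)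
  -- the end points
  have hEm : pr (f ((-1 : ℝ) : ℂ)) ∈ Chp b j ∩ sphere 0 (1 / 5) := by
    constructor
    · refine ⟨_, ?_, rfl⟩
      rw [← hbd]
      exact ⟨⟨_, hmem _ hm1, rfl⟩, hbm⟩
    · rw [mem_sphere_zero_iff_norm]
      exact (hpr _ hbm).2.2 (hHT _ hm1)
  have hEp : pr (f ((1 : ℝ) : ℂ)) ∈ Chp b j ∩ sphere 0 (1 / 5) := by
    constructor
    · refine ⟨_, ?_, rfl⟩
      rw [← hbd]
      exact ⟨⟨_, hmem _ hp1, rfl⟩, hbp⟩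
    · rw [mem_sphere_zero_iff_norm]
      exact (hpr _ hbp).2.2 (hHT _ hp1)
  have hne : pr (f ((-1 : ℝ) : ℂ)) ≠ pr (f ((1 : ℝ) : ℂ)) := by
    intro he
    have h1 := htp _ hbm (hHT _ hm1)
    have h2 := htp _ hbp (hHT _ hp1)
    rw [he, h2] at h1
    have h3 := hfi (hmem _ hp1) (hmem _ hm1) h1
    have h4 : (1 : ℝ) = -1 := by exact_mod_cast h3
    norm_num at h4
  rw [hcirc] at hEm hEp
  have hr : ∃ r : Bool, pr (f ((-1 : ℝ) : ℂ)) = cpt b j r ∧ pr (f ((1 : ℝ) : ℂ)) = cpt b j (!r) := by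
    rcases hEm with h1 | h1 <;> rcases hEp with h2 | h2
    · exact absurd (h1.trans h2.symm) hne
    · exact ⟨true, h1, h2⟩
    · exact ⟨false, h1, h2⟩
    · exact absurd (h1.trans h2.symm) hne
  obtain ⟨r, hr1, hr2⟩ := hr
  refine ⟨fun t => ξ' t - l0, (ξ' 1 - l0) - pr (f ((1 : ℝ) : ℂ)), r, hl1, hξc.sub continuousOn_const,
    ?_, hξ2, ?_, ?_, ?_, ?_, ?_⟩
  · intro s hs t ht he
    have h1 : f s = f t := by
      rw [← hξ2 s hs, ← hξ2 t ht]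
      exact congrArg tor he
    have h2 := hfi (hmem _ hs) (hmem _ ht) h1
    exact_mod_cast h2
  · show ξ' (-1) - l0 = cpt b j r
    rw [← hr1, hl0d]
    ring
  · show ξ' 1 - l0 = cpt b j (!r) + (ξ' 1 - l0 - pr (f ((1 : ℝ) : ℂ)))
    rw [← hr2]
    ring
  · simpa using hr1
  · simpa using hr2
  · intro t ht l' hl'
    have ht' : t ∈ Icc (-1 : ℝ) 1 := Ioo_subset_Icc_self ht
    have h1 : 1 / 5 ≤ ‖(ξ' t - l0) - l'‖ := (hH1 _).1 (by rw [hξ2 t ht']; exact hHT t ht') l' hl'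
    refine lt_of_le_of_ne h1 fun he => ?_
    have h2 : f (t : ℂ) ∈ TT.bd := by
      rw [← hξ2 t ht']
      exact (hH2 _).2 ⟨l', hl', he.symm⟩
    have h3 := (hchar _ (hmem t ht')).2.1 h2
    rw [Complex.norm_real, Real.norm_eq_abs] at h3
    have h4 : |t| < 1 := abs_lt.2 ht
    linarith

end Pool.Agent.LIX.L
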