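import Pool.Agent.LIX.StmtsO

/-!
# LIX, block O, module MPR: the meridian disk is a compressing disk
-/

set_option autoImplicit false

namespace Pool.Agent.LIX.O

open Set Metric Complex

noncomputable section

namespace MPRx

/-- the bicollar -/
def Ph (x : ℂ × ℝ) : ℂ × ℂ :=
  (-(((√(1 - ‖x.1‖ ^ 2 / 2) : ℝ) : ℂ) * exp ((x.2 : ℝ) * I)), ((1 / √2 : ℝ) : ℂ) * x.1)

theorem cont_Ph : Continuous Ph := by
  unfold Ph
  fun_prop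

theorem Ph_zero (z : ℂ) : Ph (z, 0) = fM z := by
  unfold Ph fM
  simp

theorem s2 : √(2 : ℝ) ^ 2 = 2 := Real.sq_sqrt (by norm_num)

theorem s2pos : 0 < √(2 : ℝ) := Real.sqrt_pos.2 (by norm_num)

theorem half_le {z : ℂ} (hz : z ∈ Disk) : 1 / 2 ≤ 1 - ‖z‖ ^ 2 / 2 := by
  have h : ‖z‖ ≤ 1 := hz
  nlinarith [norm_nonneg z]

theorem r_pos {z : ℂ} (hz : z ∈ Disk) : 0 < √(1 - ‖z‖ ^ 2 / 2) :=
  Real.sqrt_pos.2 (by linarith [half_le hz])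

theorem r_sq {z : ℂ} (hz : z ∈ Disk) : √(1 - ‖z‖ ^ 2 / 2) ^ 2 = 1 - ‖z‖ ^ 2 / 2 :=
  Real.sq_sqrt (by linarith [half_le hz])

theorem norm_fst (z : ℂ) (s : ℝ) : ‖(Ph (z, s)).1‖ = √(1 - ‖z‖ ^ 2 / 2) := by
  unfold Ph
  simp only [norm_neg, norm_mul, Complex.norm_real, Real.norm_eq_abs,
    Complex.norm_exp_ofReal_mul_I, mul_one]
  exact abs_of_nonneg (Real.sqrt_nonneg _)

theorem norm_snd (z : ℂ) (s : ℝ) : ‖(Ph (z, s)).2‖ = 1 / √2 * ‖z‖ := by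
  unfold Ph
  simp only [norm_mul, Complex.norm_real, Real.norm_eq_abs]
  rw [abs_of_pos (div_pos one_pos s2pos)]

theorem sq_snd (z : ℂ) (s : ℝ) : ‖(Ph (z, s)).2‖ ^ 2 = ‖z‖ ^ 2 / 2 := by
  rw [norm_snd, mul_pow, div_pow, s2]
  ring

theorem mem_S3 {z : ℂ} (hz : z ∈ Disk) (s : ℝ) : Ph (z, s) ∈ S3 := by
  change ‖(Ph (z, s)).1‖ ^ 2 + ‖(Ph (z, s)).2‖ ^ 2 = 1
  rw [sq_snd, norm_fst, r_sq hz]
  ring

theorem fst_re (z : ℂ) (s : ℝ) : (Ph (z, s)).1.re = -(√(1 - ‖z‖ ^ 2 / 2) * Real.cos s) := by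
  unfold Ph
  simp only [Complex.neg_re, Complex.re_ofReal_mul, Complex.exp_ofReal_mul_I_re]

theorem fst_im (z : ℂ) (s : ℝ) : (Ph (z, s)).1.im = -(√(1 - ‖z‖ ^ 2 / 2) * Real.sin s) := by
  unfold Ph
  simp only [Complex.neg_im, Complex.im_ofReal_mul, Complex.exp_ofReal_mul_I_im]

theorem cos_pos {s : ℝ} (hs : s ∈ Icc (-1 : ℝ) 1) : 0 < Real.cos s := by
  have hp := Real.pi_gt_three
  apply Real.cos_pos_of_mem_Ioo
  constructor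
  · linarith [hs.1]
  · linarith [hs.2]

theorem fst_re_neg {z : ℂ} (hz : z ∈ Disk) {s : ℝ} (hs : s ∈ Icc (-1 : ℝ) 1) :
    (Ph (z, s)).1.re < 0 := by
  rw [fst_re]
  have := mul_pos (r_pos hz) (cos_pos hs)
  linarith

theorem kap_re_pos {v : ℂ × ℝ} (hv : nrm v ≤ 1 / 5) : 0 < (kap v).1.re := by
  have h0 := G4.nrm_nonneg v
  have h1 := G4.nrm_sq' v
  have h2 : nrm v ^ 2 ≤ 1 / 25 := by nlinarith
  have hx : |v.1.re| ≤ 1 / 5 := abs_le_of_sq_le_sq (by nlinarith [sq_nonneg v.1.im, sq_nonneg v.2])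
    (by norm_num)
  have hy : |v.1.im| ≤ 1 / 5 := abs_le_of_sq_le_sq (by nlinarith [sq_nonneg v.1.re, sq_nonneg v.2])
    (by norm_num)
  have hz : |v.2| ≤ 1 / 5 := abs_le_of_sq_le_sq (by nlinarith [sq_nonneg v.1.re, sq_nonneg v.1.im])
    (by norm_num)
  rw [abs_le] at hx hy hz
  have hp := Real.pi_gt_three
  unfold kap
  simp only [Complex.re_ofReal_mul, Complex.exp_ofReal_mul_I_re]
  apply mul_pos
  · apply Real.cos_pos_of_mem_Ioo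
    constructor <;> linarith
  · apply Real.cos_pos_of_mem_Ioo
    constructor <;> linarith

theorem not_kap {z : ℂ} (hz : z ∈ Disk) {s : ℝ} (hs : s ∈ Icc (-1 : ℝ) 1) {v : ℂ × ℝ}
    (hv : nrm v ≤ 1 / 5) : kap v ≠ Ph (z, s) := by
  intro e
  have h1 := kap_re_pos hv
  rw [e] at h1
  linarith [fst_re_neg hz hs]

theorem mem_body {z : ℂ} (hz : z ∈ Disk) {s : ℝ} (hs : s ∈ Icc (-1 : ℝ) 1) :
    Ph (z, s) ∈ TT.body := by
  refine ⟨mem_S3 hz s, ?_⟩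
  rintro ⟨v, hv, e⟩
  exact not_kap hz hs (le_of_lt hv) e

theorem not_bd {z : ℂ} (hz : z ∈ Disk) {s : ℝ} (hs : s ∈ Icc (-1 : ℝ) 1) :
    Ph (z, s) ∉ TT.bd := by
  rintro ⟨v, hv, e⟩
  exact not_kap hz hs (le_of_eq hv) e

theorem mem_HT {z : ℂ} (hz : z ∈ Disk) {s : ℝ} (hs : s ∈ Icc (-1 : ℝ) 1) :
    Ph (z, s) ∈ HT ↔ ‖z‖ = 1 := by
  have h1 := r_sq hz
  have h2 := sq_snd z s
  constructor
  · rintro ⟨_, h⟩
    rw [norm_fst] at h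
    rw [← h, h1] at h2
    nlinarith [norm_nonneg z]
  · intro h
    refine ⟨mem_body hz hs, ?_⟩
    rw [h] at h2
    rw [← sq_eq_sq₀ (norm_nonneg _) (norm_nonneg _), h2, norm_fst, h1, h]
    norm_num

theorem inj_Ph : InjOn Ph (Disk ×ˢ Icc (-1) 1) := by
  rintro ⟨z, s⟩ ⟨hz, hs⟩ ⟨z', s'⟩ ⟨_, hs'⟩ e
  have e2 : ((1 / √2 : ℝ) : ℂ) * z = ((1 / √2 : ℝ) : ℂ) * z' := congrArg Prod.snd e
  have h0 : ((1 / √2 : ℝ) : ℂ) ≠ 0 := by
    have := (div_pos one_pos s2pos).ne'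
    exact_mod_cast this
  have ez : z = z' := mul_left_cancel₀ h0 e2
  subst ez
  have e3 : (Ph (z, s)).1.im = (Ph (z, s')).1.im := by rw [e]
  rw [fst_im, fst_im, neg_inj] at e3
  have e4 : Real.sin s = Real.sin s' := mul_left_cancel₀ (r_pos hz).ne' e3
  have hp := Real.pi_gt_three
  have hs1 : s ∈ Icc (-1 : ℝ) 1 := hs
  have hs1' : s' ∈ Icc (-1 : ℝ) 1 := hs'
  have e5 : s = s' := Real.injOn_sin ⟨by linarith [hs1.1], by linarith [hs1.2]⟩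
    ⟨by linarith [hs1'.1], by linarith [hs1'.2]⟩ e4
  rw [e5]

theorem snd_ne {p : ℂ × ℂ} (hp : p ∈ HT) : p.2 ≠ 0 := by
  intro h
  have h1 : ‖p.1‖ ^ 2 + ‖p.2‖ ^ 2 = 1 := hp.1.1
  have h2 : ‖p.1‖ = ‖p.2‖ := hp.2
  rw [h2, h, norm_zero] at h1
  norm_num at h1

theorem ess (hCIR : S_CIR) (hEXT : S_EXT) :
    ¬ ∃ g : ℂ → ℂ × ℂ, ContinuousOn g Disk ∧ (∀ z ∈ Disk, g z ∈ HT) ∧
      ∀ z : ℂ, ‖z‖ = 1 → g z = fM z := by
  rintro ⟨g, hg, hH, hb⟩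
  obtain ⟨φ, hφ, h⟩ := hEXT (fun z => (g z).2) 0 (continuous_snd.comp_continuousOn hg)
    (fun z hz => snd_ne (hH z hz))
  refine hCIR 0 1 one_pos ⟨?_, φ, hφ, fun x hx => ?_⟩
  · intro h0
    rw [mem_sphere, dist_self] at h0
    norm_num at h0
  · have hx1 : ‖x‖ = 1 := by
      rwa [mem_sphere_zero_iff_norm] at hx
    have h1 := h x hx
    simp only [sub_zero] at h1
    rw [hb x hx1] at h1
    have h2 : (fM x).2 = ((1 / √2 : ℝ) : ℂ) * x := rfl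
    rw [h2, norm_mul, hx1, mul_one, Complex.norm_real, Real.norm_eq_abs,
      abs_of_pos (div_pos one_pos s2pos)] at h1
    have h0 : ((1 / √2 : ℝ) : ℂ) ≠ 0 := by
      have := (div_pos one_pos s2pos).ne'
      exact_mod_cast this
    have h3 := mul_left_cancel₀ h0 h1
    rw [sub_zero, hx1, Complex.ofReal_one, one_mul]
    exact h3

end MPRx

open MPRx in
theorem t_MPR : M_MPR := by
  intro hCIR hEXT
  refine ⟨⟨⟨Ph, cont_Ph.continuousOn, inj_Ph, fun z hz s hs =>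
    ⟨mem_body hz hs, not_bd hz hs, mem_HT hz hs⟩, fun z _ => Ph_zero z⟩, ess hCIR hEXT⟩,
    fun z hz => ?_⟩
  have h0 : (0 : ℝ) ∈ Icc (-1 : ℝ) 1 := ⟨by norm_num, by norm_num⟩
  rw [← Ph_zero]
  refine ⟨fst_re_neg hz h0, mem_body hz h0, ?_⟩
  have h1 : sg true = 1 := rfl
  rw [h1, one_mul, sub_nonneg]
  have h2 : ‖(Ph (z, 0)).2‖ ^ 2 ≤ ‖(Ph (z, 0)).1‖ ^ 2 := by
    rw [sq_snd, norm_fst, r_sq hz]
    linarith [half_le hz]
  exact (sq_le_sq₀ (norm_nonneg _) (norm_nonneg _)).1 h2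

end

end Pool.Agent.LIX.O
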