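import Pool.Agent.LIX.StmtsP

/-!
# LIX, block P, module RET: retraction of the twice punctured plane
-/

set_option autoImplicit false

namespace Pool.Agent.LIX.PP

open Set Metric Pool.Agent.LIX.TR

namespace RET

lemma g1_le {x y c : ℝ} : g1 x y ≤ c ↔ (2 * x + 1) / 3 ≤ c ∧ -(2 * x + 1) ≤ c ∧ |y| ≤ c := by
  unfold g1
  simp only [max_le_iff]
  tauto

lemma g1_lt {x y c : ℝ} : g1 x y < c ↔ (2 * x + 1) / 3 < c ∧ -(2 * x + 1) < c ∧ |y| < c := by
  unfold g1
  simp only [max_lt_iff]
  tauto

lemma g1_mul {x y s : ℝ} (hs : 0 ≤ s) : g1 (-1 / 2 + (x + 1 / 2) * s) (y * s) = s * g1 x y := by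
  unfold g1
  have e1 : (2 * (-1 / 2 + (x + 1 / 2) * s) + 1) / 3 = s * ((2 * x + 1) / 3) := by ring
  have e2 : -(2 * (-1 / 2 + (x + 1 / 2) * s) + 1) = s * -(2 * x + 1) := by ring
  have e3 : |y * s| = s * |y| := by rw [abs_mul, abs_of_nonneg hs, mul_comm]
  rw [e1, e2, e3, mul_max_of_nonneg _ _ hs, mul_max_of_nonneg _ _ hs]

lemma g1_pos {x y : ℝ} (h : ¬ (x = -1 / 2 ∧ y = 0)) : 0 < g1 x y := by
  by_contra hc
  have h1 := g1_le.1 (not_lt.1 hc)
  apply h
  constructor
  · linarith [h1.1, h1.2.1]
  · exact abs_eq_zero.1 (le_antisymm h1.2.2 (abs_nonneg y))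

lemma g1_cont : Continuous fun z : ℂ => g1 z.re z.im := by
  unfold g1
  fun_prop

lemma g1_cont' : Continuous fun z : ℂ => g1 (-z.re) z.im := by
  unfold g1
  fun_prop

/-- the factor -/
noncomputable def sc (t : ℝ) : ℝ := max 1 (1 / (7 * t))

lemma sc_one {t : ℝ} (h : 1 / 7 ≤ t) : sc t = 1 := by
  unfold sc
  apply max_eq_left
  rw [div_le_one (by linarith)]
  linarith

lemma sc_mul {t : ℝ} (h0 : 0 < t) (h : t < 1 / 7) : sc t * t = 1 / 7 := by
  unfold sc
  rw [max_eq_right]
  · field_simp
  · rw [le_div_iff₀ (by linarith)]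
    linarith

lemma sc_nonneg (t : ℝ) : 0 ≤ sc t := le_trans zero_le_one (le_max_left _ _)

/-- the radial projections -/
noncomputable def W (z : ℂ) : ℂ :=
  ⟨z.re + (z.re + 1 / 2) * (sc (g1 z.re z.im) - 1) + (z.re - 1 / 2) * (sc (g1 (-z.re) z.im) - 1),
    z.im + z.im * (sc (g1 z.re z.im) - 1) + z.im * (sc (g1 (-z.re) z.im) - 1)⟩

/-- the clamp -/
noncomputable def cl (w : ℂ) : ℂ := ⟨max (-1) (min 1 w.re), max (-1) (min 1 w.im)⟩

lemma cl_eq {w : ℂ} (h1 : |w.re| ≤ 1) (h2 : |w.im| ≤ 1) : cl w = w := by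
  rw [abs_le] at h1 h2
  apply Complex.ext
  · show max (-1) (min 1 w.re) = w.re
    rw [min_eq_right h1.2, max_eq_right h1.1]
  · show max (-1) (min 1 w.im) = w.im
    rw [min_eq_right h2.2, max_eq_right h2.1]

lemma g1_other {x y : ℝ} (h : g1 x y < 1 / 7) : 1 / 7 ≤ g1 (-x) y := by
  by_contra hc
  have h1 := (g1_lt.1 h).1
  have h2 := (g1_lt.1 (not_le.1 hc)).1
  linarith

/-- `g1 ≥ 1/7` means that we are not in the open rectangle -/
lemma rect1 {x y : ℝ} (h : 1 / 7 ≤ g1 x y) : ¬ (-4 / 7 < x ∧ x < -2 / 7 ∧ |y| < 1 / 7) := by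
  rintro ⟨h1, h2, h3⟩
  have : g1 x y < 1 / 7 := g1_lt.2 ⟨by linarith, by linarith, h3⟩
  linarith

lemma rect2 {x y : ℝ} (h : 1 / 7 ≤ g1 (-x) y) : ¬ (2 / 7 < x ∧ x < 4 / 7 ∧ |y| < 1 / 7) := by
  rintro ⟨h1, h2, h3⟩
  have : g1 (-x) y < 1 / 7 := g1_lt.2 ⟨by linarith, by linarith, h3⟩
  linarith

lemma rect1' {x y : ℝ} (h : ¬ (-4 / 7 < x ∧ x < -2 / 7 ∧ |y| < 1 / 7)) : 1 / 7 ≤ g1 x y := by
  by_contra hc
  obtain ⟨h1, h2, h3⟩ := g1_lt.1 (not_le.1 hc)
  exact h ⟨by linarith, by linarith, h3⟩

lemma rect2' {x y : ℝ} (h : ¬ (2 / 7 < x ∧ x < 4 / 7 ∧ |y| < 1 / 7)) : 1 / 7 ≤ g1 (-x) y := by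
  by_contra hc
  obtain ⟨h1, h2, h3⟩ := g1_lt.1 (not_le.1 hc)
  exact h ⟨by linarith, by linarith, h3⟩

lemma W_eq {z : ℂ} (h1 : 1 / 7 ≤ g1 z.re z.im) (h2 : 1 / 7 ≤ g1 (-z.re) z.im) : W z = z := by
  apply Complex.ext
  · show z.re + (z.re + 1 / 2) * (sc (g1 z.re z.im) - 1) +
      (z.re - 1 / 2) * (sc (g1 (-z.re) z.im) - 1) = z.re
    rw [sc_one h1, sc_one h2]
    ring
  · show z.im + z.im * (sc (g1 z.re z.im) - 1) + z.im * (sc (g1 (-z.re) z.im) - 1) = z.im
    rw [sc_one h1, sc_one h2]
    ring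

lemma mem_of_small {x y : ℝ} (h1 : g1 x y = 1 / 7) :
    |x| ≤ 1 ∧ |y| ≤ 1 ∧ 1 / 7 ≤ g1 (-x) y := by
  obtain ⟨a, b, c⟩ := g1_le.1 h1.le
  refine ⟨abs_le.2 ⟨by linarith, by linarith⟩, by linarith, ?_⟩
  by_contra hc
  have h2 := (g1_lt.1 (not_le.1 hc)).1
  linarith

end RET

open RET

theorem t_RET : Stmt_RET := by
  refine ⟨fun z => cl (W z), ?_, ?_, ?_⟩
  · have hc1 : ContinuousOn (fun z : ℂ => sc (g1 z.re z.im)) {z | z ≠ -1 / 2 ∧ z ≠ 1 / 2} := by
      unfold sc
      apply ContinuousOn.sup continuousOn_const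
      apply ContinuousOn.div continuousOn_const
      · exact (continuous_const.mul g1_cont).continuousOn
      · rintro z ⟨hz, _⟩ h0
        have : 0 < g1 z.re z.im := by
          apply g1_pos
          rintro ⟨h1, h2⟩
          apply hz
          apply Complex.ext
          · rw [h1]
            norm_num
          · rw [h2]
            norm_num
        linarith
    have hc2 : ContinuousOn (fun z : ℂ => sc (g1 (-z.re) z.im))
        {z | z ≠ -1 / 2 ∧ z ≠ 1 / 2} := by
      unfold sc
      apply ContinuousOn.sup continuousOn_const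
      apply ContinuousOn.div continuousOn_const
      · exact (continuous_const.mul g1_cont').continuousOn
      · rintro z ⟨_, hz⟩ h0
        have : 0 < g1 (-z.re) z.im := by
          apply g1_pos
          rintro ⟨h1, h2⟩
          apply hz
          apply Complex.ext
          · have : z.re = 1 / 2 := by linarith
            rw [this]
            norm_num
          · rw [h2]
            norm_num
        linarith
    have hre : Continuous fun z : ℂ => z.re := Complex.continuous_re
    have him : Continuous fun z : ℂ => z.im := Complex.continuous_im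
    have hW1 : ContinuousOn (fun z : ℂ => (W z).re) {z | z ≠ -1 / 2 ∧ z ≠ 1 / 2} := by
      show ContinuousOn (fun z : ℂ => z.re + (z.re + 1 / 2) * (sc (g1 z.re z.im) - 1) +
        (z.re - 1 / 2) * (sc (g1 (-z.re) z.im) - 1)) _
      apply ContinuousOn.add
      · apply ContinuousOn.add hre.continuousOn
        exact (hre.add continuous_const).continuousOn.mul (hc1.sub continuousOn_const)
      · exact (hre.sub continuous_const).continuousOn.mul (hc2.sub continuousOn_const)
    have hW2 : ContinuousOn (fun z : ℂ => (W z).im) {z | z ≠ -1 / 2 ∧ z ≠ 1 / 2} := by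
      show ContinuousOn (fun z : ℂ => z.im + z.im * (sc (g1 z.re z.im) - 1) +
        z.im * (sc (g1 (-z.re) z.im) - 1)) _
      apply ContinuousOn.add
      · apply ContinuousOn.add him.continuousOn
        exact him.continuousOn.mul (hc1.sub continuousOn_const)
      · exact him.continuousOn.mul (hc2.sub continuousOn_const)
    have e : (fun z : ℂ => cl (W z)) = fun z : ℂ =>
        (((max (-1) (min 1 (W z).re) : ℝ) : ℂ) + ((max (-1) (min 1 (W z).im) : ℝ) : ℂ) * Complex.I) := by
      funext z
      apply Complex.ext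
      · simp [cl]
      · simp [cl]
    rw [e]
    apply ContinuousOn.add
    · apply Complex.continuous_ofReal.comp_continuousOn
      exact continuousOn_const.sup (continuousOn_const.inf hW1)
    · apply ContinuousOn.mul _ continuousOn_const
      apply Complex.continuous_ofReal.comp_continuousOn
      exact continuousOn_const.sup (continuousOn_const.inf hW2)
  · intro z hz1 hz2
    show cl (W z) ∈ PQ
    by_cases h1 : g1 z.re z.im < 1 / 7
    · have h2 := g1_other h1
      have h0 : 0 < g1 z.re z.im := by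
        apply g1_pos
        rintro ⟨a, b⟩
        apply hz1
        apply Complex.ext
        · rw [a]
          norm_num
        · rw [b]
          norm_num
      have e1 : (W z).re = -1 / 2 + (z.re + 1 / 2) * sc (g1 z.re z.im) := by
        show z.re + (z.re + 1 / 2) * (sc (g1 z.re z.im) - 1) +
          (z.re - 1 / 2) * (sc (g1 (-z.re) z.im) - 1) = _
        rw [sc_one h2]
        ring
      have e2 : (W z).im = z.im * sc (g1 z.re z.im) := by
        show z.im + z.im * (sc (g1 z.re z.im) - 1) + z.im * (sc (g1 (-z.re) z.im) - 1) = _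
        rw [sc_one h2]
        ring
      have e3 : g1 (W z).re (W z).im = 1 / 7 := by
        rw [e1, e2, g1_mul (sc_nonneg _), sc_mul h0 h1]
      obtain ⟨a, b, c⟩ := mem_of_small e3
      rw [cl_eq a b]
      exact ⟨a, b, rect1 e3.ge, rect2 c⟩
    · by_cases h2 : g1 (-z.re) z.im < 1 / 7
      · have h0 : 0 < g1 (-z.re) z.im := by
          apply g1_pos
          rintro ⟨a, b⟩
          apply hz2
          apply Complex.ext
          · have : z.re = 1 / 2 := by linarith
            rw [this]
            norm_num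
          · rw [b]
            norm_num
        have e1 : -(W z).re = -1 / 2 + (-z.re + 1 / 2) * sc (g1 (-z.re) z.im) := by
          show -(z.re + (z.re + 1 / 2) * (sc (g1 z.re z.im) - 1) +
            (z.re - 1 / 2) * (sc (g1 (-z.re) z.im) - 1)) = _
          rw [sc_one (not_lt.1 h1)]
          ring
        have e2 : (W z).im = z.im * sc (g1 (-z.re) z.im) := by
          show z.im + z.im * (sc (g1 z.re z.im) - 1) + z.im * (sc (g1 (-z.re) z.im) - 1) = _
          rw [sc_one (not_lt.1 h1)]
          ring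
        have e3 : g1 (-(W z).re) (W z).im = 1 / 7 := by
          rw [e1, e2, g1_mul (sc_nonneg _), sc_mul h0 h2]
        obtain ⟨a, b, c⟩ := mem_of_small e3
        rw [neg_neg] at c
        rw [abs_neg] at a
        rw [cl_eq a b]
        exact ⟨a, b, rect1 c, rect2 e3.ge⟩
      · rw [W_eq (not_lt.1 h1) (not_lt.1 h2)]
        by_cases h3 : |z.re| ≤ 1 ∧ |z.im| ≤ 1
        · rw [cl_eq h3.1 h3.2]
          exact ⟨h3.1, h3.2, rect1 (not_lt.1 h1), rect2 (not_lt.1 h2)⟩
        · have b1 : |(cl z).re| ≤ 1 :=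
            abs_le.2 ⟨le_max_left _ _, max_le (by norm_num) (min_le_left _ _)⟩
          have b2 : |(cl z).im| ≤ 1 :=
            abs_le.2 ⟨le_max_left _ _, max_le (by norm_num) (min_le_left _ _)⟩
          have b3 : |(cl z).re| = 1 ∨ |(cl z).im| = 1 := by
            by_cases h4 : |z.re| ≤ 1
            · right
              have h5 : ¬ |z.im| ≤ 1 := fun h => h3 ⟨h4, h⟩
              show |max (-1) (min 1 z.im)| = 1
              rcases lt_abs.1 (not_le.1 h5) with h6 | h6
              · rw [min_eq_left h6.le]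
                norm_num
              · rw [min_eq_right (by linarith), max_eq_left (by linarith)]
                norm_num
            · left
              show |max (-1) (min 1 z.re)| = 1
              rcases lt_abs.1 (not_le.1 h4) with h6 | h6
              · rw [min_eq_left h6.le]
                norm_num
              · rw [min_eq_right (by linarith), max_eq_left (by linarith)]
                norm_num
          refine ⟨b1, b2, ?_, ?_⟩
          · rintro ⟨c1, c2, c3⟩
            rcases b3 with b3 | b3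
            · rcases (abs_eq (by norm_num : (0 : ℝ) ≤ 1)).1 b3 with h | h <;> linarith
            · linarith
          · rintro ⟨c1, c2, c3⟩
            rcases b3 with b3 | b3
            · rcases (abs_eq (by norm_num : (0 : ℝ) ≤ 1)).1 b3 with h | h <;> linarith
            · linarith
  · rintro z ⟨h1, h2, h3, h4⟩
    show cl (W z) = z
    rw [W_eq (rect1' h3) (rect2' h4), cl_eq h1 h2]

end Pool.Agent.LIX.PP
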