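import Pool.Agent.LIX.S_MF

/-!
# LIX, block S: the chords `A3` and `B3` are great half circles
-/

set_option autoImplicit false

namespace Pool.Agent.LIX.S

open Set Metric Complex

/-- The height above the third chord is linear. -/
theorem dl_two (hL : S_LON) (b : Bool) : ∀ v ∈ Hem b, dl b 2 v = v.2 + sg b * v.1.re := by
  intro v hv
  by_cases h0 : v.1 = 0
  · unfold dl
    rw [h0]
    simp
  · obtain ⟨h1, h2, -, -⟩ := (hL b).2 v h0 hv.2
    have h1' : lon b v ∈ Icc (0 : ℝ) 1 := h1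
    obtain ⟨f, hf⟩ : ∃ f, f = lon b v := ⟨_, rfl⟩
    rw [← hf] at h1' h2
    have hM : Mf (hj 2 f) = - Real.cos (Real.pi * f) := by
      have : hj 2 f = 6 + 4 * f := rfl
      rw [this, MFx.Mf_mid (by linarith [h1'.1]) (by linarith [h1'.2]),
        show Real.pi / 4 * (6 + 4 * f - 8) = Real.pi * f - Real.pi / 2 by ring, Real.sin_sub_pi_div_two]
    have hre : v.1.re = sg b * (‖v.1‖ * Real.cos (Real.pi * f)) := by
      have h3 : (exp ((Real.pi * f : ℝ) * I)).re = Real.cos (Real.pi * f) := Complex.exp_ofReal_mul_I_re _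
      have h4 : v.1.re = ((sg b : ℂ) * (‖v.1‖ : ℂ) * exp ((Real.pi * f : ℝ) * I)).re := congrArg Complex.re h2
      rw [h4, ← Complex.ofReal_mul, Complex.re_ofReal_mul, h3]
      ring
    have hsg : sg b * sg b = 1 := by
      cases b <;> simp [sg]
    show v.2 - ‖v.1‖ * Mf (hj 2 (lon b v)) = _
    rw [← hf, hM, hre, ← mul_assoc (sg b), hsg]
    ring

/-- Near the great half circles `A3` and `B3` the skeleton is the chord. -/
theorem skl_two (hL : S_LON) (hK : S_LSK) (b : Bool) : ∀ v ∈ Hem b, v ∈ Skl →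
    |v.2 + sg b * v.1.re| < 1 / 200 → v.2 + sg b * v.1.re = 0 := by
  intro v hv hs hd
  rw [← dl_two hL b v hv]
  rw [← dl_two hL b v hv] at hd
  apply hK b 2 v hv hs
  have h1 : dl b 2 v = v.2 + sg b * v.1.re := dl_two hL b v hv
  have h2 : ‖v.1‖ ^ 2 + v.2 ^ 2 = 1 := hv.1
  have h3 : |v.1.re| ≤ ‖v.1‖ := Complex.abs_re_le_norm _
  have h4 : |sg b * v.1.re| = |v.1.re| := by
    rw [abs_mul]
    cases b <;> simp [sg]
  have h5 : |v.2| ≤ ‖v.1‖ + 1 / 200 := by
    have : v.2 = dl b 2 v - sg b * v.1.re := by rw [h1]; ring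
    rw [this]
    calc |dl b 2 v - sg b * v.1.re| ≤ |dl b 2 v| + |sg b * v.1.re| := abs_sub _ _
      _ ≤ _ := by rw [h4]; linarith
  have h6 : 1 / 2 ≤ ‖v.1‖ := by
    by_contra hc
    push Not at hc
    have h7 : v.2 ^ 2 ≤ (1 / 2 + 1 / 200) ^ 2 := by
      rw [← sq_abs]
      apply pow_le_pow_left₀ (abs_nonneg _)
      linarith
    nlinarith [norm_nonneg v.1]
  linarith

end Pool.Agent.LIX.S
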