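import Pool.Agent.LIX.StmtsS

/-!
# LIX, block S, module DEC: the finite combinatorics
-/

set_option autoImplicit false

namespace Pool.Agent.LIX.S

set_option maxRecDepth 100000 in
/-- The finite combinatorics of chords and collars. -/
theorem t_DEC : S_DEC := by
  unfold S_DEC
  refine ⟨by decide, by decide, by decide, by decide⟩

end Pool.Agent.LIX.S
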