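import Pool.Agent.LIX.StmtsS

/-!
# LIX, block S, module FAM: sides and kinds of families of disks
-/

set_option autoImplicit false

namespace Pool.Agent.LIX.S

open Set Metric Complex

/-- Module FAM. -/
theorem t_FAM : M_FAM := by
  intro hK hI Y _ _ T H V c hc F
  obtain ⟨hK1, hK2⟩ := hK Y T H V c hc
  obtain ⟨hI1, hI2, hI3⟩ := hI Y T H V c hc
  constructor
  · intro hF hpar
    obtain ⟨b, hb⟩ := (hK1 _ (hpar 0 ⟨le_rfl, zero_le_one⟩)).2
    refine ⟨b, ?_⟩
    intro t ht z hz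
    have hiso : Isotopic T H ((fun z => F (z, 0)) '' Disk) ((fun z => F (z, t)) '' Disk) := by
      left
      refine ⟨fun p => F (p.1, t * p.2), ?_, ?_, ?_, ?_⟩
      · apply hF.comp (f := fun p : ℂ × ℝ => (p.1, t * p.2)) (by fun_prop)
        intro p hp
        exact ⟨hp.1, mul_nonneg ht.1 hp.2.1, mul_le_one₀ ht.2 hp.2.1 hp.2.2⟩
      · intro s hs
        exact hpar (t * s) ⟨mul_nonneg ht.1 hs.1, mul_le_one₀ ht.2 hs.1 hs.2⟩
      · simp only [mul_zero]
      · simp only [mul_one]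
    exact hI3 _ _ b hiso hb ⟨z, hz, rfl⟩
  · intro hF hpar
    obtain ⟨q, hq, hqs⟩ := hK2 _ (hpar 0 ⟨le_rfl, zero_le_one⟩)
    have hiso : ∀ t ∈ Icc (0 : ℝ) 1,
        Isotopic T H ((fun z => F (z, 0)) '' HDisk) ((fun z => F (z, t)) '' HDisk) := by
      intro t ht
      right
      refine ⟨fun p => F (p.1, t * p.2), ?_, ?_, ?_, ?_⟩
      · apply hF.comp (f := fun p : ℂ × ℝ => (p.1, t * p.2)) (by fun_prop)
        intro p hp
        exact ⟨hp.1, mul_nonneg ht.1 hp.2.1, mul_le_one₀ ht.2 hp.2.1 hp.2.2⟩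
      · intro s hs
        exact hpar (t * s) ⟨mul_nonneg ht.1 hs.1, mul_le_one₀ ht.2 hs.1 hs.2⟩
      · simp only [mul_zero]
      · simp only [mul_one]
    refine ⟨q.1, q.2, ?_, ?_⟩
    · intro t ht z hz
      exact hI3 _ _ q.1 (hiso t ht) hqs ⟨z, hz, rfl⟩
    · intro t ht
      exact hI2 _ _ (some q) (hiso t ht) hq

end Pool.Agent.LIX.S
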