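import Pool.Agent.LIX.StmtsS

/-!
# LIX, block S: graph disks are images of parametrised edge disks
-/

set_option autoImplicit false

namespace Pool.Agent.LIX.S

open Set Metric Complex

/-- The graph disk over a region is the image of an edge disk. -/
theorem t_GD (hQ : S_QI) (hG : S_GE) : ∀ (Y : Type) [TopologicalSpace Y] [T2Space Y] (T : Cells Y) (H : Set Y)
    (V : Bool → Set Y) (c : (ℂ × ℝ) × ℝ → Y), Collar T H V c → ∀ (J : Ct) (η : ℂ × ℝ → ℝ), Adm J η →
    ∃ f, IsEdgePar T H f ∧ f '' HDisk = GD c J η := by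
  intro Y _ _ T H V c hc J η hη
  refine ⟨_, hG Y T H V c hc J η hη, ?_⟩
  unfold GD
  rw [← (hQ J.1 J.2.1 J.2.2).2.2.2, image_image]

end Pool.Agent.LIX.S
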