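import Pool.Agent.LIX.StmtsS

/-!
# LIX, module S_PE: graphs over a hemisphere are compressing disks
-/

set_option autoImplicit false

namespace Pool.Agent.LIX.S

open Set Metric Complex

noncomputable section

namespace PEx

theorem sg_sq (b : Bool) : sg b * sg b = 1 := by
  cases b <;> simp [sg]

theorem sg_ne (b : Bool) : sg b ≠ 0 := by
  cases b <;> simp [sg]

theorem qP_re (b : Bool) (w : ℂ) : (qP b w).1.re = w.re := by
  simp [qP]

theorem qP_im (b : Bool) (w : ℂ) : (qP b w).1.im = sg b * √(1 - ‖w‖ ^ 2) := by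
  simp only [qP, add_im, ofReal_im, zero_add, mul_im, ofReal_re, I_im, I_re, mul_one, mul_zero,
    add_zero]

theorem qP_snd (b : Bool) (w : ℂ) : (qP b w).2 = w.im := rfl

theorem normsq (w : ℂ) : ‖w‖ ^ 2 = w.re ^ 2 + w.im ^ 2 := by
  rw [← normSq_eq_norm_sq, normSq_apply]
  ring

theorem qP_mem (b : Bool) {w : ℂ} (hw : w ∈ Disk) : qP b w ∈ Hem b := by
  have hw1 : ‖w‖ ≤ 1 := hw
  have h1 : 0 ≤ 1 - ‖w‖ ^ 2 := by nlinarith [norm_nonneg w]
  constructor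
  · change ‖(qP b w).1‖ ^ 2 + (qP b w).2 ^ 2 = 1
    rw [normsq, qP_re, qP_im, qP_snd, mul_pow, Real.sq_sqrt h1, sq (sg b), sg_sq, normsq]
    ring
  · rw [qP_im, ← mul_assoc, sg_sq, one_mul]
    exact Real.sqrt_nonneg _

theorem qP_im_zero (b : Bool) {w : ℂ} (hw : w ∈ Disk) : (qP b w).1.im = 0 ↔ ‖w‖ = 1 := by
  have hw1 : ‖w‖ ≤ 1 := hw
  have h1 : 0 ≤ 1 - ‖w‖ ^ 2 := by nlinarith [norm_nonneg w]
  rw [qP_im, mul_eq_zero, or_iff_right (sg_ne b), Real.sqrt_eq_zero h1]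
  constructor
  · intro h
    nlinarith [norm_nonneg w]
  · intro h
    rw [h]
    norm_num

theorem qP_cont (b : Bool) : Continuous (qP b) := by
  unfold qP
  fun_prop

theorem qP_inj (b : Bool) {w w' : ℂ} (h : qP b w = qP b w') : w = w' := by
  apply Complex.ext
  · rw [← qP_re b w, ← qP_re b w', h]
  · rw [← qP_snd b w, ← qP_snd b w', h]

theorem qP_image (b : Bool) : qP b '' Disk = Hem b := by
  apply Subset.antisymm
  · rintro _ ⟨w, hw, rfl⟩
    exact qP_mem b hw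
  · rintro v ⟨hv1, hv2⟩
    have hv3 : ‖v.1‖ ^ 2 + v.2 ^ 2 = 1 := hv1
    rw [normsq] at hv3
    have h1 : ‖(⟨v.1.re, v.2⟩ : ℂ)‖ ^ 2 = 1 - v.1.im ^ 2 := by
      rw [normsq]
      simp only
      linarith
    refine ⟨⟨v.1.re, v.2⟩, ?_, ?_⟩
    · change ‖(⟨v.1.re, v.2⟩ : ℂ)‖ ≤ 1
      nlinarith [norm_nonneg (⟨v.1.re, v.2⟩ : ℂ), sq_nonneg v.1.im]
    · have h2 : √(1 - ‖(⟨v.1.re, v.2⟩ : ℂ)‖ ^ 2) = sg b * v.1.im := by
        rw [h1]
        have h3 : 1 - (1 - v.1.im ^ 2) = (sg b * v.1.im) ^ 2 := by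
          rw [mul_pow, sq (sg b), sg_sq]
          ring
        rw [h3, Real.sqrt_sq hv2]
      refine Prod.ext (Complex.ext ?_ ?_) ?_
      · rw [qP_re]
      · rw [qP_im, h2, ← mul_assoc, sg_sq, one_mul]
      · rfl

end PEx

theorem t_PE : S_PE := by
  intro Y _ _ T H V c hc hper b η hη
  refine ⟨⟨⟨fun p => c (qP b p.1, η (qP b p.1) * (1 + p.2 / 2)), ?_, ?_, ?_, ?_⟩, ?_⟩,
    PEx.qP_image b⟩
  · have hηc : ContinuousOn (fun p : ℂ × ℝ => η (qP b p.1)) (Disk ×ˢ Icc (-1) 1) := by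
      refine hη.1.comp ((PEx.qP_cont b).comp continuous_fst).continuousOn ?_
      intro p hp
      exact PEx.qP_mem b hp.1
    refine hc.cont.comp (f := fun p : ℂ × ℝ => (qP b p.1, η (qP b p.1) * (1 + p.2 / 2))) ?_ ?_
    · refine ContinuousOn.prodMk ((PEx.qP_cont b).comp continuous_fst).continuousOn ?_
      exact hηc.mul (by fun_prop)
    · rintro ⟨w, s⟩ ⟨hw, hs⟩
      have h1 := hη.2 _ (PEx.qP_mem b hw)
      have hs1 : (-1 : ℝ) ≤ s := hs.1
      have hs2 : s ≤ (1 : ℝ) := hs.2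
      refine ⟨(PEx.qP_mem b hw).1, ?_, ?_⟩
      · change 0 ≤ η (qP b w) * (1 + s / 2)
        exact mul_nonneg h1.1.le (by linarith)
      · change η (qP b w) * (1 + s / 2) ≤ 1
        nlinarith [h1.1, h1.2]
  · have key : ∀ w ∈ Disk, ∀ s ∈ Icc (-1 : ℝ) 1,
        (qP b w, η (qP b w) * (1 + s / 2)) ∈ Sph ×ˢ Icc (0 : ℝ) 1 := by
      intro w hw s hs
      have h1 := hη.2 _ (PEx.qP_mem b hw)
      have hs1 : (-1 : ℝ) ≤ s := hs.1
      have hs2 : s ≤ (1 : ℝ) := hs.2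
      refine ⟨(PEx.qP_mem b hw).1, ?_, ?_⟩
      · exact mul_nonneg h1.1.le (by linarith)
      · change η (qP b w) * (1 + s / 2) ≤ 1
        nlinarith [h1.1, h1.2]
    rintro ⟨w, s⟩ ⟨hw, hs⟩ ⟨w', s'⟩ ⟨hw', hs'⟩ h
    have h2 := hc.inj (key w hw s hs) (key w' hw' s' hs') h
    have h3 : w = w' := PEx.qP_inj b (congrArg Prod.fst h2)
    subst h3
    have h4 : η (qP b w) * (1 + s / 2) = η (qP b w) * (1 + s' / 2) := congrArg Prod.snd h2
    have h5 := (hη.2 _ (PEx.qP_mem b hw)).1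
    have h6 := mul_left_cancel₀ h5.ne' h4
    have h7 : s = s' := by linarith
    rw [h7]
  · intro w hw s hs
    have h1 := hη.2 _ (PEx.qP_mem b hw)
    have hs1 : (-1 : ℝ) ≤ s := hs.1
    have hs2 : s ≤ (1 : ℝ) := hs.2
    have hpos : 0 < η (qP b w) * (1 + s / 2) := mul_pos h1.1 (by linarith)
    have hle : η (qP b w) * (1 + s / 2) ≤ 1 := by nlinarith [h1.1, h1.2]
    have hmem : qP b w ∈ Sph := (PEx.qP_mem b hw).1
    refine ⟨hc.body _ hmem _ ⟨hpos.le, hle⟩, ?_, ?_⟩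
    · intro h2
      rw [hc.bd] at h2
      obtain ⟨⟨v', l'⟩, ⟨hv', hl'⟩, he⟩ := h2
      have hl0 : l' = 0 := hl'
      subst hl0
      have h3 := hc.inj ⟨hv', ⟨le_rfl, zero_le_one⟩⟩ ⟨hmem, ⟨hpos.le, hle⟩⟩ he
      exact hpos.ne (congrArg Prod.snd h3)
    · rw [hc.surf _ hmem _ ⟨hpos.le, hle⟩]
      exact PEx.qP_im_zero b hw
  · intro w _
    simp
  · rintro ⟨g, gc, gH, gF⟩
    have hsph : ∀ w ∈ sphere (0 : ℂ) 1, w ∈ Disk ∧
        qP b w = (((w.re : ℝ) : ℂ), w.im) := by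
      intro w hw
      have hw1 : ‖w‖ = 1 := mem_sphere_zero_iff_norm.1 hw
      refine ⟨hw1.le, ?_⟩
      simp [qP, hw1]
    refine hper (fun w => η (((w.re : ℝ) : ℂ), w.im)) ?_ ?_ ⟨g, gc, gH, ?_⟩
    · have h1 : ContinuousOn (fun w : ℂ => η (qP b w)) (sphere 0 1) := by
        refine hη.1.comp (PEx.qP_cont b).continuousOn ?_
        intro w hw
        exact PEx.qP_mem b (hsph w hw).1
      refine h1.congr ?_
      intro w hw
      simp only
      rw [(hsph w hw).2]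
    · intro w hw
      have h1 := hη.2 _ (PEx.qP_mem b (hsph w hw).1)
      rw [(hsph w hw).2] at h1
      exact ⟨h1.1, h1.2.trans (by norm_num)⟩
    · intro w hw
      have hw1 : w ∈ sphere (0 : ℂ) 1 := mem_sphere_zero_iff_norm.2 hw
      rw [gF w hw]
      simp only
      rw [(hsph w hw1).2]

end

end Pool.Agent.LIX.S
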