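import Pool.Agent.LIX.KPot

/-!
# LIX, block K: statements of the modules (abstract complexes, homotopy, label maps)

Module `X` proves `theorem t_X : M_X` (or `t_X : S_X` if there is no `M_X`) in the namespace
`Pool.Agent.LIX.K`, in the file `Pool/Agent/LIX/K_X.lean`, importing only this file.

Available and proved (files `KTop`, `KSC`, `KPot`, namespace `Pool.Agent.LIX.Cpx`):
`continuous_iff` (maps out of `K.Space`), `coord_cont` (coordinates are continuous), `cont_of_simplex`
(a map into `K.Space` with all supports in one simplex and continuous coordinates is continuous),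
`contOn_of_simplex`, `vert`, `seg`, `spath`, `sc` (class of the straight path), `sc_eq`, `sc_trans`,
`sc_self`, `Pot`, `Pot.simplyConnected`.
-/

set_option autoImplicit false

namespace Pool.Agent.LIX.K

open Set Topology
open scoped unitInterval

/-- the unit sphere of the `l¹` norm -/
abbrev Sph (m : ℕ) := {z : Fin (m + 1) → ℝ // ∑ i, |z i| = 1}

/-- LAB (K2). A label map whose labels on every simplex have `0` outside their convex hull induces a
continuous map to the complement of `0`. PROOF: `Cpx.continuous_iff`: on the simplex `s` the map is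
`y ↦ ∑ v : s, y v • lab v` (`Finsupp.sum_of_support_subset`, `Cpx.simplexMap_apply`), continuous. For
`x : K.Space` the value is a convex combination of the labels of the support of `x`, which is a simplex
(`Finset.centerMass_mem_convexHull` or `Convex.sum_mem`), so it is not `0`. -/
def S_LAB : Prop := ∀ (V : Type) (K : Cpx V) (n : ℕ) (lab : V → (Fin n → ℝ)),
  (∀ s ∈ K.faces, (0 : Fin n → ℝ) ∉ convexHull ℝ (lab '' (s : Set V))) →
  Continuous (fun x : K.Space => x.1.sum fun v r => r • lab v) ∧
  ∀ x : K.Space, (x.1.sum fun v r => r • lab v) ≠ 0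

open Classical in
/-- OCT. The octahedral sphere in the complex. PROOF: `o z` has the coordinates
`∑ i, (if v = pos i then max (z i) 0 else 0) + ∑ i, (if v = neg i then max (-z i) 0 else 0)`, i.e. the Finsupp
`∑ i, Finsupp.single (pos i) (max (z i) 0) + ∑ i, Finsupp.single (neg i) (max (-z i) 0)`; nonnegative, the sum is
`∑ |z i| = 1`, the support is contained in the face of `b i = decide (0 ≤ z i)` and nonempty (sum 1), so it is a
face by `down_closed`. Continuity: the sphere is the finite union of the closed sets `{z | ∀ i, (b i = true → 0 ≤ z i) ∧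
(b i = false → z i ≤ 0)}` (`LocallyFinite.continuous` / `continuous_of_cover_nhds` type lemma: `LocallyFinite.continuous`), on each of them
the supports are contained in one face: `Cpx.contOn_of_simplex`. (`pos`, `neg` need not be injective for this.)
The label sum is `∑ i, (max (z i) 0) • e_i - ∑ i, (max (-z i) 0) • e_i = z` (`Finsupp.sum_add_index'`,
`Finsupp.sum_finset_sum_index`, `Finsupp.sum_single_index`). -/
def S_OCT : Prop := ∀ (V : Type) (K : Cpx V) (m : ℕ) (pos neg : Fin (m + 1) → V),
  (∀ b : Fin (m + 1) → Bool,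
    (Finset.univ.image fun i => if b i = true then pos i else neg i) ∈ K.faces) →
  ∃ o : Sph m → K.Space, Continuous o ∧ ∀ lab : V → (Fin (m + 1) → ℝ),
    (∀ i, lab (pos i) = Pi.single i 1) → (∀ i, lab (neg i) = - Pi.single i 1) →
    ∀ z : Sph m, ((o z).1.sum fun v r => r • lab v) = z.1

/-- EXT (from Brouwer's theorem). PROOF: (1) Brouwer for the cube: `Pool/Agent/Lib_helper47/RBrouwer.lean`
(`Pool.Agent.Lib_helper47.R.brouwer`) is the theorem for the unit ball of a finite dimensional inner product space;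
for `f : cube → cube` apply it to `y ↦ R⁻¹ f (clamp (R y))` on `EuclideanSpace ℝ (Fin n)` with `R = sqrt n + 1`, `clamp` = coordinatewise
`max (-1) (min 1 _)`: the fixed point `x = R y` satisfies `x = f (clamp x)`, so `x` is in the cube and `clamp x = x`.
(2) Apply it to `f x = - ‖G x‖⁻¹ • G x` (sup norm, values in the cube): a fixed point has sup norm `1`, so
`|x i| = 1` for some `i` (for `n = 0` the hypothesis `G x ≠ 0` is impossible), and `G x = -‖G x‖ • x`. -/
def S_EXT : Prop := ∀ (n : ℕ) (G : (Fin n → ℝ) → (Fin n → ℝ)), ContinuousOn G (Icc (-1) 1) →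
  (∀ x ∈ Icc (-1 : Fin n → ℝ) 1, G x ≠ 0) →
  ∃ x ∈ Icc (-1 : Fin n → ℝ) 1, (∃ i, |x i| = 1) ∧ ∃ c : ℝ, 0 < c ∧ G x = - (c • x)

/-- PI. PROOF: base point `x = o e₀`, `e₀ = Pi.single 0 1`. For `y : Fin m → I` put `w j = 2 y j - 1`, `r = ‖w‖` (sup norm,
`r ≤ 1`) and `F' y = (r - 1/2, (1 - r) w) : Fin (m+1) → ℝ` (`Fin.cons`), nonzero (if `1 - r = 0` the first coordinate is
`1/2`, otherwise if `w = 0` it is `-1/2`), `F y = F' y / ∑ |F' y i|` in `Sph m`; `F` is continuous and `F y = e₀` if `y` is in
`Cube.boundary` (then `r = 1`). So `f = o ∘ F` is a `GenLoop (Fin m) X x`. If `HomotopyGroup.Pi m X x` is trivial, there is a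
homotopy `H` rel boundary from `f` to `GenLoop.const` (`Quotient.exact`, `GenLoop.Homotopic`,
`ContinuousMap.HomotopicRel`). On the cube `[-1,1]^(m+1)` put `G p = Λ (H (t, y))` with `t = (p 0 + 1)/2`, `y j = (p (j+1) + 1)/2`
(use `projIcc` or `Set.projIcc` to stay in `I`). `G` is continuous and nonzero; `S_EXT`: a point `p` with some `|p i| = 1` and
`G p = -c p`, `c > 0`. If `p 0 = 1` or some `|p (j+1)| = 1` (then `y` is in the boundary; `H` is constant `x` there, also at `t = 0`):
`G p = Λ x = e₀`, so `e₀ = -c p`, `p` is `(-1/c, 0, …, 0)` with `p 0 < 0`: contradiction to `p 0 = 1`, and to `|p (j+1)| = 1`.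
Otherwise `p 0 = -1`, `t = 0`, `G p = F y = (a (r - 1/2), a (1 - r) w)` with `a > 0`, `w j = p (j+1)`, so
`a (1 - r) w = -c w` hence `w = 0` (as `a (1-r) + c > 0`), `r = 0`, and the first coordinate gives `-a/2 = c > 0`: contradiction. -/
def S_PI : Prop := ∀ (X : Type) [TopologicalSpace X] (m : ℕ) (Λ : X → (Fin (m + 1) → ℝ))
  (o : Sph m → X), Continuous Λ → (∀ x, Λ x ≠ 0) → Continuous o → (∀ z, Λ (o z) = z.1) →
  PiNe m X

def M_PI : Prop := S_EXT → S_PI

/-- CON. PROOF: let `h : ContinuousMap.Homotopy (id X) (const c)` (from `ContractibleSpace`: `id_nullhomotopic`). For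
`p` in the cube `[-1,1]^(m+1)` define `G p = Λ c` if `‖p‖ ≤ 1/2` and `G p = Λ (h (2 (1 - ‖p‖), o (p / ∑ |p i|)))` if
`‖p‖ ≥ 1/2` (sup norm; both agree for `‖p‖ = 1/2`; continuity: `ContinuousOn.if` / union of two closed sets).
`S_EXT` gives `p` with `‖p‖ = 1` and `G p = -c' p`, `c' > 0`; but `G p = Λ (o (p / ∑ |p i|)) = p / ∑ |p i|`: contradiction. -/
def S_CON : Prop := ∀ (X : Type) [TopologicalSpace X] (m : ℕ) (Λ : X → (Fin (m + 1) → ℝ))
  (o : Sph m → X), Continuous Λ → (∀ x, Λ x ≠ 0) → Continuous o → (∀ z, Λ (o z) = z.1) →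
  ¬ ContractibleSpace X

def M_CON : Prop := S_EXT → S_CON

open Classical in
/-- K34 (assembly of LAB, OCT, PI, CON). -/
def S_K34 : Prop := ∀ (V : Type) (K : Cpx V) (m : ℕ) (lab : V → (Fin (m + 1) → ℝ)) (pos neg : Fin (m + 1) → V),
  (∀ s ∈ K.faces, (0 : Fin (m + 1) → ℝ) ∉ convexHull ℝ (lab '' (s : Set V))) →
  (∀ i, lab (pos i) = Pi.single i 1) → (∀ i, lab (neg i) = - Pi.single i 1) →
  (∀ b : Fin (m + 1) → Bool,
    (Finset.univ.image fun i => if b i = true then pos i else neg i) ∈ K.faces) →
  PiNe m K.Space ∧ ¬ ContractibleSpace K.Space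

def M_K34 : Prop := S_LAB → S_OCT → S_PI → S_CON → S_K34

open Classical in
/-- `u` and `v` have a common element of `C`, and it forms a triangle with them -/
def Good {V : Type} (K : Cpx V) (C : V → Set V) (u v : V) : Prop :=
  ∃ J, J ∈ C u ∧ J ∈ C v ∧ {u, v, J} ∈ K.faces

open Classical in
/-- K5: a criterion for simple connectivity. PROOF: base point `K.vert P`. For `w` with `{w} ∈ K.faces` and `I ∈ C w` let
`c w I = (sc {I,P} (vert P) (vert I)).trans (sc {w,I} (vert I) (vert w))`. Along the relation of h3 it does not change: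
`c w J = c w J'` if `{w,J,J'}` and `{J,J',P}` are faces: in the simplex `{J,J',P}` the class of the straight path `P → J'` is
`P → J → J'`, in `{w,J,J'}` the class `J → w` is `J → J' → w` (`sc_trans`, `sc_eq`). So `g w := c w I` for the chosen `I ∈ C w` (h1)
satisfies `g w = c w I` for all `I ∈ C w`. For a face `s` and `u, v ∈ s` we need `(g u).trans (sc u v) = g v` (`Cpx.Pot.comp`;
`{u,v}` is a face, `sc_eq`). If `Good u v` with `I`: `g u = c u I`, `g v = c v I` and in the simplex `{u,v,I}` the classes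
`I → u → v` and `I → v` agree. Otherwise (h4) there is `w` with `Good u w`, `Good w v` and the face `{u,w,v}`:
`g v = g w · (w → v) = g u · (u → w) · (w → v) = g u · (u → v)`. So there is a potential; `Cpx.Pot.simplyConnected`. Then
`π₀`: `HomotopyGroup.pi0EquivZerothHomotopy` and path connectedness; `π₁`: `HomotopyGroup.pi1EquivFundamentalGroup` and the
instance `Subsingleton (FundamentalGroup X x)`. -/
def S_K5 : Prop := ∀ (V : Type) (K : Cpx V) (P : V) (C : V → Set V),
  (∀ w, (C w).Nonempty) →
  (∀ w, ∀ J ∈ C w, {w, J} ∈ K.faces ∧ {J, P} ∈ K.faces) →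
  (∀ w, ∀ A ∈ C w, ∀ B ∈ C w, Relation.ReflTransGen (fun J J' => J ∈ C w ∧ J' ∈ C w ∧
    {w, J, J'} ∈ K.faces ∧ {J, J', P} ∈ K.faces) A B) →
  (∀ u v, {u, v} ∈ K.faces → Good K C u v ∨
    ∃ w, {u, w, v} ∈ K.faces ∧ Good K C u w ∧ Good K C w v) →
  ¬ PiNe 0 K.Space ∧ ¬ PiNe 1 K.Space

/-- K6 (assembly of the index). PROOF: `PiNe m` gives a point of the realization, hence a vertex (its support is
nonempty). If `PiNe 0` the index is `1`, otherwise `2`. -/
def S_K6 : Prop := ∀ (Y : Type) [TopologicalSpace Y] (T : Cells Y) (H : Set Y),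
  (PiNe 1 (diskCpx T H).Space → ∃ i ≤ 2, HasIndex T H i) ∧
  (PiNe 2 (diskCpx T H).Space → ¬ PiNe 0 (diskCpx T H).Space → ¬ PiNe 1 (diskCpx T H).Space →
    HasIndex T H 3)

/-- K7A. Isomorphic complexes have homeomorphic realizations. PROOF: `x ↦ x.1.mapDomain e`
(`Finsupp.equivMapDomain`); continuity in both directions by `Cpx.continuous_iff` and `Cpx.cont_of_simplex`
(the face `s` is mapped in the face `s.map e`; coordinates are coordinates). -/
def S_K7A : Prop := ∀ (V V' : Type) (K : Cpx V) (K' : Cpx V') (e : V ≃ V'),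
  (∀ s : Finset V, s ∈ K.faces ↔ s.map e.toEmbedding ∈ K'.faces) → Nonempty (K.Space ≃ₜ K'.Space)

/-- K7B. Homotopy groups are transported by homeomorphisms. PROOF: `f ↦ h ∘ f` maps `GenLoop N X x` to
`GenLoop N X' (h x)` and respects `GenLoop.Homotopic` (compose the homotopy with `h`); with `h.symm` one gets an
injection of `HomotopyGroup.Pi m X x` into `HomotopyGroup.Pi m X' (h x)`, so nontriviality is inherited. -/
def S_K7B : Prop := ∀ (X X' : Type) [TopologicalSpace X] [TopologicalSpace X'] (m : ℕ),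
  X ≃ₜ X' → PiNe m X → PiNe m X'

end Pool.Agent.LIX.K
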