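import Pool.Agent.LIX.DefsT
import Pool.Agent.LIX.StmtsK

/-!
# LIX, block S: statements (soft part for the punctured torus: `π₀ = π₁ = 0`)

Module `X` proves `theorem t_X : M_X` (or `t_X : S_X` if there is no `M_X`) in the namespace
`Pool.Agent.LIX.S`, in the file `Pool/Agent/LIX/S_X.lean`, importing this file (and Mathlib) only, unless the
doc-string says otherwise.

Everything is about points `v = (u, z)` of the unit sphere `Sph` of `ℂ × ℝ` and about a collar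
`c : (ℂ × ℝ) × ℝ → Y` (`Collar T H V c`).
-/

set_option autoImplicit false

namespace Pool.Agent.LIX.S

open Set Metric Complex

noncomputable section

/-! ## Definitions -/

/-- The closed region above (`d = true`) or below (`d = false`) the chord `(b, j)` in `Hem b`. -/
def Rg (b : Bool) (j : Fin 3) (d : Bool) : Set (ℂ × ℝ) := {v | v ∈ Hem b ∧ 0 ≤ sg d * dl b j v}

/-- Collar types `(b, j, d)`. -/
abbrev Ct := Bool × Fin 3 × Bool

/-- Heights of the end points of the chords on the right (`x > 0`) and on the left (`x < 0`). -/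
def hR (q : Bool × Fin 3) : ℕ := if q.1 = true then ![2, 3, 6] q.2 else ![6, 9, 10] q.2

/-- Heights of the end points of the chords on the left. -/
def hL (q : Bool × Fin 3) : ℕ := if q.1 = true then ![6, 9, 10] q.2 else ![2, 3, 6] q.2

/-- The order of the chords. -/
def cle (q q' : Bool × Fin 3) : Bool := decide (hR q ≤ hR q' ∧ hL q ≤ hL q')

/-- Compatibility of a collar (`none` is the peripheral compressing disk `P`) with a disk whose trace on the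
boundary is `k` (`none`: compressing disk; `some q`: the chord `q`). -/
def cptk (I : Option Ct) (k : Option (Bool × Fin 3)) : Bool :=
  match I, k with
  | none, none => true
  | none, some _ => false
  | some _, none => true
  | some (b, j, d), some q => if d = true then cle q (b, j) else cle (b, j) q

/-- Compatibility of two collars. -/
def cpt2 (I I' : Option Ct) : Bool :=
  match I, I' with
  | none, _ => true
  | some _, none => true
  | some (b, j, d), some (b', j', d') =>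
    if d = d' then cle (b, j) (b', j') || cle (b', j') (b, j)
    else if d = true then cle (b', j') (b, j) else cle (b, j) (b', j')

/-- The weights. -/
def xi (I : Ct) (v : ℂ × ℝ) : ℝ :=
  if I.2.2 = true then dl I.1 I.2.1 v / (8 + 4 * ((I.2.1 : ℕ) : ℝ))
  else - dl I.1 I.2.1 v / (16 - 4 * ((I.2.1 : ℕ) : ℝ))

/-- A point of a helix. -/
def hpt (b k u : ℝ) : ℂ × ℝ := nml (exp ((Real.pi * (b + k * u) : ℝ) * I), Mf u)

/-- The semicircle. -/
def Smc : Set ℂ := {w | w ∈ HDisk ∧ ‖w‖ = 1}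

/-- Parametrisation of the shifted region (`w ∈ HDisk`, `s ∈ [-1, 1]`). -/
def qI (b : Bool) (j : Fin 3) (d : Bool) (x : ℂ × ℝ) : ℂ × ℝ :=
  nml ((sg b : ℂ) * x.1,
    ‖x.1‖ * (Mf (hj j (arg x.1 / Real.pi)) + sg d * x.2 / 100) + sg d * (1 - ‖x.1‖))

/-- The shifted height function: `≥ 0` on the shifted region. -/
def Ds (b : Bool) (j : Fin 3) (d : Bool) (s : ℝ) (v : ℂ × ℝ) : ℝ :=
  sg d * dl b j v - s * ‖v.1‖ / 100

/-- Parametrisation of the hemisphere by the unit disk. -/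
def qP (b : Bool) (w : ℂ) : ℂ × ℝ :=
  (((w.re : ℝ) : ℂ) + ((sg b * √(1 - ‖w‖ ^ 2) : ℝ) : ℂ) * I, w.im)

/-- Graph disk over the region `(b, j, d)`. -/
def GD {Y : Type} (c : (ℂ × ℝ) × ℝ → Y) (J : Ct) (η : ℂ × ℝ → ℝ) : Set Y :=
  (fun v => c (v, η v)) '' Rg J.1 J.2.1 J.2.2

/-- Graph disk over a hemisphere. -/
def PD {Y : Type} (c : (ℂ × ℝ) × ℝ → Y) (b : Bool) (η : ℂ × ℝ → ℝ) : Set Y :=
  (fun v => c (v, η v)) '' Hem b

/-- Admissible height functions for a region. -/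
def Adm (J : Ct) (η : ℂ × ℝ → ℝ) : Prop :=
  ContinuousOn η (Rg J.1 J.2.1 J.2.2) ∧ ∀ v ∈ Rg J.1 J.2.1 J.2.2, 0 ≤ η v ∧ η v ≤ 1 / 2 ∧
    (η v = 0 ↔ dl J.1 J.2.1 v = 0)

/-- Admissible height functions for a hemisphere. -/
def AdmP (b : Bool) (η : ℂ × ℝ → ℝ) : Prop :=
  ContinuousOn η (Hem b) ∧ ∀ v ∈ Hem b, 0 < η v ∧ η v ≤ 1 / 2

/-- The peripheral loops are essential. -/
def Peri {Y : Type} [TopologicalSpace Y] (H : Set Y) (c : (ℂ × ℝ) × ℝ → Y) : Prop :=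
  ∀ η : ℂ → ℝ, ContinuousOn η (sphere 0 1) → (∀ w ∈ sphere (0 : ℂ) 1, 0 < η w ∧ η w ≤ 1) →
    ¬ ∃ g : ℂ → Y, ContinuousOn g Disk ∧ (∀ w ∈ Disk, g w ∈ H) ∧
      ∀ w : ℂ, ‖w‖ = 1 → g w = c ((((w.re : ℝ) : ℂ), w.im), η w)

/-- The kind (trace on the boundary sphere) of a disk: `none` for compressing disks, the chord for edge
disks. -/
def HasKd {Y : Type} (T : Cells Y) (c : (ℂ × ℝ) × ℝ → Y) (D : Set Y) (k : Option (Bool × Fin 3)) : Prop :=
  match k with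
  | none => D ∩ T.bd = ∅
  | some q => D ∩ T.bd = (fun v => c (v, 0)) '' ch q.1 q.2

/-! ## Functions on the sphere -/

/-- MF: the function `Mf`. PROOF: sum of three continuous monotone functions; for `u < u'` split at `6` and `10`
(on `[6,10]` the sine of an angle in `[-π/2, π/2]` is strictly increasing). Gap: for `u ≤ 5` or `u ≥ 10` the linear
parts give `1/6`, `1/2`; for `6 ≤ u ≤ 9` the sine part gives
`2 cos (π/4 (u - 8) + π/8) sin (π/8) ≥ 1 - cos (π/4) > 1/10` (or: `sin` concave/convex; the minimum is at the ends); for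
`5 ≤ u ≤ 6`: `(6-u)/6 + 1 - cos (π/4 (u-5))` and `1 - cos t ≥ t²/2 - t⁴/24`; with `t = π/4 (u-5)`, `a = u - 5 ∈ [0,1]`:
`(1-a)/6 + (1 - cos (π a/4)) ≥ 1/10` (true minimum `0.144`; use `1 - cos t ≥ (2/π²) t² · ...` i.e. `Real.cos_le_one_sub_mul_cos_sq`/
`Real.cos_quadratic_upper_bound`, e.g. `cos x ≤ 1 - 2/π² x²` gives `(1-a)/6 + a²/8 ≥ 1/10`); for `9 ≤ u ≤ 10`: with
`a = 10 - u`: `(1-a)/2 + 1 - cos (π a/4) ≥ (1-a)/2 + a²/8 ≥ 1/10`. -/
def S_MF : Prop := Continuous Mf ∧ StrictMono Mf ∧ Mf 0 = -2 ∧ Mf 2 = -5 / 3 ∧ Mf 3 = -3 / 2 ∧ Mf 6 = -1 ∧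
  Mf 8 = 0 ∧ Mf 10 = 1 ∧ Mf 12 = 2 ∧ ∀ u, Mf u + 1 / 10 ≤ Mf (u + 1)

/-- NML: normalisation and the sphere. -/
def S_NML : Prop := (ContinuousOn nml {v : ℂ × ℝ | v ≠ 0}) ∧ (∀ v : ℂ × ℝ, v ≠ 0 → 0 < nrm v ∧ nml v ∈ Sph) ∧
  (∀ v ∈ Sph, nml v = v ∧ nrm v = 1) ∧ (∀ (v : ℂ × ℝ) (t : ℝ), 0 < t → nml ((t : ℂ) * v.1, t * v.2) = nml v) ∧
  IsCompact Sph ∧ Continuous nrm

/-- LON: the longitude. PROOF: `Complex.arg` is continuous on the closed upper half plane minus `0`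
(`Complex.continuousAt_arg`, `Complex.continuousWithinAt_arg_of_re_neg_of_im_zero`); the polar form is
`Complex.norm_mul_exp_arg_mul_I`; `sg b * sg b = 1`. -/
def S_LON : Prop := ∀ b : Bool,
  (ContinuousOn (lon b) {v : ℂ × ℝ | v.1 ≠ 0 ∧ 0 ≤ sg b * v.1.im}) ∧
  ∀ v : ℂ × ℝ, v.1 ≠ 0 → 0 ≤ sg b * v.1.im → lon b v ∈ Icc (0 : ℝ) 1 ∧
    v.1 = (sg b : ℂ) * (‖v.1‖ : ℂ) * exp ((Real.pi * lon b v : ℝ) * I) ∧
    (v.1.im = 0 → (lon b v = 0 ∧ 0 < sg b * v.1.re) ∨ (lon b v = 1 ∧ sg b * v.1.re < 0)) ∧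
    (lon b v = 0 ∨ lon b v = 1 → v.1.im = 0)

/-- DLC: the height function. PROOF: continuity at `v.1 ≠ 0` from MF and LON; at `v.1 = 0` since `Mf` is bounded
on `[2, 12]`. -/
def S_DLC : Prop := ∀ (b : Bool) (j : Fin 3),
  (ContinuousOn (dl b j) {v : ℂ × ℝ | 0 ≤ sg b * v.1.im}) ∧ (∀ v ∈ Hem b, |dl b j v| ≤ 3) ∧
  (∀ v : ℂ × ℝ, v.1 = 0 → dl b j v = v.2) ∧ IsCompact (Hem b) ∧ (∀ d, IsCompact (Rg b j d)) ∧ IsCompact (ch b j) ∧
  (∀ v ∈ ch b j, v.1 ≠ 0)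

def M_DLC : Prop := S_MF → S_NML → S_LON → S_DLC

/-- ORD: the order of the chords. PROOF: `b = b'`: then `j ≤ j'` and `hj j f ≤ hj j' f` for `f ∈ [0,1]` (`hj 1 f - hj 0 f =
1 + 2 f`, `hj 2 f - hj 1 f = 3 - 2 f`), `Mf` monotone. `b ≠ b'`: then `v.1.im = 0`; for `v.1 = 0` both are `v.2`; otherwise
`lon` is `0` or `1` (LON; opposite values for the two sides) and `hj j 0`, `hj j 1` are the numbers `hR`, `hL`. -/
def S_ORD : Prop := ∀ q q' : Bool × Fin 3, cle q q' = true → ∀ v ∈ Hem q.1, v ∈ Hem q'.1 →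
  dl q'.1 q'.2 v ≤ dl q.1 q.2 v

def M_ORD : Prop := S_MF → S_LON → S_ORD

/-- CHH: the chords are pieces of the helices. PROOF: `⊆`: `v ∈ ch b j`, `f = lon b v`, `u = hj j f`; by LON
`v.1 = sg b ‖v.1‖ e^{iπ f}`, `v.2 = ‖v.1‖ Mf u`, so `v = nml (sg b e^{iπf}, Mf u)` and `sg b e^{iπ f} = e^{iπ(β + κ u)}`
(`β + κ u - f` is an even integer for `b = true`, odd for `b = false`: `true, 0`: `-1/2 + u/4` with `u = 2 + 4f`;
`true, 1`: `-1/2 + u/6`, `u = 3 + 6f`; `true, 2`: `1/2 + u/4 = 2 + f`; `false, 0`: `1/2 + u/4 = 1 + f`; `false, 1`: `1/2 + u/6 = 1 + f`;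
`false, 2`: `-1/2 + u/4 = 1 + f`). `⊇`: reverse. -/
def S_CHH : Prop :=
  ch true 0 = hpt (-1 / 2) (1 / 4) '' Icc 2 6 ∧ ch true 1 = hpt (-1 / 2) (1 / 6) '' Icc 3 9 ∧
  ch true 2 = hpt (1 / 2) (1 / 4) '' Icc 6 10 ∧ ch false 0 = hpt (1 / 2) (1 / 4) '' Icc 2 6 ∧
  ch false 1 = hpt (1 / 2) (1 / 6) '' Icc 3 9 ∧ ch false 2 = hpt (-1 / 2) (1 / 4) '' Icc 6 10

def M_CHH : Prop := S_MF → S_NML → S_LON → S_CHH

/-- CHE: every chord lies in an edge. From CHH. -/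
def S_CHE : Prop := (∀ b j, ∃ i i', ch b j ⊆ Edg i i') ∧ (∀ b j, ch b j ⊆ Skl)

def M_CHE : Prop := S_CHH → S_CHE

/-- LSK: near a chord the skeleton is the chord. PROOF: let `f = lon b v`, `v.1 ≠ 0` (at the poles `|dl| = 1`). If `v` is in one of the
two polar arcs or is one of the four vertices, the slope `v.2/‖v.1‖` has absolute value `≥ 2` and `|Mf (hj j f)| ≤ 5/3`. If `v = hpt β κ u` is on a
helix, its slope is `Mf u` and `π (β + κ u)` is an argument of `v.1`, so (side `b`, `u ∈ [0,12]`) `u` is one of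
`4f - 2` (only if `f ≥ 1/2`), `6f - 3` (`f ≥ 1/2`), `2 + 4f`, `3 + 6f`, `6 + 4f`, `9 + 6f` (`f ≤ 1/2`), `10 + 4f` (`f ≤ 1/2`): any two of these different from `hj j f` differ
from it by at least `1`, so by the gap of MF the slopes differ by `≥ 1/10`. -/
def S_LSK : Prop := ∀ (b : Bool) (j : Fin 3), ∀ v ∈ Hem b, v ∈ Skl → |dl b j v| ≤ ‖v.1‖ / 100 → dl b j v = 0

/-- BET: between two consecutive chords of one side there is no skeleton. Same proof. -/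
def S_BET : Prop := ∀ (b : Bool), ∀ v ∈ Hem b, v ∈ Skl →
  ¬ (dl b 0 v > 0 ∧ dl b 1 v < 0) ∧ ¬ (dl b 1 v > 0 ∧ dl b 2 v < 0)

def M_LSK : Prop := S_MF → S_NML → S_LON → S_LSK ∧ S_BET

/-- QI: the parametrisation of the shifted regions. PROOF: let `v = qI b j d (w, s)`, `N = nrm` of the vector before
normalisation (`> 0`: for `w = 0` it is `(0, ±1)`). Then `‖v.1‖ = ‖w‖/N`, `lon b v = arg w / π` (for `w ≠ 0`) and
`Ds b j d s v = (1 - ‖w‖)/N`. Continuity at `w = 0` as `Mf` is bounded. Injectivity: `w = sg b v.1 / (‖v.1‖ + Ds b j d s v)`; the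
same formula gives surjectivity. -/
def S_QI : Prop := ∀ (b : Bool) (j : Fin 3) (d : Bool),
  ContinuousOn (qI b j d) (HDisk ×ˢ Icc (-1) 1) ∧
  (∀ w ∈ HDisk, ∀ s ∈ Icc (-1 : ℝ) 1, qI b j d (w, s) ∈ Hem b ∧ 0 ≤ Ds b j d s (qI b j d (w, s)) ∧
    (Ds b j d s (qI b j d (w, s)) = 0 ↔ ‖w‖ = 1) ∧ ((qI b j d (w, s)).1.im = 0 ↔ w.im = 0)) ∧
  (∀ s ∈ Icc (-1 : ℝ) 1, InjOn (fun w => qI b j d (w, s)) HDisk ∧
    (fun w => qI b j d (w, s)) '' HDisk = {v | v ∈ Hem b ∧ 0 ≤ Ds b j d s v}) ∧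
  (fun w => qI b j d (w, 0)) '' HDisk = Rg b j d

def M_QI : Prop := S_MF → S_NML → S_LON → S_DLC → S_QI

/-! ## Graph disks -/

/-- GE: graph disks are edge-compressing disks. PROOF: write `D s v = Ds b j d s v`. Bicollar
`Φ (w, s) = c (v, η_s v)`, `v = qI b j d (w, s)`, with, for `s ≥ 0`, `η_s v = η v * (D s v / D 0 v) * (1 - s/2)` (`D 0 v ≥ D s v ≥ 0`; value `0` if
`D 0 v = 0`), and for `s ≤ 0`, `η_s v = η⁺ v + 1/4 * min (-s) (D s v)`, `η⁺ v = η v` if `D 0 v ≥ 0`, `0` otherwise. All values are in `[0, 3/4]`.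
CONTINUITY: both halves agree at `s = 0`; for `s ≥ 0` at points with `D 0 v > 0` clear, at points with `D 0 v = 0` since
`0 ≤ η_s ≤ η` (extended). For `s ≤ 0`: `η⁺` is continuous on `Hem b` (closed pieces `D 0 ≥ 0`, `D 0 ≤ 0`, and `η = 0` if `D 0 = 0`).
ZEROS: `η_s v = 0 ↔ D s v = 0 ↔ ‖w‖ = 1` (QI; if `D s v = 0`, `s < 0` then `D 0 v ≤ 0`). INJECTIVITY: `c` is injective, so it is enough that for fixed
`v` with `D s v, D s' v ≥ 0`, `s < s'`: `η_s v > η_{s'} v`: note `D s v = D s' v + (s' - s) ‖v.1‖/100`, and `D s v = 1` for all `s` if `v.1 = 0` (then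
`v.2 = sg d`, because `D s v ≥ 0`). Cases `0 ≤ s`, `s < 0 ≤ s'`, `s' < 0`. Then `w` is determined by QI. `BD`: `c (v,l) ∈ T.bd ↔ l = 0` (from `bd`,
`inj`). `H`: `v.1.im = 0 ↔ w.im = 0`. `SKEL`: `T.skel = c (Skl × 0)`; for `‖w‖ = 1`: `D s v = 0`, so `|dl b j v| = |s| ‖v.1‖/100`, LSK and CHE:
`v ∈ Skl ↔ dl b j v = 0 ↔ s = 0` (`v.1 ≠ 0` since `D s v = ± 1` at the poles... it is `1` on the region). `EDGE`: CHE and `Collar.edge`. -/
def S_GE : Prop := ∀ (Y : Type) [TopologicalSpace Y] [T2Space Y] (T : Cells Y) (H : Set Y)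
  (V : Bool → Set Y) (c : (ℂ × ℝ) × ℝ → Y), Collar T H V c → ∀ (J : Ct) (η : ℂ × ℝ → ℝ), Adm J η →
    IsEdgePar T H (fun w => c (qI J.1 J.2.1 J.2.2 (w, 0), η (qI J.1 J.2.1 J.2.2 (w, 0))))

def M_GE : Prop := S_MF → S_NML → S_DLC → S_CHE → S_LSK → S_QI → S_GE

/-- PE: graphs over a hemisphere are compressing disks. PROOF: `Φ (w, s) = c (qP b w, η (qP b w) (1 + s/2))`; `qP b` is a
continuous bijection `Disk → Hem b` with `(qP b w).1.im = 0 ↔ ‖w‖ = 1`. Essential: `Peri` with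
`η' w = η ((w.re : ℂ), w.im)`. -/
def S_PE : Prop := ∀ (Y : Type) [TopologicalSpace Y] [T2Space Y] (T : Cells Y) (H : Set Y)
  (V : Bool → Set Y) (c : (ℂ × ℝ) × ℝ → Y), Collar T H V c → Peri H c → ∀ (b : Bool) (η : ℂ × ℝ → ℝ), AdmP b η →
    IsCompPar T H (fun w => c (qP b w, η (qP b w))) ∧ qP b '' Disk = Hem b

/-- L1: the graph disks are in `CE(H)` and their class does not depend on the height function. PROOF: the
parametrisations of GE, PE and the isotopy `F (w, t) = c (q w, (1 - t) η (q w) + t η' (q w))`. -/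
def S_L1 : Prop := ∀ (Y : Type) [TopologicalSpace Y] [T2Space Y] (T : Cells Y) (H : Set Y)
  (V : Bool → Set Y) (c : (ℂ × ℝ) × ℝ → Y), Collar T H V c → Peri H c →
    (∀ (J : Ct) (η : ℂ × ℝ → ℝ), Adm J η → IsCE T H (GD c J η)) ∧
    (∀ (J : Ct) (η η' : ℂ × ℝ → ℝ), Adm J η → Adm J η' → Isotopic T H (GD c J η) (GD c J η')) ∧
    (∀ (b : Bool) (η : ℂ × ℝ → ℝ), AdmP b η → IsCE T H (PD c b η)) ∧
    (∀ (b : Bool) (η η' : ℂ × ℝ → ℝ), AdmP b η → AdmP b η' → Isotopic T H (PD c b η) (PD c b η'))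

def M_L1 : Prop := S_QI → S_GE → S_PE → S_L1

/-! ## Kinds -/

/-- HLX: an injective path in an edge whose interior is off the circle `y = 0` and whose end points are on it is a
chord. PROOF: `Edg i i` is a point: contradiction to injectivity. Polar arcs (`re = 0`): on them `im = 0` only at the pole, so `g (-1) = g 1`:
contradiction. Helix `(β, κ)` with `κ = 1/6` (resp. `1/4`): `hpt β κ` is continuous and injective on `[0, 12]` (slope `Mf u` strictly increasing), so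
`g = hpt β κ ∘ τ` with `τ : [-1,1] → [0,12]` continuous (compactness) and injective, hence strictly monotone. `(hpt β κ u).1.im = 0` iff `β + κ u ∈ ℤ`
iff `u ∈ {3, 9}` (resp. `u ∈ {2, 6, 10}`). So `τ (±1)` are consecutive elements of this set and the image of `g` is `hpt β κ '' [u₁, u₂]`:
one of the six chords by CHH. -/
def S_HLX : Prop := ∀ (g : ℝ → ℂ × ℝ) (i i' : Fin 4), ContinuousOn g (Icc (-1) 1) → InjOn g (Icc (-1) 1) →
  (∀ x ∈ Icc (-1 : ℝ) 1, g x ∈ Edg i i') → (g (-1)).1.im = 0 → (g 1).1.im = 0 →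
  (∀ x ∈ Ioo (-1 : ℝ) 1, (g x).1.im ≠ 0) →
  ∃ b j, g '' Icc (-1) 1 = ch b j

def M_HLX : Prop := S_MF → S_NML → S_CHH → S_HLX

/-- EPT: the end points of the chords: the chord is determined by its intersection with the circle `y = 0`. (Directions
`(±1, Mf h)`: `(b, j) = (true, 0)`: `{(1, Mf 2), (-1, Mf 6)}` etc.) -/
def S_EPT : Prop := ∀ b j b' j', ch b j ∩ {v | v.1.im = 0} = ch b' j' ∩ {v | v.1.im = 0} → b = b' ∧ j = j'

def M_EPT : Prop := S_MF → S_NML → S_LON → S_EPT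

/-- KND: kinds exist. PROOF: compressing: clear. Edge: `f = Φ(·, 0)`; for `‖w‖ = 1` `f w ∈ T.edge i i' = c (Edg i i' × 0)`, so
`f w = c (g w, 0)` with `g` continuous and injective on `Smc` (`c` is an embedding of the compact `Sph × 0`), `(g w).1.im = 0 ↔ f w ∈ H ↔ w.im = 0`.
Apply HLX to `x ↦ g (x + i √(1-x²))`. `D ∩ T.bd = f '' Smc`. SIDE: `HDisk` minus the diameter is connected and `f` maps it to
`T.body \ H = (V true \ H) ∪ (V false \ H)` (both relatively open, disjoint); the points of the semicircle are in `V b`; closure. -/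
def S_KND : Prop := ∀ (Y : Type) [TopologicalSpace Y] [T2Space Y] (T : Cells Y) (H : Set Y)
  (V : Bool → Set Y) (c : (ℂ × ℝ) × ℝ → Y), Collar T H V c →
    (∀ f, IsCompPar T H f → HasKd T c (f '' Disk) none ∧ ∃ b, f '' Disk ⊆ V b) ∧
    (∀ f, IsEdgePar T H f → ∃ q, HasKd T c (f '' HDisk) (some q) ∧ f '' HDisk ⊆ V q.1)

def M_KND : Prop := S_HLX → S_KND

/-- KIN: kinds and sides are invariants of the class and unique. PROOF: uniqueness: EPT and injectivity of `c`. Isotopy of edge disks `F`: for each `t` the disk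
`F_t` has a kind `(b, j)` and `F_t {1, -1} = c (ch b j ∩ {im = 0}, 0)` (`f w ∈ H ∩ T.bd ↔ w = ±1`). `H ∩ T.skel` is finite (12 points; at least: the set
of end points of chords is finite, `F_t (±1)` is in it), so `t ↦ F_t (±1)` is constant (a continuous map from the connected `[0,1]` to a finite T2 set);
EPT. Compressing disks: `none`. Sides of compressing disks: `F` maps the connected set `(open disk) × [0,1]` to
`T.body \ H`. -/
def S_KIN : Prop := ∀ (Y : Type) [TopologicalSpace Y] [T2Space Y] (T : Cells Y) (H : Set Y)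
  (V : Bool → Set Y) (c : (ℂ × ℝ) × ℝ → Y), Collar T H V c →
    (∀ (D : Set Y) (k k' : Option (Bool × Fin 3)), IsCE T H D → HasKd T c D k → HasKd T c D k' → k = k') ∧
    (∀ (D D' : Set Y) (k : Option (Bool × Fin 3)), Isotopic T H D D' → HasKd T c D k → HasKd T c D' k) ∧
    (∀ (D D' : Set Y) (b : Bool), Isotopic T H D D' → D ⊆ V b → D' ⊆ V b)

def M_KIN : Prop := S_EPT → S_KND → S_KIN

/-- FAM: sides and kinds of families. PROOF: for edge disks: KND gives a kind `q_t` for each `F_t`; for `t ∈ [0,1]` the disks `F_0` and `F_t` are `Isotopic` by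
`(z, s) ↦ F (z, t s)`, so by KIN (second clause, and uniqueness) `q_t = q_0`, and `F_t (HDisk) ⊆ V q_t.1`. Compressing disks: KND and the third clause of KIN
(or: connectedness of (open disk) × [0,1] in `T.body \ H`). -/
def S_FAM : Prop := ∀ (Y : Type) [TopologicalSpace Y] [T2Space Y] (T : Cells Y) (H : Set Y)
  (V : Bool → Set Y) (c : (ℂ × ℝ) × ℝ → Y), Collar T H V c → ∀ F : ℂ × ℝ → Y,
    (ContinuousOn F (Disk ×ˢ Icc 0 1) → (∀ t ∈ Icc (0 : ℝ) 1, IsCompPar T H fun z => F (z, t)) →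
      ∃ b, ∀ t ∈ Icc (0 : ℝ) 1, ∀ z ∈ Disk, F (z, t) ∈ V b) ∧
    (ContinuousOn F (HDisk ×ˢ Icc 0 1) → (∀ t ∈ Icc (0 : ℝ) 1, IsEdgePar T H fun z => F (z, t)) →
      ∃ b j, (∀ t ∈ Icc (0 : ℝ) 1, ∀ z ∈ HDisk, F (z, t) ∈ V b) ∧
        ∀ t ∈ Icc (0 : ℝ) 1, ((fun z => F (z, t)) '' HDisk) ∩ T.bd = (fun v => c (v, 0)) '' ch b j)

def M_FAM : Prop := S_KND → S_KIN → S_FAM

/-! ## Simultaneous representatives -/

/-- XI: compatible collars have disjoint graphs off the skeleton. PROOF: let `q = (b, j)`, `q' = (b', j')`, `δ = dl q v`, `δ' = dl q' v`. Same direction up,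
`q ≤ q'`, `q ≠ q'`: `δ ≥ δ' ≥ 0` (ORD) and `8 + 4 j < 8 + 4 j'` (check: `cle q q'`, `q ≠ q'` implies `j < j'`: `decide`), so `δ/(8+4j) ≥ δ'/(8+4j) > δ'/(8+4j')` unless
`δ' = 0`, and then `v ∈ ch q'`. Similarly down. Opposite directions, `(q, up)`, `(q', down)`, `q' ≤ q`: `0 ≤ δ ≤ δ' ≤ 0`. -/
def S_XI : Prop := ∀ J J' : Ct, cpt2 (some J) (some J') = true → J ≠ J' → ∀ v ∈ Rg J.1 J.2.1 J.2.2,
  v ∈ Rg J'.1 J'.2.1 J'.2.2 → v ∈ ch J.1 J.2.1 ∨ v ∈ ch J'.1 J'.2.1 ∨ xi J v ≠ xi J' v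

/-- TRC: a chord compatible with a collar meets its region only in the chord of the collar. From ORD. -/
def S_TRC : Prop := ∀ (J : Ct) (q : Bool × Fin 3), cptk (some J) (some q) = true →
  ∀ v ∈ Rg J.1 J.2.1 J.2.2, v ∈ ch q.1 q.2 → dl J.1 J.2.1 v = 0

def M_XI : Prop := S_ORD → S_XI ∧ S_TRC

/-- L2: simultaneous representatives. PROOF: `vt none = ` class of `PD c true (1/2)`, `vt (some J) =` class of `GD c J (xi J / 2)`
(`0 ≤ xi ≤ 3/8`). Given the data let `A ⊆ Sph × [0,1]` be the union of `Sph × {1}` and of `{x ∈ Sph × [0,1] | c x ∈ D v for some v ∈ s}` (closed: the `D v` are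
compact), `μ v = infDist (v, 0) A ≤ 1`, continuous; `(v, l) ∉ A` if `0 ≤ l < μ v`. For `J ∈ J`: `η_J = 1/2 μ · xi J`. It is admissible: if
`μ v = 0` for `v ∈ Rg J` then `c (v, 0) ∈ D w ∩ T.bd` for some `w ∈ s`, so by the kind `v ∈ ch q` (injectivity of `c`), and TRC gives `dl J v = 0`. For `none`:
all kinds of `s` are `none`, so `μ > 0` on the sphere, `η_P = 1/2 μ`. Representatives: for a vertex in `s` take `D v`, for a vertex `v` of `J.image vt` not in `s` choose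
`I ∈ J` with `vt I = v` and the graph disk with `η_I` (class by L1). Disjointness mod skeleton: graph of `I` and `D w`: a common point is `c (v, η v)`, so `(v, η v) ∈ A`, so
`η v ≥ μ v`, hence (as `η ≤ 1/2 μ`) `μ v = 0 = η v`: `v ∈ ch J` (or impossible for `none`), so it is in `c (Skl, 0) = T.skel`.
Two graphs of `J ≠ J'`: common point `c (v, l)`, `l = η v = η' v`; by XI `v` is on one of the two chords (then `l = 0` and `v ∈ Skl`) or `xi J v ≠ xi J' v`, so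
`μ v = 0`, `l = 0`, `v ∈ ch J` by admissibility. `J` and `none`: `xi J v ≤ 3/8 < 1`, `μ v > 0`. -/
def S_L2 : Prop := ∀ (Y : Type) [TopologicalSpace Y] [T2Space Y] (T : Cells Y) (H : Set Y)
  (V : Bool → Set Y) (c : (ℂ × ℝ) × ℝ → Y), Collar T H V c → Peri H c → open Classical in
    ∃ vt : Option Ct → Vtx T H, ∀ (s : Finset (Vtx T H)) (D : Vtx T H → CE T H)
      (k : Vtx T H → Option (Bool × Fin 3)) (Js : Finset (Option Ct)),
      (∀ v ∈ s, cls (D v) = v ∧ HasKd T c (D v).1 (k v)) →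
      (∀ v ∈ s, ∀ w ∈ s, v ≠ w → (D v).1 ∩ (D w).1 ⊆ T.skel) →
      (∀ J ∈ Js, ∀ v ∈ s, cptk J (k v) = true) →
      (∀ J ∈ Js, ∀ J' ∈ Js, J ≠ J' → cpt2 J J' = true) →
      (s ∪ Js.image vt).Nonempty → s ∪ Js.image vt ∈ (diskCpx T H).faces

def M_L2 : Prop := S_DLC → S_CHE → S_XI → S_TRC → S_KND → S_KIN → S_L1 → S_L2

/-- DEC: the combinatorics, by `decide` (write it as a Boolean computation over the finite types). -/
def S_DEC : Prop :=
  (∀ k, ∃ J : Ct, cptk (some J) k = true) ∧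
  (∀ k, ∀ J J' : Ct, cptk (some J) k = true → cptk (some J') k = true →
    ∃ J1 J2 : Ct, cptk (some J1) k = true ∧ cptk (some J2) k = true ∧ cpt2 (some J) (some J1) = true ∧
      cpt2 (some J1) (some J2) = true ∧ cpt2 (some J2) (some J') = true) ∧
  (∀ k k', (∃ J : Ct, cptk (some J) k = true ∧ cptk (some J) k' = true) ∨
    (k = some (true, 1) ∧ k' = some (false, 1)) ∨ (k = some (false, 1) ∧ k' = some (true, 1))) ∧
  (∀ j : Fin 3, j ≠ 1 → (∃ J : Ct, cptk (some J) (some (true, j)) = true ∧ cptk (some J) (some (true, 1)) = true) ∧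
    ∃ J : Ct, cptk (some J) (some (true, j)) = true ∧ cptk (some J) (some (false, 1)) = true)

/-! ## The slide -/

/-- OPN: the boundary strip of the bicollar is relatively open. PROOF: double it: for `w` on the unit circle and `|s| < s₂` let `ψ' (w, s) = ψ (w, s)` if `0 ≤ w.im` and
the reflection `(u, z) ↦ (conj u, z)` of `ψ (conj w, s)` if `w.im ≤ 0`; continuous and injective (`(ψ (w,s)).1.im > 0` for `w.im > 0`). By
invariance of domain in dimension two (`Pool/Agent/Lib_helper53/Shadow/InvDomain.lean`, `mem_interior_image`, with the local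
parameters angle and `s` and orthogonal projection of the sphere to a tangent plane) `ψ'` is an open map to `Sph`; intersect with `Hem true`. -/
def S_OPN : Prop := ∀ ψ : ℂ × ℝ → ℂ × ℝ, ContinuousOn ψ (Smc ×ˢ Icc (-1) 1) → InjOn ψ (Smc ×ˢ Icc (-1) 1) →
  (∀ w ∈ Smc, ∀ s ∈ Icc (-1 : ℝ) 1, ψ (w, s) ∈ Hem true ∧ ((ψ (w, s)).1.im = 0 ↔ w.im = 0)) →
  ∀ s₂, 0 < s₂ → s₂ ≤ 1 → ∃ O, IsOpen O ∧ ψ '' (Smc ×ˢ Ioo (-s₂) s₂) = Hem true ∩ O

/-- SGN: the two sides of the strip. PROOF: `dl true 1 (ψ (w, s)) = 0` only for `s = 0` (injectivity), so its sign is constant on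
the connected sets `Smc × (0,1]` and `Smc × [-1,0)`. If both signs are equal to `σ`, then `ψ (Smc × (-1,1))` is relatively open in `Hem true`
(OPN), contains a chord point `v₀` with `v₀.1.im > 0` and is contained in `{0 ≤ sg σ * dl true 1}`; but points of `Hem true` near `v₀` with the slope changed
have the other sign. -/
def S_SGN : Prop := ∀ ψ : ℂ × ℝ → ℂ × ℝ, ContinuousOn ψ (Smc ×ˢ Icc (-1) 1) → InjOn ψ (Smc ×ˢ Icc (-1) 1) →
  (∀ w ∈ Smc, ∀ s ∈ Icc (-1 : ℝ) 1, ψ (w, s) ∈ Hem true ∧ ((ψ (w, s)).1.im = 0 ↔ w.im = 0)) →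
  (fun w => ψ (w, 0)) '' Smc = ch true 1 →
  ∃ σ : Bool, ∀ w ∈ Smc, ∀ s ∈ Ioc (0 : ℝ) 1, 0 < sg σ * dl true 1 (ψ (w, s)) ∧
    sg σ * dl true 1 (ψ (w, -s)) < 0

def M_SGN : Prop := S_OPN → S_MF → S_NML → S_LON → S_DLC → S_SGN

/-- The chord above or below `A2`. -/
def jn (σ : Bool) : Fin 3 := if σ = true then 2 else 0

/-- Coordinates of the strip between the chord `(true, 1)` (`y = 0`) and the chord `(true, jn σ)` (`y = 1`). -/
def st (σ : Bool) (x : ℝ × ℝ) : ℂ × ℝ :=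
  nml (exp ((Real.pi * x.1 : ℝ) * I), (1 - x.2) * Mf (hj 1 x.1) + x.2 * Mf (hj (jn σ) x.1))

/-- STD: the strip. PROOF: `v = st σ (x, y)`: `lon true v = x`, slope `= (1-y) Mf (hj 1 x) + y Mf (hj (jn σ) x)`, so
`sg σ * dl true 1 v = y |Mf (hj (jn σ) x) - Mf (hj 1 x)| ‖v.1‖`, where `1/10 ≤ |..| ≤ 4`. Relative openness: on `{v.1 ≠ 0}` the inverse is
`v ↦ (lon true v, (v.2/‖v.1‖ - Mf (hj 1 x)) / (Mf (hj (jn σ) x) - Mf (hj 1 x)))`, continuous. Skeleton: BET for `0 < y < 1`; for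
`1 < y ≤ 1 + 1/400`: `|dl true (jn σ) v| ≤ (y - 1) · 4 ‖v.1‖ ≤ ‖v.1‖/100` and LSK. -/
def S_STD : Prop := ∀ σ : Bool, ContinuousOn (st σ) (Icc 0 1 ×ˢ Icc 0 (1 + 1 / 400)) ∧
  InjOn (st σ) (Icc 0 1 ×ˢ Icc 0 (1 + 1 / 400)) ∧
  (∀ x ∈ Icc (0 : ℝ) 1, ∀ y ∈ Icc (0 : ℝ) (1 + 1 / 400), st σ (x, y) ∈ Hem true ∧
    ((st σ (x, y)).1.im = 0 ↔ x = 0 ∨ x = 1) ∧ 0 ≤ sg σ * dl true 1 (st σ (x, y)) ∧
    (dl true 1 (st σ (x, y)) = 0 ↔ y = 0) ∧ (st σ (x, y) ∈ Skl ↔ y = 0 ∨ y = 1)) ∧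
  (fun x => st σ (x, 0)) '' Icc 0 1 = ch true 1 ∧ (fun x => st σ (x, 1)) '' Icc 0 1 = ch true (jn σ) ∧
  ∀ y₀, 0 < y₀ → y₀ ≤ 1 + 1 / 400 → ∃ O, IsOpen O ∧
    st σ '' (Icc 0 1 ×ˢ Ico 0 y₀) = {v | v ∈ Hem true ∧ 0 ≤ sg σ * dl true 1 v} ∩ O

def M_STD : Prop := S_MF → S_NML → S_LON → S_DLC → S_CHE → S_LSK → S_BET → S_STD

/-- SQ: a rectangle between a parallel copy of the chord (`y = 1`) and the next chord (`y = 2`). PROOF: let `B = st σ '' ([0,1] × [0, 1 + 1/400])`. Choose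
`0 < s₂ < ε` with `ψ (Smc × [0, s₂]) ⊆ st σ '' ([0,1] × [0, 1/2))` (compactness of `Smc × 0`, relative openness in STD; by SGN the points are in
`{0 ≤ sg σ * dl true 1}`). `ψ (Smc × [0, s₂))` is relatively open in `{v ∈ Hem true | 0 ≤ sg σ * dl true 1 v}` (OPN and SGN). `s₁ = s₂/2`.
Let `g : B → B` be `g (ψ (w, s)) = ψ (w, s₁ + s/2)` for `s ∈ [0, s₂]` and `g = id` off `ψ (Smc × [0, s₂))`; continuous (two
closed pieces, equal on `ψ (Smc × {s₂})`) and injective, its image is `B` minus `ψ (Smc × [0, s₁))`. Let `w(x) ∈ Smc` be given by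
`ψ (w(x), 0) = st σ (x, 0)` (a homeomorphism `[0,1] → Smc`). Then `τ (x, y) = ψ (w(x), s₁ (1 + y)/2)` for `y ∈ [0,1]`, `τ (x, y) = g (st σ (x, y - 1))` for
`y ∈ [1, 2]` and `g (st σ (x, 1 + (y-2)/400))` for `y ∈ [2, 3]`. At `y = 1`: `g (ψ (w(x), 0)) = ψ (w(x), s₁)`. At `y = 2` `g = id` near the chord `jn σ`. Relative openness of
the image of `[0,1] × (0,3)`: it is the set of points of `st σ ([0,1] × [0, 1 + 1/400))` which are not in `ψ (Smc × [0, s₁/2])`; this set is relatively open in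
`{v ∈ Hem true | 0 ≤ sg σ * dl true 1 v}` and contained in the relatively open set `{0 < sg σ * dl true 1}` of `Hem true`. -/
def S_SQ : Prop := ∀ ψ : ℂ × ℝ → ℂ × ℝ, ContinuousOn ψ (Smc ×ˢ Icc (-1) 1) → InjOn ψ (Smc ×ˢ Icc (-1) 1) →
  (∀ w ∈ Smc, ∀ s ∈ Icc (-1 : ℝ) 1, ψ (w, s) ∈ Hem true ∧ ((ψ (w, s)).1.im = 0 ↔ w.im = 0)) →
  (fun w => ψ (w, 0)) '' Smc = ch true 1 → ∀ σ : Bool,
  (∀ w ∈ Smc, ∀ s ∈ Ioc (0 : ℝ) 1, 0 < sg σ * dl true 1 (ψ (w, s)) ∧ sg σ * dl true 1 (ψ (w, -s)) < 0) →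
  ∀ ε > 0, ∃ (s₁ : ℝ) (τ : ℝ × ℝ → ℂ × ℝ), 0 < s₁ ∧ s₁ < ε ∧ s₁ < 1 ∧
    ContinuousOn τ (Icc 0 1 ×ˢ Icc 0 3) ∧ InjOn τ (Icc 0 1 ×ˢ Icc 0 3) ∧
    (∀ x ∈ Icc (0 : ℝ) 1, ∀ y ∈ Icc (0 : ℝ) 3, τ (x, y) ∈ Hem true ∧
      ((τ (x, y)).1.im = 0 ↔ x = 0 ∨ x = 1) ∧ (τ (x, y) ∈ Skl ↔ y = 2)) ∧
    (fun x => τ (x, 1)) '' Icc 0 1 = (fun w => ψ (w, s₁)) '' Smc ∧
    (fun x => τ (x, 2)) '' Icc 0 1 = ch true (jn σ) ∧
    ∃ O, IsOpen O ∧ τ '' (Icc 0 1 ×ˢ Ioo 0 3) = Hem true ∩ O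

def M_SQ : Prop := S_OPN → S_NML → S_DLC → S_STD → S_SQ

/-- THE: the slide homeomorphism. PROOF: `K` is compact (closed in... `K ∩ T.body` is compact) and disjoint from the compact `c (τ (…) × 0)`, so
there is `λ₀ ∈ (0, 1/2]` with `K ∩ c (τ ([0,1] × [0,3]) × [0, λ₀]) = ∅`. For `t ∈ [0,1]` let `S_t : [0,3] → [0,3]`, `S_t y = (1-t) y + t S_1 y`,
`S_1` = piecewise linear with `0 ↦ 0, 1 ↦ 2, 3 ↦ 3` (increasing). Define `Θ : V true → V true`: `Θ (c (τ (x,y), l)) = c (τ (x, S_{1 - l/λ₀} y), l)` for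
`l ≤ λ₀`, `Θ = id` elsewhere. It is continuous and injective on `V true`: the set `Q = c (τ ([0,1] × [0,3]) × [0, λ₀])` is closed, and
`c (τ ([0,1] × (0,3)) × [0, λ₀))` is relatively open in `V true` (by the last clause of SQ, `Collar.opn`, `Collar.side`), and on the rest of `Q` (`y ∈ {0,3}` or `l = λ₀`) `Θ = id`. `Θ` maps `Q` to `Q`
bijectively, preserves `l` (so `T.bd`) and `H` (`x ∈ {0,1}`). Let `ρ = min s₁ (1 - s₁)/2`, `Φ' (w, s) = Θ (Φ (w, s₁ + ρ s))`. For `‖w‖ = 1`: `Φ (w, s') = c (ψ (w, s'), 0)`, `s' = s₁ + ρ s > 0`, which is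
not in `T.skel` before `Θ`; if `ψ (w, s') = τ (x, y)` then after `Θ` it is `c (τ (x, S_1 y), 0)`, in the skeleton iff `S_1 y = 2` iff `y = 1` iff `ψ (w,s') ∈ ψ (Smc, s₁)` iff `s = 0`.
Trace: `Θ (c (τ (x, 1), 0)) = c (τ (x, 2), 0)`, so the boundary arc is the chord `jn σ`. Disjoint from `K`: a point `Θ p ∈ K`, `p ∈ Φ (·, s₁)`: if `p ∈ Q` then
`Θ p ∈ Q`, and `Q ∩ K = ∅`; otherwise `Θ p = p ∉ K`. -/
def S_THE : Prop := ∀ (Y : Type) [TopologicalSpace Y] [T2Space Y] (T : Cells Y) (H : Set Y)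
  (V : Bool → Set Y) (c : (ℂ × ℝ) × ℝ → Y), Collar T H V c →
  ∀ (Φ : ℂ × ℝ → Y) (ψ : ℂ × ℝ → ℂ × ℝ) (τ : ℝ × ℝ → ℂ × ℝ) (s₁ : ℝ) (K : Set Y) (j : Fin 3),
    ContinuousOn Φ (HDisk ×ˢ Icc (-1) 1) → InjOn Φ (HDisk ×ˢ Icc (-1) 1) →
    (∀ z ∈ HDisk, ∀ s ∈ Icc (-1 : ℝ) 1, Φ (z, s) ∈ V true ∧ (Φ (z, s) ∈ T.bd ↔ ‖z‖ = 1) ∧
      (Φ (z, s) ∈ H ↔ z.im = 0) ∧ (Φ (z, s) ∈ T.skel ↔ ‖z‖ = 1 ∧ s = 0)) →
    (∀ w ∈ Smc, ∀ s ∈ Icc (-1 : ℝ) 1, ψ (w, s) ∈ Hem true ∧ Φ (w, s) = c (ψ (w, s), 0)) →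
    0 < s₁ → s₁ < 1 →
    ContinuousOn τ (Icc 0 1 ×ˢ Icc 0 3) → InjOn τ (Icc 0 1 ×ˢ Icc 0 3) →
    (∀ x ∈ Icc (0 : ℝ) 1, ∀ y ∈ Icc (0 : ℝ) 3, τ (x, y) ∈ Hem true ∧
      ((τ (x, y)).1.im = 0 ↔ x = 0 ∨ x = 1) ∧ (τ (x, y) ∈ Skl ↔ y = 2)) →
    (fun x => τ (x, 1)) '' Icc 0 1 = (fun w => ψ (w, s₁)) '' Smc →
    (fun x => τ (x, 2)) '' Icc 0 1 = ch true j →
    (∃ O, IsOpen O ∧ τ '' (Icc 0 1 ×ˢ Ioo 0 3) = Hem true ∩ O) →
    IsCompact K → (∀ x ∈ Icc (0 : ℝ) 1, ∀ y ∈ Icc (0 : ℝ) 3, c (τ (x, y), 0) ∉ K) →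
    (∀ w ∈ HDisk, Φ (w, s₁) ∉ K) →
    ∃ f, IsEdgePar T H f ∧ HasKd T c (f '' HDisk) (some (true, j)) ∧ f '' HDisk ∩ K = ∅

def M_THE : Prop := S_NML → S_CHE → S_THE

/-- SLD: the slide. PROOF: `D = f '' HDisk` with the bicollar `Φ`; `Φ` maps into `V true` (connectedness as in KND). `Φ (w, s) = c (ψ (w, s), 0)` for `w ∈ Smc`; SGN gives `σ`
(here `s > 0` may be above or below, both are fine). `D ∩ E ⊆ T.skel ⊆ T.bd`, and `D ∩ E ∩ T.bd` is the intersection of the chords `A2 = ch true 1` and `B2 = ch false 1`,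
which is empty (end points `R3, L9` and `R9, L3`), so `D ∩ E = ∅`. Choose `ε` with `Φ (HDisk × [0, ε))` disjoint from `E` (compactness); it is disjoint from `D` for `s ≠ 0`. SQ, then
THE with `K = D ∪ E`: `c (τ (x,y), 0) ∈ K` would give (kinds) `τ (x, y) ∈ ch true 1 ∪ ch false 1 ⊆ Skl`, so `y = 2` and `τ (x,y) ∈ ch true (jn σ)`, which is disjoint from both chords (ORD/heights:
`jn σ ≠ 1`; end points for `ch false 1`). -/
def S_SLD : Prop := ∀ (Y : Type) [TopologicalSpace Y] [T2Space Y] (T : Cells Y) (H : Set Y)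
  (V : Bool → Set Y) (c : (ℂ × ℝ) × ℝ → Y), Collar T H V c → ∀ D E : CE T H,
    HasKd T c D.1 (some (true, 1)) → HasKd T c E.1 (some (false, 1)) → D.1 ∩ E.1 ⊆ T.skel →
    ∃ (D' : CE T H) (j : Fin 3), j ≠ 1 ∧ HasKd T c D'.1 (some (true, j)) ∧ D'.1 ∩ D.1 ⊆ T.skel ∧
      D'.1 ∩ E.1 ⊆ T.skel

def M_SLD : Prop := S_MF → S_NML → S_LON → S_DLC → S_CHE → S_KND → S_KIN → S_SGN → S_SQ → S_THE → S_SLD

/-- ASM: `π₀ = π₁ = 0`. PROOF: `K.S_K5` with `P = vt none` and `C v = {vt (some J) | ∃ D k, cls D = v ∧ HasKd T c D.1 k ∧ cptk (some J) k}`. Every `D : CE T H` has a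
kind (KND), all representatives of `v` have the same kind (KIN; `Quot` equality is the equivalence relation generated by `Isotopic`: `Quot.eqvGen_exact`, induction on
`Relation.EqvGen`; `Isotopic` is symmetric by `t ↦ 1 - t`). h1: DEC 1. h2, h3: `L2` with `s = {w}` or `s = ∅` and `Js = {some J}`, `{some J, none}`, `{some J, some J'}`, `{some J, some J', none}`
(when `w = vt (some J)` the union is still the same Finset); the chain is DEC 2. h4: let `{u, v}` be a face with representatives `D u`, `D v` (choose; for `u = v` use one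
vertex), kinds `k, k'`. DEC 3: a common `J` and L2 with `s = {u, v}`, `Js = {some J}` give `Good u v`. Otherwise (up to symmetry) kinds `A2`, `B2`: SLD gives `D'`, `w = cls D'`
(different from `u`, `v` by KIN); `{u, w, v}` is a face by the definition with the representatives `D u, D', D v`, `Good u w`, `Good w v` by DEC 4 and L2 with `s = {u, w}`, `s = {w, v}`. -/
def S_ASM : Prop := ∀ (Y : Type) [TopologicalSpace Y] [T2Space Y] (T : Cells Y) (H : Set Y)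
  (V : Bool → Set Y) (c : (ℂ × ℝ) × ℝ → Y), Collar T H V c → Peri H c →
    ¬ PiNe 0 (diskCpx T H).Space ∧ ¬ PiNe 1 (diskCpx T H).Space

def M_ASM : Prop := K.S_K5 → S_KND → S_KIN → S_L2 → S_DEC → S_SLD → S_ASM

end

end Pool.Agent.LIX.S
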