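import Pool.Agent.LIX.GCol
import Pool.Agent.LIX.GSph
import Pool.Agent.LIX.StmtsS
import Pool.Agent.LIX.StmtsTB

/-!
# LIX, block G: statements (geometry of the model: the surface `HT` in `TT`)

Module `X` proves `theorem t_X : M_X` (or `t_X : S_X` if there is no `M_X`) in the namespace
`Pool.Agent.LIX.G`, in the file `Pool/Agent/LIX/G_X.lean`, importing this file (and Mathlib) only, unless the
doc-string says otherwise.

Proved and available (namespace `Pool.Agent.LIX`): `GBase.lean` (`kap_mem_S3`, `kinv`, `kinv_kap`, `kap_kinv`, `kap_injOn`,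
`KU`, `KO r`, `S3_inter_KO`, `continuousOn_kinv`, `nrm_sq'`, `nrm_smul`, `mem_Sph_iff`, ...), `GCol.lean`
(`collar_TT : Collar TT HT VT col`, `col_eq`, `norm_sub_kap`, `kap_mem_body`), `GSph.lean` (`strictMono_Mf`,
`continuous_Mf`, `MfIso : ℝ ≃o ℝ` with `MfIso u = Mf u`, `continuous_MfIso_symm`, `Mf_of_le_six`, `Mf_of_mid`,
`Mf_of_ten_le`, `nml_exp`, `nml_exp_mem`, `eq_nml_iff`, `mem_hlx`, `Skl_eq`, `Skl_subset`, `isCompact_Skl`, `isCompact_Sph`).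
-/

set_option autoImplicit false

namespace Pool.Agent.LIX.G

open Set Metric Complex

noncomputable section

/-! ## Charts at boundary points -/

/-- GCH: a chart of the pair near a boundary point from a chart `k` of the sphere (inverse `k'`).
PROOF: `c` is a homeomorphism of the compact set `Sph ×ˢ Icc 0 1` onto its (compact, closed) image. Let `O` be the open set of
`Collar.opn` and `U = O \ c '' ((Sph \ N) ×ˢ Icc 0 1)`: open (`Sph \ N` is compact) and, by injectivity,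
`U ∩ T.body = c '' ((Sph ∩ N) ×ˢ Ico 0 1)`. `Wc = {x : ℝ × ℝ × ℝ | (x.1, x.2.1) ∈ W ∧ x.2.2 < 1}` is open. The homeomorphism
`U ∩ T.body ≃ₜ Wc ∩ {0 ≤ x.2.2}` is `c (w, l) ↦ ((k w).1, (k w).2, l)`, its inverse is `x ↦ c (k' (x.1, x.2.1), x.2.2)`; the inverse is
clearly continuous; for the continuity of the map itself use the continuous inverse of `c` on `c '' (Sph ×ˢ Icc 0 1)`
(`IsCompact` domain, T2: restrict `c` to the compact subtype, `Continuous.isClosedEmbedding` / `Continuous.homeoOfEquivCompactToT2`, or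
`IsCompact.continuousOn_invFunOn`-style lemma). Conditions: `Collar.surf`; `c (w, l) ∈ T.bd ↔ l = 0` (`Collar.bd`, `inj`);
`T.skel = (fun v => c (v, 0)) '' Skl` (`Collar.edge`), so `c (w, l) ∈ T.skel ↔ w ∈ Skl ∧ l = 0`. -/
def S_GCH : Prop := ∀ (Y : Type) [TopologicalSpace Y] [T2Space Y] (T : Cells Y) (H : Set Y)
  (V : Bool → Set Y) (c : (ℂ × ℝ) × ℝ → Y), Collar T H V c →
  ∀ (v : ℂ × ℝ) (N : Set (ℂ × ℝ)) (W : Set (ℝ × ℝ)) (k : ℂ × ℝ → ℝ × ℝ) (k' : ℝ × ℝ → ℂ × ℝ)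
    (S : Set (ℝ × ℝ × ℝ)),
    v ∈ Sph → v ∈ N → IsOpen N → IsOpen W → ContinuousOn k (Sph ∩ N) → ContinuousOn k' W →
    (∀ w ∈ Sph ∩ N, k w ∈ W ∧ k' (k w) = w ∧ (w.1.im = 0 ↔ (k w).2 = 0) ∧
      ∀ l : ℝ, (w ∈ Skl ∧ l = 0 ↔ ((k w).1, (k w).2, l) ∈ S)) →
    (∀ x ∈ W, k' x ∈ Sph ∩ N ∧ k (k' x) = x) →
    HasChart T H (c (v, 0)) {v | 0 ≤ v.2.2} {v | v.2.2 = 0} S

/-- The point of the sphere with height `x.1` (slope `Mf x.1`) and direction `e · exp (i x.2)`. -/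
def pp (e : ℝ) (x : ℝ × ℝ) : ℂ × ℝ := nml ((e : ℂ) * exp ((x.2 : ℝ) * I), Mf x.1)

/-- The inverse of `pp e`. -/
def kk (e : ℝ) (w : ℂ × ℝ) : ℝ × ℝ := (MfIso.symm (w.2 / ‖w.1‖), arg ((e : ℂ) * w.1))

/-- PP: coordinates of the sphere off the poles. PROOF: `(e : ℂ) * exp (x.2 I) = exp ((x.2 + a) I)` with `a = 0` or `π`, so
`nml_exp`, `nml_exp_mem`, `eq_nml_iff` apply: `(pp e x).1 = (e exp (i x.2)) / √(1 + Mf² )`. `arg` is continuous on the slit plane, and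
`|arg z| < π/2 ↔ 0 < re z` (`Complex.abs_arg_lt_pi_div_two_iff`); `Complex.norm_mul_exp_arg_mul_I` for the last clause. -/
def S_PP : Prop := ∀ e : ℝ, e = 1 ∨ e = -1 →
  ContinuousOn (kk e) {w | 0 < e * w.1.re} ∧ Continuous (pp e) ∧
  (∀ x : ℝ × ℝ, |x.2| < Real.pi / 2 → pp e x ∈ Sph ∧ 0 < e * (pp e x).1.re ∧ kk e (pp e x) = x ∧
    ((pp e x).1.im = 0 ↔ x.2 = 0)) ∧
  (∀ w ∈ Sph, 0 < e * w.1.re → |(kk e w).2| < Real.pi / 2 ∧ pp e (kk e w) = w)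

/-- NEAR: the skeleton near the crossing points which are not poles. PROOF: by `Skl_eq` (the polar arcs have `re = 0`, and
`re = im = 0` is excluded) `w` is in one of the four helices `hlx b k`, `(b, k) ∈ {(1/2, 1/6), (1/2, 1/4), (-1/2, 1/4), (-1/2, 1/6)}`;
`mem_hlx` gives `U₀ ∈ [0, 12]` with `w.1 = ‖w.1‖ exp (iπ (b + k U₀))`; `w.1.im = 0` gives `sin (π (b + k U₀)) = 0`, so `b + k U₀ = n ∈ ℤ`
(`Real.sin_eq_zero_iff`), and `U₀ = (n - b)/k ∈ [0,12]` leaves the ten cases `U₀ ∈ {3, 9}` (`k = 1/6`), `U₀ ∈ {2, 6, 10}` (`k = 1/4`).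
`e = (-1)^n`, `κ = 1/(π k)`, `δ = 1/20`. For `x` with `|x.1 - U₀| < δ`, `|x.2| < δ`: `(pp e x).1.re ≠ 0` excludes the polar arcs, and
by `eq_nml_iff`, `mem_hlx` and injectivity of `Mf`: `pp e x ∈ hlx b' k' ↔ e exp (i x.2) = exp (iπ (b' + k' x.1))` (note `x.1 ∈ [0,12]`) `↔
∃ m : ℤ, x.2/π = b' + k' x.1 - n + 2 m` (`Complex.exp_eq_exp_iff_exists_int`). For `(b', k') = (b, k)`: `x.2/π = k (x.1 - U₀) + 2m`, and both
sides small force `m = 0`: `x.1 = U₀ + κ x.2`. For the three other helices `12 (b' + k' U₀ - n) + 24 m` is an integer of absolute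
value `≥ 2` (check the ten cases, `omega`), so `|b' + k' U₀ - n + 2m| ≥ 1/6`, while `|x.2/π - k' (x.1 - U₀)| < 1/6`: impossible. -/
def S_NEAR : Prop := ∀ w ∈ Skl, w.1.im = 0 → w.1 ≠ 0 → ∃ e U₀ κ δ : ℝ, (e = 1 ∨ e = -1) ∧ w = pp e (U₀, 0) ∧
  0 < δ ∧ δ < 1 ∧ ∀ x : ℝ × ℝ, |x.1 - U₀| < δ → |x.2| < δ → (pp e x ∈ Skl ↔ x.1 = U₀ + κ * x.2)

/-- OUT: charts at boundary points off the skeleton. PROOF: `p = col (v, 0)` with `v ∈ Sph`, `v.1.im = 0` (`collar_TT.bd`, `.surf`), `v ∉ Skl`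
(`collar_TT.edge`); `v.1 ≠ 0` (the poles are in `Skl` by `Skl_eq`), so `0 < e * v.1.re` for `e = 1` or `e = -1`. Apply GCH to `collar_TT`
with `N = {w | 0 < e * w.1.re} ∩ Sklᶜ`, `k = kk e`, `k' = pp e`, `W = {x | |x.2| < π/2} ∩ (pp e) ⁻¹' Sklᶜ`, `S = ∅`. -/
def S_OUT : Prop := ∀ p ∈ HT, p ∈ TT.bd → p ∉ TT.skel → HasChart TT HT p {v | 0 ≤ v.2.2} {v | v.2.2 = 0} ∅

def M_OUT : Prop := S_GCH → S_PP → S_OUT

/-- POL: charts at the poles. PROOF: GCH for `collar_TT` with `N = {w | 2 * ‖w.1‖ < s * w.2}`, `k w = (w.1.re, w.1.im)`,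
`k' x = (x.1 + x.2 i, s √(1 - x.1² - x.2²))`, `W = {x | 5 (x.1² + x.2²) < 1}`, `S = {v | v.1 = 0 ∧ v.2.2 = 0}`. On `Sph`:
`2 ‖u‖ < s z ↔ 0 < s z ∧ 4 ‖u‖² < 1 - ‖u‖²`. Skeleton: on `Sph ∩ N` the helices are excluded (`mem_hlx`: `w.2 = ‖w.1‖ Mf u`,
`|Mf u| ≤ 2` for `u ∈ [0,12]`), so by `Skl_eq`: `w ∈ Skl ↔ w.1.re = 0`. -/
def S_POL : Prop := ∀ s : ℝ, s = 1 ∨ s = -1 →
  HasChart TT HT (col ((0, s), 0)) {v | 0 ≤ v.2.2} {v | v.2.2 = 0} {v | v.1 = 0 ∧ v.2.2 = 0}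

def M_POL : Prop := S_GCH → S_POL

/-- CRS: charts at the points of the skeleton. PROOF: `p = col (v, 0)`, `v ∈ Skl`, `v.1.im = 0`. If `v.1 = 0` then `v = (0, ±1)`: POL. Otherwise
NEAR: `e, U₀, κ, δ`; GCH for `collar_TT` with `N = {w | 0 < e * w.1.re ∧ |(kk e w).1 - U₀| < δ ∧ |(kk e w).2| < δ}` (open: write it as the
preimage of an open set under `kk e`, continuous on an open set), `k w = ((kk e w).1 - U₀ - κ * (kk e w).2, (kk e w).2)`,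
`k' x = pp e (x.1 + U₀ + κ * x.2, x.2)`, `W = {x | |x.1 + κ * x.2| < δ ∧ |x.2| < δ}`, `S = {v | v.1 = 0 ∧ v.2.2 = 0}`. -/
def S_CRS : Prop := ∀ p ∈ HT, p ∈ TT.skel →
  HasChart TT HT p {v | 0 ≤ v.2.2} {v | v.2.2 = 0} {v | v.1 = 0 ∧ v.2.2 = 0}

def M_CRS : Prop := S_GCH → S_PP → S_NEAR → S_POL → S_CRS

/-- INN: charts at interior points. PROOF: `p = (p₁, p₂)` with `‖p₁‖ = ‖p₂‖ = 1/√2`, `ω_i = p_i/‖p_i‖`. Let
`K (a, y, b) = (√((1+y)/2) exp(ia) ω₁, √((1-y)/2) exp(ib) ω₂)`, continuous on `ℝ³`, with values in `S3` for `|y| < 1`; on the open set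
`S = {q | q.1 / ω₁ ∈ slitPlane ∧ q.2 / ω₂ ∈ slitPlane}` the map `L q = (arg (q.1/ω₁), ‖q.1‖² - ‖q.2‖², arg (q.2/ω₂))` is continuous; `K (L q) = q` for
`q ∈ S3 ∩ S`, `L (K x) = x` for `x ∈ W₀ = {|a| < π, |y| < 1, |b| < π}`. `C = kap '' {v | nrm v ≤ 1/5}` is compact and `p ∉ C` (`p ∈ TT.body`,
`p ∉ TT.bd`). `U = S \ C`, `W = W₀ ∩ K ⁻¹' Cᶜ`, `e = L`. `U ∩ TT.body = U ∩ S3`. In `U` there are no points of `TT.bd`, hence none of `TT.skel`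
(`TT.skel ⊆ TT.bd`: `collar_TT.edge`, `collar_TT.bd`, `Skl_subset`); `q ∈ HT ↔ ‖q.1‖ = ‖q.2‖ ↔ ‖q.1‖² - ‖q.2‖² = 0`. -/
def S_INN : Prop := ∀ p ∈ HT, p ∉ TT.bd → HasChart TT HT p univ ∅ ∅

/-- SURF (assembly; done by helper59) -/
def S_SURF : Prop := IsSurf TT HT

def M_SURF : Prop := S_INN → S_OUT → S_CRS → S_SURF

/-! ## Length -/

/-- LEN. PROOF: `HT ∩ TT.skel = (fun v => col (v, 0)) '' (Skl ∩ {v | v.1.im = 0})` (`collar_TT.edge`, `.surf`), `v ↦ col (v, 0)` is injective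
on `Sph` (`Set.ncard_image_of_injOn`). By `Skl_eq` and `mem_hlx`: a point of a helix `(b, k)` has `im = 0` iff `sin (π (b + k u)) = 0` iff
`b + k u ∈ ℤ`, so `u ∈ {3, 9}` (`k = 1/6`), `u ∈ {2, 6, 10}` (`k = 1/4`), with direction `cos (π (b + k u)) = ±1`; a point of the polar arcs has
`im = 0` iff `w.1 = 0`. Hence the set is `{(0, 1), (0, -1)} ∪ {nml (e, Mf n) | e ∈ {1, -1}, n ∈ {2, 3, 6, 9, 10}}`: twelve
different points (`nml (e, m).1 = e/√(1+m²)`, slope `m`; `Mf` is injective). The twelve: `(1/2, 1/6)`: `u = 3: -1`, `u = 9: 1`; `(1/2, 1/4)`: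
`u = 2: -1, 6: 1, 10: -1`; `(-1/2, 1/4)`: `u = 2: 1, 6: -1, 10: 1`; `(-1/2, 1/6)`: `u = 3: 1, 9: -1`. -/
def S_LEN : Prop := len TT HT = 12

/-! ## The cell decomposition -/

/-- the open unit cube -/
def OB (d : ℕ) : Set (Fin d → ℝ) := {x | ∀ i, x i ∈ Ioo (0 : ℝ) 1}

/-- CELL: images of open cubes. PROOF: the restriction `G` of `F` to the compact subspace `Icc 0 1` is a closed map; `OB d` is saturated
(`F ⁻¹ (F '' OB d) = OB d` in `Icc 0 1`, by both hypotheses), so the restriction `OB d → F '' OB d` is a continuous closed bijection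
(a relatively closed subset of `OB d` is `A ∩ OB d`, `A` closed in the cube; its image is `F '' A ∩ F '' OB d`), a
homeomorphism. `OB d ≃ₜ (Fin d → ℝ)` coordinatewise from `Ioo 0 1 ≃ₜ ℝ` (`Real.tanOrderIso` with an affine map, or `orderIsoIooNegOneOne`).
Closure: `F '' Icc 0 1` is closed. -/
def S_CELL : Prop := ∀ (Y : Type) [TopologicalSpace Y] [T2Space Y] (d : ℕ) (F : (Fin d → ℝ) → Y),
  ContinuousOn F (Icc 0 1) → InjOn F (OB d) →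
  (∀ x ∈ OB d, ∀ y ∈ Icc (0 : Fin d → ℝ) 1, y ∉ OB d → F x ≠ F y) →
  Nonempty (↥(F '' OB d) ≃ₜ (Fin d → ℝ)) ∧ closure (F '' OB d) \ F '' OB d ⊆ F '' (Icc 0 1 \ OB d)

/-- The torus: `EE (θ + i φ) = (e^{iθ}, e^{iφ})/√2`. -/
def EE (ζ : ℂ) : ℂ × ℂ := (exp ((ζ.re : ℝ) * I) / (√2 : ℝ), exp ((ζ.im : ℝ) * I) / (√2 : ℝ))

/-- HTE: the surface as a quotient of a square minus a disk. PROOF: second clause: `Complex.exp_eq_exp_iff_exists_int`. First clause: for `p ∈ HT`,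
`‖p.1‖ = ‖p.2‖ = 1/√2` (`p ∈ S3`) so `p = EE (arg p.1 + i arg p.2)`; `kinv p = (((θ - φ)/2), (θ + φ)/2)` (imaginary part `π/4 - arccos (1/√2) = 0`), and
`nrm² = (θ² + φ²)/2`; since `kap (kinv p) = p` and `p ∉ kap '' {nrm < 1/5}`: `θ² + φ² ≥ 2/25`. Conversely `EE ζ ∈ S3`, and if
`EE ζ = kap v`, `nrm v < 1/5`, then `v.1.im = 0` (`norm_sub_kap`, `sin_sign`), and with `θ' = v.2 + v.1.re`, `φ' = v.2 - v.1.re` (`|θ'|, |φ'| < 1`, `θ'² + φ'² = 2 nrm² < 2/25`):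
`e^{iθ'} = e^{i ζ.re}`, `e^{iφ'} = e^{i ζ.im}`, and `|ζ.re|, |ζ.im| ≤ π` force `ζ = θ' + iφ'`, so `‖ζ‖² < 2/25`. -/
def S_HTE : Prop := HT = EE '' {ζ | |ζ.re| ≤ Real.pi ∧ |ζ.im| ≤ Real.pi ∧ √2 / 5 ≤ ‖ζ‖} ∧
  (∀ ζ ξ : ℂ, EE ζ = EE ξ ↔ ∃ a b : ℤ, ξ.re = ζ.re + 2 * Real.pi * a ∧ ξ.im = ζ.im + 2 * Real.pi * b) ∧
  Continuous EE

/-- the angle `-3π/4 + 2π s` -/
def al (s : ℝ) : ℝ := Real.pi * (2 * s - 3 / 4)

/-- the length of the segment from `0` to the boundary of the square in the direction `a` -/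
def RR (a : ℝ) : ℝ := Real.pi / max |Real.cos a| |Real.sin a|

/-- polar coordinates of the square minus the disk: `x.1` the angle, `x.2 = 0` on the circle, `x.2 = 1` on the boundary of the square -/
def QQ (x : ℝ × ℝ) : ℂ :=
  (((1 - x.2) * (√2 / 5) + x.2 * RR (al x.1) : ℝ) : ℂ) * exp ((al x.1 : ℝ) * I)

/-- QQ: facts on polar coordinates. PROOF: `max |cos| |sin| ≥ 1/√2 > 0`, so `RR` is continuous and `π ≤ RR a`; the radius
`r = (1-t) √2/5 + t RR` is in `[√2/5, RR]`, strictly increasing in `t`, `‖QQ x‖ = r`, `max |re| |im| = r · max |cos| |sin| = π r / RR`. The ray: `re = im < 0` iff the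
direction `exp (i al s)` is `exp (-3πi/4)`. Injectivity: equal norm and direction: `al s - al s' ∈ 2πℤ`, so `s = s'` for `s, s' ∈ [0,1)`, then `t = t'`. Surjectivity:
`ζ = ‖ζ‖ exp (i a)` with `a = arg ζ`, `s = (a/π + 3/4)/2` or this plus `1`, in `[0, 1)`; `‖ζ‖ max |cos a| |sin a| = max |re| |im| ≤ π` gives `‖ζ‖ ≤ RR a`. -/
def S_QQ : Prop := Continuous QQ ∧
  (∀ x ∈ Icc (0 : ℝ) 1 ×ˢ Icc (0 : ℝ) 1, √2 / 5 ≤ ‖QQ x‖ ∧ (‖QQ x‖ = √2 / 5 ↔ x.2 = 0) ∧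
    |(QQ x).re| ≤ Real.pi ∧ |(QQ x).im| ≤ Real.pi ∧ ((|(QQ x).re| = Real.pi ∨ |(QQ x).im| = Real.pi) ↔ x.2 = 1) ∧
    (((QQ x).re = (QQ x).im ∧ (QQ x).re < 0) ↔ (x.1 = 0 ∨ x.1 = 1))) ∧
  InjOn QQ (Ico (0 : ℝ) 1 ×ˢ Icc (0 : ℝ) 1) ∧
  (∀ ζ : ℂ, |ζ.re| ≤ Real.pi → |ζ.im| ≤ Real.pi → √2 / 5 ≤ ‖ζ‖ → ∃ x ∈ Ico (0 : ℝ) 1 ×ˢ Icc (0 : ℝ) 1, QQ x = ζ)

/-- CON. PROOF: by HTE and QQ `HT = (EE ∘ QQ) '' (Icc 0 1 ×ˢ Icc 0 1)`, the image of a convex nonempty set. -/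
def S_CON : Prop := IsConnected HT

def M_CON : Prop := S_HTE → S_QQ → S_CON

/-- CHI: the Euler characteristic is `2 - 4 + 1`. PROOF: for `p ∈ HT` let `ζ = arg p.1 + i arg p.2`, in `(-π, π]²`, the unique such number
with `EE ζ = p` (`‖p.i‖ = 1/√2`). Seven cells: (0) `re = im = π`; (1) `ζ = -(1/5)(1+i)`; (2) `re = π`, `im ≠ π`; (3) `im = π`, `re ≠ π`; (4) `‖ζ‖ = √2/5`,
`ζ ≠ -(1/5)(1+i)`; (5) `re = im < 0`, `‖ζ‖ > √2/5`; (6) the rest: `|re|, |im| < π`, `‖ζ‖ > √2/5`, not (`re = im < 0`). They are disjoint and cover `HT`. Dimensions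
`0, 0, 1, 1, 1, 1, 2`. Cell maps `F : (Fin d → ℝ) → ℂ × ℂ` for CELL, `t = x 0`: (0), (1) constants (`d = 0`, `OB 0 = univ = Icc 0 1`); (2) `EE (π + (2πt - π) i)`; (3) `EE ((2πt - π) + π i)`;
(4) `EE (QQ (t, 0))`; (5) `EE (x (1 + i))`, `x = -π + t (π - 1/5)`; (6) `EE (QQ (x 0, x 1))`. Boundaries: (2), (3) both ends are (0); (4) both ends are (1); (5) the ends are (0) and (1); (6) `x 1 = 0`: in (1) ∪ (4);
`x 1 = 1`: `|re| = π` or `|im| = π`: in (0) ∪ (2) ∪ (3) (after reduction modulo `2π`); `x 0 ∈ {0, 1}`: `re = im < 0`: in (0) ∪ (1) ∪ (5).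
For (6) note `EE` is injective on the open square. -/
def S_CHI : Prop := HasChi HT (-1)

def M_CHI : Prop := S_CELL → S_HTE → S_QQ → S_CHI

/-! ## The peripheral loop -/

/-- PER: the peripheral loops are essential. PROOF: let `g` be an extension to the disk. By LIFT (twice; `E = ℂ`, `A = Disk` convex, values on the circles `‖·‖ = 1/√2`, not `0`)
there are continuous `θ, φ : ℂ → ℝ` on `Disk` with `(g w).1 = ‖(g w).1‖ exp (iθ w)`, `(g w).2 = ‖(g w).2‖ exp (iφ w)`. On the unit circle `g w = col ((re w, im w), η w) = kap (r re w, r im w)`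
with `r = (1 + η w)/5` (the first coordinate is real), so `exp (iθ w) = exp (i r (im w + re w))`, `exp (iφ w) = exp (i r (im w - re w))`; UNQ on the circle (preconnected:
`isPreconnected_sphere`, real dimension 2, or image of the line): `θ = r (im + re) + 2πn`, `φ = r (im - re) + 2πm`. Put `G w = ((θ w - 2πn) - (φ w - 2πm))/2 + i ((θ w - 2πn) + (φ w - 2πm))/2`,
continuous on `Disk`, `G w = r w` on the circle. `G w ≠ 0`: otherwise `exp (iθ) = exp (iφ) = 1`, and `‖(g w).1‖ = ‖(g w).2‖ = 1/√2` gives `g w = kap 0`, which is not in `TT.body`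
(`kap_mem_body`). `Pool.Agent.LIX.S_EXT` (with `z = 0`): `LogOn (sphere 0 1) G 0`, with `φ'`; as `r > 0`, `w = ‖w‖ exp (iφ' w)` on the circle, so `HasLog (sphere 0 1) 0`: contradiction to `S_CIR`. -/
def S_PER : Prop := S.Peri HT col

def M_PER : Prop := S_LIFT → S_UNQ → Pool.Agent.LIX.S_EXT → S_CIR → S_PER

end

end Pool.Agent.LIX.G
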