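import Pool.Agent.LIX.StmtsTR
import Pool.Agent.LIX.DefsT

/-!
# LIX, block G4: `TT` is isomorphic to the standard tetrahedron

`Hm K L f`: `f` is a homeomorphism from the compact set `K` onto `L` (`Hm.comp`, `Hm.symm`, `Hm.homeo`).
`BB`: the closed unit ball of `ℂ × ℝ` for `nrm`.  `t • v` is the real scaling of `ℂ × ℝ`.
`rs p = re (p₁ + p₂)`, `KK C = {p ∈ S3, rs p ≤ C}`.
Basic lemmas: `nrm_smul`, `nrm_nonneg`, `nrm_eq_zero`, `cont_nrm`, `nrm_unit`, `smul_unit`, `cpt_Sph`, `cpt_BB`, `rs_kap`.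
All proofs are in the doc-strings.
-/

set_option autoImplicit false

namespace Pool.Agent.LIX.G4

open Set Metric Complex

noncomputable section

/-! ## Homeomorphisms of compact sets -/

/-- `f` is a homeomorphism from the compact set `K` onto `L`. -/
structure Hm {α β : Type} [TopologicalSpace α] [TopologicalSpace β] (K : Set α) (L : Set β)
    (f : α → β) : Prop where
  cpt : IsCompact K
  cont : ContinuousOn f K
  inj : InjOn f K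
  img : f '' K = L

section Hm

variable {α β γ : Type} [TopologicalSpace α] [TopologicalSpace β] [TopologicalSpace γ]
  {K : Set α} {L : Set β} {M : Set γ} {f : α → β} {g : β → γ}

theorem Hm.maps (h : Hm K L f) : MapsTo f K L := fun x hx => h.img ▸ mem_image_of_mem f hx

theorem Hm.cpt' (h : Hm K L f) : IsCompact L := by
  rw [← h.img]
  exact h.cpt.image_of_continuousOn h.cont

theorem Hm.comp (h : Hm K L f) (h' : Hm L M g) : Hm K M (fun x => g (f x)) where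
  cpt := h.cpt
  cont := h'.cont.comp h.cont h.maps
  inj := h'.inj.comp h.inj h.maps
  img := by
    have e : (fun x => g (f x)) '' K = g '' (f '' K) := by rw [image_image]
    rw [e, h.img, h'.img]

/-- The inverse homeomorphism. -/
theorem Hm.symm [T2Space β] [Nonempty α] (h : Hm K L f) :
    ∃ g : β → α, Hm L K g ∧ (∀ x ∈ K, g (f x) = x) ∧ ∀ y ∈ L, f (g y) = y := by
  have h1 : ∀ x ∈ K, Function.invFunOn f K (f x) = x := fun x hx => h.inj.leftInvOn_invFunOn hx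
  have h2 : ∀ y ∈ L, Function.invFunOn f K y ∈ K ∧ f (Function.invFunOn f K y) = y := by
    intro y hy
    rw [← h.img] at hy
    exact ⟨Function.invFunOn_mem hy, Function.invFunOn_eq hy⟩
  refine ⟨Function.invFunOn f K, ⟨h.cpt', ?_, ?_, ?_⟩, h1, fun y hy => (h2 y hy).2⟩
  · rw [continuousOn_iff_isClosed]
    intro t ht
    refine ⟨f '' (K ∩ t), ((h.cpt.inter_right ht).image_of_continuousOn
      (h.cont.mono inter_subset_left)).isClosed, ?_⟩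
    ext y
    constructor
    · rintro ⟨hy1, hy2⟩
      exact ⟨⟨Function.invFunOn f K y, ⟨(h2 y hy2).1, hy1⟩, (h2 y hy2).2⟩, hy2⟩
    · rintro ⟨⟨x, ⟨hx1, hx2⟩, rfl⟩, hy2⟩
      refine ⟨?_, hy2⟩
      change Function.invFunOn f K (f x) ∈ t
      rw [h1 x hx1]
      exact hx2
  · intro y hy y' hy' e
    rw [← (h2 y hy).2, ← (h2 y' hy').2, e]
  · ext x
    constructor
    · rintro ⟨y, hy, rfl⟩
      exact (h2 y hy).1
    · intro hx
      exact ⟨f x, h.maps hx, h1 x hx⟩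

theorem Hm.congr {f' : α → β} (h : Hm K L f) (e : ∀ x ∈ K, f' x = f x) : Hm K L f' where
  cpt := h.cpt
  cont := h.cont.congr e
  inj := fun x hx y hy exy => h.inj hx hy (by rw [← e x hx, ← e y hy, exy])
  img := by rw [← h.img]; exact image_congr e

theorem Hm.homeo [T2Space β] [Nonempty α] (h : Hm K L f) :
    ∃ e : ↥K ≃ₜ ↥L, ∀ x, ((e x : ↥L) : β) = f x := by
  obtain ⟨g, hg, h1, h2⟩ := h.symm
  refine ⟨⟨⟨fun x => ⟨f x, h.maps x.2⟩, fun y => ⟨g y, hg.maps y.2⟩, fun x => Subtype.ext (h1 x x.2),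
    fun y => Subtype.ext (h2 y y.2)⟩, ?_, ?_⟩, fun x => rfl⟩
  · exact (continuousOn_iff_continuous_restrict.1 h.cont).subtype_mk _
  · exact (continuousOn_iff_continuous_restrict.1 hg.cont).subtype_mk _

end Hm

/-! ## The norm -/

theorem nrm_nonneg (v : ℂ × ℝ) : 0 ≤ nrm v := Real.sqrt_nonneg _

theorem nrm_sq (v : ℂ × ℝ) : nrm v ^ 2 = ‖v.1‖ ^ 2 + v.2 ^ 2 := Real.sq_sqrt (by positivity)

theorem nrm_sq' (v : ℂ × ℝ) : nrm v ^ 2 = v.1.re ^ 2 + v.1.im ^ 2 + v.2 ^ 2 := by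
  rw [nrm_sq, ← Complex.normSq_eq_norm_sq, Complex.normSq_apply]
  ring

theorem mem_Sph {v : ℂ × ℝ} : v ∈ Sph ↔ nrm v = 1 := by
  constructor
  · intro h
    have h1 : nrm v ^ 2 = 1 := by rw [nrm_sq]; exact h
    nlinarith [nrm_nonneg v]
  · intro h
    have h1 : nrm v ^ 2 = 1 := by rw [h]; norm_num
    rw [nrm_sq] at h1
    exact h1

theorem nrm_eq_zero {v : ℂ × ℝ} : nrm v = 0 ↔ v = 0 := by
  constructor
  · intro h
    have h1 : nrm v ^ 2 = 0 := by rw [h]; norm_num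
    rw [nrm_sq] at h1
    have h2 : ‖v.1‖ = 0 := by nlinarith [sq_nonneg ‖v.1‖, sq_nonneg v.2]
    have h3 : v.2 = 0 := by nlinarith [sq_nonneg ‖v.1‖, sq_nonneg v.2]
    exact Prod.ext (norm_eq_zero.1 h2) h3
  · rintro rfl
    simp [nrm]

theorem nrm_pos {v : ℂ × ℝ} (h : v ≠ 0) : 0 < nrm v :=
  lt_of_le_of_ne (nrm_nonneg v) fun e => h (nrm_eq_zero.1 e.symm)

theorem nrm_smul (t : ℝ) (v : ℂ × ℝ) : nrm (t • v) = |t| * nrm v := by
  have h : nrm (t • v) ^ 2 = (|t| * nrm v) ^ 2 := by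
    rw [nrm_sq, mul_pow, nrm_sq, Prod.smul_fst, Prod.smul_snd, norm_smul, Real.norm_eq_abs, smul_eq_mul,
      mul_pow, mul_pow, sq_abs]
    ring
  exact (pow_left_inj₀ (nrm_nonneg _) (mul_nonneg (abs_nonneg _) (nrm_nonneg _)) two_ne_zero).1 h

theorem nrm_smul_of_nonneg {t : ℝ} (h : 0 ≤ t) (v : ℂ × ℝ) : nrm (t • v) = t * nrm v := by
  rw [nrm_smul, abs_of_nonneg h]

theorem cont_nrm : Continuous nrm := by
  unfold nrm
  fun_prop

/-- `v / nrm v` is in the sphere. -/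
theorem nrm_unit {v : ℂ × ℝ} (h : v ≠ 0) : (nrm v)⁻¹ • v ∈ Sph := by
  rw [mem_Sph, nrm_smul_of_nonneg (inv_nonneg.2 (nrm_nonneg v)), inv_mul_cancel₀ (nrm_pos h).ne']

theorem smul_unit {v : ℂ × ℝ} (h : v ≠ 0) : nrm v • (nrm v)⁻¹ • v = v := by
  rw [smul_smul, mul_inv_cancel₀ (nrm_pos h).ne', one_smul]

theorem nml_eq (v : ℂ × ℝ) : nml v = (nrm v)⁻¹ • v := by
  rw [nml]
  refine Prod.ext ?_ ?_
  · simp only [Prod.smul_fst, Complex.real_smul, Complex.ofReal_inv]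
    rw [div_eq_inv_mul]
  · simp only [Prod.smul_snd, smul_eq_mul]
    rw [div_eq_inv_mul]

/-- The unit ball. -/
def BB : Set (ℂ × ℝ) := {v | nrm v ≤ 1}

/-- the closed balls are compact -/
theorem cpt_ball (r : ℝ) : IsCompact {v : ℂ × ℝ | nrm v ≤ r} := by
  refine Metric.isCompact_of_isClosed_isBounded (isClosed_le cont_nrm continuous_const) ?_
  refine (Metric.isBounded_closedBall (x := (0 : ℂ × ℝ)) (r := r)).subset fun v hv => ?_
  rw [mem_closedBall_zero_iff, Prod.norm_def]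
  have h0 := nrm_nonneg v
  have h1 := nrm_sq v
  have hv' : nrm v ≤ r := hv
  have h2 : ‖v.1‖ ≤ nrm v := abs_le_of_sq_le_sq' (by nlinarith [sq_nonneg v.2]) h0 |>.2
  have h3 : |v.2| ≤ nrm v := abs_le_of_sq_le_sq (by nlinarith [sq_nonneg ‖v.1‖]) h0
  exact max_le (h2.trans hv') (h3.trans hv')

theorem cpt_BB : IsCompact BB := cpt_ball 1

theorem cpt_Sph : IsCompact Sph := by
  refine cpt_BB.of_isClosed_subset ?_ fun v hv => (mem_Sph.1 hv).le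
  have : Sph = {v | nrm v = 1} := by
    ext v
    exact mem_Sph
  rw [this]
  exact isClosed_eq cont_nrm continuous_const

theorem ne_zero_of_Sph {v : ℂ × ℝ} (h : v ∈ Sph) : v ≠ 0 := by
  rintro rfl
  rw [mem_Sph, nrm_eq_zero.2 rfl] at h
  exact zero_ne_one h

/-- polar coordinates are unique -/
theorem polar_unique {v w : ℂ × ℝ} (hv : v ∈ Sph) (hw : w ∈ Sph) {s t : ℝ} (hs : 0 < s) (ht : 0 < t)
    (h : s • v = t • w) : s = t ∧ v = w := by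
  have h1 := congrArg nrm h
  rw [nrm_smul_of_nonneg hs.le, nrm_smul_of_nonneg ht.le, mem_Sph.1 hv, mem_Sph.1 hw, mul_one,
    mul_one] at h1
  refine ⟨h1, ?_⟩
  subst h1
  exact smul_right_injective _ hs.ne' h

/-! ## The function `re (p₁ + p₂)` -/

/-- `re (p₁ + p₂)`. -/
def rs (p : ℂ × ℂ) : ℝ := p.1.re + p.2.re

theorem cont_rs : Continuous rs := by
  unfold rs
  fun_prop

theorem rs_kap (v : ℂ × ℝ) : rs (kap v) = Real.cos (Real.pi / 4 - v.1.im) * Real.cos (v.2 + v.1.re) +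
    Real.cos (Real.pi / 4 + v.1.im) * Real.cos (v.2 - v.1.re) := by
  rw [rs, kap]
  simp only [Complex.re_ofReal_mul, Complex.exp_ofReal_mul_I_re]

theorem cont_kap : Continuous kap := by
  unfold kap
  fun_prop

/-- The 3-sphere minus a round ball. -/
def KK (C : ℝ) : Set (ℂ × ℂ) := {p | p ∈ S3 ∧ rs p ≤ C}

/-! ## Statements -/

/-- (module KAP) `kap` near 0.
Proof. `mem`: `cos² (π/4 - y) + cos² (π/4 + y) = 1`, since `cos (π/4 + y) = sin (π/4 - y)`.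
For `nrm v ≤ 2/5` the numbers `|x|, |y|, |z|` are `≤ 2/5`, so `π/4 - y, π/4 + y ∈ (0, π/2)`, both cosines are
positive, `|z ± x| ≤ 4/5 < π/2`.  `inj`: the norm of the first coordinate `cos (π/4 - y)` determines `y` (`cos` is
injective on `[0, π]`), the arguments `z + x`, `z - x` (`Complex.arg_mul_cos_add_sin_mul_I` or
`Complex.arg_exp_mul_I`, `Complex.arg_real_mul`) determine `x`, `z`.
`opn`: put `kinv p = ((arg p₁ - arg p₂)/2 + i (π/4 - arccos ‖p₁‖), (arg p₁ + arg p₂)/2)`. For `r ≤ 2/5`,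
`kap '' {nrm < r} = {p ∈ S3 | 0 < re p₁, 0 < re p₂, nrm (kinv p) < r}`: `⊆` by the computation of the inverse (the real parts
are positive as `|z ± x| < π/2`); `⊇`: for such a `p`, `kap (kinv p) = p`: `‖p₁‖ = cos (arccos ‖p₁‖)` as `‖p₁‖ ≤ 1`,
`‖p₂‖ = √(1 - ‖p₁‖²) = sin (arccos ‖p₁‖)`, and `p₁ = ‖p₁‖ exp (i arg p₁)`.  `kinv` is continuous on the open set
`{0 < re p₁, 0 < re p₂}` (`Complex.continuousAt_arg`), so the set `{0 < re p₁, 0 < re p₂, nrm (kinv p) < r}` is open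
(`ContinuousOn.isOpen_inter_preimage`). -/
def S_KAP : Prop :=
  (∀ v, kap v ∈ S3) ∧ InjOn kap {v | nrm v ≤ 2 / 5} ∧
    ∀ r ≤ (2 / 5 : ℝ), ∃ O, IsOpen O ∧ S3 ∩ O = kap '' {v | nrm v < r}

/-- (module MON) `rs (kap (t v))` is strictly decreasing in `t`.
Proof. With `x = re v.1`, `y = im v.1`, `z = v.2`, `rs (kap (t • v)) = 1/2 ∑ cos (π/4 + t a_i)` for
`a = (z + x - y, -(z + x + y), z - x + y, y - z + x)` (product to sum; `∑ a_i = 0`).  The derivative is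
`-1/2 ∑ a_i sin (π/4 + t a_i) = -1/2 ∑ a_i (sin (π/4 + t a_i) - sin (π/4))`.  For `v ∈ Sph`, `a_i² ≤ 3` (Cauchy), so for
`0 < t < 2/5`, `|t a_i| ≤ √3 * 2/5 < π/4`, and `a_i (sin (π/4 + t a_i) - sin (π/4)) ≥ 0`, with equality only for
`a_i = 0` (`Real.strictMonoOn_sin` on `[-π/2, π/2]`); not all `a_i` are 0 (`a₁ + a₃ = 2z`, `a₁ + a₂ = -2y`, `a₁ + a₄ = 2x`).
`strictAntiOn_of_deriv_neg`. -/
def S_MON : Prop := ∀ v ∈ Sph, StrictAntiOn (fun t : ℝ => rs (kap (t • v))) (Icc 0 (2 / 5))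

/-- (module RHO; `S_KAP → S_MON → S_RHO`) the level `C` and the radius `ρ`.
Proof. For `p ∈ S3`, `(re p₁ - 1/√2)² + (im p₁)² + (re p₂ - 1/√2)² + (im p₂)² = 2 - √2 rs p`, so `rs p ≤ √2`, with
equality only for `p = (1/√2, 1/√2) = kap 0`.  The set `K = S3 \ kap '' {nrm < 2/5} = S3 \ O` is compact (`S_KAP`, `r = 2/5`)
and does not contain `kap 0`.  So there is `M < √2` with `rs ≤ M` on `K` (maximum of a continuous function, if
`K` is not empty); put `C = max 1 ((M + √2)/2)`.  For `v ∈ Sph`, `rs (kap (0 • v)) = √2 > C`, and `kap ((2/5) • v)` is in `K`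
(injectivity), so `rs (kap ((2/5) • v)) < C`.  Intermediate value theorem: some `t ∈ (0, 2/5)` with value `C`, unique by
`S_MON`; choose `ρ v`.  Continuity at `v₀ ∈ Sph`: for small `ε > 0` with `[ρ v₀ - ε, ρ v₀ + ε] ⊆ (0, 2/5)` we have
`rs (kap ((ρ v₀ + ε) • v₀)) < C < rs (kap ((ρ v₀ - ε) • v₀))`; by continuity in `v` this holds for `v ∈ Sph` near `v₀`, and then
`ρ v₀ - ε < ρ v < ρ v₀ + ε` by `S_MON` for `v`. -/
def S_RHO : Prop :=
  ∃ (C : ℝ) (ρ : ℂ × ℝ → ℝ), 0 < C ∧ C < √2 ∧ ContinuousOn ρ Sph ∧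
    (∀ v ∈ Sph, ρ v ∈ Ioo 0 (2 / 5) ∧ rs (kap (ρ v • v)) = C) ∧
    ∀ p ∈ S3, p ∉ kap '' {v | nrm v < 2 / 5} → rs p < C

def M_RHO : Prop := S_KAP → S_MON → S_RHO

/-- (module STR; `S_KAP → S_MON → S_STR`) the radial stretch.
Proof. `Ann = {1/5 ≤ nrm v ≤ 2/5}` is compact.  For `v ∈ Ann` put `w = (nrm v)⁻¹ • v ∈ Sph`,
`Λ v = 2/5 - (2 - 5 nrm v)(2/5 - ρ w)` (the affine map `[1/5, 2/5] → [ρ w, 2/5]`) and `L v = Λ v • w`.  `L` is continuous on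
`Ann`, injective (`polar_unique`, the affine map is injective), `L v = v` if `nrm v = 2/5`.
Put `k = Function.invFunOn kap {nrm ≤ 2/5}`, `s p = kap (L (k p))` if `p ∈ kap '' {nrm < 2/5}`, and `s p = p` otherwise.
`F₁ = kap '' Ann` is compact, `F₂ = S3 \ kap '' {nrm < 2/5}` is compact (`S_KAP`), `TT.body = F₁ ∪ F₂`.
Continuity: `s = kap ∘ L ∘ k` on `F₁` (also for `nrm = 2/5`), where `k` is continuous (`Hm.symm` for
`kap` on the compact set `Ann`; by injectivity `k (kap v) = v`), and `s = id` on `F₂`; `ContinuousOn.union_of_isClosed` or similar.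
Injectivity: on both parts clear; `s p ∈ kap '' {nrm < 2/5}` iff `p ∈ kap '' {nrm < 2/5}`.
Image in `KK C`: `rs (kap (Λ • w)) ≤ rs (kap (ρ w • w)) = C` as `Λ ≥ ρ w` (`S_MON`).  Surjectivity: let `q ∈ KK C`. If
`q ∉ kap '' {nrm < 2/5}`, then `s q = q`, `q ∈ TT.body`. If `q = kap v`, `nrm v < 2/5`: `v ≠ 0` since
`rs (kap 0) = rs (kap (0 • w)) > rs (kap (ρ w • w)) = C` for any `w ∈ Sph`; for `w = (nrm v)⁻¹ • v`, `rs (kap (nrm v • w)) ≤ C`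
gives `ρ w ≤ nrm v` by `S_MON`, so `nrm v = Λ v'` for some `v' = t • w`, `t ∈ [1/5, 2/5)`, and `s (kap v') = q`.
`s (kap ((1/5) • v)) = kap (ρ v • v)` since `Λ = ρ` for `nrm = 1/5`. -/
def S_STR : Prop :=
  ∀ (C : ℝ) (ρ : ℂ × ℝ → ℝ), ContinuousOn ρ Sph →
    (∀ v ∈ Sph, ρ v ∈ Ioo 0 (2 / 5) ∧ rs (kap (ρ v • v)) = C) →
    (∀ p ∈ S3, p ∉ kap '' {v | nrm v < 2 / 5} → rs p < C) →
    ∃ s : ℂ × ℂ → ℂ × ℂ, Hm TT.body (KK C) s ∧ ∀ v ∈ Sph, s (kap ((1 / 5 : ℝ) • v)) = kap (ρ v • v)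

def M_STR : Prop := S_KAP → S_MON → S_STR

/-- (module STE) stereographic projection from `(1, 1)/√2`.
Proof. Put `c = rs p / √2`, `d = re (p₁ - p₂) / √2`, so `c² + d² = (re p₁)² + (re p₂)²` and for `p ∈ S3`
`c² + d² + (im p₁)² + (im p₂)² = 1`.  With `c₀ = C / √2 ∈ (0, 1)`, `r₀ = √((1 + c₀)/(1 - c₀))` put
`h p = ((1 - c) r₀)⁻¹ • (d + i im p₁, im p₂)`.  For `p ∈ KK C`: `c ≤ c₀ < 1` and
`nrm (h p)² = (1 - c²)/((1 - c)² r₀²) = ((1 + c)/(1 - c)) / r₀²`, which is `≤ 1`, with equality iff `c = c₀`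
(`(1 + c)/(1 - c)` is strictly increasing).  Injective: `h p` determines `nrm (h p)`, so `c`, so `d, im p₁, im p₂`, and
`re p₁ = (c + d)/√2`, `re p₂ = (c - d)/√2`.  Surjective: for `w ∈ BB` let `R = r₀² nrm w²`, `c = (R - 1)/(R + 1)`,
`(d + i a, b) = (1 - c) r₀ • w`, `p = ((c + d)/√2 + i a, (c - d)/√2 + i b)`; `1 - c = 2/(R + 1)`,
`c² + (1 - c)² R = 1`; `c ≤ c₀` iff `R ≤ r₀²`.  Compactness of `KK C`: closed and bounded. -/
def S_STE : Prop :=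
  ∀ C : ℝ, 0 < C → C < √2 → ∃ h : ℂ × ℂ → ℂ × ℝ, Hm (KK C) BB h ∧
    ∀ p ∈ KK C, (nrm (h p) = 1 ↔ rs p = C)

/-- (module CONE) cone extension of a homeomorphism of the sphere.
Proof. `B v = nrm v • b ((nrm v)⁻¹ • v)`, `nrm (B v) = nrm v` (for `v = 0` both are 0). Continuity at `v ≠ 0`: composition; at 0:
`nrm (B v) = nrm v → 0` (`nrm` bounds both coordinates).  Injective: `nrm v = nrm v'` and for `v ≠ 0`
`b (v/nrm v) = b (v'/nrm v')`.  Surjective: for `w ≠ 0`, `w/nrm w = b u`, `w = B (nrm w • u)`. -/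
def S_CONE : Prop :=
  ∀ b : ℂ × ℝ → ℂ × ℝ, Hm Sph Sph b →
    ∃ B : ℂ × ℝ → ℂ × ℝ, Hm BB BB B ∧ (∀ v ∈ Sph, B v = b v) ∧ ∀ v ∈ BB, nrm (B v) = nrm v

/-- (module TW) twist homeomorphisms of the sphere.
Proof. `M` is a homeomorphism of `ℝ` (`StrictMono.orderIsoOfSurjective`, `OrderIso.toHomeomorph`); let `N` be its inverse,
`σ = ψ ∘ N` (continuous, strictly increasing, surjective), `α = a ∘ N`.
`T (u, z) = (u, z)` if `u = 0`, and otherwise `nml ((u/‖u‖) exp (i α m), σ m)`, `m = z/‖u‖`.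
Formula: for `v = nml (exp (i w), M s)`: `u/‖u‖ = exp (i w)`, `m = M s`.  Continuity on `Sph`: at points with `u ≠ 0`
composition (on the open set `u ≠ 0`).  At `(0, 1)`: if `v → (0,1)` with `u ≠ 0`, `m = z/‖u‖ → ∞`, `σ m → ∞`
(`Monotone`, unbounded as surjective), and `nml (e, s) → (0, 1)` for `‖e‖ = 1`, `s → ∞`: `nml (e, s) = (e/√(1+s²), s/√(1+s²))`.
Simpler: use `v ↦ (‖u‖, z)` in explicit estimates: for `ε > 0` there is `R` with `nml (e, s)` `ε`-near to `(0, 1)` for `s ≥ R`;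
`σ m ≥ R` iff `m ≥ σ⁻¹ R`, which holds for `v` near `(0, 1)`.  Same for `(0, -1)`.
Injective: `σ` is injective, so `m` and `u/‖u‖` are determined, and a point of `Sph` with `u ≠ 0` is `nml (u/‖u‖, m)`; points with
`u = 0` are mapped to points with `u = 0`, the others not.  Surjective: `(u, z)` with `u ≠ 0` is the image of
`nml ((u/‖u‖) exp (-i α m'), m')`, `σ m' = z/‖u‖`. -/
def S_TW : Prop :=
  ∀ M ψ a : ℝ → ℝ, Continuous M → StrictMono M → Function.Surjective M →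
    Continuous ψ → StrictMono ψ → Function.Surjective ψ → Continuous a →
    ∃ T : ℂ × ℝ → ℂ × ℝ, Hm Sph Sph T ∧ T (0, 1) = (0, 1) ∧ T (0, -1) = (0, -1) ∧
      ∀ w s : ℝ, T (nml (exp (w * I), M s)) = nml (exp ((w + a s : ℝ) * I), ψ s)

/-- The slope of the straight edges of the tetrahedron as a function of the height `s`. -/
def psi (s : ℝ) : ℝ :=
  min 0 s + (Real.sin (Real.pi / 24 * max 0 (min 12 s)) - Real.cos (Real.pi / 24 * max 0 (min 12 s))) +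
    max 0 (s - 12)

/-- The twisting angle. -/
def twa (s : ℝ) : ℝ := -(5 * Real.pi / 24 * max 0 (min 12 s))

/-- (module MF) `Mf` and `psi` are increasing homeomorphisms of `ℝ`.
Proof. Each is a sum of monotone continuous functions, one of which is strictly increasing on each of the three parts: for `Mf`, on
`(-∞, 6]`, `[6, 10]`, `[10, ∞)`: `(u - 6)/6 - 1`, `sin (π/4 (u - 8))` (`Real.strictMonoOn_sin` on `[-π/2, π/2]`),
`1 + (u - 10)/2`; for `psi` on `(-∞, 0]`, `[0, 12]`, `[12, ∞)`: `s - 1`, `sin t - cos t` with `t = π s/24 ∈ [0, π/2]`,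
`1 + (s - 12)`.  `StrictMonoOn.Iic_union_Ici` or case distinction.  Surjective: explicit preimages outside `[-1, 1]`,
intermediate value theorem (`intermediate_value_Icc`) for `[-1, 1]`; or `Continuous.surjective` with the limits. -/
def S_MF : Prop :=
  (Continuous Mf ∧ StrictMono Mf ∧ Function.Surjective Mf) ∧
  (Continuous psi ∧ StrictMono psi ∧ Function.Surjective psi) ∧
  (Mf 0 = -2 ∧ Mf 12 = 2 ∧ psi 0 = -1 ∧ psi 12 = 1) ∧
  (∀ s ≤ 0, Mf s = s / 6 - 2 ∧ psi s = s - 1) ∧ (∀ s, 12 ≤ s → Mf s = s / 2 - 4 ∧ psi s = s - 11) ∧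
  ∀ s ∈ Icc (0 : ℝ) 12, psi s = Real.sin (Real.pi / 24 * s) - Real.cos (Real.pi / 24 * s)

/-- The edges of the straight cell structure of the sphere (vertices `(±i, -1)`, `(±1, 1)`). -/
def Edh (i j : Fin 4) : Set (ℂ × ℝ) :=
  (![![{nml (I, -1)}, {v | v ∈ Sph ∧ 0 ≤ v.1.re ∧ 0 ≤ v.1.im ∧ v.2 = v.1.re - v.1.im},
      {v | v ∈ Sph ∧ v.1.re ≤ 0 ∧ 0 ≤ v.1.im ∧ v.2 = -v.1.re - v.1.im}, {v | v ∈ Sph ∧ v.1.re = 0 ∧ v.2 ≤ -|v.1.im|}],
    ![{v | v ∈ Sph ∧ 0 ≤ v.1.re ∧ 0 ≤ v.1.im ∧ v.2 = v.1.re - v.1.im}, {nml (1, 1)},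
      {v | v ∈ Sph ∧ v.1.im = 0 ∧ |v.1.re| ≤ v.2}, {v | v ∈ Sph ∧ 0 ≤ v.1.re ∧ v.1.im ≤ 0 ∧ v.2 = v.1.re + v.1.im}],
    ![{v | v ∈ Sph ∧ v.1.re ≤ 0 ∧ 0 ≤ v.1.im ∧ v.2 = -v.1.re - v.1.im}, {v | v ∈ Sph ∧ v.1.im = 0 ∧ |v.1.re| ≤ v.2},
      {nml (-1, 1)}, {v | v ∈ Sph ∧ v.1.re ≤ 0 ∧ v.1.im ≤ 0 ∧ v.2 = -v.1.re + v.1.im}],
    ![{v | v ∈ Sph ∧ v.1.re = 0 ∧ v.2 ≤ -|v.1.im|}, {v | v ∈ Sph ∧ 0 ≤ v.1.re ∧ v.1.im ≤ 0 ∧ v.2 = v.1.re + v.1.im},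
      {v | v ∈ Sph ∧ v.1.re ≤ 0 ∧ v.1.im ≤ 0 ∧ v.2 = -v.1.re + v.1.im}, {nml (-I, -1)}]] :
      Fin 4 → Fin 4 → Set (ℂ × ℝ)) i j

/-- (module ARC) the straight edges in polar coordinates.
Proof. First part: `⊆`: the point `nml (…)` has first coordinate `r (e sin t + i δ cos t)`, second `r (sin t - cos t)`, `r > 0`.
`⊇`: for `v` in the right hand side, `‖v.1‖ > 0` (otherwise `v.2 = 0` too); `e re v.1 / ‖v.1‖`, `δ im v.1 / ‖v.1‖` are
nonnegative with sum of squares 1; take `t = arcsin (e re v.1 / ‖v.1‖) ∈ [0, π/2]`, `cos t = δ im v.1 / ‖v.1‖`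
(`Real.cos_arcsin`), and `v = nml (‖v.1‖⁻¹ • v)`.  Second and third part: a point of the right hand side is a pole, or `v.1 ≠ 0`
and `v = nml (v.1/‖v.1‖, v.2/‖v.1‖)` where `v.1/‖v.1‖ = ± i` (resp. `± 1`). -/
def S_ARC4 : Prop :=
  (∀ e δ : ℝ, (e = 1 ∨ e = -1) → (δ = 1 ∨ δ = -1) →
    (fun t : ℝ => nml (((e * Real.sin t : ℝ) : ℂ) + ((δ * Real.cos t : ℝ) : ℂ) * I, Real.sin t - Real.cos t)) ''
      Icc 0 (Real.pi / 2) =
      {v | v ∈ Sph ∧ 0 ≤ e * v.1.re ∧ 0 ≤ δ * v.1.im ∧ v.2 = e * v.1.re - δ * v.1.im}) ∧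
  (∀ (b : ℂ) (m : ℝ), ‖b‖ = 1 → 0 ≤ m →
    {v : ℂ × ℝ | v ∈ Sph ∧ (v.1 = (‖v.1‖ : ℂ) * b ∨ v.1 = -(‖v.1‖ : ℂ) * b) ∧ m * ‖v.1‖ ≤ v.2} =
      {(0, 1)} ∪ (fun s : ℝ => nml (b, s)) '' Ici m ∪ (fun s : ℝ => nml (-b, s)) '' Ici m) ∧
  (∀ (b : ℂ) (m : ℝ), ‖b‖ = 1 → 0 ≤ m →
    {v : ℂ × ℝ | v ∈ Sph ∧ (v.1 = (‖v.1‖ : ℂ) * b ∨ v.1 = -(‖v.1‖ : ℂ) * b) ∧ v.2 ≤ -m * ‖v.1‖} =
      {(0, -1)} ∪ (fun s : ℝ => nml (b, s)) '' Iic (-m) ∪ (fun s : ℝ => nml (-b, s)) '' Iic (-m))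

/-- (module HLX; `S_MF → S_ARC4 → S_HLX`) the twist straightens the edges.
Proof. Helices: `hlx b k = {nml (exp (iπ(b + k s)), Mf s) | s ∈ [0, 12]}`, its image is
`{nml (exp (i(π b + π k s - 5π s/24)), psi s)}`; with `t = π s/24 ∈ [0, π/2]`, `psi s = sin t - cos t` and
`π b + (24 k - 5) t`: for `(b, k) = (1/2, 1/6)`: `π/2 - t`, `exp = sin t + i cos t` (`e = 1, δ = 1`);
`(1/2, 1/4)`: `π/2 + t`, `exp = -sin t + i cos t`; `(-1/2, 1/4)`: `-π/2 + t`, `exp = sin t - i cos t`;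
`(-1/2, 1/6)`: `-π/2 - t`, `exp = -sin t - i cos t`.
Vertices: `nml (I, -2) = nml (exp (iπ/2), Mf 0)` etc. (`s = 0` or `12`; `twa 12 = -5π/2`).
Arcs: `{v ∈ Sph, re v.1 = 0, 2‖v.1‖ ≤ v.2}` is, by `S_ARC4` with `b = I`, `m = 2`, the union of `{(0,1)}` and
`nml (± I, m)`, `m ≥ 2`; `m = Mf s` with `s ≥ 12`, mapped to `nml (exp (i(±π/2 - 5π/2)), psi s)`, `psi s ≥ 1` arbitrary: `exp = ±1`. The
lower arc: `s ≤ 0`, no twist, `psi s ≤ -1` arbitrary.  (`v.1 = ± ‖v.1‖ b` iff `re v.1 = 0` for `b = I`, `im v.1 = 0` for `b = 1`.) -/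
def S_HLX : Prop :=
  ∀ T : ℂ × ℝ → ℂ × ℝ, T (0, 1) = (0, 1) → T (0, -1) = (0, -1) →
    (∀ w s : ℝ, T (nml (exp (w * I), Mf s)) = nml (exp ((w + twa s : ℝ) * I), psi s)) →
    ∀ i j, T '' Edg i j = Edh i j

def M_HLX : Prop := S_MF → S_ARC4 → S_HLX

/-- (module GA) balls of a gauge.
Proof. `nrm ((g v / nrm v) • v) = g v` (for `v = 0`: `g 0 = 0`).  There is `c > 0` with `c nrm v ≤ g v` (minimum on the compact
sphere, homogeneity), so `{g ≤ 1}` is bounded, closed, so compact.  Continuity at 0: `nrm (…) = g v → 0`. Injective: equal images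
give `g v = g v'`, and for `v ≠ 0` `v' = λ v` with `λ > 0`, so `λ = 1`.  Surjective: for `w ≠ 0`, `nrm w ≤ 1`:
`v = (nrm w / g w) • w`, `g v = nrm w`, `(g v / nrm v) • v = w`. -/
def S_GA : Prop :=
  ∀ g : ℂ × ℝ → ℝ, Continuous g → (∀ (t : ℝ) (v : ℂ × ℝ), 0 ≤ t → g (t • v) = t * g v) →
    (∀ v, v ≠ 0 → 0 < g v) →
    Hm {v | g v ≤ 1} BB (fun v => (g v / nrm v) • v) ∧ ∀ v, nrm ((g v / nrm v) • v) = g v

/-- The gauge of the straight tetrahedron. -/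
def gau (v : ℂ × ℝ) : ℝ := max (2 * |v.1.re| - v.2) (2 * |v.1.im| + v.2)

/-- Barycentric coordinates. -/
def bar (v : ℂ × ℝ) : Fin 4 → ℝ :=
  ![(1 - v.2) / 4 + v.1.im / 2, (1 + v.2) / 4 + v.1.re / 2, (1 + v.2) / 4 - v.1.re / 2,
    (1 - v.2) / 4 - v.1.im / 2]

/-- (module TET) the straight tetrahedron.
Proof. The inverse of `bar` is `w ↦ ((w₁ - w₂) + i (w₀ - w₃), w₁ + w₂ - w₀ - w₃)`.  All coordinates of `bar v` are `≥ 0` iff
`2|re v.1| - v.2 ≤ 1` and `2|im v.1| + v.2 ≤ 1`; one of them is 0 iff one of the two is an equality.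
Gauge: if `gau v ≤ 0` then `2|x| ≤ z`, `2|y| ≤ -z`, so `v = 0`.
Edges: for `v ∈ Sph`, `g = gau v > 0`, `bar (g⁻¹ • v)` has the coordinates `(g - z + 2y, g + z + 2x, g + z - 2x, g - z - 2y)/(4g)`. It is in
the edge `{0,1}` iff `g + z = 2x`, `g - z = 2y`, i.e. `g = x + y`, `z = x - y`; this holds iff `x, y ≥ 0`, `z = x - y`
(`g ≥ 2|x| - z` gives `x ≥ |x|`, and so on). Edge `{0,3}`: `x = 0`, `g = -z`; iff `x = 0`, `z ≤ -|y|`.  Vertex 0:
`x = 0`, `g = y = -z`. -/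
def S_TET : Prop :=
  Continuous gau ∧ (∀ (t : ℝ) (v : ℂ × ℝ), 0 ≤ t → gau (t • v) = t * gau v) ∧
    (∀ v, v ≠ 0 → 0 < gau v) ∧ Hm {v | gau v ≤ 1} stdTet.body bar ∧
    (∀ v, gau v ≤ 1 → (bar v ∈ stdTet.bd ↔ gau v = 1)) ∧
    ∀ v ∈ Sph, ∀ i j, (bar ((gau v)⁻¹ • v) ∈ stdTet.edge i j ↔ v ∈ Edh i j)

/-- The final homeomorphism. -/
def S_G4 : Prop :=
  ∃ e : ℂ × ℂ → (Fin 4 → ℝ), Hm TT.body stdTet.body e ∧
    ∀ x ∈ TT.body, (x ∈ TT.bd ↔ e x ∈ stdTet.bd) ∧ ∀ i j, (x ∈ TT.edge i j ↔ e x ∈ stdTet.edge i j)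

/-- (module BDY; `S_KAP → S_MON → S_RHO → S_STR → S_STE → S_CONE → S_BDY`) a homeomorphism onto the ball, standard on the boundary.
Proof. `C, ρ` of `S_RHO`, `s` of `S_STR`, `h` of `S_STE`; `h ∘ s : TT.body → BB`.  `b v = h (kap (ρ v • v))` is `Hm Sph Sph b`: continuous,
injective (`S_KAP`, `polar_unique`), `nrm (b v) = 1` as `rs = C`; onto: `w ∈ Sph`, `w = h p`, `rs p = C`, so `p = kap v`,
`nrm v < 2/5` (third part of `S_RHO`), `v ≠ 0` (`rs (kap 0) > C` by `S_MON`), and by `S_MON` (injectivity) `nrm v = ρ (v/nrm v)`.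
Extend `b` by `S_CONE` to `B`, let `B'` be the inverse; `h' = B' ∘ h ∘ s`. -/
def S_BDY : Prop :=
  ∃ h : ℂ × ℂ → ℂ × ℝ, Hm TT.body BB h ∧ ∀ v ∈ Sph, h (kap ((1 / 5 : ℝ) • v)) = v

def M_BDY : Prop := S_KAP → S_MON → S_RHO → S_STR → S_STE → S_CONE → S_BDY

/-- (module ASM) assembly.
Proof. `h` of `S_BDY`, `T` of `S_TW` for `Mf, psi, twa`, extended by `S_CONE` to `B`, `G` the inverse of the map of `S_GA` for
`gau`; for `v ∈ Sph`, `G v = (gau v)⁻¹ • v`, and `gau (G v) = nrm v` on `BB`.  `e = bar ∘ G ∘ B ∘ h`.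
`x ∈ TT.bd` iff `x = kap ((1/5) • v)`, `v ∈ Sph`, iff `nrm (h x) = 1` (injectivity of `h`) iff `nrm (B (h x)) = 1` iff
`gau (G (B (h x))) = 1` iff `e x ∈ stdTet.bd`.  `x ∈ TT.edge i j` iff `h x ∈ Edg i j` iff `T (h x) ∈ Edh i j` (`S_HLX`, `T` injective on
`Sph`) iff `e x ∈ stdTet.edge i j` (`Edg i j ⊆ Sph`; if `nrm (h x) < 1` neither side holds: `stdTet.edge i j ⊆ stdTet.bd`). -/
def M_G4 : Prop := S_BDY → S_CONE → S_TW → S_MF → S_HLX → S_GA → S_TET → S_G4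

/-- (module MOD) the model isomorphism in the form used by the transfer. `ArcCond`: for `stdTet` the function `x ↦ x i`, for
`TT` the function `x ↦ e x i`. -/
def S_MOD : Prop :=
  ∃ (f : (Fin 4 → ℝ) → ℂ × ℂ) (g : ℂ × ℂ → (Fin 4 → ℝ)), TR.Model stdTet TT ∅ ∅ f g

def M_MOD : Prop := S_G4 → S_MOD

end

end Pool.Agent.LIX.G4
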