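import Pool.Agent.LIX.DefsL
import Pool.Agent.LIX.GCol
import Pool.Agent.LIX.StmtsS

/-!
# LIX, block L: statements of the modules (lifts, types of disks, labels)

Module `X` proves `theorem t_X : M_X` (or `t_X : S_X` if there is no `M_X`) in the namespace
`Pool.Agent.LIX.L`, in the file `Pool/Agent/LIX/L_X.lean`, importing this file (and, if useful, `TBBasic`: the
proofs of `S_HL1`, `S_HL2`, `S_BOR`, `S_ARC`, `S_HTP`, `S_IMG`, `S_CIR`).  Definitions: `DefsL.lean`.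
Useful: `GBase.lean`, `GCol.lean` (`kinv_kap`, `kap_injOn`, `arg_kap_fst`, `norm_kap_fst`, `norm_sub_kap`, `TT_body_eq`,
`collar_TT : Collar TT HT VT col`, ...).  The circle `y = 0` of the hole `0` is the circle of radius `1/5`.
Statements of block S are in the namespace `Pool.Agent.LIX.S` (`S.S_MF` etc.).
-/

set_option autoImplicit false

namespace Pool.Agent.LIX.L

open Set Metric Complex

/-! ## 1. The covering `tor` and the projection `pr` -/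

/-- TOR. `kap (x, z)` with `x` real. `tor x = tor y` iff `exp (I (th x - th y)) = 1 = exp (I (ph x - ph y))`
(`Complex.exp_eq_one_iff`); `re = (th - ph)/2`, `im = (th + ph)/2`. For `x ∈ Lam`, `x ≠ 0`, with integers `a, b`:
`‖x‖² = π² ((a-b)² + (a+b)²) = 2 π² (a² + b²) > 4`. Finiteness: `|a|, |b| ≤ R`. -/
def S_TOR : Prop :=
  (∀ x, tor x = ((Real.cos (Real.pi / 4) : ℂ) * exp ((th x : ℂ) * I),
    (Real.cos (Real.pi / 4) : ℂ) * exp ((ph x : ℂ) * I))) ∧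
  Continuous tor ∧ (∀ x y, tor x = tor y ↔ x - y ∈ Lam) ∧ (0 : ℂ) ∈ Lam ∧ (∀ x ∈ Lam, -x ∈ Lam) ∧
  (∀ x ∈ Lam, ∀ y ∈ Lam, x + y ∈ Lam) ∧ (∀ x ∈ Lam, x ≠ 0 → 2 < ‖x‖) ∧
  (∀ R : ℝ, (Lam ∩ closedBall 0 R).Finite) ∧
  (∀ x y, th (x + y) = th x + th y ∧ ph (x + y) = ph x + ph y ∧ th (-x) = -th x ∧ ph (-x) = -ph x) ∧
  (∀ x, th x = 0 → ph x = 0 → x = 0) ∧ Continuous th ∧ Continuous ph

/-- PRJ. From `arg_kap_fst`, `arg_kap_snd`, `kinv_kap`, `norm_sub_kap`, `TT.bd = kap '' {nrm = 1/5}`: `pr (kap v) = re v.1 + i v.2`, so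
`‖pr (kap v)‖² = nrm v ² - (im v.1)²`. `p.1 = ‖p.1‖ e^{i arg p.1}` and `arg p.1 = th (pr p)`, `arg p.2 = ph (pr p)`. `TT.skel` is
`kap (Skl / 5)` and `Skl ⊆ Sph` (`hlx` and the vertices are normalised vectors). -/
def S_PRJ : Prop :=
  (∀ v : ℂ × ℝ, nrm v ≤ 1 / 2 → pr (kap v) = ((v.1.re : ℝ) : ℂ) + (v.2 : ℂ) * I) ∧
  ContinuousOn pr TT.bd ∧ IsCompact TT.bd ∧ TT.skel ⊆ TT.bd ∧ TT.bd ⊆ TT.body ∧
  (∀ p : ℂ × ℂ, th (pr p) = arg p.1 ∧ ph (pr p) = arg p.2) ∧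
  (∀ p ∈ TT.bd, ‖pr p‖ ≤ 1 / 5 ∧ (‖pr p‖ = 1 / 5 ↔ p ∈ HT)) ∧
  (∀ p ∈ TT.bd, p ∈ HT → tor (pr p) = p) ∧
  (∀ b, ∀ p ∈ VT b, (b = true → p.1 ≠ 0) ∧ (b = false → p.2 ≠ 0)) ∧
  (∀ p ∈ HT, p.1 ≠ 0 ∧ p.2 ≠ 0)

/-- HOL. `tor x` is in `kap '' {nrm < 1/5}` iff `‖x - l‖ < 1/5` for some `l ∈ Lam`: `⇐` `tor x = tor (x - l) = kap ((x-l).re, (x-l).im)`;
`⇒` `tor x = kap v`, `nrm v < 1/5`; `‖(tor x).1‖ = ‖(tor x).2‖` so `v.1.im = 0` (`norm_sub_kap`), `kap v = tor (v.1.re + i v.2)`, and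
TOR. The same for `= 1/5` (then `pr (tor x) = x - l` by PRJ). Surjectivity: `p ∈ HT` has `‖p.1‖ = ‖p.2‖ = 1/√2`; take `x = pr p`. The holes
are disjoint: `x` can satisfy `‖x - l‖ ≤ 1/5` for at most one `l`. -/
def S_HOL : Prop :=
  (∀ x, tor x ∈ HT ↔ ∀ l ∈ Lam, 1 / 5 ≤ ‖x - l‖) ∧
  (∀ x, tor x ∈ TT.bd ↔ ∃ l ∈ Lam, ‖x - l‖ = 1 / 5) ∧
  (∀ x, ∀ l ∈ Lam, ‖x - l‖ ≤ 1 / 5 → pr (tor x) = x - l) ∧
  (∀ p ∈ HT, ∃ x, tor x = p) ∧
  (∀ p ∈ HT, p ∈ TT.bd → ∀ x, tor x = p → x - pr p ∈ Lam)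

def M_HOL : Prop := S_TOR → S_PRJ → S_HOL

/-- RET. Retraction of the complement of `Lam` to the complement of the holes. PROOF: `ρ x = l + (x - l) / (5 ‖x - l‖)` if there is `l ∈ Lam` with
`‖x - l‖ < 1/5` (unique, as the norms of the nonzero elements of `Lam` are `> 2`), `ρ x = x` otherwise. Continuity at `x0 ∉ Lam`: there is `l0 ∈ Lam` such that
`‖x - l‖ > 1/5` for all `x ∈ ball x0 (1/2)`, `l ∈ Lam`, `l ≠ l0`, so on this ball
`ρ x = x + (max 0 (1/5 - ‖x - l0‖) / ‖x - l0‖) (x - l0)`. -/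
def S_RET : Prop :=
  ∃ ρ : ℂ → ℂ, ContinuousOn ρ Lamᶜ ∧ (∀ x ∈ Lamᶜ, ∀ l ∈ Lam, 1 / 5 ≤ ‖ρ x - l‖) ∧
    ∀ x, (∀ l ∈ Lam, 1 / 5 ≤ ‖x - l‖) → ρ x = x

def M_RET : Prop := S_TOR → S_RET

/-! ## 2. The chords -/

/-- CHD. The projected chord is the curve `γ f = (σ cos (π f) + i M) / (5 √(1 + M²))`, `M = Mf (hj j f)`, `σ = sg b`, `f ∈ [0,1]`: for
`v ∈ ch b j`: `v.1 ≠ 0`, `f = lon b v`, `v.1 = σ ‖v.1‖ e^{iπ f}` (S_LON), `v.2 = ‖v.1‖ M`, `‖v.1‖ = 1/√(1+M²)`; `col (v, 0) = kap (v/5)` and PRJ. `Mf (hj j f) ∈ [-5/3, 1]`.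
On the curve `‖x‖² = (cos² + M²) / (25 (1 + M²))`, so it meets the circle only for `f = 0, 1`: these are the points `cpt b j r`. `re x = 0` iff
`f = 1/2`; `|im x| ≤ (5/3) / (5 √(1 + 25/9)) < 9/50`. The two halves are the images of `[0, 1/2)` and `(1/2, 1]`. Injectivity of `pr` on the
chord: `pr p` determines `re`, `z` of `v/5` and then `im = σ √(1/25 - re² - z²)` because `v ∈ Hem b`. -/
def S_CHD : Prop := ∀ b j,
  IsCompact (Chp b j) ∧ Chp b j ⊆ closedBall 0 (1 / 5) ∧ Chd b j ⊆ TT.bd ∧ (Chd b j).Nonempty ∧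
  Chp b j ∩ sphere 0 (1 / 5) = {cpt b j true, cpt b j false} ∧
  (∀ r, ‖cpt b j r‖ = 1 / 5 ∧ 0 < sg r * (cpt b j r).re) ∧ InjOn pr (Chd b j) ∧
  ∃ m : ℂ, Chp b j ∩ {z | z.re = 0} = {m} ∧ |m.im| < 9 / 50 ∧
    IsPreconnected (Chp b j ∩ {z | 0 < z.re}) ∧ IsPreconnected (Chp b j ∩ {z | z.re < 0}) ∧
    m ∈ closure (Chp b j ∩ {z | 0 < z.re}) ∧ m ∈ closure (Chp b j ∩ {z | z.re < 0})

def M_CHD : Prop := S.S_MF → S.S_LON → S.S_DLC → S_PRJ → S_CHD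

/-- ARCS. PROOF of the first: the path from `nn` up the imaginary axis to `i/5` and then along the circle to `e`: it meets `Chp b j` nowhere, because
`Chp b j` meets the imaginary axis only in `m`, `|m.im| < 9/50`, and the circle only in `cpt b j true`, `cpt b j false`, which are not above `e`: on the circle,
on the right half (`0 ≤ re`) all points `x` with `im x ≥ im e` have `im x > im (cpt b j true)`, on the left half similarly (use
`y ↦ (±√(1/25 - y²), y)` for `y ∈ [im e, 1/5]`). Second: mirror image. Third: case distinction on the sign of `e.re`; two points of the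
circle with the same sign of `re` and the same `im` are equal. -/
def S_ARCS : Prop := ∀ b j,
  (∀ e, Up b j e → JoinedIn (closedBall 0 (1 / 5) \ Chp b j) nn e) ∧
  (∀ e, Dn b j e → JoinedIn (closedBall 0 (1 / 5) \ Chp b j) ss e) ∧
  (∀ e : ℂ, ‖e‖ = 1 / 5 → e = cpt b j true ∨ e = cpt b j false ∨ Up b j e ∨ Dn b j e) ∧
  (∀ e, Up b j e → e ∉ Chp b j) ∧ (∀ e, Dn b j e → e ∉ Chp b j) ∧ nn ∉ Chp b j ∧ ss ∉ Chp b j

def M_ARCS : Prop := S_CHD → S_ARCS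

/-- PTS. `im (cp r h) = Mf h / (5 √(1 + (Mf h)²))` is strictly increasing in `h` (`Mf` and `x ↦ x / √(1 + x²)` are), the sign of
`re (cp r h)` is `sg r`, `‖cp r h‖ = 1/5`. -/
def S_PTS : Prop := ∀ (b : Bool) (j : Fin 3) (r : Bool) (h : ℝ),
  (Up b j (cp r h) ↔ hg b j r < h) ∧ (Dn b j (cp r h) ↔ h < hg b j r)

def M_PTS : Prop := S.S_MF → S_PTS

/-! ## 3. Lifts -/

/-- LFC. Lifting of maps from convex sets to the surface. PROOF: S_LIFT for the two coordinates (nonzero by PRJ) gives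
`g₁ = ‖g₁‖ e^{iα}`, `g₂ = ‖g₂‖ e^{iβ}`; `ξ = (α - β)/2 + i (α + β)/2`; `‖g₁‖ = ‖g₂‖ = cos (π/4)` on `HT`. -/
def S_LFC : Prop := ∀ (E : Type) [NormedAddCommGroup E] [NormedSpace ℝ E] (A : Set E) (g : E → ℂ × ℂ),
  Convex ℝ A → ContinuousOn g A → (∀ x ∈ A, g x ∈ HT) →
  ∃ ξ : E → ℂ, ContinuousOn ξ A ∧ ∀ x ∈ A, tor (ξ x) = g x

def M_LFC : Prop := S_LIFT → S_TOR → S_PRJ → S_LFC

/-- LCU. A continuous function with values in the discrete set `Lam` on a preconnected set is constant. PROOF: the norms of the differences of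
two elements of `Lam` are `0` or `> 2`: `IsPreconnected.constant_of_mapsTo` (for the discrete subtype), or: for `a, b ∈ A` with `ξ a ≠ ξ b` the connected image of
`x ↦ ‖ξ x - ξ a‖` in `ℝ` would contain `1`. -/
def S_LCU : Prop := ∀ (E : Type) [TopologicalSpace E] (A : Set E),
  IsPreconnected A → (∀ ξ : E → ℂ, ContinuousOn ξ A → (∀ x ∈ A, ξ x ∈ Lam) → ∃ l ∈ Lam, ∀ x ∈ A, ξ x = l) ∧
  ∀ ξ η : E → ℂ, ContinuousOn ξ A → ContinuousOn η A → (∀ x ∈ A, tor (ξ x) = tor (η x)) →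
    ∃ l ∈ Lam, ∀ x ∈ A, ξ x = η x + l

def M_LCU : Prop := S_TOR → S_LCU

/-- ED0. Normal form of edge disks, first part. PROOF: `Φ` of `IsEdgePar`, `f = Φ(·, 0)`: `f` is continuous and injective on `HDisk`; `f z ∈ HT ↔ z.im = 0`,
`f z ∈ TT.bd ↔ ‖z‖ = 1` for `z ∈ HDisk`. `ξ'` = lift of `t ↦ f t` on `[-1, 1]` (LFC). `l0 = ξ' (-1) - pr (f (-1)) ∈ Lam` (HOL), `ξ = ξ' - l0` (TOR),
`l = ξ 1 - pr (f 1)`. For `|t| < 1`: `f t ∈ HT`, `f t ∉ bd`, so `‖ξ t - l'‖ > 1/5` (HOL). The points `f (± 1)` are different points of `Chd b j ∩ HT`, so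
`pr (f (± 1))` are in `Chp b j` and on the circle (PRJ), and different (`tor (pr p) = p`): CHD. -/
def S_ED0 : Prop := ∀ (f : ℂ → ℂ × ℂ) (b : Bool) (j : Fin 3), IsEdgePar TT HT f → f '' HDisk ⊆ VT b →
  f '' HDisk ∩ TT.bd = Chd b j →
  ContinuousOn f HDisk ∧ InjOn f HDisk ∧
  (∀ z ∈ HDisk, (f z ∈ HT ↔ z.im = 0) ∧ (f z ∈ TT.bd ↔ ‖z‖ = 1)) ∧
  f '' HDisk ∩ HT = (fun t : ℝ => f t) '' Icc (-1) 1 ∧
  ∃ (ξ : ℝ → ℂ) (l : ℂ) (r : Bool), l ∈ Lam ∧ ContinuousOn ξ (Icc (-1) 1) ∧ InjOn ξ (Icc (-1) 1) ∧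
    (∀ t ∈ Icc (-1 : ℝ) 1, tor (ξ t) = f t) ∧ ξ (-1) = cpt b j r ∧ ξ 1 = cpt b j (!r) + l ∧
    pr (f (-1)) = cpt b j r ∧ pr (f 1) = cpt b j (!r) ∧
    ∀ t ∈ Ioo (-1 : ℝ) 1, ∀ l' ∈ Lam, 1 / 5 < ‖ξ t - l'‖

def M_ED0 : Prop := S_TOR → S_PRJ → S_HOL → S_CHD → S_LFC → S_ED0

/-- the normal form of an edge disk: `ξ` is a lift of the arc `D ∩ HT`, from the end point `r` of the chord in the hole `0` to the other end
point in the hole `l` -/
structure EForm (b : Bool) (j : Fin 3) (D : Set (ℂ × ℂ)) (ξ : ℝ → ℂ) (l : ℂ) (r : Bool) : Prop where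
  mem : l ∈ Lam
  cont : ContinuousOn ξ (Icc (-1) 1)
  inj : InjOn ξ (Icc (-1) 1)
  img : D ∩ HT = (fun t => tor (ξ t)) '' Icc (-1) 1
  tinj : InjOn (fun t => tor (ξ t)) (Icc (-1) 1)
  left : ξ (-1) = cpt b j r
  right : ξ 1 = cpt b j (!r) + l
  far : ∀ t ∈ Ioo (-1 : ℝ) 1, ∀ l' ∈ Lam, 1 / 5 < ‖ξ t - l'‖
  cls : Cls0 D ↔ l = 0
  side : (b = true → th l = 0) ∧ (b = false → ph l = 0)

/-- ED. Normal form of edge disks, for both choices of the end point `r`. PROOF: ED0 gives `ξ, l, r0`; for `r ≠ r0` take `t ↦ ξ (-t) - l` and `-l`.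
CLASS: if `l = 0`: `S = ξ ∘ (t ↦ f t)⁻¹` on `D ∩ HT` (the inverse of a continuous injective map on the compact `[-1,1]` is continuous on the image;
`‖S p‖ = 1/5` at the two end points, the only points in `bd`). If `Lf0 D S`: `t ↦ S (f t)` is a lift, so (LCU) `S (f t) = ξ t + c`, `c ∈ Lam`; at `t = -1` both
have norm `≤ 1/5`, so `‖c‖ ≤ 2/5`, `c = 0`; at `t = 1`: `‖cpt + l‖ ≤ 1/5`, so `‖l‖ ≤ 2/5`, `l = 0`. SIDE (`b = true`; for `b = false` use the second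
coordinate and `ph`): S_LIFT on the convex set `HDisk` for `(f z).1 ≠ 0` (PRJ) gives `Θ` with `(f z).1 = ‖·‖ e^{iΘ}`. On `[-1,1]`: `e^{i th (ξ t)} = e^{iΘ t}`, so
(S_UNQ) `th (ξ t) = Θ t + 2π n`. On the semicircle `{z ∈ HDisk | ‖z‖ = 1}` (preconnected: image of `[0, π]`) `f z ∈ bd` and `(f z).1 = ‖·‖ e^{i arg}`,
`arg (f z).1 = th (pr (f z))` continuous: `th (pr (f z)) = Θ z + 2π n'`. At `z = -1`: `n = n'`; at `z = 1`: `th (ξ 1) = th (pr (f 1))`, so `th l = 0`. -/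
def S_ED : Prop := ∀ (D : Set (ℂ × ℂ)) (b : Bool) (j : Fin 3), Edge b j D →
  ∀ r : Bool, ∃ (ξ : ℝ → ℂ) (l : ℂ), EForm b j D ξ l r

def M_ED : Prop := S_LIFT → S_UNQ → S_TOR → S_PRJ → S_HOL → S_CHD → S_LCU → S_ED0 → S_ED

/-- the normal form of a compressing disk `f '' Disk` -/
structure CForm (b : Bool) (f : ℂ → ℂ × ℂ) (a : ℝ → ℂ) (l : ℂ) : Prop where
  mem : l ∈ Lam
  cont : Continuous a
  lift : ∀ t : ℝ, tor (a t) = f (exp ((2 * Real.pi * t : ℝ) * I))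
  per : ∀ t, a (t + 1) = a t + l
  far : ∀ t : ℝ, ∀ l' ∈ Lam, 1 / 5 < ‖a t - l'‖
  cls : Cls0 (f '' Disk) ↔ l = 0
  side : (b = true → th l = 0) ∧ (b = false → ph l = 0)

/-- CM. Normal form of compressing disks. PROOF: `f = Φ(·, 0)` is continuous and injective on `Disk`, `f z ∈ HT ↔ ‖z‖ = 1`, `f z ∉ bd`. LFC for `A = univ ⊆ ℝ`: `a`.
`a (t+1) - a t ∈ Lam` is continuous, so it is a constant `l` (LCU). `far`: HOL. SIDE (`b = true`): S_LIFT on `Disk` for `(f z).1 ≠ 0`: `Θ`; `th (a t) - Θ (e^{2π i t})`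
is constant (S_UNQ), so `th (a (t+1)) = th (a t)`. CLASS: if `Lf0 D S`: `S (f (e^{2π i t})) = a t + c` (LCU), the left side has period 1: `l = 0`. If `l = 0`: put
`φ₁ z = th (a (arg z / 2π))`: `a` has period 1, so it descends to a continuous function `c` on the circle with `c (e^{2π i t}) = a t` (for instance
`Function.Periodic.lift` and `AddCircle.homeomorphCircle'`, or: `c z = a (arg z / (2π))` is continuous off `-1`, and near `-1` it is
`a (arg (-z) / (2π) + 1/2)` by periodicity); `S = c ∘ f⁻¹` on `D ∩ HT = f '' sphere 0 1` (the inverse of a continuous injection of a compact set is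
continuous on the image). `D ∩ bd` is empty. -/
def S_CM : Prop := ∀ (f : ℂ → ℂ × ℂ) (b : Bool), IsCompPar TT HT f → f '' Disk ⊆ VT b →
  ∃ (a : ℝ → ℂ) (l : ℂ), CForm b f a l

def M_CM : Prop := S_LIFT → S_UNQ → S_TOR → S_PRJ → S_HOL → S_LFC → S_LCU → S_CM

/-! ## 4. Class 0 edge disks -/

/-- KSU. `Kset` does not depend on the lift. PROOF: `EForm` with `ξ, l`; `Cls0 D`, so `l = 0`. For a lift `S`: `S (tor (ξ t)) = ξ t + c` (LCU on `[-1,1]`), `c ∈ Lam`, at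
`t = -1` both have norm `≤ 1/5` so `c = 0`. Hence `S '' (D ∩ HT) = ξ '' [-1,1]`. -/
def S_KSU : Prop := ∀ (D : Set (ℂ × ℂ)) (b : Bool) (j : Fin 3) (S : ℂ × ℂ → ℂ), Edge b j D → Lf0 D S →
  ∀ (ξ : ℝ → ℂ) (l : ℂ) (r : Bool), EForm b j D ξ l r →
    l = 0 ∧ Kset D S = ξ '' Icc (-1) 1 ∪ Chp b j ∧ IsCompact (Kset D S) ∧
    (∀ x ∈ Kset D S, ‖x‖ ≤ 1 / 5 → x ∈ Chp b j) ∧
    (∀ x ∈ Kset D S, ∀ l' ∈ Lam, l' ≠ 0 → 1 / 5 < ‖x - l'‖) ∧
    (∀ x ∈ Kset D S, x ∈ Chp b j ∨ tor x ∈ D) ∧ (∀ S', Lf0 D S' → Kset D S' = Kset D S) ∧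
    nn ∉ Kset D S ∧ ss ∉ Kset D S

def M_KSU : Prop := S_TOR → S_PRJ → S_HOL → S_CHD → S_ARCS → S_LCU → S_KSU

/-- KH5. PROOF: S_HL5 with `a = b = 9/50`, `m` of CHD. `K = ξ '' [-1,1] ∪ Chp b j` (KSU, S_ED), `‖ξ t‖ ≥ 1/5`: so `K ∩ {re = 0, |im| ≤ 9/50} = {m}`. `K \ {m}` is
the union of the right half of the chord (containing `cpt b j true`), `ξ '' [-1,1]` (containing both end points) and the left half: preconnected. -/
def S_KH5 : Prop := ∀ (D : Set (ℂ × ℂ)) (b : Bool) (j : Fin 3) (S : ℂ × ℂ → ℂ), Edge b j D → Lf0 D S →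
  ¬ (HasLog (Kset D S) nn ∧ HasLog (Kset D S) ss)

def M_KH5 : Prop := S_HL5 → S_CHD → S_ED → S_KSU → S_KH5

/-- KH6. PROOF: S_HL6 with `g = ξ`, `C = Chp b j`, `r = 1/5`, `{p, q}` the end points; the joins are ARCS. -/
def S_KH6 : Prop := ∀ (D : Set (ℂ × ℂ)) (b : Bool) (j : Fin 3) (S : ℂ × ℂ → ℂ), Edge b j D → Lf0 D S →
  HasLog (Kset D S) nn ∨ HasLog (Kset D S) ss

def M_KH6 : Prop := S_HL6 → S_TOR → S_CHD → S_ARCS → S_ED → S_KSU → S_KH6

/-! ## 5. Non-adjacency -/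

/-- PER. Periodic extension through the holes. PROOF: `B₀ : [0,1] → ℂ`, `B₀ s = ξ (4 s - 1)` for `s ≤ 1/2` and the segment from `cpt b j (!r) + l` to `cpt b j r + l` for
`s ≥ 1/2` (it is in the closed ball of radius `1/5` around `l`, which is convex); `B₀ 1 = B₀ 0 + l`; `B s = B₀ (fract s) + ⌊s⌋ l`: continuous since
`B₀ 1 = B₀ 0 + l` (on `[n, n+1]` it is `B₀ (s - n) + n l`). -/
def S_PER : Prop := ∀ (D : Set (ℂ × ℂ)) (b : Bool) (j : Fin 3) (ξ : ℝ → ℂ) (l : ℂ) (r : Bool),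
  EForm b j D ξ l r → ∃ B : ℝ → ℂ, Continuous B ∧ (∀ s, B (s + 1) = B s + l) ∧
    ∀ s, (∃ l' ∈ Lam, ‖B s - l'‖ ≤ 1 / 5) ∨ tor (B s) ∈ D

def M_PER : Prop := S_TOR → S_CHD → S_PER

/-- N1 (facts N1 and N6). PROOF: `a, l` from CM, `l ≠ 0`; `ξ, l'` from ED, `l' ≠ 0`, `B` from PER. If `b = true`: `th l = 0`, `ph l' = 0`, so
`ph l ≠ 0`, `th l' ≠ 0`: S_PM for `t ↦ (th (a t), ph (a t))` and `s ↦ (th (B s), ph (B s))` gives `a t = B s` (`th`, `ph` together are injective). For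
`b = false` exchange `th` and `ph`. As `‖a t - l''‖ > 1/5` for all `l''`, PER gives `tor (a t) = tor (B s) ∈ D'`; `tor (a t) ∈ D` and `tor (a t) ∉ bd` (HOL), but
`D ∩ D' ⊆ TT.skel ⊆ bd`. -/
def S_N1 : Prop := ∀ (D D' : Set (ℂ × ℂ)) (b : Bool) (j : Fin 3), Comp b D → ¬ Cls0 D → Edge (!b) j D' →
  ¬ Cls0 D' → ¬ (D ∩ D' ⊆ TT.skel)

def M_N1 : Prop := S_PM → S_TOR → S_PRJ → S_HOL → S_ED → S_CM → S_PER → S_N1

/-- N2. PROOF: `D = f '' Disk`, `Lf0 D S`, `γ = S ∘ f` on `sphere 0 1`: continuous, `tor (γ z) = f z ∈ HT`, `∉ bd`, so `‖γ z - l‖ > 1/5` for all `l ∈ Lam` (HOL). `ξ, l`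
from ED for `D'`, `l ≠ 0`. For `λ ∈ Lam` and `R` there is `w` with `‖w‖ > R`, `JoinedIn (γ '' sphere)ᶜ λ w`: `λ` is joined to `λ + l`: first to `λ + ξ (-1)` in the
closed ball of radius `1/5` around `λ` (convex, off `γ`), then along `λ + ξ` (if `λ + ξ t = γ z`, `|t| < 1`, then `f z = tor (ξ t) ∈ D ∩ D' ⊆ TT.skel ⊆ bd`:
no; for `t = ± 1` it is in a closed hole) to `λ + ξ 1 = λ + l + cpt`, then to `λ + l` in the closed ball around it. By induction `λ` is joined to `λ + k l` for all `k`.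
S_J1 with `Z = Lam`, `c = γ` gives `G`; with `ρ` of RET, `g z = tor (ρ (G z))` is continuous on `Disk`, in `HT` (HOL) and equal to `f z` on the circle:
`∂D` is not essential, contradiction. -/
def S_N2 : Prop := ∀ (D D' : Set (ℂ × ℂ)) (b b' : Bool) (j : Fin 3), Comp b D → Cls0 D → Edge b' j D' →
  ¬ Cls0 D' → ¬ (D ∩ D' ⊆ TT.skel)

def M_N2 : Prop := S_J1 → S_TOR → S_PRJ → S_HOL → S_RET → S_CHD → S_ED → S_N2

/-- WW (fact W), in terms of the lifts. `K' = Kset D' S'`, `ξ, l` a lift of the arc of `D` starting at `e = cpt b j r`. PROOF.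
(0) KSU for `D'`: points of `K'` of norm `≤ 1/5` are in `Chp b' j'`; closed balls of radius `1/5` around `λ ∈ Lam`, `λ ≠ 0`, do not meet `K'`; points of `K'` are in
`Chp b' j'` or are mapped into `D'` by `tor`. So `closedBall 0 (1/5) \ Chp b' j' ⊆ K'ᶜ`.
(1) For `k : ℕ` and `t ∈ (-1,1)`: `ξ t + k l ∉ K'` (its distance from `0` is `> 1/5`, so it would satisfy `tor (ξ t) ∈ D' ∩ D ⊆ TT.skel ⊆ bd`, but the distance of `ξ t` to `Lam`
is `> 1/5`: HOL).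
(2) `e ∉ K'` if `Up b' j' e` or `Dn b' j' e` (ARCS, (0)).
(3) If `l ≠ 0` and `e ∉ K'`: `e` is joined in `K'ᶜ` to `e + k l` for all `k`: along `ξ + k l` from `e + k l` to `ξ 1 + k l`, which is in the closed ball around `(k+1) l`; in
this ball (convex, off `K'`) to `e + (k+1) l`. So `e` is joined to points of arbitrarily large norm.
(4) `Up b' j' e`: `nn` is joined to `e` in `closedBall 0 (1/5) \ Chp b' j' ⊆ K'ᶜ` (ARCS). If `l ≠ 0` then `nn` is joined to far points, `HasLog K' nn` by S_HL2, S_HL1 (the image of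
the path is preconnected): contradiction. So `l = 0`, `Cls0 D`; if `Dn b' j' (cpt b j (!r))` then `nn` is joined to `e`, along `ξ` to `ξ 1 = cpt b j (!r)` and to `ss` in
`K'ᶜ`: `HasLog K' nn ↔ HasLog K' ss`, contradiction. The case `Dn b' j' e` is the mirror image. -/
def S_WW : Prop := ∀ (D D' : Set (ℂ × ℂ)) (b b' : Bool) (j j' : Fin 3) (S' : ℂ × ℂ → ℂ) (r : Bool),
  Edge b j D → Edge b' j' D' → Lf0 D' S' → D ∩ D' ⊆ TT.skel →
  (¬ HasLog (Kset D' S') nn → HasLog (Kset D' S') ss → Up b' j' (cpt b j r) →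
    Cls0 D ∧ ¬ Dn b' j' (cpt b j (!r))) ∧
  (¬ HasLog (Kset D' S') ss → HasLog (Kset D' S') nn → Dn b' j' (cpt b j r) →
    Cls0 D ∧ ¬ Up b' j' (cpt b j (!r)))

def M_WW : Prop := S_HL1 → S_HL2 → S_TOR → S_PRJ → S_HOL → S_CHD → S_ARCS → S_ED → S_KSU → S_WW

/-- YY (fact Y). From WW, KH6 (`¬ HasLog` at one point gives `HasLog` at the other) and PTS (`cpt b j r = cp r (hg b j r)`). -/
def S_YY : Prop := ∀ (D D' : Set (ℂ × ℂ)) (b b' : Bool) (j j' : Fin 3) (r : Bool), D ∩ D' ⊆ TT.skel →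
  (HasTy D (Ty.X b j) → HasTy D' (Ty.U b' j') → ¬ (hg b' j' r < hg b j r)) ∧
  (HasTy D (Ty.X b j) → HasTy D' (Ty.D b' j') → ¬ (hg b j r < hg b' j' r)) ∧
  (Edge b j D → HasTy D' (Ty.U b' j') → ¬ (hg b' j' r < hg b j r ∧ hg b j (!r) < hg b' j' (!r))) ∧
  (Edge b j D → HasTy D' (Ty.D b' j') → ¬ (hg b j r < hg b' j' r ∧ hg b' j' (!r) < hg b j (!r)))

def M_YY : Prop := S_PTS → S_KH6 → S_WW → S_YY

/-- NA. Non-adjacency in terms of labels. PROOF: finitely many cases of types: opposite labels are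
`e1 / -e1`: `M true - X false j` (N1), `P b - X false j` (N2), `U true 0, U true 1, D true 1, D true 2 - X false j` (YY, first two: for `U true 0` (heights right 2, left 6) and `U true 1`
(3, 9): the right heights of `X false j` are 6, 9, 10; for `D true 1` (3, 9), `D true 2` (6, 10): the left heights of `X false j` are 2, 3, 6);
`e2 / -e2`: `U false j', D false j'` (`j' = 0`: right 6, left 2; `j' = 1`: right 9, left 3) against `D true 0, X true 0` (right 2, left 6), `X true 1` (right 3, left 9): YY, third and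
fourth with `r` = left resp. right (all four height inequalities hold: left height bigger, right height smaller);
`e3 / -e3`: `U false 2, D false 2` (right 10, left 6) against `X true 2, U true 2` (right 6, left 10): the same. `hg` is computed by `simp [hg, hj]; norm_num`.
Second: N1 for `b = false`. Third: `D true 0` excludes `X false 0`, `X false 1` (left heights 2, 3 < 6), `U true 2` excludes `X false 1`, `X false 2` (right heights 9, 10 > 6). -/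
def S_NA : Prop :=
  (∀ (D D' : Set (ℂ × ℂ)) (τ τ' : Ty), HasTy D τ → HasTy D' τ' → D ∩ D' ⊆ TT.skel → lv τ + lv τ' ≠ 0) ∧
  (∀ (D D' : Set (ℂ × ℂ)) (j : Fin 3), HasTy D (Ty.M false) → HasTy D' (Ty.X true j) → ¬ (D ∩ D' ⊆ TT.skel)) ∧
  (∀ (D D' D'' : Set (ℂ × ℂ)) (j : Fin 3), HasTy D (Ty.X false j) → HasTy D' (Ty.D true 0) →
    HasTy D'' (Ty.U true 2) → D ∩ D' ⊆ TT.skel → D ∩ D'' ⊆ TT.skel → False)

def M_NA : Prop := S_N1 → S_N2 → S_YY → S_NA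

/-! ## 6. Kinds, existence, uniqueness and invariance of types -/

/-- KDD. Kinds for the model, from the block S. PROOF: KND, KIN for `collar_TT`. Isotopies: for `t ∈ [0,1]` the disks `F₀`, `F_t` are isotopic by
`(z, s) ↦ F (z, s t)`. Uniqueness of the chord: `v ↦ col (v, 0)` is injective on `Sph` (`collar_TT.inj`), so `ch b j = ch b' j'`: EPT. Side: `D ⊆ VT b ∩ VT (!b)` would give
`D ⊆ HT`, but `f (i/2)`, resp. `f 0`, is not in `HT`. -/
def S_KDD : Prop :=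
  (∀ f, IsCompPar TT HT f → f '' Disk ∩ TT.bd = ∅ ∧ ∃ b, f '' Disk ⊆ VT b) ∧
  (∀ f, IsEdgePar TT HT f → ∃ b j, f '' HDisk ∩ TT.bd = Chd b j ∧ f '' HDisk ⊆ VT b) ∧
  (∀ F : ℂ × ℝ → ℂ × ℂ, ContinuousOn F (Disk ×ˢ Icc 0 1) →
    (∀ t ∈ Icc (0 : ℝ) 1, IsCompPar TT HT fun z => F (z, t)) →
    ∃ b, ∀ t ∈ Icc (0 : ℝ) 1, Comp b ((fun z => F (z, t)) '' Disk)) ∧
  (∀ F : ℂ × ℝ → ℂ × ℂ, ContinuousOn F (HDisk ×ˢ Icc 0 1) →
    (∀ t ∈ Icc (0 : ℝ) 1, IsEdgePar TT HT fun z => F (z, t)) →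
    ∃ b j, ∀ t ∈ Icc (0 : ℝ) 1, Edge b j ((fun z => F (z, t)) '' HDisk)) ∧
  (∀ D b b', Comp b D → Comp b' D → b = b') ∧ (∀ D b b' j', Comp b D → ¬ Edge b' j' D) ∧
  (∀ D b b' j j', Edge b j D → Edge b' j' D → b = b' ∧ j = j')

def M_KDD : Prop := S.S_EPT → S.S_KND → S.S_KIN → S_KDD

/-- IC. The class of a compressing disk is an isotopy invariant. PROOF: for `D_t = F_t '' Disk`: `Cls0 D_t` iff both `LogOn (sphere 0 1) (fun z => (F (z,t)).1) 0` and the same for the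
second coordinate: `⇒` `th (S (F (z,t)))`, `ph`; `⇐` `c z = (φ₁ - φ₂)/2 + i (φ₁ + φ₂)/2` is a lift on the circle, `S = c ∘ F_t⁻¹` on `D_t ∩ HT = F_t '' sphere 0 1` (continuous as
the inverse of a continuous injection of a compact set; `D_t ∩ bd` is empty). S_HTP for the two coordinates of `F` (nonzero on `HT`: PRJ) on `sphere 0 1 × [0,1]`. -/
def S_IC : Prop := ∀ F : ℂ × ℝ → ℂ × ℂ, ContinuousOn F (Disk ×ˢ Icc 0 1) →
  (∀ t ∈ Icc (0 : ℝ) 1, IsCompPar TT HT fun z => F (z, t)) →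
  (Cls0 ((fun z => F (z, 0)) '' Disk) ↔ Cls0 ((fun z => F (z, 1)) '' Disk))

def M_IC : Prop := S_HTP → S_TOR → S_PRJ → S_IC

/-- IE. The class of an edge disk is an isotopy invariant, and lifts along an isotopy. PROOF: `G (x, t) = F (x, t)` on the convex set `[-1,1] × [0,1]`
(of `ℝ × ℝ`), in `HT`: LFC gives `Ξ`. `F (± 1, t) ∈ bd ∩ HT`, `Ξ (± 1, t) - pr (F (± 1, t)) ∈ Lam` (HOL), continuous in `t` (`pr` is continuous on `bd`): constants `l₋`, `l₊` (LCU);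
subtract `l₋`. For each `t`, `Ξ (·, t)` is a lift of the arc of `D_t` starting in the hole `0`; as in ED (CLASS) `Cls0 D_t ↔ l₊ = 0`. -/
def S_IE : Prop := ∀ (F : ℂ × ℝ → ℂ × ℂ) (b : Bool) (j : Fin 3), ContinuousOn F (HDisk ×ˢ Icc 0 1) →
  (∀ t ∈ Icc (0 : ℝ) 1, IsEdgePar TT HT fun z => F (z, t)) →
  (∀ t ∈ Icc (0 : ℝ) 1, Edge b j ((fun z => F (z, t)) '' HDisk)) →
  ∃ (Ξ : ℝ × ℝ → ℂ) (l : ℂ), l ∈ Lam ∧ ContinuousOn Ξ (Icc (-1) 1 ×ˢ Icc 0 1) ∧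
    ∀ t ∈ Icc (0 : ℝ) 1, (∀ x ∈ Icc (-1 : ℝ) 1, tor (Ξ (x, t)) = F ((x : ℂ), t)) ∧
      Ξ (-1, t) = pr (F (-1, t)) ∧ Ξ (1, t) = pr (F (1, t)) + l ∧
      (Cls0 ((fun z => F (z, t)) '' HDisk) ↔ l = 0)

def M_IE : Prop := S_TOR → S_PRJ → S_HOL → S_LFC → S_LCU → S_ED → S_IE

/-- IL. The logarithms of class 0 edge disks are isotopy invariants. PROOF: `Ξ` of IE with `l = 0`. `A = {z ∈ HDisk | z.im = 0 ∨ ‖z‖ = 1}` (compact), `G (z, t) = Ξ (z.re, t)` if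
`z.im = 0`, `pr (F (z, t))` otherwise: continuous on `A × [0,1]` (two closed pieces, the definitions agree at `z = ± 1`). `G (z, t) ≠ w` for `w = nn, ss`: on the first
piece the norm is `≥ 1/5` (HOL), on the second piece it is in `Chp b j` (ARCS). For every `t` it is injective on `A` (on the diameter outside the open hole and injective
as `tor` of it is `F`; on the semicircle `pr` is injective on `Chd b j`, and in the closed hole on the circle only at the end points) and its image is `Kset D_t S_t`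
(KSU: `S_t (F (x,t)) = Ξ (x, t)`). S_IMG (`t = 0, 1`) and S_HTP. -/
def S_IL : Prop := ∀ (F : ℂ × ℝ → ℂ × ℂ) (b : Bool) (j : Fin 3) (S S' : ℂ × ℂ → ℂ) (w : ℂ),
  ContinuousOn F (HDisk ×ˢ Icc 0 1) → (∀ t ∈ Icc (0 : ℝ) 1, IsEdgePar TT HT fun z => F (z, t)) →
  (∀ t ∈ Icc (0 : ℝ) 1, Edge b j ((fun z => F (z, t)) '' HDisk)) →
  Lf0 ((fun z => F (z, 0)) '' HDisk) S → Lf0 ((fun z => F (z, 1)) '' HDisk) S' → w = nn ∨ w = ss →
  (HasLog (Kset ((fun z => F (z, 0)) '' HDisk) S) w ↔ HasLog (Kset ((fun z => F (z, 1)) '' HDisk) S') w)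

def M_IL : Prop := S_HTP → S_IMG → S_TOR → S_PRJ → S_HOL → S_CHD → S_ARCS → S_ED → S_KSU → S_IE → S_IL

/-- TYP. Every disk has exactly one type, and types are isotopy invariants. PROOF. Existence: KDD; a class 0 edge disk has a lift `S`, and KH5. Uniqueness: KDD, KSU (`Kset` does not depend
on the lift), KH6 (not both `U` and `D`). Invariance: KDD gives the kind of all `F_t`, then IC resp. IE, IL. -/
def S_TYP : Prop :=
  (∀ D, IsCE TT HT D → ∃ τ, HasTy D τ) ∧ (∀ D τ τ', HasTy D τ → HasTy D τ' → τ = τ') ∧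
  (∀ D D' τ, Isotopic TT HT D D' → HasTy D τ → HasTy D' τ)

def M_TYP : Prop := S_KDD → S_ED → S_KSU → S_KH5 → S_KH6 → S_IC → S_IE → S_IL → S_TYP

/-! ## 7. The label map -/

/-- HUL. PROOF: it is enough to find `c : Fin 3 → ℝ` with `0 < ∑ i, c i * lv τ i` for all `τ ∈ A` (then `0` is not in the convex hull: the open half space is convex). Let
`s i = 1` if some `τ ∈ A` has the label `e_i`, `s i = -1` otherwise; by (i) no label is opposite to another one. If `M false ∉ A` take `c = s`. If `M false ∈ A`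
(label `(1,1,-1)`): if no `τ ∈ A` has label `-e1` take `c = (3, s1, s2)`; otherwise if no one has label `-e2` take `c = (s0, 3, s2)`; otherwise if no one has label `e3` take
`c = (s0, s1, -3)`. All three cannot occur: `-e1` is `X false j`; `-e2` is `D true 0` or `X true 0`, `X true 1`, the latter two excluded by (ii); `e3` is `U true 2` or
`X true 2`, the latter excluded by (ii); and (iii). -/
def S_HUL : Prop := ∀ A : Set Ty, (∀ τ ∈ A, ∀ τ' ∈ A, lv τ + lv τ' ≠ 0) →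
  (Ty.M false ∈ A → ∀ j, Ty.X true j ∉ A) →
  (∀ j, Ty.X false j ∈ A → Ty.D true 0 ∈ A → Ty.U true 2 ∈ A → False) →
  (0 : Fin 3 → ℝ) ∉ convexHull ℝ (lv '' A)

/-- LBM. The label map. PROOF: `lab = Quot.lift (fun D => lv (the type of D)) _` by TYP. For a simplex `s` with representatives `D` the set `A` of the types of the `D v`,
`v ∈ s`, satisfies the hypotheses of HUL by NA (for `v = w` the labels are equal and not zero; two different types belong to different `v, w`), and `lab '' s = lv '' A`. -/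
def S_LBM : Prop := ∃ lab : Vtx TT HT → (Fin 3 → ℝ),
  (∀ (D : CE TT HT) (τ : Ty), HasTy D.1 τ → lab (cls D) = lv τ) ∧
  ∀ s ∈ (diskCpx TT HT).faces, (0 : Fin 3 → ℝ) ∉ convexHull ℝ (lab '' (s : Set (Vtx TT HT)))

def M_LBM : Prop := S_TYP → S_NA → S_HUL → S_LBM

end Pool.Agent.LIX.L
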