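import Pool.Agent.LIX.StmtsTR
import Pool.Agent.LIX.StmtsTB

/-!
# LIX, block P (pair of pants)

The surface `H` is defined in the cylinder model `cyl` (coordinates `(u,v,w)`, body
`[-1,1]² × (-1,1)`), and carried to the tetrahedron minus two opposite closed edges by `thi`.
All proofs are complete in the doc-strings.
-/

set_option autoImplicit false

namespace Pool.Agent.LIX.PP

open Set Metric Pool.Agent.LIX.TR

/-! ## The cylinder model -/

/-- ambient space of the model, coordinates `(u, v, w)` -/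
abbrev R3 : Type := ℝ × ℝ × ℝ

/-- ambient space of the tetrahedron -/
abbrev R4 : Type := Fin 4 → ℝ

/-- corner condition for the edge joining vertex `i ∈ {0,1}` to vertex `j ∈ {2,3}` -/
def cor (i j : Fin 4) (p : R3) : Prop :=
  ((i = 0 ∧ p.1 = -1) ∨ (i = 1 ∧ p.1 = 1)) ∧ ((j = 2 ∧ p.2.1 = -1) ∨ (j = 3 ∧ p.2.1 = 1))

/-- The cylinder `[-1,1]² × (-1,1)` with four vertical edges. -/
def cyl : Cells R3 where
  body := {p | |p.1| ≤ 1 ∧ |p.2.1| ≤ 1 ∧ |p.2.2| < 1}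
  bd := {p | |p.1| ≤ 1 ∧ |p.2.1| ≤ 1 ∧ |p.2.2| < 1 ∧ (|p.1| = 1 ∨ |p.2.1| = 1)}
  edge i j := {p | |p.2.2| < 1 ∧ (cor i j p ∨ cor j i p)}

/-- the two removed opposite edges `01` and `23` -/
def ends : Set R4 := {x | x ∈ stdSimplex ℝ (Fin 4) ∧ ((x 2 = 0 ∧ x 3 = 0) ∨ (x 0 = 0 ∧ x 1 = 0))}

/-- tetrahedron to cylinder -/
noncomputable def th (x : R4) : R3 :=
  ((x 1 - x 0) / (x 0 + x 1), (x 3 - x 2) / (x 2 + x 3), (x 0 + x 1) - (x 2 + x 3))

/-- cylinder to tetrahedron -/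
noncomputable def thi (p : R3) : R4 :=
  ![(1 + p.2.2) * (1 - p.1) / 4, (1 + p.2.2) * (1 + p.1) / 4,
    (1 - p.2.2) * (1 - p.2.1) / 4, (1 - p.2.2) * (1 + p.2.1) / 4]

/-- (module MOD) elementary verification.  For `x ∈ stdSimplex \ ends`: `x 0 + x 1 > 0`, `x 2 + x 3 > 0`,
sum `1`, so with `w = (x 0 + x 1) - (x 2 + x 3)`: `x 0 + x 1 = (1+w)/2`, `x 2 + x 3 = (1-w)/2`, `|w| < 1`.
`x k ≥ 0` gives `|u|, |v| ≤ 1`; `x 0 = 0 ↔ u = 1`, `x 1 = 0 ↔ u = -1`, `x 2 = 0 ↔ v = 1`, `x 3 = 0 ↔ v = -1`.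
Edges: for `{i,j} = {0 or 1, 2 or 3}` compare; for `i, j` both in `{0,1}` or both in `{2,3}` the edge is in
`ends` and the model edge is empty.  `arc`: for the crossing edges take `s x = x 2 + x 3`
(`x i = 1 - s`, `x j = s`), the points of `ends` have `s = 0` or `s = 1`.  `ends` is closed, contained in the edges
`0 1` and `2 3`. -/
def Stmt_MOD : Prop := Model stdTet cyl ends ∅ th thi

/-! ## The surface -/

/-- gauge of the square `[-1,1]²` about `(-1/2, 0)` -/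
noncomputable def g1 (x y : ℝ) : ℝ := max (max ((2 * x + 1) / 3) (-(2 * x + 1))) |y|

/-- the height function -/
noncomputable def F (x y : ℝ) : ℝ := max 0 (2 - 8 * g1 x y) - max 0 (2 - 8 * g1 (-x) y)

/-- projection of the (sheared, coned) cylinder to the plane, as a complex number -/
noncomputable def pr (p : R3) : ℂ := ⟨(1 - |p.2.2|) * p.1 - p.2.2 / 2, (1 - |p.2.2|) * p.2.1⟩

/-- defining function of the surface -/
noncomputable def G (p : R3) : ℝ := p.2.2 - F (pr p).re (pr p).im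

/-- the surface in the cylinder -/
def HC : Set R3 := {p | p ∈ cyl.body ∧ G p = 0}

/-- the surface in the tetrahedron -/
def HT : Set R4 := thi '' HC

/-- (module GF) facts on `G`.
(1) For `w ≥ 0`: `g1 (pr p) = (1-w) g1 (u,v)` (`2x+1 = (1-w)(2u+1)`, `y = (1-w) v`); for `w ≤ 0`:
`g1 (-x, y) = (1+w) g1 (-u,v)`.
(2) `g1 x y < 1/4` implies `x < -1/8`, so at most one of the two maxima in `F` is positive.
(3) For `p ∈ cyl.body`: if `w > 0`: `G p = 0 ↔ (1-w)(8 g1(u,v) - 1) = 1`, and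
`0 < G p ↔ 1 < (1-w)(8 g1 (u,v) - 1)`: if the first maximum is positive, `F = 2 - 8(1-w) g1(u,v)` and
`G = w - 2 + 8 (1-w) g1(u,v) = (1-w)(8 g1(u,v) - 1) - 1`; if it is not positive, then
`8 (1-w) g1(u,v) ≥ 2`, `G ≥ w > 0` and `(1-w)(8 g1 - 1) ≥ 2 - (1-w) > 1`.
(4) `w = 0`: `G p = 0 ↔ g1 (u,v) ≥ 1/4 ∧ g1 (-u,v) ≥ 1/4`; `0 < G p ↔ g1 (-u,v) < 1/4`.
(5) symmetry `(u,v,w) ↦ (-u,v,-w)`: `G` changes sign (`F (-x) y = - F x y`).
(6) `(u,v) ∈ [-1,1]² ↔ g1 u v ≤ 1`, and for such points `g1 u v = 1 ↔ |u| = 1 ∨ |v| = 1`.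
(7) `G` and `pr` are continuous. -/
def Stmt_GF : Prop :=
  (∀ u v w : ℝ, 0 ≤ w → w < 1 → g1 (pr (u, v, w)).re (pr (u, v, w)).im = (1 - w) * g1 u v) ∧
  (∀ u v w : ℝ, |u| ≤ 1 → |v| ≤ 1 → 0 < w → w < 1 →
    (G (u, v, w) = 0 ↔ (1 - w) * (8 * g1 u v - 1) = 1) ∧
    (0 < G (u, v, w) ↔ 1 < (1 - w) * (8 * g1 u v - 1))) ∧
  (∀ u v : ℝ, (G (u, v, 0) = 0 ↔ 1 / 4 ≤ g1 u v ∧ 1 / 4 ≤ g1 (-u) v) ∧
    (0 < G (u, v, 0) ↔ g1 (-u) v < 1 / 4)) ∧
  (∀ u v w : ℝ, G (-u, v, -w) = - G (u, v, w)) ∧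
  (∀ u v w : ℝ, (pr (-u, v, -w)).re = - (pr (u, v, w)).re ∧ (pr (-u, v, -w)).im = (pr (u, v, w)).im) ∧
  (∀ u v : ℝ, (|u| ≤ 1 ∧ |v| ≤ 1 ↔ g1 u v ≤ 1) ∧
    (|u| ≤ 1 → |v| ≤ 1 → (g1 u v = 1 ↔ |u| = 1 ∨ |v| = 1))) ∧
  Continuous G ∧ Continuous pr

/-- The planar pair of pants: the square minus two open rectangles. -/
def PQ : Set ℂ := {z | |z.re| ≤ 1 ∧ |z.im| ≤ 1 ∧
  ¬ (-4 / 7 < z.re ∧ z.re < -2 / 7 ∧ |z.im| < 1 / 7) ∧
  ¬ (2 / 7 < z.re ∧ z.re < 4 / 7 ∧ |z.im| < 1 / 7)}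

/-- the section `PQ → HC` -/
noncomputable def sec (z : ℂ) : R3 :=
  ((z.re + F z.re z.im / 2) / (1 - |F z.re z.im|), z.im / (1 - |F z.re z.im|), F z.re z.im)

/-- (module SEC) `pr : HC → PQ` is a homeomorphism with inverse `sec`.
Proof.  `g1 x y < 1/7 ↔ -4/7 < x < -2/7 ∧ |y| < 1/7`, so `PQ = {g1 ≤ 1, g1 (x,y) ≥ 1/7, g1 (-x,y) ≥ 1/7}`.
For `z ∈ PQ`, `w = F z`: `|w| ≤ 2 - 8/7 = 6/7 < 1`, `sec` is continuous on `PQ`, and solving
`x = (1-|w|) u - w/2`, `y = (1-|w|) v` gives `pr (sec z) = z`, so `G (sec z) = 0`.  `sec z ∈ cyl.body`: if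
`w > 0`, `w = 2 - 8 g` with `g = g1 (z) ≥ 1/7`, and `g1 (u,v) = g/(1-w) = g/(8g-1) ≤ 1`; if
`w < 0` symmetric; if `w = 0`, `(u,v) = z`.  Conversely for `p ∈ HC`, `w = F (pr p)`, so `sec (pr p) = p`;
`pr p ∈ PQ`: `w ≥ 0`: `g1 (pr p) = (1-w) g1(u,v) ≤ 1`; if `w > 0`, `(1-w)(8 g1(u,v) - 1) = 1` and `g1(u,v) ≤ 1`
give `1 - w ≥ 1/7`, `8 g1 (pr p) = 8 (1-w) g1(u,v) = 1 + (1-w) ≥ 8/7`, and `g1 (-x,y) ≥ 1/4` because the first
maximum is positive; `w = 0` from (4) of `Stmt_GF`; `w < 0` by the symmetry. -/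
def Stmt_SEC : Prop :=
  (∀ z ∈ PQ, sec z ∈ HC ∧ pr (sec z) = z) ∧ (∀ p ∈ HC, pr p ∈ PQ ∧ sec (pr p) = p) ∧
  ContinuousOn sec PQ

/-- (module SQC) charts of the square.
For `(u0,v0)` in the boundary of `[-1,1]²` there are open sets `U, W ⊆ ℝ²` and a homeomorphism
`U ∩ [-1,1]² ≃ₜ W ∩ {z ≥ 0}` (coordinates `(θ, z)`), boundary points ↔ `z = 0`; if `(u0,v0)` is not a corner, `U` contains no
corner; if it is a corner, the corner is the only one in `U` and it goes to `(0,0)`.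
Proof: corner `(ε, δ)`: `a = 1 - ε u`, `b = 1 - δ v`, `U = {|a| < 1, |b| < 1}`, map `(u,v) ↦ (a - b, min a b)`,
inverse `z = min`, `a = z + max θ 0`, `b = z + max (-θ) 0`, `W = {z + max θ 0 < 1, z + max (-θ) 0 < 1, …}` (choose
`W` open with `W ∩ {z ≥ 0}` the image, e.g. the preimage of `{|a| < 1, |b| < 1}` under the inverse formula,
which is defined and continuous on all of `ℝ²`).  Side `u0 = ε`, `|v0| < 1`: `U = {|v| < 1, 0 < ε u}`,
`(u,v) ↦ (v, 1 - ε u)`.  Side `v0 = δ`, `|u0| < 1`: same with the roles exchanged. -/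
def Stmt_SQC : Prop :=
  ∀ u0 v0 : ℝ, |u0| ≤ 1 → |v0| ≤ 1 → (|u0| = 1 ∨ |v0| = 1) →
    ∃ (U W : Set (ℝ × ℝ)), IsOpen U ∧ (u0, v0) ∈ U ∧ IsOpen W ∧
      ∃ e : ↥(U ∩ {q : ℝ × ℝ | |q.1| ≤ 1 ∧ |q.2| ≤ 1}) ≃ₜ ↥(W ∩ {q : ℝ × ℝ | 0 ≤ q.2}),
        (∀ x : ↥(U ∩ {q : ℝ × ℝ | |q.1| ≤ 1 ∧ |q.2| ≤ 1}),
          ((|(x : ℝ × ℝ).1| = 1 ∨ |(x : ℝ × ℝ).2| = 1) ↔ (e x : ℝ × ℝ).2 = 0)) ∧
        (¬ (|u0| = 1 ∧ |v0| = 1) → ∀ x : ℝ × ℝ, x ∈ U → ¬ (|x.1| = 1 ∧ |x.2| = 1)) ∧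
        (|u0| = 1 ∧ |v0| = 1 →
          ∀ x : ↥(U ∩ {q : ℝ × ℝ | |q.1| ≤ 1 ∧ |q.2| ≤ 1}),
            ((|(x : ℝ × ℝ).1| = 1 ∧ |(x : ℝ × ℝ).2| = 1) ↔ (e x : ℝ × ℝ) = (0, 0)))

/-- (module SURF; `Stmt_GF → Stmt_SEC → Stmt_SQC → Stmt_SURF`) `HC` is a surface in `cyl`.
Proof.  Compact: `HC = sec '' PQ` and `PQ` is compact.  `cyl.vert = ∅`.
`inner`: `|u|, |v| < 1`.  `U = {|u| < 1, |v| < 1, |w| < 1}`; map `(u,v,w) ↦ (x, G, y)` with `x + iy = pr`, onto
the open set `W = {(x,γ,y) | with w = γ + F x y: |w| < 1, |x + w/2| < 1 - |w|, |y| < 1 - |w|}`; inverse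
`w = γ + F x y`, `u = (x + w/2)/(1-|w|)`, `v = y/(1-|w|)`.  No points of `bd`, `skel` in `U`.
`outer` and `cross`: let `p = (u0,v0,w0) ∈ HC`, `(u0,v0)` on the boundary of the square; then
`g1 (u0,v0) = g1 (-u0,v0) = 1` and `w0 ∈ {0, 6/7, -6/7}`.  Near `p` the surface is a graph `w = ψ(u,v)`:
* `w0 = 6/7`: `ψ = (8 g1 - 2)/(8 g1 - 1)` on `{w > 0, g1 (u,v) > 1/4}` (`Stmt_GF` (3));
* `w0 = 0`: `ψ = 0` on `{|w| < 1/4, g1 (u,v) > 3/8, g1 (-u,v) > 3/8}`: for `0 < w < 1/4`,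
  `(1-w)(8 g1 - 1) > 3/2`, so not in `HC`; `w < 0` by symmetry;
* `w0 = -6/7`: `ψ (u,v) = - (8 g1 (-u,v) - 2)/(8 g1 (-u,v) - 1)`.
With `e2 : U2 ∩ Q ≃ₜ W2 ∩ {z ≥ 0}` from `Stmt_SQC` (shrink `U2` to the open set where the conditions on `g1`
hold) the chart is `(u,v,w) ↦ (θ, w - ψ(u,v), z)`, `(θ,z) = e2 (u,v)`, on `U = {(u,v) ∈ U2, w ∈ I}`, `I` the open
interval of the allowed `w`; its image is `{(θ,y,z) : (θ,z) ∈ W2, z ≥ 0, y + ψ(e2⁻¹(θ,z)) ∈ I}`, relatively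
open in `{z ≥ 0}`.  `skel`: the corner lines, `θ = z = 0` if `(u0,v0)` is a corner, none otherwise. -/
def Stmt_SURF : Prop := IsSurf cyl HC

/-- (module CON) connectedness and length; `Stmt_SEC → Stmt_GF → Stmt_CON`.
Connected: `HC = sec '' PQ`, `PQ` is the union of the convex sets `[-1,1]×[1/7,1]`,
`[-1,1]×[-1,-1/7]`, `[-1,-4/7]×[-1,1]`, `[-2/7,2/7]×[-1,1]`, `[4/7,1]×[-1,1]`, consecutive ones meet.
Length: on a corner line `g1 (±u,v) = 1`, so `w > 0`: `7 (1-w) = 1`, `w = 6/7`; `w = 0`; `w = -6/7`: `4 · 3` points. -/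
def Stmt_CON : Prop := IsConnected HC ∧ len cyl HC = 12 ∧ IsCompact HC ∧ HC ⊆ cyl.body

/-- (module CHI) `Stmt_SEC → Stmt_CHI`.
Cells of `PQ`: the products `I × J` of an `x`-cell and a `y`-cell, where the `x`-cells are the
six points `-1, -4/7, -2/7, 2/7, 4/7, 1` and the five open intervals between them and the `y`-cells are the
four points `-1, -1/7, 1/7, 1` and the three open intervals between them, without the two
products `(-4/7,-2/7) × (-1/7,1/7)` and `(2/7,4/7) × (-1/7,1/7)`: 75 cells, alternating sum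
`(6-5)(4-3) - 2 = -1`.  The closure of `I × J` is the product of the closures, and a point of it outside
`I × J` lies in a product cell of smaller dimension (which is not one of the two removed cells: they have
dimension `2`).  Each cell is homeomorphic to `Fin d → ℝ` (an open interval is homeomorphic to `ℝ`).
Carry the cells to `HC` by `sec` (homeomorphism on the compact set `PQ`, as in `Stmt_TR4`). -/
def Stmt_CHI : Prop := HasChi HC (-1)

/-! ## The four disks -/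

/-- gauge about `(1/2,0)`: `g1 (-(1/2 + a), b)` -/
noncomputable def N3 (z : ℂ) : ℝ := max (max (-(2 * z.re) / 3) (2 * z.re)) |z.im|

/-- `(a3 + λ z, w)` -/
noncomputable def pt3 (c : ℝ) (z : ℂ) (w : ℝ) : R3 := (1 / 2 + c * z.re, c * z.im, w)

/-- the compressing disk on the side `X` -/
noncomputable def fCX (z : ℂ) : R3 := pt3 (3 / 8 * (‖z‖ / N3 z)) z (-1 / 2)

/-- the symmetry `(u,v,w) ↦ (-u,v,-w)` -/
def iota (p : R3) : R3 := (-p.1, p.2.1, -p.2.2)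

/-- the edge-compressing disk on the side `X`: over the ray from `(-1/2,0)` to the corner `(-1,1)` -/
noncomputable def fEX (z : ℂ) : R3 :=
  (-1 / 2 - (1 / 4 + 3 / 4 * ‖z‖) / 2, 1 / 4 + 3 / 4 * ‖z‖, 3 * (‖z‖ - z.re) / (1 + 6 * ‖z‖))

/-- (module NRT) there is no nonvanishing continuous function on the disk which on the circle is a
positive multiple of `z`.  Proof (with `Log.lean`, `Bors.lean`): `cLog_convex` gives `CLog Disk h`; restrict to the circle and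
divide by the positive real function `h z / z` (values in the slit plane, `cLog_of_slit`): `CLog (sphere 0 1) (fun z => z)`,
contradiction to `not_cLog_sphere 0`. -/
def Stmt_NRT : Prop :=
  ¬ ∃ h : ℂ → ℂ, ContinuousOn h Disk ∧ (∀ z ∈ Disk, h z ≠ 0) ∧
    ∀ z : ℂ, ‖z‖ = 1 → ∃ c : ℝ, 0 < c ∧ h z = c * z

/-- (module DCX) `Stmt_GF → Stmt_SEC → Stmt_NRT → Stmt_DCX`.
Bicollar: `Φ (z,s) = pt3 (R(w) ‖z‖ / N3 z) z w` with `w = -1/2 + s/4`, `R(w) = (1 + 1/(1+w))/8` (so `R(-1/2) = 3/8`,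
`R ≤ 5/8`), value `(1/2, 0, w)` for `z = 0`.  Continuous (`‖z‖ ‖z‖ / N3 z ≤ C ‖z‖` near `0`; `N3 z > 0` for `z ≠ 0`),
injective (`w` gives `s`; `N3 (c z) = c N3 z`; the gauge of the horizontal displacement is `R(w) ‖z‖`, and its direction that
of `z`).  `g1 (-u,v) = N3 (displacement) = R(w) ‖z‖ ≤ 5/8 < 1`, so the point is in the body, not in `bd`.  For
`w < 0` (symmetric form of `Stmt_GF` (3)): the point is in `HC` iff `(1+w)(8 g1(-u,v) - 1) = 1` iff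
`g1 (-u,v) = R(w)` iff `‖z‖ = 1`; and `G > 0` iff `(1+w)(8 g1(-u,v) - 1) < 1` iff `‖z‖ < 1`.
Essential: an extension `k` of the boundary loop to the disk with values in `HC` gives `z ↦ pr (k z) - 1/2`, which is
nonvanishing (`1/2 ∉ PQ`) and is `3/16 / N3 z · z` on the circle: contradiction to `Stmt_NRT`. -/
def Stmt_DCX : Prop :=
  IsCompPar cyl HC fCX ∧ (∀ z ∈ Disk, (fCX z).2.2 = -1 / 2 ∧ (‖z‖ < 1 → 0 < G (fCX z)))

/-- (module DEX) `Stmt_GF → Stmt_DEX`.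
Bicollar: `Φ (z,s) = (-1/2 + σ (b(s).1 + 1/2), σ b(s).2, w)` with `σ = 1/4 + 3/4 ‖z‖`,
`b(s) = (-1 + max s 0 / 4, 1 + min s 0 / 4)`, `w = 3 (‖z‖ - z.re)/(1 + 6 ‖z‖)`.  `b(s)` is on the boundary of the square, so
`g1 (u,v) = σ` (homogeneity about `(-1/2,0)`), `u ≤ -1/2`; `0 ≤ w ≤ 6‖z‖/(1+6‖z‖) = (8σ-2)/(8σ-1) ≤ 6/7`.
* in `bd` iff `σ = 1` iff `‖z‖ = 1`; on a corner line iff moreover `b(s)` is a corner iff `s = 0`
  (`|s| ≤ 1`), then the corner is `(-1,1)`: edge `0 3`.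
* in `HC`: if `w > 0`: iff `w = (8σ-2)/(8σ-1)` iff `z.re = -‖z‖`; if `w = 0` (`z.re = ‖z‖`): always, as
  `σ ≥ 1/4` and `g1 (-u,v) ≥ (2|u|+1)/3 ≥ 1/4`.  So iff `z.im = 0`.  `G > 0` otherwise
  (`0 < w < (8σ-2)/(8σ-1)`, `Stmt_GF` (3)).
* injective: `σ = g1 (u,v)`, then `b(s)`, then `s`; `‖z‖` and `w` give `z.re`, and `z.im ≥ 0`. -/
def Stmt_DEX : Prop :=
  IsEdgePar cyl HC fEX ∧ (∀ z ∈ HDisk, (fEX z).1 < 0 ∧ 0 ≤ (fEX z).2.2 ∧ (z.im ≠ 0 → 0 < G (fEX z)))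

/-- (module IOT) the symmetry preserves disks; `Stmt_GF → Stmt_IOT`.  (`iota` is an involution and a homeomorphism of `R3`; it
preserves `cyl.body`, `cyl.bd`, `HC`, and `cyl.edge i j` goes to `cyl.edge i' j` with `0, 1` exchanged.) -/
def Stmt_IOT : Prop :=
  (∀ f, IsCompPar cyl HC f → IsCompPar cyl HC (fun z => iota (f z))) ∧
  (∀ f, IsEdgePar cyl HC f → IsEdgePar cyl HC (fun z => iota (f z)))

/-! ## Non-adjacency -/

/-- (module RET) retraction of the twice punctured plane onto `PQ`.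
Proof: radial projection from `-1/2` with the gauge: `ρ z = -1/2 + (z + 1/2)/(7 g1 z)` if `g1 z < 1/7` (then
`g1 (ρ z) = 1/7`; `g1 z > 0` for `z ≠ -1/2`), `ρ z = z` otherwise; the same about `1/2` with `g1 (-x,y)`; then clamp to the
square: `(max (-1) (min 1 x), max (-1) (min 1 y))`.  The clamp does not move points of the square and maps
points outside it to the boundary of the square, which is in `PQ`. -/
def Stmt_RET : Prop :=
  ∃ ρ : ℂ → ℂ, ContinuousOn ρ {z | z ≠ -1 / 2 ∧ z ≠ 1 / 2} ∧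
    (∀ z : ℂ, z ≠ -1 / 2 → z ≠ 1 / 2 → ρ z ∈ PQ) ∧ ∀ z ∈ PQ, ρ z = z

/-- (module PLN) the plane lemma; `S_EXT → S_IMG → S_BOR → S_J1F → Stmt_RET → Stmt_PLN` (the `S_…` from `StmtsTB.lean`).
`c` is defined on the disk, misses `-1/2`, is injective on the circle with values in `PQ`; an arc `α` off `c (circle)` joins the
closed rectangle `[2/7,4/7] × [-1/7,1/7]` to the complement of the open square; the circle values are not in
the closed rectangle.  Then `c` restricted to the circle extends to the disk with values in `PQ`.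
Proof.  `K = c '' sphere 0 1`, compact.  (a) `S_EXT` for `c`, `-1/2`; `S_IMG` with `A = sphere 0 1`: `HasLog K (-1/2)`; `S_BOR`:
`-1/2` is joined in `Kᶜ` to arbitrarily far points.  (b) `1/2` is joined to `α 0` inside the closed rectangle (convex, disjoint
from `K`), by `α` to `α 1`, and from there radially (multiplying by `s ≥ 1`) to infinity off the open square; `K ⊆ PQ ⊆` closed
square: the points `s · α 1`, `s > 1`, are outside the closed square, and `α 1 ∉ K`.  So `1/2` is joined in `Kᶜ` to arbitrarily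
far points.  (c) `S_J1F` with `Z = {-1/2, 1/2}` gives `G`; `g = ρ ∘ G` with `Stmt_RET`. -/
def Stmt_PLN : Prop :=
  ∀ (c : ℂ → ℂ) (α : ℝ → ℂ), ContinuousOn c Disk → (∀ z ∈ Disk, c z ≠ -1 / 2) →
    InjOn c {z | ‖z‖ = 1} → (∀ z : ℂ, ‖z‖ = 1 → c z ∈ PQ) →
    (∀ z : ℂ, ‖z‖ = 1 → ¬ (2 / 7 ≤ (c z).re ∧ (c z).re ≤ 4 / 7 ∧ |(c z).im| ≤ 1 / 7)) →
    ContinuousOn α (Icc 0 1) →
    (2 / 7 ≤ (α 0).re ∧ (α 0).re ≤ 4 / 7 ∧ |(α 0).im| ≤ 1 / 7) →
    (1 ≤ |(α 1).re| ∨ 1 ≤ |(α 1).im|) →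
    (∀ s ∈ Icc (0 : ℝ) 1, ∀ z : ℂ, ‖z‖ = 1 → α s ≠ c z) →
    ∃ g : ℂ → ℂ, ContinuousOn g Disk ∧ (∀ z ∈ Disk, g z ∈ PQ) ∧ ∀ z : ℂ, ‖z‖ = 1 → g z = c z

/-- (module NAX) a compressing disk on the side `X` and an edge-compressing disk on the side `Y` meet off the
1-skeleton; `Stmt_GF → Stmt_SEC → Stmt_PLN → Stmt_NAX`.
Proof.  Let `f`, `e` be as stated with intersection in the skeleton.  `c z = pr (f z)`: `G (f z) ≥ 0` on the disk and
`F (-1/2) 0 = 2`, so `c z ≠ -1/2`.  On the circle `f z ∈ HC`, not in `bd`: `c` is injective there (`pr` is injective on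
`HC`), in `PQ`, and not in the closed rectangle of the second hole: if `c z ∈ PQ` is in that closed rectangle, it is on its boundary,
`g1 (-x,y) = 1/7`, so `w = F = -6/7` and `g1 (-u,v) = 7 · 1/7 = 1`, `f z ∈ bd`.
The semicircle of `e` lies on one edge, a corner line `(u,v) = κ`, and `w` along it is continuous and injective in the angle, so
strictly monotone.  `e 1, e (-1) ∈ HC` on this line: `w ∈ {0, 6/7, -6/7}`; in between the points are not in `HC` and have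
`G < 0`.  On the corner line (`g1 (±u,v) = 1`): `G > 0` for `0 < w < 6/7` and for `w < -6/7` (`Stmt_GF`, symmetry).  So
`{w (e 1), w (e (-1))} = {0, -6/7}` (the other pairs enclose a point of `HC` or points with `G > 0`).
`α` = `pr ∘ e` on the diameter, from the end with `w = -6/7`: there `pr = (κ.1/7 + 3/7, κ.2/7)` is a corner of the closed
rectangle, to the end with `w = 0`, where `pr = κ`.  `α` misses `c (circle)`: else, `pr` being injective on `HC`,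
`e x = f z` with `‖z‖ = 1`, a point of both disks, so in the skeleton, but `f z ∉ bd`.
`Stmt_PLN` gives `g`, and `sec ∘ g` is an extension of the boundary loop of `f` to the disk with values in `HC`:
contradiction (`sec (c z) = f z`). -/
def Stmt_NAX : Prop :=
  ∀ f e : ℂ → R3, IsCompPar cyl HC f → IsEdgePar cyl HC e →
    (∀ z ∈ Disk, 0 ≤ G (f z)) → (∀ z ∈ HDisk, G (e z) ≤ 0) →
    ¬ (f '' Disk ∩ e '' HDisk ⊆ cyl.skel)

/-- (module SID) each disk is on one side.  For a compressing disk in `cyl` the set `{‖z‖ < 1}` is connected, the disk misses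
`HC` there (`Φ (z,0) ∈ HC ↔ ‖z‖ = 1`), so `G` has constant sign; for an edge-compressing disk `{‖z‖ ≤ 1, im z > 0}` is convex.
Needs `Continuous G` (`Stmt_GF`). -/
def Stmt_SID : Prop :=
  (∀ f, IsCompPar cyl HC f → (∀ z ∈ Disk, ‖z‖ < 1 → 0 < G (f z)) ∨ (∀ z ∈ Disk, ‖z‖ < 1 → G (f z) < 0)) ∧
  (∀ f, IsEdgePar cyl HC f → (∀ z ∈ HDisk, 0 < z.im → 0 < G (f z)) ∨ (∀ z ∈ HDisk, 0 < z.im → G (f z) < 0))

/-! ## The labels -/

open Classical in
/-- The label of a disk (`0` = compressing, side `X`; `1` = compressing, side `Y`; `2` = edge-compressing, side `Y`;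
`3` = edge-compressing, side `X`). -/
noncomputable def labD (D : Set R4) : ZMod 4 :=
  if (∃ f, IsCompPar stdTet HT f ∧ D = f '' Disk) then
    (if ∀ x ∈ D, x ∉ HT → 0 < G (th x) then 0 else 1)
  else (if ∀ x ∈ D, x ∉ HT → 0 < G (th x) then 3 else 2)

/-- (module ISO) isotopic disks have the same label; `Stmt_TRS → Stmt_TR2 → Stmt_MOD → Stmt_GF → Stmt_SID → Stmt_CON → Stmt_ISO`.
Proof.  The two alternatives of `Isotopic` give compressing disks, resp. edge-compressing disks, for all `t`, and a set is not both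
(an edge-compressing disk contains points of `bd`).  Side: by `Stmt_TR2` for the inverse model (`Stmt_TRS`, `HT = thi '' HC`, `th '' HT = HC`) the disks of the isotopy avoid `ends`
and `th ∘ F(·,t)` is a disk in `cyl`; `t ↦ G (th (F (0,t)))` (resp. at `z = i/2`) is continuous and nonzero on
`[0,1]`, so of constant sign, and by `Stmt_SID` this sign is the side of the whole disk (`x ∈ HT ↔ th x ∈ HC` for
`x` in the body off `ends`; a point `F (z,t)` of a compressing disk is in `HT` iff `‖z‖ = 1`). -/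
def Stmt_ISO : Prop :=
  ∀ D D' : CE stdTet HT, Isotopic stdTet HT D.1 D'.1 → labD D.1 = labD D'.1

/-- (module ADJ) disks with opposite labels are not disjoint off the skeleton;
`Stmt_TRS → Stmt_TR2 → Stmt_MOD → Stmt_GF → Stmt_SID → Stmt_IOT → Stmt_NAX → Stmt_CON → Stmt_ADJ`.
Proof.  Carry both disks to `cyl` by `Stmt_TR2` for the inverse model (`Stmt_TRS`).  Labels `{0,2}`: `Stmt_NAX`.  Labels `{1,3}`: apply `iota` to both (`Stmt_IOT`,
`G` changes sign): again `Stmt_NAX`.  (`D ∩ D' ⊆ stdTet.skel` gives the inclusion in `cyl.skel` for the images under `th`, since both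
disks are off `ends` and `th` is injective there.) -/
def Stmt_ADJ : Prop :=
  ∀ D D' : CE stdTet HT, labD D.1 = labD D'.1 + 2 → ¬ (D.1 ∩ D'.1 ⊆ stdTet.skel)

/-- (module FOU) the four disks;
`Stmt_TR2 → Stmt_MOD → Stmt_GF → Stmt_DCX → Stmt_DEX → Stmt_IOT → Stmt_CON → Stmt_FOU`.
Proof.  `D 0 = thi (fCX)`, `D 1 = thi (iota fCX)`, `D 2 = thi (iota fEX)`, `D 3 = thi (fEX)`.  Labels from the signs of `G`
(`G ∘ iota = -G`; the point `z = 0`, resp. `z = i/2`, shows `1` and `2`).  Disjointness in `cyl`: `w = -1/2` on `D 0`,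
`w = 1/2` on `D 1`, `w ≤ 0`, `u > 0` on `D 2`, `w ≥ 0`, `u < 0` on `D 3`: consecutive ones are disjoint. -/
def Stmt_FOU : Prop :=
  ∃ D : ZMod 4 → CE stdTet HT, (∀ i, labD (D i).1 = i) ∧ ∀ i, (D i).1 ∩ (D (i + 1)).1 = ∅

/-- (module K3X; `K.S_K34 → Stmt_K3`) a label map to the 4-cycle without opposite labels on a
face, and a 4-cycle of vertices with the four labels, give `π₁ ≠ 0` and non-contractibility.
Proof: `K.S_K34` with `m = 1`, the labels `0, 1, 2, 3` replaced by `e₀, e₁, -e₀, -e₁` (`e_i = Pi.single i 1`), `pos = ![v 0, v 1]`,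
`neg = ![v 2, v 3]`.  The labels on a face contain no two opposite ones, so they are among two consecutive ones `i, i+1`, and
`0` is not in the convex hull (a linear functional is positive: `x 0 + x 1` for `e₀, e₁`, and so on; the set where it is
positive is convex).  The four sets `{v i, v (i+1)}` are faces by `down_closed`. -/
def Stmt_K3 : Prop :=
  ∀ (V : Type) (K : Cpx V) (lab : V → ZMod 4) (v : ZMod 4 → V),
    (∀ s ∈ K.faces, ∀ a ∈ s, ∀ b ∈ s, lab a ≠ lab b + 2) → (∀ i, lab (v i) = i) →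
    (∀ i, ∃ s ∈ K.faces, v i ∈ s ∧ v (i + 1) ∈ s) →
    PiNe 1 K.Space ∧ ¬ ContractibleSpace K.Space

/-- (module PFI) the result of block P;
`Stmt_K3 → K.S_K6 → Stmt_TR1 → Stmt_TR4 → Stmt_MOD → Stmt_SURF → Stmt_CON → Stmt_CHI → Stmt_ISO → Stmt_ADJ → Stmt_FOU → Stmt_PFI`.
Proof.  `labD` descends to `Vtx` (`Quot.lift`, `Stmt_ISO`).  On a face the representatives `D v` satisfy `Stmt_ADJ` for `v ≠ w`, and
`lab v ≠ lab v + 2`.  `Stmt_FOU` gives the four vertices; `{cls (D i), cls (D (i+1))}` is a face (two different classes since the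
labels differ; choose the representatives `D i`, `D (i+1)`).  `Stmt_K3` gives `PiNe 1` and not contractible; index by `K.S_K6`.  The surface: `Stmt_TR1`, `Stmt_TR4` for the
model `Stmt_MOD`. -/
def Stmt_PFI : Prop :=
  IsSurf stdTet HT ∧ IsConnected HT ∧ HasChi HT (-1) ∧ len stdTet HT = 12 ∧ WellDef stdTet HT ∧
    ∃ i ≤ 2, HasIndex stdTet HT i

end Pool.Agent.LIX.PP
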