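import Pool.Agent.LIX.StmtsL
import Pool.Agent.LIX.StmtsP
import Pool.Agent.LIX.StmtsG4

/-!
# LIX, block O: the octahedron in the disk complex of the torus, and the final assembly

Module `X` proves `theorem t_X : M_X` (or `t_X : S_X` if there is no `M_X`) in the namespace `Pool.Agent.LIX.O`, in
the file `Pool/Agent/LIX/O_X.lean`, importing this file only (and Mathlib). Complete proofs are in the doc-strings.
Useful proved lemmas: `GBase.lean` (`kinv`, `kinv_kap`, `kap_kinv`, `kap_injOn`, `kap_slit`, `arg_kap_fst`, `arg_kap_snd`,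
`norm_kap_fst`, `norm_kap_snd`, `kap_mem_S3`, `nrm_sq'`, `nrm_smul`, `mem_Sph_iff`, `TT_body_eq`, `KU`, `KO`, `S3_inter_KO`),
`GCol.lean` (`collar_TT : Collar TT HT VT col`, `col_eq`, `nrm_colarg`, `kap_mem_body`).
Statements of the blocks S, L, TR, P, K have the namespaces `S`, `L`, `TR`, `PP`, `K`; the plane toolkit (`S_CIR`, `S_EXT`, `S_HL1`,
`S_HL2`) is in `Pool.Agent.LIX`.
-/

set_option autoImplicit false

namespace Pool.Agent.LIX.O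

open Set Metric Complex

noncomputable section

/-! ## The swap of the coordinates -/

/-- The swap. -/
def sw (p : ℂ × ℂ) : ℂ × ℂ := (p.2, p.1)

/-- The corresponding rotation of the sphere. -/
def rt (v : ℂ × ℝ) : ℂ × ℝ := (-v.1, v.2)

/-- SW1. The swap preserves the model. PROOF. `kap (rt v) = sw (kap v)` from the definition, `nrm (rt v) = nrm v`. `S3`, `kap '' {nrm < 1/5}`,
`kap '' {nrm = 1/5}` are preserved (`rt (rt v) = v`). Edges: `rt (nml w) = nml (rt w)`, `-exp (i π (1/2 + k u)) = exp (i π (-1/2 + k u))`, so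
`rt '' Edg i j = Edg (Fin.rev i) (Fin.rev j)` (the 16 entries of the table; the polar arcs are preserved), hence `TT.edge i j` goes to
`TT.edge (Fin.rev i) (Fin.rev j)`. `sg (!b) = - sg b`, so `lon (!b) (rt v) = lon b v` and `dl (!b) j (rt v) = dl b j v`, and
`rt v ∈ Hem (!b) ↔ v ∈ Hem b`, `rt v ∈ ch (!b) j ↔ v ∈ ch b j`. -/
def S_SW1 : Prop :=
  (∀ v, kap (rt v) = sw (kap v)) ∧ (∀ v l, col (rt v, l) = sw (col (v, l))) ∧
  (∀ p, (sw p ∈ TT.body ↔ p ∈ TT.body) ∧ (sw p ∈ TT.bd ↔ p ∈ TT.bd) ∧ (sw p ∈ TT.skel ↔ p ∈ TT.skel) ∧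
    (sw p ∈ HT ↔ p ∈ HT)) ∧
  (∀ b p, sw p ∈ VT (!b) ↔ p ∈ VT b) ∧
  (∀ i j p, p ∈ TT.edge i j → sw p ∈ TT.edge (Fin.rev i) (Fin.rev j)) ∧
  (∀ b j v, dl (!b) j (rt v) = dl b j v ∧ (rt v ∈ Hem (!b) ↔ v ∈ Hem b) ∧ (rt v ∈ ch (!b) j ↔ v ∈ ch b j)) ∧
  (∀ b j, sw '' Chd b j = Chd (!b) j)

/-- SW2. The swap carries edge disks, and disks of type `X true j` to disks of type `X false j`. PROOF. The bicollar is `sw ∘ Φ`; the four
conditions from SW1. Type: `sw '' D = (sw ∘ f) '' HDisk`, `sw '' D ⊆ VT false`, `sw '' D ∩ TT.bd = sw '' (D ∩ TT.bd) = Chd false j`. If `Lf0 (sw '' D) S'`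
then `S p = - conj (S' (sw p))` satisfies `Lf0 D S`: `tor (- conj x) = sw (tor x)` (from SW1 and `tor x = kap (x.re, x.im)`), norms are the same. -/
def S_SW2 : Prop :=
  (∀ f, IsEdgePar TT HT f → IsEdgePar TT HT fun z => sw (f z)) ∧
  ∀ D j, HasTy D (Ty.X true j) → HasTy (sw '' D) (Ty.X false j)

def M_SW2 : Prop := S_SW1 → S_SW2

/-! ## The disk `M0` -/

/-- Parametrisation of `M0 = {arg p₁ = π, |p₁| ≥ |p₂|}`. -/
def fM (z : ℂ) : ℂ × ℂ := (-((√(1 - ‖z‖ ^ 2 / 2) : ℝ) : ℂ), ((1 / √2 : ℝ) : ℂ) * z)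

/-- MPR. `M0` is a compressing disk. PROOF. Bicollar `Φ (z, s) = (-√(1 - ‖z‖²/2) exp (s I), z / √2)`, `‖z‖ ≤ 1`, `|s| ≤ 1`. It is in `S3`
(`‖p₁‖² = 1 - ‖z‖²/2`, `‖p₂‖² = ‖z‖²/2`), the real part of the first coordinate is `-√(1-‖z‖²/2) cos s < 0` (`|s| ≤ 1 < π/2`, `1 - ‖z‖²/2 ≥ 1/2`), while for
`nrm v ≤ 1/5` `(kap v).1 = cos (π/4 - y) exp (i (z + x))` has positive real part (`|z + x| ≤ 2/5`), so the point is not in `kap '' {nrm v < 1/5}` and not in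
`TT.bd`. `‖p₁‖ = ‖p₂‖` iff `‖z‖ = 1` (so in `HT` iff `‖z‖ = 1`); `‖p₁‖ ≥ ‖p₂‖` always. Injective: the second coordinate gives `z`, then `exp (s I)` gives `s`.
Essential: let `g` be continuous on `Disk` with values in `HT` and `g z = fM z` for `‖z‖ = 1`. Then `h z = (g z).2 ≠ 0` on `Disk` (on `HT` both coordinates have
norm `1/√2`) and `h z = z/√2` on the circle. S_EXT (`Pool.Agent.LIX.S_EXT`, of the plane toolkit) gives `LogOn (sphere 0 1) h 0`, i.e. `φ` continuous with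
`h z = ‖h z‖ exp (i φ)`, so `z = ‖z‖ exp (i φ z)`: `HasLog (sphere 0 1) 0`, contradiction to S_CIR. -/
def S_MPR : Prop := IsCompPar TT HT fM ∧ ∀ z ∈ Disk, (fM z).1.re < 0 ∧ fM z ∈ VT true

def M_MPR : Prop := S_CIR → S_EXT → S_MPR

/-- TYM. PROOF. `Comp true` from MPR. If `Lf0 (fM '' Disk) S`: for `‖z‖ = 1` `fM z ∈ HT` and `tor (S (fM z)) = fM z`, second coordinate (L.S_TOR):
`cos (π/4) exp (i ph (S (fM z))) = z/√2`, so `z = exp (i φ z)` with `φ z = ph (S (fM z))` continuous on the circle: `HasLog (sphere 0 1) 0`,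
contradiction to S_CIR. -/
def S_TYM : Prop := HasTy (fM '' Disk) (Ty.M true)

def M_TYM : Prop := S_CIR → L.S_TOR → S_MPR → S_TYM

/-! ## The disk `XA3` -/

/-- The conformal map of the half disk onto the disk. -/
def qh (z : ℂ) : ℂ := -I * ((1 + z) ^ 2 - I * (1 - z) ^ 2) / ((1 + z) ^ 2 + I * (1 - z) ^ 2)

/-- HDD. PROOF. Let `A = (1+z)²`, `B = (1-z)²`, `u = (1+z) conj (1-z) = (1 - ‖z‖²) + 2 i (im z)`. `‖A + iB‖² - ‖A - iB‖² = 4 im (A conj B) = 4 im (u²) = 16 (1 - ‖z‖²) im z ≥ 0`.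
The denominator is not `0`: otherwise the numerator is `0` too and `A = B = 0`. So `‖qh z‖ ≤ 1`, with equality iff `‖z‖ = 1` or `im z = 0`.
`re (qh z) = im ((A - iB) conj (A + iB)) / ‖A + iB‖² = -2 re (u²) / ‖A + iB‖² = (8 (im z)² - 2 (1 - ‖z‖²)²) / ‖A + iB‖²`. Injective: `qh z = qh z'` gives
`A B' = A' B`, so `(1+z)(1-z') = ± (1+z')(1-z)`; `+`: `z = z'`; `-`: `z z' = 1`, so `‖z‖ = ‖z'‖ = 1`, `z' = conj z`, both with `im ≥ 0`: `im z = 0`, `z = z'`. -/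
def S_HDD : Prop := ContinuousOn qh HDisk ∧ InjOn qh HDisk ∧
  (∀ z ∈ HDisk, ‖qh z‖ ≤ 1 ∧ (‖qh z‖ = 1 ↔ ‖z‖ = 1 ∨ z.im = 0) ∧ (‖z‖ = 1 → 0 ≤ (qh z).re) ∧
    (z.im = 0 → (qh z).re ≤ 0) ∧ (‖qh z‖ = 1 → (qh z).re = 0 → ‖z‖ = 1 ∧ z.im = 0)) ∧
  qh 1 = -I ∧ qh (-1) = I

/-- The angle `φ_s` where the plane `θ = s/1000` meets the hole in the torus. -/
def fx (s : ℝ) : ℝ := √(2 / 25 - (s / 1000) ^ 2)

/-- The parameter of the Moebius map. -/
def am (s : ℝ) : ℝ := (1 - Real.sin (fx s)) / Real.cos (fx s)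

/-- The map of the half disk to the disk which takes the semicircle to the arc `|arg| ≤ fx s`. -/
def Wm (x : ℂ × ℝ) : ℂ := (qh x.1 + (am x.2 : ℂ)) / (1 + (am x.2 : ℂ) * qh x.1)

/-- WMO. PROOF. For `|s| ≤ 1`: `0 < fx s < 1/2`, `a = am s ∈ (0, 1)`, continuous in `s`, `2 a / (1 + a²) = cos (fx s)`, `(1 - a²) / (1 + a²) = sin (fx s)` (with
`a² = (1 - sin)/(1 + sin)`). For `q = qh z`, `W = (q + a)/(1 + a q)`: `‖1 + a q‖² - ‖q + a‖² = (1 - a²)(1 - ‖q‖²)`, so `‖W‖ ≤ 1`, `‖W‖ = 1 ↔ ‖q‖ = 1`. `q ↦ W` is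
injective. For `‖q‖ = 1`: `re W - cos (fx s) = (1 - a²)² re q / ((1 + a²) ‖1 + a q‖²)`, and `|arg W| ≤ fx s ↔ cos (fx s) ≤ re W` (`re W = cos (arg W)`, `cos` is strictly decreasing on
`[0, π]`, `|arg W| ≤ π`). Combine with HDD: if `‖z‖ = 1` then `re q ≥ 0`; if `‖W‖ = 1` and `|arg W| ≤ fx s` then `‖q‖ = 1`, `re q ≥ 0`, and if `im z = 0` then
`re q ≤ 0`, so `re q = 0`, `‖z‖ = 1`. The other equivalence is similar. For `z = 1`: `W = (a - i)/(1 - a i) = (2a - (1 - a²) i)/(1 + a²) = cos (fx s) - i sin (fx s)`. -/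
def S_WMO : Prop := ContinuousOn Wm (HDisk ×ˢ Icc (-1) 1) ∧ ∀ s ∈ Icc (-1 : ℝ) 1,
  InjOn (fun z => Wm (z, s)) HDisk ∧
  (∀ z ∈ HDisk, ‖Wm (z, s)‖ ≤ 1 ∧ (‖z‖ = 1 ↔ ‖Wm (z, s)‖ = 1 ∧ |arg (Wm (z, s))| ≤ fx s) ∧
    (z.im = 0 ↔ ‖Wm (z, s)‖ = 1 ∧ fx s ≤ |arg (Wm (z, s))|)) ∧
  arg (Wm (1, s)) = - fx s ∧ arg (Wm (-1, s)) = fx s

def M_WMO : Prop := S_HDD → S_WMO

/-- The radial cut-off of the hole. -/
def Yc (s : ℝ) (w : ℂ) : ℝ := √(max 0 (fx s ^ 2 - arg w ^ 2) / 2)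

/-- The map of the disk to the disk `{|p₂| ≤ 1/√2}` minus the hole. -/
def cw (s : ℝ) (w : ℂ) : ℂ := ((Real.cos (Real.pi / 4 + Yc s w) : ℝ) : ℂ) * w

/-- The point of the 3-sphere with `arg p₁ = s/1000` and `p₂ = w`. -/
def ps (s : ℝ) (w : ℂ) : ℂ × ℂ := (((√(1 - ‖w‖ ^ 2) : ℝ) : ℂ) * exp ((s / 1000 : ℝ) * I), w)

/-- PSC. PROOF. Let `|s| ≤ 1`, `‖w‖ ≤ 1`, `Y = Yc s w` (`0 ≤ Y ≤ 1/5`, so `π/4 ≤ π/4 + Y < π/2`), `c = cw s w`, `p = ps s c`, `r = √(1 - ‖c‖²)`. `‖c‖ = cos (π/4 + Y) ‖w‖ ≤ cos (π/4)`, so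
`r ≥ cos (π/4) ≥ ‖c‖`, `p ∈ S3`. `arg p₁ = s/1000`, `arg c = arg w` (also for `w = 0`). With `y = π/4 - arccos r`: `cos (π/4 + y) = ‖c‖ = cos (π/4 + Y) ‖w‖`, `0 ≤ y ≤ π/4`, so `Y ≤ y`
with equality iff `‖w‖ = 1`. `kinv p = (⟨(s/1000 - arg w)/2, y⟩, (s/1000 + arg w)/2)`, and by `nrm_sq'`
`nrm (kinv p)² - 1/25 = ((arg w)² - (fx s)²)/2 + y² ≥ ((arg w)² - (fx s)²)/2 + Y² ≥ 0` since `(fx s)² = 2/25 - (s/1000)²`, `Y² = max 0 (fx² - arg²)/2`.
BODY: `TT_body_eq`. BD: `p ∈ TT.bd ↔ nrm (kinv p) = 1/5` (`kinv_kap`, `kap_kinv`) `↔ ‖w‖ = 1 ∧ |arg w| ≤ fx s` (if equality holds then `y² = (fx² - arg²)/2 ≤ Y²`, so `y = Y`).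
HT: `r = ‖c‖ ↔ ‖c‖ = cos (π/4) ↔ ‖w‖ = 1 ∧ Y = 0 ↔ ‖w‖ = 1 ∧ fx s ≤ |arg w|`. LAST: `v = 5 kinv p` (`nrm v = 1`, `v.1.im = 5 y ≥ 0`, `v.2 + v.1.re = 5 s/1000`, `col (v, 0) = kap (v/5) = p`).
CONTINUITY of `(s, w) ↦ cw s w`: at `w` in the slit plane clear; if `re w < 0` then near `w` `|arg| > π/2 > fx`, so `Yc = 0` and `cw = cos (π/4) w`; at `w = 0`:
`‖cw s w‖ ≤ ‖w‖`. INJECTIVITY: `ps s c = ps s' c'` gives `c = c'`, `s = s'` (arguments); `cw s w = cw s w'`: both zero or `arg w = arg w'`, so `Yc` is the same, so `w = w'`. -/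
def S_PSC : Prop :=
  ContinuousOn (fun x : ℝ × ℂ => ps x.1 (cw x.1 x.2)) (Icc (-1) 1 ×ˢ Disk) ∧
  InjOn (fun x : ℝ × ℂ => ps x.1 (cw x.1 x.2)) (Icc (-1) 1 ×ˢ Disk) ∧
  ∀ s ∈ Icc (-1 : ℝ) 1, ∀ w ∈ Disk, ps s (cw s w) ∈ VT true ∧
    (ps s (cw s w) ∈ TT.bd ↔ ‖w‖ = 1 ∧ |arg w| ≤ fx s) ∧
    (ps s (cw s w) ∈ HT ↔ ‖w‖ = 1 ∧ fx s ≤ |arg w|) ∧
    (ps s (cw s w) ∈ TT.bd → ∃ v ∈ Hem true, v.2 + v.1.re = s / 200 ∧ ps s (cw s w) = col (v, 0)) ∧
    (‖w‖ = 1 → fx s ≤ |arg w| → cw s w = ((Real.cos (Real.pi / 4) : ℝ) : ℂ) * w)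

/-- DL2. The third chord is a plane section. PROOF. `lon b v = f ∈ [0,1]`, `sg b * v.1.re = ‖v.1‖ cos (π f)` (S_LON), and `Mf (6 + 4 f) = sin (π f - π/2) = - cos (π f)` for
`f ∈ [0,1]` (definition of `Mf`); for `v.1 = 0` both sides are `v.2`. -/
def S_DL2 : Prop := ∀ b, ∀ v ∈ Hem b, dl b 2 v = v.2 + sg b * v.1.re

def M_DL2 : Prop := S.S_LON → S_DL2

/-- The bicollar of `XA3`. -/
def PhX (x : ℂ × ℝ) : ℂ × ℂ := ps x.2 (cw x.2 (Wm x))

/-- Parametrisation of `XA3 = {arg p₁ = 0, |p₁| ≥ |p₂|}` in the body. -/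
def fX (z : ℂ) : ℂ × ℂ := PhX (z, 0)

/-- XPR. `XA3` is an edge disk. PROOF. The bicollar is `PhX`: continuous and injective by WMO and PSC (`Wm (z, s) ∈ Disk`). `bd`, `HT`: the equivalences of PSC and WMO. Skeleton:
`TT.skel ⊆ TT.bd` (`TT.edge i j = col (Edg i j × 0)`, `Edg i j ⊆ Sph`: L.S_PRJ), so let `‖z‖ = 1`, `p = PhX (z, s) = col (v, 0)`, `v ∈ Hem true`, `dl true 2 v = v.2 + v.1.re = s/200` (DL2).
`p ∈ TT.skel ↔ v ∈ Skl` (injectivity of `v ↦ col (v, 0)` on `Sph`, `collar_TT.inj`, `collar_TT.edge`). If `s = 0` then `v ∈ ch true 2 ⊆ Skl` (S_CHE). If `v ∈ Skl`: `‖v.1‖ ≥ 1/2` (otherwise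
`|v.2| ≤ |v.1.re| + 1/200 < 51/100` and `‖v.1‖² + v.2² < 1`), so `|dl true 2 v| ≤ 1/200 ≤ ‖v.1‖/100`, S_LSK gives `dl true 2 v = 0`, `s = 0`. Edge: for `s = 0`, `‖z‖ = 1` the point `v` is in
`ch true 2`, which is contained in one `Edg i i'` (S_CHE). First coordinate for `s = 0`: `√(1 - ‖c‖²)`, positive since `‖c‖ ≤ cos (π/4)` (or since `fX z ∈ VT true`, L.S_PRJ). -/
def S_XPR : Prop := IsEdgePar TT HT fX ∧
  (∀ z ∈ HDisk, fX z ∈ VT true ∧ (fX z).1.im = 0 ∧ 0 < (fX z).1.re ∧ (fX z ∈ TT.bd → fX z ∈ Chd true 2)) ∧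
  ∀ z ∈ HDisk, z.im = 0 → (fX z).2 = ((Real.cos (Real.pi / 4) : ℝ) : ℂ) * Wm (z, 0)

def M_XPR : Prop := L.S_PRJ → S.S_CHE → S.S_LSK → S_WMO → S_PSC → S_DL2 → S_XPR

/-- TYX. PROOF. `D = fX '' HDisk`. L.S_KDD (second part): `D ∩ TT.bd = Chd b j`, `D ⊆ VT b`. By XPR `Chd b j ⊆ Chd true 2`, so `ch b j ⊆ ch true 2` (injectivity of `v ↦ col (v, 0)` on `Sph`).
The point `v₀ = nml (sg b * I, Mf (hj j (1/2)))` is in `ch b j` (`lon b v₀ = 1/2`): `v₀ ∈ Hem true` gives `b = true`, and DL2 at `v₀` gives `Mf (hj j (1/2)) = 0 = Mf 8`, so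
`hj j (1/2) = 8`, `j = 2`. So `Edge true 2 D`. Let `Lf0 D S`. `ψ x = ph (S (fX x))`, `x ∈ [-1,1]`, is continuous, and `exp (i ψ x) = Wm (x, 0)` (second coordinate of `tor`, XPR). At `x = ± 1`:
`fX x ∈ TT.bd` (WMO, PSC), `‖S‖ ≤ 1/5`, `|ψ| ≤ √2/5 = fx 0`, so `ψ x = arg (Wm (x, 0))`: `ψ (-1) = fx 0 > 0 > - fx 0 = ψ 1`. By the intermediate value theorem `ψ x = 0` for some `x`, so
`Wm (x, 0) = 1`, `arg = 0`, contradiction to `fx 0 ≤ |arg (Wm (x, 0))|`. -/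
def S_TYX : Prop := HasTy (fX '' HDisk) (Ty.X true 2)

def M_TYX : Prop := S.S_MF → S.S_NML → S.S_LON → L.S_TOR → L.S_KDD → S_WMO → S_PSC → S_DL2 → S_XPR → S_TYX

/-! ## The graph disks -/

/-- The height functions of the graph disks. -/
def et (J : S.Ct) (v : ℂ × ℝ) : ℝ := S.xi J v / 2

/-- ADM. PROOF. On `Rg`: `0 ≤ sg d * dl` and `|dl| ≤ 3` (S_DLC), so `0 ≤ xi ≤ 3/8`; `xi = 0 ↔ dl = 0`; continuity from S_DLC (`Rg ⊆ {0 ≤ sg b * im}`). -/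
def S_ADM : Prop := ∀ J, S.Adm J (et J)

def M_ADM : Prop := S.S_DLC → S_ADM

/-- TYG. Types of graph disks. PROOF. Let `J = (b, j, d)`, `D = GD col J η`. `D = f '' HDisk` for the edge parametrisation of S_GE (`collar_TT`; `qI '' HDisk = Rg` by S_QI). `D ⊆ VT b`
(`collar_TT.side`), `D ∩ TT.bd = Chd b j` (`col (v, l) ∈ TT.bd ↔ l = 0` from `collar_TT.bd`, `inj`; `η v = 0 ↔ dl b j v = 0`). `Lf0 D pr`: points of `D` are `kap w`, `w = ((1+l)/5) v`,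
`nrm w ≤ 2/5`; `pr` is continuous there (`kap_slit`, `continuousAt_arg`), and if `kap w ∈ HT` then `v.1.im = 0` (`collar_TT.surf`), so `kap w = tor (pr (kap w))` (L.S_PRJ first part, definition of `tor`); on
`bd` use L.S_PRJ. Let `d = true` (for `d = false` exchange `nn` and `ss`, up and down). `K = Kset D pr` is compact (`D ∩ HT`, `D ∩ bd` are compact: continuous images of compact
subsets of `Rg`) and contained in `closedBall 0 (2/5)`. The ray `{-(t : ℝ) i | t ≥ 9/50}` does not meet `K`: a point `x ∈ K` with `re x = 0` is either `pr (col (v, η v))` with `v ∈ Rg`, `v.1.im = 0`, so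
`v.1 = 0` and (S_DLC) `0 ≤ dl b j v = v.2`, `v.2 = 1`, `im x > 0`; or in `Chp b j`, and then `|im x| < 9/50` (L.S_CHD). So `HasLog K ss` by S_HL2 for a far point of the ray and S_HL1. L.S_KH5: `¬ HasLog K nn`. -/
def S_TYG : Prop := ∀ (J : S.Ct) (η : ℂ × ℝ → ℝ), S.Adm J η →
  HasTy (S.GD col J η) (if J.2.2 = true then Ty.U J.1 J.2.1 else Ty.D J.1 J.2.1)

def M_TYG : Prop := S_HL1 → S_HL2 → S.S_DLC → S.S_QI → S.S_GE → L.S_PRJ → L.S_CHD → L.S_KH5 → S_TYG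

/-! ## The octahedron -/

/-- The six disks: `M0`, `XB3`; `down B1`, `down A1`; `XA3`, `up B3`. -/
def DO : Fin 3 → Bool → Set (ℂ × ℂ)
  | 0, true => fM '' Disk
  | 0, false => sw '' (fX '' HDisk)
  | 1, true => S.GD col (false, 0, false) (et (false, 0, false))
  | 1, false => S.GD col (true, 0, false) (et (true, 0, false))
  | 2, true => fX '' HDisk
  | 2, false => S.GD col (false, 2, true) (et (false, 2, true))

/-- Their types. -/
def dty : Fin 3 → Bool → Ty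
  | 0, true => Ty.M true
  | 0, false => Ty.X false 2
  | 1, true => Ty.D false 0
  | 1, false => Ty.D true 0
  | 2, true => Ty.X true 2
  | 2, false => Ty.U false 2

/-- DTY. Types and labels of the six disks. From TYM, TYX, SW2, TYG, ADM; the labels by evaluation. -/
def S_DTY : Prop := (∀ i a, HasTy (DO i a) (dty i a)) ∧ (∀ i, lv (dty i true) = Pi.single i 1) ∧
  ∀ i, lv (dty i false) = - Pi.single i 1

def M_DTY : Prop := S_TYM → S_TYX → S_SW2 → S_TYG → S_ADM → S_DTY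

/-- OIN. Non-opposite disks meet only in the skeleton. PROOF. Facts. (a) a point of `fM '' Disk` has `re p₁ < 0` (MPR); a point of `fX '' HDisk` has `p₁` real positive and is in `VT true`
(XPR); a point of `sw '' (fX '' HDisk)` has `p₂` real positive and is in `VT false` (SW1). (b) For `v ∈ Sph`, `l ∈ [0,1]`, `col (v, l) = kap (((1+l)/5) v)` has positive
real parts of both coordinates (`arg_kap_fst`, `arg_kap_snd`, `kap_slit`: the arguments have absolute value `≤ 4/5 < π/2`), so graph disks do not meet `fM '' Disk`; if `col (v, l) ∈ fX '' HDisk` then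
`arg p₁ = (1+l)/5 (v.2 + v.1.re) = 0` and `v ∈ Hem true` (`collar_TT.side`), so by DL2 `v ∈ ch true 2`; if `col (v, l) ∈ sw '' (fX '' HDisk)` then `v ∈ ch false 2` in the same way. (c) PAIRS.
`M0 - XA3`: `re p₁` negative resp. positive. `XA3 - XB3`: `p₁, p₂` real positive and `‖p₁‖ = ‖p₂‖` (`VT true ∩ VT false`), `p ∈ S3`, so `p = kap 0`, not in the body. Graph disks with `M0`: (b).
Graph disk `J` with `XA3` (`J = (false,0,false), (true,0,false)`) or with `XB3` (`J = (false,0,false), (true,0,false), (false,2,true)`): the common point is `col (v, et J v)` with `v ∈ Rg J` and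
`v ∈ ch q`, `q = (true, 2)` resp. `(false, 2)`; `cptk (some J) (some q) = true` (by `decide` or `rfl`/`simp`), so by S_TRC `dl J v = 0`, `et J v = 0` (ADM), `v ∈ ch J ⊆ Skl` (S_CHE), the point is in `TT.skel`
(`collar_TT.edge`). Two graph disks `J = (false,0,false)` or `(true,0,false)` and `J' = (false,2,true)`: `cpt2 (some J) (some J') = true`; a common point is `col (v, l)` with `l = et J v = et J' v`
(`collar_TT.inj`); by S_XI `v` is on one of the two chords and then `l = 0` and the point is in `TT.skel`. The remaining pairs are the same with the order exchanged. -/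
def S_OIN : Prop := ∀ i j a b, i ≠ j → DO i a ∩ DO j b ⊆ TT.skel

def M_OIN : Prop := S.S_CHE → S.S_XI → S.S_TRC → L.S_PRJ → S_SW1 → S_MPR → S_XPR → S_DL2 → S_ADM → S_OIN

open Classical in
/-- FAC. PROOF. `D`-representatives: for `v` in the image choose `i` with `v = cls (D i (b i))`; different `v` have different `i`. (Write the image as
`Finset.univ.image fun i => cls (D i (b i))`: `b i = true` or `false`.) -/
def S_FAC : Prop := ∀ (Y : Type) [TopologicalSpace Y] (T : Cells Y) (H : Set Y) (D : Fin 3 → Bool → CE T H),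
  (∀ i j a b, i ≠ j → (D i a).1 ∩ (D j b).1 ⊆ T.skel) → ∀ b : Fin 3 → Bool,
    (Finset.univ.image fun i => if b i = true then cls (D i true) else cls (D i false)) ∈ (diskCpx T H).faces

/-! ## Assembly -/

/-- Block G2: the surface. -/
def S_G2 : Prop := IsSurf TT HT ∧ IsConnected HT ∧ HasChi HT (-1) ∧ len TT HT = 12

/-- Block G3: the peripheral loops are essential. -/
def S_G3 : Prop := S.Peri HT col

/-- OAS. The index of the torus. PROOF. The disks `DO i a` are in `CE(HT)` (from their types: `Comp` or `Edge`). K34 with `m = 2`, `lab` of L.S_LBM, `pos i = cls (DO i true)`,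
`neg i = cls (DO i false)`, FAC and OIN: `PiNe 2` and not contractible. S_ASM with `collar_TT` and G3: not `PiNe 0`, not `PiNe 1`. K6 (second part): `HasIndex TT HT 3`. -/
def S_OAS : Prop := HasIndex TT HT 3 ∧ WellDef TT HT

def M_OAS : Prop := K.S_K34 → K.S_K6 → S.S_ASM → L.S_LBM → S_G3 → S_DTY → S_OIN → S_FAC → S_OAS

/-- MAIN. PROOF. `H = PP.HT` by PFI; `H' = g '' HT` for the model `G4.S_MOD` (`T = stdTet`, `T' = TT`, `A = A' = ∅`), by TR1, TR4, TR8. -/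
def M_MAIN : Prop := PP.Stmt_PFI → TR.Stmt_TR1 → TR.Stmt_TR4 → TR.Stmt_TR8 → G4.S_MOD → S_G2 → S_OAS → Main

end

end Pool.Agent.LIX.O
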