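import Pool.Agent.LIX.StmtsK

/-!
# LIX, block TR: change of model

A homeomorphism `T.body \ A ≃ T'.body \ A'` (`A`, `A'` closed parts of the 1-skeletons which the surface does not
meet) carries surfaces, disks, disk complexes and indices.  All proofs are in the doc-strings.
-/

set_option autoImplicit false

namespace Pool.Agent.LIX.TR

open Set Metric

/-- An edge which is not contained in `A` is an arc whose points in `A` are end points (they are
extremal for an injective continuous function). -/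
def ArcCond {Y : Type} [TopologicalSpace Y] (T : Cells Y) (A : Set Y) : Prop :=
  ∀ i j, T.edge i j ⊆ A ∨ ∃ s : Y → ℝ, ContinuousOn s (T.edge i j) ∧
    InjOn s (T.edge i j) ∧ ∀ x ∈ T.edge i j, x ∈ A →
      (∀ y ∈ T.edge i j, s x ≤ s y) ∨ (∀ y ∈ T.edge i j, s y ≤ s x)

/-- `f : T.body \ A ≃ T'.body \ A'` (inverse `g`) is a homeomorphism respecting boundary and edges. -/
structure Model {Y Y' : Type} [TopologicalSpace Y] [TopologicalSpace Y'] (T : Cells Y)
    (T' : Cells Y') (A : Set Y) (A' : Set Y') (f : Y → Y') (g : Y' → Y) : Prop where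
  closed : IsClosed A
  closed' : IsClosed A'
  subs : A ⊆ T.skel
  subs' : A' ⊆ T'.skel
  skb : T.skel ⊆ T.bd
  skb' : T'.skel ⊆ T'.bd
  maps : ∀ x ∈ T.body, x ∉ A → f x ∈ T'.body ∧ f x ∉ A' ∧ g (f x) = x
  maps' : ∀ y ∈ T'.body, y ∉ A' → g y ∈ T.body ∧ g y ∉ A ∧ f (g y) = y
  contf : ContinuousOn f (T.body \ A)
  contg : ContinuousOn g (T'.body \ A')
  bd : ∀ x ∈ T.body, x ∉ A → (x ∈ T.bd ↔ f x ∈ T'.bd)
  edge : ∀ x ∈ T.body, x ∉ A → ∀ i j, (x ∈ T.edge i j ↔ f x ∈ T'.edge i j)
  arc : ArcCond T A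
  arc' : ArcCond T' A'

/-- (module TRS) symmetry, and `f '' (g '' H') = H'`.  Proof: for `y ∈ T'.body \ A'` put `x = g y`, `f x = y`. -/
def Stmt_TRS : Prop :=
  ∀ (Y Y' : Type) [TopologicalSpace Y] [TopologicalSpace Y'] (T : Cells Y)
    (T' : Cells Y') (A : Set Y) (A' : Set Y') (f : Y → Y') (g : Y' → Y), Model T T' A A' f g →
    Model T' T A' A g f ∧
    ∀ H' : Set Y', H' ⊆ T'.body → Disjoint H' A' →
      f '' (g '' H') = H' ∧ g '' H' ⊆ T.body ∧ Disjoint (g '' H') A

/-- (module TR1) surfaces.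
Proof: `sub`, `compact` (image of a compact set under `g`, continuous on `T'.body \ A' ⊇ H'`).  `miss`: a point of
`g '' H'` is not in `A`, and if it is in `T.edge i i`, its image under `f` is in `T'.edge i i`.
Charts: let `p = g p'` and let `e : U' ∩ T'.body ≃ₜ W ∩ M` be a chart of `T'` at `p'`.  The set `W' = W \ e (A' …)`:
shrink first: `U'' = U' \ A'` is open, and `U'' ∩ T'.body` is open in `U' ∩ T'.body`, so its image under `e` is
`W'' ∩ M` with `W''` open, `W'' ⊆ W` (intersect with `W`).  `{x ∈ T.body \ A | f x ∈ U''}` is relatively open in `T.body \ A`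
(`ContinuousOn`), so it is `V ∩ (T.body \ A)` with `V` open, and `U = V \ A` is open with
`U ∩ T.body = V ∩ (T.body \ A)`.  `f` restricts to a homeomorphism `U ∩ T.body ≃ₜ U'' ∩ T'.body` (inverse
`g`); compose.  The three equivalences: `x ∈ g '' H' ↔ f x ∈ H'`, `bd`, and `x ∈ T.skel ↔ f x ∈ T'.skel` (from
`edge`).  `p ∈ T.bd ↔ p' ∈ T'.bd`, `p ∈ T.skel ↔ p' ∈ T'.skel` choose the right kind of chart. -/
def Stmt_TR1 : Prop :=
  ∀ (Y Y' : Type) [TopologicalSpace Y] [TopologicalSpace Y'] (T : Cells Y)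
    (T' : Cells Y') (A : Set Y) (A' : Set Y') (f : Y → Y') (g : Y' → Y), Model T T' A A' f g →
    ∀ H' : Set Y', Disjoint H' A' → IsSurf T' H' → IsSurf T (g '' H')

/-- (module TR2) disks avoid `A'` and are carried by `g`.
Proof.  Compressing: all points of the bicollar `Φ` are off `T'.bd ⊇ A'`; the bicollar `g ∘ Φ` works
(`x ∈ T.bd ↔ f x ∈ T'.bd` with `x = g y`; injectivity of `g` off `A'`).  Essential loop: an extension `k` of the boundary
loop of `g ∘ F` with values in `g '' H'` gives the extension `f ∘ k` with values in `H'`.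
Edge-compressing: points of the bicollar in `A'` are in `T'.skel`, so `‖z‖ = 1` and `s = 0`.  Let the semicircle be
mapped into `T'.edge i j`.  `F 1 ∈ H'` is not in `A'`, so `T'.edge i j` is not contained in `A'`; take `s` from
`ArcCond`.  `θ ↦ s (F (exp (iθ)))` on `[0,π]` is continuous and injective, hence strictly monotone or
antitone (`ContinuousOn.strictMonoOn_of_injOn_Icc'`), so for `0 < θ < π` it is neither minimal nor maximal on the edge:
the point is not in `A'`; for `θ = 0, π` the point is in `H'` (`im = 0`), not in `A'`.  So nothing of the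
bicollar is in `A'`. -/
def Stmt_TR2 : Prop :=
  ∀ (Y Y' : Type) [TopologicalSpace Y] [TopologicalSpace Y'] (T : Cells Y)
    (T' : Cells Y') (A : Set Y) (A' : Set Y') (f : Y → Y') (g : Y' → Y), Model T T' A A' f g →
    ∀ H' : Set Y', H' ⊆ T'.body → Disjoint H' A' →
      (∀ F : ℂ → Y', IsCompPar T' H' F →
        IsCompPar T (g '' H') (fun z => g (F z)) ∧ ∀ z ∈ Disk, F z ∈ T'.body ∧ F z ∉ A') ∧
      (∀ F : ℂ → Y', IsEdgePar T' H' F →
        IsEdgePar T (g '' H') (fun z => g (F z)) ∧ ∀ z ∈ HDisk, F z ∈ T'.body ∧ F z ∉ A')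

/-- (module TR4) Euler characteristic, length, connectedness.
Proof: `HasChi`: take the cells `g '' c i`.  `H'` is compact, `g` is continuous on it and injective there, so
`g : H' → g '' H'` is a homeomorphism.  `closure (g '' c) = g '' closure c` for `c ⊆ H'`: `closure c ⊆ H'` (`H'` compact in the
T2 space `Y'`, so closed) is compact, so `g '' closure c` is compact, so closed in the T2 space `Y`.  `len`: `g` is injective on
`H' ∩ T'.skel` and maps it onto `g '' H' ∩ T.skel`; `Set.ncard_image_of_injOn`. -/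
def Stmt_TR4 : Prop :=
  ∀ (Y Y' : Type) [TopologicalSpace Y] [T2Space Y] [TopologicalSpace Y'] [T2Space Y']
    (T : Cells Y) (T' : Cells Y') (A : Set Y) (A' : Set Y') (f : Y → Y') (g : Y' → Y),
    Model T T' A A' f g → ∀ H' : Set Y', H' ⊆ T'.body → Disjoint H' A' → IsCompact H' →
      (∀ n : ℤ, HasChi H' n → HasChi (g '' H') n) ∧ len T (g '' H') = len T' H' ∧
      (IsConnected H' → IsConnected (g '' H'))

/-- (module TR5; `Stmt_TRS → Stmt_TR2 → Stmt_TR5`) the disk complexes are isomorphic.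
Proof.  `D ↦ g '' D` is a bijection `CE T' H' → CE T (g '' H')` with inverse `D ↦ f '' D` (`Stmt_TR2` for the model and for its
inverse, `Stmt_TRS`; `g '' (F '' Disk) = (g ∘ F) '' Disk`).  It respects `Isotopic` in both directions (`g ∘ F` is continuous on
`Disk ×ˢ Icc 0 1`, where `F` has values in `T'.body \ A'` by `Stmt_TR2` for each `t`), so it descends to a bijection
of the quotients (`Quot.congr`).  Faces: `g '' D ∩ g '' D' ⊆ T.skel ↔ D ∩ D' ⊆ T'.skel` (`g` injective off `A'`); transport the choice of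
representatives. -/
def Stmt_TR5 : Prop :=
  ∀ (Y Y' : Type) [TopologicalSpace Y] [TopologicalSpace Y'] (T : Cells Y)
    (T' : Cells Y') (A : Set Y) (A' : Set Y') (f : Y → Y') (g : Y' → Y), Model T T' A A' f g →
    ∀ H' : Set Y', H' ⊆ T'.body → Disjoint H' A' →
      ∃ e : Vtx T' H' ≃ Vtx T (g '' H'), ∀ s : Finset (Vtx T' H'),
        s ∈ (diskCpx T' H').faces ↔ s.map e.toEmbedding ∈ (diskCpx T (g '' H')).faces

/-- (module TR8; `Stmt_TR5 → K.S_K7A → K.S_K7B → Stmt_TR8`) index and well-definedness are the same.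
Proof: `K.S_K7A` gives a homeomorphism of the realizations, `K.S_K7B` for it and its inverse transports `PiNe`; contractibility
is invariant under homeomorphisms; `IsEmpty`, `Nonempty` by the equivalence. -/
def Stmt_TR8 : Prop :=
  ∀ (Y Y' : Type) [TopologicalSpace Y] [TopologicalSpace Y'] (T : Cells Y)
    (T' : Cells Y') (A : Set Y) (A' : Set Y') (f : Y → Y') (g : Y' → Y), Model T T' A A' f g →
    ∀ H' : Set Y', H' ⊆ T'.body → Disjoint H' A' →
      (WellDef T' H' ↔ WellDef T (g '' H')) ∧ ∀ n, (HasIndex T' H' n ↔ HasIndex T (g '' H') n)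

end Pool.Agent.LIX.TR
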